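import Mathlib

set_option autoImplicit false

namespace Pool.Agent.H98.Emp

open Filter Topology MeasureTheory Finset BoundedContinuousFunction
open scoped ENNReal Classical

variable {X : Type*} [MeasurableSpace X]

/-- empirical measure of the first `N+1` points of the orbit of `y`. -/
noncomputable def emp (T : X → X) (y : X) (N : ℕ) : ProbabilityMeasure X :=
  ⟨((N + 1 : ℕ) : ℝ≥0∞)⁻¹ • ∑ i ∈ range (N + 1), Measure.dirac (T^[i] y), ⟨by
    simp only [Measure.smul_apply, Measure.coe_finset_sum, Finset.sum_apply, measure_univ,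
      sum_const, card_range, nsmul_eq_mul, mul_one, smul_eq_mul]
    exact ENNReal.inv_mul_cancel (by simp) (by simp)⟩⟩

lemma emp_apply (T : X → X) (y : X) (N : ℕ) {C : Set X} (hC : MeasurableSet C) :
    (emp T y N : Measure X) C =
      ((N + 1 : ℕ) : ℝ≥0∞)⁻¹ * ((range (N + 1)).filter fun i => T^[i] y ∈ C).card := by
  change (((N + 1 : ℕ) : ℝ≥0∞)⁻¹ • ∑ i ∈ range (N + 1), Measure.dirac (T^[i] y)) C = _
  simp only [Measure.smul_apply, Measure.coe_finset_sum, Finset.sum_apply, smul_eq_mul,
    Measure.dirac_apply' _ hC]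
  congr 1
  rw [Finset.card_filter]
  push_cast
  refine Finset.sum_congr rfl fun i _ => ?_
  by_cases h : T^[i] y ∈ C <;> simp [h]

lemma emp_real (T : X → X) (y : X) (N : ℕ) {C : Set X} (hC : MeasurableSet C) :
    (emp T y N : Measure X).real C =
      (((range (N + 1)).filter fun i => T^[i] y ∈ C).card : ℝ) / (N + 1) := by
  rw [Measure.real, emp_apply T y N hC, ENNReal.toReal_mul, ENNReal.toReal_inv]
  simp only [ENNReal.toReal_natCast]
  push_cast
  ring

variable [MetricSpace X] [BorelSpace X]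

lemma emp_integral (T : X → X) (y : X) (N : ℕ) (φ : X →ᵇ ℝ) :
    ∫ x, φ x ∂(emp T y N : Measure X) = (∑ i ∈ range (N + 1), φ (T^[i] y)) / (N + 1) := by
  change ∫ x, φ x ∂(((N + 1 : ℕ) : ℝ≥0∞)⁻¹ • ∑ i ∈ range (N + 1), Measure.dirac (T^[i] y)) = _
  rw [integral_smul_measure, integral_finset_sum_measure (fun i _ => φ.integrable _)]
  simp only [integral_dirac, ENNReal.toReal_inv, ENNReal.toReal_natCast, smul_eq_mul]
  push_cast
  ring

/-- cluster points of empirical measures along lengths going to infinity are invariant. -/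
lemma inv_of_cluster {ι : Type*} {l : Filter ι} {T : X → X} (hT : Continuous T) (y : ι → X)
    (N : ι → ℕ) (hN : Tendsto N l atTop) {μ : ProbabilityMeasure X}
    (h : MapClusterPt μ l fun j => emp T (y j) (N j)) : (μ : Measure X).map T = μ := by
  haveI : IsProbabilityMeasure ((μ : Measure X).map T) :=
    Measure.isProbabilityMeasure_map hT.measurable.aemeasurable
  refine ext_of_forall_integral_eq_of_IsFiniteMeasure fun φ => ?_
  rw [integral_map hT.measurable.aemeasurable φ.continuous.aestronglyMeasurable]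
  let ψ : X →ᵇ ℝ := φ.compContinuous ⟨T, hT⟩
  let Φ : ProbabilityMeasure X → ℝ := fun ν => ∫ x, ψ x ∂(ν : Measure X) - ∫ x, φ x ∂(ν : Measure X)
  have hΦ : Continuous Φ :=
    (ProbabilityMeasure.continuous_integral_boundedContinuousFunction ψ).sub
      (ProbabilityMeasure.continuous_integral_boundedContinuousFunction φ)
  have h1 : MapClusterPt (Φ μ) l fun j => Φ (emp T (y j) (N j)) :=
    h.tendsto_comp hΦ.continuousAt
  have h2 : Tendsto (fun j => Φ (emp T (y j) (N j))) l (𝓝 0) := by
    have hb : Tendsto (fun j => (2 * ‖φ‖) / ((N j : ℝ) + 1)) l (𝓝 0) :=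
      tendsto_const_nhds.div_atTop
        (tendsto_atTop_add_const_right _ _ (tendsto_natCast_atTop_atTop.comp hN))
    refine squeeze_zero_norm (fun j => ?_) hb
    simp only [Φ, emp_integral]
    rw [← sub_div, ← Finset.sum_sub_distrib]
    have : ∑ i ∈ range (N j + 1), (ψ (T^[i] (y j)) - φ (T^[i] (y j))) =
        φ (T^[N j + 1] (y j)) - φ (T^[0] (y j)) := by
      rw [← Finset.sum_range_sub (fun i => φ (T^[i] (y j)))]
      refine Finset.sum_congr rfl fun i _ => ?_
      rw [Function.iterate_succ_apply']; rfl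
    rw [this, norm_div, Real.norm_of_nonneg (by positivity : (0 : ℝ) ≤ (N j : ℝ) + 1)]
    gcongr
    refine (norm_sub_le _ _).trans ?_
    have a := φ.norm_coe_le_norm (T^[N j + 1] (y j))
    have b := φ.norm_coe_le_norm (T^[0] (y j))
    linarith
  have h3 : Φ μ = 0 := eq_of_nhds_neBot (ClusterPt.mono h1 h2)
  exact sub_eq_zero.1 h3

variable [CompactSpace X]

/-- Krylov-Bogolyubov with a lower bound on the mass of a closed set. -/
lemma exists_inv_ge {T : X → X} (hT : Continuous T) {C : Set X} (hC : IsClosed C) (δ : ℝ)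
    (h : ∀ M : ℕ, ∃ N ≥ M, ∃ y : X,
      δ * (N + 1) ≤ (((range (N + 1)).filter fun i => T^[i] y ∈ C).card : ℝ)) :
    ∃ μ : ProbabilityMeasure X, (μ : Measure X).map T = μ ∧ δ ≤ (μ : Measure X).real C := by
  choose N hN y hy using h
  have hNt : Tendsto N atTop atTop := tendsto_atTop_mono hN tendsto_id
  obtain ⟨μ, -, φ, hφ, hlim⟩ := (isCompact_univ (X := ProbabilityMeasure X)).tendsto_subseq
    (x := fun j => emp T (y j) (N j)) (fun _ => Set.mem_univ _)
  refine ⟨μ, inv_of_cluster hT (y ∘ φ) (N ∘ φ) (hNt.comp hφ.tendsto_atTop)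
    hlim.mapClusterPt, ?_⟩
  have h1 := ProbabilityMeasure.limsup_measure_closed_le_of_tendsto hlim hC
  have h2 : ENNReal.ofReal δ ≤ (μ : Measure X) C := by
    refine le_trans ?_ h1
    refine le_limsup_of_frequently_le (Eventually.frequently (Eventually.of_forall fun j => ?_))
    refine ENNReal.ofReal_le_of_le_toReal ?_
    have := emp_real T (y (φ j)) (N (φ j)) hC.measurableSet
    rw [Measure.real] at this
    simp only [Function.comp]
    rw [this, le_div_iff₀ (by positivity)]
    exact hy _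
  exact (ENNReal.ofReal_le_iff_le_toReal (measure_ne_top _ _)).1 h2

/-- uniform upper bound on visits to a closed set in a uniquely ergodic system. -/
lemma freq_le {T : X → X} (hT : Continuous T) {μ : ProbabilityMeasure X}
    (hu : ∀ ν : ProbabilityMeasure X, (ν : Measure X).map T = ν → ν = μ)
    {C : Set X} (hC : IsClosed C) {ε : ℝ} (hε : 0 < ε) :
    ∃ M : ℕ, ∀ N ≥ M, ∀ y : X, (((range N).filter fun i => T^[i] y ∈ C).card : ℝ) ≤
      ((μ : Measure X).real C + ε) * N := by
  by_contra hcon
  push Not at hcon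
  obtain ⟨ν, h1, h2⟩ := exists_inv_ge hT hC ((μ : Measure X).real C + ε) fun M => by
    obtain ⟨N, hN, y, hy⟩ := hcon (M + 1)
    obtain ⟨N, rfl⟩ : ∃ N', N = N' + 1 := ⟨N - 1, by omega⟩
    exact ⟨N, by omega, y, by push_cast at hy; exact hy.le⟩
  rw [hu ν h1] at h2
  linarith

end Pool.Agent.H98.Emp
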