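import Mathlib

set_option autoImplicit false
open Matrix
open scoped MatrixOrder ComplexOrder

namespace Pool.Agent.H98.BW

variable {ι κ μ : Type} [Fintype ι] [Fintype κ] [Fintype μ]

/-- squared Frobenius norm `Tr (Z Z^*)` -/
noncomputable def F (Z : Matrix ι κ ℂ) : ℝ := (Z * Zᴴ).trace.re

noncomputable def ip (X Y : Matrix ι κ ℂ) : ℂ := (X * Yᴴ).trace

lemma F_nonneg (Z : Matrix ι κ ℂ) : 0 ≤ F Z :=
  (Complex.le_def.1 (posSemidef_self_mul_conjTranspose Z).trace_nonneg).1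

lemma ip_symm (X Y : Matrix ι κ ℂ) : ip Y X = star (ip X Y) := by
  rw [ip, ip, ← trace_conjTranspose, conjTranspose_mul, conjTranspose_conjTranspose]

lemma F_comb (a b : ℂ) (X Y : Matrix ι κ ℂ) : F (a • X + b • Y) =
    Complex.normSq a * F X + Complex.normSq b * F Y + 2 * (a * star b * ip X Y).re := by
  have h := ip_symm X Y
  have h1 := congrArg Complex.im (ip_symm X X)
  have h2 := congrArg Complex.im (ip_symm Y Y)
  simp only [ip] at h h1 h2
  simp only [F, ip, conjTranspose_add, conjTranspose_smul, Matrix.add_mul, Matrix.mul_add,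
    Matrix.smul_mul, Matrix.mul_smul, trace_add, trace_smul, smul_eq_mul, h]
  simp only [Complex.star_def, Complex.conj_im] at h1 h2
  have h1 : (X * Xᴴ).trace.im = 0 := by linarith
  have h2 : (Y * Yᴴ).trace.im = 0 := by linarith
  simp [Complex.normSq_apply, h1, h2]
  ring

lemma F_rcomb (a b : ℝ) (X Y : Matrix ι κ ℂ) : F ((a : ℂ) • X + (b : ℂ) • Y) =
    a ^ 2 * F X + b ^ 2 * F Y + 2 * (a * b * (ip X Y).re) := by
  rw [F_comb]; simp [sq]

lemma F_star (Z : Matrix ι κ ℂ) : F Zᴴ = F Z := by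
  rw [F, F, conjTranspose_conjTranspose, trace_mul_comm]

lemma F_eq_zero {Z : Matrix ι κ ℂ} (h : F Z ≤ 0) : Z = 0 := by
  have h1 := Complex.le_def.1 (posSemidef_self_mul_conjTranspose Z).trace_nonneg
  exact trace_mul_conjTranspose_self_eq_zero_iff.1
    (Complex.ext (le_antisymm h h1.1) h1.2.symm)

lemma F_sub_le {M N : Matrix ι κ ℂ} {α β x y : ℝ} (hα : 0 ≤ α) (hβ : 0 ≤ β) (hx : 0 ≤ x)
    (hy : 0 ≤ y) (h1 : F M ≤ α * x) (h2 : F N ≤ β * y) : F (M - N) ≤ (α + β) * (x + y) := by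
  have e := F_rcomb 1 (-1) M N
  have e' := F_nonneg (((β : ℝ) : ℂ) • M + ((α : ℝ) : ℂ) • N)
  rw [F_rcomb] at e'
  simp only [Complex.ofReal_one, one_smul, Complex.ofReal_neg, neg_smul, ← sub_eq_add_neg] at e
  rcases hα.eq_or_lt with rfl | hα
  · rw [F_eq_zero (h1.trans_eq (zero_mul _))] at e ⊢
    simp only [ip, F, Matrix.zero_mul, trace_zero, Complex.zero_re] at e h2 ⊢
    nlinarith
  rcases hβ.eq_or_lt with rfl | hβ
  · rw [F_eq_zero (h2.trans_eq (zero_mul _)), sub_zero]; nlinarith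
  refine le_of_mul_le_mul_left ?_ (mul_pos hα hβ)
  have a := mul_le_mul_of_nonneg_left h1 (mul_pos hβ (add_pos hα hβ)).le
  have b := mul_le_mul_of_nonneg_left h2 (mul_pos hα (add_pos hα hβ)).le
  rw [e]; linarith

variable [DecidableEq ι] [DecidableEq κ]

/-- `X^* X ≤ c` -/
def Bd (X : Matrix ι κ ℂ) (c : ℝ) : Prop := ((c : ℂ) • (1 : Matrix κ κ ℂ) - Xᴴ * X).PosSemidef

omit [DecidableEq ι] in
lemma Bd.mul_le {X : Matrix ι κ ℂ} {c : ℝ} (h : Bd X c) (M : Matrix κ μ ℂ) :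
    F (X * M) ≤ c * F M := by
  have := (Complex.le_def.1 (h.conjTranspose_mul_mul_same M).trace_nonneg).1
  rw [← F_star, ← F_star M]
  simp only [F, conjTranspose_mul, conjTranspose_conjTranspose, Matrix.mul_sub, Matrix.sub_mul,
    Matrix.mul_smul, Matrix.smul_mul, Matrix.mul_one, trace_sub, trace_smul, smul_eq_mul,
    Matrix.mul_assoc, Complex.sub_re, Complex.re_ofReal_mul, Complex.zero_re] at this ⊢
  linarith

lemma Bd.flip {X : Matrix ι κ ℂ} {c : ℝ} (h : Bd X c) (hc : 0 ≤ c) : Bd Xᴴ c := by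
  rcases hc.eq_or_lt with rfl | hc
  · have := h.mul_le (1 : Matrix κ κ ℂ)
    rw [Matrix.mul_one, zero_mul] at this
    rw [F_eq_zero this]
    simpa [Bd] using PosSemidef.zero
  have h1 := (posSemidef_conjTranspose_mul_self ((c : ℂ) • (1 : Matrix ι ι ℂ) - X * Xᴴ)).add
    (h.mul_mul_conjTranspose_same X)
  have h2 := h1.smul (show (0 : ℂ) ≤ ((c⁻¹ : ℝ) : ℂ) by exact_mod_cast (inv_pos.2 hc).le)
  refine (congrArg PosSemidef ?_).mp h2
  have : (c : ℂ) ≠ 0 := by exact_mod_cast hc.ne'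
  simp only [conjTranspose_sub, conjTranspose_smul, conjTranspose_mul, conjTranspose_conjTranspose,
    conjTranspose_one, Matrix.mul_sub, Matrix.sub_mul, Matrix.mul_smul, Matrix.smul_mul,
    Matrix.mul_one, Matrix.one_mul, Matrix.mul_assoc, Complex.star_def, Complex.conj_ofReal,
    Complex.ofReal_inv]
  rw [sub_add_cancel, smul_smul, inv_mul_cancel₀ this, one_smul]

lemma Bd.mul_le' {X : Matrix ι κ ℂ} {c : ℝ} (h : Bd X c) (hc : 0 ≤ c) (M : Matrix μ ι ℂ) :
    F (M * X) ≤ c * F M := by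
  rw [← F_star, conjTranspose_mul, ← F_star M]; exact (h.flip hc).mul_le _

lemma split {P : Matrix ι ι ℂ} (h : Pᴴ = P) (h2 : P * P = P) (M : Matrix μ ι ℂ) :
    F M = F (M * P) + F (M * (1 - P)) := by
  have e := F_rcomb 1 1 (M * P) (M * (1 - P))
  have : ip (M * P) (M * (1 - P)) = 0 := by
    simp [ip, h, Matrix.mul_assoc, Matrix.sub_mul, Matrix.mul_sub, ← Matrix.mul_assoc P P, h2]
  simpa [this, ← Matrix.mul_add] using e

lemma split4 {P Q : Matrix ι ι ℂ} (h : Pᴴ = P) (h2 : P * P = P) (k : Qᴴ = Q) (k2 : Q * Q = Q)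
    (M : Matrix ι ι ℂ) : F M = F (Q * M * P) + F (Q * M * (1 - P)) + F ((1 - Q) * M * P) +
      F ((1 - Q) * M * (1 - P)) := by
  have e := split k k2 Mᴴ
  rw [F_star, ← F_star (_ * Q), ← F_star (_ * (1 - Q))] at e
  simp only [conjTranspose_mul, conjTranspose_sub, conjTranspose_one, k,
    conjTranspose_conjTranspose] at e
  rw [e, split h h2 (Q * M), split h h2 ((1 - Q) * M)]
  ring

lemma blk {X Y L R XL XR PL QR : Matrix ι ι ℂ} {α β : ℝ} (hα : 0 ≤ α) (hβ : 0 ≤ β)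
    (h1 : L * X = XL * PL) (h2 : X * R = QR * XR) (b1 : Bd XL α) (b2 : Bd XR β) :
    F (L * (X * Y - Y * X) * R) ≤ (α + β) * (F (PL * Y * R) + F (L * Y * QR)) := by
  have : L * (X * Y - Y * X) * R = XL * (PL * Y * R) - L * Y * QR * XR := by
    rw [mul_sub, sub_mul, ← mul_assoc, h1, mul_assoc L, mul_assoc Y, h2]; simp only [mul_assoc]
  rw [this]
  exact F_sub_le hα hβ (F_nonneg _) (F_nonneg _) (b1.mul_le _) (b2.mul_le' hβ _)

/-- `P` is a rank one spectral projection of `G` for the top eigenvalue `a`; the rest is `≤ b` -/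
structure Top (G P : Matrix ι ι ℂ) (a b : ℝ) : Prop where
  sa : Pᴴ = P
  pp : P * P = P
  one : ∀ N, P * N * P = (P * N).trace • P
  eig : G * P = (a : ℂ) • P
  rest : ((b : ℂ) • (1 : Matrix ι ι ℂ) - (G - (a : ℂ) • P)).PosSemidef

lemma core1 {X P : Matrix ι ι ℂ} {a b : ℝ} (ha : 0 < a) (hb : 0 ≤ b) (hab : b ≤ a)
    (h : Top (Xᴴ * X) P a b) (Y : Matrix ι ι ℂ) (hY : (P * (Xᴴ * (X * Y - Y * X))).trace = 0) :
    F (X * Y - Y * X) ≤ 2 * (a + b) * F Y := by
  have a0 : (a : ℂ) ≠ 0 := by exact_mod_cast ha.ne'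
  have e' : P * (Xᴴ * X) = (a : ℂ) • P := by
    simpa [h.sa] using congrArg conjTranspose h.eig
  set Q := (a : ℂ)⁻¹ • (X * P * Xᴴ) with hQ
  have qs : Qᴴ = Q := by simp [hQ, h.sa, mul_assoc]
  have qx : Q * X = X * P := by
    rw [hQ, smul_mul_assoc, mul_assoc, mul_assoc, e', mul_smul_comm, smul_smul,
      inv_mul_cancel₀ a0, one_smul]
  have qq : Q * Q = Q := by
    conv_lhs => enter [2]; rw [hQ]
    rw [mul_smul_comm, ← mul_assoc, ← mul_assoc, qx, mul_assoc X, h.pp]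
  have pp' : (1 - P) * (1 - P) = 1 - P := by simp [mul_sub, sub_mul, h.pp]
  have qx' : (1 - Q) * X = X * (1 - P) := by simp [mul_sub, sub_mul, qx]
  have b1 : Bd (X * P) a := by
    have := (posSemidef_conjTranspose_mul_self (1 - P)).smul
      (show (0 : ℂ) ≤ (a : ℂ) by exact_mod_cast ha.le)
    refine (congrArg PosSemidef ?_).mp this
    rw [conjTranspose_sub, conjTranspose_one, h.sa, pp', conjTranspose_mul, h.sa, mul_assoc,
      ← mul_assoc Xᴴ, h.eig, mul_smul_comm, h.pp, smul_sub]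
  have b2 : Bd (X * (1 - P)) b := by
    refine (congrArg PosSemidef ?_).mp h.rest
    rw [conjTranspose_mul, conjTranspose_sub, conjTranspose_one, h.sa, mul_assoc,
      ← mul_assoc Xᴴ, mul_sub, mul_one, h.eig, sub_mul, one_mul, mul_sub, e', mul_smul_comm, h.pp,
      sub_self, sub_zero]
  have l1 : Q * X = X * P * P := by rw [qx, mul_assoc, h.pp]
  have l2 : (1 - Q) * X = X * (1 - P) * (1 - P) := by rw [qx', mul_assoc, pp']
  have r1 : X * P = Q * (X * P) := by rw [← mul_assoc, qx, mul_assoc, h.pp]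
  have r2 : X * (1 - P) = (1 - Q) * (X * (1 - P)) := by rw [← mul_assoc, qx', mul_assoc, pp']
  have z : Q * (X * Y - Y * X) * P = 0 := by
    have := h.one (Xᴴ * (X * Y - Y * X))
    rw [hY, zero_smul] at this
    rw [hQ, smul_mul_assoc, smul_mul_assoc, mul_assoc X, mul_assoc X, mul_assoc X, mul_assoc P, this,
      mul_zero, smul_zero]
  have c1 := blk (Y := Y) ha.le hb l1 r2 b1 b2
  have c2 := blk (Y := Y) hb ha.le l2 r1 b2 b1
  have c3 := blk (Y := Y) hb hb l2 r2 b2 b2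
  have s1 := split4 h.sa h.pp h.sa h.pp Y
  have s2 := split4 qs qq qs qq Y
  rw [split4 h.sa h.pp qs qq (X * Y - Y * X), z]
  have f0 : F (0 : Matrix ι ι ℂ) = 0 := by simp [F]
  have := mul_nonneg (add_nonneg ha.le hb) (add_nonneg (F_nonneg (P * Y * P)) (F_nonneg (Q * Y * Q)))
  have := mul_nonneg (sub_nonneg.2 hab) (add_nonneg (F_nonneg ((1 - P) * Y * (1 - P)))
    (F_nonneg ((1 - Q) * Y * (1 - Q))))
  nlinarith

lemma core {X P : Matrix ι ι ℂ} {a b : ℝ} (ha : 0 < a) (hb : 0 ≤ b) (hab : b ≤ a)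
    (h : Top (Xᴴ * X) P a b) (Y : Matrix ι ι ℂ) : F (X * Y - Y * X) ≤ 2 * (a + b) * F Y := by
  set Z := X * Y - Y * X with hZ
  set W := X * Zᴴ - Zᴴ * X with hW
  set u := (P * (Xᴴ * Z)).trace
  set v := (P * (Xᴴ * W)).trace
  by_cases hu : u = 0
  · exact core1 ha hb hab h Y hu
  have e : X * (v • Y + (-u) • Zᴴ) - (v • Y + (-u) • Zᴴ) * X = v • Z + (-u) • W := by
    simp only [hW, mul_add, add_mul, mul_smul_comm, smul_mul_assoc, smul_sub]
    rw [hZ, smul_sub]; abel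
  have k := core1 ha hb hab h (v • Y + (-u) • Zᴴ) (by
    rw [e]; simp only [mul_add, mul_smul_comm, trace_add, trace_smul, smul_eq_mul]; ring)
  have cm : ∀ A B : Matrix ι ι ℂ, (B * (A * B - B * A)).trace = 0 := fun A B => by
    rw [mul_sub, trace_sub, ← mul_assoc, trace_mul_cycle, mul_assoc, sub_self]
  have o1 : ip Y Zᴴ = 0 := by rw [ip, conjTranspose_conjTranspose]; exact cm X Y
  have o2 : ip Z W = 0 := by
    rw [ip_symm, ip, trace_mul_comm, cm, star_zero]
  have o3 : (ip Yᴴ W).re = -F Z := by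
    rw [ip_symm, ip, conjTranspose_conjTranspose, hW, sub_mul, trace_sub, mul_assoc X,
      trace_mul_comm X, mul_assoc, mul_assoc, ← trace_sub, ← mul_sub, ← neg_sub, ← hZ, mul_neg,
      trace_neg, trace_mul_comm]
    simp [F]
  rw [e, F_comb, F_comb, o1, o2, F_star] at k
  simp only [mul_zero, Complex.zero_re, add_zero, Complex.normSq_neg] at k
  have u0 := Complex.normSq_pos.2 hu
  have v0 := Complex.normSq_nonneg v
  by_contra hc
  push Not at hc
  set c := 2 * (a + b)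
  have c0 : 0 < c := by positivity
  have g := F_nonneg ((c : ℂ) • Yᴴ + ((1 : ℝ) : ℂ) • W)
  rw [F_rcomb, o3, F_star] at g
  have g2 : c * F Z < F W := by nlinarith
  nlinarith [mul_le_mul_of_nonneg_left hc.le v0, mul_lt_mul_of_pos_left g2 u0]

end Pool.Agent.H98.BW
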