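import Mathlib

set_option autoImplicit false
open MeasureTheory ProbabilityTheory

namespace Pool.Agent.H98.Bern

variable {V X : Type*} [MeasurableSpace X] (p : Measure X) [IsProbabilityMeasure p]

lemma mp (σ : V → V) (hσ : Function.Injective σ) :
    MeasurePreserving (fun ω : V → X => ω ∘ σ) (Measure.infinitePi fun _ => p)
      (Measure.infinitePi fun _ => p) :=
  ⟨measurable_pi_lambda _ fun v => measurable_pi_apply _,
    Measure.map_infinitePi_infinitePi_of_inj (P := fun _ : V => p) hσ⟩

/-- asymptotic independence for Bernoulli shifts -/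
lemma zero_of_far (E : Set (V → X)) (hE : MeasurableSet E)
    (h : ∀ s : Finset V, ∃ σ : V → V, Function.Injective σ ∧ (∀ v ∈ s, σ v ∉ s) ∧
      (Measure.infinitePi fun _ => p) (E ∩ (fun ω : V → X => ω ∘ σ) ⁻¹' E) = 0) :
    (Measure.infinitePi fun _ : V => p) E = 0 := by
  classical
  set μ : Measure (V → X) := Measure.infinitePi fun _ => p with hμ
  have key : ∀ ε : ℝ, 0 < ε → ∃ c : ℝ, 0 ≤ c ∧ c ^ 2 ≤ 2 * ε ∧ μ.real E ≤ c + ε := by
    intro ε hε
    obtain ⟨C, hC, hCE⟩ := exists_measure_symmDiff_lt_of_generateFrom_isSetRing (μ := μ)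
      (isSetRing_measurableCylinders (α := fun _ : V => X))
      ⟨{Set.univ}, Set.countable_singleton _, by simpa using univ_mem_measurableCylinders (fun _ : V => X), by simp⟩
      generateFrom_measurableCylinders.symm hE (ε := ENNReal.ofReal ε) (by simpa using hε)
    have mC : MeasurableSet C := MeasurableSet.of_mem_measurableCylinders hC
    obtain ⟨s, S, mS, rfl⟩ := (mem_measurableCylinders _).1 hC
    obtain ⟨σ, hσ, hs, h0⟩ := h s
    have hT := mp p σ hσ
    set T := fun ω : V → X => ω ∘ σ with hTd
    set C : Set (V → X) := cylinder (α := fun _ : V => X) s S with hCd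
    have hd : μ.real (symmDiff C E) ≤ ε := ENNReal.toReal_le_of_le_ofReal hε.le hCE.le
    have hind : μ (C ∩ T ⁻¹' C) = μ C * μ (T ⁻¹' C) := by
      have hi := (iIndepFun_infinitePi (P := fun _ : V => p) (X := fun _ ω => ω)
        (fun _ => measurable_id)).indepFun_finset s (s.image σ) (by
          rw [Finset.disjoint_right]
          intro v hv
          obtain ⟨w, hw, rfl⟩ := Finset.mem_image.1 hv
          exact hs w hw) (fun _ => measurable_pi_apply _)
      let g : (s.image σ → X) → (s → X) := fun y i => y ⟨σ i, Finset.mem_image_of_mem σ i.2⟩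
      have mg : Measurable g := measurable_pi_lambda _ fun i => measurable_pi_apply _
      exact hi.measure_inter_preimage_eq_mul S (g ⁻¹' S) mS (mg mS)
    rw [hT.measure_preimage mC.nullMeasurableSet] at hind
    refine ⟨μ.real C, measureReal_nonneg, ?_, ?_⟩
    · have e1 : μ.real C ^ 2 = μ.real (C ∩ T ⁻¹' C) := by
        simp only [Measure.real, hind, ENNReal.toReal_mul]; ring
      have e2 : C ∩ T ⁻¹' C ⊆ (E ∩ T ⁻¹' E) ∪ (symmDiff C E ∪ T ⁻¹' (symmDiff C E)) := by
        intro ω hω
        simp only [Set.mem_union, Set.mem_inter_iff, Set.mem_preimage, Set.mem_symmDiff] at hω ⊢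
        tauto
      have e3 : μ.real (T ⁻¹' (symmDiff C E)) = μ.real (symmDiff C E) := by
        simp only [Measure.real]
        rw [hT.measure_preimage (mC.symmDiff hE).nullMeasurableSet]
      have e4 := measureReal_mono (μ := μ) e2
      have e5 := measureReal_union_le (μ := μ) (E ∩ T ⁻¹' E) (symmDiff C E ∪ T ⁻¹' (symmDiff C E))
      have e6 := measureReal_union_le (μ := μ) (symmDiff C E) (T ⁻¹' (symmDiff C E))
      have e7 : μ.real (E ∩ T ⁻¹' E) = 0 := by simp only [Measure.real]; rw [h0]; rfl
      linarith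
    · have e2 : E ⊆ C ∪ symmDiff C E := by
        intro ω hω
        simp only [Set.mem_union, Set.mem_symmDiff]
        tauto
      have e4 := measureReal_mono (μ := μ) e2
      have e5 := measureReal_union_le (μ := μ) C (symmDiff C E)
      linarith
  by_contra hne
  have hpos : 0 < μ.real E := ENNReal.toReal_pos hne (measure_ne_top _ _)
  have h1 : μ.real E ≤ 1 := measureReal_le_one
  obtain ⟨c, hc0, hc1, hc2⟩ := key (μ.real E ^ 2 / 16) (by positivity)
  have : μ.real E / 2 ≤ c := by nlinarith
  nlinarith

end Pool.Agent.H98.Bern
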