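import Mathlib

set_option autoImplicit false

namespace Pool.Agent.H98.Bil

open Finset Filter Topology
open scoped InnerProductSpace

variable {E : Type} [NormedAddCommGroup E] [InnerProductSpace ℝ E]

theorem kkt [FiniteDimensional ℝ E] {S : Finset E} {c0 : E} (hc0 : c0 ∈ S)
    (h0 : ∀ c ∈ S, dist c0 c ≤ 1) {w : E} (hw : ‖w‖ = 1) :
    ∃ y, (∀ c ∈ S, dist y c ≤ 1) ∧ ∀ (z : E) (a : ℝ), 0 ≤ a → a ≤ 1 → (∀ c ∈ S, dist z c ≤ a) →
      dist z (y - w) ≤ a := by
  classical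
  have hcl : IsClosed {x : E | ∀ c ∈ S, dist x c ≤ 1} := by
    simp only [Set.setOf_forall]
    exact isClosed_iInter fun c => isClosed_iInter fun _ => isClosed_le (by fun_prop) continuous_const
  have hK : IsCompact {x : E | ∀ c ∈ S, dist x c ≤ 1} :=
    (isCompact_closedBall c0 1).of_isClosed_subset hcl fun x hx => hx c0 hc0
  obtain ⟨y, hy, hmax⟩ := hK.exists_isMaxOn ⟨c0, h0⟩ (f := fun x => ⟪w, x⟫_ℝ)
    (Continuous.continuousOn (by fun_prop))
  refine ⟨y, hy, ?_⟩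
  let G : Set E := (fun c => y - c) '' (S.filter fun c => dist y c = 1)
  have hG : ∀ n ∈ G, ∃ c ∈ S, n = y - c ∧ ‖n‖ = 1 := by
    rintro n ⟨c, hc, rfl⟩
    have := mem_filter.1 (Finset.mem_coe.1 hc)
    exact ⟨c, this.1, rfl, by rw [← dist_eq_norm]; exact this.2⟩
  have hww : ⟪w, w⟫_ℝ = 1 := by rw [real_inner_self_eq_norm_sq, hw]; norm_num
  obtain ⟨q, hq, hq1, hq2⟩ : ∃ q ∈ convexHull ℝ G, q = ⟪w, q⟫_ℝ • w ∧ 0 ≤ ⟪w, q⟫_ℝ := by
    by_contra hcon
    have hdis : Disjoint (convexHull ℝ G) {q : E | q = ⟪w, q⟫_ℝ • w ∧ 0 ≤ ⟪w, q⟫_ℝ} :=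
      Set.disjoint_left.2 fun q h1 h2 => hcon ⟨q, h1, h2⟩
    have hcv : Convex ℝ {q : E | q = ⟪w, q⟫_ℝ • w ∧ 0 ≤ ⟪w, q⟫_ℝ} := by
      intro a ha b hb s t hs ht _
      refine ⟨?_, ?_⟩
      · rw [inner_add_right, inner_smul_right, inner_smul_right, add_smul, mul_smul, mul_smul,
          ← ha.1, ← hb.1]
      · rw [inner_add_right, inner_smul_right, inner_smul_right]
        exact add_nonneg (mul_nonneg hs ha.2) (mul_nonneg ht hb.2)
    have hcl2 : IsClosed {q : E | q = ⟪w, q⟫_ℝ • w ∧ 0 ≤ ⟪w, q⟫_ℝ} := by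
      have a1 : IsClosed {q : E | q = ⟪w, q⟫_ℝ • w} := isClosed_eq (by fun_prop) (by fun_prop)
      have a2 : IsClosed {q : E | 0 ≤ ⟪w, q⟫_ℝ} := isClosed_le (by fun_prop) (by fun_prop)
      exact a1.inter a2
    have hfin : G.Finite := Set.Finite.image _ (Finset.finite_toSet _)
    obtain ⟨f, u, v, h1, h2, h3⟩ := geometric_hahn_banach_compact_closed (convex_convexHull ℝ G)
      (hfin.isCompact_convexHull ℝ) hcv hcl2 hdis
    have hray : ∀ t : ℝ, 0 ≤ t → v < t * f w := by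
      intro t ht
      have := h3 (t • w) ⟨by rw [inner_smul_right, hww, mul_one], by
        rw [inner_smul_right, hww, mul_one]; exact ht⟩
      simpa using this
    have hv : v < 0 := by simpa using hray 0 (le_refl _)
    have hfw : 0 ≤ f w := by
      by_contra hn
      have hn' : 0 < - f w := by linarith
      have := hray (-v / (- f w)) (div_nonneg (by linarith) hn'.le)
      have e : -v / (- f w) * f w = v := by
        have : f w ≠ 0 := by linarith
        field_simp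
      linarith
    let g : E := (InnerProductSpace.toDual ℝ E).symm f + (-u/2) • w
    have hg : ∀ x, ⟪g, x⟫_ℝ = f x + (-u/2) * ⟪w, x⟫_ℝ := by
      intro x
      simp only [g, inner_add_left, real_inner_smul_left, InnerProductSpace.toDual_symm_apply]
    have hev : ∀ᶠ s in 𝓝[>] (0:ℝ), ∀ c ∈ S, dist (y + s • g) c ≤ 1 := by
      rw [Filter.eventually_all_finset]
      intro c hc
      by_cases ha : dist y c = 1
      · have hn : y - c ∈ G := ⟨c, by simp [hc, ha], rfl⟩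
        have a1 := h1 _ (subset_convexHull ℝ G hn)
        have a2 : ‖y - c‖ = 1 := by rw [← dist_eq_norm]; exact ha
        have a3 : ⟪w, y - c⟫_ℝ ≤ 1 := by
          have := real_inner_le_norm w (y - c)
          rwa [hw, a2, one_mul] at this
        have a4 : ⟪g, y - c⟫_ℝ < 0 := by
          rw [hg]
          nlinarith
        have hc2 : Continuous fun s : ℝ => 2 * ⟪g, y - c⟫_ℝ + s * ‖g‖^2 := by fun_prop
        have a5 := hc2.continuousAt.eventually_lt (continuousAt_const (x := (0:ℝ)) (y := (0:ℝ)))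
          (by simp only [zero_mul, add_zero]; linarith)
        filter_upwards [a5.filter_mono nhdsWithin_le_nhds, self_mem_nhdsWithin] with s b1 b2
        have b3 : 0 < s := b2
        rw [dist_eq_norm, add_sub_right_comm, ← sq_le_one_iff₀ (norm_nonneg _), norm_add_sq_real,
          a2, inner_smul_right, norm_smul, mul_pow, Real.norm_eq_abs, sq_abs, real_inner_comm]
        nlinarith
      · have hc2 : Continuous fun s : ℝ => dist (y + s • g) c := by fun_prop
        have a5 := hc2.continuousAt.eventually_lt (continuousAt_const (x := (0:ℝ)) (y := (1:ℝ)))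
          (by simpa using lt_of_le_of_ne (hy c hc) ha)
        filter_upwards [a5.filter_mono nhdsWithin_le_nhds] with s b1
        exact b1.le
    obtain ⟨s, hs, hs0⟩ := (hev.and self_mem_nhdsWithin).exists
    have b3 : 0 < s := hs0
    have b4 : ⟪w, y + s • g⟫_ℝ ≤ ⟪w, y⟫_ℝ := hmax hs
    rw [inner_add_right, inner_smul_right, real_inner_comm g w, hg, hww] at b4
    nlinarith
  have hq3 : ⟪w, q⟫_ℝ ≤ 1 := by
    have : convexHull ℝ G ⊆ Metric.closedBall 0 1 := by
      refine convexHull_min (fun n hn => ?_) (convex_closedBall _ _)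
      obtain ⟨c, _, _, h⟩ := hG n hn
      simp [h]
    have a1 : ‖q‖ ≤ 1 := by simpa using this hq
    have := real_inner_le_norm w q
    rw [hw] at this
    linarith
  intro z a ha0 ha1 hz
  have hhalf : convexHull ℝ G ⊆ {n | 2 * ⟪z - y, n⟫_ℝ ≤ a^2 - 1 - ‖z - y‖^2} := by
    refine convexHull_min (fun n hn => ?_) ?_
    · obtain ⟨c, hc, rfl, h⟩ := hG n hn
      have a1 := hz c hc
      rw [dist_eq_norm] at a1
      have a2 : ‖z - c‖^2 ≤ a^2 := pow_le_pow_left₀ (norm_nonneg _) a1 2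
      have e : z - c = (z - y) + (y - c) := by abel
      rw [e, norm_add_sq_real, h] at a2
      show 2 * ⟪z - y, y - c⟫_ℝ ≤ _
      linarith
    · intro n1 h1 n2 h2 s t hs ht hst
      simp only [Set.mem_setOf_eq, inner_add_right, inner_smul_right] at h1 h2 ⊢
      have a1 := mul_le_mul_of_nonneg_left h1 hs
      have a2 := mul_le_mul_of_nonneg_left h2 ht
      have a3 : s * (a^2 - 1 - ‖z - y‖^2) + t * (a^2 - 1 - ‖z - y‖^2) = a^2 - 1 - ‖z - y‖^2 := by
        rw [← add_mul, hst, one_mul]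
      linarith
  have a1 : 2 * ⟪z - y, q⟫_ℝ ≤ a^2 - 1 - ‖z - y‖^2 := hhalf hq
  rw [hq1, inner_smul_right] at a1
  have e : z - (y - w) = (z - y) + w := by abel
  rw [dist_eq_norm, e, ← abs_of_nonneg ha0, ← abs_of_nonneg (norm_nonneg _), ← sq_le_sq,
    norm_add_sq_real, hw]
  by_cases hs : ⟪z - y, w⟫_ℝ ≤ 0
  · nlinarith
  · exfalso
    have a2 : 0 ≤ ⟪w, q⟫_ℝ * ⟪z - y, w⟫_ℝ := mul_nonneg hq2 (not_le.1 hs).le
    have a3 : ‖z - y‖^2 ≤ 0 := by nlinarith
    have a4 : z - y = 0 := by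
      have := pow_eq_zero_iff (two_ne_zero) |>.1 (le_antisymm a3 (sq_nonneg _))
      exact norm_eq_zero.1 this
    rw [a4] at hs
    simp at hs

theorem wbound {ι : Type} [Fintype ι] (D c : ι → E) (hD : ∑ i, D i = 0) {a : ℝ}
    (hc : ∀ i j, dist (c i) (c j) ≤ a) (hP : 0 < ∑ i, ‖D i‖) :
    2 * (∑ i, ⟪D i, c i⟫_ℝ)^2 ≤ a^2 * ((∑ i, ‖D i‖)^2 - ∑ i, ‖D i‖^2) := by
  classical
  set P := ∑ i, ‖D i‖ with hPd
  let m : E := ∑ j, ‖D j‖ • c j
  have e1 : P * ∑ i, ⟪D i, c i⟫_ℝ = ∑ i, ⟪D i, P • c i - m⟫_ℝ := by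
    simp only [inner_sub_right, inner_smul_right, Finset.sum_sub_distrib]
    rw [← sum_inner, hD, inner_zero_left, sub_zero, Finset.mul_sum]
  have e2 : |∑ i, ⟪D i, P • c i - m⟫_ℝ| ≤ ∑ i, ‖D i‖ * ‖P • c i - m‖ :=
    (Finset.abs_sum_le_sum_abs _ _).trans (Finset.sum_le_sum fun i _ => abs_real_inner_le_norm _ _)
  have e3 : (∑ i, ‖D i‖ * ‖P • c i - m‖)^2 ≤ P * ∑ i, ‖D i‖ * ‖P • c i - m‖^2 :=
    Finset.sum_sq_le_sum_mul_sum_of_sq_eq_mul _ (fun i _ => norm_nonneg _)
      (fun i _ => by positivity) (fun i _ => by ring)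
  have hm : ∑ i, ‖D i‖ * ⟪c i, m⟫_ℝ = ‖m‖^2 := by
    rw [← real_inner_self_eq_norm_sq]
    conv_rhs => rw [show ⟪m, m⟫_ℝ = ⟪∑ j, ‖D j‖ • c j, m⟫_ℝ from rfl, sum_inner]
    simp only [real_inner_smul_left]
  have e4 : ∑ i, ‖D i‖ * ‖P • c i - m‖^2 = P * (P * ∑ i, ‖D i‖ * ‖c i‖^2 - ‖m‖^2) := by
    have : ∀ i, ‖D i‖ * ‖P • c i - m‖^2
        = P^2 * (‖D i‖ * ‖c i‖^2) - 2 * P * (‖D i‖ * ⟪c i, m⟫_ℝ) + ‖D i‖ * ‖m‖^2 := by
      intro i
      rw [norm_sub_sq_real, real_inner_smul_left, norm_smul, mul_pow, Real.norm_eq_abs, sq_abs]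
      ring
    simp only [this, Finset.sum_add_distrib, Finset.sum_sub_distrib, ← Finset.mul_sum,
      ← Finset.sum_mul, hm]
    ring
  have e5 : ∑ i, ∑ j, ‖D i‖ * ‖D j‖ * ‖c i - c j‖^2
      = 2 * (P * ∑ i, ‖D i‖ * ‖c i‖^2 - ‖m‖^2) := by
    have : ∀ i, ∑ j, ‖D i‖ * ‖D j‖ * ‖c i - c j‖^2
        = P * (‖D i‖ * ‖c i‖^2) - 2 * (‖D i‖ * ⟪c i, m⟫_ℝ) + ‖D i‖ * ∑ j, ‖D j‖ * ‖c j‖^2 := by
      intro i
      have : ⟪c i, m⟫_ℝ = ∑ j, ‖D j‖ * ⟪c i, c j⟫_ℝ := by
        simp only [m, inner_sum, inner_smul_right]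
      rw [this, hPd, Finset.sum_mul, Finset.mul_sum, Finset.mul_sum, Finset.mul_sum,
        ← Finset.sum_sub_distrib, ← Finset.sum_add_distrib]
      refine Finset.sum_congr rfl fun j _ => ?_
      rw [norm_sub_sq_real]
      ring
    simp only [this, Finset.sum_add_distrib, Finset.sum_sub_distrib, ← Finset.mul_sum,
      ← Finset.sum_mul, hm]
    ring
  have e6 : ∑ i, ∑ j, ‖D i‖ * ‖D j‖ * ‖c i - c j‖^2 ≤ a^2 * (P^2 - ∑ i, ‖D i‖^2) := by
    have : ∀ i, ∑ j, ‖D i‖ * ‖D j‖ * ‖c i - c j‖^2 ≤ a^2 * (‖D i‖ * P - ‖D i‖^2) := by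
      intro i
      have b1 : ∑ j, ‖D i‖ * ‖D j‖ * ‖c i - c j‖^2
          ≤ ∑ j, (a^2 * (‖D i‖ * ‖D j‖) - if j = i then a^2 * ‖D i‖^2 else 0) := by
        refine Finset.sum_le_sum fun j _ => ?_
        by_cases hj : j = i
        · subst hj
          simp only [sub_self, norm_zero, if_true]
          nlinarith
        · have b2 := hc i j
          rw [dist_eq_norm] at b2
          have b3 : ‖c i - c j‖^2 ≤ a^2 := pow_le_pow_left₀ (norm_nonneg _) b2 2
          have b4 := mul_nonneg (norm_nonneg (D i)) (norm_nonneg (D j))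
          simp only [hj, if_false]
          nlinarith
      rw [Finset.sum_sub_distrib, ← Finset.mul_sum, ← Finset.mul_sum] at b1
      simp only [Finset.sum_ite_eq', mem_univ, if_true] at b1
      linarith
    refine (Finset.sum_le_sum fun i _ => this i).trans (le_of_eq ?_)
    rw [← Finset.mul_sum, Finset.sum_sub_distrib, ← Finset.sum_mul]
    ring
  have e7 : (P * ∑ i, ⟪D i, c i⟫_ℝ)^2 ≤ (∑ i, ‖D i‖ * ‖P • c i - m‖)^2 := by
    rw [e1, ← sq_abs]
    exact pow_le_pow_left₀ (abs_nonneg _) e2 2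
  have e8 : P^2 * (2 * (∑ i, ⟪D i, c i⟫_ℝ)^2) ≤ P^2 * (a^2 * (P^2 - ∑ i, ‖D i‖^2)) := by
    have b1 := mul_le_mul_of_nonneg_left e6 (sq_nonneg P)
    rw [e5] at b1
    rw [e4] at e3
    nlinarith
  exact le_of_mul_le_mul_left e8 (by positivity)

theorem ov_eq {a b c d : ℝ} (h1 : a ≤ b) (h2 : c ≤ d) :
    max 0 (min b d - max a c) = max a (min b d) - max a (min b c) := by
  simp only [max_def, min_def]
  split_ifs <;> linarith

theorem four {n : ℕ} (hn : 0 < n) (l : ℕ → ℝ) (hl : ∀ k, 0 < l k) (p : ℕ → E)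
    (h : ∑ k ∈ range n, l k • p k = 0) :
    ∃ i1 i2 i3 i4, i1 ≤ i2 ∧ i2 ≤ i3 ∧ i3 ≤ i4 ∧ i4 < n ∧ ⟪p i1 + p i3, p i2 + p i4⟫_ℝ ≤ 0 := by
  let S : ℕ → ℝ := fun k => ∑ i ∈ range k, l i
  have hS : StrictMono S := strictMono_nat_of_lt_succ fun k => by
    simp only [S, Finset.sum_range_succ]
    linarith [hl k]
  have hS0 : S 0 = 0 := by simp [S]
  have hSs : ∀ k, S (k+1) = S k + l k := fun k => Finset.sum_range_succ _ _
  have hle : ∀ k, S k ≤ S (k+1) := fun k => hS.monotone (Nat.le_succ k)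
  obtain ⟨H, hH⟩ : ∃ H, S n = 2 * H := ⟨S n / 2, by ring⟩
  have hH0 : 0 < H := by
    have := hS hn
    linarith
  let π : ℕ → ℕ → ℝ := fun i j => max 0 (min (S (i+1)) (S (j+1) - H) - max (S i) (S j - H))
  have hπ : ∀ i j, 0 ≤ π i j := fun i j => le_max_left _ _
  have hrow : ∀ i, i < n → ∑ j ∈ range n, π i j = max (S i) (min (S (i+1)) H) - S i := by
    intro i hi
    have : ∀ j, π i j = max (S i) (min (S (i+1)) (S (j+1) - H)) - max (S i) (min (S (i+1)) (S j - H)) :=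
      fun j => ov_eq (hle i) (by linarith [hle j])
    simp only [this]
    rw [Finset.sum_range_sub (fun j => max (S i) (min (S (i+1)) (S j - H))), hS0, hH]
    have a1 : 0 ≤ S i := hS0 ▸ hS.monotone (Nat.zero_le i)
    have a2 := hle i
    simp only [max_def, min_def]
    split_ifs <;> linarith
  have hcol : ∀ j, j < n → ∑ i ∈ range n, π i j = S (j+1) - max (S j) (min (S (j+1)) H) := by
    intro j hj
    have : ∀ i, π i j = max (S j - H) (min (S (j+1) - H) (S (i+1)))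
        - max (S j - H) (min (S (j+1) - H) (S i)) := by
      intro i
      rw [← ov_eq (by linarith [hle j]) (hle i), min_comm, max_comm (S j - H)]
    simp only [this]
    rw [Finset.sum_range_sub (fun i => max (S j - H) (min (S (j+1) - H) (S i))), hS0]
    have a1 : S (j+1) ≤ S n := hS.monotone hj
    have a2 := hle j
    simp only [max_def, min_def]
    split_ifs <;> linarith
  have htot : ∑ i ∈ range n, ∑ j ∈ range n, π i j • (p i + p j) = 0 := by
    simp only [smul_add, Finset.sum_add_distrib]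
    rw [Finset.sum_comm (f := fun i j => π i j • p j), ← Finset.sum_add_distrib, ← h]
    refine Finset.sum_congr rfl fun i hi => ?_
    rw [← Finset.sum_smul, ← Finset.sum_smul, ← add_smul, hrow i (mem_range.1 hi),
      hcol i (mem_range.1 hi), hSs]
    congr 1
    ring
  by_contra hcon
  push Not at hcon
  have hord : ∀ i j i' j', j' < n → 0 < π i j → 0 < π i' j' →
      max (S i) (S j - H) ≤ max (S i') (S j' - H) → 0 < ⟪p i + p j, p i' + p j'⟫_ℝ := by
    intro i j i' j' hj' h1 h2 h3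
    have a1 : max (S i) (S j - H) < min (S (i+1)) (S (j+1) - H) := by
      rcases lt_max_iff.1 h1 with h | h
      · exact absurd h (lt_irrefl _)
      · linarith
    have a2 : max (S i') (S j' - H) < min (S (i'+1)) (S (j'+1) - H) := by
      rcases lt_max_iff.1 h2 with h | h
      · exact absurd h (lt_irrefl _)
      · linarith
    have b1 := le_max_left (S i) (S j - H)
    have b2 := le_max_right (S i) (S j - H)
    have b3 := le_max_left (S i') (S j' - H)
    have b4 := min_le_left (S (i'+1)) (S (j'+1) - H)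
    have b5 := min_le_right (S (i'+1)) (S (j'+1) - H)
    have b6 := min_le_right (S (i+1)) (S (j+1) - H)
    have b7 : S (j'+1) ≤ S n := hS.monotone hj'
    have b8 : 0 ≤ S i := hS0 ▸ hS.monotone (Nat.zero_le i)
    refine hcon i i' j j' ?_ ?_ ?_ hj'
    · exact Nat.lt_succ_iff.1 (hS.lt_iff_lt.1 (by linarith))
    · exact Nat.lt_succ_iff.1 (hS.lt_iff_lt.1 (by linarith))
    · exact Nat.lt_succ_iff.1 (hS.lt_iff_lt.1 (by linarith))
  obtain ⟨j0, hj0, hp0⟩ : ∃ j ∈ range n, 0 < π 0 j := by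
    by_contra hc
    push Not at hc
    have a1 := Finset.sum_nonpos hc
    rw [hrow 0 hn, hS0] at a1
    have a2 : 0 < S (0+1) := hS0 ▸ hS (Nat.lt_succ_self 0)
    have a3 : 0 < min (S (0+1)) H := lt_min a2 hH0
    linarith [le_max_right 0 (min (S (0+1)) H)]
  have hpos : ∀ i j, j < n → 0 < π i j → 0 < ⟪p 0 + p j0, p i + p j⟫_ℝ := by
    intro i j hj hp
    rcases le_total (max (S 0) (S j0 - H)) (max (S i) (S j - H)) with h3 | h3
    · exact hord 0 j0 i j hj hp0 hp h3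
    · rw [real_inner_comm]
      exact hord i j 0 j0 (mem_range.1 hj0) hp hp0 h3
  have hnn : ∀ i j, j < n → 0 ≤ π i j * ⟪p 0 + p j0, p i + p j⟫_ℝ := by
    intro i j hj
    rcases eq_or_lt_of_le (hπ i j) with h0 | h0
    · rw [← h0, zero_mul]
    · exact (mul_pos h0 (hpos i j hj h0)).le
  have hfin : 0 < ⟪p 0 + p j0, ∑ i ∈ range n, ∑ j ∈ range n, π i j • (p i + p j)⟫_ℝ := by
    simp only [inner_sum, inner_smul_right]
    refine Finset.sum_pos' (fun i _ => Finset.sum_nonneg fun j hj => hnn i j (mem_range.1 hj))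
      ⟨0, mem_range.2 hn, Finset.sum_pos' (fun j hj => hnn 0 j (mem_range.1 hj))
        ⟨j0, hj0, mul_pos hp0 (hpos 0 j0 (mem_range.1 hj0) hp0)⟩⟩
  rw [htot, inner_zero_right] at hfin
  exact lt_irrefl _ hfin

theorem strict {S : Finset E} {x y v : E} (hx : ∀ c ∈ S, dist x c ≤ 1) (hy : ∀ c ∈ S, dist y c ≤ 1)
    (hv : v ≠ 0) (h : ∀ z, (∀ c ∈ S, dist z c ≤ 1) → 0 ≤ ⟪v, z - x⟫_ℝ) (h0 : ⟪v, y - x⟫_ℝ = 0) :
    x = y := by
  by_contra hne
  have hd : 0 < ‖x - y‖ := norm_pos_iff.2 (sub_ne_zero.2 hne)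
  have hvn : 0 < ‖v‖ := norm_pos_iff.2 hv
  have hev : ∀ᶠ s in 𝓝[>] (0:ℝ), ∀ c ∈ S, dist ((1/2:ℝ) • (x + y) - s • v) c ≤ 1 := by
    rw [Filter.eventually_all_finset]
    intro c hc
    have hc2 : Continuous fun s : ℝ => dist ((1/2:ℝ) • (x + y) - s • v) c := by fun_prop
    have a0 : dist ((1/2:ℝ) • (x + y)) c < 1 := by
      have e : (1/2:ℝ) • (x + y) - c = (1/2:ℝ) • ((x - c) + (y - c)) := by module
      have a1 := hx c hc
      have a2 := hy c hc
      rw [dist_eq_norm] at a1 a2 ⊢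
      have a3 := parallelogram_law_with_norm ℝ (x - c) (y - c)
      have e2 : x - c - (y - c) = x - y := by abel
      rw [e2] at a3
      rw [e, norm_smul]
      have a4 : ‖x - c + (y - c)‖ < 2 := by
        by_contra hcon
        nlinarith [norm_nonneg (x - c), norm_nonneg (y - c)]
      norm_num
      linarith
    have a5 := hc2.continuousAt.eventually_lt (continuousAt_const (x := (0:ℝ)) (y := (1:ℝ)))
      (by simpa using a0)
    filter_upwards [a5.filter_mono nhdsWithin_le_nhds] with s b1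
    exact b1.le
  obtain ⟨s, hs, hs0⟩ := (hev.and self_mem_nhdsWithin).exists
  have b3 : 0 < s := hs0
  have b4 := h _ hs
  have e : (1/2:ℝ) • (x + y) - s • v - x = (1/2:ℝ) • (y - x) - s • v := by module
  rw [e, inner_sub_right, inner_smul_right, inner_smul_right, h0, real_inner_self_eq_norm_sq] at b4
  nlinarith [mul_pos b3 (pow_pos hvn 2)]

end Pool.Agent.H98.Bil
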