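import Mathlib
import Pool.Agent.H98.Bil1

set_option autoImplicit false

namespace Pool.Agent.H98.Bil

open Finset Filter Topology
open scoped InnerProductSpace

variable {E : Type} [NormedAddCommGroup E] [InnerProductSpace ℝ E]

theorem seg [FiniteDimensional ℝ E] {S : Finset E} {c0 : E} (hc0 : c0 ∈ S) {a : ℝ} (ha0 : 0 ≤ a)
    (ha1 : a ≤ 1) (hS : ∀ c ∈ S, ∀ c' ∈ S, dist c c' ≤ a) {e x : ℕ → E} (he : ∀ k, ‖e k‖ = 1)
    {l : ℕ → ℝ} (hl : ∀ k, 0 < l k) (hx : ∀ k, x (k+1) = x k + l k • e k)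
    (hxP : ∀ k, ∀ c ∈ S, dist (x k) c ≤ 1) (hv : ∀ k, e (k+1) - e k ≠ 0)
    (hsup : ∀ k z, (∀ c ∈ S, dist z c ≤ 1) → 0 ≤ ⟪e (k+1) - e k, z - x (k+1)⟫_ℝ)
    {i j : ℕ} (hij : i ≤ j) :
    ∃ (c : E) (r : ℝ), (∀ z, (∀ s ∈ S, dist z s ≤ a) → dist z c ≤ a) ∧ 0 ≤ r ∧
      r = ⟪e j - e i, c⟫_ℝ - ‖e j - e i‖ + ∑ k ∈ range j, l k - ∑ k ∈ range i, l k
        + ⟪e i, x i⟫_ℝ - ⟪e j, x j⟫_ℝ ∧
      (r = 0 → ‖e j - e i‖ * (2 - ‖e j - e i‖) = 0 → 2 * ((j:ℝ) - i) = ‖e j - e i‖) := by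
  obtain ⟨w, hw, hwD⟩ : ∃ w : E, ‖w‖ = 1 ∧ ⟪e j - e i, w⟫_ℝ = -‖e j - e i‖ := by
    by_cases h : e j - e i = 0
    · exact ⟨e 0, he 0, by simp [h]⟩
    · have hn : 0 < ‖e j - e i‖ := norm_pos_iff.2 h
      refine ⟨(-‖e j - e i‖⁻¹) • (e j - e i), ?_, ?_⟩
      · rw [norm_smul, norm_neg, norm_inv, norm_norm, inv_mul_cancel₀ hn.ne']
      · rw [inner_smul_right, real_inner_self_eq_norm_sq]
        field_simp
  obtain ⟨y, hy, hk⟩ := kkt hc0 (fun c hc => (hS c0 hc0 c hc).trans ha1) hw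
  have hsum : ∀ j, i ≤ j → ∑ k ∈ Ico i j, ⟪e (k+1) - e k, y - x (k+1)⟫_ℝ
      = ⟪e j - e i, y⟫_ℝ + ∑ k ∈ range j, l k - ∑ k ∈ range i, l k
        + ⟪e i, x i⟫_ℝ - ⟪e j, x j⟫_ℝ := by
    intro j hj
    induction j, hj using Nat.le_induction with
    | base => simp
    | succ j hj ih =>
      rw [Finset.sum_Ico_succ_top hj, ih, Finset.sum_range_succ]
      have a1 : ⟪e j, x (j+1)⟫_ℝ = ⟪e j, x j⟫_ℝ + l j := by
        rw [hx, inner_add_right, inner_smul_right, real_inner_self_eq_norm_sq, he]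
        ring
      simp only [inner_sub_left, inner_sub_right, a1]
      ring
  have hnn : ∀ k ∈ Ico i j, 0 ≤ ⟪e (k+1) - e k, y - x (k+1)⟫_ℝ := fun k _ => hsup k y hy
  refine ⟨y - w, ∑ k ∈ Ico i j, ⟪e (k+1) - e k, y - x (k+1)⟫_ℝ, fun z hz => hk z a ha0 ha1 hz,
    Finset.sum_nonneg hnn, ?_, ?_⟩
  · rw [hsum j hij, inner_sub_right (e j - e i) y w, hwD]
    ring
  · intro h0 h2
    rw [Finset.sum_eq_zero_iff_of_nonneg hnn] at h0
    have hxy : ∀ k, i ≤ k → k < j → x (k+1) = y := fun k h1 h2 =>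
      strict (hxP _) hy (hv k) (hsup k) (h0 k (mem_Ico.2 ⟨h1, h2⟩))
    have hj : j ≤ i + 1 := by
      by_contra hc
      have a1 := hxy i (le_refl _) (by omega)
      have a2 := hxy (i+1) (by omega) (by omega)
      rw [hx (i+1), a1] at a2
      have a3 : l (i+1) • e (i+1) = 0 := by simpa using a2
      have a4 := congrArg norm a3
      rw [norm_smul, he, norm_zero, Real.norm_eq_abs, abs_of_pos (hl _)] at a4
      linarith [hl (i+1)]
    rcases Nat.eq_or_lt_of_le hij with h | h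
    · subst h
      simp
    · have : j = i + 1 := by omega
      subst this
      have a1 : 0 < ‖e (i+1) - e i‖ := norm_pos_iff.2 (hv i)
      have a2 := (mul_eq_zero.1 h2).resolve_left a1.ne'
      push_cast
      linarith

theorem core [FiniteDimensional ℝ E] {S : Finset E} {c0 : E} (hc0 : c0 ∈ S) {a : ℝ} (ha0 : 0 ≤ a)
    (ha1 : a ≤ 1) (hS : ∀ c ∈ S, ∀ c' ∈ S, dist c c' ≤ a) {e x : ℕ → E} (he : ∀ k, ‖e k‖ = 1)
    {l : ℕ → ℝ} (hl : ∀ k, 0 < l k) (hx : ∀ k, x (k+1) = x k + l k • e k)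
    (hxP : ∀ k, ∀ c ∈ S, dist (x k) c ≤ 1) (hv : ∀ k, e (k+1) - e k ≠ 0)
    (hsup : ∀ k z, (∀ c ∈ S, dist z c ≤ 1) → 0 ≤ ⟪e (k+1) - e k, z - x (k+1)⟫_ℝ)
    {n : ℕ} (hn : 0 < n) (hpx : ∀ k, x (k+n) = x k) (hpe : ∀ k, e (k+n) = e k)
    (hpl : ∀ k, l (k+n) = l k) (hL : ∑ k ∈ range n, l k ≤ 4 - 2 * a) : n = 2 := by
  have hcl : ∀ m, ∑ k ∈ range m, l k • e k = x m - x 0 := by
    intro m
    induction m with
    | zero => simp
    | succ m ih => rw [Finset.sum_range_succ, ih, hx]; abel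
  have hT : ∀ m, ∑ k ∈ range (m+n), l k = ∑ k ∈ range m, l k + ∑ k ∈ range n, l k := by
    intro m
    induction m with
    | zero => simp
    | succ m ih => rw [Nat.add_right_comm, Finset.sum_range_succ, ih, hpl, Finset.sum_range_succ]; ring
  obtain ⟨i1, i2, i3, i4, h12, h23, h34, h4, hin⟩ := four hn l hl e (by
    have := hpx 0
    rw [zero_add] at this
    rw [hcl, this, sub_self])
  obtain ⟨c1, r1, k1, p1, q1, s1⟩ := seg hc0 ha0 ha1 hS he hl hx hxP hv hsup h12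
  obtain ⟨c2, r2, k2, p2, q2, s2⟩ := seg hc0 ha0 ha1 hS he hl hx hxP hv hsup h23
  obtain ⟨c3, r3, k3, p3, q3, s3⟩ := seg hc0 ha0 ha1 hS he hl hx hxP hv hsup h34
  obtain ⟨c4, r4, k4, p4, q4, s4⟩ := seg hc0 ha0 ha1 hS he hl hx hxP hv hsup
    (show i4 ≤ i1 + n by omega)
  rw [hpe, hpx, hT] at q4
  rw [hpe] at s4
  have hpair : ∀ c c' : E, (∀ z, (∀ s ∈ S, dist z s ≤ a) → dist z c ≤ a) →
      (∀ z, (∀ s ∈ S, dist z s ≤ a) → dist z c' ≤ a) → dist c c' ≤ a := fun c c' h h' =>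
    h' c fun s hs => by rw [dist_comm]; exact h s (hS s hs)
  have hb : ∀ i j, ‖e i - e j‖ ≤ 2 := fun i j => by
    linarith [norm_sub_le (e i) (e j), he i, he j]
  have hQ : 8 ≤ ‖e i2 - e i1‖^2 + ‖e i3 - e i2‖^2 + ‖e i4 - e i3‖^2 + ‖e i1 - e i4‖^2 := by
    simp only [norm_sub_sq_real, he]
    simp only [inner_add_left, inner_add_right] at hin
    rw [real_inner_comm (e i1) (e i2), real_inner_comm (e i3) (e i4)]
    linarith
  have hw := wbound (ι := Fin 4) ![e i2 - e i1, e i3 - e i2, e i4 - e i3, e i1 - e i4]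
    ![c1, c2, c3, c4] (by simp [Fin.sum_univ_four]) (a := a) (by
      have hall : ∀ i : Fin 4, ∀ z, (∀ s ∈ S, dist z s ≤ a) → dist z (![c1, c2, c3, c4] i) ≤ a := by
        intro i
        fin_cases i
        exacts [k1, k2, k3, k4]
      exact fun i j => hpair _ _ (hall i) (hall j))
  simp only [Fin.sum_univ_four, Matrix.cons_val_zero, Matrix.cons_val_one, Matrix.cons_val] at hw
  have b1 := hb i2 i1
  have b2 := hb i3 i2
  have b3 := hb i4 i3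
  have b4 := hb i1 i4
  have n1 := norm_nonneg (e i2 - e i1)
  have n2 := norm_nonneg (e i3 - e i2)
  have n3 := norm_nonneg (e i4 - e i3)
  have n4 := norm_nonneg (e i1 - e i4)
  generalize ‖e i2 - e i1‖ = d1 at *
  generalize ‖e i3 - e i2‖ = d2 at *
  generalize ‖e i4 - e i3‖ = d3 at *
  generalize ‖e i1 - e i4‖ = d4 at *
  have m1 := mul_nonneg n1 (sub_nonneg.2 b1)
  have m2 := mul_nonneg n2 (sub_nonneg.2 b2)
  have m3 := mul_nonneg n3 (sub_nonneg.2 b3)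
  have m4 := mul_nonneg n4 (sub_nonneg.2 b4)
  obtain ⟨P, hP⟩ : ∃ P, P = d1 + d2 + d3 + d4 := ⟨_, rfl⟩
  obtain ⟨W, hW⟩ : ∃ W, W = ⟪e i2 - e i1, c1⟫_ℝ + ⟪e i3 - e i2, c2⟫_ℝ + ⟪e i4 - e i3, c3⟫_ℝ
    + ⟪e i1 - e i4, c4⟫_ℝ := ⟨_, rfl⟩
  have hP4 : 4 ≤ P := by nlinarith
  rw [← hP, ← hW] at hw
  have hw2 : 2 * W^2 ≤ a^2 * (P^2 - 8) :=
    (hw (by linarith)).trans (mul_le_mul_of_nonneg_left (by linarith) (sq_nonneg a))
  have hw3 : W ≤ a * (P - 2) := by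
    refine le_trans (le_abs_self W) (abs_le_of_sq_le_sq' ?_ (mul_nonneg ha0 (by linarith))).2
    rw [sq_abs]
    nlinarith [sq_nonneg (a * (P - 4))]
  have hr : r1 + r2 + r3 + r4 = W - P + ∑ k ∈ range n, l k := by
    rw [q1, q2, q3, q4, hW, hP]
    ring
  have t1 : 0 ≤ (P - 4) * (1 - a) := mul_nonneg (by linarith) (by linarith)
  have t2 : (P - 4) * (1 - a) = 0 := by nlinarith
  have t3 : W = a * (P - 2) := by nlinarith
  have t4 : a * (P - 4) = 0 := by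
    rw [t3] at hw2
    have : (a * (P - 4))^2 ≤ 0 := by nlinarith
    exact pow_eq_zero_iff (two_ne_zero) |>.1 (le_antisymm this (sq_nonneg _))
  have t5 : P = 4 := by nlinarith
  have u1 := s1 (by nlinarith) (by nlinarith)
  have u2 := s2 (by nlinarith) (by nlinarith)
  have u3 := s3 (by nlinarith) (by nlinarith)
  have u4 := s4 (by nlinarith) (by nlinarith)
  push_cast at u4
  have : (n:ℝ) = 2 := by linarith
  exact_mod_cast this

end Pool.Agent.H98.Bil
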