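import Mathlib

/-! Search algorithms on a Gaussian binary tree: definitions, measurability and independence. -/

namespace Pool.Agent.H98.CR

open MeasureTheory ProbabilityTheory Set

/-- Vertices of the rooted binary tree of depth `N`: binary strings of length at most `N`. -/
abbrev Vtx (N : ℕ) : Type := {l : List Bool // l.length ≤ N}

/-- Depth of the deepest common ancestor: length of the longest common initial segment. -/
def meet : List Bool → List Bool → ℕ
  | a :: l, b :: m => if a = b then meet l m + 1 else 0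
  | _, _ => 0

/-- The information available when query number `n + 1` (the vertex `v n`) is chosen: the earlier
queries `v 0, …, v (n-1)`, the values of `X` there, and the random seeds `U 0, …, U n`. -/
@[reducible] def hist {N : ℕ} {Ω : Type} (X : Vtx N → Ω → ℝ) (U : ℕ → Ω → ℝ) (v : ℕ → Ω → Vtx N)
    (n : ℕ) : MeasurableSpace Ω :=
  (⨆ i, ⨆ _ : i < n, MeasurableSpace.comap (v i) ⊤) ⊔
    (⨆ i, ⨆ _ : i < n, MeasurableSpace.comap (fun ω => X (v i ω) ω) (borel ℝ)) ⊔
    ⨆ i, ⨆ _ : i ≤ n, MeasurableSpace.comap (U i) (borel ℝ)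

/-- `X` is a centred Gaussian process on the tree with covariance `c (|u ∧ w|)`, the seeds `U` are
i.i.d. uniform on `[0,1]` and independent of `X`, and `v` is a search algorithm. -/
structure Model (N : ℕ) (c : ℕ → ℝ) {Ω : Type} [MeasurableSpace Ω] (P : Measure Ω)
    (X : Vtx N → Ω → ℝ) (U : ℕ → Ω → ℝ) (v : ℕ → Ω → Vtx N) : Prop where
  measX : ∀ w, Measurable (X w)
  gauss : IsGaussianProcess X P
  mean : ∀ w, ∫ ω, X w ω ∂P = 0
  cov : ∀ u w, ∫ ω, X u ω * X w ω ∂P = c (meet u.1 w.1)
  measU : ∀ i, Measurable (U i)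
  iidU : iIndepFun U P
  lawU : ∀ i, P.map (U i) = volume.restrict (Icc (0 : ℝ) 1)
  indep : IndepFun (fun ω i => U i ω) (fun ω w => X w ω) P
  alg : ∀ n, @Measurable Ω (Vtx N) (hist X U v n) ⊤ (v n)

instance (N : ℕ) : Finite (Vtx N) := (List.finite_length_le Bool N).to_subtype

lemma meet_append (p e w : List Bool) (h : ¬ p <+: w) : meet (p ++ e) w = meet p w := by
  induction p generalizing w with
  | nil => simp at h
  | cons a p ih =>
    cases w with
    | nil => simp [meet]
    | cons b w =>
      simp only [List.cons_append, meet]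
      split_ifs with hab
      · subst hab
        rw [ih w (fun h' => h (List.cons_prefix_cons.2 ⟨rfl, h'⟩))]
      · rfl

lemma meet_pre (p e : List Bool) : meet (p ++ e) p = p.length := by
  induction p with
  | nil => cases e <;> simp [meet]
  | cons a p ih => simp [meet, ih]

lemma meet_self (p : List Bool) : meet p p = p.length := by
  simpa using meet_pre p []

variable {N : ℕ} {c : ℕ → ℝ} {Ω : Type} [mΩ : MeasurableSpace Ω] {P : Measure Ω}
  {X : Vtx N → Ω → ℝ} {U : ℕ → Ω → ℝ} {v : ℕ → Ω → Vtx N}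

/-- Vertices that are not strict descendants of `p`. -/
abbrev Out (p : Vtx N) : Type := {w : Vtx N // ¬ p.1 <+: w.1 ∨ w = p}

/-- All the information outside the subtree strictly below `p`. -/
def outer (X : Vtx N → Ω → ℝ) (U : ℕ → Ω → ℝ) (p : Vtx N) (ω : Ω) : (Out p → ℝ) × (ℕ → ℝ) :=
  (fun w => X w.1 ω, fun i => U i ω)

/-- The sigma-algebra generated by `outer`. -/
@[reducible] def G (X : Vtx N → Ω → ℝ) (U : ℕ → Ω → ℝ) (p : Vtx N) : MeasurableSpace Ω :=
  MeasurableSpace.comap (outer X U p) inferInstance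

omit mΩ in
lemma measG_X (p w : Vtx N) (h : ¬ p.1 <+: w.1 ∨ w = p) : Measurable[G X U p] (X w) :=
  ((measurable_pi_apply (⟨w, h⟩ : Out p)).comp measurable_fst).comp
    (comap_measurable (outer X U p))

omit mΩ in
lemma measG_U (p : Vtx N) (i : ℕ) : Measurable[G X U p] (U i) :=
  ((measurable_pi_apply i).comp measurable_snd).comp (comap_measurable (outer X U p))

lemma Model.meas_outer (h : Model N c P X U v) (p : Vtx N) : Measurable (outer X U p) :=
  (measurable_pi_lambda _ fun w : Out p => h.measX w.1).prodMk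
    (measurable_pi_lambda _ fun i => h.measU i)

lemma Model.G_le (h : Model N c P X U v) (p : Vtx N) : G X U p ≤ mΩ :=
  (h.meas_outer p).comap_le

/-- Trace sigma-algebra. -/
@[reducible] def tr (m : MeasurableSpace Ω) (E : Set Ω) (hE : MeasurableSet[m] E) :
    MeasurableSpace Ω where
  MeasurableSet' A := MeasurableSet[m] (A ∩ E)
  measurableSet_empty := by simp
  measurableSet_compl A hA := by
    have : Aᶜ ∩ E = E \ (A ∩ E) := by ext; simp; tauto
    rw [this]
    exact hE.diff hA
  measurableSet_iUnion f hf := by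
    rw [iUnion_inter]
    exact MeasurableSet.iUnion hf

/-- No query before time `n` lies in the subtree of `p`. -/
def Fresh (v : ℕ → Ω → Vtx N) (p : Vtx N) (n : ℕ) : Set Ω := {ω | ∀ i < n, ¬ p.1 <+: (v i ω).1}

omit mΩ in
lemma fresh_meas (alg : ∀ n, @Measurable Ω (Vtx N) (hist X U v n) ⊤ (v n)) (p : Vtx N) (n : ℕ) :
    ∃ hE : MeasurableSet[G X U p] (Fresh v p n), hist X U v n ≤ tr (G X U p) _ hE := by
  have hU : ∀ (E : Set Ω) (hE : MeasurableSet[G X U p] E) (i : ℕ),
      MeasurableSpace.comap (U i) (borel ℝ) ≤ tr (G X U p) E hE := by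
    rintro E hE i _ ⟨B, hB, rfl⟩
    exact (measG_U p i hB).inter hE
  induction n with
  | zero =>
    have hE : MeasurableSet[G X U p] (Fresh v p 0) := by
      have : Fresh v p 0 = univ := by ext; simp [Fresh]
      rw [this]; exact MeasurableSet.univ
    refine ⟨hE, sup_le (sup_le ?_ ?_) ?_⟩
    · exact iSup₂_le fun i hi => absurd hi (Nat.not_lt_zero i)
    · exact iSup₂_le fun i hi => absurd hi (Nat.not_lt_zero i)
    · exact iSup₂_le fun i _ => hU _ _ i
  | succ n ih =>
    obtain ⟨hE, hle⟩ := ih
    have h1 : ∀ w : Vtx N, MeasurableSet[G X U p] ((v n) ⁻¹' {w} ∩ Fresh v p n) := fun w =>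
      hle _ (alg n (MeasurableSpace.measurableSet_top))
    have e : Fresh v p (n + 1) =
        ⋃ w : {w : Vtx N // ¬ p.1 <+: w.1}, ((v n) ⁻¹' {w.1} ∩ Fresh v p n) := by
      ext ω
      simp only [Fresh, mem_setOf_eq, mem_iUnion, mem_inter_iff, mem_preimage, mem_singleton_iff]
      constructor
      · intro h
        exact ⟨⟨v n ω, h n (Nat.lt_succ_self n)⟩, rfl, fun i hi => h i (Nat.lt_succ_of_lt hi)⟩
      · rintro ⟨w, hw, h⟩ i hi
        rcases Nat.lt_succ_iff_lt_or_eq.1 hi with hi | rfl
        · exact h i hi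
        · rw [hw]; exact w.2
    have hE' : MeasurableSet[G X U p] (Fresh v p (n + 1)) := by
      rw [e]
      exact MeasurableSet.iUnion fun w => h1 w.1
    have hmono : tr (G X U p) _ hE ≤ tr (G X U p) _ hE' := by
      intro A hA
      have : A ∩ Fresh v p (n + 1) = (A ∩ Fresh v p n) ∩ Fresh v p (n + 1) := by
        ext ω
        simp only [mem_inter_iff]
        exact ⟨fun h => ⟨⟨h.1, fun i hi => h.2 i (Nat.lt_succ_of_lt hi)⟩, h.2⟩,
          fun h => ⟨h.1.1, h.2⟩⟩
      change MeasurableSet[G X U p] (A ∩ Fresh v p (n + 1))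
      rw [this]
      exact MeasurableSet.inter hA hE'
    refine ⟨hE', sup_le (sup_le ?_ ?_) ?_⟩
    · refine iSup₂_le fun i hi => le_trans ?_ (hle.trans hmono)
      rcases Nat.lt_succ_iff_lt_or_eq.1 hi with hi | rfl
      · exact le_sup_of_le_left (le_sup_of_le_left (le_iSup₂_of_le i hi le_rfl))
      · exact (alg i).comap_le
    · refine iSup₂_le fun i hi => ?_
      rcases Nat.lt_succ_iff_lt_or_eq.1 hi with hi | rfl
      · exact le_trans (le_sup_of_le_left (le_sup_of_le_right (le_iSup₂_of_le i hi le_rfl)))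
          (hle.trans hmono)
      · rintro _ ⟨B, hB, rfl⟩
        change MeasurableSet[G X U p] (_ ∩ Fresh v p (i + 1))
        have : (fun ω => X (v i ω) ω) ⁻¹' B ∩ Fresh v p (i + 1) =
            ⋃ w : {w : Vtx N // ¬ p.1 <+: w.1},
              (((v i) ⁻¹' {w.1} ∩ Fresh v p i) ∩ (X w.1) ⁻¹' B) := by
          rw [e, inter_iUnion]
          refine iUnion_congr fun w => ?_
          ext ω
          simp only [mem_inter_iff, mem_preimage, mem_singleton_iff]
          constructor
          · rintro ⟨h1, h2, h3⟩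
            exact ⟨⟨h2, h3⟩, h2 ▸ h1⟩
          · rintro ⟨⟨h2, h3⟩, h1⟩
            exact ⟨h2 ▸ h1, h2, h3⟩
        rw [this]
        exact MeasurableSet.iUnion fun w => (h1 w.1).inter (measG_X p w.1 (Or.inl w.2) hB)
    · exact iSup₂_le fun i _ => hU _ _ i

lemma Model.covar (h : Model N c P X U v) (u w : Vtx N) : cov[X u, X w; P] = c (meet u.1 w.1) := by
  have := h.gauss.isProbabilityMeasure
  rw [covariance_eq_sub (h.gauss.hasGaussianLaw_eval u).memLp_two
    (h.gauss.hasGaussianLaw_eval w).memLp_two, h.mean, zero_mul, sub_zero]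
  exact h.cov u w

lemma Model.law (h : Model N c P X U v) (p q : Vtx N) (hpq : p.1 <+: q.1) :
    P.map (fun ω => X q ω - X p ω) = gaussianReal 0 (c q.1.length - c p.1.length).toNNReal := by
  have := h.gauss.isProbabilityMeasure
  have hq := h.gauss.hasGaussianLaw_eval q
  have hp := h.gauss.hasGaussianLaw_eval p
  rw [(h.gauss.hasGaussianLaw_fun_sub (s := q) (t := p)).map_eq_gaussianReal,
    integral_sub hq.integrable hp.integrable, h.mean, h.mean, sub_zero,
    variance_fun_sub hq.memLp_two hp.memLp_two, ← covariance_self hq.aemeasurable,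
    ← covariance_self hp.aemeasurable, h.covar, h.covar, h.covar, meet_self, meet_self]
  obtain ⟨e, he⟩ := hpq
  rw [← he, meet_pre]
  congr 2
  ring

lemma Model.indepG (h : Model N c P X U v) (p q : Vtx N) (hpq : p.1 <+: q.1) :
    IndepFun (fun ω => X q ω - X p ω) (outer X U p) P := by
  classical
  have := h.gauss.isProbabilityMeasure
  have mY : Measurable (fun ω => X q ω - X p ω) := (h.measX q).sub (h.measX p)
  have mZ : Measurable (fun ω (w : Out p) => X w.1 ω) :=
    measurable_pi_lambda _ fun w => h.measX w.1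
  have mU : Measurable (fun ω i => U i ω) := measurable_pi_lambda _ fun i => h.measU i
  have g1 : IsGaussianProcess (Sum.elim (fun (_ : Unit) ω => X q ω - X p ω)
      (fun (w : Out p) => X w.1)) P := by
    refine h.gauss.of_isGaussianProcess ?_
    rintro (_ | w)
    · refine ⟨{q, p}, ContinuousLinearMap.proj (R := ℝ) ⟨q, by simp⟩ -
        ContinuousLinearMap.proj (R := ℝ) ⟨p, by simp⟩, fun ω => ?_⟩
      simp
    · refine ⟨{w.1}, ContinuousLinearMap.proj (R := ℝ) ⟨w.1, by simp⟩, fun ω => ?_⟩
      simp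
  have i1 : IndepFun (fun ω => X q ω - X p ω) (fun ω (w : Out p) => X w.1 ω) P := by
    have := g1.indepFun_of_covariance_eq_zero (fun _ => mY.aemeasurable)
      (fun w => (h.measX w.1).aemeasurable) (fun _ w => by
        rw [covariance_fun_sub_left (h.gauss.hasGaussianLaw_eval q).memLp_two
          (h.gauss.hasGaussianLaw_eval p).memLp_two (h.gauss.hasGaussianLaw_eval w.1).memLp_two,
          h.covar, h.covar]
        obtain ⟨e, he⟩ := hpq
        rcases w.2 with hw | hw
        · rw [← he, meet_append _ _ _ hw, sub_self]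
        · rw [hw, ← he, meet_pre, meet_self, sub_self])
    exact this.comp (measurable_pi_apply ()) measurable_id
  have i2 : IndepFun (fun ω => (X q ω - X p ω, fun (w : Out p) => X w.1 ω))
      (fun ω i => U i ω) P := by
    have := h.indep.symm.comp (φ := fun (x : Vtx N → ℝ) => (x q - x p, fun (w : Out p) => x w.1))
      (ψ := id) (by fun_prop) measurable_id
    exact this
  have i3 : IndepFun (fun ω (w : Out p) => X w.1 ω) (fun ω i => U i ω) P :=
    i2.comp measurable_snd measurable_id
  rw [indepFun_iff_map_prod_eq_prod_map_map mY.aemeasurable (h.meas_outer p).aemeasurable]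
  rw [indepFun_iff_map_prod_eq_prod_map_map mY.aemeasurable mZ.aemeasurable] at i1
  rw [indepFun_iff_map_prod_eq_prod_map_map (mY.prodMk mZ).aemeasurable mU.aemeasurable, i1] at i2
  rw [indepFun_iff_map_prod_eq_prod_map_map mZ.aemeasurable mU.aemeasurable] at i3
  have e3 : P.map (outer X U p) = _ := i3
  rw [e3, ← Measure.prodAssoc_prod, ← i2, Measure.map_map MeasurableEquiv.prodAssoc.measurable
    ((mY.prodMk mZ).prodMk mU)]
  rfl

/-- Product formula. -/
lemma Model.prod (h : Model N c P X U v) (p q : Vtx N) (hpq : p.1 <+: q.1) (f : Ω → ENNReal)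
    (hf : Measurable[G X U p] f) (g : ℝ → ENNReal) (hg : Measurable g) :
    ∫⁻ ω, f ω * g (X q ω - X p ω) ∂P =
      (∫⁻ ω, f ω ∂P) * ∫⁻ x, g x ∂(gaussianReal 0 (c q.1.length - c p.1.length).toNNReal) := by
  have mY : Measurable (fun ω => X q ω - X p ω) := (h.measX q).sub (h.measX p)
  rw [← h.law p q hpq, lintegral_map hg mY]
  exact lintegral_mul_eq_lintegral_mul_lintegral_of_independent_measurableSpace (h.G_le p)
    mY.comap_le ((IndepFun_iff_Indep _ _ _).1 (h.indepG p q hpq).symm) hf
    (hg.comp (comap_measurable _))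

end Pool.Agent.H98.CR
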