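import Mathlib
import Pool.Agent.H98.CR1

/-! The discounted first-moment bound along a sequence of levels. -/

namespace Pool.Agent.H98.CR

open MeasureTheory ProbabilityTheory Set
open scoped ENNReal

variable {N : ℕ} {c : ℕ → ℝ} {Ω : Type} [mΩ : MeasurableSpace Ω] {P : Measure Ω}
  {X : Vtx N → Ω → ℝ} {U : ℕ → Ω → ℝ} {v : ℕ → Ω → Vtx N}

/-- Ancestor at depth `d`. -/
def anc (d : ℕ) (u : Vtx N) : Vtx N :=
  ⟨u.1.take d, (List.length_take_le' _ _).trans u.2⟩

noncomputable instance (N : ℕ) : Fintype (Vtx N) := Fintype.ofFinite _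

/-- Level `d` of the tree. -/
noncomputable def lev (N d : ℕ) : Finset (Vtx N) := Finset.univ.filter fun u => u.1.length = d

lemma mem_lev {d : ℕ} {u : Vtx N} : u ∈ lev N d ↔ u.1.length = d := by simp [lev]

lemma anc_pre (d : ℕ) (u : Vtx N) : (anc d u).1 <+: u.1 := List.take_prefix _ _

lemma anc_len {d : ℕ} {u : Vtx N} (h : d ≤ u.1.length) : (anc d u).1.length = d := by
  simp [anc, h]

lemma anc_anc {d e : ℕ} (h : d ≤ e) (u : Vtx N) : anc d (anc e u) = anc d u := by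
  apply Subtype.ext
  simp [anc, List.take_take, h]

lemma anc_self {d : ℕ} {u : Vtx N} (h : u.1.length ≤ d) : anc d u = u :=
  Subtype.ext (List.take_of_length_le h)

lemma anc_out (d : ℕ) (u : Vtx N) : ¬ u.1 <+: (anc d u).1 ∨ anc d u = u := by
  by_cases h : u.1 <+: (anc d u).1
  · exact Or.inr (Subtype.ext (List.IsPrefix.eq_of_length_le (anc_pre d u) h.length_le))
  · exact Or.inl h

open Classical in
lemma card_fiber (d e : ℕ) (hde : d ≤ e) (p : Vtx N) :
    ((lev N e).filter fun q => anc d q = p).card ≤ 2 ^ (e - d) := by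
  have : (Finset.univ : Finset (List.Vector Bool (e - d))).card = 2 ^ (e - d) := by
    simp
  rw [← this]
  refine Finset.card_le_card_of_injOn
    (fun q => if h : q.1.length = e then ⟨q.1.drop d, by simp [h]⟩ else default)
    (fun _ _ => Finset.mem_coe.2 (Finset.mem_univ _)) ?_
  intro q hq q' hq' h
  simp only [Finset.coe_filter, mem_lev, mem_ofPred_eq] at hq hq'
  simp only [hq.1, hq'.1, dite_true] at h
  have h1 : q.1.drop d = q'.1.drop d := congrArg Subtype.val h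
  have h2 : q.1.take d = q'.1.take d := congrArg Subtype.val (hq.2.trans hq'.2.symm)
  apply Subtype.ext
  rw [← List.take_append_drop d q.1, h1, h2, List.take_append_drop]

/-- Discount factor `ρ ^ t`, where `t` is the first time the subtree of `u` is queried. -/
noncomputable def disc (ρ : ℝ≥0∞) (v : ℕ → Ω → Vtx N) (u : Vtx N) (ω : Ω) : ℝ≥0∞ :=
  ⨆ n : ℕ, (Fresh v u (n + 1))ᶜ.indicator (fun _ => ρ ^ n) ω

omit mΩ in
lemma disc_meas (alg : ∀ n, @Measurable Ω (Vtx N) (hist X U v n) ⊤ (v n)) (ρ : ℝ≥0∞)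
    (p : Vtx N) : Measurable[G X U p] (disc ρ v p) := by
  letI := G X U p
  exact Measurable.iSup fun n =>
    Measurable.indicator measurable_const (fresh_meas alg p (n + 1)).1.compl

omit mΩ in
lemma disc_mono (ρ : ℝ≥0∞) {p q : Vtx N} (h : p.1 <+: q.1) (ω : Ω) :
    disc ρ v q ω ≤ disc ρ v p ω := by
  refine iSup_mono fun n => ?_
  refine indicator_le_indicator_of_subset (compl_subset_compl.2 ?_) (fun _ => zero_le) ω
  intro ω hω i hi h'
  exact hω i hi (h.trans h')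

omit mΩ in
lemma disc_ge (ρ : ℝ≥0∞) {u : Vtx N} {n : ℕ} {ω : Ω} (h : u.1 <+: (v n ω).1) :
    ρ ^ n ≤ disc ρ v u ω := by
  refine le_iSup_of_le n ?_
  rw [indicator_of_mem]
  exact fun h' => h' n (Nat.lt_succ_self n) h

omit mΩ in
lemma disc_le_one {ρ : ℝ≥0∞} (hρ : ρ ≤ 1) (u : Vtx N) (ω : Ω) : disc ρ v u ω ≤ 1 :=
  iSup_le fun n => indicator_apply_le' (fun _ => pow_le_one₀ zero_le hρ) fun _ => zero_le

omit mΩ in
lemma disc_sum {ρ : ℝ≥0∞} (hρ : ρ ≤ 1) (p : Vtx N) (F : Finset (Vtx N)) (d : ℕ)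
    (hF : ∀ q ∈ F, q.1.length = d ∧ p.1 <+: q.1) (ω : Ω) :
    ∑ q ∈ F, disc ρ v q ω ≤ disc ρ v p ω * (1 - ρ)⁻¹ := by
  classical
  have h1 : ∀ q, disc ρ v q ω ≤ ∑' n : ℕ, if q.1 <+: (v n ω).1 then ρ ^ n else 0 := by
    intro q
    refine iSup_le fun n => indicator_apply_le' (fun hn => ?_) fun _ => zero_le
    simp only [Fresh, mem_compl_iff, mem_ofPred_eq, not_forall, not_not] at hn
    obtain ⟨i, hi, hq⟩ := hn
    refine le_trans ?_ (ENNReal.le_tsum i)
    rw [if_pos hq]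
    exact pow_le_pow_of_le_one zero_le hρ (Nat.lt_succ_iff.1 hi)
  have h2 : ∀ n, ∑ q ∈ F, (if q.1 <+: (v n ω).1 then ρ ^ n else 0) ≤
      if p.1 <+: (v n ω).1 then ρ ^ n else 0 := by
    intro n
    rw [← Finset.sum_filter]
    by_cases hne : (F.filter fun q => q.1 <+: (v n ω).1) = ∅
    · rw [hne]; simp
    obtain ⟨q, hq⟩ := Finset.nonempty_iff_ne_empty.2 hne
    have hq' := Finset.mem_filter.1 hq
    rw [if_pos ((hF q hq'.1).2.trans hq'.2), Finset.sum_eq_single_of_mem q hq]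
    intro q' hq'' hne
    have hq3 := Finset.mem_filter.1 hq''
    exact absurd (Subtype.ext ((List.prefix_of_prefix_length_le hq3.2 hq'.2
      (by rw [(hF q hq'.1).1, (hF q' hq3.1).1])).eq_of_length
      (by rw [(hF q hq'.1).1, (hF q' hq3.1).1]))) hne
  refine (Finset.sum_le_sum fun q _ => h1 q).trans ?_
  rw [← Summable.tsum_finsetSum (fun _ _ => ENNReal.summable)]
  refine (ENNReal.tsum_le_tsum h2).trans ?_
  by_cases hex : ∃ n, p.1 <+: (v n ω).1
  · have h3 := Nat.find_spec hex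
    have h4 : ∑' n : ℕ, (if p.1 <+: (v n ω).1 then ρ ^ n else 0) ≤
        ∑' n : ℕ, ρ ^ (Nat.find hex) * ρ ^ n := by
      rw [← Summable.sum_add_tsum_nat_add' (k := Nat.find hex) ENNReal.summable,
        Finset.sum_eq_zero fun i hi => if_neg (Nat.find_min hex (Finset.mem_range.1 hi)), zero_add]
      refine ENNReal.tsum_le_tsum fun n => ?_
      rw [← pow_add, add_comm]
      split_ifs <;> simp
    refine h4.trans ?_
    rw [ENNReal.tsum_mul_left, ENNReal.tsum_geometric]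
    exact mul_le_mul_left (disc_ge ρ h3) _
  · simp only [not_exists] at hex
    simp [hex]

/-- The exponential weight. -/
noncomputable def ex (μ x : ℝ) : ℝ≥0∞ := ENNReal.ofReal (Real.exp (μ * x))

lemma ex_add (μ x y : ℝ) : ex μ (x + y) = ex μ x * ex μ y := by
  rw [ex, mul_add, Real.exp_add, ENNReal.ofReal_mul (Real.exp_pos _).le]; rfl

lemma ex_mono {μ x y : ℝ} (hμ : 0 ≤ μ) (h : x ≤ y) : ex μ x ≤ ex μ y :=
  ENNReal.ofReal_le_ofReal (Real.exp_le_exp.2 (mul_le_mul_of_nonneg_left h hμ))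

lemma ex_meas (μ : ℝ) : Measurable (ex μ) := by
  unfold ex
  fun_prop

/-- Total discounted weight of level `d`, measured from level `d0`. -/
noncomputable def tot (ρ : ℝ≥0∞) (μ : ℝ) (X : Vtx N → Ω → ℝ) (v : ℕ → Ω → Vtx N) (d0 d : ℕ)
    (ω : Ω) : ℝ≥0∞ :=
  ∑ u ∈ lev N d, disc ρ v u ω * ex μ (X u ω - X (anc d0 u) ω)

omit mΩ in
lemma term_meas (alg : ∀ n, @Measurable Ω (Vtx N) (hist X U v n) ⊤ (v n)) (ρ : ℝ≥0∞) (μ : ℝ)
    (d0 : ℕ) (u : Vtx N) :
    Measurable[G X U u] fun ω => disc ρ v u ω * ex μ (X u ω - X (anc d0 u) ω) :=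
  (disc_meas alg ρ u).mul ((ex_meas μ).comp
    ((measG_X u u (Or.inr rfl)).sub (measG_X u _ (anc_out d0 u))))

lemma Model.step (h : Model N c P X U v) {ρ : ℝ≥0∞} (hρ : ρ ≤ 1) {μ : ℝ} (hμ : 0 ≤ μ)
    {d0 d e : ℕ} (h0 : d0 ≤ d) (hde : d ≤ e) (z : ℝ) :
    ∫⁻ ω, tot ρ μ X v d0 e ω ∂P ≤
      (2 ^ (e - d) * ∫⁻ x, (Ici z).indicator (ex μ) x ∂(gaussianReal 0 (c e - c d).toNNReal) +
        ex μ z * (1 - ρ)⁻¹) * ∫⁻ ω, tot ρ μ X v d0 d ω ∂P := by
  classical
  set I := ∫⁻ x, (Ici z).indicator (ex μ) x ∂(gaussianReal 0 (c e - c d).toNNReal)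
  set t : Vtx N → Ω → ℝ≥0∞ := fun u ω => disc ρ v u ω * ex μ (X u ω - X (anc d0 u) ω) with ht
  have tm : ∀ u, Measurable (t u) := fun u => (term_meas h.alg ρ μ d0 u).mono (h.G_le u) le_rfl
  have gm : Measurable ((Ici z).indicator (ex μ)) := (ex_meas μ).indicator measurableSet_Ici
  have hpt : ∀ ω, tot ρ μ X v d0 e ω ≤ ∑ p ∈ lev N d,
      ((∑ q ∈ (lev N e).filter fun q => anc d q = p,
        t p ω * (Ici z).indicator (ex μ) (X q ω - X p ω)) + ex μ z * (1 - ρ)⁻¹ * t p ω) := by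
    intro ω
    unfold tot
    rw [← Finset.sum_fiberwise_of_maps_to (t := lev N d) (g := anc d)
      (fun q hq => mem_lev.2 (anc_len (by rw [mem_lev.1 hq]; exact hde)))]
    refine Finset.sum_le_sum fun p _ => ?_
    have hs := disc_sum (v := v) hρ p ((lev N e).filter fun q => anc d q = p) e
      (fun q hq => ⟨mem_lev.1 (Finset.mem_filter.1 hq).1,
        (Finset.mem_filter.1 hq).2 ▸ anc_pre d q⟩) ω
    have h2 : ex μ z * (1 - ρ)⁻¹ * t p ω =
        (disc ρ v p ω * (1 - ρ)⁻¹) * (ex μ z * ex μ (X p ω - X (anc d0 p) ω)) := by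
      simp only [ht]; ring
    rw [h2]
    refine le_trans ?_ (add_le_add le_rfl (mul_le_mul_left hs _))
    rw [Finset.sum_mul, ← Finset.sum_add_distrib]
    refine Finset.sum_le_sum fun q hq => ?_
    have hq2 := (Finset.mem_filter.1 hq).2
    have e1 : X q ω - X (anc d0 q) ω = (X q ω - X p ω) + (X p ω - X (anc d0 p) ω) := by
      rw [← hq2, anc_anc h0]; ring
    rw [e1, ex_add]
    by_cases hz : z ≤ X q ω - X p ω
    · refine le_add_right ?_
      rw [indicator_of_mem (show _ ∈ Ici z from hz), ht, mul_comm (ex μ _), ← mul_assoc]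
      exact mul_le_mul_left (mul_le_mul_left (disc_mono ρ (hq2 ▸ anc_pre d q) ω) _) _
    · exact le_add_left (mul_le_mul_right (mul_le_mul_left (ex_mono hμ (not_le.1 hz).le) _) _)
  have m1 : ∀ p q : Vtx N, Measurable fun ω => t p ω * (Ici z).indicator (ex μ) (X q ω - X p ω) :=
    fun p q => (tm p).mul (gm.comp ((h.measX q).sub (h.measX p)))
  refine (lintegral_mono hpt).trans ?_
  unfold tot
  rw [lintegral_finset_sum _ fun p _ =>
    (Finset.measurable_sum _ fun q _ => m1 p q).fun_add ((tm p).const_mul _),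
    lintegral_finset_sum _ fun p _ => tm p, Finset.mul_sum]
  refine Finset.sum_le_sum fun p hp => ?_
  rw [lintegral_add_right _ ((tm p).const_mul _), lintegral_const_mul _ (tm p),
    lintegral_finset_sum _ fun q _ => m1 p q, add_mul]
  refine add_le_add ?_ le_rfl
  have h3 : ∀ q ∈ (lev N e).filter fun q => anc d q = p,
      ∫⁻ ω, t p ω * (Ici z).indicator (ex μ) (X q ω - X p ω) ∂P = I * ∫⁻ ω, t p ω ∂P := by
    intro q hq
    have hq2 := Finset.mem_filter.1 hq
    rw [h.prod p q (hq2.2 ▸ anc_pre d q) _ (term_meas h.alg ρ μ d0 p) _ gm, mem_lev.1 hq2.1,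
      mem_lev.1 hp, mul_comm]
  rw [Finset.sum_congr rfl h3, Finset.sum_const, nsmul_eq_mul, mul_assoc]
  refine mul_le_mul_left ?_ _
  exact_mod_cast card_fiber d e hde p

theorem Model.interval (h : Model N c P X U v) {ρ : ℝ≥0∞} (hρ : ρ ≤ 1) {μ : ℝ} (hμ : 0 ≤ μ)
    (K : ℕ) (d : ℕ → ℕ) (hd : Monotone d) (hN : d K ≤ N) (z : ℕ → ℝ) (w : ℕ → ℝ≥0∞)
    (hw : ∀ k < K, w k * (2 ^ (d (k + 1) - d k) * ∫⁻ x, (Ici (z k)).indicator (ex μ) x
      ∂(gaussianReal 0 (c (d (k + 1)) - c (d k)).toNNReal) + ex μ (z k) * (1 - ρ)⁻¹) ≤ 1)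
    (T : ℕ) (y : ℝ) :
    (∏ k ∈ Finset.range K, w k) * (ρ ^ T * ex μ y *
      P {ω | ∃ n < T, (v n ω).1.length = N ∧
        y ≤ X (anc (d K) (v n ω)) ω - X (anc (d 0) (v n ω)) ω}) ≤ (1 - ρ)⁻¹ := by
  have := h.gauss.isProbabilityMeasure
  have key : ∀ k ≤ K, (∏ j ∈ Finset.range k, w j) * ∫⁻ ω, tot ρ μ X v (d 0) (d k) ω ∂P ≤
      (1 - ρ)⁻¹ := by
    intro k
    induction k with
    | zero =>
      intro _
      rw [Finset.prod_range_zero, one_mul]
      refine (lintegral_mono (g := fun _ => (1 - ρ)⁻¹) fun ω => ?_).trans (by simp)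
      have hs := disc_sum (v := v) hρ ⟨[], Nat.zero_le _⟩ (lev N (d 0)) (d 0)
        (fun q hq => ⟨mem_lev.1 hq, List.nil_prefix⟩) ω
      refine le_trans (le_of_eq ?_) (hs.trans ?_)
      · refine Finset.sum_congr rfl fun u hu => ?_
        rw [anc_self (mem_lev.1 hu).le]
        simp [ex]
      · exact mul_le_of_le_one_left' (disc_le_one hρ _ _)
    | succ k ih =>
      intro hk
      refine le_trans ?_ (ih (Nat.le_of_succ_le hk))
      rw [Finset.prod_range_succ, mul_assoc]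
      refine mul_le_mul_right ?_ _
      refine (mul_le_mul_right (h.step hρ hμ (hd (Nat.zero_le k)) (hd (Nat.le_succ k)) (z k))
        _).trans ?_
      rw [← mul_assoc]
      exact mul_le_of_le_one_left' (hw k hk)
  refine le_trans (mul_le_mul_right ?_ _) (key K le_rfl)
  have tm : Measurable (tot ρ μ X v (d 0) (d K)) := Finset.measurable_sum _ fun u _ =>
    (term_meas h.alg ρ μ (d 0) u).mono (h.G_le u) le_rfl
  refine le_trans (mul_le_mul_right (measure_mono ?_) _) (mul_meas_ge_le_lintegral tm _)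
  rintro ω ⟨n, hn, hl, hy⟩
  refine le_trans ?_ (Finset.single_le_sum (f := fun u => disc ρ v u ω *
    ex μ (X u ω - X (anc (d 0) u) ω)) (fun _ _ => zero_le)
    (mem_lev.2 (anc_len (u := v n ω) (d := d K) (by rw [hl]; exact hN))))
  rw [anc_anc (hd (Nat.zero_le K))]
  exact mul_le_mul' ((pow_le_pow_of_le_one zero_le hρ hn.le).trans (disc_ge ρ (anc_pre _ _)))
    (ex_mono hμ hy)

end Pool.Agent.H98.CR
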