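import Mathlib
import Pool.Agent.H98.CR2

/-! Gaussian estimates and the two probability bounds. -/

namespace Pool.Agent.H98.CR

open MeasureTheory ProbabilityTheory Set Filter Topology
open scoped ENNReal

lemma gauss_mgf (μ z s : ℝ) (hs : 0 ≤ s) :
    ∫⁻ x, (Ici z).indicator (ex μ) x ∂(gaussianReal 0 s.toNNReal) ≤
      ENNReal.ofReal (Real.exp (s * μ ^ 2 / 2)) := by
  refine (lintegral_mono fun x => indicator_le_self _ _ x).trans (le_of_eq ?_)
  unfold ex
  rw [← ofReal_integral_eq_lintegral_ofReal (integrable_exp_mul_gaussianReal μ)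
    (ae_of_all _ fun x => (Real.exp_pos _).le)]
  have := congrFun (mgf_id_gaussianReal (μ := 0) (v := s.toNNReal)) μ
  simp only [mgf, id, zero_mul, zero_add, Real.coe_toNNReal _ hs] at this
  rw [this]

lemma gauss_dens (μ l z s : ℝ) (hs : 0 < s) (hl : μ < l) :
    ∫⁻ x, (Ici z).indicator (ex μ) x ∂(gaussianReal 0 s.toNNReal) ≤
      ENNReal.ofReal ((√s)⁻¹ * Real.exp (l ^ 2 * s / 2) *
        (Real.exp (-(l - μ) * z) / (l - μ))) := by
  have hv : s.toNNReal ≠ 0 := by simpa using hs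
  have hn : -(l - μ) < 0 := by linarith
  rw [gaussianReal_of_var_ne_zero _ hv, lintegral_withDensity_eq_lintegral_mul _
    (measurable_gaussianPDF _ _) ((ex_meas μ).indicator measurableSet_Ici)]
  have h1 : ∀ x, (gaussianPDF 0 s.toNNReal * (Ici z).indicator (ex μ)) x ≤
      (Ici z).indicator (fun x => ENNReal.ofReal ((√s)⁻¹ * Real.exp (l ^ 2 * s / 2) *
        Real.exp (-(l - μ) * x))) x := by
    intro x
    by_cases hx : x ∈ Ici z
    · rw [Pi.mul_apply, indicator_of_mem hx, indicator_of_mem hx, gaussianPDF, ex,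
        ← ENNReal.ofReal_mul (gaussianPDFReal_nonneg _ _ _)]
      refine ENNReal.ofReal_le_ofReal ?_
      rw [gaussianPDFReal, Real.coe_toNNReal _ hs.le, mul_assoc, mul_assoc (√s)⁻¹, ← Real.exp_add,
        ← Real.exp_add]
      refine mul_le_mul ?_ (Real.exp_le_exp.2 ?_) (Real.exp_pos _).le (by positivity)
      · refine inv_anti₀ (Real.sqrt_pos.2 hs) (Real.sqrt_le_sqrt ?_)
        nlinarith [Real.pi_gt_three]
      · have : -(x - 0) ^ 2 / (2 * s) = l ^ 2 * s / 2 - l * x - (x - l * s) ^ 2 / (2 * s) := by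
          field_simp
          ring
        rw [this]
        have : 0 ≤ (x - l * s) ^ 2 / (2 * s) := by positivity
        linarith
    · simp [indicator_of_notMem hx]
  refine (lintegral_mono h1).trans (le_of_eq ?_)
  rw [lintegral_indicator measurableSet_Ici, ← setLIntegral_congr Ioi_ae_eq_Ici,
    ← ofReal_integral_eq_lintegral_ofReal ((integrableOn_exp_mul_Ioi hn z).const_mul _)
      (ae_of_all _ fun x => by positivity), integral_const_mul, integral_exp_mul_Ioi hn,
    neg_div_neg_eq]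

variable {N : ℕ} {c : ℕ → ℝ} {Ω : Type} [mΩ : MeasurableSpace Ω] {P : Measure Ω}
  {X : Vtx N → Ω → ℝ} {U : ℕ → Ω → ℝ} {v : ℕ → Ω → Vtx N}

/-- Some leaf queried before time `T` has increment at least `y` between depths `d0` and `d1`. -/
def Ev (X : Vtx N → Ω → ℝ) (v : ℕ → Ω → Vtx N) (T d0 d1 : ℕ) (y : ℝ) : Set Ω :=
  {ω | ∃ n < T, (v n ω).1.length = N ∧ y ≤ X (anc d1 (v n ω)) ω - X (anc d0 (v n ω)) ω}

theorem Model.real_bound (h : Model N c P X U v) {θ : ℝ} (h0 : 0 < θ) (h1 : θ ≤ 1 / 2) {μ : ℝ}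
    (hμ : 0 ≤ μ) (K : ℕ) (d : ℕ → ℕ) (hd : Monotone d) (hN : d K ≤ N) (z w I : ℕ → ℝ)
    (hI0 : ∀ k < K, 0 ≤ I k)
    (hI : ∀ k < K, ∫⁻ x, (Ici (z k)).indicator (ex μ) x
      ∂(gaussianReal 0 (c (d (k + 1)) - c (d k)).toNNReal) ≤ ENNReal.ofReal (I k))
    (hw : ∀ k < K, Real.exp (w k) * (2 ^ (d (k + 1) - d k) * I k + Real.exp (μ * z k) / θ) ≤ 1)
    (T : ℕ) (y : ℝ) :
    P (Ev X v T (d 0) (d K) y) ≤ ENNReal.ofReal
      (θ⁻¹ * Real.exp (2 * θ * T - μ * y - ∑ k ∈ Finset.range K, w k)) := by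
  have hρ : (1 - ENNReal.ofReal (1 - θ))⁻¹ = ENNReal.ofReal θ⁻¹ := by
    rw [← ENNReal.ofReal_one, ← ENNReal.ofReal_sub _ (by linarith), sub_sub_cancel,
      ENNReal.ofReal_inv_of_pos h0]
  have key := h.interval (ρ := ENNReal.ofReal (1 - θ))
    (ENNReal.ofReal_le_one.2 (by linarith)) hμ K d hd hN z
    (fun k => ENNReal.ofReal (Real.exp (w k))) (fun k hk => by
      refine le_trans (mul_le_mul_right (add_le_add (mul_le_mul_right (hI k hk) _) le_rfl) _) ?_
      have := hI0 k hk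
      rw [hρ, ex, ← ENNReal.ofReal_mul (Real.exp_pos _).le, ← ENNReal.ofReal_ofNat,
        ← ENNReal.ofReal_pow (by norm_num), ← ENNReal.ofReal_mul (by positivity),
        ← ENNReal.ofReal_add (by positivity) (by positivity),
        ← ENNReal.ofReal_mul (Real.exp_pos _).le, ENNReal.ofReal_le_one, ← div_eq_mul_inv]
      exact hw k hk) T y
  rw [hρ, ← ENNReal.ofReal_prod_of_nonneg fun _ _ => (Real.exp_pos _).le, ← Real.exp_sum, ex,
    ← ENNReal.ofReal_pow (by linarith), ← ENNReal.ofReal_mul (pow_nonneg (by linarith) _),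
    ← mul_assoc, ← ENNReal.ofReal_mul (Real.exp_pos _).le] at key
  have h2 : Real.exp (-(2 * θ)) ≤ 1 - θ := by
    rw [Real.exp_neg, inv_le_comm₀ (Real.exp_pos _) (by linarith)]
    refine le_trans ?_ (Real.add_one_le_exp _)
    rw [inv_le_iff_one_le_mul₀ (by linarith)]
    nlinarith
  have h3 : Real.exp (-(2 * θ * T)) ≤ (1 - θ) ^ T := by
    rw [show -(2 * θ * T) = T * -(2 * θ) by ring, Real.exp_nat_mul]
    exact pow_le_pow_left₀ (Real.exp_pos _).le h2 _
  set e := 2 * θ * T - μ * y - ∑ k ∈ Finset.range K, w k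
  have h4 : Real.exp (-e) ≤
      Real.exp (∑ k ∈ Finset.range K, w k) * ((1 - θ) ^ T * Real.exp (μ * y)) := by
    rw [show -e = (∑ k ∈ Finset.range K, w k) + (-(2 * θ * T) + μ * y) by ring, Real.exp_add,
      Real.exp_add]
    gcongr
  have h5 := (mul_le_mul_left (ENNReal.ofReal_le_ofReal h4) _).trans key
  have h6 := mul_le_mul_right h5 (ENNReal.ofReal (Real.exp e))
  rw [← mul_assoc, ← ENNReal.ofReal_mul (Real.exp_pos _).le, ← Real.exp_add, add_neg_cancel,
    Real.exp_zero, ENNReal.ofReal_one, one_mul, ← ENNReal.ofReal_mul (Real.exp_pos _).le,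
    mul_comm] at h6
  exact h6

lemma tends (a b : ℝ) (hb : 0 < b) :
    Tendsto (fun N : ℕ => ENNReal.ofReal (a * Real.exp (-(b * N)))) atTop (𝓝 0) := by
  rw [← ENNReal.ofReal_zero]
  refine ENNReal.tendsto_ofReal ?_
  rw [← mul_zero a]
  refine Tendsto.const_mul _ (Real.tendsto_exp_neg_atTop_nhds_zero.comp ?_)
  exact tendsto_natCast_atTop_atTop.const_mul_atTop hb

/-- Coarse bound: no gain, small loss. -/
theorem coarse (l δ : ℝ) (hl : 0 < l) (hδ : 0 < δ) (C : ℕ) :
    ∃ f : ℕ → ℝ≥0∞, Tendsto f atTop (𝓝 0) ∧ ∀ (N : ℕ) (c : ℕ → ℝ) (Ω : Type)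
      (_ : MeasurableSpace Ω) (P : Measure Ω) (X : Vtx N → Ω → ℝ) (U : ℕ → Ω → ℝ)
      (v : ℕ → Ω → Vtx N), Model N c P X U v → ∀ d0 d1 : ℕ, d0 ≤ d1 → d1 ≤ N → c d0 ≤ c d1 →
      P (Ev X v (C * N) d0 d1 (((d1 : ℝ) - d0) * Real.log 2 / l + l * (c d1 - c d0) / 2 + δ * N))
        ≤ f N := by
  set θ := min (1 / 2) (l * δ / (4 * (C + 1)))
  have h0 : 0 < θ := lt_min (by norm_num) (by positivity)
  have h1 : θ ≤ 1 / 2 := min_le_left _ _
  have h2 : θ ≤ l * δ / (4 * (C + 1)) := min_le_right _ _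
  refine ⟨_, tends (θ⁻¹ * (1 + θ⁻¹)) (l * δ / 2) (by positivity), ?_⟩
  intro N c Ω _ P X U v h d0 d1 h01 hN hc
  set z := ((d1 : ℝ) - d0) * Real.log 2 / l + l * (c d1 - c d0) / 2 with hz
  have hb := h.real_bound h0 h1 hl.le 1 (fun k => if k = 0 then d0 else d1)
    (monotone_nat_of_le_succ fun k => by cases k <;> simp [h01]) hN (fun _ => z)
    (fun _ => -(l * z) - Real.log (1 + θ⁻¹)) (fun _ => Real.exp ((c d1 - c d0) * l ^ 2 / 2))
    (fun _ _ => (Real.exp_pos _).le)
    (fun k hk => by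
      obtain rfl : k = 0 := by omega
      exact gauss_mgf _ _ _ (sub_nonneg.2 hc))
    (fun k hk => by
      obtain rfl : k = 0 := by omega
      have e1 : (2 : ℝ) ^ (d1 - d0) * Real.exp ((c d1 - c d0) * l ^ 2 / 2) = Real.exp (l * z) := by
        rw [← Real.exp_log (show (0 : ℝ) < 2 ^ (d1 - d0) by positivity), ← Real.exp_add,
          Real.log_pow, Nat.cast_sub h01, hz]
        congr 1
        field_simp
      simp only [zero_add, one_ne_zero, if_false, if_true]
      rw [e1, Real.exp_sub, Real.exp_log (by positivity), Real.exp_neg]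
      apply le_of_eq
      field_simp) (C * N) (z + δ * N)
  simp only [one_ne_zero, if_false, if_true, Finset.range_one, Finset.sum_singleton] at hb
  refine hb.trans (ENNReal.ofReal_le_ofReal ?_)
  rw [mul_assoc θ⁻¹]
  refine mul_le_mul_of_nonneg_left ?_ (by positivity)
  rw [← Real.exp_log (show 0 < 1 + θ⁻¹ by positivity), ← Real.exp_add, Real.log_exp,
    Real.exp_le_exp]
  rw [le_div_iff₀ (by positivity)] at h2
  push_cast
  have : (0 : ℝ) ≤ N := Nat.cast_nonneg N
  nlinarith [mul_le_mul_of_nonneg_right h2 this, mul_nonneg h0.le this]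

/-- Fine bound: a linear gain on a stretch of blocks with comparable variances. -/
theorem gain (μ η : ℝ) (hμ : 0 < μ) (hη : 0 < η) (hη1 : η ≤ 1) (C : ℕ) :
    ∃ (M : ℕ) (κ : ℝ) (f : ℕ → ℝ≥0∞), 0 < M ∧ 0 < κ ∧ Tendsto f atTop (𝓝 0) ∧
      ∀ (N : ℕ) (c : ℕ → ℝ) (Ω : Type)
      (_ : MeasurableSpace Ω) (P : Measure Ω) (X : Vtx N → Ω → ℝ) (U : ℕ → Ω → ℝ)
      (v : ℕ → Ω → Vtx N), Model N c P X U v → ∀ (q K : ℕ) (l : ℕ → ℝ), M * (q + K) ≤ N →
      η * N ≤ M * K →
      (∀ k < K, 17 / 16 * μ ≤ l k ∧ l k ≤ 9 / 8 * μ ∧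
        l k ^ 2 * (c (M * (q + (k + 1))) - c (M * (q + k))) = 2 * M * Real.log 2) →
      P (Ev X v (C * N) (M * q) (M * (q + K))
        (∑ k ∈ Finset.range K, l k * (c (M * (q + (k + 1))) - c (M * (q + k))) - κ * N))
        ≤ f N := by
  obtain ⟨L, hL⟩ := exists_nat_gt (Real.exp 3 * (18 + 2 * (C + 1) / η))
  have hL0 : (0 : ℝ) < L := lt_of_le_of_lt (by positivity) hL
  have hL1 : (1 : ℝ) ≤ L := by exact_mod_cast Nat.one_le_iff_ne_zero.2 (by rintro rfl; simp at hL0)
  have hM1 : (1 : ℝ) ≤ L ^ 4 := one_le_pow₀ hL1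
  set θ : ℝ := η / (2 * (C + 1) * L ^ 4) with hθ
  have hC : (1 : ℝ) ≤ C + 1 := by linarith [Nat.cast_nonneg (α := ℝ) C]
  have h0 : 0 < θ := by positivity
  have h1 : θ ≤ 1 / 2 := by
    rw [hθ, div_le_iff₀ (by positivity)]
    nlinarith
  refine ⟨L ^ 4, η / (μ * L ^ 4), _, by exact_mod_cast (show (0 : ℝ) < L ^ 4 by positivity),
    by positivity, tends θ⁻¹ (η / L ^ 4) (by positivity), ?_⟩
  intro N c Ω _ P X U v h q K l hN hK hl
  set s : ℕ → ℝ := fun k => c (L ^ 4 * (q + (k + 1))) - c (L ^ 4 * (q + k)) with hs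
  set a := 8 * Real.log L / μ with ha
  have hlog : 1 ≤ 2 * Real.log 2 := by linarith [Real.log_two_gt_d9]
  have hs0 : ∀ k < K, 0 < s k := fun k hk => by
    obtain ⟨h2, -, h4⟩ := hl k hk
    have : 0 < l k ^ 2 * s k := by
      rw [h4]; push_cast; positivity
    exact (pos_iff_pos_of_mul_pos this).1 (pow_pos (by linarith) 2)
  have hb := h.real_bound h0 h1 hμ.le K (fun k => L ^ 4 * (q + k))
    (fun i j hij => Nat.mul_le_mul_left _ (by omega)) hN (fun k => l k * s k - a)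
    (fun k => 3 - μ * (l k * s k))
    (fun k => (√(s k))⁻¹ * Real.exp (l k ^ 2 * s k / 2) *
        (Real.exp (-(l k - μ) * (l k * s k - a)) / (l k - μ)))
    (fun k hk => by
      have : 0 < l k - μ := by linarith [(hl k hk).1]
      positivity)
    (fun k hk => gauss_dens _ _ _ _ (hs0 k hk) (by linarith [(hl k hk).1]))
    (fun k hk => by
      obtain ⟨h2, h3, h4⟩ := hl k hk
      change l k ^ 2 * s k = _ at h4
      have hp : 0 < l k - μ := by linarith
      have hsk := hs0 k hk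
      have e0 : L ^ 4 * (q + (k + 1)) - L ^ 4 * (q + k) = L ^ 4 := by
        rw [← Nat.mul_sub, show q + (k + 1) - (q + k) = 1 by omega, mul_one]
      have e1 : (2 : ℝ) ^ (L ^ 4) = Real.exp (l k ^ 2 * s k / 2) := by
        rw [h4, ← Real.exp_log (show (0 : ℝ) < 2 ^ (L ^ 4) by positivity), Real.log_pow]
        congr 1
        ring
      have e2 : Real.exp (3 - μ * (l k * s k)) * (Real.exp (l k ^ 2 * s k / 2) *
          ((√(s k))⁻¹ * Real.exp (l k ^ 2 * s k / 2) *
          (Real.exp (-(l k - μ) * (l k * s k - a)) / (l k - μ))) +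
            Real.exp (μ * (l k * s k - a)) / θ) =
          Real.exp 3 * ((√(s k))⁻¹ * Real.exp ((l k - μ) * a) / (l k - μ) +
            Real.exp (-(μ * a)) / θ) := by
        have f1 : Real.exp (3 - μ * (l k * s k)) * Real.exp (l k ^ 2 * s k / 2) *
            Real.exp (l k ^ 2 * s k / 2) * Real.exp (-(l k - μ) * (l k * s k - a)) =
            Real.exp 3 * Real.exp ((l k - μ) * a) := by
          simp only [← Real.exp_add]; congr 1; ring
        have f2 : Real.exp (3 - μ * (l k * s k)) * Real.exp (μ * (l k * s k - a)) =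
            Real.exp 3 * Real.exp (-(μ * a)) := by
          simp only [← Real.exp_add]; congr 1; ring
        linear_combination (√(s k))⁻¹ / (l k - μ) * f1 + f2 / θ
      rw [e0, e1, e2]
      have hlg : 0 ≤ Real.log L := Real.log_nonneg hL1
      have g1 : Real.exp ((l k - μ) * a) ≤ L := by
        refine le_of_le_of_eq (Real.exp_le_exp.2 ?_) (Real.exp_log hL0)
        rw [ha, ← mul_div_assoc, div_le_iff₀ hμ]
        nlinarith
      have g2 : Real.exp (-(μ * a)) = ((L : ℝ) ^ 8)⁻¹ := by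
        rw [Real.exp_neg, ← Real.exp_log (show (0 : ℝ) < L ^ 8 by positivity), Real.log_pow, ha]
        congr 2
        push_cast
        field_simp
      have g3 : (√(s k))⁻¹ ≤ 9 / 8 * μ / L ^ 2 := by
        rw [inv_le_comm₀ (Real.sqrt_pos.2 hsk) (by positivity), inv_div]
        refine Real.le_sqrt_of_sq_le ?_
        rw [div_pow, div_le_iff₀ (by positivity)]
        have : l k ^ 2 ≤ (9 / 8 * μ) ^ 2 := pow_le_pow_left₀ (by linarith) h3 2
        push_cast at h4
        nlinarith [mul_le_mul_of_nonneg_right this hsk.le]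
      have g4 : (√(s k))⁻¹ * Real.exp ((l k - μ) * a) / (l k - μ) ≤ 18 / L := by
        rw [div_le_iff₀ hp]
        refine (mul_le_mul g3 g1 (Real.exp_pos _).le (by positivity)).trans ?_
        have : 9 / 8 * μ / L ^ 2 * L = 18 / L * (μ / 16) := by field_simp; ring
        rw [this]
        exact mul_le_mul_of_nonneg_left (by linarith) (by positivity)
      have g5 : Real.exp (-(μ * a)) / θ ≤ 2 * (C + 1) / η / L := by
        rw [g2, hθ, show ((L : ℝ) ^ 8)⁻¹ / (η / (2 * (C + 1) * L ^ 4)) =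
          2 * (C + 1) / η / L ^ 4 by field_simp]
        exact div_le_div_of_nonneg_left (by positivity) hL0 (le_self_pow₀ hL1 (by norm_num))
      refine (mul_le_mul_of_nonneg_left (add_le_add g4 g5) (Real.exp_pos _).le).trans ?_
      rw [← add_div, ← mul_div_assoc, div_le_one hL0]
      exact hL.le) (C * N) (∑ k ∈ Finset.range K, l k * s k - η / (μ * L ^ 4) * N)
  refine hb.trans (ENNReal.ofReal_le_ofReal (mul_le_mul_of_nonneg_left ?_ (by positivity)))
  rw [Real.exp_le_exp, Finset.sum_sub_distrib, ← Finset.mul_sum]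
  simp only [Finset.sum_const, Finset.card_range, nsmul_eq_mul]
  have k1 : η / L ^ 4 * N ≤ K := by
    rw [div_mul_eq_mul_div, div_le_iff₀ (by positivity)]
    push_cast at hK
    linarith
  have k2 : μ * (η / (μ * L ^ 4) * N) = η / L ^ 4 * N := by field_simp
  have k3 : 2 * θ * ((C * N : ℕ) : ℝ) ≤ η / L ^ 4 * N := by
    have : η / L ^ 4 = 2 * θ * (C + 1) := by rw [hθ]; field_simp
    rw [this]
    push_cast
    have : (0 : ℝ) ≤ N := Nat.cast_nonneg N
    nlinarith [mul_nonneg h0.le this]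
  rw [mul_sub, k2]
  linarith

end Pool.Agent.H98.CR
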