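import Mathlib

/-! Riemann sums of square roots of block averages. -/

namespace Pool.Agent.H98.CR

open MeasureTheory Set Filter Topology

/-- The primitive `A t = ∫_0^t a`. -/
noncomputable def prim (a : ℝ → ℝ) (t : ℝ) : ℝ := ∫ s in (0 : ℝ)..t, a s

variable {a : ℝ → ℝ}

lemma prim_bounds (hi : IntervalIntegrable a volume 0 1) {s t lo hi' : ℝ} (hs : 0 ≤ s)
    (hst : s ≤ t) (ht : t ≤ 1) (h : ∀ y ∈ Icc s t, lo ≤ a y ∧ a y ≤ hi') :
    lo * (t - s) ≤ prim a t - prim a s ∧ prim a t - prim a s ≤ hi' * (t - s) := by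
  have m : ∀ x y, 0 ≤ x → x ≤ y → y ≤ 1 → IntervalIntegrable a volume x y := fun x y h1 h2 h3 =>
    hi.mono_set (by rw [uIcc_of_le h2, uIcc_of_le zero_le_one]; exact Icc_subset_Icc h1 h3)
  rw [prim, prim, intervalIntegral.integral_interval_sub_left (m 0 t le_rfl (hs.trans hst) ht)
    (m 0 s le_rfl hs (hst.trans ht))]
  have h1 := intervalIntegral.integral_mono_on hst (intervalIntegrable_const (c := lo))
    (m s t hs hst ht) fun y hy => (h y hy).1
  have h2 := intervalIntegral.integral_mono_on hst (m s t hs hst ht)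
    (intervalIntegrable_const (c := hi')) fun y hy => (h y hy).2
  rw [intervalIntegral.integral_const, smul_eq_mul, mul_comm] at h1 h2
  exact ⟨h1, h2⟩

lemma ceil_facts {J : ℕ} (hJ : 0 < J) {x : ℝ} (hx : x ∈ Ioc (0 : ℝ) 1) :
    0 ≤ ((⌈J * x⌉₊ : ℝ) - 1) / J ∧ ((⌈J * x⌉₊ : ℝ) - 1) / J ≤ x ∧ x ≤ (⌈J * x⌉₊ : ℝ) / J ∧
      (⌈J * x⌉₊ : ℝ) / J ≤ 1 ∧ (⌈J * x⌉₊ : ℝ) / J - ((⌈J * x⌉₊ : ℝ) - 1) / J = 1 / J := by
  have hJ' : (0 : ℝ) < J := by exact_mod_cast hJ
  have h1 : 0 < J * x := mul_pos hJ' hx.1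
  have h2 : (1 : ℝ) ≤ ⌈J * x⌉₊ := by exact_mod_cast Nat.one_le_ceil_iff.2 h1
  have h3 := Nat.ceil_lt_add_one h1.le
  have h4 := Nat.le_ceil (J * x)
  have h5 : (⌈J * x⌉₊ : ℝ) ≤ J := by
    exact_mod_cast Nat.ceil_le.2 (mul_le_of_le_one_right hJ'.le hx.2)
  refine ⟨by positivity, ?_, ?_, ?_, by ring⟩
  · rw [div_le_iff₀' hJ']; linarith
  · rw [le_div_iff₀' hJ']; linarith
  · rw [div_le_one hJ']; exact h5

lemma riemann {B : ℝ} (hi : IntervalIntegrable a volume 0 1)
    (hB : ∀ t ∈ Icc (0 : ℝ) 1, 0 ≤ a t ∧ a t ≤ B)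
    (hc : ∀ᵐ t ∂(volume.restrict (Icc (0 : ℝ) 1)), ContinuousAt a t) :
    Tendsto (fun J : ℕ => ∑ j ∈ Finset.range J,
      √((prim a (((j : ℝ) + 1) / J) - prim a (j / J)) / J)) atTop
      (𝓝 (∫ t in (0 : ℝ)..1, √(a t))) := by
  set g : ℕ → ℕ → ℝ := fun J k => √(J * (prim a (k / J) - prim a (((k : ℝ) - 1) / J))) with hg
  set F : ℕ → ℝ → ℝ := fun J x => g J ⌈J * x⌉₊ with hF
  have hm : ∀ J, Measurable (F J) := fun J =>
    (measurable_of_countable (g J)).comp (Nat.measurable_ceil.comp (by fun_prop))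
  have hlim : Tendsto (fun J => ∫ x in (0 : ℝ)..1, F J x) atTop (𝓝 (∫ t in (0 : ℝ)..1, √(a t))) := by
    refine intervalIntegral.tendsto_integral_filter_of_dominated_convergence (fun _ => √B)
      (Eventually.of_forall fun J => (hm J).aestronglyMeasurable) ?_ intervalIntegrable_const ?_
    · filter_upwards [eventually_gt_atTop 0] with J hJ
      refine ae_of_all _ fun x hx => ?_
      rw [uIoc_of_le zero_le_one] at hx
      obtain ⟨h1, h2, h3, h4, h5⟩ := ceil_facts hJ hx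
      have := (prim_bounds hi h1 (h2.trans h3) h4 fun y hy =>
        hB y ⟨h1.trans hy.1, hy.2.trans h4⟩).2
      rw [h5] at this
      have hJ' : (0 : ℝ) < J := by exact_mod_cast hJ
      rw [Real.norm_of_nonneg (Real.sqrt_nonneg _)]
      refine Real.sqrt_le_sqrt ?_
      rwa [mul_one_div, le_div_iff₀' hJ'] at this
    · rw [ae_restrict_iff' measurableSet_Icc] at hc
      filter_upwards [hc] with x hx hx'
      rw [uIoc_of_le zero_le_one] at hx'
      refine Tendsto.sqrt ?_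
      rw [Metric.tendsto_atTop]
      intro ε hε
      obtain ⟨η, hη, h⟩ := Metric.continuousAt_iff.1 (hx (Ioc_subset_Icc_self hx')) (ε / 2)
        (by positivity)
      obtain ⟨J0, hJ0⟩ := exists_nat_one_div_lt hη
      refine ⟨J0 + 1, fun J hJ => ?_⟩
      have hJ1 : 0 < J := by omega
      have hJ' : (0 : ℝ) < J := by exact_mod_cast hJ1
      have hJ2 : 1 / (J : ℝ) < η := lt_of_le_of_lt
        (one_div_le_one_div_of_le (by positivity) (by exact_mod_cast hJ)) hJ0
      obtain ⟨h1, h2, h3, h4, h5⟩ := ceil_facts hJ1 hx'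
      have := prim_bounds (lo := a x - ε / 2) (hi' := a x + ε / 2) hi h1 (h2.trans h3) h4
        fun y hy => by
          have := h (x := y) (by rw [Real.dist_eq, abs_lt]; constructor <;> linarith [hy.1, hy.2])
          rw [Real.dist_eq, abs_lt] at this
          constructor <;> linarith [this.1, this.2]
      rw [h5, mul_one_div, mul_one_div, le_div_iff₀' hJ', div_le_iff₀' hJ'] at this
      rw [Real.dist_eq, abs_lt]
      constructor <;> linarith [this.1, this.2]
  refine hlim.congr' ?_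
  filter_upwards [eventually_gt_atTop 0] with J hJ
  have hJ' : (0 : ℝ) < J := by exact_mod_cast hJ
  have hcst : ∀ j : ℕ, ∀ x ∈ uIoc ((j : ℝ) / J) (((j + 1 : ℕ) : ℝ) / J), F J x = g J (j + 1) := by
    intro j x hx
    rw [uIoc_of_le (by gcongr; omega)] at hx
    have : ⌈J * x⌉₊ = j + 1 := by
      rw [Nat.ceil_eq_iff (Nat.succ_ne_zero j)]
      exact ⟨by simpa using (div_lt_iff₀' hJ').1 hx.1, (le_div_iff₀' hJ').1 hx.2⟩
    simp only [hF, this]
  have := intervalIntegral.sum_integral_adjacent_intervals (f := F J) (μ := volume)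
    (a := fun j : ℕ => (j : ℝ) / J) (n := J) fun j _ =>
      (intervalIntegrable_const (c := g J (j + 1))).congr fun x hx => (hcst j x hx).symm
  simp only [Nat.cast_zero, zero_div, div_self hJ'.ne'] at this
  rw [← this]
  refine Finset.sum_congr rfl fun j _ => ?_
  rw [intervalIntegral.integral_congr_ae (ae_of_all _ (hcst j)), intervalIntegral.integral_const]
  simp only [hg, smul_eq_mul]
  push_cast
  rw [add_sub_cancel_right, show ((j : ℝ) + 1) / J - j / J = √((1 / J) ^ 2) by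
    rw [Real.sqrt_sq (by positivity)]; ring, ← Real.sqrt_mul (by positivity)]
  congr 1
  field_simp

lemma exists_pt (h1 : ∫ t in (0 : ℝ)..1, a t = 1) (h0 : ∀ t ∈ Icc (0 : ℝ) 1, 0 ≤ a t)
    (hc : ∀ᵐ t ∂(volume.restrict (Icc (0 : ℝ) 1)), ContinuousAt a t) :
    ∃ x ∈ Ico (0 : ℝ) 1, ContinuousAt a x ∧ 0 < a x := by
  by_contra h
  push Not at h
  rw [ae_restrict_iff' measurableSet_Icc] at hc
  have : ∫ t in (0 : ℝ)..1, a t = ∫ t in (0 : ℝ)..1, (0 : ℝ) := by
    refine intervalIntegral.integral_congr_ae ?_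
    filter_upwards [hc, Measure.ae_ne volume (1 : ℝ)] with x hx hx1 hx'
    rw [uIoc_of_le zero_le_one] at hx'
    exact le_antisymm (h x ⟨hx'.1.le, lt_of_le_of_ne hx'.2 hx1⟩ (hx (Ioc_subset_Icc_self hx')))
      (h0 x (Ioc_subset_Icc_self hx'))
  rw [h1] at this
  simp at this

lemma exists_lam {u w ε : ℝ} (hu : 0 < u) (hw : 0 ≤ w) (hε : 0 < ε) :
    ∃ l, 0 < l ∧ u / l + l * w / 2 ≤ √(2 * u * w) + ε := by
  rcases hw.eq_or_lt with rfl | hw
  · refine ⟨u / ε, by positivity, ?_⟩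
    rw [div_div_cancel₀ hu.ne']
    simp
  · have h1 : 0 < √(2 * u * w) := by positivity
    refine ⟨√(2 * u * w) / w, by positivity, ?_⟩
    have h2 := Real.mul_self_sqrt (show 0 ≤ 2 * u * w by positivity)
    have : u / (√(2 * u * w) / w) + √(2 * u * w) / w * w / 2 = √(2 * u * w) := by
      generalize √(2 * u * w) = r at h1 h2
      field_simp
      linarith
    linarith

lemma block_sum (m z : ℕ → ℝ) (q : ℕ → ℕ) (hq : Monotone q) (α β : ℕ) (hαβ : α ≤ β)
    (h : ∀ j, α ≤ j → j < β → ∑ i ∈ Finset.Ico (q j) (q (j + 1)), m i ≤ z j) :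
    ∑ i ∈ Finset.Ico (q α) (q β), m i ≤ ∑ j ∈ Finset.Ico α β, z j := by
  induction β, hαβ using Nat.le_induction with
  | base => simp
  | succ β hαβ ih =>
    rw [Finset.sum_Ico_succ_top hαβ, ← Finset.sum_Ico_consecutive m (hq hαβ) (hq (Nat.le_succ β))]
    exact add_le_add (ih fun j h1 h2 => h j h1 (by omega)) (h β hαβ (by omega))

end Pool.Agent.H98.CR
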