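import Mathlib
import Pool.Agent.H98.CR3
import Pool.Agent.H98.CR4

/-! Assembly: linearly many queries do not reach `(x_* - ε) N`. -/

namespace Pool.Agent.H98.CR

open MeasureTheory ProbabilityTheory Set Filter Topology
open scoped ENNReal

lemma amgm {u s l : ℝ} (hu : 0 ≤ u) (hs : 0 ≤ s) (hl : 0 < l) :
    √(2 * u / s) * s ≤ u / l + l * s / 2 := by
  rcases hs.eq_or_lt with rfl | hs
  · simp; positivity
  have h2 := Real.mul_self_sqrt (show 0 ≤ 2 * u / s by positivity)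
  generalize √(2 * u / s) = r at h2
  have h3 : u = r * r * s / 2 := by rw [h2]; field_simp
  have : u / l + l * s / 2 - r * s = s * (r - l) ^ 2 / (2 * l) := by
    rw [h3]; field_simp; ring
  have : 0 ≤ s * (r - l) ^ 2 / (2 * l) := by positivity
  linarith

lemma Model.root {N : ℕ} {c : ℕ → ℝ} {Ω : Type} [MeasurableSpace Ω] {P : Measure Ω}
    {X : Vtx N → Ω → ℝ} {U : ℕ → Ω → ℝ} {v : ℕ → Ω → Vtx N} (h : Model N c P X U v)
    (hc : c 0 = 0) : P {ω | ¬ X ⟨[], Nat.zero_le _⟩ ω = 0} = 0 := by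
  have h1 := h.cov ⟨[], Nat.zero_le _⟩ ⟨[], Nat.zero_le _⟩
  have h2 := (h.gauss.hasGaussianLaw_eval ⟨[], Nat.zero_le _⟩).memLp_two
  rw [show meet [] [] = 0 from rfl, hc, integral_eq_zero_iff_of_nonneg
    (fun ω => mul_self_nonneg _) (h2.integrable_mul h2)] at h1
  rw [← ae_iff]
  filter_upwards [h1] with ω hω
  exact mul_self_eq_zero.1 hω

theorem main {a : ℝ → ℝ} {B : ℝ} (hB : ∀ t ∈ Icc (0 : ℝ) 1, 0 ≤ a t ∧ a t ≤ B)
    (hc : ∀ᵐ t ∂(volume.restrict (Icc (0 : ℝ) 1)), ContinuousAt a t)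
    (h1 : ∫ t in (0 : ℝ)..1, a t = 1) (C : ℕ) :
    ∃ ε : ℝ, 0 < ε ∧ ∃ f : ℕ → ℝ≥0∞, Tendsto f atTop (𝓝 0) ∧ ∀ᶠ N : ℕ in atTop, ∀ (Ω : Type)
      (_ : MeasurableSpace Ω) (P : Measure Ω) (X : Vtx N → Ω → ℝ) (U : ℕ → Ω → ℝ)
      (v : ℕ → Ω → Vtx N), Model N (fun k => N * prim a (k / N)) P X U v →
      P {ω | ∃ n < C * N, (v n ω).1.length = N ∧
        (√(2 * Real.log 2) * (∫ t in (0 : ℝ)..1, √(a t)) - ε) * N ≤ X (v n ω) ω} ≤ f N := by
  have hi : IntervalIntegrable a volume 0 1 :=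
    intervalIntegral.intervalIntegrable_of_integral_ne_zero (by rw [h1]; norm_num)
  have hB0 : 0 ≤ B := (hB 0 (by simp)).1.trans (hB 0 (by simp)).2
  have hlg : 0 < Real.log 2 := Real.log_pos (by norm_num)
  obtain ⟨x0, hx0, hcx, ha0⟩ := exists_pt h1 (fun t ht => (hB t ht).1) hc
  obtain ⟨η, hη, hwin⟩ := Metric.continuousAt_iff.1 hcx (a x0 / 20) (by positivity)
  set μ := 32 / 35 * √(2 * Real.log 2 / a x0) with hμ
  have hμ0 : 0 < μ := by positivity
  have hμ2 : μ ^ 2 * a x0 = (32 / 35) ^ 2 * (2 * Real.log 2) := by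
    rw [hμ, mul_pow, Real.sq_sqrt (by positivity)]
    field_simp
  obtain ⟨J', hJ'⟩ := exists_nat_one_div_lt (half_pos hη)
  obtain ⟨J0, hJ0, hJη⟩ : ∃ J0 : ℕ, 0 < J0 ∧ 1 / (J0 : ℝ) < η / 2 :=
    ⟨J' + 1, Nat.succ_pos _, by exact_mod_cast hJ'⟩
  have hJ0' : (1 : ℝ) ≤ J0 := by exact_mod_cast hJ0
  obtain ⟨p, hp1, hp2, hp3⟩ : ∃ p : ℕ, (p : ℝ) / J0 ≤ x0 ∧ x0 < ((p : ℝ) + 1) / J0 ∧ p + 1 ≤ J0 := by
    refine ⟨⌊J0 * x0⌋₊, ?_, ?_, ?_⟩
    · rw [div_le_iff₀' (by positivity)]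
      exact Nat.floor_le (mul_nonneg (by positivity) hx0.1)
    · rw [lt_div_iff₀' (by positivity)]
      exact Nat.lt_floor_add_one _
    · exact (Nat.floor_lt (mul_nonneg (by positivity) hx0.1)).2
        (mul_lt_of_lt_one_right (by positivity) hx0.2)
  obtain ⟨M, κ, f0, hM, hκ, hf0, hgain⟩ := gain μ (1 / (2 * J0)) hμ0 (by positivity)
    (by rw [div_le_one (by positivity)]; linarith) C
  have hM' : (0 : ℝ) < M := by exact_mod_cast hM
  set I := ∫ t in (0 : ℝ)..1, √(a t)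
  obtain ⟨J1, hJ1⟩ := eventually_atTop.1 ((riemann hi hB hc).eventually
    (gt_mem_nhds (show I < I + κ / 16 by linarith)))
  obtain ⟨L, hL, hR⟩ : ∃ L : ℕ, 0 < L ∧ J1 ≤ J0 * L := ⟨J1 + 1, Nat.succ_pos _, by nlinarith⟩
  replace hR := hJ1 _ hR
  set J := J0 * L with hJ
  have hJp : 0 < J := Nat.mul_pos hJ0 hL
  have hJr : (0 : ℝ) < J := by exact_mod_cast hJp
  set w : ℕ → ℝ := fun j => prim a (((j : ℝ) + 1) / J) - prim a (j / J) with hw
  have hjJ : ∀ j : ℕ, j < J → ((j : ℝ) + 1) / J ≤ 1 := fun j hj => by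
    rw [div_le_one hJr]; exact_mod_cast hj
  have hw0 : ∀ j < J, 0 ≤ w j := fun j hj => by
    have := (prim_bounds hi (s := j / J) (t := ((j : ℝ) + 1) / J) (by positivity)
      (by gcongr; linarith) (hjJ j hj) fun y hy =>
        hB y ⟨le_trans (by positivity) hy.1, hy.2.trans (hjJ j hj)⟩).1
    rwa [zero_mul] at this
  have hΛ : ∀ j : ℕ, ∃ l, 0 < l ∧ (j < J → Real.log 2 / J / l + l * w j / 2 ≤
      √(2 * (Real.log 2 / J) * w j) + κ / (8 * J)) := fun j => by
    by_cases hj : j < J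
    · obtain ⟨l, h1, h2⟩ := exists_lam (u := Real.log 2 / J) (by positivity) (hw0 j hj)
        (show 0 < κ / (8 * J) by positivity)
      exact ⟨l, h1, fun _ => h2⟩
    · exact ⟨1, one_pos, fun h => absurd h hj⟩
  choose Λ hΛ0 hΛ using hΛ
  have hsum : ∑ j ∈ Finset.range J, (Real.log 2 / J / Λ j + Λ j * w j / 2) ≤
      √(2 * Real.log 2) * I + κ / 4 := by
    refine (Finset.sum_le_sum fun j hj => hΛ j (Finset.mem_range.1 hj)).trans ?_
    have e : ∀ j, √(2 * (Real.log 2 / J) * w j) = √(2 * Real.log 2) * √(w j / J) := fun j => by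
      rw [← Real.sqrt_mul (by positivity)]; congr 1; ring
    simp only [e]
    rw [Finset.sum_add_distrib, ← Finset.mul_sum, Finset.sum_const, Finset.card_range,
      nsmul_eq_mul, show (J : ℝ) * (κ / (8 * J)) = κ / 8 by field_simp]
    have h2 : √(2 * Real.log 2) ≤ 2 := Real.sqrt_le_iff.2
      ⟨by norm_num, by linarith [Real.log_two_lt_d9]⟩
    have h3 := mul_le_mul_of_nonneg_left hR.le (Real.sqrt_nonneg (2 * Real.log 2))
    nlinarith [Real.sqrt_nonneg (2 * Real.log 2)]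
  set δ := κ / (4 * (J + 1)) with hδ
  have hδ0 : 0 < δ := by positivity
  choose f hf hco using fun l : {l : ℝ // 0 < l} => coarse l.1 δ l.2 hδ0 C
  set K0 := ∑ j ∈ Finset.range J, M * (Real.log 2 / Λ j + Λ j * B / 2) + M * (Real.log 2 + B / 2)
  refine ⟨κ / 4, by positivity, fun N => 0 + f0 N + f ⟨1, one_pos⟩ N +
    ∑ j ∈ Finset.range J, f ⟨Λ j, hΛ0 j⟩ N, ?_, ?_⟩
  · have := ((tendsto_const_nhds (x := (0 : ℝ≥0∞))).add hf0).add (hf ⟨1, one_pos⟩) |>.add
      (tendsto_finsetSum (Finset.range J) fun j _ => hf ⟨Λ j, hΛ0 j⟩)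
    simpa using this
  filter_upwards [tendsto_natCast_atTop_atTop.eventually_ge_atTop (K0 / (κ / 4)),
    tendsto_natCast_atTop_atTop.eventually_ge_atTop ((M : ℝ) / (η / 2)),
    tendsto_natCast_atTop_atTop.eventually_ge_atTop ((M : ℝ) * (2 * J0))] with N hN1 hN2 hN3
  intro Ω _ P X U v h
  have hN : (0 : ℝ) < N := lt_of_lt_of_le (by positivity) hN3
  rw [div_le_iff₀ (by positivity)] at hN1 hN2
  set c : ℕ → ℝ := fun k => N * prim a (k / N) with hcdef
  set q : ℕ → ℕ := fun j => j * N / (J * M) with hq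
  have hqm : Monotone q := fun i j hij => Nat.div_le_div_right (Nat.mul_le_mul_right _ hij)
  have hD1 : ∀ j, ((M * q j : ℕ) : ℝ) ≤ j / J * N := fun j => by
    have : ((J * M * q j : ℕ) : ℝ) ≤ (j * N : ℕ) := by exact_mod_cast Nat.mul_div_le _ _
    rw [div_mul_eq_mul_div, le_div_iff₀ hJr]
    push_cast at this ⊢
    linarith
  have hD2 : ∀ j : ℕ, (j : ℝ) / J * N ≤ (M * q j : ℕ) + M := fun j => by
    have : ((j * N : ℕ) : ℝ) ≤ (J * M * (q j + 1) : ℕ) := by
      exact_mod_cast (Nat.lt_mul_div_succ _ (Nat.mul_pos hJp hM)).le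
    rw [div_mul_eq_mul_div, div_le_iff₀ hJr]
    push_cast at this ⊢
    linarith
  have hDN : ∀ j ≤ J, M * q j ≤ N := fun j hj => by
    have : (j : ℝ) / J ≤ 1 := by rw [div_le_one hJr]; exact_mod_cast hj
    exact_mod_cast (hD1 j).trans (mul_le_of_le_one_left hN.le this)
  have cb : ∀ (d e : ℕ) (lo hi' : ℝ), d ≤ e → e ≤ N →
      (∀ y ∈ Icc ((d : ℝ) / N) (e / N), lo ≤ a y ∧ a y ≤ hi') →
      lo * (e - d) ≤ c e - c d ∧ c e - c d ≤ hi' * (e - d) := by
    intro d e lo hi' hde he hy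
    have := prim_bounds hi (s := d / N) (t := e / N) (by positivity) (by gcongr)
      (by rw [div_le_one hN]; exact_mod_cast he) hy
    rw [← sub_div, ← mul_div_assoc, ← mul_div_assoc, div_le_iff₀' hN, le_div_iff₀' hN,
      mul_sub (N : ℝ)] at this
    exact this
  have cb0 : ∀ d e : ℕ, d ≤ e → e ≤ N → c d ≤ c e ∧ c e - c d ≤ B * (e - d) := by
    intro d e hde he
    have := cb d e 0 B hde he fun y hy => hB y ⟨le_trans (by positivity) hy.1,
      hy.2.trans (by rw [div_le_one hN]; exact_mod_cast he)⟩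
    exact ⟨by linarith [this.1], this.2⟩
  set z : ℕ → ℝ := fun j => (((M * q (j + 1) : ℕ) : ℝ) - (M * q j : ℕ)) * Real.log 2 / Λ j +
    Λ j * (c (M * q (j + 1)) - c (M * q j)) / 2 with hz
  have hzb : ∀ j < J, z j ≤ N * (Real.log 2 / J / Λ j + Λ j * w j / 2) +
      M * (Real.log 2 / Λ j + Λ j * B / 2) := by
    intro j hj
    have a1 := hD1 (j + 1)
    have a2 := hD2 j
    have a3 := hD1 j
    rw [Nat.cast_add_one] at a1
    have a4 : (j : ℝ) / J ≤ 1 := by rw [div_le_one hJr]; exact_mod_cast hj.le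
    have b1 := (prim_bounds hi (s := (M * q (j + 1) : ℕ) / N) (t := ((j : ℝ) + 1) / J)
      (by positivity) (by rwa [div_le_iff₀ hN]) (hjJ j hj) fun y hy =>
        hB y ⟨le_trans (by positivity) hy.1, hy.2.trans (hjJ j hj)⟩).1
    have b2 := (prim_bounds hi (s := (M * q j : ℕ) / N) (t := (j : ℝ) / J)
      (by positivity) (by rwa [div_le_iff₀ hN]) a4 fun y hy =>
        hB y ⟨le_trans (by positivity) hy.1, hy.2.trans a4⟩).2
    have b3 : c (M * q (j + 1)) - c (M * q j) ≤ N * w j + M * B := by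
      have e1 := mul_le_mul_of_nonneg_left b2 hN.le
      have e2 : (N : ℝ) * (B * (j / J - (M * q j : ℕ) / N)) = B * (j / J * N - (M * q j : ℕ)) := by
        field_simp
      have e3 : B * (j / J * N - (M * q j : ℕ)) ≤ B * M :=
        mul_le_mul_of_nonneg_left (by linarith) hB0
      have e4 := mul_le_mul_of_nonneg_left b1 hN.le
      simp only [hcdef, hw]
      linarith
    have b4 : ((M * q (j + 1) : ℕ) : ℝ) - (M * q j : ℕ) ≤ N / J + M := by
      have : ((j : ℝ) + 1) / J * N = j / J * N + N / J := by ring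
      linarith
    have b5 := mul_le_mul_of_nonneg_left b3 (hΛ0 j).le
    have b6 := div_le_div_of_nonneg_right (mul_le_mul_of_nonneg_right b4 hlg.le) (hΛ0 j).le
    have b7 : (N / J + M) * Real.log 2 / Λ j =
        N * (Real.log 2 / J / Λ j) + M * (Real.log 2 / Λ j) := by ring
    simp only [hz]
    linarith
  have hzs : ∑ j ∈ Finset.range J, z j + M * (Real.log 2 + B / 2) ≤
      N * (√(2 * Real.log 2) * I + κ / 4) + K0 := by
    have : ∑ j ∈ Finset.range J, z j ≤ _ :=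
      (Finset.sum_le_sum fun j hj => hzb j (Finset.mem_range.1 hj)).trans_eq Finset.sum_add_distrib
    rw [← Finset.mul_sum] at this
    have h2 := mul_le_mul_of_nonneg_left hsum hN.le
    simp only [K0]
    linarith
  set s : ℕ → ℝ := fun i => c (M * (i + 1)) - c (M * i) with hs
  set α := p * L with hα
  set β := (p + 1) * L with hβ
  have hαβ : α ≤ β := Nat.mul_le_mul_right _ (Nat.le_succ p)
  have hβJ : β ≤ J := Nat.mul_le_mul_right _ hp3
  have hL' : (0 : ℝ) < L := by exact_mod_cast hL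
  have eα : (α : ℝ) / J = p / J0 := by simp only [hα, hJ]; push_cast; field_simp
  have eβ : (β : ℝ) / J = (p + 1) / J0 := by simp only [hβ, hJ]; push_cast; field_simp
  have eK : q α + (q β - q α) = q β := Nat.add_sub_cancel' (hqm hαβ)
  have hblock : ∑ i ∈ Finset.Ico (q α) (q β), √(2 * (M * Real.log 2) / s i) * s i ≤
      ∑ j ∈ Finset.Ico α β, z j := by
    refine block_sum _ z q hqm α β hαβ fun j _ hj => ?_
    have hqj := hqm (Nat.le_succ j)
    refine (Finset.sum_le_sum (g := fun i => M * Real.log 2 / Λ j + Λ j * s i / 2)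
      fun i hi => amgm (by positivity) (sub_nonneg.2 (cb0 _ _ (Nat.mul_le_mul_left _ (by omega))
        ((Nat.mul_le_mul_left _ (Finset.mem_Ico.1 hi).2).trans (hDN (j + 1) (by omega)))).1)
        (hΛ0 j)).trans (le_of_eq ?_)
    rw [Finset.sum_add_distrib, ← Finset.sum_div _ (fun i => Λ j * s i), ← Finset.mul_sum,
      Finset.sum_Ico_sub (fun i => c (M * i)) hqj, Finset.sum_const, Nat.card_Ico, nsmul_eq_mul,
      Nat.cast_sub hqj]
    simp only [hz]
    push_cast
    ring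
  have hg := hgain N c Ω _ P X U v h (q α) (q β - q α)
    (fun k => √(2 * (M * Real.log 2) / s (q α + k))) (by rw [eK]; exact hDN β hβJ)
    (by
      have a1 := hD1 α
      have a2 := hD2 β
      rw [eα] at a1
      rw [eβ] at a2
      rw [Nat.cast_sub (hqm hαβ)]
      push_cast at a1 a2
      have a3 : ((p : ℝ) + 1) / J0 * N = p / J0 * N + 2 * (1 / (2 * J0) * N) := by
        field_simp
      have a4 : (M : ℝ) ≤ 1 / (2 * J0) * N := by
        rw [one_div_mul_eq_div, le_div_iff₀ (by positivity)]; exact hN3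
      linarith)
    (fun k hk => by
      have a1 := hD2 α
      have a2 := hD1 β
      rw [eα] at a1
      rw [eβ] at a2
      have a3 : M * (q α + k + 1) ≤ M * q β := Nat.mul_le_mul_left _ (by omega)
      have a4 : ((M * q α : ℕ) : ℝ) ≤ (M * (q α + k) : ℕ) := by
        exact_mod_cast Nat.mul_le_mul_left _ (Nat.le_add_right _ _)
      have a5 : ((M * (q α + k + 1) : ℕ) : ℝ) ≤ (M * q β : ℕ) := by exact_mod_cast a3
      have a6 : ((p : ℝ) + 1) / J0 = p / J0 + 1 / J0 := by ring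
      have b := cb (M * (q α + k)) (M * (q α + k + 1)) (19 / 20 * a x0) (21 / 20 * a x0)
        (Nat.mul_le_mul_left _ (Nat.le_succ _)) (a3.trans (hDN β hβJ)) fun y hy => by
          have y1 := (div_le_iff₀ hN).1 hy.1
          have y2 := (le_div_iff₀ hN).1 hy.2
          have y3 : y ≤ (p + 1) / J0 := le_of_mul_le_mul_right (by linarith) hN
          have y4 : p / J0 - η / 2 ≤ y := le_of_mul_le_mul_right (by linarith) hN
          have := hwin (x := y) (by rw [Real.dist_eq, abs_lt]; constructor <;> linarith)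
          rw [Real.dist_eq, abs_lt] at this
          constructor <;> linarith [this.1, this.2]
      have e : ((M * (q α + k + 1) : ℕ) : ℝ) - (M * (q α + k) : ℕ) = M := by push_cast; ring
      rw [e] at b
      change _ ≤ s (q α + k) ∧ s (q α + k) ≤ _ at b
      change _ ∧ _ ∧ _ * s (q α + k) = _
      have hsp : 0 < s (q α + k) := lt_of_lt_of_le (by positivity) b.1
      have hml := mul_pos hM' hlg
      refine ⟨Real.le_sqrt_of_sq_le ?_, Real.sqrt_le_iff.2 ⟨by positivity, ?_⟩, ?_⟩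
      · rw [le_div_iff₀ hsp]
        have := mul_le_mul_of_nonneg_left b.2 (sq_nonneg (17 / 16 * μ))
        have e2 : (17 / 16 * μ) ^ 2 * (21 / 20 * a x0 * M) =
            (17 / 16) ^ 2 * (21 / 20) * (μ ^ 2 * a x0) * M := by ring
        rw [e2, hμ2] at this
        linarith
      · rw [div_le_iff₀ hsp]
        have := mul_le_mul_of_nonneg_left b.1 (sq_nonneg (9 / 8 * μ))
        have e2 : (9 / 8 * μ) ^ 2 * (19 / 20 * a x0 * M) =
            (9 / 8) ^ 2 * (19 / 20) * (μ ^ 2 * a x0) * M := by ring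
        rw [e2, hμ2] at this
        linarith
      · rw [Real.sq_sqrt (by positivity)]
        field_simp)
  rw [Finset.sum_Ico_eq_sum_range] at hblock
  rw [eK] at hg
  have hl := hco ⟨1, one_pos⟩ N c Ω _ P X U v h (M * q J) N (hDN J le_rfl) le_rfl
    (cb0 _ _ (hDN J le_rfl) le_rfl).1
  have hj : ∀ j ∈ Finset.range J, P (Ev X v (C * N) (M * q j) (M * q (j + 1)) (z j + δ * N)) ≤
      f ⟨Λ j, hΛ0 j⟩ N := fun j hj =>
    hco ⟨Λ j, hΛ0 j⟩ N c Ω _ P X U v h _ _ (Nat.mul_le_mul_left _ (hqm (Nat.le_succ j)))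
      (hDN _ (Finset.mem_range.1 hj)) (cb0 _ _ (Nat.mul_le_mul_left _ (hqm (Nat.le_succ j)))
      (hDN _ (Finset.mem_range.1 hj))).1
  have hr := h.root (by simp [hcdef, prim])
  refine le_trans ?_ (add_le_add (add_le_add (add_le_add hr.le hg) hl) (Finset.sum_le_sum hj))
  refine le_trans ?_ (add_le_add (le_trans (measure_union_le _ _)
    (add_le_add (measure_union_le _ _) le_rfl)) (measure_biUnion_finset_le _ _))
  refine le_trans (measure_mono ?_) (measure_union_le _ _)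
  rintro ω ⟨n, hn, hlen, hX⟩
  by_contra hcon
  simp only [mem_union, mem_iUnion, not_or, Ev, mem_ofPred_eq, not_exists, not_and, not_le,
    not_not] at hcon
  obtain ⟨⟨⟨r0, r1⟩, r2⟩, r3⟩ := hcon
  have r1 := r1 n hn hlen
  have r2 := r2 n hn hlen
  set Y : ℕ → ℝ := fun j => X (anc (M * q j) (v n ω)) ω with hY
  have t : ∀ i k, i ≤ k → k ≤ J → Y k - Y i ≤ ∑ j ∈ Finset.Ico i k, z j + (k - i) * (δ * N) := by
    intro i k hik hk
    rw [← Finset.sum_Ico_sub Y hik]
    refine (Finset.sum_le_sum (g := fun j => z j + δ * N) fun j hj =>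
      (r3 j (Finset.mem_range.2 (lt_of_lt_of_le (Finset.mem_Ico.1 hj).2 hk)) n hn hlen).le).trans
      (le_of_eq ?_)
    rw [Finset.sum_add_distrib, Finset.sum_const, Nat.card_Ico, nsmul_eq_mul, Nat.cast_sub hik]
  have t1 := t 0 α (Nat.zero_le _) (hαβ.trans hβJ)
  have t2 := t β J hβJ le_rfl
  have t3 : Y 0 = 0 := by
    rw [← r0]
    simp only [hY, hq]
    congr 1
    apply Subtype.ext
    simp [anc]
  rw [anc_self hlen.le] at r2
  have t4 : ∑ j ∈ Finset.Ico 0 α, z j + ∑ j ∈ Finset.Ico α β, z j + ∑ j ∈ Finset.Ico β J, z j =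
      ∑ j ∈ Finset.range J, z j := by
    rw [Finset.sum_Ico_consecutive _ (Nat.zero_le _) hαβ,
      Finset.sum_Ico_consecutive _ (Nat.zero_le _) hβJ, Finset.range_eq_Ico]
  have t5 : (N : ℝ) - (M * q J : ℕ) ≤ M := by
    have := hD2 J
    rw [div_self hJr.ne'] at this
    linarith
  have t6 := (cb0 _ _ (hDN J le_rfl) le_rfl).2.trans (mul_le_mul_of_nonneg_left t5 hB0)
  have t7 := mul_le_mul_of_nonneg_right t5 hlg.le
  have t8 : ((J : ℝ) + 1) * (δ * N) = κ / 4 * N := by rw [hδ]; field_simp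
  have t9 : (α : ℝ) * (δ * N) ≤ β * (δ * N) :=
    mul_le_mul_of_nonneg_right (by exact_mod_cast hαβ) (by positivity)
  change Y β - Y α < ∑ k ∈ Finset.range (q β - q α),
    √(2 * (M * Real.log 2) / s (q α + k)) * s (q α + k) - κ * N at r1
  change X (v n ω) ω - Y J < _ at r2
  simp only [Nat.cast_zero, sub_zero, div_one, one_mul] at t1 r2
  nlinarith

end Pool.Agent.H98.CR
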