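import Mathlib

set_option autoImplicit false
open scoped Pointwise ENNReal

namespace Pool.Agent.H98.Can

abbrev H : Type := FreeGroup Bool
abbrev V : Type := H × ℕ × ℕ

noncomputable def S : Finset H := insert 1 (Finset.univ.image fun w : Bool × Bool => FreeGroup.mk [w])

lemma one_S : (1 : H) ∈ S := Finset.mem_insert_self _ _

lemma mk_S (w : Bool × Bool) : FreeGroup.mk [w] ∈ S :=
  Finset.mem_insert_of_mem (Finset.mem_image_of_mem _ (Finset.mem_univ w))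

lemma inv_mk1 (w : Bool × Bool) : (FreeGroup.mk [w] : H)⁻¹ = FreeGroup.mk [(w.1, !w.2)] := by
  rw [FreeGroup.inv_mk]; simp [FreeGroup.invRev]

lemma S_inv : S⁻¹ = S := by
  have h : ∀ g ∈ S, g⁻¹ ∈ S := by
    intro g hg
    rcases Finset.mem_insert.mp hg with rfl | hg
    · simpa using one_S
    · obtain ⟨w, -, rfl⟩ := Finset.mem_image.mp hg
      rw [inv_mk1]; exact mk_S _
  ext g
  rw [Finset.mem_inv']
  exact ⟨fun hg => by simpa using h _ hg, h g⟩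

lemma S_gen (g : H) : ∃ n, g ∈ S ^ n := by
  induction g using FreeGroup.induction_on with
  | C1 => exact ⟨1, by simpa using one_S⟩
  | of x => exact ⟨1, by rw [pow_one]; exact mk_S (x, true)⟩
  | inv_of x _ => exact ⟨1, by
      rw [pow_one, ← S_inv, Finset.mem_inv', inv_inv]; exact mk_S (x, true)⟩
  | mul x y hx hy =>
    obtain ⟨n, hn⟩ := hx
    obtain ⟨k, hk⟩ := hy
    exact ⟨n + k, by rw [pow_add]; exact Finset.mul_mem_mul hn hk⟩

noncomputable def W (k : ℕ) : Finset H := S ^ (2 ^ k)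

lemma S_mono {n k : ℕ} (h : n ≤ k) : S ^ n ⊆ S ^ k := Finset.pow_subset_pow_right one_S h

lemma W_mono {k l : ℕ} (h : k ≤ l) : W k ⊆ W l := S_mono (Nat.pow_le_pow_right (by norm_num) h)

lemma S_W (k : ℕ) : S ⊆ W k := by
  have := S_mono (Nat.one_le_two_pow (n := k)); rwa [pow_one] at this

lemma W_inv {k : ℕ} {g : H} (h : g ∈ W k) : g⁻¹ ∈ W k := by
  have : (W k)⁻¹ = W k := by unfold W; rw [← inv_pow, S_inv]
  rw [← this, Finset.mem_inv', inv_inv]; exact h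

noncomputable def d (k : ℕ) : ℕ := k + 1 + (W (k + 1)).card

noncomputable def m (k : ℕ) : ℕ := ∑ j ∈ Finset.range k, d j

lemma m_succ (k : ℕ) : m (k + 1) = m k + d k := Finset.sum_range_succ _ _

lemma m_mono {k l : ℕ} (h : k ≤ l) : m k ≤ m l :=
  Finset.sum_le_sum_of_subset (Finset.range_mono h)

lemma le_m (k : ℕ) : k ≤ m k := by
  induction k with
  | zero => exact Nat.zero_le _
  | succ k ih => rw [m_succ]; unfold d; omega

noncomputable def par (x : V) : V := (x.1, x.2.1 + 1, x.2.2 / 2 ^ d x.2.1)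

def rel (x y : V) : Prop := y = par x ∨ (x.2 = y.2 ∧ y.1 * x.1⁻¹ ∈ W x.2.1)

def G : SimpleGraph V := SimpleGraph.fromRel rel

lemma adj_iff {x y : V} : G.Adj x y ↔
    x ≠ y ∧ (y = par x ∨ x = par y ∨ (x.2 = y.2 ∧ y.1 * x.1⁻¹ ∈ W x.2.1)) := by
  unfold G rel
  rw [SimpleGraph.fromRel_adj]
  refine and_congr_right fun _ => ⟨?_, ?_⟩
  · rintro ((h | h) | (h | h))
    · exact Or.inl h
    · exact Or.inr (Or.inr h)
    · exact Or.inr (Or.inl h)
    · refine Or.inr (Or.inr ⟨h.1.symm, ?_⟩)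
      have := W_inv h.2
      rw [h.1] at this
      simpa using this
  · rintro (h | h | h)
    · exact Or.inl (Or.inl h)
    · exact Or.inr (Or.inl h)
    · exact Or.inl (Or.inr h)

lemma adj_par (x : V) : G.Adj x (par x) :=
  adj_iff.mpr ⟨fun h => by have := congrArg (fun z : V => z.2.1) h; simp [par] at this, Or.inl rfl⟩

/-- the automorphisms -/
noncomputable def tau (h : H) (t : ℕ) (x : V) : V := (x.1 * h, x.2.1, x.2.2 ^^^ (t / 2 ^ m x.2.1))

lemma tau_tau (h : H) (t : ℕ) (x : V) : tau h⁻¹ t (tau h t x) = x := by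
  obtain ⟨g, k, a⟩ := x
  simp [tau, Nat.xor_assoc]

lemma tau_par (h : H) (t : ℕ) (x : V) : tau h t (par x) = par (tau h t x) := by
  obtain ⟨g, k, a⟩ := x
  simp [tau, par, Nat.xor_div_two_pow, m_succ, pow_add, Nat.div_div_eq_div_mul]

lemma tau_adj (h : H) (t : ℕ) {x y : V} (hxy : G.Adj x y) : G.Adj (tau h t x) (tau h t y) := by
  rw [adj_iff] at hxy ⊢
  refine ⟨fun e => hxy.1 ?_, ?_⟩
  · rw [← tau_tau h t x, e, tau_tau]
  · rcases hxy.2 with e | e | e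
    · exact Or.inl (by rw [e, tau_par])
    · exact Or.inr (Or.inl (by rw [e, tau_par]))
    · refine Or.inr (Or.inr ⟨?_, ?_⟩)
      · simp [tau, e.1]
      · simpa [tau, mul_assoc] using e.2

noncomputable def aut (h : H) (t : ℕ) : G ≃g G where
  toFun := tau h t
  invFun := tau h⁻¹ t
  left_inv := tau_tau h t
  right_inv x := by have := tau_tau h⁻¹ t x; rwa [inv_inv] at this
  map_rel_iff' := by
    intro x y
    refine ⟨fun e => ?_, tau_adj h t⟩
    have := tau_adj h⁻¹ t e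
    simp only [Equiv.coe_fn_mk, tau_tau] at this
    exact this

lemma div_sum (N : ℕ) (hN : 0 < N) (F : ℕ → ℝ≥0∞) : ∑' t, F (t / N) = N * ∑' b, F b := by
  haveI : NeZero N := ⟨hN.ne'⟩
  have h := (Nat.divModEquiv N).tsum_eq (fun p : ℕ × Fin N => F p.1)
  have h2 : ∀ t, ((Nat.divModEquiv N) t).1 = t / N := fun t => rfl
  simp only [h2] at h
  rw [h, ENNReal.tsum_prod', ← ENNReal.tsum_mul_left]
  refine tsum_congr fun b => ?_
  simp [tsum_fintype]

lemma sumV (F : V → ℝ≥0∞) : ∑' x, F x = ∑' l, ∑' g, ∑' b, F (g, l, b) := by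
  rw [ENNReal.tsum_prod', ENNReal.tsum_comm (f := fun l g => ∑' b, F (g, l, b))]
  refine tsum_congr fun g => ?_
  rw [ENNReal.tsum_prod']

noncomputable def u (k : ℕ) : ℝ≥0∞ := ((2 ^ m k : ℕ) : ℝ≥0∞)⁻¹

lemma core (f : V → V → ℝ≥0∞) (hf : ∀ φ : G ≃g G, ∀ x y, f (φ x) (φ y) = f x y) (k l : ℕ) :
    u k * ∑' g, ∑' b, f (1, k, 0) (g, l, b) = u l * ∑' g, ∑' a, f (g, k, a) (1, l, 0) := by
  have key : ∀ g t, f (1, k, 0) (g, l, t / 2 ^ m l) = f (g⁻¹, k, t / 2 ^ m k) (1, l, 0) := by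
    intro g t
    rw [← hf (aut g⁻¹ t)]
    change f (tau _ _ _) (tau _ _ _) = _
    simp [tau]
  have h1 : ((2 ^ m l : ℕ) : ℝ≥0∞) * ∑' g, ∑' b, f (1, k, 0) (g, l, b) =
      ((2 ^ m k : ℕ) : ℝ≥0∞) * ∑' g, ∑' a, f (g, k, a) (1, l, 0) := by
    rw [← ENNReal.tsum_mul_left, ← ENNReal.tsum_mul_left,
      ← (Equiv.inv H).tsum_eq (fun g => ((2 ^ m k : ℕ) : ℝ≥0∞) * ∑' a, f (g, k, a) (1, l, 0))]
    refine tsum_congr fun g => ?_
    rw [← div_sum _ (by positivity), ← div_sum _ (by positivity)]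
    exact tsum_congr fun t => key g t
  have n0 : ∀ j, ((2 ^ m j : ℕ) : ℝ≥0∞) ≠ 0 := fun j => by positivity
  have nt : ∀ j, ((2 ^ m j : ℕ) : ℝ≥0∞) ≠ ⊤ := fun j => ENNReal.natCast_ne_top _
  have c : ∀ j, u j * ((2 ^ m j : ℕ) : ℝ≥0∞) = 1 := fun j => ENNReal.inv_mul_cancel (n0 j) (nt j)
  calc u k * ∑' g, ∑' b, f (1, k, 0) (g, l, b)
      = u k * u l * (((2 ^ m l : ℕ) : ℝ≥0∞) * ∑' g, ∑' b, f (1, k, 0) (g, l, b)) := by
        rw [mul_assoc, ← mul_assoc (u l), c, one_mul]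
    _ = _ := by rw [h1, mul_comm (u k), mul_assoc, ← mul_assoc (u k), c, one_mul]

lemma mtp0 (f : V → V → ℝ≥0∞) (hf : ∀ φ : G ≃g G, ∀ x y, f (φ x) (φ y) = f x y) :
    ∑' k, u k * ∑' x, f (1, k, 0) x = ∑' k, u k * ∑' x, f x (1, k, 0) := by
  have e1 : ∀ k, u k * ∑' x, f (1, k, 0) x = ∑' l, u k * ∑' g, ∑' b, f (1, k, 0) (g, l, b) :=
    fun k => by rw [sumV, ENNReal.tsum_mul_left]
  have e2 : ∀ l, u l * ∑' x, f x (1, l, 0) = ∑' k, u l * ∑' g, ∑' b, f (g, k, b) (1, l, 0) :=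
    fun l => by rw [sumV, ENNReal.tsum_mul_left]
  simp only [e1, e2]
  rw [ENNReal.tsum_comm]
  exact tsum_congr fun l => tsum_congr fun k => core f hf k l

lemma u_le (k : ℕ) : u k ≤ 2⁻¹ ^ k := by
  unfold u
  rw [← ENNReal.inv_pow, ENNReal.inv_le_inv]
  exact_mod_cast Nat.pow_le_pow_right (by norm_num) (le_m k)

open Classical in
noncomputable def w (x : V) : ℝ≥0∞ := if x.1 = 1 ∧ x.2.2 = 0 then u x.2.1 else 0

lemma w_sum (F : V → ℝ≥0∞) : ∑' x, w x * F x = ∑' k, u k * F (1, k, 0) := by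
  have hi : Function.Injective fun k : ℕ => ((1, k, 0) : V) := fun a b h => by simpa using h
  rw [← hi.tsum_eq (f := fun x => w x * F x)]
  · simp [w]
  · rintro ⟨g, k, a⟩ hx
    by_cases h : g = 1 ∧ a = 0
    · exact ⟨k, by simp [h.1, h.2]⟩
    · simp [w, h] at hx

lemma w_tot : ∑' x, w x = ∑' k, u k := by simpa using w_sum fun _ => 1

lemma w_ne0 : ∑' x, w x ≠ 0 := by
  rw [w_tot]
  refine fun h => ?_
  have := ENNReal.tsum_eq_zero.mp h 0
  simp [u] at this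

lemma w_netop : ∑' x, w x ≠ ⊤ := by
  rw [w_tot]
  refine ne_top_of_le_ne_top ?_ (ENNReal.tsum_le_tsum u_le)
  rw [ENNReal.tsum_geometric_two]; simp

noncomputable def law : PMF V := PMF.normalize w w_ne0 w_netop

lemma law_sum (F : V → ℝ≥0∞) :
    ∑' x, law x * F x = (∑' x, w x)⁻¹ * ∑' k, u k * F (1, k, 0) := by
  rw [← w_sum, ← ENNReal.tsum_mul_left]
  refine tsum_congr fun x => ?_
  rw [law, PMF.normalize_apply]; ring

theorem mtp (f : V → V → ℝ≥0∞) (hf : ∀ φ : G ≃g G, ∀ x y, f (φ x) (φ y) = f x y) :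
    ∑' o, law o * ∑' x, f o x = ∑' o, law o * ∑' x, f x o := by
  rw [law_sum, law_sum, mtp0 f hf]

end Pool.Agent.H98.Can
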