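import Pool.Agent.H98.Can1

set_option autoImplicit false
open scoped Pointwise ENNReal

namespace Pool.Agent.H98.Can

/-- children of a vertex of level `k + 1` -/
noncomputable def ch (g : H) (k b : ℕ) : Finset V :=
  (Finset.range (2 ^ d k)).image fun r => (g, k, b * 2 ^ d k + r)

lemma ch_card (g : H) (k b : ℕ) : (ch g k b).card = 2 ^ d k := by
  rw [ch, Finset.card_image_of_injective _ (fun r s h => by simpa using h), Finset.card_range]

lemma mem_ch {g : H} {k b : ℕ} {y : V} : y ∈ ch g k b ↔ (g, k + 1, b) = par y := by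
  obtain ⟨g', k', a⟩ := y
  have hp : 0 < 2 ^ d k := by positivity
  simp only [ch, par, Finset.mem_image, Finset.mem_range, Prod.mk.injEq]
  constructor
  · rintro ⟨r, hr, rfl, rfl, rfl⟩
    refine ⟨rfl, rfl, ?_⟩
    rw [add_comm, Nat.add_mul_div_right _ _ hp, Nat.div_eq_of_lt hr, zero_add]
  · rintro ⟨rfl, h, rfl⟩
    obtain rfl : k = k' := by omega
    exact ⟨a % 2 ^ d k, Nat.mod_lt _ hp, rfl, rfl, Nat.div_add_mod' _ _⟩

noncomputable def nb (x : V) : Finset V :=
  insert (par x) ((if x.2.1 = 0 then ∅ else ch x.1 (x.2.1 - 1) x.2.2) ∪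
    (W x.2.1).image fun v => (v * x.1, x.2))

lemma nb_sub (x : V) : G.neighborSet x ⊆ nb x := by
  intro y hy
  obtain ⟨-, h⟩ := adj_iff.mp hy
  simp only [nb, Finset.coe_insert, Finset.coe_union, Set.mem_insert_iff, Set.mem_union,
    Finset.mem_coe]
  rcases h with h | h | h
  · exact Or.inl h
  · refine Or.inr (Or.inl ?_)
    have h0 : x.2.1 = y.2.1 + 1 := by rw [h]; rfl
    rw [if_neg (by omega), mem_ch, ← h]
    ext <;> simp; omega
  · refine Or.inr (Or.inr (Finset.mem_image.mpr ⟨_, h.2, ?_⟩))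
    ext <;> simp [h.1]

theorem locfin (x : V) : (G.neighborSet x).Finite := (nb x).finite_toSet.subset (nb_sub x)

lemma deg_le (g : H) (k a : ℕ) : (G.neighborSet (g, k + 1, a)).ncard ≤ 3 * 2 ^ d k := by
  refine (Set.ncard_le_ncard (nb_sub _) (Finset.finite_toSet _)).trans ?_
  rw [Set.ncard_coe_finset]
  refine (Finset.card_insert_le _ _).trans ?_
  have h1 := Finset.card_union_le (if (k + 1) = 0 then ∅ else ch g (k + 1 - 1) a)
    ((W (k + 1)).image fun v => ((v * g, k + 1, a) : V))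
  have h2 : ((W (k + 1)).image fun v => ((v * g, k + 1, a) : V)).card ≤ (W (k + 1)).card :=
    Finset.card_image_le
  have h3 : (W (k + 1)).card ≤ 2 ^ d k :=
    (Nat.lt_two_pow_self).le.trans (Nat.pow_le_pow_right (by norm_num) (by unfold d; omega))
  have h4 : 1 ≤ 2 ^ d k := Nat.one_le_two_pow
  rw [if_neg (by omega), Nat.add_sub_cancel, ch_card] at h1
  simp only [if_neg (Nat.succ_ne_zero k), Nat.add_sub_cancel]
  omega

lemma deg_ge (g : H) (k a : ℕ) : 2 ^ (k + 1) ≤ (G.neighborSet (g, k + 1, a)).ncard := by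
  have h : (ch g k a : Set V) ⊆ G.neighborSet (g, k + 1, a) := by
    intro y hy
    have := mem_ch.mp (Finset.mem_coe.mp hy)
    rw [SimpleGraph.mem_neighborSet, this]
    exact (adj_par y).symm
  have h1 := Set.ncard_le_ncard h (locfin _)
  rw [Set.ncard_coe_finset, ch_card] at h1
  exact (Nat.pow_le_pow_right (by norm_num) (by unfold d; omega)).trans h1

theorem edeg : ∑' o, law o * ((G.neighborSet o).ncard : ℝ≥0∞) ≠ ⊤ := by
  rw [law_sum]
  refine ENNReal.mul_ne_top (ENNReal.inv_ne_top.mpr w_ne0) ?_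
  rw [tsum_eq_zero_add' ENNReal.summable]
  refine ENNReal.add_ne_top.mpr ⟨ENNReal.mul_ne_top (by simp [u]) (ENNReal.natCast_ne_top _), ?_⟩
  have h : ∀ k, u (k + 1) * ((G.neighborSet (1, k + 1, 0)).ncard : ℝ≥0∞) ≤ 3 * 2⁻¹ ^ k := by
    intro k
    have h1 : ((G.neighborSet (1, k + 1, 0)).ncard : ℝ≥0∞) ≤ ((3 * 2 ^ d k : ℕ) : ℝ≥0∞) := by
      exact_mod_cast deg_le 1 k 0
    have h2 : u (k + 1) * ((2 ^ d k : ℕ) : ℝ≥0∞) = u k := by
      unfold u
      rw [m_succ, pow_add, Nat.cast_mul, ENNReal.mul_inv (Or.inl (by positivity))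
        (Or.inl (ENNReal.natCast_ne_top _)), mul_assoc,
        ENNReal.inv_mul_cancel (by positivity) (ENNReal.natCast_ne_top _), mul_one]
    calc _ ≤ u (k + 1) * ((3 * 2 ^ d k : ℕ) : ℝ≥0∞) := by gcongr
      _ = 3 * u k := by rw [Nat.cast_mul, ← h2]; push_cast; ring
      _ ≤ _ := by gcongr; exact u_le k
  refine ne_top_of_le_ne_top ?_ (ENNReal.tsum_le_tsum h)
  rw [ENNReal.tsum_mul_left, ENNReal.tsum_geometric_two]
  exact ENNReal.mul_ne_top (by simp) (by simp)

open Classical in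
/-- paradoxical maps -/
noncomputable def lt (i : Bool) (g : H) : Bool × Bool :=
  if g ∈ FreeGroup.startsWith (i, false) then (i, false) else (i, true)

lemma lt_start (i : Bool) (g : H) : FreeGroup.mk [lt i g] * g ∈ FreeGroup.startsWith (lt i g) := by
  apply FreeGroup.startsWith_mk_mul
  unfold lt
  split_ifs with h
  · intro h2
    exact Set.disjoint_left.mp (FreeGroup.startsWith.disjoint_iff_ne.mpr (by simp)) h h2
  · simpa using h

lemma lt_fst (i : Bool) (g : H) : (lt i g).1 = i := by unfold lt; split_ifs <;> rfl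

noncomputable def ph (p : Bool × V) : V := (FreeGroup.mk [lt p.1 p.2.1] * p.2.1, p.2.2)

lemma ph_inj : Function.Injective ph := by
  rintro ⟨i, g, z⟩ ⟨j, g', z'⟩ h
  simp only [ph, Prod.mk.injEq] at h
  have h1 := lt_start i g
  have h2 := lt_start j g'
  rw [h.1] at h1
  have h3 : lt i g = lt j g' := by
    by_contra hne
    exact Set.disjoint_left.mp (FreeGroup.startsWith.disjoint_iff_ne.mpr hne) h1 h2
  have h4 : i = j := by rw [← lt_fst i g, h3, lt_fst]
  have h5 : g = g' := by have := h.1; rw [h3] at this; exact mul_left_cancel this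
  rw [h4, h5, h.2]

theorem cheeger (K : Finset V) :
    K.card ≤ {e : V × V | e.1 ∈ K ∧ e.2 ∉ K ∧ G.Adj e.1 e.2}.ncard := by
  classical
  set T := {e : V × V | e.1 ∈ K ∧ e.2 ∉ K ∧ G.Adj e.1 e.2}
  have hT : T.Finite := by
    refine ((K.finite_toSet.biUnion fun x _ => (locfin x).image (Prod.mk x))).subset ?_
    rintro ⟨x, y⟩ ⟨hx, -, h⟩
    exact Set.mem_biUnion hx ⟨y, h, rfl⟩
  have h1 : (((Finset.univ ×ˢ K).image ph : Finset V) : Set V) ⊆ K ∪ Prod.snd '' T := by
    intro y hy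
    obtain ⟨⟨i, x⟩, hp, rfl⟩ := Finset.mem_image.mp (Finset.mem_coe.mp hy)
    have hx : x ∈ K := (Finset.mem_product.mp hp).2
    by_cases hK : ph (i, x) ∈ K
    · exact Or.inl hK
    · refine Or.inr ⟨(x, ph (i, x)), ⟨hx, hK, adj_iff.mpr ⟨fun e => hK ((show x = ph (i, x) from e) ▸ hx), Or.inr (Or.inr
        ⟨rfl, ?_⟩)⟩⟩, rfl⟩
      simpa [ph] using S_W _ (mk_S _)
  have h2 := Set.ncard_le_ncard h1 (K.finite_toSet.union (hT.image _))
  have h3 := Set.ncard_union_le (K : Set V) (Prod.snd '' T)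
  have h4 : (Prod.snd '' T).ncard ≤ T.ncard := Set.ncard_image_le hT
  rw [Set.ncard_coe_finset, Finset.card_image_of_injective _ ph_inj, Finset.card_product] at h2
  rw [Set.ncard_coe_finset] at h3
  simp only [Finset.card_univ, Fintype.card_bool] at h2
  omega

noncomputable def J (L : ℕ) (x : V) : ℕ := x.2.2 * 2 ^ m x.2.1 / 2 ^ m L

lemma J_par {L : ℕ} {x : V} (h : x.2.1 + 1 ≤ L) : J L (par x) = J L x := by
  obtain ⟨g, k, a⟩ := x
  obtain ⟨r, hr⟩ := Nat.exists_eq_add_of_le (m_mono h)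
  simp only [J, par] at hr ⊢
  rw [hr, pow_add, mul_comm (2 ^ m (k + 1)), Nat.mul_div_mul_right _ _ (by positivity),
    Nat.div_div_eq_div_mul, m_succ, pow_add, mul_comm (2 ^ r), mul_assoc, mul_comm (2 ^ m k),
    Nat.mul_div_mul_right _ _ (by positivity), mul_comm]

lemma edist_up (x : V) (j : ℕ) : G.edist x (x.1, x.2.1 + j, J (x.2.1 + j) x) ≤ j := by
  induction j with
  | zero => simp [J]
  | succ j ih =>
    have h : par (x.1, x.2.1 + j, J (x.2.1 + j) x) = (x.1, x.2.1 + (j + 1), J (x.2.1 + (j + 1)) x) := by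
      simp only [par, J, ← add_assoc, m_succ, pow_add, Nat.div_div_eq_div_mul]
    have h2 := SimpleGraph.edist_eq_one_iff_adj.mpr (adj_par (x.1, x.2.1 + j, J (x.2.1 + j) x))
    rw [h] at h2
    refine (SimpleGraph.edist_triangle (v := (x.1, x.2.1 + j, J (x.2.1 + j) x))).trans ?_
    rw [h2]; push_cast; gcongr

lemma edist_up' (x : V) {L : ℕ} (h : x.2.1 ≤ L) : G.edist x (x.1, L, J L x) ≤ L := by
  obtain ⟨j, rfl⟩ := Nat.exists_eq_add_of_le h
  exact (edist_up x j).trans (by exact_mod_cast Nat.le_add_left _ _)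

lemma close {x y : V} {L : ℕ} (hx : x.2.1 ≤ L) (hy : y.2.1 ≤ L) (hJ : J L x = J L y)
    (hW : y.1 * x.1⁻¹ ∈ W L) : G.edist x y ≤ (2 * L + 1 : ℕ) := by
  have h1 := edist_up' x hx
  have h2 := edist_up' y hy
  have h3 : G.edist (x.1, L, J L x) (y.1, L, J L y) ≤ 1 := by
    rw [SimpleGraph.edist_le_one_iff_adj_or_eq]
    by_cases e : ((x.1, L, J L x) : V) = (y.1, L, J L y)
    · exact Or.inr e
    · exact Or.inl (adj_iff.mpr ⟨e, Or.inr (Or.inr ⟨by simp [hJ], hW⟩)⟩)
  rw [SimpleGraph.edist_comm] at h2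
  calc G.edist x y ≤ G.edist x (x.1, L, J L x) + (G.edist (x.1, L, J L x) (y.1, L, J L y) +
        G.edist (y.1, L, J L y) y) :=
        SimpleGraph.edist_triangle.trans (by gcongr; exact SimpleGraph.edist_triangle)
    _ ≤ L + (1 + L) := by gcongr
    _ = _ := by push_cast; ring

theorem conn : G.Connected := by
  refine ⟨fun x y => ?_⟩
  obtain ⟨n, hn⟩ := S_gen (y.1 * x.1⁻¹)
  set L := x.2.1 + y.2.1 + n + x.2.2 * 2 ^ m x.2.1 + y.2.2 * 2 ^ m y.2.1 with hL
  have h1 : L < 2 ^ m L :=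
    Nat.lt_two_pow_self.trans_le (Nat.pow_le_pow_right (by norm_num) (le_m L))
  have h := close (x := x) (y := y) (L := L) (by omega) (by omega)
    (by unfold J; rw [Nat.div_eq_of_lt (by omega), Nat.div_eq_of_lt (by omega)])
    (S_mono (le_trans (by omega) (Nat.lt_two_pow_self (n := L)).le) hn)
  exact SimpleGraph.edist_ne_top_iff_reachable.mp (ne_top_of_le_ne_top (ENat.coe_ne_top _) h)

lemma step {x y : V} (h : G.Adj x y) {L L' : ℕ} (hL : L ≤ L') (hx : x.2.1 ≤ L) (hy : y.2.1 ≤ L) :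
    J L' x = J L' y ∧ y.1 * x.1⁻¹ ∈ W L := by
  have h1 : (1 : H) ∈ W L := S_W _ one_S
  rcases (adj_iff.mp h).2 with e | e | e
  · subst e
    exact ⟨(J_par (by simp [par] at hy; omega)).symm, by simpa [par] using h1⟩
  · subst e
    exact ⟨J_par (by simp [par] at hx; omega), by simpa [par] using h1⟩
  · exact ⟨by simp [J, e.1], W_mono hx e.2⟩

lemma lev_adj {x y : V} (h : G.Adj x y) : y = par x ∨ y.2.1 ≤ x.2.1 := by
  rcases (adj_iff.mp h).2 with e | e | e
  · exact Or.inl e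
  · exact Or.inr (by rw [e]; simp [par])
  · exact Or.inr (by rw [e.1])

theorem path_dist (X : ℕ → V) (hX : ∀ n, G.Adj (X n) (X (n + 1))) {L j n : ℕ} (hn : n ≤ 2 ^ j)
    (h0 : (X 0).2.1 ≤ L) (hup : ∀ i < 2 ^ j, ¬((X i).2.1 = L ∧ X (i + 1) = par (X i))) :
    G.dist (X 0) (X n) ≤ 2 * (L + j) + 1 := by
  have h : ∀ i ≤ n, (X i).2.1 ≤ L ∧ J (L + j) (X 0) = J (L + j) (X i) ∧
      (X i).1 * (X 0).1⁻¹ ∈ S ^ (2 ^ L * i) := by
    intro i
    induction i with
    | zero => intro _; exact ⟨h0, rfl, by simp⟩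
    | succ i ih =>
      intro hi
      obtain ⟨a1, a2, a3⟩ := ih (by omega)
      have b1 : (X (i + 1)).2.1 ≤ L := by
        rcases lev_adj (hX i) with e | e
        · have : (X i).2.1 ≠ L := fun e2 => hup i (by omega) ⟨e2, e⟩
          rw [e]; simp only [par]; omega
        · omega
      obtain ⟨c1, c2⟩ := step (hX i) (Nat.le_add_right L j) a1 b1
      refine ⟨b1, a2.trans c1, ?_⟩
      have := Finset.mul_mem_mul c2 a3
      rw [mul_add, mul_one, add_comm, pow_add]
      simpa [mul_assoc, W] using this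
  obtain ⟨a1, a2, a3⟩ := h n le_rfl
  have h2 := close (x := X 0) (y := X n) (L := L + j) (by omega) (by omega) a2
    (S_mono (by rw [pow_add]; exact Nat.mul_le_mul_left _ hn) a3)
  exact ENat.toNat_le_of_le_coe h2

end Pool.Agent.H98.Can
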