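import Mathlib

set_option autoImplicit false

namespace Pool.Agent.H98.Compens

open Filter Topology

abbrev Cf := ℤ → ℕ

def sh (s : ℤ) (x : Cf) : Cf := fun m => x (m + s)

lemma iter_eq (j : ℕ) (x : Cf) :
    (fun (z : ℤ → ℕ) (m : ℤ) => z (m + 1))^[j] x = sh j x := by
  induction j generalizing x with
  | zero => funext m; simp [sh]
  | succ j ih =>
    rw [Function.iterate_succ_apply, ih]; funext m; simp [sh, add_assoc]

lemma sh_sh (s t : ℤ) (x : Cf) : sh s (sh t x) = sh (s + t) x := by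
  funext m; simp [sh, add_assoc]

lemma sh_zero (x : Cf) : sh 0 x = x := by funext m; simp [sh]

lemma cont_sh (s : ℤ) : Continuous (sh s) := by
  unfold sh; fun_prop

abbrev W := Σ n : ℕ, (ZMod (n+1) → Fin 3)

def per (w : W) : Cf := fun i => (w.2 (i : ZMod (w.1+1)) : ℕ)

lemma exists_e : ∃ e : ℕ → W, ∀ w m, ∃ N ≥ m, e N = w := by
  haveI : Nonempty W := ⟨⟨0, fun _ => 0⟩⟩
  obtain ⟨g, hg⟩ := exists_surjective_nat W
  refine ⟨fun N => g (Nat.unpair N).1, fun w m => ?_⟩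
  obtain ⟨c, rfl⟩ := hg w
  exact ⟨Nat.pair c m, Nat.right_le_pair c m, by simp⟩

noncomputable def e : ℕ → W := exists_e.choose

noncomputable def p (N : ℕ) : Cf := fun i => if (N : ℤ) ∣ i then 3 else per (e N) (i % N)

def X0 : Set Cf := {x | (∃ N : ℕ, 1 ≤ N ∧ ∃ s : ℤ, x = sh s (p N)) ∨ ∀ i, x i < 3}

def X : Set Cf := closure X0

def pr (x : Cf) : Cf := fun i => if x i = 3 then 1 else 0

def Y : Set Cf := pr '' X

lemma per_lt (w : W) (i : ℤ) : per w i < 3 := (w.2 _).2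

lemma p_lt (N : ℕ) (i : ℤ) : p N i < 4 := by
  unfold p; split_ifs
  · norm_num
  · exact lt_trans (per_lt _ _) (by norm_num)

lemma p_eq3 (N : ℕ) (i : ℤ) : p N i = 3 ↔ (N : ℤ) ∣ i := by
  unfold p; split_ifs with h
  · simp [h]
  · simp only [h, iff_false]; exact (per_lt _ _).ne

lemma X_lt (x : Cf) (hx : x ∈ X) (i : ℤ) : x i < 4 := by
  have hc : IsClosed {x : Cf | x i < 4} :=
    (isClosed_discrete {n : ℕ | n < 4}).preimage (continuous_apply (A := fun _ : ℤ => ℕ) i)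
  refine closure_minimal (s := X0) ?_ hc hx
  rintro y (⟨N, -, s, rfl⟩ | h)
  · exact p_lt _ _
  · exact lt_trans (h i) (by norm_num)

lemma X_compact : IsCompact X := by
  have : IsCompact (Set.pi Set.univ (fun _ : ℤ => Set.Iio 4) : Set Cf) :=
    isCompact_univ_pi fun _ => (Set.finite_Iio 4).isCompact
  exact this.of_isClosed_subset isClosed_closure fun x hx i _ => X_lt x hx i

lemma sh_X (s : ℤ) (x : Cf) (hx : x ∈ X) : sh s x ∈ X := by
  refine map_mem_closure (cont_sh s) hx ?_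
  rintro y (⟨N, hN, t, rfl⟩ | h)
  · exact Or.inl ⟨N, hN, s + t, sh_sh _ _ _⟩
  · exact Or.inr fun i => h _

lemma cont_pr : Continuous pr := by
  refine continuous_pi fun i => ?_
  exact (continuous_of_discreteTopology (f := fun n : ℕ => if n = 3 then 1 else 0)).comp
    (continuous_apply i)

lemma pr_sh (s : ℤ) (x : Cf) : pr (sh s x) = sh s (pr x) := rfl

lemma sh_Y (s : ℤ) (x : Cf) (hx : x ∈ Y) : sh s x ∈ Y := by
  obtain ⟨y, hy, rfl⟩ := hx
  exact ⟨sh s y, sh_X s y hy, rfl⟩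

lemma pr_lt (x : Cf) (i : ℤ) : pr x i < 2 := by unfold pr; split_ifs <;> norm_num

def U (N : ℕ) : Set Cf :=
  {y | ∃ i ∈ Finset.range N, y i = 1 ∧ y (i + N) = 1 ∧ ∀ j ∈ Finset.Ioo i (i + N), y (j:ℕ) = 0}

lemma clopen_coord (i : ℤ) (a : ℕ) : IsClopen {y : Cf | y i = a} :=
  (isClopen_discrete {a}).preimage (continuous_apply i)

lemma U_clopen (N : ℕ) : IsClopen (U N) := by
  have : U N = ⋃ i ∈ Finset.range N, ({y : Cf | y (i:ℕ) = 1} ∩ ({y : Cf | y (i + N) = 1} ∩
      ⋂ j ∈ Finset.Ioo i (i + N), {y : Cf | y (j:ℕ) = 0})) := by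
    ext y; simp only [U, Set.mem_setOf_eq, Set.mem_iUnion, Set.mem_inter_iff, Set.mem_iInter,
      exists_prop]
  rw [this]
  refine isClopen_biUnion_finset fun i _ => (clopen_coord _ _).inter ((clopen_coord _ _).inter ?_)
  exact isClopen_biInter_finset fun j _ => clopen_coord _ _

lemma pr_eq1 (x : Cf) (i : ℤ) : pr x i = 1 ↔ x i = 3 := by
  unfold pr; split_ifs with h <;> simp [h]

lemma pr_eq0 (x : Cf) (i : ℤ) : pr x i = 0 ↔ x i ≠ 3 := by
  unfold pr; split_ifs with h <;> simp [h]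

lemma sh_p_mod (N : ℕ) (s : ℤ) : sh s (p N) = sh (s % N) (p N) := by
  funext m
  simp only [sh, p]
  have h1 : (m + s) % N = (m + s % N) % N := by simp
  simp only [Int.dvd_iff_emod_eq_zero, h1]

lemma orb_U (N : ℕ) (hN : 1 ≤ N) (s : ℤ) : pr (sh s (p N)) ∈ U N := by
  have hN' : (0:ℤ) < N := by exact_mod_cast hN
  have h0 := Int.emod_nonneg (-s) hN'.ne'
  have h1 := Int.emod_lt_of_pos (-s) hN'
  obtain ⟨i, hi⟩ := Int.eq_ofNat_of_zero_le h0
  have hd : (N:ℤ) ∣ i + s := by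
    rw [← hi, Int.dvd_iff_emod_eq_zero]; simp
  refine ⟨i, by rw [Finset.mem_range]; omega, ?_, ?_, ?_⟩
  · rw [pr_eq1]; exact (p_eq3 _ _).2 hd
  · rw [pr_eq1]; refine (p_eq3 _ _).2 ?_
    have : (i:ℤ) + N + s = (i + s) + N := by ring
    rw [this]; exact dvd_add hd dvd_rfl
  · intro j hj
    rw [pr_eq0]
    intro h
    have h2 : (N:ℤ) ∣ j + s := (p_eq3 _ _).1 h
    have h3 : (N:ℤ) ∣ (j:ℤ) - i := by
      have := dvd_sub h2 hd
      simpa using this
    rw [Finset.mem_Ioo] at hj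
    have := Int.le_of_dvd (by omega) h3
    omega

lemma U_X0 (N : ℕ) (x : Cf) (hx : x ∈ X0) (hU : pr x ∈ U N) :
    x ∈ (fun s : ℕ => sh s (p N)) '' (Set.Iio N) := by
  obtain ⟨i, hi, h1, h2, h3⟩ := hU
  rw [Finset.mem_range] at hi
  rw [pr_eq1] at h1 h2
  rcases hx with ⟨M, hM, s, rfl⟩ | h
  · have a1 : (M:ℤ) ∣ i + s := (p_eq3 _ _).1 h1
    have a2 : (M:ℤ) ∣ i + N + s := (p_eq3 _ _).1 h2
    have a3 : (M:ℤ) ∣ N := by
      have := dvd_sub a2 a1
      simpa using this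
    have a4 : M ≤ N := by exact_mod_cast Int.le_of_dvd (by omega) a3
    have a5 : M = N := by
      by_contra hne
      have := h3 (i + M) (by rw [Finset.mem_Ioo]; omega)
      rw [pr_eq0] at this
      apply this
      refine (p_eq3 _ _).2 ?_
      have : ((i + M : ℕ):ℤ) + s = (i + s) + M := by push_cast; ring
      rw [this]; exact dvd_add a1 dvd_rfl
    subst a5
    have hN' : (0:ℤ) < M := by exact_mod_cast hM
    have h0 := Int.emod_nonneg s hN'.ne'
    have h1 := Int.emod_lt_of_pos s hN'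
    obtain ⟨t, ht⟩ := Int.eq_ofNat_of_zero_le h0
    refine ⟨t, by simp only [Set.mem_Iio]; omega, ?_⟩
    simp only
    rw [sh_p_mod M s, ht]
  · have := h i; omega

lemma U_X (N : ℕ) (x : Cf) (hx : x ∈ X) (hU : pr x ∈ U N) :
    ∃ s : ℕ, s < N ∧ x = sh s (p N) := by
  have ho : IsOpen (pr ⁻¹' U N) := (U_clopen N).isOpen.preimage cont_pr
  have h1 : x ∈ closure (pr ⁻¹' U N ∩ X0) := ho.inter_closure ⟨hU, hx⟩
  have hf : IsClosed ((fun s : ℕ => sh s (p N)) '' (Set.Iio N)) :=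
    ((Set.finite_Iio N).image _).isClosed
  obtain ⟨s, hs, rfl⟩ := closure_minimal (fun y hy => U_X0 N y hy.2 hy.1) hf h1
  exact ⟨s, hs, rfl⟩

/-- sums of a periodic function -/
lemma sum_per (g : ℤ → ℝ) (N : ℕ) (hg : ∀ i, g (i + N) = g i) (s : ℕ) :
    ∑ j ∈ Finset.range N, g (j + s) = ∑ j ∈ Finset.range N, g j := by
  induction s with
  | zero => simp
  | succ s ih =>
    rw [← ih]
    have h1 := Finset.sum_range_succ (fun j : ℕ => g (j + s)) N
    have h2 := Finset.sum_range_succ' (fun j : ℕ => g (j + s)) N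
    have h3 : g (N + s) = g (((0:ℕ):ℤ) + s) := by rw [← hg ((0:ℕ) + s)]; congr 1; push_cast; ring
    have h4 : ∑ j ∈ Finset.range N, g (j + ((s + 1 : ℕ):ℤ)) =
        ∑ j ∈ Finset.range N, g (((j + 1 : ℕ):ℤ) + s) :=
      Finset.sum_congr rfl fun j _ => by congr 1; push_cast; ring
    rw [h4]; linarith

lemma sum_per_mul (g : ℤ → ℝ) (N : ℕ) (hg : ∀ i, g (i + N) = g i) (s m : ℕ) :
    ∑ j ∈ Finset.range (N * m), g (j + s) = m * ∑ j ∈ Finset.range N, g j := by
  induction m with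
  | zero => simp
  | succ m ih =>
    rw [Nat.mul_succ, Finset.sum_range_add, ih]
    have : ∑ x ∈ Finset.range N, g (((N * m + x : ℕ):ℤ) + s) = ∑ j ∈ Finset.range N, g j := by
      rw [← sum_per g N hg (N * m + s)]
      exact Finset.sum_congr rfl fun j _ => by congr 1; push_cast; ring
    rw [this]; push_cast; ring

lemma lim_neg (a : ℕ → ℝ) (L : ℝ) (h : Tendsto (fun n : ℕ => Real.log (a n) / n) atTop (𝓝 L))
    (N : ℕ) (hN : 1 ≤ N) (C δ : ℝ) (hδ : 0 < δ)
    (ha : ∀ m, 0 < a (N * m) ∧ a (N * m) ≤ Real.exp (C - δ * m)) : L < 0 := by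
  have hN' : (0:ℝ) < N := by exact_mod_cast hN
  have t1 : Tendsto (fun m : ℕ => N * m) atTop atTop :=
    tendsto_atTop_mono (fun m => Nat.le_mul_of_pos_left m hN) tendsto_id
  have h2 := h.comp t1
  have h3 : Tendsto (fun m : ℕ => (C / N) / (m:ℝ) - δ / N) atTop (𝓝 (0 - δ / N)) :=
    (tendsto_const_div_atTop_nhds_zero_nat _).sub tendsto_const_nhds
  have : L ≤ 0 - δ / N := by
    refine le_of_tendsto_of_tendsto h2 h3 ?_
    filter_upwards [eventually_ge_atTop 1] with m hm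
    have hm' : (0:ℝ) < m := by exact_mod_cast hm
    have := (Real.log_le_iff_le_exp (ha m).1).2 (ha m).2
    simp only [Function.comp]
    push_cast
    rw [div_le_iff₀ (by positivity)]
    have e : (C / N / m - δ / N) * (N * m) = C - δ * m := by field_simp
    rw [e]; exact this
  have : 0 < δ / N := by positivity
  linarith

lemma lim_ge (a : ℕ → ℝ) (L c : ℝ) (h : Tendsto (fun n : ℕ => Real.log (a n) / n) atTop (𝓝 L))
    (hc : 0 < c) (ha : ∀ n, 1 ≤ n → c ^ n ≤ a n) : Real.log c ≤ L := by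
  refine ge_of_tendsto h ?_
  filter_upwards [eventually_ge_atTop 1] with n hn
  have hn' : (0:ℝ) < n := by exact_mod_cast hn
  rw [le_div_iff₀ hn', mul_comm, ← Real.log_pow]
  exact Real.log_le_log (by positivity) (ha n hn)

lemma lim_le (a : ℕ → ℝ) (L c : ℝ) (h : Tendsto (fun n : ℕ => Real.log (a n) / n) atTop (𝓝 L))
    (ha : ∀ n, 0 < a n ∧ a n ≤ c ^ n) : L ≤ Real.log c := by
  refine le_of_tendsto h ?_
  filter_upwards [eventually_ge_atTop 1] with n hn
  have hn' : (0:ℝ) < n := by exact_mod_cast hn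
  rw [div_le_iff₀ hn', mul_comm, ← Real.log_pow]
  exact Real.log_le_log (ha n).1 (ha n).2

/-- partition function -/
noncomputable def Z (A : Set Cf) (G : Cf → ℝ) (n : ℕ) : ℝ :=
  ∑ w : Fin n → Fin 4, sSup ((fun x : Cf => Real.exp (∑ j ∈ Finset.range n, G (sh j x))) ''
    {x : Cf | x ∈ A ∧ ∀ i : Fin n, x ((i : ℕ) : ℤ) = ((w i : ℕ))})

lemma term_nonneg (A : Set Cf) (G : Cf → ℝ) (n : ℕ) (w : Fin n → Fin 4) :
    0 ≤ sSup ((fun x : Cf => Real.exp (∑ j ∈ Finset.range n, G (sh j x))) ''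
    {x : Cf | x ∈ A ∧ ∀ i : Fin n, x ((i : ℕ) : ℤ) = ((w i : ℕ))}) := by
  apply Real.sSup_nonneg
  rintro _ ⟨x, -, rfl⟩
  exact (Real.exp_pos _).le

lemma le_term (A : Set Cf) (G : Cf → ℝ) (B : ℝ) (hB : ∀ x ∈ A, ∀ j : ℕ, G (sh j x) ≤ B) (n : ℕ)
    (w : Fin n → Fin 4) (x : Cf) (hx : x ∈ A) (hw : ∀ i : Fin n, x ((i : ℕ) : ℤ) = ((w i : ℕ))) :
    Real.exp (∑ j ∈ Finset.range n, G (sh j x)) ≤
    sSup ((fun x : Cf => Real.exp (∑ j ∈ Finset.range n, G (sh j x))) ''
    {x : Cf | x ∈ A ∧ ∀ i : Fin n, x ((i : ℕ) : ℤ) = ((w i : ℕ))}) := by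
  refine le_csSup ⟨Real.exp (∑ j ∈ Finset.range n, B), ?_⟩ ⟨x, ⟨hx, hw⟩, rfl⟩
  rintro _ ⟨y, hy, rfl⟩
  exact Real.exp_le_exp.2 (Finset.sum_le_sum fun j _ => hB y hy.1 j)

lemma le_Z (A : Set Cf) (G : Cf → ℝ) (B : ℝ) (hB : ∀ x ∈ A, ∀ j : ℕ, G (sh j x) ≤ B) (n : ℕ)
    (x : Cf) (hx : x ∈ A) (h4 : ∀ i, x i < 4) :
    Real.exp (∑ j ∈ Finset.range n, G (sh j x)) ≤ Z A G n := by
  let w : Fin n → Fin 4 := fun i => ⟨x ((i:ℕ):ℤ), h4 _⟩
  refine le_trans (le_term A G B hB n w x hx fun i => rfl) ?_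
  exact Finset.single_le_sum (f := fun w : Fin n → Fin 4 =>
    sSup ((fun x : Cf => Real.exp (∑ j ∈ Finset.range n, G (sh j x))) ''
    {x : Cf | x ∈ A ∧ ∀ i : Fin n, x ((i : ℕ) : ℤ) = ((w i : ℕ))}))
    (fun w _ => term_nonneg A G n w) (Finset.mem_univ w)

lemma sum_prod (n : ℕ) (f : Fin 4 → ℝ) :
    ∑ w : Fin n → Fin 4, ∏ i, f (w i) = (∑ a, f a) ^ n := by
  rw [Fintype.sum_pow]

lemma p_X (N : ℕ) (hN : 1 ≤ N) (s : ℤ) : sh s (p N) ∈ X :=
  subset_closure (Or.inl ⟨N, hN, s, rfl⟩)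

lemma per_X (w : W) : per w ∈ X := subset_closure (Or.inr (per_lt w))

lemma p_period (N : ℕ) (i : ℤ) : sh (i + N) (p N) = sh i (p N) := by
  rw [sh_p_mod, sh_p_mod N i]; simp

lemma step1 (F : Cf → ℝ) (B : ℝ) (hB : ∀ x ∈ X, |F x| ≤ B)
    (H : ∀ φ : Cf → ℝ, ContinuousOn φ Y → ∃ L : ℝ,
      Tendsto (fun n : ℕ => Real.log (Z Y φ n) / n) atTop (𝓝 L) ∧
      Tendsto (fun n : ℕ => Real.log (Z X (fun x => φ (pr x) + F x) n) / n) atTop (𝓝 L))
    (N : ℕ) (hN : 1 ≤ N) : 0 ≤ ∑ j ∈ Finset.range N, F (sh j (p N)) := by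
  classical
  by_contra hneg
  push Not at hneg
  set S := ∑ j ∈ Finset.range N, F (sh j (p N)) with hS
  let M : ℝ := B + 3
  have hB0 : 0 ≤ B := le_trans (abs_nonneg _) (hB _ (p_X N hN 0))
  let φ : Cf → ℝ := fun y => if y ∈ U N then 0 else -M
  have hφ : Continuous φ := by
    refine continuous_if ?_ continuousOn_const continuousOn_const
    intro a ha
    have : frontier {y | y ∈ U N} = ∅ := (U_clopen N).frontier_eq
    rw [this] at ha; exact ha.elim
  have hφ0 : ∀ y, φ y ≤ 0 := fun y => by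
    simp only [φ, M]; split_ifs <;> linarith
  obtain ⟨L, h1, h2⟩ := H φ hφ.continuousOn
  have hL1 : Real.log 1 ≤ L := by
    refine lim_ge _ L 1 h1 one_pos fun n _ => ?_
    have := le_Z Y φ 0 (fun x _ j => hφ0 _) n (pr (sh 0 (p N))) ⟨_, p_X N hN 0, rfl⟩
      (fun i => lt_trans (pr_lt _ _) (by norm_num))
    refine le_trans (le_of_eq ?_) this
    rw [Finset.sum_eq_zero, Real.exp_zero, one_pow]
    intro j _
    rw [← pr_sh, sh_sh]
    simp only [φ, if_pos (orb_U N hN _)]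
  have hGB : ∀ x ∈ X, ∀ j : ℕ, (fun x => φ (pr x) + F x) (sh j x) ≤ B := fun x hx j => by
    have := (abs_le.1 (hB _ (sh_X j x hx))).2
    have := hφ0 (pr (sh j x))
    simp only; linarith
  have hL2 : L < 0 := by
    refine lim_neg _ L h2 N hN (Real.log (N + 1)) (min 1 (-S)) (lt_min one_pos (by linarith))
      fun m => ⟨lt_of_lt_of_le (Real.exp_pos _)
        (le_Z X _ B hGB (N * m) _ (p_X N hN 0) (X_lt _ (p_X N hN 0))), ?_⟩
    have hterm : ∀ w : Fin (N * m) → Fin 4,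
        sSup ((fun x : Cf => Real.exp (∑ j ∈ Finset.range (N * m),
          (fun x => φ (pr x) + F x) (sh j x))) ''
          {x : Cf | x ∈ X ∧ ∀ i : Fin (N * m), x ((i : ℕ) : ℤ) = ((w i : ℕ))}) ≤
        ∏ _i : Fin (N * m), Real.exp (-3) + ∑ s ∈ Finset.range N,
          if w = (fun i : Fin (N * m) => (⟨sh s (p N) ((i:ℕ):ℤ), p_lt _ _⟩ : Fin 4))
            then Real.exp (m * S) else 0 := by
      intro w
      have hnn : 0 ≤ ∑ s ∈ Finset.range N,
          if w = (fun i : Fin (N * m) => (⟨sh s (p N) ((i:ℕ):ℤ), p_lt _ _⟩ : Fin 4))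
            then Real.exp (m * S) else 0 :=
        Finset.sum_nonneg fun s _ => by split_ifs <;> positivity
      have hp : 0 ≤ ∏ _i : Fin (N * m), Real.exp (-3) := by positivity
      refine Real.sSup_le ?_ (by linarith)
      rintro _ ⟨x, ⟨hx, hw⟩, rfl⟩
      by_cases hc : ∃ j : ℕ, pr (sh j x) ∈ U N
      · obtain ⟨j, hj⟩ := hc
        obtain ⟨s, hs, hxs⟩ := U_X N _ (sh_X j x hx) hj
        have hx2 : x = sh (-(j:ℤ) + s) (p N) := by
          rw [← sh_sh, ← hxs, sh_sh]; simp [sh_zero]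
        obtain ⟨t, ht, hxt⟩ := U_X N x hx (by rw [hx2]; exact orb_U N hN _)
        have hw' : w = (fun i : Fin (N * m) => (⟨sh t (p N) ((i:ℕ):ℤ), p_lt _ _⟩ : Fin 4)) := by
          funext i; apply Fin.ext; simp only; rw [← hxt, hw]
        have hsum : ∑ j ∈ Finset.range (N * m), (fun x => φ (pr x) + F x) (sh j x) = m * S := by
          rw [hS, ← sum_per_mul (fun i => F (sh i (p N))) N (fun i => by rw [p_period]) t m]
          refine Finset.sum_congr rfl fun j _ => ?_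
          simp only [hxt, sh_sh, φ, if_pos (orb_U N hN _), zero_add]
        simp only at hsum ⊢
        rw [hsum]
        have := Finset.single_le_sum (f := fun s : ℕ =>
          if w = (fun i : Fin (N * m) => (⟨sh s (p N) ((i:ℕ):ℤ), p_lt _ _⟩ : Fin 4))
            then Real.exp (m * S) else 0) (fun s _ => by split_ifs <;> positivity)
            (Finset.mem_range.2 ht)
        simp only [if_pos hw'] at this
        linarith
      · push Not at hc
        have : ∑ j ∈ Finset.range (N * m), (fun x => φ (pr x) + F x) (sh j x) ≤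
            ∑ j ∈ Finset.range (N * m), (-3 : ℝ) := by
          refine Finset.sum_le_sum fun j _ => ?_
          have := (abs_le.1 (hB _ (sh_X j x hx))).2
          simp only [φ, if_neg (hc j), M]; linarith
        have h3 := Real.exp_le_exp.2 this
        rw [Real.exp_sum (Finset.range (N * m)) (fun _ => (-3:ℝ)), Finset.prod_range] at h3
        simp only at h3 ⊢
        linarith
    refine le_trans (Finset.sum_le_sum fun w _ => hterm w) ?_
    rw [Finset.sum_add_distrib, sum_prod (N * m) (fun _ => Real.exp (-3)), Finset.sum_comm]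
    simp only [Finset.sum_ite_eq', Finset.mem_univ, if_true, Finset.sum_const, Finset.card_range,
      Finset.card_univ, Fintype.card_fin, nsmul_eq_mul]
    have hm : (0:ℝ) ≤ m := by positivity
    have e1 : Real.exp (Real.log (N + 1) - min 1 (-S) * m) =
        Real.exp (-(min 1 (-S) * m)) + N * Real.exp (-(min 1 (-S) * m)) := by
      rw [sub_eq_add_neg, Real.exp_add, Real.exp_log (by positivity)]; ring
    rw [e1]
    have a1 : ((4:ℕ):ℝ) * Real.exp (-3) ≤ Real.exp (-1) := by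
      have : Real.exp (-1) = Real.exp 2 * Real.exp (-3) := by rw [← Real.exp_add]; norm_num
      rw [this]
      refine mul_le_mul_of_nonneg_right ?_ (Real.exp_pos _).le
      have := Real.add_one_le_exp 1
      have h2 : Real.exp 2 = Real.exp 1 * Real.exp 1 := by rw [← Real.exp_add]; norm_num
      push_cast; nlinarith
    have a2 : (((4:ℕ):ℝ) * Real.exp (-3)) ^ (N * m) ≤ Real.exp (-(min 1 (-S) * m)) := by
      refine le_trans (pow_le_pow_left₀ (by positivity) a1 _) ?_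
      rw [← Real.exp_nat_mul, Real.exp_le_exp]
      have := min_le_left 1 (-S)
      have hN' : (1:ℝ) ≤ N := by exact_mod_cast hN
      push_cast; nlinarith
    have a3 : Real.exp (m * S) ≤ Real.exp (-(min 1 (-S) * m)) := by
      rw [Real.exp_le_exp]
      have := min_le_right 1 (-S)
      nlinarith
    have := mul_le_mul_of_nonneg_left a3 (Nat.cast_nonneg N : (0:ℝ) ≤ N)
    linarith
  rw [Real.log_one] at hL1
  linarith

lemma unif (F : Cf → ℝ) (hF : ContinuousOn F X) (x : Cf) (hx : x ∈ X) (ε : ℝ) (hε : 0 < ε) :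
    ∃ r : ℕ, ∀ y ∈ X, (∀ i : ℤ, |i| ≤ r → y i = x i) → F y ≤ F x + ε := by
  have h1 : ∀ᶠ y in 𝓝[X] x, F y < F x + ε :=
    (hF x hx).eventually (gt_mem_nhds (by linarith))
  rw [eventually_nhdsWithin_iff, nhds_pi, Filter.Eventually, Filter.mem_pi] at h1
  obtain ⟨I, hI, t, ht, hsub⟩ := h1
  obtain ⟨r, hr⟩ := (hI.image Int.natAbs).bddAbove
  refine ⟨r, fun y hy h => (hsub (fun i hi => ?_) hy).le⟩
  rw [h i (by rw [Int.abs_eq_natAbs]; exact_mod_cast hr ⟨i, hi, rfl⟩)]
  exact mem_of_mem_nhds (ht i)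

lemma per_period (w : W) (i : ℤ) : sh (i + (w.1 + 1 : ℕ)) (per w) = sh i (per w) := by
  funext m
  simp only [sh, per]
  congr 2
  rw [← add_assoc, Int.cast_add (m + i), Int.cast_natCast, ZMod.natCast_self, add_zero]

lemma per_mod (w : W) (j : ℕ) : sh j (per w) = sh (j % (w.1 + 1) : ℕ) (per w) := by
  funext m
  simp only [sh, per]
  congr 2
  rw [Int.cast_add, Int.cast_add, Int.cast_natCast, Int.cast_natCast, ZMod.natCast_mod]

lemma step2 (F : Cf → ℝ) (hF : ContinuousOn F X) (B : ℝ) (hB : ∀ x ∈ X, |F x| ≤ B)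
    (H : ∀ N : ℕ, 1 ≤ N → 0 ≤ ∑ j ∈ Finset.range N, F (sh j (p N))) (w : W) :
    0 ≤ ∑ j ∈ Finset.range (w.1 + 1), F (sh j (per w)) := by
  by_contra hneg
  push Not at hneg
  set n := w.1 + 1 with hn
  set S := ∑ j ∈ Finset.range n, F (sh j (per w)) with hS
  have hn0 : (0:ℝ) < n := by positivity
  have hB0 : 0 ≤ B := le_trans (abs_nonneg _) (hB _ (per_X w))
  let ε : ℝ := -S / (2 * n)
  have hε : 0 < ε := div_pos (by linarith) (by positivity)
  choose r hr using fun j : ℕ => unif F hF (sh j (per w)) (sh_X _ _ (per_X w)) ε hε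
  let R := (Finset.range n).sup r
  obtain ⟨m0, hm0⟩ := exists_nat_gt ((((2 * R + 2) * (2 * B) + n * (B + ε))) / (-S / 2))
  obtain ⟨N, hN, heN⟩ := exists_e.choose_spec w (max (n * m0) (2 * R + 2))
  have heN' : e N = w := heN
  have hN1 : 2 * R + 2 ≤ N := le_trans (le_max_right _ _) hN
  have hN2 : n * m0 ≤ N := le_trans (le_max_left _ _) hN
  have key : ∀ j ∈ Finset.range N, F (sh j (p N)) ≤ F (sh j (per w)) + ε +
      ((if j ∈ Finset.range (R + 1) then 2 * B else 0) +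
        (if j ∈ Finset.Ico (N - (R + 1)) N then 2 * B else 0)) := by
    intro j hj
    rw [Finset.mem_range] at hj
    have b1 := (abs_le.1 (hB _ (p_X N (by omega) j))).2
    have b2 := (abs_le.1 (hB _ (sh_X j _ (per_X w)))).1
    split_ifs with c1 c2 c2
    · linarith
    · linarith
    · linarith
    · rw [Finset.mem_range] at c1
      rw [Finset.mem_Ico] at c2
      rw [per_mod w j, add_zero, add_zero]
      refine hr _ _ (p_X N (by omega) j) fun i hi => ?_
      have hrR : r (j % (w.1 + 1)) ≤ R :=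
        Finset.le_sup (f := r) (Finset.mem_range.2 (Nat.mod_lt _ (by omega)))
      rw [← per_mod w j]
      simp only [sh, p]
      rw [abs_le] at hi
      have d1 : 0 < i + j := by omega
      have d2 : i + j < N := by omega
      rw [if_neg, Int.emod_eq_of_lt d1.le d2, heN']
      intro hd
      have := Int.le_of_dvd d1 hd
      omega
  have h1 := le_trans (H N (by omega)) (Finset.sum_le_sum key)
  rw [Finset.sum_add_distrib, Finset.sum_add_distrib, Finset.sum_add_distrib,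
    Finset.sum_ite_mem, Finset.sum_ite_mem] at h1
  simp only [Finset.sum_const, Finset.card_range, nsmul_eq_mul] at h1
  have c1 : ((Finset.range N ∩ Finset.range (R + 1)).card : ℝ) ≤ R + 1 := by
    have := Finset.card_le_card (Finset.inter_subset_right :
      Finset.range N ∩ Finset.range (R + 1) ⊆ _)
    rw [Finset.card_range] at this
    exact_mod_cast this
  have c2 : ((Finset.range N ∩ Finset.Ico (N - (R + 1)) N).card : ℝ) ≤ R + 1 := by
    have := Finset.card_le_card (Finset.inter_subset_right :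
      Finset.range N ∩ Finset.Ico (N - (R + 1)) N ⊆ _)
    rw [Nat.card_Ico] at this
    have h2 : N - (N - (R + 1)) ≤ R + 1 := by omega
    exact_mod_cast le_trans this h2
  have hdiv : N = n * (N / n) + N % n := (Nat.div_add_mod N n).symm
  have hmod : N % n ≤ n := (Nat.mod_lt _ (by omega)).le
  have hq : m0 ≤ N / n := by
    rw [Nat.le_div_iff_mul_le (by omega)]; rw [mul_comm]; exact hN2
  have c3 : ∑ j ∈ Finset.range N, F (sh j (per w)) ≤ (N / n : ℕ) * S + n * B := by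
    conv_lhs => rw [hdiv]
    rw [Finset.sum_range_add]
    have := sum_per_mul (fun i => F (sh i (per w))) n (fun i => by rw [per_period]) 0 (N / n)
    simp only [Nat.cast_zero, add_zero] at this
    rw [this]
    have h3 : ∑ x ∈ Finset.range (N % n), F (sh ((n * (N / n) + x : ℕ):ℤ) (per w)) ≤
        ∑ x ∈ Finset.range (N % n), B :=
      Finset.sum_le_sum fun j _ => (abs_le.1 (hB _ (sh_X _ _ (per_X w)))).2
    simp only [Finset.sum_const, Finset.card_range, nsmul_eq_mul] at h3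
    have h4 : ((N % n : ℕ):ℝ) * B ≤ n * B :=
      mul_le_mul_of_nonneg_right (by exact_mod_cast hmod) hB0
    linarith
  have c4 : (N:ℝ) * ε ≤ (N / n : ℕ) * (-S / 2) + n * ε := by
    have h5 : (N:ℝ) ≤ n * (N / n : ℕ) + n := by
      have : N ≤ n * (N / n) + n := by omega
      exact_mod_cast this
    have h6 : n * ε = -S / 2 := by simp only [ε]; field_simp
    calc (N:ℝ) * ε ≤ (n * (N / n : ℕ) + n) * ε := mul_le_mul_of_nonneg_right h5 hε.le
      _ = (N / n : ℕ) * (n * ε) + n * ε := by ring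
      _ = _ := by rw [h6]
  rw [div_lt_iff₀ (by linarith)] at hm0
  have c5 : (m0:ℝ) * (-S / 2) ≤ (N / n : ℕ) * (-S / 2) :=
    mul_le_mul_of_nonneg_right (by exact_mod_cast hq) (by linarith)
  have c6 := mul_le_mul_of_nonneg_right c1 (by linarith : 0 ≤ 2 * B)
  have c7 := mul_le_mul_of_nonneg_right c2 (by linarith : 0 ≤ 2 * B)
  nlinarith

theorem main : ¬ ∃ F : Cf → ℝ, ContinuousOn F X ∧ ∀ φ : Cf → ℝ, ContinuousOn φ Y → ∃ L : ℝ,
      Tendsto (fun n : ℕ => Real.log (Z Y φ n) / n) atTop (𝓝 L) ∧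
      Tendsto (fun n : ℕ => Real.log (Z X (fun x => φ (pr x) + F x) n) / n) atTop (𝓝 L) := by
  rintro ⟨F, hF, H⟩
  obtain ⟨B, hB⟩ := X_compact.exists_bound_of_continuousOn hF
  have h2 := step2 F hF B hB (step1 F B hB H)
  obtain ⟨L, h3, h4⟩ := H (fun _ => 0) continuousOn_const
  have a1 : L ≤ Real.log 2 := by
    refine lim_le _ L 2 h3 fun n => ⟨lt_of_lt_of_le (Real.exp_pos _)
      (le_Z Y _ 0 (fun _ _ _ => le_rfl) n (pr (sh 0 (p 1))) ⟨_, p_X 1 le_rfl 0, rfl⟩
      (fun i => lt_trans (pr_lt _ _) (by norm_num))), ?_⟩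
    have : (2:ℝ) = ∑ a : Fin 4, if (a:ℕ) < 2 then (1:ℝ) else 0 := by
      rw [Fin.sum_univ_four]; simp; norm_num
    rw [this, ← sum_prod]
    refine Finset.sum_le_sum fun w _ => Real.sSup_le ?_
      (Finset.prod_nonneg fun i _ => by split_ifs <;> norm_num)
    rintro _ ⟨_, ⟨⟨x, -, rfl⟩, hw⟩, rfl⟩
    simp only [Finset.sum_const_zero, Real.exp_zero]
    rw [Finset.prod_eq_one]
    intro i _
    rw [if_pos]
    rw [← hw i]; exact pr_lt _ _
  have a2 : Real.log 3 ≤ L := by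
    refine lim_ge _ L 3 h4 (by norm_num) fun n hn => ?_
    obtain ⟨n, rfl⟩ : ∃ m, n = m + 1 := ⟨n - 1, by omega⟩
    have : (3:ℝ) = ∑ a : Fin 4, if (a:ℕ) < 3 then (1:ℝ) else 0 := by
      rw [Fin.sum_univ_four]; simp; norm_num
    rw [this, ← sum_prod]
    refine Finset.sum_le_sum fun w _ => ?_
    by_cases hw : ∀ i, (w i : ℕ) < 3
    · rw [Finset.prod_eq_one fun i _ => if_pos (hw i)]
      let v : W := ⟨n, fun z => ⟨w ⟨z.val, ZMod.val_lt z⟩, hw _⟩⟩
      refine le_trans ?_ (le_term X (fun x => 0 + F x) B (fun x hx j => ?_) (n+1) w (per v) (per_X v) fun i => ?_)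
      · apply Real.one_le_exp
        simpa using h2 v
      · simpa using (abs_le.1 (hB _ (sh_X j x hx))).2
      · simp only [per, v]
        congr 2
        apply Fin.ext
        simp only [Int.cast_natCast, ZMod.val_natCast]
        exact Nat.mod_eq_of_lt i.2
    · push Not at hw
      obtain ⟨i, hi⟩ := hw
      rw [Finset.prod_eq_zero (Finset.mem_univ i) (if_neg (by omega))]
      exact term_nonneg X (fun x => 0 + F x) _ _
  have := Real.log_lt_log (by norm_num : (0:ℝ) < 2) (by norm_num : (2:ℝ) < 3)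
  linarith

end Pool.Agent.H98.Compens
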