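import Mathlib

namespace Pool.Agent.H98.Cop

open Finset

section
variable {ι X : Type*} [Fintype ι] [DecidableEq ι] [Fintype X] [Nonempty X]

noncomputable def av (f : (ι → X) → ℝ) : ℝ := (∑ ω, f ω) / Fintype.card (ι → X)

lemma cpos : (0 : ℝ) < Fintype.card (ι → X) := by exact_mod_cast Fintype.card_pos

lemma av_const (c : ℝ) : av (fun _ : ι → X => c) = c := by
  have := cpos (ι := ι) (X := X)
  simp only [av, sum_const, card_univ, nsmul_eq_mul]; field_simp

lemma av_sum {κ : Type*} (s : Finset κ) (f : κ → (ι → X) → ℝ) :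
    av (fun ω => ∑ k ∈ s, f k ω) = ∑ k ∈ s, av (f k) := by
  simp only [av]; rw [sum_comm, sum_div]

lemma av_add (f g : (ι → X) → ℝ) : av (fun ω => f ω + g ω) = av f + av g := by
  simp only [av]; rw [sum_add_distrib, add_div]

lemma av_sub (f g : (ι → X) → ℝ) : av (fun ω => f ω - g ω) = av f - av g := by
  simp only [av]; rw [sum_sub_distrib, sub_div]

lemma av_mono {f g : (ι → X) → ℝ} (h : ∀ ω, f ω ≤ g ω) : av f ≤ av g :=
  div_le_div_of_nonneg_right (sum_le_sum fun ω _ => h ω) cpos.le

lemma exists_lt {f : (ι → X) → ℝ} (h : av f < 1) : ∃ ω, f ω < 1 := by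
  by_contra hc
  push Not at hc
  have := av_mono (f := fun _ => (1 : ℝ)) hc
  rw [av_const] at this; linarith

def Dep (S : Finset ι) (f : (ι → X) → ℝ) : Prop := ∀ ω ω', (∀ i ∈ S, ω i = ω' i) → f ω = f ω'

lemma av_mul {S T : Finset ι} {f g : (ι → X) → ℝ} (hf : Dep S f) (hg : Dep T g)
    (h : Disjoint S T) : av (fun ω => f ω * g ω) = av f * av g := by
  have hc := cpos (ι := ι) (X := X)
  have inv : Function.Involutive fun p : (ι → X) × (ι → X) =>
      (S.piecewise p.1 p.2, S.piecewise p.2 p.1) := by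
    rintro ⟨a, b⟩
    ext i <;> by_cases hi : i ∈ S <;> simp [hi]
  have key : (∑ ω, f ω) * (∑ ω, g ω) = (∑ ω, f ω * g ω) * Fintype.card (ι → X) := by
    rw [sum_mul_sum, ← Fintype.sum_prod_type', ← Equiv.sum_comp inv.toPerm, Fintype.sum_prod_type,
      sum_mul]
    refine sum_congr rfl fun a _ => ?_
    rw [← card_univ, mul_comm, ← nsmul_eq_mul, ← sum_const]
    refine sum_congr rfl fun b _ => ?_
    show f (S.piecewise a b) * g (S.piecewise b a) = _
    rw [hf _ a fun i hi => by simp [hi],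
      hg _ a fun i hi => by simp [disjoint_right.1 h hi]]
  simp only [av]
  rw [div_mul_div_comm, key]; field_simp

lemma av_prod {κ : Type*} [DecidableEq κ] (I : Finset κ) (S : κ → Finset ι)
    (f : κ → (ι → X) → ℝ) (hf : ∀ k ∈ I, Dep (S k) (f k))
    (hd : ∀ k ∈ I, ∀ l ∈ I, k ≠ l → Disjoint (S k) (S l)) :
    av (fun ω => ∏ k ∈ I, f k ω) = ∏ k ∈ I, av (f k) := by
  induction I using Finset.induction_on with
  | empty => simp [av_const]
  | insert a I ha ih =>
    simp only [prod_insert ha]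
    rw [av_mul (S := S a) (T := I.biUnion S) (hf a (mem_insert_self _ _)), ih]
    · exact fun k hk => hf k (mem_insert_of_mem hk)
    · exact fun k hk l hl => hd k (mem_insert_of_mem hk) l (mem_insert_of_mem hl)
    · intro ω ω' h
      exact prod_congr rfl fun k hk => hf k (mem_insert_of_mem hk) _ _
        fun i hi => h i (mem_biUnion.2 ⟨k, hk, hi⟩)
    · rw [disjoint_biUnion_right]
      exact fun k hk => hd a (mem_insert_self _ _) k (mem_insert_of_mem hk)
        (fun h => ha (h ▸ hk))

lemma av_coord (e : ι) (φ : X → ℝ) : av (fun ω : ι → X => φ (ω e)) = (∑ x, φ x) / Fintype.card X := by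
  have hc := cpos (ι := {i // i ≠ e}) (X := X)
  have hx : (0 : ℝ) < Fintype.card X := by exact_mod_cast Fintype.card_pos
  simp only [av]
  rw [← (Equiv.funSplitAt e X).symm.sum_comp, Fintype.card_congr (Equiv.funSplitAt e X),
    Fintype.sum_prod_type, Fintype.card_prod]
  simp only [Equiv.funSplitAt_symm_apply, dite_true, sum_const, card_univ, nsmul_eq_mul,
    ← mul_sum, Nat.cast_mul]
  field_simp

lemma av_coords (S : Finset ι) (φ : ι → X → ℝ) :
    av (fun ω : ι → X => ∏ e ∈ S, φ e (ω e)) = ∏ e ∈ S, (∑ x, φ e x) / Fintype.card X := by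
  rw [av_prod S (fun e => {e}) (fun e ω => φ e (ω e))]
  · exact prod_congr rfl fun e _ => av_coord e _
  · intro e _ ω ω' h; simp only [h e (mem_singleton_self e)]
  · intro k _ l _ h; simpa using h

end

section
variable {ι : Type*} [Fintype ι] [DecidableEq ι] {Q : ℕ} [NeZero Q]

/-- indicator that all coordinates of `S` vanish and those of `R` do not -/
noncomputable def pres (S R : Finset ι) (ω : ι → Fin Q) : ℝ :=
  if (∀ e ∈ S, ω e = 0) ∧ ∀ e ∈ R, ω e ≠ 0 then 1 else 0

lemma pres_dep (S R : Finset ι) : Dep (S ∪ R) (pres (Q := Q) S R) := by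
  intro ω ω' h
  unfold pres
  refine if_congr (and_congr ?_ ?_) rfl rfl
  · exact forall₂_congr fun e he => by rw [h e (mem_union_left _ he)]
  · exact forall₂_congr fun e he => by rw [h e (mem_union_right _ he)]

lemma av_pres (S R : Finset ι) (h : Disjoint S R) :
    av (pres (Q := Q) S R) = (1 / Q) ^ S.card * (1 - 1 / Q) ^ R.card := by
  have hQ : (0 : ℝ) < Q := by exact_mod_cast Nat.pos_of_ne_zero (NeZero.ne Q)
  have e : pres (Q := Q) S R = fun ω => ∏ e ∈ S ∪ R,
      (fun e (x : Fin Q) => if e ∈ S then (if x = 0 then (1 : ℝ) else 0)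
        else 1 - if x = 0 then 1 else 0) e (ω e) := by
    funext ω
    rw [prod_union h, prod_congr rfl fun e he => if_pos he,
      prod_congr rfl fun e he => if_neg (disjoint_right.1 h he), prod_boole]
    have : ∀ e, (1 - if ω e = 0 then (1 : ℝ) else 0) = if ω e ≠ 0 then 1 else 0 := by
      intro e; by_cases h : ω e = 0 <;> simp [h]
    simp only [this, prod_boole, pres]
    by_cases h1 : ∀ e ∈ S, ω e = 0 <;> by_cases h2 : ∀ e ∈ R, ω e ≠ 0
    · rw [if_pos h1, if_pos h2, if_pos ⟨h1, h2⟩, one_mul]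
    · rw [if_neg h2, if_neg fun h => h2 h.2, mul_zero]
    · rw [if_neg h1, if_neg fun h => h1 h.1, zero_mul]
    · rw [if_neg h1, if_neg fun h => h1 h.1, zero_mul]
  rw [e, av_coords (S ∪ R) (fun e (x : Fin Q) => if e ∈ S then (if x = 0 then (1 : ℝ) else 0)
        else 1 - if x = 0 then 1 else 0), prod_union h]
  congr 1
  · rw [← prod_const]
    refine prod_congr rfl fun e he => ?_
    simp [he]
  · rw [← prod_const]
    refine prod_congr rfl fun e he => ?_
    simp only [if_neg (disjoint_right.1 h he), sum_sub_distrib]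
    simp; field_simp

lemma pres_nonneg (S R : Finset ι) (ω : ι → Fin Q) : 0 ≤ pres S R ω := by
  unfold pres; split_ifs <;> norm_num

lemma pres_le (S R : Finset ι) (ω : ι → Fin Q) : pres S R ω ≤ 1 := by
  unfold pres; split_ifs <;> norm_num

/-- number of `t`-tuples of pairwise disjoint present members of `F` -/
noncomputable def tup (F : Finset (Finset ι)) (t : ℕ) (ω : ι → Fin Q) : ℝ :=
  ∑ s ∈ (Fintype.piFinset fun _ : Fin t => F).filter
    (fun s => ∀ a b, a ≠ b → Disjoint (s a) (s b)), ∏ a, pres (s a) ∅ ω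

lemma tup_nonneg (F : Finset (Finset ι)) (t : ℕ) (ω : ι → Fin Q) : 0 ≤ tup F t ω :=
  sum_nonneg fun _ _ => prod_nonneg fun _ _ => pres_nonneg _ _ _

lemma av_tup (F : Finset (Finset ι)) (t : ℕ) :
    av (tup (Q := Q) F t) ≤ (∑ S ∈ F, (1 / Q : ℝ) ^ S.card) ^ t := by
  unfold tup
  rw [av_sum, sum_pow']
  refine le_trans (sum_le_sum fun s hs => le_of_eq ?_)
    (sum_le_sum_of_subset_of_nonneg (filter_subset _ _) fun _ _ _ => by positivity)
  rw [av_prod univ s (fun a => pres (s a) ∅)]
  · refine prod_congr rfl fun a _ => ?_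
    rw [av_pres _ _ (disjoint_empty_right _)]; simp
  · intro a _; simpa using pres_dep (Q := Q) (s a) ∅
  · intro a _ b _ h; exact (mem_filter.1 hs).2 a b h

lemma one_le_tup {F : Finset (Finset ι)} {t : ℕ} {ω : ι → Fin Q} (s : Fin t → Finset ι)
    (h1 : ∀ a, s a ∈ F) (h2 : ∀ a b, a ≠ b → Disjoint (s a) (s b))
    (h3 : ∀ a, ∀ e ∈ s a, ω e = 0) : 1 ≤ tup F t ω := by
  refine le_trans (le_of_eq ?_) (single_le_sum (f := fun s : Fin t → Finset ι => ∏ a, pres (s a) ∅ ω)
    (fun _ _ => prod_nonneg fun _ _ => pres_nonneg _ _ _)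
    (mem_filter.2 ⟨Fintype.mem_piFinset.2 h1, h2⟩))
  refine (prod_eq_one fun a _ => ?_).symm
  exact if_pos ⟨h3 a, by simp⟩

end

/-- Greedy choice of pairwise disjoint sets. -/
lemma greedy {κ ι : Type*} [Fintype κ] [DecidableEq κ] [DecidableEq ι] (S : κ → Finset ι) (B t : ℕ)
    (hne : ∀ g, (S g).Nonempty)
    (hB : ∀ g', (univ.filter fun g => ¬ Disjoint (S g) (S g')).card ≤ B)
    (hT : B * t ≤ Fintype.card κ) (hB0 : 0 < B) :
    ∃ s : Fin t → κ, ∀ a b, a ≠ b → Disjoint (S (s a)) (S (s b)) := by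
  obtain ⟨I, hI, hmax⟩ := exists_max_image
    (univ.filter fun I : Finset κ => ∀ a ∈ I, ∀ b ∈ I, a ≠ b → Disjoint (S a) (S b)) card
    ⟨∅, by simp⟩
  have hI := (mem_filter.1 hI).2
  have cov : (univ : Finset κ) ⊆ I.biUnion fun g' => univ.filter fun g => ¬ Disjoint (S g) (S g') := by
    intro g _
    by_contra hc
    simp only [mem_biUnion, mem_filter, mem_univ, true_and, not_exists, not_and, not_not] at hc
    have hg : g ∉ I := fun h => by
      have := hc g h
      rw [disjoint_self] at this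
      exact (hne g).ne_empty this
    have := hmax (insert g I) (mem_filter.2 ⟨mem_univ _, by
      intro a ha b hb hab
      rcases mem_insert.1 ha with rfl | ha' <;> rcases mem_insert.1 hb with rfl | hb'
      exacts [absurd rfl hab, hc b hb', (hc a ha').symm, hI a ha' b hb' hab]⟩)
    rw [card_insert_of_notMem hg] at this; omega
  have h1 := (card_le_card cov).trans (card_biUnion_le_card_mul _ _ B fun g _ => hB g)
  rw [card_univ] at h1
  have ht : t ≤ I.card := Nat.le_of_mul_le_mul_left (by rw [mul_comm B I.card]; omega) hB0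
  refine ⟨fun a => I.equivFin.symm (Fin.castLE ht a), fun a b hab => hI _ (Subtype.prop _) _
    (Subtype.prop _) fun h => hab ?_⟩
  exact Fin.castLE_injective ht (I.equivFin.symm.injective (Subtype.ext h))

end Pool.Agent.H98.Cop
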