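import Pool.Agent.H98.Cop1

namespace Pool.Agent.H98.Cop

open Finset

def PP (k : ℕ) : Finset (Fin k × Fin k) := univ.filter fun p => p.1.val + 2 ≤ p.2.val

lemma card_PP (j : ℕ) : (PP (2 * j + 2)).card = j * (2 * j + 1) := by
  have h1 : ∀ b : Fin (2 * j + 2),
      (univ.filter fun a : Fin (2 * j + 2) => a.val + 2 ≤ b.val).card = b.val - 1 := by
    intro b
    rw [← card_map Fin.valEmbedding, ← card_range (b.val - 1)]
    congr 1
    ext x
    simp only [mem_map, mem_filter, mem_univ, true_and, Fin.valEmbedding_apply, mem_range]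
    constructor
    · rintro ⟨a, h, rfl⟩; omega
    · intro h; exact ⟨⟨x, by omega⟩, by simp; omega, rfl⟩
  rw [PP, card_filter, Fintype.sum_prod_type_right]
  simp only [← card_filter, h1]
  rw [Fin.sum_univ_eq_sum_range (fun b => b - 1), sum_range_succ']
  simp only [Nat.add_sub_cancel]
  have := sum_range_id_mul_two (2 * j + 1)
  simp only [Nat.add_sub_cancel] at this
  have h2 : (2 * j + 1) * (2 * j) = j * (2 * j + 1) * 2 := by ring
  omega

section
variable {V : Type*} [Fintype V] [DecidableEq V] {k : ℕ}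

def EF (φ : Fin k → V) : Finset (Sym2 V) := (PP k).image fun p => s(φ p.1, φ p.2)

omit [Fintype V] in
lemma card_EF {φ : Fin k → V} (h : Function.Injective φ) : (EF φ).card = (PP k).card := by
  refine card_image_of_injOn ?_
  rintro ⟨a, b⟩ ha ⟨c, d⟩ hc he
  simp only [PP, coe_filter, mem_univ, true_and, Set.mem_setOf_eq] at ha hc
  rcases Sym2.eq_iff.1 he with ⟨h1, h2⟩ | ⟨h1, h2⟩
  · exact Prod.ext (h h1) (h h2)
  · have e1 : a = d := h h1
    have e2 : b = c := h h2
    subst e1 e2; omega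

omit [Fintype V] in
lemma mem_EF {φ : Fin k → V} {x y : V} (h : s(x, y) ∈ EF φ) : (∃ a, φ a = x) ∧ ∃ b, φ b = y := by
  obtain ⟨⟨a, b⟩, -, he⟩ := mem_image.1 h
  rcases Sym2.eq_iff.1 he with ⟨h1, h2⟩ | ⟨h1, h2⟩
  exacts [⟨⟨a, h1⟩, b, h2⟩, ⟨⟨b, h2⟩, a, h1⟩]

open Classical in
noncomputable def I1 (k : ℕ) (C : Finset V) : Finset ((Fin k → V) × Fin k × V) :=
  ((univ.filter fun φ : Fin k → V => ∃ a, φ a ∈ C) ×ˢ univ ×ˢ C).filter
    fun z => Function.Injective z.1 ∧ ∀ a, z.1 a ≠ z.2.2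

open Classical in
noncomputable def I2 (k : ℕ) (C : Finset V) : Finset (Fin k → V) :=
  univ.filter fun φ => Function.Injective φ ∧ ∃ a b, a ≠ b ∧ φ a ∈ C ∧ φ b ∈ C

noncomputable def Fam (k : ℕ) (C : Finset V) : Finset (Finset (Sym2 V)) :=
  (I1 k C).image (fun z => insert s(z.1 z.2.1, z.2.2) (EF z.1)) ∪ (I2 k C).image EF

lemma card_fix (C : Finset V) (A : Finset (Fin k)) :
    (univ.filter fun φ : Fin k → V => ∀ a ∈ A, φ a ∈ C).card * Fintype.card V ^ A.card =
      C.card ^ A.card * Fintype.card V ^ k := by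
  have : (univ.filter fun φ : Fin k → V => ∀ a ∈ A, φ a ∈ C) =
      Fintype.piFinset fun a => if a ∈ A then C else univ := by
    ext φ
    simp only [mem_filter, mem_univ, true_and, Fintype.mem_piFinset]
    refine forall_congr' fun a => ?_
    by_cases h : a ∈ A <;> simp [h]
  rw [this, Fintype.card_piFinset]
  simp only [apply_ite card, card_univ]
  rw [prod_ite, prod_const, prod_const, mul_assoc, ← pow_add, filter_mem_eq_inter, univ_inter]
  congr 2
  have := card_filter_add_card_filter_not (s := (univ : Finset (Fin k))) (fun a => a ∈ A)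
  rw [filter_mem_eq_inter, univ_inter, card_univ, Fintype.card_fin] at this
  omega

lemma card_I1 (C : Finset V) :
    (I1 k C).card * Fintype.card V ≤ k ^ 2 * C.card ^ 2 * Fintype.card V ^ k := by
  classical
  have h1 : (univ.filter fun φ : Fin k → V => ∃ a, φ a ∈ C).card * Fintype.card V ≤
      k * (C.card * Fintype.card V ^ k) := by
    have : (univ.filter fun φ : Fin k → V => ∃ a, φ a ∈ C) ⊆
        univ.biUnion fun a : Fin k => univ.filter fun φ => ∀ b ∈ ({a} : Finset (Fin k)), φ b ∈ C := by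
      intro φ h; simpa using h
    refine (Nat.mul_le_mul_right _ ((card_le_card this).trans card_biUnion_le)).trans ?_
    rw [sum_mul]
    refine (sum_le_card_nsmul _ _ (C.card * Fintype.card V ^ k) fun a _ => ?_).trans (by simp)
    simpa using (card_fix C {a}).le
  have h2 : (I1 k C).card ≤ (univ.filter fun φ : Fin k → V => ∃ a, φ a ∈ C).card * (k * C.card) := by
    refine (card_filter_le _ _).trans ?_
    simp [card_product]
  calc _ ≤ (univ.filter fun φ : Fin k → V => ∃ a, φ a ∈ C).card * (k * C.card) * Fintype.card V :=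
        Nat.mul_le_mul_right _ h2
    _ = (univ.filter fun φ : Fin k → V => ∃ a, φ a ∈ C).card * Fintype.card V * (k * C.card) := by
        ring
    _ ≤ k * (C.card * Fintype.card V ^ k) * (k * C.card) := Nat.mul_le_mul_right _ h1
    _ = _ := by ring

lemma card_I2 (C : Finset V) :
    (I2 k C).card * Fintype.card V ^ 2 ≤ k ^ 2 * C.card ^ 2 * Fintype.card V ^ k := by
  classical
  have : I2 k C ⊆ (univ.filter fun p : Fin k × Fin k => p.1 ≠ p.2).biUnion fun p =>
      univ.filter fun φ => ∀ b ∈ ({p.1, p.2} : Finset (Fin k)), φ b ∈ C := by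
    intro φ h
    obtain ⟨-, a, b, hab, ha, hb⟩ := (mem_filter.1 h).2
    exact mem_biUnion.2 ⟨(a, b), by simpa using hab, by simp [ha, hb]⟩
  refine (Nat.mul_le_mul_right _ ((card_le_card this).trans card_biUnion_le)).trans ?_
  rw [sum_mul]
  refine (sum_le_card_nsmul _ _ (C.card ^ 2 * Fintype.card V ^ k) fun p hp => ?_).trans ?_
  · have := card_fix C {p.1, p.2}
    rw [card_pair (mem_filter.1 hp).2] at this
    exact this.le
  · rw [smul_eq_mul, mul_assoc]
    refine Nat.mul_le_mul_right _ ((card_filter_le _ _).trans ?_)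
    simp [sq]

lemma lam (C : Finset V) {p : ℝ} (hp : 0 ≤ p) :
    ∑ S ∈ Fam k C, p ^ S.card ≤
      (I1 k C).card * p ^ ((PP k).card + 1) + (I2 k C).card * p ^ (PP k).card := by
  unfold Fam
  refine le_trans (?_ : _ ≤ ∑ S ∈ (I1 k C).image (fun z => insert s(z.1 z.2.1, z.2.2) (EF z.1)),
    p ^ S.card + ∑ S ∈ (I2 k C).image EF, p ^ S.card) (add_le_add ?_ ?_)
  · rw [← sum_union_inter]
    exact le_add_of_nonneg_right (sum_nonneg fun _ _ => by positivity)
  · refine (sum_le_card_nsmul _ _ (p ^ ((PP k).card + 1)) fun S hS => ?_).trans ?_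
    · obtain ⟨z, hz, rfl⟩ := mem_image.1 hS
      obtain ⟨h1, h2⟩ := (mem_filter.1 hz).2
      rw [card_insert_of_notMem, card_EF h1]
      intro hc
      obtain ⟨b, hb⟩ := (mem_EF hc).2
      exact h2 b hb
    · rw [nsmul_eq_mul]
      exact mul_le_mul_of_nonneg_right (by exact_mod_cast card_image_le) (by positivity)
  · refine (sum_le_card_nsmul _ _ (p ^ (PP k).card) fun S hS => ?_).trans ?_
    · obtain ⟨z, hz, rfl⟩ := mem_image.1 hS
      rw [card_EF (mem_filter.1 hz).2.1]
    · rw [nsmul_eq_mul]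
      exact mul_le_mul_of_nonneg_right (by exact_mod_cast card_image_le) (by positivity)

/-- The two properties we want of the graph. -/
def Good (k j : ℕ) (G : SimpleGraph V) : Prop :=
  (∀ φ : Fin k → V, Function.Injective φ → ∃ p ∈ PP k, G.Adj (φ p.1) (φ p.2)) ∧
  ∀ C R : Finset V, C.card = j → (∃ x y, R = {x, y}) → Disjoint C R →
    ∃ w, w ∉ C ∧ (∀ c ∈ C, ¬ G.Adj w c) ∧ ∀ r ∈ R, G.Adj w r

lemma det {Q T t j : ℕ} [NeZero Q] (hj : 2 ≤ j) (hk : (PP k).Nonempty) (gr : V → Fin T)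
    (ω : Sym2 V → Fin Q) (hT : ((PP k).card + 1) * (k + 2) * t ≤ T)
    (h1 : ∀ C R : Finset V, C.card = j → (∃ x y, R = {x, y}) → Disjoint C R → ∀ g, ∃ w, gr w = g ∧
      w ∉ C ∧ w ∉ R ∧ (∀ c ∈ C, ω s(w, c) = 0) ∧ ∀ r ∈ R, ω s(w, r) ≠ 0)
    (h2 : ∀ C : Finset V, C.card = j → tup (Fam k C) t ω < 1) : ∃ G : SimpleGraph V, Good k j G := by
  classical
  obtain ⟨M, hM, hmax⟩ := exists_max_image
    (univ.filter fun M : Finset (Fin k → V) =>
      (∀ φ ∈ M, Function.Injective φ ∧ ∀ e ∈ EF φ, ω e = 0) ∧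
      ∀ a ∈ M, ∀ b ∈ M, a ≠ b → Disjoint (EF a) (EF b)) card ⟨∅, by simp⟩
  obtain ⟨hM1, hM2⟩ := (mem_filter.1 hM).2
  obtain ⟨G, hG⟩ : ∃ G : SimpleGraph V, ∀ u v, G.Adj u v ↔
      u ≠ v ∧ ¬ (ω s(u, v) = 0 ∧ ∀ φ ∈ M, s(u, v) ∉ EF φ) := by
    refine ⟨⟨fun u v => u ≠ v ∧ ¬ (ω s(u, v) = 0 ∧ ∀ φ ∈ M, s(u, v) ∉ EF φ), ?_, ?_⟩,
      fun _ _ => Iff.rfl⟩
    · constructor
      rintro u v ⟨h, h'⟩
      exact ⟨h.symm, by rwa [Sym2.eq_swap]⟩
    · constructor
      intro u h; exact h.1 rfl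
  refine ⟨G, ?_, ?_⟩
  · intro φ hφ
    by_contra hc
    push Not at hc
    have key : ∀ e ∈ EF φ, ω e = 0 ∧ ∀ ψ ∈ M, e ∉ EF ψ := by
      intro e he
      obtain ⟨p, hp, rfl⟩ := mem_image.1 he
      by_contra hn
      refine hc p hp ((hG _ _).2 ⟨fun h => ?_, hn⟩)
      have := hφ h
      have h3 := (mem_filter.1 hp).2
      rw [this] at h3; omega
    have hn : φ ∉ M := fun h => by
      obtain ⟨p, hp⟩ := hk
      have : s(φ p.1, φ p.2) ∈ EF φ := mem_image_of_mem _ hp
      exact (key _ this).2 φ h this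
    have := hmax (insert φ M) (mem_filter.2 ⟨mem_univ _, ?_, ?_⟩)
    · rw [card_insert_of_notMem hn] at this; omega
    · intro ψ hψ
      rcases mem_insert.1 hψ with rfl | h
      exacts [⟨hφ, fun e he => (key e he).1⟩, hM1 ψ h]
    · intro a ha b hb hab
      have d : ∀ ψ ∈ M, Disjoint (EF φ) (EF ψ) := fun ψ h =>
        disjoint_left.2 fun e he => (key e he).2 ψ h
      rcases mem_insert.1 ha with rfl | ha' <;> rcases mem_insert.1 hb with rfl | hb'
      exacts [absurd rfl hab, d b hb', (d a ha').symm, hM2 a ha' b hb' hab]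
  · intro C R hC hR hCR
    choose w hw hwC hwR hw0 hw1 using h1 C R hC hR hCR
    by_contra hc
    push Not at hc
    have kill : ∀ g, ∃ φ ∈ M, ∃ c ∈ C, s(w g, c) ∈ EF φ := by
      intro g
      by_contra hn
      push Not at hn
      obtain ⟨r, hr, hr'⟩ := hc (w g) (hwC g) fun c hcC h =>
        ((hG _ _).1 h).2 ⟨hw0 g c hcC, fun φ hφ => hn φ hφ c hcC⟩
      exact hr' ((hG _ _).2 ⟨fun h => hwR g (h ▸ hr), fun h => hw1 g r hr h.1⟩)
    choose φ hφ c hcC hφc using kill
    have str : ∀ g, ∃ S ∈ Fam k C, (∀ e ∈ S, ω e = 0) ∧ S.Nonempty ∧ S.card ≤ (PP k).card + 1 ∧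
        ∀ e ∈ S, e ∈ EF (φ g) ∨ w g ∈ e := by
      intro g
      obtain ⟨⟨a, ha⟩, b, hb⟩ := mem_EF (hφc g)
      obtain ⟨hi, h0⟩ := hM1 _ (hφ g)
      obtain ⟨c', hc', hne⟩ := exists_mem_ne (s := C) (by omega) (c g)
      by_cases hr : ∃ a', φ g a' = c'
      · obtain ⟨a', ha'⟩ := hr
        refine ⟨EF (φ g), mem_union_right _ (mem_image_of_mem _ (mem_filter.2
          ⟨mem_univ _, hi, a', b, ?_, ha' ▸ hc', hb ▸ hcC g⟩)), h0, ⟨_, hφc g⟩,
          by rw [card_EF hi]; omega, fun e he => Or.inl he⟩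
        rintro rfl; exact hne (ha'.symm.trans hb)
      · push Not at hr
        refine ⟨insert s(w g, c') (EF (φ g)), mem_union_left _ (mem_image.2 ⟨(φ g, a, c'),
          mem_filter.2 ⟨?_, hi, hr⟩, by simp only [ha]⟩), ?_, insert_nonempty _ _,
          (card_insert_le _ _).trans (by rw [card_EF hi]), ?_⟩
        · simp only [mem_product, mem_filter, mem_univ, true_and]
          exact ⟨⟨b, hb ▸ hcC g⟩, hc'⟩
        · intro e he
          rcases mem_insert.1 he with rfl | he
          exacts [hw0 g c' hc', h0 e he]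
        · intro e he
          rcases mem_insert.1 he with rfl | he
          exacts [Or.inr (Sym2.mem_mk_left _ _), Or.inl he]
    choose S hS hS0 hSne hSc hSe using str
    have winj : Function.Injective w := fun a b h => by rw [← hw a, ← hw b, h]
    have U : ∀ e : Sym2 V, (univ.filter fun g => e ∈ S g).card ≤ k + 2 := by
      intro e
      obtain ⟨ψ, hψ⟩ : ∃ ψ : Fin k → V, ∀ g, e ∈ EF (φ g) → φ g = ψ := by
        by_cases h : ∃ g, e ∈ EF (φ g)
        · obtain ⟨g, hg⟩ := h
          refine ⟨φ g, fun g' hg' => ?_⟩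
          by_contra hn
          exact disjoint_left.1 (hM2 _ (hφ g') _ (hφ g) hn) hg' hg
        · obtain ⟨p, -⟩ := hk
          induction e using Sym2.ind with
          | _ x y => exact ⟨fun _ => x, fun g hg => absurd ⟨g, hg⟩ h⟩
      rw [← card_image_of_injective _ winj]
      refine (card_le_card (t := univ.image ψ ∪ e.toFinset) ?_).trans
        ((card_union_le _ _).trans (add_le_add (card_image_le.trans (by simp)) ?_))
      · intro x hx
        obtain ⟨g, hg, rfl⟩ := mem_image.1 hx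
        rcases hSe g e (mem_filter.1 hg).2 with h | h
        · obtain ⟨a, ha⟩ := (mem_EF (hφc g)).1
          exact mem_union_left _ (mem_image.2 ⟨a, mem_univ _, by rw [← hψ g h, ha]⟩)
        · exact mem_union_right _ (Sym2.mem_toFinset.2 h)
      · induction e using Sym2.ind with
        | _ x y => rw [Sym2.toFinset_mk_eq]; exact card_le_two
    obtain ⟨s, hs⟩ := greedy S (((PP k).card + 1) * (k + 2)) t hSne (fun g' => by
      refine (card_le_card (t := (S g').biUnion fun e => univ.filter fun g => e ∈ S g) ?_).trans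
        ((card_biUnion_le_card_mul _ _ _ fun e _ => U e).trans (Nat.mul_le_mul_right _ (hSc g')))
      intro g hg
      obtain ⟨e, h1, h2⟩ := not_disjoint_iff.1 (mem_filter.1 hg).2
      exact mem_biUnion.2 ⟨e, h2, mem_filter.2 ⟨mem_univ _, h1⟩⟩) (by simpa using hT)
      (by positivity)
    exact absurd (one_le_tup (fun a => S (s a)) (fun a => hS _) hs fun a => hS0 _)
      (not_le.2 (h2 C hC))

end

end Pool.Agent.H98.Cop
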