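import Pool.Agent.H98.Cop2

namespace Pool.Agent.H98.Cop

open Finset Filter Topology

section
variable {V : Type*} [Fintype V] [DecidableEq V] {Q : ℕ} [NeZero Q]

def St (w : V) (C : Finset V) : Finset (Sym2 V) := C.image fun c => s(w, c)

omit [Fintype V] in
lemma card_St (w : V) (C : Finset V) : (St w C).card = C.card :=
  card_image_of_injective _ fun _ _ h => Sym2.congr_right.1 h

noncomputable def noext (W C R : Finset V) (ω : Sym2 V → Fin Q) : ℝ :=
  ∏ w ∈ W \ (C ∪ R), (1 - pres (St w C) (St w R) ω)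

lemma noext_nonneg (W C R : Finset V) (ω : Sym2 V → Fin Q) : 0 ≤ noext W C R ω :=
  prod_nonneg fun _ _ => sub_nonneg.2 (pres_le _ _ _)

lemma ext_of {W C R : Finset V} {ω : Sym2 V → Fin Q} (h : noext W C R ω < 1) :
    ∃ w ∈ W, w ∉ C ∧ w ∉ R ∧ (∀ c ∈ C, ω s(w, c) = 0) ∧ ∀ r ∈ R, ω s(w, r) ≠ 0 := by
  by_contra hc
  refine h.ne (prod_eq_one fun w hw => ?_)
  rw [Finset.mem_sdiff, Finset.mem_union, not_or] at hw
  rw [pres, if_neg, sub_zero]
  rintro ⟨h1, h2⟩
  exact hc ⟨w, hw.1, hw.2.1, hw.2.2, fun c hc => h1 _ (mem_image_of_mem _ hc),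
    fun c hc => h2 _ (mem_image_of_mem _ hc)⟩

lemma av_noext (hQ : 2 ≤ Q) (W C R : Finset V) (hR : R.card ≤ 2) (h : Disjoint C R) :
    av (noext (Q := Q) W C R) ≤
      Real.exp (-(((W.card : ℝ) - (C.card + 2)) * ((1 / Q) ^ C.card / 4))) := by
  have hQ' : (2 : ℝ) ≤ Q := by exact_mod_cast hQ
  have hp : (1 / Q : ℝ) ≤ 1 / 2 := one_div_le_one_div_of_le (by norm_num) hQ'
  have hp0 : (0 : ℝ) ≤ 1 / Q := by positivity
  unfold noext
  rw [av_prod _ (fun w => St w C ∪ St w R) (fun w ω => 1 - pres (St w C) (St w R) ω)]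
  · have hb : ∀ w ∈ W \ (C ∪ R), 0 ≤ av (fun ω : Sym2 V → Fin Q => 1 - pres (St w C) (St w R) ω) ∧
        av (fun ω : Sym2 V → Fin Q => 1 - pres (St w C) (St w R) ω) ≤
          Real.exp (-((1 / Q) ^ C.card / 4)) := by
      intro w _
      constructor
      · rw [← av_const (ι := Sym2 V) (X := Fin Q) 0]
        exact av_mono fun ω => sub_nonneg.2 (pres_le _ _ _)
      · rw [av_sub, av_const, av_pres, card_St, card_St]
        · refine le_trans ?_ (Real.one_sub_le_exp_neg _)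
          have : (1 / 4 : ℝ) ≤ (1 - 1 / Q) ^ R.card := by
            refine le_trans ?_ (pow_le_pow_of_le_one (by linarith) (by linarith) hR)
            nlinarith
          have h0 : (0 : ℝ) ≤ (1 / Q) ^ C.card := by positivity
          nlinarith
        · exact (disjoint_image fun _ _ h => Sym2.congr_right.1 h).2 h
    refine (prod_le_prod (fun w hw => (hb w hw).1) fun w hw => (hb w hw).2).trans ?_
    rw [prod_const, ← Real.exp_nat_mul, Real.exp_le_exp, mul_neg, neg_le_neg_iff]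
    refine mul_le_mul_of_nonneg_right ?_ (by positivity)
    have h1 := le_card_sdiff (C ∪ R) W
    have h2 := card_union_le C R
    have : W.card ≤ (W \ (C ∪ R)).card + (C.card + 2) := by omega
    have : (W.card : ℝ) ≤ (W \ (C ∪ R)).card + (C.card + 2) := by exact_mod_cast this
    linarith
  · intro w _ ω ω' hω
    simp only [pres_dep _ _ ω ω' hω]
  · intro w hw w' hw' hne
    rw [St, St, St, St, ← image_union, ← image_union, disjoint_left]
    intro e h1 h2
    obtain ⟨c, hc, rfl⟩ := mem_image.1 h1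
    obtain ⟨c', hc', he⟩ := mem_image.1 h2
    rcases Sym2.eq_iff.1 he with ⟨h, -⟩ | ⟨h, -⟩
    · exact hne h.symm
    · exact (mem_sdiff.1 hw').2 (h ▸ hc)

end

lemma lam_le (j T L : ℕ) (hT : 0 < T) (hL : 0 < L) (hj : 0 < j)
    (C : Finset (Fin T × Fin (L ^ ((2 * j + 2) * j + 1)))) (hC : C.card = j) :
    ∑ S ∈ Fam (2 * j + 2) C, (1 / (L ^ (2 * j + 2) : ℕ) : ℝ) ^ S.card ≤
      2 * ((2 * j + 2) ^ 2 * j ^ 2 * T ^ (2 * j + 1)) / L := by
  refine (lam C (by positivity)).trans ?_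
  have a := card_I1 (k := 2 * j + 2) C
  have b := card_I2 (k := 2 * j + 2) C
  rw [hC, Fintype.card_prod, Fintype.card_fin, Fintype.card_fin] at a b
  rw [card_PP]
  generalize (I1 (2 * j + 2) C).card = x at *
  generalize (I2 (2 * j + 2) C).card = y at *
  set n := T * L ^ ((2 * j + 2) * j + 1) with hn
  have n0 : 0 < n := by positivity
  have a' : x ≤ (2 * j + 2) ^ 2 * j ^ 2 * n ^ (2 * j + 1) :=
    Nat.le_of_mul_le_mul_right (a.trans (le_of_eq (by ring))) n0
  have b' : y * n ≤ (2 * j + 2) ^ 2 * j ^ 2 * n ^ (2 * j + 1) :=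
    Nat.le_of_mul_le_mul_right ((le_of_eq (by ring)).trans (b.trans (le_of_eq (by ring)))) n0
  have hq : L ^ (2 * j + 2) ≤ n :=
    (Nat.pow_le_pow_right hL (by nlinarith)).trans (Nat.le_mul_of_pos_left _ hT)
  have b'' : y * L ^ (2 * j + 2) ≤ (2 * j + 2) ^ 2 * j ^ 2 * n ^ (2 * j + 1) :=
    (Nat.mul_le_mul_left _ hq).trans b'
  have key : n ^ (2 * j + 1) * L = T ^ (2 * j + 1) * (L ^ (2 * j + 2)) ^ (j * (2 * j + 1) + 1) := by
    rw [hn, mul_pow, ← pow_mul, ← pow_mul, mul_assoc, ← pow_succ]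
    congr 2; ring
  have L0 : (0 : ℝ) < L := by exact_mod_cast hL
  generalize hq' : L ^ (2 * j + 2) = q at *
  have q0 : (0 : ℝ) < q := by rw [← hq']; positivity
  have e1 : (x : ℝ) ≤ (2 * j + 2) ^ 2 * j ^ 2 * n ^ (2 * j + 1) := by exact_mod_cast a'
  have e2 : (y : ℝ) * q ≤ (2 * j + 2) ^ 2 * j ^ 2 * n ^ (2 * j + 1) := by exact_mod_cast b''
  have e3 : (n : ℝ) ^ (2 * j + 1) * L = T ^ (2 * j + 1) * q ^ (j * (2 * j + 1) + 1) := by
    exact_mod_cast key
  have e4 : (x : ℝ) * (1 / q) ^ (j * (2 * j + 1) + 1) + y * (1 / q) ^ (j * (2 * j + 1)) =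
      (x + y * q) / q ^ (j * (2 * j + 1) + 1) := by
    rw [one_div_pow, one_div_pow, pow_succ]; field_simp
  rw [e4, div_le_div_iff₀ (by positivity) L0, mul_assoc, mul_assoc, ← e3]
  nlinarith [mul_le_mul_of_nonneg_right (add_le_add e1 e2) L0.le]

theorem exists_good (j : ℕ) (hj : 2 ≤ j) :
    ∃ (T N : ℕ) (G : SimpleGraph (Fin T × Fin N)), j + 1 < T * N ∧ Good (2 * j + 2) j G := by
  classical
  set d := (2 * j + 2) * j + 1 with hd
  set t := d * j + 1 with ht
  set T := (j * (2 * j + 1) + 1) * (2 * j + 2 + 2) * t with hT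
  have T0 : 0 < T := by positivity
  set c : ℝ := 2 * ((2 * j + 2) ^ 2 * j ^ 2 * T ^ (2 * j + 1)) with hc
  have lim : Tendsto (fun L : ℕ => (T : ℝ) ^ (j + 3) * Real.exp ((j + 2) / 4) * 4 ^ (d * (j + 2)) *
      ((L / 4 : ℝ) ^ (d * (j + 2)) * Real.exp (-(L / 4))) + T ^ j * c ^ t / L) atTop (𝓝 0) := by
    have l1 := (Real.tendsto_pow_mul_exp_neg_atTop_nhds_zero (d * (j + 2))).comp
      (tendsto_natCast_atTop_atTop.atTop_div_const (show (0 : ℝ) < 4 by norm_num))
    have l2 := tendsto_const_div_atTop_nhds_zero_nat ((T : ℝ) ^ j * c ^ t)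
    simpa using (l1.const_mul ((T : ℝ) ^ (j + 3) * Real.exp ((j + 2) / 4) * 4 ^ (d * (j + 2)))).add l2
  obtain ⟨L, hL1, hL2⟩ := ((lim.eventually (gt_mem_nhds zero_lt_one)).and
    (eventually_ge_atTop (j + 2))).exists
  have L0 : 0 < L := by omega
  have L0' : (0 : ℝ) < L := by exact_mod_cast L0
  have hQ : 2 ≤ L ^ (2 * j + 2) := le_trans (by omega) (Nat.le_self_pow (by omega) L)
  haveI : NeZero (L ^ (2 * j + 2)) := ⟨by omega⟩
  have n0 : (0 : ℝ) < T * L ^ d := by positivity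
  have bound : av (fun ω : Sym2 (Fin T × Fin (L ^ d)) → Fin (L ^ (2 * j + 2)) =>
      ∑ C ∈ powersetCard j univ, (∑ z ∈ (univ : Finset (((Fin T × Fin (L ^ d)) ×
        (Fin T × Fin (L ^ d))) × Fin T)).filter (fun z => Disjoint C {z.1.1, z.1.2}),
        noext (univ.filter fun w => w.1 = z.2) C {z.1.1, z.1.2} ω +
        tup (Fam (2 * j + 2) C) t ω)) < 1 := by
    rw [av_sum]
    refine lt_of_le_of_lt (sum_le_card_nsmul _ _ ((T * L ^ d) ^ 2 * T *
      Real.exp ((j + 2) / 4 - L / 4) + (c / L) ^ t) fun C hC => ?_) (lt_of_le_of_lt ?_ hL1)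
    · have hC := (mem_powersetCard.1 hC).2
      rw [av_add, av_sum]
      refine add_le_add ?_ ((av_tup _ _).trans (pow_le_pow_left₀
        (sum_nonneg fun _ _ => by positivity) (lam_le j T L T0 L0 (by omega) C hC) _))
      refine (sum_le_card_nsmul _ _ (Real.exp ((j + 2) / 4 - L / 4)) fun z hz => ?_).trans ?_
      · refine (av_noext hQ _ _ _ card_le_two (mem_filter.1 hz).2).trans (Real.exp_le_exp.2 ?_)
        have h1 : (univ.filter fun w : Fin T × Fin (L ^ d) => w.1 = z.2).card = L ^ d := by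
          rw [show (univ.filter fun w : Fin T × Fin (L ^ d) => w.1 = z.2) = {z.2} ×ˢ univ by
            ext w; simp only [mem_filter, mem_univ, true_and, mem_product, mem_singleton, and_true]]
          simp
        rw [h1, hC]
        push_cast
        have h2 : (L : ℝ) ^ d * (1 / L ^ (2 * j + 2)) ^ j = L := by
          rw [one_div_pow, ← pow_mul, hd, pow_succ]; field_simp
        have h3 : (1 / (L : ℝ) ^ (2 * j + 2)) ^ j ≤ 1 := by
          refine pow_le_one₀ (by positivity) ?_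
          rw [div_le_one (by positivity)]
          exact one_le_pow₀ (by exact_mod_cast L0)
        nlinarith [mul_le_mul_of_nonneg_left h3 (show (0 : ℝ) ≤ j + 2 by positivity)]
      · rw [nsmul_eq_mul]
        refine mul_le_mul_of_nonneg_right ?_ (by positivity)
        refine le_trans (Nat.cast_le.2 (card_filter_le _ _)) (le_of_eq ?_)
        simp [sq]
    · rw [nsmul_eq_mul, card_powersetCard, card_univ, Fintype.card_prod, Fintype.card_fin,
        Fintype.card_fin]
      have h1 : ((T * L ^ d).choose j : ℝ) ≤ (T * L ^ d) ^ j := by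
        exact_mod_cast Nat.choose_le_pow _ _
      refine (mul_le_mul_of_nonneg_right h1 (by positivity)).trans (le_of_eq ?_)
      rw [mul_add, sub_eq_add_neg, Real.exp_add]
      congr 1
      · rw [div_pow]; field_simp; ring
      · rw [div_pow, ht]; field_simp; ring
  obtain ⟨ω, hω⟩ := exists_lt bound
  have hω' := fun C (hC : C.card = j) => lt_of_le_of_lt (single_le_sum (fun C _ => add_nonneg
    (sum_nonneg fun _ _ => noext_nonneg _ _ _ _) (tup_nonneg _ _ _))
    (mem_powersetCard.2 ⟨subset_univ C, hC⟩)) hω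
  obtain ⟨G, hG⟩ := det (k := 2 * j + 2) (t := t) hj
    ⟨(⟨0, by omega⟩, ⟨2, by omega⟩), by simp [PP]⟩ Prod.fst ω (by rw [card_PP])
    (fun C R hC hR hCR g => by
      obtain ⟨x, y, rfl⟩ := hR
      have h1 := lt_of_le_of_lt (le_add_of_nonneg_right (tup_nonneg _ _ _)) (hω' C hC)
      have h2 := lt_of_le_of_lt (single_le_sum (fun _ _ => noext_nonneg _ _ _ _)
        (mem_filter.2 ⟨mem_univ ((x, y), g), hCR⟩)) h1
      obtain ⟨w, hw, h⟩ := ext_of h2
      exact ⟨w, (mem_filter.1 hw).2, h⟩)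
    (fun C hC => lt_of_le_of_lt (le_add_of_nonneg_left
      (sum_nonneg fun _ _ => noext_nonneg _ _ _ _)) (hω' C hC))
  refine ⟨T, L ^ d, G, ?_, hG⟩
  exact lt_of_lt_of_le (by omega) ((Nat.le_self_pow (by omega) L).trans
    (Nat.le_mul_of_pos_left _ T0))

end Pool.Agent.H98.Cop
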