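import Mathlib

namespace Pool.Agent.H98.Cut

open Finset

variable {V : Type*} [Fintype V] [DecidableEq V]

/-- Indicator that the directed line a b has u weakly on its left and v strictly on its right. -/
noncomputable def ind (o : V → V → V → ℝ) (a b u v : V) : ℝ :=
  if 0 ≤ o a b u ∧ o a b v < 0 then 1 else 0

lemma ind_nonneg (o : V → V → V → ℝ) (a b u v : V) : 0 ≤ ind o a b u v := by
  unfold ind; split_ifs <;> norm_num

lemma ind_one (o : V → V → V → ℝ) (a b u v : V) (h1 : 0 ≤ o a b u) (h2 : o a b v < 0) :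
    ind o a b u v = 1 := by
  unfold ind; rw [if_pos ⟨h1, h2⟩]

/-- Symmetrised indicator. -/
noncomputable def ind2 (o : V → V → V → ℝ) (a b u v : V) : ℝ := ind o a b u v + ind o b a u v

lemma ind2_nonneg (o : V → V → V → ℝ) (a b u v : V) : 0 ≤ ind2 o a b u v :=
  add_nonneg (ind_nonneg _ _ _ _ _) (ind_nonneg _ _ _ _ _)

lemma ind2_comm (o : V → V → V → ℝ) (a b u v : V) : ind2 o a b u v = ind2 o b a u v := by
  unfold ind2; ring

structure Ori (o : V → V → V → ℝ) : Prop where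
  anti : ∀ a b x, o a b x = - o b a x
  cyc : ∀ a b x, o a b x = o b x a
  ne : ∀ a b x, a ≠ b → a ≠ x → b ≠ x → o a b x ≠ 0

lemma pair_pt {o : V → V → V → ℝ} (h : Ori o) (u b a v : V) (hub : u ≠ b) (hau : a ≠ u)
    (hab : a ≠ b) (hvu : v ≠ u) (hvb : v ≠ b) :
    (1 + (if 0 < o b u a then (1:ℝ) else -1) * (if 0 < o b u v then (1:ℝ) else -1)) / 2
      ≤ ind2 o a b u v + ind2 o v b u a + (if a = v then 1 else 0) := by
  have n1 := ind_nonneg o a b u v
  have n2 := ind_nonneg o b a u v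
  have n3 := ind_nonneg o v b u a
  have n4 := ind_nonneg o b v u a
  by_cases hav : a = v
  · rw [if_pos hav]
    unfold ind2
    split_ifs <;> linarith
  rw [if_neg hav]
  have e1 : o a b u = o b u a := h.cyc a b u
  have e2 : o v b u = o b u v := h.cyc v b u
  have e3 : o a b v = o b v a := h.cyc a b v
  have e4 : o v b a = - o b v a := h.anti v b a
  have e5 : o b a u = - o a b u := h.anti b a u
  have e6 : o b v u = - o v b u := h.anti b v u
  have e7 : o b a v = - o a b v := h.anti b a v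
  have z1 : o a b v ≠ 0 := h.ne a b v hab hav (Ne.symm hvb)
  have z2 : o a b u ≠ 0 := h.ne a b u hab hau (Ne.symm hub)
  have z3 : o v b u ≠ 0 := h.ne v b u hvb hvu (Ne.symm hub)
  unfold ind2
  by_cases p1 : 0 < o b u a <;> by_cases p2 : 0 < o b u v
  · rw [if_pos p1, if_pos p2]
    rcases lt_or_gt_of_ne z1 with q | q
    · have := ind_one o a b u v (by linarith) q
      linarith
    · have := ind_one o v b u a (by linarith) (by linarith)
      linarith
  · rw [if_pos p1, if_neg p2]; linarith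
  · rw [if_neg p1, if_pos p2]; linarith
  · rw [if_neg p1, if_neg p2]
    push Not at p1 p2
    rcases lt_or_gt_of_ne z1 with q | q
    · have := ind_one o b v u a (by linarith) (by linarith)
      linarith
    · have := ind_one o b a u v (by linarith) (by linarith)
      linarith

lemma pair_sum {o : V → V → V → ℝ} (h : Ori o) (u b : V) (hub : u ≠ b) (M : Finset V)
    (hu : u ∉ M) (hb : b ∉ M) :
    ((M.card : ℝ) ^ 2 - 2 * M.card) / 4 ≤ ∑ a ∈ M, ∑ v ∈ M, ind2 o a b u v := by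
  set s : V → ℝ := fun a => if 0 < o b u a then (1:ℝ) else -1 with hs
  have key : ∑ a ∈ M, ∑ v ∈ M, (1 + s a * s v) / 2 ≤
      ∑ a ∈ M, ∑ v ∈ M, (ind2 o a b u v + ind2 o v b u a + (if a = v then 1 else 0)) := by
    refine sum_le_sum fun a ha => sum_le_sum fun v hv => ?_
    exact pair_pt h u b a v hub (fun e => hu (e ▸ ha)) (fun e => hb (e ▸ ha))
      (fun e => hu (e ▸ hv)) (fun e => hb (e ▸ hv))
  have l1 : ∑ a ∈ M, ∑ v ∈ M, (1 + s a * s v) / 2
      = ((M.card : ℝ) ^ 2 + (∑ a ∈ M, s a) ^ 2) / 2 := by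
    have : (∑ a ∈ M, s a) ^ 2 = ∑ a ∈ M, ∑ v ∈ M, s a * s v := by
      rw [sq, sum_mul_sum]
    rw [this]
    simp only [add_div, sum_add_distrib, sum_const, nsmul_eq_mul, ← sum_div]
    ring
  have l2 : ∑ a ∈ M, ∑ v ∈ M, (ind2 o a b u v + ind2 o v b u a + (if a = v then (1:ℝ) else 0))
      = 2 * (∑ a ∈ M, ∑ v ∈ M, ind2 o a b u v) + M.card := by
    simp only [sum_add_distrib]
    have c1 : ∑ a ∈ M, ∑ v ∈ M, ind2 o v b u a = ∑ a ∈ M, ∑ v ∈ M, ind2 o a b u v := sum_comm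
    have c2 : ∑ a ∈ M, ∑ v ∈ M, (if a = v then (1:ℝ) else 0) = M.card := by
      rw [sum_congr rfl (fun a ha => by rw [sum_ite_eq, if_pos ha])]
      simp
    rw [c1, c2]; ring
  rw [l1, l2] at key
  nlinarith [sq_nonneg (∑ a ∈ M, s a)]

lemma self_pt {o : V → V → V → ℝ} (h : Ori o) (u b v : V) (hub : u ≠ b) (hvu : v ≠ u)
    (hvb : v ≠ b) : 1 ≤ ind2 o u b u v := by
  have n1 := ind_nonneg o u b u v
  have n2 := ind_nonneg o b u u v
  have z0 : o u u b = 0 := by have := h.anti u u b; linarith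
  have z1 : o b u u = 0 := by rw [h.cyc b u u]; exact z0
  have z2 : o u b u = 0 := by rw [h.anti u b u, z1]; simp
  have z3 : o u b v ≠ 0 := h.ne u b v hub (Ne.symm hvu) (Ne.symm hvb)
  have e : o b u v = - o u b v := h.anti b u v
  unfold ind2
  rcases lt_or_gt_of_ne z3 with q | q
  · have := ind_one o u b u v (by linarith) q
    linarith
  · have := ind_one o b u u v (by linarith) (by linarith)
    linarith

/-- The count attached to a vertex u with neighbourhood S. -/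
lemma vertex_bound {o : V → V → V → ℝ} (h : Ori o) (u : V) (S : Finset V) (hu : u ∉ S) :
    -(S.card : ℝ) ^ 3 + 2 * ((Fintype.card V : ℝ) - 1) * (S.card : ℝ) ^ 2
        + (4 * ((Fintype.card V : ℝ) - 1) - 5) * S.card
      ≤ 8 * ∑ a, ∑ b, ∑ v ∈ S, ind o a b u v := by
  set g : V → V → ℝ := fun a b => ∑ v ∈ S, ind2 o a b u v with hg
  have g0 : ∀ a b, 0 ≤ g a b := fun a b => sum_nonneg fun v _ => ind2_nonneg _ _ _ _ _
  have gs : ∀ a b, g a b = g b a := fun a b => sum_congr rfl fun v _ => ind2_comm _ _ _ _ _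
  have tot : ∑ a, ∑ b, g a b = 2 * ∑ a, ∑ b, ∑ v ∈ S, ind o a b u v := by
    simp only [hg, ind2, sum_add_distrib]
    have : ∑ a, ∑ b, ∑ v ∈ S, ind o b a u v = ∑ a, ∑ b, ∑ v ∈ S, ind o a b u v := sum_comm
    rw [this]; ring
  set B : Finset V := (insert u S)ᶜ with hB
  have huB : u ∉ B := by simp [hB]
  have hSB : ∀ b ∈ B, b ∉ S := fun b hb => by
    simp only [hB, mem_compl, mem_insert, not_or] at hb; exact hb.2
  have cB : (B.card : ℝ) = (Fintype.card V : ℝ) - 1 - S.card := by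
    have h1 : B.card = Fintype.card V - (insert u S).card := card_compl _
    have h2 : (insert u S).card = S.card + 1 := card_insert_of_notMem hu
    have h3 : (insert u S).card ≤ Fintype.card V := card_le_univ _
    rw [h1, Nat.cast_sub h3, h2]; push_cast; ring
  have split : ∀ f : V → ℝ, ∑ a, f a = f u + ∑ a ∈ S, f a + ∑ a ∈ B, f a := by
    intro f
    rw [← sum_add_sum_compl (insert u S) f, sum_insert hu]
  -- bounds for b outside the closed neighbourhood
  have bB1 : ∀ b ∈ B, ((S.card : ℝ) ^ 2 - 2 * S.card) / 4 ≤ ∑ a ∈ S, g a b := fun b hb =>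
    pair_sum h u b (fun e => huB (e ▸ hb)) S hu (hSB b hb)
  have bB2 : ∀ b ∈ B, (S.card : ℝ) ≤ g u b := by
    intro b hb
    have : ∑ v ∈ S, (1:ℝ) ≤ g u b := sum_le_sum fun v hv =>
      self_pt h u b v (fun e => huB (e ▸ hb)) (fun e => hu (e ▸ hv))
        (fun e => hSB b hb (e ▸ hv))
    simpa using this
  -- bounds for b a neighbour
  have cE : ∀ b ∈ S, ((S.erase b).card : ℝ) = S.card - 1 := by
    intro b hb
    have h1 := card_erase_of_mem hb
    have h2 : 1 ≤ S.card := card_pos.mpr ⟨b, hb⟩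
    rw [h1, Nat.cast_sub h2]; simp
  have bS1 : ∀ b ∈ S, (((S.card : ℝ) - 1) ^ 2 - 2 * (S.card - 1)) / 4 ≤ ∑ a ∈ S, g a b := by
    intro b hb
    have h1 := pair_sum h u b (fun e => hu (e ▸ hb)) (S.erase b)
      (fun e => hu (mem_of_mem_erase e)) (notMem_erase b S)
    rw [cE b hb] at h1
    refine h1.trans ?_
    refine le_trans (sum_le_sum fun a _ => ?_)
      (sum_le_sum_of_subset_of_nonneg (erase_subset b S) fun a _ _ => g0 a b)
    exact sum_le_sum_of_subset_of_nonneg (erase_subset b S) fun v _ _ => ind2_nonneg _ _ _ _ _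
  have bS2 : ∀ b ∈ S, (S.card : ℝ) - 1 ≤ g u b := by
    intro b hb
    have h1 : ∑ v ∈ S.erase b, (1:ℝ) ≤ ∑ v ∈ S.erase b, ind2 o u b u v := sum_le_sum fun v hv =>
      self_pt h u b v (fun e => hu (e ▸ hb)) (fun e => hu (e ▸ mem_of_mem_erase hv))
        (ne_of_mem_erase hv)
    have h2 : ∑ v ∈ S.erase b, ind2 o u b u v ≤ g u b :=
      sum_le_sum_of_subset_of_nonneg (erase_subset b S) fun v _ _ => ind2_nonneg _ _ _ _ _
    rw [sum_const, nsmul_eq_mul, cE b hb] at h1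
    linarith
  have col : ∀ b, ∑ a, g a b = g u b + ∑ a ∈ S, g a b + ∑ a ∈ B, g a b := fun b => split _
  have tot2 : ∑ a, ∑ b, g a b = ∑ b, ∑ a, g a b := sum_comm
  have e0 : ∑ b, ∑ a, g a b = ∑ a, g a u + ∑ b ∈ S, ∑ a, g a b + ∑ b ∈ B, ∑ a, g a b :=
    split (fun b => ∑ a, g a b)
  have e1 : ∑ b ∈ S, g u b + ∑ b ∈ B, g u b ≤ ∑ a, g a u := by
    rw [col u]
    have c1 : ∑ a ∈ S, g a u = ∑ b ∈ S, g u b := sum_congr rfl fun a _ => gs a u
    have c2 : ∑ a ∈ B, g a u = ∑ b ∈ B, g u b := sum_congr rfl fun a _ => gs a u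
    rw [c1, c2]; linarith [g0 u u]
  have e2 : ∑ b ∈ S, ∑ a, g a b
      = ∑ b ∈ S, g u b + ∑ b ∈ S, ∑ a ∈ S, g a b + ∑ b ∈ B, ∑ a ∈ S, g a b := by
    rw [sum_congr rfl fun b _ => col b]
    simp only [sum_add_distrib]
    have c1 : ∑ b ∈ S, ∑ a ∈ B, g a b = ∑ b ∈ B, ∑ a ∈ S, g a b := by
      rw [sum_comm]
      exact sum_congr rfl fun b _ => sum_congr rfl fun a _ => gs _ _
    rw [c1]
  have e3 : ∑ b ∈ B, g u b + ∑ b ∈ B, ∑ a ∈ S, g a b ≤ ∑ b ∈ B, ∑ a, g a b := by
    rw [← sum_add_distrib]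
    refine sum_le_sum fun b _ => ?_
    rw [col b]
    have : 0 ≤ ∑ a ∈ B, g a b := sum_nonneg fun a _ => g0 a b
    linarith
  have f1 : (B.card : ℝ) * (((S.card : ℝ) ^ 2 - 2 * S.card) / 4) ≤ ∑ b ∈ B, ∑ a ∈ S, g a b := by
    have := sum_le_sum bB1
    rwa [sum_const, nsmul_eq_mul] at this
  have f2 : (B.card : ℝ) * S.card ≤ ∑ b ∈ B, g u b := by
    have := sum_le_sum bB2
    rwa [sum_const, nsmul_eq_mul] at this
  have f3 : (S.card : ℝ) * ((((S.card : ℝ) - 1) ^ 2 - 2 * (S.card - 1)) / 4)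
      ≤ ∑ b ∈ S, ∑ a ∈ S, g a b := by
    have := sum_le_sum bS1
    rwa [sum_const, nsmul_eq_mul] at this
  have f4 : (S.card : ℝ) * ((S.card : ℝ) - 1) ≤ ∑ b ∈ S, g u b := by
    have := sum_le_sum bS2
    rwa [sum_const, nsmul_eq_mul] at this
  rw [cB] at f1 f2
  nlinarith [tot, tot2, e0, e1, e2, e3, f1, f2, f3, f4]

end Pool.Agent.H98.Cut
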