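import Pool.Agent.H98.Cut8

namespace Pool.Agent.H98.Cut

open Finset

/-- The block inequality with the natural block size. -/
def Blk (n k m : ℕ) : Prop :=
  ∀ R : ℕ, 1 ≤ R → n * k + R * (n / 2 / R * (n / 2 / R + 1)) < n / 2 / R * n + R * m

lemma blk_range (n R : ℕ) (hR : 1 ≤ R) :
    R * (n / 2 / R) ≤ n / 2 ∧ (n + 1) / 2 ≤ R * (n / 2 / R + 1) := by
  have a := Nat.mul_div_le (n / 2) R
  have b := Nat.lt_mul_div_succ (n / 2) (by omega : 0 < R)
  exact ⟨a, by omega⟩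

lemma blk_eight (n k m : ℕ) (hn : 2 * k + 2 ≤ n) (h : Blk n k m) : 8 * k ^ 2 ≤ 9 * m := by
  rcases Nat.eq_zero_or_pos k with rfl | hk
  · simp
  obtain ⟨R, r1, r2, r3⟩ : ∃ R, 1 ≤ R ∧ 4 * (R * k) ≤ 3 * n ∧ 3 * n ≤ 8 * (R * k) := by
    by_cases c : 3 * n ≤ 8 * k
    · exact ⟨1, le_rfl, by omega, by omega⟩
    · have a := Nat.mul_div_le (3 * n) (8 * k)
      have b := Nat.lt_mul_div_succ (3 * n) (by omega : 0 < 8 * k)
      refine ⟨3 * n / (8 * k) + 1, Nat.le_add_left _ _, ?_, ?_⟩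
      · nlinarith
      · nlinarith
  have h1 := h R r1
  generalize n / 2 / R = a at h1
  have h2 : (n:ℤ) * k + R * (a * (a + 1)) < a * n + R * m := by exact_mod_cast h1
  have r1' : (1:ℤ) ≤ R := by exact_mod_cast r1
  have r2' : 4 * ((R:ℤ) * k) ≤ 3 * n := by exact_mod_cast r2
  have r3' : 3 * (n:ℤ) ≤ 8 * ((R:ℤ) * k) := by exact_mod_cast r3
  have a0 : (0:ℤ) ≤ a := Nat.cast_nonneg a
  have t1 : 4 * (R:ℤ) * ((n:ℤ) * k + R * (a * (a + 1))) < 4 * R * (a * n + R * m) :=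
    mul_lt_mul_of_pos_left h2 (by linarith)
  have t2 : 0 ≤ (3 * (n:ℤ) - 4 * (R * k)) * (8 * (R * k) - 3 * n) :=
    mul_nonneg (by linarith) (by linarith)
  have t3 : 0 ≤ (R:ℤ) ^ 2 * a := by positivity
  have t4 : (R:ℤ) ^ 2 * (8 * k ^ 2) ≤ (R:ℤ) ^ 2 * (9 * m) := by
    nlinarith [sq_nonneg (2 * (R:ℤ) * a - n)]
  have t5 := le_of_mul_le_mul_left t4 (by positivity)
  exact_mod_cast t5

lemma blk_window (n k m R D : ℕ) (h : Blk n k m) (hR : 1 ≤ R) (hD : D ^ 2 + D ≤ k + 1)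
    (l1 : k ≤ n / 2 / R + D) (l2 : n / 2 / R ≤ k + D) : k ^ 2 ≤ m := by
  have h1 := h R hR
  obtain ⟨b1, b2⟩ := blk_range n R hR
  generalize n / 2 / R = a at h1 b1 b2 l1 l2
  have c1 : 2 * (R * a) ≤ n := by omega
  have c2 : n ≤ 2 * (R * (a + 1)) := by omega
  by_contra hm
  have hm' : m + 1 ≤ k ^ 2 := by omega
  have t0 : R * (m + 1) ≤ R * k ^ 2 := Nat.mul_le_mul_left _ hm'
  rcases le_total k a with c | c
  · obtain ⟨d, rfl⟩ := Nat.exists_eq_add_of_le c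
    have d1 : d ^ 2 + d ≤ k + 1 := by
      have : d ≤ D := by omega
      nlinarith
    have t1 := Nat.mul_le_mul_left d c2
    have t2 := Nat.mul_le_mul_left R d1
    nlinarith
  · obtain ⟨d, rfl⟩ := Nat.exists_eq_add_of_le c
    have d1 : d ^ 2 + d ≤ a + d + 1 := by
      have : d ≤ D := by omega
      nlinarith
    have t1 := Nat.mul_le_mul_left d c1
    have t2 := Nat.mul_le_mul_left R d1
    nlinarith

lemma blk_big (n k m : ℕ) (h : Blk n k m) (hn : 2 * k ^ 2 ≤ n) (h2 : 2 ≤ n) :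
    k ^ 2 + k + 1 ≤ m := by
  rcases Nat.eq_zero_or_pos k with rfl | hk
  · have h1 := h n (by omega)
    have : n / 2 / n = 0 := Nat.div_eq_of_lt (by omega)
    rw [this] at h1
    simp at h1
    omega
  have a := Nat.mul_div_le (n / 2) k
  have b := Nat.lt_mul_div_succ (n / 2) hk
  have c : k ≤ n / 2 / k := (Nat.le_div_iff_mul_le hk).mpr (by nlinarith [Nat.div_add_mod n 2, Nat.mod_lt n (by omega : 0 < 2)])
  generalize n / 2 / k = R at a b c
  have h1 := h R (by omega)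
  have e : n / 2 / R = k := by
    apply le_antisymm
    · apply Nat.le_of_lt_succ
      rw [Nat.div_lt_iff_lt_mul (by omega)]
      nlinarith
    · exact (Nat.le_div_iff_mul_le (by omega)).mpr a
  rw [e] at h1
  have : R * (k * (k + 1)) < R * m := by nlinarith
  have := Nat.lt_of_mul_lt_mul_left this
  nlinarith

lemma small_table : ∀ k < 10, ∀ n < 162, 2 * k + 2 ≤ n → n < 2 * k ^ 2 → ∃ R < 12, 1 ≤ R ∧
    n / 2 / R * n + R * k ^ 2 ≤ n * k + R * (n / 2 / R * (n / 2 / R + 1)) + R := by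
  decide +kernel

lemma blk_small (n k m : ℕ) (h : Blk n k m) (hn : 2 * k + 2 ≤ n) (hk : k ≤ 9) : k ^ 2 ≤ m := by
  by_cases c : 2 * k ^ 2 ≤ n
  · have := blk_big n k m h c (by omega)
    omega
  obtain ⟨R, _, r1, r2⟩ := small_table k (by omega) n (by nlinarith) hn (by omega)
  have h1 := h R r1
  have : R * k ^ 2 < R * (m + 1) := by nlinarith
  have := Nat.lt_of_mul_lt_mul_left this
  omega

lemma le_of_sq_le_sq_nat {a b : ℕ} (h : a ^ 2 ≤ b ^ 2) : a ≤ b := by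
  by_contra c
  push Not at c
  nlinarith

lemma blk_power (n k m : ℕ) (h : Blk n k m) (hn : 2 * k + 2 ≤ n) (hp : 2 * k ^ 3 ≤ n ^ 2) :
    k ^ 2 ≤ m := by
  by_cases c : k ≤ 9
  · exact blk_small n k m h hn c
  have ex : ∃ D, k + 1 < (D + 1) ^ 2 + (D + 1) := ⟨k, by nlinarith⟩
  classical
  obtain ⟨D, d1, d2⟩ : ∃ D, k + 1 < (D + 1) ^ 2 + (D + 1) ∧ D ^ 2 + D ≤ k + 1 := by
    refine ⟨Nat.find ex, Nat.find_spec ex, ?_⟩
    rcases Nat.eq_zero_or_pos (Nat.find ex) with z | z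
    · rw [z]; omega
    · obtain ⟨w, hw⟩ := Nat.exists_eq_succ_of_ne_zero z.ne'
      have := Nat.find_min ex (m := w) (by omega)
      rw [hw]
      simpa using this
  have d3 : 2 ≤ D := by
    by_contra d
    have : D = 0 ∨ D = 1 := by omega
    rcases this with rfl | rfl <;> omega
  have d4 : D < k := by nlinarith
  obtain ⟨j, rfl⟩ := Nat.exists_eq_add_of_lt d4
  set k := D + j + 1 with hk
  have t1 : 2 * (k + 1) ^ 2 ≤ k * (2 * D + 1) ^ 2 := by
    have u1 : k ≤ D ^ 2 + 3 * D := by nlinarith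
    have u2 : 2 * k + 5 ≤ (2 * D + 1) ^ 2 := by nlinarith
    have u3 := Nat.mul_le_mul_left k u2
    nlinarith
  have t2 : 2 * (k * (k + 1)) ≤ n * (2 * D + 1) := by
    apply le_of_sq_le_sq_nat
    have u1 := Nat.mul_le_mul_right ((2 * D + 1) ^ 2) hp
    have u2 := Nat.mul_le_mul_left (2 * k ^ 2) t1
    nlinarith
  have a := Nat.mul_div_le n (2 * (j + 1))
  have b := Nat.lt_mul_div_succ n (by omega : 0 < 2 * (j + 1))
  generalize n / (2 * (j + 1)) = R at a b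
  have t3 : j + 1 < (2 * D + 1) * R := by
    have u1 : n * (2 * D + 1) < 2 * (j + 1) * (R + 1) * (2 * D + 1) :=
      Nat.mul_lt_mul_of_pos_right b (by omega)
    have u2 : 2 * (j + 1) * (k + D + 1) ≤ 2 * (k * (k + 1)) := by rw [hk]; nlinarith
    have u3 : 2 * (j + 1) * (k + D + 1) < 2 * (j + 1) * ((R + 1) * (2 * D + 1)) := by nlinarith
    have u4 := Nat.lt_of_mul_lt_mul_left u3
    nlinarith
  have r1 : 1 ≤ R := by
    rcases Nat.eq_zero_or_pos R with z | z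
    · rw [z] at t3; omega
    · exact z
  refine blk_window n k m R D h r1 d2 ?_ ?_
  · have : j + 1 ≤ n / 2 / R := by
      rw [Nat.le_div_iff_mul_le r1, Nat.le_div_iff_mul_le (by omega)]
      nlinarith
    omega
  · apply Nat.le_of_lt_succ
    rw [Nat.div_lt_iff_lt_mul r1, Nat.div_lt_iff_lt_mul (by omega)]
    nlinarith

variable {V : Type*} [Fintype V] [DecidableEq V]

/-- A line meeting the largest number of edges, with the two bounds. -/
theorem best_line (p : V → ℝ × ℝ) (hinj : Function.Injective p)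
    (hgp : ∀ a b c, a ≠ b → a ≠ c → b ≠ c → ¬ Collinear ℝ ({p a, p b, p c} : Set (ℝ × ℝ)))
    (G : SimpleGraph V) [DecidableRel G.Adj] :
    ∃ α β γ : ℝ, (α ≠ 0 ∨ β ≠ 0) ∧ (∀ v, α * (p v).1 + β * (p v).2 ≠ γ) ∧
      ∃ x y : V → ℝ, Small G x y (Set.ncard {e ∈ G.edgeSet | ∃ u v, e = s(u, v) ∧
          ∃ x ∈ segment ℝ (p u) (p v), α * x.1 + β * x.2 = γ}) := by
  classical
  set F : ℝ × ℝ × ℝ → ℕ := fun z => Set.ncard {e ∈ G.edgeSet | ∃ u v, e = s(u, v) ∧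
          ∃ x ∈ segment ℝ (p u) (p v), z.1 * x.1 + z.2.1 * x.2 = z.2.2} with hF
  set S : Set (ℝ × ℝ × ℝ) := {z | (z.1 ≠ 0 ∨ z.2.1 ≠ 0) ∧
    ∀ v, z.1 * (p v).1 + z.2.1 * (p v).2 ≠ z.2.2} with hS
  have ne : S.Nonempty := by
    obtain ⟨γ, g1, _⟩ := sep_cut p G 1 0 ∅ (by simp)
    exact ⟨(1, 0, γ), Or.inl one_ne_zero, g1⟩
  have fin : (F '' S).Finite := by
    refine (Set.finite_le_nat G.edgeSet.ncard).subset ?_
    rintro _ ⟨z, _, rfl⟩
    exact Set.ncard_le_ncard (fun e he => he.1) (Set.toFinite _)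
  obtain ⟨_, ⟨z, hz, rfl⟩, hmax⟩ := fin.exists_maximal (ne.image F)
  refine ⟨z.1, z.2.1, z.2.2, hz.1, hz.2, small_of_lines p hinj hgp G _ ?_⟩
  intro α β γ h1 h2
  by_contra hc
  push Not at hc
  have := hmax (y := F (α, β, γ)) ⟨(α, β, γ), ⟨h1, h2⟩, rfl⟩ hc.le
  exact absurd this (not_le.mpr hc)

lemma blk_of_small (G : SimpleGraph V) [DecidableRel G.Adj] {x y : V → ℝ} {m : ℕ}
    (h : Small G x y m) (k : ℕ) (hE : Fintype.card V * k < G.edgeFinset.card) :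
    2 * k + 2 ≤ Fintype.card V ∧ Blk (Fintype.card V) k m := by
  have c1 := G.card_edgeFinset_le_card_choose_two
  rw [Nat.choose_two_right] at c1
  have c2 : 2 * k + 2 ≤ Fintype.card V := by
    by_contra c
    have : Fintype.card V * (Fintype.card V - 1) ≤ Fintype.card V * (2 * k) :=
      Nat.mul_le_mul_left _ (by omega)
    have e : Fintype.card V * (2 * k) = 2 * (Fintype.card V * k) := by ring
    omega
  refine ⟨c2, fun R hR => ?_⟩
  obtain ⟨r, rfl⟩ := Nat.exists_eq_add_of_le' hR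
  obtain ⟨b1, b2⟩ := blk_range (Fintype.card V) (r + 1) hR
  have := block_bound G h _ r (by omega) b1 b2
  omega

end Pool.Agent.H98.Cut
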