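import Pool.Agent.H98.Cut9

namespace Pool.Agent.H98.Cut

open Finset

/-- Pairs at cyclic distance at most k, and some pairs at cyclic distance k+1. -/
def cond2 (n k q i j : ℕ) : Prop := i < j ∧ (j ≤ i + k ∨ i + n ≤ j + k ∨
  (j = i + (k + 1) ∧ i % (k + 1) < q) ∨ (i + n = j + (k + 1) ∧ j % (k + 1) < q))

def circ2 (n k q : ℕ) : SimpleGraph (Fin n) := SimpleGraph.fromRel fun i j => cond2 n k q i j

def dpairs (n k q : ℕ) : Set (Fin n × Fin n) := {x | cond2 n k q x.1 x.2}

lemma dedge_iff (n k q : ℕ) (e : Sym2 (Fin n)) :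
    e ∈ (circ2 n k q).edgeSet ↔ ∃ x ∈ dpairs n k q, e = s(x.1, x.2) := by
  induction e using Sym2.ind with
  | h u v =>
    rw [SimpleGraph.mem_edgeSet, circ2, SimpleGraph.fromRel_adj]
    constructor
    · rintro ⟨_, h | h⟩
      · exact ⟨(u, v), h, rfl⟩
      · exact ⟨(v, u), h, Sym2.eq_swap⟩
    · rintro ⟨x, hx, e⟩
      have hlt : (x.1 : ℕ) < x.2 := hx.1
      rcases Sym2.eq_iff.mp e with ⟨rfl, rfl⟩ | ⟨rfl, rfl⟩
      · exact ⟨fun e => by rw [e] at hlt; omega, Or.inl hx⟩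
      · exact ⟨fun e => by rw [e] at hlt; omega, Or.inr hx⟩

lemma mod_close {a b m : ℕ} (h : a % m = b % m) (h1 : a < b + m) (h2 : b < a + m) : a = b := by
  rcases le_total a b with l | l
  · have := Nat.eq_zero_of_dvd_of_lt ((Nat.modEq_iff_dvd' l).mp h) (by omega)
    omega
  · have := Nat.eq_zero_of_dvd_of_lt ((Nat.modEq_iff_dvd' l).mp h.symm) (by omega)
    omega

/-- Extra arcs of length k+1 passing over the gap just before position c. -/
lemma extra_card (n k q c : ℕ) (hd : (k + 1) ∣ n) :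
    Set.ncard {x : Fin n × Fin n |
      ((x.2 : ℕ) = x.1 + (k + 1) ∧ (x.1 : ℕ) % (k + 1) < q ∧ (x.1 : ℕ) < c ∧ c ≤ x.2) ∨
      (¬ (x.2 : ℕ) = x.1 + (k + 1) ∧ (x.1 : ℕ) + n = x.2 + (k + 1) ∧ (x.2 : ℕ) % (k + 1) < q ∧
        (c ≤ x.1 ∨ ((x.2 : ℕ) < c ∧ c ≤ n)))} ≤ q := by
  classical
  have hm : ∀ a, (a + n) % (k + 1) = a % (k + 1) := fun a => by
    obtain ⟨z, rfl⟩ := hd
    exact Nat.add_mul_mod_self_left a (k + 1) z
  conv_rhs => rw [← card_range q, ← Set.ncard_coe_finset]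
  refine Set.ncard_le_ncard_of_injOn (fun x => if (x.2 : ℕ) = x.1 + (k + 1)
    then (x.1 : ℕ) % (k + 1) else (x.2 : ℕ) % (k + 1)) ?_ ?_ (Set.toFinite _)
  · rintro x (h | h)
    · simp only [if_pos h.1, coe_range, Set.mem_Iio]; exact h.2.1
    · simp only [if_neg h.1, coe_range, Set.mem_Iio]; exact h.2.2.1
  · rintro x hx y hy e
    have x2 := x.2.2
    have y2 := y.2.2
    rcases hx with hx | hx <;> rcases hy with hy | hy
    · simp only [if_pos hx.1, if_pos hy.1] at e
      have := mod_close e (by omega) (by omega)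
      exact Prod.ext (Fin.ext (by omega)) (Fin.ext (by omega))
    · simp only [if_pos hx.1, if_neg hy.1] at e
      rcases hy.2.2.2 with l | l
      · rw [← hm] at e
        have := mod_close e (by omega) (by omega)
        omega
      · have := mod_close e (by omega) (by omega)
        omega
    · simp only [if_neg hx.1, if_pos hy.1] at e
      rcases hx.2.2.2 with l | l
      · rw [← hm (y.1 : ℕ)] at e
        have := mod_close e (by omega) (by omega)
        omega
      · have := mod_close e (by omega) (by omega)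
        omega
    · simp only [if_neg hx.1, if_neg hy.1] at e
      have := mod_close e (by omega) (by omega)
      exact Prod.ext (Fin.ext (by omega)) (Fin.ext (by omega))

lemma dinterval_cut (n k q : ℕ) (hd : (k + 1) ∣ n) (g : ℕ → ℝ)
    (hg : ∀ a b c : ℕ, a ≤ b → b ≤ c → g a < 0 → g c < 0 → g b < 0) :
    Set.ncard {x ∈ dpairs n k q | ¬ (g x.1 < 0 ↔ g x.2 < 0)} ≤ k ^ 2 + k + 2 * q := by
  classical
  by_cases hne : ((range n).filter fun i => g i < 0).Nonempty
  · set l := ((range n).filter fun i => g i < 0).min' hne with hl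
    set r := ((range n).filter fun i => g i < 0).max' hne with hr
    have l0 : g l < 0 := (mem_filter.mp (min'_mem _ hne)).2
    have r0 : g r < 0 := (mem_filter.mp (max'_mem _ hne)).2
    have rn : r < n := mem_range.mp (mem_filter.mp (max'_mem _ hne)).1
    have l1 : ∀ i : Fin n, g i < 0 → l ≤ i := fun i hi =>
      min'_le _ _ (mem_filter.mpr ⟨mem_range.mpr i.2, hi⟩)
    have r1 : ∀ i : Fin n, g i < 0 → (i : ℕ) ≤ r := fun i hi =>
      le_max' _ _ (mem_filter.mpr ⟨mem_range.mpr i.2, hi⟩)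
    have h0 := cinterval_cut n k g hg
    have h1 := extra_card n k q l hd
    have h2 := extra_card n k q (r + 1) hd
    refine le_trans (Set.ncard_le_ncard ?_ (Set.toFinite _))
      (le_trans (Set.ncard_union_le _ _) (le_trans (add_le_add h0
        (le_trans (Set.ncard_union_le _ _) (add_le_add h1 h2))) (by omega)))
    rintro x ⟨⟨hlt, hx⟩, h⟩
    rcases hx with hx | hx | hx
    · exact Or.inl ⟨⟨hlt, Or.inl hx⟩, h⟩
    · exact Or.inl ⟨⟨hlt, Or.inr hx⟩, h⟩
    right
    have key : (l ≤ x.1 ∧ (x.1 : ℕ) ≤ r ∧ r < x.2) ∨ ((x.1 : ℕ) < l ∧ l ≤ x.2 ∧ (x.2 : ℕ) ≤ r) := by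
      by_cases c : g x.1 < 0
      · have c2 : ¬ g x.2 < 0 := fun c2 => h ⟨fun _ => c2, fun _ => c⟩
        refine Or.inl ⟨l1 _ c, r1 _ c, ?_⟩
        by_contra c3
        exact c2 (hg x.1 x.2 r hlt.le (by omega) c r0)
      · have c2 : g x.2 < 0 := by
          by_contra c2
          exact h ⟨fun a => absurd a c, fun a => absurd a c2⟩
        refine Or.inr ⟨?_, l1 _ c2, r1 _ c2⟩
        by_contra c3
        exact c (hg l x.1 x.2 (by omega) hlt.le l0 c2)
    by_cases s : (x.2 : ℕ) = x.1 + (k + 1) ∧ (x.1 : ℕ) % (k + 1) < q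
    · rcases key with k1 | k1
      · exact Or.inr (Or.inl ⟨s.1, s.2, by omega, by omega⟩)
      · exact Or.inl (Or.inl ⟨s.1, s.2, by omega, by omega⟩)
    · have hx' := hx.resolve_left s
      have s2 : ¬ (x.2 : ℕ) = x.1 + (k + 1) := by
        intro e
        apply s
        refine ⟨e, ?_⟩
        have := hx'.2
        rwa [e, Nat.add_mod_right] at this
      rcases key with k1 | k1
      · exact Or.inl (Or.inr ⟨s2, hx'.1, hx'.2, Or.inl k1.1⟩)
      · exact Or.inr (Or.inr ⟨s2, hx'.1, hx'.2, Or.inr ⟨by omega, by omega⟩⟩)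
  · have : {x ∈ dpairs n k q | ¬ (g x.1 < 0 ↔ g x.2 < 0)} = ∅ := by
      ext x
      simp only [Set.mem_setOf_eq, Set.mem_empty_iff_false, iff_false, not_and, not_not]
      intro _
      have a : ∀ i : Fin n, ¬ g i < 0 := fun i hi =>
        hne ⟨i, mem_filter.mpr ⟨mem_range.mpr i.2, hi⟩⟩
      exact ⟨fun h => absurd h (a _), fun h => absurd h (a _)⟩
    rw [this]; simp

lemma dline_cut_aux (n k q : ℕ) (hd : (k + 1) ∣ n) (α β γ : ℝ) (hβ : 0 ≤ β)
    (hv : ∀ v, α * (par n v).1 + β * (par n v).2 ≠ γ) :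
    Set.ncard {e ∈ (circ2 n k q).edgeSet | ∃ u v, e = s(u, v) ∧
        ∃ x ∈ segment ℝ (par n u) (par n v), α * x.1 + β * x.2 = γ} ≤ k ^ 2 + k + 2 * q := by
  refine le_trans ?_ (dinterval_cut n k q hd (fun i => α * i + β * (i : ℝ) ^ 2 - γ)
    (fun a b c h1 h2 ha hc => conv_quad α β γ hβ a b c h1 h2 ha hc))
  refine le_trans (Set.ncard_le_ncard ?_ (Set.toFinite _))
    (Set.ncard_image_le (f := fun x : Fin n × Fin n => s(x.1, x.2)) (Set.toFinite _))
  rintro e ⟨he, u, v, rfl, x, ⟨s, t, hs, ht, hst, rfl⟩, hx⟩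
  obtain ⟨y, hy, e⟩ := (dedge_iff n k q _).mp he
  refine ⟨y, ⟨hy, ?_⟩, e.symm⟩
  have hu := hv u
  have hw := hv v
  simp only [par, Prod.fst_add, Prod.snd_add, Prod.smul_fst, Prod.smul_snd, smul_eq_mul]
    at hx hu hw
  have key : ¬ (α * ((u : ℕ) : ℝ) + β * ((u : ℕ) : ℝ) ^ 2 - γ < 0 ↔
      α * ((v : ℕ) : ℝ) + β * ((v : ℕ) : ℝ) ^ 2 - γ < 0) := by
    intro h
    set A := α * ((u : ℕ) : ℝ) + β * ((u : ℕ) : ℝ) ^ 2 - γ with hA
    set C := α * ((v : ℕ) : ℝ) + β * ((v : ℕ) : ℝ) ^ 2 - γ with hC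
    have z : s * A + t * C = 0 := by
      rw [hA, hC]; linear_combination hx - γ * hst
    have a0 : A ≠ 0 := fun e => hu (by linarith)
    have c0 : C ≠ 0 := fun e => hw (by linarith)
    by_cases c : A < 0
    · have c2 := h.mp c
      have m1 : max A C < 0 := max_lt c c2
      nlinarith [le_max_left A C, le_max_right A C]
    · have c2 : ¬ C < 0 := fun c2 => c (h.mpr c2)
      have m1 : 0 < min A C := lt_min (lt_of_le_of_ne (not_lt.mp c) a0.symm)
        (lt_of_le_of_ne (not_lt.mp c2) c0.symm)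
      nlinarith [min_le_left A C, min_le_right A C]
  rcases Sym2.eq_iff.mp e with ⟨e1, e2⟩ | ⟨e1, e2⟩
  · rw [← e1, ← e2]; exact key
  · rw [← e1, ← e2]; exact fun h => key h.symm

lemma dline_cut (n k q : ℕ) (hd : (k + 1) ∣ n) (α β γ : ℝ)
    (hv : ∀ v, α * (par n v).1 + β * (par n v).2 ≠ γ) :
    Set.ncard {e ∈ (circ2 n k q).edgeSet | ∃ u v, e = s(u, v) ∧
        ∃ x ∈ segment ℝ (par n u) (par n v), α * x.1 + β * x.2 = γ} ≤ k ^ 2 + k + 2 * q := by
  rcases le_total 0 β with h | h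
  · exact dline_cut_aux n k q hd α β γ h hv
  · have := dline_cut_aux n k q hd (-α) (-β) (-γ) (by linarith) (fun v e => hv v (by linarith))
    refine le_trans (le_of_eq ?_) this
    congr 1
    ext e
    simp only [Set.mem_setOf_eq]
    refine and_congr_right fun _ => exists_congr fun u => exists_congr fun v =>
      and_congr_right fun _ => exists_congr fun x => and_congr_right fun _ => ?_
    constructor <;> intro h <;> linarith

lemma dedge_count (n k q z : ℕ) (hz : n = (k + 1) * z) (h3 : 3 ≤ z) (hq : q ≤ k + 1) :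
    n * k + z * q ≤ (circ2 n k q).edgeSet.ncard := by
  classical
  have hn : 3 * (k + 1) ≤ n := by rw [hz, mul_comm]; exact Nat.mul_le_mul_left _ h3
  have h1 : (dpairs n k q).ncard ≤ (circ2 n k q).edgeSet.ncard := by
    refine Set.ncard_le_ncard_of_injOn (fun x => s(x.1, x.2))
      (fun x hx => (dedge_iff n k q _).mpr ⟨x, hx, rfl⟩) ?_ (Set.toFinite _)
    intro x hx y hy e
    have a : (x.1 : ℕ) < x.2 := hx.1
    have b : (y.1 : ℕ) < y.2 := hy.1
    rcases Sym2.eq_iff.mp e with ⟨e1, e2⟩ | ⟨e1, e2⟩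
    · exact Prod.ext e1 e2
    · rw [e1, e2] at a; omega
  refine le_trans ?_ h1
  set S : Finset (ℕ × ℕ) := (range n ×ˢ range k) ∪
    ((range z ×ˢ range q).image fun x => ((k + 1) * x.1 + x.2, k)) with hS
  have cS : S.card = n * k + z * q := by
    rw [hS, card_union_of_disjoint, card_image_of_injOn, card_product, card_product]
    · simp
    · intro x hx y hy e
      simp only [coe_product, coe_range, Set.mem_prod, Set.mem_Iio] at hx hy
      simp only [Prod.mk.injEq] at e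
      have e1 := e.1
      have m1 : ((k + 1) * x.1 + x.2) % (k + 1) = x.2 := by
        rw [Nat.mul_add_mod]; exact Nat.mod_eq_of_lt (by omega)
      have m2 : ((k + 1) * y.1 + y.2) % (k + 1) = y.2 := by
        rw [Nat.mul_add_mod]; exact Nat.mod_eq_of_lt (by omega)
      have e2 : x.2 = y.2 := by rw [← m1, ← m2, e1]
      rw [e2] at e1
      exact Prod.ext (Nat.eq_of_mul_eq_mul_left (by omega : 0 < k + 1) (by omega)) e2
    · rw [disjoint_left]
      intro w hw hw'
      simp only [mem_image, mem_product, mem_range] at hw hw'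
      obtain ⟨y, _, rfl⟩ := hw'
      exact lt_irrefl _ hw.2
  have mS : ∀ x ∈ S, x.1 < n ∧ (x.2 < k ∨ (x.2 = k ∧ x.1 % (k + 1) < q)) := by
    intro x hx
    simp only [hS, mem_union, mem_image, mem_product, mem_range] at hx
    rcases hx with hx | ⟨y, ⟨y1, y2⟩, rfl⟩
    · exact ⟨hx.1, Or.inl hx.2⟩
    · have b1 : (k + 1) * (y.1 + 1) ≤ (k + 1) * z := Nat.mul_le_mul_left _ (by omega)
      have b2 : (k + 1) * (y.1 + 1) = (k + 1) * y.1 + (k + 1) := by ring
      refine ⟨by show (k + 1) * y.1 + y.2 < n; omega, Or.inr ⟨rfl, ?_⟩⟩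
      show ((k + 1) * y.1 + y.2) % (k + 1) < q
      rw [Nat.mul_add_mod, Nat.mod_eq_of_lt (by omega)]; exact y2
  set A : Finset (ℕ × ℕ) := S.image fun x =>
    if x.1 + x.2 + 1 < n then (x.1, x.1 + x.2 + 1) else (x.1 + x.2 + 1 - n, x.1) with hA
  have cA : A.card = S.card := by
    rw [hA, card_image_of_injOn]
    intro x hx y hy e
    have := mS x hx
    have := mS y hy
    simp only at e
    split_ifs at e with s1 s2 s2 <;> simp only [Prod.mk.injEq] at e <;>
      exact Prod.ext (by omega) (by omega)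
  rw [← cS, ← cA, ← Set.ncard_coe_finset]
  refine le_trans (Set.ncard_le_ncard ?_ (Set.toFinite _))
    (Set.ncard_image_le (f := fun x : Fin n × Fin n => ((x.1 : ℕ), (x.2 : ℕ))) (Set.toFinite _))
  intro w hw
  simp only [hA, mem_coe, mem_image] at hw
  obtain ⟨x, hx, rfl⟩ := hw
  obtain ⟨h1, h2⟩ := mS x hx
  split_ifs with s
  · refine ⟨(⟨x.1, by omega⟩, ⟨x.1 + x.2 + 1, by omega⟩), ?_, rfl⟩
    show cond2 n k q x.1 (x.1 + x.2 + 1)
    unfold cond2
    omega
  · refine ⟨(⟨x.1 + x.2 + 1 - n, by omega⟩, ⟨x.1, by omega⟩), ?_, rfl⟩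
    show cond2 n k q (x.1 + x.2 + 1 - n) x.1
    unfold cond2
    omega

end Pool.Agent.H98.Cut
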