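import Pool.Agent.H98.Cut1

namespace Pool.Agent.H98.Cut

open Finset

variable {V : Type*} [Fintype V] [DecidableEq V]

/-- Number of edges cut by the directed line a b pushed slightly to its right. -/
noncomputable def cut (o : V → V → V → ℝ) (G : SimpleGraph V) [DecidableRel G.Adj] (a b : V) : ℝ :=
  ∑ u, ∑ v ∈ G.neighborFinset u, ind o a b u v

lemma total_bound {o : V → V → V → ℝ} (h : Ori o) (G : SimpleGraph V) [DecidableRel G.Adj]
    (k : ℕ) (h1 : 4 * k + 1 ≤ Fintype.card V) (h2 : k ^ 2 + 4 ≤ Fintype.card V + k)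
    (hE : Fintype.card V * k < G.edgeFinset.card) :
    ∃ a b, a ≠ b ∧ (k : ℝ) ^ 2 - 1 < cut o G a b := by
  by_contra hcon
  push Not at hcon
  set N : ℝ := (Fintype.card V : ℝ) - 1 with hN
  have h1' : 4 * (k:ℝ) ≤ N := by
    have : ((4 * k + 1 : ℕ) : ℝ) ≤ Fintype.card V := by exact_mod_cast h1
    push_cast at this; linarith
  have h2' : (k:ℝ) ^ 2 - k + 3 ≤ N := by
    have : ((k ^ 2 + 4 : ℕ) : ℝ) ≤ ((Fintype.card V + k : ℕ) : ℝ) := by exact_mod_cast h2
    push_cast at this; linarith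
  have hk : (0:ℝ) ≤ k := Nat.cast_nonneg k
  have hkk : (0:ℝ) ≤ (k:ℝ) ^ 2 - k := by
    rcases Nat.eq_zero_or_pos k with e | e
    · simp [e]
    · have : (1:ℝ) ≤ k := by exact_mod_cast e
      nlinarith
  have hN3 : 3 ≤ N := by linarith
  -- upper bound
  have diag : ∀ a, cut o G a a = 0 := by
    intro a
    refine sum_eq_zero fun u _ => sum_eq_zero fun v _ => ?_
    have z0 : o a a v = 0 := by have := h.anti a a v; linarith
    unfold ind
    rw [if_neg]
    rw [z0]; simp
  have up : ∑ a, ∑ b, cut o G a b ≤ (N + 1) * (N * ((k:ℝ) ^ 2 - 1)) := by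
    have : ∀ a, ∑ b, cut o G a b ≤ N * ((k:ℝ) ^ 2 - 1) := by
      intro a
      rw [← add_sum_erase univ _ (mem_univ a), diag a, zero_add]
      have c1 : ∑ b ∈ univ.erase a, cut o G a b ≤ ∑ b ∈ univ.erase a, ((k:ℝ) ^ 2 - 1) :=
        sum_le_sum fun b hb => hcon a b (ne_of_mem_erase hb).symm
      rw [sum_const, nsmul_eq_mul, card_erase_of_mem (mem_univ a), card_univ,
        Nat.cast_sub (by omega)] at c1
      simpa [hN] using c1
    have c2 := sum_le_sum fun a (_ : a ∈ (univ : Finset V)) => this a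
    rw [sum_const, nsmul_eq_mul, card_univ] at c2
    have : (Fintype.card V : ℝ) = N + 1 := by rw [hN]; ring
    rwa [this] at c2
  -- lower bound
  have sw : ∑ a, ∑ b, cut o G a b
      = ∑ u, ∑ a, ∑ b, ∑ v ∈ G.neighborFinset u, ind o a b u v := by
    unfold cut
    rw [sum_congr rfl fun a _ => sum_comm, sum_comm]
  have vb : ∀ u, (8 * N * ((k:ℝ) ^ 2 + k) - 8 * k ^ 3 - 10 * k)
      + (-12 * (k:ℝ) ^ 2 + 8 * N * k + 4 * N - 5) * ((G.degree u : ℝ) - 2 * k)
      ≤ 8 * ∑ a, ∑ b, ∑ v ∈ G.neighborFinset u, ind o a b u v := by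
    intro u
    have b1 := vertex_bound h u (G.neighborFinset u) (by simp)
    rw [G.card_neighborFinset_eq_degree] at b1
    have hd : (G.degree u : ℝ) ≤ N := by
      have := G.degree_lt_card_verts u
      have : ((G.degree u + 1 : ℕ) : ℝ) ≤ Fintype.card V := by exact_mod_cast this
      push_cast at this; linarith
    have b2 : 0 ≤ ((G.degree u : ℝ) - 2 * k) ^ 2 * (2 * N - 4 * k - G.degree u) :=
      mul_nonneg (sq_nonneg _) (by linarith)
    rw [← hN] at b1
    nlinarith [b1, b2]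
  have sd : ∑ u, (G.degree u : ℝ) = 2 * G.edgeFinset.card := by
    exact_mod_cast G.sum_degrees_eq_twice_card_edges
  have hE' : (N + 1) * k ≤ G.edgeFinset.card := by
    have : ((Fintype.card V * k : ℕ) : ℝ) ≤ G.edgeFinset.card := by exact_mod_cast hE.le
    push_cast at this
    have e : (Fintype.card V : ℝ) = N + 1 := by rw [hN]; ring
    rwa [e] at this
  have lo := sum_le_sum fun u (_ : u ∈ (univ : Finset V)) => vb u
  rw [← mul_sum, ← sw, sum_add_distrib, ← mul_sum, sum_const, sum_sub_distrib, sd] at lo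
  simp only [sum_const, card_univ, nsmul_eq_mul] at lo
  have e : (Fintype.card V : ℝ) = N + 1 := by rw [hN]; ring
  rw [e] at lo
  have sl : 0 ≤ -12 * (k:ℝ) ^ 2 + 8 * N * k + 4 * N - 5 := by nlinarith
  have t1 : 0 ≤ (-12 * (k:ℝ) ^ 2 + 8 * N * k + 4 * N - 5)
      * (2 * (G.edgeFinset.card : ℝ) - (N + 1) * (2 * k)) := mul_nonneg sl (by linarith)
  have t2 : 8 * (k:ℝ) ^ 3 + 10 * k < 8 * N * (k + 1) := by nlinarith
  have t3 : (N + 1) * (8 * (k:ℝ) ^ 3 + 10 * k) < (N + 1) * (8 * N * (k + 1)) :=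
    mul_lt_mul_of_pos_left t2 (by linarith)
  nlinarith [lo, up, t1, t3]

/-- Orientation determinant of three points of the plane. -/
def det3 (a b x : ℝ × ℝ) : ℝ := (b.1 - a.1) * (x.2 - a.2) - (b.2 - a.2) * (x.1 - a.1)

lemma collinear_of_det3 (a b x : ℝ × ℝ) (hab : a ≠ b) (h : det3 a b x = 0) :
    Collinear ℝ ({a, b, x} : Set (ℝ × ℝ)) := by
  have hpos : 0 < (b.1 - a.1) ^ 2 + (b.2 - a.2) ^ 2 := by
    by_contra hc
    push Not at hc
    have e1 : b.1 - a.1 = 0 := by nlinarith [sq_nonneg (b.1 - a.1), sq_nonneg (b.2 - a.2)]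
    have e2 : b.2 - a.2 = 0 := by nlinarith [sq_nonneg (b.1 - a.1), sq_nonneg (b.2 - a.2)]
    exact hab (Prod.ext (by linarith) (by linarith))
  rw [collinear_iff_of_mem (p₀ := a) (by simp)]
  refine ⟨b - a, ?_⟩
  intro q hq
  simp only [Set.mem_insert_iff, Set.mem_singleton_iff] at hq
  rcases hq with rfl | rfl | rfl
  · exact ⟨0, by simp⟩
  · exact ⟨1, by simp⟩
  · refine ⟨((q.1 - a.1) * (b.1 - a.1) + (q.2 - a.2) * (b.2 - a.2)) /
      ((b.1 - a.1) ^ 2 + (b.2 - a.2) ^ 2), ?_⟩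
    unfold det3 at h
    apply Prod.ext
    · simp only [vadd_eq_add, Prod.fst_add, Prod.smul_fst, Prod.fst_sub, smul_eq_mul]
      field_simp
      linear_combination (-(b.2 - a.2)) * h
    · simp only [vadd_eq_add, Prod.snd_add, Prod.smul_snd, Prod.snd_sub, smul_eq_mul]
      field_simp
      linear_combination (b.1 - a.1) * h

lemma ori_of_gp (p : V → ℝ × ℝ) (hinj : Function.Injective p)
    (hgp : ∀ a b c, a ≠ b → a ≠ c → b ≠ c → ¬ Collinear ℝ ({p a, p b, p c} : Set (ℝ × ℝ))) :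
    Ori (fun a b x => det3 (p a) (p b) (p x)) := by
  refine ⟨fun a b x => ?_, fun a b x => ?_, fun a b x h1 h2 h3 h => ?_⟩
  · unfold det3; ring
  · unfold det3; ring
  · exact hgp a b x h1 h2 h3 (collinear_of_det3 _ _ _ (fun e => h1 (hinj e)) h)

lemma exists_eps (f : V → ℝ) : ∃ ε : ℝ, 0 < ε ∧ ∀ v, f v < 0 → f v < -ε := by
  classical
  by_cases hne : (univ.filter fun v => f v < 0).Nonempty
  · obtain ⟨w, hw, hmax⟩ := exists_max_image _ f hne
    have hw0 : f w < 0 := (mem_filter.mp hw).2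
    refine ⟨-f w / 2, by linarith, fun v hv => ?_⟩
    have := hmax v (mem_filter.mpr ⟨mem_univ _, hv⟩)
    linarith
  · exact ⟨1, one_pos, fun v hv => absurd ⟨v, mem_filter.mpr ⟨mem_univ _, hv⟩⟩ hne⟩

theorem main (p : V → ℝ × ℝ) (hinj : Function.Injective p)
    (hgp : ∀ a b c, a ≠ b → a ≠ c → b ≠ c → ¬ Collinear ℝ ({p a, p b, p c} : Set (ℝ × ℝ)))
    (G : SimpleGraph V) [DecidableRel G.Adj] (a b : V) (hab : a ≠ b) :
    ∃ α β γ : ℝ, (α ≠ 0 ∨ β ≠ 0) ∧ (∀ v, α * (p v).1 + β * (p v).2 ≠ γ) ∧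
      cut (fun a b x => det3 (p a) (p b) (p x)) G a b ≤
        (Set.ncard {e ∈ G.edgeSet | ∃ u v, e = s(u, v) ∧
          ∃ x ∈ segment ℝ (p u) (p v), α * x.1 + β * x.2 = γ} : ℝ) := by
  classical
  obtain ⟨ε, hε, hf⟩ := exists_eps (fun v => det3 (p a) (p b) (p v))
  set α : ℝ := -((p b).2 - (p a).2) with hα
  set β : ℝ := (p b).1 - (p a).1 with hβ
  set γ : ℝ := α * (p a).1 + β * (p a).2 - ε with hγ
  have hlin : ∀ x : ℝ × ℝ, α * x.1 + β * x.2 - γ = det3 (p a) (p b) x + ε := by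
    intro x; rw [hγ, hα, hβ]; unfold det3; ring
  refine ⟨α, β, γ, ?_, ?_, ?_⟩
  · by_contra hc
    push Not at hc
    exact hab (hinj (Prod.ext (by linarith [hc.2]) (by linarith [hc.1])))
  · intro v hv
    have e := hlin (p v)
    by_cases c : det3 (p a) (p b) (p v) < 0
    · have := hf v c
      linarith
    · push Not at c
      linarith
  · set P : Finset (V × V) := univ.filter fun q => G.Adj q.1 q.2 ∧
      0 ≤ det3 (p a) (p b) (p q.1) ∧ det3 (p a) (p b) (p q.2) < 0 with hP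
    have c1 : cut (fun a b x => det3 (p a) (p b) (p x)) G a b = P.card := by
      unfold cut ind
      rw [hP, card_filter, Nat.cast_sum, Fintype.sum_prod_type]
      refine sum_congr rfl fun u _ => ?_
      rw [SimpleGraph.neighborFinset_eq_filter, sum_filter]
      refine sum_congr rfl fun v _ => ?_
      by_cases c : G.Adj u v <;> simp [c]
    rw [c1]
    have c2 : P.card = (P.image fun q => s(q.1, q.2)).card := by
      symm
      apply card_image_of_injOn
      intro q hq r hr e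
      have hq' := (mem_filter.mp hq).2
      have hr' := (mem_filter.mp hr).2
      rcases Sym2.eq_iff.mp e with ⟨e1, e2⟩ | ⟨e1, e2⟩
      · exact Prod.ext e1 e2
      · exfalso
        have := hq'.2.1
        rw [e1] at this
        linarith [hr'.2.2]
    rw [c2, ← Set.ncard_coe_finset]
    refine Nat.cast_le.mpr (Set.ncard_le_ncard (fun e he => ?_) (Set.toFinite _))
    · obtain ⟨q, hq, rfl⟩ := mem_image.mp (mem_coe.mp he)
      have hq' := (mem_filter.mp hq).2
      refine ⟨hq'.1, q.1, q.2, rfl, ?_⟩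
      have h1 := hq'.2.1
      have h2 := hf q.2 hq'.2.2
      set A := det3 (p a) (p b) (p q.1) with hA
      set C := det3 (p a) (p b) (p q.2) with hC
      have hpos : 0 < A - C := by linarith
      refine ⟨((-ε - C) / (A - C)) • p q.1 + ((A + ε) / (A - C)) • p q.2,
        ⟨(-ε - C) / (A - C), (A + ε) / (A - C), div_nonneg (by linarith) hpos.le,
          div_nonneg (by linarith) hpos.le, by field_simp; ring, rfl⟩, ?_⟩
      have e1 := hlin (p q.1)
      have e2 := hlin (p q.2)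
      rw [← hA] at e1
      rw [← hC] at e2
      simp only [Prod.fst_add, Prod.snd_add, Prod.smul_fst, Prod.smul_snd, smul_eq_mul]
      field_simp
      linear_combination (-ε - C) * e1 + (A + ε) * e2

end Pool.Agent.H98.Cut
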