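import Pool.Agent.H98.Cut2

namespace Pool.Agent.H98.Cut

open Finset

variable {V : Type*} [Fintype V] [DecidableEq V]

lemma average_bound {o : V → V → V → ℝ} (h : Ori o) (G : SimpleGraph V) [DecidableRel G.Adj]
    (k : ℕ) (h1 : 4 * k + 1 ≤ Fintype.card V) (h2 : 3 ≤ Fintype.card V)
    (hE : Fintype.card V * k ≤ G.edgeFinset.card) :
    ∃ a b, a ≠ b ∧ (k : ℝ) ^ 2 + k - (4 * (k : ℝ) ^ 3 + 5 * k) / (4 * ((Fintype.card V : ℝ) - 1))
      ≤ cut o G a b := by
  have hne : (univ.filter fun q : V × V => q.1 ≠ q.2).Nonempty := by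
    obtain ⟨x, y, hxy⟩ := Fintype.exists_pair_of_one_lt_card (α := V) (by omega)
    exact ⟨(x, y), mem_filter.mpr ⟨mem_univ _, hxy⟩⟩
  obtain ⟨w, hw, hmax⟩ := exists_max_image _ (fun q : V × V => cut o G q.1 q.2) hne
  refine ⟨w.1, w.2, (mem_filter.mp hw).2, ?_⟩
  set M : ℝ := cut o G w.1 w.2 with hM
  have hcon : ∀ a b, a ≠ b → cut o G a b ≤ M := fun a b hab =>
    hmax (a, b) (mem_filter.mpr ⟨mem_univ _, hab⟩)
  set N : ℝ := (Fintype.card V : ℝ) - 1 with hN
  have h1' : 4 * (k:ℝ) ≤ N := by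
    have : ((4 * k + 1 : ℕ) : ℝ) ≤ Fintype.card V := by exact_mod_cast h1
    push_cast at this; linarith
  have hN3 : 2 ≤ N := by
    have : ((3 : ℕ) : ℝ) ≤ Fintype.card V := by exact_mod_cast h2
    push_cast at this; linarith
  have hk : (0:ℝ) ≤ k := Nat.cast_nonneg k
  -- upper bound
  have diag : ∀ a, cut o G a a = 0 := by
    intro a
    refine sum_eq_zero fun u _ => sum_eq_zero fun v _ => ?_
    have z0 : o a a v = 0 := by have := h.anti a a v; linarith
    unfold ind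
    rw [if_neg]
    rw [z0]; simp
  have up : ∑ a, ∑ b, cut o G a b ≤ (N + 1) * (N * M) := by
    have : ∀ a, ∑ b, cut o G a b ≤ N * M := by
      intro a
      rw [← add_sum_erase univ _ (mem_univ a), diag a, zero_add]
      have c1 : ∑ b ∈ univ.erase a, cut o G a b ≤ ∑ b ∈ univ.erase a, M :=
        sum_le_sum fun b hb => hcon a b (ne_of_mem_erase hb).symm
      rw [sum_const, nsmul_eq_mul, card_erase_of_mem (mem_univ a), card_univ,
        Nat.cast_sub (by omega)] at c1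
      simpa [hN] using c1
    have c2 := sum_le_sum fun a (_ : a ∈ (univ : Finset V)) => this a
    rw [sum_const, nsmul_eq_mul, card_univ] at c2
    have : (Fintype.card V : ℝ) = N + 1 := by rw [hN]; ring
    rwa [this] at c2
  -- lower bound
  have sw : ∑ a, ∑ b, cut o G a b
      = ∑ u, ∑ a, ∑ b, ∑ v ∈ G.neighborFinset u, ind o a b u v := by
    unfold cut
    rw [sum_congr rfl fun a _ => sum_comm, sum_comm]
  have vb : ∀ u, (8 * N * ((k:ℝ) ^ 2 + k) - 8 * k ^ 3 - 10 * k)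
      + (-12 * (k:ℝ) ^ 2 + 8 * N * k + 4 * N - 5) * ((G.degree u : ℝ) - 2 * k)
      ≤ 8 * ∑ a, ∑ b, ∑ v ∈ G.neighborFinset u, ind o a b u v := by
    intro u
    have b1 := vertex_bound h u (G.neighborFinset u) (by simp)
    rw [G.card_neighborFinset_eq_degree] at b1
    have hd : (G.degree u : ℝ) ≤ N := by
      have := G.degree_lt_card_verts u
      have : ((G.degree u + 1 : ℕ) : ℝ) ≤ Fintype.card V := by exact_mod_cast this
      push_cast at this; linarith
    have b2 : 0 ≤ ((G.degree u : ℝ) - 2 * k) ^ 2 * (2 * N - 4 * k - G.degree u) :=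
      mul_nonneg (sq_nonneg _) (by linarith)
    rw [← hN] at b1
    nlinarith [b1, b2]
  have sd : ∑ u, (G.degree u : ℝ) = 2 * G.edgeFinset.card := by
    exact_mod_cast G.sum_degrees_eq_twice_card_edges
  have hE' : (N + 1) * k ≤ G.edgeFinset.card := by
    have : ((Fintype.card V * k : ℕ) : ℝ) ≤ G.edgeFinset.card := by exact_mod_cast hE
    push_cast at this
    have e : (Fintype.card V : ℝ) = N + 1 := by rw [hN]; ring
    rwa [e] at this
  have lo := sum_le_sum fun u (_ : u ∈ (univ : Finset V)) => vb u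
  rw [← mul_sum, ← sw, sum_add_distrib, ← mul_sum, sum_const, sum_sub_distrib, sd] at lo
  simp only [sum_const, card_univ, nsmul_eq_mul] at lo
  have e : (Fintype.card V : ℝ) = N + 1 := by rw [hN]; ring
  rw [e] at lo
  have sl : 0 ≤ -12 * (k:ℝ) ^ 2 + 8 * N * k + 4 * N - 5 := by nlinarith
  have t1 : 0 ≤ (-12 * (k:ℝ) ^ 2 + 8 * N * k + 4 * N - 5)
      * (2 * (G.edgeFinset.card : ℝ) - (N + 1) * (2 * k)) := mul_nonneg sl (by linarith)
  have t2 : (N + 1) * (8 * N * ((k:ℝ) ^ 2 + k) - 8 * k ^ 3 - 10 * k) ≤ (N + 1) * (8 * N * M) := by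
    nlinarith [lo, up, t1]
  have t3 := le_of_mul_le_mul_left t2 (by linarith)
  have t4 : (k : ℝ) ^ 2 + k - (4 * (k : ℝ) ^ 3 + 5 * k) / (4 * N)
      = (8 * N * ((k:ℝ) ^ 2 + k) - 8 * k ^ 3 - 10 * k) / (8 * N) := by
    field_simp
    ring
  rw [t4, div_le_iff₀ (by linarith)]
  linarith

end Pool.Agent.H98.Cut
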