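import Pool.Agent.H98.Cut2

namespace Pool.Agent.H98.Cut

open Finset

variable {V : Type*} [Fintype V] [DecidableEq V]

lemma pair_sum_par {o : V → V → V → ℝ} (h : Ori o) (u b : V) (hub : u ≠ b) (M : Finset V)
    (hu : u ∉ M) (hb : b ∉ M) :
    ((M.card : ℝ) ^ 2 - 2 * M.card + (if Odd M.card then 1 else 0)) / 4 ≤ ∑ a ∈ M, ∑ v ∈ M, ind2 o a b u v := by
  set s : V → ℝ := fun a => if 0 < o b u a then (1:ℝ) else -1 with hs
  have key : ∑ a ∈ M, ∑ v ∈ M, (1 + s a * s v) / 2 ≤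
      ∑ a ∈ M, ∑ v ∈ M, (ind2 o a b u v + ind2 o v b u a + (if a = v then 1 else 0)) := by
    refine sum_le_sum fun a ha => sum_le_sum fun v hv => ?_
    exact pair_pt h u b a v hub (fun e => hu (e ▸ ha)) (fun e => hb (e ▸ ha))
      (fun e => hu (e ▸ hv)) (fun e => hb (e ▸ hv))
  have l1 : ∑ a ∈ M, ∑ v ∈ M, (1 + s a * s v) / 2
      = ((M.card : ℝ) ^ 2 + (∑ a ∈ M, s a) ^ 2) / 2 := by
    have : (∑ a ∈ M, s a) ^ 2 = ∑ a ∈ M, ∑ v ∈ M, s a * s v := by
      rw [sq, sum_mul_sum]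
    rw [this]
    simp only [add_div, sum_add_distrib, sum_const, nsmul_eq_mul, ← sum_div]
    ring
  have l2 : ∑ a ∈ M, ∑ v ∈ M, (ind2 o a b u v + ind2 o v b u a + (if a = v then (1:ℝ) else 0))
      = 2 * (∑ a ∈ M, ∑ v ∈ M, ind2 o a b u v) + M.card := by
    simp only [sum_add_distrib]
    have c1 : ∑ a ∈ M, ∑ v ∈ M, ind2 o v b u a = ∑ a ∈ M, ∑ v ∈ M, ind2 o a b u v := sum_comm
    have c2 : ∑ a ∈ M, ∑ v ∈ M, (if a = v then (1:ℝ) else 0) = M.card := by
      rw [sum_congr rfl (fun a ha => by rw [sum_ite_eq, if_pos ha])]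
      simp
    rw [c1, c2]; ring
  rw [l1, l2] at key
  have par : (if Odd M.card then (1:ℝ) else 0) ≤ (∑ a ∈ M, s a) ^ 2 := by
    split_ifs with ho
    · have e1 : ∑ a ∈ M, s a = ((M.filter fun a => 0 < o b u a).card : ℝ)
          - ((M.filter fun a => ¬ 0 < o b u a).card : ℝ) := by
        simp only [hs]
        rw [sum_ite]
        simp
        ring
      have e2 := card_filter_add_card_filter_not (s := M) (fun a => 0 < o b u a)
      set x := (M.filter fun a => 0 < o b u a).card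
      set y := (M.filter fun a => ¬ 0 < o b u a).card
      rw [e1]
      obtain ⟨c, hc⟩ := ho
      have e3 : x + 1 ≤ y ∨ y + 1 ≤ x := by omega
      rcases e3 with e3 | e3
      · have : (x:ℝ) + 1 ≤ y := by exact_mod_cast e3
        nlinarith
      · have : (y:ℝ) + 1 ≤ x := by exact_mod_cast e3
        nlinarith
    · exact sq_nonneg _
  linarith

/-- The count attached to a vertex u with neighbourhood S. -/
lemma vertex_bound_par {o : V → V → V → ℝ} (h : Ori o) (u : V) (S : Finset V) (hu : u ∉ S) :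
    -(S.card : ℝ) ^ 3 + 2 * ((Fintype.card V : ℝ) - 1) * (S.card : ℝ) ^ 2
        + (4 * ((Fintype.card V : ℝ) - 1) - 5) * S.card
        + 2 * ((Fintype.card V : ℝ) - 1 - S.card) * (if Odd S.card then 1 else 0)
      ≤ 8 * ∑ a, ∑ b, ∑ v ∈ S, ind o a b u v := by
  set g : V → V → ℝ := fun a b => ∑ v ∈ S, ind2 o a b u v with hg
  have g0 : ∀ a b, 0 ≤ g a b := fun a b => sum_nonneg fun v _ => ind2_nonneg _ _ _ _ _
  have gs : ∀ a b, g a b = g b a := fun a b => sum_congr rfl fun v _ => ind2_comm _ _ _ _ _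
  have tot : ∑ a, ∑ b, g a b = 2 * ∑ a, ∑ b, ∑ v ∈ S, ind o a b u v := by
    simp only [hg, ind2, sum_add_distrib]
    have : ∑ a, ∑ b, ∑ v ∈ S, ind o b a u v = ∑ a, ∑ b, ∑ v ∈ S, ind o a b u v := sum_comm
    rw [this]; ring
  set B : Finset V := (insert u S)ᶜ with hB
  have huB : u ∉ B := by simp [hB]
  have hSB : ∀ b ∈ B, b ∉ S := fun b hb => by
    simp only [hB, mem_compl, mem_insert, not_or] at hb; exact hb.2
  have cB : (B.card : ℝ) = (Fintype.card V : ℝ) - 1 - S.card := by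
    have h1 : B.card = Fintype.card V - (insert u S).card := card_compl _
    have h2 : (insert u S).card = S.card + 1 := card_insert_of_notMem hu
    have h3 : (insert u S).card ≤ Fintype.card V := card_le_univ _
    rw [h1, Nat.cast_sub h3, h2]; push_cast; ring
  have split : ∀ f : V → ℝ, ∑ a, f a = f u + ∑ a ∈ S, f a + ∑ a ∈ B, f a := by
    intro f
    rw [← sum_add_sum_compl (insert u S) f, sum_insert hu]
  -- bounds for b outside the closed neighbourhood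
  have bB1 : ∀ b ∈ B, ((S.card : ℝ) ^ 2 - 2 * S.card + (if Odd S.card then 1 else 0)) / 4
      ≤ ∑ a ∈ S, g a b := fun b hb =>
    pair_sum_par h u b (fun e => huB (e ▸ hb)) S hu (hSB b hb)
  have bB2 : ∀ b ∈ B, (S.card : ℝ) ≤ g u b := by
    intro b hb
    have : ∑ v ∈ S, (1:ℝ) ≤ g u b := sum_le_sum fun v hv =>
      self_pt h u b v (fun e => huB (e ▸ hb)) (fun e => hu (e ▸ hv))
        (fun e => hSB b hb (e ▸ hv))
    simpa using this
  -- bounds for b a neighbour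
  have cE : ∀ b ∈ S, ((S.erase b).card : ℝ) = S.card - 1 := by
    intro b hb
    have h1 := card_erase_of_mem hb
    have h2 : 1 ≤ S.card := card_pos.mpr ⟨b, hb⟩
    rw [h1, Nat.cast_sub h2]; simp
  have bS1 : ∀ b ∈ S, (((S.card : ℝ) - 1) ^ 2 - 2 * (S.card - 1)) / 4 ≤ ∑ a ∈ S, g a b := by
    intro b hb
    have h1 := pair_sum h u b (fun e => hu (e ▸ hb)) (S.erase b)
      (fun e => hu (mem_of_mem_erase e)) (notMem_erase b S)
    rw [cE b hb] at h1
    refine h1.trans ?_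
    refine le_trans (sum_le_sum fun a _ => ?_)
      (sum_le_sum_of_subset_of_nonneg (erase_subset b S) fun a _ _ => g0 a b)
    exact sum_le_sum_of_subset_of_nonneg (erase_subset b S) fun v _ _ => ind2_nonneg _ _ _ _ _
  have bS2 : ∀ b ∈ S, (S.card : ℝ) - 1 ≤ g u b := by
    intro b hb
    have h1 : ∑ v ∈ S.erase b, (1:ℝ) ≤ ∑ v ∈ S.erase b, ind2 o u b u v := sum_le_sum fun v hv =>
      self_pt h u b v (fun e => hu (e ▸ hb)) (fun e => hu (e ▸ mem_of_mem_erase hv))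
        (ne_of_mem_erase hv)
    have h2 : ∑ v ∈ S.erase b, ind2 o u b u v ≤ g u b :=
      sum_le_sum_of_subset_of_nonneg (erase_subset b S) fun v _ _ => ind2_nonneg _ _ _ _ _
    rw [sum_const, nsmul_eq_mul, cE b hb] at h1
    linarith
  have col : ∀ b, ∑ a, g a b = g u b + ∑ a ∈ S, g a b + ∑ a ∈ B, g a b := fun b => split _
  have tot2 : ∑ a, ∑ b, g a b = ∑ b, ∑ a, g a b := sum_comm
  have e0 : ∑ b, ∑ a, g a b = ∑ a, g a u + ∑ b ∈ S, ∑ a, g a b + ∑ b ∈ B, ∑ a, g a b :=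
    split (fun b => ∑ a, g a b)
  have e1 : ∑ b ∈ S, g u b + ∑ b ∈ B, g u b ≤ ∑ a, g a u := by
    rw [col u]
    have c1 : ∑ a ∈ S, g a u = ∑ b ∈ S, g u b := sum_congr rfl fun a _ => gs a u
    have c2 : ∑ a ∈ B, g a u = ∑ b ∈ B, g u b := sum_congr rfl fun a _ => gs a u
    rw [c1, c2]; linarith [g0 u u]
  have e2 : ∑ b ∈ S, ∑ a, g a b
      = ∑ b ∈ S, g u b + ∑ b ∈ S, ∑ a ∈ S, g a b + ∑ b ∈ B, ∑ a ∈ S, g a b := by
    rw [sum_congr rfl fun b _ => col b]
    simp only [sum_add_distrib]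
    have c1 : ∑ b ∈ S, ∑ a ∈ B, g a b = ∑ b ∈ B, ∑ a ∈ S, g a b := by
      rw [sum_comm]
      exact sum_congr rfl fun b _ => sum_congr rfl fun a _ => gs _ _
    rw [c1]
  have e3 : ∑ b ∈ B, g u b + ∑ b ∈ B, ∑ a ∈ S, g a b ≤ ∑ b ∈ B, ∑ a, g a b := by
    rw [← sum_add_distrib]
    refine sum_le_sum fun b _ => ?_
    rw [col b]
    have : 0 ≤ ∑ a ∈ B, g a b := sum_nonneg fun a _ => g0 a b
    linarith
  have f1 : (B.card : ℝ) * (((S.card : ℝ) ^ 2 - 2 * S.card + (if Odd S.card then 1 else 0)) / 4) ≤ ∑ b ∈ B, ∑ a ∈ S, g a b := by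
    have := sum_le_sum bB1
    rwa [sum_const, nsmul_eq_mul] at this
  have f2 : (B.card : ℝ) * S.card ≤ ∑ b ∈ B, g u b := by
    have := sum_le_sum bB2
    rwa [sum_const, nsmul_eq_mul] at this
  have f3 : (S.card : ℝ) * ((((S.card : ℝ) - 1) ^ 2 - 2 * (S.card - 1)) / 4)
      ≤ ∑ b ∈ S, ∑ a ∈ S, g a b := by
    have := sum_le_sum bS1
    rwa [sum_const, nsmul_eq_mul] at this
  have f4 : (S.card : ℝ) * ((S.card : ℝ) - 1) ≤ ∑ b ∈ S, g u b := by
    have := sum_le_sum bS2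
    rwa [sum_const, nsmul_eq_mul] at this
  rw [cB] at f1 f2
  nlinarith [tot, tot2, e0, e1, e2, e3, f1, f2, f3, f4]

lemma poly_bound (k d : ℕ) (N : ℝ) (h1 : 8 * (k:ℝ) + 8 ≤ N) (hd : (d:ℝ) ≤ N) :
    8 * N * ((k:ℝ) + 1) * (d : ℝ)
      - (8 * N * ((k:ℝ) + 1) * k + (24 * ((k : ℝ) + 1) ^ 3 + 14 * (k + 1)))
    ≤ -(d : ℝ) ^ 3 + 2 * N * (d : ℝ) ^ 2 + (4 * N - 5) * d
        + 2 * (N - d) * (if Odd d then 1 else 0) := by
  have hk : (0:ℝ) ≤ k := Nat.cast_nonneg k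
  have hd0 : (0:ℝ) ≤ d := Nat.cast_nonneg d
  have hp : 0 ≤ 2 * (N - d) * (if Odd d then (1:ℝ) else 0) := by
    split_ifs <;> nlinarith
  rcases lt_trichotomy d (2 * k + 1) with c | c | c
  · have c' : (d:ℝ) ≤ 2 * k := by exact_mod_cast (by omega : d ≤ 2 * k)
    have a1 : 0 ≤ N * ((2 * k - d) * (2 * k + 2 - d)) :=
      mul_nonneg (by linarith) (mul_nonneg (by linarith) (by linarith))
    have a2 : (d:ℝ) ^ 3 ≤ (2 * k + 2) ^ 3 := pow_le_pow_left₀ hd0 (by linarith) 3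
    have a3 : 0 ≤ ((k:ℝ) + 1) ^ 3 := by positivity
    nlinarith
  · rw [if_pos (by rw [c]; exact ⟨k, rfl⟩)]
    have c' : (d:ℝ) = 2 * k + 1 := by exact_mod_cast c
    rw [c']
    have a3 : 0 ≤ (k:ℝ) ^ 3 := by positivity
    have a4 : 0 ≤ (k:ℝ) ^ 2 := by positivity
    nlinarith
  · have c' : 2 * (k:ℝ) + 2 ≤ d := by exact_mod_cast (by omega : 2 * k + 2 ≤ d)
    obtain ⟨y, hy⟩ : ∃ y : ℝ, (d:ℝ) = 2 * k + 2 + y := ⟨d - (2 * k + 2), by ring⟩
    obtain ⟨K, hK⟩ : ∃ K : ℝ, (k:ℝ) = K - 1 := ⟨k + 1, by ring⟩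
    have hy0 : 0 ≤ y := by linarith
    have hK1 : 1 ≤ K := by linarith
    have a1 : 0 ≤ (N - 8 * K) * y ^ 2 := mul_nonneg (by linarith) (sq_nonneg y)
    have a2 : 0 ≤ (N - (2 * K + y)) * y ^ 2 := mul_nonneg (by linarith) (sq_nonneg y)
    have a3 : 0 ≤ (N - 8) * y := mul_nonneg (by linarith) hy0
    have a4 : 0 ≤ K * (2 * y - 3 * K) ^ 2 := mul_nonneg (by linarith) (sq_nonneg _)
    have a5 : 0 ≤ K ^ 3 := by positivity
    generalize 2 * (N - d) * (if Odd d then (1:ℝ) else 0) = z at hp ⊢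
    rw [hy, hK]
    nlinarith

lemma average_bound_par {o : V → V → V → ℝ} (h : Ori o) (G : SimpleGraph V) [DecidableRel G.Adj]
    (k : ℕ) (h1 : 8 * k + 9 ≤ Fintype.card V) :
    ∃ a b, a ≠ b ∧ 8 * ((Fintype.card V : ℝ) - 1) * ((k : ℝ) + 1)
        * (2 * (G.edgeFinset.card : ℝ) - Fintype.card V * k)
      ≤ Fintype.card V * (8 * ((Fintype.card V : ℝ) - 1) * cut o G a b
          + (24 * ((k : ℝ) + 1) ^ 3 + 14 * (k + 1))) := by
  have hne : (univ.filter fun q : V × V => q.1 ≠ q.2).Nonempty := by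
    obtain ⟨x, y, hxy⟩ := Fintype.exists_pair_of_one_lt_card (α := V) (by omega)
    exact ⟨(x, y), mem_filter.mpr ⟨mem_univ _, hxy⟩⟩
  obtain ⟨w, hw, hmax⟩ := exists_max_image _ (fun q : V × V => cut o G q.1 q.2) hne
  refine ⟨w.1, w.2, (mem_filter.mp hw).2, ?_⟩
  set M : ℝ := cut o G w.1 w.2 with hM
  have hcon : ∀ a b, a ≠ b → cut o G a b ≤ M := fun a b hab =>
    hmax (a, b) (mem_filter.mpr ⟨mem_univ _, hab⟩)
  set N : ℝ := (Fintype.card V : ℝ) - 1 with hN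
  have h1' : 8 * (k:ℝ) + 8 ≤ N := by
    have : ((8 * k + 9 : ℕ) : ℝ) ≤ Fintype.card V := by exact_mod_cast h1
    push_cast at this; linarith
  have hk : (0:ℝ) ≤ k := Nat.cast_nonneg k
  -- upper bound
  have diag : ∀ a, cut o G a a = 0 := by
    intro a
    refine sum_eq_zero fun u _ => sum_eq_zero fun v _ => ?_
    have z0 : o a a v = 0 := by have := h.anti a a v; linarith
    unfold ind
    rw [if_neg]
    rw [z0]; simp
  have up : ∑ a, ∑ b, cut o G a b ≤ (N + 1) * (N * M) := by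
    have : ∀ a, ∑ b, cut o G a b ≤ N * M := by
      intro a
      rw [← add_sum_erase univ _ (mem_univ a), diag a, zero_add]
      have c1 : ∑ b ∈ univ.erase a, cut o G a b ≤ ∑ b ∈ univ.erase a, M :=
        sum_le_sum fun b hb => hcon a b (ne_of_mem_erase hb).symm
      rw [sum_const, nsmul_eq_mul, card_erase_of_mem (mem_univ a), card_univ,
        Nat.cast_sub (by omega)] at c1
      simpa [hN] using c1
    have c2 := sum_le_sum fun a (_ : a ∈ (univ : Finset V)) => this a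
    rw [sum_const, nsmul_eq_mul, card_univ] at c2
    have : (Fintype.card V : ℝ) = N + 1 := by rw [hN]; ring
    rwa [this] at c2
  -- lower bound
  have sw : ∑ a, ∑ b, cut o G a b
      = ∑ u, ∑ a, ∑ b, ∑ v ∈ G.neighborFinset u, ind o a b u v := by
    unfold cut
    rw [sum_congr rfl fun a _ => sum_comm, sum_comm]
  have vb : ∀ u, 8 * N * ((k:ℝ) + 1) * (G.degree u : ℝ)
      - (8 * N * ((k:ℝ) + 1) * k + (24 * ((k : ℝ) + 1) ^ 3 + 14 * (k + 1)))
      ≤ 8 * ∑ a, ∑ b, ∑ v ∈ G.neighborFinset u, ind o a b u v := by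
    intro u
    have b1 := vertex_bound_par h u (G.neighborFinset u) (by simp)
    rw [G.card_neighborFinset_eq_degree] at b1
    have hd : (G.degree u : ℝ) ≤ N := by
      have := G.degree_lt_card_verts u
      have : ((G.degree u + 1 : ℕ) : ℝ) ≤ Fintype.card V := by exact_mod_cast this
      push_cast at this; linarith
    rw [← hN] at b1
    exact le_trans (poly_bound k (G.degree u) N h1' hd) b1
  have sd : ∑ u, (G.degree u : ℝ) = 2 * G.edgeFinset.card := by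
    exact_mod_cast G.sum_degrees_eq_twice_card_edges
  have lo := sum_le_sum fun u (_ : u ∈ (univ : Finset V)) => vb u
  rw [← mul_sum, ← sw, sum_sub_distrib, ← mul_sum, sum_const, sd] at lo
  simp only [card_univ, nsmul_eq_mul] at lo
  have e : (Fintype.card V : ℝ) = N + 1 := by rw [hN]; ring
  rw [e] at lo ⊢
  nlinarith [lo, up]

end Pool.Agent.H98.Cut
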