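import Mathlib

namespace Pool.Agent.H98.Cut

open Finset

/-- Points on the parabola. -/
def par (n : ℕ) (i : Fin n) : ℝ × ℝ := (((i : ℕ) : ℝ), ((i : ℕ) : ℝ) ^ 2)

lemma par_inj (n : ℕ) : Function.Injective (par n) := by
  intro i j h
  have := congrArg Prod.fst h
  simp only [par] at this
  exact Fin.ext (by exact_mod_cast this)

lemma par_gp (n : ℕ) (a b c : Fin n) (hab : a ≠ b) (hac : a ≠ c) (hbc : b ≠ c) :
    ¬ Collinear ℝ ({par n a, par n b, par n c} : Set (ℝ × ℝ)) := by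
  intro h
  rw [collinear_iff_of_mem (p₀ := par n a) (by simp)] at h
  obtain ⟨v, hv⟩ := h
  obtain ⟨r, hr⟩ := hv (par n b) (by simp)
  obtain ⟨s, hs⟩ := hv (par n c) (by simp)
  have r1 := congrArg Prod.fst hr
  have r2 := congrArg Prod.snd hr
  have s1 := congrArg Prod.fst hs
  have s2 := congrArg Prod.snd hs
  simp only [par, vadd_eq_add, Prod.fst_add, Prod.snd_add, Prod.smul_fst, Prod.smul_snd,
    smul_eq_mul] at r1 r2 s1 s2
  have n1 : ((b : ℕ) : ℝ) - (a : ℕ) ≠ 0 := fun e => hab (Fin.ext (by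
    have : ((a : ℕ) : ℝ) = (b : ℕ) := by linarith
    exact_mod_cast this))
  have n2 : ((c : ℕ) : ℝ) - (a : ℕ) ≠ 0 := fun e => hac (Fin.ext (by
    have : ((a : ℕ) : ℝ) = (c : ℕ) := by linarith
    exact_mod_cast this))
  have n3 : ((c : ℕ) : ℝ) - (b : ℕ) ≠ 0 := fun e => hbc (Fin.ext (by
    have : ((b : ℕ) : ℝ) = (c : ℕ) := by linarith
    exact_mod_cast this))
  apply mul_ne_zero (mul_ne_zero n1 n2) n3
  have e1 : ((b : ℕ) : ℝ) - (a : ℕ) = r * v.1 := by linarith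
  have e2 : ((c : ℕ) : ℝ) - (a : ℕ) = s * v.1 := by linarith
  have e3 : ((b : ℕ) : ℝ) ^ 2 - ((a : ℕ) : ℝ) ^ 2 = r * v.2 := by linarith
  have e4 : ((c : ℕ) : ℝ) ^ 2 - ((a : ℕ) : ℝ) ^ 2 = s * v.2 := by linarith
  linear_combination (((c : ℕ) : ℝ) ^ 2 - ((a : ℕ) : ℝ) ^ 2) * e1
    - (((b : ℕ) : ℝ) ^ 2 - ((a : ℕ) : ℝ) ^ 2) * e2 + r * v.1 * e4 - s * v.1 * e3

/-- The pairs joined in the construction. -/
def cond (k q i j : ℕ) : Prop := i < j ∧ (j ≤ i + k ∨ (j = i + (k + 1) ∧ i % (k + 1) < q))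

def pairs (n k q : ℕ) : Set (Fin n × Fin n) := {x | cond k q x.1 x.2}

def gr (n k q : ℕ) : SimpleGraph (Fin n) := SimpleGraph.fromRel fun i j => cond k q i j

lemma edge_iff (n k q : ℕ) (e : Sym2 (Fin n)) :
    e ∈ (gr n k q).edgeSet ↔ ∃ x ∈ pairs n k q, e = s(x.1, x.2) := by
  induction e using Sym2.ind with
  | h u v =>
    rw [SimpleGraph.mem_edgeSet, gr, SimpleGraph.fromRel_adj]
    constructor
    · rintro ⟨_, h | h⟩
      · exact ⟨(u, v), h, rfl⟩
      · exact ⟨(v, u), h, Sym2.eq_swap⟩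
    · rintro ⟨x, hx, e⟩
      have hlt : (x.1 : ℕ) < x.2 := hx.1
      rcases Sym2.eq_iff.mp e with ⟨rfl, rfl⟩ | ⟨rfl, rfl⟩
      · exact ⟨fun e => by rw [e] at hlt; omega, Or.inl hx⟩
      · exact ⟨fun e => by rw [e] at hlt; omega, Or.inr hx⟩

lemma cover_card (n k q c : ℕ) :
    2 * Set.ncard {x ∈ pairs n k q | (x.1 : ℕ) < c ∧ c ≤ (x.2 : ℕ)} ≤ k ^ 2 + k + 2 * q := by
  classical
  set T : Finset (ℕ × ℕ) :=
    ((range (k + 1)).biUnion fun l => (range l).image fun a => (l, a)) ∪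
      (range q).image fun a => (k + 1, a) with hT
  have cT : 2 * T.card ≤ k ^ 2 + k + 2 * q := by
    have c1 : T.card ≤ (∑ l ∈ range (k + 1), l) + q := by
      refine (card_union_le _ _).trans (add_le_add ?_ ?_)
      · refine card_biUnion_le.trans (sum_le_sum fun l _ => ?_)
        exact card_image_le.trans (by simp)
      · exact card_image_le.trans (by simp)
    have c2 := sum_range_id_mul_two (k + 1)
    simp only [Nat.add_sub_cancel] at c2
    nlinarith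
  refine le_trans (Nat.mul_le_mul_left 2 ?_) cT
  rw [← Set.ncard_coe_finset T]
  refine Set.ncard_le_ncard_of_injOn
    (fun x => ((x.2 : ℕ) - x.1, (x.1 : ℕ) % ((x.2 : ℕ) - x.1))) ?_ ?_ (Set.toFinite _)
  · rintro x ⟨⟨h1, h2⟩, h3, h4⟩
    simp only [hT, coe_union, Set.mem_union, mem_coe, mem_biUnion, mem_image, mem_range,
      Prod.mk.injEq]
    rcases h2 with h2 | ⟨h2, h5⟩
    · left
      exact ⟨(x.2 : ℕ) - x.1, by omega, _, Nat.mod_lt _ (by omega), rfl, rfl⟩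
    · right
      have e : (x.2 : ℕ) - x.1 = k + 1 := by omega
      rw [e]
      exact ⟨_, h5, rfl, rfl⟩
  · rintro x ⟨⟨h1, _⟩, h3, h4⟩ y ⟨⟨g1, _⟩, g3, g4⟩ e
    simp only [Prod.mk.injEq] at e
    obtain ⟨e1, e2⟩ := e
    rw [← e1] at e2
    have e3 : (x.1 : ℕ) = y.1 := by
      rcases le_total (x.1 : ℕ) y.1 with l | l
      · have := (Nat.modEq_iff_dvd' l).mp e2
        have := Nat.eq_zero_of_dvd_of_lt this (by omega)
        omega
      · have := (Nat.modEq_iff_dvd' l).mp e2.symm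
        have := Nat.eq_zero_of_dvd_of_lt this (by omega)
        omega
    exact Prod.ext (Fin.ext e3) (Fin.ext (by omega))

lemma interval_cut (n k q : ℕ) (g : ℕ → ℝ)
    (hg : ∀ a b c : ℕ, a ≤ b → b ≤ c → g a < 0 → g c < 0 → g b < 0) :
    Set.ncard {x ∈ pairs n k q | ¬ (g x.1 < 0 ↔ g x.2 < 0)} ≤ k ^ 2 + k + 2 * q := by
  classical
  by_cases hne : ((range n).filter fun i => g i < 0).Nonempty
  · set l := ((range n).filter fun i => g i < 0).min' hne with hl
    set r := ((range n).filter fun i => g i < 0).max' hne with hr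
    have l0 : g l < 0 := (mem_filter.mp (min'_mem _ hne)).2
    have r0 : g r < 0 := (mem_filter.mp (max'_mem _ hne)).2
    have l1 : ∀ i : Fin n, g i < 0 → l ≤ i := fun i hi =>
      min'_le _ _ (mem_filter.mpr ⟨mem_range.mpr i.2, hi⟩)
    have r1 : ∀ i : Fin n, g i < 0 → (i : ℕ) ≤ r := fun i hi =>
      le_max' _ _ (mem_filter.mpr ⟨mem_range.mpr i.2, hi⟩)
    have sub : {x ∈ pairs n k q | ¬ (g x.1 < 0 ↔ g x.2 < 0)} ⊆
        {x ∈ pairs n k q | (x.1 : ℕ) < l ∧ l ≤ (x.2 : ℕ)} ∪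
        {x ∈ pairs n k q | (x.1 : ℕ) < r + 1 ∧ r + 1 ≤ (x.2 : ℕ)} := by
      rintro x ⟨hx, h⟩
      have hlt : (x.1 : ℕ) < x.2 := hx.1
      by_cases c : g x.1 < 0
      · have c2 : ¬ g x.2 < 0 := fun c2 => h ⟨fun _ => c2, fun _ => c⟩
        right
        refine ⟨hx, by have := r1 _ c; omega, ?_⟩
        by_contra c3
        exact c2 (hg x.1 x.2 r hlt.le (by omega) c r0)
      · have c2 : g x.2 < 0 := by
          by_contra c2
          exact h ⟨fun a => absurd a c, fun a => absurd a c2⟩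
        left
        refine ⟨hx, ?_, l1 _ c2⟩
        by_contra c3
        exact c (hg l x.1 x.2 (by omega) hlt.le l0 c2)
    have h1 := Set.ncard_le_ncard sub (Set.toFinite _)
    have h2 := Set.ncard_union_le {x ∈ pairs n k q | (x.1 : ℕ) < l ∧ l ≤ (x.2 : ℕ)}
      {x ∈ pairs n k q | (x.1 : ℕ) < r + 1 ∧ r + 1 ≤ (x.2 : ℕ)}
    have h3 := cover_card n k q l
    have h4 := cover_card n k q (r + 1)
    omega
  · have : {x ∈ pairs n k q | ¬ (g x.1 < 0 ↔ g x.2 < 0)} = ∅ := by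
      ext x
      simp only [Set.mem_setOf_eq, Set.mem_empty_iff_false, iff_false, not_and, not_not]
      intro _
      have a : ∀ i : Fin n, ¬ g i < 0 := fun i hi =>
        hne ⟨i, mem_filter.mpr ⟨mem_range.mpr i.2, hi⟩⟩
      exact ⟨fun h => absurd h (a _), fun h => absurd h (a _)⟩
    rw [this]; simp

lemma conv_quad (α β γ : ℝ) (hβ : 0 ≤ β) (a b c : ℕ) (h1 : a ≤ b) (h2 : b ≤ c)
    (ha : α * a + β * (a : ℝ) ^ 2 - γ < 0) (hc : α * c + β * (c : ℝ) ^ 2 - γ < 0) :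
    α * b + β * (b : ℝ) ^ 2 - γ < 0 := by
  have h1' : (a : ℝ) ≤ b := by exact_mod_cast h1
  have h2' : (b : ℝ) ≤ c := by exact_mod_cast h2
  rcases eq_or_lt_of_le h1' with e | e
  · rw [← e]; exact ha
  by_contra hb
  push Not at hb
  have t1 : 0 ≤ β * (((b:ℝ) - a) * (c - b) * (c - a)) :=
    mul_nonneg hβ (mul_nonneg (mul_nonneg (by linarith) (by linarith)) (by linarith))
  have t2 : 0 ≤ ((c:ℝ) - a) * (α * b + β * (b : ℝ) ^ 2 - γ) := mul_nonneg (by linarith) hb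
  have t3 : ((c:ℝ) - b) * (α * a + β * (a : ℝ) ^ 2 - γ) ≤ 0 :=
    mul_nonpos_of_nonneg_of_nonpos (by linarith) ha.le
  have t4 : ((b:ℝ) - a) * (α * c + β * (c : ℝ) ^ 2 - γ) < 0 :=
    mul_neg_of_pos_of_neg (by linarith) hc
  nlinarith

lemma line_cut_aux (n k q : ℕ) (α β γ : ℝ) (hβ : 0 ≤ β)
    (hv : ∀ v, α * (par n v).1 + β * (par n v).2 ≠ γ) :
    Set.ncard {e ∈ (gr n k q).edgeSet | ∃ u v, e = s(u, v) ∧
        ∃ x ∈ segment ℝ (par n u) (par n v), α * x.1 + β * x.2 = γ} ≤ k ^ 2 + k + 2 * q := by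
  refine le_trans ?_ (interval_cut n k q (fun i => α * i + β * (i : ℝ) ^ 2 - γ)
    (fun a b c h1 h2 ha hc => conv_quad α β γ hβ a b c h1 h2 ha hc))
  refine le_trans (Set.ncard_le_ncard ?_ (Set.toFinite _))
    (Set.ncard_image_le (f := fun x : Fin n × Fin n => s(x.1, x.2)) (Set.toFinite _))
  rintro e ⟨he, u, v, rfl, x, ⟨s, t, hs, ht, hst, rfl⟩, hx⟩
  obtain ⟨y, hy, e⟩ := (edge_iff n k q _).mp he
  refine ⟨y, ⟨hy, ?_⟩, e.symm⟩
  have hu := hv u
  have hw := hv v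
  simp only [par, Prod.fst_add, Prod.snd_add, Prod.smul_fst, Prod.smul_snd, smul_eq_mul]
    at hx hu hw
  have key : ¬ (α * ((u : ℕ) : ℝ) + β * ((u : ℕ) : ℝ) ^ 2 - γ < 0 ↔
      α * ((v : ℕ) : ℝ) + β * ((v : ℕ) : ℝ) ^ 2 - γ < 0) := by
    intro h
    set A := α * ((u : ℕ) : ℝ) + β * ((u : ℕ) : ℝ) ^ 2 - γ with hA
    set C := α * ((v : ℕ) : ℝ) + β * ((v : ℕ) : ℝ) ^ 2 - γ with hC
    have z : s * A + t * C = 0 := by
      rw [hA, hC]; linear_combination hx - γ * hst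
    have a0 : A ≠ 0 := fun e => hu (by linarith)
    have c0 : C ≠ 0 := fun e => hw (by linarith)
    by_cases c : A < 0
    · have c2 := h.mp c
      have m1 : max A C < 0 := max_lt c c2
      nlinarith [le_max_left A C, le_max_right A C]
    · have c2 : ¬ C < 0 := fun c2 => c (h.mpr c2)
      have m1 : 0 < min A C := lt_min (lt_of_le_of_ne (not_lt.mp c) a0.symm)
        (lt_of_le_of_ne (not_lt.mp c2) c0.symm)
      nlinarith [min_le_left A C, min_le_right A C]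
  rcases Sym2.eq_iff.mp e with ⟨e1, e2⟩ | ⟨e1, e2⟩
  · rw [← e1, ← e2]; exact key
  · rw [← e1, ← e2]; exact fun h => key h.symm

lemma line_cut (n k q : ℕ) (α β γ : ℝ)
    (hv : ∀ v, α * (par n v).1 + β * (par n v).2 ≠ γ) :
    Set.ncard {e ∈ (gr n k q).edgeSet | ∃ u v, e = s(u, v) ∧
        ∃ x ∈ segment ℝ (par n u) (par n v), α * x.1 + β * x.2 = γ} ≤ k ^ 2 + k + 2 * q := by
  rcases le_total 0 β with h | h
  · exact line_cut_aux n k q α β γ h hv
  · have := line_cut_aux n k q (-α) (-β) (-γ) (by linarith) (fun v e => hv v (by linarith))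
    refine le_trans (le_of_eq ?_) this
    congr 1
    ext e
    simp only [Set.mem_setOf_eq]
    refine and_congr_right fun _ => exists_congr fun u => exists_congr fun v =>
      and_congr_right fun _ => exists_congr fun x => and_congr_right fun _ => ?_
    constructor <;> intro h <;> linarith

lemma edge_count (n k q : ℕ) (hq : q ≤ k + 1) :
    (n - k) * k + (n / (k + 1) - 1) * q ≤ (gr n k q).edgeSet.ncard := by
  classical
  have h1 : (pairs n k q).ncard ≤ (gr n k q).edgeSet.ncard := by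
    refine Set.ncard_le_ncard_of_injOn (fun x => s(x.1, x.2))
      (fun x hx => (edge_iff n k q _).mpr ⟨x, hx, rfl⟩) ?_ (Set.toFinite _)
    intro x hx y hy e
    have a : (x.1 : ℕ) < x.2 := hx.1
    have b : (y.1 : ℕ) < y.2 := hy.1
    rcases Sym2.eq_iff.mp e with ⟨e1, e2⟩ | ⟨e1, e2⟩
    · exact Prod.ext e1 e2
    · rw [e1, e2] at a; omega
  refine le_trans ?_ h1
  set A : Finset (ℕ × ℕ) := (range (n - k) ×ˢ range k).image fun x => (x.1, x.1 + x.2 + 1) with hA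
  set B : Finset (ℕ × ℕ) := (range (n / (k + 1) - 1) ×ˢ range q).image
    fun x => ((k + 1) * x.1 + x.2, (k + 1) * x.1 + x.2 + (k + 1)) with hB
  have cA : A.card = (n - k) * k := by
    rw [hA, card_image_of_injective, card_product, card_range, card_range]
    intro x y e
    simp only [Prod.mk.injEq] at e
    exact Prod.ext e.1 (by omega)
  have cB : B.card = (n / (k + 1) - 1) * q := by
    rw [hB, card_image_of_injOn, card_product, card_range, card_range]
    intro x hx y hy e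
    simp only [coe_product, coe_range, Set.mem_prod, Set.mem_Iio] at hx hy
    simp only [Prod.mk.injEq] at e
    have e1 := e.1
    have m1 : ((k + 1) * x.1 + x.2) % (k + 1) = x.2 := by
      rw [Nat.mul_add_mod]; exact Nat.mod_eq_of_lt (by omega)
    have m2 : ((k + 1) * y.1 + y.2) % (k + 1) = y.2 := by
      rw [Nat.mul_add_mod]; exact Nat.mod_eq_of_lt (by omega)
    have e2 : x.2 = y.2 := by rw [← m1, ← m2, e1]
    rw [e2] at e1
    exact Prod.ext (Nat.eq_of_mul_eq_mul_left (by omega : 0 < k + 1) (by omega)) e2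
  have dj : Disjoint A B := by
    rw [disjoint_left]
    intro z hz hz'
    simp only [hA, hB, mem_image, mem_product, mem_range] at hz hz'
    obtain ⟨x, ⟨_, hx⟩, rfl⟩ := hz
    obtain ⟨y, _, e⟩ := hz'
    simp only [Prod.mk.injEq] at e
    omega
  rw [← cA, ← cB, ← card_union_of_disjoint dj, ← Set.ncard_coe_finset]
  refine le_trans (Set.ncard_le_ncard ?_ (Set.toFinite _))
    (Set.ncard_image_le (f := fun x : Fin n × Fin n => ((x.1 : ℕ), (x.2 : ℕ))) (Set.toFinite _))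
  intro z hz
  simp only [hA, hB, coe_union, Set.mem_union, mem_coe, mem_image, mem_product, mem_range] at hz
  rcases hz with ⟨x, ⟨h1, h2⟩, rfl⟩ | ⟨x, ⟨h1, h2⟩, rfl⟩
  · refine ⟨(⟨x.1, by omega⟩, ⟨x.1 + x.2 + 1, by omega⟩), ⟨?_, Or.inl ?_⟩, rfl⟩
    · show x.1 < x.1 + x.2 + 1
      omega
    · show x.1 + x.2 + 1 ≤ x.1 + k
      omega
  · have b1 : (k + 1) * (x.1 + 2) ≤ n :=
      le_trans (Nat.mul_le_mul_left _ (by omega)) (Nat.mul_div_le n (k + 1))
    have b2 : (k + 1) * (x.1 + 2) = (k + 1) * x.1 + 2 * (k + 1) := by ring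
    refine ⟨(⟨(k + 1) * x.1 + x.2, by omega⟩, ⟨(k + 1) * x.1 + x.2 + (k + 1), by omega⟩),
      ⟨?_, Or.inr ⟨rfl, ?_⟩⟩, rfl⟩
    · show (k + 1) * x.1 + x.2 < (k + 1) * x.1 + x.2 + (k + 1)
      omega
    · show ((k + 1) * x.1 + x.2) % (k + 1) < q
      rw [Nat.mul_add_mod, Nat.mod_eq_of_lt (by omega)]; exact h2

end Pool.Agent.H98.Cut
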