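import Mathlib

namespace Pool.Agent.H98.Cut

open Finset

variable {V : Type*} [Fintype V] [DecidableEq V]

/-- Sets reached from the empty set one element at a time, all values of c staying below s. -/
inductive Reach (c : Finset V → ℕ) (s : ℕ) : Finset V → Prop
  | nil : Reach c s ∅
  | ins (X : Finset V) (u : V) : Reach c s X → c (insert u X) < s → Reach c s (insert u X)

def Sub (c : Finset V → ℕ) : Prop := ∀ A B, c (A ∩ B) + c (A ∪ B) ≤ c A + c B

lemma reach_inter {c : Finset V → ℕ} (hc : Sub c) {s : ℕ} (X' Z : Finset V) (hZ : Z ⊆ X')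
    (hmin : ∀ W, Z ⊆ W → W ⊆ X' → c Z ≤ c W) (C : Finset V) (hC : Reach c s C) :
    C ⊆ X' → Reach c s (C ∩ Z) := by
  induction hC with
  | nil => intro _; rw [empty_inter]; exact Reach.nil
  | ins X u _ h2 ih =>
    intro hs
    have ih' := ih ((subset_insert u X).trans hs)
    by_cases hu : u ∈ Z
    · rw [insert_inter_of_mem hu]
      refine Reach.ins _ _ ih' ?_
      have a := hc (insert u X) Z
      have b := hmin (insert u X ∪ Z) subset_union_right (union_subset hs hZ)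
      rw [insert_inter_of_mem hu] at a
      omega
    · rw [insert_inter_of_notMem hu]; exact ih'

def Idl (c : Finset V → ℕ) (s : ℕ) (U X : Finset V) : Prop :=
  ∃ X', X ⊆ X' ∧ X' ⊆ U ∧ Reach c s X'

lemma idl_ext {c : Finset V → ℕ} (hc : Sub c) {s : ℕ} (U X : Finset V) (u : V) (hu : u ∈ U)
    (h : Idl c s U X) (h2 : c (insert u X) < s) : Idl c s U (insert u X) := by
  obtain ⟨X', h1, h3, h4⟩ := h
  obtain ⟨Z, hZ, hmin⟩ := exists_min_image (univ.filter fun W => X ⊆ W ∧ W ⊆ X') c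
    ⟨X, mem_filter.mpr ⟨mem_univ _, subset_rfl, h1⟩⟩
  obtain ⟨z1, z2⟩ := (mem_filter.mp hZ).2
  have r : Reach c s Z := by
    have := reach_inter hc X' Z z2
      (fun W w1 w2 => hmin W (mem_filter.mpr ⟨mem_univ _, z1.trans w1, w2⟩)) X' h4 subset_rfl
    rwa [inter_eq_right.mpr z2] at this
  by_cases hz : u ∈ Z
  · exact ⟨Z, insert_subset hz z1, z2.trans h3, r⟩
  · refine ⟨insert u Z, insert_subset_insert u z1, insert_subset hu (z2.trans h3),
      Reach.ins _ _ r ?_⟩
    have a := hc (insert u X) Z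
    rw [insert_inter_of_notMem hz, inter_eq_left.mpr z1, insert_union,
      union_eq_right.mpr z1] at a
    have b := hmin X (mem_filter.mpr ⟨mem_univ _, subset_rfl, h1⟩)
    omega

lemma reach_all (c : Finset V → ℕ) (X : Finset V) : Reach c (univ.sup c + 1) X := by
  induction X using Finset.induction_on with
  | empty => exact Reach.nil
  | insert u X _ ih =>
    exact Reach.ins _ _ ih (Nat.lt_succ_of_le (le_sup (f := c) (mem_univ _)))

lemma reach_zero {c : Finset V → ℕ} {X : Finset V} (h : Reach c 0 X) : X = ∅ := by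
  cases h with
  | nil => rfl
  | ins X u _ h2 => omega

lemma reach_chain {c : Finset V → ℕ} {s : ℕ} (h0 : c ∅ = 0) {X : Finset V}
    (h : Reach c (s + 1) X) :
    ∃ C : ℕ → Finset V, (∀ i j, i ≤ j → C i ⊆ C j) ∧ (∀ j, j ≤ X.card → (C j).card = j) ∧
      (∀ j, c (C j) ≤ s) ∧ ∀ j, X.card ≤ j → C j = X := by
  induction h with
  | nil => exact ⟨fun _ => ∅, by simp, by simp, by simp [h0], by simp⟩
  | ins X u _ h2 ih =>
    by_cases hu : u ∈ X
    · rw [insert_eq_of_mem hu]; exact ih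
    obtain ⟨C, c1, c2, c3, c4⟩ := ih
    have cc := card_insert_of_notMem hu
    have sub : ∀ j, C j ⊆ X := fun j => by
      have := c1 j (max j X.card) (le_max_left _ _)
      rwa [c4 _ (le_max_right _ _)] at this
    refine ⟨fun j => if j ≤ X.card then C j else insert u X, ?_, ?_, ?_, ?_⟩
    · intro i j hij
      simp only
      split_ifs with a b b
      · exact c1 i j hij
      · exact (sub i).trans (subset_insert _ _)
      · omega
      · exact subset_rfl
    · intro j hj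
      simp only
      split_ifs with a
      · exact c2 j a
      · omega
    · intro j
      simp only
      split_ifs with a
      · exact c3 j
      · omega
    · intro j hj
      simp only
      rw [if_neg (by omega)]

/-- A ham-sandwich statement for two separated sets and submodular functions. -/
theorem sandwich (x y : V → ℝ)
    (hgp : ∀ a b c : V, a ≠ b → a ≠ c → b ≠ c → ∀ m β : ℝ,
      y a - m * x a = β → y b - m * x b = β → y c - m * x c = β → False)
    (P Q : Finset V) (hsep : ∀ z ∈ P, ∀ w ∈ Q, x z < x w)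
    (c1 c2 : Finset V → ℕ) (h1 : Sub c1) (h2 : Sub c2) (s1 s2 : ℕ)
    (n1 : ¬ Reach c1 s1 P) (n2 : ¬ Reach c2 s2 Q) :
    ∃ m β : ℝ, s1 ≤ c1 (P.filter fun v => y v - m * x v ≤ β) ∧
      s2 ≤ c2 (Q.filter fun v => y v - m * x v ≤ β) := by
  classical
  set B1 : Finset (Finset V) := univ.filter fun Z => Z ⊆ P ∧ ¬ Idl c1 s1 P Z with hB1
  set B2 : Finset (Finset V) := univ.filter fun Z => Z ⊆ Q ∧ ¬ Idl c2 s2 Q Z with hB2
  have P1 : P ∈ B1 := mem_filter.mpr ⟨mem_univ _, subset_rfl, fun ⟨X', a, b, r⟩ =>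
    n1 (by rwa [Subset.antisymm b a] at r)⟩
  have Q2 : Q ∈ B2 := mem_filter.mpr ⟨mem_univ _, subset_rfl, fun ⟨X', a, b, r⟩ =>
    n2 (by rwa [Subset.antisymm b a] at r)⟩
  have ne1 : ∀ Z ∈ B1, Z.Nonempty := fun Z hZ => nonempty_iff_ne_empty.mpr fun e =>
    (mem_filter.mp hZ).2.2 ⟨∅, by simp [e], empty_subset _, Reach.nil⟩
  have ne2 : ∀ Z ∈ B2, Z.Nonempty := fun Z hZ => nonempty_iff_ne_empty.mpr fun e =>
    (mem_filter.mp hZ).2.2 ⟨∅, by simp [e], empty_subset _, Reach.nil⟩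
  have closed : ∀ F H : Finset (Finset V), IsClosed {m : ℝ | ∃ Z ∈ F, ∀ W ∈ H, ∀ z ∈ Z, ∃ w ∈ W,
      y z - m * x z ≤ y w - m * x w} := by
    intro F H
    have : {m : ℝ | ∃ Z ∈ F, ∀ W ∈ H, ∀ z ∈ Z, ∃ w ∈ W, y z - m * x z ≤ y w - m * x w}
        = ⋃ Z ∈ F, ⋂ W ∈ H, ⋂ z ∈ Z, ⋃ w ∈ W, {m : ℝ | y z - m * x z ≤ y w - m * x w} := by
      ext m; simp
    rw [this]
    refine isClosed_biUnion_finset fun Z _ => isClosed_biInter fun W _ =>
      isClosed_biInter fun z _ => isClosed_biUnion_finset fun w _ => ?_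
    exact isClosed_le (by fun_prop) (by fun_prop)
  have cover : ∀ m : ℝ, (∃ Z ∈ B1, ∀ W ∈ B2, ∀ z ∈ Z, ∃ w ∈ W, y z - m * x z ≤ y w - m * x w) ∨
      (∃ Z ∈ B2, ∀ W ∈ B1, ∀ z ∈ Z, ∃ w ∈ W, y z - m * x z ≤ y w - m * x w) := by
    intro m
    set κ : V → ℝ := fun v => y v - m * x v with hκ
    set mx : Finset V → ℝ := fun Z => if h : Z.Nonempty then Z.sup' h κ else 0 with hmx
    have up : ∀ Z, ∀ z ∈ Z, κ z ≤ mx Z := fun Z z hz => by
      simp only [hmx]; rw [dif_pos ⟨z, hz⟩]; exact le_sup' κ hz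
    have att : ∀ Z : Finset V, Z.Nonempty → ∃ z ∈ Z, mx Z = κ z := fun Z hZ => by
      simp only [hmx]; rw [dif_pos hZ]; exact exists_mem_eq_sup' hZ κ
    obtain ⟨Z, hZ, mZ⟩ := exists_min_image B1 mx ⟨P, P1⟩
    obtain ⟨W, hW, mW⟩ := exists_min_image B2 mx ⟨Q, Q2⟩
    rcases le_total (mx Z) (mx W) with l | l
    · left
      refine ⟨Z, hZ, fun W' hW' z hz => ?_⟩
      obtain ⟨w, hw, e⟩ := att W' (ne2 W' hW')
      exact ⟨w, hw, by have := up Z z hz; have := mW W' hW'; show κ z ≤ κ w; linarith⟩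
    · right
      refine ⟨W, hW, fun W' hW' z hz => ?_⟩
      obtain ⟨w, hw, e⟩ := att W' (ne1 W' hW')
      exact ⟨w, hw, by have := up W z hz; have := mZ W' hW'; show κ z ≤ κ w; linarith⟩
  obtain ⟨lo, hlo⟩ := (Set.finite_range fun q : V × V =>
    (y q.2 - y q.1) / (x q.2 - x q.1)).bddBelow
  obtain ⟨hi, hhi⟩ := (Set.finite_range fun q : V × V =>
    (y q.2 - y q.1) / (x q.2 - x q.1)).bddAbove
  have nA : ∃ Z ∈ B1, ∀ W ∈ B2, ∀ z ∈ Z, ∃ w ∈ W, y z - lo * x z ≤ y w - lo * x w := by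
    refine ⟨P, P1, fun W hW z hz => ?_⟩
    obtain ⟨w, hw⟩ := ne2 W hW
    refine ⟨w, hw, ?_⟩
    have a := hsep z hz w ((mem_filter.mp hW).2.1 hw)
    have b : lo ≤ (y w - y z) / (x w - x z) := hlo ⟨(z, w), rfl⟩
    rw [le_div_iff₀ (by linarith)] at b
    linarith
  have nB : ∃ Z ∈ B2, ∀ W ∈ B1, ∀ z ∈ Z, ∃ w ∈ W, y z - hi * x z ≤ y w - hi * x w := by
    refine ⟨Q, Q2, fun W hW z hz => ?_⟩
    obtain ⟨w, hw⟩ := ne1 W hW
    refine ⟨w, hw, ?_⟩
    have a := hsep w ((mem_filter.mp hW).2.1 hw) z hz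
    have b : (y z - y w) / (x z - x w) ≤ hi := hhi ⟨(w, z), rfl⟩
    rw [div_le_iff₀ (by linarith)] at b
    linarith
  obtain ⟨m, _, ⟨Z, hZ, a1⟩, ⟨W, hW, a2⟩⟩ := isPreconnected_closed_iff.mp
    (isPreconnected_univ (α := ℝ)) _ _ (closed B1 B2) (closed B2 B1) (fun m _ => cover m)
    ⟨lo, trivial, nA⟩ ⟨hi, trivial, nB⟩
  set κ : V → ℝ := fun v => y v - m * x v with hκ
  obtain ⟨u, hu, mu⟩ := exists_max_image Z κ (ne1 Z hZ)
  obtain ⟨v, hv, mv⟩ := exists_max_image W κ (ne2 W hW)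
  have huP : u ∈ P := (mem_filter.mp hZ).2.1 hu
  have hvQ : v ∈ Q := (mem_filter.mp hW).2.1 hv
  have huv : κ u = κ v := by
    obtain ⟨w, hw, l1⟩ := a1 W hW u hu
    obtain ⟨z, hz, l2⟩ := a2 Z hZ v hv
    have l3 := mv w hw
    have l4 := mu z hz
    change κ u ≤ κ w at l1
    change κ v ≤ κ z at l2
    linarith
  have nuv : u ≠ v := fun e => by have := hsep u huP v hvQ; rw [e] at this; exact lt_irrefl _ this
  refine ⟨m, κ u, ?_, ?_⟩
  · by_contra hlt
    push Not at hlt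
    have i1 : Idl c1 s1 P (P.filter fun w => κ w < κ u) := by
      by_contra hn
      obtain ⟨z, hz, l⟩ := a2 _ (mem_filter.mpr ⟨mem_univ _, filter_subset _ _, hn⟩) v hv
      have := (mem_filter.mp hz).2
      change κ v ≤ κ z at l
      linarith
    have e : (P.filter fun v => y v - m * x v ≤ κ u) = insert u (P.filter fun w => κ w < κ u) := by
      ext w
      simp only [mem_filter, mem_insert]
      constructor
      · rintro ⟨w1, w2⟩
        by_cases c : w = u
        · exact Or.inl c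
        · refine Or.inr ⟨w1, lt_of_le_of_ne w2 fun e => ?_⟩
          exact hgp w u v c (fun e' => by
            have := hsep w w1 v hvQ; rw [e'] at this; exact lt_irrefl _ this) nuv m (κ u) e rfl
            huv.symm
      · rintro (rfl | ⟨w1, w2⟩)
        · exact ⟨huP, le_rfl⟩
        · exact ⟨w1, w2.le⟩
    rw [e] at hlt
    obtain ⟨X', b1, b2, b3⟩ := idl_ext h1 P _ u huP i1 hlt
    refine (mem_filter.mp hZ).2.2 ⟨X', fun z hz => b1 ?_, b2, b3⟩
    rw [← e]
    exact mem_filter.mpr ⟨(mem_filter.mp hZ).2.1 hz, mu z hz⟩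
  · by_contra hlt
    push Not at hlt
    have i1 : Idl c2 s2 Q (Q.filter fun w => κ w < κ u) := by
      by_contra hn
      obtain ⟨z, hz, l⟩ := a1 _ (mem_filter.mpr ⟨mem_univ _, filter_subset _ _, hn⟩) u hu
      have := (mem_filter.mp hz).2
      change κ u ≤ κ z at l
      linarith
    have e : (Q.filter fun v => y v - m * x v ≤ κ u) = insert v (Q.filter fun w => κ w < κ u) := by
      ext w
      simp only [mem_filter, mem_insert]
      constructor
      · rintro ⟨w1, w2⟩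
        by_cases c : w = v
        · exact Or.inl c
        · refine Or.inr ⟨w1, lt_of_le_of_ne w2 fun e => ?_⟩
          exact hgp w u v (fun e' => by
            have := hsep u huP w w1; rw [e'] at this; exact lt_irrefl _ this) c nuv m (κ u) e rfl
            huv.symm
      · rintro (rfl | ⟨w1, w2⟩)
        · exact ⟨hvQ, huv.ge⟩
        · exact ⟨w1, w2.le⟩
    rw [e] at hlt
    obtain ⟨X', b1, b2, b3⟩ := idl_ext h2 Q _ v hvQ i1 hlt
    refine (mem_filter.mp hW).2.2 ⟨X', fun z hz => b1 ?_, b2, b3⟩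
    rw [← e]
    exact mem_filter.mpr ⟨(mem_filter.mp hW).2.1 hz, (mv z hz).trans huv.ge⟩

end Pool.Agent.H98.Cut
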