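import Pool.Agent.H98.Cut6

namespace Pool.Agent.H98.Cut

open Finset

variable {V : Type*} [Fintype V] [DecidableEq V] (G : SimpleGraph V) [DecidableRel G.Adj]

/-- Edges inside U leaving X. -/
def cutU (U X : Finset V) : ℕ :=
  ∑ u, ∑ v, if G.Adj u v ∧ u ∈ U ∧ v ∈ U ∧ u ∈ X ∧ v ∉ X then 1 else 0

/-- Twice the number of edges inside X. -/
def e2 (X : Finset V) : ℕ := ∑ u, ∑ v, if G.Adj u v ∧ u ∈ X ∧ v ∈ X then 1 else 0

lemma cutU_symm (U X : Finset V) :
    cutU G U X = ∑ u, ∑ v, if G.Adj u v ∧ u ∈ U ∧ v ∈ U ∧ v ∈ X ∧ u ∉ X then 1 else 0 := by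
  unfold cutU
  rw [sum_comm]
  refine sum_congr rfl fun u _ => sum_congr rfl fun v _ => ?_
  refine if_congr ?_ rfl rfl
  rw [G.adj_comm]; tauto

lemma cutU_sub (U : Finset V) : Sub (cutU G U) := by
  intro A B
  unfold cutU
  simp only [← sum_add_distrib]
  refine sum_le_sum fun u _ => sum_le_sum fun v _ => ?_
  simp only [mem_inter, mem_union]
  by_cases a : G.Adj u v <;> by_cases b : u ∈ U <;> by_cases c : v ∈ U <;>
    by_cases d : u ∈ A <;> by_cases e : v ∈ A <;> by_cases f : u ∈ B <;> by_cases g : v ∈ B <;>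
    simp [a, b, c, d, e, f, g]

lemma cutU_empty (U : Finset V) : cutU G U ∅ = 0 := by simp [cutU]

lemma e2_univ : e2 G univ = 2 * G.edgeFinset.card := by
  rw [← G.sum_degrees_eq_twice_card_edges]
  unfold e2
  refine sum_congr rfl fun u _ => ?_
  rw [← G.card_neighborFinset_eq_degree, SimpleGraph.neighborFinset_eq_filter, card_filter]
  simp

lemma block (U C D : Finset V) (hCD : C ⊆ D) (hD : D ⊆ U) :
    e2 G D + (D \ C).card ≤ e2 G C + 2 * cutU G U C + (D \ C).card * (D \ C).card := by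
  have e1 : (D \ C).card = ∑ u, ∑ v, if u = v ∧ u ∈ D \ C then 1 else 0 := by
    rw [card_eq_sum_ite (subset_univ _)]
    refine sum_congr rfl fun u _ => ?_
    by_cases c : u ∈ D \ C <;> simp [c]
  have e3 : (D \ C).card * (D \ C).card
      = ∑ u, ∑ v, if u ∈ D \ C ∧ v ∈ D \ C then 1 else 0 := by
    rw [card_eq_sum_ite (subset_univ (D \ C)), sum_mul_sum]
    refine sum_congr rfl fun u _ => sum_congr rfl fun v _ => ?_
    by_cases c : u ∈ D \ C <;> by_cases d : v ∈ D \ C <;> simp [c, d]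
  rw [e3, two_mul]
  nth_rewrite 1 [e1]
  nth_rewrite 2 [cutU_symm]
  unfold e2 cutU
  simp only [← sum_add_distrib]
  refine sum_le_sum fun u _ => sum_le_sum fun v _ => ?_
  have h1 := @hCD u
  have h2 := @hCD v
  have h3 := @hD u
  have h4 := @hD v
  simp only [mem_sdiff]
  by_cases z : u = v
  · subst z
    by_cases d : u ∈ C <;> by_cases f : u ∈ D <;> simp [d, f]
  · by_cases a : G.Adj u v <;> by_cases d : u ∈ C <;> by_cases e : v ∈ C <;>
      by_cases f : u ∈ D <;> by_cases g : v ∈ D <;> simp_all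

lemma two_cuts (P Q S : Finset V) (h : Disjoint P Q) :
    cutU G P (P.filter fun v => v ∈ S) + cutU G Q (Q.filter fun v => v ∈ S) ≤ cutU G univ S := by
  unfold cutU
  simp only [← sum_add_distrib]
  refine sum_le_sum fun u _ => sum_le_sum fun v _ => ?_
  have h1 := @disjoint_left.mp h u
  simp only [mem_filter]
  by_cases a : G.Adj u v <;> by_cases b : u ∈ P <;> by_cases c : v ∈ P <;>
    by_cases d : u ∈ Q <;> by_cases e : v ∈ Q <;> by_cases f : u ∈ S <;> by_cases g : v ∈ S <;>
    simp_all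

lemma split2 (T : Finset V) : e2 G univ ≤ e2 G T + e2 G Tᶜ + 2 * cutU G univ T := by
  rw [two_mul]
  nth_rewrite 2 [cutU_symm]
  unfold e2 cutU
  simp only [← sum_add_distrib]
  refine sum_le_sum fun u _ => sum_le_sum fun v _ => ?_
  by_cases a : G.Adj u v <;> by_cases b : u ∈ T <;> by_cases c : v ∈ T <;> simp [a, b, c]

lemma split3 (T : Finset V) (w : V) : e2 G univ ≤ e2 G T + e2 G (insert w T)ᶜ
    + 2 * cutU G univ T + 2 * cutU G univ (insert w T) := by
  rw [two_mul, two_mul]
  nth_rewrite 2 [cutU_symm]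
  nth_rewrite 3 [cutU_symm]
  unfold e2 cutU
  simp only [← sum_add_distrib]
  refine sum_le_sum fun u _ => sum_le_sum fun v _ => ?_
  by_cases a : G.Adj u v
  · have n := a.ne
    by_cases b : u ∈ T <;> by_cases c : v ∈ T <;> by_cases d : u = w <;> by_cases e : v = w <;>
      simp_all
  · simp [a]

/-- Bound with r blocks of sizes a or a+1. -/
lemma chain_blocks (U : Finset V) (s a : ℕ) (h : Reach (cutU G U) (s + 1) U) (r : ℕ)
    (h1 : (r + 1) * a ≤ U.card) (h2 : U.card ≤ (r + 1) * (a + 1)) :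
    e2 G U + (r + 1) * (a * (a + 1)) ≤ 2 * a * U.card + 2 * r * s := by
  obtain ⟨C, c1, c2, c3, c4⟩ := reach_chain (cutU_empty G U) h
  have sub : ∀ j, C j ⊆ U := fun j => by
    have := c1 j (max j U.card) (le_max_left _ _)
    rwa [c4 _ (le_max_right _ _)] at this
  have key : ∀ r m, m ≤ U.card → (r + 1) * a ≤ m → m ≤ (r + 1) * (a + 1) →
      e2 G (C m) + (r + 1) * (a * (a + 1)) ≤ 2 * a * m + 2 * r * s := by
    intro r
    induction r with
    | zero =>
      intro m hm l1 l2
      have b := block G U ∅ (C m) (empty_subset _) (sub m)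
      rw [sdiff_empty, c2 m hm, cutU_empty] at b
      have z : e2 G ∅ = 0 := by simp [e2]
      rw [z] at b
      have : m = a ∨ m = a + 1 := by omega
      rcases this with rfl | rfl <;> nlinarith
    | succ r ih =>
      intro m hm l1 l2
      have e1 : (r + 1 + 1) * a = (r + 1) * a + a := by ring
      have e2' : (r + 1 + 1) * (a + 1) = (r + 1) * (a + 1) + (a + 1) := by ring
      have e3 : (r + 1) * (a + 1) = (r + 1) * a + (r + 1) := by ring
      obtain ⟨b, hb, m', rfl, k1, k2⟩ : ∃ b, (b = a ∨ b = a + 1) ∧ ∃ m', m = m' + b ∧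
          (r + 1) * a ≤ m' ∧ m' ≤ (r + 1) * (a + 1) := by
        by_cases c : m ≤ (r + 1) * (a + 1) + a
        · exact ⟨a, Or.inl rfl, m - a, by omega, by omega, by omega⟩
        · exact ⟨a + 1, Or.inr rfl, m - (a + 1), by omega, by omega, by omega⟩
      have i := ih m' (by omega) k1 k2
      have bl := block G U (C m') (C (m' + b)) (c1 _ _ (by omega)) (sub _)
      have cd : (C (m' + b) \ C m').card = b := by
        rw [card_sdiff_of_subset (c1 _ _ (by omega)), c2 _ hm, c2 _ (by omega)]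
        omega
      rw [cd] at bl
      have := c3 m'
      rcases hb with rfl | rfl <;> nlinarith
  have := key r U.card le_rfl h1 h2
  rwa [c4 _ le_rfl] at this

/-- Bound with blocks of size k+1. -/
lemma chain_slope (U : Finset V) (s k : ℕ) (h : Reach (cutU G U) (s + 1) U) :
    (k + 1) * e2 G U ≤ U.card * (k * (k + 1) + 2 * s) := by
  obtain ⟨C, c1, c2, c3, c4⟩ := reach_chain (cutU_empty G U) h
  have sub : ∀ j, C j ⊆ U := fun j => by
    have := c1 j (max j U.card) (le_max_left _ _)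
    rwa [c4 _ (le_max_right _ _)] at this
  have key : ∀ j, j * (k + 1) ≤ U.card →
      e2 G (C (j * (k + 1))) + 2 * cutU G U (C (j * (k + 1))) ≤ j * (k * (k + 1) + 2 * s) := by
    intro j
    induction j with
    | zero =>
      intro _
      have : C 0 = ∅ := card_eq_zero.mp (c2 0 (by omega))
      simp [this, e2, cutU]
    | succ j ih =>
      intro hj
      have e1 : (j + 1) * (k + 1) = j * (k + 1) + (k + 1) := by ring
      have i := ih (by omega)
      have bl := block G U (C (j * (k + 1))) (C ((j + 1) * (k + 1))) (c1 _ _ (by omega)) (sub _)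
      have cd : (C ((j + 1) * (k + 1)) \ C (j * (k + 1))).card = k + 1 := by
        rw [card_sdiff_of_subset (c1 _ _ (by omega)), c2 _ hj, c2 _ (by omega)]
        omega
      rw [cd] at bl
      have := c3 ((j + 1) * (k + 1))
      nlinarith
  have d1 := Nat.div_add_mod U.card (k + 1)
  have d2 := Nat.mod_lt U.card (by omega : 0 < k + 1)
  set j := U.card / (k + 1)
  set b := U.card % (k + 1)
  have hj : j * (k + 1) ≤ U.card := by nlinarith
  have i := key j hj
  have bl := block G U (C (j * (k + 1))) U (sub _) subset_rfl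
  have cd : (U \ C (j * (k + 1))).card = b := by
    rw [card_sdiff_of_subset (sub _), c2 _ hj]
    have : j * (k + 1) = (k + 1) * j := by ring
    omega
  rw [cd] at bl
  have t1 : b * b ≤ b * (k + 1) := Nat.mul_le_mul_left _ d2.le
  have t2 : e2 G U ≤ j * (k * (k + 1) + 2 * s) + b * k := by nlinarith
  have t3 := Nat.mul_le_mul_left (k + 1) t2
  rw [← d1]
  nlinarith [Nat.zero_le (b * s)]

/-- Down-sets for the first coordinate. -/
def Down (x : V → ℝ) (T : Finset V) : Prop := ∀ a ∈ T, ∀ b, b ∉ T → x a < x b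

lemma down_succ (x : V → ℝ) (hx : Function.Injective x) (T : Finset V) (hT : Down x T)
    (hne : T ≠ univ) : ∃ w, w ∉ T ∧ Down x (insert w T) := by
  have : Tᶜ.Nonempty := by
    rw [nonempty_iff_ne_empty]; intro e; exact hne (by simpa using e)
  obtain ⟨w, hw, mw⟩ := exists_min_image Tᶜ x this
  refine ⟨w, mem_compl.mp hw, fun a ha b hb => ?_⟩
  simp only [mem_insert, not_or] at ha hb
  rcases ha with rfl | ha
  · exact lt_of_le_of_ne (mw b (mem_compl.mpr hb.2)) fun e => hb.1 (hx e).symm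
  · exact hT a ha b hb.2

lemma down_card (x : V → ℝ) (hx : Function.Injective x) (j : ℕ) (hj : j ≤ Fintype.card V) :
    ∃ T, Down x T ∧ T.card = j := by
  induction j with
  | zero => exact ⟨∅, by simp [Down], rfl⟩
  | succ j ih =>
    obtain ⟨T, h1, h2⟩ := ih (by omega)
    obtain ⟨w, w1, w2⟩ := down_succ x hx T h1 (fun e => by rw [e, card_univ] at h2; omega)
    exact ⟨_, w2, by rw [card_insert_of_notMem w1, h2]⟩

structure Small (x y : V → ℝ) (t : ℕ) : Prop where
  inj : Function.Injective x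
  gp : ∀ a b c : V, a ≠ b → a ≠ c → b ≠ c → ∀ m β : ℝ,
      y a - m * x a = β → y b - m * x b = β → y c - m * x c = β → False
  vert : ∀ T, Down x T → cutU G univ T ≤ t
  slant : ∀ m β : ℝ, cutU G univ (univ.filter fun v => y v - m * x v ≤ β) ≤ t

lemma widths {x y : V → ℝ} {t : ℕ} (h : Small G x y t) (T : Finset V) (hT : Down x T)
    (s1 s2 : ℕ) (n1 : ¬ Reach (cutU G T) s1 T) (n2 : ¬ Reach (cutU G Tᶜ) s2 Tᶜ) :
    s1 + s2 ≤ t := by
  obtain ⟨m, β, a1, a2⟩ := sandwich x y h.gp T Tᶜ (fun z hz w hw => hT z hz w (mem_compl.mp hw))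
    _ _ (cutU_sub G T) (cutU_sub G Tᶜ) s1 s2 n1 n2
  have a3 := two_cuts G T Tᶜ (univ.filter fun v => y v - m * x v ≤ β) disjoint_compl_right
  have a4 := h.slant m β
  simp only [mem_filter, mem_univ, true_and] at a3
  omega

theorem slope_bound {x y : V → ℝ} {t : ℕ} (h : Small G x y t) (k : ℕ) :
    (k + 1) * (2 * G.edgeFinset.card)
      ≤ Fintype.card V * (k * (k + 1) + 2 * (t / 2)) + 4 * (k + 1) * t := by
  classical
  rw [← e2_univ]
  obtain ⟨T, hT, mT⟩ := exists_max_image
    (univ.filter fun T : Finset V => Down x T ∧ Reach (cutU G T) (t / 2 + 1) T) card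
    ⟨∅, mem_filter.mpr ⟨mem_univ _, by simp [Down], Reach.nil⟩⟩
  obtain ⟨t1, t2⟩ := (mem_filter.mp hT).2
  have b1 := chain_slope G T (t / 2) k t2
  by_cases hu : T = univ
  · rw [hu, card_univ] at b1; omega
  obtain ⟨w, w1, w2⟩ := down_succ x h.inj T t1 hu
  have n1 : ¬ Reach (cutU G (insert w T)) (t / 2 + 1) (insert w T) := fun r => by
    have := mT _ (mem_filter.mpr ⟨mem_univ _, w2, r⟩)
    rw [card_insert_of_notMem w1] at this; omega
  have r2 : Reach (cutU G (insert w T)ᶜ) (t / 2 + 1) (insert w T)ᶜ := by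
    by_contra n2
    have := widths G h _ w2 _ _ n1 n2
    omega
  have b2 := chain_slope G _ (t / 2) k r2
  have s3 := split3 G T w
  have v1 := h.vert T t1
  have v2 := h.vert _ w2
  have cc : T.card + (insert w T)ᶜ.card ≤ Fintype.card V := by
    rw [card_compl, card_insert_of_notMem w1]
    have := card_le_univ (insert w T)
    rw [card_insert_of_notMem w1] at this
    omega
  have s4 : e2 G univ ≤ e2 G T + e2 G (insert w T)ᶜ + 4 * t := by omega
  have s5 := Nat.mul_le_mul_left (k + 1) s4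
  have s6 := Nat.mul_le_mul_right (k * (k + 1) + 2 * (t / 2)) cc
  nlinarith

theorem block_bound {x y : V → ℝ} {t : ℕ} (h : Small G x y t) (a r : ℕ)
    (h0 : 2 ≤ Fintype.card V)
    (h1 : (r + 1) * a ≤ Fintype.card V / 2) (h2 : (Fintype.card V + 1) / 2 ≤ (r + 1) * (a + 1)) :
    G.edgeFinset.card + (r + 1) * (a * (a + 1)) ≤ a * Fintype.card V + (r + 1) * t := by
  classical
  obtain ⟨T, t1, t2⟩ := down_card x h.inj (Fintype.card V / 2) (by omega)
  have t3 : Tᶜ.card = (Fintype.card V + 1) / 2 := by rw [card_compl, t2]; omega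
  have ex : ∀ U : Finset V, U ≠ ∅ → ∃ w, Reach (cutU G U) (w + 1) U ∧ ¬ Reach (cutU G U) w U := by
    intro U hU
    have e : ∃ s, Reach (cutU G U) s U := ⟨_, reach_all _ U⟩
    have p : Nat.find e ≠ 0 := fun z => hU (reach_zero (z ▸ Nat.find_spec e))
    obtain ⟨w, hw⟩ := Nat.exists_eq_succ_of_ne_zero p
    exact ⟨w, by have := Nat.find_spec e; rwa [hw] at this, Nat.find_min e (by omega)⟩
  obtain ⟨w1, r1, n1⟩ := ex T (fun e => by rw [e, card_empty] at t2; omega)
  obtain ⟨w2, r2, n2⟩ := ex Tᶜ (fun e => by rw [e, card_empty] at t3; omega)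
  have ww := widths G h T t1 _ _ n1 n2
  have b1 := chain_blocks G T w1 a r1 r (by omega) (by omega)
  have b2 := chain_blocks G Tᶜ w2 a r2 r (by omega) (by omega)
  have s2 := split2 G T
  rw [e2_univ] at s2
  have v1 := h.vert T t1
  have cc : T.card + Tᶜ.card = Fintype.card V := by omega
  have s5 := Nat.mul_le_mul_left r ww
  rw [← cc]
  nlinarith

end Pool.Agent.H98.Cut
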