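import Pool.Agent.H98.Cut2
import Pool.Agent.H98.Cut7

namespace Pool.Agent.H98.Cut

open Finset

variable {V : Type*} [Fintype V] [DecidableEq V]

lemma sep_cut (p : V → ℝ × ℝ) (G : SimpleGraph V) [DecidableRel G.Adj] (α β : ℝ) (S : Finset V)
    (hS : ∀ a ∈ S, ∀ b, b ∉ S → α * (p a).1 + β * (p a).2 < α * (p b).1 + β * (p b).2) :
    ∃ γ : ℝ, (∀ v, α * (p v).1 + β * (p v).2 ≠ γ) ∧
      cutU G univ S ≤ Set.ncard {e ∈ G.edgeSet | ∃ u v, e = s(u, v) ∧
          ∃ x ∈ segment ℝ (p u) (p v), α * x.1 + β * x.2 = γ} := by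
  classical
  obtain ⟨γ, g1, g2⟩ := Finset.exists_between' (S.image fun v => α * (p v).1 + β * (p v).2)
    (Sᶜ.image fun v => α * (p v).1 + β * (p v).2) (by
      intro x hx y hy
      obtain ⟨a, ha, rfl⟩ := mem_image.mp hx
      obtain ⟨b, hb, rfl⟩ := mem_image.mp hy
      exact hS a ha b (mem_compl.mp hb))
  have k1 : ∀ v ∈ S, α * (p v).1 + β * (p v).2 < γ := fun v hv =>
    g1 _ (mem_image.mpr ⟨v, hv, rfl⟩)
  have k2 : ∀ v, v ∉ S → γ < α * (p v).1 + β * (p v).2 := fun v hv =>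
    g2 _ (mem_image.mpr ⟨v, mem_compl.mpr hv, rfl⟩)
  refine ⟨γ, fun v => ?_, ?_⟩
  · by_cases c : v ∈ S
    · exact (k1 v c).ne
    · exact (k2 v c).ne'
  set P : Finset (V × V) := univ.filter fun q => G.Adj q.1 q.2 ∧ q.1 ∈ S ∧ q.2 ∉ S with hP
  have c1 : cutU G univ S = P.card := by
    unfold cutU
    rw [hP, card_filter, Fintype.sum_prod_type]
    simp
  have c2 : P.card = (P.image fun q => s(q.1, q.2)).card := by
    symm
    apply card_image_of_injOn
    intro q hq r hr e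
    have hq' := (mem_filter.mp hq).2
    have hr' := (mem_filter.mp hr).2
    rcases Sym2.eq_iff.mp e with ⟨e1, e2⟩ | ⟨e1, e2⟩
    · exact Prod.ext e1 e2
    · exact absurd (e1 ▸ hq'.2.1) hr'.2.2
  rw [c1, c2, ← Set.ncard_coe_finset]
  refine Set.ncard_le_ncard (fun e he => ?_) (Set.toFinite _)
  obtain ⟨q, hq, rfl⟩ := mem_image.mp (mem_coe.mp he)
  have hq' := (mem_filter.mp hq).2
  refine ⟨hq'.1, q.1, q.2, rfl, ?_⟩
  have h1 := k1 _ hq'.2.1
  have h2 := k2 _ hq'.2.2
  set A := α * (p q.1).1 + β * (p q.1).2 with hA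
  set C := α * (p q.2).1 + β * (p q.2).2 with hC
  have hpos : 0 < C - A := by linarith
  refine ⟨((C - γ) / (C - A)) • p q.1 + ((γ - A) / (C - A)) • p q.2,
    ⟨(C - γ) / (C - A), (γ - A) / (C - A), div_nonneg (by linarith) hpos.le,
      div_nonneg (by linarith) hpos.le, by field_simp; ring, rfl⟩, ?_⟩
  simp only [Prod.fst_add, Prod.snd_add, Prod.smul_fst, Prod.smul_snd, smul_eq_mul]
  field_simp
  linear_combination (γ - C) * hA + (A - γ) * hC

theorem small_of_lines (p : V → ℝ × ℝ) (hinj : Function.Injective p)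
    (hgp : ∀ a b c, a ≠ b → a ≠ c → b ≠ c → ¬ Collinear ℝ ({p a, p b, p c} : Set (ℝ × ℝ)))
    (G : SimpleGraph V) [DecidableRel G.Adj] (t : ℕ)
    (H : ∀ α β γ : ℝ, (α ≠ 0 ∨ β ≠ 0) → (∀ v, α * (p v).1 + β * (p v).2 ≠ γ) →
      Set.ncard {e ∈ G.edgeSet | ∃ u v, e = s(u, v) ∧
          ∃ x ∈ segment ℝ (p u) (p v), α * x.1 + β * x.2 = γ} ≤ t) :
    ∃ x y : V → ℝ, Small G x y t := by
  classical
  obtain ⟨ε, hε⟩ := Infinite.exists_notMem_finset ((univ : Finset (V × V)).image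
    fun q => -((p q.1).1 - (p q.2).1) / ((p q.1).2 - (p q.2).2))
  refine ⟨fun v => (p v).1 + ε * (p v).2, fun v => (p v).2, ?_, ?_, ?_, ?_⟩
  · intro a b e
    simp only at e
    by_cases c : (p a).2 - (p b).2 = 0
    · apply hinj
      have c2 : (p a).2 = (p b).2 := by linarith
      rw [c2] at e
      exact Prod.ext (by linarith) c2
    · exfalso
      apply hε
      refine mem_image.mpr ⟨(a, b), mem_univ _, ?_⟩
      simp only
      rw [div_eq_iff c]
      linarith
  · intro a b c h1 h2 h3 m β e1 e2 e3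
    refine hgp a b c h1 h2 h3 (collinear_of_det3 _ _ _ (fun e => h1 (hinj e)) ?_)
    unfold det3
    have f1 : (p b).2 - (p a).2 = m * (((p b).1 - (p a).1) + ε * ((p b).2 - (p a).2)) := by
      linarith
    have f2 : (p c).2 - (p a).2 = m * (((p c).1 - (p a).1) + ε * ((p c).2 - (p a).2)) := by
      linarith
    linear_combination (((p b).1 - (p a).1) + ε * ((p b).2 - (p a).2)) * f2
      - (((p c).1 - (p a).1) + ε * ((p c).2 - (p a).2)) * f1
  · intro T hT
    obtain ⟨γ, g1, g2⟩ := sep_cut p G 1 ε T (fun a ha b hb => by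
      have := hT a ha b hb
      simp only at this
      linarith)
    exact g2.trans (H 1 ε γ (Or.inl one_ne_zero) g1)
  · intro m β
    obtain ⟨γ, g1, g2⟩ := sep_cut p G (-m) (1 - m * ε)
      (univ.filter fun v => (p v).2 - m * ((p v).1 + ε * (p v).2) ≤ β) (fun a ha b hb => by
      simp only [mem_filter, mem_univ, true_and, not_le] at ha hb
      nlinarith)
    refine g2.trans (H _ _ γ ?_ g1)
    by_cases c : m = 0
    · right; rw [c]; simp
    · left; exact neg_ne_zero.mpr c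

end Pool.Agent.H98.Cut
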