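import Pool.Agent.H98.Cut5

namespace Pool.Agent.H98.Cut

open Finset

/-- The circulant graph: i and j are joined when their cyclic distance is at most k. -/
def circ (n k : ℕ) : SimpleGraph (Fin n) :=
  SimpleGraph.fromRel fun i j => (i : ℕ) < j ∧ ((j : ℕ) ≤ i + k ∨ (i : ℕ) + n ≤ j + k)

def cpairs (n k : ℕ) : Set (Fin n × Fin n) :=
  {x | (x.1 : ℕ) < x.2 ∧ ((x.2 : ℕ) ≤ x.1 + k ∨ (x.1 : ℕ) + n ≤ x.2 + k)}

lemma cedge_iff (n k : ℕ) (e : Sym2 (Fin n)) :
    e ∈ (circ n k).edgeSet ↔ ∃ x ∈ cpairs n k, e = s(x.1, x.2) := by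
  induction e using Sym2.ind with
  | h u v =>
    rw [SimpleGraph.mem_edgeSet, circ, SimpleGraph.fromRel_adj]
    constructor
    · rintro ⟨_, h | h⟩
      · exact ⟨(u, v), h, rfl⟩
      · exact ⟨(v, u), h, Sym2.eq_swap⟩
    · rintro ⟨x, hx, e⟩
      have hlt : (x.1 : ℕ) < x.2 := hx.1
      rcases Sym2.eq_iff.mp e with ⟨rfl, rfl⟩ | ⟨rfl, rfl⟩
      · exact ⟨fun e => by rw [e] at hlt; omega, Or.inl hx⟩
      · exact ⟨fun e => by rw [e] at hlt; omega, Or.inr hx⟩

lemma tri_card (k : ℕ) :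
    2 * ((range (k + 1)).biUnion fun l => (range l).image fun a => (l, a)).card ≤ k ^ 2 + k := by
  have c1 : ((range (k + 1)).biUnion fun l => (range l).image fun a => (l, a)).card
      ≤ ∑ l ∈ range (k + 1), l :=
    card_biUnion_le.trans (sum_le_sum fun l _ => card_image_le.trans (by simp))
  have c2 := sum_range_id_mul_two (k + 1)
  simp only [Nat.add_sub_cancel] at c2
  nlinarith

lemma cinterval_cut (n k : ℕ) (g : ℕ → ℝ)
    (hg : ∀ a b c : ℕ, a ≤ b → b ≤ c → g a < 0 → g c < 0 → g b < 0) :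
    Set.ncard {x ∈ cpairs n k | ¬ (g x.1 < 0 ↔ g x.2 < 0)} ≤ k ^ 2 + k := by
  classical
  by_cases hne : ((range n).filter fun i => g i < 0).Nonempty
  · set l := ((range n).filter fun i => g i < 0).min' hne with hl
    set r := ((range n).filter fun i => g i < 0).max' hne with hr
    have l0 : g l < 0 := (mem_filter.mp (min'_mem _ hne)).2
    have r0 : g r < 0 := (mem_filter.mp (max'_mem _ hne)).2
    have rn : r < n := mem_range.mp (mem_filter.mp (max'_mem _ hne)).1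
    have l1 : ∀ i : Fin n, g i < 0 → l ≤ i := fun i hi =>
      min'_le _ _ (mem_filter.mpr ⟨mem_range.mpr i.2, hi⟩)
    have r1 : ∀ i : Fin n, g i < 0 → (i : ℕ) ≤ r := fun i hi =>
      le_max' _ _ (mem_filter.mpr ⟨mem_range.mpr i.2, hi⟩)
    set T := (range (k + 1)).biUnion fun l => (range l).image fun a => (l, a) with hT
    have mT : ∀ a b : ℕ, a ≤ k → b < a → (a, b) ∈ (T : Set (ℕ × ℕ)) := by
      intro a b h1 h2
      simp only [hT, mem_coe, mem_biUnion, mem_image, mem_range, Prod.mk.injEq]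
      exact ⟨a, by omega, b, h2, rfl, rfl⟩
    -- arcs entering the interval, arcs leaving it
    set A : Set (Fin n × Fin n) := {x | (x.1 : ℕ) < x.2 ∧
      (((x.2 : ℕ) ≤ x.1 + k ∧ (x.1 : ℕ) < l ∧ l ≤ x.2) ∨
       (¬ (x.2 : ℕ) ≤ x.1 + k ∧ (x.1 : ℕ) + n ≤ x.2 + k ∧ l ≤ x.1))} with hA
    set B : Set (Fin n × Fin n) := {x | (x.1 : ℕ) < x.2 ∧
      (((x.2 : ℕ) ≤ x.1 + k ∧ (x.1 : ℕ) ≤ r ∧ r < x.2) ∨
       (¬ (x.2 : ℕ) ≤ x.1 + k ∧ (x.1 : ℕ) + n ≤ x.2 + k ∧ (x.2 : ℕ) ≤ r))} with hB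
    have sub : {x ∈ cpairs n k | ¬ (g x.1 < 0 ↔ g x.2 < 0)} ⊆ A ∪ B := by
      rintro x ⟨⟨hlt, hx⟩, h⟩
      by_cases c : g x.1 < 0
      · have c2 : ¬ g x.2 < 0 := fun c2 => h ⟨fun _ => c2, fun _ => c⟩
        have d1 := l1 _ c
        have d2 := r1 _ c
        have d3 : r < x.2 := by
          by_contra c3
          exact c2 (hg x.1 x.2 r hlt.le (by omega) c r0)
        by_cases s : (x.2 : ℕ) ≤ x.1 + k
        · exact Or.inr ⟨hlt, Or.inl ⟨s, d2, d3⟩⟩
        · exact Or.inl ⟨hlt, Or.inr ⟨s, by omega, d1⟩⟩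
      · have c2 : g x.2 < 0 := by
          by_contra c2
          exact h ⟨fun a => absurd a c, fun a => absurd a c2⟩
        have d1 := l1 _ c2
        have d2 := r1 _ c2
        have d3 : (x.1 : ℕ) < l := by
          by_contra c3
          exact c (hg l x.1 x.2 (by omega) hlt.le l0 c2)
        by_cases s : (x.2 : ℕ) ≤ x.1 + k
        · exact Or.inl ⟨hlt, Or.inl ⟨s, d3, d1⟩⟩
        · exact Or.inr ⟨hlt, Or.inr ⟨s, by omega, d2⟩⟩
    have cA : A.ncard ≤ T.card := by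
      rw [← Set.ncard_coe_finset T]
      refine Set.ncard_le_ncard_of_injOn (fun x => if (x.2 : ℕ) ≤ x.1 + k
        then ((x.2 : ℕ) - x.1, (x.2 : ℕ) - l) else ((x.1 : ℕ) + n - x.2, (x.1 : ℕ) - l))
        ?_ ?_ (Set.toFinite _)
      · rintro x ⟨h1, h2⟩
        have := x.2.2
        split_ifs with s
        · exact mT _ _ (by omega) (by omega)
        · exact mT _ _ (by omega) (by omega)
      · rintro x ⟨h1, h2⟩ y ⟨g1, g2⟩ e
        have := x.2.2
        have := y.2.2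
        simp only at e
        split_ifs at e with s1 s2 s2 <;> simp only [Prod.mk.injEq] at e <;>
          exact Prod.ext (Fin.ext (by omega)) (Fin.ext (by omega))
    have cB : B.ncard ≤ T.card := by
      rw [← Set.ncard_coe_finset T]
      refine Set.ncard_le_ncard_of_injOn (fun x => if (x.2 : ℕ) ≤ x.1 + k
        then ((x.2 : ℕ) - x.1, r - (x.1 : ℕ)) else ((x.1 : ℕ) + n - x.2, r - (x.2 : ℕ)))
        ?_ ?_ (Set.toFinite _)
      · rintro x ⟨h1, h2⟩
        have := x.2.2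
        split_ifs with s
        · exact mT _ _ (by omega) (by omega)
        · exact mT _ _ (by omega) (by omega)
      · rintro x ⟨h1, h2⟩ y ⟨g1, g2⟩ e
        have := x.2.2
        have := y.2.2
        simp only at e
        split_ifs at e with s1 s2 s2 <;> simp only [Prod.mk.injEq] at e <;>
          exact Prod.ext (Fin.ext (by omega)) (Fin.ext (by omega))
    have h1 := Set.ncard_le_ncard sub (Set.toFinite _)
    have h2 := Set.ncard_union_le A B
    have h3 := tri_card k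
    rw [← hT] at h3
    omega
  · have : {x ∈ cpairs n k | ¬ (g x.1 < 0 ↔ g x.2 < 0)} = ∅ := by
      ext x
      simp only [Set.mem_setOf_eq, Set.mem_empty_iff_false, iff_false, not_and, not_not]
      intro _
      have a : ∀ i : Fin n, ¬ g i < 0 := fun i hi =>
        hne ⟨i, mem_filter.mpr ⟨mem_range.mpr i.2, hi⟩⟩
      exact ⟨fun h => absurd h (a _), fun h => absurd h (a _)⟩
    rw [this]; simp

lemma cline_cut_aux (n k : ℕ) (α β γ : ℝ) (hβ : 0 ≤ β)
    (hv : ∀ v, α * (par n v).1 + β * (par n v).2 ≠ γ) :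
    Set.ncard {e ∈ (circ n k).edgeSet | ∃ u v, e = s(u, v) ∧
        ∃ x ∈ segment ℝ (par n u) (par n v), α * x.1 + β * x.2 = γ} ≤ k ^ 2 + k := by
  refine le_trans ?_ (cinterval_cut n k (fun i => α * i + β * (i : ℝ) ^ 2 - γ)
    (fun a b c h1 h2 ha hc => conv_quad α β γ hβ a b c h1 h2 ha hc))
  refine le_trans (Set.ncard_le_ncard ?_ (Set.toFinite _))
    (Set.ncard_image_le (f := fun x : Fin n × Fin n => s(x.1, x.2)) (Set.toFinite _))
  rintro e ⟨he, u, v, rfl, x, ⟨s, t, hs, ht, hst, rfl⟩, hx⟩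
  obtain ⟨y, hy, e⟩ := (cedge_iff n k _).mp he
  refine ⟨y, ⟨hy, ?_⟩, e.symm⟩
  have hu := hv u
  have hw := hv v
  simp only [par, Prod.fst_add, Prod.snd_add, Prod.smul_fst, Prod.smul_snd, smul_eq_mul]
    at hx hu hw
  have key : ¬ (α * ((u : ℕ) : ℝ) + β * ((u : ℕ) : ℝ) ^ 2 - γ < 0 ↔
      α * ((v : ℕ) : ℝ) + β * ((v : ℕ) : ℝ) ^ 2 - γ < 0) := by
    intro h
    set A := α * ((u : ℕ) : ℝ) + β * ((u : ℕ) : ℝ) ^ 2 - γ with hA
    set C := α * ((v : ℕ) : ℝ) + β * ((v : ℕ) : ℝ) ^ 2 - γ with hC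
    have z : s * A + t * C = 0 := by
      rw [hA, hC]; linear_combination hx - γ * hst
    have a0 : A ≠ 0 := fun e => hu (by linarith)
    have c0 : C ≠ 0 := fun e => hw (by linarith)
    by_cases c : A < 0
    · have c2 := h.mp c
      have m1 : max A C < 0 := max_lt c c2
      nlinarith [le_max_left A C, le_max_right A C]
    · have c2 : ¬ C < 0 := fun c2 => c (h.mpr c2)
      have m1 : 0 < min A C := lt_min (lt_of_le_of_ne (not_lt.mp c) a0.symm)
        (lt_of_le_of_ne (not_lt.mp c2) c0.symm)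
      nlinarith [min_le_left A C, min_le_right A C]
  rcases Sym2.eq_iff.mp e with ⟨e1, e2⟩ | ⟨e1, e2⟩
  · rw [← e1, ← e2]; exact key
  · rw [← e1, ← e2]; exact fun h => key h.symm

lemma cline_cut (n k : ℕ) (α β γ : ℝ)
    (hv : ∀ v, α * (par n v).1 + β * (par n v).2 ≠ γ) :
    Set.ncard {e ∈ (circ n k).edgeSet | ∃ u v, e = s(u, v) ∧
        ∃ x ∈ segment ℝ (par n u) (par n v), α * x.1 + β * x.2 = γ} ≤ k ^ 2 + k := by
  rcases le_total 0 β with h | h
  · exact cline_cut_aux n k α β γ h hv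
  · have := cline_cut_aux n k (-α) (-β) (-γ) (by linarith) (fun v e => hv v (by linarith))
    refine le_trans (le_of_eq ?_) this
    congr 1
    ext e
    simp only [Set.mem_setOf_eq]
    refine and_congr_right fun _ => exists_congr fun u => exists_congr fun v =>
      and_congr_right fun _ => exists_congr fun x => and_congr_right fun _ => ?_
    constructor <;> intro h <;> linarith

lemma cedge_count (n k : ℕ) (hn : 2 * k + 1 ≤ n) : n * k ≤ (circ n k).edgeSet.ncard := by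
  classical
  have h1 : (cpairs n k).ncard ≤ (circ n k).edgeSet.ncard := by
    refine Set.ncard_le_ncard_of_injOn (fun x => s(x.1, x.2))
      (fun x hx => (cedge_iff n k _).mpr ⟨x, hx, rfl⟩) ?_ (Set.toFinite _)
    intro x hx y hy e
    have a : (x.1 : ℕ) < x.2 := hx.1
    have b : (y.1 : ℕ) < y.2 := hy.1
    rcases Sym2.eq_iff.mp e with ⟨e1, e2⟩ | ⟨e1, e2⟩
    · exact Prod.ext e1 e2
    · rw [e1, e2] at a; omega
  refine le_trans ?_ h1
  set A : Finset (ℕ × ℕ) := (range n ×ˢ range k).image fun x =>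
    if x.1 + x.2 + 1 < n then (x.1, x.1 + x.2 + 1) else (x.1 + x.2 + 1 - n, x.1) with hA
  have cA : A.card = n * k := by
    rw [hA, card_image_of_injOn, card_product, card_range, card_range]
    intro x hx y hy e
    simp only [coe_product, coe_range, Set.mem_prod, Set.mem_Iio] at hx hy
    simp only at e
    split_ifs at e with s1 s2 s2 <;> simp only [Prod.mk.injEq] at e <;>
      exact Prod.ext (by omega) (by omega)
  rw [← cA, ← Set.ncard_coe_finset]
  refine le_trans (Set.ncard_le_ncard ?_ (Set.toFinite _))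
    (Set.ncard_image_le (f := fun x : Fin n × Fin n => ((x.1 : ℕ), (x.2 : ℕ))) (Set.toFinite _))
  intro z hz
  simp only [hA, mem_coe, mem_image, mem_product, mem_range] at hz
  obtain ⟨x, ⟨h1, h2⟩, rfl⟩ := hz
  split_ifs with s
  · refine ⟨(⟨x.1, by omega⟩, ⟨x.1 + x.2 + 1, by omega⟩), ⟨?_, Or.inl ?_⟩, rfl⟩
    · show x.1 < x.1 + x.2 + 1
      omega
    · show x.1 + x.2 + 1 ≤ x.1 + k
      omega
  · refine ⟨(⟨x.1 + x.2 + 1 - n, by omega⟩, ⟨x.1, by omega⟩), ⟨?_, Or.inr ?_⟩, rfl⟩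
    · show x.1 + x.2 + 1 - n < x.1
      omega
    · show x.1 + x.2 + 1 - n + n ≤ x.1 + k
      omega

end Pool.Agent.H98.Cut
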