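import Mathlib

set_option autoImplicit false

namespace Pool.Agent.H98.Cyc

open Finset

variable {ι : Type} [LinearOrder ι]

/-- all maximal minors on increasing row choices have one nonzero sign -/
def Alt (d : ℕ) (u : ι → Fin (d+1) → ℝ) : Prop :=
  ∀ z z' : Fin (d+1) → ι, StrictMono z → StrictMono z' →
    0 < (Matrix.of fun i => u (z i)).det * (Matrix.of fun i => u (z' i)).det

def Mono (m : ℕ) (z : ℕ → ι) : Prop := ∀ a b, a < b → b < m → z a < z b

theorem Mono.fin {m : ℕ} {z : ℕ → ι} (h : Mono m z) : StrictMono (fun k : Fin m => z k) :=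
  fun a b hab => h a b hab b.2

theorem Alt.li {d : ℕ} {u : ι → Fin (d+1) → ℝ} (h : Alt d u) {z : Fin (d+1) → ι}
    (hz : StrictMono z) : LinearIndependent ℝ (fun i => u (z i)) := by
  have h1 := h z z hz hz
  have h2 : (Matrix.of fun i => u (z i)).det ≠ 0 := by
    intro h0
    rw [h0] at h1
    simp at h1
  exact Matrix.linearIndependent_rows_of_det_ne_zero h2

theorem Alt.circF {d : ℕ} {u : ι → Fin (d+1) → ℝ} (h : Alt d u) {z : Fin (d+2) → ι}
    (hz : StrictMono z) : ∃ c : Fin (d+2) → ℝ, (∀ k, 0 < c k) ∧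
      ∑ k : Fin (d+2), ((-1:ℝ)^(k:ℕ) * c k) • u (z k) = 0 := by
  let D : Fin (d+2) → ℝ := fun k => (Matrix.of fun i => u (z (k.succAbove i))).det
  refine ⟨fun k => D k * D 0, fun k => h _ _ (hz.comp (Fin.strictMono_succAbove k))
    (hz.comp (Fin.strictMono_succAbove 0)), ?_⟩
  funext r
  let A : Matrix (Fin (d+2)) (Fin (d+2)) ℝ := Matrix.of fun i => Fin.cons (u (z i) r) (u (z i))
  have h0 : A.det = 0 := by
    apply Matrix.det_zero_of_column_eq (i := 0) (j := r.succ) (Fin.succ_ne_zero r).symm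
    intro k
    simp [A]
  rw [Matrix.det_succ_column_zero] at h0
  have h1 : ∀ k : Fin (d+2), (A.submatrix k.succAbove Fin.succ).det = D k := by
    intro k
    congr 1
  simp only [h1] at h0
  simp only [Finset.sum_apply, Pi.smul_apply, smul_eq_mul, Pi.zero_apply]
  have h2 : ∑ k : Fin (d+2), ((-1:ℝ)^(k:ℕ) * (D k * D 0)) * u (z k) r
      = (∑ k : Fin (d+2), (-1:ℝ)^(k:ℕ) * A k 0 * D k) * D 0 := by
    rw [Finset.sum_mul]
    refine Finset.sum_congr rfl fun k _ => ?_
    simp [A]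
    ring
  rw [h2, h0, zero_mul]

theorem Alt.circ {d : ℕ} {u : ι → Fin (d+1) → ℝ} (h : Alt d u) {z : ℕ → ι}
    (hz : Mono (d+2) z) : ∃ c : ℕ → ℝ, (∀ k, 0 < c k) ∧
      ∑ k ∈ range (d+2), ((-1:ℝ)^k * c k) • u (z k) = 0 := by
  obtain ⟨c, hc, hs⟩ := h.circF hz.fin
  refine ⟨fun k => if hk : k < d+2 then c ⟨k, hk⟩ else 1, fun k => ?_, ?_⟩
  · by_cases hk : k < d+2
    · simp [hk, hc]
    · simp [hk]
  · rw [← Fin.sum_univ_eq_sum_range (fun k => ((-1:ℝ)^k * (if hk : k < d+2 then c ⟨k, hk⟩ else 1)) • u (z k))]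
    rw [← hs]
    refine Finset.sum_congr rfl fun k _ => ?_
    simp [k.2]

theorem Alt.uniq {d : ℕ} {u : ι → Fin (d+1) → ℝ} (h : Alt d u) {z : ℕ → ι}
    (hz : Mono (d+2) z) (a : ℕ → ℝ) (hs : ∑ k ∈ range (d+2), a k • u (z k) = 0)
    {k0 : ℕ} (hk0 : k0 < d+2) (h0 : a k0 = 0) : ∀ k, k < d+2 → a k = 0 := by
  rw [← Fin.sum_univ_eq_sum_range (fun k => a k • u (z k)),
    Fin.sum_univ_succAbove _ (⟨k0, hk0⟩ : Fin (d+2))] at hs
  simp only [h0, zero_smul, zero_add] at hs
  have hl := h.li (hz.fin.comp (Fin.strictMono_succAbove (⟨k0, hk0⟩ : Fin (d+2))))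
  have h1 := Fintype.linearIndependent_iff.1 hl
    (fun i => a ((⟨k0, hk0⟩ : Fin (d+2)).succAbove i)) hs
  intro k hk
  by_cases hkk : k = k0
  · rw [hkk, h0]
  · have : (⟨k, hk⟩ : Fin (d+2)) ≠ ⟨k0, hk0⟩ := fun e => hkk (congrArg Fin.val e)
    obtain ⟨i, hi⟩ := Fin.exists_succAbove_eq this
    have h2 := h1 i
    rw [hi] at h2
    exact h2

theorem Alt.interp {d : ℕ} {u : ι → Fin (d+1) → ℝ} (h : Alt d u) {z : ℕ → ι}
    (hz : Mono (d+1) z) (b : ℕ → ℝ) :
    ∃ f : (Fin (d+1) → ℝ) →ₗ[ℝ] ℝ, ∀ k, k < d+1 → f (u (z k)) = b k := by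
  have hl := h.li hz.fin
  let B := basisOfLinearIndependentOfCardEqFinrank hl (by simp)
  refine ⟨B.constr ℝ (fun k => b k), fun k hk => ?_⟩
  have : u (z k) = B ⟨k, hk⟩ := by simp [B]
  rw [this, Module.Basis.constr_basis]

theorem Alt.span {d : ℕ} {u : ι → Fin (d+1) → ℝ} (h : Alt d u) {z : Fin (d+1) → ι}
    (hz : StrictMono z) (y : Fin (d+1) → ℝ) :
    ∃ a : Fin (d+1) → ℝ, ∑ k, a k • u (z k) = y := by
  have hl := h.li hz
  let B := basisOfLinearIndependentOfCardEqFinrank hl (by simp)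
  refine ⟨fun k => B.repr y k, ?_⟩
  have := B.sum_repr y
  simpa [B] using this

/-- apply a functional to a circuit -/
theorem app {d m : ℕ} {u : ι → Fin (d+1) → ℝ} {z : ℕ → ι} {a : ℕ → ℝ}
    (hs : ∑ k ∈ range m, a k • u (z k) = 0) (f : (Fin (d+1) → ℝ) →ₗ[ℝ] ℝ) :
    ∑ k ∈ range m, a k * f (u (z k)) = 0 := by
  have := congrArg f hs
  simpa [map_sum] using this

theorem neg_one_sq' (j : ℕ) : (-1:ℝ)^j * (-1:ℝ)^j = 1 := by
  rw [← mul_pow]; simp

theorem neg_one_le (j : ℕ) : (-1:ℝ)^j ≤ 1 := by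
  rcases neg_one_pow_eq_or ℝ j with h | h <;> rw [h] <;> norm_num

theorem neg_one_ge (j : ℕ) : -1 ≤ (-1:ℝ)^j := by
  rcases neg_one_pow_eq_or ℝ j with h | h <;> rw [h] <;> norm_num

/-- prepend a point -/
def pre (x : ι) (y : ℕ → ι) : ℕ → ι
  | 0 => x
  | k+1 => y k

theorem Mono.pre {m : ℕ} {y : ℕ → ι} (h : Mono m y) {x : ι} (hx : ∀ k, k < m → x < y k) :
    Mono (m+1) (pre x y) := by
  intro a b hab hb
  rcases b with _ | b
  · omega
  · rcases a with _ | a
    · exact hx b (by omega)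
    · exact h a b (by omega) (by omega)

theorem Mono.snoc {m : ℕ} {y : ℕ → ι} (h : Mono m y) {x : ι} (hx : ∀ k, k < m → y k < x) :
    Mono (m+1) (fun k => if k < m then y k else x) := by
  intro a b hab hb
  have ha : a < m := by omega
  by_cases hb' : b < m
  · simp only [ha, hb', if_true]
    exact h a b hab hb'
  · simp only [ha, hb', if_true, if_false]
    exact hx a ha

/-- the extremal functional -/
theorem pstar {m : ℕ} (hm : 1 ≤ m) {u : ι → Fin (m+1) → ℝ} (h : Alt m u) (h1 : ∀ x, u x 0 = 1)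
    {s : ℕ → ι} (hs : Mono (2*m+1) s) :
    ∃ f : (Fin (m+1) → ℝ) →ₗ[ℝ] ℝ, ∃ i, i < m ∧
      (∀ j, j ≤ m → 1 ≤ (-1:ℝ)^j * f (u (s (2*j)))) ∧
      (∀ j, j < m → 1 ≤ (-1:ℝ)^j * f (u (s (2*j+1)))) ∧
      1 < f (u (s 0)) ∧ (-1:ℝ)^i * f (u (s (2*i+1))) = 1 ∧
      (-1:ℝ)^(i+1) * f (u (s (2*(i+1)))) = 1 ∧
      ∀ x, s (2*m) < x → 1 ≤ (-1:ℝ)^m * f (u x) := by
  classical
  let y : Finset ℕ → ℕ → ι := fun A j => s (2*j + if j ∈ A then 1 else 0)
  let P : Finset (Finset ℕ) := (range (m+1)).powerset.filter (fun A => 0 ∈ A ∧ m ∉ A)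
  have hyM : ∀ A : Finset ℕ, m ∉ A → Mono (m+1) (y A) := by
    intro A hA a b hab hb
    apply hs
    · split_ifs <;> omega
    · by_cases hbm : b = m
      · subst hbm
        simp [hA]
      · split_ifs <;> omega
  have hy0 : ∀ A : Finset ℕ, 0 ∈ A → m ∉ A → ∀ k, k < m+1 → s 0 < y A k := by
    intro A h0 hA k hk
    apply hs
    · by_cases hk0 : k = 0
      · subst hk0
        simp [h0]
      · omega
    · by_cases hbm : k = m
      · subst hbm
        simp [hA]
      · split_ifs <;> omega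
  have hF : ∀ A : Finset ℕ, ∃ f : (Fin (m+1) → ℝ) →ₗ[ℝ] ℝ, m ∉ A →
      ∀ k, k < m+1 → f (u (y A k)) = (-1:ℝ)^k := by
    intro A
    by_cases hA : m ∉ A
    · obtain ⟨f, hf⟩ := h.interp (hyM A hA) (fun k => (-1:ℝ)^k)
      exact ⟨f, fun _ => hf⟩
    · exact ⟨0, fun h' => absurd h' hA⟩
  choose F hF using hF
  have hPne : P.Nonempty := by
    refine ⟨{0}, ?_⟩
    simp only [P, mem_filter, mem_powerset, singleton_subset_iff, mem_range, mem_singleton]
    refine ⟨by omega, trivial, by omega⟩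
  obtain ⟨A, hAP, hAmax⟩ := P.exists_max_image (fun A => F A (u (s 0))) hPne
  simp only [P, mem_filter, mem_powerset] at hAP
  obtain ⟨hAs, hA0, hAm⟩ := hAP
  let e : (Fin (m+1) → ℝ) →ₗ[ℝ] ℝ := LinearMap.proj 0
  have he : ∀ x, e (u x) = 1 := fun x => h1 x
  -- exchange
  have hex : ∀ A' : Finset ℕ, A' ⊆ range (m+1) → 0 ∈ A' → m ∉ A' → ∀ j, j < m+1 →
      (∀ k, k ≠ j → y A' k = y A k) → 1 ≤ (-1:ℝ)^j * F A (u (y A' j)) := by
    intro A' hs' h0' hm' j hj hk
    obtain ⟨c, hc, hcs⟩ := h.circ ((hyM A' hm').pre (hy0 A' h0' hm'))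
    have h2 := app hcs (F A - F A')
    rw [Finset.sum_range_succ'] at h2
    rw [Finset.sum_eq_single j] at h2
    · have h3 : F A' (u (s 0)) ≤ F A (u (s 0)) := hAmax A' (by
        simp only [P, mem_filter, mem_powerset]
        exact ⟨hs', h0', hm'⟩)
      simp only [pre, LinearMap.sub_apply, hF A' hm' j hj, pow_succ, pow_zero] at h2
      have h4 := neg_one_sq' j
      have h5 : c (j+1) * ((-1:ℝ)^j * F A (u (y A' j)) - 1)
          = c 0 * (F A (u (s 0)) - F A' (u (s 0))) := by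
        linear_combination (-1 : ℝ) * h2 + c (j+1) * h4
      have h6 : 0 ≤ c (j+1) * ((-1:ℝ)^j * F A (u (y A' j)) - 1) := by
        rw [h5]
        exact mul_nonneg (hc 0).le (by linarith)
      have h7 := (mul_nonneg_iff_of_pos_left (hc (j+1))).1 h6
      linarith
    · intro k hk1 hkj
      have hk2 : k < m+1 := by simpa using hk1
      simp only [pre, LinearMap.sub_apply]
      rw [hF A' hm' k hk2, hk k hkj, hF A hAm k hk2]
      simp
    · intro hj'
      exact absurd (mem_range.2 hj) hj'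
  have hown : ∀ j, j < m+1 → (-1:ℝ)^j * F A (u (y A j)) = 1 := by
    intro j hj
    rw [hF A hAm j hj, neg_one_sq']
  have hz : 1 < F A (u (s 0)) := by
    obtain ⟨c, hc, hcs⟩ := h.circ ((hyM A hAm).pre (hy0 A hA0 hAm))
    have h2 := app hcs (F A - e)
    rw [Finset.sum_range_succ'] at h2
    have h3 : ∑ k ∈ range (m+1), (-1:ℝ)^(k+1) * c (k+1) * (F A - e) (u (pre (s 0) (y A) (k+1))) < 0 := by
      have : ∑ k ∈ range (m+1), (-1:ℝ)^(k+1) * c (k+1) * (F A - e) (u (pre (s 0) (y A) (k+1)))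
          < ∑ k ∈ range (m+1), (0:ℝ) := by
        apply Finset.sum_lt_sum
        · intro k hk
          simp only [pre, LinearMap.sub_apply, he, hF A hAm k (mem_range.1 hk), pow_succ]
          have h4 := neg_one_sq' k
          have h5 := neg_one_le k
          have h6 := hc (k+1)
          nlinarith
        · refine ⟨1, mem_range.2 (by omega), ?_⟩
          simp only [pre, LinearMap.sub_apply, he, hF A hAm 1 (by omega)]
          have h6 := hc 2
          norm_num
          linarith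
      simpa using this
    simp only [pre, LinearMap.sub_apply, he, pow_zero] at h2 h3
    have h4 : 0 < c 0 * (F A (u (s 0)) - 1) := by linarith
    have h7 := (mul_pos_iff_of_pos_left (hc 0)).1 h4
    linarith
  have hex2 : ∃ i, i + 1 ∉ A := ⟨m - 1, by rwa [Nat.sub_add_cancel hm]⟩
  let i := Nat.find hex2
  have hi1 : i + 1 ∉ A := Nat.find_spec hex2
  have hi2 : i ≤ m - 1 := Nat.find_min' hex2 (by rwa [Nat.sub_add_cancel hm])
  have hi3 : i ∈ A := by
    rcases Nat.eq_zero_or_pos i with h0 | h0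
    · rw [h0]
      exact hA0
    · have := Nat.find_min hex2 (m := i - 1) (by omega)
      rw [Nat.sub_add_cancel h0] at this
      exact not_not.1 this
  refine ⟨F A, i, by omega, ?_, ?_, hz, ?_, ?_, ?_⟩
  · intro j hj
    by_cases hj0 : j = 0
    · subst hj0
      simpa using hz.le
    · have := hex (A.erase j) ((erase_subset _ _).trans hAs) (by simp [hA0, Ne.symm hj0])
        (by simp [hAm]) j (by omega) (by
          intro k hk
          simp [y, hk])
      simpa [y] using this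
  · intro j hj
    have := hex (insert j A) (by
        intro x hx
        rcases mem_insert.1 hx with rfl | hx
        · exact mem_range.2 (by omega)
        · exact hAs hx) (by simp [hA0])
        (by
          simp only [mem_insert, hAm, or_false]
          omega) j (by omega) (by
          intro k hk
          simp [y, hk])
    simpa [y] using this
  · have := hown i (by omega)
    simpa [y, hi3] using this
  · have := hown (i+1) (by omega)
    simpa [y, hi1] using this
  · intro x hx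
    have hx' : ∀ k, k < m+1 → y A k < x := by
      intro k hk
      by_cases hkm : k = m
      · subst hkm
        simpa [y, hAm] using hx
      · refine lt_trans (hs _ _ ?_ (by omega)) hx
        split_ifs <;> omega
    obtain ⟨c, hc, hcs⟩ := h.circ ((hyM A hAm).snoc hx')
    have h2 := app hcs (F A - (-1:ℝ)^m • e)
    rw [Finset.sum_range_succ] at h2
    have h3 : 0 ≤ ∑ k ∈ range (m+1), (-1:ℝ)^k * c k *
        (F A - (-1:ℝ)^m • e) (u (if k < m+1 then y A k else x)) := by
      apply Finset.sum_nonneg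
      intro k hk
      have hk' := mem_range.1 hk
      simp only [hk', if_true, LinearMap.sub_apply, LinearMap.smul_apply, he, hF A hAm k hk',
        smul_eq_mul, mul_one]
      have h4 := neg_one_sq' k
      have h5 := neg_one_le (k+m)
      rw [pow_add] at h5
      have h6 := hc k
      nlinarith
    simp only [lt_irrefl, if_false, LinearMap.sub_apply, LinearMap.smul_apply, he,
      smul_eq_mul, mul_one, pow_succ] at h2 h3
    have h4 := neg_one_sq' m
    have h5 : 0 ≤ c (m+1) * ((-1:ℝ)^m * F A (u x) - 1) := by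
      have h6 : c (m+1) * ((-1:ℝ)^m * F A (u x) - 1)
          = - ((-1:ℝ)^m * -1 * c (m+1) * (F A (u x) - (-1:ℝ)^m)) := by
        linear_combination c (m+1) * h4
      linarith
    have h7 := (mul_nonneg_iff_of_pos_left (hc (m+1))).1 h5
    linarith

end Pool.Agent.H98.Cyc
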