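import Pool.Agent.H98.Cyc4

set_option autoImplicit false

namespace Pool.Agent.H98.Cyc

open Finset
open scoped InnerProductSpace

theorem Alt.map {ι : Type} [LinearOrder ι] {d : ℕ} {u : ι → Fin (d+1) → ℝ} (h : Alt d u)
    (L : (Fin (d+1) → ℝ) →ₗ[ℝ] (Fin (d+1) → ℝ)) (hL : Function.Injective L) (s : ι → ℝ)
    (hs : ∀ i, 0 < s i) : Alt d (fun i => s i • L (u i)) := by
  have hd : LinearMap.det L ≠ 0 := by
    rw [Ne, LinearMap.det_eq_zero_iff_ker_ne_bot, not_not]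
    exact LinearMap.ker_eq_bot.2 hL
  have key : ∀ z : Fin (d+1) → ι, (Matrix.of fun i => s (z i) • L (u (z i))).det
      = (∏ i, s (z i)) * (Matrix.of fun i => u (z i)).det * LinearMap.det L := by
    intro z
    have e : (Matrix.of fun i => s (z i) • L (u (z i)))
        = Matrix.diagonal (fun i => s (z i)) * (Matrix.of fun i => u (z i))
          * (LinearMap.toMatrix' L).transpose := by
      ext i j
      rw [Matrix.mul_assoc, Matrix.diagonal_mul]
      have := congrFun (LinearMap.toMatrix'_mulVec L (u (z i))) j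
      simp only [Matrix.of_apply, Pi.smul_apply, smul_eq_mul, Matrix.mul_apply,
        Matrix.transpose_apply]
      rw [← this]
      simp only [Matrix.mulVec, dotProduct, mul_comm]
    rw [e, Matrix.det_mul, Matrix.det_mul, Matrix.det_diagonal, Matrix.det_transpose,
      LinearMap.det_toMatrix']
  intro z z' hz hz'
  rw [key, key]
  have a1 : 0 < ∏ i, s (z i) := Finset.prod_pos fun i _ => hs _
  have a2 : 0 < ∏ i, s (z' i) := Finset.prod_pos fun i _ => hs _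
  have a3 := h z z' hz hz'
  have a4 := mul_self_pos.2 hd
  have := mul_pos (mul_pos a1 a2) (mul_pos a3 a4)
  linarith

variable {d n : ℕ}

/-- projective change of coordinates -/
noncomputable def proj (c o : EuclideanSpace ℝ (Fin d)) : (Fin (d+1) → ℝ) →ₗ[ℝ] (Fin (d+1) → ℝ) where
  toFun y := Fin.cons (y 0 - ∑ r, (y r.succ - y 0 * c r) * o r) (fun r => y r.succ - y 0 * c r)
  map_add' x y := by
    funext r
    refine Fin.cases ?_ (fun i => ?_) r
    · simp only [Fin.cons_zero, Pi.add_apply]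
      have : ∑ r : Fin d, (x r.succ + y r.succ - (x 0 + y 0) * c r) * o r
          = ∑ r : Fin d, (x r.succ - x 0 * c r) * o r + ∑ r : Fin d, (y r.succ - y 0 * c r) * o r := by
        rw [← Finset.sum_add_distrib]
        exact Finset.sum_congr rfl fun r _ => by ring
      rw [this]
      ring
    · simp only [Fin.cons_succ, Pi.add_apply]
      ring
  map_smul' a x := by
    funext r
    refine Fin.cases ?_ (fun i => ?_) r
    · simp only [Fin.cons_zero, Pi.smul_apply, smul_eq_mul, RingHom.id_apply]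
      rw [mul_sub, Finset.mul_sum]
      congr 1
      exact Finset.sum_congr rfl fun r _ => by ring
    · simp only [Fin.cons_succ, Pi.smul_apply, smul_eq_mul, RingHom.id_apply]
      ring

theorem proj_inj (c o : EuclideanSpace ℝ (Fin d)) : Function.Injective (proj c o) := by
  rw [← LinearMap.ker_eq_bot, LinearMap.ker_eq_bot']
  intro y hy
  have h1 : ∀ r : Fin d, y r.succ - y 0 * c r = 0 := fun r => by
    simpa [proj] using congrFun hy r.succ
  have h0 : y 0 = 0 := by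
    have := congrFun hy 0
    simp only [proj, LinearMap.coe_mk, AddHom.coe_mk, Fin.cons_zero, h1] at this
    simpa using this
  funext r
  refine Fin.cases h0 (fun i => ?_) r
  have := h1 i
  rw [h0] at this
  simpa using this

theorem sep {v : Fin n → EuclideanSpace ℝ (Fin d)} (hd : 1 ≤ d) (h : Alt d (hom v))
    (hn : d+1 ≤ n) (c o : EuclideanSpace ℝ (Fin d))
    (ho : o ∈ interior {y | ∀ i, ⟪v i - c, y⟫_ℝ ≤ 1}) {N : ℕ} (hN : 2*d ≤ N) :
    ∃ w : Fin N → EuclideanSpace ℝ (Fin d), ∃ b : Fin N → ℝ,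
      ∀ u x₀ : EuclideanSpace ℝ (Fin d), u ≠ 0 → x₀ ∈ {y | ∀ i, ⟪v i - c, y⟫_ℝ ≤ 1} →
        (∀ y ∈ {y | ∀ i, ⟪v i - c, y⟫_ℝ ≤ 1}, ⟪u, y⟫_ℝ ≤ ⟪u, x₀⟫_ℝ) →
          ∃ i, ⟪w i, o⟫_ℝ < b i ∧
            ∀ x ∈ {y | ∀ i, ⟪v i - c, y⟫_ℝ ≤ 1}, ⟪u, x⟫_ℝ = ⟪u, x₀⟫_ℝ → b i < ⟪w i, x⟫_ℝ := by
  classical
  have push : ∀ {K : Set (EuclideanSpace ℝ (Fin d))} {p : EuclideanSpace ℝ (Fin d)},
      p ∈ interior K → ∀ q : EuclideanSpace ℝ (Fin d), ∃ s : ℝ, 0 < s ∧ p + s • q ∈ K := by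
    intro K p hp q
    have hc : Continuous fun s : ℝ => p + s • q := by fun_prop
    have hev : ∀ᶠ s in nhds (0:ℝ), p + s • q ∈ interior K :=
      hc.continuousAt.eventually (isOpen_interior.mem_nhds (by simpa using hp))
    obtain ⟨s, hs, hs0⟩ := ((hev.filter_mono nhdsWithin_le_nhds).and
      (self_mem_nhdsWithin (s := Set.Ioi (0:ℝ)))).exists
    exact ⟨s, hs0, interior_subset hs⟩
  have hA : ∀ i, 0 < 1 - ⟪v i - c, o⟫_ℝ := by
    intro i
    obtain ⟨s, hs, h1⟩ := push ho o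
    have h2 := h1 i
    rw [inner_add_right, inner_smul_right] at h2
    by_contra hcon
    nlinarith
  let v' : Fin n → EuclideanSpace ℝ (Fin d) := fun i => (1 - ⟪v i - c, o⟫_ℝ)⁻¹ • (v i - c)
  have h' : Alt d (hom v') := by
    have := h.map (proj c o) (proj_inj c o) (fun i => (1 - ⟪v i - c, o⟫_ℝ)⁻¹)
      (fun i => inv_pos.2 (hA i))
    have e : hom v' = fun i => (1 - ⟪v i - c, o⟫_ℝ)⁻¹ • proj c o (hom v i) := by
      funext i r
      refine Fin.cases ?_ (fun k => ?_) r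
      · have e2 : ∑ r, (v i r - c r) * o r = ⟪v i - c, o⟫_ℝ := by
          simp [PiLp.inner_apply, mul_comm]
        simp only [hom, proj, LinearMap.coe_mk, AddHom.coe_mk, Fin.cons_zero, Fin.cons_succ,
          Pi.smul_apply, smul_eq_mul, one_mul, e2]
        exact (inv_mul_cancel₀ (hA i).ne').symm
      · simp [hom, proj, v']
    rw [e]
    exact this
  have hv' : ∀ i x, ⟪v' i, x - o⟫_ℝ = 1 - (1 - ⟪v i - c, o⟫_ℝ)⁻¹ * (1 - ⟪v i - c, x⟫_ℝ) := by
    intro i x
    have := (hA i).ne'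
    simp only [v', real_inner_smul_left, inner_sub_right]
    field_simp
    ring
  obtain ⟨W, hW, δ, hδ, hW2⟩ := gen hd h' hn
  choose w hw hint using fun i => hW2 (v' i) (subset_convexHull ℝ _ ⟨i, rfl⟩)
  choose ρ hρ hρ2 using fun i => push (hint i) (v' i)
  haveI : Nonempty (Fin n) := ⟨⟨0, by omega⟩⟩
  obtain ⟨i0, hi0⟩ := Finite.exists_min ρ
  have hP : ∀ y ∈ convexHull ℝ (Set.range v'), ∀ x, (∀ i, ⟪v i - c, x⟫_ℝ ≤ 1) →
      ⟪y, x - o⟫_ℝ ≤ 1 := by
    intro y hy x hx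
    obtain ⟨a, ha, ha1, rfl⟩ := hull_repr hy
    rw [sum_inner, ← ha1]
    refine Finset.sum_le_sum fun i _ => ?_
    rw [real_inner_smul_left, hv']
    have := mul_nonneg (inv_pos.2 (hA i)).le (sub_nonneg.2 (hx i))
    nlinarith [ha i]
  obtain ⟨f, hf⟩ : ∃ f : Fin N → EuclideanSpace ℝ (Fin d), ∀ q ∈ W, ∃ j, f j = q := by
    refine ⟨fun j => if hj : j.val < W.card then (W.equivFin.symm ⟨j, hj⟩ : _) else 0, ?_⟩
    intro q hq
    refine ⟨⟨W.equivFin ⟨q, hq⟩, lt_of_lt_of_le (W.equivFin ⟨q, hq⟩).2 (hW.trans hN)⟩, ?_⟩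
    simp
  refine ⟨fun j => -(δ • f j), fun j => ⟪-(δ • f j), o⟫_ℝ + ρ i0 / 2, ?_⟩
  intro u x₀ hu hx₀ hmax
  obtain ⟨i, hi⟩ : ∃ i, ∀ x, (∀ k, ⟪v k - c, x⟫_ℝ ≤ 1) → ⟪u, x⟫_ℝ = ⟪u, x₀⟫_ℝ →
      ⟪v i - c, x⟫_ℝ = 1 := by
    by_contra hcon
    push Not at hcon
    choose X hX1 hX2 hX3 using hcon
    have hn' : (0:ℝ) < n := by exact_mod_cast (by omega : 0 < n)
    let m : EuclideanSpace ℝ (Fin d) := (n:ℝ)⁻¹ • ∑ k, X k
    have hm : m ∈ interior {y | ∀ i, ⟪v i - c, y⟫_ℝ ≤ 1} := by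
      have hopen : IsOpen {y : EuclideanSpace ℝ (Fin d) | ∀ i, ⟪v i - c, y⟫_ℝ < 1} := by
        rw [Set.setOf_forall]
        exact isOpen_iInter_of_finite fun i => isOpen_lt (by fun_prop) continuous_const
      refine interior_maximal (fun y hy i => (hy i).le) hopen fun i => ?_
      have : ∑ k, ⟪v i - c, X k⟫_ℝ < ∑ _k : Fin n, (1:ℝ) :=
        Finset.sum_lt_sum (fun k _ => hX1 k i) ⟨i, mem_univ _, lt_of_le_of_ne (hX1 i i) (hX3 i)⟩
      simp only [m, inner_smul_right, inner_sum]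
      rw [inv_mul_lt_iff₀ hn']
      simpa using this
    obtain ⟨s, hs, h1⟩ := push hm u
    have h2 := hmax _ h1
    have h3 : ⟪u, m⟫_ℝ = ⟪u, x₀⟫_ℝ := by
      simp only [m, inner_smul_right, inner_sum, hX2]
      simp only [sum_const, card_univ, Fintype.card_fin, nsmul_eq_mul]
      field_simp
    rw [inner_add_right, h3, inner_smul_right] at h2
    have h4 : 0 < ⟪u, u⟫_ℝ := real_inner_self_pos.2 hu
    nlinarith
  obtain ⟨j, hj⟩ := hf _ (hw i)
  refine ⟨j, by linarith [hρ i0], fun x hx hux => ?_⟩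
  have a1 := hP _ (hρ2 i) x hx
  have a2 : ⟪v' i, x - o⟫_ℝ = 1 := by rw [hv', hi x hx hux]; simp
  rw [inner_add_left, inner_add_left, real_inner_smul_left (v' i), a2, inner_sub_right] at a1
  simp only [hj, inner_neg_left]
  linarith [hi0 i, hρ i0]

end Pool.Agent.H98.Cyc
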