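import Pool.Agent.H98.Cyc8

set_option autoImplicit false

namespace Pool.Agent.H98.Cyc

open Finset Polynomial

theorem hull_strict {E : Type} [NormedAddCommGroup E] [NormedSpace ℝ E] (f : E →L[ℝ] ℝ)
    (S : Set E) (x : E) (h : ∀ z ∈ S, z = x ∨ f x < f z) :
    ∀ z ∈ convexHull ℝ S, z ≠ x → f x < f z := by
  have hc : Convex ℝ {z | z = x ∨ f x < f z} := by
    intro z1 h1 z2 h2 a b ha hb hab
    simp only [Set.mem_setOf_eq] at h1 h2 ⊢
    rcases ha.eq_or_lt with rfl | ha'
    · have : b = 1 := by linarith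
      subst this
      simpa using h2
    rcases hb.eq_or_lt with rfl | hb'
    · have : a = 1 := by linarith
      subst this
      simpa using h1
    have e : f x = a * f x + b * f x := by rw [← add_mul, hab, one_mul]
    rcases h1 with rfl | h1
    · rcases h2 with rfl | h2
      · exact Or.inl (Convex.combo_self hab _)
      · right
        simp only [map_add, map_smul, smul_eq_mul]
        nlinarith [mul_lt_mul_of_pos_left h2 hb']
    · right
      simp only [map_add, map_smul, smul_eq_mul]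
      rcases h2 with rfl | h2
      · nlinarith [mul_lt_mul_of_pos_left h1 ha']
      · nlinarith [mul_lt_mul_of_pos_left h1 ha', mul_lt_mul_of_pos_left h2 hb']
  intro z hz hne
  exact (convexHull_min h hc hz).resolve_left hne

theorem proper_cover {E : Type} [NormedAddCommGroup E] [NormedSpace ℝ E] [Nontrivial E]
    {K : Set E} (hK : IsCompact K) {N : ℕ}
    (h : ∃ W : Finset E, W.card ≤ N ∧ ∃ δ : ℝ, 0 < δ ∧ ∀ x ∈ K, ∃ w ∈ W, x + δ • w ∈ interior K) :
    ∃ k, k ≤ N ∧ ∃ s : Fin k → E, (∀ i, s i ≠ 0) ∧ K ⊆ ⋃ i, (fun p => s i + p) '' K := by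
  classical
  obtain ⟨W, hW, δ, _, h⟩ := h
  obtain ⟨ε, hε, hb⟩ := lebesgue_number_lemma_of_metric (c := fun w : W =>
      (fun x => x + δ • (w : E)) ⁻¹' interior K) hK
    (fun w => isOpen_interior.preimage (by fun_prop)) (fun x hx => by
      obtain ⟨w, hw, hx'⟩ := h x hx
      exact Set.mem_iUnion.2 ⟨⟨w, hw⟩, hx'⟩)
  haveI := Module.punctured_nhds_neBot ℝ E (0:E)
  obtain ⟨e, he, he2⟩ := (infinite_of_mem_nhds (0:E) (Metric.ball_mem_nhds 0 hε)).exists_notMem_finset
    (W.image fun w => -(δ • w))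
  refine ⟨W.card, hW, fun i => -(e + δ • (W.equivFin.symm i : E)), fun i hi => ?_, fun x hx => ?_⟩
  · apply he2
    refine mem_image.2 ⟨_, (W.equivFin.symm i).2, ?_⟩
    have := neg_eq_zero.1 hi
    exact (eq_neg_of_add_eq_zero_left this).symm
  · obtain ⟨w, hw⟩ := hb x hx
    have h1 : x + e ∈ Metric.ball x ε := by simpa using he
    have h2 := hw h1
    refine Set.mem_iUnion.2 ⟨W.equivFin w, x + e + δ • (w : E), interior_subset h2, ?_⟩
    simp only [Equiv.symm_apply_apply]
    abel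

theorem anti_le {E : Type} [NormedAddCommGroup E] [NormedSpace ℝ E] {K : Set E} {n k : ℕ}
    (v : Fin n → E) (hv : ∀ a, v a ∈ K)
    (h : ∀ a b, a ≠ b → ∃ f : E →L[ℝ] ℝ, ∀ z ∈ K, (z ≠ v a → f (v a) < f z) ∧
      (z ≠ v b → f z < f (v b)))
    (s : Fin k → E) (hs : ∀ i, s i ≠ 0) (hc : K ⊆ ⋃ i, (fun p => s i + p) '' K) : n ≤ k := by
  have : ∀ a, ∃ i, ∃ p ∈ K, s i + p = v a := fun a => by
    obtain ⟨i, p, hp, e⟩ := Set.mem_iUnion.1 (hc (hv a))
    exact ⟨i, p, hp, e⟩
  choose g p hp e using this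
  have hg : Function.Injective g := by
    intro a b hab
    by_contra hne
    obtain ⟨f, hf⟩ := h a b hne
    have ne : ∀ c, p c ≠ v c := fun c hc' => hs (g c) (by
      have := e c
      rw [hc'] at this
      simpa using this)
    have h1 := (hf _ (hp a)).1 (ne a)
    have h2 := (hf _ (hp b)).2 (ne b)
    rw [← e a, map_add] at h1
    rw [← e b, map_add, ← hab] at h2
    linarith
  simpa using Fintype.card_le_of_injective g hg

theorem exAnti (m : ℕ) : ∃ t : Fin (2*(m+2) - 1) → ℝ, StrictMono t ∧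
    ∀ a b, a ≠ b → ∃ f : EuclideanSpace ℝ (Fin (m+2)) →L[ℝ] ℝ,
      ∀ z ∈ convexHull ℝ (Set.range fun x => mom (m+2) (t x)),
        (z ≠ mom (m+2) (t a) → f (mom (m+2) (t a)) < f z) ∧
        (z ≠ mom (m+2) (t b) → f z < f (mom (m+2) (t b))) := by
  classical
  obtain ⟨ι, hι, t, hc, h⟩ := exSA m
  have hcard : (univ.image t).card = 2*(m+2) - 1 := by
    rw [card_image_of_injective _ h.inj, card_univ, hc]
  let e := (univ.image t).orderEmbOfFin hcard
  have he : ∀ k, ∃ α, t α = e k := fun k => by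
    obtain ⟨α, _, hα⟩ := mem_image.1 ((univ.image t).orderEmbOfFin_mem hcard k)
    exact ⟨α, hα⟩
  choose g hg using he
  have ginj : ∀ a b, g a = g b → a = b := fun a b e' => by
    have := congrArg t e'
    rw [hg, hg] at this
    exact e.injective this
  refine ⟨e, e.strictMono, fun a b hab => ?_⟩
  obtain ⟨p, hp, h1, h2⟩ := h (g b) (g a) (fun e' => hab (ginj _ _ e').symm)
  let f : EuclideanSpace ℝ (Fin (m+2)) →L[ℝ] ℝ :=
    ∑ r : Fin (m+2), p.coeff ((r:ℕ)+1) • EuclideanSpace.proj r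
  have hf : ∀ x, f (mom (m+2) (e x)) = p.eval (t (g x)) - p.coeff 0 := by
    intro x
    rw [hg, eval_eq_sum_range' (Nat.lt_succ_of_le hp), Finset.sum_range_succ',
      ← Fin.sum_univ_eq_sum_range (fun r => p.coeff (r+1) * e x ^ (r+1))]
    simp [f, mom]
  simp only at h1 h2
  refine ⟨f, fun z hz => ⟨hull_strict f _ _ ?_ z hz, fun hne => ?_⟩⟩
  · rintro _ ⟨x, rfl⟩
    by_cases x1 : x = a
    · exact Or.inl (by rw [x1])
    right
    simp only [hf]
    by_cases x2 : x = b
    · rw [x2]; linarith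
    linarith [(h2 (g x) (fun e' => x2 (ginj _ _ e')) (fun e' => x1 (ginj _ _ e'))).1]
  · have := hull_strict (-f) _ (mom (m+2) (e b)) ?_ z hz hne
    · simpa using this
    rintro _ ⟨x, rfl⟩
    by_cases x2 : x = b
    · exact Or.inl (by rw [x2])
    right
    simp only [ContinuousLinearMap.neg_apply, hf]
    by_cases x1 : x = a
    · rw [x1]; linarith
    linarith [(h2 (g x) (fun e' => x2 (ginj _ _ e')) (fun e' => x1 (ginj _ _ e'))).2]

end Pool.Agent.H98.Cyc
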