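import Pool.Agent.H98.Cyc1

set_option autoImplicit false

namespace Pool.Agent.H98.Cyc

open Finset

variable {ι : Type} [LinearOrder ι]

def Oth (d k : ℕ) : Finset ℕ := ((range (d+2)).erase k).erase (k+1)

theorem mem_Oth {d k j : ℕ} : j ∈ Oth d k ↔ j ≠ k+1 ∧ j ≠ k ∧ j < d+2 := by
  simp [Oth]

theorem split {M : Type} [AddCommMonoid M] {d k : ℕ} (hk : k+1 < d+2) (F : ℕ → M) :
    ∑ j ∈ range (d+2), F j = ∑ j ∈ Oth d k, F j + F (k+1) + F k := by
  rw [Oth, Finset.sum_erase_add _ _ (by simp; omega), Finset.sum_erase_add _ _ (by simp; omega)]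

def Gd (d : ℕ) (u : ι → Fin (d+1) → ℝ) (a b : ι) : Prop :=
  ∃ (z : ℕ → ι) (k : ℕ) (c : ℕ → ℝ), Mono (d+2) z ∧ k+1 < d+2 ∧ z k = a ∧ z (k+1) = b ∧
    (∀ j, 0 < c j) ∧ ∑ j ∈ range (d+2), ((-1:ℝ)^j * c j) • u (z j) = 0 ∧
    ∑ j ∈ Oth d k, c j < c k + c (k+1)

def idx (i m : ℕ) : ℕ :=
  if m ≤ i then 2*m else if m = i+1 then 2*i+1 else if m = i+2 then 2*(i+1) else 2*(m-2)+1

theorem good {d : ℕ} {u : ι → Fin (d+1) → ℝ} (h : Alt d u) {s : ℕ → ι} {N : ℕ} (hs : Mono N s)
    {i : ℕ} (hi : i < d) (hN1 : 2*(i+1) < N) (hN2 : 2*d ≤ N) (f : (Fin (d+1) → ℝ) →ₗ[ℝ] ℝ)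
    (hL : ∀ j, j ≤ i → 1 ≤ (-1:ℝ)^j * f (u (s (2*j)))) (h0 : 1 < f (u (s 0)))
    (ha : (-1:ℝ)^i * f (u (s (2*i+1))) = 1) (hb : (-1:ℝ)^(i+1) * f (u (s (2*(i+1)))) = 1)
    (hR : ∀ j, i+1 ≤ j → j < d → 1 ≤ (-1:ℝ)^j * f (u (s (2*j+1)))) :
    Gd d u (s (2*i+1)) (s (2*(i+1))) := by
  have hz : Mono (d+2) (fun m => s (idx i m)) := by
    intro a b hab hb
    apply hs
    · unfold idx
      split_ifs <;> omega
    · unfold idx
      split_ifs <;> omega
  obtain ⟨c, hc, hcs⟩ := h.circ hz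
  have e1 : idx i (i+1) = 2*i+1 := by simp [idx]
  have e2 : idx i (i+1+1) = 2*(i+1) := by simp [idx]
  refine ⟨fun m => s (idx i m), i+1, c, hz, by omega, by simp only [e1], by simp only [e2],
    hc, hcs, ?_⟩
  have h2 := app hcs f
  rw [split (k := i+1) (by omega)] at h2
  simp only [e1, e2] at h2
  have h3 : ∑ j ∈ Oth d (i+1), c j < ∑ j ∈ Oth d (i+1), (-1:ℝ)^j * c j * f (u (s (idx i j))) := by
    apply Finset.sum_lt_sum
    · intro j hj
      rw [mem_Oth] at hj
      have h4 : 1 ≤ (-1:ℝ)^j * f (u (s (idx i j))) := by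
        by_cases hji : j ≤ i
        · have : idx i j = 2*j := by simp [idx, hji]
          rw [this]
          exact hL j hji
        · obtain ⟨j', rfl⟩ : ∃ j', j = j' + 2 := ⟨j - 2, by omega⟩
          have : idx i (j'+2) = 2*j'+1 := by
            unfold idx
            split_ifs <;> omega
          rw [this, pow_add]
          have := hR j' (by omega) (by omega)
          simpa using this
      have h5 := hc j
      nlinarith
    · refine ⟨0, mem_Oth.2 ⟨by omega, by omega, by omega⟩, ?_⟩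
      have : idx i 0 = 0 := by simp [idx]
      rw [this]
      have h5 := hc 0
      simp only [pow_zero, one_mul]
      nlinarith
  have h6 : (-1:ℝ)^(i+1) * c (i+1) * f (u (s (2*i+1))) = - c (i+1) := by
    rw [pow_succ]
    linear_combination (- c (i+1)) * ha
  have h7 : (-1:ℝ)^(i+1+1) * c (i+1+1) * f (u (s (2*(i+1)))) = - c (i+1+1) := by
    rw [pow_succ]
    linear_combination (- c (i+1+1)) * hb
  linarith

def InCone {d : ℕ} (u : ι → Fin (d+1) → ℝ) (y : Fin (d+1) → ℝ) : Prop :=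
  ∃ (O : Finset ℕ) (z : ℕ → ι) (a : ℕ → ℝ), (∀ j ∈ O, 0 ≤ a j) ∧ y = ∑ j ∈ O, a j • u (z j)

theorem Mono.upd {m : ℕ} {z : ℕ → ι} (h : Mono m z) {k : ℕ} {t : ι}
    (h1 : ∀ j, j < k → z j < t) (h2 : ∀ j, k < j → j < m → t < z j) :
    Mono m (Function.update z k t) := by
  intro a b hab hb
  by_cases ha : a = k
  · subst ha
    rw [Function.update_self, Function.update_of_ne (by omega)]
    exact h2 b hab hb
  · rw [Function.update_of_ne ha]
    by_cases hb' : b = k
    · subst hb'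
      rw [Function.update_self]
      exact h1 a hab
    · rw [Function.update_of_ne hb']
      exact h a b hab hb

theorem block {d : ℕ} {u : ι → Fin (d+1) → ℝ} (h : Alt d u) (h1 : ∀ x, u x 0 = 1) {a b : ι}
    (hg : Gd d u a b) : ∃ w : Fin (d+1) → ℝ, w 0 < 0 ∧
      ∀ t, a ≤ t → t ≤ b → ∃ κ : ℝ, 0 < κ ∧ InCone u (w + κ • u t) := by
  obtain ⟨z, k, c, hz, hk, rfl, rfl, hc, hcs, hlt⟩ := hg
  have hsq := neg_one_sq' k
  refine ⟨∑ j ∈ Oth d k, c j • u (z j) - c k • u (z k) - c (k+1) • u (z (k+1)), ?_, ?_⟩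
  · simp only [Pi.sub_apply, Finset.sum_apply, Pi.smul_apply, smul_eq_mul, h1, mul_one]
    linarith
  have hcr : ∀ r, ∑ j ∈ Oth d k, (-1:ℝ)^j * c j * u (z j) r
      + (-1:ℝ)^(k+1) * c (k+1) * u (z (k+1)) r + (-1:ℝ)^k * c k * u (z k) r = 0 := by
    intro r
    have := congrFun hcs r
    rw [split hk] at this
    simpa [Finset.sum_apply] using this
  intro t hat htb
  rcases eq_or_lt_of_le hat with rfl | hat'
  · refine ⟨2 * c k, by linarith [hc k], Oth d k, z, fun j => c j * (1 - (-1:ℝ)^(j+k)), ?_, ?_⟩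
    · intro j _
      exact mul_nonneg (hc j).le (by linarith [neg_one_le (j+k)])
    · funext r
      simp only [Pi.sub_apply, Pi.add_apply, Finset.sum_apply, Pi.smul_apply, smul_eq_mul]
      have e : ∑ j ∈ Oth d k, c j * (1 - (-1:ℝ)^(j+k)) * u (z j) r
          = ∑ j ∈ Oth d k, c j * u (z j) r
            - (-1:ℝ)^k * ∑ j ∈ Oth d k, (-1:ℝ)^j * c j * u (z j) r := by
        rw [Finset.mul_sum, ← Finset.sum_sub_distrib]
        refine Finset.sum_congr rfl fun j _ => ?_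
        rw [pow_add]
        ring
      rw [e]
      have := hcr r
      rw [pow_succ] at this
      linear_combination (-1:ℝ)^k * this
        + (c (k+1) * u (z (k+1)) r - c k * u (z k) r) * hsq
  rcases eq_or_lt_of_le htb with rfl | htb'
  · refine ⟨2 * c (k+1), by linarith [hc (k+1)], Oth d k, z,
      fun j => c j * (1 + (-1:ℝ)^(j+k)), ?_, ?_⟩
    · intro j _
      exact mul_nonneg (hc j).le (by linarith [neg_one_ge (j+k)])
    · funext r
      simp only [Pi.sub_apply, Pi.add_apply, Finset.sum_apply, Pi.smul_apply, smul_eq_mul]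
      have e : ∑ j ∈ Oth d k, c j * (1 + (-1:ℝ)^(j+k)) * u (z j) r
          = ∑ j ∈ Oth d k, c j * u (z j) r
            + (-1:ℝ)^k * ∑ j ∈ Oth d k, (-1:ℝ)^j * c j * u (z j) r := by
        rw [Finset.mul_sum, ← Finset.sum_add_distrib]
        refine Finset.sum_congr rfl fun j _ => ?_
        rw [pow_add]
        ring
      rw [e]
      have := hcr r
      rw [pow_succ] at this
      linear_combination (-(-1:ℝ)^k) * this
        - (c (k+1) * u (z (k+1)) r - c k * u (z k) r) * hsq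
  have hlo : ∀ j, j ≤ k → z j < t := by
    intro j hj
    rcases eq_or_lt_of_le hj with rfl | hj'
    · exact hat'
    · exact lt_trans (hz j k hj' (by omega)) hat'
  have hhi : ∀ j, k+1 ≤ j → j < d+2 → t < z j := by
    intro j hj hj2
    rcases eq_or_lt_of_le hj with rfl | hj'
    · exact htb'
    · exact lt_trans htb' (hz _ j hj' hj2)
  have hz1 : Mono (d+2) (Function.update z k t) :=
    hz.upd (fun j hj => hlo j hj.le) (fun j hj hj2 => hhi j hj hj2)
  have hz2 : Mono (d+2) (Function.update z (k+1) t) :=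
    hz.upd (fun j hj => hlo j (by omega)) (fun j hj hj2 => hhi j hj.le hj2)
  obtain ⟨m, hm, hms⟩ := h.circ hz1
  obtain ⟨n, hn, hns⟩ := h.circ hz2
  have hmr : ∀ r, ∑ j ∈ Oth d k, (-1:ℝ)^j * m j * u (z j) r
      + (-1:ℝ)^(k+1) * m (k+1) * u (z (k+1)) r + (-1:ℝ)^k * m k * u t r = 0 := by
    intro r
    have := congrFun hms r
    rw [split hk] at this
    simp only [Pi.add_apply, Finset.sum_apply, Pi.smul_apply, smul_eq_mul, Pi.zero_apply,
      Function.update_self, Function.update_of_ne (Nat.succ_ne_self k)] at this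
    rw [← this]
    congr 2
    refine Finset.sum_congr rfl fun j hj => ?_
    rw [Function.update_of_ne (mem_Oth.1 hj).2.1]
  have hnr : ∀ r, ∑ j ∈ Oth d k, (-1:ℝ)^j * n j * u (z j) r
      + (-1:ℝ)^(k+1) * n (k+1) * u t r + (-1:ℝ)^k * n k * u (z k) r = 0 := by
    intro r
    have := congrFun hns r
    rw [split hk] at this
    simp only [Pi.add_apply, Finset.sum_apply, Pi.smul_apply, smul_eq_mul, Pi.zero_apply,
      Function.update_self, Function.update_of_ne (Nat.succ_ne_self k).symm] at this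
    rw [← this]
    congr 2
    refine Finset.sum_congr rfl fun j hj => ?_
    rw [Function.update_of_ne (mem_Oth.1 hj).1]
  obtain ⟨κ, hκ, hκe⟩ : ∃ κ : ℝ, 0 < κ ∧ κ * m (k+1) = c (k+1) :=
    ⟨c (k+1) / m (k+1), div_pos (hc _) (hm _), div_mul_cancel₀ _ (hm _).ne'⟩
  obtain ⟨μ, hμ, hμe⟩ : ∃ μ : ℝ, 0 < μ ∧ μ * n k = c k :=
    ⟨c k / n k, div_pos (hc _) (hn _), div_mul_cancel₀ _ (hn _).ne'⟩
  have hmon : ∀ j ∈ Oth d k, κ * m j ≤ c j := by
    let ρ : ℕ → ℝ := fun j => if j = k then 0 else if j = k+1 then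
      (-1:ℝ)^(k+1) * (κ * m k - μ * n (k+1)) else (-1:ℝ)^j * (c j - κ * m j - μ * n j)
    have hρ : ∑ j ∈ range (d+2), ρ j • u (Function.update z (k+1) t j) = 0 := by
      rw [split hk]
      funext r
      simp only [Pi.add_apply, Finset.sum_apply, Pi.smul_apply, smul_eq_mul, Pi.zero_apply,
        Function.update_self]
      have e : ∑ j ∈ Oth d k, ρ j * u (Function.update z (k+1) t j) r
          = ∑ j ∈ Oth d k, (-1:ℝ)^j * c j * u (z j) r
            - κ * ∑ j ∈ Oth d k, (-1:ℝ)^j * m j * u (z j) r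
            - μ * ∑ j ∈ Oth d k, (-1:ℝ)^j * n j * u (z j) r := by
        rw [Finset.mul_sum, Finset.mul_sum, ← Finset.sum_sub_distrib, ← Finset.sum_sub_distrib]
        refine Finset.sum_congr rfl fun j hj => ?_
        have hj' := mem_Oth.1 hj
        rw [Function.update_of_ne hj'.1]
        simp only [ρ, hj'.1, hj'.2.1, if_false]
        ring
      have e1 : ρ k = 0 := by simp [ρ]
      have e2 : ρ (k+1) = (-1:ℝ)^(k+1) * (κ * m k - μ * n (k+1)) := by simp [ρ]
      rw [e, e1, e2]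
      have a1 := hcr r
      have a2 := hmr r
      have a3 := hnr r
      rw [pow_succ] at a1 a2 a3 ⊢
      linear_combination a1 - κ * a2 - μ * a3
        - ((-1:ℝ)^k * u (z (k+1)) r) * hκe + ((-1:ℝ)^k * u (z k) r) * hμe
    have hall := h.uniq hz2 ρ hρ (k0 := k) (by omega) (by simp [ρ])
    intro j hj
    have hj' := mem_Oth.1 hj
    have h2 := hall j hj'.2.2
    simp only [ρ, hj'.1, hj'.2.1, if_false] at h2
    have h3 : c j - κ * m j - μ * n j = 0 := by
      rcases mul_eq_zero.1 h2 with h4 | h4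
      · exact absurd h4 (pow_ne_zero _ (by norm_num))
      · exact h4
    have h4 := mul_pos hμ (hn j)
    linarith
  refine ⟨2 * κ * m k, by have := hm k; positivity, Oth d k, z,
    fun j => c j * (1 + (-1:ℝ)^(j+k)) - 2 * κ * m j * (-1:ℝ)^(j+k), ?_, ?_⟩
  · intro j hj
    have h2 := hmon j hj
    have h3 := mul_pos hκ (hm j)
    rcases neg_one_pow_eq_or ℝ (j+k) with e | e <;> simp only [e] <;> linarith
  · funext r
    simp only [Pi.sub_apply, Pi.add_apply, Finset.sum_apply, Pi.smul_apply, smul_eq_mul]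
    have e : ∑ j ∈ Oth d k, (c j * (1 + (-1:ℝ)^(j+k)) - 2 * κ * m j * (-1:ℝ)^(j+k)) * u (z j) r
        = ∑ j ∈ Oth d k, c j * u (z j) r
          + (-1:ℝ)^k * ∑ j ∈ Oth d k, (-1:ℝ)^j * c j * u (z j) r
          - 2 * κ * (-1:ℝ)^k * ∑ j ∈ Oth d k, (-1:ℝ)^j * m j * u (z j) r := by
      rw [Finset.mul_sum, Finset.mul_sum, ← Finset.sum_add_distrib, ← Finset.sum_sub_distrib]
      refine Finset.sum_congr rfl fun j _ => ?_
      rw [pow_add]
      ring
    rw [e]
    have a1 := hcr r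
    have a2 := hmr r
    rw [pow_succ] at a1 a2
    linear_combination (-(-1:ℝ)^k) * a1 + 2 * κ * (-1:ℝ)^k * a2
      - (c (k+1) * u (z (k+1)) r - c k * u (z k) r) * hsq
      + (2 * κ * m (k+1) * u (z (k+1)) r - 2 * κ * m k * u t r) * hsq
      + 2 * u (z (k+1)) r * hκe

end Pool.Agent.H98.Cyc
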