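import Pool.Agent.H98.Cyc2

set_option autoImplicit false

namespace Pool.Agent.H98.Cyc

open Finset

theorem cone_int {V κ : Type} [NormedAddCommGroup V] [NormedSpace ℝ V] {K : Set V}
    (hK : Convex ℝ K) {o : V} (ho : o ∈ interior K) (O : Finset κ) (p : κ → V) (a : κ → ℝ)
    (hp : ∀ j ∈ O, p j ∈ K) (ha : ∀ j ∈ O, 0 ≤ a j) {θ : ℝ} (hθ : 0 < θ) :
    (∑ j ∈ O, a j + θ)⁻¹ • (∑ j ∈ O, a j • p j + θ • o) ∈ interior K := by
  classical
  induction O using Finset.induction_on with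
  | empty => simpa [smul_smul, inv_mul_cancel₀ hθ.ne'] using ho
  | insert j O hj ih =>
    have ih' := ih (fun i hi => hp i (mem_insert_of_mem hi)) (fun i hi => ha i (mem_insert_of_mem hi))
    have hS : 0 ≤ ∑ i ∈ O, a i := Finset.sum_nonneg fun i hi => ha i (mem_insert_of_mem hi)
    have haj := ha j (mem_insert_self _ _)
    rw [Finset.sum_insert hj, Finset.sum_insert hj]
    have hD : 0 < a j + ∑ i ∈ O, a i + θ := by linarith
    have hE : 0 < ∑ i ∈ O, a i + θ := by linarith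
    have := hK.combo_interior_self_mem_interior ih' (hp j (mem_insert_self _ _))
      (a := (∑ i ∈ O, a i + θ) / (a j + ∑ i ∈ O, a i + θ)) (b := a j / (a j + ∑ i ∈ O, a i + θ))
      (div_pos hE hD) (div_nonneg haj hD.le) (by field_simp; ring)
    have e : ((∑ i ∈ O, a i + θ) / (a j + ∑ i ∈ O, a i + θ)) •
        (∑ i ∈ O, a i + θ)⁻¹ • (∑ i ∈ O, a i • p i + θ • o) + (a j / (a j + ∑ i ∈ O, a i + θ)) • p j
        = (a j + ∑ i ∈ O, a i + θ)⁻¹ • (a j • p j + ∑ i ∈ O, a i • p i + θ • o) := by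
      rw [smul_smul]
      have e1 : (∑ i ∈ O, a i + θ) / (a j + ∑ i ∈ O, a i + θ) * (∑ i ∈ O, a i + θ)⁻¹
          = (a j + ∑ i ∈ O, a i + θ)⁻¹ := by field_simp
      rw [e1, div_eq_inv_mul, ← smul_smul, ← smul_add]
      congr 1
      abel
    rwa [e] at this

variable {d n : ℕ}

def hom (v : Fin n → EuclideanSpace ℝ (Fin d)) (x : Fin n) : Fin (d+1) → ℝ :=
  Fin.cons 1 (fun i => v x i)

def pr (d : ℕ) : (Fin (d+1) → ℝ) →ₗ[ℝ] EuclideanSpace ℝ (Fin d) where
  toFun y := WithLp.toLp 2 (fun i => y i.succ)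
  map_add' x y := by ext i; simp
  map_smul' c x := by ext i; simp

theorem hom_zero (v : Fin n → EuclideanSpace ℝ (Fin d)) (x : Fin n) : hom v x 0 = 1 := rfl

theorem pr_hom (v : Fin n → EuclideanSpace ℝ (Fin d)) (x : Fin n) : pr d (hom v x) = v x := by
  ext i
  simp [pr, hom]

theorem int_ne {v : Fin n → EuclideanSpace ℝ (Fin d)} (h : Alt d (hom v)) (hn : d+1 ≤ n) :
    (interior (convexHull ℝ (Set.range v))).Nonempty := by
  rw [interior_convexHull_nonempty_iff_affineSpan_eq_top, eq_top_iff]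
  intro x _
  have hz : StrictMono (Fin.castLE hn) := Fin.strictMono_castLE hn
  obtain ⟨a, ha⟩ := h.span hz (Fin.cons 1 (fun i => x i))
  have h0 : ∑ k, a k = 1 := by
    have := congrFun ha 0
    simpa [Finset.sum_apply, hom_zero] using this
  have h1 : ∑ k, a k • v (Fin.castLE hn k) = x := by
    have := congrArg (pr d) ha
    simp only [map_sum, map_smul, pr_hom] at this
    rw [this]
    ext i
    simp [pr]
  have h2 := affineCombination_mem_affineSpan (k := ℝ) (s := univ) h0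
    (fun k => v (Fin.castLE hn k))
  rw [Finset.affineCombination_eq_linear_combination _ _ _ h0, h1] at h2
  refine affineSpan_mono ℝ ?_ h2
  rintro _ ⟨k, rfl⟩
  exact ⟨_, rfl⟩

def Cov (v : Fin n → EuclideanSpace ℝ (Fin d)) (a b : Fin n) : Prop :=
  ∃ w : EuclideanSpace ℝ (Fin d), ∀ t, a ≤ t → t ≤ b →
    ∃ ε : ℝ, 0 < ε ∧ v t + ε • w ∈ interior (convexHull ℝ (Set.range v))

theorem Gd.cov {v : Fin n → EuclideanSpace ℝ (Fin d)} (h : Alt d (hom v)) (hn : d+1 ≤ n)
    {a b : Fin n} (hg : Gd d (hom v) a b) : Cov v a b := by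
  obtain ⟨o, ho⟩ := int_ne h hn
  obtain ⟨w, hw0, hw⟩ := block h (hom_zero v) hg
  refine ⟨pr d w + (- w 0) • o, fun t hat htb => ?_⟩
  obtain ⟨κ, hκ, O, z, c, hc, he⟩ := hw t hat htb
  refine ⟨κ⁻¹, inv_pos.2 hκ, ?_⟩
  have h1 := cone_int (convex_convexHull ℝ (Set.range v)) ho O (fun j => v (z j)) c
    (fun j _ => subset_convexHull ℝ _ ⟨_, rfl⟩) hc (θ := - w 0) (by linarith)
  have h2 : ∑ j ∈ O, c j = w 0 + κ := by
    have := congrFun he 0
    simpa [Finset.sum_apply, hom_zero] using this.symm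
  have h3 : ∑ j ∈ O, c j • v (z j) = pr d w + κ • v t := by
    have := congrArg (pr d) he
    simp only [map_sum, map_smul, map_add, pr_hom] at this
    exact this.symm
  rw [h2, h3] at h1
  have e : (w 0 + κ + - w 0)⁻¹ • (pr d w + κ • v t + (- w 0) • o)
      = v t + κ⁻¹ • (pr d w + (- w 0) • o) := by
    have e1 : w 0 + κ + - w 0 = κ := by ring
    rw [e1, add_right_comm, smul_add, smul_smul, inv_mul_cancel₀ hκ.ne', one_smul, add_comm]
  rwa [e] at h1

theorem cov_self {v : Fin n → EuclideanSpace ℝ (Fin d)} (h : Alt d (hom v)) (hn : d+1 ≤ n)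
    (a : Fin n) : Cov v a a := by
  obtain ⟨o, ho⟩ := int_ne h hn
  refine ⟨o - v a, fun t h1 h2 => ⟨1, one_pos, ?_⟩⟩
  rw [le_antisymm h2 h1]
  simpa using ho

theorem Cov.mono {v : Fin n → EuclideanSpace ℝ (Fin d)} {a b b' : Fin n} (h : Cov v a b)
    (hb : b' ≤ b) : Cov v a b' := by
  obtain ⟨w, hw⟩ := h
  exact ⟨w, fun t h1 h2 => hw t h1 (h2.trans hb)⟩

theorem greedy {v : Fin n → EuclideanSpace ℝ (Fin d)} (hs : ∀ a, Cov v a a) (N : ℕ) :
    ∀ a : ℕ, (∀ s : ℕ → Fin n, Mono (N+1) s → a ≤ (s 0).val → ∃ j, j < N ∧ Cov v (s j) (s (j+1))) →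
      ∃ W : Finset (EuclideanSpace ℝ (Fin d)), W.card ≤ N ∧ ∀ t : Fin n, a ≤ t.val →
        ∃ w ∈ W, ∃ ε : ℝ, 0 < ε ∧ v t + ε • w ∈ interior (convexHull ℝ (Set.range v)) := by
  classical
  induction N with
  | zero =>
    intro a H
    refine ⟨∅, by simp, fun t ht => ?_⟩
    obtain ⟨j, hj, _⟩ := H (fun _ => t) (fun a b hab hb => by omega) ht
    omega
  | succ N ih =>
    intro a H
    by_cases han : a < n
    swap
    · refine ⟨∅, by simp, fun t ht => ?_⟩
      have := t.2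
      omega
    have hex : ∃ b, a < b ∧ ∀ hb : b < n, ¬ Cov v ⟨a, han⟩ ⟨b, hb⟩ :=
      ⟨n, han, fun hb => absurd hb (lt_irrefl _)⟩
    let b := Nat.find hex
    have hb1 : a < b := (Nat.find_spec hex).1
    have hb2 : ∀ hb : b < n, ¬ Cov v ⟨a, han⟩ ⟨b, hb⟩ := (Nat.find_spec hex).2
    have hb3 : b ≤ n := Nat.find_min' hex ⟨han, fun hb => absurd hb (lt_irrefl _)⟩
    have hc : Cov v ⟨a, han⟩ ⟨b - 1, by omega⟩ := by
      by_cases hab : b - 1 = a
      · have : (⟨b - 1, by omega⟩ : Fin n) = ⟨a, han⟩ := Fin.ext hab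
        rw [this]
        exact hs _
      · have := Nat.find_min hex (m := b - 1) (by omega)
        by_contra hcon
        exact this ⟨by omega, fun _ => hcon⟩
    obtain ⟨W, hW, hW2⟩ := ih b (by
      intro s hs1 hs2
      have hM : Mono (N+1+1) (pre (⟨a, han⟩ : Fin n) s) := by
        apply hs1.pre
        intro k hk
        have h1 : (⟨a, han⟩ : Fin n) < s 0 := by
          rw [Fin.lt_def]
          exact lt_of_lt_of_le hb1 hs2
        rcases Nat.eq_zero_or_pos k with rfl | hk0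
        · exact h1
        · exact h1.trans (hs1 0 k hk0 hk)
      obtain ⟨j, hj, hcj⟩ := H _ hM (le_refl _)
      rcases j with _ | j
      · exfalso
        have hbn : b < n := lt_of_le_of_lt hs2 (s 0).2
        exact hb2 hbn (Cov.mono hcj (by rw [Fin.le_def]; exact hs2))
      · exact ⟨j, by omega, hcj⟩)
    obtain ⟨w, hw⟩ := hc
    refine ⟨insert w W, (card_insert_le _ _).trans (by omega), fun t ht => ?_⟩
    by_cases htb : b ≤ t.val
    · obtain ⟨w', hw', h'⟩ := hW2 t htb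
      exact ⟨w', mem_insert_of_mem hw', h'⟩
    · exact ⟨w, mem_insert_self _ _, hw t (by rw [Fin.le_def]; exact ht)
        (by rw [Fin.le_def]; show t.val ≤ b - 1; omega)⟩

theorem hull_repr {v : Fin n → EuclideanSpace ℝ (Fin d)} {x : EuclideanSpace ℝ (Fin d)}
    (hx : x ∈ convexHull ℝ (Set.range v)) :
    ∃ a : Fin n → ℝ, (∀ t, 0 ≤ a t) ∧ ∑ t, a t = 1 ∧ ∑ t, a t • v t = x := by
  classical
  have hsub : convexHull ℝ (Set.range v) ⊆
      {x | ∃ a : Fin n → ℝ, (∀ t, 0 ≤ a t) ∧ ∑ t, a t = 1 ∧ ∑ t, a t • v t = x} := by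
    apply convexHull_min
    · rintro _ ⟨t, rfl⟩
      refine ⟨Pi.single t 1, fun s => ?_, by simp, by simp [Pi.single_apply]⟩
      rw [Pi.single_apply]
      split_ifs <;> norm_num
    · rintro x ⟨a, ha, ha1, rfl⟩ y ⟨b, hb, hb1, rfl⟩ p q hp hq hpq
      refine ⟨fun t => p * a t + q * b t, fun t => add_nonneg (mul_nonneg hp (ha t))
        (mul_nonneg hq (hb t)), ?_, ?_⟩
      · rw [Finset.sum_add_distrib, ← Finset.mul_sum, ← Finset.mul_sum, ha1, hb1]
        linarith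
      · simp only [add_smul, Finset.sum_add_distrib, Finset.smul_sum, smul_smul]
  exact hsub hx

theorem uniform {v : Fin n → EuclideanSpace ℝ (Fin d)} (hn : 0 < n)
    {W : Finset (EuclideanSpace ℝ (Fin d))}
    (hW : ∀ t : Fin n, ∃ w ∈ W, ∃ ε : ℝ, 0 < ε ∧
      v t + ε • w ∈ interior (convexHull ℝ (Set.range v))) :
    ∃ δ : ℝ, 0 < δ ∧ ∀ x ∈ convexHull ℝ (Set.range v), ∃ w ∈ W,
      x + δ • w ∈ interior (convexHull ℝ (Set.range v)) := by
  classical
  choose w hw ε hε hint using hW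
  haveI : Nonempty (Fin n) := ⟨⟨0, hn⟩⟩
  obtain ⟨t0, ht0⟩ := Finite.exists_min ε
  have hn' : (0:ℝ) < n := by exact_mod_cast hn
  refine ⟨ε t0 / n, div_pos (hε t0) hn', fun x hx => ?_⟩
  obtain ⟨a, ha, ha1, rfl⟩ := hull_repr hx
  obtain ⟨t, ht⟩ : ∃ t, 1 / (n:ℝ) ≤ a t := by
    by_contra hcon
    push Not at hcon
    have : ∑ t, a t < ∑ _t : Fin n, 1 / (n:ℝ) :=
      Finset.sum_lt_sum_of_nonempty univ_nonempty fun t _ => hcon t
    rw [ha1] at this
    simp [hn'.ne'] at this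
  refine ⟨w t, hw t, ?_⟩
  have hθ : 0 < ε t0 / ε t / n := div_pos (div_pos (hε t0) (hε t)) hn'
  have hθ2 : ε t0 / ε t / n ≤ a t := by
    refine le_trans ?_ ht
    apply div_le_div_of_nonneg_right _ hn'.le
    exact (div_le_one (hε t)).2 (ht0 t)
  have h1 := cone_int (convex_convexHull ℝ (Set.range v)) (hint t) univ v
    (fun s => a s - if s = t then ε t0 / ε t / n else 0)
    (fun j _ => subset_convexHull ℝ _ ⟨_, rfl⟩) (fun s _ => by
      by_cases hs : s = t
      · subst hs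
        simpa using hθ2
      · simpa [hs] using ha s) hθ
  have e1 : ∑ s, (a s - if s = t then ε t0 / ε t / n else 0) + ε t0 / ε t / n = 1 := by
    rw [Finset.sum_sub_distrib, ha1]
    simp
  have e2 : ∑ s, (a s - if s = t then ε t0 / ε t / n else 0) • v s
      + (ε t0 / ε t / n) • (v t + ε t • w t) = ∑ s, a s • v s + (ε t0 / n) • w t := by
    simp only [sub_smul, Finset.sum_sub_distrib, ite_smul, zero_smul, Finset.sum_ite_eq',
      mem_univ, if_true, smul_add, smul_smul]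
    have : ε t0 / ε t / n * ε t = ε t0 / n := by
      have := (hε t).ne'
      field_simp
    rw [this]
    abel
  rwa [e1, e2, inv_one, one_smul] at h1

/-- general alternating configurations: `2d` directions -/
theorem gen {v : Fin n → EuclideanSpace ℝ (Fin d)} (hd : 1 ≤ d) (h : Alt d (hom v))
    (hn : d+1 ≤ n) : ∃ W : Finset (EuclideanSpace ℝ (Fin d)), W.card ≤ 2*d ∧ ∃ δ : ℝ, 0 < δ ∧
      ∀ x ∈ convexHull ℝ (Set.range v), ∃ w ∈ W,
        x + δ • w ∈ interior (convexHull ℝ (Set.range v)) := by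
  obtain ⟨W, hW, hW2⟩ := greedy (cov_self h hn) (2*d) 0 (by
    intro s hs _
    obtain ⟨f, i, hi, h1, h2, h3, h4, h5, _⟩ := pstar hd h (hom_zero v) hs
    have := good h hs hi (by omega) (by omega) f (fun j hj => h1 j (by omega)) h3 h4 h5
      (fun j _ hj => h2 j hj)
    exact ⟨2*i+1, by omega, this.cov h hn⟩)
  exact ⟨W, hW, uniform (by omega) fun t => hW2 t (Nat.zero_le _)⟩

end Pool.Agent.H98.Cyc
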