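import Pool.Agent.H98.Cyc3

set_option autoImplicit false

namespace Pool.Agent.H98.Cyc

open Finset

theorem alt_vand {ι : Type} [LinearOrder ι] (d : ℕ) {t : ι → ℝ} (ht : StrictMono t) :
    Alt d (fun x (r : Fin (d+1)) => t x ^ (r:ℕ)) := by
  have key : ∀ z : Fin (d+1) → ι, StrictMono z →
      0 < (Matrix.of fun i (r : Fin (d+1)) => t (z i) ^ (r:ℕ)).det := by
    intro z hz
    have : (Matrix.of fun i (r : Fin (d+1)) => t (z i) ^ (r:ℕ))
        = Matrix.vandermonde (fun i => t (z i)) := rfl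
    rw [this, Matrix.det_vandermonde]
    refine Finset.prod_pos fun i _ => Finset.prod_pos fun j hj => ?_
    exact sub_pos.2 (ht (hz (mem_Ioi.1 hj)))
  intro z z' hz hz'
  exact mul_pos (key z hz) (key z' hz')

/-- the moment curve -/
noncomputable def mom (d : ℕ) (s : ℝ) : EuclideanSpace ℝ (Fin d) :=
  WithLp.toLp 2 (fun i : Fin d => s ^ ((i:ℕ)+1))

theorem hom_mom {d n : ℕ} (t : Fin n → ℝ) :
    hom (fun x => mom d (t x)) = fun x (r : Fin (d+1)) => t x ^ (r:ℕ) := by
  funext x r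
  refine Fin.cases ?_ (fun i => ?_) r
  · simp [hom]
  · simp [hom, mom]

theorem alt_mom {d n : ℕ} {t : Fin n → ℝ} (ht : StrictMono t) :
    Alt d (hom (fun x => mom d (t x))) := by
  rw [hom_mom]
  exact alt_vand d ht

/-- points on the moment curve: `2d-1` directions -/
theorem momUB {m n : ℕ} (hm : 1 ≤ m) (hn : m+1+1 ≤ n) {t : Fin n → ℝ} (ht : StrictMono t) :
    ∃ W : Finset (EuclideanSpace ℝ (Fin (m+1))), W.card ≤ 2*m+1 ∧ ∃ δ : ℝ, 0 < δ ∧
      ∀ x ∈ convexHull ℝ (Set.range fun x => mom (m+1) (t x)), ∃ w ∈ W,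
        x + δ • w ∈ interior (convexHull ℝ (Set.range fun x => mom (m+1) (t x))) := by
  have h := alt_mom (d := m+1) ht
  obtain ⟨W, hW, hW2⟩ := greedy (cov_self h hn) (2*m+1) 0 (by
    intro s hs _
    have hs' : Mono (2*m+1) s := fun a b hab hb => hs a b hab (by omega)
    obtain ⟨f, i, hi, h1, h2, h3, h4, h5, h6⟩ := pstar hm (alt_vand m ht) (fun x => by simp) hs'
    let g : (Fin (m+1+1) → ℝ) →ₗ[ℝ] ℝ := f.comp (LinearMap.funLeft ℝ ℝ Fin.castSucc)
    have hg : ∀ x, g (hom (fun x => mom (m+1) (t x)) x) = f (fun r : Fin (m+1) => t x ^ (r:ℕ)) := by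
      intro x
      rw [hom_mom]
      rfl
    have := good h hs (i := i) (by omega) (by omega) (by omega) g
      (fun j hj => by rw [hg]; exact h1 j (by omega)) (by rw [hg]; exact h3)
      (by rw [hg]; exact h4) (by rw [hg]; exact h5)
      (fun j _ hj => by
        rw [hg]
        by_cases hjm : j < m
        · exact h2 j hjm
        · have : j = m := by omega
          subst this
          exact h6 _ (hs _ _ (by omega) (by omega)))
    exact ⟨2*i+1, by omega, this.cov h hn⟩)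
  exact ⟨W, hW, uniform (by omega) fun t => hW2 t (Nat.zero_le _)⟩

theorem to_cover {V : Type} [NormedAddCommGroup V] [NormedSpace ℝ V] {K : Set V} {N : ℕ}
    (h : ∃ W : Finset V, W.card ≤ N ∧ ∃ δ : ℝ, 0 < δ ∧ ∀ x ∈ K, ∃ w ∈ W, x + δ • w ∈ interior K) :
    ∃ T : Finset V, T.card ≤ N ∧ K ⊆ ⋃ t ∈ T, (fun x => t + x) '' interior K := by
  classical
  obtain ⟨W, hW, δ, _, h⟩ := h
  refine ⟨W.image (fun w => - (δ • w)), card_image_le.trans hW, fun x hx => ?_⟩
  obtain ⟨w, hw, hx'⟩ := h x hx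
  simp only [Set.mem_iUnion]
  exact ⟨- (δ • w), mem_image_of_mem _ hw, x + δ • w, hx', by simp⟩

end Pool.Agent.H98.Cyc
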