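import Pool.Agent.H98.Cyc4

set_option autoImplicit false

namespace Pool.Agent.H98.Cyc

open Finset Polynomial

noncomputable def lam (N : ℕ) (x : ℕ → ℝ) (j : ℕ) : ℝ := (∏ i ∈ (range N).erase j, (x j - x i))⁻¹

noncomputable def wt (N : ℕ) (x : ℕ → ℝ) (j : ℕ) : ℝ := (∏ i ∈ (range N).erase j, |x j - x i|)⁻¹

theorem Mono.inj {ι : Type} [LinearOrder ι] {N : ℕ} {x : ℕ → ι} (h : Mono N x) :
    Set.InjOn x (range N : Finset ℕ) := by
  intro a ha b hb hab
  have ha' : a < N := by simpa using ha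
  have hb' : b < N := by simpa using hb
  rcases lt_trichotomy a b with h1 | h1 | h1
  · exact absurd hab (h a b h1 hb').ne
  · exact h1
  · exact absurd hab (h b a h1 ha').ne'

theorem Mono.le {ι : Type} [LinearOrder ι] {N M : ℕ} {x : ℕ → ι} (h : Mono N x) (hM : M ≤ N) :
    Mono M x := fun a b hab hb => h a b hab (by omega)

theorem sum_lam {N r : ℕ} {x : ℕ → ℝ} (h : Mono N x) (hr : r + 1 < N) :
    ∑ j ∈ range N, lam N x j * x j ^ r = 0 := by
  have := Lagrange.coeff_eq_sum (s := range N) (v := x) h.inj (P := X ^ r) (by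
    rw [degree_X_pow, card_range]
    exact_mod_cast (by omega : r < N))
  rw [coeff_X_pow, card_range, if_neg (by omega)] at this
  rw [this]
  refine Finset.sum_congr rfl fun j _ => ?_
  simp only [lam, eval_pow, eval_X]
  rw [div_eq_inv_mul]

theorem lam_succ {k j : ℕ} (x : ℕ → ℝ) (hj : j < k) :
    lam (k+1) x j = lam k x j * (x j - x k)⁻¹ := by
  have : (range (k+1)).erase j = insert k ((range k).erase j) := by
    ext i
    simp only [mem_erase, mem_range, mem_insert]
    omega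
  rw [lam, this, Finset.prod_insert (by simp), lam, mul_inv, mul_comm]

theorem D_nonneg {N : ℕ} {x : ℕ → ℝ} (h : Mono N x) (k : ℕ) : ∀ Y : Finset ℕ, k < N →
    (∀ y ∈ Y, k < y ∧ y < N) →
    0 ≤ ∑ j ∈ range (k+1), lam (k+1) x j * (∏ y ∈ Y, (x y - x j))⁻¹ := by
  induction k with
  | zero =>
    intro Y _ hY
    simp only [zero_add, range_one, sum_singleton, lam, erase_singleton, prod_empty, inv_one,
      one_mul]
    exact inv_nonneg.2 (Finset.prod_nonneg fun y hy =>
      (sub_pos.2 (h 0 y (hY y hy).1 (hY y hy).2)).le)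
  | succ k ih =>
    intro Y hk
    induction Y using Finset.induction_on with
    | empty =>
      intro _
      have := sum_lam (r := 0) (h.le (M := k+1+1) (by omega)) (by omega)
      simp only [pow_zero, mul_one] at this
      simp [this]
    | insert y Y hy ihY =>
      intro hY
      have hy1 := hY y (mem_insert_self _ _)
      have h1 := ihY fun z hz => hY z (mem_insert_of_mem hz)
      have h2 := ih (insert y Y) (by omega) fun z hz => ⟨by have := (hY z hz).1; omega, (hY z hz).2⟩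
      have hpos : 0 < x y - x (k+1) := sub_pos.2 (h _ _ hy1.1 hy1.2)
      have key : (∑ j ∈ range (k+1+1), lam (k+1+1) x j * (∏ z ∈ insert y Y, (x z - x j))⁻¹)
          * (x y - x (k+1))
          = ∑ j ∈ range (k+1+1), lam (k+1+1) x j * (∏ z ∈ Y, (x z - x j))⁻¹
            + ∑ j ∈ range (k+1), lam (k+1) x j * (∏ z ∈ insert y Y, (x z - x j))⁻¹ := by
        rw [Finset.sum_range_succ, Finset.sum_range_succ (n := k+1), add_mul, Finset.sum_mul,
          add_right_comm (∑ j ∈ range (k+1), lam (k+1+1) x j * (∏ z ∈ Y, (x z - x j))⁻¹),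
          ← Finset.sum_add_distrib]
        congr 1
        · refine Finset.sum_congr rfl fun j hj => ?_
          have hj' := mem_range.1 hj
          rw [lam_succ x hj', Finset.prod_insert hy, mul_inv]
          have a1 : x j - x (k+1) ≠ 0 := sub_ne_zero.2 (h j (k+1) hj' hk).ne
          have a2 : x y - x j ≠ 0 := sub_ne_zero.2 (h j y (by omega) hy1.2).ne'
          generalize (∏ z ∈ Y, (x z - x j))⁻¹ = Q
          field_simp
          ring
        · rw [Finset.prod_insert hy, mul_inv]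
          generalize (∏ z ∈ Y, (x z - x (k+1)))⁻¹ = Q
          field_simp
      have h3 : 0 ≤ (∑ j ∈ range (k+1+1), lam (k+1+1) x j * (∏ z ∈ insert y Y, (x z - x j))⁻¹)
          * (x y - x (k+1)) := by
        rw [key]
        linarith
      exact (mul_nonneg_iff_of_pos_right hpos).1 h3

theorem lam_split {N k j : ℕ} (x : ℕ → ℝ) (hj : j ≤ k) (hk : k < N) :
    lam N x j = (-1:ℝ)^(N+1+k) * (lam (k+1) x j * (∏ y ∈ Ico (k+1) N, (x y - x j))⁻¹) := by
  have e : (range N).erase j = (range (k+1)).erase j ∪ Ico (k+1) N := by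
    ext i
    simp only [mem_erase, mem_range, mem_union, mem_Ico]
    omega
  have hd : Disjoint ((range (k+1)).erase j) (Ico (k+1) N) := by
    rw [Finset.disjoint_left]
    intro i h1 h2
    simp only [mem_erase, mem_range, mem_Ico] at h1 h2
    omega
  have e2 : ∏ y ∈ Ico (k+1) N, (x j - x y) = (-1:ℝ)^(N+1+k) * ∏ y ∈ Ico (k+1) N, (x y - x j) := by
    have : ∏ y ∈ Ico (k+1) N, (x j - x y) = ∏ y ∈ Ico (k+1) N, -(x y - x j) :=
      Finset.prod_congr rfl fun y _ => by ring
    rw [this, Finset.prod_neg, Nat.card_Ico]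
    obtain ⟨q, rfl⟩ : ∃ q, N = k+1+q := ⟨N - (k+1), by omega⟩
    have a1 : k+1+q - (k+1) = q := by omega
    have a2 : k+1+q+1+k = q + 2*(k+1) := by omega
    rw [a1, a2, pow_add, pow_mul]
    simp
  rw [lam, e, Finset.prod_union hd, e2, lam, mul_inv, mul_inv]
  have : ((-1:ℝ)^(N+1+k))⁻¹ = (-1:ℝ)^(N+1+k) := by
    rw [← inv_pow, inv_neg, inv_one]
  rw [this]
  ring

theorem wt_pos {N j : ℕ} {x : ℕ → ℝ} (h : Mono N x) (hj : j < N) : 0 < wt N x j := by
  refine inv_pos.2 (Finset.prod_pos fun i hi => abs_pos.2 (sub_ne_zero.2 fun e => ?_))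
  simp only [mem_erase, mem_range] at hi
  exact hi.1 (h.inj (by simpa using hi.2) (by simpa using hj) e.symm)

theorem lam_eq {N j : ℕ} {x : ℕ → ℝ} (h : Mono N x) (hj : j < N) :
    lam N x j = (-1:ℝ)^(N+1+j) * wt N x j := by
  have h1 := lam_split x (le_refl j) hj
  have h2 : 0 < lam (j+1) x j * (∏ y ∈ Ico (j+1) N, (x y - x j))⁻¹ := by
    refine mul_pos (inv_pos.2 (Finset.prod_pos fun i hi => ?_))
      (inv_pos.2 (Finset.prod_pos fun i hi => ?_))
    · simp only [mem_erase, mem_range] at hi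
      exact sub_pos.2 (h i j (by omega) hj)
    · simp only [mem_Ico] at hi
      exact sub_pos.2 (h j i (by omega) hi.2)
  have h3 : wt N x j = |lam N x j| := by
    rw [wt, lam, abs_inv, Finset.abs_prod]
  rw [h3, h1, abs_mul, abs_of_pos h2, abs_neg_one_pow, one_mul]

theorem S_nonneg {N k : ℕ} {x : ℕ → ℝ} (h : Mono N x) (hk : k < N) :
    0 ≤ ∑ j ∈ range (k+1), (-1:ℝ)^(j+k) * wt N x j := by
  have h1 := D_nonneg h k (Ico (k+1) N) hk fun y hy => by
    simp only [mem_Ico] at hy
    omega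
  refine le_of_le_of_eq h1 (Finset.sum_congr rfl fun j hj => ?_)
  have hj' := mem_range.1 hj
  have a1 := lam_split x (j := j) (k := k) (by omega) hk
  have a2 := lam_eq h (j := j) (by omega)
  have a3 := neg_one_sq' (N+1)
  have a4 := neg_one_sq' k
  rw [pow_add] at a1 a2
  rw [pow_add]
  generalize lam (k+1) x j * (∏ y ∈ Ico (k+1) N, (x y - x j))⁻¹ = Q at a1 ⊢
  have a5 : (-1:ℝ)^(N+1) * (-1:ℝ)^k * Q = (-1:ℝ)^(N+1) * (-1:ℝ)^j * wt N x j := a1.symm.trans a2
  linear_combination ((-1:ℝ)^(N+1) * (-1:ℝ)^k) * a5 - Q * (-1:ℝ)^k * (-1:ℝ)^k * a3 - Q * a4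
    + ((-1:ℝ)^j * (-1:ℝ)^k * wt N x j) * a3

theorem circ_wt {d : ℕ} {x : ℕ → ℝ} (h : Mono (d+2) x) (r : ℕ) (hr : r ≤ d) :
    ∑ j ∈ range (d+2), (-1:ℝ)^j * wt (d+2) x j * x j ^ r = 0 := by
  have h1 := sum_lam (r := r) h (by omega)
  have h2 : ∑ j ∈ range (d+2), lam (d+2) x j * x j ^ r
      = (-1:ℝ)^(d+2+1) * ∑ j ∈ range (d+2), (-1:ℝ)^j * wt (d+2) x j * x j ^ r := by
    rw [Finset.mul_sum]
    refine Finset.sum_congr rfl fun j hj => ?_
    rw [lam_eq h (mem_range.1 hj), pow_add]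
    ring
  rw [h2] at h1
  exact (mul_eq_zero.1 h1).resolve_left (pow_ne_zero _ (by norm_num))

theorem nonadj {d : ℕ} {x : ℕ → ℝ} (h : Mono (d+2) x) {i j : ℕ} (hij : i + 1 < j) (hj : j < d+2) :
    2 * (wt (d+2) x i + wt (d+2) x j) ≤ ∑ k ∈ range (d+2), wt (d+2) x k := by
  let S : ℕ → ℝ := fun k => ∑ l ∈ range k, (-1:ℝ)^(l+k+1) * wt (d+2) x l
  have hS0 : S 0 = 0 := by simp [S]
  have hSs : ∀ k, wt (d+2) x k = S k + S (k+1) := by
    intro k
    simp only [S]
    rw [Finset.sum_range_succ, ← add_assoc, ← Finset.sum_add_distrib]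
    have : ∑ l ∈ range k, ((-1:ℝ)^(l+k+1) * wt (d+2) x l + (-1:ℝ)^(l+(k+1)+1) * wt (d+2) x l) = 0 := by
      refine Finset.sum_eq_zero fun l _ => ?_
      ring
    rw [this]
    have e : k + (k+1) + 1 = 2 * (k+1) := by omega
    rw [e, pow_mul]
    simp
  have hSn : ∀ k, k < d+3 → 0 ≤ S k := by
    intro k hk
    rcases k with _ | k
    · rw [hS0]
    · have := S_nonneg h (k := k) (by omega)
      refine le_of_le_of_eq this (Finset.sum_congr rfl fun l _ => ?_)
      ring
  have hSe : S (d+2) = 0 := by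
    have := circ_wt h 0 (Nat.zero_le _)
    simp only [pow_zero, mul_one] at this
    have e : S (d+2) = (-1:ℝ)^(d+2+1) * ∑ l ∈ range (d+2), (-1:ℝ)^l * wt (d+2) x l := by
      rw [Finset.mul_sum]
      refine Finset.sum_congr rfl fun l _ => ?_
      ring
    rw [e, this, mul_zero]
  have e1 : ∑ k ∈ range (d+2), wt (d+2) x k = 2 * ∑ k ∈ range (d+3), S k := by
    simp only [hSs]
    rw [Finset.sum_add_distrib]
    have a1 := Finset.sum_range_succ S (d+2)
    have a2 := Finset.sum_range_succ' S (d+2)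
    linarith
  have e2 : ∑ k ∈ ({i, i+1, j, j+1} : Finset ℕ), S k ≤ ∑ k ∈ range (d+3), S k := by
    apply Finset.sum_le_sum_of_subset_of_nonneg
    · intro k hk
      simp only [mem_insert, mem_singleton] at hk
      simp only [mem_range]
      omega
    · intro k hk _
      exact hSn k (mem_range.1 hk)
  rw [Finset.sum_insert (by simp; omega), Finset.sum_insert (by simp; omega),
    Finset.sum_insert (by simp), Finset.sum_singleton] at e2
  rw [e1, hSs i, hSs j]
  linarith

end Pool.Agent.H98.Cyc
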