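import Pool.Agent.H98.Cyc5

set_option autoImplicit false

namespace Pool.Agent.H98.Cyc

open Finset

variable {d n : ℕ}

def Rel (d : ℕ) (t : Fin n → ℝ) (a b : Fin n) : Prop :=
  ∃ (z : ℕ → Fin n) (k : ℕ), Mono (d+2) z ∧ k+1 < d+2 ∧ z k = a ∧ z (k+1) = b ∧
    ∑ j ∈ range (d+2), wt (d+2) (fun i => t (z i)) j
      < 2 * (wt (d+2) (fun i => t (z i)) k + wt (d+2) (fun i => t (z i)) (k+1))

theorem Mono.comp {m : ℕ} {z : ℕ → Fin n} (h : Mono m z) {t : Fin n → ℝ} (ht : StrictMono t) :
    Mono m (fun i => t (z i)) := fun a b hab hb => ht (h a b hab hb)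

theorem circ_vec {t : Fin n → ℝ} (ht : StrictMono t) {z : ℕ → Fin n} (hz : Mono (d+2) z) :
    ∑ j ∈ range (d+2), ((-1:ℝ)^j * wt (d+2) (fun i => t (z i)) j) •
      (fun r : Fin (d+1) => t (z j) ^ (r:ℕ)) = 0 := by
  funext r
  have := circ_wt (hz.comp ht) r (by omega)
  simpa [Finset.sum_apply] using this

theorem Rel.gd {t : Fin n → ℝ} (ht : StrictMono t) {a b : Fin n} (h : Rel d t a b) :
    Gd d (fun x (r : Fin (d+1)) => t x ^ (r:ℕ)) a b := by
  obtain ⟨z, k, hz, hk, ha, hb, hlt⟩ := h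
  refine ⟨z, k, fun j => if j < d+2 then wt (d+2) (fun i => t (z i)) j else 1, hz, hk, ha, hb,
    fun j => ?_, ?_, ?_⟩
  · by_cases hj : j < d+2
    · simp only [hj, if_true]
      exact wt_pos (hz.comp ht) hj
    · simp [hj]
  · rw [← circ_vec ht hz]
    refine Finset.sum_congr rfl fun j hj => ?_
    simp only [mem_range.1 hj, if_true]
  · rw [split hk] at hlt
    have e : ∑ j ∈ Oth d k, (if j < d+2 then wt (d+2) (fun i => t (z i)) j else 1)
        = ∑ j ∈ Oth d k, wt (d+2) (fun i => t (z i)) j :=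
      Finset.sum_congr rfl fun j hj => by simp only [(mem_Oth.1 hj).2.2, if_true]
    have hk' : k < d+2 := by omega
    simp only [e, hk, hk', if_true]
    linarith

theorem enum (I : Finset (Fin n)) {m : ℕ} (hm : I.card = m) (a : Fin n) :
    ∃ z : ℕ → Fin n, Mono m z ∧ ∀ x ∈ I, ∃ k, k < m ∧ z k = x := by
  refine ⟨fun k => if h : k < m then I.orderEmbOfFin hm ⟨k, h⟩ else a, ?_, ?_⟩
  · intro i j hij hj
    have hi : i < m := by omega
    simp only [hi, hj, dif_pos]
    exact (I.orderEmbOfFin hm).strictMono hij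
  · intro x hx
    have : x ∈ Set.range (I.orderEmbOfFin hm) := by
      rw [Finset.range_orderEmbOfFin]
      exact hx
    obtain ⟨k, hk⟩ := this
    exact ⟨k, k.2, by simp [hk]⟩

theorem antip {t : Fin n → ℝ} (ht : StrictMono t) (hn : d+1 ≤ n) {a b : Fin n} (hab : a < b)
    (h : ¬ Rel d t a b) : ∃ f : (Fin (d+1) → ℝ) →ₗ[ℝ] ℝ,
      f (fun r => t a ^ (r:ℕ)) ≤ -1 ∧ 1 ≤ f (fun r => t b ^ (r:ℕ)) ∧
      ∀ x, (x ≠ a → -1 ≤ f (fun r => t x ^ (r:ℕ))) ∧ (x ≠ b → f (fun r => t x ^ (r:ℕ)) ≤ 1) := by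
  classical
  let u : Fin n → Fin (d+1) → ℝ := fun x r => t x ^ (r:ℕ)
  have hu : Alt d u := alt_vand d ht
  let F : Fin n → Set ((Fin (d+1) → ℝ) →ₗ[ℝ] ℝ) := fun x =>
    {f | (x = a → f (u x) ≤ -1) ∧ (x = b → 1 ≤ f (u x)) ∧ (x ≠ a → -1 ≤ f (u x)) ∧
      (x ≠ b → f (u x) ≤ 1)}
  let e : (Fin (d+1) → ℝ) →ₗ[ℝ] ℝ := LinearMap.proj 0
  have he : ∀ x, e (u x) = 1 := fun x => by simp [e, u]
  have hfr : Module.finrank ℝ ((Fin (d+1) → ℝ) →ₗ[ℝ] ℝ) = d+1 := by
    rw [Module.finrank_linearMap]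
    simp
  have key := Convex.helly_theorem' (𝕜 := ℝ) (F := F) (s := univ) (by
    intro x _ f hf g hg p q hp hq hpq
    simp only [F, Set.mem_setOf_eq, LinearMap.add_apply, LinearMap.smul_apply, smul_eq_mul]
      at hf hg ⊢
    refine ⟨fun h => ?_, fun h => ?_, fun h => ?_, fun h => ?_⟩
    · nlinarith [hf.1 h, hg.1 h]
    · nlinarith [hf.2.1 h, hg.2.1 h]
    · nlinarith [hf.2.2.1 h, hg.2.2.1 h]
    · nlinarith [hf.2.2.2 h, hg.2.2.2 h]) (by
    intro I _ hI
    rw [hfr] at hI
    have val : ∀ (f : (Fin (d+1) → ℝ) →ₗ[ℝ] ℝ), (∀ x ∈ I, (x = a → f (u x) = -1) ∧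
        (x = b → f (u x) = 1) ∧ |f (u x)| ≤ 1) → (⋂ i ∈ I, F i).Nonempty := by
      intro f hf
      refine ⟨f, Set.mem_iInter₂.2 fun x hx => ?_⟩
      obtain ⟨h1, h2, h3⟩ := hf x hx
      exact ⟨fun h => (h1 h).le, fun h => (h2 h).ge, fun _ => (abs_le.1 h3).1,
        fun _ => (abs_le.1 h3).2⟩
    by_cases haI : a ∈ I
    swap
    · refine val e fun x hx => ⟨fun h => absurd (h ▸ hx) haI, fun _ => he x, by simp [he]⟩
    by_cases hbI : b ∈ I
    swap
    · refine val (-e) fun x hx => ⟨fun _ => by simp [he], fun h => absurd (h ▸ hx) hbI,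
        by simp [he]⟩
    by_cases hc : I.card ≤ d+1
    · obtain ⟨J, hIJ, hJ⟩ := Finset.exists_superset_card_eq hc (by simpa using hn)
      obtain ⟨z, hz, hz2⟩ := enum J hJ a
      obtain ⟨f, hf⟩ := hu.interp hz (fun k => if z k = a then -1 else 1)
      refine val f fun x hx => ?_
      obtain ⟨k, hk, rfl⟩ := hz2 x (hIJ hx)
      rw [hf k hk]
      refine ⟨fun h => by simp [h], fun h => by simp [h, hab.ne'], ?_⟩
      split_ifs <;> simp
    · obtain ⟨z, hz, hz2⟩ := enum I (m := d+2) (by omega) a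
      obtain ⟨i, hi, hia⟩ := hz2 a haI
      obtain ⟨j, hj, hjb⟩ := hz2 b hbI
      have hij : i < j := by
        by_contra hcon
        rcases eq_or_lt_of_le (not_lt.1 hcon) with h1 | h1
        · rw [← hia, ← hjb, h1] at hab
          exact lt_irrefl _ hab
        · have := hz j i h1 hi
          rw [hia, hjb] at this
          exact lt_asymm hab this
      set w := wt (d+2) (fun i => t (z i)) with hw
      have hwp : ∀ k, k < d+2 → 0 < w k := fun k hk => wt_pos (hz.comp ht) hk
      have hle : 2 * (w i + w j) ≤ ∑ k ∈ range (d+2), w k := by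
        by_cases hadj : j = i+1
        · by_contra hcon
          subst hadj
          exact h ⟨z, i, hz, hj, hia, hjb, not_le.1 hcon⟩
        · exact nonadj (hz.comp ht) (by omega) hj
      have hsp : ∀ G : ℕ → ℝ, ∑ k ∈ range (d+2), G k
          = ∑ k ∈ ((range (d+2)).erase i).erase j, G k + G j + G i := by
        intro G
        rw [Finset.sum_erase_add _ _ (by simp; omega), Finset.sum_erase_add _ _ (by simpa using hi)]
      set R := ∑ k ∈ ((range (d+2)).erase i).erase j, w k with hR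
      have hR1 : w i + w j ≤ R := by
        have := hsp w
        linarith
      have hR0 : 0 < R := by linarith [hwp i hi, hwp j hj]
      obtain ⟨θ, hθ⟩ : ∃ θ : ℝ, θ * R = (-1:ℝ)^i * w i - (-1:ℝ)^j * w j :=
        ⟨_, div_mul_cancel₀ _ hR0.ne'⟩
      have hθ1 : |θ| ≤ 1 := by
        have a1 := hwp i hi
        have a2 := hwp j hj
        rw [abs_le]
        constructor
        · by_contra hcon
          rcases neg_one_pow_eq_or ℝ i with e1 | e1 <;> rcases neg_one_pow_eq_or ℝ j with e2 | e2 <;>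
            rw [e1, e2] at hθ <;> nlinarith
        · by_contra hcon
          rcases neg_one_pow_eq_or ℝ i with e1 | e1 <;> rcases neg_one_pow_eq_or ℝ j with e2 | e2 <;>
            rw [e1, e2] at hθ <;> nlinarith
      let p : ℕ → ℝ := fun k => if k = i then -1 else if k = j then 1 else (-1:ℝ)^k * θ
      have hp0 : ∑ k ∈ range (d+2), (-1:ℝ)^k * w k * p k = 0 := by
        rw [hsp]
        have e1 : ∑ k ∈ ((range (d+2)).erase i).erase j, (-1:ℝ)^k * w k * p k = θ * R := by
          rw [hR, Finset.mul_sum]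
          refine Finset.sum_congr rfl fun k hk => ?_
          simp only [mem_erase] at hk
          simp only [p, hk.1, hk.2.1, if_false]
          linear_combination (θ * w k) * neg_one_sq' k
        have e2 : p i = -1 := by simp [p]
        have e3 : p j = 1 := by simp [p, hij.ne']
        rw [e1, e2, e3, hθ]
        ring
      obtain ⟨f, hf⟩ := hu.interp (hz.le (M := d+1) (by omega)) p
      have hf' : ∀ k, k < d+2 → f (u (z k)) = p k := by
        intro k hk
        by_cases hk' : k < d+1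
        · exact hf k hk'
        · have : k = d+1 := by omega
          subst this
          have a1 := app (u := u) (circ_vec ht hz) f
          rw [Finset.sum_range_succ] at a1 hp0
          have a2 : ∑ k ∈ range (d+1), (-1:ℝ)^k * w k * f (u (z k))
              = ∑ k ∈ range (d+1), (-1:ℝ)^k * w k * p k :=
            Finset.sum_congr rfl fun k hk => by rw [hf k (mem_range.1 hk)]
          have a3 : (-1:ℝ)^(d+1) * w (d+1) * (f (u (z (d+1))) - p (d+1)) = 0 := by
            linarith
          rcases mul_eq_zero.1 a3 with a4 | a4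
          · exact absurd a4 (mul_ne_zero (pow_ne_zero _ (by norm_num)) (hwp _ hk).ne')
          · linarith
      refine val f fun x hx => ?_
      obtain ⟨k, hk, rfl⟩ := hz2 x hx
      rw [hf' k hk]
      refine ⟨fun h => ?_, fun h => ?_, ?_⟩
      · have : k = i := hz.inj (by simpa using hk) (by simpa using hi) (h.trans hia.symm)
        simp [p, this]
      · have : k = j := hz.inj (by simpa using hk) (by simpa using hj) (h.trans hjb.symm)
        simp [p, this, hij.ne']
      · simp only [p]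
        split_ifs
        · simp
        · simp
        · rw [abs_mul, abs_neg_one_pow, one_mul]
          exact hθ1)
  obtain ⟨f, hf⟩ := key
  have hf' : ∀ x, f ∈ F x := fun x => Set.mem_iInter₂.1 hf x (mem_univ _)
  exact ⟨f, (hf' a).1 rfl, (hf' b).2.1 rfl, fun x => ⟨(hf' x).2.2.1, (hf' x).2.2.2⟩⟩

def inc (d : ℕ) : EuclideanSpace ℝ (Fin d) →ₗ[ℝ] (Fin (d+1) → ℝ) where
  toFun x := Fin.cons 0 (fun i => x i)
  map_add' x y := by
    funext r
    refine Fin.cases ?_ (fun i => ?_) r <;> simp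
  map_smul' c x := by
    funext r
    refine Fin.cases ?_ (fun i => ?_) r <;> simp

theorem hom_inc (v : Fin n → EuclideanSpace ℝ (Fin d)) (x : Fin n) :
    hom v x = Pi.single 0 1 + inc d (v x) := by
  funext r
  refine Fin.cases ?_ (fun i => ?_) r <;> simp [hom, inc]

/-- a direction that moves a minimising vertex into the interior increases the functional -/
theorem incr {v : Fin n → EuclideanSpace ℝ (Fin d)} (f : (Fin (d+1) → ℝ) →ₗ[ℝ] ℝ) {a b : Fin n}
    (h1 : ∀ x, f (hom v a) ≤ f (hom v x)) (h2 : f (hom v a) < f (hom v b))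
    {y : EuclideanSpace ℝ (Fin d)} (hy : v a + y ∈ interior (convexHull ℝ (Set.range v))) :
    0 < f (inc d y) := by
  simp only [hom_inc, map_add, add_le_add_iff_left, add_lt_add_iff_left] at h1 h2
  have hK : ∀ x ∈ convexHull ℝ (Set.range v), f (inc d (v a)) ≤ f (inc d x) := by
    intro x hx
    obtain ⟨c, hc, hc1, rfl⟩ := hull_repr hx
    simp only [map_sum, map_smul, smul_eq_mul]
    calc f (inc d (v a)) = ∑ s, c s * f (inc d (v a)) := by rw [← Finset.sum_mul, hc1, one_mul]
      _ ≤ _ := Finset.sum_le_sum fun s _ => mul_le_mul_of_nonneg_left (h1 s) (hc s)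
  have hc : Continuous fun s : ℝ => v a + y + s • (v a - v b) := by fun_prop
  have hev : ∀ᶠ s in nhds (0:ℝ), v a + y + s • (v a - v b) ∈ interior (convexHull ℝ (Set.range v)) :=
    hc.continuousAt.eventually (isOpen_interior.mem_nhds (by simpa using hy))
  obtain ⟨s, hs, hs0⟩ := ((hev.filter_mono nhdsWithin_le_nhds).and
    (self_mem_nhdsWithin (s := Set.Ioi (0:ℝ)))).exists
  have := hK _ (interior_subset hs)
  simp only [map_add, map_smul, map_sub, smul_eq_mul] at this
  have hs1 : 0 < s := hs0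
  nlinarith

theorem no_both {v : Fin n → EuclideanSpace ℝ (Fin d)} (f : (Fin (d+1) → ℝ) →ₗ[ℝ] ℝ) {a b : Fin n}
    (h1 : ∀ x, f (hom v a) ≤ f (hom v x) ∧ f (hom v x) ≤ f (hom v b))
    (h2 : f (hom v a) < f (hom v b)) {w : EuclideanSpace ℝ (Fin d)} {σ τ : ℝ} (hσ : 0 < σ)
    (hτ : 0 < τ) (ha : v a + σ • w ∈ interior (convexHull ℝ (Set.range v)))
    (hb : v b + τ • w ∈ interior (convexHull ℝ (Set.range v))) : False := by
  have a1 := incr f (fun x => (h1 x).1) h2 ha
  have a2 := incr (-f) (a := b) (b := a) (fun x => by simpa using (h1 x).2) (by simpa using h2) hb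
  simp only [map_smul, smul_eq_mul, LinearMap.neg_apply] at a1 a2
  have a3 := (mul_pos_iff_of_pos_left hσ).1 a1
  nlinarith

end Pool.Agent.H98.Cyc
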