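import Pool.Agent.H98.Cyc6

set_option autoImplicit false

namespace Pool.Agent.H98.Cyc

open Finset

variable {d n : ℕ}

def IllSet (K : Set (EuclideanSpace ℝ (Fin d))) : Set ℕ :=
  {N | ∃ W : Finset (EuclideanSpace ℝ (Fin d)), W.card = N ∧ (∀ w ∈ W, ‖w‖ = 1) ∧
    ∀ q ∈ frontier K, ∃ w ∈ W, ∃ τ : ℝ, 0 < τ ∧ q + τ • w ∈ interior K}

theorem to_ill {K : Set (EuclideanSpace ℝ (Fin d))} (hK : IsClosed K) {N : ℕ}
    (h : ∃ W : Finset (EuclideanSpace ℝ (Fin d)), W.card ≤ N ∧ ∃ δ : ℝ, 0 < δ ∧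
      ∀ x ∈ K, ∃ w ∈ W, x + δ • w ∈ interior K) : ∃ M, M ≤ N ∧ M ∈ IllSet K := by
  classical
  obtain ⟨W, hW, δ, hδ, h⟩ := h
  refine ⟨_, ?_, (W.filter (· ≠ 0)).image (fun w => ‖w‖⁻¹ • w), rfl, ?_, ?_⟩
  · exact card_image_le.trans ((card_filter_le _ _).trans hW)
  · intro w hw
    obtain ⟨w', hw', rfl⟩ := mem_image.1 hw
    have : ‖w'‖ ≠ 0 := norm_ne_zero_iff.2 (mem_filter.1 hw').2
    rw [norm_smul, norm_inv, norm_norm, inv_mul_cancel₀ this]
  · intro q hq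
    obtain ⟨w, hw, hq2⟩ := h q (hK.frontier_subset hq)
    have hw0 : w ≠ 0 := by
      rintro rfl
      exact hq.2 (by simpa using hq2)
    have hn : 0 < ‖w‖ := norm_pos_iff.2 hw0
    refine ⟨_, mem_image_of_mem _ (mem_filter.2 ⟨hw, hw0⟩), δ * ‖w‖, mul_pos hδ hn, ?_⟩
    rwa [smul_smul, mul_assoc, mul_inv_cancel₀ hn.ne', mul_one]

theorem closedK (v : Fin n → EuclideanSpace ℝ (Fin d)) : IsClosed (convexHull ℝ (Set.range v)) :=
  (Set.finite_range v).isClosed_convexHull ℝ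

theorem vert_frontier {m : ℕ} (hn : 2 ≤ n) {t : Fin n → ℝ} (ht : StrictMono t) (a : Fin n) :
    mom (m+2) (t a) ∈ frontier (convexHull ℝ (Set.range fun x => mom (m+2) (t x))) := by
  rw [(closedK _).frontier_eq]
  refine ⟨subset_convexHull ℝ _ ⟨a, rfl⟩, fun hint => ?_⟩
  let f : (Fin (m+2+1) → ℝ) →ₗ[ℝ] ℝ :=
    LinearMap.proj (⟨2, by omega⟩ : Fin (m+2+1)) - (2 * t a) • LinearMap.proj (⟨1, by omega⟩ : Fin (m+2+1))
      + (t a ^ 2) • LinearMap.proj (⟨0, by omega⟩ : Fin (m+2+1))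
  have hf : ∀ x, f (hom (fun x => mom (m+2) (t x)) x) = (t x - t a) ^ 2 := by
    intro x
    rw [hom_mom]
    simp only [f, LinearMap.add_apply, LinearMap.sub_apply, LinearMap.smul_apply,
      LinearMap.proj_apply, smul_eq_mul]
    ring
  haveI : Nontrivial (Fin n) := Fin.nontrivial_iff_two_le.2 hn
  obtain ⟨b, hb⟩ := exists_ne a
  have := incr (v := fun x => mom (m+2) (t x)) f (a := a) (b := b)
    (fun x => by rw [hf, hf, sub_self]; simpa using sq_nonneg (t x - t a))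
    (by
      rw [hf, hf, sub_self]
      have : t b - t a ≠ 0 := sub_ne_zero.2 fun e => hb (ht.injective e)
      have := sq_pos_of_ne_zero this
      simpa using this) (y := 0) (by simpa using hint)
  simp at this

theorem low_of {m : ℕ} (hn : 2 ≤ n) {t : Fin n → ℝ} (ht : StrictMono t) {A : Finset (Fin n)}
    (hA : ∀ a ∈ A, ∀ b ∈ A, a < b → ∃ f : (Fin (m+2+1) → ℝ) →ₗ[ℝ] ℝ,
      f (fun r => t a ^ (r:ℕ)) < f (fun r => t b ^ (r:ℕ)) ∧
      ∀ x, f (fun r => t a ^ (r:ℕ)) ≤ f (fun r => t x ^ (r:ℕ)) ∧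
        f (fun r => t x ^ (r:ℕ)) ≤ f (fun r => t b ^ (r:ℕ)))
    {N : ℕ} (hN : N ∈ IllSet (convexHull ℝ (Set.range fun x => mom (m+2) (t x)))) :
    A.card ≤ N := by
  obtain ⟨W, rfl, _, hW⟩ := hN
  choose w hw τ hτ hint using fun a => hW _ (vert_frontier (m := m) hn ht a)
  have key : ∀ a ∈ A, ∀ b ∈ A, a < b → w a ≠ w b := by
    intro a ha b hb hab e
    obtain ⟨f, h1, h2⟩ := hA a ha b hb hab
    refine no_both (v := fun x => mom (m+2) (t x)) f (a := a) (b := b) ?_ ?_ (hτ a) (hτ b)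
      (hint a) (e ▸ hint b)
    · rw [hom_mom]
      exact h2
    · rw [hom_mom]
      exact h1
  refine Finset.card_le_card_of_injOn w (fun a _ => hw a) fun a ha b hb e => ?_
  rcases lt_trichotomy a b with h | h | h
  · exact absurd e (key a ha b hb h)
  · exact h
  · exact absurd e.symm (key b hb a ha h)

def Free (d : ℕ) (t : Fin n → ℝ) (A : Finset (Fin n)) : Prop :=
  ∀ a ∈ A, ∀ b ∈ A, a < b → ¬ Rel d t a b

theorem formula {m : ℕ} (hn : m+2+1 ≤ n) {t : Fin n → ℝ} (ht : StrictMono t) :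
    ∃ I : ℕ, IsLeast (IllSet (convexHull ℝ (Set.range fun x => mom (m+2) (t x)))) I ∧
      IsGreatest {k | ∃ A : Finset (Fin n), Free (m+2) t A ∧ A.card = k} I ∧ I ≤ 2*(m+2) - 1 := by
  classical
  have hlow : ∀ A, Free (m+2) t A → ∀ N ∈ IllSet (convexHull ℝ (Set.range fun x => mom (m+2) (t x))),
      A.card ≤ N := by
    intro A hA N hN
    refine low_of (by omega) ht (fun a ha b hb hab => ?_) hN
    obtain ⟨f, h1, h2, h3⟩ := antip ht hn hab (hA a ha b hb hab)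
    refine ⟨f, by linarith, fun x => ⟨?_, ?_⟩⟩
    · by_cases hx : x = a
      · rw [hx]
      · linarith [(h3 x).1 hx]
    · by_cases hx : x = b
      · rw [hx]
      · linarith [(h3 x).2 hx]
  obtain ⟨A, hA, hmax⟩ := (univ.filter (Free (m+2) t)).exists_max_image card
    ⟨∅, by simp [Free]⟩
  have hA' := (mem_filter.1 hA).2
  have h := alt_mom (d := m+2) ht
  obtain ⟨W, hW, hW2⟩ := greedy (cov_self h hn) A.card 0 (by
    intro s hs _
    have hc : ((range (A.card+1)).image s).card = A.card + 1 := by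
      rw [card_image_of_injOn hs.inj, card_range]
    have hnf : ¬ Free (m+2) t ((range (A.card+1)).image s) := by
      intro hf
      have := hmax _ (mem_filter.2 ⟨mem_univ _, hf⟩)
      omega
    unfold Free at hnf
    push Not at hnf
    obtain ⟨a, ha, b, hb, hab, hr⟩ := hnf
    obtain ⟨i, hi, rfl⟩ := mem_image.1 ha
    obtain ⟨j, hj, rfl⟩ := mem_image.1 hb
    have hi' := mem_range.1 hi
    have hj' := mem_range.1 hj
    have hij : i < j := by
      by_contra hcon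
      rcases eq_or_lt_of_le (not_lt.1 hcon) with h1 | h1
      · rw [h1] at hab
        exact lt_irrefl _ hab
      · exact lt_asymm hab (hs j i h1 hi')
    have hg := hr.gd ht
    rw [← hom_mom] at hg
    refine ⟨i, by omega, (hg.cov h hn).mono ?_⟩
    rcases eq_or_lt_of_le (Nat.succ_le_of_lt hij) with h1 | h1
    · exact (congrArg s h1).le
    · exact (hs _ _ h1 hj').le)
  obtain ⟨M, hM, hM2⟩ := to_ill (closedK _) ⟨W, hW, uniform (by omega) fun t => hW2 t (Nat.zero_le _)⟩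
  have hMA : M = A.card := le_antisymm hM (hlow A hA' M hM2)
  obtain ⟨M', hM', hM2'⟩ := to_ill (closedK _) (momUB (m := m+1) (by omega) hn ht)
  refine ⟨A.card, ⟨hMA ▸ hM2, fun N hN => hlow A hA' N hN⟩, ⟨⟨A, hA', rfl⟩, ?_⟩, ?_⟩
  · rintro k ⟨B, hB, rfl⟩
    exact hmax B (mem_filter.2 ⟨mem_univ _, hB⟩)
  · have := hlow A hA' M' hM2'
    omega

end Pool.Agent.H98.Cyc
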