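import Pool.Agent.H98.Cyc7

set_option autoImplicit false

namespace Pool.Agent.H98.Cyc

open Finset Polynomial Filter Topology

/-- strict extremal position of two indices for a function -/
def Ext2 {ι : Type} (g : ι → ℝ) (α β : ι) : Prop :=
  g β < g α ∧ ∀ γ, γ ≠ α → γ ≠ β → g β < g γ ∧ g γ < g α

theorem Ext2.neg {ι : Type} {g : ι → ℝ} {α β : ι} (h : Ext2 g α β) : Ext2 (fun x => - g x) β α :=
  ⟨by linarith [h.1], fun γ h1 h2 => ⟨by linarith [(h.2 γ h2 h1).2], by linarith [(h.2 γ h2 h1).1]⟩⟩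

theorem Ext2.ev {ι : Type} [Finite ι] {g : ℝ → ι → ℝ} (hg : ∀ γ, Continuous fun ε => g ε γ)
    {α β : ι} (h : Ext2 (g 0) α β) : ∀ᶠ ε in 𝓝 (0:ℝ), Ext2 (g ε) α β := by
  refine ((hg β).continuousAt.eventually_lt (hg α).continuousAt h.1).and ?_
  rw [Filter.eventually_all]
  intro γ
  by_cases h1 : γ = α
  · exact Eventually.of_forall fun _ h => absurd h1 h
  by_cases h2 : γ = β
  · exact Eventually.of_forall fun _ _ h => absurd h2 h
  filter_upwards [(hg β).continuousAt.eventually_lt (hg γ).continuousAt (h.2 γ h1 h2).1,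
    (hg γ).continuousAt.eventually_lt (hg α).continuousAt (h.2 γ h1 h2).2] with ε a b
  exact fun _ _ => ⟨a, b⟩

theorem ex_pos {P : ℝ → Prop} (h : ∀ᶠ ε in 𝓝 (0:ℝ), P ε) : ∃ ε, 0 < ε ∧ P ε := by
  obtain ⟨s, hs, hs0⟩ := ((h.filter_mono nhdsWithin_le_nhds).and
    (self_mem_nhdsWithin (s := Set.Ioi (0:ℝ)))).exists
  exact ⟨s, hs0, hs⟩

def SA (d : ℕ) {ι : Type} (t : ι → ℝ) : Prop :=
  ∀ α β, α ≠ β → ∃ p : ℝ[X], p.natDegree ≤ d ∧ Ext2 (fun γ => p.eval (t γ)) α β

theorem SA.norm {d : ℕ} {ι : Type} {t : ι → ℝ} (h : SA d t) (α β : ι) (hab : α ≠ β) :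
    ∃ p : ℝ[X], p.natDegree ≤ d ∧ Ext2 (fun γ => p.eval (t γ)) α β ∧ p.eval (t α) = 1 ∧
      p.eval (t β) = -1 := by
  obtain ⟨p, hp, h1, h2⟩ := h α β hab
  simp only at h1 h2
  have hD : 0 < p.eval (t α) - p.eval (t β) := by linarith
  have hc : 0 < 2 / (p.eval (t α) - p.eval (t β)) := div_pos two_pos hD
  refine ⟨C (2 / (p.eval (t α) - p.eval (t β))) * (p - C ((p.eval (t α) + p.eval (t β)) / 2)),
    ?_, ⟨?_, fun γ a b => ⟨?_, ?_⟩⟩, ?_, ?_⟩
  · refine (natDegree_C_mul_le _ _).trans ?_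
    rw [natDegree_sub_C]
    exact hp
  · simp only [eval_mul, eval_C, eval_sub]
    exact mul_lt_mul_of_pos_left (by linarith) hc
  · simp only [eval_mul, eval_C, eval_sub]
    exact mul_lt_mul_of_pos_left (by linarith [(h2 γ a b).1]) hc
  · simp only [eval_mul, eval_C, eval_sub]
    exact mul_lt_mul_of_pos_left (by linarith [(h2 γ a b).2]) hc
  · simp only [eval_mul, eval_C, eval_sub]
    field_simp
    ring
  · simp only [eval_mul, eval_C, eval_sub]
    field_simp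
    ring

theorem SA.inj {d : ℕ} {ι : Type} {t : ι → ℝ} (h : SA d t) : Function.Injective t := by
  intro a b e
  by_contra hab
  obtain ⟨p, _, h1, _⟩ := h a b hab
  simp only [e] at h1
  exact lt_irrefl _ h1

noncomputable def val (d : ℕ) {ι : Type} (t : ι → ℝ) (η : ℝ) (f : ℝ[X]) (y ε : ℝ) : ι ⊕ Bool → ℝ
  | Sum.inl x => f.eval (t x) * (1 - ε * t x) + y * (ε * t x)^(d+1)
  | Sum.inr false => y
  | Sum.inr true => -η * ∑ r ∈ range (d+1), f.coeff r * (1 + η * ε^d)^r * ε^(d-r)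
      + y * (1 + η * ε^d)^(d+1)

noncomputable def pt (d : ℕ) {ι : Type} (t : ι → ℝ) (η ε : ℝ) : ι ⊕ Bool → ℝ
  | Sum.inl x => t x
  | Sum.inr false => ε⁻¹
  | Sum.inr true => ε⁻¹ * (1 + η * ε^d)

theorem val_cont (d : ℕ) {ι : Type} (t : ι → ℝ) (η : ℝ) (f : ℝ[X]) (y : ℝ) (γ : ι ⊕ Bool) :
    Continuous fun ε => val d t η f y ε γ := by
  rcases γ with x | _ | _ <;> simp only [val] <;> fun_prop

noncomputable def val0 (d : ℕ) {ι : Type} (t : ι → ℝ) (η : ℝ) (f : ℝ[X]) (y : ℝ) : ι ⊕ Bool → ℝ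
  | Sum.inl x => f.eval (t x)
  | Sum.inr false => y
  | Sum.inr true => y - η * f.coeff d

theorem val_zero {d : ℕ} (hd : 1 ≤ d) {ι : Type} (t : ι → ℝ) (η : ℝ) (f : ℝ[X]) (y : ℝ) :
    val d t η f y 0 = val0 d t η f y := by
  funext γ
  rcases γ with x | _ | _
  · simp [val, val0]
  · simp [val, val0]
  · simp only [val, val0, zero_pow (by omega : d ≠ 0), mul_zero, add_zero, one_pow, mul_one]
    rw [Finset.sum_range_succ, Finset.sum_eq_zero]
    · simp
      ring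
    · intro r hr
      rw [zero_pow (by have := mem_range.1 hr; omega), mul_zero]

theorem val_poly {d : ℕ} {ι : Type} (t : ι → ℝ) (η : ℝ) {f : ℝ[X]} (hf : f.natDegree ≤ d) (y : ℝ)
    {ε : ℝ} (hε : ε ≠ 0) : ∃ P : ℝ[X], P.natDegree ≤ d+1 ∧
      (fun γ => P.eval (pt d t η ε γ)) = val d t η f y ε := by
  refine ⟨f * (1 - C ε * X) + C (y * ε^(d+1)) * X^(d+1), ?_, ?_⟩
  · refine (natDegree_add_le _ _).trans (max_le ?_ ?_)
    · refine natDegree_mul_le.trans ?_
      have : (1 - C ε * X : ℝ[X]).natDegree ≤ 1 := by compute_degree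
      omega
    · exact (natDegree_C_mul_le _ _).trans (by simp)
  · funext γ
    rcases γ with x | _ | _
    · simp only [pt, val, eval_add, eval_mul, eval_sub, eval_one, eval_C, eval_X, eval_pow]
      ring
    · simp only [pt, val, eval_add, eval_mul, eval_sub, eval_one, eval_C, eval_X, eval_pow]
      rw [mul_inv_cancel₀ hε, mul_assoc, ← mul_pow, mul_inv_cancel₀ hε]
      simp
    · simp only [pt, val, eval_add, eval_mul, eval_sub, eval_one, eval_C, eval_X, eval_pow]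
      rw [eval_eq_sum_range' (Nat.lt_succ_of_le hf), mul_assoc y, ← mul_pow, ← mul_assoc ε,
        mul_inv_cancel₀ hε, one_mul, Finset.sum_mul, Finset.mul_sum]
      congr 1
      refine Finset.sum_congr rfl fun r hr => ?_
      obtain ⟨q, hq⟩ : ∃ q, d = r + q := ⟨d - r, by have := mem_range.1 hr; omega⟩
      have e1 : d - r = q := by omega
      have e2 : ε ^ d = ε ^ r * ε ^ q := by rw [hq, pow_add]
      rw [e1, mul_pow, inv_pow]
      generalize (1 + η * ε ^ d) ^ r = Q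
      rw [e2]
      field_simp
      ring

theorem val0_neg (d : ℕ) {ι : Type} (t : ι → ℝ) (η : ℝ) (f : ℝ[X]) (y : ℝ) :
    val0 d t η (-f) (-y) = fun γ => - val0 d t η f y γ := by
  funext γ
  rcases γ with x | _ | _ <;> simp [val0]
  ring

theorem peak {d : ℕ} (hd : 3 ≤ d) {ι : Type} [Finite ι] {t : ι → ℝ} (ht : Function.Injective t)
    (u : ι) (s : ℝ) : ∃ f : ℝ[X], f.natDegree ≤ d ∧ (∃ κ : ℝ, 0 < κ ∧ f.coeff d = s * κ) ∧
      f.eval (t u) = 0 ∧ ∀ x, x ≠ u → f.eval (t x) < 0 := by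
  have hev : ∀ᶠ κ in 𝓝 (0:ℝ), ∀ x, x ≠ u → -(t x - t u)^2 + s * κ * (t x - t u)^d < 0 := by
    rw [Filter.eventually_all]
    intro x
    by_cases hx : x = u
    · exact Eventually.of_forall fun _ h => absurd hx h
    have hc : Continuous fun κ : ℝ => -(t x - t u)^2 + s * κ * (t x - t u)^d := by fun_prop
    have h0 : t x - t u ≠ 0 := sub_ne_zero.2 fun e => hx (ht e)
    filter_upwards [hc.continuousAt.eventually_lt (continuousAt_const (y := (0:ℝ)))
      (by simpa using sq_pos_of_ne_zero h0)] with κ a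
    exact fun _ => a
  obtain ⟨κ, hκ, h⟩ := ex_pos hev
  have d1 : ((X - C (t u))^2 : ℝ[X]).natDegree = 2 := by simp
  have d2 : ((X - C (t u))^d : ℝ[X]).natDegree = d := by simp
  refine ⟨-(X - C (t u))^2 + C (s * κ) * (X - C (t u))^d, ?_, ⟨κ, hκ, ?_⟩, ?_, ?_⟩
  · refine (natDegree_add_le _ _).trans (max_le ?_ ?_)
    · rw [natDegree_neg, d1]
      omega
    · exact (natDegree_C_mul_le _ _).trans d2.le
  · have m2 : ((X - C (t u))^d : ℝ[X]).coeff d = 1 := by
      have := ((monic_X_sub_C (t u)).pow d).coeff_natDegree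
      rwa [d2] at this
    rw [coeff_add, coeff_neg, coeff_eq_zero_of_natDegree_lt (by rw [d1]; omega), coeff_C_mul, m2]
    simp
  · simp [zero_pow (by omega : d ≠ 0)]
  · intro x hx
    simpa using h x hx

theorem step0 {d : ℕ} (hd : 3 ≤ d) {ι : Type} [Finite ι] [Nontrivial ι] {t : ι → ℝ} (h : SA d t) :
    ∃ η : ℝ, ∀ α β : ι ⊕ Bool, α ≠ β → ∃ (f : ℝ[X]) (y : ℝ), f.natDegree ≤ d ∧
      Ext2 (val0 d t η f y) α β := by
  classical
  haveI := Fintype.ofFinite ι
  have hN : ∀ q : {q : ι × ι // q.1 ≠ q.2}, ∃ p : ℝ[X], p.natDegree ≤ d ∧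
      Ext2 (fun γ => p.eval (t γ)) q.1.1 q.1.2 ∧ p.eval (t q.1.1) = 1 ∧ p.eval (t q.1.2) = -1 :=
    fun q => h.norm _ _ q.2
  choose F hF1 hF2 hF3 hF4 using hN
  haveI : Nonempty {q : ι × ι // q.1 ≠ q.2} := by
    obtain ⟨a, b, hab⟩ := exists_pair_ne ι
    exact ⟨⟨(a, b), hab⟩⟩
  obtain ⟨q0, hq0⟩ := Finite.exists_max (fun q => |(F q).coeff d|)
  obtain ⟨s, hs, hs2⟩ : ∃ s : ℝ, |s| = 1 ∧ s * (F q0).coeff d = |(F q0).coeff d| := by
    rcases le_total 0 ((F q0).coeff d) with h0 | h0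
    · exact ⟨1, by simp, by rw [abs_of_nonneg h0, one_mul]⟩
    · exact ⟨-1, by simp, by rw [abs_of_nonpos h0]; ring⟩
  obtain ⟨m, rfl⟩ : ∃ m, d = m + 2 := ⟨d - 2, by omega⟩
  let H : ℝ[X] := (X - C (t q0.1.1)) * (X - C (t q0.1.2)) * X^m
  have hHm : H.Monic := ((monic_X_sub_C _).mul (monic_X_sub_C _)).mul (monic_X_pow m)
  have hHd : H.natDegree = m+2 := by
    rw [((monic_X_sub_C _).mul (monic_X_sub_C _)).natDegree_mul (monic_X_pow m),
      (monic_X_sub_C _).natDegree_mul (monic_X_sub_C _)]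
    simp [add_comm]
  have hev : ∀ᶠ κ in 𝓝 (0:ℝ), ∀ x, |s * (F q0).eval (t x) + κ * H.eval (t x)| ≤ 1 := by
    rw [Filter.eventually_all]
    intro x
    by_cases h1 : x = q0.1.1
    · refine Eventually.of_forall fun κ => ?_
      simp [h1, H, hF3, hs]
    by_cases h2 : x = q0.1.2
    · refine Eventually.of_forall fun κ => ?_
      simp [h2, H, hF4, hs]
    have hc : Continuous fun κ : ℝ => |s * (F q0).eval (t x) + κ * H.eval (t x)| := by fun_prop
    have a1 := (hF2 q0).2 x h1 h2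
    simp only [hF3, hF4] at a1
    filter_upwards [hc.continuousAt.eventually_lt (continuousAt_const (y := (1:ℝ)))
      (by simpa [abs_mul, hs, abs_lt] using a1)] with κ a
    exact a.le
  obtain ⟨κ, hκ, hg⟩ := ex_pos hev
  set c0 := |(F q0).coeff (m+2)| with hc0
  have hc00 : 0 ≤ c0 := abs_nonneg _
  obtain ⟨η, hη, hηe⟩ : ∃ η : ℝ, 0 < η ∧ η * (c0 + κ/2) = 2 :=
    ⟨2 / (c0 + κ/2), by positivity, div_mul_cancel₀ _ (by positivity)⟩
  refine ⟨η, ?_⟩
  have sym : ∀ α β : ι ⊕ Bool, (∃ (f : ℝ[X]) (y : ℝ), f.natDegree ≤ m+2 ∧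
      Ext2 (val0 (m+2) t η f y) α β) → ∃ (f : ℝ[X]) (y : ℝ), f.natDegree ≤ m+2 ∧
      Ext2 (val0 (m+2) t η f y) β α := by
    rintro α β ⟨f, y, h1, h2⟩
    refine ⟨-f, -y, by simpa using h1, ?_⟩
    rw [val0_neg]
    exact h2.neg
  have mix : ∀ (u : ι) (b : Bool), ∃ (f : ℝ[X]) (y : ℝ), f.natDegree ≤ m+2 ∧
      Ext2 (val0 (m+2) t η f y) (Sum.inl u) (Sum.inr b) := by
    intro u b
    obtain ⟨f, h1, ⟨ρ, hρ, h2⟩, h3, h4⟩ := peak hd h.inj u (if b then 1 else -1)
    have hS : ∀ x, -(∑ z, |f.eval (t z)|) ≤ f.eval (t x) := by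
      intro x
      have := Finset.single_le_sum (f := fun z => |f.eval (t z)|) (fun z _ => abs_nonneg _)
        (mem_univ x)
      linarith [neg_abs_le (f.eval (t x))]
    have hS0 : 0 ≤ ∑ z, |f.eval (t z)| := Finset.sum_nonneg fun z _ => abs_nonneg _
    have hp := mul_pos hη hρ
    refine ⟨f, -(∑ z, |f.eval (t z)|) - η * ρ - 1, h1, ?_⟩
    cases b
    · refine ⟨by simp only [val0, h3]; linarith, ?_⟩
      rintro (x | _ | _) a1 a2
      · simp only [val0, h3]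
        exact ⟨by linarith [hS x], h4 x fun e => a1 (by rw [e])⟩
      · exact absurd rfl a2
      · simp only [val0, h3, h2]
        norm_num
        constructor <;> linarith
    · refine ⟨by simp only [val0, h3, h2]; norm_num; linarith, ?_⟩
      rintro (x | _ | _) a1 a2
      · simp only [val0, h3, h2]
        norm_num
        exact ⟨by linarith [hS x], h4 x fun e => a1 (by rw [e])⟩
      · simp only [val0, h3, h2]
        norm_num
        constructor <;> linarith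
      · exact absurd rfl a2
  have ab : ∃ (f : ℝ[X]) (y : ℝ), f.natDegree ≤ m+2 ∧
      Ext2 (val0 (m+2) t η f y) (Sum.inr false) (Sum.inr true) := by
    have e1 : (C s * F q0 + C κ * H).coeff (m+2) = c0 + κ := by
      have := hHm.coeff_natDegree
      rw [hHd] at this
      rw [coeff_add, coeff_C_mul, coeff_C_mul, this, hs2, mul_one]
    have hp := mul_pos hη hκ
    refine ⟨C s * F q0 + C κ * H, η * (c0 + κ) / 2, ?_, ?_, ?_⟩
    · exact (natDegree_add_le _ _).trans (max_le ((natDegree_C_mul_le _ _).trans (hF1 q0))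
        ((natDegree_C_mul_le _ _).trans hHd.le))
    · simp only [val0, e1]
      linarith
    · rintro (x | _ | _) a1 a2
      · have := abs_le.1 (hg x)
        simp only [val0, e1, eval_add, eval_mul, eval_C]
        constructor <;> linarith [this.1, this.2]
      · exact absurd rfl a1
      · exact absurd rfl a2
  rintro (u | b) (u' | b') hne
  · have hne' : u ≠ u' := fun e => hne (by rw [e])
    let q : {q : ι × ι // q.1 ≠ q.2} := ⟨(u, u'), hne'⟩
    have a3 : (F q).eval (t u) = 1 := hF3 q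
    have a4 : (F q).eval (t u') = -1 := hF4 q
    have a5 := abs_le.1 (hq0 q)
    have hp := mul_pos hη hκ
    have a6 := mul_le_mul_of_nonneg_left a5.1 hη.le
    have a7 := mul_le_mul_of_nonneg_left a5.2 hη.le
    refine ⟨F q, η * (F q).coeff (m+2) / 2, hF1 q, by simp only [val0, a3, a4]; norm_num, ?_⟩
    rintro (x | _ | _) a1 a2
    · exact (hF2 q).2 x (fun e => a1 (by rw [e])) (fun e => a2 (by rw [e]))
    · simp only [val0, a3, a4]
      constructor <;> linarith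
    · simp only [val0, a3, a4]
      constructor <;> linarith
  · exact mix u b'
  · exact sym _ _ (mix u' b)
  · cases b <;> cases b'
    · exact absurd rfl hne
    · exact ab
    · exact sym _ _ ab
    · exact absurd rfl hne

theorem step {d : ℕ} (hd : 3 ≤ d) {ι : Type} [Finite ι] [Nontrivial ι] {t : ι → ℝ} (h : SA d t) :
    ∃ t' : ι ⊕ Bool → ℝ, SA (d+1) t' := by
  obtain ⟨η, hη⟩ := step0 hd h
  choose! f y h1 h2 using hη
  have hev : ∀ᶠ ε in 𝓝 (0:ℝ), ∀ α β, α ≠ β → Ext2 (val d t η (f α β) (y α β) ε) α β := by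
    rw [Filter.eventually_all]
    intro α
    rw [Filter.eventually_all]
    intro β
    by_cases hab : α = β
    · exact Eventually.of_forall fun _ h => absurd hab h
    have := Ext2.ev (g := val d t η (f α β) (y α β)) (val_cont d t η _ _)
      (by rw [val_zero (by omega)]; exact h2 α β hab)
    filter_upwards [this] with ε a
    exact fun _ => a
  obtain ⟨ε, hε, hE⟩ := ex_pos hev
  refine ⟨pt d t η ε, fun α β hab => ?_⟩
  obtain ⟨P, hP, hP2⟩ := val_poly t η (h1 α β hab) (y α β) hε.ne'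
  exact ⟨P, hP, by rw [hP2]; exact hE α β hab⟩

theorem SA_of_lt {d k : ℕ} {t : Fin k → ℝ}
    (h : ∀ α β, α < β → ∃ p : ℝ[X], p.natDegree ≤ d ∧ Ext2 (fun γ => p.eval (t γ)) α β) :
    SA d t := by
  intro α β hab
  rcases lt_or_gt_of_ne hab with h1 | h1
  · exact h α β h1
  · obtain ⟨p, hp, h2⟩ := h β α h1
    exact ⟨-p, by simpa using hp, by simpa using h2.neg⟩

theorem cub (d : ℕ) {k : ℕ} (t : Fin k → ℝ) (α β : Fin k) (a b c : ℝ) (hd : c = 0 ∧ d = 2 ∨ d = 3)
    (h : Ext2 (fun γ => a * t γ + b * t γ ^ 2 + c * t γ ^ 3) α β) :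
    ∃ p : ℝ[X], p.natDegree ≤ d ∧ Ext2 (fun γ => p.eval (t γ)) α β := by
  refine ⟨C a * X + C b * X^2 + C c * X^3, ?_, by simpa using h⟩
  rcases hd with ⟨rfl, rfl⟩ | rfl
  · simp only [map_zero, zero_mul, add_zero]
    compute_degree
  · compute_degree

theorem base3 : SA 3 (![-4, -3, 0, 3, 4] : Fin 5 → ℝ) := by
  apply SA_of_lt
  intro α β h
  fin_cases α <;> fin_cases β <;> simp at h
  · exact cub 3 _ _ _ 13 1 (-1) (Or.inr rfl) (by simp [Ext2, Fin.forall_fin_succ]; norm_num)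
  · exact cub 3 _ _ _ (-1) 1 0 (Or.inr rfl) (by simp [Ext2, Fin.forall_fin_succ]; norm_num)
  · exact cub 3 _ _ _ (-4) 1 0 (Or.inr rfl) (by simp [Ext2, Fin.forall_fin_succ]; norm_num)
  · exact cub 3 _ _ _ 0 0 (-1) (Or.inr rfl) (by simp [Ext2, Fin.forall_fin_succ]; norm_num)
  · exact cub 3 _ _ _ (-32) 5 2 (Or.inr rfl) (by simp [Ext2, Fin.forall_fin_succ]; norm_num)
  · exact cub 3 _ _ _ (-14) 0 1 (Or.inr rfl) (by simp [Ext2, Fin.forall_fin_succ]; norm_num)
  · exact cub 3 _ _ _ (-4) (-1) 0 (Or.inr rfl) (by simp [Ext2, Fin.forall_fin_succ]; norm_num)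
  · exact cub 3 _ _ _ (-32) (-5) 2 (Or.inr rfl) (by simp [Ext2, Fin.forall_fin_succ]; norm_num)
  · exact cub 3 _ _ _ (-1) (-1) 0 (Or.inr rfl) (by simp [Ext2, Fin.forall_fin_succ]; norm_num)
  · exact cub 3 _ _ _ 13 (-1) (-1) (Or.inr rfl) (by simp [Ext2, Fin.forall_fin_succ]; norm_num)

theorem base2 : SA 2 (![-1, 0, 1] : Fin 3 → ℝ) := by
  apply SA_of_lt
  intro α β h
  fin_cases α <;> fin_cases β <;> simp at h
  · exact cub 2 _ _ _ (-1) 2 0 (Or.inl ⟨rfl, rfl⟩) (by simp [Ext2, Fin.forall_fin_succ]; norm_num)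
  · exact cub 2 _ _ _ (-1) 0 0 (Or.inl ⟨rfl, rfl⟩) (by simp [Ext2, Fin.forall_fin_succ])
  · exact cub 2 _ _ _ (-1) (-2) 0 (Or.inl ⟨rfl, rfl⟩) (by simp [Ext2, Fin.forall_fin_succ]; norm_num)

theorem exSA (m : ℕ) : ∃ (ι : Type) (_ : Fintype ι) (t : ι → ℝ), Fintype.card ι = 2*(m+2) - 1 ∧
    SA (m+2) t := by
  rcases m with _ | m
  · exact ⟨Fin 3, inferInstance, _, by simp, base2⟩
  induction m with
  | zero => exact ⟨Fin 5, inferInstance, _, by simp, base3⟩
  | succ m ih =>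
    obtain ⟨ι, hι, t, hc, h⟩ := ih
    haveI : Nontrivial ι := Fintype.one_lt_card_iff_nontrivial.1 (by omega)
    obtain ⟨t', h'⟩ := step (by omega) h
    exact ⟨ι ⊕ Bool, inferInstance, t', by simp [hc]; omega, h'⟩

theorem sharp (m : ℕ) : ∃ t : Fin (2*(m+2) - 1) → ℝ, StrictMono t ∧
    ∀ N ∈ IllSet (convexHull ℝ (Set.range fun x => mom (m+2) (t x))), 2*(m+2) - 1 ≤ N := by
  classical
  obtain ⟨ι, hι, t, hc, h⟩ := exSA m
  have hcard : (univ.image t).card = 2*(m+2) - 1 := by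
    rw [card_image_of_injective _ h.inj, card_univ, hc]
  let e := (univ.image t).orderEmbOfFin hcard
  have he : ∀ k, ∃ α, t α = e k := fun k => by
    obtain ⟨α, _, hα⟩ := mem_image.1 ((univ.image t).orderEmbOfFin_mem hcard k)
    exact ⟨α, hα⟩
  choose g hg using he
  refine ⟨e, e.strictMono, fun N hN => ?_⟩
  have := low_of (by omega) e.strictMono (A := univ) (fun a _ b _ hab => ?_) hN
  · simpa using this
  have hne : g b ≠ g a := fun e' => by
    have := congrArg t e'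
    rw [hg, hg] at this
    exact hab.ne' (e.injective this)
  obtain ⟨p, hp, h1, h2⟩ := h _ _ hne
  let f : (Fin (m+2+1) → ℝ) →ₗ[ℝ] ℝ := ∑ r : Fin (m+2+1), p.coeff r • LinearMap.proj r
  have hf : ∀ x, f (fun r => e x ^ (r:ℕ)) = p.eval (t (g x)) := by
    intro x
    rw [hg, eval_eq_sum_range' (Nat.lt_succ_of_le hp), ← Fin.sum_univ_eq_sum_range
      (fun r => p.coeff r * e x ^ r)]
    simp [f]
  refine ⟨f, by rw [hf, hf]; exact h1, fun x => ?_⟩
  rw [hf, hf, hf]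
  by_cases x1 : g x = g b
  · rw [x1]
    exact ⟨h1.le, le_refl _⟩
  by_cases x2 : g x = g a
  · rw [x2]
    exact ⟨le_refl _, h1.le⟩
  exact ⟨(h2 _ x1 x2).1.le, (h2 _ x1 x2).2.le⟩

end Pool.Agent.H98.Cyc
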