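import Pool.Agent.H98.Cyc8

set_option autoImplicit false

namespace Pool.Agent.H98.Cyc

open Finset

theorem small {d n : ℕ} (hn : d + 1 ≤ n) : ∃ t : Fin n → ℝ, StrictMono t ∧
    ∀ A : Finset (Fin n), Free d t A → A.card ≤ d + 1 := by
  classical
  have hn0 : (0:ℝ) < n := by exact_mod_cast (by omega : 0 < n)
  have hP : (1:ℝ) ≤ ((d:ℝ)+1)^d := one_le_pow₀ (by linarith [Nat.cast_nonneg (α := ℝ) d])
  have hd0 : (0:ℝ) ≤ d := Nat.cast_nonneg d
  obtain ⟨η, hη, hη1⟩ : ∃ η : ℝ, 0 < η ∧ η * n * ((d:ℝ)+1)^d * (d+1) = 1 :=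
    ⟨1 / (n * ((d:ℝ)+1)^d * (d+1)), by positivity, by field_simp⟩
  have hη2 : η * n ≤ 1 := by
    have a1 : 0 < η * n := mul_pos hη hn0
    have a2 : 1 ≤ ((d:ℝ)+1)^d * (d+1) := by nlinarith
    nlinarith
  let t : Fin n → ℝ := fun x => if x.val < d then (x.val:ℝ) else d + η * x.val
  have hlo : ∀ x : Fin n, x.val < d → t x = x.val := fun x hx => by simp [t, hx]
  have hhi : ∀ x : Fin n, ¬ x.val < d → t x = d + η * x.val := fun x hx => by simp [t, hx]
  have hb : ∀ x : Fin n, 0 ≤ η * x.val ∧ η * x.val ≤ η * n := fun x =>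
    ⟨by positivity, mul_le_mul_of_nonneg_left (by exact_mod_cast x.2.le) hη.le⟩
  have ht : StrictMono t := by
    intro x y hxy
    have hxy' : (x.val:ℝ) < y.val := by exact_mod_cast hxy
    by_cases hy : y.val < d
    · rw [hlo y hy, hlo x (lt_trans hxy hy)]
      exact hxy'
    · rw [hhi y hy]
      by_cases hx : x.val < d
      · rw [hlo x hx]
        have : (x.val:ℝ) < d := by exact_mod_cast hx
        linarith [(hb y).1]
      · rw [hhi x hx]
        nlinarith
  refine ⟨t, ht, fun A hA => ?_⟩
  have key : ∀ a b : Fin n, a < b → ¬ a.val < d → Rel d t a b := by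
    intro a b hab ha
    have hb' : ¬ b.val < d := fun h => ha (lt_trans hab h)
    let z : ℕ → Fin n := fun k => if h : k < d then ⟨k, by omega⟩ else if k = d then a else b
    have z1 : ∀ k (h : k < d), z k = ⟨k, by omega⟩ := fun k h => by simp [z, h]
    have z2 : z d = a := by simp [z]
    have z3 : z (d+1) = b := by simp [z]
    have tz : ∀ k, k < d → t (z k) = k := fun k h => by rw [z1 k h, hlo _ h]
    have hz : Mono (d+2) z := by
      intro i j hij hj
      by_cases hi : i < d
      · rw [z1 i hi, Fin.lt_def]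
        by_cases hj' : j < d
        · rw [z1 j hj']
          exact hij
        · have : j = d ∨ j = d+1 := by omega
          rcases this with rfl | rfl
          · rw [z2]
            show i < a.val
            omega
          · rw [z3]
            show i < b.val
            omega
      · have h1 : i = d := by omega
        have h2 : j = d+1 := by omega
        rw [h1, h2, z2, z3]
        exact hab
    refine ⟨z, d, hz, by omega, z2, z3, ?_⟩
    rw [Finset.sum_range_succ, Finset.sum_range_succ]
    have w1 : ∀ j ∈ range d, wt (d+2) (fun i => t (z i)) j ≤ 1 := by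
      intro j hj
      have hj' := mem_range.1 hj
      apply inv_le_one_of_one_le₀
      have : ∏ _i ∈ (range (d+2)).erase j, (1:ℝ) ≤ ∏ i ∈ (range (d+2)).erase j, |t (z j) - t (z i)| := by
        refine Finset.prod_le_prod (fun _ _ => zero_le_one) fun i hi => ?_
        simp only [mem_erase, mem_range] at hi
        have hjd : (j:ℝ) + 1 ≤ d := by exact_mod_cast hj'
        rw [tz j hj', le_abs]
        by_cases hi' : i < d
        · rw [tz i hi']
          rcases lt_or_gt_of_ne hi.1 with h | h
          · left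
            have : (i:ℝ) + 1 ≤ j := by exact_mod_cast h
            linarith
          · right
            have : (j:ℝ) + 1 ≤ i := by exact_mod_cast h
            linarith
        · right
          have : i = d ∨ i = d+1 := by omega
          rcases this with rfl | rfl
          · rw [z2, hhi a ha]
            linarith [(hb a).1]
          · rw [z3, hhi b hb']
            linarith [(hb b).1]
      simpa using this
    have w2 : ∑ j ∈ range d, wt (d+2) (fun i => t (z i)) j ≤ d := by
      have := Finset.sum_le_sum w1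
      simpa using this
    have w3 : (d:ℝ) + 1 ≤ wt (d+2) (fun i => t (z i)) d := by
      have hp := wt_pos (hz.comp ht) (j := d) (by omega)
      have e : (range (d+2)).erase d = insert (d+1) (range d) := by
        ext i
        simp only [mem_erase, mem_range, mem_insert]
        omega
      unfold wt at hp ⊢
      rw [e, Finset.prod_insert (by simp)] at hp ⊢
      have a1 : |t (z d) - t (z (d+1))| ≤ η * n := by
        rw [z2, z3, hhi a ha, hhi b hb', abs_le]
        constructor <;> linarith [(hb a).1, (hb a).2, (hb b).1, (hb b).2]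
      have a2 : ∏ i ∈ range d, |t (z d) - t (z i)| ≤ ((d:ℝ)+1)^d := by
        have : ∏ i ∈ range d, |t (z d) - t (z i)| ≤ ∏ _i ∈ range d, ((d:ℝ)+1) := by
          refine Finset.prod_le_prod (fun _ _ => abs_nonneg _) fun i hi => ?_
          have hi' := mem_range.1 hi
          have : (i:ℝ) ≤ d := by exact_mod_cast hi'.le
          have h0 : (0:ℝ) ≤ i := Nat.cast_nonneg i
          rw [z2, hhi a ha, tz i hi', abs_le]
          constructor <;> linarith [(hb a).1, (hb a).2]
        simpa using this
      have a3 := mul_le_mul a1 a2 (Finset.prod_nonneg fun _ _ => abs_nonneg _) (by positivity)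
      rw [le_inv_comm₀ (by positivity) (inv_pos.1 hp)]
      refine a3.trans (le_of_eq ?_)
      exact eq_inv_of_mul_eq_one_left hη1
    have w4 := wt_pos (hz.comp ht) (j := d+1) (by omega)
    linarith
  have h1 : (A.filter fun x => x.val < d).card ≤ d := by
    have := Finset.card_le_card_of_injOn (s := A.filter fun x => x.val < d) (t := range d)
      (fun x => x.val) (fun x hx => by simpa using (mem_filter.1 hx).2)
      (fun x _ y _ e => Fin.ext e)
    simpa using this
  have h2 : (A.filter fun x => ¬ x.val < d).card ≤ 1 := by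
    rw [Finset.card_le_one]
    intro a ha b hb
    have ha' := mem_filter.1 ha
    have hb' := mem_filter.1 hb
    rcases lt_trichotomy a b with h | h | h
    · exact absurd (key a b h ha'.2) (hA a ha'.1 b hb'.1 h)
    · exact h
    · exact absurd (key b a h hb'.2) (hA b hb'.1 a ha'.1 h)
  have := Finset.card_filter_add_card_filter_not (s := A) (fun x => x.val < d)
  omega

theorem lower {m n : ℕ} (hn : m+2+1 ≤ n) {t : Fin n → ℝ} (ht : StrictMono t) {N : ℕ}
    (hN : N ∈ IllSet (convexHull ℝ (Set.range fun x => mom (m+2) (t x)))) : m+2+1 ≤ N := by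
  classical
  obtain ⟨W, rfl, _, hW⟩ := hN
  by_contra hcon
  haveI : Nonempty (Fin n) := ⟨⟨0, by omega⟩⟩
  obtain ⟨w0, hw0, _⟩ := hW _ (vert_frontier (m := m) (by omega) ht (Classical.arbitrary _))
  have hlt : Submodule.span ℝ ((W.erase w0 : Finset _) : Set (EuclideanSpace ℝ (Fin (m+2)))) < ⊤ := by
    rw [lt_top_iff_ne_top]
    intro e
    have h1 := finrank_span_finset_le_card (R := ℝ) (W.erase w0)
    rw [Set.finrank, e, finrank_top, card_erase_of_mem hw0] at h1
    simp at h1
    omega
  obtain ⟨φ, hφ, hker⟩ := Submodule.exists_le_ker_of_lt_top _ hlt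
  obtain ⟨ψ, hψ, hψ2⟩ : ∃ ψ : EuclideanSpace ℝ (Fin (m+2)) →ₗ[ℝ] ℝ, ψ ≠ 0 ∧ ∀ w ∈ W, ψ w ≤ 0 := by
    have h0 : ∀ w ∈ W, w ≠ w0 → φ w = 0 := fun w hw h =>
      hker (Submodule.subset_span (by simp [hw, h]))
    rcases le_total (φ w0) 0 with h | h
    · refine ⟨φ, hφ, fun w hw => ?_⟩
      by_cases e : w = w0
      · rwa [e]
      · exact (h0 w hw e).le
    · refine ⟨-φ, neg_ne_zero.2 hφ, fun w hw => ?_⟩
      by_cases e : w = w0
      · rw [e]
        simpa using h
      · simp [h0 w hw e]
  obtain ⟨a, ha⟩ := Finite.exists_min (fun x => ψ (mom (m+2) (t x)))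
  have hpi : ∀ y, pr (m+2) (inc (m+2) y) = y := fun y => by
    ext i
    simp [pr, inc]
  obtain ⟨b, hb⟩ : ∃ b, ψ (mom (m+2) (t a)) < ψ (mom (m+2) (t b)) := by
    by_contra hc
    push Not at hc
    have heq : ∀ x, ψ (mom (m+2) (t x)) = ψ (mom (m+2) (t a)) := fun x => le_antisymm (hc x) (ha x)
    apply hψ
    ext1 y
    have hz : StrictMono (Fin.castLE hn) := Fin.strictMono_castLE hn
    obtain ⟨c, hc⟩ := (alt_mom (d := m+2) ht).span hz (inc (m+2) y)
    have h0 : ∑ k, c k = 0 := by
      have := congrFun hc 0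
      simpa [Finset.sum_apply, hom_zero, inc] using this
    have h1 := congrArg (fun q => ψ (pr (m+2) q)) hc
    simp only [map_sum, map_smul, pr_hom, heq, smul_eq_mul, hpi] at h1
    rw [← Finset.sum_mul, h0, zero_mul] at h1
    exact h1.symm
  obtain ⟨w, hw, τ, hτ, hint⟩ := hW _ (vert_frontier (m := m) (by omega) ht a)
  have := incr (v := fun x => mom (m+2) (t x)) (ψ.comp (pr (m+2))) (a := a) (b := b)
    (fun x => by simpa [pr_hom] using ha x) (by simpa [pr_hom] using hb) hint
  simp only [LinearMap.comp_apply, hpi, map_smul, smul_eq_mul] at this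
  nlinarith [hψ2 w hw]

end Pool.Agent.H98.Cyc
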