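import Mathlib

set_option autoImplicit false

namespace Pool.Agent.H98.Distal

open Filter Topology

lemma cont_toZ (M : ℕ) (u : ℕ → ℝ) :
    Continuous (fun x : ℤ_[2] => u (PadicInt.toZModPow M x).val) := by
  apply IsLocallyConstant.continuous
  rw [IsLocallyConstant.iff_eventually_eq]
  intro x
  have h2 : (0:ℝ) < (2:ℝ) ^ (-(M:ℤ)) := by positivity
  filter_upwards [Metric.closedBall_mem_nhds x h2] with y hy
  have : PadicInt.toZModPow M y = PadicInt.toZModPow M x := by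
    rw [← sub_eq_zero, ← map_sub, ← RingHom.mem_ker, PadicInt.ker_toZModPow,
      ← PadicInt.norm_le_pow_iff_mem_span_pow]
    rw [Metric.mem_closedBall, dist_eq_norm] at hy
    exact_mod_cast hy
  rw [this]

lemma val_nat (M j : ℕ) (h : j ≤ M) : (PadicInt.toZModPow (p := 2) M (j : ℤ_[2])).val = j := by
  rw [map_natCast, ZMod.val_natCast]
  exact Nat.mod_eq_of_lt (lt_of_le_of_lt h Nat.lt_two_pow_self)

lemma exists_idx (n : ℕ → ℕ) (hn : StrictMono n) :
    ∃ idx : ℕ → ℕ, ∀ k j, n k ≤ j → j < n (k+1) → idx j = k := by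
  classical
  refine ⟨fun j => if h : ∃ k, n k ≤ j ∧ j < n (k+1) then h.choose else 0, ?_⟩
  intro k j h1 h2
  have h : ∃ k, n k ≤ j ∧ j < n (k+1) := ⟨k, h1, h2⟩
  simp only [dif_pos h]
  obtain ⟨a, b⟩ := h.choose_spec
  have c1 : h.choose < k + 1 := hn.lt_iff_lt.1 (lt_of_le_of_lt a h2)
  have c2 : k < h.choose + 1 := hn.lt_iff_lt.1 (lt_of_le_of_lt h1 b)
  omega

lemma exists_K (g : ℕ → ℕ) (hg : Tendsto g atTop atTop) (h1 : ∀ k, 1 ≤ g k) :
    ∃ K : ℕ → ℕ, StrictMono K ∧ K 0 = 0 ∧ ∀ l k, K l ≤ k → 2 ^ l ≤ g k := by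
  have : ∀ l : ℕ, ∃ N, ∀ k ≥ N, 2 ^ l ≤ g k := fun l =>
    eventually_atTop.1 (tendsto_atTop.1 hg (2 ^ l))
  choose N hN using this
  let K : ℕ → ℕ := fun l => Nat.rec 0 (fun i a => max (a + 1) (N (i+1))) l
  refine ⟨K, strictMono_nat_of_lt_succ fun l => ?_, rfl, ?_⟩
  · show K l < max (K l + 1) (N (l+1))
    omega
  · intro l k hk
    cases l with
    | zero => simpa using h1 k
    | succ l =>
      apply hN
      have : K (l+1) = max (K l + 1) (N (l+1)) := rfl
      omega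

lemma exists_h (n : ℕ → ℕ) (hn : StrictMono n)
    (hg : Tendsto (fun k : ℕ => n (k + 1) - n k) atTop atTop) (θ : ℕ → ℝ) :
    ∃ h : ℤ_[2] → ℝ, Continuous h ∧ ∀ k, ∃ z : ℤ,
      ∑ j ∈ Finset.Ico (n k) (n (k+1)), h (j : ℤ_[2]) = θ k + z := by
  classical
  obtain ⟨idx, hidx⟩ := exists_idx n hn
  have hg1 : ∀ k, 1 ≤ n (k+1) - n k := fun k => by
    have := hn (Nat.lt_succ_self k); simp only [Nat.succ_eq_add_one] at this; omega
  obtain ⟨K, hK, hK0, hKg⟩ := exists_K _ hg hg1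
  let u : (ℤ_[2] → ℝ) → ℕ → ℕ → ℝ := fun H l j =>
    if K l ≤ idx j then
      Int.fract (θ (idx j) - ∑ i ∈ Finset.Ico (n (idx j)) (n (idx j + 1)), H (i : ℤ_[2])) /
        ((n (idx j + 1) - n (idx j) : ℕ) : ℝ)
    else 0
  let step : (ℤ_[2] → ℝ) → ℕ → ℤ_[2] → ℝ := fun H l x =>
    u H l (PadicInt.toZModPow (n (K (l+1))) x).val
  let H : ℕ → ℤ_[2] → ℝ := fun l => Nat.rec (fun _ => 0) (fun i a => fun x => a x + step a i x) l
  let d : ℕ → ℤ_[2] → ℝ := fun l => step (H l) l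
  have hH : ∀ l x, H l x = ∑ i ∈ Finset.range l, d i x := by
    intro l x
    induction l with
    | zero => rfl
    | succ l ih => rw [Finset.sum_range_succ, ← ih]
  have hub : ∀ G l j, ‖u G l j‖ ≤ (1/2 : ℝ) ^ l := by
    intro G l j
    simp only [u]
    split_ifs with h
    · have h2 : ((2:ℝ)) ^ l ≤ ((n (idx j + 1) - n (idx j) : ℕ) : ℝ) := by
        exact_mod_cast hKg l _ h
      have h3 : (0:ℝ) < 2 ^ l := by positivity
      rw [Real.norm_eq_abs, abs_of_nonneg (div_nonneg (Int.fract_nonneg _) (by linarith)),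
        one_div, inv_pow, ← one_div]
      exact div_le_div₀ zero_le_one (Int.fract_lt_one _).le h3 h2
    · simp
  refine ⟨fun x => ∑' l, d l x, ?_, ?_⟩
  · apply continuous_tsum (u := fun l => (1/2 : ℝ) ^ l)
    · intro l; exact cont_toZ _ _
    · exact summable_geometric_two
    · intro l x; exact hub _ _ _
  · intro k
    obtain ⟨l, hl1, hl2⟩ : ∃ l, K l ≤ k ∧ k < K (l+1) := by
      have hex : ∃ l, k < K (l+1) := ⟨k, lt_of_lt_of_le (Nat.lt_succ_self k) (hK.id_le (k+1))⟩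
      refine ⟨Nat.find hex, ?_, Nat.find_spec hex⟩
      rcases Nat.eq_zero_or_eq_succ_pred (Nat.find hex) with h | h
      · rw [h, hK0]; exact Nat.zero_le _
      · have := Nat.find_min hex (m := (Nat.find hex).pred) (by rw [Nat.pred_eq_sub_one] at *; omega)
        rw [h]; simpa using this
    have hd : ∀ l' ≥ l, ∀ j ∈ Finset.Ico (n k) (n (k+1)), d l' (j : ℤ_[2]) = u (H l') l' j := by
      intro l' hl' j hj
      simp only [d, step]
      rw [val_nat]
      have h1 : n (k+1) ≤ n (K (l'+1)) := hn.monotone (le_trans hl2 (hK.monotone (by omega)))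
      have := (Finset.mem_Ico.1 hj).2
      omega
    set S := ∑ i ∈ Finset.Ico (n k) (n (k + 1)), H l (i : ℤ_[2]) with hS
    have key : ∀ j ∈ Finset.Ico (n k) (n (k+1)), ∑' l', d l' (j : ℤ_[2]) =
        H l (j : ℤ_[2]) + Int.fract (θ k - S) / ((n (k + 1) - n k : ℕ) : ℝ) := by
      intro j hj
      have hij : idx j = k := hidx k j (Finset.mem_Ico.1 hj).1 (Finset.mem_Ico.1 hj).2
      rw [tsum_eq_sum (s := Finset.range (l+1)), Finset.sum_range_succ, ← hH, hd l le_rfl j hj]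
      · simp only [u, hij, if_pos hl1, hS]
      · intro l' hl'
        have : l + 1 ≤ l' := by simpa using hl'
        rw [hd l' (by omega) j hj]
        simp only [u, hij]
        rw [if_neg]
        have := hK.monotone this
        omega
    refine ⟨-⌊θ k - S⌋, ?_⟩
    rw [Finset.sum_congr rfl key, Finset.sum_add_distrib, ← hS, Finset.sum_const, Nat.card_Ico,
      nsmul_eq_mul, mul_div_cancel₀]
    · rw [Int.fract]; push_cast; ring
    · have := hg1 k
      exact_mod_cast (by omega : n (k+1) - n k ≠ 0)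

abbrev Sp := ℤ_[2] × AddCircle (1:ℝ)

lemma skew_dist (a : ℤ_[2]) (g : ℤ_[2] → AddCircle (1:ℝ)) (S : Sp → Sp)
    (hS : ∀ p, S p = (p.1 + a, p.2 + g p.1)) (p q : Sp) (m : ℕ) :
    dist (S^[m] p).1 (S^[m] q).1 = dist p.1 q.1 ∧
      (p.1 = q.1 → dist (S^[m] p).2 (S^[m] q).2 = dist p.2 q.2) := by
  induction m with
  | zero => simp
  | succ m ih =>
    rw [Function.iterate_succ_apply', Function.iterate_succ_apply', hS, hS]
    refine ⟨by simp [ih.1], fun h => ?_⟩
    have : (S^[m] p).1 = (S^[m] q).1 := by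
      rw [← dist_eq_zero, ih.1, h, dist_self]
    simp only [this, dist_add_right, ih.2 h]

open Classical in
lemma skew_distal (a : ℤ_[2]) (g : ℤ_[2] → AddCircle (1:ℝ)) (S : Sp → Sp)
    (hS : ∀ p, S p = (p.1 + a, p.2 + g p.1)) (p q : Sp) (m : ℕ) :
    (if p.1 = q.1 then dist p.2 q.2 else dist p.1 q.1) ≤ dist (S^[m] p) (S^[m] q) := by
  obtain ⟨h1, h2⟩ := skew_dist a g S hS p q m
  rw [Prod.dist_eq]
  split_ifs with h
  · rw [← h2 h]; exact le_max_right _ _
  · rw [← h1]; exact le_max_left _ _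

noncomputable def skew (h : ℤ_[2] → ℝ) (hc : Continuous h) : Sp ≃ₜ Sp where
  toFun p := (p.1 + 1, p.2 + (h p.1 : AddCircle (1:ℝ)))
  invFun p := (p.1 + (-1), p.2 + (-(h (p.1 + (-1)) : AddCircle (1:ℝ))))
  left_inv p := by simp
  right_inv p := by simp
  continuous_toFun := by
    have : Continuous (fun x : ℝ => (x : AddCircle (1:ℝ))) := continuous_quotient_mk'
    fun_prop
  continuous_invFun := by
    have : Continuous (fun x : ℝ => (x : AddCircle (1:ℝ))) := continuous_quotient_mk'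
    fun_prop

lemma skew_iter (h : ℤ_[2] → ℝ) (hc : Continuous h) (y : ℝ) (m : ℕ) :
    (skew h hc)^[m] (0, (y : AddCircle (1:ℝ))) =
      ((m : ℤ_[2]), ((y + ∑ j ∈ Finset.range m, h (j : ℤ_[2]) : ℝ) : AddCircle (1:ℝ))) := by
  induction m with
  | zero => simp
  | succ m ih =>
    rw [Function.iterate_succ_apply', ih, Finset.sum_range_succ]
    show (_, _) = _
    simp [add_assoc]

theorem main (n : ℕ → ℕ) (hn : StrictMono n)
    (hg : Tendsto (fun k : ℕ => n (k + 1) - n k) atTop atTop) (φ : ℕ → ℝ) (C : ℝ)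
    (hC : ∀ k, |φ k| ≤ C) :
        ∃ (T : Sp ≃ₜ Sp),
          (∀ x y : Sp, x ≠ y → ∃ ε : ℝ, 0 < ε ∧ ∀ m : ℕ,
              ε ≤ dist ((⇑T)^[m] x) ((⇑T)^[m] y) ∧
              ε ≤ dist ((⇑T.symm)^[m] x) ((⇑T.symm)^[m] y)) ∧
          ∃ (x₀ : Sp) (f : Sp → ℝ), Continuous f ∧
            ∀ k : ℕ, f ((⇑T)^[n k] x₀) = φ k := by
  classical
  have hC0 : 0 ≤ C := le_trans (abs_nonneg _) (hC 0)
  let θ : ℕ → ℝ := fun k => Real.arccos (φ k / (C + 1)) / (2 * Real.pi)
  obtain ⟨h, hc, hh⟩ := exists_h n hn hg (fun k => θ (k+1) - θ k)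
  refine ⟨skew h hc, ?_, (0, ((θ 0 - ∑ j ∈ Finset.range (n 0), h (j : ℤ_[2]) : ℝ) : AddCircle (1:ℝ))),
    fun p => (C + 1) * (fourier 1 p.2).re, ?_, ?_⟩
  · intro x y hxy
    refine ⟨if x.1 = y.1 then dist x.2 y.2 else dist x.1 y.1, ?_, fun m => ⟨?_, ?_⟩⟩
    · split_ifs with h1
      · exact dist_pos.2 fun h2 => hxy (Prod.ext h1 h2)
      · exact dist_pos.2 h1
    · exact skew_distal 1 (fun x => (h x : AddCircle (1:ℝ))) _ (fun p => rfl) x y m
    · exact skew_distal (-1) (fun x => -(h (x + (-1)) : AddCircle (1:ℝ))) _ (fun p => rfl) x y m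
  · have := (fourier (T := (1:ℝ)) 1).continuous
    fun_prop
  · intro k
    rw [skew_iter]
    have : ∃ z : ℤ, θ 0 - ∑ j ∈ Finset.range (n 0), h (j : ℤ_[2]) +
        ∑ j ∈ Finset.range (n k), h (j : ℤ_[2]) = θ k + z := by
      induction k with
      | zero => exact ⟨0, by simp⟩
      | succ k ih =>
        obtain ⟨z, hz⟩ := ih
        obtain ⟨w, hw⟩ := hh k
        refine ⟨z + w, ?_⟩
        rw [← Finset.sum_range_add_sum_Ico _ (hn.monotone (Nat.le_succ k)), ← add_assoc, hz]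
        simp only [Nat.succ_eq_add_one]
        rw [hw]; push_cast; ring
    obtain ⟨z, hz⟩ := this
    simp only [hz]
    rw [fourier_coe_apply]
    have e : (2 * Real.pi * Complex.I * ((1:ℤ):ℂ) * ((θ k + z : ℝ) : ℂ) / ((1:ℝ):ℂ)) =
        ((Real.arccos (φ k / (C + 1)) + z * (2 * Real.pi) : ℝ) : ℂ) * Complex.I := by
      have : (Real.pi : ℂ) ≠ 0 := by exact_mod_cast Real.pi_ne_zero
      simp only [θ]
      push_cast
      field_simp
    rw [e, Complex.exp_ofReal_mul_I_re, Real.cos_add_int_mul_two_pi, Real.cos_arccos]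
    · field_simp
    · rw [le_div_iff₀ (by linarith)]; have := (abs_le.1 (hC k)).1; linarith
    · rw [div_le_iff₀ (by linarith)]; have := (abs_le.1 (hC k)).2; linarith

end Pool.Agent.H98.Distal
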