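import Pool.Agent.H98.Cut10

namespace Pool.Agent.H98.Elss

lemma arith (n κ t : ℝ) (hn : 2 ≤ n) (h0 : 0 ≤ κ) (h1 : 2 * κ + 1 ≤ n) (ht : κ ≤ t)
    (H : ∀ R : ℕ, 1 ≤ R → 4 * R * (n * κ) ≤ (n - R) ^ 2 + 4 * R ^ 2 * t ∧
      4 * R * (n * κ) ≤ n ^ 2 + 4 * R ^ 2 * t) :
    8 * κ ^ 2 ≤ 9 * t ∧ (5 * κ ^ 3 ≤ n ^ 2 → κ ^ 2 ≤ t) := by
  by_cases c : κ ≤ 1
  · exact ⟨by nlinarith, fun _ => by nlinarith⟩
  push Not at c
  constructor
  · obtain ⟨R, r1, r2, r3⟩ : ∃ R : ℕ, 1 ≤ R ∧ 4 * (R * κ) ≤ 3 * n ∧ 3 * n ≤ 8 * (R * κ) := by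
      by_cases d : 3 * n ≤ 8 * κ
      · exact ⟨1, le_rfl, by push_cast; linarith, by push_cast; linarith⟩
      · have a := Nat.floor_le (a := 3 * n / (8 * κ)) (by positivity)
        have b := Nat.lt_floor_add_one (3 * n / (8 * κ))
        rw [le_div_iff₀ (by linarith)] at a
        rw [div_lt_iff₀ (by linarith)] at b
        refine ⟨⌊3 * n / (8 * κ)⌋₊ + 1, Nat.le_add_left _ _, ?_, ?_⟩ <;> push_cast <;> nlinarith
    have h := (H R r1).2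
    have r1' : (1:ℝ) ≤ R := by exact_mod_cast r1
    have t2 : 0 ≤ (3 * n - 4 * (R * κ)) * (8 * (R * κ) - 3 * n) :=
      mul_nonneg (by linarith) (by linarith)
    have t4 : (R:ℝ) ^ 2 * (8 * κ ^ 2) ≤ (R:ℝ) ^ 2 * (9 * t) := by nlinarith
    exact le_of_mul_le_mul_left t4 (by positivity)
  · intro hp
    have w0 : 0 < 1 + 2 * κ := by linarith
    have a := Nat.floor_le (a := n / (1 + 2 * κ) + 1 / 2) (by positivity)
    have b := Nat.lt_floor_add_one (n / (1 + 2 * κ) + 1 / 2)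
    have z1 : 1 ≤ n / (1 + 2 * κ) := by rw [le_div_iff₀ w0]; linarith
    have r1 : 1 ≤ ⌊n / (1 + 2 * κ) + 1 / 2⌋₊ := Nat.le_floor (by push_cast; linarith)
    have h := (H _ r1).1
    have r1' : (1:ℝ) ≤ (⌊n / (1 + 2 * κ) + 1 / 2⌋₊ : ℝ) := by exact_mod_cast r1
    generalize (⌊n / (1 + 2 * κ) + 1 / 2⌋₊ : ℝ) = R at a b h r1'
    have e : n = (1 + 2 * κ) * (n / (1 + 2 * κ)) := by field_simp
    generalize n / (1 + 2 * κ) = z at a b z1 e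
    have s1 : (z - R) ^ 2 ≤ 1 / 4 := by nlinarith
    have s2 : (n - R * (1 + 2 * κ)) ^ 2 ≤ (1 + 2 * κ) ^ 2 / 4 := by
      have : (n - R * (1 + 2 * κ)) ^ 2 = (1 + 2 * κ) ^ 2 * (z - R) ^ 2 := by rw [e]; ring
      rw [this]
      nlinarith [sq_nonneg (1 + 2 * κ)]
    have s3 : (1 + 2 * κ) ^ 2 ≤ 16 * κ * R ^ 2 := by
      by_cases d : κ ≤ 5 / 2
      · have : 1 ≤ R ^ 2 := by nlinarith
        nlinarith
      · push Not at d
        have u1 : 2 * z ≤ 3 * R := by linarith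
        have u2 : 4 * z ^ 2 ≤ 9 * R ^ 2 := by nlinarith
        have u3 : (1 + 2 * κ) ^ 2 ≤ (12 / 5 * κ) ^ 2 := by nlinarith
        have u4 : 5 * κ ^ 3 ≤ (12 / 5 * κ) ^ 2 * z ^ 2 := by
          have : n ^ 2 = (1 + 2 * κ) ^ 2 * z ^ 2 := by rw [e]; ring
          nlinarith [sq_nonneg z]
        have u5 : κ ^ 2 * (5 * κ) ≤ κ ^ 2 * (144 / 25 * z ^ 2) := by nlinarith
        have u6 := le_of_mul_le_mul_left u5 (by positivity)
        nlinarith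
    have t4 : R ^ 2 * κ ^ 2 ≤ R ^ 2 * t := by nlinarith
    exact le_of_mul_le_mul_left t4 (by positivity)

theorem all_parts (n : ℕ) (p : Fin n → ℝ × ℝ) (hinj : Function.Injective p)
    (hgp : ∀ a b c, a ≠ b → a ≠ c → b ≠ c → ¬ Collinear ℝ ({p a, p b, p c} : Set (ℝ × ℝ)))
    (G : SimpleGraph (Fin n)) :
    ∃ α β γ : ℝ, (α ≠ 0 ∨ β ≠ 0) ∧ (∀ v, α * (p v).1 + β * (p v).2 ≠ γ) ∧
      ∃ m t : ℕ, m = G.edgeSet.ncard ∧ t = Set.ncard {e ∈ G.edgeSet | ∃ u v, e = s(u, v) ∧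
          ∃ x ∈ segment ℝ (p u) (p v), α * x.1 + β * x.2 = γ} ∧
        8 / 9 * ((m : ℝ) ^ 2 / (n : ℝ) ^ 2) ≤ t ∧
        (5 * m ^ 3 ≤ n ^ 5 → (m : ℝ) ^ 2 / (n : ℝ) ^ 2 ≤ t) ∧
        ∀ R : ℕ, 1 ≤ R → 2 ≤ n → 4 * R * (m : ℝ) ≤ ((n : ℝ) - R) ^ 2 + 4 * R ^ 2 * t := by
  classical
  obtain ⟨α, β, γ, g1, g2, x, y, hs⟩ := Pool.Agent.H98.Cut.best_line p hinj hgp G
  refine ⟨α, β, γ, g1, g2, _, _, rfl, rfl, ?_⟩
  have e0 : G.edgeSet.ncard = G.edgeFinset.card := by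
    rw [← Set.ncard_coe_finset, SimpleGraph.coe_edgeFinset]
  have c1 := G.card_edgeFinset_le_card_choose_two
  rw [Fintype.card_fin] at c1
  have bb : 2 ≤ n → ∀ R : ℕ, 1 ≤ R → ∃ a : ℕ, (R ≥ n → a = 0) ∧ G.edgeFinset.card + R * (a * (a + 1))
      ≤ a * n + R * Set.ncard {e ∈ G.edgeSet | ∃ u v, e = s(u, v) ∧
          ∃ x ∈ segment ℝ (p u) (p v), α * x.1 + β * x.2 = γ} := by
    intro hn R hR
    obtain ⟨r, rfl⟩ := Nat.exists_eq_add_of_le' hR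
    obtain ⟨b1, b2⟩ := Pool.Agent.H98.Cut.blk_range n (r + 1) hR
    have := Pool.Agent.H98.Cut.block_bound G hs (n / 2 / (r + 1)) r (by simpa using hn)
      (by simpa using b1) (by simpa using b2)
    rw [Fintype.card_fin] at this
    exact ⟨_, fun h => Nat.div_eq_of_lt (by omega), this⟩
  rw [e0]
  generalize Set.ncard {e ∈ G.edgeSet | ∃ u v, e = s(u, v) ∧
      ∃ x ∈ segment ℝ (p u) (p v), α * x.1 + β * x.2 = γ} = t at bb ⊢
  generalize G.edgeFinset.card = m at bb c1 ⊢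
  have t0 : (0:ℝ) ≤ t := Nat.cast_nonneg t
  by_cases hn : 2 ≤ n
  swap
  · have : m = 0 := by
      have : n.choose 2 = 0 := Nat.choose_eq_zero_of_lt (by omega)
      omega
    subst this
    exact ⟨by simp, fun _ => by simp, fun R _ h => absurd h hn⟩
  have hn' : (2:ℝ) ≤ n := by exact_mod_cast hn
  have H : ∀ R : ℕ, 1 ≤ R → 4 * R * (m : ℝ) ≤ ((n : ℝ) - R) ^ 2 + 4 * R ^ 2 * t ∧
      4 * R * (m : ℝ) ≤ (n : ℝ) ^ 2 + 4 * R ^ 2 * t := by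
    intro R hR
    obtain ⟨a, _, ha⟩ := bb hn R hR
    have ha' : (m : ℝ) + R * (a * (a + 1)) ≤ a * n + R * t := by exact_mod_cast ha
    have r0 : (0:ℝ) ≤ R := Nat.cast_nonneg R
    have a0 : (0:ℝ) ≤ a := Nat.cast_nonneg a
    have t1 := mul_le_mul_of_nonneg_left ha' (by positivity : (0:ℝ) ≤ 4 * R)
    have t3 : 0 ≤ (R:ℝ) ^ 2 * a := by positivity
    constructor
    · nlinarith [sq_nonneg (2 * (R:ℝ) * a + R - n)]
    · nlinarith [sq_nonneg (2 * (R:ℝ) * a - n)]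
  have em : (m : ℝ) = n * (m / n) := by field_simp
  have c2 : (m : ℝ) ≤ n * (n - 1) / 2 := by
    rw [← Nat.cast_choose_two]; exact_mod_cast c1
  have c3 : (m : ℝ) / n ≤ t := by
    obtain ⟨a, h1, ha⟩ := bb hn n (by omega)
    rw [h1 le_rfl] at ha
    have ha' : (m : ℝ) ≤ n * t := by exact_mod_cast (by simpa using ha)
    rw [div_le_iff₀ (by linarith)]; linarith
  have c4 : 2 * ((m : ℝ) / n) + 1 ≤ n := by
    have : (m : ℝ) / n ≤ (n - 1) / 2 := by rw [div_le_iff₀ (by linarith)]; linarith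
    linarith
  obtain ⟨k1, k2⟩ := arith n (m / n) t hn' (by positivity) c4 c3 (fun R hR => by
    rw [← em]; exact H R hR)
  rw [← div_pow]
  refine ⟨by linarith, fun h => k2 ?_, fun R hR _ => (H R hR).1⟩
  have h' : 5 * (m : ℝ) ^ 3 ≤ (n : ℝ) ^ 5 := by exact_mod_cast h
  rw [div_pow, ← mul_div_assoc, div_le_iff₀ (by positivity)]
  nlinarith

end Pool.Agent.H98.Elss
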