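import Mathlib

set_option autoImplicit false

namespace Pool.Agent.H98.Erg

open Filter Topology MeasureTheory Finset BoundedContinuousFunction ComplexConjugate
open scoped ENNReal NNReal Classical

abbrev TT := UnitAddCircle

/-- the standard character of the circle. -/
noncomputable def ee (x : TT) : ℂ := (AddCircle.toCircle x : ℂ)

lemma ee_add (x y : TT) : ee (x + y) = ee x * ee y := by
  simp [ee, AddCircle.toCircle_add]

@[simp] lemma ee_zero : ee 0 = 1 := by simp [ee]

@[simp] lemma norm_ee (x : TT) : ‖ee x‖ = 1 := by simp [ee]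

lemma ee_neg (x : TT) : ee (-x) = conj (ee x) := by
  simp only [ee, AddCircle.toCircle_neg]
  exact Circle.coe_inv_eq_conj _

lemma ee_sub (x y : TT) : ee (x - y) = ee x * conj (ee y) := by
  rw [sub_eq_add_neg, ee_add, ee_neg]

lemma ee_mul_conj (x : TT) : ee x * conj (ee x) = 1 := by rw [← ee_sub]; simp

@[fun_prop] lemma cont_ee : Continuous ee :=
  continuous_subtype_val.comp AddCircle.continuous_toCircle

lemma ee_inj {x y : TT} (h : ee x = ee y) : x = y :=
  AddCircle.injective_toCircle one_ne_zero (Circle.ext h)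

lemma ee_nsmul (n : ℕ) (x : TT) : ee (n • x) = ee x ^ n := by
  simp [ee, AddCircle.toCircle_nsmul]

lemma ee_coe (t : ℝ) : ee (t : TT) = Complex.exp ((2 * Real.pi * t : ℝ) * Complex.I) := by
  simp [ee, AddCircle.toCircle_apply_mk, Circle.coe_exp]

section lim

variable {Y : Type*} [MeasurableSpace Y] [TopologicalSpace Y] [PolishSpace Y] [BorelSpace Y]
  [CompactSpace Y]

lemma cint {f : Y → ℂ} (hf : Continuous f) (μ : Measure Y) [IsFiniteMeasure μ] :
    Integrable f μ :=
  (BoundedContinuousFunction.mkOfCompact ⟨f, hf⟩).integrable μ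

lemma rint {f : Y → ℝ} (hf : Continuous f) (μ : Measure Y) [IsFiniteMeasure μ] :
    Integrable f μ :=
  (BoundedContinuousFunction.mkOfCompact ⟨f, hf⟩).integrable μ

lemma exists_lim {κ : Type*} (μ : ℕ → Measure Y) (hμ : ∀ N, μ N Set.univ ≤ 1)
    (φ : κ → Y → ℂ) (hφ : ∀ k, Continuous (φ k)) (L : κ → ℂ)
    (h : ∀ k, Tendsto (fun N => ∫ y, φ k y ∂(μ N)) atTop (𝓝 (L k))) :
    ∃ ν : Measure Y, IsFiniteMeasure ν ∧ ∀ k, ∫ y, φ k y ∂ν = L k := by
  have hf : ∀ N, IsFiniteMeasure (μ N) := fun N => ⟨(hμ N).trans_lt ENNReal.one_lt_top⟩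
  let m : ℕ → FiniteMeasure Y := fun N => ⟨μ N, hf N⟩
  have hm : ∀ N, m N ∈ {ν : FiniteMeasure Y | ν.mass ≤ 1} := fun N => by
    change (μ N Set.univ).toNNReal ≤ 1
    exact ENNReal.toNNReal_mono ENNReal.one_ne_top (hμ N)
  obtain ⟨ν, -, hν⟩ := (isCompact_setOfPred_finiteMeasure_le_of_compactSpace Y 1).ultrafilter_le_nhds
    ((hyperfilter ℕ).map m) (by
      rw [Ultrafilter.coe_map, le_principal_iff, Filter.mem_map]
      exact Eventually.of_forall hm)
  refine ⟨ν, inferInstance, fun k => ?_⟩
  have h1 : Tendsto m (hyperfilter ℕ) (𝓝 ν) := hν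
  have h2 := (FiniteMeasure.tendsto_iff_forall_integral_rclike_tendsto ℂ).1 h1
    (BoundedContinuousFunction.mkOfCompact ⟨φ k, hφ k⟩)
  have h3 : Tendsto (fun N => ∫ y, φ k y ∂(μ N)) (hyperfilter ℕ) (𝓝 (L k)) :=
    (h k).mono_left (by rw [← Nat.cofinite_eq_atTop]; exact hyperfilter_le_cofinite)
  exact tendsto_nhds_unique h2 h3

lemma ext_fam {κ : Type*} [AddCommGroup κ] (φ : κ → Y → ℂ) (hφ : ∀ k, Continuous (φ k))
    (h0 : ∀ y, φ 0 y = 1) (hadd : ∀ k l y, φ (k + l) y = φ k y * φ l y)
    (hneg : ∀ k y, φ (-k) y = conj (φ k y))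
    (hsep : ∀ x y, (∀ k, φ k x = φ k y) → x = y)
    (P P' : Measure Y) [IsFiniteMeasure P] [IsFiniteMeasure P']
    (h : ∀ k, ∫ y, φ k y ∂P = ∫ y, φ k y ∂P') : P = P' := by
  let ψ : κ → (Y →ᵇ ℂ) := fun k => BoundedContinuousFunction.mkOfCompact ⟨φ k, hφ k⟩
  let V : Submodule ℂ (Y →ᵇ ℂ) := Submodule.span ℂ (Set.range ψ)
  have hV : ∀ k, ψ k ∈ V := fun k => Submodule.subset_span ⟨k, rfl⟩
  have h1 : (1 : Y →ᵇ ℂ) ∈ V := by
    have : ψ 0 = 1 := by ext y; exact h0 y
    exact this ▸ hV 0
  let A : StarSubalgebra ℂ (Y →ᵇ ℂ) :=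
    { toSubalgebra := V.toSubalgebra h1 (fun x y hx hy => by
        have h2 := Submodule.mul_mem_mul hx hy
        rw [Submodule.span_mul_span] at h2
        refine Submodule.span_le.2 ?_ h2
        rintro _ ⟨_, ⟨k, rfl⟩, _, ⟨l, rfl⟩, rfl⟩
        have : ψ k * ψ l = ψ (k + l) := by ext y; exact (hadd k l y).symm
        beta_reduce
        rw [this]
        exact hV _)
      star_mem' := fun {x} hx => by
        change x ∈ V at hx
        change star x ∈ V
        induction hx using Submodule.span_induction with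
        | mem x hx =>
          obtain ⟨k, rfl⟩ := hx
          have : star (ψ k) = ψ (-k) := by ext y; exact (hneg k y).symm
          rw [this]; exact hV _
        | zero => simp
        | add x y _ _ hx hy => rw [star_add]; exact V.add_mem hx hy
        | smul a x _ hx => rw [star_smul]; exact V.smul_mem _ hx }
  refine ext_of_forall_mem_subalgebra_integral_eq_of_polish
    (A := A) ?_ ?_
  · intro x y hxy
    by_contra hc
    apply hxy
    refine hsep x y fun k => ?_
    by_contra hk
    exact hc ⟨φ k, ⟨_, ⟨ψ k, hV k, rfl⟩, rfl⟩, hk⟩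
  · intro g hg
    change g ∈ V at hg
    induction hg using Submodule.span_induction with
    | mem x hx => obtain ⟨k, rfl⟩ := hx; exact h k
    | zero => simp
    | add x y _ _ hx hy =>
      simp only [BoundedContinuousFunction.coe_add, Pi.add_apply]
      rw [integral_add (x.integrable _) (y.integrable _),
        integral_add (x.integrable _) (y.integrable _), hx, hy]
    | smul a x _ hx =>
      simp only [BoundedContinuousFunction.coe_smul, Pi.smul_apply, smul_eq_mul]
      rw [integral_const_mul, integral_const_mul, hx]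

lemma sq_int_le (ν : Measure Y) [IsProbabilityMeasure ν] {f : Y → ℝ} (hf : Continuous f) :
    (∫ y, f y ∂ν) ^ 2 ≤ ∫ y, f y ^ 2 ∂ν := by
  set c := ∫ y, f y ∂ν with hc
  have h : 0 ≤ ∫ y, (f y - c) ^ 2 ∂ν := integral_nonneg fun y => sq_nonneg _
  have e : ∀ y, (f y - c) ^ 2 = f y ^ 2 - (2 * c * f y - c ^ 2) := fun y => by ring
  simp_rw [e] at h
  rw [integral_sub (rint (by fun_prop) _) (rint (by fun_prop) _),
    integral_sub (rint (by fun_prop) _) (rint (by fun_prop) _), integral_const_mul, ← hc] at h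
  simp only [integral_const, probReal_univ, smul_eq_mul, one_mul] at h
  nlinarith

/-- ergodicity from convergence of double averages of correlations on a separating family. -/
lemma erg_of_avg {κ : Type*} (φ : κ → Y → ℂ) (hφ : ∀ k, Continuous (φ k))
    (hsep : ∀ (P P' : Measure Y) [IsFiniteMeasure P] [IsFiniteMeasure P'],
      (∀ k, ∫ y, φ k y ∂P = ∫ y, φ k y ∂P') → P = P')
    (ν : Measure Y) [IsProbabilityMeasure ν] {S : Y → Y} (hS : Continuous S)
    (hm : MeasurePreserving S ν ν)
    (h : ∀ k, Tendsto (fun N : ℕ => (∑ i ∈ range N, ∑ j ∈ range N,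
      ∫ y, φ k (S^[i] y) * conj (φ k (S^[j] y)) ∂ν) / (N : ℂ) ^ 2) atTop
      (𝓝 ((∫ y, φ k y ∂ν) * conj (∫ y, φ k y ∂ν))))
    {E : Set Y} (hE : MeasurableSet E) (hi : S ⁻¹' E = E) : ν E = 0 ∨ ν E = 1 := by
  have hc : ∀ k i, Continuous fun y => φ k (S^[i] y) := fun k i => (hφ k).comp (hS.iterate i)
  have hmi : ∀ k i, ∫ y, φ k (S^[i] y) ∂ν = ∫ y, φ k y ∂ν := fun k i => by
    conv_rhs => rw [← (hm.iterate i).map_eq]
    rw [integral_map (hm.iterate i).measurable.aemeasurable (hφ k).aestronglyMeasurable]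
  have hEi : ∀ i, S^[i] ⁻¹' E = E := fun i => Function.IsFixedPt.preimage_iterate hi i
  have hme : ∀ k i, ∫ y in E, φ k (S^[i] y) ∂ν = ∫ y in E, φ k y ∂ν := fun k i => by
    have h1 := (hm.iterate i).restrict_preimage hE
    rw [hEi] at h1
    conv_rhs => rw [← h1.map_eq]
    rw [integral_map h1.measurable.aemeasurable (hφ k).aestronglyMeasurable]
  have key : ν.restrict E = (ν E).toNNReal • ν := by
    refine hsep _ _ fun k => ?_
    rw [integral_smul_nnreal_measure]
    set m := ∫ y, φ k y ∂ν with hmdef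
    set a := (∫ y in E, φ k y ∂ν) - (ν E).toNNReal • m with ha
    suffices hz : ‖a‖ ^ 2 ≤ 0 by
      have : a = 0 := by
        have := pow_eq_zero_iff (two_ne_zero) |>.1 (le_antisymm hz (sq_nonneg _))
        simpa using this
      exact sub_eq_zero.1 this
    have hlim := (Complex.continuous_re.tendsto _).comp ((h k).sub_const (m * conj m))
    rw [sub_self, Complex.zero_re] at hlim
    refine ge_of_tendsto hlim ?_
    filter_upwards [eventually_gt_atTop 0] with N hN
    have hN' : (N : ℂ) ≠ 0 := by exact_mod_cast hN.ne'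
    let F : Y → ℂ := fun y => (∑ i ∈ range N, φ k (S^[i] y)) / N - m
    have hF : Continuous F := by
      refine Continuous.sub (Continuous.div_const ?_ _) continuous_const
      exact continuous_finset_sum _ fun i _ => hc k i
    have h1 : a = ∫ y in E, F y ∂ν := by
      simp only [F]
      rw [integral_sub (cint (by fun_prop) _) (integrable_const _), integral_div,
        integral_finset_sum _ fun i _ => cint (hc k i) _]
      simp only [hme, sum_const, card_range, nsmul_eq_mul, integral_const]
      rw [ha, mul_div_cancel_left₀ _ hN']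
      simp [Measure.real, NNReal.smul_def, ENNReal.toReal]
    have h2 : ‖a‖ ≤ ∫ y, ‖F y‖ ∂ν := by
      rw [h1]
      exact (norm_integral_le_integral_norm _).trans
        (setIntegral_le_integral (rint hF.norm _) (Eventually.of_forall fun y => norm_nonneg _))
    have h3 := sq_int_le ν hF.norm
    have h4 : ((∫ y, ‖F y‖ ^ 2 ∂ν : ℝ) : ℂ) = (∑ i ∈ range N, ∑ j ∈ range N,
        ∫ y, φ k (S^[i] y) * conj (φ k (S^[j] y)) ∂ν) / (N : ℂ) ^ 2 - m * conj m := by
      rw [← integral_complex_ofReal]
      have e : ∀ y, ((‖F y‖ ^ 2 : ℝ) : ℂ) = (∑ i ∈ range N, ∑ j ∈ range N,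
          φ k (S^[i] y) * conj (φ k (S^[j] y))) / (N : ℂ) ^ 2 -
          ((∑ i ∈ range N, φ k (S^[i] y)) * (conj m / N) +
            (∑ i ∈ range N, conj (φ k (S^[i] y))) * (m / N) - m * conj m) := fun y => by
        rw [← Finset.sum_mul_sum, ← map_sum]
        push_cast
        rw [← Complex.mul_conj']
        simp only [F, map_sub, map_div₀, Complex.conj_natCast]
        field_simp
        ring
      rw [integral_congr_ae (Eventually.of_forall e)]
      have hcc : ∀ i, Continuous fun y => conj (φ k (S^[i] y)) := fun i =>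
        Complex.continuous_conj.comp (hc k i)
      rw [integral_sub (cint (by fun_prop) _) (cint (by fun_prop) _), integral_div,
        integral_sub (cint (by fun_prop) _) (cint (by fun_prop) _),
        integral_add (cint (by fun_prop) _) (cint (by fun_prop) _), integral_mul_const,
        integral_mul_const, integral_finset_sum _ fun i _ => cint (by fun_prop) _,
        integral_finset_sum _ fun i _ => cint (hc k i) _,
        integral_finset_sum _ fun i _ => cint (hcc i) _]
      simp only [integral_conj, hmi, ← hmdef, sum_const, card_range, nsmul_eq_mul, integral_const,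
        probReal_univ, one_smul]
      congr 1
      · congr 1
        exact sum_congr rfl fun i _ => integral_finset_sum _ fun j _ => cint (by fun_prop) _
      · field_simp
        ring
    simp only [Function.comp_apply]
    rw [← h4, Complex.ofReal_re]
    exact (pow_le_pow_left₀ (norm_nonneg _) h2 2).trans h3
  have h5 := congrArg (fun P : Measure Y => P E) key
  simp only [Measure.restrict_apply hE, Set.inter_self, Measure.coe_nnreal_smul_apply,
    ENNReal.coe_toNNReal (measure_ne_top ν E)] at h5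
  by_cases h0 : ν E = 0
  · exact Or.inl h0
  · right
    nth_rewrite 1 [← one_mul (ν E)] at h5
    exact ((ENNReal.mul_left_inj h0 (measure_ne_top ν E)).1 h5).symm

end lim

/-- normalised Dirichlet kernel. -/
noncomputable def K (N : ℕ) (z : TT) : ℂ := (∑ i ∈ range N, ee (i • z)) / N

lemma norm_K (N : ℕ) (z : TT) : ‖K N z‖ ≤ 1 := by
  unfold K
  rw [norm_div, Complex.norm_natCast]
  refine div_le_one_of_le₀ ((norm_sum_le _ _).trans ?_) (Nat.cast_nonneg _)
  simp

@[fun_prop] lemma cont_K (N : ℕ) : Continuous (K N) := by unfold K; fun_prop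

lemma K_lim (z : TT) : Tendsto (fun N => K N z) atTop (𝓝 (if z = 0 then 1 else 0)) := by
  split_ifs with hz
  · subst hz
    refine tendsto_const_nhds.congr' ?_
    filter_upwards [eventually_gt_atTop 0] with N hN
    have hN' : (N : ℂ) ≠ 0 := by exact_mod_cast hN.ne'
    simp [K, hN']
  · have h1 : ee z ≠ 1 := fun h => hz (ee_inj (by simpa using h))
    rw [tendsto_zero_iff_norm_tendsto_zero]
    refine squeeze_zero (fun N => norm_nonneg _) (fun N => ?_)
      (tendsto_const_div_atTop_nhds_zero_nat (2 / ‖ee z - 1‖))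
    unfold K
    simp only [ee_nsmul]
    rw [geom_sum_eq h1, norm_div, norm_div, Complex.norm_natCast]
    gcongr
    refine (norm_sub_le _ _).trans ?_
    simp; norm_num

lemma K_sq (N : ℕ) (z : TT) : (∑ i ∈ range N, ∑ j ∈ range N, ee (i • z) * conj (ee (j • z))) /
    (N : ℂ) ^ 2 = K N z * conj (K N z) := by
  rw [← Finset.sum_mul_sum, ← map_sum]
  simp only [K, map_div₀, Complex.conj_natCast]
  ring

/-- Wiener lemma in double average form. -/
lemma wiener (τ : Measure TT) [IsFiniteMeasure τ] [NullSingletonClass τ] {w : TT → ℝ} (hw : Continuous w) :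
    Tendsto (fun N : ℕ => (∑ i ∈ range N, ∑ j ∈ range N,
      ‖∫ x, (w x : ℂ) * (ee (i • x) * conj (ee (j • x))) ∂τ‖ ^ 2) / (N : ℝ) ^ 2) atTop (𝓝 0) := by
  have h1 : Tendsto (fun N : ℕ => ∫ p : TT × TT, ((w p.1 : ℂ) * (w p.2 : ℂ)) *
      (K N (p.1 - p.2) * conj (K N (p.1 - p.2))) ∂(τ.prod τ)) atTop
      (𝓝 (∫ _ : TT × TT, (0 : ℂ) ∂(τ.prod τ))) := by
    refine tendsto_integral_of_dominated_convergence (fun p => ‖(w p.1 : ℂ) * (w p.2 : ℂ)‖)
      (fun N => Continuous.aestronglyMeasurable (by fun_prop)) (rint (by fun_prop) _)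
      (fun N => Eventually.of_forall fun p => ?_) ?_
    · rw [norm_mul]
      refine mul_le_of_le_one_right (norm_nonneg _) ?_
      rw [norm_mul, Complex.norm_conj]
      exact mul_le_one₀ (norm_K _ _) (norm_nonneg _) (norm_K _ _)
    · have hd : ∀ᵐ p : TT × TT ∂(τ.prod τ), p.1 ≠ p.2 := by
        refine (Measure.ae_prod_iff_ae_ae (p := fun p : TT × TT => p.1 ≠ p.2)
          (isClosed_diagonal.measurableSet.compl)).2 ?_
        exact Eventually.of_forall fun x => by
          filter_upwards [Measure.ae_ne τ x] with y hy using hy.symm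
      filter_upwards [hd] with p hp
      have h2 := K_lim (p.1 - p.2)
      rw [if_neg (sub_ne_zero.2 hp)] at h2
      have h3 := (h2.mul ((Complex.continuous_conj.tendsto _).comp h2)).const_mul
        ((w p.1 : ℂ) * (w p.2 : ℂ))
      simpa using h3
  rw [integral_zero] at h1
  have h2 := (Complex.continuous_re.tendsto _).comp h1
  rw [Complex.zero_re] at h2
  refine h2.congr fun N => ?_
  simp only [Function.comp_apply, ← K_sq]
  rw [← Complex.ofReal_re (_ / _)]
  congr 1
  simp only [← mul_div_assoc, Finset.mul_sum]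
  rw [integral_div, integral_finset_sum _ fun i _ => cint (by fun_prop) _]
  push_cast
  congr 1
  refine sum_congr rfl fun i _ => ?_
  rw [integral_finset_sum _ fun i _ => cint (by fun_prop) _]
  refine sum_congr rfl fun j _ => ?_
  rw [← Complex.mul_conj', ← integral_conj, ← integral_prod_mul]
  refine integral_congr_ae (Eventually.of_forall fun p => ?_)
  simp only [smul_sub, ee_sub, map_mul, Complex.conj_conj, Complex.conj_ofReal]
  ring

end Pool.Agent.H98.Erg
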