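import Pool.Agent.H98.Erg1

set_option autoImplicit false

namespace Pool.Agent.H98.Erg

open Filter Topology MeasureTheory Finset ComplexConjugate ProbabilityTheory Matrix
open scoped ENNReal NNReal Classical RealInnerProductSpace

instance probTT : IsProbabilityMeasure (volume : Measure TT) := ⟨UnitAddCircle.measure_univ⟩

/-- frequency pairing. -/
noncomputable abbrev lc {ι : Type*} (y : ι → TT) (k : ι →₀ ℤ) : TT :=
  Finsupp.linearCombination ℤ y k

/-- characters of a power of the circle. -/
noncomputable def ch {ι : Type*} (k : ι →₀ ℤ) (y : ι → TT) : ℂ := ee (lc y k)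

section ch
variable {ι : Type*}

@[simp] lemma ch_zero (y : ι → TT) : ch 0 y = 1 := by simp [ch]

lemma ch_add (k l : ι →₀ ℤ) (y : ι → TT) : ch (k + l) y = ch k y * ch l y := by
  simp [ch, ee_add]

lemma ch_neg (k : ι →₀ ℤ) (y : ι → TT) : ch (-k) y = conj (ch k y) := by
  simp [ch, ee_neg]

lemma ch_sub (k l : ι →₀ ℤ) (y : ι → TT) : ch (k - l) y = ch k y * conj (ch l y) := by
  simp [ch, ee_sub]

lemma ch_single (i : ι) (y : ι → TT) : ch (Finsupp.single i 1) y = ee (y i) := by
  simp [ch]

@[simp] lemma norm_ch (k : ι →₀ ℤ) (y : ι → TT) : ‖ch k y‖ = 1 := norm_ee _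

@[fun_prop] lemma cont_ch (k : ι →₀ ℤ) : Continuous (ch k) := by
  unfold ch lc
  simp only [Finsupp.linearCombination_apply, Finsupp.sum]
  fun_prop

lemma lc_add (k : ι →₀ ℤ) (y z : ι → TT) : lc (y + z) k = lc y k + lc z k := by
  simp only [lc, Finsupp.linearCombination_apply, Finsupp.sum, Pi.add_apply, smul_add,
    sum_add_distrib]

lemma lc_nsmul (k : ι →₀ ℤ) (n : ℕ) (y : ι → TT) : lc (n • y) k = n • lc y k := by
  simp only [lc, Finsupp.linearCombination_apply, Finsupp.sum, Pi.smul_apply, Finset.smul_sum]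
  exact sum_congr rfl fun i _ => smul_comm _ _ _

lemma ch_rot (k : ι →₀ ℤ) (n : ℕ) (y α : ι → TT) :
    ch k (y + n • α) = ch k y * ee (n • lc α k) := by
  simp only [ch, lc_add, lc_nsmul, ee_add]

end ch

/-- shift of frequencies. -/
noncomputable def sh (n : ℕ) (l : ℕ →₀ ℤ) : ℕ →₀ ℤ := l.mapDomain (· + n)

lemma ch_shift (n : ℕ) (l : ℕ →₀ ℤ) (w : ℕ → TT) :
    ch l (fun i => w (i + n)) = ch (sh n l) w := by
  simp only [ch, lc, sh, Finsupp.linearCombination_mapDomain]
  rfl

lemma prob_of {Y : Type*} [MeasurableSpace Y] (ν : Measure Y) [IsFiniteMeasure ν]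
    (h : ∫ _, (1 : ℂ) ∂ν = 1) : IsProbabilityMeasure ν := by
  constructor
  rw [integral_const, Complex.real_smul, mul_one, Complex.ofReal_eq_one] at h
  exact (ENNReal.toReal_eq_one_iff _).1 h

lemma int_ee (m : ℤ) : ∫ x : TT, ee (m • x) = if m = 0 then 1 else 0 := by
  split_ifs with h
  · simp [h]
  · exact integral_eq_zero_of_add_right_eq_neg (μ := (volume : Measure TT))
      (fourier_add_half_inv_index h one_pos)

lemma herglotz {X : Type*} [MeasurableSpace X] (μ : Measure X) [IsProbabilityMeasure μ]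
    {T : X → X} (hT : MeasurePreserving T μ μ) {f : X → ℝ} (hf : Measurable f)
    (hb : ∀ x, |f x| ≤ 1) : ∃ σ : Measure TT, IsFiniteMeasure σ ∧
      ∀ n : ℕ, ∫ x, ee (n • x) ∂σ = ((∫ ω, f ω * f (T^[n] ω) ∂μ : ℝ) : ℂ) := by
  set c : ℕ → ℝ := fun n => ∫ ω, f ω * f (T^[n] ω) ∂μ with hc
  have hm : ∀ i, Measurable fun ω => f (T^[i] ω) := fun i => hf.comp (hT.iterate i).measurable
  have hi : ∀ i j, Integrable (fun ω => f (T^[i] ω) * f (T^[j] ω)) μ := fun i j =>
    Integrable.of_bound ((hm i).mul (hm j)).aestronglyMeasurable 1 (Eventually.of_forall fun ω => by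
      rw [Real.norm_eq_abs, abs_mul]
      exact mul_le_one₀ (hb _) (abs_nonneg _) (hb _))
  let C : ℕ → ℕ → ℝ := fun i j => ∫ ω, f (T^[i] ω) * f (T^[j] ω) ∂μ
  have hC : ∀ i n, C i (n + i) = c n := fun i n => by
    simp only [C, hc]
    conv_rhs => rw [← (hT.iterate i).map_eq]
    rw [integral_map (hT.iterate i).measurable.aemeasurable
      (f := fun ω => f ω * f (T^[n] ω)) (hf.mul (hm n)).aestronglyMeasurable]
    simp only [Function.iterate_add_apply]
  let D : ℕ → TT → ℂ := fun N x =>
    (∑ i ∈ range N, ∑ j ∈ range N, ee (i • x) * conj (ee (j • x)) * (C i j : ℂ)) / N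
  have hDc : ∀ N, Continuous (D N) := fun N => by simp only [D]; fun_prop
  have hD : ∀ N x, ∃ r : ℝ, 0 ≤ r ∧ D N x = r := fun N x => by
    refine ⟨(∫ ω, ‖∑ i ∈ range N, ee (i • x) * (f (T^[i] ω) : ℂ)‖ ^ 2 ∂μ) / N,
      div_nonneg (integral_nonneg fun ω => sq_nonneg _) (Nat.cast_nonneg _), ?_⟩
    simp only [D]
    rw [Complex.ofReal_div, ← integral_complex_ofReal]
    congr 1
    have e : ∀ ω, ((‖∑ i ∈ range N, ee (i • x) * (f (T^[i] ω) : ℂ)‖ ^ 2 : ℝ) : ℂ) =
        ∑ i ∈ range N, ∑ j ∈ range N, ee (i • x) * conj (ee (j • x)) *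
          ((f (T^[i] ω) * f (T^[j] ω) : ℝ) : ℂ) := fun ω => by
      push_cast
      rw [← Complex.mul_conj', map_sum, Finset.sum_mul_sum]
      refine sum_congr rfl fun i _ => sum_congr rfl fun j _ => ?_
      simp only [map_mul, Complex.conj_ofReal]
      ring
    rw [integral_congr_ae (Eventually.of_forall e), integral_finset_sum _ fun i _ =>
      integrable_finset_sum _ fun j _ => (hi i j).ofReal.const_mul _]
    refine sum_congr rfl fun i _ => ?_
    rw [integral_finset_sum _ fun j _ => (hi i j).ofReal.const_mul _]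
    refine sum_congr rfl fun j _ => ?_
    rw [integral_const_mul, integral_complex_ofReal]
  let σ : ℕ → Measure TT := fun N => volume.withDensity fun x => ENNReal.ofReal (D N x).re
  have hσ : ∀ N n : ℕ, ∫ x, ee (n • x) ∂(σ N) = ((N - n : ℕ) : ℂ) * c n / N := fun N n => by
    simp only [σ]
    rw [integral_withDensity_eq_integral_toReal_smul (f := fun x => ENNReal.ofReal (D N x).re)
      (Complex.continuous_re.comp (hDc N)).measurable.ennreal_ofReal
      (Eventually.of_forall fun x => ENNReal.ofReal_lt_top)]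
    have e : ∀ x : TT, (ENNReal.ofReal (D N x).re).toReal • ee (n • x) =
        (∑ i ∈ range N, ∑ j ∈ range N, ee ((((n + i : ℕ) : ℤ) - j) • x) * (C i j : ℂ)) / N :=
      fun x => by
      obtain ⟨r, hr, h⟩ := hD N x
      rw [h, Complex.ofReal_re, ENNReal.toReal_ofReal hr, Complex.real_smul, ← h]
      simp only [D, div_mul_eq_mul_div, Finset.sum_mul]
      congr 1
      refine sum_congr rfl fun i _ => sum_congr rfl fun j _ => ?_
      simp only [sub_smul, natCast_zsmul, add_smul, ee_sub, ee_add, Nat.cast_add]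
      ring
    rw [integral_congr_ae (Eventually.of_forall e), integral_div,
      integral_finset_sum _ fun i _ => cint (by fun_prop) _]
    congr 1
    have e2 : ∀ i ∈ range N, ∫ x : TT, ∑ j ∈ range N,
        ee ((((n + i : ℕ) : ℤ) - j) • x) * (C i j : ℂ) = if i < N - n then (c n : ℂ) else 0 :=
      fun i _ => by
      rw [integral_finset_sum _ fun j _ => cint (by fun_prop) _]
      simp only [integral_mul_const, int_ee, sub_eq_zero, Nat.cast_inj, ite_mul, one_mul, zero_mul,
        sum_ite_eq, mem_range, hC]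
      congr 1
      apply propext
      omega
    rw [sum_congr rfl e2, ← sum_filter]
    have : (range N).filter (fun i => i < N - n) = range (N - n) := by
      ext i; simp only [mem_filter, mem_range]; omega
    rw [this, sum_const, card_range, nsmul_eq_mul]
  have hc0 : c 0 ≤ 1 := by
    have := norm_integral_le_of_norm_le_const (μ := μ) (f := fun ω => f ω * f (T^[0] ω)) (C := 1)
      (Eventually.of_forall fun ω => by
        rw [Real.norm_eq_abs, abs_mul]
        exact mul_le_one₀ (hb _) (abs_nonneg _) (hb _))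
    simp only [probReal_univ, mul_one, Real.norm_eq_abs] at this
    exact (le_abs_self _).trans this
  refine exists_lim σ (fun N => ?_) (fun (n : ℕ) x => ee (n • x)) (fun n => by fun_prop)
    (fun n => (c n : ℂ)) fun n => ?_
  · haveI : IsFiniteMeasure (σ N) :=
      isFiniteMeasure_withDensity_ofReal (rint (Complex.continuous_re.comp (hDc N)) _).2
    have h := hσ N 0
    simp only [zero_smul, ee_zero, integral_const, Complex.real_smul, mul_one, Nat.sub_zero] at h
    have h2 : (σ N).real Set.univ = N * c 0 / N := by exact_mod_cast h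
    rw [← ENNReal.toReal_le_toReal (measure_ne_top _ _) ENNReal.one_ne_top]
    change (σ N).real Set.univ ≤ 1
    rw [h2]
    refine div_le_one_of_le₀ ?_ (Nat.cast_nonneg _)
    exact mul_le_of_le_one_right (Nat.cast_nonneg _) hc0
  · simp only [hσ]
    have h1 : Tendsto (fun N : ℕ => (1 - (n : ℂ) / N) * c n) atTop (𝓝 ((1 - 0) * c n)) :=
      ((tendsto_const_div_atTop_nhds_zero_nat (n : ℂ)).const_sub 1).mul_const _
    rw [sub_zero, one_mul] at h1
    refine h1.congr' ?_
    filter_upwards [eventually_gt_atTop n] with N hN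
    have hN' : (N : ℂ) ≠ 0 := by exact_mod_cast (by omega : N ≠ 0)
    rw [Nat.cast_sub hN.le]
    field_simp

lemma rot_measure {ι : Type*} [Fintype ι] (α : ι → TT) :
    ∃ ν : Measure (ι → TT), IsProbabilityMeasure ν ∧
      ∀ k, ∫ y, ch k y ∂ν = if lc α k = 0 then 1 else 0 := by
  obtain ⟨ν, hν, h⟩ := exists_lim
    (fun N : ℕ => (N : ℝ≥0∞)⁻¹ • ∑ i ∈ range N, Measure.dirac (i • α))
    (fun N => by simp) (fun k : ι →₀ ℤ => ch k) cont_ch
    (fun k => if lc α k = 0 then 1 else 0) fun k => by
      refine (K_lim (lc α k)).congr fun N => ?_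
      rw [integral_smul_measure, integral_finset_sum_measure fun i _ => cint (cont_ch k) _]
      simp only [integral_dirac, ENNReal.toReal_inv, ENNReal.toReal_natCast, K, ch, lc_nsmul,
        Complex.real_smul]
      push_cast
      ring
  exact ⟨ν, prob_of ν (by simpa using h 0), h⟩

/-- Haar measure on the countable power of the circle. -/
noncomputable def haar : Measure (ℕ → TT) := Measure.infinitePi fun _ => (volume : Measure TT)

instance : IsProbabilityMeasure haar := by unfold haar; infer_instance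

lemma haar_ch (p : ℕ →₀ ℤ) : ∫ u, ch p u ∂haar = if p = 0 then 1 else 0 := by
  split_ifs with hp
  · simp [hp]
  obtain ⟨i, hi⟩ : ∃ i, p i ≠ 0 := by
    by_contra h
    push Not at h
    exact hp (Finsupp.ext h)
  let v : ℕ → TT := Pi.single i ((1 / (2 * p i) : ℝ) : TT)
  have h1 : haar.map (fun u j => u j + v j) = haar := by
    unfold haar
    rw [Measure.infinitePi_map_pi _ (f := fun j x => x + v j) fun j => by fun_prop]
    simp only [map_add_right_eq_self]
  have h2 : ch p v = -1 := by
    simp only [ch, lc, v, Finsupp.linearCombination_single_index]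
    rw [← AddCircle.coe_zsmul, ee_coe]
    have : (p i : ℝ) ≠ 0 := by exact_mod_cast hi
    have e : 2 * Real.pi * (p i • (1 / (2 * (p i : ℝ)))) = Real.pi := by
      rw [zsmul_eq_mul]; field_simp
    rw [e, Complex.exp_pi_mul_I]
  have h3 : ∫ u, ch p u ∂haar = -∫ u, ch p u ∂haar := by
    conv_lhs => rw [← h1]
    rw [integral_map (Measurable.aemeasurable (by fun_prop)) (cont_ch p).aestronglyMeasurable,
      ← integral_neg]
    refine integral_congr_ae (Eventually.of_forall fun u => ?_)
    have := ch_rot p 1 u v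
    simp only [one_smul] at this
    change ch p (u + v) = _
    rw [this]
    change ch p u * ch p v = _
    rw [h2]; simp
  linear_combination h3 / 2

/-- trigonometric polynomial of a frequency vector. -/
noncomputable def psi (l : ℕ →₀ ℤ) (x : TT) : ℂ :=
  Finsupp.linearCombination ℤ (fun n : ℕ => ee (n • x)) l

@[fun_prop] lemma cont_psi (l : ℕ →₀ ℤ) : Continuous (psi l) := by
  unfold psi
  simp only [Finsupp.linearCombination_apply, Finsupp.sum]
  fun_prop

lemma psi_sub (l m : ℕ →₀ ℤ) (x : TT) : psi (l - m) x = psi l x - psi m x := by simp [psi]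

lemma psi_add (l m : ℕ →₀ ℤ) (x : TT) : psi (l + m) x = psi l x + psi m x := by simp [psi]

lemma psi_neg (l : ℕ →₀ ℤ) (x : TT) : psi (-l) x = -psi l x := by simp [psi]

lemma psi_single (n : ℕ) (x : TT) : psi (Finsupp.single n 1) x = ee (n • x) := by simp [psi]

lemma psi_sh (n : ℕ) (l : ℕ →₀ ℤ) (x : TT) : psi (sh n l) x = ee (n • x) * psi l x := by
  simp only [psi, sh, Finsupp.linearCombination_mapDomain]
  simp only [Finsupp.linearCombination_apply, Finsupp.sum, Function.comp_apply, add_smul, ee_add,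
    Finset.mul_sum, zsmul_eq_mul]
  exact sum_congr rfl fun i _ => by ring

/-- the quadratic form of a spectral measure. -/
noncomputable def Q (τ : Measure TT) (l : ℕ →₀ ℤ) : ℝ := ∫ x, ‖psi l x‖ ^ 2 ∂τ

lemma quad (τ : Measure TT) [IsFiniteMeasure τ] (N : ℕ) (v : Fin N → ℝ) :
    v ⬝ᵥ (Matrix.of fun a b : Fin N =>
      ∫ x, (ee ((a : ℕ) • x) * conj (ee ((b : ℕ) • x))).re ∂τ) *ᵥ v =
      ∫ x, ‖∑ a : Fin N, (v a : ℂ) * ee ((a : ℕ) • x)‖ ^ 2 ∂τ := by
  have e : ∀ x : TT, ‖∑ a : Fin N, (v a : ℂ) * ee ((a : ℕ) • x)‖ ^ 2 =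
      ∑ a : Fin N, ∑ b : Fin N,
        v a * ((ee ((a : ℕ) • x) * conj (ee ((b : ℕ) • x))).re * v b) := fun x => by
    rw [← Complex.ofReal_re (_ ^ 2)]
    push_cast
    rw [← Complex.mul_conj', map_sum, Finset.sum_mul_sum, Complex.re_sum]
    refine sum_congr rfl fun a _ => ?_
    rw [Complex.re_sum]
    refine sum_congr rfl fun b _ => ?_
    simp only [map_mul, Complex.conj_ofReal, Complex.mul_re, Complex.mul_im, Complex.ofReal_re,
      Complex.ofReal_im, Complex.conj_re, Complex.conj_im]
    ring
  rw [integral_congr_ae (Eventually.of_forall e),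
    integral_finset_sum _ fun a _ => rint (by fun_prop) _]
  simp only [dotProduct, mulVec, Matrix.of_apply, Finset.mul_sum]
  refine sum_congr rfl fun a _ => ?_
  rw [integral_finset_sum _ fun a _ => rint (by fun_prop) _]
  refine sum_congr rfl fun b _ => ?_
  rw [integral_const_mul, integral_mul_const]

lemma gauss (τ : Measure TT) [IsFiniteMeasure τ] :
    ∃ γ : Measure (ℕ → TT), IsProbabilityMeasure γ ∧
      ∀ l, ∫ w, ch l w ∂γ = (Real.exp (-Q τ l / 2) : ℂ) := by
  let S : (N : ℕ) → Matrix (Fin N) (Fin N) ℝ := fun N => Matrix.of fun a b : Fin N =>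
      ∫ x, (ee ((a : ℕ) • x) * conj (ee ((b : ℕ) • x))).re ∂τ
  have hS : ∀ N, (S N).PosSemidef := fun N => by
    refine .of_dotProduct_mulVec_nonneg ?_ fun v => ?_
    · ext a b
      simp only [S, conjTranspose_apply, Matrix.of_apply, star_trivial]
      refine integral_congr_ae (Eventually.of_forall fun x => ?_)
      simp only [Complex.mul_re, Complex.conj_re, Complex.conj_im]
      ring
    · rw [star_trivial, quad]
      exact integral_nonneg fun x => sq_nonneg _
  let emb : (N : ℕ) → EuclideanSpace ℝ (Fin N) → ℕ → TT := fun N v n =>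
    if h : n < N then ((v ⟨n, h⟩ / (2 * Real.pi) : ℝ) : TT) else 0
  have hemb : ∀ N, Continuous (emb N) := fun N => by
    refine continuous_pi fun n => ?_
    simp only [emb]
    split_ifs
    · exact (AddCircle.continuous_mk' 1).comp (by fun_prop)
    · exact continuous_const
  obtain ⟨γ, hγ, h⟩ := exists_lim
    (fun N : ℕ => (multivariateGaussian 0 (S N)).map (emb N))
    (fun N => by
      rw [Measure.map_apply (hemb N).measurable MeasurableSet.univ]; simp)
    (fun l : ℕ →₀ ℤ => ch l) cont_ch (fun l => (Real.exp (-Q τ l / 2) : ℂ)) fun l => by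
      refine tendsto_const_nhds.congr' ?_
      filter_upwards [eventually_gt_atTop (l.support.sup id)] with N hN
      have hl : l ∈ Finsupp.supported ℤ ℤ (↑(range N) : Set ℕ) := by
        intro n hn
        have : n ≤ l.support.sup id := Finset.le_sup (f := id) hn
        simp only [coe_range, Set.mem_Iio]
        omega
      let L : EuclideanSpace ℝ (Fin N) := WithLp.toLp 2 fun a => (l a : ℝ)
      have h1 := charFun_multivariateGaussian (μ := 0) (hS N) L
      rw [charFun_apply] at h1
      rw [integral_map (hemb N).measurable.aemeasurable (cont_ch l).aestronglyMeasurable]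
      have e : ∀ v, ch l (emb N v) = Complex.exp (⟪v, L⟫ * Complex.I) := fun v => by
        simp only [ch, lc]
        rw [Finsupp.linearCombination_apply_of_mem_supported _ hl, Finset.sum_range]
        simp only [emb, Fin.is_lt, dite_true, Fin.eta, ← AddCircle.coe_zsmul]
        rw [← QuotientAddGroup.mk_sum]
        erw [ee_coe]
        congr 3
        simp only [PiLp.inner_apply, L, Finset.mul_sum, zsmul_eq_mul]
        refine sum_congr rfl fun a _ => ?_
        simp only [conj_trivial, RCLike.inner_apply]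
        field_simp
      simp only [e, h1]
      have h2 : L.ofLp ⬝ᵥ S N *ᵥ L.ofLp = Q τ l := by
        rw [quad]
        refine integral_congr_ae (Eventually.of_forall fun x => ?_)
        simp only [psi]
        rw [Finsupp.linearCombination_apply_of_mem_supported _ hl, Finset.sum_range]
        simp [L]
      rw [h2]
      simp [neg_div]
  exact ⟨γ, prob_of γ (by simpa [Q, psi] using h 0), h⟩

end Pool.Agent.H98.Erg
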