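import Pool.Agent.H98.Erg2

set_option autoImplicit false

namespace Pool.Agent.H98.Erg

open Filter Topology MeasureTheory Finset ComplexConjugate ProbabilityTheory
open scoped ENNReal NNReal Classical

abbrev YY (ι : Type) := ((ι → TT) × (ℕ → TT)) × (ℕ → TT)

abbrev KK (ι : Type) := ((ι →₀ ℤ) × (ℕ →₀ ℤ)) × (ℕ →₀ ℤ)

variable {ι : Type} [Fintype ι]

instance scY : SecondCountableTopology (YY ι) := inferInstance

instance cmY : TopologicalSpace.IsCompletelyMetrizableSpace (YY ι) := inferInstance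

instance polY : PolishSpace (YY ι) := {}

instance borY : BorelSpace (YY ι) :=
  haveI : BorelSpace ((ι → TT) × (ℕ → TT)) := inferInstance
  haveI : SecondCountableTopology ((ι → TT) × (ℕ → TT)) := inferInstance
  haveI : BorelSpace (ℕ → TT) := inferInstance
  Prod.borelSpace

/-- rotation times shift times shift. -/
noncomputable def SS (α : ι → TT) (y : YY ι) : YY ι :=
  ((y.1.1 + α, fun i => y.1.2 (i + 1)), fun i => y.2 (i + 1))

omit [Fintype ι] in
lemma SS_iter (α : ι → TT) (n : ℕ) (y : YY ι) :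
    (SS α)^[n] y = ((y.1.1 + n • α, fun i => y.1.2 (i + n)), fun i => y.2 (i + n)) := by
  induction n with
  | zero => simp
  | succ n ih =>
    rw [Function.iterate_succ_apply', ih]
    simp only [SS, succ_nsmul, add_assoc, add_comm 1 n]

omit [Fintype ι] in
lemma cont_SS (α : ι → TT) : Continuous (SS α) := by unfold SS; fun_prop

/-- characters of the product group. -/
noncomputable def c3 (k : KK ι) (y : YY ι) : ℂ := (ch k.1.1 y.1.1 * ch k.1.2 y.1.2) * ch k.2 y.2

omit [Fintype ι] in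
lemma cont_c3 (k : KK ι) : Continuous (c3 k) := by unfold c3; fun_prop

omit [Fintype ι] in
lemma c3_iter (α : ι → TT) (k : KK ι) (n : ℕ) (y : YY ι) :
    c3 k ((SS α)^[n] y) = ee (n • lc α k.1.1) * c3 ((k.1.1, sh n k.1.2), sh n k.2) y := by
  simp only [SS_iter, c3, ch_rot, ch_shift]
  ring

lemma c3_sep (P P' : Measure (YY ι)) [IsFiniteMeasure P] [IsFiniteMeasure P']
    (h : ∀ k, ∫ y, c3 k y ∂P = ∫ y, c3 k y ∂P') : P = P' := by
  refine ext_fam c3 cont_c3 (fun y => by simp [c3]) (fun k l y => ?_) (fun k y => ?_)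
    (fun x y hxy => ?_) P P' h
  · simp only [c3, Prod.fst_add, Prod.snd_add, ch_add]; ring
  · simp only [c3, Prod.fst_neg, Prod.snd_neg, ch_neg, map_mul]
  · refine Prod.ext (Prod.ext (funext fun i => ?_) (funext fun i => ?_)) (funext fun i => ?_)
    · simpa [c3, ch_single] using ee_inj (by
        simpa [c3, ch_single] using hxy ((Finsupp.single i 1, 0), 0))
    · simpa [c3, ch_single] using ee_inj (by
        simpa [c3, ch_single] using hxy ((0, Finsupp.single i 1), 0))
    · simpa [c3, ch_single] using ee_inj (by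
        simpa [c3, ch_single] using hxy ((0, 0), Finsupp.single i 1))

lemma sh_inj (n : ℕ) : Function.Injective (sh n) :=
  Finsupp.mapDomain_injective (add_left_injective n)

lemma sh_eq_zero (n : ℕ) (p : ℕ →₀ ℤ) : sh n p = 0 ↔ p = 0 := by
  have : sh n 0 = 0 := by simp [sh]
  rw [← this, (sh_inj n).eq_iff, this]

lemma sh_lt {p : ℕ →₀ ℤ} (hp : p ≠ 0) {i j : ℕ} (h : i < j) : sh i p ≠ sh j p := by
  intro e
  have hex : ∃ n, p n ≠ 0 := by
    by_contra h
    push Not at h
    exact hp (Finsupp.ext h)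
  have h1 : sh i p (Nat.find hex + i) = p (Nat.find hex) :=
    Finsupp.mapDomain_apply (add_left_injective i) p _
  have h2 : Nat.find hex + i ∈ (sh j p).support := by
    rw [Finsupp.mem_support_iff, ← e, h1]; exact Nat.find_spec hex
  obtain ⟨m, hm, hm'⟩ := Finset.mem_image.1 (Finsupp.mapDomain_support h2)
  exact Nat.find_min hex (show m < Nat.find hex by omega) (Finsupp.mem_support_iff.1 hm)

lemma sh_eq {p : ℕ →₀ ℤ} (hp : p ≠ 0) (i j : ℕ) : sh i p - sh j p = 0 ↔ i = j := by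
  rw [sub_eq_zero]
  refine ⟨fun h => ?_, fun h => by rw [h]⟩
  rcases lt_trichotomy i j with h1 | h1 | h1
  · exact absurd h (sh_lt hp h1)
  · exact h1
  · exact absurd h.symm (sh_lt hp h1)

lemma Q_sh (τ : Measure TT) (n : ℕ) (l : ℕ →₀ ℤ) : Q τ (sh n l) = Q τ l := by
  simp [Q, psi_sh]

lemma Q_nonneg (τ : Measure TT) (l : ℕ →₀ ℤ) : 0 ≤ Q τ l :=
  integral_nonneg fun _ => sq_nonneg _

lemma integral_re_C {Y : Type*} [MeasurableSpace Y] [TopologicalSpace Y] [PolishSpace Y]
    [BorelSpace Y] [CompactSpace Y] (μ : Measure Y) [IsFiniteMeasure μ] {f : Y → ℂ}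
    (hf : Continuous f) : ∫ x, (f x).re ∂μ = (∫ x, f x ∂μ).re :=
  integral_re (cint hf μ)

lemma integral_im_C {Y : Type*} [MeasurableSpace Y] [TopologicalSpace Y] [PolishSpace Y]
    [BorelSpace Y] [CompactSpace Y] (μ : Measure Y) [IsFiniteMeasure μ] {f : Y → ℂ}
    (hf : Continuous f) : ∫ x, (f x).im ∂μ = (∫ x, f x ∂μ).im :=
  integral_im (cint hf μ)

lemma Q_diff (τ : Measure TT) [IsFiniteMeasure τ] (i j : ℕ) (l : ℕ →₀ ℤ) :
    -Q τ (sh i l - sh j l) / 2 - -Q τ l =
      (∫ x, ((‖psi l x‖ ^ 2 : ℝ) : ℂ) * (ee (i • x) * conj (ee (j • x))) ∂τ).re := by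
  rw [← integral_re_C τ (by fun_prop)]
  have e : ∀ x : TT, (((‖psi l x‖ ^ 2 : ℝ) : ℂ) * (ee (i • x) * conj (ee (j • x)))).re =
      ‖psi l x‖ ^ 2 - ‖psi (sh i l - sh j l) x‖ ^ 2 / 2 := fun x => by
    rw [psi_sub, psi_sh, psi_sh, ← sub_mul, norm_mul, mul_pow, Complex.re_ofReal_mul,
      Complex.sq_norm (_ - _), Complex.normSq_sub, Complex.normSq_eq_norm_sq,
      Complex.normSq_eq_norm_sq, norm_ee, norm_ee]
    ring
  rw [integral_congr_ae (Eventually.of_forall e),
    integral_sub (rint (by fun_prop) _) (rint (by fun_prop) _), integral_div]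
  simp only [Q]
  ring

lemma exp_lip {a b : ℝ} (ha : a ≤ 0) (hb : b ≤ 0) : |Real.exp a - Real.exp b| ≤ |a - b| := by
  wlog h : a ≤ b generalizing a b
  · rw [abs_sub_comm, abs_sub_comm a]; exact this hb ha (not_le.1 h).le
  rw [abs_sub_comm, abs_sub_comm a, abs_of_nonneg (sub_nonneg.2 (Real.exp_le_exp.2 h)),
    abs_of_nonneg (sub_nonneg.2 h)]
  have h1 : Real.exp a = Real.exp b * Real.exp (a - b) := by rw [← Real.exp_add]; congr 1; ring
  have h2 := Real.add_one_le_exp (a - b)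
  have h3 : Real.exp b ≤ 1 := Real.exp_le_one_iff.2 hb
  have h4 := Real.exp_pos b
  nlinarith

lemma avg_lim {b : ℕ → ℕ → ℝ}
    (h : Tendsto (fun N : ℕ => (∑ i ∈ range N, ∑ j ∈ range N, b i j ^ 2) / (N : ℝ) ^ 2) atTop
      (𝓝 0)) :
    Tendsto (fun N : ℕ => (∑ i ∈ range N, ∑ j ∈ range N, b i j) / (N : ℝ) ^ 2) atTop (𝓝 0) := by
  have h1 := (Real.continuous_sqrt.tendsto _).comp h
  rw [Real.sqrt_zero] at h1
  refine squeeze_zero_norm (fun N => ?_) h1
  refine Real.abs_le_sqrt ?_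
  rcases Nat.eq_zero_or_pos N with rfl | hN
  · simp
  have h2 := sq_sum_le_card_mul_sum_sq (s := range N ×ˢ range N) (f := fun p => b p.1 p.2)
  rw [sum_product', sum_product' (f := fun i j => b i j ^ 2), card_product, card_range] at h2
  push_cast at h2
  have hN' : (0 : ℝ) < N := by exact_mod_cast hN
  rw [div_pow, div_le_div_iff₀ (by positivity) (by positivity)]
  nlinarith [mul_le_mul_of_nonneg_right h2 (sq_nonneg (N : ℝ))]

section sys

variable {α : ι → TT} {τ : Measure TT} {ν₁ : Measure (ι → TT)} {γ : Measure (ℕ → TT)}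
  [IsProbabilityMeasure ν₁] [IsProbabilityMeasure γ]

lemma int_c3 (h₁ : ∀ k, ∫ y, ch k y ∂ν₁ = if lc α k = 0 then 1 else 0)
    (h₂ : ∀ l, ∫ w, ch l w ∂γ = (Real.exp (-Q τ l / 2) : ℂ)) (k : KK ι) :
    ∫ y, c3 k y ∂((ν₁.prod γ).prod haar) = (if lc α k.1.1 = 0 then 1 else 0) *
      (Real.exp (-Q τ k.1.2 / 2) : ℂ) * (if k.2 = 0 then 1 else 0) := by
  simp only [c3]
  rw [integral_prod_mul (fun z : (ι → TT) × (ℕ → TT) => ch k.1.1 z.1 * ch k.1.2 z.2) (ch k.2),
    integral_prod_mul, h₁, h₂, haar_ch]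

lemma mp_SS (h₁ : ∀ k, ∫ y, ch k y ∂ν₁ = if lc α k = 0 then 1 else 0)
    (h₂ : ∀ l, ∫ w, ch l w ∂γ = (Real.exp (-Q τ l / 2) : ℂ)) :
    MeasurePreserving (SS α) ((ν₁.prod γ).prod haar) ((ν₁.prod γ).prod haar) := by
  refine ⟨(cont_SS α).measurable, c3_sep _ _ fun k => ?_⟩
  rw [integral_map (cont_SS α).measurable.aemeasurable (cont_c3 k).aestronglyMeasurable]
  have := c3_iter α k 1
  simp only [Function.iterate_one] at this
  simp only [this, integral_const_mul, int_c3 h₁ h₂, Q_sh, sh_eq_zero]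
  split_ifs with h <;> simp [h]

lemma erg_SS [IsFiniteMeasure τ] [NullSingletonClass τ]
    (h₁ : ∀ k, ∫ y, ch k y ∂ν₁ = if lc α k = 0 then 1 else 0)
    (h₂ : ∀ l, ∫ w, ch l w ∂γ = (Real.exp (-Q τ l / 2) : ℂ))
    {E : Set (YY ι)} (hE : MeasurableSet E) (hi : SS α ⁻¹' E = E) :
    ((ν₁.prod γ).prod haar) E = 0 ∨ ((ν₁.prod γ).prod haar) E = 1 := by
  refine erg_of_avg c3 cont_c3 (fun P P' _ _ => c3_sep P P') _ (cont_SS α) (mp_SS h₁ h₂)
    (fun k => ?_) hE hi
  obtain ⟨⟨k, l⟩, p⟩ := k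
  have hc : ∀ i j : ℕ, ∫ y, c3 ((k, l), p) ((SS α)^[i] y) * conj (c3 ((k, l), p) ((SS α)^[j] y))
      ∂((ν₁.prod γ).prod haar) = ee (i • lc α k) * conj (ee (j • lc α k)) *
        ((Real.exp (-Q τ (sh i l - sh j l) / 2) : ℂ) *
          (if sh i p - sh j p = 0 then 1 else 0)) := fun i j => by
    have h3 := int_c3 h₁ h₂ ((0, sh i l - sh j l), sh i p - sh j p)
    simp only [map_zero, if_true, one_mul] at h3
    rw [← h3, ← integral_const_mul]
    refine integral_congr_ae (Eventually.of_forall fun y => ?_)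
    simp only [c3_iter]
    simp only [c3, ch_sub, ch_zero, map_mul]
    have := ee_mul_conj (lc y.1.1 k)
    change ch k y.1.1 * conj (ch k y.1.1) = 1 at this
    linear_combination (ee (i • lc α k) * conj (ee (j • lc α k)) *
      (ch (sh i l) y.1.2 * conj (ch (sh j l) y.1.2)) *
      (ch (sh i p) y.2 * conj (ch (sh j p) y.2))) * this
  simp only [hc, int_c3 h₁ h₂]
  by_cases hp : p = 0
  · subst hp
    simp only [sh, Finsupp.mapDomain_zero, sub_self, if_true, mul_one]
    simp only [← sh.eq_1]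
    have h4 := K_lim (lc α k)
    have h5 := (h4.mul ((Complex.continuous_conj.tendsto _).comp h4)).mul_const
      (Real.exp (-Q τ l) : ℂ)
    have e : (if lc α k = 0 then (1 : ℂ) else 0) * (Real.exp (-Q τ l / 2) : ℂ) *
        conj ((if lc α k = 0 then (1 : ℂ) else 0) * (Real.exp (-Q τ l / 2) : ℂ)) =
        (if lc α k = 0 then (1 : ℂ) else 0) * conj (if lc α k = 0 then (1 : ℂ) else 0) *
          (Real.exp (-Q τ l) : ℂ) := by
      have : Real.exp (-Q τ l) = Real.exp (-Q τ l / 2) * Real.exp (-Q τ l / 2) := by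
        rw [← Real.exp_add]; congr 1; ring
      rw [this, map_mul, Complex.conj_ofReal, Complex.ofReal_mul]
      ring
    rw [e]
    refine h5.congr_dist ?_
    refine squeeze_zero (fun N => dist_nonneg) (fun N => ?_)
      (avg_lim (wiener τ (w := fun x => ‖psi l x‖ ^ 2) (by fun_prop)))
    simp only [Function.comp_apply]
    rw [← K_sq, dist_eq_norm, div_mul_eq_mul_div, ← sub_div, norm_div, norm_pow,
      Complex.norm_natCast]
    gcongr
    simp only [Finset.sum_mul, ← sum_sub_distrib, ← mul_sub]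
    refine (norm_sum_le _ _).trans (sum_le_sum fun i _ => (norm_sum_le _ _).trans
      (sum_le_sum fun j _ => ?_))
    rw [norm_mul, norm_mul, Complex.norm_conj, norm_ee, norm_ee, one_mul, one_mul,
      ← Complex.ofReal_sub, Complex.norm_real, Real.norm_eq_abs, abs_sub_comm]
    refine (exp_lip ?_ ?_).trans ?_
    · have := Q_nonneg τ (sh i l - sh j l); linarith
    · have := Q_nonneg τ l; linarith
    · rw [Q_diff]; exact Complex.abs_re_le_norm _
  · simp only [sh_eq hp, if_neg hp, mul_zero, zero_mul, mul_ite, mul_one, sum_ite_eq]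
    refine (tendsto_const_div_atTop_nhds_zero_nat (1 : ℂ)).congr' ?_
    filter_upwards [eventually_gt_atTop 0] with N hN
    have hN' : (N : ℂ) ≠ 0 := by exact_mod_cast hN.ne'
    rw [sum_congr rfl (g := fun _ => (1 : ℂ)) fun i hi => by
      simp [hi, ee_mul_conj, Q, psi]]
    simp only [sum_const, card_range, nsmul_eq_mul, mul_one]
    field_simp

end sys

end Pool.Agent.H98.Erg
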