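import Pool.Agent.H98.Erg3

set_option autoImplicit false

namespace Pool.Agent.H98.Erg

open Filter Topology MeasureTheory Finset ComplexConjugate ProbabilityTheory
open scoped ENNReal NNReal Classical

lemma ball_vol {r : ℝ} (h1 : r ≤ 1) :
    (volume : Measure TT) {u | ‖u‖ ≤ r / 2} = ENNReal.ofReal r := by
  have : {u : TT | ‖u‖ ≤ r / 2} = Metric.closedBall 0 (r / 2) := by ext u; simp
  rw [this, AddCircle.volume_closedBall, min_eq_right (by linarith)]
  congr 1; ring

lemma ball_meas (r : ℝ) : MeasurableSet {u : TT | ‖u‖ ≤ r} :=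
  (isClosed_le (by fun_prop) (by fun_prop)).measurableSet

section sets

variable {Z : Type*} [MeasurableSpace Z] [TopologicalSpace Z] [PolishSpace Z] [BorelSpace Z]
  [CompactSpace Z] (P : Measure Z) [IsProbabilityMeasure P]

lemma set_one {g : Z → ℝ} (hg : Continuous g) (h0 : ∀ z, 0 ≤ g z) (h1 : ∀ z, g z ≤ 1) :
    (P.prod haar).real {y | ‖y.2 0‖ ≤ g y.1 / 2} = ∫ z, g z ∂P := by
  have hm : MeasurableSet {y : Z × (ℕ → TT) | ‖y.2 0‖ ≤ g y.1 / 2} :=
    measurableSet_le (by fun_prop) (by have := hg.measurable; fun_prop)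
  rw [Measure.real, Measure.prod_apply hm,
    integral_eq_lintegral_of_nonneg_ae (Eventually.of_forall h0) hg.aestronglyMeasurable]
  congr 1
  refine lintegral_congr fun z => ?_
  rw [← ball_vol (h1 z), ← (measurePreserving_eval_infinitePi
    (fun _ : ℕ => (volume : Measure TT)) 0).measure_preimage (ball_meas _).nullMeasurableSet]
  rfl

lemma set_two {g g' : Z → ℝ} (hg : Continuous g) (h0 : ∀ z, 0 ≤ g z) (h1 : ∀ z, g z ≤ 1)
    (hg' : Continuous g') (h0' : ∀ z, 0 ≤ g' z) (h1' : ∀ z, g' z ≤ 1) {n : ℕ} (hn : n ≠ 0) :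
    (P.prod haar).real {y | ‖y.2 0‖ ≤ g y.1 / 2 ∧ ‖y.2 n‖ ≤ g' y.1 / 2} =
      ∫ z, g z * g' z ∂P := by
  have hm : MeasurableSet {y : Z × (ℕ → TT) | ‖y.2 0‖ ≤ g y.1 / 2 ∧ ‖y.2 n‖ ≤ g' y.1 / 2} :=
    (measurableSet_le (f := fun y : Z × (ℕ → TT) => ‖y.2 0‖) (g := fun y => g y.1 / 2)
      (by fun_prop) (by have := hg.measurable; fun_prop)).inter
      (measurableSet_le (f := fun y : Z × (ℕ → TT) => ‖y.2 n‖) (g := fun y => g' y.1 / 2)
        (by fun_prop) (by have := hg'.measurable; fun_prop))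
  rw [Measure.real, Measure.prod_apply hm, integral_eq_lintegral_of_nonneg_ae
    (Eventually.of_forall fun z => mul_nonneg (h0 z) (h0' z)) (hg.mul hg').aestronglyMeasurable]
  congr 1
  refine lintegral_congr fun z => ?_
  rw [ENNReal.ofReal_mul (h0 z), ← ball_vol (h1 z), ← ball_vol (h1' z), ← Measure.prod_prod,
    ← Measure.infinitePi_map_eval_prod (P := fun _ : ℕ => (volume : Measure TT)) hn.symm,
    Measure.map_apply (by fun_prop) ((ball_meas _).prod (ball_meas _))]
  rfl

variable {W : Type*} [MeasurableSpace W] [TopologicalSpace W] [PolishSpace W] [BorelSpace W]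
  [CompactSpace W] (P' : Measure W) [IsProbabilityMeasure P']

lemma prod_corr (η : ℝ) {a a' : Z → ℝ} {b b' : W → ℝ} (ha : Continuous a) (ha' : Continuous a')
    (hb : Continuous b) (hb' : Continuous b') (ma : ∫ z, a z ∂P = 0) (ma' : ∫ z, a' z ∂P = 0)
    (mb : ∫ z, b z ∂P' = 0) (mb' : ∫ z, b' z ∂P' = 0) :
    ∫ y, (1 / 2 + η * (a y.1 + b y.2)) * (1 / 2 + η * (a' y.1 + b' y.2)) ∂(P.prod P') =
      1 / 4 + η ^ 2 * (∫ z, a z * a' z ∂P + ∫ z, b z * b' z ∂P') := by
  rw [integral_prod _ (rint (by fun_prop) _)]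
  have e : ∀ z, ∫ w, (1 / 2 + η * (a z + b w)) * (1 / 2 + η * (a' z + b' w)) ∂P' =
      (1 / 4 + η ^ 2 * ∫ z, b z * b' z ∂P') + (η / 2 * a z + (η / 2 * a' z +
        η ^ 2 * (a z * a' z))) := fun z => by
    have e2 : ∀ w, (1 / 2 + η * (a z + b w)) * (1 / 2 + η * (a' z + b' w)) =
        (1 / 2 + η * a z) * (1 / 2 + η * a' z) + ((η * (1 / 2 + η * a' z)) * b w +
          ((η * (1 / 2 + η * a z)) * b' w + η ^ 2 * (b w * b' w))) := fun w => by ring
    simp only [e2]
    rw [integral_add (rint (by fun_prop) _) (rint (by fun_prop) _),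
      integral_add (rint (by fun_prop) _) (rint (by fun_prop) _),
      integral_add (rint (by fun_prop) _) (rint (by fun_prop) _)]
    simp only [integral_const_mul, mb, mb', integral_const, probReal_univ, one_smul]
    ring
  simp only [e]
  generalize ∫ z, b z * b' z ∂P' = J
  rw [integral_add (rint (by fun_prop) _) (rint (by fun_prop) _), integral_const,
    integral_add (rint (by fun_prop) _) (rint (by fun_prop) _),
    integral_add (rint (by fun_prop) _) (rint (by fun_prop) _)]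
  simp only [integral_const_mul, ma, ma', integral_const, probReal_univ, one_smul]
  ring

lemma prod_mean (η : ℝ) {a : Z → ℝ} {b : W → ℝ} (ha : Continuous a)
    (hb : Continuous b) (ma : ∫ z, a z ∂P = 0) (mb : ∫ z, b z ∂P' = 0) :
    ∫ y, (1 / 2 + η * (a y.1 + b y.2)) ∂(P.prod P') = 1 / 2 := by
  rw [integral_add (rint (by fun_prop) _) (rint (by fun_prop) _), integral_const_mul,
    integral_add (rint (by fun_prop) _) (rint (by fun_prop) _), integral_fun_fst, integral_fun_snd]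
  simp [ma, mb]

end sets

variable {ι : Type} [Fintype ι]

/-- almost periodic observable. -/
noncomputable def h1 (s : ι → ℝ) (θ : ι → TT) : ℝ :=
  ∑ a, √(s a) * ((ee (θ a)).re - (ee (θ a)).im)

@[fun_prop] lemma cont_h1 (s : ι → ℝ) : Continuous (h1 s) := by unfold h1; fun_prop

lemma abs_h1 (s : ι → ℝ) (θ : ι → TT) : |h1 s θ| ≤ ∑ a, 2 * √(s a) := by
  refine (abs_sum_le_sum_abs _ _).trans (sum_le_sum fun a _ => ?_)
  rw [abs_mul, abs_of_nonneg (Real.sqrt_nonneg _), mul_comm]
  refine mul_le_mul_of_nonneg_right ((abs_sub _ _).trans ?_) (Real.sqrt_nonneg _)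
  have h2 := Complex.abs_re_le_norm (ee (θ a))
  have h3 := Complex.abs_im_le_norm (ee (θ a))
  rw [norm_ee] at h2 h3
  linarith

section rot

variable {α : ι → TT} {ν₁ : Measure (ι → TT)} [IsProbabilityMeasure ν₁]
  (h₁ : ∀ k, ∫ y, ch k y ∂ν₁ = if lc α k = 0 then 1 else 0)
include h₁

lemma h1_mean (h0 : ∀ a, α a ≠ 0) (s : ι → ℝ) (n : ℕ) : ∫ θ, h1 s (θ + n • α) ∂ν₁ = 0 := by
  simp only [h1]
  rw [integral_finset_sum _ fun a _ => rint (by fun_prop) _]
  refine sum_eq_zero fun a _ => ?_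
  have h2 : ∫ θ, ee ((θ + n • α) a) ∂ν₁ = 0 := by
    have h3 := h₁ (Finsupp.single a 1)
    simp only [ch_single, lc, Finsupp.linearCombination_single, one_smul, h0 a, if_false] at h3
    simp only [Pi.add_apply, ee_add, integral_mul_const, h3, zero_mul]
  rw [integral_const_mul, integral_sub (rint (by fun_prop) _) (rint (by fun_prop) _),
    integral_re_C _ (by fun_prop), integral_im_C _ (by fun_prop), h2]
  simp

lemma h1_corr (hinj : Function.Injective α) {s : ι → ℝ} (hs : ∀ a, 0 ≤ s a) (n : ℕ) :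
    ∫ θ, h1 s θ * h1 s (θ + n • α) ∂ν₁ = ∑ a, s a * (ee (n • α a)).re := by
  have e : ∀ a b, ∫ θ, √(s a) * ((ee (θ a)).re - (ee (θ a)).im) *
      (√(s b) * ((ee ((θ + n • α) b)).re - (ee ((θ + n • α) b)).im)) ∂ν₁ =
      (if a = b then s a * (ee (n • α a)).re else 0) -
        (if α a + α b = 0 then √(s a) * √(s b) * (ee (n • α b)).im else 0) := fun a b => by
    have e1 : ∀ θ : ι → TT, √(s a) * ((ee (θ a)).re - (ee (θ a)).im) *
        (√(s b) * ((ee ((θ + n • α) b)).re - (ee ((θ + n • α) b)).im)) = √(s a) * √(s b) *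
        ((ch (Finsupp.single a 1 - Finsupp.single b 1) θ * conj (ee (n • α b))).re -
          (ch (Finsupp.single a 1 + Finsupp.single b 1) θ * ee (n • α b)).im) := fun θ => by
      simp only [ch_sub, ch_add, ch_single, Pi.add_apply, Pi.smul_apply, ee_add, Complex.mul_re,
        Complex.mul_im, Complex.conj_re, Complex.conj_im]
      ring
    simp only [e1]
    rw [integral_const_mul, integral_sub (rint (by fun_prop) _) (rint (by fun_prop) _),
      integral_re_C _ (by fun_prop), integral_im_C _ (by fun_prop), integral_mul_const,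
      integral_mul_const, h₁, h₁]
    simp only [lc, map_sub, map_add, Finsupp.linearCombination_single, one_smul, sub_eq_zero,
      hinj.eq_iff, mul_sub]
    congr 1
    · split_ifs with h
      · subst h; simp [Real.mul_self_sqrt (hs a)]
      · simp
    · split_ifs <;> simp
  simp only [h1, Finset.sum_mul_sum]
  rw [integral_finset_sum _ fun a _ => rint (by fun_prop) _]
  rw [sum_congr rfl fun a _ => integral_finset_sum _ fun b _ => rint (by fun_prop) _]
  simp only [e, sum_sub_distrib, sum_ite_eq, mem_univ, if_true]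
  have hz : ∑ a, ∑ b, (if α a + α b = 0 then √(s a) * √(s b) * (ee (n • α b)).im else 0) =
      -∑ a, ∑ b, (if α a + α b = 0 then √(s a) * √(s b) * (ee (n • α b)).im else 0) := by
    conv_rhs => rw [sum_comm]
    simp only [← sum_neg_distrib]
    refine sum_congr rfl fun a _ => sum_congr rfl fun b _ => ?_
    rw [add_comm (α b)]
    split_ifs with h
    · rw [eq_neg_of_add_eq_zero_left h, smul_neg, ee_neg, Complex.conj_im]; ring
    · simp
  linarith

end rot

section gau

variable {τ : Measure TT} [IsFiniteMeasure τ] {γ : Measure (ℕ → TT)} [IsProbabilityMeasure γ]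
  (h₂ : ∀ l, ∫ w, ch l w ∂γ = (Real.exp (-Q τ l / 2) : ℂ))
include h₂

omit [IsFiniteMeasure τ] in
lemma h2_mean (n : ℕ) : ∫ w, (ee (w n)).im ∂γ = 0 := by
  rw [integral_im_C _ (by fun_prop)]
  simp only [← ch_single, h₂, Complex.ofReal_im]

lemma h2_corr (n : ℕ) : ∫ w, (ee (w 0)).im * (ee (w n)).im ∂γ =
    Real.exp (-τ.real Set.univ) * Real.sinh (∫ x, (ee (n • x)).re ∂τ) := by
  have e1 : ∀ w : ℕ → TT, (ee (w 0)).im * (ee (w n)).im =
      ((ch (Finsupp.single 0 1 - Finsupp.single n 1) w).re -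
        (ch (Finsupp.single 0 1 + Finsupp.single n 1) w).re) / 2 := fun w => by
    simp only [ch_sub, ch_add, ch_single, Complex.mul_re, Complex.conj_re, Complex.conj_im]
    ring
  have q1 : Q τ (Finsupp.single 0 1 - Finsupp.single n 1) =
      2 * τ.real Set.univ - 2 * ∫ x, (ee (n • x)).re ∂τ := by
    have e : ∀ x : TT, ‖psi (Finsupp.single 0 1 - Finsupp.single n 1) x‖ ^ 2 =
        2 - 2 * (ee (n • x)).re := fun x => by
      rw [psi_sub, psi_single, psi_single, Complex.sq_norm, Complex.normSq_sub,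
        Complex.normSq_eq_norm_sq, Complex.normSq_eq_norm_sq, norm_ee, norm_ee]
      simp; ring
    simp only [Q, e]
    rw [integral_sub (rint (by fun_prop) _) (rint (by fun_prop) _), integral_const_mul]
    simp [mul_comm]
  have q2 : Q τ (Finsupp.single 0 1 + Finsupp.single n 1) =
      2 * τ.real Set.univ + 2 * ∫ x, (ee (n • x)).re ∂τ := by
    have e : ∀ x : TT, ‖psi (Finsupp.single 0 1 + Finsupp.single n 1) x‖ ^ 2 =
        2 + 2 * (ee (n • x)).re := fun x => by
      rw [psi_add, psi_single, psi_single, Complex.sq_norm, Complex.normSq_add,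
        Complex.normSq_eq_norm_sq, Complex.normSq_eq_norm_sq, norm_ee, norm_ee]
      simp; ring
    simp only [Q, e]
    rw [integral_add (rint (by fun_prop) _) (rint (by fun_prop) _), integral_const_mul]
    simp [mul_comm]
  simp only [e1]
  rw [integral_div, integral_sub (rint (by fun_prop) _) (rint (by fun_prop) _),
    integral_re_C _ (by fun_prop), integral_re_C _ (by fun_prop), h₂, h₂, q1, q2,
    Complex.ofReal_re, Complex.ofReal_re, Real.sinh_eq, ← mul_div_assoc, mul_sub, ← Real.exp_add,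
    ← Real.exp_add]
  congr 3 <;> ring

end gau

theorem build (α : ι → TT) (hinj : Function.Injective α) (h0 : ∀ a, α a ≠ 0) (s : ι → ℝ)
    (hs : ∀ a, 0 ≤ s a) (τ : Measure TT) [IsFiniteMeasure τ] [NullSingletonClass τ] :
    ∃ (ν : Measure (YY ι)) (B : Set (YY ι)) (η : ℝ), IsProbabilityMeasure ν ∧
      MeasurePreserving (SS α) ν ν ∧
      (∀ E, MeasurableSet E → SS α ⁻¹' E = E → ν E = 0 ∨ ν E = 1) ∧ MeasurableSet B ∧ 0 < η ∧
      ν.real B = 1 / 2 ∧ ∀ n : ℕ, n ≠ 0 → ν.real (B ∩ (SS α)^[n] ⁻¹' B) = 1 / 4 + η ^ 2 *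
        (∑ a, s a * (ee (n • α a)).re +
          Real.exp (-τ.real Set.univ) * Real.sinh (∫ x, (ee (n • x)).re ∂τ)) := by
  obtain ⟨ν₁, hν₁, h₁⟩ := rot_measure α
  obtain ⟨γ, hγ, h₂⟩ := gauss τ
  set M : ℝ := ∑ a, 2 * √(s a) with hM
  have hM0 : 0 ≤ M := sum_nonneg fun a _ => by positivity
  set η : ℝ := 1 / (2 * (M + 1)) with hη
  have hη0 : 0 < η := by positivity
  let g : (ι → TT) × (ℕ → TT) → ℝ := fun z => 1 / 2 + η * (h1 s z.1 + (ee (z.2 0)).im)
  have hg : Continuous g := by simp only [g]; fun_prop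
  have hb : ∀ z, 0 ≤ g z ∧ g z ≤ 1 := fun z => by
    have h3 := abs_h1 s z.1
    have h4 := Complex.abs_im_le_norm (ee (z.2 0))
    rw [norm_ee] at h4
    have h5 : |η * (h1 s z.1 + (ee (z.2 0)).im)| ≤ 1 / 2 := by
      rw [abs_mul, abs_of_pos hη0]
      have h6 : η * (M + 1) = 1 / 2 := by rw [hη]; field_simp
      rw [← h6]
      exact mul_le_mul_of_nonneg_left ((abs_add_le _ _).trans (by linarith)) hη0.le
    have := abs_le.1 h5
    simp only [g]
    constructor <;> linarith
  have hm0 : ∫ θ, h1 s θ ∂ν₁ = 0 := by simpa using h1_mean h₁ h0 s 0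
  refine ⟨(ν₁.prod γ).prod haar, {y | ‖y.2 0‖ ≤ g y.1 / 2}, η, inferInstance, mp_SS h₁ h₂,
    fun E hE hi => erg_SS h₁ h₂ hE hi, ?_, hη0, ?_, fun n hn => ?_⟩
  · exact (isClosed_le (by fun_prop) (by fun_prop)).measurableSet
  · rw [set_one _ hg (fun z => (hb z).1) fun z => (hb z).2]
    exact prod_mean ν₁ γ η (cont_h1 s) (b := fun w => (ee (w 0)).im) (by fun_prop) hm0
      (h2_mean h₂ 0)
  · let g' : (ι → TT) × (ℕ → TT) → ℝ := fun z => g (z.1 + n • α, fun i => z.2 (i + n))
    have e : {y : YY ι | ‖y.2 0‖ ≤ g y.1 / 2} ∩ (SS α)^[n] ⁻¹' {y | ‖y.2 0‖ ≤ g y.1 / 2} =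
        {y | ‖y.2 0‖ ≤ g y.1 / 2 ∧ ‖y.2 n‖ ≤ g' y.1 / 2} := by
      ext y
      simp [SS_iter, g']
    rw [e, set_two _ hg (fun z => (hb z).1) (fun z => (hb z).2) (g' := g')
      (hg.comp (by fun_prop)) (fun z => (hb _).1) (fun z => (hb _).2) hn,
      ← h1_corr h₁ hinj hs, ← h2_corr h₂]
    simp only [g', g, zero_add]
    exact prod_corr ν₁ γ η (cont_h1 s) (a' := fun θ => h1 s (θ + n • α))
      (b := fun w => (ee (w 0)).im) (b' := fun w => (ee (w n)).im) (by fun_prop) (by fun_prop)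
      (by fun_prop) hm0 (h1_mean h₁ h0 s n) (h2_mean h₂ 0) (h2_mean h₂ n)

end Pool.Agent.H98.Erg
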