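import Mathlib

/-! Infinitely branching forests: closed sets, rays and bounded back-and-forth. -/

namespace Pool.Agent.H98.FP

open SimpleGraph Finset Classical

variable {V : Type*} {G : SimpleGraph V}

/-- Short paths between points of `A` stay in `A`. -/
def Cl (G : SimpleGraph V) (r : ℕ) (A : Finset V) : Prop :=
  ∀ u ∈ A, ∀ w ∈ A, ∀ p : G.Walk u w, p.IsPath → p.length ≤ r + 1 → ∀ x ∈ p.support, x ∈ A

def Far (G : SimpleGraph V) (r : ℕ) (A : Finset V) (a : V) : Prop :=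
  ∀ p ∈ A, ∀ w : G.Walk p a, r < w.length

lemma Cl.mono {r s : ℕ} {A : Finset V} (h : Cl G r A) (hs : s ≤ r) : Cl G s A :=
  fun u hu w hw p hp hl => h u hu w hw p hp (by omega)

lemma cl_ins {r : ℕ} {A : Finset V} {v : V} (h : Cl G r A)
    (H : ∀ w ∈ A, ∀ q : G.Walk v w, q.IsPath → q.length ≤ r + 1 → ∀ x ∈ q.support,
      x ∈ insert v A) : Cl G r (insert v A) := by
  intro u hu w hw q hq hl x hx
  rcases mem_insert.1 hu with rfl | gu <;> rcases mem_insert.1 hw with rfl | gw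
  · cases q with
    | nil => simp_all
    | cons h' q' => simp at hq
  · exact H w gw q hq hl x hx
  · exact H u gu q.reverse hq.reverse (by simpa) x (by simpa)
  · exact mem_insert_of_mem (h u gu w gw q hq hl x hx)

lemma cl_insert (hG : G.IsAcyclic) {r : ℕ} {A : Finset V} {p v : V} (h : Cl G (r + 1) A)
    (hp : p ∈ A) (ha : G.Adj p v) (hv : v ∉ A) : Cl G r (insert v A) := by
  refine cl_ins (h.mono (by omega)) fun w hw q hq hl x hx => ?_
  by_cases hs : p ∈ q.support
  · cases q with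
    | nil => simp_all
    | cons h' q' =>
      have := hG.eq_snd_of_adj_start hq ha.symm hs
      simp only [Walk.snd_cons] at this
      subst this
      rcases List.mem_cons.1 hx with rfl | hx
      · exact mem_insert_self _ _
      · exact mem_insert_of_mem (h _ hp w hw q' hq.of_cons (by simp at hl; omega) x hx)
  · exact absurd (h p hp w hw (.cons ha q) (hq.cons hs) (by simpa) v (by simp)) hv

lemma adj_uniq {r : ℕ} {A : Finset V} {p v w : V} (h : Cl G (r + 1) A) (hp : p ∈ A)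
    (ha : G.Adj p v) (hv : v ∉ A) (hw : w ∈ A) : G.Adj v w ↔ p = w := by
  refine ⟨fun h' => by_contra fun hne => hv ?_, fun h' => h' ▸ ha.symm⟩
  exact h p hp w hw (.cons ha (.cons h' .nil)) (by simp [ha.ne, h'.ne, hne]) (by simp) v (by simp)

/-- Isomorphism between the subgraphs induced on two closed finite sets. -/
structure Good (G : SimpleGraph V) (r : ℕ) (R : V → V → Prop) (A B : Finset V) : Prop where
  dom : ∀ a, a ∈ A ↔ ∃ b, R a b
  cod : ∀ b, b ∈ B ↔ ∃ a, R a b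
  eq : ∀ a b a' b', R a b → R a' b' → (a = a' ↔ b = b')
  adj : ∀ a b a' b', R a b → R a' b' → (G.Adj a a' ↔ G.Adj b b')
  cl : Cl G r A
  cr : Cl G r B

variable {R : V → V → Prop} {A B : Finset V} {r : ℕ}

lemma Good.mono {s : ℕ} (h : Good G r R A B) (hs : s ≤ r) : Good G s R A B :=
  ⟨h.dom, h.cod, h.eq, h.adj, h.cl.mono hs, h.cr.mono hs⟩

lemma Good.symm (h : Good G r R A B) : Good G r (flip R) B A :=
  ⟨h.cod, h.dom, fun _ _ _ _ h1 h2 => (h.eq _ _ _ _ h1 h2).symm,
    fun _ _ _ _ h1 h2 => (h.adj _ _ _ _ h1 h2).symm, h.cr, h.cl⟩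

lemma good_id (h : Cl G r A) : Good G r (fun a b => a ∈ A ∧ a = b) A A :=
  ⟨by simp, by simp, by rintro _ _ _ _ ⟨-, rfl⟩ ⟨-, rfl⟩; rfl,
    by rintro _ _ _ _ ⟨-, rfl⟩ ⟨-, rfl⟩; rfl, h, h⟩

lemma Good.ins {s : ℕ} (h : Good G s R A B) {a b : V} (ha : a ∉ A) (hb : b ∉ B)
    (hab : ∀ x y, R x y → (G.Adj a x ↔ G.Adj b y)) (h1 : Cl G r (insert a A))
    (h2 : Cl G r (insert b B)) :
    Good G r (fun x y => R x y ∨ x = a ∧ y = b) (insert a A) (insert b B) := by
  have hne : ∀ x y, R x y → (x = a ↔ y = b) := fun x y hxy =>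
    iff_of_false (fun e => ha (e ▸ (h.dom x).2 ⟨y, hxy⟩)) fun e => hb (e ▸ (h.cod y).2 ⟨x, hxy⟩)
  refine ⟨fun x => ?_, fun y => ?_, ?_, ?_, h1, h2⟩
  · simp [h.dom, exists_or, or_comm]
  · simp [h.cod, exists_or, or_comm]
  · rintro x y x' y' (g1 | ⟨rfl, rfl⟩) (g2 | ⟨rfl, rfl⟩)
    exacts [h.eq _ _ _ _ g1 g2, hne _ _ g1, eq_comm.trans ((hne _ _ g2).trans eq_comm), by simp]
  · rintro x y x' y' (g1 | ⟨rfl, rfl⟩) (g2 | ⟨rfl, rfl⟩)
    exacts [h.adj _ _ _ _ g1 g2, (G.adj_comm _ _).trans ((hab _ _ g1).trans (G.adj_comm _ _)),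
      hab _ _ g2, by simp]

lemma Good.step (hG : G.IsAcyclic) (h : Good G (r + 1) R A B) {p p' a b : V} (hp : R p p')
    (ha : G.Adj p a) (ha' : a ∉ A) (hb : G.Adj p' b) (hb' : b ∉ B) :
    Good G r (fun x y => R x y ∨ x = a ∧ y = b) (insert a A) (insert b B) := by
  have h1 := (h.dom p).2 ⟨_, hp⟩
  have h2 := (h.cod p').2 ⟨_, hp⟩
  refine h.ins ha' hb' (fun x y hxy => ?_) (cl_insert hG h.cl h1 ha ha') (cl_insert hG h.cr h2 hb hb')
  rw [adj_uniq h.cl h1 ha ha' ((h.dom x).2 ⟨_, hxy⟩), adj_uniq h.cr h2 hb hb' ((h.cod y).2 ⟨_, hxy⟩)]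
  exact h.eq _ _ _ _ hp hxy

lemma Good.far (h : Good G r R A B) {a b : V} (ha : Far G (r + 1) A a) (hb : Far G (r + 1) B b) :
    Good G r (fun x y => R x y ∨ x = a ∧ y = b) (insert a A) (insert b B) := by
  refine h.ins (fun h => by simpa using ha a h .nil) (fun h => by simpa using hb b h .nil)
    (fun x y hxy => iff_of_false (fun e => ?_) fun e => ?_)
    (cl_ins h.cl fun w hw q _ hl => absurd (ha w hw q.reverse) (by simpa))
    (cl_ins h.cr fun w hw q _ hl => absurd (hb w hw q.reverse) (by simpa))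
  · simpa using ha x ((h.dom x).2 ⟨_, hxy⟩) e.symm.toWalk
  · simpa using hb y ((h.cod y).2 ⟨_, hxy⟩) e.symm.toWalk

/-- A fresh ray of length `k` leaving `A` at `p`. -/
inductive Ray (G : SimpleGraph V) : Finset V → V → ℕ → V → Finset V → Prop
  | zero (A p) : Ray G A p 0 p A
  | succ {A p v k y C} : G.Adj p v → v ∉ A → Ray G (insert v A) v k y C → Ray G A p (k + 1) y C

lemma Good.ray (hG : G.IsAcyclic) {k : ℕ} {p p' y y' : V} {C C' : Finset V}
    (h : Good G (r + k) R A B) (hp : R p p') (h1 : Ray G A p k y C) (h2 : Ray G B p' k y' C') :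
    ∃ R', Good G r R' C C' ∧ R ≤ R' ∧ R' y y' := by
  induction h1 generalizing R B p' with
  | zero => cases h2; exact ⟨R, h, le_rfl, hp⟩
  | succ ha hv _ ih =>
    cases h2 with
    | succ hb hw h2 =>
      obtain ⟨R', h3, h4, h5⟩ := ih (h.step hG hp ha hv hb hw) (.inr ⟨rfl, rfl⟩) h2
      exact ⟨R', h3, fun _ _ h => h4 _ _ (.inl h), h5⟩

lemma Ray.mono {k : ℕ} {p y : V} {C : Finset V} (h : Ray G B p k y C) (hA : A ⊆ B) :
    ∃ C', Ray G A p k y C' := by
  induction h generalizing A with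
  | zero => exact ⟨_, .zero _ _⟩
  | succ ha hv _ ih =>
    obtain ⟨C', h⟩ := ih (insert_subset_insert _ hA)
    exact ⟨C', .succ ha (fun h => hv (hA h)) h⟩

lemma near_ray {a p : V} (hp : p ∈ A) (w : G.Walk p a) :
    ∃ q ∈ A, ∃ k ≤ w.length, ∃ C, Ray G A q k a C := by
  induction w generalizing A with
  | nil => exact ⟨_, hp, 0, le_rfl, _, .zero _ _⟩
  | @cons u v a h w ih =>
    by_cases hv : v ∈ A
    · obtain ⟨q, hq, k, hk, C, hC⟩ := ih hv
      exact ⟨q, hq, k, by simp; omega, C, hC⟩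
    · obtain ⟨q, hq, k, hk, C, hC⟩ := ih (mem_insert_self v A)
      rcases mem_insert.1 hq with rfl | hq
      · exact ⟨u, hp, k + 1, by simpa, C, .succ h hv hC⟩
      · obtain ⟨C', h'⟩ := hC.mono (subset_insert _ _)
        exact ⟨q, hq, k, by simp; omega, C', h'⟩

variable (hG : G.IsAcyclic) (hi : ∀ p (A : Finset V), ∃ v, G.Adj p v ∧ v ∉ A)
include hi

lemma ray_exists (k : ℕ) (A : Finset V) (p : V) :
    ∃ o : V × Finset V, Ray G A p k o.1 o.2 ∧ o.2.card ≤ A.card + k := by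
  induction k generalizing A p with
  | zero => exact ⟨(p, A), .zero _ _, le_rfl⟩
  | succ k ih =>
    obtain ⟨v, h1, h2⟩ := hi p A
    obtain ⟨o, h3, h4⟩ := ih (insert v A) v
    exact ⟨o, .succ h1 h2 h3, by have := card_insert_le v A; omega⟩

include hG

lemma far_exists [Nonempty V] (r : ℕ) (A : Finset V) : ∃ a, Far G r A a := by
  induction r with
  | zero =>
    obtain ⟨v, -, h⟩ := hi (Classical.arbitrary V) A
    exact ⟨v, fun p hp w => Nat.pos_of_ne_zero fun h0 => h (Walk.eq_of_length_eq_zero h0 ▸ hp)⟩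
  | succ r ih =>
    obtain ⟨b, hb⟩ := ih
    obtain ⟨v, h1, h2⟩ := hi b (A.image fun p => if h : G.Reachable b p then h.some.bypass.snd else b)
    refine ⟨v, fun p hp w => by_contra fun hl => ?_⟩
    have hq := w.reverse.bypass_isPath
    have hl' : w.reverse.bypass.length ≤ r + 1 :=
      (Walk.length_bypass_le _).trans (by simpa using hl)
    generalize w.reverse.bypass = q at hq hl'
    by_cases hs : b ∈ q.support
    · have := hb p hp (q.dropUntil b hs).reverse
      have h3 := congrArg Walk.length (q.take_spec hs)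
      have h4 : (q.takeUntil b hs).length ≠ 0 := fun h0 => h1.ne' (Walk.eq_of_length_eq_zero h0)
      simp only [Walk.length_append, Walk.length_reverse] at h3 this
      omega
    · have hr : G.Reachable b p := ⟨.cons h1 q⟩
      refine h2 (mem_image.2 ⟨p, hp, ?_⟩)
      have := hG.path_unique ⟨_, hr.some.bypass_isPath⟩ ⟨.cons h1 q, hq.cons hs⟩
      rw [dif_pos hr, Subtype.mk.inj this, Walk.snd_cons]

lemma ext [Nonempty V] (r : ℕ) (B : Finset V) : ∃ O : Finset (V × Finset V),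
    O.card ≤ (r + 2) * (B.card + 1) ∧ (∀ o ∈ O, o.2.card ≤ B.card + r + 1) ∧
    ∀ R A a, Good G (2 * r + 1) R A B → ∃ o ∈ O, ∃ R' A', Good G r R' A' o.2 ∧ R ≤ R' ∧ R' a o.1 := by
  choose f hf using fun x : V × ℕ => ray_exists hi x.2 B x.1
  obtain ⟨b, hb⟩ := far_exists hG hi (r + 1) B
  refine ⟨insert (b, insert b B) ((B ×ˢ range (r + 2)).image f), ?_, ?_, fun R A a h => ?_⟩
  · refine (card_insert_le _ _).trans ?_
    have := card_image_le (s := B ×ˢ range (r + 2)) (f := f)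
    rw [card_product, card_range] at this
    nlinarith
  · intro o ho
    rcases mem_insert.1 ho with rfl | ho
    · have := card_insert_le b B
      simp only; omega
    · obtain ⟨x, hx, rfl⟩ := mem_image.1 ho
      have := mem_range.1 (mem_product.1 hx).2
      have := (hf x).2
      omega
  by_cases ha : Far G (r + 1) A a
  · exact ⟨_, mem_insert_self _ _, _, _, (h.mono (by omega)).far ha hb, fun _ _ => .inl,
      .inr ⟨rfl, rfl⟩⟩
  simp only [Far, not_forall, not_lt] at ha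
  obtain ⟨p, hp, w, hw⟩ := ha
  obtain ⟨q, hq, k, hk, C, hC⟩ := near_ray hp w
  obtain ⟨q', hq'⟩ := (h.dom q).1 hq
  obtain ⟨R', h1, h2, h3⟩ := Good.ray (r := r) hG (h.mono (by omega)) hq' hC (hf (q', k)).1
  exact ⟨_, mem_insert_of_mem (mem_image_of_mem f (mem_product.2
    ⟨(h.cod _).2 ⟨_, hq'⟩, mem_range.2 (show k < r + 2 by omega)⟩)), R', C, h1, h2, h3⟩

end Pool.Agent.H98.FP
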