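import Mathlib
import Pool.Agent.H98.FP1

/-! Counting types and the back-and-forth lemma in infinitely branching forests. -/

namespace Pool.Agent.H98.FP

open SimpleGraph Finset Classical FirstOrder Language

variable {V : Type*} {G : SimpleGraph V}

/-- Joined by a walk inside `C`. -/
def J (G : SimpleGraph V) (C : Finset V) (u w : V) : Prop :=
  ∃ p : G.Walk u w, ∀ x ∈ p.support, x ∈ C

lemma J.symm {C : Finset V} {u w : V} (h : J G C u w) : J G C w u :=
  h.elim fun p hp => ⟨p.reverse, by simpa using hp⟩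

lemma J.trans {C : Finset V} {u v w : V} (h : J G C u v) (h' : J G C v w) : J G C u w :=
  h.elim fun p hp => h'.elim fun q hq => ⟨p.append q, fun x hx =>
    ((Walk.mem_support_append_iff p q).1 hx).elim (hp x) (hq x)⟩

lemma J.mono {C D : Finset V} {u w : V} (h : J G C u w) (hD : C ⊆ D) : J G D u w :=
  h.elim fun p hp => ⟨p, fun x hx => hD (hp x hx)⟩

lemma hull (hG : G.IsAcyclic) (r k : ℕ) (C Q : Finset V) (hk : Q.card ≤ k)
    (h : ∀ c ∈ C, ∃ q ∈ Q, J G C c q) :
    ∃ C', C ⊆ C' ∧ Cl G r C' ∧ C'.card ≤ C.card + k * (r + 2) := by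
  induction k generalizing C Q with
  | zero =>
    refine ⟨C, subset_rfl, fun u hu => ?_, by simp⟩
    obtain ⟨q, hq, -⟩ := h u hu
    simp_all
  | succ k ih =>
    by_cases hC : Cl G r C
    · exact ⟨C, subset_rfl, hC, by omega⟩
    simp only [Cl, not_forall] at hC
    obtain ⟨u, hu, w, hw, p, hp, hl, x, hx, hxC⟩ := hC
    obtain ⟨qu, h1, h2⟩ := h u hu
    obtain ⟨qw, h3, h4⟩ := h w hw
    have hne : qu ≠ qw := by
      rintro rfl
      obtain ⟨p', hp'⟩ := h2.trans h4.symm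
      have := Subtype.mk.inj (hG.path_unique ⟨_, p'.bypass_isPath⟩ ⟨p, hp⟩)
      exact hxC (hp' x (p'.support_bypass_subset (this ▸ hx)))
    have hs : C ⊆ C ∪ p.support.toFinset := subset_union_left
    have hJ : ∀ y ∈ p.support, J G (C ∪ p.support.toFinset) y qu := fun y hy =>
      (J.symm ⟨p.takeUntil y hy, fun z hz => mem_union_right _
        (List.mem_toFinset.2 (p.support_takeUntil_subset_support hy hz))⟩).trans (h2.mono hs)
    obtain ⟨C', h5, h6, h7⟩ := ih (C ∪ p.support.toFinset) (Q.erase qw)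
      (by rw [card_erase_of_mem h3]; omega) fun c hc => by
        rcases mem_union.1 hc with hc | hc
        · obtain ⟨q, hq, hj⟩ := h c hc
          by_cases e : q = qw
          · exact ⟨qu, mem_erase.2 ⟨hne, h1⟩, ((hj.trans (e ▸ h4.symm)).mono hs).trans
              (hJ w p.end_mem_support)⟩
          · exact ⟨q, mem_erase.2 ⟨e, hq⟩, hj.mono hs⟩
        · exact ⟨qu, mem_erase.2 ⟨hne, h1⟩, hJ c (List.mem_toFinset.1 hc)⟩
    refine ⟨C', hs.trans h5, h6, h7.trans ?_⟩
    have := card_union_le C p.support.toFinset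
    have := p.support.toFinset_card_le
    rw [Walk.length_support] at this
    nlinarith

lemma hull' (hG : G.IsAcyclic) (r : ℕ) (P : Finset V) :
    ∃ C, P ⊆ C ∧ Cl G r C ∧ C.card ≤ (r + 3) * P.card := by
  obtain ⟨C, h1, h2, h3⟩ := hull hG r _ P P le_rfl fun c hc => ⟨c, hc, .nil, by simpa⟩
  exact ⟨C, h1, h2, by nlinarith⟩

variable [Nonempty V] (hG : G.IsAcyclic) (hi : ∀ p (A : Finset V), ∃ v, G.Adj p v ∧ v ∉ A)
include hG hi

lemma cnt (m r : ℕ) : ∃ s K : ℕ, ∀ B : Finset V, ∃ T : Finset (Fin m → V),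
    T.card ≤ K * (B.card + 1) ^ m ∧ ∀ R A (x : Fin m → V), Good G s R A B →
      ∃ t ∈ T, ∃ R' A' B', Good G r R' A' B' ∧ R ≤ R' ∧ ∀ i, R' (x i) (t i) := by
  induction m with
  | zero => exact ⟨r, 1, fun B => ⟨{default}, by simp, fun R A x h =>
      ⟨_, mem_singleton_self _, R, A, B, h, le_rfl, fun i => i.elim0⟩⟩⟩
  | succ m ih =>
    obtain ⟨s, K, h⟩ := ih
    choose T hT hT' using h
    refine ⟨2 * s + 1, (s + 2) * (K * (s + 2) ^ m), fun B => ?_⟩
    obtain ⟨O, h1, h2, h3⟩ := ext hG hi s B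
    refine ⟨O.biUnion fun o => (T o.2).image (Fin.cons o.1), ?_, fun R A x h => ?_⟩
    · refine (card_biUnion_le_card_mul _ _ (K * ((s + 2) * (B.card + 1)) ^ m) fun o ho =>
        card_image_le.trans ((hT _).trans ?_)).trans ?_
      · have := h2 o ho
        gcongr
        nlinarith
      · refine (Nat.mul_le_mul_right _ h1).trans (le_of_eq ?_)
        rw [mul_pow]
        ring
    · obtain ⟨o, ho, R', A', h4, h5, h6⟩ := h3 R A (x 0) h
      obtain ⟨t, ht, R'', A'', B'', h7, h8, h9⟩ := hT' _ R' A' (Fin.tail x) h4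
      refine ⟨Fin.cons o.1 t, mem_biUnion.2 ⟨o, ho, mem_image_of_mem _ ht⟩, R'', A'', B'', h7,
        h5.trans h8, fun i => ?_⟩
      induction i using Fin.cases with
      | zero => exact h8 _ _ h6
      | succ i => exact h9 i

theorem ef {α : Type*} {n : ℕ} (φ : Language.graph.BoundedFormula α n) :
    letI := G.structure
    ∃ r, ∀ R A B, Good G r R A B → ∀ (v w : α → V) (xs ys : Fin n → V), (∀ x, R (v x) (w x)) →
      (∀ i, R (xs i) (ys i)) → (φ.Realize v xs ↔ φ.Realize w ys) := by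
  letI := G.structure
  have ht : ∀ {n} (t : Language.graph.Term (α ⊕ Fin n)) (R : V → V → Prop) (v w : α → V)
      (xs ys : Fin n → V), (∀ x, R (v x) (w x)) → (∀ i, R (xs i) (ys i)) →
      R (t.realize (Sum.elim v xs)) (t.realize (Sum.elim w ys)) := by
    intro n t R v w xs ys h1 h2
    cases t with
    | var x => cases x <;> simp [h1, h2]
    | func f => exact f.elim
  induction φ with
  | falsum => exact ⟨0, fun _ _ _ _ _ _ _ _ _ _ => Iff.rfl⟩
  | equal s t => exact ⟨0, fun R A B h v w xs ys h1 h2 =>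
      h.eq _ _ _ _ (ht s R v w xs ys h1 h2) (ht t R v w xs ys h1 h2)⟩
  | rel r ts =>
    cases r
    exact ⟨0, fun R A B h v w xs ys h1 h2 =>
      h.adj _ _ _ _ (ht (ts 0) R v w xs ys h1 h2) (ht (ts 1) R v w xs ys h1 h2)⟩
  | imp φ ψ ih1 ih2 =>
    obtain ⟨r, h1⟩ := ih1
    obtain ⟨s, h2⟩ := ih2
    refine ⟨max r s, fun R A B h v w xs ys g1 g2 => ?_⟩
    simp only [BoundedFormula.realize_imp]
    rw [h1 R A B (h.mono (le_max_left _ _)) v w xs ys g1 g2,
      h2 R A B (h.mono (le_max_right _ _)) v w xs ys g1 g2]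
  | @all n φ ih =>
    obtain ⟨r, h1⟩ := ih
    have key : ∀ R A B, Good G (2 * r + 1) R A B → ∀ (v w : α → V) (xs ys : Fin n → V),
        (∀ x, R (v x) (w x)) → (∀ i, R (xs i) (ys i)) → φ.all.Realize w ys → φ.all.Realize v xs := by
      intro R A B h v w xs ys g1 g2 H
      simp only [BoundedFormula.realize_all] at H ⊢
      intro a
      obtain ⟨O, -, -, h3⟩ := ext hG hi r B
      obtain ⟨o, -, R', A', h4, h5, h6⟩ := h3 R A a h
      refine (h1 R' A' _ h4 v w _ _ (fun x => h5 _ _ (g1 x)) fun i => ?_).2 (H o.1)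
      induction i using Fin.lastCases with
      | last => simpa using h6
      | cast i => simpa using h5 _ _ (g2 i)
    exact ⟨2 * r + 1, fun R A B h v w xs ys g1 g2 =>
      ⟨key _ B A h.symm w v ys xs g1 g2, key R A B h v w xs ys g1 g2⟩⟩

theorem ef' {α : Type*} (φ : Language.graph.Formula α) :
    letI := G.structure
    ∃ r, ∀ R A B, Good G r R A B → ∀ v w : α → V, (∀ x, R (v x) (w x)) →
      (φ.Realize v ↔ φ.Realize w) := by
  obtain ⟨r, h⟩ := ef hG hi φ
  exact ⟨r, fun R A B g v w g1 => h R A B g v w _ _ g1 fun i => i.elim0⟩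

theorem count (m r : ℕ) : ∃ K : ℕ, ∀ P : Finset V, ∃ T : Finset (Fin m → V),
    T.card ≤ K * (P.card + 1) ^ m ∧ ∀ x : Fin m → V, ∃ t ∈ T, ∃ R A B, Good G r R A B ∧
      (∀ p ∈ P, R p p) ∧ ∀ i, R (x i) (t i) := by
  obtain ⟨s, K, h⟩ := cnt hG hi m r
  refine ⟨K * (s + 3) ^ m, fun P => ?_⟩
  obtain ⟨C, h1, h2, h3⟩ := hull' hG s P
  obtain ⟨T, h4, h5⟩ := h C
  refine ⟨T, h4.trans ?_, fun x => ?_⟩
  · rw [mul_assoc, ← mul_pow]
    gcongr
    nlinarith
  · obtain ⟨t, ht, R, A, B, h6, h7, h8⟩ := h5 _ _ x (good_id h2)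
    exact ⟨t, ht, R, A, B, h6, fun p hp => h7 _ _ ⟨h1 hp, rfl⟩, h8⟩

end Pool.Agent.H98.FP
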