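import Mathlib
import Pool.Agent.H98.FP2

/-! The infinitely branching tree; models of its theory are infinitely branching forests. -/

namespace Pool.Agent.H98.FP

open SimpleGraph FirstOrder Language

/-- The tree on finite words over `ℕ`: `l` is joined to `a :: l`. -/
def tree : SimpleGraph (List ℕ) := SimpleGraph.fromRel fun l l' => ∃ a, l' = a :: l

/-- The complete theory of the infinitely branching tree. -/
def TT : Language.graph.Theory := @Language.completeTheory _ (List ℕ) tree.structure

lemma tree_acyclic : tree.IsAcyclic := by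
  have key : ∀ a l, tree.IsBridge s(a :: l, l) := by
    intro a l
    rw [isBridge_iff, reachable_iff_reflTransGen]
    intro h
    suffices ∀ x, Relation.ReflTransGen (tree.deleteEdges {s(a :: l, l)}).Adj (a :: l) x →
        a :: l <:+ x by simpa using (this l h).length_le
    intro x hx
    induction hx with
    | refl => exact List.suffix_rfl
    | @tail y z _ h2 ih =>
      simp only [deleteEdges_adj, tree, fromRel_adj, Set.mem_singleton_iff] at h2
      obtain ⟨⟨-, ⟨c, rfl⟩ | ⟨c, rfl⟩⟩, h3⟩ := h2
      · exact ih.trans (List.suffix_cons _ _)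
      · rcases List.suffix_cons_iff.1 ih with h | h
        · obtain ⟨rfl, rfl⟩ := List.cons.inj h
          exact absurd rfl h3
        · exact h
  rw [isAcyclic_iff_forall_adj_isBridge]
  rintro v w ⟨-, ⟨a, rfl⟩ | ⟨a, rfl⟩⟩
  exacts [Sym2.eq_swap ▸ key a v, key a w]

lemma tree_deg (p : List ℕ) (A : Finset (List ℕ)) : ∃ v, tree.Adj p v ∧ v ∉ A := by
  obtain ⟨_, ⟨a, rfl⟩, h⟩ := (Set.infinite_range_of_injective
    (f := fun a : ℕ => a :: p) fun _ _ h => (List.cons.inj h).1).exists_notMem_finset A
  exact ⟨_, ⟨(List.cons_ne_self _ _).symm, .inl ⟨a, rfl⟩⟩, h⟩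

/-- Walks from `a` of length `n` avoiding the edge `ab`. -/
def Av {V : Type*} (G : SimpleGraph V) (a b : V) : ℕ → V → Prop
  | 0, x => x = a
  | n + 1, x => ∃ z, Av G a b n z ∧ G.Adj z x ∧ ¬(z = a ∧ x = b) ∧ ¬(z = b ∧ x = a)

lemma acyc_iff {V : Type*} (G : SimpleGraph V) :
    G.IsAcyclic ↔ ∀ n a b, G.Adj a b → ¬ Av G a b n b := by
  have : ∀ a b x, (G.deleteEdges {s(a, b)}).Reachable a x ↔ ∃ n, Av G a b n x := by
    intro a b x
    rw [reachable_iff_reflTransGen]
    constructor
    · intro h
      induction h with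
      | refl => exact ⟨0, rfl⟩
      | tail _ h ih => exact ih.elim fun n hn => ⟨n + 1, _, hn, by simpa [not_or] using h⟩
    · rintro ⟨n, h⟩
      induction n generalizing x with
      | zero => exact h ▸ .refl
      | succ n ih => exact h.elim fun z hz => (ih z hz.1).tail (by simpa [not_or] using hz.2)
  simp only [isAcyclic_iff_forall_adj_isBridge, isBridge_iff, this, not_exists]
  exact ⟨fun h n a b e => h e n, fun h a b e n => h n a b e⟩

noncomputable def rho : ℕ → Language.graph.Formula (Fin 3)
  | 0 => Term.equal (.var 2) (.var 0)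
  | n + 1 => Formula.iExs Unit ((rho n).relabel ![.inl 0, .inl 1, .inr ()] ⊓
      (Language.adj.formula₂ (.var (.inr ())) (.var (.inl 2)) ⊓
      ((Term.equal (.var (.inr ())) (.var (.inl 0)) ⊓ Term.equal (.var (.inl 2)) (.var (.inl 1))).not ⊓
      (Term.equal (.var (.inr ())) (.var (.inl 1)) ⊓ Term.equal (.var (.inl 2)) (.var (.inl 0))).not)))

lemma rel_adj {V : Type*} (G : SimpleGraph V) (x : Fin 2 → V) :
    @Structure.RelMap _ _ G.structure 2 Language.adj x ↔ G.Adj (x 0) (x 1) := Iff.rfl

lemma rho_iff {V : Type*} (G : SimpleGraph V) (n : ℕ) (v : Fin 3 → V) :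
    @Formula.Realize _ _ G.structure _ (rho n) v ↔ Av G (v 0) (v 1) n (v 2) := by
  letI := G.structure
  induction n generalizing v with
  | zero => simp [rho, Av]
  | succ n ih =>
    simp only [rho, Av, Formula.realize_iExs, Formula.realize_inf, Formula.realize_relabel, ih]
    simp only [Formula.realize_not, Formula.realize_inf, Formula.realize_equal,
      Formula.realize_rel₂, rel_adj]
    exact ⟨fun ⟨i, h⟩ => ⟨i (), h⟩, fun ⟨z, h⟩ => ⟨fun _ => z, h⟩⟩

lemma tr {L : Language} {N M α : Type*} [L.Structure N] [L.Structure M] [M ⊨ L.completeTheory N]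
    [Finite α] (φ : L.Formula α) (h : ∀ v : α → N, φ.Realize v) (v : α → M) : φ.Realize v := by
  have := (realize_iff_of_model_completeTheory N M ((φ.relabel Sum.inr).iAlls α)).2
    (by simpa [Sentence.Realize] using h)
  simp only [Sentence.Realize, Formula.realize_iAlls, Formula.realize_relabel] at this
  exact this v

theorem model_forest (M : Type*) [S : Language.graph.Structure M] [hM : M ⊨ TT] :
    ∃ G : SimpleGraph M, S = G.structure ∧ G.IsAcyclic ∧
      ∀ p (A : Finset M), ∃ v, G.Adj p v ∧ v ∉ A := by
  letI := tree.structure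
  haveI : M ⊨ Language.graph.completeTheory (List ℕ) := hM
  haveI : M ⊨ Theory.simpleGraph := ⟨fun φ hφ =>
    (realize_iff_of_model_completeTheory (List ℕ) M φ).2
      ((simpleGraph_model tree).realize_of_mem φ hφ)⟩
  obtain ⟨G, rfl⟩ : ∃ G : SimpleGraph M, S = G.structure :=
    ⟨simpleGraphOfStructure M, structure_simpleGraphOfStructure.symm⟩
  letI := G.structure
  refine ⟨G, rfl, (acyc_iff G).2 fun n a b => ?_, fun p A => ?_⟩
  · simpa [rho_iff, rel_adj] using tr (N := List ℕ)
      (((Language.adj.formula₂ (.var 0) (.var 1)).imp (rho n).not).relabel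
        (![0, 1, 1] : Fin 3 → Fin 2)) (fun v => by
        simpa [rho_iff, rel_adj] using (acyc_iff _).1 tree_acyclic n (v 0) (v 1)) ![a, b]
  · classical
    have := tr (N := List ℕ) (Formula.iExs Unit (Language.adj.formula₂ (.var (.inl none))
      (.var (.inr ())) ⊓ Formula.iInf fun i : A =>
        (Term.equal (.var (.inr ())) (.var (.inl (some i)))).not)) (fun v => by
          obtain ⟨z, h1, h2⟩ := tree_deg (v none) (Finset.univ.image fun i => v (some i))
          simp only [Finset.mem_image, Finset.mem_univ, true_and, not_exists] at h2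
          simpa [rel_adj] using ⟨fun _ => z, h1, fun a ha h => h2 ⟨a, ha⟩ h.symm⟩)
      (fun o => o.elim p (↑))
    simp only [Formula.realize_iExs, Formula.realize_inf, Formula.realize_rel₂, rel_adj,
      Formula.realize_iInf, Formula.realize_not, Formula.realize_equal] at this
    obtain ⟨z, h1, h2⟩ := this
    exact ⟨z (), h1, fun h => h2 ⟨_, h⟩ rfl⟩

end Pool.Agent.H98.FP
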