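import Mathlib

set_option autoImplicit false

namespace Pool.Agent.H98.Flat

open Set Filter Topology MeasureTheory Complex
open scoped Real

noncomputable def ee (x : ℝ) : ℂ := cexp (2 * π * I * x)

lemma ee_norm (x : ℝ) : ‖ee x‖ = 1 := by
  rw [ee, show (2 * π * I * x : ℂ) = (2 * π * x : ℝ) * I by push_cast; ring]
  exact norm_exp_ofReal_mul_I _

lemma ee_add (x y : ℝ) : ee (x + y) = ee x * ee y := by
  simp only [ee, ← Complex.exp_add]; push_cast; ring_nf

lemma ee_int (m : ℤ) : ee m = 1 := by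
  rw [ee, ← exp_int_mul_two_pi_mul_I m]; push_cast; ring_nf

lemma ee_cont : Continuous ee := by unfold ee; fun_prop

lemma ee_lip (x y : ℝ) : ‖ee x - ee y‖ ≤ 7 * |x - y| := by
  have e : ee x - ee y = ee y * (cexp (I * (2 * π * (x - y) : ℝ)) - 1) := by
    rw [mul_sub, mul_one, ee, ee, ← Complex.exp_add]; push_cast; ring_nf
  rw [e, norm_mul, ee_norm, one_mul]
  refine Real.norm_exp_I_mul_ofReal_sub_one_le.trans ?_
  rw [Real.norm_eq_abs, abs_mul, abs_of_pos (by positivity : 0 < 2 * π)]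
  have := Real.pi_lt_d2
  gcongr; linarith

lemma signs {ι : Type} (M : Finset ι) (x : ι → ℕ → ℝ) (n : ℕ) : ∀ A : ι → ℝ, (∀ m, 0 ≤ A m) →
    ∃ s : ℕ → ℝ, (∀ j, s j = 1 ∨ s j = -1) ∧
      ∑ m ∈ M, A m * Real.exp (∑ j ∈ Finset.range n, s j * x m j) ≤
        ∑ m ∈ M, A m * Real.exp (∑ j ∈ Finset.range n, x m j ^ 2 / 2) := by
  induction n with
  | zero => exact fun A _ => ⟨fun _ => 1, fun _ => Or.inl rfl, by simp⟩
  | succ n ih =>
    intro A hA
    obtain ⟨s, hs, h⟩ := ih (fun m => A m * Real.cosh (x m n))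
      fun m => mul_nonneg (hA m) (Real.cosh_pos _).le
    have key : ∀ c : ℝ, (c = 1 ∨ c = -1) →
        (∑ m ∈ M, A m * (Real.exp (∑ j ∈ Finset.range n, s j * x m j) * Real.exp (c * x m n)) ≤
        ∑ m ∈ M, A m * Real.cosh (x m n) * Real.exp (∑ j ∈ Finset.range n, s j * x m j)) →
        ∃ s : ℕ → ℝ, (∀ j, s j = 1 ∨ s j = -1) ∧
        ∑ m ∈ M, A m * Real.exp (∑ j ∈ Finset.range (n + 1), s j * x m j) ≤
          ∑ m ∈ M, A m * Real.exp (∑ j ∈ Finset.range (n + 1), x m j ^ 2 / 2) := by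
      intro c hc h2
      refine ⟨Function.update s n c, fun j => ?_, ?_⟩
      · by_cases hj : j = n
        · subst hj; simpa using hc
        · simpa [hj] using hs j
      · have e : ∀ m, ∑ j ∈ Finset.range n, Function.update s n c j * x m j =
            ∑ j ∈ Finset.range n, s j * x m j := fun m => Finset.sum_congr rfl fun j hj => by
          rw [Function.update_of_ne (Finset.mem_range.1 hj).ne]
        simp only [Finset.sum_range_succ, Real.exp_add, e, Function.update_self]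
        refine (h2.trans h).trans (Finset.sum_le_sum fun m _ => ?_)
        rw [mul_assoc, mul_comm (Real.cosh _)]
        have := hA m
        gcongr
        exact Real.cosh_le_exp_half_sq _
    by_contra hcon
    have h1 := lt_of_not_ge fun h => hcon (key 1 (Or.inl rfl) h)
    have h2 := lt_of_not_ge fun h => hcon (key (-1) (Or.inr rfl) h)
    have := add_lt_add h1 h2
    rw [← Finset.sum_add_distrib, ← Finset.sum_add_distrib] at this
    refine this.ne (Finset.sum_congr rfl fun m _ => ?_)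
    rw [Real.cosh_eq, one_mul, neg_one_mul]; ring

lemma salem (d : ℕ → ℂ) (n M : ℕ) (hM : 0 < M) {l D : ℝ} (hl : 0 < l)
    (hD : ∑ j ∈ Finset.range (n + 1), ‖d j‖ ^ 2 ≤ D) (hd : ∀ j ≤ n, ‖d j‖ ≤ 2) :
    ∃ s : ℕ → ℝ, (∀ j, s j = 1 ∨ s j = -1) ∧ ∀ t ∈ Icc (0 : ℝ) 1,
      ‖∑ j ∈ Finset.range (n + 1), s j * d j * ee (j * t)‖ ≤
        2 * (Real.log (4 * (M + 1)) / l + l * D / 2) + 14 * n * (n + 1) / M := by
  obtain ⟨s, hs, h⟩ := signs (Finset.range (M + 1) ×ˢ ({1, -1, I, -I} : Finset ℂ))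
    (fun p j => l * (p.2 * d j * ee (j * (p.1 / M))).re) (n + 1) (fun _ => 1) fun _ => zero_le_one
  have hs1 : ∀ j, ‖(s j : ℂ)‖ = 1 := fun j => by rcases hs j with h | h <;> simp [h]
  refine ⟨s, hs, fun t ht => ?_⟩
  have hM' : (0 : ℝ) < M := by exact_mod_cast hM
  have h1 : ∑ p ∈ Finset.range (M + 1) ×ˢ ({1, -1, I, -I} : Finset ℂ), 1 * Real.exp
      (∑ j ∈ Finset.range (n + 1), (l * (p.2 * d j * ee (j * (p.1 / M))).re) ^ 2 / 2) ≤
      4 * (M + 1) * Real.exp (l ^ 2 * D / 2) := by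
    refine (Finset.sum_le_card_nsmul _ _ (Real.exp (l ^ 2 * D / 2)) fun p hp => ?_).trans ?_
    · rw [one_mul, Real.exp_le_exp, ← Finset.sum_div]
      have h2 : ‖p.2‖ = 1 := by
        have := (Finset.mem_product.1 hp).2
        simp only [Finset.mem_insert, Finset.mem_singleton] at this
        rcases this with h | h | h | h <;> simp [h]
      refine div_le_div_of_nonneg_right (le_trans ?_ (mul_le_mul_of_nonneg_left hD (sq_nonneg l)))
        (by norm_num)
      rw [Finset.mul_sum]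
      refine Finset.sum_le_sum fun j _ => ?_
      have h3 := abs_re_le_norm (p.2 * d j * ee (j * (p.1 / M)))
      rw [norm_mul, norm_mul, h2, ee_norm, one_mul, mul_one] at h3
      rw [mul_pow, ← sq_abs (re _)]
      gcongr
    · rw [nsmul_eq_mul, Finset.card_product, Finset.card_range]
      have : (({1, -1, I, -I} : Finset ℂ).card : ℝ) ≤ 4 := by exact_mod_cast Finset.card_le_four
      push_cast
      gcongr ?_ * _
      nlinarith
  set m := ⌊M * t⌋₊ with hm
  have hm1 : (m : ℝ) ≤ M * t := Nat.floor_le (by have := ht.1; positivity)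
  have hm2 : M * t < m + 1 := Nat.lt_floor_add_one _
  have hm3 : m < M + 1 := by
    have : (m : ℝ) ≤ M := hm1.trans (mul_le_of_le_one_right hM'.le ht.2)
    exact Nat.lt_succ_of_le (by exact_mod_cast this)
  set R := ∑ j ∈ Finset.range (n + 1), s j * d j * ee (j * (m / M)) with hR
  have h4 : ∀ ω ∈ ({1, -1, I, -I} : Finset ℂ),
      (ω * R).re ≤ Real.log (4 * (M + 1)) / l + l * D / 2 := by
    intro ω hω
    have h5 := (Finset.single_le_sum (f := fun p : ℕ × ℂ => 1 * Real.exp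
      (∑ j ∈ Finset.range (n + 1), s j * (l * (p.2 * d j * ee (j * (p.1 / M))).re)))
      (fun _ _ => by positivity) (Finset.mem_product.2
        (show (m, ω).1 ∈ _ ∧ (m, ω).2 ∈ _ from ⟨Finset.mem_range.2 hm3, hω⟩))).trans (h.trans h1)
    have e : ∑ j ∈ Finset.range (n + 1), s j * (l * (ω * d j * ee (j * (m / M))).re) =
        l * (ω * R).re := by
      rw [hR, Finset.mul_sum, re_sum, Finset.mul_sum]
      refine Finset.sum_congr rfl fun j _ => ?_
      rw [show ω * (s j * d j * ee (j * (m / M))) = s j * (ω * d j * ee (j * (m / M))) by ring,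
        re_ofReal_mul]
      ring
    simp only [one_mul, e] at h5
    have h6 := Real.log_le_log (Real.exp_pos _) h5
    rw [Real.log_exp, Real.log_mul (by positivity) (by positivity), Real.log_exp] at h6
    rw [div_add' _ _ _ hl.ne', le_div_iff₀ hl]
    linarith
  have h7 : ‖R‖ ≤ 2 * (Real.log (4 * (M + 1)) / l + l * D / 2) := by
    have a1 := h4 1 (by simp)
    have a2 := h4 (-1) (by simp)
    have a3 := h4 I (by simp)
    have a4 := h4 (-I) (by simp)
    simp only [one_mul, neg_mul, neg_re, I_mul_re] at a1 a2 a3 a4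
    have := norm_le_abs_re_add_abs_im R
    have b1 : |R.re| ≤ _ := abs_le.2 ⟨by linarith, a1⟩
    have b2 : |R.im| ≤ Real.log (4 * (M + 1)) / l + l * D / 2 := abs_le.2 ⟨by linarith, by linarith⟩
    linarith
  refine (norm_le_norm_add_norm_sub' _ R).trans (add_le_add h7 ?_)
  rw [hR, ← Finset.sum_sub_distrib]
  refine (norm_sum_le _ _).trans ((Finset.sum_le_card_nsmul _ _ (14 * n / M : ℝ)
    fun j hj => ?_).trans (le_of_eq ?_))
  swap
  · rw [Finset.card_range, nsmul_eq_mul]; push_cast; ring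
  have hj' : j ≤ n := Nat.lt_succ_iff.1 (Finset.mem_range.1 hj)
  have hj2 : (j : ℝ) ≤ n := by exact_mod_cast hj'
  rw [← mul_sub, norm_mul, norm_mul, hs1, one_mul]
  have b1 : |t - m / M| ≤ 1 / M := by
    rw [show t - m / M = (M * t - m) / M by field_simp, abs_div, abs_of_pos hM']
    gcongr
    exact abs_le.2 ⟨by linarith, by linarith⟩
  have b2 := ee_lip (j * t) (j * (m / M))
  rw [← mul_sub, abs_mul, Nat.abs_cast] at b2
  have b3 : 7 * (j * |t - m / M|) ≤ 7 * (n * (1 / M : ℝ)) := by gcongr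
  exact (mul_le_mul (hd j hj') (b2.trans b3) (norm_nonneg _) (by norm_num)).trans (le_of_eq (by ring))

lemma perp (c : ℂ) {k : ℝ} (h : ‖c‖ ≤ k) : ∃ d : ℂ, ‖d‖ ^ 2 = k ^ 2 - ‖c‖ ^ 2 ∧
    ∀ s : ℝ, (s = 1 ∨ s = -1) → ‖c + s * d‖ = k := by
  have h0 : 0 ≤ k ^ 2 - ‖c‖ ^ 2 := sub_nonneg.2 (pow_le_pow_left₀ (norm_nonneg _) h 2)
  refine ⟨√(k ^ 2 - ‖c‖ ^ 2) * I * cexp (arg c * I), ?_, fun s hs => ?_⟩
  · simp [norm_exp_ofReal_mul_I, Real.sq_sqrt h0]
  · have e : c + s * (√(k ^ 2 - ‖c‖ ^ 2) * I * cexp (arg c * I)) =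
        ((‖c‖ : ℝ) + (s * √(k ^ 2 - ‖c‖ ^ 2) : ℝ) * I) * cexp (arg c * I) := by
      conv_lhs => rw [← norm_mul_exp_arg_mul_I c]
      simp only [norm_mul_exp_arg_mul_I]
      push_cast
      rw [add_mul, norm_mul_exp_arg_mul_I]; ring
    have hs2 : s ^ 2 = 1 := by rcases hs with h | h <;> simp [h]
    rw [e, norm_mul, norm_exp_ofReal_mul_I, mul_one, norm_add_mul_I, mul_pow, hs2,
      Real.sq_sqrt h0, Real.sqrt_eq_iff_mul_self_eq (by positivity) ((norm_nonneg _).trans h)]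
    ring

lemma int_ee (m : ℤ) : ∫ t in (0 : ℝ)..1, ee (m * t) = if m = 0 then 1 else 0 := by
  split_ifs with h
  · simp [h, ee]
  · have h1 : (2 * π * I * m : ℂ) ≠ 0 := by simp [h, Real.pi_ne_zero]
    have := integral_exp_mul_complex (a := 0) (b := 1) h1
    have e : cexp (2 * π * I * m * (1 : ℝ)) = 1 := by rw [← ee_int m, ee]; simp
    rw [e] at this
    simpa [ee, mul_assoc] using this

lemma parseval (c : ℕ → ℂ) (A : Finset ℕ) :
    ∫ t in (0 : ℝ)..1, ‖∑ j ∈ A, c j * ee (j * t)‖ ^ 2 = ∑ j ∈ A, ‖c j‖ ^ 2 := by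
  have e : ∀ t : ℝ, ((‖∑ j ∈ A, c j * ee (j * t)‖ ^ 2 : ℝ) : ℂ) =
      ∑ j ∈ A, ∑ k ∈ A, c j * (starRingEnd ℂ) (c k) * ee (((j - k : ℤ) : ℝ) * t) := by
    intro t
    rw [← normSq_eq_norm_sq, ← mul_conj, map_sum, Finset.sum_mul_sum]
    refine Finset.sum_congr rfl fun j _ => Finset.sum_congr rfl fun k _ => ?_
    have : ee (((j - k : ℤ) : ℝ) * t) = ee (j * t) * (starRingEnd ℂ) (ee (k * t)) := by
      simp only [ee, ← exp_conj, ← Complex.exp_add, map_mul, conj_ofReal, conj_I, map_ofNat]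
      push_cast; ring_nf
    rw [this, map_mul]; ring
  have hc : ∀ (z : ℂ) (m : ℝ), Continuous (fun t => z * ee (m * t)) :=
    fun z m => continuous_const.mul (ee_cont.comp (by fun_prop))
  apply ofReal_injective
  rw [← intervalIntegral.integral_ofReal]
  simp only [e]
  rw [intervalIntegral.integral_finset_sum fun j _ =>
    (continuous_finset_sum _ fun k _ => hc _ _).intervalIntegrable _ _, ofReal_sum]
  refine Finset.sum_congr rfl fun j hj => ?_
  rw [intervalIntegral.integral_finset_sum fun k _ => (hc _ _).intervalIntegrable _ _]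
  simp only [intervalIntegral.integral_const_mul, int_ee, sub_eq_zero, Nat.cast_inj, mul_ite,
    mul_one, mul_zero, Finset.sum_ite_eq, hj, if_true, mul_conj', ofReal_pow]

/-- From nearly flat coefficients bounded by `κ j` to exact moduli. -/
lemma reduce {n M : ℕ} (hM : 0 < M) {κ η l : ℝ} (hl : 0 < l) (hη : η ≤ 1) {c : ℕ → ℂ}
    (h1 : ∀ j ≤ n, ‖c j‖ ≤ κ * j)
    (h2 : ∑ j ∈ Finset.range (n + 1), (κ * j) ^ 2 ≤ 1 + η)
    (h3 : ∀ t : ℝ, |‖∑ j ∈ Finset.range (n + 1), c j * ee (j * t)‖ - 1| ≤ η) :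
    ∃ b : ℕ → ℂ, (∀ j ≤ n, ‖b j‖ = κ * j) ∧ ∀ t ∈ Icc (0 : ℝ) 1,
      |‖∑ j ∈ Finset.range (n + 1), b j * ee (j * t)‖ - 1| ≤
        η + (2 * (Real.log (4 * (M + 1)) / l + l * (3 * η) / 2) + 14 * n * (n + 1) / M) := by
  choose! d hd1 hd2 using fun j (hj : j ≤ n) => perp (c j) (h1 j hj)
  have h4 : (1 - η) ^ 2 ≤ ∑ j ∈ Finset.range (n + 1), ‖c j‖ ^ 2 := by
    rw [← parseval]
    have hc : Continuous fun t : ℝ => ‖∑ j ∈ Finset.range (n + 1), c j * ee (j * t)‖ ^ 2 :=
      (continuous_finset_sum _ fun j _ =>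
        continuous_const.mul (ee_cont.comp (by fun_prop))).norm.pow 2
    simpa using intervalIntegral.integral_mono_on (μ := volume) zero_le_one
      (intervalIntegrable_const (c := (1 - η) ^ 2)) (hc.intervalIntegrable 0 1) fun t _ =>
        pow_le_pow_left₀ (by linarith) (by linarith [(abs_le.1 (h3 t)).1]) 2
  have h5 : ∑ j ∈ Finset.range (n + 1), ‖d j‖ ^ 2 ≤ 3 * η := by
    rw [Finset.sum_congr rfl fun j hj => hd1 j (Nat.lt_succ_iff.1 (Finset.mem_range.1 hj)),
      Finset.sum_sub_distrib]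
    nlinarith [sq_nonneg η]
  obtain ⟨s, hs, h⟩ := salem d n M hM hl h5 fun j hj => by
    have := Finset.single_le_sum (f := fun j => ‖d j‖ ^ 2) (fun _ _ => sq_nonneg _)
      (Finset.mem_range.2 (Nat.lt_succ_of_le hj))
    exact abs_le_of_sq_le_sq' (by linarith) (by norm_num) |>.2
  refine ⟨fun j => c j + s j * d j, fun j hj => hd2 j hj _ (hs j), fun t ht => ?_⟩
  simp only [add_mul, Finset.sum_add_distrib]
  have a1 := abs_norm_sub_norm_le (∑ j ∈ Finset.range (n + 1), c j * ee (j * t) +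
    ∑ j ∈ Finset.range (n + 1), s j * d j * ee (j * t))
    (∑ j ∈ Finset.range (n + 1), c j * ee (j * t))
  rw [add_sub_cancel_left] at a1
  have := abs_sub_le (‖∑ j ∈ Finset.range (n + 1), c j * ee (j * t) +
    ∑ j ∈ Finset.range (n + 1), s j * d j * ee (j * t)‖)
    (‖∑ j ∈ Finset.range (n + 1), c j * ee (j * t)‖) 1
  linarith [h t ht, h3 t]

end Pool.Agent.H98.Flat
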