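import Mathlib
import Pool.Agent.H98.Flat1

set_option autoImplicit false

namespace Pool.Agent.H98.Flat

open Set Filter Topology MeasureTheory Complex
open scoped Real

lemma poisson {β : ℂ} (hβ : 0 < β.re) (X u : ℝ) :
    ∑' n : ℤ, cexp (-π * β * (u - n) ^ 2 + 2 * π * I * X * (u - n)) =
      1 / β ^ (1 / 2 : ℂ) * ∑' j : ℤ, cexp (-π / β * (j - X) ^ 2) * ee (j * u) := by
  have h0 : β ≠ 0 := fun h => by simp [h] at hβ
  have h := Complex.tsum_exp_neg_quadratic hβ (β * u - I * X)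
  have e1 : ∀ n : ℤ, cexp (-π * β * (u - n) ^ 2 + 2 * π * I * X * (u - n)) =
      cexp (-π * β * u ^ 2 + 2 * π * I * X * u) *
        cexp (-π * β * n ^ 2 + 2 * π * (β * u - I * X) * n) := fun n => by
    rw [← Complex.exp_add]; ring_nf
  simp only [e1, tsum_mul_left]
  rw [h, mul_left_comm, ← tsum_mul_left, ← (Equiv.neg ℤ).tsum_eq]
  congr 2
  funext j
  rw [ee, ← Complex.exp_add, ← Complex.exp_add]
  congr 1
  simp only [Equiv.neg_apply]
  push_cast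
  field_simp
  linear_combination (-2 * X * (j : ℂ) - β ^ 2 * u ^ 2 + 2 * I * β * u * X - X ^ 2 * (I ^ 2 - 1))
    * I_sq

noncomputable def C0 : ℝ := ∑' k : ℤ, 1 / (1 + (k : ℝ) ^ 2)

lemma C0_sum : Summable fun k : ℤ => 1 / (1 + (k : ℝ) ^ 2) := by
  refine Summable.of_norm_bounded_eventually (Real.summable_one_div_int_pow.2 one_lt_two) ?_
  filter_upwards [(Set.finite_singleton (0 : ℤ)).compl_mem_cofinite] with k hk
  have : (k : ℝ) ≠ 0 := by exact_mod_cast hk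
  rw [Real.norm_of_nonneg (by positivity)]
  gcongr; linarith

lemma C0_nonneg : 0 ≤ C0 := tsum_nonneg fun _ => by positivity

lemma tail {f : ℤ → ℂ} {J : Finset ℤ} {γ X Δ : ℝ} (hγ : 0 < γ) (hΔ : 1 ≤ Δ)
    (h1 : ∀ j : ℤ, ‖f j‖ ≤ Real.exp (-(π * γ * (j - X) ^ 2))) (h2 : ∀ j ∉ J, Δ ≤ |j - X|) :
    ‖∑' j, f j - ∑ j ∈ J, f j‖ ≤ 5 * C0 / (γ ^ 3 * Δ ^ 4) := by
  have hs : HasSum (fun j : ℤ => 5 / (γ ^ 3 * Δ ^ 4) * (1 / (1 + ((j - ⌊X⌋ : ℤ) : ℝ) ^ 2)))
      (5 / (γ ^ 3 * Δ ^ 4) * C0) :=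
    ((Equiv.subRight ⌊X⌋).hasSum_iff.2 C0_sum.hasSum).mul_left _
  have hb : ∀ j, ‖(if j ∈ J then 0 else f j)‖ ≤
      5 / (γ ^ 3 * Δ ^ 4) * (1 / (1 + ((j - ⌊X⌋ : ℤ) : ℝ) ^ 2)) := by
    intro j
    split_ifs with h
    · simp only [norm_zero]; positivity
    have a1 := h2 j h
    have a2 : Δ ^ 2 ≤ (j - X) ^ 2 := by rw [← sq_abs (j - X : ℝ)]; gcongr
    have a3 : 1 + ((j - ⌊X⌋ : ℤ) : ℝ) ^ 2 ≤ 5 * (j - X) ^ 2 := by
      have b1 := Int.floor_le X
      have b2 := Int.lt_floor_add_one X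
      have b3 : |((j - ⌊X⌋ : ℤ) : ℝ)| ≤ 2 * |j - X| := by
        push_cast
        have := abs_sub_le (j : ℝ) X ⌊X⌋
        have : |X - ⌊X⌋| ≤ 1 := abs_le.2 ⟨by linarith, by linarith⟩
        linarith
      have := pow_le_pow_left₀ (abs_nonneg _) b3 2
      rw [sq_abs, mul_pow, sq_abs] at this
      nlinarith
    have a4 : 0 < (j - X) ^ 2 := lt_of_lt_of_le (by positivity) a2
    refine (h1 j).trans ?_
    generalize (j - X) ^ 2 = y at a2 a3 a4
    have a5 := Real.pow_div_factorial_le_exp (π * γ * y) (by positivity) 3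
    have a6 : (γ * y) ^ 3 ≤ (π * γ * y) ^ 3 / (3 : ℕ).factorial := by
      have : (3 : ℝ) ^ 3 ≤ π ^ 3 := by gcongr; exact Real.pi_gt_three.le
      have : 0 ≤ (γ * y) ^ 3 := by positivity
      rw [mul_assoc, mul_pow π]; norm_num [Nat.factorial]; nlinarith
    rw [Real.exp_neg, div_mul_div_comm, mul_one, le_div_iff₀ (by positivity),
      inv_mul_le_iff₀ (Real.exp_pos _)]
    calc γ ^ 3 * Δ ^ 4 * (1 + ((j - ⌊X⌋ : ℤ) : ℝ) ^ 2) ≤ γ ^ 3 * y ^ 2 * (5 * y) := by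
          rw [show Δ ^ 4 = (Δ ^ 2) ^ 2 by ring]; gcongr
      _ = (γ * y) ^ 3 * 5 := by ring
      _ ≤ _ := by gcongr; exact a6.trans a5
  have hg := Summable.of_norm_bounded hs.summable hb
  have e : f = fun j => (if j ∈ J then 0 else f j) + if j ∈ J then f j else 0 := by
    funext j; split_ifs <;> simp
  have hf : HasSum (fun j => if j ∈ J then f j else 0) (∑ j ∈ J, f j) := by
    simpa using hasSum_sum_of_ne_finset_zero (s := J) (f := fun j => if j ∈ J then f j else 0)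
      fun j hj => if_neg hj
  have := (hg.hasSum.add hf).tsum_eq
  rw [← e] at this
  rw [this, add_sub_cancel_right, mul_comm 5, mul_div_assoc, mul_comm]
  exact tsum_of_norm_bounded hs hb

/-- Data of a family of chirped Gaussian wave packets. -/
structure Fam where
  a : ℝ → ℝ
  X : ℝ → ℝ
  Y : ℝ → ℝ
  B : ℝ → ℝ
  φ : ℝ → ℝ
  ca : Continuous a
  cX : Continuous X
  cY : Continuous Y
  cB : Continuous B
  cφ : Continuous φ
  pa : ∀ s (m : ℤ), a (s + m) = a s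
  pX : ∀ s (m : ℤ), X (s + m) = X s
  pY : ∀ s (m : ℤ), Y (s + m) = Y s
  pB : ∀ s (m : ℤ), B (s + m) = B s
  pφ : ∀ s (m : ℤ), ee (φ (s + m)) = ee (φ s)
  a0 : ∀ s, 0 ≤ a s
  a1 : ∀ s, a s ≤ 1
  B0 : ∀ s, 0 < B s

namespace Fam
variable (F : Fam)

noncomputable def be (s : ℝ) : ℂ := F.B s ^ 2 - I * F.Y s

noncomputable def ker (j s : ℝ) : ℂ := F.a s * ee (F.φ s - j * s) *
  (F.B s / F.be s ^ (1 / 2 : ℂ) * cexp (-π / F.be s * (j - F.X s) ^ 2))

noncomputable def co (j : ℝ) : ℂ := ∫ s in (0 : ℝ)..1, F.ker j s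

noncomputable def pk (t s : ℝ) : ℂ := F.a s * (F.B s * Real.exp (-(π * F.B s ^ 2 * (t - s) ^ 2)) : ℝ)
  * ee (F.φ s + F.X s * (t - s) + F.Y s * (t - s) ^ 2 / 2)

lemma be_re (s : ℝ) : (F.be s).re = F.B s ^ 2 := by simp [be, ← ofReal_pow]

lemma be_pos (s : ℝ) : 0 < (F.be s).re := by rw [be_re]; exact pow_pos (F.B0 s) 2

lemma be_ne (s : ℝ) : F.be s ≠ 0 := fun h => by simpa [h] using F.be_pos s

lemma be_norm (s : ℝ) : ‖F.be s‖ ^ 2 = F.B s ^ 4 + F.Y s ^ 2 := by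
  rw [← normSq_eq_norm_sq, normSq_apply, be_re]
  simp [be, ← ofReal_pow]; ring

lemma ker_cont (j : ℝ) : Continuous (F.ker j) := by
  have := F.ca; have := F.cX; have := F.cY; have := F.cB; have := F.cφ
  have hb : Continuous F.be := by unfold be; fun_prop
  have h1 : Continuous fun s => F.be s ^ (1 / 2 : ℂ) :=
    hb.cpow continuous_const fun s => Or.inl (F.be_pos s)
  refine ((continuous_ofReal.comp F.ca).mul (ee_cont.comp (by fun_prop))).mul
    (((continuous_ofReal.comp F.cB).div h1 fun s => ?_).mul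
      (((continuous_const.div hb F.be_ne).mul (by fun_prop)).cexp))
  simp [F.be_ne s]

lemma ker_norm (j s : ℝ) : ‖F.ker j s‖ = F.a s * (F.B s / √‖F.be s‖ *
    Real.exp (-(π * (F.B s ^ 2 / (F.B s ^ 4 + F.Y s ^ 2)) * (j - F.X s) ^ 2))) := by
  have e1 : ‖F.be s ^ (1 / 2 : ℂ)‖ = √‖F.be s‖ := by
    rw [Real.sqrt_eq_rpow, ← norm_cpow_real]; norm_num
  have e2 : (-π / F.be s * (j - F.X s) ^ 2).re =
      -(π * (F.B s ^ 2 / (F.B s ^ 4 + F.Y s ^ 2)) * (j - F.X s) ^ 2) := by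
    rw [show (-π / F.be s * (j - F.X s) ^ 2 : ℂ) = (-π * (j - F.X s) ^ 2 : ℝ) * (F.be s)⁻¹ by
      push_cast; ring, re_ofReal_mul, inv_re, normSq_eq_norm_sq, be_norm, be_re]
    ring
  simp only [ker, norm_mul, norm_div, ee_norm, e1, norm_exp, e2, norm_real, Real.norm_eq_abs,
    abs_of_nonneg (F.a0 s), abs_of_pos (F.B0 s), mul_one]

lemma B_le (s : ℝ) : F.B s / √‖F.be s‖ ≤ 1 := by
  have h := (re_le_norm (F.be s)); rw [be_re] at h
  exact div_le_one_of_le₀ (Real.le_sqrt_of_sq_le h) (Real.sqrt_nonneg _)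

lemma pk_cont (t : ℝ) : Continuous (F.pk t) := by
  have := F.ca; have := F.cX; have := F.cY; have := F.cB; have := F.cφ
  exact Continuous.mul (by fun_prop) (ee_cont.comp (by fun_prop))

variable {F}

lemma win_le {b b' : ℝ} (hb : 0 ≤ b) (h1 : ∀ s, b ≤ F.B s) (h2 : ∀ s, F.B s ≤ b') (s u : ℝ) :
    F.B s * Real.exp (-(π * F.B s ^ 2 * u ^ 2)) ≤ b' * Real.exp (-(π * b ^ 2 * u ^ 2)) := by
  have := h1 s; have := h2 s; have := F.B0 s
  gcongr; linarith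

lemma gauss_int {c : ℝ} (hc : 0 < c) (t : ℝ) :
    Integrable (fun s => Real.exp (-(c * (t - s) ^ 2))) ∧
      ∫ s, Real.exp (-(c * (t - s) ^ 2)) = √(π / c) := by
  simp only [← neg_mul]
  exact ⟨(integrable_exp_neg_mul_sq hc).comp_sub_left t,
    (integral_sub_left_eq_self (fun u => Real.exp (-c * u ^ 2)) volume t).trans
      (integral_gaussian c)⟩

lemma pk_int {b b' : ℝ} (hb : 0 < b) (h1 : ∀ s, b ≤ F.B s) (h2 : ∀ s, F.B s ≤ b') (t : ℝ) :
    Integrable (F.pk t) := by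
  refine ((gauss_int (c := π * b ^ 2) (by positivity) t).1.const_mul b').mono'
    (F.pk_cont t).aestronglyMeasurable (Eventually.of_forall fun s => ?_)
  have := F.B0 s
  simp only [pk, norm_mul, ee_norm, norm_real, Real.norm_eq_abs, abs_of_nonneg (F.a0 s), mul_one]
  rw [← abs_mul, abs_of_pos (by positivity)]
  exact (mul_le_of_le_one_left (by positivity) (F.a1 s)).trans (win_le hb.le h1 h2 s _)

lemma unfold_int {f : ℝ → ℂ} (hf : Integrable f) :
    ∫ s in (0 : ℝ)..1, ∑' m : ℤ, f (s + m) = ∫ s, f s := by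
  have h1 : ∀ m : ℤ, Integrable (fun s => f (s + m)) (volume.restrict (Ioc (0 : ℝ) 1)) :=
    fun m => (hf.comp_add_right m).integrableOn
  have h2 := hf.norm.hasSum_intervalIntegral_comp_add_int.summable
  have h3 := hf.hasSum_intervalIntegral_comp_add_int
  simp only [intervalIntegral.integral_of_le zero_le_one] at h2 h3 ⊢
  exact (hasSum_integral_of_summable_integral_norm h1 h2).unique h3

lemma synth0 {γ Δ : ℝ} (hγ : 0 < γ)
    (hΔ : 1 ≤ Δ) (h3 : ∀ s, γ ≤ F.B s ^ 2 / (F.B s ^ 4 + F.Y s ^ 2)) (A : Finset ℕ)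
    (h4 : ∀ s, ∀ j : ℤ, (∀ k ∈ A, (k : ℤ) ≠ j) → Δ ≤ |j - F.X s|) (t s : ℝ) :
    ‖∑ j ∈ A, F.ker j s * ee (j * t) - ∑' m : ℤ, F.pk t (s + m)‖ ≤ 5 * C0 / (γ ^ 3 * Δ ^ 4) := by
  have e1 : ∑' m : ℤ, F.pk t (s + m) = ∑' j : ℤ, F.ker j s * ee (j * t) := by
    have e2 : ∀ m : ℤ, F.pk t (s + m) = F.a s * F.B s * ee (F.φ s) *
        cexp (-π * F.be s * ((t - s : ℝ) - m) ^ 2 + 2 * π * I * F.X s * ((t - s : ℝ) - m)) := by
      intro m
      simp only [pk, F.pa, F.pX, F.pY, F.pB, add_assoc, ee_add (F.φ _), F.pφ]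
      rw [ee, ee]
      push_cast
      simp only [mul_assoc, ← Complex.exp_add, be]
      congr 3
      ring
    simp only [e2, tsum_mul_left]
    rw [poisson (F.be_pos s), ← tsum_mul_left, ← tsum_mul_left]
    refine tsum_congr fun j => ?_
    have : ee (F.φ s) * ee (j * (t - s)) = ee (F.φ s - j * s) * ee (j * t) := by
      rw [← ee_add, ← ee_add]; ring_nf
    simp only [ker]
    linear_combination (F.a s * F.B s / F.be s ^ (1 / 2 : ℂ) *
      cexp (-π / F.be s * (j - F.X s) ^ 2)) * this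
  rw [e1, norm_sub_rev]
  have := tail (f := fun j : ℤ => F.ker j s * ee (j * t)) (J := A.map Nat.castEmbedding)
    (X := F.X s) hγ hΔ (fun j => ?_) fun j hj => h4 s j fun k hk h => hj
      (Finset.mem_map.2 ⟨k, hk, h⟩)
  · simpa using this
  rw [norm_mul, ee_norm, mul_one, ker_norm]
  refine (mul_le_of_le_one_left (by have := F.B0 s; positivity) (F.a1 s)).trans
    ((mul_le_of_le_one_left (Real.exp_pos _).le (F.B_le s)).trans ?_)
  have := h3 s
  gcongr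

lemma synth {b b' γ Δ : ℝ} (hb : 0 < b) (h1 : ∀ s, b ≤ F.B s) (h2 : ∀ s, F.B s ≤ b') (hγ : 0 < γ)
    (hΔ : 1 ≤ Δ) (h3 : ∀ s, γ ≤ F.B s ^ 2 / (F.B s ^ 4 + F.Y s ^ 2)) (A : Finset ℕ)
    (h4 : ∀ s, ∀ j : ℤ, (∀ k ∈ A, (k : ℤ) ≠ j) → Δ ≤ |j - F.X s|) (t : ℝ) :
    ‖∑ j ∈ A, F.co j * ee (j * t) - ∫ s, F.pk t s‖ ≤ 5 * C0 / (γ ^ 3 * Δ ^ 4) := by
  have h5 := synth0 hγ hΔ h3 A h4 t
  simp only [co, ← intervalIntegral.integral_mul_const]
  have hc : ∀ j : ℕ, Continuous fun s => F.ker j s * ee (j * t) := fun j =>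
    (F.ker_cont j).mul continuous_const
  have hc2 := continuous_finset_sum A fun j _ => hc j
  have hm : Measurable fun s : ℝ => ∑' m : ℤ, F.pk t (s + m) :=
    Measurable.tsum fun m => ((F.pk_cont t).comp (continuous_add_const _)).measurable
  have i0 : IntervalIntegrable (fun s => ∑ j ∈ A, F.ker j s * ee (j * t) -
      ∑' m : ℤ, F.pk t (s + m)) volume 0 1 :=
    intervalIntegrable_const.mono_fun' (hc2.measurable.sub hm).aestronglyMeasurable
      (Eventually.of_forall h5)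
  have i1 : IntervalIntegrable (fun s => ∑' m : ℤ, F.pk t (s + m)) volume 0 1 := by
    simpa using (hc2.intervalIntegrable 0 1).sub i0
  rw [← unfold_int (pk_int hb h1 h2 t),
    ← intervalIntegral.integral_finset_sum fun j _ => (hc j).intervalIntegrable _ _,
    ← intervalIntegral.integral_sub (hc2.intervalIntegrable _ _) i1]
  simpa using intervalIntegral.norm_integral_le_of_norm_le_const (a := 0) (b := 1)
    fun s _ => h5 s

lemma pow_le_exp {v : ℝ} (hv : 0 ≤ v) :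
    v ≤ Real.exp (v ^ 2) ∧ v ^ 2 ≤ Real.exp (v ^ 2) ∧ v ^ 3 ≤ Real.exp (v ^ 2) := by
  have h := Real.quadratic_le_exp_of_nonneg (sq_nonneg v)
  refine ⟨?_, ?_, ?_⟩
  · nlinarith [sq_nonneg (v - 1), sq_nonneg (v ^ 2)]
  · nlinarith [sq_nonneg (v ^ 2)]
  · nlinarith [sq_nonneg (v ^ 2 - v), sq_nonneg v]

lemma win_lip {b x y : ℝ} (hb : 0 ≤ b) (hx : b ≤ x) (hy : b ≤ y) (u : ℝ) :
    |x * Real.exp (-(π * x ^ 2 * u ^ 2)) - y * Real.exp (-(π * y ^ 2 * u ^ 2))| ≤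
      7 * Real.exp (-(2 * (b * |u|) ^ 2)) * |x - y| := by
  refine (convex_Ici b).norm_image_sub_le_of_norm_hasDerivWithin_le
    (f := fun x => x * Real.exp (-(π * x ^ 2 * u ^ 2)))
    (f' := fun x => (1 - 2 * π * (x ^ 2 * u ^ 2)) * Real.exp (-(π * x ^ 2 * u ^ 2)))
    (fun x _ => HasDerivAt.hasDerivWithinAt ?_) (fun x hx => ?_) hy hx
  · refine ((hasDerivAt_id x).mul ((((hasDerivAt_pow 2 x).const_mul π).mul_const
      (u ^ 2)).neg.exp)).congr_deriv ?_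
    simp; ring
  · have h1 : (b * |u|) ^ 2 ≤ x ^ 2 * u ^ 2 := by
      rw [mul_pow, sq_abs]; have : b ≤ x := hx; gcongr
    have h2 : 0 ≤ x ^ 2 * u ^ 2 := by positivity
    rw [mul_assoc π]
    generalize x ^ 2 * u ^ 2 = z at h1 h2
    have h3 := Real.add_one_le_exp z
    have h4 := Real.pi_gt_three
    have h5 := Real.pi_lt_d2
    have h6 : |1 - 2 * π * z| ≤ 7 * Real.exp z := abs_le.2 ⟨by nlinarith, by nlinarith⟩
    rw [norm_mul, Real.norm_eq_abs, Real.norm_of_nonneg (Real.exp_pos _).le]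
    refine (mul_le_mul_of_nonneg_right h6 (Real.exp_pos _).le).trans ?_
    rw [mul_assoc, ← Real.exp_add]
    gcongr
    nlinarith

lemma time {b b' La LB C2 C3 : ℝ} (hb : 0 < b) (h1 : ∀ s, b ≤ F.B s) (h2 : ∀ s, F.B s ≤ b')
    (hLa : 0 ≤ La) (hLB : 0 ≤ LB) (hC2 : 0 ≤ C2) (hC3 : 0 ≤ C3)
    (ha : ∀ s t, |F.a s - F.a t| ≤ La * |s - t|) (hB : ∀ s t, |F.B s - F.B t| ≤ LB * |s - t|)
    (hφ : ∀ s u, F.a s * ‖ee (F.φ s + F.X s * u + F.Y s * u ^ 2 / 2) - ee (F.φ (s + u))‖ ≤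
      C2 * u ^ 2 + C3 * |u| ^ 3) (t : ℝ) :
    ‖(∫ s, F.pk t s) - F.a t * ee (F.φ t)‖ ≤
      2 * (7 * LB / b + b' * (La / b + C2 / b ^ 2 + C3 / b ^ 3)) / b := by
  have hb' : 0 ≤ b' := hb.le.trans ((h1 0).trans (h2 0))
  have hBt := F.B0 t
  obtain ⟨g1, g2⟩ := gauss_int (c := π * F.B t ^ 2) (by positivity) t
  obtain ⟨g3, g4⟩ := gauss_int (c := b ^ 2) (by positivity) t
  have e : (F.a t * ee (F.φ t) : ℂ) = ∫ s, F.a t * ee (F.φ t) *
      (F.B t * Real.exp (-(π * F.B t ^ 2 * (t - s) ^ 2)) : ℝ) := by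
    rw [integral_const_mul, integral_complex_ofReal, integral_const_mul, g2,
      show π / (π * F.B t ^ 2) = (F.B t)⁻¹ ^ 2 by field_simp, Real.sqrt_sq (by positivity),
      mul_inv_cancel₀ hBt.ne']
    simp
  have g5 : Integrable fun s => F.a t * ee (F.φ t) *
      (F.B t * Real.exp (-(π * F.B t ^ 2 * (t - s) ^ 2)) : ℝ) :=
    (g1.const_mul _).ofReal.const_mul _
  rw [e, ← integral_sub (pk_int hb h1 h2 t) g5]
  set K := 7 * LB / b + b' * (La / b + C2 / b ^ 2 + C3 / b ^ 3) with hK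
  refine (norm_integral_le_of_norm_le (g3.const_mul K) (Eventually.of_forall fun s => ?_)).trans ?_
  swap
  · rw [integral_const_mul, g4, mul_comm 2, mul_div_assoc]
    gcongr
    refine Real.sqrt_le_iff.2 ⟨by positivity, ?_⟩
    rw [div_pow]; gcongr; linarith [Real.pi_lt_d2]
  have a1 := hφ s (t - s)
  have a2 := ha s t
  have a3 := (win_lip hb.le (h1 s) (h1 t) (t - s)).trans
    (mul_le_mul_of_nonneg_left (hB s t) (by positivity))
  have a4 := win_le hb.le h1 h2 s (t - s)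
  have a5 : 0 ≤ F.B s * Real.exp (-(π * F.B s ^ 2 * (t - s) ^ 2)) := by
    have := F.B0 s; positivity
  rw [add_sub_cancel] at a1
  rw [abs_sub_comm s] at a2 a3
  simp only [pk]
  generalize F.B s * Real.exp (-(π * F.B s ^ 2 * (t - s) ^ 2)) = w at a3 a4 a5
  generalize F.B t * Real.exp (-(π * F.B t ^ 2 * (t - s) ^ 2)) = w' at a3
  generalize ee (F.φ s + F.X s * (t - s) + F.Y s * (t - s) ^ 2 / 2) = z at a1
  have e2 : (F.a s * w * z - F.a t * ee (F.φ t) * w' : ℂ) = w * (F.a s * (z - ee (F.φ t))) +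
      ((F.a s - F.a t) * w + F.a t * (w - w') : ℝ) * ee (F.φ t) := by push_cast; ring
  have a6 : ‖(F.a s * w * z - F.a t * ee (F.φ t) * w' : ℂ)‖ ≤
      w * (C2 * (t - s) ^ 2 + C3 * |t - s| ^ 3 + La * |t - s|) + |w - w'| := by
    rw [e2]
    refine (norm_add_le _ _).trans ?_
    simp only [norm_mul, norm_real, Real.norm_eq_abs, ee_norm, mul_one, abs_of_nonneg a5,
      abs_of_nonneg (F.a0 s)]
    have b1 := abs_add_le ((F.a s - F.a t) * w) (F.a t * (w - w'))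
    rw [abs_mul, abs_mul, abs_of_nonneg a5, abs_of_nonneg (F.a0 t)] at b1
    have b2 := mul_le_of_le_one_left (abs_nonneg (w - w')) (F.a1 t)
    nlinarith [mul_le_mul_of_nonneg_left a1 a5, mul_le_mul_of_nonneg_left a2 a5]
  refine a6.trans ?_
  rw [← sq_abs (t - s)] at a4 ⊢
  have hu := abs_nonneg (t - s)
  generalize |t - s| = u at *
  obtain ⟨v, rfl⟩ : ∃ v, u = v / b := ⟨b * u, by field_simp⟩
  have hv : 0 ≤ v := by have := mul_nonneg hu hb.le; rwa [div_mul_cancel₀ _ hb.ne'] at this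
  obtain ⟨p1, p2, p3⟩ := pow_le_exp hv
  rw [mul_div_cancel₀ _ hb.ne'] at a3
  rw [mul_assoc π, ← mul_pow, mul_div_cancel₀ _ hb.ne'] at a4
  rw [← mul_pow, mul_div_cancel₀ _ hb.ne']
  have q1 : Real.exp (-(π * v ^ 2)) ≤ Real.exp (-(2 * v ^ 2)) := by
    gcongr; linarith [Real.pi_gt_three]
  have q2 : Real.exp (-(2 * v ^ 2)) * Real.exp (v ^ 2) = Real.exp (-v ^ 2) := by
    rw [← Real.exp_add]; ring_nf
  have q3 : C2 * (v / b) ^ 2 + C3 * (v / b) ^ 3 + La * (v / b) ≤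
      (La / b + C2 / b ^ 2 + C3 / b ^ 3) * Real.exp (v ^ 2) := by
    calc _ = La / b * v + C2 / b ^ 2 * v ^ 2 + C3 / b ^ 3 * v ^ 3 := by ring
      _ ≤ La / b * Real.exp (v ^ 2) + C2 / b ^ 2 * Real.exp (v ^ 2) +
          C3 / b ^ 3 * Real.exp (v ^ 2) := by gcongr
      _ = _ := by ring
  calc _ ≤ b' * Real.exp (-(2 * v ^ 2)) * ((La / b + C2 / b ^ 2 + C3 / b ^ 3) * Real.exp (v ^ 2))
        + 7 * Real.exp (-(2 * v ^ 2)) * (LB * (Real.exp (v ^ 2) / b)) := by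
        refine add_le_add (mul_le_mul (a4.trans (by gcongr)) q3 (by positivity) (by positivity))
          (a3.trans (by gcongr))
    _ = _ := by rw [← q2, hK]; ring

end Fam

end Pool.Agent.H98.Flat
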