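import Mathlib
import Pool.Agent.H98.Flat2

set_option autoImplicit false

namespace Pool.Agent.H98.Flat

open Set Filter Topology MeasureTheory Complex
open scoped Real

def Lip (L : ℝ) (g : ℝ → ℝ) : Prop := ∀ x ∈ Icc (0 : ℝ) 1, ∀ y ∈ Icc (0 : ℝ) 1,
  |g x - g y| ≤ L * |x - y|

lemma fract_mem (s : ℝ) : Int.fract s ∈ Icc (0 : ℝ) 1 :=
  ⟨Int.fract_nonneg s, (Int.fract_lt_one s).le⟩

lemma per_lip {L : ℝ} {g : ℝ → ℝ} (hL : 0 ≤ L) (h : Lip L g) (h01 : g 0 = g 1) (s t : ℝ) :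
    |g (Int.fract s) - g (Int.fract t)| ≤ L * |s - t| := by
  wlog hst : s ≤ t generalizing s t
  · rw [abs_sub_comm, abs_sub_comm s]; exact this t s (le_of_not_ge hst)
  have a1 := fract_mem s
  have a2 := fract_mem t
  rcases (Int.floor_mono hst).eq_or_lt with e | e
  · have : Int.fract s - Int.fract t = s - t := by simp only [Int.fract, e]; ring
    exact this ▸ h _ a1 _ a2
  · have e2 : (⌊s⌋ : ℝ) + 1 ≤ ⌊t⌋ := by exact_mod_cast e
    have b1 := h _ a1 1 ⟨zero_le_one, le_rfl⟩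
    have b2 := h 0 ⟨le_rfl, zero_le_one⟩ _ a2
    rw [abs_of_nonpos (sub_nonpos.2 a1.2)] at b1
    rw [abs_of_nonpos (sub_nonpos.2 a2.1), h01] at b2
    have b3 := abs_sub_le (g (Int.fract s)) (g 1) (g (Int.fract t))
    have b4 : -(Int.fract s - 1) + -(0 - Int.fract t) ≤ |s - t| := by
      rw [abs_of_nonpos (sub_nonpos.2 hst)]; simp only [Int.fract]; linarith
    nlinarith [mul_le_mul_of_nonneg_left b4 hL]

lemma per_eq {g : ℝ → ℝ} (h01 : g 0 = g 1) {x : ℝ} (hx : x ∈ Icc (0 : ℝ) 1) :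
    g (Int.fract x) = g x := by
  rcases hx.2.eq_or_lt with rfl | h
  · simp [h01]
  · rw [Int.fract_eq_self.2 ⟨hx.1, h⟩]

lemma cont_of_lip {L : ℝ} {f : ℝ → ℝ} (h : ∀ s t, |f s - f t| ≤ L * |s - t|) : Continuous f :=
  (LipschitzWith.of_dist_le' h).continuous

lemma mvt {f f' : ℝ → ℝ} {K u : ℝ} (h : ∀ v, |v| ≤ |u| → HasDerivAt f (f' v) v)
    (h' : ∀ v, |v| ≤ |u| → |f' v| ≤ K) : |f u - f 0| ≤ K * |u| := by
  simpa using (convex_Icc (-|u|) |u|).norm_image_sub_le_of_norm_hasDerivWithin_le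
    (fun v hv => (h v (abs_le.2 hv)).hasDerivWithinAt) (fun v hv => h' v (abs_le.2 hv))
    (abs_le.1 (by simp : |(0 : ℝ)| ≤ |u|)) (abs_le.1 le_rfl)

lemma tay {φ X : ℝ → ℝ} (hφ : ∀ s, HasDerivAt φ (X s) s) (s u Y K : ℝ)
    (h : ∀ v, |v| ≤ |u| → |X (s + v) - X s - Y * v| ≤ K) :
    ‖ee (φ s + X s * u + Y * u ^ 2 / 2) - ee (φ (s + u))‖ ≤ 7 * (K * |u|) := by
  have := mvt (f := fun v => φ (s + v) - X s * v - Y * v ^ 2 / 2) (fun v _ =>
    ((((hφ (s + v)).comp_const_add s v).sub ((hasDerivAt_id v).const_mul (X s))).sub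
      (((hasDerivAt_pow 2 v).const_mul Y).div_const 2)).congr_deriv (by simp; ring)) h
  refine (ee_lip _ _).trans (mul_le_mul_of_nonneg_left (le_trans (le_of_eq ?_) this) (by norm_num))
  rw [abs_sub_comm]; congr 1; simp; ring

lemma sub_le {U U1 g : ℝ → ℝ} (hU : ∀ s ∈ Icc (0 : ℝ) 1, HasDerivAt U (U1 s) s)
    (hc : ContinuousOn U1 (Icc 0 1)) (h01 : U 0 ≤ U 1) (hg : Continuous g) (hi : Integrable g)
    (h0 : ∀ x, 0 ≤ g x) : IntervalIntegrable (fun s => g (U s) * U1 s) volume 0 1 ∧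
      ∫ s in (0 : ℝ)..1, g (U s) * U1 s ≤ ∫ x, g x := by
  rw [← uIcc_of_le zero_le_one] at hU hc
  refine ⟨((hg.comp_continuousOn fun s hs => (hU s hs).continuousAt.continuousWithinAt).mul
    hc).intervalIntegrable, ?_⟩
  have := intervalIntegral.integral_comp_mul_deriv hU hc hg
  simp only [Function.comp] at this
  rw [this, intervalIntegral.integral_of_le h01]
  exact setIntegral_le_integral hi (Eventually.of_forall h0)

noncomputable def cut (l x : ℝ) : ℝ := max 0 (min 1 (min (x / l - 1) ((1 - x) / l - 2)))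

noncomputable def tent (l x : ℝ) : ℝ := min x ((1 - x) / l)

section
variable {l : ℝ} (hl : 0 < l)
include hl

lemma cut_ne {x : ℝ} (h : cut l x ≠ 0) : l ≤ x ∧ x ≤ 1 - 2 * l := by
  by_contra h2
  refine h (max_eq_left ((min_le_right _ _).trans ?_))
  rcases not_and_or.1 h2 with h3 | h3
  · exact (min_le_left _ _).trans (by rw [sub_nonpos, div_le_one hl]; linarith)
  · exact (min_le_right _ _).trans (by rw [sub_nonpos, div_le_iff₀ hl]; linarith)

lemma cut_one {x : ℝ} (h1 : 3 * l < x) (h2 : x < 1 - 3 * l) : cut l x = 1 := by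
  rw [cut, min_eq_left, max_eq_right zero_le_one]
  refine le_min ?_ ?_ <;> rw [le_sub_iff_add_le, le_div_iff₀ hl] <;> linarith

lemma cut_lip : Lip l⁻¹ (cut l) := fun x _ y _ => by
  have a1 : |(x / l - 1) - (y / l - 1)| ≤ l⁻¹ * |x - y| := by
    rw [show (x / l - 1) - (y / l - 1) = l⁻¹ * (x - y) by ring, abs_mul, abs_of_pos (inv_pos.2 hl)]
  have a2 : |((1 - x) / l - 2) - ((1 - y) / l - 2)| ≤ l⁻¹ * |x - y| := by
    rw [show ((1 - x) / l - 2) - ((1 - y) / l - 2) = l⁻¹ * (y - x) by ring, abs_mul,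
      abs_of_pos (inv_pos.2 hl), abs_sub_comm]
  have a3 : (0 : ℝ) ≤ l⁻¹ * |x - y| := by positivity
  refine (abs_max_sub_max_le_max _ _ _ _).trans (max_le (by simpa using a3)
    ((abs_min_sub_min_le_max _ _ _ _).trans (max_le (by simpa using a3)
      ((abs_min_sub_min_le_max _ _ _ _).trans (max_le a1 a2)))))

lemma cut_01 : cut l 0 = cut l 1 := by
  have h0 : cut l 0 = 0 := by_contra fun h => by linarith [(cut_ne hl h).1]
  have h1 : cut l 1 = 0 := by_contra fun h => by linarith [(cut_ne hl h).2]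
  rw [h0, h1]

lemma tent_mem {x : ℝ} (hx : x ∈ Icc (0 : ℝ) 1) : tent l x ∈ Icc (0 : ℝ) 1 :=
  ⟨le_min hx.1 (div_nonneg (sub_nonneg.2 hx.2) hl.le), (min_le_left _ _).trans hx.2⟩

lemma tent_eq {x : ℝ} (h : x ≤ 1 - l) : tent l x = x :=
  min_eq_left (le_trans (by linarith) ((one_le_div hl).2 (by linarith)))

lemma tent_lip (hl1 : l ≤ 1) (x y : ℝ) : |tent l x - tent l y| ≤ l⁻¹ * |x - y| := by
  refine (abs_min_sub_min_le_max _ _ _ _).trans (max_le
    (le_mul_of_one_le_left (abs_nonneg _) (one_le_inv₀ hl |>.2 hl1)) (le_of_eq ?_))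
  rw [show (1 - x) / l - (1 - y) / l = l⁻¹ * (y - x) by ring, abs_mul,
    abs_of_pos (inv_pos.2 hl), abs_sub_comm]

lemma tent_01 : tent l 0 = tent l 1 := by simp [tent, hl.le]

end

lemma cut_mem (l x : ℝ) : cut l x ∈ Icc (0 : ℝ) 1 :=
  ⟨le_max_left _ _, max_le zero_le_one (min_le_left _ _)⟩

theorem design {U U1 : ℝ → ℝ} {l L3 y0 y1 S S' κ lo hi W ω B2 Δ : ℝ} (hl : 0 < l) (hl1 : l ≤ 1)
    (hL3 : 0 ≤ L3) (hy0 : 0 < y0) (hS : 0 < S) (hκ : 0 < κ) (hW : 0 < W) (hω : 0 < ω)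
    (hB2 : 0 < B2) (hΔ : 1 ≤ Δ) (hlo : 0 ≤ lo) (hS' : y1 ≤ S') (hS2 : hi - lo ≤ S' * l)
    (hU : ∀ s ∈ Icc (0 : ℝ) 1, HasDerivAt U (U1 s) s) (hL : Lip L3 U1)
    (hY : ∀ s ∈ Icc (0 : ℝ) 1, y0 ≤ U1 s ∧ U1 s ≤ y1)
    (hSS : ∀ s ∈ Icc (0 : ℝ) 1, s ≤ 3 * l ∨ 1 - 3 * l ≤ s → S ≤ U1 s)
    (hk : ∀ s ∈ Icc (0 : ℝ) 1, 1 ≤ (κ * U s) ^ 2 * U1 s)
    (hr : ∀ s ∈ Icc (0 : ℝ) 1, lo ≤ U s ∧ U s ≤ hi) (hom : 1 + y1 ^ 2 / W ^ 4 ≤ ω ^ 2)
    (I0 : ℤ) (hI : ∫ s in (0 : ℝ)..1, min (U s) (U 0 + S' * (1 - s)) = I0) (A : Finset ℕ)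
    (hA : ∀ x ∈ Icc lo hi, ∀ j : ℤ, (∀ k ∈ A, (k : ℤ) ≠ j) → Δ ≤ |j - x|) :
    ∃ c : ℕ → ℂ, (∀ j : ℕ, ‖c j‖ ≤ κ * (ω * j + 2 * ω ^ 2 * W) + (B2 / S + B2 / S')) ∧ ∀ t : ℝ,
      |‖∑ j ∈ A, c j * ee (j * t)‖ - 1| ≤
        (5 * C0 / ((1 / (W * ω) ^ 2) ^ 3 * Δ ^ 4) + 2 * (7 * (L3 * l⁻¹ / W) / (y0 / W) + y1 / W *
          (l⁻¹ / (y0 / W) + 0 / (y0 / W) ^ 2 + (7 * L3 + 2 / l ^ 3) / (y0 / W) ^ 3)) / (y0 / W)) +
        (5 * C0 / ((1 / B2 ^ 2) ^ 3 * Δ ^ 4) +
          2 * (7 * 0 / B2 + B2 * (l⁻¹ / B2 + 7 * S' / B2 ^ 2 + 0 / B2 ^ 3)) / B2) := by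
  have m0 : (0 : ℝ) ∈ Icc (0 : ℝ) 1 := ⟨le_rfl, zero_le_one⟩
  have m1 : (1 : ℝ) ∈ Icc (0 : ℝ) 1 := ⟨zero_le_one, le_rfl⟩
  have hy1 : 0 < y1 := hy0.trans_le ((hY 0 m0).1.trans (hY 0 m0).2)
  have hS0 : 0 < S' := hy1.trans_le hS'
  have cU1 : ContinuousOn U1 (Icc 0 1) :=
    (LipschitzOnWith.of_dist_le' fun x hx y hy => hL x hx y hy).continuousOn
  have hmono : MonotoneOn U (Icc 0 1) := monotoneOn_of_hasDerivWithinAt_nonneg (convex_Icc 0 1)
    (fun s hs => (hU s hs).continuousAt.continuousWithinAt)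
    (fun s hs => (hU s (interior_subset hs)).hasDerivWithinAt)
    fun s hs => hy0.le.trans (hY s (interior_subset hs)).1
  have hU01 : ∀ s ∈ Icc (0 : ℝ) 1, U 0 ≤ U s := fun s hs => hmono m0 hs hs.1
  set X0 : ℝ → ℝ := fun s => min (U s) (U 0 + S' * (1 - s)) with hX0
  have x01 : X0 0 = X0 1 := by simp [hX0, hS0.le, hU01 1 m1]
  have xl : Lip S' X0 := fun x hx y hy => (abs_min_sub_min_le_max _ _ _ _).trans (max_le
    ((convex_Icc 0 1).norm_image_sub_le_of_norm_hasDerivWithin_le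
      (fun s hs => (hU s hs).hasDerivWithinAt) (fun s hs => (abs_le.2
        ⟨by linarith [(hY s hs).1], (hY s hs).2.trans hS'⟩ : |U1 s| ≤ S')) hy hx) (by
      rw [show U 0 + S' * (1 - x) - (U 0 + S' * (1 - y)) = S' * (y - x) by ring, abs_mul,
        abs_of_pos hS0, abs_sub_comm]))
  have xe : ∀ x ∈ Icc (0 : ℝ) 1, x ≤ 1 - l → X0 x = U x := fun x hx h => min_eq_left (by
    nlinarith [(hr x hx).2, (hr 0 m0).1, mul_le_mul_of_nonneg_left (show l ≤ 1 - x by linarith) hS0.le])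
  have xr : ∀ x ∈ Icc (0 : ℝ) 1, X0 x ∈ Icc lo hi := fun x hx =>
    ⟨le_min (hr x hx).1 (by nlinarith [(hr 0 m0).1, hx.2]), (min_le_left _ _).trans (hr x hx).2⟩
  set X : ℝ → ℝ := fun s => X0 (Int.fract s) with hX
  have XL := per_lip hS0.le xl x01
  have cX : Continuous X := cont_of_lip XL
  have pX : ∀ s (m : ℤ), X (s + m) = X s := fun s m => by simp [hX]
  set φ : ℝ → ℝ := fun s => ∫ x in (0 : ℝ)..s, X x with hφ
  have dφ : ∀ s, HasDerivAt φ (X s) s := fun s => (cX.integral_hasStrictDerivAt 0 s).hasDerivAt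
  have cφ : Continuous φ := continuous_iff_continuousAt.2 fun s => (dφ s).continuousAt
  have pφ : ∀ s (m : ℤ), ee (φ (s + m)) = ee (φ s) := by
    intro s m
    have hp : Function.Periodic X 1 := fun x => by simpa using pX x 1
    have e1 := hp.intervalIntegral_add_zsmul_eq m s fun a b => cX.intervalIntegrable a b
    have e2 : ∫ x in (0 : ℝ)..0 + 1, X x = I0 := by
      rw [zero_add, ← hI]
      exact intervalIntegral.integral_congr fun x hx => per_eq x01 (by simpa using hx)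
    rw [hp.intervalIntegral_add_eq s 0, e2] at e1
    have e3 : φ (s + m) = φ s + (m * I0 : ℤ) := by
      rw [hφ]; simp only
      rw [← intervalIntegral.integral_add_adjacent_intervals (b := s) (cX.intervalIntegrable _ _)
        (cX.intervalIntegrable _ _)]
      simpa using e1
    rw [e3, ee_add, ee_int, mul_one]
  have aL := per_lip (inv_pos.2 hl).le (cut_lip hl) (cut_01 hl)
  have yl : Lip (L3 * l⁻¹) fun x => U1 (tent l x) := fun x hx y hy =>
    (hL _ (tent_mem hl hx) _ (tent_mem hl hy)).trans (by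
      rw [mul_assoc]; exact mul_le_mul_of_nonneg_left (tent_lip hl hl1 x y) hL3)
  have YL := per_lip (by positivity) yl (by simp only [tent_01 hl])
  have Yr := fun s => hY _ (tent_mem hl (fract_mem s))
  let F1 : Fam := ⟨fun s => cut l (Int.fract s), X, fun s => U1 (tent l (Int.fract s)),
    fun s => U1 (tent l (Int.fract s)) / W, φ, cont_of_lip aL, cX, cont_of_lip YL,
    (cont_of_lip YL).div_const W, cφ, by simp, pX, by simp, by simp, pφ,
    fun s => (cut_mem _ _).1, fun s => (cut_mem _ _).2,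
    fun s => div_pos (hy0.trans_le (Yr s).1) hW⟩
  let F2 : Fam := ⟨fun s => 1 - cut l (Int.fract s), X, fun _ => 0, fun _ => B2, φ,
    continuous_const.sub (cont_of_lip aL), cX, continuous_const, continuous_const, cφ, by simp, pX,
    by simp, by simp, pφ, fun s => sub_nonneg.2 (cut_mem _ _).2,
    fun s => sub_le_self _ (cut_mem _ _).1, fun _ => hB2⟩
  have g1 : ∀ s, 1 / (W * ω) ^ 2 ≤ F1.B s ^ 2 / (F1.B s ^ 4 + F1.Y s ^ 2) := by
    intro s
    obtain ⟨a1, a2⟩ := Yr s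
    change _ ≤ (_ / W) ^ 2 / ((_ / W) ^ 4 + U1 (tent l (Int.fract s)) ^ 2)
    generalize U1 (tent l (Int.fract s)) = y at a1 a2
    have a3 : 0 < y := hy0.trans_le a1
    have a4 : 1 + y ^ 2 / W ^ 4 ≤ ω ^ 2 := le_trans (by gcongr) hom
    rw [show (y / W) ^ 2 / ((y / W) ^ 4 + y ^ 2) = 1 / (W ^ 2 * (1 + y ^ 2 / W ^ 4)) by field_simp; ring,
      mul_pow]
    gcongr
  refine ⟨fun j => F1.co j + F2.co j, fun j => (norm_add_le _ _).trans (add_le_add ?_ ?_),
    fun t => ?_⟩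
  · have hj : (0 : ℝ) ≤ j := j.cast_nonneg
    obtain ⟨i1, i2⟩ := Fam.gauss_int (c := π / (W * ω) ^ 2) (by positivity) j
    obtain ⟨i3, i4⟩ := Fam.gauss_int (c := 1 / (W * ω) ^ 2) (by positivity) j
    obtain ⟨i5, i6⟩ := sub_le (g := fun x => κ / W * (j * Real.exp (-(π / (W * ω) ^ 2 *
      (j - x) ^ 2)) + W * ω * Real.exp (-(1 / (W * ω) ^ 2 * (j - x) ^ 2)))) hU cU1 (hU01 1 m1)
      (by fun_prop) (((i1.const_mul _).add (i3.const_mul _)).const_mul _) fun x => by positivity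
    refine ((intervalIntegral.norm_integral_le_of_norm_le zero_le_one
      (Eventually.of_forall fun s hs => ?_) i5).trans i6).trans ?_
    · have hs' : s ∈ Icc (0 : ℝ) 1 := Ioc_subset_Icc_self hs
      have hy := hy0.trans_le (hY s hs').1
      rw [Fam.ker_norm]
      by_cases h0 : cut l s = 0
      · have : F1.a s = 0 := (per_eq (cut_01 hl) hs').trans h0
        rw [this, zero_mul]; positivity
      obtain ⟨b1, b2⟩ := cut_ne hl h0
      have e0 : Int.fract s = s := Int.fract_eq_self.2 ⟨hs'.1, by linarith⟩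
      have e1 : F1.X s = U s := by
        change X0 (Int.fract s) = _; rw [e0, xe s hs' (by linarith)]
      have e2 : F1.Y s = U1 s := by
        change U1 (tent l (Int.fract s)) = _; rw [e0, tent_eq hl (by linarith)]
      have e3 : F1.B s = U1 s / W := congrArg (· / W) e2
      have hu : 0 ≤ U s := hlo.trans (hr s hs').1
      have b3 : 1 ≤ κ * U s * √‖F1.be s‖ := by
        have c1 : U1 s ≤ ‖F1.be s‖ := abs_le_of_sq_le_sq' (by
          rw [F1.be_norm, e2]; have := F1.B0 s; nlinarith [pow_pos this 4]) (norm_nonneg _) |>.2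
        refine abs_le_of_sq_le_sq' ?_ (by positivity) |>.2
        rw [mul_pow, Real.sq_sqrt (norm_nonneg _), one_pow]
        exact (hk s hs').trans (by gcongr)
      have b4 : F1.B s / √‖F1.be s‖ ≤ κ / W * U s * U1 s := by
        rw [e3, div_le_iff₀ (Real.sqrt_pos.2 (norm_pos_iff.2 (F1.be_ne s)))]
        calc U1 s / W = U1 s / W * 1 := (mul_one _).symm
          _ ≤ U1 s / W * (κ * U s * √‖F1.be s‖) := by gcongr
          _ = _ := by ring
      have b5 : Real.exp (-(π * (F1.B s ^ 2 / (F1.B s ^ 4 + F1.Y s ^ 2)) * (j - U s) ^ 2)) ≤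
          Real.exp (-(π / (W * ω) ^ 2 * (j - U s) ^ 2)) := by
        rw [div_eq_mul_one_div π]; have := g1 s; gcongr
      have b6 : U s * Real.exp (-(π / (W * ω) ^ 2 * (j - U s) ^ 2)) ≤
          j * Real.exp (-(π / (W * ω) ^ 2 * (j - U s) ^ 2)) +
            W * ω * Real.exp (-(1 / (W * ω) ^ 2 * (j - U s) ^ 2)) := by
        have hw : 0 < W * ω := by positivity
        obtain ⟨v, hv, e⟩ : ∃ v, 0 ≤ v ∧ |j - U s| = W * ω * v :=
          ⟨|j - U s| / (W * ω), by positivity, by field_simp⟩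
        have c1 : U s ≤ j + W * ω * v := by linarith [neg_abs_le (j - U s)]
        rw [← sq_abs (j - U s), e, show π / (W * ω) ^ 2 * (W * ω * v) ^ 2 = π * v ^ 2 by field_simp,
          show 1 / (W * ω) ^ 2 * (W * ω * v) ^ 2 = v ^ 2 by field_simp]
        have c2 : v * Real.exp (-(π * v ^ 2)) ≤ Real.exp (-v ^ 2) := by
          refine (mul_le_mul_of_nonneg_right (Fam.pow_le_exp hv).1 (Real.exp_pos _).le).trans ?_
          rw [← Real.exp_add]
          gcongr
          nlinarith [Real.pi_gt_three, sq_nonneg v]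
        nlinarith [mul_le_mul_of_nonneg_right c1 (Real.exp_pos (-(π * v ^ 2))).le,
          mul_le_mul_of_nonneg_left c2 hw.le]
      refine (mul_le_of_le_one_left (by have := F1.B0 s; positivity) (F1.a1 s)).trans ?_
      rw [e1]
      calc _ ≤ κ / W * U s * U1 s * Real.exp (-(π / (W * ω) ^ 2 * (j - U s) ^ 2)) := by gcongr
        _ = κ / W * (U s * Real.exp (-(π / (W * ω) ^ 2 * (j - U s) ^ 2))) * U1 s := by ring
        _ ≤ _ := by gcongr
    · rw [integral_const_mul, integral_add (i1.const_mul _) (i3.const_mul _), integral_const_mul,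
        integral_const_mul, i2, i4, show π / (π / (W * ω) ^ 2) = (W * ω) ^ 2 by field_simp,
        Real.sqrt_sq (by positivity)]
      have : √(π / (1 / (W * ω) ^ 2)) ≤ 2 * (W * ω) := Real.sqrt_le_iff.2 ⟨by positivity, by
        rw [div_div_eq_mul_div, div_one, mul_pow 2]; gcongr; linarith [Real.pi_lt_d2]⟩
      calc _ ≤ κ / W * (j * (W * ω) + W * ω * (2 * (W * ω))) := by gcongr
        _ = _ := by field_simp
  · obtain ⟨i1, i2⟩ := Fam.gauss_int (c := π / B2 ^ 2) (by positivity) j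
    obtain ⟨i3, i4⟩ := Fam.gauss_int (c := π / B2 ^ 2 * S' ^ 2) (by positivity)
      (1 - (j - U 0) / S')
    obtain ⟨i5, i6⟩ := sub_le (g := fun x => S⁻¹ * Real.exp (-(π / B2 ^ 2 * (j - x) ^ 2))) hU cU1
      (hU01 1 m1) (by fun_prop) (i1.const_mul _) fun x => by positivity
    refine (intervalIntegral.norm_integral_le_of_norm_le zero_le_one
      (Eventually.of_forall fun s hs => ?_) (i5.add i3.intervalIntegrable)).trans ?_
    · have hs' : s ∈ Icc (0 : ℝ) 1 := Ioc_subset_Icc_self hs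
      have hy := hy0.trans_le (hY s hs').1
      rw [Fam.ker_norm]
      by_cases h0 : s ≤ 3 * l ∨ 1 - 3 * l ≤ s
      swap
      · push Not at h0
        have : F2.a s = 0 := by
          change 1 - cut l (Int.fract s) = 0
          rw [per_eq (cut_01 hl) hs', cut_one hl h0.1 h0.2, sub_self]
        rw [this, zero_mul]; positivity
      refine (mul_le_of_le_one_left (by have := F2.B0 s; positivity) (F2.a1 s)).trans
        ((mul_le_of_le_one_left (Real.exp_pos _).le (F2.B_le s)).trans ?_)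
      change Real.exp (-(π * (B2 ^ 2 / (B2 ^ 4 + 0 ^ 2)) * (j - X0 (Int.fract s)) ^ 2)) ≤ _
      rw [per_eq x01 hs', show π * (B2 ^ 2 / (B2 ^ 4 + 0 ^ 2)) = π / B2 ^ 2 by field_simp; ring,
        show π / B2 ^ 2 * S' ^ 2 * (1 - (j - U 0) / S' - s) ^ 2 =
          π / B2 ^ 2 * (j - (U 0 + S' * (1 - s))) ^ 2 by field_simp; ring]
      have b1 : 1 ≤ S⁻¹ * U1 s := by rw [le_inv_mul_iff₀ hS, mul_one]; exact hSS s hs' h0
      have b2 := mul_le_mul_of_nonneg_left b1 (Real.exp_pos (-(π / B2 ^ 2 * (j - U s) ^ 2))).le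
      rcases min_choice (U s) (U 0 + S' * (1 - s)) with h | h <;> simp only [hX0, h]
      · nlinarith [Real.exp_pos (-(π / B2 ^ 2 * (j - (U 0 + S' * (1 - s))) ^ 2))]
      · exact le_add_of_nonneg_left (by positivity)
    · rw [intervalIntegral.integral_add i5 i3.intervalIntegrable]
      refine add_le_add (i6.trans (le_of_eq ?_)) ?_
      · rw [integral_const_mul, i2, show π / (π / B2 ^ 2) = B2 ^ 2 by field_simp,
          Real.sqrt_sq hB2.le]
        ring
      · rw [intervalIntegral.integral_of_le zero_le_one]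
        refine (setIntegral_le_integral i3 (Eventually.of_forall fun _ => by positivity)).trans ?_
        rw [i4, show π / (π / B2 ^ 2 * S' ^ 2) = (B2 / S') ^ 2 by field_simp,
          Real.sqrt_sq (by positivity)]
  have hA' := fun s => hA _ (xr _ (fract_mem s))
  have l1 : ∀ s, y0 / W ≤ F1.B s := fun s => div_le_div_of_nonneg_right (Yr s).1 hW.le
  have l2 : ∀ s, F1.B s ≤ y1 / W := fun s => div_le_div_of_nonneg_right (Yr s).2 hW.le
  have s1 := Fam.synth (F := F1) (by positivity) l1 l2 (by positivity) hΔ g1 A hA' t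
  have s2 := Fam.synth (F := F2) (γ := 1 / B2 ^ 2) hB2 (fun _ => le_rfl) (fun _ => le_rfl)
    (by positivity) hΔ (fun s => le_of_eq (by
      change _ = B2 ^ 2 / (B2 ^ 4 + 0 ^ 2); field_simp; ring)) A hA' t
  have t1 := Fam.time (F := F1) (LB := L3 * l⁻¹ / W) (C2 := 0) (C3 := 7 * L3 + 2 / l ^ 3)
    (by positivity) l1 l2 (by positivity) (by positivity) le_rfl (by positivity) aL
    (fun s t => by
      change |_ / W - _ / W| ≤ _
      rw [← sub_div, abs_div, abs_of_pos hW, div_mul_eq_mul_div]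
      exact div_le_div_of_nonneg_right (YL s t) hW.le) (fun s u => ?_) t
  · have t2 := Fam.time (F := F2) (LB := 0) (C2 := 7 * S') (C3 := 0) hB2 (fun _ => le_rfl)
      (fun _ => le_rfl) (inv_pos.2 hl).le le_rfl (by positivity) le_rfl
      (fun s t => by
        change |1 - _ - (1 - _)| ≤ _
        rw [sub_sub_sub_cancel_left, abs_sub_comm]; exact aL s t)
      (fun s t => by simp [F2]) (fun s u => by
        refine (mul_le_of_le_one_left (norm_nonneg _) (F2.a1 s)).trans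
          ((tay dφ s u 0 (S' * |u|) fun v hv => ?_).trans (le_of_eq ?_))
        · have := XL (s + v) s
          rw [add_sub_cancel_left] at this
          rw [zero_mul, sub_zero]
          exact this.trans (by gcongr)
        · rw [← sq_abs u]; ring) t
    have e : ∑ j ∈ A, (F1.co j + F2.co j) * ee (j * t) - ee (φ t) =
        ((∑ j ∈ A, F1.co j * ee (j * t) - ∫ s, F1.pk t s) +
          ((∫ s, F1.pk t s) - F1.a t * ee (F1.φ t))) +
        ((∑ j ∈ A, F2.co j * ee (j * t) - ∫ s, F2.pk t s) +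
          ((∫ s, F2.pk t s) - F2.a t * ee (F2.φ t))) := by
      simp only [add_mul, Finset.sum_add_distrib, F1, F2]
      push_cast; ring
    have := abs_norm_sub_norm_le (∑ j ∈ A, (F1.co j + F2.co j) * ee (j * t)) (ee (φ t))
    rw [e, ee_norm] at this
    exact this.trans ((norm_add_le _ _).trans (add_le_add
      ((norm_add_le _ _).trans (add_le_add s1 t1)) ((norm_add_le _ _).trans (add_le_add s2 t2))))
  · by_cases h0 : F1.a s = 0
    · rw [h0, zero_mul]; positivity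
    obtain ⟨b1, b2⟩ := cut_ne hl h0
    refine (mul_le_of_le_one_left (norm_nonneg _) (F1.a1 s)).trans ?_
    have hu := abs_nonneg u
    rcases le_total l |u| with h | h
    · refine (norm_sub_le _ _).trans ?_
      rw [ee_norm, ee_norm]
      have : 2 / l ^ 3 * l ^ 3 ≤ 2 / l ^ 3 * |u| ^ 3 := by gcongr
      rw [div_mul_cancel₀ _ (by positivity)] at this
      nlinarith [mul_nonneg hL3 (pow_nonneg hu 3)]
    refine (tay dφ s u _ (L3 * |u| * |u|) fun v hv => ?_).trans (by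
      nlinarith [mul_nonneg (show 0 ≤ 2 / l ^ 3 by positivity) (pow_nonneg hu 3)])
    have c1 : ∀ w, |w| ≤ |v| → Int.fract s + w ∈ Icc (0 : ℝ) 1 ∧ Int.fract s + w ≤ 1 - l := by
      intro w hw
      have := abs_le.1 ((hw.trans hv).trans h)
      exact ⟨⟨by linarith, by linarith⟩, by linarith⟩
    have c2 : X (s + v) = U (Int.fract s + v) := by
      rw [← xe _ (c1 v le_rfl).1 (c1 v le_rfl).2, ← per_eq x01 (c1 v le_rfl).1]
      have := pX (Int.fract s + v) ⌊s⌋
      rw [show Int.fract s + v + ⌊s⌋ = s + v by rw [Int.fract]; ring] at this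
      exact this
    have c3 : X s = U (Int.fract s) := xe _ (fract_mem s) (by linarith)
    have c4 : F1.Y s = U1 (Int.fract s) := congrArg U1 (tent_eq hl (by linarith))
    have := mvt (f := fun w => U (Int.fract s + w) - U1 (Int.fract s) * w)
      (K := L3 * |u|) (u := v) (fun w hw => ((hU _ (c1 w hw).1).comp_const_add _ w).sub
        ((hasDerivAt_id w).const_mul _)) fun w hw => by
          have := hL _ (c1 w hw).1 _ (fract_mem s)
          rw [add_sub_cancel_left] at this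
          rw [mul_one]
          exact this.trans (mul_le_mul_of_nonneg_left (hw.trans hv) hL3)
    rw [c2, c3, c4]
    refine le_trans (le_of_eq ?_) (this.trans (by gcongr))
    congr 1; simp; ring

end Pool.Agent.H98.Flat
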