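import Mathlib
import Pool.Agent.H98.Flat3

set_option autoImplicit false

namespace Pool.Agent.H98.Flat

open Set Filter Topology MeasureTheory Complex
open scoped Real

noncomputable def cb (x : ℝ) : ℝ := Real.exp (Real.log x / 3)

lemma cb_pos (x : ℝ) : 0 < cb x := Real.exp_pos _

lemma cb_cube {x : ℝ} (hx : 0 < x) : cb x ^ 3 = x := by
  rw [cb, ← Real.exp_nat_mul]; push_cast
  rw [mul_div_cancel₀ _ (by norm_num), Real.exp_log hx]

lemma cb_deriv {α β s : ℝ} (h : 0 < α + β * s) :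
    HasDerivAt (fun s => cb (α + β * s)) (β / (3 * cb (α + β * s) ^ 2)) s := by
  refine (((((hasDerivAt_id s).const_mul β).const_add α).log h.ne').div_const 3).exp.congr_deriv ?_
  have h1 := cb_cube h
  have h2 := cb_pos (α + β * s)
  change cb (α + β * s) * (β * 1 / (α + β * s) / 3) = _
  generalize cb (α + β * s) = c at h1 h2
  rw [← h1]; field_simp

lemma sum_sq_le (n : ℕ) : ∑ j ∈ Finset.range (n + 1), (j : ℝ) ^ 2 ≤ (n + 1) ^ 3 / 3 := by
  induction n with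
  | zero => norm_num
  | succ n ih =>
    rw [Finset.sum_range_succ]; push_cast
    have : (0 : ℝ) ≤ n := n.cast_nonneg
    nlinarith

theorem step1 (Q : ℕ) (hQ : 100 ≤ Q) : ∃ κ : ℝ, 0 < κ ∧ ∃ c : ℕ → ℂ,
    (∀ j ≤ Q ^ 100, ‖c j‖ ≤ κ * j) ∧
    ∑ j ∈ Finset.range (Q ^ 100 + 1), (κ * j) ^ 2 ≤ 1 + (2 * C0 + 30) / Q ∧
    ∀ t : ℝ, |‖∑ j ∈ Finset.range (Q ^ 100 + 1), c j * ee (j * t)‖ - 1| ≤ (2 * C0 + 30) / Q := by
  obtain ⟨q, hqQ⟩ : ∃ q : ℝ, q = Q := ⟨_, rfl⟩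
  have hq : 100 ≤ q := by rw [hqQ]; exact_mod_cast hQ
  have q0 : 0 < q := by linarith
  have q1 : 1 ≤ q := by linarith
  have pw : ∀ {a b : ℕ}, a ≤ b → q ^ a ≤ q ^ b := fun h => pow_le_pow_right₀ q1 h
  obtain ⟨x, hx⟩ : ∃ x, x = q⁻¹ := ⟨_, rfl⟩
  have x0 : 0 < x := by rw [hx]; positivity
  have x1 : x ≤ 1 / 100 := by rw [hx, one_div]; gcongr
  have xq : x * q = 1 := by rw [hx]; field_simp
  have x2 : x ^ 2 ≤ x / 100 := by nlinarith
  have x3 : x ^ 3 ≤ x / 10000 := by nlinarith [mul_le_mul_of_nonneg_left x2 x0.le]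
  have px : ∀ a : ℕ, 3 ≤ a → x ^ a ≤ x / 10000 := fun a h =>
    (pow_le_pow_of_le_one x0.le (by linarith) h).trans x3
  obtain ⟨β, hβ⟩ : ∃ β, β = (1 - 4 * x) ^ 3 - (2 * x) ^ 3 := ⟨_, rfl⟩
  have b1 : 1 - 13 * x ≤ β := by rw [hβ]; nlinarith [sq_nonneg x]
  have b2 : β ≤ 1 := by rw [hβ]; nlinarith [pow_pos x0 3]
  have b0 : 0 < β := by linarith
  have hp : ∀ s ∈ Icc (0 : ℝ) 1, 0 < (2 * x) ^ 3 + β * s := fun s hs => by
    have := hs.1; positivity
  have hc : ∀ s ∈ Icc (0 : ℝ) 1, 2 * x ≤ cb ((2 * x) ^ 3 + β * s) ∧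
      cb ((2 * x) ^ 3 + β * s) ≤ 1 - 4 * x := fun s hs =>
    ⟨le_of_pow_le_pow_left₀ three_ne_zero (cb_pos _).le (by
      rw [cb_cube (hp s hs)]; exact le_add_of_nonneg_right (mul_nonneg b0.le hs.1)),
    le_of_pow_le_pow_left₀ three_ne_zero (by linarith) (by
      rw [cb_cube (hp s hs)]; nlinarith [hs.2])⟩
  have hE : ∀ s ∈ Icc (0 : ℝ) 1, Real.exp (-(q ^ 9 / 3 * s)) ≤ 1 ∧
      Real.exp (q ^ 9 / 3 * (s - 1)) ≤ 1 := fun s hs =>
    ⟨Real.exp_le_one_iff.2 (neg_nonpos.2 (by have := hs.1; positivity)),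
      Real.exp_le_one_iff.2 (mul_nonpos_of_nonneg_of_nonpos (by positivity) (by linarith [hs.2]))⟩
  let U0 : ℝ → ℝ := fun s => q ^ 100 * (cb ((2 * x) ^ 3 + β * s) +
    x * (1 - Real.exp (-(q ^ 9 / 3 * s)) + Real.exp (q ^ 9 / 3 * (s - 1))))
  let U1 : ℝ → ℝ := fun s => q ^ 100 * (β / (3 * cb ((2 * x) ^ 3 + β * s) ^ 2) +
    q ^ 8 / 3 * (Real.exp (-(q ^ 9 / 3 * s)) + Real.exp (q ^ 9 / 3 * (s - 1))))
  have dE1 : ∀ s, HasDerivAt (fun s => Real.exp (-(q ^ 9 / 3 * s)))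
      (-(q ^ 9 / 3) * Real.exp (-(q ^ 9 / 3 * s))) s := fun s =>
    ((hasDerivAt_id s).const_mul _).neg.exp.congr_deriv (by simp; ring)
  have dE2 : ∀ s, HasDerivAt (fun s => Real.exp (q ^ 9 / 3 * (s - 1)))
      (q ^ 9 / 3 * Real.exp (q ^ 9 / 3 * (s - 1))) s := fun s =>
    (((hasDerivAt_id s).sub_const 1).const_mul _).exp.congr_deriv (by simp; ring)
  have dU : ∀ s ∈ Icc (0 : ℝ) 1, HasDerivAt U0 (U1 s) s := fun s hs =>
    (((cb_deriv (hp s hs)).add ((((dE1 s).const_sub 1).add (dE2 s)).const_mul x)).const_mul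
      _).congr_deriv (by simp only [U1, hx]; field_simp)
  have hL : Lip (2 * q ^ 117) U1 := fun s hs t ht =>
    (convex_Icc 0 1).norm_image_sub_le_of_norm_hasDerivWithin_le (fun s hs =>
      ((((((cb_deriv (hp s hs)).fun_pow 2).const_mul 3).fun_inv
        (by have := cb_pos ((2 * x) ^ 3 + β * s); positivity)).const_mul β).add
        (((dE1 s).add (dE2 s)).const_mul (q ^ 8 / 3))).const_mul (q ^ 100) |>.hasDerivWithinAt)
      (fun s hs => by
        obtain ⟨c1, -⟩ := hc s hs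
        obtain ⟨e1, e2⟩ := hE s hs
        have e3 := Real.exp_pos (-(q ^ 9 / 3 * s))
        have e4 := Real.exp_pos (q ^ 9 / 3 * (s - 1))
        generalize cb ((2 * x) ^ 3 + β * s) = c at c1
        generalize Real.exp (-(q ^ 9 / 3 * s)) = E at e1 e3
        generalize Real.exp (q ^ 9 / 3 * (s - 1)) = E' at e2 e4
        have c0 : 0 < c := by linarith
        have c2 : 2 / 9 * β ^ 2 * c⁻¹ ^ 5 ≤ 1 * 1 ^ 2 * q ^ 5 := by
          gcongr
          · norm_num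
          · rw [inv_le_comm₀ c0 q0, ← hx]; linarith
        have c3 : 0 ≤ 2 / 9 * β ^ 2 * c⁻¹ ^ 5 := by positivity
        have c4 : q ^ 5 ≤ q ^ 17 := pw (by norm_num)
        have c5 : 0 < q ^ 17 := by positivity
        have : |-(2 / 9 * β ^ 2 * c⁻¹ ^ 5) + q ^ 17 / 9 * (E' - E)| ≤ 2 * q ^ 17 :=
          abs_le.2 ⟨by nlinarith, by nlinarith⟩
        refine le_trans (le_of_eq ?_) ((mul_le_mul_of_nonneg_left this
          (show 0 ≤ q ^ 100 by positivity)).trans (le_of_eq (by ring)))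
        rw [norm_mul, Real.norm_of_nonneg (by positivity), Real.norm_eq_abs]
        congr 2
        norm_num; field_simp; ring) ht hs
  have hY0 : ∀ s ∈ Icc (0 : ℝ) 1, 1 / 4 ≤ β / (3 * cb ((2 * x) ^ 3 + β * s) ^ 2) ∧
      β / (3 * cb ((2 * x) ^ 3 + β * s) ^ 2) ≤ q ^ 8 / 3 := fun s hs => by
    obtain ⟨c1, c2⟩ := hc s hs
    generalize cb ((2 * x) ^ 3 + β * s) = c at c1 c2
    have c0 : 0 < c := by linarith
    refine ⟨(le_div_iff₀ (by positivity)).2 (by nlinarith), (div_le_iff₀ (by positivity)).2 ?_⟩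
    have c3 : 1 ≤ q * c := by nlinarith
    have c4 : q ^ 2 ≤ q ^ 8 := pw (by norm_num)
    nlinarith [mul_le_mul_of_nonneg_right c4 (sq_nonneg c)]
  have hU0 : ∀ s ∈ Icc (0 : ℝ) 1, q ^ 100 * cb ((2 * x) ^ 3 + β * s) ≤ U0 s ∧
      U0 s ≤ q ^ 100 * (1 - 2 * x) := fun s hs => by
    obtain ⟨e1, e2⟩ := hE s hs
    have e3 := Real.exp_pos (-(q ^ 9 / 3 * s))
    have e4 := Real.exp_pos (q ^ 9 / 3 * (s - 1))
    exact ⟨mul_le_mul_of_nonneg_left (by nlinarith) (by positivity),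
      mul_le_mul_of_nonneg_left (by nlinarith [(hc s hs).2]) (by positivity)⟩
  have e99 : q ^ 100 * x = q ^ 99 := by rw [hx]; field_simp
  set I := ∫ s in (0 : ℝ)..1, min (U0 s) (U0 0 + q ^ 109 * (1 - s)) with hI
  have t0 : 0 ≤ ⌈I⌉ - I := sub_nonneg.2 (Int.le_ceil I)
  have t1 : ⌈I⌉ - I ≤ 1 := by linarith [Int.ceil_lt_add_one I]
  obtain ⟨κ, hκ0, hκ⟩ : ∃ κ : ℝ, 0 < κ ∧ κ ^ 2 = 3 / (β * q ^ 300) :=
    ⟨√(3 / (β * q ^ 300)), by positivity, Real.sq_sqrt (by positivity)⟩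
  have key := design (U := fun s => U0 s + (⌈I⌉ - I)) (U1 := U1) (l := (q ^ 9)⁻¹)
    (L3 := 2 * q ^ 117) (y0 := q ^ 100 / 4) (y1 := q ^ 108) (S := q ^ 108 / 9) (S' := q ^ 109)
    (κ := κ) (lo := 2 * q ^ 99) (hi := q ^ 100 - q ^ 99) (W := q ^ 55) (ω := 1 + x) (B2 := q ^ 55)
    (Δ := q ^ 99) (by positivity) (inv_le_one_of_one_le₀ (one_le_pow₀ q1)) (by positivity)
    (by positivity) (by positivity) hκ0 (by positivity) (by positivity) (by positivity)
    (one_le_pow₀ q1) (by positivity) (pw (by norm_num))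
    (by rw [show q ^ 109 * (q ^ 9)⁻¹ = q ^ 100 by field_simp]; linarith [pow_pos q0 99])
    (fun s hs => (dU s hs).add_const _) hL (fun s hs => ?_) (fun s hs h => ?_) (fun s hs => ?_)
    (fun s hs => ?_) ?_ ⌈I⌉ ?_ (Finset.Icc (Q ^ 99) (Q ^ 100)) ?_
  · obtain ⟨c, h1, h2⟩ := key
    refine ⟨κ * (1 + 3 * x), by positivity, fun j => if Q ^ 99 ≤ j then c j else 0,
      fun j _ => ?_, ?_, fun t => ?_⟩
    · beta_reduce
      split_ifs with h
      swap
      · rw [norm_zero]; positivity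
      have hj : q ^ 99 ≤ j := by rw [hqQ]; exact_mod_cast h
      refine (h1 j).trans ?_
      have k1 : x ^ 150 ≤ κ := abs_le_of_sq_le_sq' (by
        rw [hκ, le_div_iff₀ (by positivity), hx]; field_simp; linarith) hκ0.le |>.2
      have k2 : q ^ 55 / (q ^ 108 / 9) + q ^ 55 / q ^ 109 ≤ x ^ 150 * (x * q ^ 99) := by
        rw [hx]; field_simp; nlinarith
      have k3 : 2 * (1 + x) ^ 2 * q ^ 55 ≤ x * q ^ 99 := by
        have : q ^ 56 ≤ q ^ 98 := pw (by norm_num)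
        have e : x * q ^ 99 = q ^ 98 := by rw [hx]; field_simp
        have : 2 * (1 + x) ^ 2 * q ^ 55 ≤ q * q ^ 55 := by gcongr; nlinarith
        rw [e]; nlinarith
      have k4 : x * q ^ 99 ≤ x * j := by gcongr
      have k5 : x ^ 150 * (x * q ^ 99) ≤ κ * (x * j) := by gcongr
      nlinarith [mul_le_mul_of_nonneg_left (k3.trans k4) hκ0.le]
    · simp only [mul_pow _ (_ : ℝ), ← Finset.mul_sum]
      refine (mul_le_mul_of_nonneg_left (sum_sq_le _) (by positivity)).trans ?_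
      push_cast
      rw [← hqQ, hκ, div_eq_mul_inv _ q, ← hx]
      have a1 : q ^ 100 + 1 ≤ q ^ 100 * (1 + x) := by
        rw [mul_add, e99, mul_one]; linarith [one_le_pow₀ (n := 99) q1]
      have a2 : 1 / β ≤ 1 + 15 * x := by rw [div_le_iff₀ b0]; nlinarith
      have a3 : (1 + 15 * x) * (1 + 3 * x) ^ 2 * (1 + x) ^ 3 ≤ 1 + 30 * x := by
        have a4 : (1 + x) ^ 3 ≤ 1 + 4 * x := by nlinarith
        have a5 : (1 + 3 * x) ^ 2 ≤ 1 + 7 * x := by nlinarith
        calc _ ≤ (1 + 15 * x) * (1 + 7 * x) * (1 + 4 * x) := by gcongr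
          _ ≤ _ := by nlinarith
      calc _ ≤ 3 / (β * q ^ 300) * (1 + 3 * x) ^ 2 * ((q ^ 100 * (1 + x)) ^ 3 / 3) := by gcongr
        _ = 1 / β * (1 + 3 * x) ^ 2 * (1 + x) ^ 3 := by field_simp
        _ ≤ (1 + 15 * x) * (1 + 3 * x) ^ 2 * (1 + x) ^ 3 := by gcongr
        _ ≤ _ := by nlinarith [mul_nonneg C0_nonneg x0.le]
    · have e : ∑ j ∈ Finset.range (Q ^ 100 + 1), (if Q ^ 99 ≤ j then c j else 0) * ee (j * t) =
          ∑ j ∈ Finset.Icc (Q ^ 99) (Q ^ 100), c j * ee (j * t) := by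
        simp only [ite_mul, zero_mul, ← Finset.sum_filter]
        congr 1; ext j; simp [Nat.lt_succ_iff, and_comm]
      rw [e]
      refine (h2 t).trans ?_
      rw [← hqQ, div_eq_mul_inv _ q, ← hx]
      have a1 : (1 + x) ^ 6 ≤ 2 ^ 6 := by gcongr; linarith
      have a2 : (1 + x) ^ 6 * x ^ 66 ≤ 2 ^ 6 * (x / 10000) := by gcongr; exact px _ (by norm_num)
      have a3 := mul_le_mul_of_nonneg_left a2 C0_nonneg
      have a4 := mul_le_mul_of_nonneg_left (px 66 (by norm_num)) C0_nonneg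
      have a5 := mul_nonneg C0_nonneg x0.le
      calc _ = 5 * (C0 * ((1 + x) ^ 6 * x ^ 66)) + (448 * x ^ 19 + 32 * x ^ 28 + 7168 * x ^ 10 +
            1024 * x ^ 100) + (5 * (C0 * x ^ 66) + (2 * x ^ 46 + 14 * x)) := by
            have : 1 + x ≠ 0 := by positivity
            generalize 1 + x = ω at this
            rw [hx]; field_simp; ring
        _ ≤ _ := by
            linarith [px 19 (by norm_num), px 28 (by norm_num), px 10 (by norm_num),
              px 100 (by norm_num), px 46 (by norm_num)]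
  · obtain ⟨e1, e2⟩ := hE s hs
    have e3 := Real.exp_pos (-(q ^ 9 / 3 * s))
    have e4 := Real.exp_pos (q ^ 9 / 3 * (s - 1))
    obtain ⟨y1, y2⟩ := hY0 s hs
    have q8 : 0 < q ^ 8 := by positivity
    exact ⟨le_trans (le_of_eq (by ring)) (mul_le_mul_of_nonneg_left (a := q ^ 100)
      (y1.trans (le_add_of_nonneg_right (by positivity))) (by positivity)),
      (mul_le_mul_of_nonneg_left (a := q ^ 100) (c := q ^ 8) (by nlinarith) (by positivity)).trans
        (le_of_eq (by ring))⟩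
  · have e3 := Real.exp_pos (-(q ^ 9 / 3 * s))
    have e4 := Real.exp_pos (q ^ 9 / 3 * (s - 1))
    have e5 : 1 / 3 ≤ Real.exp (-1) := by linarith [Real.exp_neg_one_gt_d9]
    have e6 : q ^ 9 / 3 * (3 * (q ^ 9)⁻¹) = 1 := by field_simp
    have e7 : 0 < q ^ 9 / 3 := by positivity
    have e8 : 1 / 3 ≤ Real.exp (-(q ^ 9 / 3 * s)) + Real.exp (q ^ 9 / 3 * (s - 1)) := by
      rcases h with h | h
      · have : Real.exp (-1) ≤ Real.exp (-(q ^ 9 / 3 * s)) := Real.exp_le_exp.2 (by nlinarith)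
        linarith
      · have : Real.exp (-1) ≤ Real.exp (q ^ 9 / 3 * (s - 1)) := Real.exp_le_exp.2 (by nlinarith)
        linarith
    have q8 : 0 < q ^ 8 := by positivity
    exact le_trans (le_of_eq (by ring)) (mul_le_mul_of_nonneg_left (a := q ^ 100) (b := q ^ 8 / 9)
      (by nlinarith [(hY0 s hs).1]) (by positivity))
  · have c0 := cb_pos ((2 * x) ^ 3 + β * s)
    calc (1 : ℝ) = (κ * (q ^ 100 * cb ((2 * x) ^ 3 + β * s))) ^ 2 *
          (q ^ 100 * (β / (3 * cb ((2 * x) ^ 3 + β * s) ^ 2))) := by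
          generalize cb ((2 * x) ^ 3 + β * s) = c at c0
          rw [mul_pow, hκ]; field_simp
      _ ≤ _ := mul_le_mul (pow_le_pow_left₀ (by positivity) (mul_le_mul_of_nonneg_left
          ((hU0 s hs).1.trans (le_add_of_nonneg_right t0)) hκ0.le) 2) (mul_le_mul_of_nonneg_left
          (le_add_of_nonneg_right (by positivity)) (by positivity)) (by positivity) (sq_nonneg _)
  · have := mul_le_mul_of_nonneg_left (hc s hs).1 (show 0 ≤ q ^ 100 by positivity)
    have := one_le_pow₀ (n := 99) q1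
    exact ⟨by nlinarith [(hU0 s hs).1], by nlinarith [(hU0 s hs).2]⟩
  · rw [show (q ^ 108) ^ 2 / (q ^ 55) ^ 4 = x ^ 4 by rw [hx]; field_simp]
    nlinarith [px 4 (by norm_num)]
  · have cU : ContinuousOn U0 (uIcc 0 1) := fun s hs =>
      (dU s (by simpa using hs)).continuousAt.continuousWithinAt
    simp only [add_right_comm _ (⌈I⌉ - I : ℝ), min_add_add_right]
    rw [intervalIntegral.integral_add (ContinuousOn.intervalIntegrable (cU.inf (by fun_prop)))
      intervalIntegrable_const]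
    simp [← hI]
  · intro y hy j hj
    by_cases h : j < (Q ^ 99 : ℕ)
    · have : (j : ℝ) < q ^ 99 := by rw [hqQ]; exact_mod_cast h
      rw [abs_sub_comm]; exact le_trans (by linarith [hy.1]) (le_abs_self _)
    · have h3 : ((Q ^ 100 : ℕ) : ℤ) < j := by
        by_contra h4
        exact hj j.toNat (Finset.mem_Icc.2 ⟨by omega, by omega⟩) (by omega)
      have : q ^ 100 < (j : ℝ) := by rw [hqQ]; exact_mod_cast h3
      exact le_trans (by linarith [hy.2]) (le_abs_self _)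

end Pool.Agent.H98.Flat
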