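import Mathlib

set_option autoImplicit false
open MeasureTheory Filter Topology Set Real

namespace Pool.Agent.H98.GF

noncomputable def A (p : ℝ → ℝ) (t : ℝ) : ℝ := exp t * ∫ s in (0 : ℝ)..t, exp (-s) * p s
noncomputable def B (p : ℝ → ℝ) (t : ℝ) : ℝ := exp (-(2 * t)) * ∫ s in (0 : ℝ)..t, exp (2 * s) * p s
noncomputable def m (p : ℝ → ℝ) (t : ℝ) : ℝ := p t + 2 / 3 * (A p t - B p t)

variable {p : ℝ → ℝ}

lemma A_d (hp : Continuous p) (t : ℝ) : HasDerivAt (A p) (A p t + p t) t := by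
  have h := (hasDerivAt_exp t).mul
    ((by fun_prop : Continuous fun s => exp (-s) * p s).integral_hasStrictDerivAt 0 t).hasDerivAt
  refine HasDerivAt.congr_deriv (h) ?_
  rw [← mul_assoc, ← exp_add]; simp [A]

lemma B_d (hp : Continuous p) (t : ℝ) : HasDerivAt (B p) (-2 * B p t + p t) t := by
  have h := (((hasDerivAt_id t).const_mul 2).neg.exp).mul
    ((by fun_prop : Continuous fun s => exp (2 * s) * p s).integral_hasStrictDerivAt 0 t).hasDerivAt
  refine HasDerivAt.congr_deriv (h) ?_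
  simp only [Pi.neg_apply, id, B]
  rw [← mul_assoc (exp (-(2 * t))), ← exp_add]; simp; ring

lemma m_c (hp : Continuous p) : Continuous (m p) := by
  have h1 : Continuous (A p) := continuous_iff_continuousAt.2 fun t => (A_d hp t).continuousAt
  have h2 : Continuous (B p) := continuous_iff_continuousAt.2 fun t => (B_d hp t).continuousAt
  unfold m; fun_prop

lemma volt (hp : Continuous p) (t : ℝ) :
    p t + ∫ s in (0 : ℝ)..t, m p s * (2 * (1 - exp (-(t - s)))) = m p t := by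
  have hm := m_c hp
  have h := intervalIntegral.integral_eq_sub_of_hasDerivAt (a := 0) (b := t)
    (f := fun s => 2 * ((2 * A p s + B p s) / 3) - 2 * (exp (-(t - s)) * ((A p s + 2 * B p s) / 3)))
    (f' := fun s => m p s * (2 * (1 - exp (-(t - s))))) (fun s _ => by
      have h1 := ((((A_d hp s).const_mul 2).add (B_d hp s)).div_const 3).const_mul 2
      have h2 := ((((hasDerivAt_id s).const_sub t).neg.exp).mul
        (((A_d hp s).add ((B_d hp s).const_mul 2)).div_const 3)).const_mul 2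
      refine HasDerivAt.congr_deriv (h1.sub h2) ?_
      simp only [m, Pi.neg_apply, id, Pi.add_apply]; ring) (Continuous.intervalIntegrable (by fun_prop) _ _)
  rw [h]
  simp [A, B, m]; ring

lemma m_nonneg (hp : Continuous p) (h0 : ∀ s, 0 ≤ p s) {t : ℝ} (ht : 0 ≤ t) : 0 ≤ m p t := by
  have : B p t ≤ A p t := by
    unfold A B
    rw [← intervalIntegral.integral_const_mul, ← intervalIntegral.integral_const_mul]
    refine intervalIntegral.integral_mono_on ht (Continuous.intervalIntegrable (by fun_prop) _ _)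
      (Continuous.intervalIntegrable (by fun_prop) _ _) fun s hs => ?_
    rw [← mul_assoc, ← mul_assoc, ← exp_add, ← exp_add]
    exact mul_le_mul_of_nonneg_right (exp_le_exp.2 (by linarith [hs.2])) (h0 s)
  unfold m; linarith [h0 t]

lemma m_k (hk : ∀ t, 0 ≤ t → p t = 2 * (1 - exp (-t))) {t : ℝ} (ht : 0 ≤ t) :
    m p t = 2 / 3 * (exp t - exp (-(2 * t))) := by
  have h1 : ∫ s in (0 : ℝ)..t, exp (-s) * p s = (1 - exp (-t)) ^ 2 := by
    rw [intervalIntegral.integral_congr (g := fun s => exp (-s) * (2 * (1 - exp (-s))))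
      fun s hs => by rw [uIcc_of_le ht] at hs; simp only [hk s hs.1]]
    rw [intervalIntegral.integral_eq_sub_of_hasDerivAt (f := fun s => (1 - exp (-s)) ^ 2)
      (fun s _ => by
        refine HasDerivAt.congr_deriv (((hasDerivAt_neg s).exp.const_sub 1).pow 2) ?_
        simp; ring) (Continuous.intervalIntegrable (by fun_prop) _ _)]
    simp
  have h2 : ∫ s in (0 : ℝ)..t, exp (2 * s) * p s = (exp t - 1) ^ 2 := by
    rw [intervalIntegral.integral_congr (g := fun s => exp (2 * s) * (2 * (1 - exp (-s))))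
      fun s hs => by rw [uIcc_of_le ht] at hs; simp only [hk s hs.1]]
    rw [intervalIntegral.integral_eq_sub_of_hasDerivAt (f := fun s => (exp s - 1) ^ 2)
      (fun s _ => by
        refine HasDerivAt.congr_deriv (((hasDerivAt_exp s).sub_const 1).pow 2) ?_
        rw [two_mul s, exp_add, exp_neg]; simp; field_simp) (Continuous.intervalIntegrable (by fun_prop) _ _)]
    simp
  unfold m A B
  rw [h1, h2, hk t ht, exp_neg, exp_neg, two_mul t, exp_add]
  field_simp; ring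

variable {X : Type*} [NormedAddCommGroup X] [NormedSpace ℝ X] [CompleteSpace X]

structure Dat (τ : ℝ → X →L[ℝ] X) (φ : X →L[ℝ] ℝ) (β : X) : Prop where
  h0 : ∀ f, τ 0 f = f
  hadd : ∀ s t f, τ (s + t) f = τ s (τ t f)
  hiso : ∀ t f, ‖τ t f‖ = ‖f‖
  hc : ∀ f, Continuous fun t => τ t f
  hk : ∀ t, 0 ≤ t → φ (τ t β) = 2 * (1 - exp (-t))

noncomputable def w (τ : ℝ → X →L[ℝ] X) (φ : X →L[ℝ] ℝ) (β f : X) (t : ℝ) : X :=
  f + ∫ s in (0 : ℝ)..t, m (fun s => φ (τ s f)) s • τ (-s) β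

variable {τ : ℝ → X →L[ℝ] X} {φ : X →L[ℝ] ℝ} {β : X}

lemma Dat.pc (h : Dat τ φ β) (f : X) : Continuous fun s => φ (τ s f) := φ.continuous.comp (h.hc f)

lemma Dat.ic (h : Dat τ φ β) (f : X) : Continuous fun s => m (fun s => φ (τ s f)) s • τ (-s) β :=
  (m_c (h.pc f)).smul ((h.hc β).comp continuous_neg)

lemma Dat.wd (h : Dat τ φ β) (f : X) (t : ℝ) :
    HasDerivAt (w τ φ β f) (m (fun s => φ (τ s f)) t • τ (-t) β) t :=
  ((h.ic f).integral_hasStrictDerivAt 0 t).hasDerivAt.const_add f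

lemma Dat.wc (h : Dat τ φ β) (f : X) : Continuous (w τ φ β f) :=
  continuous_iff_continuousAt.2 fun t => (h.wd f t).continuousAt

lemma Dat.wm (h : Dat τ φ β) (f : X) {t : ℝ} (ht : 0 ≤ t) :
    φ (τ t (w τ φ β f t)) = m (fun s => φ (τ s f)) t := by
  rw [← volt (h.pc f) t, w, map_add, map_add]
  congr 1
  rw [← ContinuousLinearMap.comp_apply, ← ContinuousLinearMap.intervalIntegral_comp_comm _
    ((h.ic f).intervalIntegrable _ _)]
  refine intervalIntegral.integral_congr fun s hs => ?_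
  rw [uIcc_of_le ht] at hs
  simp only [ContinuousLinearMap.comp_apply, map_smul, smul_eq_mul]
  rw [← h.hadd, ← sub_eq_add_neg, h.hk _ (sub_nonneg.2 hs.2)]

lemma Dat.vb (h : Dat τ φ β) (t : ℝ) (x : X) : ‖φ (τ t x) • τ (-t) β‖ ≤ ‖φ‖ * ‖β‖ * ‖x‖ := by
  rw [norm_smul, h.hiso, mul_right_comm]
  exact mul_le_mul_of_nonneg_right ((φ.le_opNorm _).trans (by rw [h.hiso])) (norm_nonneg _)

lemma Dat.uniq (h : Dat τ φ β) (f : X) (x : ℝ → X) (hx0 : x 0 = f)
    (hx : ∀ t, 0 ≤ t → HasDerivAt x (φ (τ t (x t)) • τ (-t) β) t) {t : ℝ} (ht : 0 ≤ t) :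
    x t = w τ φ β f t := by
  refine ODE_solution_unique (v := fun t x => φ (τ t x) • τ (-t) β) (K := ‖φ‖₊ * ‖β‖₊) (a := 0)
    (b := t) (fun t => LipschitzWith.of_dist_le_mul fun x y => ?_)
    (fun s hs => (hx s hs.1).continuousAt.continuousWithinAt)
    (fun s hs => (hx s hs.1).hasDerivWithinAt) (h.wc f).continuousOn
    (fun s hs => by rw [h.wm f hs.1]; exact (h.wd f s).hasDerivWithinAt) (by simp [hx0, w])
    ⟨ht, le_rfl⟩
  rw [dist_eq_norm, dist_eq_norm, ← sub_smul, ← map_sub, ← map_sub]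
  simpa using h.vb t (x - y)

lemma Dat.wd' (h : Dat τ φ β) (f : X) {t : ℝ} (ht : 0 ≤ t) :
    HasDerivAt (w τ φ β f) (φ (τ t (w τ φ β f t)) • τ (-t) β) t := by
  rw [h.wm f ht]; exact h.wd f t

lemma Dat.wb (h : Dat τ φ β) (f : X) {t : ℝ} (ht : 0 ≤ t) :
    ‖w τ φ β f t‖ ≤ exp (‖φ‖ * ‖β‖ * t) * ‖f‖ := by
  have := norm_le_gronwallBound_of_norm_deriv_right_le (δ := ‖f‖) (K := ‖φ‖ * ‖β‖) (ε := 0)
    (a := 0) (b := t) (h.wc f).continuousOn (fun s hs => (h.wd' f hs.1).hasDerivWithinAt)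
    (by simp [w]) (fun s _ => by simpa using h.vb s _) t ⟨ht, le_rfl⟩
  rwa [gronwallBound_ε0, sub_zero, mul_comm] at this

noncomputable def Dat.W (h : Dat τ φ β) (t : NNReal) : X →L[ℝ] X :=
  LinearMap.mkContinuous
    { toFun := fun f => w τ φ β f t
      map_add' := fun f g => (h.uniq (f + g) (fun t => w τ φ β f t + w τ φ β g t) (by simp [w])
        (fun t ht => by
          refine HasDerivAt.congr_deriv ((h.wd' f ht).add (h.wd' g ht)) ?_
          simp [add_smul]) t.2).symm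
      map_smul' := fun c f => (h.uniq (c • f) (fun t => c • w τ φ β f t) (by simp [w])
        (fun t ht => by
          refine HasDerivAt.congr_deriv ((h.wd' f ht).const_smul c) ?_
          simp [mul_smul]) t.2).symm } _ fun f => h.wb f t.2

lemma Dat.W_apply (h : Dat τ φ β) (t : NNReal) (f : X) : h.W t f = w τ φ β f t := rfl

lemma Dat.semi (h : Dat τ φ β) (f : X) {s t : ℝ} (hs : 0 ≤ s) (ht : 0 ≤ t) :
    τ (t + s) (w τ φ β f (t + s)) = τ t (w τ φ β (τ s (w τ φ β f s)) t) := by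
  rw [h.hadd]
  congr 1
  refine h.uniq _ (fun t => τ s (w τ φ β f (t + s))) (by simp) (fun u hu => ?_) ht
  have h1 := (τ s).hasFDerivAt.comp_hasDerivAt u ((h.wd' f (add_nonneg hu hs)).comp_add_const u s)
  refine HasDerivAt.congr_deriv (h1) ?_
  rw [map_smul, ← h.hadd, ← h.hadd]; congr 2; ring

lemma mem_of_convex {C : Set X} (hC : Convex ℝ C) (hcl : IsClosed C) {g : ℝ → X} (hg : Continuous g)
    {t : ℝ} (ht : 0 < t) (h : ∀ s ∈ Ioc 0 t, g s ∈ C) : ∃ x ∈ C, ∫ s in (0 : ℝ)..t, g s = t • x := by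
  refine ⟨_, hC.set_average_mem (μ := volume) (t := Ioc 0 t) hcl (by simpa using ht) (by simp)
    (ae_restrict_of_forall_mem measurableSet_Ioc h) (hg.integrableOn_Icc.mono_set Ioc_subset_Icc_self), ?_⟩
  rw [setAverage_eq, intervalIntegral.integral_of_le ht.le, smul_smul]
  simp [ht.le, ht.ne']

lemma Dat.cpt (h : Dat τ φ β) (t : NNReal) : IsCompactOperator (h.W t - 1 : X →L[ℝ] X) := by
  rcases eq_or_lt_of_le t.2 with ht | ht
  · have : (h.W t - 1 : X →L[ℝ] X) = 0 := by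
      ext f; simp [h.W_apply, w, show (t : ℝ) = 0 from ht.symm]
    rw [this]; exact isCompactOperator_zero
  set M := ‖φ‖ * exp (‖φ‖ * ‖β‖ * t)
  set S := (fun x : ℝ × ℝ => x.1 • τ (-x.2) β) '' (Icc (-M) M ×ˢ Icc 0 (t : ℝ))
  have hS : IsCompact S := (isCompact_Icc.prod isCompact_Icc).image
    (continuous_fst.smul ((h.hc β).comp continuous_snd.neg))
  have hK : IsCompact (closure (convexHull ℝ S)) :=
    hS.totallyBounded.convexHull.closure.isCompact_of_isClosed isClosed_closure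
  refine ⟨(fun x => (t : ℝ) • x) '' closure (convexHull ℝ S), hK.image (by fun_prop), ?_⟩
  filter_upwards [Metric.closedBall_mem_nhds (0 : X) one_pos] with f hf
  obtain ⟨x, hx, e⟩ := mem_of_convex (convex_convexHull ℝ S).closure isClosed_closure (h.ic f) ht
    fun s hs => subset_closure (subset_convexHull ℝ S ⟨(m (fun s => φ (τ s f)) s, s), ⟨by
      have h1 := h.wb f hs.1.le
      have h2 : ‖f‖ ≤ 1 := by simpa using hf
      have h3 : exp (‖φ‖ * ‖β‖ * s) ≤ exp (‖φ‖ * ‖β‖ * t) :=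
        exp_le_exp.2 (mul_le_mul_of_nonneg_left hs.2 (by positivity))
      rw [← h.wm f hs.1.le, mem_Icc, ← abs_le, ← Real.norm_eq_abs]
      refine (φ.le_opNorm _).trans (mul_le_mul_of_nonneg_left ?_ (norm_nonneg _))
      rw [h.hiso]
      nlinarith [exp_pos (‖φ‖ * ‖β‖ * s), norm_nonneg f], hs.1.le, hs.2⟩, rfl⟩)
  exact ⟨x, hx, by
    simp only [ContinuousLinearMap.sub_apply, h.W_apply, w, ContinuousLinearMap.one_apply,
      add_sub_cancel_left]
    exact e.symm⟩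

lemma Dat.pos (h : Dat τ φ β) {C : Set X} (hC : Convex ℝ C) (hcl : IsClosed C)
    (hadd : ∀ x ∈ C, ∀ y ∈ C, x + y ∈ C) (hsm : ∀ c : ℝ, 0 ≤ c → ∀ x ∈ C, c • x ∈ C)
    (hτ : ∀ t, ∀ x ∈ C, τ t x ∈ C) (hφ : ∀ x ∈ C, 0 ≤ φ x) (hβ : β ∈ C) {f : X} (hf : f ∈ C)
    {t : ℝ} (ht : 0 ≤ t) : w τ φ β f t ∈ C := by
  rcases eq_or_lt_of_le ht with rfl | ht
  · simpa [w] using hf
  obtain ⟨x, hx, e⟩ := mem_of_convex hC hcl (h.ic f) ht fun s hs =>
    hsm _ (m_nonneg (h.pc f) (fun s => hφ _ (hτ _ _ hf)) hs.1.le) _ (hτ _ _ hβ)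
  rw [w, e]
  exact hadd _ hf _ (hsm _ ht.le _ hx)

end Pool.Agent.H98.GF
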