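import Pool.Agent.H98.GF1

set_option autoImplicit false
open MeasureTheory Filter Topology Set Real

namespace Pool.Agent.H98.GF

noncomputable def μ1 : Measure ℝ :=
  (volume.restrict (Ioi 0)).withDensity fun x => ENNReal.ofReal x

noncomputable def dens (s : ℝ) : NNReal := ⟨exp (2 * s), (exp_pos _).le⟩

lemma dens_meas : Measurable dens := by
  unfold dens; exact Measurable.subtype_mk (by fun_prop)

noncomputable def ν1 : Measure ℝ := volume.withDensity fun s => dens s

lemma emb : MeasurableEmbedding exp := Real.isOpenEmbedding_exp.measurableEmbedding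

lemma mpe : MeasurePreserving exp ν1 μ1 := by
  refine ⟨measurable_exp, ?_⟩
  ext A hA
  rw [Measure.map_apply measurable_exp hA, ν1, μ1, withDensity_apply _ hA,
    withDensity_apply _ (measurable_exp hA), Measure.restrict_restrict hA, ← range_exp,
    ← image_preimage_eq_inter_range, lintegral_image_eq_lintegral_abs_deriv_mul (measurable_exp hA)
      (fun x _ => (hasDerivAt_exp x).hasDerivWithinAt) exp_injective.injOn]
  refine lintegral_congr fun s => ?_
  rw [← ENNReal.ofReal_mul (abs_nonneg _), abs_of_pos (exp_pos _), ← exp_add, ← two_mul,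
    ← ENNReal.ofReal_coe_nnreal]; rfl

lemma ae_tr {P : ℝ → Prop} : (∀ᵐ y ∂μ1, P y) ↔ ∀ᵐ s, P (exp s) := by
  rw [← mpe.map_eq, emb.ae_map_iff, ν1,
    ae_withDensity_iff dens_meas.coe_nnreal_ennreal]
  refine eventually_congr (ae_of_all _ fun s => ?_)
  have : ((dens s : NNReal) : ENNReal) ≠ 0 := by
    rw [ENNReal.coe_ne_zero, ← NNReal.coe_ne_zero]; exact (exp_pos _).ne'
  simp only [ne_eq, this, not_false_eq_true, forall_const]

noncomputable abbrev X1 := Lp ℝ 1 μ1
noncomputable abbrev Y1 := Lp ℝ 1 (volume : Measure ℝ)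

noncomputable def J0 : X1 →ₗᵢ[ℝ] Y1 :=
  (withDensitySMulLI volume dens_meas).comp (Lp.compMeasurePreservingₗᵢ ℝ exp mpe)

lemma J0_ae (f : X1) : ∀ᵐ s, J0 f s = exp (2 * s) * f (exp s) := by
  have h1 : ∀ᵐ s ∂ν1, (Lp.compMeasurePreserving exp mpe f) s = f (exp s) :=
    Lp.coeFn_compMeasurePreserving f mpe
  have h2 : (volume : Measure ℝ) ≪ ν1 := withDensity_absolutelyContinuous'
    (measurable_coe_nnreal_ennreal.comp dens_meas).aemeasurable (ae_of_all _ fun s => by
      rw [ENNReal.coe_ne_zero, ← NNReal.coe_ne_zero]; exact (exp_pos _).ne')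
  filter_upwards [h2.ae_le h1, MemLp.coeFn_toLp (memL1_smul_of_L1_withDensity dens_meas
    (Lp.compMeasurePreserving exp mpe f))] with s h3 h4
  rw [← h3]; exact h4

lemma J0_surj : Function.Surjective J0 := by
  intro G
  have hi : Integrable (fun y => G (log y) / y ^ 2) μ1 := by
    rw [← mpe.integrable_comp_emb emb, ν1, integrable_withDensity_iff_integrable_smul dens_meas]
    refine (L1.integrable_coeFn G).congr (ae_of_all _ fun s => ?_)
    change _ = exp (2 * s) * (G (log (exp s)) / exp s ^ 2)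
    rw [log_exp, two_mul, exp_add]; field_simp
  refine ⟨hi.toL1 _, Lp.ext ?_⟩
  filter_upwards [J0_ae (hi.toL1 _), ae_tr.1 hi.coeFn_toL1] with s h1 h2
  rw [h1, h2, log_exp, two_mul, exp_add]; field_simp

noncomputable def J : X1 ≃ₗᵢ[ℝ] Y1 := LinearIsometryEquiv.ofSurjective J0 J0_surj

lemma J_ae (f : X1) : ∀ᵐ s, J f s = exp (2 * s) * f (exp s) := J0_ae f

noncomputable def tY (t : ℝ) : Y1 →ₗᵢ[ℝ] Y1 :=
  Lp.compMeasurePreservingₗᵢ ℝ (fun s => s - t) (measurePreserving_sub_right volume t)

lemma tY_ae (t : ℝ) (G : Y1) : ∀ᵐ s, tY t G s = G (s - t) :=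
  Lp.coeFn_compMeasurePreserving G (measurePreserving_sub_right volume t)

lemma tY_cont (G : Y1) : Continuous fun t => tY t G := by
  let g : ℝ → C(ℝ, ℝ) := ContinuousMap.curry ⟨fun x : ℝ × ℝ => x.2 - x.1, by fun_prop⟩
  exact Continuous.compMeasurePreservingLp (f := fun _ => G) (g := g) continuous_const
    (ContinuousMap.continuous _) (fun t => measurePreserving_sub_right volume t) (by simp)

lemma tY_add (s t : ℝ) (G : Y1) : tY (s + t) G = tY s (tY t G) := by
  refine Lp.ext ?_
  filter_upwards [tY_ae (s + t) G, tY_ae s (tY t G),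
    (measurePreserving_sub_right volume s).quasiMeasurePreserving.ae (tY_ae t G)] with x h1 h2 h3
  rw [h1, h2, h3, sub_sub]

noncomputable def τ1 (t : ℝ) : X1 →L[ℝ] X1 :=
  (J.symm.toLinearIsometry.comp ((tY t).comp J.toLinearIsometry)).toContinuousLinearMap

lemma τ1_apply (t : ℝ) (f : X1) : τ1 t f = J.symm (tY t (J f)) := rfl

lemma τ1_ae (t : ℝ) (f : X1) : ∀ᵐ y ∂μ1, τ1 t f y = exp (-(2 * t)) * f (y * exp (-t)) := by
  rw [ae_tr]
  filter_upwards [J_ae (τ1 t f), tY_ae t (J f),
    (measurePreserving_sub_right volume t).quasiMeasurePreserving.ae (J_ae f)] with s h1 h2 h3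
  rw [τ1_apply, J.apply_symm_apply, h2, h3, ← τ1_apply] at h1
  rw [← exp_add, ← sub_eq_add_neg]
  have e : exp (2 * (s - t)) = exp (2 * s) * exp (-(2 * t)) := by rw [← exp_add]; congr 1; ring
  rw [e, mul_assoc] at h1
  exact (mul_left_cancel₀ (exp_pos _).ne' h1).symm

lemma bint : Integrable ((Iio 0).indicator fun s => 2 * exp s) :=
  (integrable_indicator_iff measurableSet_Iio).2
    (((integrableOn_exp_Iic 0).mono_set Iio_subset_Iic_self).const_mul 2)

noncomputable def β1 : X1 := J.symm (bint.toL1 _)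

noncomputable def φ1 : X1 →L[ℝ] ℝ :=
  LinearMap.mkContinuous
    { toFun := fun f => ∫ s in Ioi 0, J f s
      map_add' := fun f g => by
        rw [← integral_add (L1.integrable_coeFn _).integrableOn (L1.integrable_coeFn _).integrableOn,
          map_add]
        exact integral_congr_ae (ae_restrict_of_ae (Lp.coeFn_add _ _))
      map_smul' := fun c f => by
        rw [map_smul, RingHom.id_apply, ← integral_smul]
        exact integral_congr_ae (ae_restrict_of_ae (Lp.coeFn_smul _ _)) } 1 fun f => by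
    rw [one_mul, ← J.norm_map f, L1.norm_eq_integral_norm]
    exact (norm_integral_le_integral_norm _).trans
      (setIntegral_le_integral (L1.integrable_coeFn _).norm (ae_of_all _ fun _ => norm_nonneg _))

lemma φ1_apply (f : X1) : φ1 f = ∫ s in Ioi 0, J f s := rfl

lemma φ1_eq (f : X1) : φ1 f = ∫ y in Ioi 1, y * f y := by
  have e : Ioi (1 : ℝ) = exp '' Ioi 0 := by rw [image_exp_Ioi, exp_zero]
  rw [φ1_apply, e, integral_image_eq_integral_abs_deriv_smul measurableSet_Ioi
    (fun x _ => (hasDerivAt_exp x).hasDerivWithinAt) exp_injective.injOn]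
  refine integral_congr_ae (ae_restrict_of_ae ?_)
  filter_upwards [J_ae f] with s h
  rw [h, abs_of_pos (exp_pos _), two_mul, exp_add, smul_eq_mul, mul_assoc]

lemma β1_ae : ∀ᵐ y ∂μ1, β1 y = if y < 1 then 2 / y else 0 := by
  rw [ae_tr]
  filter_upwards [J_ae β1, bint.coeFn_toL1] with s h1 h2
  rw [β1, J.apply_symm_apply, h2, ← β1] at h1
  refine mul_left_cancel₀ (exp_pos (2 * s)).ne' ?_
  rw [← h1]
  by_cases hs : s < 0
  · rw [indicator_of_mem (show s ∈ Iio 0 from hs), if_pos (by simpa using hs), two_mul s, exp_add]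
    field_simp
  · rw [indicator_of_notMem (show s ∉ Iio 0 from hs), if_neg (by simpa using hs), mul_zero]

lemma dat : Dat τ1 φ1 β1 where
  h0 f := by
    have : tY 0 (J f) = J f := Lp.ext (by filter_upwards [tY_ae 0 (J f)] with s h; simpa using h)
    rw [τ1_apply, this, J.symm_apply_apply]
  hadd s t f := by simp only [τ1_apply, J.apply_symm_apply, tY_add]
  hiso t f := by simp [τ1_apply]
  hc f := J.symm.continuous.comp (tY_cont _)
  hk t ht := by
    rw [φ1_apply, τ1_apply, β1, J.apply_symm_apply, J.apply_symm_apply]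
    have h1 : ∀ᵐ s, tY t (bint.toL1 _) s = (Iio t).indicator (fun s => 2 * exp (s - t)) s := by
      filter_upwards [tY_ae t (bint.toL1 _),
        (measurePreserving_sub_right volume t).quasiMeasurePreserving.ae bint.coeFn_toL1] with s h1 h2
      rw [h1, h2]
      by_cases hs : s < t
      · rw [indicator_of_mem (show s ∈ Iio t from hs), indicator_of_mem (show s - t ∈ Iio 0 by simpa)]
      · rw [indicator_of_notMem (show s ∉ Iio t from hs),
          indicator_of_notMem (show s - t ∉ Iio 0 by simpa using hs)]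
    rw [integral_congr_ae (ae_restrict_of_ae h1), setIntegral_indicator measurableSet_Iio,
      Ioi_inter_Iio, ← integral_Ioc_eq_integral_Ioo, ← intervalIntegral.integral_of_le ht,
      intervalIntegral.integral_const_mul, intervalIntegral.integral_comp_sub_right exp t,
      integral_exp]
    simp

lemma pos_iff (f : X1) : 0 ≤ f ↔ ∀ᵐ s, 0 ≤ J f s := by
  rw [← Lp.coeFn_nonneg]
  change (∀ᵐ y ∂μ1, 0 ≤ f y) ↔ _
  rw [ae_tr]
  refine eventually_congr ?_
  filter_upwards [J_ae f] with s h
  rw [h, mul_nonneg_iff_of_pos_left (exp_pos _)]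

lemma smul_pos' {c : ℝ} (hc : 0 ≤ c) {f : X1} (hf : 0 ≤ f) : 0 ≤ c • f := by
  rw [← Lp.coeFn_nonneg] at hf ⊢
  filter_upwards [hf, Lp.coeFn_smul c f] with y h1 h2
  rw [h2]; exact mul_nonneg hc h1

lemma τ1_pos (t : ℝ) {f : X1} (hf : 0 ≤ f) : 0 ≤ τ1 t f := by
  rw [pos_iff] at hf ⊢
  rw [τ1_apply, J.apply_symm_apply]
  filter_upwards [tY_ae t (J f),
    (measurePreserving_sub_right volume t).quasiMeasurePreserving.ae hf] with s h1 h2
  rwa [h1]

lemma w_pos {f : X1} (hf : 0 ≤ f) {t : ℝ} (ht : 0 ≤ t) : 0 ≤ w τ1 φ1 β1 f t := by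
  refine dat.pos (C := Ici 0) (fun x hx y hy a b ha hb _ => add_nonneg (smul_pos' ha hx)
    (smul_pos' hb hy)) isClosed_Ici (fun x hx y hy => mem_Ici.2 (add_nonneg (mem_Ici.1 hx) (mem_Ici.1 hy)))
    (fun c hc x hx => smul_pos' hc hx) (fun t x hx => τ1_pos t hx)
    (fun x hx => integral_nonneg_of_ae (ae_restrict_of_ae ((pos_iff x).1 hx))) ?_ hf ht
  rw [mem_Ici, pos_iff, β1, J.apply_symm_apply]
  filter_upwards [bint.coeFn_toL1] with s h
  rw [h]; exact indicator_nonneg (fun s _ => by positivity) s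

end Pool.Agent.H98.GF
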