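import Mathlib

/-! Generic posets with a decreasing `ω·2`-chain of up-sets and a generic digraph. -/

namespace Pool.Agent.H98.GP

open Set FirstOrder Language

/-- Index set of the unary predicates (order type `ω·2`). -/
abbrev F := Bool ×ₗ ℕ

inductive Rl : ℕ → Type
  | lt : Rl 2
  | E : Rl 2
  | U (φ : F) : Rl 1

def L : Language := ⟨fun _ => Empty, Rl⟩

instance : L.IsRelational := fun _ => inferInstanceAs (IsEmpty Empty)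

structure PS (X : Type*) where
  lt : X → X → Prop
  E : X → X → Prop
  τ : X → Set F
  irr : ∀ x, ¬ lt x x
  tr : ∀ x y z, lt x y → lt y z → lt x z
  eir : ∀ x, ¬ E x x
  low : ∀ x φ ψ, φ ≤ ψ → ψ ∈ τ x → φ ∈ τ x
  bot : ∀ x, ⊥ ∈ τ x
  mono : ∀ x y, lt x y → τ x ⊆ τ y

variable {X Y : Type*}

@[reducible] def PS.str (P : PS X) : L.Structure X where
  RelMap := fun {_} r => match r with
    | .lt => fun x => P.lt (x 0) (x 1)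
    | .E => fun x => P.E (x 0) (x 1)
    | .U φ => fun x => φ ∈ P.τ (x 0)

def PS.Ext (P : PS X) : Prop :=
  ∀ (A : Finset X) (dn up ei eo : X → Prop) (φ : F), (∀ a ∈ A, ∀ b ∈ A, dn a → up b → P.lt a b) →
    (∀ a ∈ A, ∀ b ∈ A, P.lt a b → dn b → dn a) → (∀ a ∈ A, ∀ b ∈ A, P.lt a b → up a → up b) →
    (∀ a ∈ A, up a → φ ∈ P.τ a) → ∃ y ∉ A, (∀ a ∈ A, (P.lt a y ↔ dn a) ∧ (P.lt y a ↔ up a) ∧
      (P.E a y ↔ ei a) ∧ (P.E y a ↔ eo a)) ∧ ∀ ψ, ψ ∈ P.τ y ↔ ψ ≤ φ ∨ ∃ a ∈ A, dn a ∧ ψ ∈ P.τ a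

def Iso (P : PS X) (Q : PS Y) (R : Set (X × Y)) : Prop :=
  R.Finite ∧ ∀ p ∈ R, ∀ q ∈ R, (p.1 = q.1 ↔ p.2 = q.2) ∧ (P.lt p.1 q.1 ↔ Q.lt p.2 q.2) ∧
    (P.E p.1 q.1 ↔ Q.E p.2 q.2)

variable {P : PS X} {Q : PS Y} {R : Set (X × Y)}

lemma step (hQ : Q.Ext) (h : Iso P Q R) {a : X} (ha : ∀ p ∈ R, p.1 ≠ a) {φ : F}
    (hφ : ∀ p ∈ R, P.lt a p.1 → φ ∈ Q.τ p.2) : ∃ b, Iso P Q (insert (a, b) R) ∧
      ∀ ψ, ψ ∈ Q.τ b ↔ ψ ≤ φ ∨ ∃ p ∈ R, P.lt p.1 a ∧ ψ ∈ Q.τ p.2 := by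
  classical
  have e : ∀ (r : X → Prop), ∀ p ∈ R, (∃ q ∈ R, q.2 = p.2 ∧ r q.1) ↔ r p.1 := fun r p hp =>
    ⟨fun ⟨q, hq, h1, h2⟩ => (h.2 q hq p hp).1.2 h1 ▸ h2, fun h1 => ⟨p, hp, rfl, h1⟩⟩
  obtain ⟨b, hb, h1, h2⟩ := hQ (h.1.toFinset.image Prod.snd)
    (fun y => ∃ q ∈ R, q.2 = y ∧ P.lt q.1 a) (fun y => ∃ q ∈ R, q.2 = y ∧ P.lt a q.1)
    (fun y => ∃ q ∈ R, q.2 = y ∧ P.E q.1 a) (fun y => ∃ q ∈ R, q.2 = y ∧ P.E a q.1) φ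
    (by
      rintro _ - _ - ⟨p, hp, rfl, h1⟩ ⟨q, hq, rfl, h2⟩
      exact (h.2 p hp q hq).2.1.1 (P.tr _ _ _ h1 h2))
    (by
      simp only [Finset.mem_image, Finite.mem_toFinset]
      rintro _ ⟨p, hp, rfl⟩ _ - h1 ⟨q, hq, rfl, h2⟩
      exact ⟨p, hp, rfl, P.tr _ _ _ ((h.2 p hp q hq).2.1.2 h1) h2⟩)
    (by
      simp only [Finset.mem_image, Finite.mem_toFinset]
      rintro _ - _ ⟨p, hp, rfl⟩ h1 ⟨q, hq, rfl, h2⟩
      exact ⟨p, hp, rfl, P.tr _ _ _ h2 ((h.2 q hq p hp).2.1.2 h1)⟩)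
    (by rintro _ - ⟨p, hp, rfl, h1⟩; exact hφ p hp h1)
  simp only [Finset.mem_image, Finite.mem_toFinset, not_exists, not_and] at hb h1 h2
  have h3 := fun p hp => h1 _ ⟨p, hp, rfl⟩
  refine ⟨b, ⟨h.1.insert _, ?_⟩, fun ψ => (h2 ψ).trans (or_congr_right ?_)⟩
  · rintro p (rfl | hp) q (rfl | hq)
    · simp [P.irr, Q.irr, P.eir, Q.eir]
    · exact ⟨iff_of_false (ha q hq).symm (Ne.symm (hb q hq)), ((h3 q hq).2.1.trans
        (e (P.lt a) q hq)).symm, ((h3 q hq).2.2.2.trans (e (P.E a) q hq)).symm⟩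
    · exact ⟨iff_of_false (ha p hp) (hb p hp), ((h3 p hp).1.trans (e (P.lt · a) p hp)).symm,
        ((h3 p hp).2.2.1.trans (e (P.E · a) p hp)).symm⟩
    · exact h.2 p hp q hq
  · exact ⟨fun ⟨_, _, ⟨q, hq, rfl, h4⟩, h5⟩ => ⟨q, hq, h4, h5⟩,
      fun ⟨q, hq, h4, h5⟩ => ⟨_, ⟨q, hq, rfl⟩, ⟨q, hq, rfl, h4⟩, h5⟩⟩

def Agree (P : PS X) (Q : PS Y) (Φ : Finset F) (R : Set (X × Y)) : Prop :=
  Iso P Q R ∧ ∀ p ∈ R, ∀ φ ∈ Φ, φ ∈ P.τ p.1 ↔ φ ∈ Q.τ p.2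

lemma Agree.swap {Φ : Finset F} (h : Agree P Q Φ R) : Agree Q P Φ (Prod.swap '' R) := by
  refine ⟨⟨h.1.1.image _, ?_⟩, ?_⟩
  · rintro _ ⟨p, hp, rfl⟩ _ ⟨q, hq, rfl⟩
    have := h.1.2 p hp q hq
    exact ⟨this.1.symm, this.2.1.symm, this.2.2.symm⟩
  · rintro _ ⟨p, hp, rfl⟩ φ hφ
    exact (h.2 p hp φ hφ).symm

lemma Agree.step (hQ : Q.Ext) {Φ : Finset F} (h : Agree P Q Φ R) (a : X) :
    ∃ b, Agree P Q Φ (insert (a, b) R) := by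
  classical
  by_cases ha : ∃ p ∈ R, p.1 = a
  · obtain ⟨p, hp, rfl⟩ := ha
    exact ⟨p.2, by rwa [insert_eq_of_mem hp]⟩
  obtain ⟨φ, h1, h2⟩ := ((insert ⊥ Φ).filter (· ∈ P.τ a)).exists_max_image id
    ⟨⊥, by simp [P.bot]⟩
  simp only [Finset.mem_filter, Finset.mem_insert, id] at h1 h2
  obtain ⟨b, h3, h4⟩ := GP.step hQ h.1 (fun p hp e => ha ⟨p, hp, e⟩) (φ := φ) fun p hp hl =>
    h1.1.elim (fun e => e ▸ Q.bot _) fun e => (h.2 p hp φ e).1 (P.mono _ _ hl h1.2)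
  refine ⟨b, h3, ?_⟩
  rintro p (rfl | hp) ψ hψ
  · exact ⟨fun h5 => (h4 ψ).2 (.inl (h2 ψ ⟨.inr hψ, h5⟩)), fun h5 => ((h4 ψ).1 h5).elim
      (fun h6 => P.low _ _ _ h6 h1.2) fun ⟨q, hq, h6, h7⟩ => P.mono _ _ h6 ((h.2 q hq ψ hψ).2 h7)⟩
  · exact h.2 p hp ψ hψ

universe u v

theorem ef {α : Type*} {n : ℕ} (θ : L.BoundedFormula α n) : ∃ Φ : Finset F,
    ∀ (X : Type u) (Y : Type v) (P : PS X) (Q : PS Y), P.Ext → Q.Ext → ∀ R, Agree P Q Φ R →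
      ∀ (v : α → X) (w : α → Y) (xs : Fin n → X) (ys : Fin n → Y), (∀ x, (v x, w x) ∈ R) →
      (∀ i, (xs i, ys i) ∈ R) →
      (@BoundedFormula.Realize _ _ P.str _ _ θ v xs ↔ @BoundedFormula.Realize _ _ Q.str _ _ θ w ys) := by
  classical
  have ht : ∀ {n} (t : L.Term (α ⊕ Fin n)) {X : Type u} {Y : Type v} (P : PS X) (Q : PS Y)
      (R : Set (X × Y)) (v : α → X) (w : α → Y) (xs : Fin n → X) (ys : Fin n → Y),
      (∀ x, (v x, w x) ∈ R) → (∀ i, (xs i, ys i) ∈ R) →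
      (@Term.realize _ _ P.str _ (Sum.elim v xs) t, @Term.realize _ _ Q.str _ (Sum.elim w ys) t) ∈ R := by
    intro n t X Y P Q R v w xs ys h1 h2
    cases t with
    | var x => cases x <;> simp [h1, h2]
    | func f => exact f.elim
  induction θ with
  | falsum => exact ⟨∅, fun _ _ _ _ _ _ _ _ _ _ _ _ _ _ => Iff.rfl⟩
  | equal s t => exact ⟨∅, fun X Y P Q _ _ R h v w xs ys h1 h2 =>
      (h.1.2 _ (ht s P Q R v w xs ys h1 h2) _ (ht t P Q R v w xs ys h1 h2)).1⟩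
  | rel r ts =>
    cases r with
    | lt => exact ⟨∅, fun X Y P Q _ _ R h v w xs ys h1 h2 =>
      (h.1.2 _ (ht (ts 0) P Q R v w xs ys h1 h2) _ (ht (ts 1) P Q R v w xs ys h1 h2)).2.1⟩
    | E => exact ⟨∅, fun X Y P Q _ _ R h v w xs ys h1 h2 =>
      (h.1.2 _ (ht (ts 0) P Q R v w xs ys h1 h2) _ (ht (ts 1) P Q R v w xs ys h1 h2)).2.2⟩
    | U φ => exact ⟨{φ}, fun X Y P Q _ _ R h v w xs ys h1 h2 =>
      h.2 _ (ht (ts 0) P Q R v w xs ys h1 h2) φ (by simp)⟩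
  | imp θ η ih1 ih2 =>
    obtain ⟨Φ, h1⟩ := ih1
    obtain ⟨Ψ, h2⟩ := ih2
    exact ⟨Φ ∪ Ψ, fun X Y P Q hP hQ R h v w xs ys g1 g2 => imp_congr
      (h1 X Y P Q hP hQ R ⟨h.1, fun p hp φ e => h.2 p hp φ (by simp [e])⟩ v w xs ys g1 g2)
      (h2 X Y P Q hP hQ R ⟨h.1, fun p hp φ e => h.2 p hp φ (by simp [e])⟩ v w xs ys g1 g2)⟩
  | all θ ih =>
    obtain ⟨Φ, h1⟩ := ih
    refine ⟨Φ, fun X Y P Q hP hQ R h v w xs ys g1 g2 => ?_⟩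
    have key : ∀ a b, Agree P Q Φ (insert (a, b) R) →
        (@BoundedFormula.Realize _ _ P.str _ _ θ v (Fin.snoc xs a) ↔
          @BoundedFormula.Realize _ _ Q.str _ _ θ w (Fin.snoc ys b)) := fun a b g =>
      h1 X Y P Q hP hQ _ g v w _ _ (fun x => .inr (g1 x)) fun i => by
        induction i using Fin.lastCases with
        | last => simp
        | cast i => simpa using .inr (g2 i)
    constructor
    · intro H b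
      obtain ⟨a, g⟩ := h.swap.step hP b
      have := g.swap
      rw [image_insert_eq, image_image] at this
      exact (key a b (by simpa using this)).1 (H a)
    · intro H a
      obtain ⟨b, g⟩ := h.step hQ a
      exact (key a b g).2 (H b)

lemma forth [Countable X] (G : Set (X × Y) → Prop) (R₀ : Set (X × Y)) (h0 : G R₀)
    (hs : ∀ R, G R → ∀ a, ∃ b, G (insert (a, b) R)) :
    ∃ f : X → Y, ∀ s : Set X, s.Finite → ∃ R, G R ∧ ∀ x ∈ s, (x, f x) ∈ R := by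
  cases isEmpty_or_nonempty X
  · exact ⟨fun x => isEmptyElim x, fun s _ => ⟨R₀, h0, fun x => isEmptyElim x⟩⟩
  obtain ⟨e, he⟩ := exists_surjective_nat X
  choose g hg using fun (R : {R // G R}) a => hs R.1 R.2 a
  let C : ℕ → {R // G R} := fun n => Nat.rec ⟨R₀, h0⟩ (fun n R => ⟨_, hg R (e n)⟩) n
  have hC : Monotone fun n => (C n).1 := monotone_nat_of_le_succ fun n => subset_insert _ _
  choose k hk using he
  refine ⟨fun x => g (C (k x)) x, fun s hs => ?_⟩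
  obtain ⟨N, hN⟩ := (hs.image k).bddAbove
  refine ⟨_, (C (N + 1)).2, fun x hx => hC (Nat.succ_le_succ (hN ⟨x, hx, rfl⟩)) ?_⟩
  have : (e (k x), g (C (k x)) (e (k x))) ∈ (C (k x + 1)).1 := mem_insert _ _
  rwa [hk] at this

end Pool.Agent.H98.GP
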