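import Mathlib
import Pool.Agent.H98.GP1

/-! Construction of generic models over prescribed minimal seeds. -/

namespace Pool.Agent.H98.GP

open Set Classical

/-- A request: lower set, upper set, in- and out-neighbours, level, repetition index. -/
abbrev Rq := Finset ℕ × Finset ℕ × Finset ℕ × Finset ℕ × (Bool × ℕ) × ℕ

noncomputable def cd : ℕ ≃ ℕ ⊕ Rq := (nonempty_equiv_of_countable (α := ℕ) (β := ℕ ⊕ Rq)).some

abbrev St := (ℕ → ℕ → Prop) × (ℕ → Set F)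

def Valid (n : ℕ) (s : St) (r : Rq) : Prop :=
  (∀ d ∈ r.1, d < n) ∧ (∀ u ∈ r.2.1, u < n ∧ toLex r.2.2.2.2.1 ∈ s.2 u) ∧
    ∀ d ∈ r.1, ∀ u ∈ r.2.1, s.1 d u

noncomputable def nxt (n : ℕ) (s : St) (r : Rq) : St :=
  if Valid n s r then
    (fun x y => s.1 x y ∨ (y = n ∧ ∃ d ∈ r.1, x = d ∨ s.1 x d) ∨
      (x = n ∧ ∃ u ∈ r.2.1, y = u ∨ s.1 u y),
    Function.update s.2 n {ψ | ψ ≤ toLex r.2.2.2.2.1 ∨ ∃ d ∈ r.1, ψ ∈ s.2 d})
  else s

variable (sl : ℕ → Set F)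

noncomputable def st : ℕ → St
  | 0 => (fun _ _ => False, fun n => (cd n).elim sl fun _ => Iic ⊥)
  | n + 1 => (cd n).elim (fun _ => st n) (nxt n (st n))

structure Inv (n : ℕ) (s : St) : Prop where
  bd : ∀ x y, s.1 x y → x < n ∧ y < n
  irr : ∀ x, ¬ s.1 x x
  tr : ∀ x y z, s.1 x y → s.1 y z → s.1 x z
  low : ∀ x φ ψ, φ ≤ ψ → ψ ∈ s.2 x → φ ∈ s.2 x
  bot : ∀ x, ⊥ ∈ s.2 x
  mono : ∀ x y, s.1 x y → s.2 x ⊆ s.2 y
  seed : ∀ k, s.2 (cd.symm (.inl k)) = sl k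
  lim : ∀ x, (∀ φ, s.2 x ≠ Iic φ) → (∃ k, x = cd.symm (.inl k) ∧ ∀ y, ¬ (s.1 y x ∧ s.2 y = s.2 x)) ∨
    ∃ k, (∀ j, x ≠ cd.symm (.inl j)) ∧ s.1 (cd.symm (.inl k)) x ∧ s.2 x = sl k

lemma sup_lin {s : ℕ → Set F} (low : ∀ x φ ψ, φ ≤ ψ → ψ ∈ s x → φ ∈ s x) (φ : F) (D : Finset ℕ) :
    {ψ | ψ ≤ φ ∨ ∃ d ∈ D, ψ ∈ s d} = Iic φ ∨ ∃ d ∈ D, {ψ | ψ ≤ φ ∨ ∃ d ∈ D, ψ ∈ s d} = s d := by
  have tot : ∀ a b : Set F, IsLowerSet a → IsLowerSet b → a ∪ b = a ∨ a ∪ b = b := fun a b ha hb =>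
    (ha.total hb).symm.imp union_eq_left.2 union_eq_right.2
  induction D using Finset.induction_on with
  | empty => exact .inl (by ext; simp)
  | insert d D _ ih =>
    have e : {ψ | ψ ≤ φ ∨ ∃ d' ∈ insert d D, ψ ∈ s d'} =
        {ψ | ψ ≤ φ ∨ ∃ d ∈ D, ψ ∈ s d} ∪ s d := by ext; simp [or_assoc, or_comm, or_left_comm]
    rw [e]
    rcases ih with h | ⟨d', h1, h⟩ <;> rw [h]
    · exact (tot _ _ (isLowerSet_Iic φ) fun _ _ h => low d _ _ h).imp_right fun h => ⟨d, by simp, h⟩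
    · exact .inr ((tot _ _ (fun _ _ h => low d' _ _ h) fun _ _ h => low d _ _ h).elim
        (fun h => ⟨d', by simp [h1], h⟩) fun h => ⟨d, by simp, h⟩)

variable {sl}

lemma Inv.nxt {n : ℕ} {s : St} (h : Inv sl n s) {r : Rq} (hr : cd n = .inr r) :
    Inv sl (n + 1) (nxt n s r) := by
  have h0 : Inv sl (n + 1) s := { h with bd := fun x y e => by have := h.bd x y e; omega }
  unfold GP.nxt
  split_ifs with hv
  swap
  · exact h0
  obtain ⟨v1, v2, v3⟩ := hv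
  have hn : ∀ k, cd.symm (.inl k) ≠ n := fun k e => by simp [← e] at hr
  have b1 : ∀ x, ¬ s.1 x n := fun x e => (h.bd _ _ e).2.false
  have b2 : ∀ x, ¬ s.1 n x := fun x e => (h.bd _ _ e).1.false
  have a1 : ∀ x, (∃ d ∈ r.1, x = d ∨ s.1 x d) → x ≠ n := by
    rintro x ⟨d, hd, rfl | e⟩; exacts [(v1 _ hd).ne, (h.bd _ _ e).1.ne]
  have a2 : ∀ x, (∃ d ∈ r.2.1, x = d ∨ s.1 d x) → x ≠ n := by
    rintro x ⟨d, hd, rfl | e⟩; exacts [(v2 _ hd).1.ne, (h.bd _ _ e).2.ne]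
  have a3 : ∀ x y, (∃ d ∈ r.1, x = d ∨ s.1 x d) → (∃ d ∈ r.2.1, y = d ∨ s.1 d y) → s.1 x y := by
    rintro x y ⟨d, hd, rfl | e⟩ ⟨u, hu, rfl | e'⟩
    exacts [v3 _ hd _ hu, h.tr _ _ _ (v3 _ hd _ hu) e', h.tr _ _ _ e (v3 _ hd _ hu),
      h.tr _ _ _ e (h.tr _ _ _ (v3 _ hd _ hu) e')]
  have m2 : ∀ y, (∃ d ∈ r.2.1, y = d ∨ s.1 d y) →
      {ψ | ψ ≤ toLex r.2.2.2.2.1 ∨ ∃ d ∈ r.1, ψ ∈ s.2 d} ⊆ s.2 y := by
    rintro y hy ψ (e | ⟨d, hd, e⟩)
    · obtain ⟨u, hu, rfl | e'⟩ := hy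
      exacts [h.low _ _ _ e (v2 _ hu).2, h.mono _ _ e' (h.low _ _ _ e (v2 _ hu).2)]
    · exact h.mono _ _ (a3 _ _ ⟨d, hd, .inl rfl⟩ hy) e
  refine ⟨?_, ?_, ?_, fun x => ?_, fun x => ?_, ?_, fun k => ?_, fun x hx => ?_⟩
  · rintro x y (e | ⟨rfl, d, hd, rfl | e⟩ | ⟨rfl, d, hd, rfl | e⟩)
    exacts [h0.bd _ _ e, ⟨(v1 _ hd).trans (by omega), by omega⟩, ⟨(h0.bd _ _ e).1, by omega⟩,
      ⟨by omega, (v2 _ hd).1.trans (by omega)⟩, ⟨by omega, (h0.bd _ _ e).2⟩]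
  · rintro x (e | ⟨rfl, e⟩ | ⟨rfl, e⟩)
    exacts [h.irr _ e, a1 _ e rfl, a2 _ e rfl]
  · rintro x y z (e | ⟨rfl, e⟩ | ⟨rfl, e⟩) (e' | ⟨rfl, e'⟩ | ⟨e0, e'⟩)
    · exact .inl (h.tr _ _ _ e e')
    · obtain ⟨d, hd, rfl | e'⟩ := e'
      exacts [.inr (.inl ⟨rfl, _, hd, .inr e⟩), .inr (.inl ⟨rfl, _, hd, .inr (h.tr _ _ _ e e')⟩)]
    · exact absurd (e0 ▸ e) (b1 _)
    · exact absurd e' (b2 _)
    · exact absurd rfl (a1 _ e')
    · exact .inl (a3 _ _ e e')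
    · obtain ⟨d, hd, rfl | e⟩ := e
      exacts [.inr (.inr ⟨rfl, _, hd, .inr e'⟩), .inr (.inr ⟨rfl, _, hd, .inr (h.tr _ _ _ e e')⟩)]
    · exact absurd (a3 _ _ e' e) (h.irr _)
    · exact absurd e0 (a2 _ e)
  · by_cases e : x = n
    · subst e
      simp only [Function.update_self]
      exact fun φ ψ e => Or.imp e.trans fun ⟨d, hd, e'⟩ => ⟨d, hd, h.low _ _ _ e e'⟩
    · simpa [e] using h.low x
  · by_cases e : x = n
    · simp [e]
    · simpa [e] using h.bot x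
  · rintro x y (e | ⟨rfl, e⟩ | ⟨rfl, e⟩)
    · simpa [(h.bd _ _ e).1.ne, (h.bd _ _ e).2.ne] using h.mono _ _ e
    · simp only [Function.update_self, Function.update_of_ne (a1 _ e)]
      obtain ⟨d, hd, rfl | e⟩ := e
      exacts [fun ψ e => .inr ⟨_, hd, e⟩, fun ψ e' => .inr ⟨_, hd, h.mono _ _ e e'⟩]
    · simpa only [Function.update_self, Function.update_of_ne (a2 _ e)] using m2 _ e
  · simpa [hn k] using h.seed k
  by_cases e : x = n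
  · subst e
    simp only [Function.update_self] at hx ⊢
    obtain ⟨d, hd, e⟩ := (sup_lin h.low _ r.1).resolve_left (hx _)
    rw [e] at hx ⊢
    rcases h.lim d hx with ⟨k, rfl, -⟩ | ⟨k, -, e1, e2⟩
    · exact .inr ⟨k, fun j e => hn j e.symm, .inr (.inl ⟨trivial, _, hd, .inl rfl⟩), h.seed k⟩
    · exact .inr ⟨k, fun j e => hn j e.symm, .inr (.inl ⟨trivial, _, hd, .inr e1⟩), e2⟩
  simp only [Function.update_of_ne e] at hx ⊢
  refine (h.lim x hx).imp (fun ⟨k, e1, e2⟩ => ⟨k, e1, ?_⟩) fun ⟨k, e1, e2, e3⟩ => ⟨k, e1, .inl e2, e3⟩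
  rintro y ⟨e3 | ⟨e3, -⟩ | ⟨rfl, e3⟩, e4⟩
  · exact e2 y ⟨e3, by simpa [(h.bd _ _ e3).1.ne] using e4⟩
  · exact e e3
  · rw [Function.update_self] at e4
    obtain ⟨d, hd, e5⟩ := (sup_lin h.low _ r.1).resolve_left fun e5 => hx _ (e4.symm.trans e5)
    exact e2 d ⟨a3 _ _ ⟨d, hd, .inl rfl⟩ e3, e5.symm.trans e4⟩

variable (h1 : ∀ k φ ψ, φ ≤ ψ → ψ ∈ sl k → φ ∈ sl k) (h2 : ∀ k, ⊥ ∈ sl k)
include h1 h2

lemma inv (n : ℕ) : Inv sl n (st sl n) := by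
  induction n with
  | zero =>
    refine ⟨by simp [st], by simp [st], by simp [st], fun x => ?_, fun x => ?_, by simp [st],
      by simp [st], fun x hx => ?_⟩ <;> rcases e : cd x with k | r
    · simpa [st, e] using h1 k
    · simpa only [st, e, Sum.elim_inr, mem_Iic] using fun _ _ => le_trans
    · simpa [st, e] using h2 k
    · simp [st, e]
    · exact .inl ⟨k, by simp [← e], by simp [st]⟩
    · exact absurd (by simp [st, e]) (hx ⊥)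
  | succ n ih =>
    rcases e : cd n with k | r <;> simp only [st, e, Sum.elim_inl, Sum.elim_inr]
    exacts [{ ih with bd := fun x y e => by have := ih.bd x y e; omega }, ih.nxt e]

omit h1 h2 in
lemma stab {n m : ℕ} (hm : n ≤ m) {x : ℕ} (hx : x < n) : (st sl m).2 x = (st sl n).2 x ∧
    ∀ y < n, ((st sl m).1 x y ↔ (st sl n).1 x y) := by
  induction hm with
  | refl => simp
  | @step m hm ih =>
    have := (hx.trans_le hm).ne
    rcases e : cd m with k | r <;> simp only [st, e, Sum.elim_inl, Sum.elim_inr, nxt]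
    · exact ih
    · split_ifs
      · exact ⟨by simpa [this] using ih.1, fun y hy => by
          simpa [this, (hy.trans_le hm).ne] using ih.2 y hy⟩
      · exact ih

/-- The generic model with seeds of levels `sl` and digraph `G` on the seeds. -/
noncomputable def mk (G : ℕ → ℕ → Prop) : PS ℕ where
  lt x y := (st sl (x + y + 1)).1 x y
  E x y := x ≠ y ∧ ((∃ j k, cd x = .inl j ∧ cd y = .inl k ∧ G j k) ∨
    (x < y ∧ ∃ r, cd y = .inr r ∧ x ∈ r.2.2.1) ∨ (y < x ∧ ∃ r, cd x = .inr r ∧ y ∈ r.2.2.2.1))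
  τ x := (st sl (x + 1)).2 x
  irr x := (inv h1 h2 _).irr x
  tr x y z e e' := ((stab (m := x + y + z + 1) (by omega) (by omega)).2 _ (by omega)).1
    ((inv h1 h2 _).tr x y z (((stab (by omega) (by omega)).2 _ (by omega)).2 e)
      (((stab (by omega) (by omega)).2 _ (by omega)).2 e'))
  eir x := by simp
  low x := (inv h1 h2 _).low x
  bot x := (inv h1 h2 _).bot x
  mono x y e := by
    rw [← (stab (m := x + y + 1) (by omega) x.lt_succ_self).1,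
      ← (stab (m := x + y + 1) (by omega) y.lt_succ_self).1]
    exact (inv h1 h2 _).mono x y e

variable (G : ℕ → ℕ → Prop)

lemma mk_lt {x y n : ℕ} (hx : x < n) (hy : y < n) : (mk h1 h2 G).lt x y ↔ (st sl n).1 x y :=
  ((stab (m := x + y + 1 + n) (by omega) (by omega)).2 _ (by omega)).symm.trans
    ((stab (by omega) hx).2 _ hy)

lemma mk_τ {x n : ℕ} (hx : x < n) : (mk h1 h2 G).τ x = (st sl n).2 x :=
  (stab hx x.lt_succ_self).1.symm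

lemma mk_ext : (mk h1 h2 G).Ext := by
  intro A dn up ei eo φ g1 g2 g3 g4
  obtain ⟨n, ⟨i, rfl⟩, hn⟩ := (infinite_range_of_injective (f := fun i : ℕ => cd.symm (.inr
    (A.filter dn, A.filter up, A.filter ei, A.filter eo, ofLex φ, i)))
    fun _ _ h => by simpa using h).exists_gt (A.sup id)
  simp only at hn
  set r : Rq := (A.filter dn, A.filter up, A.filter ei, A.filter eo, ofLex φ, i) with hr
  set n := cd.symm (.inr r)
  have hc : cd n = .inr r := cd.apply_symm_apply _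
  have hA : ∀ a ∈ A, a < n := fun a ha => (Finset.le_sup (f := id) ha).trans_lt hn
  have hv : Valid n (st sl n) r := by
    simp only [Valid, hr, Finset.mem_filter, toLex_ofLex]
    exact ⟨fun d hd => hA d hd.1, fun u hu => ⟨hA u hu.1, mk_τ h1 h2 G (hA u hu.1) ▸ g4 u hu.1 hu.2⟩,
      fun d hd u hu => (mk_lt h1 h2 G (hA d hd.1) (hA u hu.1)).1 (g1 d hd.1 u hu.1 hd.2 hu.2)⟩
  have hs : st sl (n + 1) = nxt n (st sl n) r := by simp [st, hc]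
  have b := (inv h1 h2 n).bd
  refine ⟨n, fun h => (hA n h).false, fun a ha => ⟨?_, ?_, ?_, ?_⟩, fun ψ => ?_⟩
  · rw [mk_lt h1 h2 G ((hA a ha).trans n.lt_succ_self) n.lt_succ_self, hs, nxt, if_pos hv]
    simp only [(hA a ha).ne, hr, Finset.mem_filter, false_and, or_false, true_and]
    refine ⟨?_, fun h => .inr ⟨a, ⟨ha, h⟩, .inl rfl⟩⟩
    rintro (e | ⟨d, hd, rfl | e⟩)
    exacts [absurd (b _ _ e).2 (lt_irrefl _), hd.2,
      g2 a ha d hd.1 ((mk_lt h1 h2 G (hA a ha) (hA d hd.1)).2 e) hd.2]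
  · rw [mk_lt h1 h2 G n.lt_succ_self ((hA a ha).trans n.lt_succ_self), hs, nxt, if_pos hv]
    simp only [(hA a ha).ne, hr, Finset.mem_filter, false_and, false_or, true_and]
    refine ⟨?_, fun h => .inr ⟨a, ⟨ha, h⟩, .inl rfl⟩⟩
    rintro (e | ⟨d, hd, rfl | e⟩)
    exacts [absurd (b _ _ e).1 (lt_irrefl _), hd.2,
      g3 d hd.1 a ha ((mk_lt h1 h2 G (hA d hd.1) (hA a ha)).2 e) hd.2]
  · simp only [mk, hc, (hA a ha).ne, hA a ha, (hA a ha).not_gt, Sum.inr.injEq, exists_eq_left']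
    simp [hr, ha, (hA a ha).ne]
  · simp only [mk, hc, (hA a ha).ne', hA a ha, (hA a ha).not_gt, Sum.inr.injEq, exists_eq_left']
    simp [hr, ha, (hA a ha).ne']
  · rw [mk_τ h1 h2 G n.lt_succ_self, hs, nxt, if_pos hv]
    simp only [Function.update_self, hr, Finset.mem_filter, toLex_ofLex, mem_setOf_eq, and_assoc]
    exact or_congr_right (exists_congr fun a => and_congr_right fun ha => by
      rw [mk_τ h1 h2 G (hA a ha)])

lemma mk_seed (k : ℕ) : (mk h1 h2 G).τ (cd.symm (.inl k)) = sl k := (inv h1 h2 _).seed k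

lemma mk_lim (x : ℕ) (hx : ∀ φ, (mk h1 h2 G).τ x ≠ Iic φ) : (∃ k, (mk h1 h2 G).τ x = sl k) ∧
    ((∀ y, ¬ ((mk h1 h2 G).lt y x ∧ (mk h1 h2 G).τ y = (mk h1 h2 G).τ x)) ↔
      ∃ k, x = cd.symm (.inl k)) := by
  constructor
  · rcases (inv h1 h2 _).lim x hx with ⟨k, rfl, -⟩ | ⟨k, -, -, e⟩
    exacts [⟨k, mk_seed h1 h2 G k⟩, ⟨k, e⟩]
  constructor
  · intro h
    rcases (inv h1 h2 _).lim x hx with ⟨k, rfl, -⟩ | ⟨k, -, e1, e2⟩
    · exact ⟨k, rfl⟩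
    · exact absurd ⟨(mk_lt h1 h2 G ((inv h1 h2 _).bd _ _ e1).1 x.lt_succ_self).2 e1,
        (mk_seed h1 h2 G k).trans e2.symm⟩ (h _)
  · rintro ⟨k, hk⟩ y ⟨e1, e2⟩
    rw [mk_τ h1 h2 G (n := y + x + 1) (by omega)] at hx
    rw [mk_τ h1 h2 G (n := y + x + 1) (by omega), mk_τ h1 h2 G (n := y + x + 1) (by omega)] at e2
    rcases (inv h1 h2 _).lim x hx with ⟨-, -, e⟩ | ⟨_, e, -⟩
    exacts [e y ⟨e1, e2⟩, e k hk]

end Pool.Agent.H98.GP
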