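import Mathlib
import Pool.Agent.H98.GP2
import Pool.Agent.H98.FP3

/-! Models of the theory of the generic levelled poset; elementary embeddings between them. -/

namespace Pool.Agent.H98.GP

open Set FirstOrder Language Structure Classical

variable {X Y : Type*}

def ExtI (lt E : X → X → Prop) (U : F → X → Prop) {ι : Type*} (dn up ei eo : ι → Prop) (φ ψ : F)
    (v : ι → X) : Prop :=
  (∀ p : ι × ι, (v p.1 = v p.2 → p.1 = p.2) ∧ (dn p.1 → up p.2 → lt (v p.1) (v p.2)) ∧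
    (lt (v p.1) (v p.2) → dn p.2 → dn p.1) ∧ (lt (v p.1) (v p.2) → up p.1 → up p.2) ∧
    (up p.1 → U φ (v p.1))) → ∃ y, (∀ a, ¬ y = v a ∧ (lt (v a) y ↔ dn a) ∧ (lt y (v a) ↔ up a) ∧
      (E (v a) y ↔ ei a) ∧ (E y (v a) ↔ eo a)) ∧ U φ y ∧ (U ψ y → ψ ≤ φ ∨ ∃ a, dn a ∧ U ψ (v a))

lemma PS.Ext.extI {P : PS X} (h : P.Ext) {ι : Type*} [Finite ι] (dn up ei eo : ι → Prop) (φ ψ : F)
    (v : ι → X) : ExtI P.lt P.E (fun φ x => φ ∈ P.τ x) dn up ei eo φ ψ v := by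
  intro H
  have e : ∀ (r : ι → Prop) a, (∃ b, v b = v a ∧ r b) ↔ r a := fun r a =>
    ⟨fun ⟨b, h1, h2⟩ => (show b = a from (H (b, a)).1 h1) ▸ h2, fun h => ⟨a, rfl, h⟩⟩
  obtain ⟨y, h1, h2, h3⟩ := h (finite_range v).toFinset (fun x => ∃ b, v b = x ∧ dn b)
    (fun x => ∃ b, v b = x ∧ up b) (fun x => ∃ b, v b = x ∧ ei b) (fun x => ∃ b, v b = x ∧ eo b) φ
    (by rintro _ - _ - ⟨a, rfl, h1⟩ ⟨b, rfl, h2⟩; exact (H (a, b)).2.1 h1 h2)
    (by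
      simp only [Finite.mem_toFinset]
      rintro _ ⟨a, rfl⟩ _ - h1 ⟨b, rfl, h2⟩
      exact ⟨a, rfl, (H (a, b)).2.2.1 h1 h2⟩)
    (by
      simp only [Finite.mem_toFinset]
      rintro _ - _ ⟨b, rfl⟩ h1 ⟨a, rfl, h2⟩
      exact ⟨b, rfl, (H (a, b)).2.2.2.1 h1 h2⟩)
    (by rintro _ - ⟨a, rfl, h1⟩; exact (H (a, a)).2.2.2.2 h1)
  simp only [Finite.mem_toFinset] at h1 h2 h3
  refine ⟨y, fun a => ⟨fun e => h1 ⟨a, e.symm⟩, by simpa only [e] using h2 _ ⟨a, rfl⟩⟩,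
    (h3 φ).2 (.inl le_rfl), fun h => ((h3 ψ).1 h).imp_right ?_⟩
  rintro ⟨_, -, ⟨a, rfl, h4⟩, h5⟩
  exact ⟨a, h4, h5⟩

lemma ext_of {P : PS X} (h : ∀ (A : Finset X) (dn up ei eo : A → Prop) φ ψ,
    ExtI P.lt P.E (fun φ x => φ ∈ P.τ x) dn up ei eo φ ψ (↑)) : P.Ext := by
  intro A dn up ei eo φ g1 g2 g3 g4
  obtain ⟨χ, hχ⟩ : ∃ χ, ∀ ψ, ¬ (ψ ≤ φ ∨ ∃ a ∈ A, dn a ∧ ψ ∈ P.τ a) →
      χ ≤ ψ ∧ ¬ (χ ≤ φ ∨ ∃ a ∈ A, dn a ∧ χ ∈ P.τ a) := by
    by_cases hn : {ψ | ¬ (ψ ≤ φ ∨ ∃ a ∈ A, dn a ∧ ψ ∈ P.τ a)}.Nonempty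
    · exact ⟨_, fun ψ h => ⟨wellFounded_lt.min_le h, wellFounded_lt.min_mem _ hn⟩⟩
    · exact ⟨⊥, fun ψ h => absurd ⟨ψ, h⟩ hn⟩
  obtain ⟨y, h1, h2, h3⟩ := h A (dn ·) (up ·) (ei ·) (eo ·) φ χ fun p =>
    ⟨Subtype.ext, g1 _ p.1.2 _ p.2.2, g2 _ p.1.2 _ p.2.2, g3 _ p.1.2 _ p.2.2, g4 _ p.1.2⟩
  refine ⟨y, fun e => (h1 ⟨y, e⟩).1 rfl, fun a ha => (h1 ⟨a, ha⟩).2, fun ψ => ⟨fun h4 => ?_, ?_⟩⟩
  · by_contra h5
    exact (hχ ψ h5).2 ((h3 (P.low _ _ _ (hχ ψ h5).1 h4)).imp_right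
      fun ⟨a, h6, h7⟩ => ⟨a, a.2, h6, h7⟩)
  · rintro (e | ⟨a, ha, h4, h5⟩)
    exacts [P.low _ _ _ e h2, P.mono _ _ ((h1 ⟨a, ha⟩).2.1.2 h4) h5]

section
variable {α : Type*}
def fl (a b : α) : L.Formula α := Relations.formula₂ Rl.lt (.var a) (.var b)
def fE (a b : α) : L.Formula α := Relations.formula₂ Rl.E (.var a) (.var b)
def fU (φ : F) (a : α) : L.Formula α := Relations.formula₁ (Rl.U φ) (.var a)
def fe (a b : α) : L.Formula α := Term.equal (.var a) (.var b)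
noncomputable def pf (p : Prop) : L.Formula α := if p then ⊤ else ⊥

variable [L.Structure X] (v : α → X)
def Lt (a b : X) : Prop := RelMap (L := L) Rl.lt ![a, b]
def Ed (a b : X) : Prop := RelMap (L := L) Rl.E ![a, b]
def Un (φ : F) (a : X) : Prop := RelMap (L := L) (Rl.U φ) ![a]

@[simp] lemma r_fl (a b : α) : (fl a b).Realize v ↔ Lt (v a) (v b) := Formula.realize_rel₂
@[simp] lemma r_fE (a b : α) : (fE a b).Realize v ↔ Ed (v a) (v b) := Formula.realize_rel₂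
@[simp] lemma r_fU (φ : F) (a : α) : (fU φ a).Realize v ↔ Un φ (v a) := Formula.realize_rel₁
@[simp] lemma r_fe (a b : α) : (fe a b).Realize v ↔ v a = v b := by simp [fe]
@[simp] lemma r_pf (p : Prop) : (pf p : L.Formula α).Realize v ↔ p := by
  unfold pf; split_ifs <;> simp [*]

noncomputable def fX [Finite α] (dn up ei eo : α → Prop) (φ ψ : F) : L.Formula α :=
  (Formula.iInf fun p : α × α => (fe p.1 p.2).imp (pf (p.1 = p.2)) ⊓
    ((pf (dn p.1)).imp ((pf (up p.2)).imp (fl p.1 p.2)) ⊓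
    ((fl p.1 p.2).imp (pf (dn p.2 → dn p.1)) ⊓ ((fl p.1 p.2).imp (pf (up p.1 → up p.2)) ⊓
    (pf (up p.1)).imp (fU φ p.1))))).imp (Formula.iExs Unit ((Formula.iInf fun a : α =>
      (fe (.inr ()) (.inl a)).not ⊓ ((fl (.inl a) (.inr ())).iff (pf (dn a)) ⊓
      ((fl (.inr ()) (.inl a)).iff (pf (up a)) ⊓ ((fE (.inl a) (.inr ())).iff (pf (ei a)) ⊓
      (fE (.inr ()) (.inl a)).iff (pf (eo a)))))) ⊓ (fU φ (.inr ()) ⊓ (fU ψ (.inr ())).imp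
      (pf (ψ ≤ φ) ⊔ Formula.iSup fun a : α => pf (dn a) ⊓ fU ψ (.inl a)))))

lemma r_fX [Finite α] (dn up ei eo : α → Prop) (φ ψ : F) :
    (fX dn up ei eo φ ψ).Realize v ↔ ExtI Lt Ed Un dn up ei eo φ ψ v := by
  simp only [fX, ExtI, Formula.realize_imp, Formula.realize_iInf, Formula.realize_inf, r_fl, r_fE,
    r_fU, r_fe, r_pf, Formula.realize_iExs, Formula.realize_not, Formula.realize_iff,
    Formula.realize_sup, Formula.realize_iSup, Sum.elim_inl, Sum.elim_inr]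
  exact imp_congr_right fun _ => ⟨fun ⟨y, h⟩ => ⟨y (), h⟩, fun ⟨y, h⟩ => ⟨fun _ => y, h⟩⟩
end

theorem model_ps {P : PS Y} (hP : P.Ext) [S : L.Structure X]
    [hM : X ⊨ @Language.completeTheory L Y P.str] : ∃ Q : PS X, S = Q.str ∧ Q.Ext := by
  letI := P.str
  let Q : PS X :=
    { lt := Lt, E := Ed, τ := fun x => {φ | Un φ x}
      irr := fun x => by simpa using FP.tr (N := Y) (fl () ()).not (fun v => by
        rw [Formula.realize_not, r_fl]; exact P.irr _) fun _ => x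
      tr := fun x y z => by
        simpa using FP.tr (N := Y) ((fl 0 1).imp ((fl 1 2).imp (fl (0 : Fin 3) 2)))
          (fun v => by simp only [Formula.realize_imp, r_fl]; exact P.tr _ _ _) ![x, y, z]
      eir := fun x => by simpa using FP.tr (N := Y) (fE () ()).not (fun v => by
        rw [Formula.realize_not, r_fE]; exact P.eir _) fun _ => x
      low := fun x φ ψ h => by
        simpa using FP.tr (N := Y) ((fU ψ ()).imp (fU φ ())) (fun v => by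
          simp only [Formula.realize_imp, r_fU]; exact P.low _ _ _ h) fun _ => x
      bot := fun x => by simpa using FP.tr (N := Y) (fU ⊥ ()) (fun v => by
        rw [r_fU]; exact P.bot _) fun _ => x
      mono := fun x y h φ => by
        simpa [h] using FP.tr (N := Y) ((fl 0 1).imp ((fU φ 0).imp (fU φ (1 : Fin 2))))
          (fun v => by
            simp only [Formula.realize_imp, r_fU, r_fl]; exact fun h => @P.mono _ _ h φ) ![x, y] }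
  refine ⟨Q, Structure.ext (funext fun _ => funext fun f => f.elim) ?_, ext_of
    fun A dn up ei eo φ ψ => (r_fX _ _ _ _ _ _ _).1 (FP.tr (N := Y) _ (fun v =>
      (r_fX _ _ _ _ _ _ _).2 (hP.extI _ _ _ _ _ _ _)) _)⟩
  funext n r x
  cases r
  exacts [congrArg _ (funext fun i => by fin_cases i <;> rfl),
    congrArg _ (funext fun i => by fin_cases i <;> rfl), congrArg _ (funext fun i => by fin_cases i; rfl)]

/-- The two limit levels. -/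
def Lim (i : Bool) : Set F := {φ | (ofLex φ).1 ≤ i}

lemma lim_ne (i : Bool) (φ : F) : Lim i ≠ Iic φ := fun e => by
  have h1 : (ofLex φ).1 ≤ i := (e.symm ▸ (le_refl φ : φ ∈ Iic φ) : φ ∈ Lim i)
  have h2 : toLex (i, (ofLex φ).2 + 1) ≤ toLex (ofLex φ) := (e ▸ (le_refl i) : _ ∈ Iic φ)
  rcases Prod.Lex.toLex_le_toLex.1 h2 with h | h
  exacts [h.not_ge h1, absurd h.2 (by simp)]

lemma classify (P : PS X) (x : X) : (∃ φ, P.τ x = Iic φ) ∨ ∃ i, P.τ x = Lim i := by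
  obtain ⟨i, ⟨n, h1⟩, h2⟩ : ∃ i, (∃ n, toLex (i, n) ∈ P.τ x) ∧ P.τ x ⊆ Lim i := by
    by_cases h : ∃ n, toLex (true, n) ∈ P.τ x
    · exact ⟨true, h, fun φ _ => Bool.le_true (ofLex φ).1⟩
    · refine ⟨false, ⟨0, P.bot x⟩, fun φ hφ => ?_⟩
      obtain ⟨⟨j, m⟩, rfl⟩ := toLex.surjective φ
      cases j
      exacts [le_refl false, absurd ⟨m, hφ⟩ h]
  by_cases h : ∃ m, toLex (i, m) ∉ P.τ x
  · left
    have h3 := Nat.find_spec h
    have h4 : n < Nat.find h := not_le.1 fun e => h3 (P.low _ _ _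
      (show toLex (i, Nat.find h) ≤ toLex (i, n) from Prod.Lex.toLex_le_toLex.2 (.inr ⟨rfl, e⟩)) h1)
    obtain ⟨m, hm⟩ : ∃ m, Nat.find h = m + 1 := ⟨Nat.find h - 1, by omega⟩
    refine ⟨toLex (i, m), Subset.antisymm (fun φ hφ => mem_Iic.2 <| not_lt.1 fun e => h3 (P.low _ _ _ ?_ hφ))
      fun φ hφ => P.low _ _ _ hφ (not_not.1 (Nat.find_min h (by omega)))⟩
    obtain ⟨⟨j, k⟩, rfl⟩ := toLex.surjective φ
    rcases Prod.Lex.toLex_lt_toLex.1 e with e | e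
    exacts [absurd (h2 hφ) (not_le.2 e), Prod.Lex.toLex_le_toLex.2 (.inr ⟨e.1, hm ▸ e.2⟩)]
  · refine .inr ⟨i, Subset.antisymm h2 fun φ hφ => P.low _ _ _ ?_ (not_not.1 (not_exists.1 h (ofLex φ).2))⟩
    obtain ⟨⟨j, k⟩, rfl⟩ := toLex.surjective φ
    exact Prod.Lex.toLex_le_toLex.2 ((le_iff_lt_or_eq.1 hφ).imp_right fun e => ⟨e, le_rfl⟩)

/-- The set of realised limit levels. -/
def PS.Rz (P : PS X) : Set Bool := {i | ∃ x, P.τ x = Lim i}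

theorem embed [Countable X] {P : PS X} {Q : PS Y} (hP : P.Ext) (hQ : Q.Ext) (h : P.Rz ⊆ Q.Rz) :
    Nonempty (@ElementaryEmbedding L X Y P.str Q.str) := by
  have hl : ∀ {i j}, Lim i ⊆ Lim j ↔ i ≤ j := fun {i j} =>
    ⟨fun h => h (a := toLex (i, 0)) (le_refl i), fun h _ e => le_trans e h⟩
  obtain ⟨a, a1, a2⟩ : ∃ a : Q.Rz → Y, (∀ i, Q.τ (a i) = Lim i) ∧
      ∀ i j : Q.Rz, Q.lt (a i) (a j) ↔ i < j := by
    choose b hb using fun i : Q.Rz => i.2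
    by_cases h1 : true ∈ Q.Rz
    · obtain ⟨y, -, h2, h3⟩ := hQ (finite_range b).toFinset (fun _ => True) (fun _ => False)
        (fun _ => False) (fun _ => False) ⊥ (by simp) (by simp) (by simp) (by simp)
      simp only [Finite.mem_toFinset, forall_mem_range] at h2 h3
      refine ⟨fun i => if i.1 = true then y else b i, ?_, ?_⟩
      · rintro ⟨_ | _, hi⟩
        · simp [hb]
        · exact eq_univ_of_forall (fun ψ => (h3 ψ).2 (.inr ⟨_, ⟨⟨_, h1⟩, rfl⟩, trivial,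
            (hb _).symm ▸ Bool.le_true (ofLex ψ).1⟩)) |>.trans 
              (eq_univ_of_forall fun φ : F => Bool.le_true (ofLex φ).1).symm
      · rintro ⟨_ | _, hi⟩ ⟨_ | _, hj⟩ <;> simp [Q.irr, h2]
    · refine ⟨b, hb, ?_⟩
      rintro ⟨_ | _, hi⟩ ⟨_ | _, hj⟩ <;> simp_all [Q.irr]
  let P' : PS (X ⊕ Q.Rz) :=
    { lt := fun x y => match x, y with
        | .inl x, .inl y => P.lt x y
        | .inr i, .inl y => Lim i ⊆ P.τ y
        | .inl _, .inr _ => False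
        | .inr i, .inr j => i < j
      E := fun x y => match x, y with
        | .inl x, .inl y => P.E x y
        | .inr i, .inr j => Q.E (a i) (a j)
        | _, _ => False
      τ := Sum.elim P.τ fun i => Lim i
      irr := by rintro (x | x); exacts [P.irr x, lt_irrefl x]
      tr := by
        rintro (x | x) (y | y) (z | z) h1 h2
        exacts [P.tr _ _ _ h1 h2, h2, h1.elim, h1.elim, h1.trans (P.mono _ _ h2), h2.elim,
          (hl.2 h1.le).trans h2, h1.trans h2]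
      eir := by rintro (x | x); exacts [P.eir x, Q.eir _]
      low := by
        rintro (x | x)
        exacts [P.low x, fun φ ψ h e => le_trans (Prod.Lex.monotone_fst_ofLex h) e]
      bot := by rintro (x | x); exacts [P.bot x, bot_le (a := x.1)]
      mono := by
        rintro (x | x) (y | y) h
        exacts [P.mono _ _ h, h.elim, h, hl.2 h.le] }
  obtain ⟨f, hf⟩ := forth (fun R => Iso P' Q R ∧ (∀ i, (.inr i, a i) ∈ R) ∧
      ∀ p ∈ R, P'.τ p.1 = Q.τ p.2) (range fun i => (.inr i, a i))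
    ⟨⟨finite_range _, by
      rintro _ ⟨i, rfl⟩ _ ⟨j, rfl⟩
      refine ⟨⟨fun e => by rw [Sum.inr.inj e], fun e => congrArg Sum.inr (Subtype.ext (le_antisymm
        (hl.1 ?_) (hl.1 ?_)))⟩, (a2 i j).symm, Iff.rfl⟩ <;> simp only at e <;> rw [← a1, ← a1, e]⟩,
      fun i => ⟨i, rfl⟩, by rintro _ ⟨i, rfl⟩; exact (a1 i).symm⟩ (by
    rintro R ⟨g1, g2, g3⟩ x
    by_cases hx : ∃ p ∈ R, p.1 = x
    · obtain ⟨p, hp, rfl⟩ := hx
      exact ⟨p.2, by rw [insert_eq_of_mem hp]; exact ⟨g1, g2, g3⟩⟩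
    obtain ⟨φ, h1, h2⟩ : ∃ φ ∈ P'.τ x, ∀ ψ ∈ P'.τ x, ψ ≤ φ ∨ ∃ p ∈ R, P'.lt p.1 x ∧ ψ ∈ Q.τ p.2 := by
      rcases x with x | i
      · rcases classify P x with ⟨φ, e⟩ | ⟨i, e⟩
        · exact ⟨φ, (e ▸ le_refl φ : φ ∈ P.τ x), fun ψ (e' : ψ ∈ P.τ x) => .inl (by rwa [e] at e')⟩
        · exact ⟨⊥, P.bot x, fun ψ (e' : ψ ∈ P.τ x) => .inr ⟨_, g2 ⟨i, h ⟨x, e⟩⟩, e.ge,
            by rwa [a1, ← e]⟩⟩
      · exact absurd ⟨_, g2 i, rfl⟩ hx
    obtain ⟨b, h3, h4⟩ := step hQ g1 (fun p hp e => hx ⟨p, hp, e⟩) (φ := φ) fun p hp e =>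
      g3 p hp ▸ P'.mono _ _ e h1
    refine ⟨b, h3, fun i => .inr (g2 i), ?_⟩
    rintro p (rfl | hp)
    · exact Subset.antisymm (fun ψ e => (h4 ψ).2 (h2 ψ e)) fun ψ e => ((h4 ψ).1 e).elim
        (fun e => P'.low _ _ _ e h1) fun ⟨q, hq, e1, e2⟩ => P'.mono _ _ e1 (g3 q hq ▸ e2)
    · exact g3 p hp)
  refine ⟨@ElementaryEmbedding.mk L X Y P.str Q.str (fun x => f (.inl x)) fun n θ x => ?_⟩
  obtain ⟨R, ⟨g1, -, g3⟩, g4⟩ := hf _ (finite_range fun i => Sum.inl (x i))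
  obtain ⟨Φ, hΦ⟩ := ef θ
  refine (hΦ X Y P Q hP hQ (range fun i => (x i, f (.inl (x i)))) ⟨⟨finite_range _, ?_⟩, ?_⟩ _ _ _ _
    (fun i => ⟨i, rfl⟩) fun i => i.elim0).symm
  · rintro _ ⟨i, rfl⟩ _ ⟨j, rfl⟩
    have := g1.2 _ (g4 _ ⟨i, rfl⟩) _ (g4 _ ⟨j, rfl⟩)
    exact ⟨Sum.inl.inj_iff.symm.trans this.1, this.2⟩
  · rintro _ ⟨i, rfl⟩ φ -
    exact Set.ext_iff.1 (g3 _ (g4 _ ⟨i, rfl⟩)) φ

end Pool.Agent.H98.GP
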