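import Mathlib

set_option autoImplicit false

namespace Pool.Agent.H98.Gabor

open MeasureTheory Set Filter Topology Real
open scoped FourierTransform

/-- Gaussian factor. -/
noncomputable def ga (u : ℝ) : ℂ := Complex.exp (-(π : ℂ) * ((u ^ 2 : ℝ) : ℂ))

lemma ga_deriv (x t : ℝ) :
    HasDerivAt (fun t => ga (t - x)) ((-2 * π * (t - x) : ℝ) * ga (t - x)) t := by
  have h1 : HasDerivAt (fun t : ℝ => (t - x) ^ 2) (2 * (t - x)) t := by
    simpa using ((hasDerivAt_id t).sub_const x).fun_pow 2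
  have h2 := (h1.ofReal_comp.const_mul (-(π : ℂ))).cexp
  refine h2.congr_deriv ?_
  unfold ga; push_cast; ring

lemma ga_norm (u : ℝ) : ‖ga u‖ * (1 + u ^ 2) ^ 2 ≤ 1 := by
  have h1 : ‖ga u‖ = exp (-(π * u ^ 2)) := by
    unfold ga
    rw [Complex.norm_exp]
    congr 1
    simp [-Complex.ofReal_pow]
  have h2 := quadratic_le_exp_of_nonneg (x := π * u ^ 2) (by positivity)
  have h3 := pi_gt_three
  rw [h1, exp_neg, inv_mul_le_iff₀ (exp_pos _), mul_one]
  have h4 : 0 ≤ u ^ 2 := by positivity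
  have h5 : 3 * u ^ 2 ≤ π * u ^ 2 := by gcongr
  nlinarith

lemma ga_cont : Continuous ga := by unfold ga; fun_prop

lemma norm_fourier_le {h : ℝ → ℂ} (w : ℝ) : ‖𝓕 h w‖ ≤ ∫ t, ‖h t‖ :=
  VectorFourier.norm_fourierIntegral_le_integral_norm _ _ _ _ _

lemma decay {h h1 h2 : ℝ → ℂ} (d1 : ∀ t, HasDerivAt h (h1 t) t) (d2 : ∀ t, HasDerivAt h1 (h2 t) t)
    (i0 : Integrable h) (i1 : Integrable h1) (i2 : Integrable h2) (w : ℝ) :
    ‖𝓕 h w‖ * (1 + w ^ 2) ≤ (∫ t, ‖h t‖) + ∫ t, ‖h2 t‖ := by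
  have e1 : deriv h = h1 := funext fun t => (d1 t).deriv
  have e2 : deriv h1 = h2 := funext fun t => (d2 t).deriv
  have f1 := congrFun (fourier_deriv i0 (fun t => (d1 t).differentiableAt) (e1 ▸ i1)) w
  have f2 := congrFun (fourier_deriv i1 (fun t => (d2 t).differentiableAt) (e2 ▸ i2)) w
  rw [e1] at f1
  rw [e2, f1] at f2
  have b0 := norm_fourier_le (h := h) w
  have b2 := norm_fourier_le (h := h2) w
  have n : ‖(2 * π * Complex.I * w : ℂ)‖ = 2 * π * |w| := by
    simp [abs_of_pos pi_pos]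
  rw [f2, norm_smul, norm_smul, n] at b2
  have h3 := pi_gt_three
  have h4 : w ^ 2 ≤ 2 * π * |w| * (2 * π * |w|) := by
    have : |w| ≤ 2 * π * |w| := le_mul_of_one_le_left (abs_nonneg w) (by linarith)
    rw [← sq_abs]
    nlinarith [abs_nonneg w]
  nlinarith [norm_nonneg (𝓕 h w)]

/-- smooth compactly supported functions have integrable Gaussian-window transform. -/
lemma s0 {g : ℝ → ℂ} (hg : ContDiff ℝ 2 g) (hc : HasCompactSupport g) :
    Integrable (fun p : ℝ × ℝ => ∫ t : ℝ, g t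
        * Complex.exp (-(Real.pi : ℂ) * (((t - p.1) ^ 2 : ℝ) : ℂ))
        * Complex.exp (-2 * (Real.pi : ℂ) * Complex.I * (p.2 : ℂ) * (t : ℂ)))
      (volume : Measure (ℝ × ℝ)) := by
  have hg1 : ContDiff ℝ 1 (deriv g) := hg.deriv'
  have c0 := hg.continuous
  have c1 := hg1.continuous
  have c2 : Continuous (deriv (deriv g)) := hg1.continuous_deriv le_rfl
  have s1 := hc.deriv
  have s2 := s1.deriv
  have D0 : ∀ t, HasDerivAt g (deriv g t) t := fun t =>
    (hg.differentiable (by norm_num) t).hasDerivAt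
  have D1 : ∀ t, HasDerivAt (deriv g) (deriv (deriv g) t) t := fun t =>
    (hg1.differentiable (by norm_num) t).hasDerivAt
  let m : ℝ → ℝ := fun t => (1 + t ^ 2) * (‖g t‖ + ‖deriv g t‖ + ‖deriv (deriv g) t‖)
  have im : Integrable m := by
    refine Continuous.integrable_of_hasCompactSupport (by fun_prop) ?_
    exact ((hc.norm.add s1.norm).add s2.norm).mul_left
  have cg := ga_cont
  have meas : AEStronglyMeasurable (fun p : ℝ × ℝ => ∫ t : ℝ, g t
        * Complex.exp (-(Real.pi : ℂ) * (((t - p.1) ^ 2 : ℝ) : ℂ))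
        * Complex.exp (-2 * (Real.pi : ℂ) * Complex.I * (p.2 : ℂ) * (t : ℂ))) volume := by
    refine (StronglyMeasurable.integral_prod_right' (f := fun q : (ℝ × ℝ) × ℝ => g q.2
        * Complex.exp (-(Real.pi : ℂ) * (((q.2 - q.1.1) ^ 2 : ℝ) : ℂ))
        * Complex.exp (-2 * (Real.pi : ℂ) * Complex.I * (q.1.2 : ℂ) * (q.2 : ℂ)))
        (Continuous.stronglyMeasurable (by fun_prop))).aestronglyMeasurable
  refine Integrable.mono' (g := fun p : ℝ × ℝ => (400 * (∫ t, m t) * (1 + p.1 ^ 2)⁻¹) * (1 + p.2 ^ 2)⁻¹)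
    ((integrable_inv_one_add_sq.const_mul _).mul_prod integrable_inv_one_add_sq) meas
    (Eventually.of_forall fun ⟨x, w⟩ => ?_)
  let a : ℝ → ℂ := fun t => ((-2 * π * (t - x) : ℝ) : ℂ)
  have Da : ∀ t, HasDerivAt a ((-2 * π : ℝ) : ℂ) t := fun t => by
    have : HasDerivAt (fun t : ℝ => -2 * π * (t - x)) (-2 * π) t := by
      simpa using ((hasDerivAt_id t).sub_const x).const_mul (-2 * π)
    exact this.ofReal_comp
  have ca : Continuous a := by fun_prop
  have key := decay (h := fun t => g t * ga (t - x))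
    (h1 := fun t => (deriv g t + g t * a t) * ga (t - x))
    (h2 := fun t => (deriv (deriv g) t + 2 * deriv g t * a t + g t * (a t ^ 2 + (-2 * π : ℝ)))
      * ga (t - x))
    (fun t => ((D0 t).mul (ga_deriv x t)).congr_deriv (by simp only [a]; ring))
    (fun t => (((D1 t).add ((D0 t).mul (Da t))).mul (ga_deriv x t)).congr_deriv
      (by simp only [a, Pi.add_apply, Pi.mul_apply]; ring))
    (Continuous.integrable_of_hasCompactSupport (by fun_prop) hc.mul_right)
    (Continuous.integrable_of_hasCompactSupport (by fun_prop) (s1.add hc.mul_right).mul_right)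
    (Continuous.integrable_of_hasCompactSupport (by fun_prop)
      ((s2.add s1.mul_left.mul_right).add hc.mul_right).mul_right) w
  have e : (∫ t : ℝ, g t * Complex.exp (-(Real.pi : ℂ) * (((t - x) ^ 2 : ℝ) : ℂ))
        * Complex.exp (-2 * (Real.pi : ℂ) * Complex.I * (w : ℂ) * (t : ℂ))) =
      𝓕 (fun t => g t * ga (t - x)) w := by
    rw [fourier_real_eq_integral_exp_smul]
    refine integral_congr_ae (Eventually.of_forall fun t => ?_)
    simp only [ga, smul_eq_mul]
    rw [mul_comm]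
    congr 2
    push_cast; ring
  have pw : ∀ (t c : ℝ) (z : ℂ), ‖z‖ ≤ 100 * (1 + (t - x) ^ 2) * c →
      ‖z * ga (t - x)‖ ≤ 200 * (1 + x ^ 2)⁻¹ * ((1 + t ^ 2) * c) := by
    intro t c z hz
    have q1 := ga_norm (t - x)
    have q0 : 0 < 1 + (t - x) ^ 2 := by positivity
    have hc : 0 ≤ c := by
      by_contra hh
      have := mul_neg_of_pos_of_neg (mul_pos (by norm_num : (0 : ℝ) < 100) q0) (not_le.1 hh)
      linarith [norm_nonneg z]
    have q2 : 1 + x ^ 2 ≤ 2 * (1 + (t - x) ^ 2) * (1 + t ^ 2) := by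
      nlinarith [sq_nonneg (2 * t - x), sq_nonneg ((t - x) * t)]
    rw [norm_mul, mul_assoc, mul_left_comm, le_inv_mul_iff₀ (by positivity)]
    calc (1 + x ^ 2) * (‖z‖ * ‖ga (t - x)‖)
        ≤ (2 * (1 + (t - x) ^ 2) * (1 + t ^ 2)) * ((100 * (1 + (t - x) ^ 2) * c) * ‖ga (t - x)‖) := by
          gcongr
      _ = 200 * ((1 + t ^ 2) * c) * (‖ga (t - x)‖ * (1 + (t - x) ^ 2) ^ 2) := by ring
      _ ≤ 200 * ((1 + t ^ 2) * c) * 1 := by gcongr
      _ = _ := by ring
  have p4 := pi_le_four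
  have p0 := pi_pos
  have b0 : ∫ t, ‖g t * ga (t - x)‖ ≤ ∫ t, 200 * (1 + x ^ 2)⁻¹ * m t :=
    integral_mono_of_nonneg (Eventually.of_forall fun t => norm_nonneg _) (im.const_mul _)
      (Eventually.of_forall fun t => pw t _ _ (by
        nlinarith [norm_nonneg (g t), norm_nonneg (deriv g t), norm_nonneg (deriv (deriv g) t),
          mul_nonneg (sq_nonneg (t - x)) (add_nonneg (add_nonneg (norm_nonneg (g t))
            (norm_nonneg (deriv g t))) (norm_nonneg (deriv (deriv g) t)))]))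
  have b2 : ∫ t, ‖(deriv (deriv g) t + 2 * deriv g t * a t + g t * (a t ^ 2 + (-2 * π : ℝ)))
      * ga (t - x)‖ ≤ ∫ t, 200 * (1 + x ^ 2)⁻¹ * m t :=
    integral_mono_of_nonneg (Eventually.of_forall fun t => norm_nonneg _) (im.const_mul _)
      (Eventually.of_forall fun t => pw t _ _ (by
        have n1 : ‖a t‖ ≤ 8 * |t - x| := by
          simp only [a, Complex.norm_real, Real.norm_eq_abs, abs_mul, abs_neg, abs_two,
            abs_of_pos p0]
          gcongr; linarith
        have n2 : ‖a t‖ ≤ 4 * (1 + (t - x) ^ 2) := by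
          rw [← sq_abs]; nlinarith [sq_nonneg (|t - x| - 1)]
        have n3 : ‖a t ^ 2 + (-2 * π : ℝ)‖ ≤ 100 * (1 + (t - x) ^ 2) := by
          refine (norm_add_le _ _).trans ?_
          rw [norm_pow, Complex.norm_real (-2 * π), Real.norm_eq_abs,
            abs_of_neg (show -2 * π < 0 by linarith), ← sq_abs (t - x)]
          nlinarith [norm_nonneg (a t), abs_nonneg (t - x)]
        refine (norm_add₃_le).trans ?_
        rw [norm_mul, norm_mul, norm_mul, Complex.norm_two]
        have := mul_le_mul_of_nonneg_left n2 (norm_nonneg (deriv g t))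
        have := mul_le_mul_of_nonneg_left n3 (norm_nonneg (g t))
        nlinarith [norm_nonneg (deriv g t), norm_nonneg (deriv (deriv g) t),
          mul_nonneg (sq_nonneg (t - x)) (norm_nonneg (deriv g t)),
          mul_nonneg (sq_nonneg (t - x)) (norm_nonneg (deriv (deriv g) t))]))
  rw [integral_const_mul] at b0 b2
  simp only
  rw [e, ← div_eq_mul_inv _ (1 + w ^ 2), le_div_iff₀ (by positivity)]
  linarith

end Pool.Agent.H98.Gabor
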