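import Mathlib
import Pool.Agent.H98.Gabor

set_option autoImplicit false

namespace Pool.Agent.H98.Gabor

open MeasureTheory Set Filter Topology Real

/-- shifted integer lattice. -/
def L (s : ℝ) : Set (ℝ × ℝ) := range fun q : ℤ × ℤ => ((q.1 + s : ℝ), (q.2 : ℝ))

lemma L_inj (s : ℝ) : Function.Injective fun q : ℤ × ℤ => ((q.1 + s : ℝ), (q.2 : ℝ)) := by
  rintro ⟨a, b⟩ ⟨c, d⟩ h
  simp only [Prod.mk.injEq, add_left_inj, Int.cast_inj] at h
  exact Prod.ext h.1 h.2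

lemma cnt (a : ℝ) {R : ℝ} (hR : 1 ≤ R) : R - 1 ≤ ((Finset.Ico ⌈a⌉ ⌈a + R⌉).card : ℝ) ∧
    ((Finset.Ico ⌈a⌉ ⌈a + R⌉).card : ℝ) ≤ R + 1 := by
  have h : ⌈a⌉ ≤ ⌈a + R⌉ := Int.ceil_mono (by linarith)
  have e : ((Finset.Ico ⌈a⌉ ⌈a + R⌉).card : ℝ) = (⌈a + R⌉ : ℝ) - ⌈a⌉ := by
    have := Int.card_Ico_of_le _ _ h
    exact_mod_cast this
  rw [e]
  constructor <;> linarith [Int.le_ceil a, Int.le_ceil (a + R), Int.ceil_lt_add_one a,
    Int.ceil_lt_add_one (a + R)]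

lemma L_box (s : ℝ) (z : ℝ × ℝ) {R : ℝ} (hR : 1 ≤ R) :
    (L s ∩ (Ico z.1 (z.1 + R) ×ˢ Ico z.2 (z.2 + R))).Finite ∧
    (R - 1) ^ 2 ≤ ((L s ∩ (Ico z.1 (z.1 + R) ×ˢ Ico z.2 (z.2 + R))).ncard : ℝ) ∧
    ((L s ∩ (Ico z.1 (z.1 + R) ×ˢ Ico z.2 (z.2 + R))).ncard : ℝ) ≤ (R + 1) ^ 2 := by
  have e : L s ∩ (Ico z.1 (z.1 + R) ×ˢ Ico z.2 (z.2 + R)) =
      (fun q : ℤ × ℤ => ((q.1 + s : ℝ), (q.2 : ℝ))) ''
        ((Finset.Ico ⌈z.1 - s⌉ ⌈z.1 - s + R⌉ ×ˢ Finset.Ico ⌈z.2⌉ ⌈z.2 + R⌉ : Finset (ℤ × ℤ)) :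
          Set (ℤ × ℤ)) := by
    rw [L, inter_comm, ← image_preimage_eq_inter_range]
    congr 1
    ext ⟨a, b⟩
    simp only [mem_preimage, mem_prod, mem_Ico, Finset.mem_coe, Finset.mem_product,
      Finset.mem_Ico, Int.ceil_le, Int.lt_ceil]
    constructor <;> rintro ⟨⟨h1, h2⟩, h3⟩ <;> exact ⟨⟨by linarith, by linarith⟩, h3⟩
  rw [e, ncard_image_of_injective _ (L_inj s), ncard_coe_finset, Finset.card_product]
  obtain ⟨a1, a2⟩ := cnt (z.1 - s) hR
  obtain ⟨b1, b2⟩ := cnt z.2 hR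
  refine ⟨(Finset.finite_toSet _).image _, ?_, ?_⟩
  · push_cast; rw [sq]; exact mul_le_mul a1 b1 (by linarith) (by positivity)
  · push_cast; rw [sq]; exact mul_le_mul a2 b2 (by positivity) (by linarith)

lemma L_disj : Disjoint (L 0) (L (1 / 4)) := by
  rw [Set.disjoint_left]
  rintro _ ⟨⟨a, b⟩, rfl⟩ ⟨⟨c, d⟩, h⟩
  simp only [Prod.mk.injEq] at h
  have h1 : (4 * c + 1 : ℝ) = 4 * a := by linarith [h.1]
  have h2 : 4 * c + 1 = 4 * a := by exact_mod_cast h1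
  omega

lemma G_box (z : ℝ × ℝ) {R : ℝ} (hR : 1 ≤ R) :
    ((L 0 ∪ L (1 / 4)) ∩ (Ico z.1 (z.1 + R) ×ˢ Ico z.2 (z.2 + R))).Finite ∧
    2 * (R - 1) ^ 2 ≤ (((L 0 ∪ L (1 / 4)) ∩ (Ico z.1 (z.1 + R) ×ˢ Ico z.2 (z.2 + R))).ncard : ℝ) ∧
    (((L 0 ∪ L (1 / 4)) ∩ (Ico z.1 (z.1 + R) ×ˢ Ico z.2 (z.2 + R))).ncard : ℝ) ≤
      2 * (R + 1) ^ 2 := by
  obtain ⟨a0, a1, a2⟩ := L_box 0 z hR
  obtain ⟨b0, b1, b2⟩ := L_box (1 / 4) z hR
  rw [union_inter_distrib_right, ncard_union_eq (L_disj.mono inter_subset_left inter_subset_left)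
    a0 b0]
  push_cast
  exact ⟨a0.union b0, by linarith, by linarith⟩

lemma dens : Filter.liminf (fun R : ℝ => ⨅ z : ℝ × ℝ,
    (((L 0 ∪ L (1 / 4)) ∩ (Set.Ico z.1 (z.1 + R) ×ˢ Set.Ico z.2 (z.2 + R))).ncard : ℝ) / R ^ 2)
      Filter.atTop = 2 := by
  refine Tendsto.liminf_eq ?_
  have l : ∀ c : ℝ, Tendsto (fun R : ℝ => 2 * (1 + c * R⁻¹) ^ 2) atTop (𝓝 2) := fun c => by
    simpa using (((tendsto_inv_atTop_zero.const_mul c).const_add 1).pow 2).const_mul 2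
  refine tendsto_of_tendsto_of_tendsto_of_le_of_le' (l (-1)) (l 1) ?_ ?_
  · filter_upwards [eventually_ge_atTop 1] with R hR
    refine le_ciInf fun z => ?_
    rw [le_div_iff₀ (by positivity)]
    refine le_trans (le_of_eq ?_) (G_box z hR).2.1
    field_simp
    ring
  · filter_upwards [eventually_ge_atTop 1] with R hR
    refine ciInf_le_of_le ⟨0, ?_⟩ 0 ?_
    · rintro _ ⟨z, rfl⟩
      positivity
    rw [div_le_iff₀ (by positivity)]
    refine (G_box 0 hR).2.2.trans (le_of_eq ?_)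
    field_simp

/-- frame coefficient. -/
noncomputable def co (g f : ℝ → ℂ) (p : ℝ × ℝ) : ℝ :=
  ‖∫ t : ℝ, f t * (starRingEnd ℂ)
    (Complex.exp (2 * (Real.pi : ℂ) * Complex.I * (p.2 : ℂ) * (t : ℂ)) * g (t - p.1))‖ ^ 2

variable {g f : ℝ → ℂ}

lemma par (hg : Continuous g) (hb : ∀ t, ‖g t‖ ≤ 1) (hs : ∀ t, 1 / 2 ≤ |t| → g t = 0)
    (hf : MemLp f 2 volume) (x a : ℝ) (ha : a = x - 1 / 2) :
    HasSum (fun m : ℤ => co g f (x, m)) (∫ t in a..a + 1, ‖f t‖ ^ 2 * ‖g (t - x)‖ ^ 2) := by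
  have hab : a < a + 1 := by linarith
  have hF : MemLp (fun t => f t * (starRingEnd ℂ) (g (t - x))) 2 volume :=
    hf.of_le_mul (c := 1) (hf.1.mul (Continuous.aestronglyMeasurable (by fun_prop)))
      (Eventually.of_forall fun t => by
        rw [norm_mul, Complex.norm_conj, one_mul]
        exact mul_le_of_le_one_right (norm_nonneg _) (hb _))
  have h := hasSum_sq_fourierCoeffOn hab (hF.restrict _)
  have e : a + 1 - a = 1 := by ring
  convert h using 2 with m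
  · rw [fourierCoeffOn_eq_integral, intervalIntegral.integral_eq_integral_of_support_subset]
    · unfold co
      congr 2
      rw [e, div_one, one_smul]
      refine integral_congr_ae (Eventually.of_forall fun t => ?_)
      simp only [fourier_coe_apply, map_mul, smul_eq_mul, ← Complex.exp_conj, Complex.conj_ofReal,
        Complex.conj_I, map_ofNat]
      push_cast
      rw [mul_left_comm]
      congr 2
      ring
    · intro t ht
      by_contra h2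
      apply ht
      beta_reduce
      rw [hs (t - x), map_zero, mul_zero, smul_zero]
      rw [mem_Ioc, not_and_or, not_lt, not_le] at h2
      rw [le_abs]
      rcases h2 with h2 | h2
      · right; linarith
      · left; linarith
  · rw [e, inv_one, one_smul]
    simp only [norm_mul, Complex.norm_conj, mul_pow]

/-- periodised weight. -/
noncomputable def ph (g : ℝ → ℂ) (s t : ℝ) : ℝ := ‖g (t - (⌈t - s - 1 / 2⌉ + s))‖ ^ 2

lemma int_ph (hg : Continuous g) (hb : ∀ t, ‖g t‖ ≤ 1) (hf : MemLp f 2 volume) (s : ℝ) :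
    Integrable fun t => ‖f t‖ ^ 2 * ph g s t := by
  have hi : Integrable fun t => ‖f t‖ ^ 2 := (memLp_two_iff_integrable_sq_norm hf.1).1 hf
  have hm : Measurable (ph g s) := by
    have := hg.measurable
    unfold ph
    fun_prop
  refine hi.mul_bdd (c := 1) hm.aestronglyMeasurable (Eventually.of_forall fun t => ?_)
  rw [ph, norm_pow, norm_norm]
  exact pow_le_one₀ (norm_nonneg _) (hb _)

lemma sumL (hg : Continuous g) (hb : ∀ t, ‖g t‖ ≤ 1) (hs : ∀ t, 1 / 2 ≤ |t| → g t = 0)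
    (hf : MemLp f 2 volume) (s : ℝ) :
    HasSum (co g f ∘ ((↑) : L s → ℝ × ℝ)) (∫ t, ‖f t‖ ^ 2 * ph g s t) := by
  have h1 := (int_ph hg hb hf s).hasSum_intervalIntegral (s - 1 / 2)
  have h2 : ∀ k : ℤ, HasSum (fun m : ℤ => co g f (k + s, m))
      (∫ t in s - 1 / 2 + k..s - 1 / 2 + k + 1, ‖f t‖ ^ 2 * ph g s t) := by
    intro k
    convert par hg hb hs hf (k + s) (s - 1 / 2 + k) (by ring) using 1
    refine intervalIntegral.integral_congr_ae (Eventually.of_forall fun t ht => ?_)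
    rw [uIoc_of_le (by linarith)] at ht
    have : ⌈t - s - 1 / 2⌉ = k := Int.ceil_eq_iff.2 ⟨by linarith [ht.1], by linarith [ht.2]⟩
    rw [ph, this]
  have h3 : Summable fun q : ℤ × ℤ => co g f (q.1 + s, q.2) :=
    (summable_prod_of_nonneg fun q => by unfold co; positivity).2
      ⟨fun k => (h2 k).summable, by simpa only [(h2 _).tsum_eq] using h1.summable⟩
  have h4 := h3.hasSum
  rw [(h4.prod_fiberwise h2).unique h1] at h4
  exact (Equiv.ofInjective _ (L_inj s)).hasSum_iff.1 h4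

/-- bump equal to one on `[-3/8, 3/8]` and vanishing outside `(-1/2, 1/2)`. -/
noncomputable def bu : ContDiffBump (0 : ℝ) := ⟨3 / 8, 1 / 2, by norm_num, by norm_num⟩

/-- the odd window. -/
noncomputable def win (t : ℝ) : ℂ := ((t * bu t : ℝ) : ℂ)

lemma win_smooth : ContDiff ℝ 2 win :=
  Complex.ofRealCLM.contDiff.comp (contDiff_id.mul bu.contDiff)

lemma win_zero (t : ℝ) (h : 1 / 2 ≤ |t|) : win t = 0 := by
  have : bu t = 0 := bu.zero_of_le_dist (by simpa [bu] using h)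
  simp [win, this]

lemma win_supp : HasCompactSupport win :=
  HasCompactSupport.intro (isCompact_Icc (a := -(1 / 2)) (b := 1 / 2)) fun t ht =>
    win_zero t (by rw [mem_Icc, ← abs_le] at ht; exact (not_le.1 ht).le)

lemma win_odd (t : ℝ) : win (-t) = -win t := by simp [win, bu.neg]

lemma win_le (t : ℝ) : ‖win t‖ ≤ 1 := by
  by_cases h : 1 / 2 ≤ |t|
  · simp [win_zero t h]
  · rw [win, Complex.norm_real, Real.norm_eq_abs, abs_mul, abs_of_nonneg bu.nonneg]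
    exact mul_le_one₀ (by linarith) bu.nonneg bu.le_one

lemma win_ge {t : ℝ} (h : 1 / 8 ≤ t ∧ t ≤ 3 / 8 ∨ -(3 / 8) ≤ t ∧ t ≤ -(1 / 8)) :
    1 / 64 ≤ ‖win t‖ ^ 2 := by
  have h1 : bu t = 1 := bu.one_of_mem_closedBall (by
    simp only [bu, mem_closedBall_zero_iff, Real.norm_eq_abs, abs_le]
    rcases h with h | h <;> constructor <;> linarith [h.1, h.2])
  rw [win, h1, mul_one, Complex.norm_real, Real.norm_eq_abs, sq_abs]
  rcases h with h | h <;> nlinarith [h.1, h.2]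

lemma ph_ge (t : ℝ) : 1 / 64 ≤ ph win 0 t + ph win (1 / 4) t := by
  unfold ph
  have a1 := Int.le_ceil (t - 0 - 1 / 2)
  have a2 := Int.ceil_lt_add_one (t - 0 - 1 / 2)
  have b1 := Int.le_ceil (t - 1 / 4 - 1 / 2)
  have b2 := Int.ceil_lt_add_one (t - 1 / 4 - 1 / 2)
  generalize ⌈t - 0 - 1 / 2⌉ = k at *
  generalize ⌈t - 1 / 4 - 1 / 2⌉ = j at *
  have c1 : j < k + 1 := by exact_mod_cast (show (j : ℝ) < k + 1 by linarith)
  have c2 : k < j + 2 := by exact_mod_cast (show (k : ℝ) < j + 2 by linarith)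
  have p1 := sq_nonneg ‖win (t - (k + 0))‖
  have p2 := sq_nonneg ‖win (t - (j + 1 / 4))‖
  by_cases h : 1 / 8 ≤ t - (k + 0) ∧ t - (k + 0) ≤ 3 / 8 ∨
      -(3 / 8) ≤ t - (k + 0) ∧ t - (k + 0) ≤ -(1 / 8)
  · linarith [win_ge h]
  · refine le_trans (win_ge (t := t - (j + 1 / 4)) ?_) (by linarith)
    push Not at h
    obtain ⟨h1, h2⟩ := h
    obtain rfl | rfl : k = j ∨ k = j + 1 := by omega
    · by_cases h3 : 1 / 8 ≤ t - (k + 0)
      · left; constructor <;> linarith [h1 h3]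
      · right; constructor <;> linarith [h2 (by linarith)]
    · push_cast at *
      by_cases h3 : -(3 / 8) ≤ t - (j + 1 + 0)
      · linarith [h2 h3]
      · left; constructor <;> linarith

lemma frame (hf : MemLp f 2 volume) :
    Summable (fun γ : (L 0 ∪ L (1 / 4) : Set (ℝ × ℝ)) => co win f γ) ∧
    1 / 64 * (∫ t : ℝ, ‖f t‖ ^ 2) ≤ ∑' γ : (L 0 ∪ L (1 / 4) : Set (ℝ × ℝ)), co win f γ ∧
    ∑' γ : (L 0 ∪ L (1 / 4) : Set (ℝ × ℝ)), co win f γ ≤ 2 * ∫ t : ℝ, ‖f t‖ ^ 2 := by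
  have hc := win_smooth.continuous
  have h := HasSum.add_disjoint L_disj (sumL hc win_le win_zero hf 0)
    (sumL hc win_le win_zero hf (1 / 4))
  have hi : Integrable fun t => ‖f t‖ ^ 2 := (memLp_two_iff_integrable_sq_norm hf.1).1 hf
  have i0 := int_ph hc win_le hf 0
  have i1 := int_ph hc win_le hf (1 / 4)
  have e : ∑' γ : (L 0 ∪ L (1 / 4) : Set (ℝ × ℝ)), co win f γ = _ := h.tsum_eq
  rw [e, ← integral_add i0 i1, ← integral_const_mul, ← integral_const_mul]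
  refine ⟨h.summable, integral_mono (hi.const_mul _) (i0.add i1) fun t => ?_,
    integral_mono (i0.add i1) (hi.const_mul _) fun t => ?_⟩
  · have := mul_le_mul_of_nonneg_left (ph_ge t) (sq_nonneg ‖f t‖)
    simp only
    linarith
  · have u : ∀ s, ‖f t‖ ^ 2 * ph win s t ≤ ‖f t‖ ^ 2 := fun s =>
      mul_le_of_le_one_right (sq_nonneg _) (pow_le_one₀ (norm_nonneg _) (win_le _))
    simp only
    linarith [u 0, u (1 / 4)]

end Pool.Agent.H98.Gabor
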