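import Mathlib

/-! Finite Bernoulli product expectations and the exploration recursion. -/

namespace Pool.Agent.H98.HP

open Finset

section Bern

variable {ι : Type} [Fintype ι] [DecidableEq ι] (p : ι → ℝ)

/-- Weight of a configuration. -/
def wt (ω : Finset ι) : ℝ := ∏ e, if e ∈ ω then p e else 1 - p e

/-- Expectation. -/
def Ex (f : Finset ι → ℝ) : ℝ := ∑ ω, wt p ω * f ω

/-- `f` depends only on the coordinates in `D`. -/
def DepOn (f : Finset ι → ℝ) (D : ι → Prop) : Prop :=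
  ∀ ω ω' : Finset ι, (∀ e, D e → (e ∈ ω ↔ e ∈ ω')) → f ω = f ω'

lemma wt_eq (ω : Finset ι) : wt p ω = (∏ e ∈ ω, p e) * ∏ e ∈ univ \ ω, (1 - p e) := by
  rw [wt, prod_ite]
  congr 2 <;> ext <;> simp

lemma sum_wt : ∑ ω, wt p ω = 1 := by
  have := prod_add p (fun e => 1 - p e) univ
  simp only [add_sub_cancel, prod_const_one, powerset_univ] at this
  rw [this]
  exact sum_congr rfl fun ω _ => wt_eq p ω

lemma Ex_const (c : ℝ) : Ex p (fun _ => c) = c := by
  rw [Ex, ← sum_mul, sum_wt, one_mul]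

lemma Ex_add (f g : Finset ι → ℝ) : Ex p (fun ω => f ω + g ω) = Ex p f + Ex p g := by
  simp only [Ex, mul_add, sum_add_distrib]

lemma Ex_sub (f g : Finset ι → ℝ) : Ex p (fun ω => f ω - g ω) = Ex p f - Ex p g := by
  simp only [Ex, mul_sub, sum_sub_distrib]

lemma Ex_mul (c : ℝ) (f : Finset ι → ℝ) : Ex p (fun ω => c * f ω) = c * Ex p f := by
  simp only [Ex, mul_sum, mul_left_comm]

lemma Ex_sum {κ : Type} (T : Finset κ) (f : κ → Finset ι → ℝ) :
    Ex p (fun ω => ∑ i ∈ T, f i ω) = ∑ i ∈ T, Ex p (f i) := by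
  simp only [Ex, mul_sum]
  rw [sum_comm]

variable {p}

lemma wt_nonneg (h : ∀ e, 0 ≤ p e ∧ p e ≤ 1) (ω : Finset ι) : 0 ≤ wt p ω :=
  prod_nonneg fun e _ => by split_ifs <;> linarith [h e]

lemma Ex_mono (h : ∀ e, 0 ≤ p e ∧ p e ≤ 1) {f g : Finset ι → ℝ} (hfg : ∀ ω, f ω ≤ g ω) :
    Ex p f ≤ Ex p g :=
  sum_le_sum fun ω _ => mul_le_mul_of_nonneg_left (hfg ω) (wt_nonneg h ω)

lemma Ex_nonneg (h : ∀ e, 0 ≤ p e ∧ p e ≤ 1) {f : Finset ι → ℝ} (hf : ∀ ω, 0 ≤ f ω) :
    0 ≤ Ex p f := by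
  simpa [Ex_const] using Ex_mono h (f := fun _ => 0) hf

variable (p)

lemma Ex_indep {f g : Finset ι → ℝ} (D : ι → Prop) (hf : DepOn f D)
    (hg : DepOn g fun e => ¬ D e) : Ex p (fun ω => f ω * g ω) = Ex p f * Ex p g := by
  classical
  let mix : Finset ι → Finset ι → Finset ι := fun a b =>
    univ.filter fun e => if D e then e ∈ a else e ∈ b
  have hm : ∀ a b e, e ∈ mix a b ↔ if D e then e ∈ a else e ∈ b := fun a b e => by simp [mix]
  let φ : Finset ι × Finset ι → Finset ι × Finset ι := fun x => (mix x.1 x.2, mix x.2 x.1)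
  have hφ : Function.Involutive φ := by
    rintro ⟨a, b⟩
    refine Prod.ext ?_ ?_ <;> ext e <;> simp only [φ, hm] <;> split_ifs <;> rfl
  have h1 : Ex p f * Ex p g = ∑ x : Finset ι × Finset ι, wt p x.1 * wt p x.2 * (f x.1 * g x.2) := by
    rw [Ex, Ex, sum_mul_sum, Fintype.sum_prod_type]
    exact sum_congr rfl fun a _ => sum_congr rfl fun b _ => by ring
  have h2 : Ex p (fun ω => f ω * g ω) =
      ∑ x : Finset ι × Finset ι, wt p x.1 * wt p x.2 * (f x.1 * g x.1) := by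
    rw [Fintype.sum_prod_type, Ex]
    refine sum_congr rfl fun a _ => ?_
    simp only [mul_right_comm (wt p a)]
    rw [← mul_sum, sum_wt, mul_one]
  rw [h1, h2, ← Equiv.sum_comp hφ.toPerm]
  refine sum_congr rfl fun x _ => ?_
  change wt p (mix x.1 x.2) * wt p (mix x.2 x.1) * (f (mix x.1 x.2) * g (mix x.1 x.2)) = _
  rw [hf (mix x.1 x.2) x.1 fun e he => by rw [hm, if_pos he],
    hg (mix x.1 x.2) x.2 fun e he => by rw [hm, if_neg he]]
  congr 1
  simp only [wt, ← prod_mul_distrib, hm]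
  refine prod_congr rfl fun e _ => ?_
  by_cases he : D e <;> simp only [he, if_true, if_false, mul_comm]

lemma Ex_mem (e : ι) : Ex p (fun ω => if e ∈ ω then 1 else 0) = p e := by
  have := sum_wt (fun i => if i = e then 1 else p i)
  refine Eq.trans ?_ (mul_one (p e))
  rw [Ex]
  conv_rhs => rw [← this, mul_sum]
  refine sum_congr rfl fun ω _ => ?_
  have h2 : ∏ i ∈ univ.erase e, (if i ∈ ω then (if i = e then 1 else p i) else
      1 - if i = e then 1 else p i) = ∏ i ∈ univ.erase e, if i ∈ ω then p i else 1 - p i :=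
    prod_congr rfl fun i hi => by simp only [ne_of_mem_erase hi, if_false]
  rw [wt, wt, ← mul_prod_erase _ _ (mem_univ e), ← mul_prod_erase _ _ (mem_univ e), h2]
  by_cases h : e ∈ ω <;> simp [h]

lemma Ex_ite (e : ι) (a b : ℝ) :
    Ex p (fun ω => if e ∈ ω then a else b) = p e * a + (1 - p e) * b := by
  have : (fun ω : Finset ι => if e ∈ ω then a else b) =
      fun ω => (a - b) * (if e ∈ ω then 1 else 0) + b := by
    funext ω; split_ifs <;> ring
  rw [this, Ex_add, Ex_mul, Ex_mem, Ex_const]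
  ring

lemma Ex_prod {κ : Type} (T : Finset κ) (f : κ → Finset ι → ℝ) (D : κ → ι → Prop)
    (hf : ∀ i ∈ T, DepOn (f i) (D i)) (hD : ∀ i ∈ T, ∀ j ∈ T, i ≠ j → ∀ e, D i e → ¬ D j e) :
    Ex p (fun ω => ∏ i ∈ T, f i ω) = ∏ i ∈ T, Ex p (f i) := by
  classical
  induction T using Finset.induction_on with
  | empty => simp [Ex_const]
  | insert i T hi ih =>
    simp only [prod_insert hi]
    rw [Ex_indep p (D i) (hf i (mem_insert_self _ _)), ih (fun j hj => hf j (mem_insert_of_mem hj))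
      fun j hj k hk => hD j (mem_insert_of_mem hj) k (mem_insert_of_mem hk)]
    intro ω ω' h
    refine prod_congr rfl fun j hj => hf j (mem_insert_of_mem hj) ω ω' fun e he => h e ?_
    exact hD j (mem_insert_of_mem hj) i (mem_insert_self _ _) (by rintro rfl; exact hi hj) e he

end Bern

section Explore

variable {Λ : Type} [Fintype Λ] [DecidableEq Λ]

open Classical in
/-- Vertices reachable from `A` through vertices outside `S`. -/
noncomputable def R (S A : Finset Λ) (ω : Finset (Sym2 Λ)) : Finset Λ :=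
  univ.filter fun y => ∃ a ∈ A, Relation.ReflTransGen (fun u v => v ∉ S ∧ s(u, v) ∈ ω) a y

/-- There is a cluster with more than `s` vertices outside `S`. -/
def Big (s : ℕ) (S : Finset Λ) (ω : Finset (Sym2 Λ)) : Prop :=
  ∃ y, y ∉ S ∧ s < (R (insert y S) {y} ω).card

/-- New neighbours of `a`. -/
def Nb (S : Finset Λ) (a : Λ) (ω : Finset (Sym2 Λ)) : Finset Λ :=
  univ.filter fun z => z ∉ S ∧ s(a, z) ∈ ω

lemma mem_R {S A : Finset Λ} {ω : Finset (Sym2 Λ)} {y : Λ} : y ∈ R S A ω ↔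
    ∃ a ∈ A, Relation.ReflTransGen (fun u v => v ∉ S ∧ s(u, v) ∈ ω) a y := by simp [R]

lemma R_sub {S A : Finset Λ} {a : Λ} (ha : a ∈ S) (hA : a ∉ A) {ω ω' : Finset (Sym2 Λ)}
    (h : ∀ e, a ∉ e → (e ∈ ω ↔ e ∈ ω')) : R S A ω ⊆ R S A ω' := by
  intro y hy
  obtain ⟨b, hb, hp⟩ := mem_R.1 hy
  refine mem_R.2 ⟨b, hb, ?_⟩
  have : y ≠ a ∧ Relation.ReflTransGen (fun u v => v ∉ S ∧ s(u, v) ∈ ω') b y := by
    clear hy
    induction hp with
    | refl => exact ⟨fun e => hA (e ▸ hb), .refl⟩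
    | @tail _ c _ h2 ih =>
      have h3 := fun e : c = a => h2.1 (e ▸ ha)
      refine ⟨h3, ih.2.tail ⟨h2.1, (h _ ?_).1 h2.2⟩⟩
      rw [Sym2.mem_iff, not_or]
      exact ⟨ih.1.symm, fun e => h3 e.symm⟩
  exact this.2

lemma R_dep {S A : Finset Λ} {a : Λ} (ha : a ∈ S) (hA : a ∉ A) {ω ω' : Finset (Sym2 Λ)}
    (h : ∀ e, a ∉ e → (e ∈ ω ↔ e ∈ ω')) : R S A ω = R S A ω' :=
  (R_sub ha hA h).antisymm (R_sub ha hA fun e he => (h e he).symm)

lemma Big_dep {s : ℕ} {S : Finset Λ} {a : Λ} (ha : a ∈ S) {ω ω' : Finset (Sym2 Λ)}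
    (h : ∀ e, a ∉ e → (e ∈ ω ↔ e ∈ ω')) : Big s S ω ↔ Big s S ω' :=
  exists_congr fun y => and_congr_right fun hy => by
    rw [R_dep (mem_insert_of_mem ha) (by rw [mem_singleton]; rintro rfl; exact hy ha) h]

lemma R_mono {S S' A : Finset Λ} (h : S ⊆ S') (ω : Finset (Sym2 Λ)) : R S' A ω ⊆ R S A ω := by
  intro y hy
  obtain ⟨b, hb, hp⟩ := mem_R.1 hy
  exact mem_R.2 ⟨b, hb, Relation.ReflTransGen.mono (fun u v h' => ⟨fun hv => h'.1 (h hv), h'.2⟩) _ _ hp⟩

lemma Big_mono {s : ℕ} {S S' : Finset Λ} (h : S ⊆ S') {ω : Finset (Sym2 Λ)} (hB : Big s S' ω) :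
    Big s S ω := by
  obtain ⟨y, hy, h2⟩ := hB
  exact ⟨y, fun h' => hy (h h'), h2.trans_le (card_le_card (R_mono (insert_subset_insert _ h) ω))⟩

lemma R_step {S A : Finset Λ} {a : Λ} (hA : A ⊆ S) (ha : a ∈ A) (ω : Finset (Sym2 Λ)) :
    (R (S ∪ Nb S a ω) (A.erase a ∪ Nb S a ω) ω).card + 1 ≤ (R S A ω).card := by
  rw [← card_insert_of_notMem (a := a)]
  · refine card_le_card (insert_subset (mem_R.2 ⟨a, ha, .refl⟩) fun y hy => ?_)
    obtain ⟨b, hb, hp⟩ := mem_R.1 (R_mono subset_union_left ω hy)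
    rcases mem_union.1 hb with hb | hb
    · exact mem_R.2 ⟨b, mem_of_mem_erase hb, hp⟩
    · exact mem_R.2 ⟨a, ha, .head (mem_filter.1 hb).2 hp⟩
  · intro hy
    obtain ⟨b, hb, hp⟩ := mem_R.1 hy
    rcases hp.cases_tail with rfl | ⟨c, -, h2⟩
    · rcases mem_union.1 hb with hb | hb
      · exact notMem_erase _ _ hb
      · exact (mem_filter.1 hb).2.1 (hA ha)
    · exact h2.1 (mem_union_left _ (hA ha))

open Classical in
/-- Indicator. -/
noncomputable def ind (P : Prop) : ℝ := if P then 1 else 0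

lemma ind_nonneg (P : Prop) : 0 ≤ ind P := by unfold ind; split_ifs <;> norm_num
lemma ind_le_one (P : Prop) : ind P ≤ 1 := by unfold ind; split_ifs <;> norm_num
lemma ind_pos {P : Prop} (h : P) : ind P = 1 := if_pos h
lemma ind_neg {P : Prop} (h : ¬ P) : ind P = 0 := if_neg h
lemma ind_mono {P Q : Prop} (h : P → Q) : ind P ≤ ind Q := by
  by_cases hP : P
  · rw [ind_pos hP, ind_pos (h hP)]
  · rw [ind_neg hP]; exact ind_nonneg _
lemma ind_congr {P Q : Prop} (h : P ↔ Q) : ind P = ind Q := by rw [propext h]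

lemma sdiff_step {S A N : Finset Λ} {a : Λ} (hA : A ⊆ S) (ha : a ∈ A) (hN : Disjoint N S) :
    (S ∪ N) \ (A.erase a ∪ N) = insert a (S \ A) := by
  ext y
  have h1 := hA ha
  have h2 : y ∈ N → y ∉ S := fun h => disjoint_left.1 hN h
  simp only [mem_sdiff, mem_union, mem_erase, mem_insert]
  by_cases h : y = a
  · subst h; tauto
  · tauto

theorem explore {p : Sym2 Λ → ℝ} (hp : ∀ e, 0 ≤ p e ∧ p e ≤ 1) (s n0 : ℕ) (β : ℝ) (hβ : 0 ≤ β)
    (W : ℕ → Finset Λ → Finset Λ → ℝ) (h0 : ∀ k S, W k S ∅ ≤ 0) (h1 : ∀ S A, W 0 S A ≤ 1)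
    (hW : ∀ k < s, ∀ S A a, A ⊆ S → a ∈ A →
      W (k + 1) S A ≤ Ex p fun ω => W k (S ∪ Nb S a ω) (A.erase a ∪ Nb S a ω))
    (hB : ∀ S : Finset Λ, S.card ≤ n0 → Ex p (fun ω => ind (¬ Big s S ω)) ≤ β) (k : ℕ) :
    k ≤ s → ∀ S A : Finset Λ, A ⊆ S → (S \ A).card + k ≤ n0 →
      Ex p (fun ω => ind ((R S A ω).card ≤ k ∧ ¬ Big s S ω)) ≤ β * (1 - W k S A) := by
  have he : ∀ k (S : Finset Λ), (S \ ∅).card + k ≤ n0 →
      Ex p (fun ω => ind ((R S ∅ ω).card ≤ k ∧ ¬ Big s S ω)) ≤ β * (1 - W k S ∅) := by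
    intro k S hS
    rw [sdiff_empty] at hS
    refine ((Ex_mono hp fun ω => ind_mono And.right).trans (hB S (by omega))).trans ?_
    exact le_mul_of_one_le_right hβ (by linarith [h0 k S])
  induction k with
  | zero =>
    intro _ S A hA hS
    rcases A.eq_empty_or_nonempty with rfl | ⟨a, ha⟩
    · exact he 0 S hS
    · refine le_trans (Ex_mono hp (g := fun _ => 0) fun ω => (ind_neg ?_).le) ?_
      · rintro ⟨h, -⟩
        have := R_step hA ha ω
        omega
      · rw [Ex_const]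
        exact mul_nonneg hβ (by linarith [h1 S A])
  | succ k ih =>
    intro hk S A hA hS
    rcases A.eq_empty_or_nonempty with rfl | ⟨a, ha⟩
    · exact he _ S hS
    have hd : ∀ ω, Nb S a ω ∈ (univ \ S).powerset := fun ω =>
      mem_powerset.2 fun z hz => mem_sdiff.2 ⟨mem_univ _, (mem_filter.1 hz).2.1⟩
    have hsum : ∀ (F : Finset Λ → ℝ) ω,
        F (Nb S a ω) = ∑ N ∈ (univ \ S).powerset, ind (Nb S a ω = N) * F N := by
      intro F ω
      rw [sum_eq_single_of_mem _ (hd ω) fun N _ hN => by rw [ind_neg hN.symm, zero_mul],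
        ind_pos rfl, one_mul]
    have e1 : Ex p (fun ω => ind ((R S A ω).card ≤ k + 1 ∧ ¬ Big s S ω)) ≤
        Ex p (fun ω => ∑ N ∈ (univ \ S).powerset, ind (Nb S a ω = N) *
          ind ((R (S ∪ N) (A.erase a ∪ N) ω).card ≤ k ∧ ¬ Big s (S ∪ N) ω)) := by
      refine Ex_mono hp fun ω => ?_
      rw [← hsum (fun N => ind ((R (S ∪ N) (A.erase a ∪ N) ω).card ≤ k ∧ ¬ Big s (S ∪ N) ω))]
      refine ind_mono fun h => ⟨?_, fun h' => h.2 (Big_mono subset_union_left h')⟩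
      have := R_step hA ha ω
      omega
    refine e1.trans ?_
    rw [Ex_sum]
    have e2 : ∀ N ∈ (univ \ S).powerset, Ex p (fun ω => ind (Nb S a ω = N) *
          ind ((R (S ∪ N) (A.erase a ∪ N) ω).card ≤ k ∧ ¬ Big s (S ∪ N) ω)) ≤
        Ex p (fun ω => ind (Nb S a ω = N) * (β * (1 - W k (S ∪ N) (A.erase a ∪ N)))) := by
      intro N hN
      have hN' : Disjoint N S :=
        disjoint_left.2 fun z hz => (mem_sdiff.1 (mem_powerset.1 hN hz)).2
      rw [Ex_indep p (fun e => a ∈ e)]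
      · simp only [mul_comm (ind _) (β * _)]
        rw [Ex_mul, mul_comm]
        refine mul_le_mul_of_nonneg_right (ih (by omega) _ _
          (union_subset_union ((erase_subset _ _).trans hA) subset_rfl) ?_)
          (Ex_nonneg hp fun _ => ind_nonneg _)
        rw [sdiff_step hA ha hN', card_insert_of_notMem (by simp [ha])]
        omega
      · intro ω ω' h
        have : Nb S a ω = Nb S a ω' := filter_congr fun z _ => by rw [h _ (Sym2.mem_mk_left _ _)]
        simp only [this]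
      · intro ω ω' h
        have h2 : a ∈ S ∪ N := mem_union_left _ (hA ha)
        have h3 : a ∉ A.erase a ∪ N := by
          rw [mem_union, not_or]
          exact ⟨notMem_erase _ _, disjoint_right.1 hN' (hA ha)⟩
        simp only [R_dep h2 h3 h, Big_dep h2 h]
    refine (sum_le_sum e2).trans ?_
    rw [← Ex_sum]
    simp only [← hsum (fun N => β * (1 - W k (S ∪ N) (A.erase a ∪ N)))]
    rw [Ex_mul, Ex_sub, Ex_const]
    exact mul_le_mul_of_nonneg_left (by linarith [hW k hk S A a hA ha]) hβ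

end Explore

end Pool.Agent.H98.HP
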