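import Mathlib
import Pool.Agent.H98.HP1

/-! Potential functions for the exploration: critical clusters of polynomial size exist. -/

namespace Pool.Agent.H98.HP

open Finset

variable {Λ : Type} [Fintype Λ] [DecidableEq Λ] {p : Sym2 Λ → ℝ}

lemma Nb_eq (S : Finset Λ) (a : Λ) (ω : Finset (Sym2 Λ)) :
    Nb S a ω = (univ \ S).filter fun z => s(a, z) ∈ ω := by
  ext z; simp [Nb]

lemma Ex_Nb_prod (p : Sym2 Λ → ℝ) (S : Finset Λ) (a : Λ) (c : ℝ) :
    Ex p (fun ω => c ^ (Nb S a ω).card) = ∏ z ∈ univ \ S, (1 - p s(a, z) * (1 - c)) := by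
  have : ∀ ω, c ^ (Nb S a ω).card = ∏ z ∈ univ \ S, if s(a, z) ∈ ω then c else 1 := fun ω => by
    rw [Nb_eq, ← prod_filter, prod_const]
  simp only [this]
  rw [Ex_prod p _ _ (fun z e => e = s(a, z)) (fun z _ ω ω' h => by simp only [h _ rfl])
    fun z _ w _ hzw e h1 h2 => hzw (Sym2.congr_right.1 (h1.symm.trans h2))]
  refine prod_congr rfl fun z _ => ?_
  rw [Ex_ite]; ring

lemma Ex_Nb_sum (p : Sym2 Λ → ℝ) (S : Finset Λ) (a : Λ) (f : Λ → ℝ) :
    Ex p (fun ω => ∑ z ∈ Nb S a ω, f z) = ∑ z ∈ univ \ S, p s(a, z) * f z := by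
  simp only [Nb_eq, sum_filter]
  rw [Ex_sum]
  refine sum_congr rfl fun z _ => ?_
  rw [Ex_ite]; ring

lemma Ex_Nb_sum2 (hp : ∀ e, 0 ≤ p e ∧ p e ≤ 1) (S : Finset Λ) (a : Λ) (f : Λ → Λ → ℝ)
    (hf : ∀ z w, 0 ≤ f z w) :
    Ex p (fun ω => ∑ z ∈ Nb S a ω, ∑ w ∈ Nb S a ω, f z w) ≤
      ∑ z ∈ univ \ S, ∑ w ∈ univ \ S, p s(a, z) * (p s(a, w) * f z w) +
        ∑ z ∈ univ \ S, p s(a, z) * f z z := by
  have : ∀ ω, ∑ z ∈ Nb S a ω, ∑ w ∈ Nb S a ω, f z w = ∑ z ∈ univ \ S, ∑ w ∈ univ \ S,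
      (if s(a, z) ∈ ω then 1 else 0) * (if s(a, w) ∈ ω then f z w else 0) := fun ω => by
    simp only [Nb_eq, sum_filter, ← mul_sum]
    refine sum_congr rfl fun z _ => ?_
    split_ifs <;> simp
  simp only [this]
  rw [Ex_sum, ← sum_add_distrib]
  refine sum_le_sum fun z hz => ?_
  rw [Ex_sum, ← sum_ite_eq_of_mem _ z (fun _ => p s(a, z) * f z z) hz, ← sum_add_distrib]
  refine sum_le_sum fun w _ => ?_
  split_ifs with h
  · subst h
    refine le_trans (le_of_eq ?_) (le_add_of_nonneg_left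
      (mul_nonneg (hp _).1 (mul_nonneg (hp _).1 (hf _ _))))
    rw [← add_zero (_ * _), ← mul_zero (1 - p s(a, z)), ← Ex_ite]
    congr 1
    funext ω
    split_ifs <;> simp
  · rw [Ex_indep p (fun e => e = s(a, z)) (fun ω ω' h => by simp only [h _ rfl])
      (fun ω ω' h' => by simp only [h' _ fun e => h (Sym2.congr_right.1 e).symm]), Ex_ite, Ex_ite]
    apply le_of_eq
    ring

omit [Fintype Λ] in
lemma prod_lower (T : Finset Λ) (x : Λ → ℝ) (h0 : ∀ z, 0 ≤ x z ∧ x z ≤ 1) (h1 : ∑ z ∈ T, x z ≤ 1) :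
    1 - ∑ z ∈ T, x z + (∑ z ∈ T, x z) ^ 2 / 3 - ∑ z ∈ T, x z ^ 2 ≤ ∏ z ∈ T, (1 - x z) := by
  induction T using Finset.induction_on with
  | empty => simp
  | insert a T ha ih =>
    rw [sum_insert ha] at h1
    rw [sum_insert ha, sum_insert ha, prod_insert ha]
    have h2 : 0 ≤ ∑ z ∈ T, x z := sum_nonneg fun z _ => (h0 z).1
    have h3 : 0 ≤ ∑ z ∈ T, x z ^ 2 := sum_nonneg fun z _ => sq_nonneg _
    have h4 := mul_le_mul_of_nonneg_left (ih (by linarith [h0 a])) (sub_nonneg.2 (h0 a).2)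
    have h5 := mul_nonneg (mul_nonneg h2 (h0 a).1) (show 0 ≤ 1 - ∑ z ∈ T, x z by linarith [h0 a])
    nlinarith [mul_nonneg h3 (h0 a).1, sq_nonneg (x a)]

omit [Fintype Λ] in
lemma prod_upper (T : Finset Λ) (x : Λ → ℝ) (h0 : ∀ z, 0 ≤ x z ∧ x z ≤ 1) :
    ∏ z ∈ T, (1 - x z) ≤ 1 - ∑ z ∈ T, x z + (∑ z ∈ T, x z) ^ 2 / 2 := by
  induction T using Finset.induction_on with
  | empty => simp
  | insert a T ha ih =>
    rw [sum_insert ha, prod_insert ha]
    have h4 := mul_le_mul_of_nonneg_left ih (sub_nonneg.2 (h0 a).2)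
    nlinarith [mul_nonneg (sq_nonneg (∑ z ∈ T, x z)) (h0 a).1, sq_nonneg (x a)]

/-- Hypotheses on the edge probabilities. -/
structure Ker (p : Sym2 Λ → ℝ) (Top : Λ → Λ → Prop) [DecidableRel Top] (c σ τ : ℝ) : Prop where
  hp : ∀ e, 0 ≤ p e ∧ p e ≤ 1
  diag : ∀ x, p s(x, x) = 0
  row : ∀ x, ∑ y, p s(x, y) = 1
  low : ∀ x, ∑ y ∈ univ.filter fun y => ¬ Top x y, p s(x, y) ≤ 1 - c
  top : ∀ x y, Top x y → p s(x, y) ≤ τ
  sq : ∀ x, ∑ y, p s(x, y) ^ 2 ≤ σ ^ 2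
  c0 : 0 < c
  σ0 : 0 ≤ σ
  τ0 : 0 ≤ τ

/-- Expected occupation of the branching random walk during `k` generations. -/
def occ (p : Sym2 Λ → ℝ) : ℕ → Λ → Λ → ℝ
  | 0 => fun _ _ => 0
  | k + 1 => fun x y => p s(x, y) + ∑ z, p s(x, z) * occ p k z y

/-- Euclidean norm. -/
noncomputable def nrm (u : Λ → ℝ) : ℝ := ‖(WithLp.toLp 2 u : EuclideanSpace ℝ Λ)‖

omit [DecidableEq Λ] in
lemma nrm_sq (u : Λ → ℝ) : nrm u ^ 2 = ∑ y, u y ^ 2 := by
  rw [nrm, EuclideanSpace.real_norm_sq_eq]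

omit [DecidableEq Λ] in
lemma nrm_le {u : Λ → ℝ} {a : ℝ} (ha : 0 ≤ a) (h : ∑ y, u y ^ 2 ≤ a ^ 2) : nrm u ≤ a :=
  (pow_le_pow_iff_left₀ (norm_nonneg _) ha two_ne_zero).1 ((nrm_sq u).trans_le h)

omit [DecidableEq Λ] in
lemma nrm_add (u v : Λ → ℝ) : nrm (u + v) ≤ nrm u + nrm v := by
  unfold nrm
  rw [WithLp.toLp_add]
  exact norm_add_le _ _

omit [DecidableEq Λ] in
lemma nrm_sum (T : Finset Λ) (a : Λ → ℝ) (ha : ∀ z, 0 ≤ a z) (u : Λ → Λ → ℝ) :
    nrm (∑ z ∈ T, a z • u z) ≤ ∑ z ∈ T, a z * nrm (u z) := by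
  unfold nrm
  rw [WithLp.toLp_sum]
  refine (norm_sum_le _ _).trans (sum_le_sum fun z _ => ?_)
  rw [WithLp.toLp_smul, norm_smul, Real.norm_of_nonneg (ha z)]

variable {Top : Λ → Λ → Prop} [DecidableRel Top] {c σ τ : ℝ}

omit [DecidableEq Λ] in
lemma occ_nonneg (hp : ∀ e, 0 ≤ p e ∧ p e ≤ 1) (k : ℕ) : ∀ x y, 0 ≤ occ p k x y := by
  induction k with
  | zero => exact fun _ _ => le_rfl
  | succ k ih => exact fun x y => add_nonneg (hp _).1 (sum_nonneg fun z _ =>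
      mul_nonneg (hp _).1 (ih z y))

omit [DecidableEq Λ] in
lemma occ_mono (hp : ∀ e, 0 ≤ p e ∧ p e ≤ 1) (k : ℕ) : ∀ x y, occ p k x y ≤ occ p (k + 1) x y := by
  induction k with
  | zero => exact occ_nonneg hp 1
  | succ k ih => exact fun x y => add_le_add le_rfl (sum_le_sum fun z _ =>
      mul_le_mul_of_nonneg_left (ih z y) (hp _).1)

omit [DecidableEq Λ] in
lemma Ker.col (h : Ker p Top c σ τ) (y : Λ) : ∑ x, p s(x, y) = 1 := by
  simp only [Sym2.eq_swap (b := y)]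
  exact h.row y

omit [DecidableEq Λ] in
lemma Ker.occ_col (h : Ker p Top c σ τ) (k : ℕ) : ∀ y, ∑ x, occ p k x y = k := by
  induction k with
  | zero => simp [occ]
  | succ k ih =>
    intro y
    simp only [occ, sum_add_distrib]
    rw [h.col, sum_comm]
    simp only [← sum_mul, h.col, one_mul, ih]
    push_cast
    ring

omit [DecidableEq Λ] in
lemma Ker.occ_nrm (h : Ker p Top c σ τ) (s k : ℕ) : k ≤ s → ∀ x,
    nrm (occ p k x) ≤ (σ + τ * s * √(Fintype.card Λ)) / c := by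
  have hc := h.c0
  have h1 := h.σ0
  have h2 := h.τ0
  induction k with
  | zero => exact fun _ x => nrm_le (by positivity) (by simp [occ]; positivity)
  | succ k ih =>
    intro hk x
    have e : occ p (k + 1) x = (fun y => p s(x, y)) +
        ∑ z ∈ univ.filter (Top x), p s(x, z) • occ p k z +
        ∑ z ∈ univ.filter fun z => ¬ Top x z, p s(x, z) • occ p k z := by
      rw [add_assoc, sum_filter_add_sum_filter_not]
      funext y
      simp [occ, Finset.sum_apply]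
    rw [e]
    refine (nrm_add _ _).trans ((add_le_add (nrm_add _ _) (nrm_sum _ _ (fun z => (h.hp _).1) _)).trans
      ?_)
    have a1 : nrm (fun y => p s(x, y)) ≤ σ := nrm_le h1 (h.sq x)
    have a2 : nrm (∑ z ∈ univ.filter (Top x), p s(x, z) • occ p k z) ≤
        τ * s * √(Fintype.card Λ) := by
      refine nrm_le (by positivity) ?_
      rw [mul_pow, Real.sq_sqrt (by positivity), mul_comm, ← nsmul_eq_mul, ← card_univ,
        ← sum_const]
      refine sum_le_sum fun y _ => ?_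
      simp only [Finset.sum_apply, Pi.smul_apply, smul_eq_mul]
      refine pow_le_pow_left₀ (sum_nonneg fun z _ => mul_nonneg (h.hp _).1 (occ_nonneg h.hp _ _ _))
        ?_ 2
      refine (sum_le_sum fun z hz => mul_le_mul_of_nonneg_right (h.top x z (mem_filter.1 hz).2)
        (occ_nonneg h.hp k z y)).trans ?_
      rw [← mul_sum]
      refine mul_le_mul_of_nonneg_left ((sum_le_univ_sum_of_nonneg (occ_nonneg h.hp k · y)).trans
        ?_) h2
      rw [h.occ_col]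
      exact_mod_cast Nat.le_of_succ_le hk
    have a3 : ∑ z ∈ univ.filter fun z => ¬ Top x z, p s(x, z) * nrm (occ p k z) ≤
        (1 - c) * ((σ + τ * s * √(Fintype.card Λ)) / c) := by
      refine (sum_le_sum fun z _ => mul_le_mul_of_nonneg_left (ih (Nat.le_of_succ_le hk) z)
        (h.hp _).1).trans ?_
      rw [← sum_mul]
      exact mul_le_mul_of_nonneg_right (h.low x) (by positivity)
    refine (add_le_add (add_le_add a1 a2) a3).trans (le_of_eq ?_)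
    field_simp
    ring

/-- The bilinear form of the kernel. -/
def bil (p : Sym2 Λ → ℝ) : (Λ → ℝ) →ₗ[ℝ] (Λ → ℝ) →ₗ[ℝ] ℝ :=
  Matrix.toLinearMap₂' ℝ (Matrix.of fun x y => p s(x, y))

lemma bil_apply (u v : Λ → ℝ) : bil p u v = ∑ y, ∑ z, u y * (v z * p s(y, z)) := by
  simp [bil, Matrix.toLinearMap₂'_apply]

lemma bil_nonneg (hp : ∀ e, 0 ≤ p e ∧ p e ≤ 1) {u v : Λ → ℝ} (hu : 0 ≤ u) (hv : 0 ≤ v) :
    0 ≤ bil p u v := by
  rw [bil_apply]
  exact sum_nonneg fun y _ => sum_nonneg fun z _ => mul_nonneg (hu y) (mul_nonneg (hv z) (hp _).1)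

lemma bil_mono (hp : ∀ e, 0 ≤ p e ∧ p e ≤ 1) {u v u' v' : Λ → ℝ} (hu : 0 ≤ u) (hv : 0 ≤ v)
    (h1 : u ≤ u') (h2 : v ≤ v') : bil p u v ≤ bil p u' v' := by
  rw [bil_apply, bil_apply]
  exact sum_le_sum fun y _ => sum_le_sum fun z _ => mul_le_mul (h1 y)
    (mul_le_mul_of_nonneg_right (h2 z) (hp _).1) (mul_nonneg (hv z) (hp _).1) ((hu y).trans (h1 y))

lemma bil_single (a : Λ) (v : Λ → ℝ) : bil p (Pi.single a 1) v = ∑ z, v z * p s(a, z) := by
  rw [bil_apply, Finset.sum_eq_single a (fun b _ hb => by simp [hb]) (by simp)]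
  simp

lemma bil_comm (u v : Λ → ℝ) : bil p u v = bil p v u := by
  rw [bil_apply, bil_apply, sum_comm]
  refine sum_congr rfl fun y _ => sum_congr rfl fun z _ => ?_
  rw [Sym2.eq_swap]; ring

/-- A particle together with its expected progeny. -/
def Gr (p : Sym2 Λ → ℝ) (k : ℕ) (x : Λ) : Λ → ℝ := Pi.single x 1 + occ p k x

lemma Gr_nonneg (hp : ∀ e, 0 ≤ p e ∧ p e ≤ 1) (k : ℕ) (x : Λ) : 0 ≤ Gr p k x :=
  add_nonneg (Pi.single_nonneg.2 zero_le_one) (occ_nonneg hp k x)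

lemma Gr_succ (k : ℕ) (x : Λ) :
    Gr p (k + 1) x = Pi.single x 1 + ∑ z, p s(x, z) • Gr p k z := by
  funext y
  simp [Gr, occ, Finset.sum_apply, mul_add, sum_add_distrib, Pi.single_apply]

lemma Ker.bil_Gr (h : Ker p Top c σ τ) (hc : c ≤ 1) {s k : ℕ} (hk : k ≤ s) (x : Λ) :
    bil p (Gr p k x) (Gr p k x) ≤ 3 * ((σ + τ * s * √(Fintype.card Λ)) / c) ^ 2 := by
  have h0 := h.c0
  have h1 := h.σ0
  have h2 := h.τ0
  set ρ := (σ + τ * s * √(Fintype.card Λ)) / c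
  have a1 : ∑ y, occ p k x y ^ 2 ≤ ρ ^ 2 := by
    rw [← nrm_sq]
    exact pow_le_pow_left₀ (norm_nonneg _) (h.occ_nrm s k hk x) 2
  have a2 : σ ^ 2 ≤ ρ ^ 2 := pow_le_pow_left₀ h1 (by
    rw [le_div_iff₀ h0]
    nlinarith [show 0 ≤ τ * s * √(Fintype.card Λ) by positivity]) 2
  have a3 : bil p (Pi.single x 1) (occ p k x) ≤ ρ ^ 2 := by
    rw [bil_single]
    have : ∑ z, occ p k x z * p s(x, z) ≤ ∑ z, (occ p k x z ^ 2 + p s(x, z) ^ 2) / 2 :=
      sum_le_sum fun z _ => by nlinarith [sq_nonneg (occ p k x z - p s(x, z))]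
    rw [← sum_div, sum_add_distrib] at this
    linarith [h.sq x]
  have a4 : bil p (occ p k x) (occ p k x) ≤ ρ ^ 2 := by
    rw [bil_apply]
    have : ∑ y, ∑ z, occ p k x y * (occ p k x z * p s(y, z)) ≤
        ∑ y, ∑ z, (occ p k x y ^ 2 / 2 * p s(y, z) + occ p k x z ^ 2 / 2 * p s(y, z)) :=
      sum_le_sum fun y _ => sum_le_sum fun z _ => by
        nlinarith [mul_nonneg (sq_nonneg (occ p k x y - occ p k x z)) (h.hp s(y, z)).1]
    simp only [sum_add_distrib] at this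
    rw [sum_comm (f := fun y z => occ p k x z ^ 2 / 2 * p s(y, z))] at this
    simp only [← mul_sum, h.row, h.col, mul_one, ← sum_div] at this ⊢
    linarith
  have a5 : bil p (Pi.single x 1) (Pi.single x 1) = 0 := by
    rw [bil_single, Finset.sum_eq_single x (fun b _ hb => by simp [hb]) (by simp), h.diag, mul_zero]
  simp only [Gr, map_add, LinearMap.add_apply]
  rw [bil_comm (occ p k x) (Pi.single x 1)]
  linarith

lemma Ex_bil (hp : ∀ e, 0 ≤ p e ∧ p e ≤ 1) (S : Finset Λ) (a : Λ) (α β : Λ → ℝ) (H : Λ → Λ → ℝ)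
    (hH : ∀ z, 0 ≤ H z) :
    Ex p (fun ω => bil p (α + ∑ z ∈ Nb S a ω, H z) (β + ∑ z ∈ Nb S a ω, H z)) ≤
      bil p (α + ∑ z ∈ univ \ S, p s(a, z) • H z) (β + ∑ z ∈ univ \ S, p s(a, z) • H z) +
        ∑ z ∈ univ \ S, p s(a, z) * bil p (H z) (H z) := by
  simp only [map_add, map_sum, LinearMap.add_apply, LinearMap.sum_apply, map_smul,
    LinearMap.smul_apply, smul_eq_mul, sum_add_distrib, mul_add, mul_sum]
  rw [Ex_add, Ex_add, Ex_add, Ex_const, Ex_Nb_sum, Ex_Nb_sum]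
  linarith [Ex_Nb_sum2 hp S a (fun w z => bil p (H z) (H w)) fun z w => bil_nonneg hp (hH _) (hH _)]

/-- The loss potential. -/
def Lam (p : Sym2 Λ → ℝ) (k : ℕ) (S A : Finset Λ) : ℝ :=
  bil p (∑ b ∈ A, Gr p k b) (∑ e ∈ S \ A, Pi.single e 1 + ∑ b ∈ A, Gr p k b)

lemma Lam_nonneg (hp : ∀ e, 0 ≤ p e ∧ p e ≤ 1) (k : ℕ) (S A : Finset Λ) : 0 ≤ Lam p k S A :=
  bil_nonneg hp (sum_nonneg fun _ _ => Gr_nonneg hp _ _) (add_nonneg
    (sum_nonneg fun _ _ => Pi.single_nonneg.2 zero_le_one) (sum_nonneg fun _ _ => Gr_nonneg hp _ _))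

lemma Nb_disj (S : Finset Λ) (a : Λ) (ω : Finset (Sym2 Λ)) : Disjoint (Nb S a ω) S :=
  disjoint_left.2 fun _ hz => (mem_filter.1 hz).2.1

lemma Ker.Lam_step (h : Ker p Top c σ τ) {T : ℝ} {k : ℕ} (hT : ∀ x, bil p (Gr p k x) (Gr p k x) ≤ T)
    {S A : Finset Λ} {a : Λ} (hA : A ⊆ S) (ha : a ∈ A) :
    Ex p (fun ω => Lam p k (S ∪ Nb S a ω) (A.erase a ∪ Nb S a ω)) ≤
      Lam p (k + 1) S A - ∑ z ∈ S, p s(a, z) + T := by
  have hp := h.hp
  have hG := Gr_nonneg hp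
  set α := ∑ b ∈ A.erase a, Gr p k b
  set χ : Λ → ℝ := ∑ e ∈ S \ A, Pi.single e 1
  have e1 : ∀ ω, Lam p k (S ∪ Nb S a ω) (A.erase a ∪ Nb S a ω) =
      bil p (α + ∑ z ∈ Nb S a ω, Gr p k z)
        ((Pi.single a 1 + χ + α) + ∑ z ∈ Nb S a ω, Gr p k z) := by
    intro ω
    rw [Lam, sdiff_step hA ha (Nb_disj S a ω), sum_insert (by simp [ha]), sum_union
      ((Nb_disj S a ω).symm.mono_left ((erase_subset _ _).trans hA)), add_assoc _ α]
  simp only [e1]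
  refine (Ex_bil hp S a _ _ _ (hG k)).trans (add_le_add ?_ ?_)
  · set δ := ∑ z ∈ univ \ S, p s(a, z) • Gr p k z
    have b0 : 0 ≤ δ := sum_nonneg fun z _ => smul_nonneg (hp _).1 (hG k z)
    have b1 : 0 ≤ α := sum_nonneg fun z _ => hG k z
    have b2 : 0 ≤ χ := sum_nonneg fun _ _ => Pi.single_nonneg.2 zero_le_one
    have b3 : Pi.single a 1 + (α + δ) ≤ ∑ b ∈ A, Gr p (k + 1) b := by
      rw [← add_sum_erase _ _ ha, Gr_succ, add_comm α, ← add_assoc]
      refine add_le_add (add_le_add le_rfl ?_) (sum_le_sum fun b _ => ?_)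
      · exact sum_le_univ_sum_of_nonneg fun z => smul_nonneg (hp _).1 (hG k z)
      · exact add_le_add le_rfl (occ_mono hp k b)
    have b4 : (0 : Λ → ℝ) ≤ Pi.single a 1 := Pi.single_nonneg.2 zero_le_one
    have b5 : Pi.single a 1 + χ + α + δ ≤ χ + ∑ b ∈ A, Gr p (k + 1) b := by
      refine le_trans (le_of_eq ?_) (add_le_add le_rfl b3)
      abel
    have b6 := bil_mono hp (add_nonneg b4 (add_nonneg b1 b0))
      (add_nonneg b2 (sum_nonneg (s := A) fun z _ => hG (k + 1) z)) b3 le_rfl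
    rw [map_add (bil p), LinearMap.add_apply] at b6
    have b7 := bil_mono hp (add_nonneg b1 b0) (by positivity) le_rfl b5
    have b8 : ∑ z ∈ S, p s(a, z) ≤ bil p (Pi.single a 1) (χ + ∑ b ∈ A, Gr p (k + 1) b) := by
      refine le_trans (le_of_eq ?_) (bil_mono hp b4 (v := ∑ e ∈ S, Pi.single e 1)
        (sum_nonneg fun _ _ => Pi.single_nonneg.2 zero_le_one) le_rfl ?_)
      · rw [map_sum]
        refine sum_congr rfl fun z _ => ?_
        rw [bil_single, Finset.sum_eq_single z (fun b _ hb => by simp [hb]) (by simp)]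
        simp
      · rw [← sum_sdiff hA]
        exact add_le_add le_rfl (sum_le_sum fun b _ => le_add_of_nonneg_right (occ_nonneg hp _ b))
    unfold Lam
    linarith
  · have hT0 : 0 ≤ T := (bil_nonneg hp (hG k a) (hG k a)).trans (hT a)
    refine (sum_le_sum fun z _ => mul_le_mul_of_nonneg_left (hT z) (hp _).1).trans ?_
    rw [← sum_mul]
    refine mul_le_of_le_one_left hT0 ?_
    rw [← h.row a]
    exact sum_le_univ_sum_of_nonneg fun z => (hp _).1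

end Pool.Agent.H98.HP
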