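import Mathlib
import Pool.Agent.H98.HP2

/-! Large clusters exist, and every large cluster meets a complete block. -/

namespace Pool.Agent.H98.HP

open Finset

variable {Λ : Type} [Fintype Λ] [DecidableEq Λ] {p : Sym2 Λ → ℝ}
  {Top : Λ → Λ → Prop} [DecidableRel Top] {c σ τ : ℝ}

/-- Lower potential for the survival probability. -/
noncomputable def Wp (p : Sym2 Λ → ℝ) (u v T : ℝ) (k : ℕ) (S A : Finset Λ) : ℝ :=
  1 - (1 - v) ^ A.card - (v ^ 2 / 2 + v * T) * (4 / u ^ 2 * (1 - (1 - u) ^ A.card) +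
    u * k * A.card) - v * Lam p k S A

lemma Ker.W_step (h : Ker p Top c σ τ) (hσ : σ ^ 2 ≤ 1 / 12) {u v T : ℝ} (hu : 0 < u) (hu1 : u ≤ 1)
    (hv : 0 < v) (hv1 : v ≤ 1) (hT0 : 0 ≤ T) {k : ℕ} (hT : ∀ x, bil p (Gr p k x) (Gr p k x) ≤ T)
    {S A : Finset Λ} {a : Λ} (hA : A ⊆ S) (ha : a ∈ A) :
    Wp p u v T (k + 1) S A ≤
      Ex p fun ω => Wp p u v T k (S ∪ Nb S a ω) (A.erase a ∪ Nb S a ω) := by
  have hp := h.hp
  have e0 : ∀ ω, (A.erase a ∪ Nb S a ω).card = (A.erase a).card + (Nb S a ω).card := fun ω =>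
    card_union_of_disjoint ((Nb_disj S a ω).symm.mono_left ((erase_subset _ _).trans hA))
  have e1 : A.card = (A.erase a).card + 1 := (card_erase_add_one ha).symm
  set j := (A.erase a).card
  set l := ∑ z ∈ S, p s(a, z)
  have l0 : 0 ≤ l := sum_nonneg fun z _ => (hp _).1
  have l1 : ∑ z ∈ univ \ S, p s(a, z) = 1 - l := by
    rw [← h.row a, ← sum_sdiff (subset_univ S)]; ring
  have l2 : 0 ≤ 1 - l := l1 ▸ sum_nonneg fun z _ => (hp _).1
  have hx : ∀ w : ℝ, 0 ≤ w → w ≤ 1 → ∀ z, 0 ≤ p s(a, z) * w ∧ p s(a, z) * w ≤ 1 :=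
    fun w h0 h1 z => ⟨mul_nonneg (hp _).1 h0, mul_le_one₀ (hp _).2 h0 h1⟩
  have a1 : Ex p (fun ω => (1 - v) ^ (Nb S a ω).card) ≤ 1 - v + (v * l + v ^ 2 / 2) := by
    rw [Ex_Nb_prod, sub_sub_cancel]
    refine (prod_upper _ _ (hx v hv.le hv1)).trans ?_
    rw [← sum_mul, l1]
    nlinarith [mul_nonneg (mul_nonneg l0 (show 0 ≤ 2 - l by linarith)) (sq_nonneg v)]
  have a2 : 1 - u + u ^ 2 / 4 ≤ Ex p (fun ω => (1 - u) ^ (Nb S a ω).card) := by
    rw [Ex_Nb_prod, sub_sub_cancel]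
    refine le_trans ?_ (prod_lower _ _ (hx u hu.le hu1) (by rw [← sum_mul, l1]; nlinarith))
    simp only [mul_pow]
    rw [← sum_mul, ← sum_mul, l1]
    have : ∑ z ∈ univ \ S, p s(a, z) ^ 2 ≤ 1 / 12 :=
      ((sum_le_univ_sum_of_nonneg fun z => sq_nonneg _).trans (h.sq a)).trans hσ
    have h3 := mul_le_mul_of_nonneg_right this (sq_nonneg u)
    have h4 : 0 ≤ l * u * (3 - 2 * u + l * u) := by
      have := mul_nonneg l0 hu.le
      exact mul_nonneg this (by linarith)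
    nlinarith
  have a3 : Ex p (fun ω => ((Nb S a ω).card : ℝ)) = 1 - l := by
    have := Ex_Nb_sum p S a fun _ => 1
    simpa [l1] using this
  have a4 := h.Lam_step hT hA ha
  have b1 : (1 - v) ^ j ≤ 1 := pow_le_one₀ (by linarith) (by linarith)
  have b2 : 0 ≤ (1 - v) ^ j := pow_nonneg (by linarith) _
  have b3 : 0 ≤ (1 - u) ^ j := pow_nonneg (by linarith) _
  have b4 : 1 - u * (j + 1) ≤ (1 - u) ^ j := by
    have := one_add_mul_le_pow (show -2 ≤ -u by linarith) j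
    rw [← sub_eq_add_neg] at this
    linarith
  simp only [Wp, e0, e1, pow_add, Nat.cast_add, Ex_sub, Ex_add, Ex_mul, Ex_const, a3, pow_one,
    Nat.cast_one]
  have c1 := mul_le_mul_of_nonneg_left a1 b2
  have c2 := mul_le_mul_of_nonneg_left a2 b3
  have c3 : (1 - v) ^ j * (v * l + v ^ 2 / 2) ≤ v * l + v ^ 2 / 2 :=
    mul_le_of_le_one_left (by positivity) b1
  have c4 : 4 / u ^ 2 * (1 - (1 - u) ^ j * Ex p fun ω => (1 - u) ^ (Nb S a ω).card) +
      u * k * (j + (1 - l)) ≤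
      4 / u ^ 2 * (1 - (1 - u) ^ j * (1 - u)) + u * (k + 1) * (j + 1) - 1 := by
    have d1 := mul_le_mul_of_nonneg_left (sub_le_sub_left c2 1) (show 0 ≤ 4 / u ^ 2 by positivity)
    have d2 : 4 / u ^ 2 * (1 - (1 - u) ^ j * (1 - u + u ^ 2 / 4)) =
        4 / u ^ 2 * (1 - (1 - u) ^ j * (1 - u)) - (1 - u) ^ j := by
      field_simp; ring
    have d3 : 0 ≤ u * k * l := by positivity
    linarith
  have c5 := mul_le_mul_of_nonneg_left c4 (show 0 ≤ v ^ 2 / 2 + v * T by positivity)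
  have c6 := mul_le_mul_of_nonneg_left a4 hv.le
  linarith

theorem Ker.big (h : Ker p Top c σ τ) (hc : c ≤ 1) (hσ : σ ^ 2 ≤ 1 / 12) (m J : ℕ) (hm : 1 ≤ m)
    (hT : 48 * m * (3 * ((σ + τ * (m ^ 2 : ℕ) * √(Fintype.card Λ)) / c) ^ 2) ≤ 1)
    (hV : 9 * (J * m ^ 2) * (m ^ 2 + 1) ≤ Fintype.card Λ) :
    Ex p (fun ω => ind (¬ Big (m ^ 2) ∅ ω)) ≤ (1 - 1 / (20 * m)) ^ J := by
  have hp := h.hp
  set T := 3 * ((σ + τ * (m ^ 2 : ℕ) * √(Fintype.card Λ)) / c) ^ 2
  have hT0 : 0 ≤ T := by positivity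
  have hm' : (1 : ℝ) ≤ m := by exact_mod_cast hm
  have hu1 : 1 / (m : ℝ) ≤ 1 := by rw [div_le_one (by positivity)]; exact hm'
  have hv1 : 1 / (10 * m : ℝ) ≤ 1 := by rw [div_le_one (by positivity)]; linarith
  have hπ : 0 ≤ 1 - 1 / (20 * m : ℝ) := by rw [sub_nonneg, div_le_one (by positivity)]; linarith
  have hs : 1 ≤ m ^ 2 := Nat.one_le_pow _ _ hm
  suffices H : ∀ j (S : Finset Λ), S.card + j * m ^ 2 ≤ J * m ^ 2 →
      Ex p (fun ω => ind (¬ Big (m ^ 2) S ω)) ≤ (1 - 1 / (20 * m)) ^ j from H J ∅ (by simp)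
  intro j
  induction j with
  | zero =>
    intro S _
    simpa [Ex_const] using Ex_mono hp (g := fun _ => 1) fun ω => ind_le_one (¬ Big (m ^ 2) S ω)
  | succ j ih =>
    intro S hS
    rw [Nat.succ_mul] at hS
    set χ : Λ → ℝ := ∑ e ∈ S, Pi.single e 1
    have h1 : 9 * S.card * (m ^ 2 + 1) ≤ Fintype.card Λ :=
      le_trans (Nat.mul_le_mul_right _ (by omega)) hV
    have h2 : S.card < Fintype.card Λ := by
      have := Nat.mul_le_mul_left (9 * (J * m ^ 2)) (Nat.le_add_left 1 (m ^ 2))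
      omega
    have hcard : ((univ \ S).card : ℝ) = Fintype.card Λ - S.card := by
      rw [card_univ_sdiff, Nat.cast_sub h2.le]
    obtain ⟨x, hx, hF⟩ : ∃ x ∈ univ \ S, bil p (Gr p (m ^ 2) x) χ ≤ 1 / 8 := by
      refine exists_le_of_sum_le (card_pos.1 (by rw [card_univ_sdiff]; omega)) ?_
      refine (sum_le_univ_sum_of_nonneg fun x => bil_nonneg hp (Gr_nonneg hp _ _)
        (sum_nonneg fun _ _ => Pi.single_nonneg.2 zero_le_one)).trans ?_
      have e : ∑ x, bil p (Gr p (m ^ 2) x) χ = S.card * ((m ^ 2 : ℕ) + 1) := by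
        simp only [χ, map_sum]
        rw [sum_comm, ← nsmul_eq_mul, ← sum_const]
        refine sum_congr rfl fun e _ => ?_
        simp only [bil_comm _ (Pi.single e 1), bil_single]
        rw [sum_comm]
        simp only [← sum_mul, Gr, Pi.add_apply, sum_add_distrib, h.occ_col]
        simp only [Pi.single_apply, sum_ite_eq, mem_univ, if_true, ← mul_sum, h.row]
        ring
      rw [e, sum_const, nsmul_eq_mul, hcard]
      have : ((9 * S.card * (m ^ 2 + 1) : ℕ) : ℝ) ≤ Fintype.card Λ := by exact_mod_cast h1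
      push_cast at this ⊢
      nlinarith [show (0 : ℝ) ≤ S.card * m ^ 2 by positivity]
    have hxS := (mem_sdiff.1 hx).2
    have e2 : insert x S \ {x} = S := by
      rw [← erase_eq, erase_insert hxS]
    have key := explore hp (m ^ 2) (J * m ^ 2 - j * m ^ 2) _ (pow_nonneg hπ j)
      (Wp p (1 / m) (1 / (10 * m)) T) (fun k S => by simp [Wp, Lam]) (fun S A => by
        have := Lam_nonneg hp 0 S A
        have h3 : (1 - 1 / (m : ℝ)) ^ A.card ≤ 1 :=
          pow_le_one₀ (by linarith) (sub_le_self _ (by positivity))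
        have h4 : 0 ≤ (1 - 1 / (10 * m : ℝ)) ^ A.card := pow_nonneg (by linarith) _
        have h5 := sub_nonneg.2 h3
        rw [Wp, sub_sub, sub_sub]
        exact sub_le_self _ (by positivity))
      (fun k hk S A a hA ha => h.W_step hσ (by positivity) hu1 (by positivity) hv1 hT0
        (h.bil_Gr hc hk.le) hA ha)
      (fun S' hS' => ih S' (by omega)) (m ^ 2) le_rfl (insert x S) {x}
      (singleton_subset_iff.2 (mem_insert_self _ _)) (by rw [e2]; omega)
    refine le_trans (Ex_mono hp fun ω => ind_mono fun hB => ?_) (key.trans ?_)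
    · exact ⟨not_lt.1 fun h' => hB ⟨x, hxS, h'⟩, fun h' => hB (Big_mono (subset_insert _ _) h')⟩
    · rw [pow_succ _ j]
      refine mul_le_mul_of_nonneg_left (sub_le_sub_left ?_ _) (pow_nonneg hπ j)
      have h3 := h.bil_Gr hc le_rfl (k := m ^ 2) x
      simp only [Wp, Lam, e2, sum_singleton, card_singleton, map_add, pow_one, sub_sub_cancel]
      have e3 : (1 / (10 * m : ℝ)) ^ 2 / 2 + 1 / (10 * m) * T = 1 / (10 * m) * (1 / (20 * m) + T) := by
        field_simp; ring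
      have e4 : 4 / (1 / (m : ℝ)) ^ 2 * (1 / m) + 1 / m * (m ^ 2 : ℕ) * (1 : ℕ) = 5 * m := by
        push_cast; field_simp; ring
      have e5 : (1 / (20 * m) + T) * (5 * m) = 1 / 4 + 5 * m * T := by field_simp; ring
      have e6 : 1 / (20 * m : ℝ) = 1 / (10 * m) * (1 / 2) := by field_simp; ring
      rw [e3, e4, mul_assoc, e5, e6]
      have h4 : T ≤ m * T := le_mul_of_one_le_left hT0 hm'
      have h5 : 1 / 2 ≤ 1 - (1 / 4 + 5 * m * T) - (bil p (Gr p (m ^ 2) x) χ +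
          bil p (Gr p (m ^ 2) x) (Gr p (m ^ 2) x)) := by linarith
      have := mul_le_mul_of_nonneg_left h5 (show 0 ≤ 1 / (10 * m : ℝ) by positivity)
      linarith

lemma C_dep {x : Λ} {F : Finset Λ} {ω ω' : Finset (Sym2 Λ)}
    (h : ∀ u v, u ∈ F → (s(u, v) ∈ ω ↔ s(u, v) ∈ ω')) (hF : R {x} {x} ω = F) :
    R {x} {x} ω' = F := by
  ext y
  constructor
  · intro hy
    obtain ⟨b, hb, hp⟩ := mem_R.1 hy
    clear hy
    induction hp with
    | refl => exact hF ▸ mem_R.2 ⟨b, hb, .refl⟩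
    | tail _ h2 ih =>
      have h3 := (h _ _ ih).2 h2.2
      rw [← hF] at ih ⊢
      obtain ⟨b', hb', hp'⟩ := mem_R.1 ih
      exact mem_R.2 ⟨b', hb', hp'.tail ⟨h2.1, h3⟩⟩
  · intro hy
    obtain ⟨b, hb, hp⟩ := mem_R.1 (hF ▸ hy)
    refine mem_R.2 ⟨b, hb, ?_⟩
    clear hy
    induction hp with
    | refl => exact .refl
    | tail h1 h2 ih => exact ih.tail ⟨h2.1, (h _ _ (hF ▸ mem_R.2 ⟨b, hb, h1⟩)).1 h2.2⟩

theorem no_full {I : Type} [Fintype I] [DecidableEq I] (hp : ∀ e, 0 ≤ p e ∧ p e ≤ 1) (π : Λ → I)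
    (D : I → Finset (Sym2 Λ)) (hD : ∀ i, ∀ e ∈ D i, ∀ y ∈ e, π y = i) {q : ℝ} (hq : q < 1)
    (hDq : ∀ i, ∏ e ∈ D i, p e = q) (hπ : ∀ i, (univ.filter fun y => π y = i).card ≤ 3)
    (s k : ℕ) (hk : 3 * k ≤ s) (x : Λ) :
    Ex p (fun ω => ind (s < (R {x} {x} ω).card ∧ ∀ y ∈ R {x} {x} ω, ¬ D (π y) ⊆ ω)) ≤
      (1 - q) ^ k := by
  have hq0 : 0 ≤ q := hDq (π x) ▸ prod_nonneg fun e _ => (hp e).1
  set NF : Finset I → Finset (Sym2 Λ) → ℝ := fun J ω => ∏ i ∈ J, (1 - ind (D i ⊆ ω)) with hNF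
  have NF0 : ∀ J ω, 0 ≤ NF J ω := fun J ω => prod_nonneg fun i _ => sub_nonneg.2 (ind_le_one _)
  have dep : ∀ i (ω ω' : Finset (Sym2 Λ)), (∀ e ∈ D i, (e ∈ ω ↔ e ∈ ω')) →
      ind (D i ⊆ ω) = ind (D i ⊆ ω') := fun i ω ω' h =>
    ind_congr ⟨fun h' e he => (h e he).1 (h' he), fun h' e he => (h e he).2 (h' he)⟩
  have e1 : ∀ J, Ex p (NF J) = (1 - q) ^ J.card := by
    intro J
    rw [hNF, Ex_prod p J _ (fun i e => e ∈ D i) (fun i _ ω ω' h => by simp only [dep i ω ω' h])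
      fun i _ j _ hij e h1 h2 => hij ((hD i e h1 _ e.out_fst_mem).symm.trans
        (hD j e h2 _ e.out_fst_mem)), ← prod_const]
    refine prod_congr rfl fun i _ => ?_
    have : ∀ ω, ind (D i ⊆ ω) = ∏ e ∈ D i, if e ∈ ω then (1 : ℝ) else 0 := fun ω => by
      rw [prod_ite_zero, prod_const_one]
      unfold ind
      congr
    rw [Ex_sub, Ex_const]
    simp only [this]
    rw [Ex_prod p _ _ (fun e e' => e' = e) (fun e _ ω ω' h => by simp only [h _ rfl])
      fun e _ e' _ hne f h1 h2 => hne (h1.symm.trans h2)]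
    simp only [Ex_mem, hDq]
  have e2 : ∀ F : Finset Λ, s < F.card →
      Ex p (fun ω => ind (R {x} {x} ω = F) * NF (F.image π) ω) * (1 - q) ^ Fintype.card I ≤
        Ex p (fun ω => ind (R {x} {x} ω = F) * NF univ ω) * (1 - q) ^ k := by
    intro F hF
    have h1 : k ≤ (F.image π).card := by
      have := card_le_mul_card_image (f := π) F 3 fun i _ =>
        (card_le_card (filter_subset_filter _ (subset_univ F))).trans (hπ i)
      omega
    have h2 : ∀ ω, ind (R {x} {x} ω = F) * NF univ ω =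
        (ind (R {x} {x} ω = F) * NF (F.image π) ω) * NF (univ \ F.image π) ω := fun ω => by
      simp only [hNF]
      rw [← prod_sdiff (subset_univ (F.image π))]
      ring
    simp only [h2]
    rw [Ex_indep p (g := NF (univ \ F.image π)) (fun e => ∃ y ∈ e, π y ∈ F.image π), e1, mul_assoc,
      ← pow_add]
    · refine mul_le_mul_of_nonneg_left (pow_le_pow_of_le_one (sub_nonneg.2 hq.le)
        (sub_le_self _ hq0) ?_)
        (Ex_nonneg hp fun ω => mul_nonneg (ind_nonneg _) (NF0 _ _))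
      rw [card_univ_sdiff]
      have := card_le_univ (F.image π)
      omega
    · intro ω ω' h
      have h3 : ∀ u v, u ∈ F → (s(u, v) ∈ ω ↔ s(u, v) ∈ ω') := fun u v hu =>
        h _ ⟨u, Sym2.mem_mk_left _ _, mem_image_of_mem _ hu⟩
      simp only [hNF]
      rw [ind_congr ⟨C_dep h3, C_dep fun u v hu => (h3 u v hu).symm⟩]
      congr 1
      refine prod_congr rfl fun i hi => ?_
      rw [dep i ω ω' fun e he => h e ⟨_, e.out_fst_mem, by rwa [hD i e he _ e.out_fst_mem]⟩]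
    · intro ω ω' h
      refine prod_congr rfl fun i hi => ?_
      rw [dep i ω ω' fun e he => h e ?_]
      rintro ⟨y, hy, h4⟩
      rw [hD i e he y hy] at h4
      exact (mem_sdiff.1 hi).2 h4
  have hpos : 0 < (1 - q) ^ Fintype.card I := pow_pos (by linarith) _
  refine le_of_mul_le_mul_right ?_ hpos
  have e3 : Ex p (fun ω => ind (s < (R {x} {x} ω).card ∧ ∀ y ∈ R {x} {x} ω, ¬ D (π y) ⊆ ω)) ≤
      ∑ F ∈ univ.filter fun F : Finset Λ => s < F.card,
        Ex p (fun ω => ind (R {x} {x} ω = F) * NF (F.image π) ω) := by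
    rw [← Ex_sum]
    refine Ex_mono hp fun ω => ?_
    by_cases hω : s < (R {x} {x} ω).card ∧ ∀ y ∈ R {x} {x} ω, ¬ D (π y) ⊆ ω
    · refine le_trans (le_of_eq ?_) (single_le_sum
        (f := fun F => ind (R {x} {x} ω = F) * NF (F.image π) ω)
        (fun F _ => mul_nonneg (ind_nonneg _) (NF0 _ _)) (mem_filter.2 ⟨mem_univ _, hω.1⟩))
      rw [ind_pos hω, ind_pos rfl, one_mul]
      refine (prod_eq_one fun i hi => ?_).symm
      obtain ⟨y, hy, rfl⟩ := mem_image.1 hi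
      rw [ind_neg (hω.2 y hy), sub_zero]
    · rw [ind_neg hω]
      exact sum_nonneg fun F _ => mul_nonneg (ind_nonneg _) (NF0 _ _)
  refine (mul_le_mul_of_nonneg_right e3 hpos.le).trans ?_
  rw [sum_mul]
  refine (sum_le_sum fun F hF => e2 F (mem_filter.1 hF).2).trans ?_
  rw [← sum_mul, mul_comm]
  refine mul_le_mul_of_nonneg_left ((sum_le_univ_sum_of_nonneg fun F =>
    Ex_nonneg hp fun ω => mul_nonneg (ind_nonneg _) (NF0 _ _)).trans (le_of_eq ?_))
    (pow_nonneg (by linarith) _)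
  rw [← Ex_sum, ← card_univ, ← e1]
  congr 1
  funext ω
  rw [Finset.sum_eq_single (R {x} {x} ω) (fun F _ hF => by rw [ind_neg hF.symm, zero_mul])
    (by simp), ind_pos rfl, one_mul]

end Pool.Agent.H98.HP
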