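import Mathlib
import Pool.Agent.H98.HP3

/-! Hierarchical long-range percolation: definitions and reduction to the abstract bounds. -/

namespace Pool.Agent.H98.HP

open Finset

/-- The block `Λ_n` of the hierarchical lattice: sequences of length `n` in `(ℤ/L)^d`. -/
abbrev Box (d L n : ℕ) : Type := Fin n → Fin d → ZMod L

/-- The largest index `i ∈ {1,…,n}` with `x_i ≠ 0` (and `0` for `x = 0`). -/
def lev {d L n : ℕ} (x : Box d L n) : ℕ := univ.sup fun i : Fin n => if x i ≠ 0 then i + 1 else 0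

/-- The hierarchical norm. -/
noncomputable def hnorm {d L n : ℕ} (x : Box d L n) : ℝ := if x = 0 then 0 else (L : ℝ) ^ lev x

lemma hnorm_neg {d L n : ℕ} (x : Box d L n) : hnorm (-x) = hnorm x := by
  simp [hnorm, lev]

/-- The kernel `κ^{(n)}_λ(x,y)`. -/
noncomputable def kap {d L n : ℕ} (ρ : ℝ → ℝ) (ζ lam : ℝ) (x y : Box d L n) : ℝ :=
  max (ρ (hnorm (x - y)) / ζ + lam * (L : ℝ) ^ (-(4 * n * d / 3 : ℝ))) 0

/-- Edge probability `1 - exp (-κ)`. -/
noncomputable def edgeP {d L n : ℕ} (ρ : ℝ → ℝ) (ζ lam : ℝ) : Sym2 (Box d L n) → ℝ :=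
  Sym2.lift ⟨fun x y => 1 - Real.exp (-kap ρ ζ lam x y), fun x y => by
    simp only [kap, ← hnorm_neg (x - y), neg_sub]⟩

/-- `ζ` is the positive solution of the normalising equation. -/
def IsZeta (d L : ℕ) (ρ : ℝ → ℝ) (n : ℕ) (ζ : ℝ) : Prop :=
  0 < ζ ∧ ((L : ℝ) ^ d - 1) * ∑ i ∈ Icc 1 n, (L : ℝ) ^ ((i - 1) * d) *
    Real.exp (-(ζ⁻¹ * ρ ((L : ℝ) ^ i))) = (L : ℝ) ^ (n * d) - 2

open Classical in
/-- Probability of the property `E` for the random graph in which each pair `e` of distinct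
vertices is an edge independently with probability `p e`. -/
noncomputable def prob {V : Type} [Fintype V] (p : Sym2 V → ℝ) (E : SimpleGraph V → Prop) : ℝ :=
  ∑ ω ∈ (⊤ : SimpleGraph V).edgeFinset.powerset,
    ((∏ e ∈ ω, p e) * ∏ e ∈ (⊤ : SimpleGraph V).edgeFinset \ ω, (1 - p e)) *
      if E (SimpleGraph.fromEdgeSet (ω : Set (Sym2 V))) then 1 else 0

/-- Every component of maximal size contains a cycle of length at most `m`. -/
def ShortCyc {V : Type} (m : ℕ) (G : SimpleGraph V) : Prop :=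
  ∀ c : G.ConnectedComponent, (∀ c' : G.ConnectedComponent, c'.supp.ncard ≤ c.supp.ncard) →
    ∃ v ∈ c.supp, ∃ w : G.Walk v v, w.IsCycle ∧ w.length ≤ m

section General

variable {Λ : Type} [Fintype Λ] [DecidableEq Λ] {p : Sym2 Λ → ℝ}

lemma prob_eq (hd : ∀ x, p s(x, x) = 0) (E : SimpleGraph Λ → Prop) :
    prob p E = Ex p fun ω => ind (E (SimpleGraph.fromEdgeSet (ω : Set (Sym2 Λ)))) := by
  classical
  have h0 : ∀ e, e ∉ (⊤ : SimpleGraph Λ).edgeFinset → p e = 0 := by
    intro e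
    induction e using Sym2.ind with
    | _ x y =>
      intro h
      have : x = y := by simpa using h
      rw [this, hd]
  unfold prob Ex
  refine Eq.trans (sum_congr (by ext ω; simp [subset_iff]) fun ω hω => ?_)
    (sum_subset (subset_univ (⊤ : SimpleGraph Λ).edgeFinset.powerset) fun ω _ hω => ?_)
  · simp only [ind]
    rw [wt_eq, ← prod_subset (sdiff_subset_sdiff (subset_univ
      (⊤ : SimpleGraph Λ).edgeFinset) subset_rfl) fun e he h => by
        rw [h0 e fun h' => h (mem_sdiff.2 ⟨h', (mem_sdiff.1 he).2⟩), sub_zero]]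
    refine congrArg₂ (· * ·) (congrArg₂ (· * ·) rfl (prod_congr ?_ fun _ _ => rfl)) rfl
    ext e
    simp
  · obtain ⟨e, he, h⟩ := not_subset.1 fun h => hω (mem_powerset.2 h)
    rw [wt_eq, prod_eq_zero he (h0 e h), zero_mul, zero_mul]

lemma mem_R_iff (ω : Finset (Sym2 Λ)) (x y : Λ) : y ∈ R {x} {x} ω ↔
    (SimpleGraph.fromEdgeSet (ω : Set (Sym2 Λ))).Reachable x y := by
  rw [mem_R, SimpleGraph.reachable_iff_reflTransGen]
  simp only [mem_singleton, exists_eq_left]
  constructor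
  · intro h
    induction h with
    | refl => exact .refl
    | @tail u v _ h2 ih =>
      by_cases huv : u = v
      · exact huv ▸ ih
      · exact ih.tail ((SimpleGraph.fromEdgeSet_adj _).2 ⟨h2.2, huv⟩)
  · intro h
    induction h with
    | refl => exact .refl
    | @tail u v _ h2 ih =>
      by_cases hv : v = x
      · exact hv ▸ .refl
      · exact ih.tail ⟨hv, ((SimpleGraph.fromEdgeSet_adj _).1 h2).1⟩

lemma ncard_supp (ω : Finset (Sym2 Λ)) (x : Λ) :
    ((SimpleGraph.fromEdgeSet (ω : Set (Sym2 Λ))).connectedComponentMk x).supp.ncard =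
      (R {x} {x} ω).card := by
  rw [← Set.ncard_coe_finset]
  congr 1
  ext y
  rw [mem_coe, mem_R_iff, SimpleGraph.ConnectedComponent.mem_supp_iff,
    SimpleGraph.ConnectedComponent.eq, SimpleGraph.reachable_comm]

theorem prob_ge {I : Type} [Fintype I] [DecidableEq I] (hp : ∀ e, 0 ≤ p e ∧ p e ≤ 1)
    (hd : ∀ x, p s(x, x) = 0) (π : Λ → I) (t : I → Fin 3 → Λ) (ht : ∀ i j, π (t i j) = i)
    (hinj : ∀ i, Function.Injective (t i)) (hsurj : ∀ y, ∃ j, t (π y) j = y) {r : ℝ} (hr : r < 1)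
    (hpr : ∀ i j k, j ≠ k → p s(t i j, t i k) = r) (s k : ℕ) (hk : 3 * k ≤ s) :
    1 - Ex p (fun ω => ind (¬ Big s ∅ ω)) - Fintype.card Λ * (1 - r ^ 3) ^ k ≤
      prob p (ShortCyc 3) := by
  set D : I → Finset (Sym2 Λ) := fun i => {s(t i 0, t i 1), s(t i 1, t i 2), s(t i 2, t i 0)}
  have hne : ∀ i, t i 0 ≠ t i 1 ∧ t i 1 ≠ t i 2 ∧ t i 2 ≠ t i 0 := fun i =>
    ⟨(hinj i).ne (by decide), (hinj i).ne (by decide), (hinj i).ne (by decide)⟩
  have key := fun x (h0 : 0 ≤ r) => no_full hp π D (q := r ^ 3) (by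
      intro i e he y hy
      simp only [D, mem_insert, mem_singleton] at he
      rcases he with rfl | rfl | rfl <;> rcases Sym2.mem_iff.1 hy with rfl | rfl <;> exact ht _ _)
    (pow_lt_one₀ h0 hr (by norm_num)) (by
      intro i
      obtain ⟨h1, h2, h3⟩ := hne i
      rw [prod_insert (by simp [h1, h2, h3, h1.symm, h2.symm, h3.symm]),
        prod_insert (by simp [h1, h2, h3, h1.symm, h2.symm, h3.symm]), prod_singleton,
        hpr i 0 1 (by decide), hpr i 1 2 (by decide), hpr i 2 0 (by decide)]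
      ring) (by
      intro i
      refine (card_le_card (t := univ.image (t i)) fun y hy => ?_).trans
        (card_image_le.trans (by simp))
      obtain ⟨j, hj⟩ := hsurj y
      rw [(mem_filter.1 hy).2] at hj
      exact mem_image.2 ⟨j, mem_univ _, hj⟩) s k hk x
  have h2 := sum_le_sum fun x (_ : x ∈ (univ : Finset Λ)) =>
    key x (hpr (π x) 0 1 (by decide) ▸ (hp _).1)
  rw [sum_const, card_univ, nsmul_eq_mul, ← Ex_sum] at h2
  rw [prob_eq hd]
  refine le_trans (sub_le_sub_left h2 _) ?_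
  conv_lhs => rw [← Ex_const p 1, ← Ex_sub, ← Ex_sub]
  refine Ex_mono hp fun ω => ?_
  by_cases hB : Big s ∅ ω
  swap
  · rw [ind_pos hB, sub_self, zero_sub]
    exact (neg_nonpos.2 (sum_nonneg fun _ _ => ind_nonneg _)).trans (ind_nonneg _)
  rw [ind_neg (not_not.2 hB), sub_zero]
  by_cases hx : ∃ x, s < (R {x} {x} ω).card ∧ ∀ y ∈ R {x} {x} ω, ¬ D (π y) ⊆ ω
  · obtain ⟨x, hx⟩ := hx
    have := single_le_sum (f := fun x => ind (s < (R {x} {x} ω).card ∧
      ∀ y ∈ R {x} {x} ω, ¬ D (π y) ⊆ ω)) (fun _ _ => ind_nonneg _) (mem_univ x)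
    simp only [ind_pos hx] at this
    exact (sub_nonpos.2 this).trans (ind_nonneg _)
  rw [ind_pos (P := ShortCyc _ _)]
  · exact sub_le_self _ (sum_nonneg fun _ _ => ind_nonneg _)
  intro c hc
  obtain ⟨x, rfl⟩ := c.exists_rep
  obtain ⟨y, -, hy⟩ := hB
  have h3 := hc ((SimpleGraph.fromEdgeSet (ω : Set (Sym2 Λ))).connectedComponentMk y)
  change _ ≤ (SimpleGraph.connectedComponentMk _ x).supp.ncard at h3
  rw [ncard_supp, ncard_supp] at h3
  simp only [not_exists, not_and, not_forall, not_not] at hx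
  obtain ⟨z, hz, hD⟩ := hx x (lt_of_lt_of_le hy h3)
  obtain ⟨h1, h2, h3⟩ := hne (π z)
  have a1 : (SimpleGraph.fromEdgeSet (ω : Set (Sym2 Λ))).Adj (t (π z) 0) (t (π z) 1) :=
    (SimpleGraph.fromEdgeSet_adj _).2 ⟨hD (by simp [D]), h1⟩
  have a2 : (SimpleGraph.fromEdgeSet (ω : Set (Sym2 Λ))).Adj (t (π z) 1) (t (π z) 2) :=
    (SimpleGraph.fromEdgeSet_adj _).2 ⟨hD (by simp [D]), h2⟩
  have a3 : (SimpleGraph.fromEdgeSet (ω : Set (Sym2 Λ))).Adj (t (π z) 2) (t (π z) 0) :=
    (SimpleGraph.fromEdgeSet_adj _).2 ⟨hD (by simp [D]), h3⟩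
  refine ⟨t (π z) 0, ?_, .cons a1 (.cons a2 (.cons a3 .nil)), ?_, le_rfl⟩
  · change SimpleGraph.connectedComponentMk _ _ = SimpleGraph.connectedComponentMk _ x
    rw [SimpleGraph.ConnectedComponent.eq]
    refine SimpleGraph.Reachable.trans ?_ ((mem_R_iff ω x z).1 hz).symm
    obtain ⟨j, hj⟩ := hsurj z
    conv_rhs => rw [← hj]
    fin_cases j
    · exact .refl _
    · exact a1.reachable
    · exact a3.reachable.symm
  · simp [SimpleGraph.Walk.isCycle_def, SimpleGraph.Walk.isTrail_def, h1, h2, h3, h1.symm, h2.symm,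
      h3.symm]

end General

section Count

variable {d L n : ℕ} [NeZero L]

omit [NeZero L] in
lemma lev_le_iff (x : Box d L n) (i : ℕ) : lev x ≤ i ↔ ∀ j : Fin n, i ≤ j → x j = 0 := by
  rw [lev, Finset.sup_le_iff]
  refine forall_congr' fun j => ?_
  by_cases h : x j = 0 <;> simp [h]

omit [NeZero L] in
lemma lev_le (x : Box d L n) : lev x ≤ n := (lev_le_iff x n).2 fun j hj => absurd j.2 (not_lt.2 hj)

omit [NeZero L] in
lemma lev_eq_zero (x : Box d L n) : lev x = 0 ↔ x = 0 := by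
  rw [← Nat.le_zero, lev_le_iff]
  exact ⟨fun h => funext fun j => h j (Nat.zero_le _), fun h j _ => by rw [h]; rfl⟩

lemma card_le_lev {i : ℕ} (hi : i ≤ n) :
    (univ.filter fun x : Box d L n => lev x ≤ i).card = (L ^ d) ^ i := by
  have : (univ.filter fun x : Box d L n => lev x ≤ i) =
      Fintype.piFinset fun j : Fin n => if (j : ℕ) < i then univ else {0} := by
    ext x
    simp only [mem_filter, mem_univ, true_and, lev_le_iff, Fintype.mem_piFinset]
    refine forall_congr' fun j => ?_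
    by_cases h : (j : ℕ) < i
    · simp [h]
    · simp [h, not_lt.1 h]
  rw [this, Fintype.card_piFinset]
  simp only [apply_ite card, card_singleton, card_univ, Fintype.card_fun, ZMod.card,
    Fintype.card_fin]
  rw [prod_ite, prod_const_one, mul_one, prod_const, Fin.card_filter_val_lt, min_eq_right hi]

lemma sum_lev (f : ℕ → ℝ) : ∑ x : Box d L n, f (lev x) =
    f 0 + ∑ i ∈ Icc 1 n, ((L : ℝ) ^ d - 1) * ((L : ℝ) ^ d) ^ (i - 1) * f i := by
  have h : ∀ i ≤ n, ∑ x ∈ univ.filter fun x : Box d L n => lev x ≤ i, f (lev x) =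
      f 0 + ∑ i ∈ Icc 1 i, ((L : ℝ) ^ d - 1) * ((L : ℝ) ^ d) ^ (i - 1) * f i := by
    intro i
    induction i with
    | zero =>
      intro hi
      rw [sum_congr rfl (g := fun _ => f 0) fun x hx => by rw [Nat.le_zero.1 (mem_filter.1 hx).2],
        sum_const, card_le_lev hi]
      simp
    | succ i ih =>
      intro hi
      have hs : (univ.filter fun x : Box d L n => lev x ≤ i) ⊆
          univ.filter fun x : Box d L n => lev x ≤ i + 1 := fun x hx =>
        mem_filter.2 ⟨mem_univ _, (mem_filter.1 hx).2.trans (Nat.le_succ i)⟩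
      rw [← sum_sdiff hs, ih (Nat.le_of_succ_le hi), sum_Icc_succ_top (by omega),
        sum_congr rfl (g := fun _ => f (i + 1)) fun x hx => by
          simp only [mem_sdiff, mem_filter, mem_univ, true_and] at hx
          rw [show lev x = i + 1 by omega],
        sum_const, card_sdiff_of_subset hs, card_le_lev hi, card_le_lev (Nat.le_of_succ_le hi),
        nsmul_eq_mul, Nat.cast_sub (Nat.pow_le_pow_right
          (Nat.pow_pos (Nat.pos_of_ne_zero (NeZero.ne L))) (Nat.le_succ i))]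
      push_cast
      rw [Nat.succ_eq_add_one, pow_succ]
      ring
  rw [← h n le_rfl, filter_true_of_mem fun x _ => lev_le x]

end Count

end Pool.Agent.H98.HP
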