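import Mathlib
import Pool.Agent.H98.HP4

/-! Quantitative estimate for `L = 3`, `α = 11 d / 12`, `λ = 0`. -/

namespace Pool.Agent.H98.HP

open Finset

lemma one_sub_exp_le (x : ℝ) : 1 - Real.exp (-x) ≤ x := by linarith [Real.add_one_le_exp (-x)]

lemma half_le_one_sub_exp {x : ℝ} (h0 : 0 ≤ x) (h1 : x ≤ 1) : x / 2 ≤ 1 - Real.exp (-x) := by
  have h2 : Real.exp (-x) ≤ 1 / (1 + x) := by
    rw [Real.exp_neg, one_div]
    exact inv_anti₀ (by linarith) (by linarith [Real.add_one_le_exp x])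
  have h3 : 1 / (1 + x) ≤ 1 - x / 2 := by
    rw [div_le_iff₀ (by linarith)]; nlinarith
  linarith

lemma le_two_mul_of {x : ℝ} (h : 1 - Real.exp (-x) ≤ 1 / 2) (h0 : 0 ≤ x) :
    x ≤ 2 * (1 - Real.exp (-x)) := by
  have h1 := Real.add_one_le_exp x
  have h2 : Real.exp x * Real.exp (-x) = 1 := by rw [← Real.exp_add]; simp
  have h3 := Real.exp_pos (-x)
  nlinarith [mul_le_mul_of_nonneg_right h1 h3.le]

theorem core {d n : ℕ} (hd : 1 ≤ d) (hn : 1 ≤ n) {h : ℝ} (hh : 1 < h) (hb : h ^ 360 = 3 ^ d)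
    {ρ : ℝ → ℝ} (hρ0 : ρ 0 = 0) (hρ : ∀ i : ℕ, ρ (3 ^ i) = ((h ^ i) ^ 330)⁻¹) {ζ : ℝ}
    (hζ : IsZeta d 3 ρ n ζ) (hnH : (n : ℝ) ≤ h ^ n) (hH : 100 ≤ h ^ n) (hbH : 2 * 3 ^ d ≤ h ^ n) :
    1 - Real.exp (-h ^ n) - (h ^ n) ^ 360 * Real.exp (-h ^ n) ≤
      prob (edgeP ρ ζ 0 : Sym2 (Box d 3 n) → ℝ) (ShortCyc 3) := by
  obtain ⟨hζ0, hζ⟩ := hζ
  have h0 : 0 < h := by linarith
  have hn' : (1 : ℝ) ≤ n := by exact_mod_cast hn
  set p : Sym2 (Box d 3 n) → ℝ := edgeP ρ ζ 0
  set J : ℕ → ℝ := fun i => ((h ^ i) ^ 330)⁻¹ with hJ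
  have J0 : ∀ i, 0 < J i := fun i => by positivity
  set F : ℕ → ℝ := fun i => if i = 0 then 0 else 1 - Real.exp (-(J i / ζ)) with hF
  have F0 : ∀ i, 0 ≤ F i ∧ F i < 1 ∧ F i ≤ J i / ζ := fun i => by
    have := J0 i
    simp only [hF]
    split_ifs
    · exact ⟨le_rfl, one_pos, by positivity⟩
    · exact ⟨sub_nonneg.2 (Real.exp_le_one_iff.2 (neg_nonpos.2 (by positivity))),
        sub_lt_self _ (Real.exp_pos _), one_sub_exp_le _⟩
  have hpF : ∀ x y, p s(x, y) = F (lev (x - y)) := by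
    intro x y
    simp only [p, edgeP, Sym2.lift_mk, kap, hF, lev_eq_zero, hnorm, zero_mul, add_zero]
    split_ifs with h1
    · simp [hρ0]
    · rw [Nat.cast_ofNat, hρ, max_eq_left (by positivity)]
  set b : ℝ := 3 ^ d with hbd
  have b3 : 3 ≤ b := le_self_pow₀ (by norm_num) (by omega)
  set N : ℕ → ℝ := fun i => (b - 1) * b ^ (i - 1) with hN
  have N0 : ∀ i, 0 ≤ N i := fun i => mul_nonneg (by linarith) (by positivity)
  have N1 : ∀ i ∈ Icc 1 n, N i ≤ (h ^ i) ^ 360 ∧ 2 / 3 * (h ^ i) ^ 360 ≤ N i := fun i hi => by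
    have e : (h ^ i) ^ 360 = b * b ^ (i - 1) := by
      rw [← pow_mul, mul_comm, pow_mul, hb, ← pow_succ', Nat.sub_add_cancel (mem_Icc.1 hi).1]
    have : 0 ≤ b ^ (i - 1) := by positivity
    rw [e]
    simp only [hN]
    constructor <;> nlinarith
  have hsum : ∀ (x : Box d 3 n) (g : ℕ → ℝ),
      ∑ y, g (lev (x - y)) = g 0 + ∑ i ∈ Icc 1 n, N i * g i := fun x g => by
    refine ((Equiv.subLeft x).sum_comp fun z => g (lev z)).trans ?_
    rw [sum_lev, Nat.cast_ofNat]
  set H := h ^ n with hHn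
  have H0 : 0 < H := by linarith
  have H1 : 1 ≤ H := by linarith
  have hV : (Fintype.card (Box d 3 n) : ℝ) = H ^ 360 := by
    simp only [Fintype.card_fun, ZMod.card, Fintype.card_fin]
    push_cast
    rw [hHn, ← pow_mul h, mul_comm n, pow_mul, hb]
  have hhi : ∀ i ∈ Icc 1 n, 1 ≤ h ^ i ∧ h ^ i ≤ H := fun i hi =>
    ⟨one_le_pow₀ hh.le, pow_le_pow_right₀ hh.le (mem_Icc.1 hi).2⟩
  have hrow : ∑ i ∈ Icc 1 n, N i * F i = 1 := by
    have a1 := hsum 0 fun _ => 1
    rw [sum_const, card_univ, nsmul_eq_mul, hV] at a1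
    have a2 : ∑ i ∈ Icc 1 n, N i * F i =
        ∑ i ∈ Icc 1 n, N i * 1 - (b - 1) * ∑ i ∈ Icc 1 n, ((3 : ℕ) : ℝ) ^ ((i - 1) * d) *
          Real.exp (-(ζ⁻¹ * ρ (((3 : ℕ) : ℝ) ^ i))) := by
      rw [mul_sum, ← sum_sub_distrib]
      refine sum_congr rfl fun i hi => ?_
      have : i ≠ 0 := by have := (mem_Icc.1 hi).1; omega
      simp only [hF, hN, this, if_false, Nat.cast_ofNat, hρ, pow_mul', ← hbd, inv_mul_eq_div]
      ring
    rw [Nat.cast_ofNat] at hζ
    rw [a2, Nat.cast_ofNat, hζ, pow_mul', ← hbd, ← hb, ← pow_mul, mul_comm 360, pow_mul]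
    linarith
  have hmem : n ∈ Icc 1 n := mem_Icc.2 ⟨hn, le_rfl⟩
  have z1 : ζ ≤ n * H ^ 30 := by
    have : ∑ i ∈ Icc 1 n, N i * F i ≤ ∑ i ∈ Icc 1 n, H ^ 30 / ζ := sum_le_sum fun i hi => by
      refine (mul_le_mul (N1 i hi).1 (F0 i).2.2 (F0 i).1 (by positivity)).trans ?_
      rw [← mul_div_assoc]
      refine div_le_div_of_nonneg_right (le_trans (le_of_eq ?_)
        (pow_le_pow_left₀ (by positivity) (hhi i hi).2 30)) hζ0.le
      simp only [hJ]
      field_simp
    rw [hrow, sum_const, Nat.card_Icc, nsmul_eq_mul, Nat.add_sub_cancel, ← mul_div_assoc,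
      le_div_iff₀ hζ0, one_mul] at this
    exact this
  have Fn : F n = 1 - Real.exp (-(J n / ζ)) := if_neg (by omega)
  have F1 : F 1 = 1 - Real.exp (-(J 1 / ζ)) := if_neg (by omega)
  have t1 : F n ≤ 2 / H ^ 360 := by
    have a1 := single_le_sum (f := fun i => N i * F i) (fun i _ => mul_nonneg (N0 i) (F0 i).1) hmem
    have a2 := mul_le_mul_of_nonneg_right (N1 n hmem).2 (F0 n).1
    rw [le_div_iff₀ (by positivity)]
    simp only [hrow] at a1
    linarith
  have p30 : 100 ≤ H ^ 30 := hH.trans (le_self_pow₀ H1 (by norm_num))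
  have p360 : 100 ≤ H ^ 360 := hH.trans (le_self_pow₀ H1 (by norm_num))
  have t2 : J n / ζ ≤ 4 / H ^ 360 := by
    have := le_two_mul_of (x := J n / ζ) (by
      rw [← Fn]
      refine t1.trans ?_
      rw [div_le_iff₀ (by positivity)]; linarith) (div_pos (J0 n) hζ0).le
    rw [← Fn] at this
    refine this.trans ((mul_le_mul_of_nonneg_left t1 zero_le_two).trans (le_of_eq (by ring)))
  have z2 : H ^ 30 / 4 ≤ ζ := by
    rw [div_le_div_iff₀ hζ0 (by positivity)] at t2
    have : J n * H ^ 360 = H ^ 30 := by simp only [hJ, ← hHn]; field_simp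
    linarith
  have t3 : 1 / (3 * n) ≤ N n * F n := by
    have a1 := half_le_one_sub_exp (div_pos (J0 n) hζ0).le (t2.trans (by
      rw [div_le_one (by positivity)]; linarith))
    rw [← Fn] at a1
    refine le_trans ?_ (mul_le_mul (N1 n hmem).2 a1 (by have := J0 n; positivity) (N0 n))
    have : 2 / 3 * (h ^ n) ^ 360 * (J n / ζ / 2) = H ^ 30 / (3 * ζ) := by
      simp only [hJ, ← hHn]; field_simp
    rw [this, div_le_div_iff₀ (by positivity) (by positivity)]
    linarith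
  have hp : ∀ e, 0 ≤ p e ∧ p e ≤ 1 := fun e => by
    induction e using Sym2.ind with
    | _ x y => rw [hpF]; exact ⟨(F0 _).1, (F0 _).2.1.le⟩
  have F00 : F 0 = 0 := if_pos rfl
  have hdiag : ∀ x, p s(x, x) = 0 := fun x => by rw [hpF, sub_self, (lev_eq_zero _).2 rfl, F00]
  have ker : Ker p (fun x y => lev (x - y) = n) (1 / (3 * n)) (4 / H ^ 29) (2 / H ^ 360) := by
    refine ⟨hp, hdiag, fun x => ?_, fun x => ?_, fun x y hxy => ?_, fun x => ?_, by positivity,
      by positivity, by positivity⟩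
    · simp only [hpF]
      rw [hsum x F, hrow, F00, zero_add]
    · simp only [hpF, sum_filter]
      rw [hsum x fun i => if ¬ i = n then F i else 0]
      simp only [F00, ite_self, zero_add]
      rw [← add_sum_erase _ _ hmem] at hrow ⊢
      rw [sum_congr rfl fun i hi => by rw [if_pos (ne_of_mem_erase hi)]]
      simp only [not_true, if_false, mul_zero]
      linarith
    · rw [hpF, hxy]; exact t1
    · simp only [hpF]
      rw [hsum x fun i => F i ^ 2, F00, zero_pow two_ne_zero, zero_add]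
      have : ∑ i ∈ Icc 1 n, N i * F i ^ 2 ≤ ∑ i ∈ Icc 1 n, 16 / H ^ 60 := sum_le_sum fun i hi => by
        refine (mul_le_mul (N1 i hi).1 (pow_le_pow_left₀ (F0 i).1 (F0 i).2.2 2) (sq_nonneg _)
          (by positivity)).trans ?_
        have e : (h ^ i) ^ 360 * (J i / ζ) ^ 2 = 1 / ((h ^ i) ^ 300 * ζ ^ 2) := by
          simp only [hJ]; field_simp
        rw [e, div_le_div_iff₀ (by positivity) (by positivity)]
        have a1 := pow_le_pow_left₀ (by positivity) z2 2
        have a2 := le_mul_of_one_le_left (sq_nonneg ζ) (one_le_pow₀ (n := 300) (hhi i hi).1)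
        have a3 : (H ^ 30 / 4) ^ 2 = H ^ 60 / 16 := by ring
        linarith
      rw [sum_const, Nat.card_Icc, nsmul_eq_mul, Nat.add_sub_cancel] at this
      refine this.trans ((mul_le_mul_of_nonneg_right (hnH.trans (le_self_pow₀ H1 two_ne_zero))
        (by positivity)).trans (le_of_eq ?_))
      field_simp
      norm_num
  obtain ⟨m, m1, m2⟩ : ∃ m : ℕ, H ^ 50 ≤ m ∧ (m : ℝ) ≤ 2 * H ^ 50 := ⟨⌈H ^ 50⌉₊, Nat.le_ceil _,
    (Nat.ceil_lt_add_one (by positivity)).le.trans (by linarith [one_le_pow₀ (n := 50) H1])⟩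
  have m0 : (1 : ℝ) ≤ m := (one_le_pow₀ H1).trans m1
  have pw : ∀ (a : ℝ) (i j k : ℕ), a ≤ 100 ^ k → i + k ≤ j → a * H ^ i ≤ H ^ j := by
    intro a i j k ha hk
    refine le_trans ?_ (pow_le_pow_right₀ H1 hk)
    rw [pow_add, mul_comm]
    exact mul_le_mul_of_nonneg_left (ha.trans (pow_le_pow_left₀ (by norm_num) hH k))
      (by positivity)
  have big := ker.big (by rw [div_le_one (by positivity)]; linarith) (by
      rw [div_pow, div_le_div_iff₀ (by positivity) (by positivity), ← pow_mul]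
      have := pw 192 0 58 2 (by norm_num) (by norm_num)
      norm_num at this ⊢
      exact this) m (m ^ 2) (by exact_mod_cast m0) (by
      rw [hV, show H ^ 360 = (H ^ 180) ^ 2 by ring, Real.sqrt_sq (by positivity)]
      have a1 : 2 / (H ^ 180) ^ 2 * (m ^ 2 : ℕ) * H ^ 180 ≤ 1 / H ^ 29 := by
        push_cast
        refine (mul_le_mul_of_nonneg_right (mul_le_mul_of_nonneg_left
          (pow_le_pow_left₀ (by positivity) m2 2) (by positivity)) (by positivity)).trans ?_
        rw [show 2 / (H ^ 180) ^ 2 * (2 * H ^ 50) ^ 2 * H ^ 180 = 8 / H ^ 80 by field_simp; norm_num,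
          div_le_div_iff₀ (by positivity) (by positivity), one_mul]
        exact pw 8 29 80 1 (by norm_num) (by norm_num)
      have a2 : (4 / H ^ 29 + 2 / (H ^ 180) ^ 2 * (m ^ 2 : ℕ) * H ^ 180) / (1 / (3 * n)) ≤
          15 / H ^ 28 := by
        rw [div_div_eq_mul_div, div_one]
        refine (mul_le_mul (add_le_add le_rfl a1) (mul_le_mul_of_nonneg_left hnH zero_le_three)
          (by positivity) (by positivity)).trans (le_of_eq ?_)
        field_simp
        norm_num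
      refine (mul_le_mul (mul_le_mul_of_nonneg_left m2 (by norm_num)) (mul_le_mul_of_nonneg_left
        (pow_le_pow_left₀ (by positivity) a2 2) zero_le_three) (by positivity)
        (by positivity)).trans ?_
      rw [show 48 * (2 * H ^ 50) * (3 * (15 / H ^ 28) ^ 2) = 64800 / H ^ 6 by field_simp; norm_num,
        div_le_one (by positivity)]
      simpa using pw 64800 0 6 3 (by norm_num) (by norm_num)) (by
      have : ((9 * (m ^ 2 * m ^ 2) * (m ^ 2 + 1) : ℕ) : ℝ) ≤ Fintype.card (Box d 3 n) := by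
        rw [hV]
        push_cast
        have a1 : (m : ℝ) ^ 2 + 1 ≤ 2 * m ^ 2 := by linarith [one_le_pow₀ (n := 2) m0]
        refine (mul_le_mul_of_nonneg_left a1 (by positivity)).trans ?_
        rw [show 9 * ((m : ℝ) ^ 2 * m ^ 2) * (2 * m ^ 2) = 18 * m ^ 6 by ring]
        refine (mul_le_mul_of_nonneg_left (pow_le_pow_left₀ (by positivity) m2 6)
          (by norm_num)).trans ?_
        rw [show 18 * (2 * H ^ 50) ^ 6 = 1152 * H ^ 300 by ring]
        exact pw _ _ _ 2 (by norm_num) (by norm_num)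
      exact_mod_cast this)
  let i0 : Fin n := ⟨0, hn⟩
  let j0 : Fin d := ⟨0, hd⟩
  let e0 : Box d 3 n := Pi.single i0 (Pi.single j0 1)
  have he0 : e0 i0 j0 = 1 := by simp [e0]
  have hlev : ∀ c : ZMod 3, c ≠ 0 → lev (c • e0) = 1 := fun c hc => by
    have a1 : lev (c • e0) ≤ 1 := (lev_le_iff _ _).2 fun j hj => by
      have : j ≠ i0 := by rintro rfl; simp [i0] at hj
      simp [e0, this]
    have a2 : lev (c • e0) ≠ 0 := fun h' => hc (by
      simpa [he0] using congrFun (congrFun ((lev_eq_zero _).1 h') i0) j0)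
    omega
  have key := prob_ge (I := {z : Box d 3 n // z i0 j0 = 0}) hp hdiag
    (fun y => ⟨y - (y i0 j0) • e0, by simp [he0]⟩)
    (fun z (j : ZMod 3) => z.1 + j • e0) (fun z j => Subtype.ext (by simp [he0, z.2]))
    (fun z (j k : ZMod 3) hjk => show j = k by simpa [he0] using congrFun (congrFun hjk i0) j0)
    (fun y => ⟨y i0 j0, by simp⟩) (F0 1).2.1
    (fun z (j k : ZMod 3) hjk => by
      rw [hpF, add_sub_add_left_eq_sub, ← sub_smul, hlev _ (sub_ne_zero.2 hjk)])
    (m ^ 2) (m ^ 2 / 3) (Nat.mul_div_le _ _)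
  refine le_trans (sub_le_sub (sub_le_sub_left (big.trans ?_) _) ?_) key
  · refine (pow_le_pow_left₀ ?_ (Real.one_sub_le_exp_neg _) _).trans ?_
    · rw [sub_nonneg, div_le_one (by positivity)]; linarith
    · rw [← Real.exp_nat_mul, Real.exp_le_exp]
      push_cast
      rw [show (m : ℝ) ^ 2 * -(1 / (20 * m)) = -(m / 20) by field_simp]
      have := pw 20 1 50 1 (by norm_num) (by norm_num)
      rw [pow_one] at this
      linarith
  · rw [hV]
    refine mul_le_mul_of_nonneg_left ((pow_le_pow_left₀ (sub_nonneg.2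
      (pow_le_one₀ (F0 1).1 (F0 1).2.1.le)) (Real.one_sub_le_exp_neg _) _).trans ?_)
      (by positivity)
    rw [← Real.exp_nat_mul, Real.exp_le_exp, mul_neg, neg_le_neg_iff]
    have a1 : J 1 ≤ 1 := inv_le_one_of_one_le₀ (one_le_pow₀ (one_le_pow₀ hh.le))
    have a2 := half_le_one_sub_exp (div_pos (J0 1) hζ0).le (by rw [div_le_one hζ0]; linarith)
    rw [← F1] at a2
    have a3 : 2 / H ≤ J 1 := by
      simp only [hJ, pow_one]
      rw [← one_div, div_le_div_iff₀ H0 (by positivity)]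
      have := pow_le_pow_right₀ hh.le (show 330 ≤ 360 by norm_num)
      linarith
    have a4 : 1 / H ^ 32 ≤ F 1 := by
      refine le_trans ?_ a2
      rw [le_div_iff₀ two_pos, le_div_iff₀ hζ0]
      refine le_trans ?_ a3
      refine (mul_le_mul_of_nonneg_left (z1.trans (mul_le_mul_of_nonneg_right hnH
        (by positivity))) (by positivity)).trans (le_of_eq ?_)
      field_simp
    have a5 : H ^ 97 ≤ ((m ^ 2 / 3 : ℕ) : ℝ) := by
      have c1 : ((m ^ 2 : ℕ) : ℝ) ≤ (3 * (m ^ 2 / 3) + 3 : ℕ) := by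
        exact_mod_cast (by omega : m ^ 2 ≤ 3 * (m ^ 2 / 3) + 3)
      have c2 := pow_le_pow_left₀ (by positivity) m1 2
      have c3 := pw 6 97 (50 * 2) 1 (by norm_num) (by norm_num)
      have c4 := one_le_pow₀ (n := 97) H1
      rw [pow_mul] at c3
      push_cast at c1
      linarith
    refine le_trans (le_of_eq ?_) (mul_le_mul a5 (pow_le_pow_left₀ (by positivity) a4 3)
      (by positivity) (by positivity))
    field_simp

end Pool.Agent.H98.HP
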