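import Mathlib

namespace Pool.Agent.H98.Hyp

open Finset

/-- Lower bound: sweeping a hyperplane. -/
lemma sweep {V : Type*} [Fintype V] [DecidableEq V] [Nonempty V] (x : V → ℝ)
    (E : Finset (Finset V)) (q : ℕ) (hE : ∀ e ∈ E, e.card = q + 1) (s : ℕ) :
    ∃ v : V, (s + 1) * E.card ≤ Fintype.card V *
      (E.filter fun e => ∃ u ∈ e, ∃ w ∈ e, x u ≤ x v ∧ x v ≤ x w).card
        + (s + 1) * (Fintype.card V * s ^ q) := by
  classical
  set I : Finset V → Finset V := fun e => univ.filter fun v => ∃ u ∈ e, ∃ w ∈ e,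
    x u ≤ x v ∧ x v ≤ x w with hI
  set M : V → Finset V := fun u => univ.filter fun v => x u ≤ x v ∧
    (univ.filter fun z => x u ≤ x z ∧ x z ≤ x v).card ≤ s with hM
  have cM : ∀ u, (M u).card ≤ s := by
    intro u
    rcases (M u).eq_empty_or_nonempty with e | ne
    · rw [e]; simp
    · obtain ⟨v, hv, mv⟩ := exists_max_image (M u) x ne
      refine le_trans (card_le_card ?_) (mem_filter.mp hv).2.2
      intro z hz
      exact mem_filter.mpr ⟨mem_univ _, (mem_filter.mp hz).2.1, mv z hz⟩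
  have short : (E.filter fun e => (I e).card ≤ s).card ≤ Fintype.card V * s ^ q := by
    have sub : (E.filter fun e => (I e).card ≤ s) ⊆
        univ.biUnion fun u => (powersetCard q (M u)).image (insert u) := by
      intro e he
      obtain ⟨h1, h2⟩ := mem_filter.mp he
      have c := hE e h1
      obtain ⟨u, hu, mu⟩ := exists_min_image e x (card_pos.mp (by omega))
      refine mem_biUnion.mpr ⟨u, mem_univ _, mem_image.mpr ⟨e.erase u, ?_, insert_erase hu⟩⟩
      refine mem_powersetCard.mpr ⟨fun v hv => ?_, by rw [card_erase_of_mem hu]; omega⟩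
      have hv' := mem_of_mem_erase hv
      refine mem_filter.mpr ⟨mem_univ _, mu v hv', le_trans (card_le_card ?_) h2⟩
      intro z hz
      exact mem_filter.mpr ⟨mem_univ _, u, hu, v, hv', (mem_filter.mp hz).2⟩
    refine (card_le_card sub).trans (card_biUnion_le.trans ?_)
    rw [← card_univ, ← smul_eq_mul, ← sum_const]
    refine sum_le_sum fun u _ => card_image_le.trans ?_
    rw [card_powersetCard]
    exact (Nat.choose_le_pow _ _).trans (Nat.pow_le_pow_left (cM u) q)
  have dc : ∑ e ∈ E, (I e).card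
      = ∑ v, (E.filter fun e => ∃ u ∈ e, ∃ w ∈ e, x u ≤ x v ∧ x v ≤ x w).card := by
    simp only [hI, card_filter]
    exact sum_comm
  have lo : (s + 1) * (E.filter fun e => ¬ (I e).card ≤ s).card ≤ ∑ e ∈ E, (I e).card := by
    refine le_trans ?_ (sum_le_sum_of_subset (filter_subset (fun e => ¬ (I e).card ≤ s) E))
    rw [mul_comm, ← smul_eq_mul, ← sum_const]
    exact sum_le_sum fun e he => by have := (mem_filter.mp he).2; omega
  obtain ⟨v, _, mv⟩ := exists_max_image univ
    (fun v => (E.filter fun e => ∃ u ∈ e, ∃ w ∈ e, x u ≤ x v ∧ x v ≤ x w).card) univ_nonempty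
  refine ⟨v, ?_⟩
  have up := sum_le_sum mv
  rw [sum_const, card_univ, smul_eq_mul] at up
  have sp := card_filter_add_card_filter_not (s := E) (fun e => (I e).card ≤ s)
  have := Nat.mul_le_mul_left (s + 1) short
  rw [← sp]
  nlinarith

/-- Sets of r indices of span at most s. -/
def fam (n r s : ℕ) : Finset (Finset (Fin n)) :=
  (powersetCard r univ).filter fun e => ∀ a ∈ e, ∀ b ∈ e, (a : ℕ) ≤ b + s

lemma fam_mono (n r : ℕ) {s t : ℕ} (h : s ≤ t) : fam n r s ⊆ fam n r t := by
  intro e he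
  obtain ⟨h1, h2⟩ := mem_filter.mp he
  exact mem_filter.mpr ⟨h1, fun a ha b hb => by have := h2 a ha b hb; omega⟩

lemma fam_top (n r : ℕ) : (fam n r n).card = n.choose r := by
  unfold fam
  rw [filter_true_of_mem fun e _ a _ b _ => by have := a.2; omega, card_powersetCard, card_univ,
    Fintype.card_fin]

lemma fam_card (n q s : ℕ) : (n - s) * s.choose q ≤ (fam n (q + 1) s).card := by
  classical
  set W : Fin n → Finset (Fin n) := fun u => univ.filter fun z => (u : ℕ) < z ∧ (z : ℕ) ≤ u + s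
    with hW
  set U : Finset (Fin n) := univ.filter fun u => (u : ℕ) + s < n with hU
  have cU : n - s ≤ U.card := by
    rw [← card_range (n - s)]
    refine card_le_card_of_surjOn (fun u : Fin n => (u : ℕ)) fun i hi => ?_
    have : i < n - s := mem_range.mp (mem_coe.mp hi)
    exact ⟨⟨i, by omega⟩, mem_coe.mpr (mem_filter.mpr ⟨mem_univ _, by show i + s < n; omega⟩), rfl⟩
  have cW : ∀ u ∈ U, s ≤ (W u).card := by
    intro u hu
    have hu' := (mem_filter.mp hu).2
    conv_lhs => rw [← card_range s]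
    refine card_le_card_of_surjOn (fun z : Fin n => (z : ℕ) - u - 1) fun i hi => ?_
    have : i < s := mem_range.mp (mem_coe.mp hi)
    refine ⟨⟨u + 1 + i, by omega⟩, mem_coe.mpr (mem_filter.mpr ⟨mem_univ _, ?_, ?_⟩), ?_⟩
    · show (u : ℕ) < u + 1 + i
      omega
    · show (u : ℕ) + 1 + i ≤ u + s
      omega
    · show (u : ℕ) + 1 + i - u - 1 = i
      omega
  have nW : ∀ u, ∀ T ∈ powersetCard q (W u), u ∉ T := fun u T hT hu => by
    have := (mem_filter.mp ((mem_powersetCard.mp hT).1 hu)).2.1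
    omega
  have sub : (U.biUnion fun u => (powersetCard q (W u)).image (insert u)) ⊆ fam n (q + 1) s := by
    intro e he
    obtain ⟨u, _, h2⟩ := mem_biUnion.mp he
    obtain ⟨T, hT, rfl⟩ := mem_image.mp h2
    obtain ⟨t1, t2⟩ := mem_powersetCard.mp hT
    refine mem_filter.mpr ⟨mem_powersetCard.mpr ⟨subset_univ _, by
      rw [card_insert_of_notMem (nW u T hT), t2]⟩, fun a ha b hb => ?_⟩
    have k : ∀ z ∈ insert u T, (u : ℕ) ≤ z ∧ (z : ℕ) ≤ u + s := fun z hz => by
      rcases mem_insert.mp hz with rfl | hz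
      · omega
      · have := (mem_filter.mp (t1 hz)).2; omega
    have := k a ha
    have := k b hb
    omega
  refine le_trans ?_ (card_le_card sub)
  rw [card_biUnion]
  · refine le_trans (Nat.mul_le_mul_right _ cU) ?_
    rw [← smul_eq_mul, ← sum_const]
    refine sum_le_sum fun u hu => ?_
    rw [card_image_of_injOn, card_powersetCard]
    · exact Nat.choose_le_choose q (cW u hu)
    · intro T hT T' hT' e
      rw [← erase_insert (nW u T hT), e, erase_insert (nW u T' hT')]
  · intro u _ v _ huv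
    refine disjoint_left.mpr fun e h1 h2 => huv ?_
    obtain ⟨T, hT, rfl⟩ := mem_image.mp h1
    obtain ⟨T', hT', e⟩ := mem_image.mp h2
    have a : u ∈ insert v T' := e ▸ mem_insert_self u T
    have b : v ∈ insert u T := e ▸ mem_insert_self v T'
    rcases mem_insert.mp a with a | a
    · exact a
    rcases mem_insert.mp b with b | b
    · exact b.symm
    have a' := (mem_filter.mp ((mem_powersetCard.mp hT').1 a)).2.1
    have b' := (mem_filter.mp ((mem_powersetCard.mp hT).1 b)).2.1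
    omega

/-- The moment curve. -/
def mom (d n : ℕ) (i : Fin n) : Fin d → ℝ := fun j => ((i : ℕ) : ℝ) ^ ((j : ℕ) + 1)

lemma mom_poly (d : ℕ) (φ : (Fin d → ℝ) →ₗ[ℝ] ℝ) (hφ : φ ≠ 0) (c : ℝ) :
    ∃ P : Polynomial ℝ, P ≠ 0 ∧ P.natDegree ≤ d ∧
      ∀ (n : ℕ) (i : Fin n), P.eval ((i : ℕ) : ℝ) = φ (mom d n i) - c := by
  classical
  refine ⟨(∑ j : Fin d, Polynomial.monomial ((j : ℕ) + 1) (φ fun k => if j = k then 1 else 0))
    - Polynomial.C c, ?_, ?_, ?_⟩
  · intro h
    apply hφ
    have z : ∀ j : Fin d, (φ fun k => if j = k then 1 else 0) = 0 := by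
      intro j
      have := congrArg (fun P => Polynomial.coeff P ((j : ℕ) + 1)) h
      simp only [Polynomial.coeff_sub, Polynomial.finset_sum_coeff, Polynomial.coeff_monomial,
        Polynomial.coeff_C_succ, Polynomial.coeff_zero, sub_zero] at this
      rw [sum_eq_single j (fun b _ hb => if_neg fun e => hb (Fin.ext (by omega)))
        (by simp), if_pos rfl] at this
      exact this
    refine LinearMap.ext fun x => ?_
    rw [LinearMap.pi_apply_eq_sum_univ φ]
    simp [z]
  · refine (Polynomial.natDegree_sub_le _ _).trans (max_le ?_ (by simp))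
    refine Polynomial.natDegree_sum_le_of_forall_le _ _ fun j _ => ?_
    exact (Polynomial.natDegree_monomial_le _).trans (by have := j.2; omega)
  · intro n i
    rw [LinearMap.pi_apply_eq_sum_univ φ]
    simp only [Polynomial.eval_sub, Polynomial.eval_finset_sum, Polynomial.eval_monomial,
      Polynomial.eval_C, mom, smul_eq_mul]
    congr 1
    exact sum_congr rfl fun j _ => mul_comm _ _

lemma mom_inj (d n : ℕ) (hd : 1 ≤ d) : Function.Injective (mom d n) := by
  intro i j h
  have := congrFun h ⟨0, hd⟩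
  simp only [mom, zero_add, pow_one] at this
  exact Fin.ext (by exact_mod_cast this)

lemma mom_gp (d n : ℕ) (φ : (Fin d → ℝ) →ₗ[ℝ] ℝ) (hφ : φ ≠ 0) (c : ℝ) :
    Set.ncard {i : Fin n | φ (mom d n i) = c} ≤ d := by
  classical
  obtain ⟨P, p1, p2, p3⟩ := mom_poly d φ hφ c
  have a : Set.ncard {i : Fin n | φ (mom d n i) = c} ≤ P.roots.toFinset.card := by
    rw [← Set.ncard_coe_finset]
    refine Set.ncard_le_ncard_of_injOn (fun i : Fin n => ((i : ℕ) : ℝ)) (fun i hi => ?_)
      (fun i _ j _ e => Fin.ext (Nat.cast_injective (R := ℝ) e)) (Set.toFinite _)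
    simp only [mem_coe, Multiset.mem_toFinset, Polynomial.mem_roots p1, Polynomial.IsRoot.def]
    rw [p3 n i, hi, sub_self]
  exact a.trans ((Multiset.toFinset_card_le _).trans ((Polynomial.card_roots' P).trans p2))

lemma mom_hits (d n r s : ℕ) (φ : (Fin d → ℝ) →ₗ[ℝ] ℝ) (hφ : φ ≠ 0) (c : ℝ) :
    Set.ncard {e | e ∈ fam n r s ∧ ∃ x ∈ convexHull ℝ (mom d n '' (e : Set (Fin n))), φ x = c}
      ≤ d * (2 * s + 1) ^ r := by
  classical
  obtain ⟨P, p1, p2, p3⟩ := mom_poly d φ hφ c
  set W : ℝ → Finset (Fin n) := fun ρ => univ.filter fun z =>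
    ⌊ρ⌋₊ ≤ (z : ℕ) + s ∧ (z : ℕ) ≤ ⌊ρ⌋₊ + s with hW
  have cW : ∀ ρ, (W ρ).card ≤ 2 * s + 1 := by
    intro ρ
    rw [← card_range (2 * s + 1)]
    refine card_le_card_of_injOn (fun z : Fin n => (z : ℕ) + s - ⌊ρ⌋₊) (fun z hz => ?_) ?_
    · have := (mem_filter.mp (mem_coe.mp hz)).2
      exact mem_coe.mpr (mem_range.mpr (by show (z : ℕ) + s - ⌊ρ⌋₊ < 2 * s + 1; omega))
    · intro z hz w hw e
      have h1 := (mem_filter.mp (mem_coe.mp hz)).2
      have h2 := (mem_filter.mp (mem_coe.mp hw)).2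
      simp only at e
      exact Fin.ext (by omega)
  have sub : {e | e ∈ fam n r s ∧ ∃ x ∈ convexHull ℝ (mom d n '' (e : Set (Fin n))), φ x = c}
      ⊆ ↑(P.roots.toFinset.biUnion fun ρ => powersetCard r (W ρ)) := by
    rintro e ⟨he, x, hx, hc⟩
    obtain ⟨e1, e2⟩ := mem_filter.mp he
    have lo : ∃ u ∈ e, φ (mom d n u) ≤ c := by
      by_contra h
      push Not at h
      have : convexHull ℝ (mom d n '' (e : Set (Fin n))) ⊆ {w | c < φ w} :=
        convexHull_min (by rintro _ ⟨u, hu, rfl⟩; exact h u hu)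
          (convex_halfSpace_gt φ.isLinear c)
      exact absurd (this hx) (by simp [hc])
    have hi : ∃ u ∈ e, c ≤ φ (mom d n u) := by
      by_contra h
      push Not at h
      have : convexHull ℝ (mom d n '' (e : Set (Fin n))) ⊆ {w | φ w < c} :=
        convexHull_min (by rintro _ ⟨u, hu, rfl⟩; exact h u hu)
          (convex_halfSpace_lt φ.isLinear c)
      exact absurd (this hx) (by simp [hc])
    obtain ⟨u, hu, l1⟩ := lo
    obtain ⟨w, hw, l2⟩ := hi
    have iv := intermediate_value_uIcc (a := ((u : ℕ) : ℝ)) (b := ((w : ℕ) : ℝ))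
      (f := fun t => P.eval t) P.continuous.continuousOn
    obtain ⟨ρ, r1, r2⟩ := iv (show (0:ℝ) ∈ Set.uIcc _ _ from Set.mem_uIcc.mpr (Or.inl
      ⟨by rw [p3 n u]; linarith, by rw [p3 n w]; linarith⟩))
    have fl : ∃ a ∈ e, ∃ b ∈ e, (a : ℕ) ≤ ⌊ρ⌋₊ ∧ ⌊ρ⌋₊ ≤ (b : ℕ) := by
      rcases Set.mem_uIcc.mp r1 with ⟨k1, k2⟩ | ⟨k1, k2⟩
      · exact ⟨u, hu, w, hw, Nat.le_floor k1, Nat.floor_le_of_le k2⟩
      · exact ⟨w, hw, u, hu, Nat.le_floor k1, Nat.floor_le_of_le k2⟩
    obtain ⟨a, ha, b, hb, k1, k2⟩ := fl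
    refine mem_coe.mpr (mem_biUnion.mpr ⟨ρ, ?_, mem_powersetCard.mpr
      ⟨fun z hz => ?_, (mem_powersetCard.mp e1).2⟩⟩)
    · simp only [Multiset.mem_toFinset, Polynomial.mem_roots p1, Polynomial.IsRoot.def]
      exact r2
    · have k3 := e2 z hz a ha
      have k4 := e2 b hb z hz
      exact mem_filter.mpr ⟨mem_univ _, by omega, by omega⟩
  refine (Set.ncard_le_ncard sub (Set.toFinite _)).trans ?_
  rw [Set.ncard_coe_finset]
  refine card_biUnion_le.trans ?_
  refine le_trans (sum_le_card_nsmul _ _ ((2 * s + 1) ^ r) fun ρ _ => ?_) ?_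
  · rw [card_powersetCard]
    exact (Nat.choose_le_pow _ _).trans (Nat.pow_le_pow_left (cW ρ) r)
  · rw [smul_eq_mul]
    exact Nat.mul_le_mul_right _
      ((Multiset.toFinset_card_le _).trans ((Polynomial.card_roots' P).trans p2))

/-- Choice of the span in the construction. -/
lemma span_choice (n q m : ℕ) (hq : 1 ≤ q) (h1 : n ≤ m) (h0 : 1 ≤ m) (h2 : m ≤ n.choose (q + 1)) :
    ∃ s, m ≤ (fam n (q + 1) s).card ∧
      n * (2 * s + 1) ^ q ≤ (4 * q + 6) ^ q * (2 * q.factorial) * m := by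
  classical
  have ex : ∃ s, m ≤ (fam n (q + 1) s).card := ⟨n, by rw [fam_top]; exact h2⟩
  have sn : Nat.find ex ≤ n := Nat.find_min' ex (by rw [fam_top]; exact h2)
  refine ⟨Nat.find ex, Nat.find_spec ex, ?_⟩
  have fp : 1 ≤ q.factorial := Nat.factorial_pos q
  have triv : ∀ b, b ≤ 4 * q + 6 → n * b ^ q ≤ (4 * q + 6) ^ q * (2 * q.factorial) * m := by
    intro b hb
    have a := Nat.pow_le_pow_left hb q
    calc n * b ^ q ≤ m * (4 * q + 6) ^ q := Nat.mul_le_mul h1 a
      _ = (4 * q + 6) ^ q * 1 * m := by ring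
      _ ≤ _ := Nat.mul_le_mul_right _ (Nat.mul_le_mul_left _ (by omega))
  rcases Nat.eq_zero_or_pos (Nat.find ex) with z | z
  · rw [z]; exact triv _ (by omega)
  set s' := min (Nat.find ex - 1) (n / 2) with hs'
  have m1 : (fam n (q + 1) s').card < m := by
    have := Nat.find_min ex (m := Nat.find ex - 1) (by omega)
    have c := card_le_card (fam_mono n (q + 1) (min_le_left (Nat.find ex - 1) (n / 2)))
    rw [← hs'] at c
    omega
  have m2 := fam_card n q s'
  have m3 : n * s'.choose q ≤ 2 * m := by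
    have : n ≤ 2 * (n - s') := by omega
    have := Nat.mul_le_mul_right (s'.choose q) this
    nlinarith
  have m4 : (s' + 1 - q) ^ q ≤ q.factorial * s'.choose q := by
    have := Nat.pow_le_choose (α := ℚ) q s'
    rw [div_le_iff₀ (by positivity)] at this
    have b : (((s' + 1 - q) ^ q : ℕ) : ℚ) ≤ ((q.factorial * s'.choose q : ℕ) : ℚ) := by
      push_cast; linarith
    exact_mod_cast b
  by_cases c : s' + 1 - q = 0
  · exact triv _ (by omega)
  · have b : 2 * Nat.find ex + 1 ≤ (4 * q + 6) * (s' + 1 - q) := by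
      have : 2 * Nat.find ex + 1 ≤ 4 * (s' + 1 - q) + 4 * q := by omega
      have c' : 1 ≤ s' + 1 - q := by omega
      nlinarith
    calc n * (2 * Nat.find ex + 1) ^ q ≤ n * ((4 * q + 6) * (s' + 1 - q)) ^ q :=
          Nat.mul_le_mul_left _ (Nat.pow_le_pow_left b q)
      _ = (4 * q + 6) ^ q * (n * (s' + 1 - q) ^ q) := by rw [mul_pow]; ring
      _ ≤ (4 * q + 6) ^ q * (q.factorial * (n * s'.choose q)) := by
          refine Nat.mul_le_mul_left _ ?_
          calc n * (s' + 1 - q) ^ q ≤ n * (q.factorial * s'.choose q) := Nat.mul_le_mul_left _ m4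
            _ = _ := by ring
      _ ≤ (4 * q + 6) ^ q * (q.factorial * (2 * m)) :=
          Nat.mul_le_mul_left _ (Nat.mul_le_mul_left _ m3)
      _ = _ := by ring

end Pool.Agent.H98.Hyp
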