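import Mathlib

set_option autoImplicit false

namespace Pool.Agent.H98.Injunct

open Filter Topology

abbrev Cf := ℤ → Fin 3

def sh (s : ℤ) (x : Cf) : Cf := fun m => x (m + s)

lemma sh_sh (s t : ℤ) (x : Cf) : sh s (sh t x) = sh (s + t) x := by
  funext m; simp [sh, add_assoc]

lemma sh_zero (x : Cf) : sh 0 x = x := by funext m; simp [sh]

lemma cont_sh (s : ℤ) : Continuous (sh s) := by
  unfold sh; fun_prop

open Classical in
noncomputable def xx (n : ℕ) : Cf := fun i =>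
  if IsSquare (-i) then 1 else if IsSquare (i - (n + 1)) then 2 else 0

def X0 : Set Cf := {y | ∃ n s, y = sh s (xx n)}

def X : Set Cf := closure X0

lemma xx_eq1 (n : ℕ) (i : ℤ) : xx n i = 1 ↔ IsSquare (-i) := by
  unfold xx; split_ifs with h1 h2 <;> simp [h1]

lemma xx_eq2 (n : ℕ) (i : ℤ) : xx n i = 2 ↔ IsSquare (i - (n + 1)) := by
  unfold xx; split_ifs with h1 h2
  · have := h1.nonneg
    simp only [show ((1 : Fin 3) = 2) = False by decide, false_iff]
    intro h2; have := h2.nonneg; omega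
  · simp [h2]
  · simp [h2]

lemma sh_X (s : ℤ) (x : Cf) (hx : x ∈ X) : sh s x ∈ X := by
  refine map_mem_closure (cont_sh s) hx ?_
  rintro y ⟨N, t, rfl⟩
  exact ⟨N, s + t, sh_sh _ _ _⟩

lemma xx_X (n : ℕ) (s : ℤ) : sh s (xx n) ∈ X := subset_closure ⟨n, s, rfl⟩

lemma xx_X' (n : ℕ) : xx n ∈ X := by simpa [sh_zero] using xx_X n 0

lemma open2 (p q : ℤ) : IsOpen {y : Cf | y p = 1 ∧ y q = 2} :=
  ((isOpen_discrete {1}).preimage (continuous_apply (A := fun _ : ℤ => Fin 3) p)).inter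
    ((isOpen_discrete {2}).preimage (continuous_apply (A := fun _ : ℤ => Fin 3) q))

lemma F1 (y : Cf) (hy : y ∈ X) (p q : ℤ) (hp : y p = 1) (hq : y q = 2) : y ∈ X0 := by
  have h1 : y ∈ closure ({y : Cf | y p = 1 ∧ y q = 2} ∩ X0) := (open2 p q).inter_closure ⟨⟨hp, hq⟩, hy⟩
  have hf : ((fun a : ℕ × ℤ => sh a.2 (xx a.1)) ''
      (Set.Iic (q - p).toNat ×ˢ Set.Icc (-q) (-p))).Finite :=
    ((Set.finite_Iic _).prod (Set.finite_Icc _ _)).image _
  have : y ∈ ((fun a : ℕ × ℤ => sh a.2 (xx a.1)) ''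
      (Set.Iic (q - p).toNat ×ˢ Set.Icc (-q) (-p))) := by
    refine closure_minimal ?_ hf.isClosed h1
    rintro _ ⟨⟨h1, h2⟩, n, s, rfl⟩
    have a1 := ((xx_eq1 _ _).1 h1).nonneg
    have a2 := ((xx_eq2 _ _).1 h2).nonneg
    refine ⟨(n, s), ⟨?_, ?_, ?_⟩, rfl⟩
    · simp only [Set.mem_Iic]; omega
    · simp only; omega
    · simp only; omega
  obtain ⟨a, -, rfl⟩ := this
  exact ⟨a.1, a.2, rfl⟩

def ea (a : Fin 3) : Cf := fun i => if i = 0 then a else 0

lemma sq_ev (c : ℤ) : ∀ᶠ j : ℕ in atTop, (IsSquare ((j:ℤ) ^ 2 + c) ↔ c = 0) := by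
  filter_upwards [eventually_gt_atTop c.natAbs] with j hj
  constructor
  · rintro ⟨r, hr⟩
    by_contra hc
    have h1 : (j:ℤ) ^ 2 + c = |r| * |r| := by rw [abs_mul_abs_self]; exact hr
    have h0 := abs_nonneg r
    have hj1 : c < j := by omega
    have hj2 : -c < j := by omega
    rcases lt_trichotomy |r| j with h | h | h
    · have : |r| ≤ j - 1 := by omega
      nlinarith
    · rw [h] at h1; apply hc; nlinarith
    · have : (j:ℤ) + 1 ≤ |r| := by omega
      nlinarith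
  · rintro rfl; exact ⟨j, by ring⟩

lemma neg_ev (c : ℤ) : ∀ᶠ j : ℕ in atTop, ¬ IsSquare (-(j:ℤ) ^ 2 + c) := by
  filter_upwards [eventually_gt_atTop c.natAbs] with j hj h
  have := h.nonneg
  have hj1 : c < j := by omega
  have : (0:ℤ) ≤ j := by positivity
  nlinarith

lemma lim_a (n : ℕ) : Tendsto (fun j : ℕ => sh (-(j:ℤ) ^ 2) (xx n)) atTop (𝓝 (ea 1)) := by
  rw [tendsto_pi_nhds]
  intro i
  refine tendsto_const_nhds.congr' ?_
  filter_upwards [sq_ev (-i), neg_ev (i - (n + 1))] with j h1 h2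
  simp only [sh, xx, ea]
  have e1 : -(i + -(j:ℤ) ^ 2) = j ^ 2 + -i := by ring
  have e2 : i + -(j:ℤ) ^ 2 - (n + 1) = -(j:ℤ) ^ 2 + (i - (n + 1)) := by ring
  simp only [e1, e2, h1, h2, neg_eq_zero, if_false]

lemma lim_b (n : ℕ) : Tendsto (fun j : ℕ => sh ((j:ℤ) ^ 2 + (n + 1)) (xx n)) atTop (𝓝 (ea 2)) := by
  rw [tendsto_pi_nhds]
  intro i
  refine tendsto_const_nhds.congr' ?_
  filter_upwards [sq_ev i, neg_ev (-i - (n + 1))] with j h1 h2
  simp only [sh, xx, ea]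
  have e1 : -(i + ((j:ℤ) ^ 2 + (n + 1))) = -(j:ℤ) ^ 2 + (-i - (n + 1)) := by ring
  have e2 : i + ((j:ℤ) ^ 2 + (n + 1)) - (n + 1) = (j:ℤ) ^ 2 + i := by ring
  simp only [e1, e2, h1, h2, if_false]

lemma ea1_X : ea 1 ∈ X :=
  isClosed_closure.mem_of_tendsto (lim_a 0) (Eventually.of_forall fun _ => xx_X _ _)

lemma ea2_X : ea 2 ∈ X :=
  isClosed_closure.mem_of_tendsto (lim_b 0) (Eventually.of_forall fun _ => xx_X _ _)

lemma ea_inj (a : Fin 3) (ha : a ≠ 0) (s t : ℤ) (h : sh s (ea a) = sh t (ea a)) : s = t := by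
  have := congrFun h (-s)
  simp only [sh, ea, neg_add_cancel, if_true] at this
  split_ifs at this with h1
  · omega
  · exact absurd this ha

section
variable (f : Cf → Cf) (hm : Set.MapsTo f X X) (hc : ContinuousOn f X)
  (hs : ∀ x ∈ X, f (sh 1 x) = sh 1 (f x))
include hs

lemma f_sh (s : ℤ) (x : Cf) (hx : x ∈ X) : f (sh s x) = sh s (f x) := by
  induction s using Int.induction_on with
  | zero => simp [sh_zero]
  | succ i ih => rw [add_comm, ← sh_sh, hs _ (sh_X _ _ hx), ih, sh_sh]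
  | pred i ih =>
    have := hs _ (sh_X (-(i:ℤ) - 1) _ hx)
    rw [sh_sh, show (1 + (-(i:ℤ) - 1)) = -i by ring, ih] at this
    have h2 := congrArg (sh (-1)) this
    rw [sh_sh, sh_sh, neg_add_cancel, sh_zero] at h2
    rw [← h2]; congr 1; ring

include hc

lemma f_lim_a (n : ℕ) :
    Tendsto (fun j : ℕ => sh (-(j:ℤ) ^ 2) (f (xx n))) atTop (𝓝 (f (ea 1))) := by
  have := (hc _ ea1_X).tendsto.comp
    (tendsto_nhdsWithin_iff.2 ⟨lim_a n, Eventually.of_forall fun _ => xx_X _ _⟩)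
  refine this.congr fun j => ?_
  exact f_sh f hs _ _ (xx_X' n)

lemma f_lim_b (n : ℕ) :
    Tendsto (fun j : ℕ => sh ((j:ℤ) ^ 2 + (n + 1)) (f (xx n))) atTop (𝓝 (f (ea 2))) := by
  have := (hc _ ea2_X).tendsto.comp
    (tendsto_nhdsWithin_iff.2 ⟨lim_b n, Eventually.of_forall fun _ => xx_X _ _⟩)
  refine this.congr fun j => ?_
  exact f_sh f hs _ _ (xx_X' n)

lemma key (n m : ℕ) (s : ℤ) (h : f (xx n) = sh s (xx m)) :
    f (ea 1) = sh s (ea 1) ∧ f (ea 2) = sh (s + n - m) (ea 2) := by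
  constructor
  · refine tendsto_nhds_unique (f_lim_a f hc hs n) ?_
    refine (((cont_sh s).tendsto _).comp (lim_a m)).congr fun j => ?_
    simp only [Function.comp, h, sh_sh, add_comm]
  · refine tendsto_nhds_unique (f_lim_b f hc hs n) ?_
    refine (((cont_sh (s + n - m)).tendsto _).comp (lim_b m)).congr fun j => ?_
    simp only [Function.comp, h, sh_sh]
    congr 1; ring

include hm

theorem inj (hsurj : Set.SurjOn f X X) : Set.InjOn f X := by
  obtain ⟨y, hy, hfy⟩ := hsurj (xx_X' 0)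
  have h0 : ∀ᶠ z in 𝓝[X] y, f z ∈ {y : Cf | y 0 = 1 ∧ y 1 = 2} := by
    refine (hc y hy).eventually ((open2 0 1).mem_nhds ?_)
    rw [hfy]
    exact ⟨(xx_eq1 _ _).2 (by simp), (xx_eq2 _ _).2 (by simp)⟩
  have h1 : ∃ᶠ z in 𝓝[X] y, z ∈ X0 := by
    rw [frequently_nhdsWithin_iff]
    exact (mem_closure_iff_frequently.1 hy).mono fun z hz => ⟨hz, subset_closure hz⟩
  obtain ⟨_, ⟨n0, s0, rfl⟩, h2, h3⟩ := (h1.and_eventually h0).exists
  obtain ⟨m0, t0, h4⟩ := F1 _ (hm (xx_X n0 s0)) 0 1 h2 h3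
  rw [h4] at h2 h3
  have a1 := ((xx_eq1 _ _).1 h2).nonneg
  have a2 := ((xx_eq2 _ _).1 h3).nonneg
  have hm0 : m0 = 0 := by omega
  subst hm0
  rw [f_sh f hs _ _ (xx_X' _)] at h4
  have h5 := congrArg (sh (-s0)) h4
  rw [sh_sh, sh_sh, neg_add_cancel, sh_zero] at h5
  set k := -s0 + t0
  obtain ⟨b1, b2⟩ := key f hc hs _ _ _ h5
  have all : ∀ n : ℕ, ∃ m : ℕ, (m:ℤ) = n - n0 ∧ f (xx n) = sh k (xx m) := by
    intro n
    have c1 := tendsto_pi_nhds.1 (f_lim_a f hc hs n) (-k)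
    have c2 := tendsto_pi_nhds.1 (f_lim_b f hc hs n) (-(k + n0 - (0:ℕ)))
    rw [b1] at c1
    rw [b2] at c2
    simp only [sh, ea, neg_add_cancel, if_true, nhds_discrete, tendsto_pure] at c1 c2
    obtain ⟨j1, d1⟩ := c1.exists
    obtain ⟨j2, d2⟩ := c2.exists
    obtain ⟨m, t, h6⟩ := F1 _ (hm (xx_X' n)) _ _ d1 d2
    obtain ⟨e1, e2⟩ := key f hc hs _ _ _ h6
    have g1 := ea_inj 1 (by decide) _ _ (e1.symm.trans b1)
    have g2 := ea_inj 2 (by decide) _ _ (e2.symm.trans b2)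
    exact ⟨m, by omega, by rw [h6, g1]⟩
  have hn0 : n0 = 0 := by
    obtain ⟨m, hm, -⟩ := all 0
    omega
  have eq0 : Set.EqOn f (sh k) X0 := by
    rintro _ ⟨n, s, rfl⟩
    obtain ⟨m, hm, h⟩ := all n
    have : m = n := by omega
    rw [f_sh f hs _ _ (xx_X' _), h, this, sh_sh, sh_sh, add_comm]
  have eq1 : Set.EqOn f (sh k) X :=
    eq0.of_subset_closure hc (cont_sh k).continuousOn subset_closure subset_rfl
  intro a ha b hb hab
  rw [eq1 ha, eq1 hb] at hab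
  have := congrArg (sh (-k)) hab
  rwa [sh_sh, sh_sh, neg_add_cancel, sh_zero, sh_zero] at this

end

def tau (d : ℤ) (y : Cf) : Cf := fun i => if y i = 1 then 1 else if y (i + d) = 2 then 2 else 0

lemma cont_tau (d : ℤ) : Continuous (tau d) := by
  refine continuous_pi fun i => ?_
  exact (continuous_of_discreteTopology
    (f := fun a : Fin 3 × Fin 3 => if a.1 = 1 then (1 : Fin 3) else if a.2 = 2 then 2 else 0)).comp
    ((continuous_apply (A := fun _ : ℤ => Fin 3) i).prodMk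
      (continuous_apply (A := fun _ : ℤ => Fin 3) (i + d)))

lemma tau_sh (d s : ℤ) (y : Cf) : tau d (sh s y) = sh s (tau d y) := by
  funext i
  show (if y (i + s) = 1 then (1 : Fin 3) else if y (i + d + s) = 2 then 2 else 0) =
    if y (i + s) = 1 then 1 else if y (i + s + d) = 2 then 2 else 0
  rw [add_right_comm]

lemma tau_xx (d : ℤ) (n m : ℕ) (h : (m:ℤ) = n - d) : tau d (xx n) = xx m := by
  funext i
  simp only [tau, xx_eq1, xx_eq2]
  simp only [xx, h]
  rw [show i + d - (n + 1) = i - (n - d + 1) by ring]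

theorem not_surj : Set.MapsTo (tau (-1)) X X ∧ Set.InjOn (tau (-1)) X ∧
    ¬ Set.SurjOn (tau (-1)) X X := by
  refine ⟨fun x hx => map_mem_closure (cont_tau _) hx ?_, ?_, fun h => ?_⟩
  · rintro _ ⟨n, s, rfl⟩
    exact ⟨n + 1, s, by rw [tau_sh, tau_xx (-1) n (n+1) (by push_cast; ring)]⟩
  · have eq0 : Set.EqOn (tau 1 ∘ tau (-1)) id X0 := by
      rintro _ ⟨n, s, rfl⟩
      simp only [Function.comp, id]
      rw [tau_sh, tau_sh, tau_xx (-1) n (n+1) (by push_cast; ring),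
        tau_xx 1 (n+1) n (by push_cast; ring)]
    have eq1 : Set.EqOn (tau 1 ∘ tau (-1)) id X :=
      eq0.closure ((cont_tau _).comp (cont_tau _)) continuous_id
    intro a ha b hb hab
    have h1 := eq1 ha
    have h2 := eq1 hb
    simp only [Function.comp, id] at h1 h2
    rw [← h1, hab, h2]
  · obtain ⟨y, -, hy⟩ := h (xx_X' 0)
    have a1 : tau (-1) y 0 = 1 := by rw [hy]; exact (xx_eq1 _ _).2 (by simp)
    have a2 : tau (-1) y 1 = 2 := by rw [hy]; exact (xx_eq2 _ _).2 (by simp)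
    simp only [tau, add_neg_cancel] at a1 a2
    revert a1 a2
    generalize y 0 = a
    generalize y 1 = b
    generalize y (0 + -1) = c
    revert a b c; decide

end Pool.Agent.H98.Injunct
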