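import Mathlib

set_option autoImplicit false

namespace Pool.Agent.H98.InterpDefs

open MeasureTheory Filter

universe u

/-- `T` has exactly one invariant Borel probability measure. -/
def UniquelyErgodic {X : Type u} [MeasurableSpace X] (T : X → X) : Prop :=
  ∃! μ : ProbabilityMeasure X, (μ : Measure X).map T = μ

/-- `S` is a weak interpolation set of order `k` for uniquely ergodic systems. -/
def WeakInterpUE (k : ℕ) (S : Set ℕ) : Prop :=
  ∀ f : S → Fin k, ∃ (X : Type u) (_ : MetricSpace X) (_ : CompactSpace X)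
    (_ : MeasurableSpace X) (_ : BorelSpace X) (T : X → X) (x : X) (F : X → ℂ),
    Continuous T ∧ UniquelyErgodic T ∧ DenseRange (fun n : ℕ => T^[n] x) ∧ Continuous F ∧
      ∀ n : S, F (T^[n] x) = ((f n : ℕ) : ℂ)

/-- `S` has bounded gaps. -/
def Syndetic (S : Set ℕ) : Prop := ∃ L : ℕ, ∀ n : ℕ, 1 ≤ n → ∃ s ∈ S, n ≤ s ∧ s < n + L

/-- upper Banach density. -/
noncomputable def ubd (S : Set ℕ) : ℝ :=
  limsup (fun N : ℕ => ⨆ m : ℕ, ((S ∩ Set.Ioc m (m + N)).ncard : ℝ) / N) atTop

end Pool.Agent.H98.InterpDefs
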