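import Mathlib
import Pool.Agent.H98.Emp
import Pool.Agent.H98.InterpDefs

set_option autoImplicit false

namespace Pool.Agent.H98.Interp

open Filter Topology MeasureTheory Finset Pool.Agent.H98.Emp Pool.Agent.H98.InterpDefs
open scoped Classical

/-- every word `v` of a suitable length `N` meets every shift of some `g` on a window. -/
lemma kill (L : ℕ) (hL : 0 < L) : ∃ N : ℕ, ∀ v : ℕ → Bool, ∃ g : ℕ → Bool, ∀ s : ℕ,
    ∃ i, i + L ≤ N ∧ ∀ j < L, g (s + i + j) = v (i + j) := by
  obtain ⟨m, hm0, hm⟩ : ∃ m : ℕ, 0 < m ∧ (m * L) * (2 ^ L - 1) ^ m < (2 ^ L) ^ m := by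
    have h2 : (0 : ℝ) < 2 ^ L := by positivity
    have h1 : (1 : ℝ) ≤ 2 ^ L := one_le_pow₀ (by norm_num)
    have hr0 : (0 : ℝ) ≤ (2 ^ L - 1) / 2 ^ L := div_nonneg (by linarith) h2.le
    have hr1 : ((2 : ℝ) ^ L - 1) / 2 ^ L < 1 := by rw [div_lt_one h2]; linarith
    have ht := (tendsto_self_mul_const_pow_of_lt_one hr0 hr1).mul_const (L : ℝ)
    rw [zero_mul] at ht
    obtain ⟨m, hm1, hm2⟩ := ((ht.eventually (gt_mem_nhds one_pos)).and
      (eventually_gt_atTop 0)).exists
    refine ⟨m, hm2, ?_⟩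
    have h3 : ((m : ℝ) * L) * (2 ^ L - 1) ^ m < (2 ^ L) ^ m := by
      rw [div_pow, mul_assoc, mul_comm _ (L : ℝ), ← mul_assoc, ← mul_div_assoc,
        div_lt_one (by positivity)] at hm1
      exact hm1
    have h4 : ((2 ^ L - 1 : ℕ) : ℝ) = 2 ^ L - 1 := by
      rw [Nat.cast_sub (Nat.one_le_two_pow)]; push_cast; rfl
    rw [← h4] at h3
    exact_mod_cast h3
  refine ⟨m * L, fun v => ?_⟩
  haveI : NeZero (m * L) := ⟨(Nat.mul_pos hm0 hL).ne'⟩
  let B : ZMod (m * L) → Finset (ZMod (m * L) → Bool) := fun s => univ.filter fun g =>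
    ∀ i : Fin m, (fun j : Fin L => g (s + ((i * L + j : ℕ) : ZMod (m * L)))) ≠
      fun j : Fin L => v (i * L + j)
  have hB : ∀ s, (B s).card ≤ (2 ^ L - 1) ^ m := by
    intro s
    have hc : (Fintype.piFinset fun i : Fin m =>
        (univ : Finset (Fin L → Bool)).erase fun j : Fin L => v (i * L + j)).card
        = (2 ^ L - 1) ^ m := by
      simp [Fintype.card_piFinset, Finset.card_erase_of_mem]
    rw [← hc]
    refine Finset.card_le_card_of_injOn
      (fun g (i : Fin m) (j : Fin L) => g (s + ((i * L + j : ℕ) : ZMod (m * L)))) ?_ ?_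
    · intro g hg
      simp only [B, coe_filter, mem_univ, true_and, Set.mem_setOf_eq] at hg
      simp only [Finset.mem_coe, Fintype.mem_piFinset, mem_erase, mem_univ, and_true]
      exact hg
    · intro g _ g' _ h
      funext t
      have hlt := ZMod.val_lt (t - s)
      have hi : (t - s).val / L < m := by
        rw [Nat.div_lt_iff_lt_mul hL]; exact hlt
      have := congrFun (congrFun h ⟨_, hi⟩) ⟨(t - s).val % L, Nat.mod_lt _ hL⟩
      simp only [Nat.div_add_mod'] at this
      simpa using this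
  have hU : (univ.biUnion B).card < (univ : Finset (ZMod (m * L) → Bool)).card := by
    refine lt_of_le_of_lt (Finset.card_biUnion_le_card_mul _ _ _ fun s _ => hB s) ?_
    simp only [card_univ, ZMod.card, Fintype.card_fun, Fintype.card_bool]
    rw [mul_comm m L, pow_mul, mul_comm L m]
    exact hm
  obtain ⟨g, -, hg⟩ := Finset.exists_mem_notMem_of_card_lt_card hU
  refine ⟨fun n => g n, fun s => ?_⟩
  have : g ∉ B s := fun h => hg (mem_biUnion.2 ⟨_, mem_univ _, h⟩)
  simp only [B, mem_filter, mem_univ, true_and, not_forall, not_not] at this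
  obtain ⟨i, hi⟩ := this
  refine ⟨i * L, ?_, fun j hj => ?_⟩
  · have := Nat.mul_le_mul_right L (Nat.succ_le_of_lt i.2)
    rw [Nat.succ_mul] at this
    exact this
  · have := congrFun hi ⟨j, hj⟩
    simp only at this
    rw [← this]
    push_cast
    rw [add_assoc]

/-- gluing patterns on successive disjoint intervals. -/
lemma glue {α : Type*} (a b : ℕ → ℕ) (hab : ∀ j, a j ≤ b j) (h : ∀ j, b j ≤ a (j + 1))
    (g : ℕ → ℕ → α) : ∃ f : ℕ → α, ∀ j n, a j ≤ n → n < b j → f n = g j n := by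
  have hm : Monotone a := monotone_nat_of_le_succ fun j => (hab j).trans (h j)
  have hu : ∀ i j n, a i ≤ n → n < b i → a j ≤ n → n < b j → i = j := by
    intro i j n h1 h2 h3 h4
    by_contra hne
    rcases lt_or_gt_of_ne hne with hlt | hlt
    · have := (h i).trans (hm (Nat.succ_le_of_lt hlt)); omega
    · have := (h j).trans (hm (Nat.succ_le_of_lt hlt)); omega
  refine ⟨fun n => if hn : ∃ j, a j ≤ n ∧ n < b j then g hn.choose n else g 0 n,
    fun j n h1 h2 => ?_⟩
  have hn : ∃ j, a j ≤ n ∧ n < b j := ⟨j, h1, h2⟩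
  simp only [hn, dif_pos]
  rw [hu _ j n hn.choose_spec.1 hn.choose_spec.2 h1 h2]

/-- choosing successive disjoint intervals with prescribed properties. -/
lemma intervals (P : ℕ → ℕ → ℕ → Prop) (h : ∀ j M, ∃ a N, M ≤ a ∧ P j a N) :
    ∃ a N : ℕ → ℕ, (∀ j, a j + N j ≤ a (j + 1)) ∧ ∀ j, P j (a j) (N j) := by
  choose A B hA hP using h
  let s : ℕ → ℕ := fun j => Nat.rec 0 (fun j M => A j M + B j M) j
  refine ⟨fun j => A j (s j), fun j => B j (s j), fun j => hA (j + 1) (s (j + 1)),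
    fun j => hP j _⟩

/-- piecewise syndetic. -/
def PWS (S : Set ℕ) : Prop :=
  ∃ L : ℕ, ∀ R : ℕ, ∃ a : ℕ, ∀ n, a ≤ n → n < a + R → ∃ s ∈ S, n ≤ s ∧ s < n + L

theorem not_interp_of_pws {S : Set ℕ} (hS : PWS S) {k : ℕ} (hk : 2 ≤ k) :
    ¬ WeakInterpUE k S := by
  intro hW
  obtain ⟨L, hL⟩ := hS
  have hL0 : 0 < L := by
    obtain ⟨a, ha⟩ := hL 1
    obtain ⟨s, -, h1, h2⟩ := ha a le_rfl (by omega)
    omega
  obtain ⟨N, hN⟩ := kill L hL0
  obtain ⟨e, he⟩ := exists_surjective_nat (Fin N → Bool)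
  let ext : (Fin N → Bool) → ℕ → Bool := fun v n => if h : n < N then v ⟨n, h⟩ else false
  choose g hg using fun v : Fin N → Bool => hN (ext v)
  obtain ⟨a, R, haR, hP⟩ := intervals
    (fun j a R => R = j + N + L ∧ ∀ n, a ≤ n → n < a + R → ∃ s ∈ S, n ≤ s ∧ s < n + L)
    (fun j M => by
      obtain ⟨a, ha⟩ := hL (M + (j + N + L))
      exact ⟨a + M, _, by omega, rfl, fun n h1 h2 => ha n (by omega) (by omega)⟩)
  let bv : Bool → Fin k := fun b => if b then ⟨1, by omega⟩ else ⟨0, by omega⟩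
  obtain ⟨f, hf⟩ := glue a (fun j => a j + R j) (fun j => by omega) haR
    (fun j n => bv (g (e (Nat.unpair j).1) n))
  obtain ⟨X, _, _, _, _, T, x, F, hT, ⟨μ, hμ, hu⟩, -, hF, hFf⟩ := hW fun n => f n
  let C : (Fin N → Bool) → Set X := fun v =>
    ⋃ j : Fin N, {y | F (T^[j] y) = ((bv (v j) : ℕ) : ℂ)}
  have hCc : ∀ v, IsClosed (C v) := fun v => isClosed_iUnion_of_finite fun j =>
    isClosed_eq (hF.comp (hT.iterate j)) continuous_const
  have hC1 : ∀ v, (μ : Measure X) (C v)ᶜ = 0 := by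
    intro v
    obtain ⟨t, rfl⟩ := he v
    obtain ⟨ν, h1, h2⟩ := exists_inv_ge hT (hCc (e t)) 1 fun M => by
      refine ⟨Nat.pair t (M + 1) - 1, by have := Nat.right_le_pair t (M + 1); omega,
        T^[a (Nat.pair t (M + 1))] x, ?_⟩
      set j := Nat.pair t (M + 1) with hj
      have hj1 : j - 1 + 1 = j := by have := Nat.right_le_pair t (M + 1); omega
      rw [Finset.filter_true_of_mem, card_range]
      · simp
      · intro n hn
        rw [hj1, mem_range] at hn
        obtain ⟨i, hi1, hi2⟩ := hg (e t) (a j + n)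
        obtain ⟨s, hs, hs1, hs2⟩ := (hP j).2 (a j + n + i) (by omega)
          (by rw [(hP j).1]; omega)
        have hlt : s - (a j + n) < N := by omega
        refine Set.mem_iUnion.2 ⟨⟨s - (a j + n), hlt⟩, ?_⟩
        change F (T^[s - (a j + n)] (T^[n] (T^[a j] x))) = _
        rw [← Function.iterate_add_apply, ← Function.iterate_add_apply]
        have e1 : s - (a j + n) + n + a j = s := by omega
        rw [e1, hFf ⟨s, hs⟩]
        have e2 := hf j s (by omega) (by rw [(hP j).1]; omega)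
        simp only [hj, Nat.unpair_pair] at e2
        have e3 := hi2 (s - (a j + n + i)) (by omega)
        have e4 : a j + n + i + (s - (a j + n + i)) = s := by omega
        have e5 : i + (s - (a j + n + i)) = s - (a j + n) := by omega
        rw [e4, e5] at e3
        simp only [ext, hlt, dif_pos] at e3
        simp only [e2, e3]
    rw [hu ν h1] at h2
    rw [prob_compl_eq_zero_iff (hCc _).measurableSet]
    refine le_antisymm prob_le_one ?_
    have := (ENNReal.ofReal_le_iff_le_toReal (measure_ne_top (μ : Measure X) (C (e t)))).2 h2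
    simpa using this
  have hae : ∀ᵐ y ∂(μ : Measure X), ∀ v, y ∈ C v := ae_all_iff.2 fun v => hC1 v
  obtain ⟨y, hy⟩ := hae.exists
  obtain ⟨j, hj⟩ := Set.mem_iUnion.1 (hy fun j => decide (F (T^[j] y) = 0))
  simp only [Set.mem_setOf_eq] at hj
  by_cases h0 : F (T^[j] y) = 0
  · simp [h0, bv] at hj
  · simp [h0, bv] at hj

theorem not_interp_of_syndetic {S : Set ℕ} (hS : Syndetic S) : ¬ WeakInterpUE 2 S := by
  obtain ⟨L, hL⟩ := hS
  exact not_interp_of_pws ⟨L, fun R => ⟨1, fun n h _ => hL n h⟩⟩ le_rfl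

end Pool.Agent.H98.Interp
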