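import Mathlib
import Pool.Agent.H98.Interp

set_option autoImplicit false

namespace Pool.Agent.H98.Interp

open Filter Topology MeasureTheory Finset Pool.Agent.H98.Emp Pool.Agent.H98.InterpDefs
open scoped Classical

lemma ncard_eq (S : Set ℕ) (m N : ℕ) :
    (S ∩ Set.Ioc m (m + N)).ncard = ((range N).filter fun i => m + 1 + i ∈ S).card := by
  have : S ∩ Set.Ioc m (m + N) =
      (((range N).filter fun i => m + 1 + i ∈ S).image fun i => m + 1 + i : Finset ℕ) := by
    ext n
    simp only [Set.mem_inter_iff, Set.mem_Ioc, coe_image, coe_filter, mem_range, Set.mem_image,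
      Set.mem_setOf_eq]
    constructor
    · rintro ⟨h1, h2, h3⟩
      refine ⟨n - (m + 1), ⟨by omega, ?_⟩, by omega⟩
      have : m + 1 + (n - (m + 1)) = n := by omega
      rwa [this]
    · rintro ⟨i, ⟨h1, h2⟩, rfl⟩
      exact ⟨h2, by omega, by omega⟩
  rw [this, Set.ncard_coe_finset, Finset.card_image_of_injective]
  intro a b h
  simpa using h

lemma dense_intervals {S : Set ℕ} {δ : ℝ} (h : δ ≤ ubd S) {ε : ℝ} (hε : 0 < ε) (M : ℕ) :
    ∃ a N : ℕ, M ≤ a ∧ M ≤ N ∧
      (δ - ε) * N ≤ (((range N).filter fun i => a + i ∈ S).card : ℝ) := by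
  by_cases hδ : δ - ε ≤ 0
  · exact ⟨M, M, le_rfl, le_rfl, le_trans (mul_nonpos_of_nonpos_of_nonneg hδ (by positivity))
      (by positivity)⟩
  push Not at hδ
  have hlt : δ - ε / 2 < ubd S := by linarith
  have hfr := frequently_lt_of_lt_limsup (f := atTop)
    (u := fun N : ℕ => ⨆ m : ℕ, ((S ∩ Set.Ioc m (m + N)).ncard : ℝ) / N)
    (isCoboundedUnder_le_of_le atTop (x := 0) fun N => Real.iSup_nonneg fun m => by positivity) hlt
  obtain ⟨K, hK⟩ := exists_nat_gt (2 * M / ε)
  obtain ⟨N, hN1, hN2⟩ := (hfr.and_eventually (eventually_ge_atTop (K + 2 * M + 1))).exists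
  obtain ⟨m, hm⟩ := exists_lt_of_lt_ciSup hN1
  rw [ncard_eq, lt_div_iff₀ (by have : 0 < N := by omega
                                exact_mod_cast this)] at hm
  refine ⟨m + 1 + M, N - M, by omega, by omega, ?_⟩
  have h1 : ((range N).filter fun i => m + 1 + i ∈ S).card ≤
      M + ((range (N - M)).filter fun i => m + 1 + M + i ∈ S).card := by
    have : ((range N).filter fun i => m + 1 + i ∈ S) ⊆ range M ∪
        ((range (N - M)).filter fun i => m + 1 + M + i ∈ S).image fun i => M + i := by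
      intro i hi
      simp only [mem_filter, mem_range, mem_union, mem_image] at hi ⊢
      by_cases hiM : i < M
      · exact Or.inl hiM
      · refine Or.inr ⟨i - M, ⟨by omega, ?_⟩, by omega⟩
        have : m + 1 + M + (i - M) = m + 1 + i := by omega
        rw [this]; exact hi.2
    refine (card_le_card this).trans ((card_union_le _ _).trans ?_)
    rw [card_range]
    exact Nat.add_le_add_left card_image_le _
  have h2 : (((range N).filter fun i => m + 1 + i ∈ S).card : ℝ) ≤
      M + ((range (N - M)).filter fun i => m + 1 + M + i ∈ S).card := by exact_mod_cast h1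
  have h3 : ((N - M : ℕ) : ℝ) ≤ N := by exact_mod_cast Nat.sub_le N M
  have h4 : (K : ℝ) ≤ N := by exact_mod_cast (by omega : K ≤ N)
  rw [div_lt_iff₀ hε] at hK
  have h5 : (K : ℝ) * ε ≤ N * ε := by gcongr
  have h6 : (δ - ε) * ((N - M : ℕ) : ℝ) ≤ (δ - ε) * N := by gcongr
  nlinarith

/-- a set with few bad points in a long interval leaves a long free block. -/
lemma free_block (B : Finset ℕ) (R q : ℕ) (hR : 0 < R) (h : B.card < q) :
    ∃ t < q, ∀ i, t * R ≤ i → i < t * R + R → i ∉ B := by
  by_contra hcon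
  push Not at hcon
  have : range q ⊆ B.image fun i => i / R := by
    intro t ht
    obtain ⟨i, h1, h2, h3⟩ := hcon t (mem_range.1 ht)
    refine mem_image.2 ⟨i, h3, ?_⟩
    rw [Nat.div_eq_iff hR]
    omega
  have := (card_le_card this).trans card_image_le
  rw [card_range] at this
  omega

theorem pws_of_dense {S : Set ℕ} {k : ℕ} (hk : 2 ≤ k) (hW : WeakInterpUE k S)
    (hd : 1 / (k : ℝ) ≤ ubd S) : PWS S := by
  haveI : NeZero k := ⟨by omega⟩
  have hk0 : (0 : ℝ) < k := by exact_mod_cast (by omega : 0 < k)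
  obtain ⟨a, N, haN, hP⟩ := intervals
    (fun j a N => j ≤ N ∧ (1 / (k : ℝ) - 1 / ((j : ℝ) + 1)) * N ≤
      (((range N).filter fun i => a + i ∈ S).card : ℝ))
    (fun j M => by
      obtain ⟨a, N, h1, h2, h3⟩ := dense_intervals hd
        (show (0 : ℝ) < 1 / ((j : ℝ) + 1) by positivity) (M + j)
      exact ⟨a, N, by omega, by omega, h3⟩)
  obtain ⟨f, hf⟩ := glue a (fun j => a j + N j) (fun j => by omega) haN
    (fun j _ => (Fin.ofNat k j : Fin k))
  obtain ⟨X, _, _, _, _, T, x, F, hT, ⟨μ, hμ, hu⟩, -, hF, hFf⟩ := hW fun n => f n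
  have hval : ∀ j i, i < N j → a j + i ∈ S → F (T^[i] (T^[a j] x)) = ((j % k : ℕ) : ℂ) := by
    intro j i hi hs
    rw [← Function.iterate_add_apply, add_comm i, hFf ⟨_, hs⟩]
    simp only
    rw [hf j _ (by omega) (by omega)]
    rfl
  have hbig : ∀ (c : ℕ), c < k → ∀ (ε : ℝ), 0 < ε → ∀ M : ℕ, ∃ j, j % k = c ∧ M ≤ N j ∧
      (1 / (k : ℝ) - ε) * N j ≤ (((range (N j)).filter fun i => a j + i ∈ S).card : ℝ) := by
    intro c hc ε hε M
    obtain ⟨K, hK⟩ := exists_nat_one_div_lt hε
    have hle : K + M ≤ c + k * (K + M) := by nlinarith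
    refine ⟨c + k * (K + M), by rw [Nat.add_mul_mod_self_left, Nat.mod_eq_of_lt hc],
      le_trans (by omega) (hP _).1, le_trans ?_ (hP _).2⟩
    gcongr
    refine le_trans ?_ hK.le
    gcongr
    exact_mod_cast (by omega : K ≤ c + k * (K + M))
  let D : ℕ → Set X := fun c => {y | F y = (c : ℂ)}
  have hDc : ∀ c, IsClosed (D c) := fun c => isClosed_eq hF continuous_const
  have hD : ∀ c < k, 1 / (k : ℝ) ≤ (μ : Measure X).real (D c) := by
    intro c hc
    refine le_of_forall_pos_le_add fun ε hε => ?_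
    obtain ⟨M, hM⟩ := freq_le hT hu (hDc c) (half_pos hε)
    obtain ⟨j, hj1, hj2, hj3⟩ := hbig c hc (ε / 2) (half_pos hε) (M + 1)
    have h1 := hM (N j) (by omega) (T^[a j] x)
    have h2 : ((range (N j)).filter fun i => a j + i ∈ S).card ≤
        ((range (N j)).filter fun i => T^[i] (T^[a j] x) ∈ D c).card := by
      refine card_le_card fun i hi => ?_
      simp only [mem_filter, mem_range] at hi ⊢
      refine ⟨hi.1, ?_⟩
      have := hval j i hi.1 hi.2
      rw [hj1] at this
      exact this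
    have h3 : (((range (N j)).filter fun i => a j + i ∈ S).card : ℝ) ≤
        ((range (N j)).filter fun i => T^[i] (T^[a j] x) ∈ D c).card := by exact_mod_cast h2
    have h4 : (0 : ℝ) < N j := by exact_mod_cast (by omega : 0 < N j)
    have h5 := (hj3.trans h3).trans h1
    have h6 := le_of_mul_le_mul_right h5 h4
    linarith
  let C1 : Set X := {y | ‖F y‖ ≤ 1 / 2}
  let C2 : Set X := {y | 1 / 2 ≤ ‖F y‖}
  have hC1c : IsClosed C1 := isClosed_le hF.norm continuous_const
  have hC2c : IsClosed C2 := isClosed_le continuous_const hF.norm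
  have hC2 : (μ : Measure X).real C2 ≤ 1 - 1 / (k : ℝ) := by
    have h1 : C2 ⊆ (D 0)ᶜ := by
      intro y hy h0
      have h2 : F y = 0 := by simpa [D] using h0
      have h3 : (1 : ℝ) / 2 ≤ ‖F y‖ := hy
      rw [h2] at h3; norm_num at h3
    have h2 := measureReal_mono (μ := (μ : Measure X)) h1
    rw [probReal_compl_eq_one_sub (hDc 0).measurableSet] at h2
    have := hD 0 (by omega)
    linarith
  have hC1 : (μ : Measure X).real C1 ≤ 1 / (k : ℝ) := by
    have h1 : C1 ⊆ (⋃ c ∈ Ico 1 k, D c)ᶜ := by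
      intro y hy h0
      simp only [Set.mem_iUnion, mem_Ico] at h0
      obtain ⟨c, hc, h2⟩ := h0
      have h3 : ‖F y‖ ≤ 1 / 2 := hy
      have h4 : F y = c := h2
      rw [h4, Complex.norm_natCast] at h3
      have : (1 : ℝ) ≤ c := by exact_mod_cast hc.1
      linarith
    have h2 := measureReal_mono (μ := (μ : Measure X)) h1
    rw [probReal_compl_eq_one_sub
      (Finset.measurableSet_biUnion _ fun c _ => (hDc c).measurableSet),
      measureReal_biUnion_finset ?_ (fun c _ => (hDc c).measurableSet)] at h2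
    · have h3 : ∑ c ∈ Ico 1 k, 1 / (k : ℝ) ≤ ∑ c ∈ Ico 1 k, (μ : Measure X).real (D c) :=
        sum_le_sum fun c hc => hD c (mem_Ico.1 hc).2
      rw [sum_const, Nat.card_Ico, nsmul_eq_mul, Nat.cast_sub (by omega)] at h3
      have h4 : ((k : ℝ) - (1 : ℕ)) * (1 / k) = 1 - 1 / k := by push_cast; field_simp
      linarith
    · intro c _ d _ hcd
      rw [Function.onFun, Set.disjoint_left]
      intro y h1 h2
      have h3 : F y = c := h1
      have h4 : F y = d := h2
      exact hcd (by exact_mod_cast h3.symm.trans h4)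
  obtain ⟨L0, hL0⟩ := freq_le hT hu hC2c (show (0 : ℝ) < 1 / (2 * k) by positivity)
  have hL : ∀ y : X, ∃ i < L0 + 1, T^[i] y ∉ C2 := by
    intro y
    by_contra hcon
    push Not at hcon
    have h1 := hL0 (L0 + 1) (by omega) y
    rw [filter_true_of_mem (fun i hi => hcon i (mem_range.1 hi)), card_range] at h1
    have h2 : (0 : ℝ) < ((L0 + 1 : ℕ) : ℝ) := by positivity
    have h3 : (μ : Measure X).real C2 + 1 / (2 * k) < 1 := by
      have : 1 / (2 * (k : ℝ)) < 1 / k := by
        apply one_div_lt_one_div_of_lt hk0; linarith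
      linarith
    nlinarith
  refine ⟨L0 + 1, fun R => ?_⟩
  set R' := R + (L0 + 1) with hR'
  have hR0 : (0 : ℝ) < R' := by rw [hR']; positivity
  obtain ⟨M, hM⟩ := freq_le hT hu hC1c (show (0 : ℝ) < 1 / (4 * R') by positivity)
  obtain ⟨j, hj1, hj2, hj3⟩ := hbig 0 (by omega) (1 / (4 * R')) (by positivity) (M + 2 * R' + 1)
  have h1 := hM (N j) (by omega) (T^[a j] x)
  set A := (range (N j)).filter fun i => a j + i ∈ S with hA
  set V := (range (N j)).filter fun i => T^[i] (T^[a j] x) ∈ C1 with hV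
  have hAV : A ⊆ V := by
    intro i hi
    simp only [hA, hV, mem_filter, mem_range] at hi ⊢
    refine ⟨hi.1, ?_⟩
    have := hval j i hi.1 hi.2
    rw [hj1] at this
    change ‖F _‖ ≤ 1 / 2
    rw [this]; simp
  have h2 : ((V \ A).card : ℝ) = V.card - A.card := by
    rw [card_sdiff_of_subset hAV, Nat.cast_sub (card_le_card hAV)]
  have h3 : ((V \ A).card : ℝ) ≤ N j / (2 * R') := by
    have e : (N j : ℝ) / (2 * R') = 2 * (1 / (4 * R')) * N j := by field_simp; ring
    have h4 : (0 : ℝ) ≤ N j := by positivity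
    have h5 : ((μ : Measure X).real C1 + 1 / (4 * R')) * N j ≤ (1 / k + 1 / (4 * R')) * N j := by
      gcongr
    rw [h2, e]; nlinarith
  have hR1 : 0 < R' := by omega
  have h4 : (V \ A).card < N j / R' := by
    rw [le_div_iff₀ (by positivity)] at h3
    have h5 : (V \ A).card * (2 * R') ≤ N j := by exact_mod_cast h3
    by_contra hcon
    push Not at hcon
    have h6 := Nat.div_add_mod (N j) R'
    have h7 := Nat.mod_lt (N j) hR1
    have h8 : R' * (N j / R') ≤ R' * (V \ A).card := Nat.mul_le_mul_left _ hcon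
    nlinarith
  obtain ⟨t, ht, hfree⟩ := free_block (V \ A) R' (N j / R') hR1 h4
  have ht2 : t * R' + R' ≤ N j := by
    have := Nat.mul_le_mul_right R' (Nat.succ_le_of_lt ht)
    rw [Nat.succ_mul] at this
    exact this.trans (Nat.div_mul_le_self _ _)
  refine ⟨a j + t * R', fun n hn1 hn2 => ?_⟩
  obtain ⟨i, hi1, hi2⟩ := hL (T^[n] x)
  refine ⟨n + i, ?_, by omega, by omega⟩
  have h5 := hfree (n + i - a j) (by omega) (by omega)
  have h6 : n + i - a j ∈ V := by
    simp only [hV, mem_filter, mem_range]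
    refine ⟨by omega, ?_⟩
    rw [← Function.iterate_add_apply]
    have e : n + i - a j + a j = i + n := by omega
    rw [e, Function.iterate_add_apply]
    change ‖F _‖ ≤ 1 / 2
    exact (not_le.1 hi2).le
  have h7 : n + i - a j ∈ A := by
    by_contra h
    exact h5 (mem_sdiff.2 ⟨h6, h⟩)
  simp only [hA, mem_filter] at h7
  have e : a j + (n + i - a j) = n + i := by omega
  rw [e] at h7
  exact h7.2

theorem ubd_lt {S : Set ℕ} {k : ℕ} (hk : 2 ≤ k) (hW : WeakInterpUE k S) : ubd S < 1 / (k : ℝ) := by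
  by_contra h
  exact not_interp_of_pws (pws_of_dense hk hW (not_lt.1 h)) hk hW

end Pool.Agent.H98.Interp
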