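import Mathlib

set_option autoImplicit false
open scoped ENNReal

namespace Pool.Agent.H98.Inv

section group
variable (ι : Type) [DecidableEq ι]

abbrev RW : Type := {l : List ι // l.IsChain (· ≠ ·)}

variable {ι}

def flip (h : ι) (l : RW ι) : RW ι :=
  if e : l.1.head? = some h then ⟨l.1.tail, l.2.tail⟩
  else ⟨h :: l.1, List.isChain_cons.mpr ⟨fun y hy hh => e (by rw [hh]; exact hy), l.2⟩⟩

lemma flip_head (h : ι) (l : RW ι) : (flip h l).1.head? = some h ↔ l.1.head? ≠ some h := by
  unfold flip
  split_ifs with e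
  · obtain ⟨l, hl⟩ := l
    cases l with
    | nil => simp at e
    | cons a l =>
      have := (List.isChain_cons.mp hl).1 h
      simp only [List.head?_cons, Option.some.injEq] at e
      subst e
      simpa using this
  · simpa using e

lemma flip_flip (h : ι) : Function.Involutive (flip h) := by
  intro l
  by_cases e : l.1.head? = some h
  · have e2 : ¬(flip h l).1.head? = some h := by rw [flip_head]; simpa using e
    rw [flip, dif_neg e2]
    apply Subtype.ext
    simp only [flip, dif_pos e]
    exact (List.eq_cons_of_mem_head? e).symm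
  · have e2 : (flip h l).1.head? = some h := (flip_head h l).mpr e
    rw [flip, dif_pos e2]
    apply Subtype.ext
    simp [flip, dif_neg e]

def sp (h : ι) : Equiv.Perm (RW ι) := (flip_flip h).toPerm

variable (ι) in
def Gm : Subgroup (Equiv.Perm (RW ι)) := Subgroup.closure (Set.range sp)

def sg (h : ι) : Gm ι := ⟨sp h, Subgroup.subset_closure ⟨h, rfl⟩⟩

lemma sg_sg (h : ι) (g : Gm ι) : sg h * (sg h * g) = g := by
  rw [← mul_assoc]
  have : sg h * sg h = 1 := Subtype.ext (Equiv.ext fun l => flip_flip h l)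
  rw [this, one_mul]

def wd (g : Gm ι) : List ι := (g.1 ⟨[], List.isChain_nil⟩).1

lemma first_iff (h : ι) (g : Gm ι) : (wd (sg h * g)).head? = some h ↔ (wd g).head? ≠ some h :=
  flip_head h _

lemma ind {P : Gm ι → Prop} (h1 : P 1) (h2 : ∀ h g, P g → P (sg h * g)) (g : Gm ι) : P g := by
  obtain ⟨g, hg⟩ := g
  induction hg using Subgroup.closure_induction_left with
  | one => exact h1
  | mul_left x hx y hy ih => obtain ⟨h, rfl⟩ := hx; exact h2 h _ ih
  | inv_mul_cancel x hx y hy ih => obtain ⟨h, rfl⟩ := hx; exact h2 h _ ih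

lemma len [Nontrivial ι] (n : ℕ) : ∃ g : Gm ι, (wd g).length = n := by
  induction n with
  | zero => exact ⟨1, rfl⟩
  | succ n ih =>
    obtain ⟨g, hg⟩ := ih
    obtain ⟨h, hh⟩ : ∃ h : ι, (wd g).head? ≠ some h := by
      obtain ⟨a, b, hab⟩ := exists_pair_ne ι
      by_cases e : (wd g).head? = some a
      · exact ⟨b, by rw [e]; simpa using hab⟩
      · exact ⟨a, e⟩
    refine ⟨sg h * g, ?_⟩
    have : wd (sg h * g) = h :: wd g := by
      change (flip h _).1 = _
      rw [flip, dif_neg (by exact hh)]; rfl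
    rw [this, List.length_cons, hg]

instance [Nontrivial ι] : Infinite (Gm ι) := Infinite.of_surjective (fun g => (wd g).length) len

end group

/-- `n`-step transition probabilities of simple random walk on the `d`-regular multigraph `a` -/
noncomputable def pn {V : Type} (a : V → V → ℕ) (d : ℕ) : ℕ → V → V → ℝ≥0∞
  | 0, x, y => Set.indicator {y} 1 x
  | n + 1, x, y => ∑' z, (a x z : ℝ≥0∞) / d * pn a d n z y

section darts
variable {V J : Type} [Fintype J] (rev : V × J → V × J)

open Classical in
noncomputable def mult (x y : V) : ℕ := (Finset.univ.filter fun j => (rev (x, j)).1 = y).card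

lemma mult_sum (x : V) (F : V → ℝ≥0∞) : ∑' z, (mult rev x z : ℝ≥0∞) * F z = ∑ j, F (rev (x, j)).1 := by
  classical
  have h : ∀ z, (mult rev x z : ℝ≥0∞) * F z = ∑ j, if z = (rev (x, j)).1 then F z else 0 := by
    intro z
    rw [mult, Finset.card_filter, Nat.cast_sum, Finset.sum_mul]
    refine Finset.sum_congr rfl fun j _ => ?_
    by_cases e : (rev (x, j)).1 = z
    · simp [e]
    · simp [e, Ne.symm e]
  simp only [h]
  rw [Summable.tsum_finsetSum fun _ _ => ENNReal.summable]
  exact Finset.sum_congr rfl fun j _ => by rw [tsum_eq_single (rev (x, j)).1 (by simp +contextual)]; simp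

variable {rev}

lemma mult_symm (hr : Function.Involutive rev) (x y : V) : mult rev x y = mult rev y x := by
  classical
  have key : ∀ x y, mult rev x y ≤ mult rev y x := by
    intro x y
    refine Finset.card_le_card_of_injOn (fun j => (rev (x, j)).2) ?_ ?_
    · intro j hj
      have e : (rev (x, j)).1 = y := by simpa using hj
      simp only [Finset.coe_filter, Finset.mem_univ, true_and, Set.mem_setOf_eq]
      rw [← e, Prod.mk.eta, hr]
    · intro j hj k hk e
      have e1 : (rev (x, j)).1 = y := by simpa using hj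
      have e2 : (rev (x, k)).1 = y := by simpa using hk
      have := hr.injective (Prod.ext (e1.trans e2.symm) e)
      simpa using this
  exact le_antisymm (key x y) (key y x)

noncomputable def hh (rev : V × J → V × J) (d : ℕ) (o : V) : ℕ → V → ℝ
  | 0, x => Set.indicator {o} 1 x
  | n + 1, x => (∑ j, hh rev d o n (rev (x, j)).1) / d

lemma hh_nonneg (d : ℕ) (o : V) (n : ℕ) : ∀ x, 0 ≤ hh rev d o n x := by
  induction n with
  | zero => intro x; exact Set.indicator_nonneg (fun _ _ => zero_le_one) x
  | succ n ih => intro x; exact div_nonneg (Finset.sum_nonneg fun j _ => ih _) (Nat.cast_nonneg _)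

lemma pn_eq {d : ℕ} (hd : 0 < d) (o : V) (n : ℕ) :
    ∀ x, pn (mult rev) d n x o = ENNReal.ofReal (hh rev d o n x) := by
  induction n with
  | zero => intro x; by_cases e : x = o <;> simp [pn, hh, e]
  | succ n ih =>
    intro x
    simp only [pn, hh, ih, div_eq_mul_inv, mul_assoc]
    rw [mult_sum, ENNReal.ofReal_mul (Finset.sum_nonneg fun j _ => hh_nonneg d o n _),
      ENNReal.ofReal_sum_of_nonneg fun j _ => hh_nonneg d o n _, Finset.sum_mul,
      ENNReal.ofReal_inv_of_pos (by exact_mod_cast hd), ENNReal.ofReal_natCast]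
    exact Finset.sum_congr rfl fun j _ => mul_comm _ _

theorem schur (hr : Function.Involutive rev) {d : ℕ} (hd : 0 < d) (t : V × J → ℝ)
    (ht : ∀ z, 0 < t z) (htr : ∀ z, t (rev z) * t z = 1) {θ : ℝ} (hθ0 : 0 ≤ θ)
    (hθ : ∀ x, ∑ j, t (x, j) ≤ θ) (o : V) (n : ℕ) :
    pn (mult rev) d n o o ≤ ENNReal.ofReal ((θ / d) ^ n) := by
  have hd' : (0 : ℝ) < d := by exact_mod_cast hd
  have key : ∀ n, ∑' x, ENNReal.ofReal (hh rev d o n x ^ 2) ≤ ENNReal.ofReal (((θ / d) ^ n) ^ 2) := by
    intro n
    induction n with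
    | zero =>
      rw [tsum_eq_single o (fun x hx => by simp [hh, hx])]
      simp [hh]
    | succ n ih =>
      set T : V × J → ℝ≥0∞ := fun z => ENNReal.ofReal (t z * hh rev d o n z.1 ^ 2) with hT
      have h1 : ∀ x, ENNReal.ofReal (hh rev d o (n + 1) x ^ 2) ≤
          ENNReal.ofReal (θ / d ^ 2) * ∑ j, T (rev (x, j)) := by
        intro x
        have p : ∀ j, 0 ≤ t (rev (x, j)) * hh rev d o n (rev (x, j)).1 ^ 2 :=
          fun j => mul_nonneg (ht _).le (sq_nonneg _)
        rw [← ENNReal.ofReal_sum_of_nonneg fun j _ => p j, ← ENNReal.ofReal_mul (by positivity)]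
        apply ENNReal.ofReal_le_ofReal
        have c := Finset.sum_sq_le_sum_mul_sum_of_sq_eq_mul Finset.univ
          (r := fun j => hh rev d o n (rev (x, j)).1) (f := fun j => t (x, j))
          (g := fun j => t (rev (x, j)) * hh rev d o n (rev (x, j)).1 ^ 2)
          (fun j _ => (ht _).le) (fun j _ => p j)
          (fun j _ => by rw [← mul_assoc, mul_comm (t (x, j)), htr, one_mul])
        simp only [hh]
        rw [div_pow, div_mul_eq_mul_div]
        gcongr
        exact c.trans (mul_le_mul_of_nonneg_right (hθ x) (Finset.sum_nonneg fun j _ => p j))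
      have h2 : ∑' x, ∑ j, T (rev (x, j)) = ∑' x, ∑ j, T (x, j) := by
        have := hr.toPerm.tsum_eq T
        rw [ENNReal.tsum_prod', ENNReal.tsum_prod'] at this
        simpa only [tsum_fintype, Function.Involutive.coe_toPerm] using this
      have h3 : ∀ x, ∑ j, T (x, j) ≤ ENNReal.ofReal θ * ENNReal.ofReal (hh rev d o n x ^ 2) := by
        intro x
        rw [← ENNReal.ofReal_sum_of_nonneg fun j _ => mul_nonneg (ht _).le (sq_nonneg _),
          ← ENNReal.ofReal_mul hθ0]
        simp only [← Finset.sum_mul]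
        exact ENNReal.ofReal_le_ofReal (mul_le_mul_of_nonneg_right (hθ x) (sq_nonneg _))
      refine (ENNReal.tsum_le_tsum h1).trans ?_
      rw [ENNReal.tsum_mul_left, h2]
      have h4 : ∑' x, ∑ j, T (x, j) ≤
          ENNReal.ofReal θ * ENNReal.ofReal (((θ / d) ^ n) ^ 2) :=
        (ENNReal.tsum_le_tsum h3).trans (by rw [ENNReal.tsum_mul_left]; gcongr)
      refine (mul_le_mul_right h4 _).trans_eq ?_
      rw [← ENNReal.ofReal_mul hθ0, ← ENNReal.ofReal_mul (by positivity)]
      congr 1
      rw [pow_succ (θ / d) n]; field_simp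
  rw [pn_eq hd]
  have h := (ENNReal.le_tsum o).trans (key n)
  rw [ENNReal.ofReal_le_ofReal_iff (by positivity)] at h
  exact ENNReal.ofReal_le_ofReal (abs_le_of_sq_le_sq' h (by positivity)).2

end darts

lemma map_sum {B V : Type} (p : PMF B) (e : B → V) (F : V → ℝ≥0∞) :
    ∑' x, (p.map e) x * F x = ∑' b, p b * F (e b) := by
  classical
  simp only [PMF.map_apply, ← ENNReal.tsum_mul_right]
  rw [ENNReal.tsum_comm]
  refine tsum_congr fun b => ?_
  rw [tsum_eq_single (e b) (fun x hx => by simp [hx])]
  simp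

/-- mass transport for a free action with finite quotient -/
lemma mtp {Γ B : Type} [Group Γ] [Fintype B] [Nonempty B] (f : Γ × B → Γ × B → ℝ≥0∞)
    (hf : ∀ g x y, f (x.1 * g, x.2) (y.1 * g, y.2) = f x y) :
    ∑' o, ((PMF.uniformOfFintype B).map fun b => ((1 : Γ), b)) o * ∑' x, f o x =
    ∑' o, ((PMF.uniformOfFintype B).map fun b => ((1 : Γ), b)) o * ∑' x, f x o := by
  rw [map_sum, map_sum]
  simp only [PMF.uniformOfFintype_apply, ENNReal.tsum_mul_left]
  congr 1
  have e1 : ∀ F : Γ × B → ℝ≥0∞, ∑' x, F x = ∑' b, ∑' g, F (g, b) := fun F => by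
    rw [ENNReal.tsum_prod', ENNReal.tsum_comm]
  simp only [e1]
  rw [ENNReal.tsum_comm]
  refine tsum_congr fun b => tsum_congr fun c => ?_
  rw [← (Equiv.inv Γ).tsum_eq]
  refine tsum_congr fun g => ?_
  rw [← hf g]; simp

end Pool.Agent.H98.Inv
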