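import Pool.Agent.H98.Inv1

set_option autoImplicit false
open scoped ENNReal

namespace Pool.Agent.H98.Inv

noncomputable def Vv (σ : ℝ) (k : ℕ) : ℝ := 1 / σ + (σ ^ 2 - 1) / ((σ ^ 2) ^ (k + 1) + σ)

section
variable {σ : ℝ} (hσ : 1 < σ)
include hσ

lemma Vv_pos (k : ℕ) : 0 < Vv σ k := by
  have : 0 < σ ^ 2 - 1 := by nlinarith
  unfold Vv; positivity

lemma Vv_zero : Vv σ 0 = 1 := by
  have : 0 < σ := by linarith
  unfold Vv; field_simp; ring

lemma Vv_rec (k : ℕ) : 1 / Vv σ (k + 1) = σ + 1 / σ - Vv σ k := by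
  have h0 : 0 < σ := by linarith
  rw [div_eq_iff (Vv_pos hσ _).ne']
  unfold Vv
  rw [pow_succ (σ ^ 2) (k + 1)]
  have : 0 < (σ ^ 2) ^ (k + 1) := by positivity
  generalize (σ ^ 2) ^ (k + 1) = Q at *
  field_simp; ring

lemma Vv_le (k : ℕ) : 1 / σ ≤ 1 / Vv σ k := by
  have h0 : 0 < σ := by linarith
  have h1 : 0 < σ ^ 2 - 1 := by nlinarith
  refine one_div_le_one_div_of_le (Vv_pos hσ k) ?_
  have : (σ ^ 2 - 1) / ((σ ^ 2) ^ (k + 1) + σ) ≤ (σ ^ 2 - 1) / σ := by
    gcongr; exact le_add_of_nonneg_left (by positivity)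
  have e : 1 / σ + (σ ^ 2 - 1) / σ = σ := by field_simp; ring
  unfold Vv; linarith

lemma Vv_sub (k : ℕ) : 0 ≤ Vv σ k - 1 / σ ∧ Vv σ k - 1 / σ ≤ σ ^ 2 / (σ ^ 2) ^ (k + 1) := by
  have h0 : 0 < σ := by linarith
  have h1 : 0 < σ ^ 2 - 1 := by nlinarith
  unfold Vv
  rw [add_sub_cancel_left]
  refine ⟨by positivity, ?_⟩
  gcongr <;> linarith
end

lemma sum_le {q : ℕ} (P : Fin q → Prop) [DecidablePred P] (hP : ∀ i j, P i → P j → i = j)
    {A s : ℝ} (h : s ≤ A) : ∑ i, (if P i then A else s) ≤ A + (q - 1) * s := by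
  have e : ∀ i, (if P i then A else s) = s + if P i then A - s else 0 := fun i => by
    split_ifs <;> ring
  simp only [e, Finset.sum_add_distrib, Finset.sum_const, Finset.card_univ, Fintype.card_fin,
    nsmul_eq_mul, ← Finset.sum_filter]
  have h1 : ((Finset.univ.filter P).card : ℝ) ≤ 1 := by
    exact_mod_cast Finset.card_le_one.mpr fun i hi j hj => hP i j (by simpa using hi) (by simpa using hj)
  nlinarith

variable (q R : ℕ)

abbrev BB : Type := {l : List (Fin q) // l.length ≤ R}
abbrev II : Type := {l : List (Fin q) // l.length = R} × Fin q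
abbrev VV : Type := Gm (II q R) × BB q R

instance : Finite (BB q R) := (List.finite_length_le (Fin q) R).to_subtype
noncomputable instance : Fintype (BB q R) := Fintype.ofFinite _
instance : Nonempty (BB q R) := ⟨⟨[], Nat.zero_le _⟩⟩

lemma card_BB (hq : 2 ≤ q) : Fintype.card (BB q R) + 1 ≤ 2 * q ^ R := by
  induction R with
  | zero =>
    have : Fintype.card (BB q 0) ≤ 1 := Fintype.card_le_one_iff.mpr fun a b => Subtype.ext (by
      rw [List.length_eq_zero_iff.mp (Nat.le_zero.mp a.2),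
        List.length_eq_zero_iff.mp (Nat.le_zero.mp b.2)])
    rw [pow_zero]; omega
  | succ R ih =>
    have h := Fintype.card_le_of_surjective (fun z : Option (Fin q × BB q R) => (match z with
      | none => ⟨[], Nat.zero_le _⟩
      | some z => ⟨z.1 :: z.2.1, Nat.succ_le_succ z.2.2⟩ : BB q (R + 1))) (by
        rintro ⟨l, hl⟩
        cases l with
        | nil => exact ⟨none, rfl⟩
        | cons i l => exact ⟨some (i, ⟨l, Nat.le_of_succ_le_succ hl⟩), rfl⟩)
    rw [Fintype.card_option, Fintype.card_prod, Fintype.card_fin] at h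
    rw [pow_succ]
    nlinarith

variable {q R}

def rv : VV q R × Option (Fin q) → VV q R × Option (Fin q)
  | ((g, ⟨[], h⟩), none) => ((g, ⟨[], h⟩), none)
  | ((g, ⟨i :: l, h⟩), none) => ((g, ⟨l, (Nat.le_succ _).trans h⟩), some i)
  | ((g, b), some i) => if h : b.1.length < R then ((g, ⟨i :: b.1, h⟩), none)
      else ((sg (⟨b.1, le_antisymm b.2 (not_lt.mp h)⟩, i) * g, b), some i)

lemma rv_rv : Function.Involutive (rv (q := q) (R := R)) := by
  rintro ⟨⟨g, l, h⟩, j⟩
  cases j with
  | none =>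
    cases l with
    | nil => rfl
    | cons i l => simp only [rv]; rw [dif_pos (show l.length < R from h)]
  | some i =>
    by_cases e : l.length < R
    · simp only [rv, dif_pos e]
    · simp only [rv, dif_neg e, sg_sg]

lemma rv_mul (k : Gm (II q R)) (x : VV q R) (j : Option (Fin q)) :
    (rv ((x.1 * k, x.2), j)).1 = ((rv (x, j)).1.1 * k, (rv (x, j)).1.2) := by
  obtain ⟨g, l, h⟩ := x
  cases j with
  | none => cases l <;> rfl
  | some i =>
    by_cases e : l.length < R
    · simp only [rv, dif_pos e]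
    · simp only [rv, dif_neg e, mul_assoc]

lemma mult_mul (k : Gm (II q R)) (x y : VV q R) :
    mult rv (x.1 * k, x.2) (y.1 * k, y.2) = mult rv x y := by
  unfold mult
  congr 1
  ext j
  simp only [Finset.mem_filter, Finset.mem_univ, true_and, rv_mul, Prod.ext_iff, mul_left_inj]

def on (g : Gm (II q R)) (l : List (Fin q)) : Prop := ∃ h, (wd g).head? = some h ∧ l <:+ h.1.1

def ent (g : Gm (II q R)) (l : List (Fin q)) (i : Fin q) : Prop :=
  ∃ h, (wd g).head? = some h ∧ h.1.1 = l ∧ h.2 = i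

open Classical in
noncomputable def tt (σ : ℝ) : VV q R × Option (Fin q) → ℝ
  | ((g, b), none) => if on g b.1 then Vv σ b.1.length else if b.1 = [] then 1 else σ
  | ((g, b), some i) => if b.1.length < R then
      (if on g (i :: b.1) then 1 / Vv σ (b.1.length + 1) else 1 / σ)
      else (if ent g b.1 i then σ else 1 / σ)

variable {σ : ℝ} (hσ : 1 < σ)
include hσ

lemma tt_pos (z : VV q R × Option (Fin q)) : 0 < tt σ z := by
  have h0 : 0 < σ := by linarith
  have := Vv_pos hσ
  obtain ⟨⟨g, b⟩, j⟩ := z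
  cases j <;> simp only [tt] <;> split_ifs <;> first | positivity | exact this _ | exact one_div_pos.mpr (this _)

lemma tt_rv (z : VV q R × Option (Fin q)) : tt σ (rv z) * tt σ z = 1 := by
  have h0 : σ ≠ 0 := by linarith
  have h1 := fun k => (Vv_pos hσ k).ne'
  obtain ⟨⟨g, l, h⟩, j⟩ := z
  cases j with
  | none =>
    cases l with
    | nil => simp [rv, tt, Vv_zero hσ]
    | cons i l =>
      simp only [rv, tt, if_pos (show l.length < R from h), List.length_cons]
      split_ifs <;> simp_all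
  | some i =>
    by_cases e : l.length < R
    · simp only [rv, dif_pos e, tt, if_pos e, List.length_cons]
      split_ifs <;> simp_all
    · have k : ∀ g : Gm (II q R), ent g l i ↔
          (wd g).head? = some (⟨l, le_antisymm h (not_lt.mp e)⟩, i) := fun g =>
        ⟨by rintro ⟨⟨⟨a, ha⟩, b⟩, h1, rfl, rfl⟩; exact h1, fun h1 => ⟨_, h1, rfl, rfl⟩⟩
      simp only [rv, dif_neg e, tt, if_neg e, k, first_iff]
      split_ifs <;> simp_all

lemma tt_sum (hq : σ ^ 2 = q) (x : VV q R) : ∑ j, tt σ (x, j) ≤ 2 * σ + (Vv σ R - 1 / σ) := by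
  classical
  have h0 : 0 < σ := by linarith
  have e1 : ((q : ℝ) - 1) * (1 / σ) = σ - 1 / σ := by rw [← hq]; field_simp
  have e2 := (Vv_sub hσ R).1
  obtain ⟨g, l, h⟩ := x
  rw [Fintype.sum_option]
  by_cases ho : on g l
  · by_cases e : l.length < R
    · simp only [tt, if_pos ho, if_pos e]
      have := sum_le (fun i => on g (i :: l)) (fun i j ⟨a, ha, hi⟩ ⟨b, hb, hj⟩ => by
        obtain rfl : a = b := Option.some.inj (ha.symm.trans hb)
        have := (List.suffix_of_suffix_length_le hi hj (by simp)).eq_of_length (by simp)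
        simpa using this) (Vv_le hσ (l.length + 1))
      rw [Vv_rec hσ] at this ⊢
      linarith
    · simp only [tt, if_pos ho, if_neg e]
      have := sum_le (fun i => ent g l i) (fun i j ⟨a, ha, _, hi⟩ ⟨b, hb, _, hj⟩ => by
        obtain rfl : a = b := Option.some.inj (ha.symm.trans hb)
        exact hi.symm.trans hj) (A := σ) (s := 1 / σ)
        ((div_le_one h0).mpr hσ.le |>.trans hσ.le)
      rw [le_antisymm h (not_lt.mp e)]
      linarith
  · have n1 : ∀ i, ¬on g (i :: l) := fun i ⟨a, ha, hi⟩ =>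
      ho ⟨a, ha, (List.suffix_cons i l).trans hi⟩
    have n2 : ∀ i, ¬ent g l i := fun i ⟨a, ha, hi, _⟩ => ho ⟨a, ha, hi ▸ List.suffix_rfl⟩
    simp only [tt, if_neg ho, if_neg (n1 _), if_neg (n2 _), ite_self, Finset.sum_const,
      Finset.card_univ, Fintype.card_fin, nsmul_eq_mul]
    split_ifs <;> nlinarith

omit hσ

lemma mult_ne (x : VV q R) (j : Option (Fin q)) : mult rv x (rv (x, j)).1 ≠ 0 := by
  classical
  unfold mult
  exact Finset.card_ne_zero.mpr ⟨j, by simp⟩

lemma conn (x y : VV q R) : Relation.ReflTransGen (fun a b => mult rv a b ≠ 0) x y := by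
  have sy : ∀ {a b : VV q R}, Relation.ReflTransGen (fun a b : VV q R => mult rv a b ≠ 0) a b →
      Relation.ReflTransGen (fun a b : VV q R => mult rv a b ≠ 0) b a := by
    intro a b h
    induction h with
    | refl => exact .refl
    | tail _ h2 ih => exact .head (by rwa [mult_symm rv_rv]) ih
  have h1 : ∀ (g : Gm (II q R)) (l : List (Fin q)) (h : l.length ≤ R),
      Relation.ReflTransGen (fun a b : VV q R => mult rv a b ≠ 0) (g, ⟨l, h⟩) (g, ⟨[], Nat.zero_le _⟩) := by
    intro g l
    induction l with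
    | nil => intro h; exact .refl
    | cons i l ih => intro h; exact .head (mult_ne (g, ⟨i :: l, h⟩) none) (ih _)
  have h2 : ∀ g : Gm (II q R), Relation.ReflTransGen (fun a b : VV q R => mult rv a b ≠ 0)
      (g, ⟨[], Nat.zero_le _⟩) (1, ⟨[], Nat.zero_le _⟩) := by
    refine ind .refl ?_
    rintro ⟨⟨l, hl⟩, i⟩ g ih
    have h3 := mult_ne (g, ⟨l, hl.le⟩) (some i)
    simp only [rv, dif_neg (show ¬l.length < R by omega)] at h3
    exact (sy (h1 _ l hl.le)).trans ((sy (.single h3)).trans ((h1 g l hl.le).trans ih))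
  exact ((h1 x.1 x.2.1 x.2.2).trans (h2 _)).trans (sy ((h1 y.1 y.2.1 y.2.2).trans (h2 _)))

end Pool.Agent.H98.Inv
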