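import Mathlib

set_option autoImplicit false

namespace Pool.Agent.H98.MC

open Filter Topology MeasureTheory Finset ProbabilityTheory
open scoped ENNReal NNReal Classical

/-- bounded and measurable. -/
def BM {Z : Type*} [MeasurableSpace Z] (f : Z → ℝ) : Prop :=
  Measurable f ∧ ∃ B : ℝ, ∀ z, |f z| ≤ B

namespace BM

variable {Z : Type*} [MeasurableSpace Z] {f g : Z → ℝ}

lemma const (c : ℝ) : BM fun _ : Z => c := ⟨measurable_const, |c|, fun _ => le_rfl⟩

lemma add (hf : BM f) (hg : BM g) : BM fun z => f z + g z := by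
  obtain ⟨h1, B, hB⟩ := hf
  obtain ⟨h2, C, hC⟩ := hg
  exact ⟨h1.add h2, B + C, fun z => (abs_add_le _ _).trans (add_le_add (hB z) (hC z))⟩

lemma mul (hf : BM f) (hg : BM g) : BM fun z => f z * g z := by
  obtain ⟨h1, B, hB⟩ := hf
  obtain ⟨h2, C, hC⟩ := hg
  exact ⟨h1.mul h2, B * C, fun z => by
    rw [abs_mul]; exact mul_le_mul (hB z) (hC z) (abs_nonneg _) ((abs_nonneg _).trans (hB z))⟩

lemma sub (hf : BM f) (hg : BM g) : BM fun z => f z - g z := by
  simpa [sub_eq_add_neg] using hf.add ((const (-1)).mul hg)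

lemma sq (hf : BM f) : BM fun z => f z ^ 2 := by simpa [pow_two] using hf.mul hf

lemma sum {ι : Type*} (s : Finset ι) {F : ι → Z → ℝ} (h : ∀ i ∈ s, BM (F i)) :
    BM fun z => ∑ i ∈ s, F i z := by
  induction s using Finset.induction_on with
  | empty => simpa using const 0
  | insert a s ha ih =>
    simp only [sum_insert ha]
    exact (h a (mem_insert_self _ _)).add (ih fun i hi => h i (mem_insert_of_mem hi))

lemma prod {ι : Type*} (s : Finset ι) {F : ι → Z → ℝ} (h : ∀ i ∈ s, BM (F i)) :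
    BM fun z => ∏ i ∈ s, F i z := by
  induction s using Finset.induction_on with
  | empty => simpa using const 1
  | insert a s ha ih =>
    simp only [prod_insert ha]
    exact (h a (mem_insert_self _ _)).mul (ih fun i hi => h i (mem_insert_of_mem hi))

lemma comp {W : Type*} [MeasurableSpace W] (hf : BM f) {p : W → Z} (hp : Measurable p) :
    BM fun w => f (p w) := by
  obtain ⟨h1, B, hB⟩ := hf
  exact ⟨h1.comp hp, B, fun w => hB _⟩

lemma memLp (hf : BM f) (ν : Measure Z) [IsFiniteMeasure ν] (p : ℝ≥0∞) : MemLp f p ν := by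
  obtain ⟨h1, B, hB⟩ := hf
  exact MemLp.of_bound h1.aestronglyMeasurable B (Eventually.of_forall hB)

lemma int (hf : BM f) (ν : Measure Z) [IsFiniteMeasure ν] : Integrable f ν :=
  memLp_one_iff_integrable.1 (hf.memLp ν 1)

lemma integral {W : Type*} [MeasurableSpace W] {F : W × Z → ℝ} (hF : BM F) (ν : Measure Z)
    [IsProbabilityMeasure ν] : BM fun w => ∫ z, F (w, z) ∂ν := by
  obtain ⟨h1, B, hB⟩ := hF
  refine ⟨h1.stronglyMeasurable.integral_prod_right'.measurable, B, fun w => ?_⟩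
  simpa using norm_integral_le_of_norm_le_const (μ := ν) (f := fun z => F (w, z)) (C := B)
    (Eventually.of_forall fun z => hB _)

lemma inv (hf : Measurable f) {c : ℝ} (hc : 0 < c) (h : ∀ z, c ≤ f z) : BM fun z => (f z)⁻¹ :=
  ⟨hf.inv, c⁻¹, fun z => by
    rw [abs_of_pos (inv_pos.2 (hc.trans_le (h z)))]; exact inv_anti₀ hc (h z)⟩

end BM

variable {Z : Type} [MeasurableSpace Z]

lemma pyth (ν : Measure Z) [IsProbabilityMeasure ν] {Λ : Type*} [Fintype Λ] {φ : Λ → Z → ℝ}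
    (hφ : ∀ a, BM (φ a)) (ho : ∀ a b, ∫ z, φ a z * φ b z ∂ν = if a = b then 1 else 0)
    {f : Z → ℝ} (hf : BM f) (b : Λ → ℝ) :
    ∫ z, (f z - ∑ a, b a * φ a z) ^ 2 ∂ν = ∫ z, f z ^ 2 ∂ν - ∑ a, (∫ z, f z * φ a z ∂ν) ^ 2 +
      ∑ a, (b a - ∫ z, f z * φ a z ∂ν) ^ 2 := by
  have e : ∀ z, (f z - ∑ a, b a * φ a z) ^ 2 = f z ^ 2 - ∑ a, 2 * b a * (f z * φ a z) +
      ∑ a, ∑ a', b a * b a' * (φ a z * φ a' z) := fun z => by
    rw [sub_sq, sq (∑ a, _), Finset.sum_mul_sum, Finset.mul_sum]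
    congr 1
    · congr 1; exact sum_congr rfl fun a _ => by ring
    · exact sum_congr rfl fun a _ => sum_congr rfl fun a' _ => by ring
  have h1 : ∀ a, BM fun z => 2 * b a * (f z * φ a z) := fun a => (BM.const _).mul (hf.mul (hφ a))
  have h2 : ∀ a a', BM fun z => b a * b a' * (φ a z * φ a' z) := fun a a' =>
    (BM.const _).mul ((hφ a).mul (hφ a'))
  simp only [e]
  rw [integral_add ((hf.sq.sub (BM.sum _ fun a _ => h1 a)).int ν)
      ((BM.sum _ fun a _ => BM.sum _ fun a' _ => h2 a a').int ν),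
    integral_sub (hf.sq.int ν) ((BM.sum _ fun a _ => h1 a).int ν),
    integral_finset_sum _ fun a _ => (h1 a).int ν,
    integral_finset_sum _ fun a _ => (BM.sum _ fun a' _ => h2 a a').int ν,
    sum_congr rfl fun a _ => integral_finset_sum _ fun a' _ => (h2 a a').int ν]
  simp only [integral_const_mul, ho, mul_ite, mul_one, mul_zero, sum_ite_eq, mem_univ, if_true]
  rw [sub_add, sub_add, ← sum_sub_distrib, ← sum_sub_distrib]
  congr 1
  exact sum_congr rfl fun a _ => by ring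

lemma mc_var (ν : Measure Z) [IsProbabilityMeasure ν] {h : Z → ℝ} (hh : BM h) {N : ℕ}
    (hN : 0 < N) : ∫ z : Fin N → Z, ((∑ i, h (z i)) / N - ∫ x, h x ∂ν) ^ 2
      ∂(Measure.pi fun _ => ν) ≤ (∫ x, h x ^ 2 ∂ν) / N := by
  have hN' : (0 : ℝ) < N := by exact_mod_cast hN
  have h1 := variance_sum_pi (ι := Fin N) (μ := fun _ => ν) (X := fun _ => h)
    fun _ => hh.memLp ν 2
  have hb : ∀ i, BM fun z : Fin N → Z => h (z i) := fun i => hh.comp (measurable_pi_apply i)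
  have hs : (∑ i : Fin N, fun ω : Fin N → Z => h (ω i)) = fun ω => ∑ i, h (ω i) := by
    ext ω; simp
  rw [hs, variance_eq_integral (BM.sum _ fun i _ => hb i).1.aemeasurable,
    integral_finset_sum _ fun i _ => (hb i).int _] at h1
  have h2 : ∀ i : Fin N, ∫ z : Fin N → Z, h (z i) ∂(Measure.pi fun _ => ν) = ∫ x, h x ∂ν :=
    fun i => integral_comp_eval hh.1.aestronglyMeasurable
  simp only [h2, sum_const, card_univ, Fintype.card_fin, nsmul_eq_mul] at h1
  have h3 := variance_le_expectation_sq (μ := ν) hh.1.aestronglyMeasurable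
  have e : ∀ z : Fin N → Z, ((∑ i, h (z i)) / N - ∫ x, h x ∂ν) ^ 2 =
      (∑ i, h (z i) - N * ∫ x, h x ∂ν) ^ 2 / N ^ 2 := fun z => by field_simp
  simp only [e]
  rw [integral_div, h1, div_le_div_iff₀ (by positivity) hN']
  have h4 : (ν[h ^ 2]) = ∫ x, h x ^ 2 ∂ν := rfl
  rw [h4] at h3
  nlinarith [mul_le_mul_of_nonneg_left h3 (sq_nonneg (N : ℝ))]

/-- a randomized non adaptive scheme with at most `N` nodes whose output (in `W → ℝ`) is jointly
bounded measurable, and satisfies the averaged error bound `P`. -/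
def Sch (𝓕 : Set (Z → ℝ)) (W : Type) [MeasurableSpace W] (N : ℕ)
    (err : (Z → ℝ) → (W → ℝ) → ℝ) (e : ℝ) : Prop :=
  ∃ (ι Ω : Type) (_ : Fintype ι) (_ : MeasurableSpace Ω) (μ : Measure Ω)
    (_ : IsProbabilityMeasure μ) (X : Ω → ι → Z) (G : Ω → (ι → ℝ) → W → ℝ),
    Fintype.card ι ≤ N ∧ ∀ f ∈ 𝓕, BM (fun p : Ω × W => G p.1 (fun i => f (X p.1 i)) p.2) ∧
      ∫ ω, err f (G ω fun i => f (X ω i)) ∂μ ≤ e

lemma coef (ν : Measure Z) [IsProbabilityMeasure ν] {𝓕 : Set (Z → ℝ)} (hF : ∀ f ∈ 𝓕, BM f)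
    {N : ℕ} {e : ℝ} (h : Sch 𝓕 Z N (fun f g => ∫ z, (f z - g z) ^ 2 ∂ν) e)
    {Λ : Type} [Fintype Λ] [MeasurableSpace Λ] [MeasurableSingletonClass Λ] {φ : Λ → Z → ℝ}
    (hφ : ∀ a, BM (φ a)) (ho : ∀ a, ∫ z, φ a z * φ a z ∂ν = 1) {M : ℕ} (hM : 0 < M) :
    Sch 𝓕 Λ (N + M) (fun f c => ∑ a, (c a - ∫ z, f z * φ a z ∂ν) ^ 2)
      ((1 + Fintype.card Λ) / M * e) := by
  obtain ⟨ι, Ω, _, _, μ, _, X, G, hc, h⟩ := h
  set D : ℝ := 1 + Fintype.card Λ with hD
  have hD0 : 0 < D := by positivity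
  have hM' : (0 : ℝ) < M := by exact_mod_cast hM
  let ρ : Z → ℝ := fun z => (1 + ∑ a, φ a z * φ a z) * D⁻¹
  have hρ : BM ρ := ((BM.const 1).add (BM.sum _ fun a _ => (hφ a).mul (hφ a))).mul (BM.const _)
  have hρl : ∀ z, D⁻¹ ≤ ρ z := fun z => le_mul_of_one_le_left (by positivity)
    (le_add_of_nonneg_right (sum_nonneg fun a _ => mul_self_nonneg _))
  have hρ0 : ∀ z, 0 < ρ z := fun z => (inv_pos.2 hD0).trans_le (hρl z)
  have hρi : BM fun z => (ρ z)⁻¹ := BM.inv hρ.1 (inv_pos.2 hD0) hρl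
  let ν' : Measure Z := ν.withDensity fun z => ENNReal.ofReal (ρ z)
  have hint : ∀ u : Z → ℝ, ∫ z, u z ∂ν' = ∫ z, ρ z * u z ∂ν := fun u => by
    rw [integral_withDensity_eq_integral_toReal_smul hρ.1.ennreal_ofReal
      (Eventually.of_forall fun x => ENNReal.ofReal_lt_top)]
    simp only [ENNReal.toReal_ofReal (hρ0 _).le, smul_eq_mul]
  haveI : IsProbabilityMeasure ν' := by
    haveI : IsFiniteMeasure ν' := isFiniteMeasure_withDensity_ofReal (hρ.int ν).2
    have h1 := hint fun _ => 1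
    simp only [integral_const, smul_eq_mul, mul_one, ρ] at h1
    rw [integral_mul_const, integral_add (integrable_const _)
      ((BM.sum _ fun a _ => (hφ a).mul (hφ a)).int ν),
      integral_finset_sum _ fun a _ => ((hφ a).mul (hφ a)).int ν] at h1
    simp only [ho, integral_const, probReal_univ, smul_eq_mul, mul_one, sum_const, card_univ,
      nsmul_eq_mul, ← hD, mul_inv_cancel₀ hD0.ne'] at h1
    exact ⟨(ENNReal.toReal_eq_one_iff _).1 h1⟩
  refine ⟨ι ⊕ Fin M, Ω × (Fin M → Z), inferInstance, inferInstance,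
    μ.prod (Measure.pi fun _ => ν'), inferInstance, fun p => Sum.elim (X p.1) p.2,
    fun p y a => (∫ z, G p.1 (fun i => y (Sum.inl i)) z * φ a z ∂ν) +
      (∑ j, (y (Sum.inr j) - G p.1 (fun i => y (Sum.inl i)) (p.2 j)) * φ a (p.2 j) *
        (ρ (p.2 j))⁻¹) / M, by simpa using hc, fun f hf => ?_⟩
  obtain ⟨hG, he⟩ := h f hf
  have hfb := hF f hf
  simp only [Sum.elim_inl, Sum.elim_inr]
  set g : Ω → Z → ℝ := fun ω => G ω fun i => f (X ω i) with hg
  have hga : ∀ a, BM fun p : Ω × (Fin M → Z) => (∫ z, g p.1 z * φ a z ∂ν) +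
      (∑ j, (f (p.2 j) - g p.1 (p.2 j)) * φ a (p.2 j) * (ρ (p.2 j))⁻¹) / M := fun a => by
    refine BM.add ?_ (BM.mul (BM.sum _ fun j _ => ?_) (BM.const _))
    · exact ((hG.mul ((hφ a).comp measurable_snd)).integral ν).comp measurable_fst
    · have hm : Measurable fun p : Ω × (Fin M → Z) => p.2 j := by fun_prop
      exact (((hfb.comp hm).sub (hG.comp (measurable_fst.prodMk hm))).mul
        ((hφ a).comp hm)).mul (hρi.comp hm)
  constructor
  · have := BM.sum (univ : Finset Λ) (F := fun a (q : (Ω × (Fin M → Z)) × Λ) =>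
      (if q.2 = a then (1 : ℝ) else 0) * ((∫ z, g q.1.1 z * φ a z ∂ν) +
      (∑ j, (f (q.1.2 j) - g q.1.1 (q.1.2 j)) * φ a (q.1.2 j) * (ρ (q.1.2 j))⁻¹) / M))
      fun a _ => BM.mul ⟨Measurable.ite (measurable_snd (measurableSet_singleton a))
        measurable_const measurable_const, 1, fun q => by beta_reduce; split_ifs <;> simp⟩
        ((hga a).comp measurable_fst)
    simpa only [ite_mul, one_mul, zero_mul, sum_ite_eq, mem_univ, if_true] using this
  · rw [integral_prod _ ((BM.sum _ fun a _ => ((hga a).sub (BM.const _)).sq).int _)]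
    refine le_trans ?_ (mul_le_mul_of_nonneg_left he (by positivity))
    rw [← integral_const_mul]
    refine integral_mono ((BM.sum _ fun a _ => ((hga a).sub (BM.const _)).sq).integral _ |>.int _)
      (((BM.const _).mul ((((hfb.comp measurable_snd).sub hG).sq).integral ν)).int _) fun ω => ?_
    have hgω : BM (g ω) := hG.comp (p := fun z => (ω, z)) (by fun_prop)
    have hu : ∀ a, BM fun z => (f z - g ω z) * φ a z * (ρ z)⁻¹ := fun a =>
      ((hfb.sub hgω).mul (hφ a)).mul hρi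
    beta_reduce
    rw [integral_finset_sum _ fun a _ =>
      ((((hga a).sub (BM.const _)).sq).comp (p := fun z => (ω, z)) (by fun_prop)).int _]
    have h1 : ∀ a, ∫ z : Fin M → Z, ((∫ z, g ω z * φ a z ∂ν) +
        (∑ j, (f (z j) - g ω (z j)) * φ a (z j) * (ρ (z j))⁻¹) / M - ∫ z, f z * φ a z ∂ν) ^ 2
        ∂(Measure.pi fun _ => ν') ≤
        (∫ z, (f z - g ω z) ^ 2 * (φ a z * φ a z) * (ρ z)⁻¹ ∂ν) / M := fun a => by
      have h2 := mc_var ν' (hu a) hM
      rw [hint, hint] at h2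
      have e1 : ∫ z, ρ z * ((f z - g ω z) * φ a z * (ρ z)⁻¹) ∂ν =
          ∫ z, f z * φ a z ∂ν - ∫ z, g ω z * φ a z ∂ν := by
        rw [← integral_sub ((hfb.mul (hφ a)).int _) ((hgω.mul (hφ a)).int _)]
        refine integral_congr_ae (Eventually.of_forall fun z => ?_)
        have := (hρ0 z).ne'
        beta_reduce
        field_simp
      have e2 : ∫ z, ρ z * ((f z - g ω z) * φ a z * (ρ z)⁻¹) ^ 2 ∂ν =
          ∫ z, (f z - g ω z) ^ 2 * (φ a z * φ a z) * (ρ z)⁻¹ ∂ν := by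
        refine integral_congr_ae (Eventually.of_forall fun z => ?_)
        have := (hρ0 z).ne'
        beta_reduce
        field_simp
      rw [e1, e2] at h2
      refine le_of_eq_of_le (integral_congr_ae (Eventually.of_forall fun z => ?_)) h2
      ring
    refine (sum_le_sum fun a _ => h1 a).trans ?_
    have hv : ∀ a, BM fun z => (f z - g ω z) ^ 2 * (φ a z * φ a z) * (ρ z)⁻¹ := fun a =>
      ((hfb.sub hgω).sq.mul ((hφ a).mul (hφ a))).mul hρi
    rw [← sum_div, ← integral_finset_sum _ fun a _ => (hv a).int _, div_mul_eq_mul_div,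
      ← integral_const_mul]
    gcongr ?_ / _
    refine integral_mono ((BM.sum _ fun a _ => hv a).int _)
      (((BM.const _).mul (hfb.sub hgω).sq).int _) fun z => ?_
    beta_reduce
    rw [← sum_mul, ← mul_sum, mul_assoc, mul_comm D]
    refine mul_le_mul_of_nonneg_left ?_ (sq_nonneg _)
    rw [mul_inv_le_iff₀ (hρ0 z)]
    simp only [ρ]
    rw [mul_comm D, mul_assoc, inv_mul_cancel₀ hD0.ne']
    linarith

lemma improve (ν : Measure Z) [IsProbabilityMeasure ν] {𝓕 : Set (Z → ℝ)} (hF : ∀ f ∈ 𝓕, BM f)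
    {N : ℕ} {e : ℝ} (h : Sch 𝓕 Z N (fun f g => ∫ z, (f z - g z) ^ 2 ∂ν) e)
    {Λ : Type} [Fintype Λ] {φ : Λ → Z → ℝ} (hφ : ∀ a, BM (φ a))
    (ho : ∀ a b, ∫ z, φ a z * φ b z ∂ν = if a = b then 1 else 0) {τ : ℝ}
    (hτ : ∀ f ∈ 𝓕, ∫ z, f z ^ 2 ∂ν - ∑ a, (∫ z, f z * φ a z ∂ν) ^ 2 ≤ τ) {M : ℕ} (hM : 0 < M) :
    Sch 𝓕 Z (N + M) (fun f g => ∫ z, (f z - g z) ^ 2 ∂ν)
      (τ + (1 + Fintype.card Λ) / M * e) := by
  letI : MeasurableSpace Λ := ⊤
  obtain ⟨ι, Ω, _, _, μ, _, X, C, hc, h⟩ := coef ν hF h hφ (fun a => by simp [ho]) hM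
  refine ⟨ι, Ω, inferInstance, inferInstance, μ, inferInstance, X,
    fun ω y z => ∑ a, C ω y a * φ a z, hc, fun f hf => ?_⟩
  obtain ⟨hC, he⟩ := h f hf
  have hCa : ∀ a, BM fun ω => C ω (fun i => f (X ω i)) a := fun a =>
    hC.comp (p := fun ω => (ω, a)) (by fun_prop)
  refine ⟨BM.sum _ fun a _ => ((hCa a).comp measurable_fst).mul ((hφ a).comp measurable_snd), ?_⟩
  simp only [pyth ν hφ ho (hF f hf)]
  rw [integral_add (integrable_const _)
    ((BM.sum _ fun a _ => ((hCa a).sub (BM.const _)).sq).int _)]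
  simp only [integral_const, probReal_univ, one_smul]
  exact add_le_add (hτ f hf) he

lemma sch_zero (ν : Measure Z) [IsProbabilityMeasure ν] {𝓕 : Set (Z → ℝ)}
    (hF : ∀ f ∈ 𝓕, ∀ z, |f z| ≤ 1) : Sch 𝓕 Z 0 (fun f g => ∫ z, (f z - g z) ^ 2 ∂ν) 1 := by
  refine ⟨Empty, Unit, inferInstance, ⊤, Measure.dirac (), inferInstance, fun _ i => i.elim,
    fun _ _ _ => 0, by simp, fun f hf => ⟨BM.const 0, ?_⟩⟩
  simp only [sub_zero, integral_const, probReal_univ, one_smul]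
  have := norm_integral_le_of_norm_le_const (μ := ν) (f := fun z => f z ^ 2) (C := 1)
    (Eventually.of_forall fun z => by
      rw [Real.norm_eq_abs, abs_pow]; exact pow_le_one₀ (abs_nonneg _) (hF f hf z))
  simp only [probReal_univ, mul_one] at this
  exact (le_abs_self _).trans this

lemma Sch.mono {𝓕 : Set (Z → ℝ)} {W : Type} [MeasurableSpace W] {N N' : ℕ}
    {err : (Z → ℝ) → (W → ℝ) → ℝ} {e e' : ℝ} (h : Sch 𝓕 W N err e) (hN : N ≤ N') (he : e ≤ e') :
    Sch 𝓕 W N' err e' := by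
  obtain ⟨ι, Ω, _, _, μ, _, X, G, hc, h⟩ := h
  exact ⟨ι, Ω, inferInstance, inferInstance, μ, inferInstance, X, G, hc.trans hN,
    fun f hf => ⟨(h f hf).1, (h f hf).2.trans he⟩⟩

end Pool.Agent.H98.MC
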