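import Pool.Agent.H98.MC1

set_option autoImplicit false

namespace Pool.Agent.H98.MC

open Filter Topology MeasureTheory Finset ProbabilityTheory Module
open scoped ENNReal NNReal Classical RealInnerProductSpace

variable {I : Type} [MeasurableSpace I] (l : Measure I) [IsProbabilityMeasure l]

lemma rep {J : Type} (w : J → I → ℝ) (hw : ∀ j, BM (w j)) {x : Lp ℝ 2 l}
    (hx : x ∈ Submodule.span ℝ (Set.range fun j => ((hw j).memLp l 2).toLp (w j))) :
    ∃ u : I → ℝ, BM u ∧ x =ᵐ[l] u := by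
  induction hx using Submodule.span_induction with
  | mem x hx => obtain ⟨j, rfl⟩ := hx; exact ⟨w j, hw j, MemLp.coeFn_toLp _⟩
  | zero => exact ⟨fun _ => 0, BM.const 0, Lp.coeFn_zero _ _ _⟩
  | add x y _ _ hx hy =>
    obtain ⟨u, hu, hu'⟩ := hx
    obtain ⟨v, hv, hv'⟩ := hy
    exact ⟨_, hu.add hv, (Lp.coeFn_add x y).trans (hu'.add hv')⟩
  | smul a x _ hx =>
    obtain ⟨u, hu, hu'⟩ := hx
    refine ⟨_, (BM.const a).mul hu, (Lp.coeFn_smul a x).trans ?_⟩
    filter_upwards [hu'] with t ht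
    simp [ht]

lemma inner_rep {x y : Lp ℝ 2 l} {u v : I → ℝ} (hx : x =ᵐ[l] u) (hy : y =ᵐ[l] v) :
    ∫ t, u t * v t ∂l = ⟪x, y⟫ := by
  rw [L2.inner_def]
  refine integral_congr_ae ?_
  filter_upwards [hx, hy] with t h1 h2
  simp [h1, h2, mul_comm]

lemma one_dim {J₀ J₁ : Type} [Fintype J₀] [Fintype J₁] (w₀ : J₀ → I → ℝ) (w₁ : J₁ → I → ℝ)
    (h₀ : ∀ j, BM (w₀ j)) (h₁ : ∀ j, BM (w₁ j)) :
    ∃ (n₀ n₁ : ℕ) (e : Fin n₀ ⊕ Fin n₁ → I → ℝ), n₀ ≤ Fintype.card J₀ ∧
      n₁ ≤ Fintype.card J₀ + Fintype.card J₁ ∧ (∀ a, BM (e a)) ∧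
      (∀ a b, ∫ t, e a t * e b t ∂l = if a = b then 1 else 0) ∧
      (∀ j, ∃ β : Fin n₀ ⊕ Fin n₁ → ℝ, ∀ᵐ t ∂l, w₁ j t = ∑ a, β a * e a t) ∧
      ∀ j a, ∫ t, w₀ j t * e (Sum.inr a) t ∂l = 0 := by
  have hw : ∀ j, BM (Sum.elim w₀ w₁ j) := by rintro (j | j); exacts [h₀ j, h₁ j]
  let W₀ := Submodule.span ℝ (Set.range fun j => ((h₀ j).memLp l 2).toLp (w₀ j))
  let W := Submodule.span ℝ (Set.range fun j => ((hw j).memLp l 2).toLp (Sum.elim w₀ w₁ j))
  have hle : W₀ ≤ W := Submodule.span_mono (by rintro _ ⟨j, rfl⟩; exact ⟨Sum.inl j, rfl⟩)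
  haveI : FiniteDimensional ℝ W₀ := FiniteDimensional.span_of_finite ℝ (Set.finite_range _)
  haveI : FiniteDimensional ℝ W := FiniteDimensional.span_of_finite ℝ (Set.finite_range _)
  let W₁ := W₀ᗮ ⊓ W
  haveI : FiniteDimensional ℝ W₁ := Submodule.finiteDimensional_of_le inf_le_right
  let b₀ := stdOrthonormalBasis ℝ W₀
  let b₁ := stdOrthonormalBasis ℝ W₁
  let E : Fin (finrank ℝ W₀) ⊕ Fin (finrank ℝ W₁) → Lp ℝ 2 l :=
    Sum.elim (fun a => b₀ a) fun a => b₁ a
  have hE : ∀ a, E a ∈ W := by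
    rintro (a | a)
    exacts [hle (b₀ a).2, (b₁ a).2.2]
  choose e he he' using fun a => rep l _ hw (hE a)
  refine ⟨_, _, e, finrank_range_le_card _, ?_, he, fun a b => ?_, fun j => ?_, fun j a => ?_⟩
  · refine (Submodule.finrank_mono (inf_le_right : W₁ ≤ W)).trans ?_
    exact (finrank_range_le_card (R := ℝ)
      fun j => ((hw j).memLp l 2).toLp (Sum.elim w₀ w₁ j)).trans (by simp)
  · rw [inner_rep l (he' a) (he' b)]
    rcases a with a | a <;> rcases b with b | b
    · simpa [E] using orthonormal_iff_ite.1 b₀.orthonormal a b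
    · simpa [E] using Submodule.inner_right_of_mem_orthogonal (b₀ a).2 (b₁ b).2.1
    · simpa [E] using Submodule.inner_left_of_mem_orthogonal (b₀ b).2 (b₁ a).2.1
    · simpa [E] using orthonormal_iff_ite.1 b₁.orthonormal a b
  · have h2 : ((h₁ j).memLp l 2).toLp (w₁ j) ∈ W₀ ⊔ W₁ := by
      rw [Submodule.sup_orthogonal_inf_of_hasOrthogonalProjection hle]
      exact Submodule.subset_span ⟨Sum.inr j, rfl⟩
    obtain ⟨x, hx, y, hy, hxy⟩ := Submodule.mem_sup.1 h2
    let β : Fin (finrank ℝ W₀) ⊕ Fin (finrank ℝ W₁) → ℝ :=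
      Sum.elim (fun a => b₀.repr ⟨x, hx⟩ a) fun a => b₁.repr ⟨y, hy⟩ a
    have h3 : ((h₁ j).memLp l 2).toLp (w₁ j) = ∑ a, β a • E a := by
      rw [← hxy, Fintype.sum_sum_type]
      congr 1
      · simpa [β, E] using (congrArg Subtype.val (b₀.sum_repr ⟨x, hx⟩)).symm
      · simpa [β, E] using (congrArg Subtype.val (b₁.sum_repr ⟨y, hy⟩)).symm
    refine ⟨β, ?_⟩
    have h4 := Lp.coeFn_finsetSum (univ) fun a => β a • E a
    have h5 : ∀ᵐ t ∂l, ∀ a, (β a • E a) t = β a * e a t := ae_all_iff.2 fun a => by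
      filter_upwards [Lp.coeFn_smul (β a) (E a), he' a] with t h6 h7
      rw [h6, Pi.smul_apply, h7, smul_eq_mul]
    filter_upwards [((h₁ j).memLp l 2).coeFn_toLp, h4, h5] with t h6 h7 h8
    rw [← h6, h3, h7]
    simp [h8]
  · rw [inner_rep l ((h₀ j).memLp l 2).coeFn_toLp (he' (Sum.inr a))]
    exact Submodule.inner_right_of_mem_orthogonal (K := W₀)
      (Submodule.subset_span (Set.mem_range_self j)) (b₁ a).2.1

variable {d : ℕ}

lemma mp_update (i : Fin d) : MeasurePreserving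
    (fun p : (Fin d → I) × I => Function.update p.1 i p.2)
    ((Measure.pi fun _ => l).prod l) (Measure.pi fun _ => l) := by
  have hm : Measurable fun p : (Fin d → I) × I => Function.update p.1 i p.2 := by fun_prop
  refine ⟨hm, (Measure.pi_eq fun s hs => ?_).symm⟩
  rw [Measure.map_apply hm (MeasurableSet.univ_pi hs)]
  have : (fun p : (Fin d → I) × I => Function.update p.1 i p.2) ⁻¹' Set.univ.pi s =
      (Set.univ.pi (Function.update s i Set.univ)) ×ˢ s i := by
    ext p
    simp only [Set.mem_preimage, Set.mem_pi, Set.mem_univ, true_imp_iff, Set.mem_prod]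
    constructor
    · intro h
      refine ⟨fun j => ?_, by simpa using h i⟩
      by_cases hj : j = i
      · subst hj; simp
      · simpa [hj] using h j
    · rintro ⟨h1, h2⟩ j
      by_cases hj : j = i
      · subst hj; simpa using h2
      · simpa [hj] using h1 j
  rw [this, Measure.prod_prod, Measure.pi_pi, ← mul_prod_erase _ _ (mem_univ i),
    ← mul_prod_erase _ (fun j => l (s j)) (mem_univ i), Function.update_self, measure_univ,
    one_mul, mul_comm]
  congr 1
  exact prod_congr rfl fun j hj => by rw [Function.update_of_ne (ne_of_mem_erase hj)]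

lemma indep (i : Fin d) {H : (Fin d → I) → ℝ} (hH : BM H)
    (hi : ∀ x t, H (Function.update x i t) = H x) {ψ : I → ℝ} (hψ : BM ψ)
    (h0 : ∫ t, ψ t ∂l = 0) : ∫ x, H x * ψ (x i) ∂(Measure.pi fun _ => l) = 0 := by
  rw [← (mp_update l i).map_eq, integral_map (mp_update l i).measurable.aemeasurable
    (hH.mul (hψ.comp (measurable_pi_apply i))).1.aestronglyMeasurable]
  simp only [hi, Function.update_self]
  rw [integral_prod_mul, h0, mul_zero]

lemma int_sq_le {Z : Type} [MeasurableSpace Z] (ν : Measure Z) [IsProbabilityMeasure ν]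
    {u : Z → ℝ} {η : ℝ} (h : ∀ z, |u z| ≤ η) : ∫ z, u z ^ 2 ∂ν ≤ η ^ 2 := by
  have := norm_integral_le_of_norm_le_const (μ := ν) (f := fun z => u z ^ 2) (C := η ^ 2)
    (Eventually.of_forall fun z => by
      rw [Real.norm_eq_abs, abs_pow]; exact pow_le_pow_left₀ (abs_nonneg _) (h z) 2)
  simp only [probReal_univ, mul_one] at this
  exact (le_abs_self _).trans this

theorem tensor (hd : 0 < d) (s : ℕ) {J₀ J₁ : Type} [Fintype J₀] [Fintype J₁] (w₀ : J₀ → I → ℝ)
    (w₁ : J₁ → I → ℝ) (h₀ : ∀ j, BM (w₀ j)) (h₁ : ∀ j, BM (w₁ j)) :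
    ∃ (Λ : Type) (_ : Fintype Λ) (φ : Λ → (Fin d → I) → ℝ), (∀ a, BM (φ a)) ∧
      (∀ a b, ∫ z, φ a z * φ b z ∂(Measure.pi fun _ => l) = if a = b then 1 else 0) ∧
      (Fintype.card Λ : ℝ) ≤ d ^ s * (2 * Fintype.card J₀ + Fintype.card J₁ / d) ^ d ∧
      ∀ (f : (Fin d → I) → ℝ) (η : ℝ), BM f →
        (∃ v ∈ Submodule.span ℝ (Set.range fun (j : Fin d → J₁) (x : Fin d → I) =>
          ∏ i, w₁ (j i) (x i)), ∀ x, |f x - v x| ≤ η) →
        (∀ i, ∃ H : J₀ → (Fin d → I) → ℝ, (∀ j, BM (H j)) ∧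
          (∀ j x t, H j (Function.update x i t) = H j x) ∧
          ∀ x, |f x - ∑ j, H j x * w₀ j (x i)| ≤ η) →
        ∫ z, f z ^ 2 ∂(Measure.pi fun _ => l) -
          ∑ a, (∫ z, f z * φ a z ∂(Measure.pi fun _ => l)) ^ 2 ≤ (1 + d / (s + 1)) * η ^ 2 := by
  obtain ⟨n₀, n₁, e, hn₀, hn₁, he, ho, hsp, hor⟩ := one_dim l w₀ w₁ h₀ h₁
  let φ : (Fin d → Fin n₀ ⊕ Fin n₁) → (Fin d → I) → ℝ := fun a x => ∏ i, e (a i) (x i)
  have hφ : ∀ a, BM (φ a) := fun a => BM.prod _ fun i _ => (he _).comp (measurable_pi_apply i)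
  have hφo : ∀ a b, ∫ z, φ a z * φ b z ∂(Measure.pi fun _ => l) = if a = b then 1 else 0 :=
    fun a b => by
    simp only [φ, ← prod_mul_distrib]
    rw [integral_fintype_prod_eq_prod (fun i t => e (a i) t * e (b i) t)]
    simp only [ho, prod_ite_zero, mem_univ, true_imp_iff, prod_const_one, funext_iff]
  let cnt : (Fin d → Fin n₀ ⊕ Fin n₁) → ℕ := fun a => (univ.filter fun i => (a i).isRight).card
  have hd' : (0 : ℝ) < d := by exact_mod_cast hd
  have hd1 : (1 : ℝ) ≤ d := by exact_mod_cast hd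
  refine ⟨{a // cnt a ≤ s}, inferInstance, fun a => φ a, fun a => hφ _, fun a b => ?_, ?_,
    fun f η hf h1 h2 => ?_⟩
  · rw [hφo]; simp only [Subtype.val_inj]; congr
  · let wt : Fin n₀ ⊕ Fin n₁ → ℝ := fun b => if b.isRight then (d : ℝ)⁻¹ else 1
    have hwt : ∀ b, 0 ≤ wt b := fun b => by simp only [wt]; split_ifs <;> positivity
    have h3 : ∑ b, wt b ≤ 2 * Fintype.card J₀ + Fintype.card J₁ / d := by
      simp only [wt, Fintype.sum_sum_type, Sum.isRight_inl, Sum.isRight_inr, Bool.false_eq_true,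
        if_false, if_true, sum_const, card_univ, Fintype.card_fin, nsmul_eq_mul, mul_one]
      have a1 : (n₀ : ℝ) ≤ Fintype.card J₀ := by exact_mod_cast hn₀
      have a2 : (n₁ : ℝ) ≤ Fintype.card J₀ + Fintype.card J₁ := by exact_mod_cast hn₁
      have a3 : (n₁ : ℝ) * (d : ℝ)⁻¹ ≤ (Fintype.card J₀ + Fintype.card J₁) * (d : ℝ)⁻¹ := by gcongr
      have a4 : (Fintype.card J₀ : ℝ) * (d : ℝ)⁻¹ ≤ Fintype.card J₀ :=
        mul_le_of_le_one_right (Nat.cast_nonneg _) (inv_le_one_of_one_le₀ hd1)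
      rw [div_eq_mul_inv]
      linarith
    refine le_trans ?_ (mul_le_mul_of_nonneg_left
      (pow_le_pow_left₀ (sum_nonneg fun b _ => hwt b) h3 d) (by positivity))
    rw [Fintype.sum_pow, mul_sum, Fintype.card_subtype, card_filter]
    push_cast
    refine sum_le_sum fun a _ => ?_
    split_ifs with h
    · simp only [wt, prod_ite, prod_const, one_pow, mul_one, inv_pow]
      rw [← div_eq_mul_inv, one_le_div (by positivity)]
      exact pow_le_pow_right₀ hd1 h
    · exact mul_nonneg (by positivity) (prod_nonneg fun i _ => hwt _)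
  · set c : (Fin d → Fin n₀ ⊕ Fin n₁) → ℝ := fun a => ∫ z, f z * φ a z ∂(Measure.pi fun _ => l)
      with hc
    have A : ∫ z, f z ^ 2 ∂(Measure.pi fun _ => l) - ∑ a, c a ^ 2 ≤ η ^ 2 := by
      obtain ⟨v, hv, hη⟩ := h1
      have h3 : ∃ b : (Fin d → Fin n₀ ⊕ Fin n₁) → ℝ,
          ∀ᵐ x ∂(Measure.pi fun _ => l), v x = ∑ a, b a * φ a x := by
        clear hη
        induction hv using Submodule.span_induction with
        | mem x hx =>
          obtain ⟨j, rfl⟩ := hx
          choose β hβ using hsp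
          refine ⟨fun a => ∏ i, β (j i) (a i), ?_⟩
          have : ∀ᵐ x ∂(Measure.pi fun _ : Fin d => l), ∀ i,
              w₁ (j i) (x i) = ∑ a, β (j i) a * e a (x i) := ae_all_iff.2 fun i =>
            (Measure.tendsto_eval_ae_ae (μ := fun _ : Fin d => l) (i := i)).eventually (hβ (j i))
          filter_upwards [this] with x hx
          simp only [hx, φ, ← prod_mul_distrib]
          rw [Finset.prod_univ_sum, Fintype.piFinset_univ]
        | zero => exact ⟨0, by simp⟩
        | add x y _ _ hx hy =>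
          obtain ⟨b, hb⟩ := hx
          obtain ⟨b', hb'⟩ := hy
          refine ⟨b + b', ?_⟩
          filter_upwards [hb, hb'] with z h4 h5
          simp [h4, h5, add_mul, sum_add_distrib]
        | smul a x _ hx =>
          obtain ⟨b, hb⟩ := hx
          refine ⟨a • b, ?_⟩
          filter_upwards [hb] with z h4
          simp [h4, mul_sum, mul_assoc]
      obtain ⟨b, hb⟩ := h3
      have h4 := pyth _ hφ (fun a b => by convert hφo a b) hf b
      have h5 := int_sq_le (Measure.pi fun _ : Fin d => l) hη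
      rw [integral_congr_ae (g := fun z => (f z - ∑ a, b a * φ a z) ^ 2)
        (by filter_upwards [hb] with z hz; rw [hz]), h4] at h5
      have h6 : 0 ≤ ∑ a, (b a - c a) ^ 2 := sum_nonneg fun a _ => sq_nonneg _
      simp only [hc] at h6 ⊢
      linarith
    have B : ∀ i, ∑ a, (if (a i).isRight then c a ^ 2 else 0) ≤ η ^ 2 := fun i => by
      obtain ⟨H, hH, hHi, hη⟩ := h2 i
      have hu : BM fun x => ∑ j, H j x * w₀ j (x i) :=
        BM.sum _ fun j _ => (hH j).mul ((h₀ j).comp (measurable_pi_apply i))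
      have h4 := pyth _ hφ (fun a b => by convert hφo a b) (hf.sub hu) fun a =>
        ∫ z, (f z - ∑ j, H j z * w₀ j (z i)) * φ a z ∂(Measure.pi fun _ => l)
      have h5 := int_sq_le (Measure.pi fun _ : Fin d => l) hη
      have h6 := (integral_nonneg fun z => sq_nonneg _).trans_eq h4
      simp only [sub_self, ne_eq, OfNat.ofNat_ne_zero, not_false_eq_true, zero_pow, sum_const_zero,
        add_zero, sub_nonneg] at h6
      refine le_trans (sum_le_sum fun a _ => ?_) (h6.trans h5)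
      split_ifs with h
      · refine le_of_eq ?_
        congr 1
        obtain ⟨b, hb⟩ := Sum.isRight_iff.1 h
        simp only [sub_mul, hc]
        rw [integral_sub ((hf.mul (hφ a)).int _) ((hu.mul (hφ a)).int _), eq_comm, sub_eq_self]
        simp only [sum_mul]
        rw [integral_finset_sum _ fun j _ =>
          (((hH j).mul ((h₀ j).comp (measurable_pi_apply i))).mul (hφ a)).int _]
        refine sum_eq_zero fun j _ => ?_
        rw [← indep l i (H := fun x => H j x * ∏ i' ∈ univ.erase i, e (a i') (x i'))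
          ((hH j).mul (BM.prod _ fun i' _ => (he _).comp (measurable_pi_apply i')))
          (fun x t => ?_) ((h₀ j).mul (he (Sum.inr b))) (hor j b)]
        · refine integral_congr_ae (Eventually.of_forall fun x => ?_)
          simp only [φ]
          rw [← mul_prod_erase _ _ (mem_univ i), hb]
          ring
        · rw [hHi]
          congr 1
          exact prod_congr rfl fun i' hi' => by rw [Function.update_of_ne (ne_of_mem_erase hi')]
      · exact sq_nonneg _
    have C : ∑ a, (cnt a : ℝ) * c a ^ 2 ≤ d * η ^ 2 := by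
      have := sum_le_sum (s := univ) fun i _ => B i
      rw [sum_comm] at this
      simp only [sum_const, card_univ, Fintype.card_fin, nsmul_eq_mul] at this
      refine le_of_eq_of_le (sum_congr rfl fun a _ => ?_) this
      simp only [cnt, card_filter, Nat.cast_sum, sum_mul]
      exact sum_congr rfl fun i _ => by split_ifs <;> simp
    have D : ∑ a, c a ^ 2 - ∑ a : {a // cnt a ≤ s}, c a ^ 2 ≤
        (∑ a, (cnt a : ℝ) * c a ^ 2) / (s + 1) := by
      rw [← Finset.sum_subtype (univ.filter fun a => cnt a ≤ s) (by simp) (fun a => c a ^ 2),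
        sum_filter, ← sum_sub_distrib, sum_div]
      refine sum_le_sum fun a _ => ?_
      split_ifs with h
      · rw [sub_self]; positivity
      · rw [sub_zero, le_div_iff₀ (by positivity), mul_comm]
        refine mul_le_mul_of_nonneg_right ?_ (sq_nonneg _)
        exact_mod_cast not_le.1 h
    have E : (∑ a, (cnt a : ℝ) * c a ^ 2) / (s + 1) ≤ d * η ^ 2 / (s + 1) := by gcongr
    have e2 : (1 + (d : ℝ) / (s + 1)) * η ^ 2 = η ^ 2 + d * η ^ 2 / (s + 1) := by ring
    simp only [hc] at A D E ⊢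
    linarith

end Pool.Agent.H98.MC
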