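import Pool.Agent.H98.MC2

set_option autoImplicit false

namespace Pool.Agent.H98.MC

open Filter Topology MeasureTheory Finset
open scoped ENNReal NNReal Classical Nat

abbrev II : Type := Set.Ioo (0 : ℝ) 1

/-- Lebesgue measure on the open unit interval. -/
noncomputable def lam : Measure II := Measure.comap Subtype.val volume

instance : IsProbabilityMeasure lam := ⟨by
  rw [lam, comap_subtype_coe_apply measurableSet_Ioo, Subtype.coe_image_univ]; simp⟩

/-- the open cube. -/
def oc (d : ℕ) : Set (Fin d → ℝ) := Set.univ.pi fun _ => Set.Ioo 0 1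

/-- the smoothness class. -/
def Cl (d k : ℕ) (f : (Fin d → ℝ) → ℝ) : Prop :=
  ContDiffOn ℝ k f (oc d) ∧ ∀ j ≤ k, ∀ r : Fin j → Fin d, ∀ x ∈ oc d,
    |iteratedFDeriv ℝ j f x fun l => Pi.single (r l) 1| ≤ 1

variable {d k : ℕ}

/-- embedding of the open cube. -/
def emb (x : Fin d → II) : Fin d → ℝ := fun i => x i

lemma emb_mem (x : Fin d → II) : emb x ∈ oc d := fun i _ => (x i).2

lemma cont_emb : Continuous (emb : (Fin d → II) → Fin d → ℝ) := by unfold emb; fun_prop

lemma oc_open : IsOpen (oc d) := isOpen_set_pi Set.finite_univ fun _ _ => isOpen_Ioo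

lemma expand {p : ℕ} (D : ContinuousMultilinearMap ℝ (fun _ : Fin p => Fin d → ℝ) ℝ)
    (y : Fin d → ℝ) : D (fun _ => y) =
      ∑ r : Fin p → Fin d, (∏ l, y (r l)) * D fun l => Pi.single (r l) 1 := by
  have : (fun _ : Fin p => y) = fun _ => ∑ i, y i • (Pi.single i 1 : Fin d → ℝ) := by
    ext l i; simp [Pi.single_apply]
  rw [this, D.map_sum]
  exact sum_congr rfl fun r _ => by rw [D.map_smul_univ, smul_eq_mul]

lemma taylor {f : (Fin d → ℝ) → ℝ} (hk : 0 < k) (hf : Cl d k f) {c x : Fin d → ℝ}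
    (hc : c ∈ oc d) (hx : x ∈ oc d) :
    |f x - ∑ p : Fin k, ((p : ℕ)! : ℝ)⁻¹ * iteratedFDeriv ℝ p f c (fun _ => x - c)| ≤
      (∑ i, |x i - c i|) ^ k := by
  obtain ⟨n, rfl⟩ : ∃ n, k = n + 1 := ⟨k - 1, by omega⟩
  have hm : ∀ t ∈ Set.Icc (0 : ℝ) 1, c + t • (x - c) ∈ oc d := fun t ht =>
    (convex_pi fun _ _ => convex_Ioo 0 1).add_smul_sub_mem hc hx ht
  have h := map_add_eq_sum_add_integral_iteratedFDeriv (f := f) (x := c) (y := x - c) (n := n)
    fun t ht => by exact_mod_cast hf.1.contDiffAt (oc_open.mem_nhds (hm t ht))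
  rw [add_sub_cancel, Finset.sum_range] at h
  simp only [smul_eq_mul] at h
  rw [h, add_sub_cancel_left, abs_mul]
  have h1 : |((n ! : ℕ) : ℝ)⁻¹| ≤ 1 := by
    rw [abs_of_nonneg (by positivity)]
    exact inv_le_one_of_one_le₀ (by exact_mod_cast Nat.factorial_pos n)
  refine (mul_le_of_le_one_left (abs_nonneg _) h1).trans ?_
  have h2 := intervalIntegral.norm_integral_le_of_norm_le_const (a := 0) (b := 1)
    (C := (∑ i, |x i - c i|) ^ (n + 1)) (f := fun t : ℝ => (1 - t) ^ n *
      iteratedFDeriv ℝ (n + 1) f (c + t • (x - c)) fun _ => x - c) fun t ht => by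
    rw [Set.uIoc_of_le zero_le_one] at ht
    rw [Real.norm_eq_abs, abs_mul, abs_pow]
    refine (mul_le_of_le_one_left (abs_nonneg _) (pow_le_one₀ (abs_nonneg _)
      (abs_le.2 ⟨by linarith [ht.2], by linarith [ht.1]⟩))).trans ?_
    rw [expand, Fintype.sum_pow]
    refine (abs_sum_le_sum_abs _ _).trans (sum_le_sum fun r _ => ?_)
    rw [abs_mul, abs_prod]
    exact mul_le_of_le_one_right (prod_nonneg fun _ _ => abs_nonneg _)
      (hf.2 _ le_rfl r _ (hm t ⟨ht.1.le, ht.2⟩))
  simpa using h2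

/-- cell centres. -/
noncomputable def ctr {m : ℕ} (q : Fin m) : II := ⟨((q : ℕ) + 1 / 2) / m, by
  have h : ((q : ℕ) : ℝ) + 1 ≤ m := by exact_mod_cast q.2
  have h0 : (0 : ℝ) ≤ (q : ℕ) := Nat.cast_nonneg _
  exact ⟨div_pos (by linarith) (by linarith), (div_lt_one (by linarith)).2 (by linarith)⟩⟩

/-- cell index. -/
noncomputable def cell {m : ℕ} (hm : 0 < m) (t : II) : Fin m := ⟨⌊(m : ℝ) * t⌋₊, by
  have h : (0 : ℝ) < m := by exact_mod_cast hm
  exact (Nat.floor_lt (mul_pos h t.2.1).le).2 (mul_lt_of_lt_one_right h t.2.2)⟩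

lemma cell_close {m : ℕ} (hm : 0 < m) (t : II) : |(t : ℝ) - ctr (cell hm t)| ≤ 1 / m := by
  have h : (0 : ℝ) < m := by exact_mod_cast hm
  have h1 := Nat.floor_le (mul_pos h t.2.1).le
  have h2 := Nat.lt_floor_add_one ((m : ℝ) * t)
  have e : (t : ℝ) - ctr (cell hm t) = (m * t - (⌊(m : ℝ) * t⌋₊ + 1 / 2)) / m := by
    simp only [ctr, cell]; field_simp
  rw [e, abs_div, abs_of_pos h]
  gcongr
  rw [abs_le]; constructor <;> linarith

/-- local monomials. -/
noncomputable def ww {m : ℕ} (hm : 0 < m) (k : ℕ) (j : Fin m × Fin k) (t : II) : ℝ :=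
  if cell hm t = j.1 then ((t : ℝ) - ctr j.1) ^ (j.2 : ℕ) else 0

lemma bm_ww {m : ℕ} (hm : 0 < m) (k : ℕ) (j : Fin m × Fin k) : BM (ww hm k j) := by
  refine ⟨Measurable.ite ?_ (by fun_prop) measurable_const, 1, fun t => ?_⟩
  · simp only [cell, Fin.ext_iff]
    exact (Nat.measurable_floor.comp (measurable_subtype_coe.const_mul (m : ℝ)))
      (measurableSet_singleton (j.1 : ℕ))
  · unfold ww
    split_ifs
    · rw [abs_pow]
      refine pow_le_one₀ (abs_nonneg _) (abs_le.2 ⟨?_, ?_⟩)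
      · linarith [t.2.1, (ctr j.1).2.2]
      · linarith [t.2.2, (ctr j.1).2.1]
    · simp

lemma bm_cl {f : (Fin d → ℝ) → ℝ} (hf : Cl d k f) {p : ℕ} (hp : p ≤ k) (r : Fin p → Fin d) :
    BM fun x => iteratedFDeriv ℝ p f (emb x) fun l => Pi.single (r l) 1 := by
  refine ⟨Continuous.measurable ?_, 1, fun x => hf.2 p hp r _ (emb_mem x)⟩
  refine Continuous.eval_const (continuous_iff_continuousAt.2 fun x => ?_) _
  exact ((hf.1.contDiffAt (oc_open.mem_nhds (emb_mem x))).continuousAt_iteratedFDeriv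
    (by exact_mod_cast hp)).comp cont_emb.continuousAt

lemma bm_cl0 {f : (Fin d → ℝ) → ℝ} (hf : Cl d k f) : BM fun x => f (emb x) := by
  simpa using bm_cl hf (Nat.zero_le k) Fin.elim0

lemma bd_cl0 {f : (Fin d → ℝ) → ℝ} (hf : Cl d k f) (x : Fin d → II) : |f (emb x)| ≤ 1 := by
  simpa using hf.2 0 (Nat.zero_le k) Fin.elim0 _ (emb_mem x)

theorem space (hd : 0 < d) (hk : 0 < k) (s : ℕ) {m : ℕ} (hm : 0 < m) :
    ∃ (Λ : Type) (_ : Fintype Λ) (ψ : Λ → (Fin d → II) → ℝ), (∀ a, BM (ψ a)) ∧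
      (∀ a b, ∫ z, ψ a z * ψ b z ∂(Measure.pi fun _ => lam) = if a = b then 1 else 0) ∧
      (Fintype.card Λ : ℝ) ≤ d ^ s * (3 * k * m) ^ d ∧
      ∀ f, Cl d k f → ∫ z, f (emb z) ^ 2 ∂(Measure.pi fun _ => lam) -
          ∑ a, (∫ z, f (emb z) * ψ a z ∂(Measure.pi fun _ => lam)) ^ 2 ≤
          (1 + d / (s + 1)) * ((1 / m) ^ k) ^ 2 := by
  have hmd : 0 < m * d := Nat.mul_pos hm hd
  have hd' : (0 : ℝ) < d := by exact_mod_cast hd
  have hm' : (0 : ℝ) < m := by exact_mod_cast hm
  obtain ⟨Λ, _, ψ, h1, h2, h3, h4⟩ := tensor lam hd s (ww hm k) (ww hmd k) (bm_ww hm k)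
    (bm_ww hmd k)
  refine ⟨Λ, inferInstance, ψ, h1, h2, h3.trans (le_of_eq ?_), fun f hf =>
    h4 _ _ (bm_cl0 hf) ?_ fun i => ?_⟩
  · simp only [Fintype.card_prod, Fintype.card_fin]
    push_cast
    congr 2
    field_simp
    ring
  · let cn : (p : Fin k) → (Fin p → Fin d) → Fin d → Fin k := fun p r i =>
      ⟨(univ.filter fun l => r l = i).card, ((card_filter_le _ _).trans (by simp)).trans_lt p.2⟩
    refine ⟨∑ q : Fin d → Fin (m * d), ∑ p : Fin k, ∑ r : Fin p → Fin d,
      (((p : ℕ)! : ℝ)⁻¹ * iteratedFDeriv ℝ p f (emb fun i => ctr (q i))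
        fun l => Pi.single (r l) 1) • fun x : Fin d → II => ∏ i, ww hmd k (q i, cn p r i) (x i),
      Submodule.sum_mem _ fun q _ => Submodule.sum_mem _ fun p _ => Submodule.sum_mem _ fun r _ =>
        Submodule.smul_mem _ _ (Submodule.subset_span ⟨fun i => (q i, cn p r i), rfl⟩),
      fun x => ?_⟩
    have h5 := taylor hk hf (emb_mem fun i => ctr (cell hmd (x i))) (emb_mem x)
    refine le_trans (le_of_eq ?_) (h5.trans (pow_le_pow_left₀
      (sum_nonneg fun _ _ => abs_nonneg _) ?_ k))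
    · congr 2
      simp only [Finset.sum_apply, Pi.smul_apply, smul_eq_mul]
      rw [sum_eq_single (fun i => cell hmd (x i))]
      · refine sum_congr rfl fun p _ => ?_
        rw [expand, mul_sum]
        refine sum_congr rfl fun r _ => ?_
        rw [← prod_fiberwise' univ r]
        simp only [ww, if_true, prod_const, cn, emb, Pi.sub_apply]
        ring
      · intro q _ hq
        obtain ⟨i, hi⟩ := Function.ne_iff.1 hq
        refine sum_eq_zero fun p _ => sum_eq_zero fun r _ => ?_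
        rw [prod_eq_zero (mem_univ i) (by simp [ww, hi.symm]), mul_zero]
      · simp
    · refine (sum_le_sum fun i _ => cell_close hmd (x i)).trans (le_of_eq ?_)
      simp only [sum_const, card_univ, Fintype.card_fin, nsmul_eq_mul]
      push_cast
      field_simp
  · refine ⟨fun j x => (((j.2 : ℕ)! : ℝ)⁻¹ * iteratedFDeriv ℝ j.2 f
      (emb (Function.update x i (ctr j.1))) fun _ => Pi.single i 1), fun j => (BM.const _).mul
        ((bm_cl hf j.2.2.le fun _ => i).comp (p := fun x => Function.update x i (ctr j.1))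
          (by fun_prop)), fun j x t => by simp, fun x => ?_⟩
    have h5 := taylor hk hf (emb_mem (Function.update x i (ctr (cell hm (x i))))) (emb_mem x)
    have e : emb x - emb (Function.update x i (ctr (cell hm (x i)))) =
        ((x i : ℝ) - ctr (cell hm (x i))) • (Pi.single i 1 : Fin d → ℝ) := by
      ext j
      by_cases hj : j = i
      · subst hj; simp [emb]
      · simp [emb, hj]
    refine le_trans (le_of_eq ?_) (h5.trans (pow_le_pow_left₀
      (sum_nonneg fun _ _ => abs_nonneg _) ?_ k))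
    · congr 2
      rw [Fintype.sum_prod_type, sum_eq_single (cell hm (x i))]
      · refine sum_congr rfl fun p _ => ?_
        rw [e, ContinuousMultilinearMap.map_smul_univ]
        simp only [ww, if_true, prod_const, card_univ, Fintype.card_fin, smul_eq_mul]
        ring
      · intro q _ hq
        exact sum_eq_zero fun p _ => by simp [ww, hq.symm]
      · simp
    · rw [sum_eq_single i]
      · simpa [emb] using cell_close hm (x i)
      · intro j _ hj; simp [emb, hj]
      · simp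

end Pool.Agent.H98.MC
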