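import Pool.Agent.H98.MC3

set_option autoImplicit false

namespace Pool.Agent.H98.MC

open Filter Topology MeasureTheory Finset
open scoped ENNReal NNReal Classical

/-- the class, read on the open cube. -/
def FF (d k : ℕ) : Set ((Fin d → II) → ℝ) := {g | ∃ f, Cl d k f ∧ g = fun x => f (emb x)}

variable {d k : ℕ}

lemma FF_bm : ∀ g ∈ FF d k, BM g := by rintro _ ⟨f, hf, rfl⟩; exact bm_cl0 hf

lemma levels (hd : 0 < d) (hk : 0 < k) (s j : ℕ) :
    Sch (FF d k) (Fin d → II) (if j = 0 then 0 else 2 * (4 * 4 ^ k * (d ^ s * (3 * k) ^ d)) *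
      2 ^ (j * d)) (fun f g => ∫ z, (f z - g z) ^ 2 ∂(Measure.pi fun _ => lam))
      (2 * (1 + d / (s + 1)) * ((1 / 2 ^ j) ^ k) ^ 2) := by
  have hT : (1 : ℝ) ≤ 1 + d / (s + 1) := le_add_of_nonneg_right (by positivity)
  induction j with
  | zero =>
    refine (sch_zero _ ?_).mono (by simp) (by simp only [pow_zero, div_one, one_pow]; linarith)
    rintro _ ⟨f, hf, rfl⟩
    exact bd_cl0 hf
  | succ j ih =>
    obtain ⟨Λ, _, φ, h1, h2, h3, h4⟩ := space hd hk s (m := 2 ^ (j + 1)) (by positivity)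
    set P : ℕ := d ^ s * (3 * k) ^ d with hP
    have hP0 : 0 < P := by positivity
    have h5 := improve _ FF_bm ih h1 h2 (τ := (1 + d / (s + 1)) * ((1 / 2 ^ (j + 1)) ^ k) ^ 2)
      (by rintro _ ⟨f, hf, rfl⟩; simpa using h4 f hf) (M := 4 * 4 ^ k * P * 2 ^ ((j + 1) * d))
      (by positivity)
    refine h5.mono ?_ ?_
    · rw [if_neg j.succ_ne_zero]
      have h6 : 2 * 2 ^ (j * d) ≤ 2 ^ ((j + 1) * d) := by
        rw [← pow_succ']; exact Nat.pow_le_pow_right (by norm_num) (by nlinarith)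
      have h7 := Nat.mul_le_mul_left (4 * 4 ^ k * P) h6
      split_ifs <;> nlinarith [Nat.zero_le (4 * 4 ^ k * P * 2 ^ ((j + 1) * d))]
    · have h6 : (Fintype.card Λ : ℝ) ≤ P * 2 ^ ((j + 1) * d) := by
        refine h3.trans (le_of_eq ?_)
        rw [hP, pow_mul]; push_cast; rw [mul_pow _ (_ ^ _)]; ring
      have h7 : (1 : ℝ) ≤ P * 2 ^ ((j + 1) * d) := by
        exact_mod_cast Nat.succ_le_of_lt (by positivity)
      have h8 : (1 + Fintype.card Λ : ℝ) / ((4 * 4 ^ k * P * 2 ^ ((j + 1) * d) : ℕ) : ℝ) ≤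
          1 / (2 * 4 ^ k) := by
        push_cast
        rw [div_le_div_iff₀ (by positivity) (by positivity)]
        have : (0 : ℝ) < 4 ^ k := by positivity
        nlinarith
      refine (add_le_add_right (mul_le_mul_of_nonneg_right h8 (by positivity)) _).trans
        (le_of_eq ?_)
      have h9 : (4 : ℝ) ^ k = (2 ^ k) ^ 2 := by rw [← pow_mul, mul_comm, pow_mul]; norm_num
      rw [h9, pow_succ (2 : ℝ) j]
      simp only [div_pow, one_pow, mul_pow]
      field_simp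
      ring

theorem final {t : ℝ} (ht : 0 < t) (hk : 0 < k) : ∃ C : ℝ, 0 ≤ C ∧ ∀ d n : ℕ, 0 < d → 0 < n →
    Sch (FF d k) Unit n (fun g c => (c () - ∫ z, g z ∂(Measure.pi fun _ => lam)) ^ 2)
      ((C * (d : ℝ) ^ t * (n : ℝ) ^ (-(k : ℝ) / d - 1 / 2)) ^ 2) := by
  refine ⟨√(8 * (1 + k / t)) * (2 ^ k * (48 * k * 4 ^ k) ^ k), by positivity,
    fun d n hd hn => ?_⟩
  have hd' : (0 : ℝ) < d := by exact_mod_cast hd
  have hd1 : (1 : ℝ) ≤ d := by exact_mod_cast hd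
  have hk' : (0 : ℝ) < k := by exact_mod_cast hk
  have hn' : (0 : ℝ) < n := by exact_mod_cast hn
  set s : ℕ := ⌊t / k * d⌋₊ with hs
  have hs1 : (s : ℝ) ≤ t / k * d := Nat.floor_le (by positivity)
  have hs2 : t / k * d < s + 1 := Nat.lt_floor_add_one _
  set L : ℕ := 4 * 4 ^ k * (d ^ s * (3 * k) ^ d) with hL
  have hL0 : 0 < L := by positivity
  have hex : ∃ j, n / 2 < 2 * L * 2 ^ ((j + 1) * d) := ⟨n, by
    have h1 : n < 2 ^ n := Nat.lt_two_pow_self
    have h2 : 2 ^ n ≤ 2 ^ ((n + 1) * d) := Nat.pow_le_pow_right (by norm_num) (by nlinarith)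
    have h3 : n / 2 ≤ n := Nat.div_le_self _ _
    nlinarith⟩
  set j := Nat.find hex with hj
  have hj1 : n / 2 < 2 * L * 2 ^ ((j + 1) * d) := Nat.find_spec hex
  have hj2 : (if j = 0 then 0 else 2 * L * 2 ^ (j * d)) ≤ n / 2 := by
    split_ifs with h
    · exact Nat.zero_le _
    · have := Nat.find_min hex (show j - 1 < j by omega)
      rw [Nat.sub_add_cancel (by omega)] at this
      omega
  have h1 := coef _ FF_bm ((levels hd hk s j).mono hj2 le_rfl) (Λ := Unit) (φ := fun _ _ => 1)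
    (fun _ => BM.const 1) (by simp) (M := n - n / 2) (by omega)
  simp only [univ_unique, sum_singleton, mul_one, Fintype.card_unique, Nat.cast_one] at h1
  refine h1.mono (by omega) ?_
  have h2 : (1 + 1 : ℝ) / ((n - n / 2 : ℕ) : ℝ) ≤ 4 / n := by
    have h3 : n ≤ 2 * (n - n / 2) := by omega
    have h4 : (n : ℝ) ≤ 2 * ((n - n / 2 : ℕ) : ℝ) := by exact_mod_cast h3
    rw [div_le_div_iff₀ (by linarith) hn']
    linarith
  have h3 : (1 + (d : ℝ) / (s + 1)) ≤ 1 + k / t := by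
    rw [add_le_add_iff_left, div_le_div_iff₀ (by positivity) ht]
    have := mul_lt_mul_of_pos_left hs2 hk'
    rw [← mul_assoc, mul_div_cancel₀ _ hk'.ne'] at this
    linarith
  have h4 : (n : ℝ) ≤ (48 * k * 4 ^ k * 2 ^ (j + 1)) ^ d * d ^ s := by
    have h5 : n ≤ 4 * L * 2 ^ ((j + 1) * d) := by
      have : n ≤ 2 * (2 * L * 2 ^ ((j + 1) * d)) := by omega
      linarith
    have h6 : 16 * 4 ^ k ≤ (16 * 4 ^ k) ^ d := Nat.le_self_pow hd.ne' _
    have h7 : 4 * L * 2 ^ ((j + 1) * d) ≤ (48 * k * 4 ^ k * 2 ^ (j + 1)) ^ d * d ^ s := by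
      have e1 : 4 * L * 2 ^ ((j + 1) * d) =
          16 * 4 ^ k * ((3 * k) ^ d * (2 ^ (j + 1)) ^ d * d ^ s) := by rw [hL, pow_mul]; ring
      have e2 : (48 * k * 4 ^ k * 2 ^ (j + 1)) ^ d * d ^ s =
          (16 * 4 ^ k) ^ d * ((3 * k) ^ d * (2 ^ (j + 1)) ^ d * d ^ s) := by
        rw [show 48 * k * 4 ^ k * 2 ^ (j + 1) = 16 * 4 ^ k * (3 * k * 2 ^ (j + 1)) by ring,
          mul_pow (16 * 4 ^ k), mul_pow (3 * k)]
        ring
      rw [e1, e2]
      exact Nat.mul_le_mul_right _ h6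
    exact_mod_cast h5.trans h7
  have h5 : (n : ℝ) ^ ((k : ℝ) / d) ≤ (48 * k * 4 ^ k * 2 ^ (j + 1)) ^ k * d ^ t := by
    refine (Real.rpow_le_rpow hn'.le h4 (by positivity)).trans ?_
    rw [Real.mul_rpow (by positivity) (by positivity), ← Real.rpow_natCast _ d,
      ← Real.rpow_mul (by positivity), mul_div_cancel₀ _ hd'.ne', Real.rpow_natCast,
      ← Real.rpow_natCast _ s, ← Real.rpow_mul hd'.le]
    refine mul_le_mul_of_nonneg_left (Real.rpow_le_rpow_of_exponent_le hd1 ?_) (by positivity)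
    rw [← mul_div_assoc, div_le_iff₀ hd']
    have := mul_le_mul_of_nonneg_right hs1 hk'.le
    have e : t / k * d * k = t * d := by field_simp
    linarith
  have h6 : ((1 : ℝ) / 2 ^ j) ^ k ≤
      2 ^ k * (48 * k * 4 ^ k) ^ k * d ^ t * (n : ℝ) ^ (-(k : ℝ) / d) := by
    rw [neg_div, Real.rpow_neg hn'.le, ← div_eq_mul_inv, div_pow, one_pow,
      div_le_div_iff₀ (by positivity) (by positivity), one_mul]
    refine h5.trans (le_of_eq ?_)
    rw [mul_pow _ (2 ^ (j + 1) : ℝ), pow_succ (2 : ℝ) j, mul_pow]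
    ring
  have h7 : ((n : ℝ) ^ (-(k : ℝ) / d - 1 / 2)) ^ 2 = ((n : ℝ) ^ (-(k : ℝ) / d)) ^ 2 / n := by
    rw [Real.rpow_sub hn', div_pow, ← Real.sqrt_eq_rpow, Real.sq_sqrt hn'.le]
  have h8 := pow_le_pow_left₀ (by positivity) h6 2
  calc _ ≤ 4 / n * (2 * (1 + k / t) *
        (2 ^ k * (48 * k * 4 ^ k) ^ k * d ^ t * (n : ℝ) ^ (-(k : ℝ) / d)) ^ 2) := by gcongr
    _ = _ := by
      rw [mul_pow _ ((n : ℝ) ^ (_ - _)), h7, mul_pow (_ * _) ((d : ℝ) ^ t), mul_pow (√_),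
        Real.sq_sqrt (by positivity)]
      ring

end Pool.Agent.H98.MC
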