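import Mathlib

set_option autoImplicit false

namespace Pool.Agent.H98.MY

open Set Filter Topology intervalIntegral Real

variable {E : Type*} [NormedAddCommGroup E] [NormedSpace ℝ E]

/-- triangular wave of period one with values in `[0,1]`. -/
noncomputable def w (θ : ℝ) : ℝ := 2 * ‖(θ : UnitAddCircle)‖

lemma w_cont : Continuous w :=
  continuous_const.mul (continuous_norm.comp (AddCircle.continuous_mk' 1))

lemma w_per : Function.Periodic w 1 := fun θ => by simp [w]

lemma w_mem (θ : ℝ) : w θ ∈ Icc (0 : ℝ) 1 := by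
  have := AddCircle.norm_le_half_period (1 : ℝ) (x := (θ : UnitAddCircle)) one_ne_zero
  simp only [abs_one] at this
  exact ⟨by unfold w; positivity, by unfold w; linarith⟩

lemma w_abs {θ : ℝ} (h : |θ| ≤ 1 / 2) : w θ = 2 * |θ| := by
  unfold w
  rw [(AddCircle.norm_coe_eq_abs_iff (1 : ℝ) one_ne_zero).2 (by simpa using h)]

lemma w_nat (n : ℕ) : w n = 0 := by
  have := w_per.nat_mul n 0
  simp only [mul_one, zero_add] at this
  rw [this]; simp [w]

lemma int_w {g : ℝ → E} (hg : Continuous g) (h0 : ∫ s in (0 : ℝ)..1, g s = 0) (t : ℝ) :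
    ∫ θ in t..t + 1, g (w θ) = 0 := by
  have hp : Function.Periodic (fun θ => g (w θ)) 1 := fun θ => by simp only [w_per θ]
  have hc : Continuous fun θ => g (w θ) := hg.comp w_cont
  rw [hp.intervalIntegral_add_eq t (-(1 / 2)), ← integral_add_adjacent_intervals (b := 0)
    (hc.intervalIntegrable _ _) (hc.intervalIntegrable _ _)]
  have e1 : ∫ θ in (-(1 / 2) : ℝ)..0, g (w θ) = ∫ θ in (-(1 / 2) : ℝ)..0, g (-2 * θ) := by
    refine integral_congr fun θ hθ => ?_
    rw [uIcc_of_le (by norm_num)] at hθ
    rw [w_abs (by rw [abs_le]; constructor <;> linarith [hθ.1, hθ.2]), abs_of_nonpos hθ.2]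
    congr 1; ring
  have e2 : ∫ θ in (0 : ℝ)..(-(1 / 2) + 1), g (w θ) = ∫ θ in (0 : ℝ)..(-(1 / 2) + 1), g (2 * θ) := by
    refine integral_congr fun θ hθ => ?_
    rw [uIcc_of_le (by norm_num)] at hθ
    rw [w_abs (by rw [abs_le]; constructor <;> linarith [hθ.1, hθ.2]), abs_of_nonneg hθ.1]
  have h1 : ∫ s in (1 : ℝ)..0, g s = 0 := by rw [integral_symm, h0, neg_zero]
  rw [e1, e2, integral_comp_mul_left g (by norm_num), integral_comp_mul_left g (by norm_num)]
  norm_num [h0, h1]

/-- averaging of a fast oscillating integrand. -/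
lemma average {g : ℝ → ℝ → E} (hg : Continuous (Function.uncurry g))
    (h0 : ∀ t, ∫ s in (0 : ℝ)..1, g t s = 0) {a b : ℝ} (hab : a < b) {ρ : ℝ} (hρ : 0 < ρ) :
    ∃ N : ℕ, 0 < N ∧ ∀ t ∈ Icc a b, ‖∫ r in a..t, g r (w ((r - a) / ((b - a) / N)))‖ ≤ ρ := by
  have hK : IsCompact (Icc a b ×ˢ Icc (0 : ℝ) 1) := isCompact_Icc.prod isCompact_Icc
  obtain ⟨M, hM⟩ := hK.exists_bound_of_continuousOn hg.continuousOn
  have hba : 0 < b - a := by linarith
  obtain ⟨δ, hδ, hu⟩ := Metric.uniformContinuousOn_iff_le.1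
    (hK.uniformContinuousOn_of_continuous hg.continuousOn) (ρ / 2 / (b - a)) (by positivity)
  have hM0 : 0 ≤ M := (norm_nonneg _).trans (hM (a, 0) ⟨⟨le_rfl, hab.le⟩, ⟨le_rfl, zero_le_one⟩⟩)
  obtain ⟨N, hN⟩ := exists_nat_gt ((b - a) / min δ (ρ / 2 / (M + 1)))
  have hm : 0 < min δ (ρ / 2 / (M + 1)) := by positivity
  have hN0 : (0 : ℝ) < N := lt_trans (by positivity) hN
  set h := (b - a) / N with hh
  have hh0 : 0 < h := by positivity
  have hh1 : h ≤ min δ (ρ / 2 / (M + 1)) := by
    rw [hh, div_le_iff₀ hN0]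
    rw [div_lt_iff₀ hm] at hN
    linarith
  have hNh : N * h = b - a := by rw [hh]; field_simp
  have hc : Continuous fun r => g r (w ((r - a) / h)) :=
    hg.comp (continuous_id.prodMk (w_cont.comp (by fun_prop)))
  have step : ∀ j : ℕ, j ≤ N → ‖∫ r in a..(a + j * h), g r (w ((r - a) / h))‖ ≤
      j * h * (ρ / 2 / (b - a)) := by
    intro j
    induction j with
    | zero => simp
    | succ j ih =>
      intro hj
      have hj' : ((j : ℝ) + 1) * h ≤ b - a := by
        rw [← hNh]; gcongr; exact_mod_cast hj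
      have hj0 : 0 ≤ (j : ℝ) * h := by positivity
      have hcj : Continuous fun s => g (a + j * h) s := hg.comp (Continuous.prodMk_right _)
      have hcj' : Continuous fun r => g (a + j * h) (w ((r - a) / h)) :=
        hcj.comp (w_cont.comp (by fun_prop))
      have z : ∫ r in (a + j * h)..(a + (j + 1) * h), g (a + j * h) (w ((r - a) / h)) = 0 := by
        rw [integral_comp_sub_right (fun r => g (a + j * h) (w (r / h))),
          integral_comp_div (fun r => g (a + j * h) (w r)) hh0.ne']
        have e1 : (a + j * h - a) / h = j := by field_simp; ring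
        have e2 : (a + (j + 1) * h - a) / h = j + 1 := by field_simp; ring
        rw [e1, e2, int_w hcj (h0 _), smul_zero]
      have b1 := norm_integral_le_of_norm_le_const (a := a + j * h) (b := a + (j + 1) * h)
        (f := fun r => g r (w ((r - a) / h)) - g (a + j * h) (w ((r - a) / h)))
        (C := ρ / 2 / (b - a)) fun r hr => by
          rw [uIoc_of_le (by linarith)] at hr
          rw [← dist_eq_norm]
          refine hu (r, _) ⟨⟨by linarith [hr.1], by linarith [hr.2]⟩, w_mem _⟩ (a + j * h, _)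
            ⟨⟨by linarith, by linarith⟩, w_mem _⟩ ?_
          rw [Prod.dist_eq, dist_self, Real.dist_eq, abs_of_nonneg (by linarith [hr.1])]
          refine max_le ?_ hδ.le
          have := min_le_left δ (ρ / 2 / (M + 1))
          linarith [hr.2]
      rw [integral_sub (hc.intervalIntegrable _ _)
        (hcj'.intervalIntegrable _ _), z, sub_zero,
        abs_of_nonneg (by linarith)] at b1
      push_cast
      rw [← integral_add_adjacent_intervals (b := a + j * h) (hc.intervalIntegrable _ _)
        (hc.intervalIntegrable _ _)]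
      refine (norm_add_le _ _).trans ?_
      have := ih (by omega)
      nlinarith
  refine ⟨N, by exact_mod_cast hN0, fun t ht => ?_⟩
  have h1 : 0 ≤ (t - a) / h := div_nonneg (by linarith [ht.1]) hh0.le
  have h2 := Nat.floor_le h1
  have h3 := Nat.lt_floor_add_one ((t - a) / h)
  set j := ⌊(t - a) / h⌋₊
  rw [le_div_iff₀ hh0] at h2
  rw [div_lt_iff₀ hh0] at h3
  have h4 : j ≤ N := by
    have : (j : ℝ) * h ≤ N * h := by linarith [ht.2]
    exact_mod_cast le_of_mul_le_mul_right this hh0
  have hj0 : 0 ≤ (j : ℝ) * h := by positivity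
  have b1 := norm_integral_le_of_norm_le_const (a := a + j * h) (b := t)
    (f := fun r => g r (w ((r - a) / h))) (C := M) fun r hr => by
      rw [uIoc_of_le (by linarith)] at hr
      exact hM (r, _) ⟨⟨by linarith [hr.1], by linarith [hr.2, ht.2]⟩, w_mem _⟩
  rw [← integral_add_adjacent_intervals (b := a + j * h) (hc.intervalIntegrable _ _)
    (hc.intervalIntegrable _ _)]
  refine (norm_add_le _ _).trans ?_
  have b2 := step j h4
  have b3 : j * h * (ρ / 2 / (b - a)) ≤ ρ / 2 := by
    rw [← mul_div_assoc, div_le_iff₀ hba]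
    have : (j : ℝ) * h ≤ b - a := by linarith [ht.2]
    nlinarith
  have b4 : M * |t - (a + j * h)| ≤ ρ / 2 := by
    rw [abs_of_nonneg (by linarith)]
    have c1 : h ≤ ρ / 2 / (M + 1) := hh1.trans (min_le_right _ _)
    rw [le_div_iff₀ (by positivity)] at c1
    nlinarith
  linarith

variable [CompleteSpace E]

/-- a solution of the nonlinear system is followed by the linear system along a suitable `ω`. -/
lemma follow {f : ℝ → E → E} {J : ℝ → E → E →L[ℝ] E} (hf : Continuous (Function.uncurry f))
    (hJ : Continuous (Function.uncurry J)) (hd : ∀ t x, HasFDerivAt (f t) (J t x) x)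
    (h0 : ∀ t, f t 0 = 0) {a b : ℝ} (hab : a < b) {x : ℝ → E} (hx : Continuous x)
    (hx' : ∀ t ∈ Ico a b, HasDerivWithinAt x (f t (x t)) (Ici t) t) {η : ℝ} (hη : 0 < η) :
    ∃ ω : ℝ → E, Continuous ω ∧ (∀ t, t ≤ a ∨ b ≤ t → ω t = 0) ∧
      ∀ y : ℝ → E, ContinuousOn y (Icc a b) →
        (∀ t ∈ Ico a b, HasDerivWithinAt y (J t (ω t) (y t)) (Ici t) t) → y a = x a →
        ‖y b - x b‖ ≤ η := by
  let g : ℝ → ℝ → E := fun t s => J t (s • x t) (x t) - f t (x t)
  have c1 : Continuous fun p : ℝ × ℝ => J p.1 (p.2 • x p.1) :=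
    hJ.comp (continuous_fst.prodMk (continuous_snd.smul (hx.comp continuous_fst)))
  have c2 : Continuous fun t : ℝ => f t (x t) := hf.comp (continuous_id.prodMk hx)
  have hg : Continuous (Function.uncurry g) :=
    (c1.clm_apply (hx.comp continuous_fst)).sub (c2.comp continuous_fst)
  have hg0 : ∀ t, ∫ s in (0 : ℝ)..1, g t s = 0 := by
    intro t
    rw [integral_eq_sub_of_hasDerivAt (f := fun s => f t (s • x t) - s • f t (x t))]
    · simp [h0]
    · intro s _
      have a1 : HasDerivAt (fun s : ℝ => s • x t) (x t) s := by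
        simpa using (hasDerivAt_id s).smul_const (x t)
      have a2 : HasDerivAt (fun s : ℝ => s • f t (x t)) (f t (x t)) s := by
        simpa using (hasDerivAt_id s).smul_const (f t (x t))
      exact ((hd t (s • x t)).comp_hasDerivAt s a1).sub a2
    · exact (hg.comp (Continuous.prodMk_right t)).intervalIntegrable _ _
  obtain ⟨M, hM⟩ := (isCompact_Icc.prod isCompact_Icc : IsCompact (Icc a b ×ˢ Icc (0 : ℝ) 1)
    ).exists_bound_of_continuousOn c1.continuousOn
  have hM0 : 0 ≤ M := (norm_nonneg _).trans (hM (a, 0) ⟨⟨le_rfl, hab.le⟩, ⟨le_rfl, zero_le_one⟩⟩)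
  set ρ := η / exp ((M + 1) * (b - a)) with hρ
  have hρ0 : 0 < ρ := by positivity
  obtain ⟨N, hN, hG⟩ := average hg hg0 hab hρ0
  have hN0 : (0 : ℝ) < N := by exact_mod_cast hN
  set h := (b - a) / N with hh
  refine ⟨fun t => w ((max a (min t b) - a) / h) • x t,
    (w_cont.comp (by fun_prop)).smul hx, fun t ht => ?_, fun y hy hy' hya => ?_⟩
  · beta_reduce
    rcases ht with ht | ht
    · rw [max_eq_left (min_le_of_left_le ht)]
      simp [w]
    · rw [min_eq_right ht, max_eq_right hab.le]
      have : (b - a) / h = N := by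
        have : b - a ≠ 0 := by linarith
        rw [hh]; field_simp
      rw [this, w_nat, zero_smul]
  · have hc : Continuous fun r => g r (w ((r - a) / h)) :=
      hg.comp (continuous_id.prodMk (w_cont.comp (by fun_prop)))
    let G : ℝ → E := fun t => ∫ r in a..t, g r (w ((r - a) / h))
    have hG' : ∀ t, HasDerivAt G (g t (w ((t - a) / h))) t := fun t =>
      (hc.integral_hasStrictDerivAt a t).hasDerivAt
    have key := norm_le_gronwallBound_of_norm_deriv_right_le (f := fun t => y t - x t - G t)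
      (f' := fun t => J t (w ((t - a) / h) • x t) (y t - x t)) (δ := 0) (K := M + 1)
      (ε := (M + 1) * ρ) (a := a) (b := b)
      ((hy.sub hx.continuousOn).sub fun t _ => (hG' t).continuousAt.continuousWithinAt)
      (fun t ht => by
        have a1 := hy' t ht
        beta_reduce at a1
        rw [min_eq_left ht.2.le, max_eq_right ht.1] at a1
        refine ((a1.sub (hx' t ht)).sub (hG' t).hasDerivWithinAt).congr_deriv ?_
        simp only [g, map_sub]
        abel) (by simp [G, hya]) (fun t ht => by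
        have a1 : ‖J t (w ((t - a) / h) • x t)‖ ≤ M :=
          hM (t, _) ⟨⟨ht.1, ht.2.le⟩, w_mem ((t - a) / h)⟩
        have a2 : ‖G t‖ ≤ ρ := hG t ⟨ht.1, ht.2.le⟩
        have a3 : ‖y t - x t‖ ≤ ‖y t - x t - G t‖ + ρ := by
          have := norm_add_le (y t - x t - G t) (G t)
          rw [sub_add_cancel] at this
          linarith
        refine (ContinuousLinearMap.le_opNorm _ _).trans ?_
        rw [← mul_add]
        exact mul_le_mul (by linarith) a3 (norm_nonneg _) (by linarith))
      b ⟨hab.le, le_rfl⟩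
    rw [gronwallBound_of_K_ne_0 (by linarith)] at key
    have a2 : ‖G b‖ ≤ ρ := hG b ⟨hab.le, le_rfl⟩
    have a3 := norm_add_le (y b - x b - G b) (G b)
    rw [sub_add_cancel] at a3
    have a4 : (M + 1) * ρ / (M + 1) = ρ := by field_simp
    have a5 : ρ * exp ((M + 1) * (b - a)) = η := by rw [hρ]; field_simp
    simp only [zero_mul, zero_add, a4] at key
    nlinarith

end Pool.Agent.H98.MY
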