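import Mathlib
import Pool.Agent.H98.MY

set_option autoImplicit false

namespace Pool.Agent.H98.MY

open Set Filter Topology Real

variable {E : Type*} [NormedAddCommGroup E] [NormedSpace ℝ E] [CompleteSpace E]

lemma key {f : ℝ → E → E} {J : ℝ → E → E →L[ℝ] E} (hf : Continuous (Function.uncurry f))
    (hJ : Continuous (Function.uncurry J)) (hd : ∀ t x, HasFDerivAt (f t) (J t x) x)
    (h0 : ∀ t, f t 0 = 0)
    (G3 : ∀ ω : ℝ → E, Continuous ω → ∃ (T : ℝ → ℝ → E →L[ℝ] E) (K γ ε : ℝ), 0 < γ ∧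
      ∀ s, 0 ≤ s → (∀ v, T s s v = v ∧ ∀ t, s ≤ t →
        HasDerivWithinAt (fun r => T r s v) (J t (ω t) (T t s v)) (Ici s) t) ∧
        ∀ t, s ≤ t → ‖T t s‖ ≤ K * exp (-γ * (t - s) + ε * s))
    {t0 η : ℝ} (ht0 : 0 ≤ t0) (hη : 0 < η)
    (H : ∀ (k : ℕ) (a : ℝ), t0 ≤ a → ∃ (b : ℝ) (x : ℝ → E), a < b ∧ Continuous x ∧
      (∀ t ∈ Ico a b, HasDerivWithinAt x (f t (x t)) (Ici t) t) ∧ η ≤ ‖x b‖ ∧
      k * exp (k * a - (b - a) / (k + 1)) * ‖x a‖ ≤ η / 2) : False := by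
  have P : ∀ (k : ℕ) (a : ℝ), t0 ≤ a → ∃ (b : ℝ) (ω : ℝ → E) (v : E), a < b ∧ Continuous ω ∧
      (∀ t, t ≤ a ∨ b ≤ t → ω t = 0) ∧ k * exp (k * a - (b - a) / (k + 1)) * ‖v‖ ≤ η / 2 ∧
      ∀ y : ℝ → E, ContinuousOn y (Icc a b) →
        (∀ t ∈ Ico a b, HasDerivWithinAt y (J t (ω t) (y t)) (Ici t) t) → y a = v →
        3 * η / 4 ≤ ‖y b‖ := by
    intro k a ha
    obtain ⟨b, x, hab, hx, hx', hb, hv⟩ := H k a ha
    obtain ⟨ω, h1, h2, h3⟩ := follow hf hJ hd h0 hab hx hx' (η := η / 4) (by positivity)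
    refine ⟨b, ω, x a, hab, h1, h2, hv, fun y hy hy' hya => ?_⟩
    have a1 := h3 y hy hy' hya
    have a2 := norm_sub_norm_le (x b) (y b)
    rw [norm_sub_rev] at a2
    linarith
  choose! B Ω V hB hΩ hz hV hy using P
  let a : ℕ → ℝ := fun n => Nat.rec t0 (fun k a => B k a + 1) n
  have as : ∀ k, a (k + 1) = B k (a k) + 1 := fun k => rfl
  have a0 : ∀ k : ℕ, t0 + k ≤ a k := by
    intro k
    induction k with
    | zero => simp [a]
    | succ k ih =>
      have : (0 : ℝ) ≤ k := Nat.cast_nonneg k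
      have := hB k (a k) (by linarith)
      rw [as]; push_cast; linarith
  have a1 : ∀ k, t0 ≤ a k := fun k => by
    have : (0 : ℝ) ≤ k := Nat.cast_nonneg k
    linarith [a0 k]
  have amono : Monotone a := monotone_nat_of_le_succ fun k => by
    rw [as]; linarith [hB k _ (a1 k)]
  have alt : ∀ j k, j < k → B j (a j) ≤ a k := fun j k h => by
    have := amono (show j + 1 ≤ k from h)
    rw [as] at this; linarith
  let ω : ℝ → E := fun t => ∑ᶠ k, Ω k (a k) t
  have hω : Continuous ω := by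
    refine continuous_finsum (fun k => hΩ k _ (a1 k)) fun t => ⟨Iio (t + 1), Iio_mem_nhds (by linarith), ?_⟩
    refine (finite_le_nat ⌈t + 1⌉₊).subset ?_
    rintro k ⟨r, hr1, hr2⟩
    have : a k < r := by
      by_contra h
      exact hr1 (hz k _ (a1 k) r (Or.inl (not_lt.1 h)))
    have h2 : (k : ℝ) ≤ ⌈t + 1⌉₊ := by
      have := Nat.le_ceil (t + 1)
      have := a0 k
      have : r < t + 1 := hr2
      linarith
    exact_mod_cast h2
  have hωk : ∀ k, ∀ t ∈ Ico (a k) (B k (a k)), ω t = Ω k (a k) t := by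
    intro k t ht
    refine finsum_eq_single _ k fun j hj => hz j _ (a1 j) t ?_
    rcases lt_or_gt_of_ne hj with h | h
    · exact Or.inr ((alt j k h).trans ht.1)
    · exact Or.inl (ht.2.le.trans (alt k j h))
  obtain ⟨T, K, γ, ε, hγ, hT⟩ := G3 ω hω
  obtain ⟨k, hk⟩ := exists_nat_gt (max K (max ε (1 / γ)))
  have k1 : K ≤ k := (le_max_left _ _).trans hk.le
  have k2 : ε ≤ k := ((le_max_left _ _).trans (le_max_right _ _)).trans hk.le
  have k3 : 1 / γ ≤ k := ((le_max_right _ _).trans (le_max_right _ _)).trans hk.le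
  have hs : 0 ≤ a k := ht0.trans (a1 k)
  obtain ⟨hT1, hT2⟩ := hT (a k) hs
  obtain ⟨hT3, hT4⟩ := hT1 (V k (a k))
  have hab := hB k _ (a1 k)
  have c1 := hy k _ (a1 k) (fun r => T r (a k) (V k (a k)))
    (fun t ht => (hT4 t ht.1).continuousWithinAt.mono Icc_subset_Ici_self)
    (fun t ht => by
      rw [← hωk k t ht]
      exact (hT4 t ht.1).mono (Ici_subset_Ici.2 ht.1)) hT3
  have c2 := (T (B k (a k)) (a k)).le_opNorm (V k (a k))
  have c3 := hT2 _ hab.le
  have c4 := hV k _ (a1 k)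
  have k0 : (0 : ℝ) ≤ k := Nat.cast_nonneg k
  have c5 : exp (-γ * (B k (a k) - a k) + ε * a k) ≤
      exp (k * a k - (B k (a k) - a k) / (k + 1)) := by
    refine exp_le_exp.2 ?_
    have d1 : (B k (a k) - a k) / (k + 1) ≤ γ * (B k (a k) - a k) := by
      rw [div_le_iff₀ (by positivity)]
      rw [div_le_iff₀ hγ] at k3
      nlinarith [mul_nonneg (sub_nonneg.2 hab.le) (show 0 ≤ γ * (k + 1) - 1 by nlinarith)]
    nlinarith
  have c6 : K * exp (-γ * (B k (a k) - a k) + ε * a k) ≤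
      k * exp (k * a k - (B k (a k) - a k) / (k + 1)) :=
    mul_le_mul k1 c5 (exp_pos _).le k0
  have c7 := mul_le_mul_of_nonneg_right (c3.trans c6) (norm_nonneg (V k (a k)))
  beta_reduce at c1
  linarith

omit [CompleteSpace E] in
/-- solutions starting near the origin stay near it for a bounded time. -/
lemma small [ProperSpace E] {f : ℝ → E → E} {J : ℝ → E → E →L[ℝ] E}
    (hJ : Continuous (Function.uncurry J)) (hd : ∀ t x, HasFDerivAt (f t) (J t x) x)
    (h0 : ∀ t, f t 0 = 0) {a b : ℝ} (hab : a ≤ b) {η : ℝ} (hη : 0 < η) :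
    ∃ δ > 0, ∀ x : ℝ → E, ContinuousOn x (Icc a b) →
      (∀ t ∈ Ico a b, HasDerivWithinAt x (f t (x t)) (Ici t) t) → ‖x a‖ < δ →
      ∀ t ∈ Icc a b, ‖x t‖ ≤ η := by
  obtain ⟨M, hM⟩ := (isCompact_Icc.prod (isCompact_closedBall (0 : E) η) :
    IsCompact (Icc a b ×ˢ Metric.closedBall (0 : E) η)).exists_bound_of_continuousOn
    hJ.continuousOn
  have hM0 : 0 ≤ M := (norm_nonneg _).trans (hM (a, 0) ⟨⟨le_rfl, hab⟩, by simp [hη.le]⟩)
  have lip : ∀ t ∈ Icc a b, ∀ v : E, ‖v‖ ≤ η → ‖f t v‖ ≤ M * ‖v‖ := by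
    intro t ht v hv
    have := (convex_closedBall (0 : E) η).norm_image_sub_le_of_norm_hasFDerivWithin_le
      (f := f t) (f' := J t) (C := M) (fun x _ => (hd t x).hasFDerivWithinAt)
      (fun x hx => hM (t, x) ⟨ht, hx⟩) (x := 0) (y := v) (by simp [hη.le]) (by simpa using hv)
    simpa [h0] using this
  set δ := η / exp ((M + 1) * (b - a)) with hδ
  have hδ0 : 0 < δ := by positivity
  have bd : ∀ t ∈ Icc a b, δ * exp ((M + 1) * (t - a)) ≤ η := by
    intro t ht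
    rw [hδ, div_mul_eq_mul_div, div_le_iff₀ (exp_pos _)]
    gcongr
    exact ht.2
  refine ⟨δ, hδ0, fun x hx hx' hxa t ht => le_trans ?_ (bd t ht)⟩
  refine image_norm_le_of_norm_deriv_right_lt_deriv_boundary (B := fun t => δ * exp ((M + 1) * (t - a)))
    (B' := fun t => δ * (exp ((M + 1) * (t - a)) * (M + 1))) hx hx' (by simpa using hxa.le)
    (fun r => ?_) (fun r hr he => ?_) ht
  · have : HasDerivAt (fun t : ℝ => (M + 1) * (t - a)) (M + 1) r := by
      simpa using ((hasDerivAt_id r).sub_const a).const_mul (M + 1)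
    exact this.exp.const_mul δ
  · have b1 := bd r ⟨hr.1, hr.2.le⟩
    have b2 := lip r ⟨hr.1, hr.2.le⟩ (x r) (he ▸ b1)
    have b3 : 0 < δ * exp ((M + 1) * (r - a)) := by positivity
    rw [he] at b2
    nlinarith

end Pool.Agent.H98.MY
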