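import Mathlib

set_option autoImplicit false

namespace Pool.Agent.H98.MinSys

open Set Filter Topology

variable {Y : Type*} [TopologicalSpace Y] [CompactSpace Y] [T2Space Y]

/-- every nonempty closed invariant set contains a minimal one. -/
lemma exists_minimal {S : Y → Y} {A : Set Y} (hc : IsClosed A) (hn : A.Nonempty)
    (hi : MapsTo S A A) : ∃ M ⊆ A, IsClosed M ∧ M.Nonempty ∧ MapsTo S M M ∧
      ∀ B ⊆ M, IsClosed B → B.Nonempty → MapsTo S B B → B = M := by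
  obtain ⟨M, hMA, hM⟩ := zorn_superset_nonempty
    {B : Set Y | IsClosed B ∧ B.Nonempty ∧ MapsTo S B B} (fun c hc hch hne => by
      refine ⟨⋂₀ c, ⟨isClosed_sInter fun B hB => (hc hB).1, ?_, fun y hy => ?_⟩,
        fun s hs => sInter_subset_of_mem hs⟩
      · haveI : Nonempty c := hne.to_subtype
        exact IsCompact.nonempty_sInter_of_directed_nonempty_isCompact_isClosed
          (fun a ha b hb => (hch.total ha hb).elim (fun h => ⟨a, ha, subset_rfl, h⟩)
            (fun h => ⟨b, hb, h, subset_rfl⟩)) (fun B hB => (hc hB).2.1)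
          (fun B hB => (hc hB).1.isCompact) (fun B hB => (hc hB).1)
      · exact mem_sInter.2 fun B hB => (hc hB).2.2 (mem_sInter.1 hy B hB)) A ⟨hc, hn, hi⟩
  exact ⟨M, hMA, hM.1.1, hM.1.2.1, hM.1.2.2, fun B hB h1 h2 h3 =>
    hB.antisymm (hM.2 ⟨h1, h2, h3⟩ hB)⟩

omit [T2Space Y] in
/-- uniform recurrence inside a minimal set. -/
lemma syndetic_of_minimal {S : Y → Y} (hS : Continuous S) {M : Set Y} (hc : IsClosed M)
    (hi : MapsTo S M M) (hm : ∀ B ⊆ M, IsClosed B → B.Nonempty → MapsTo S B B → B = M)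
    {V : Set Y} (hV : IsOpen V) (hne : (V ∩ M).Nonempty) :
    ∃ K : ℕ, ∀ y ∈ M, ∃ k ≤ K, S^[k] y ∈ V := by
  have h1 : M ⊆ ⋃ k : ℕ, S^[k] ⁻¹' V := by
    by_contra hcon
    have h2 := hm (M \ ⋃ k : ℕ, S^[k] ⁻¹' V) diff_subset
      (hc.sdiff (isOpen_iUnion fun k => hV.preimage (hS.iterate k)))
      (by rwa [diff_nonempty]) (fun y hy => ⟨hi hy.1, fun h => hy.2 (by
        obtain ⟨k, hk⟩ := mem_iUnion.1 h
        exact mem_iUnion.2 ⟨k + 1, hk⟩)⟩)
    obtain ⟨v, hv1, hv2⟩ := hne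
    rw [← h2] at hv2
    exact hv2.2 (mem_iUnion.2 ⟨0, hv1⟩)
  obtain ⟨t, ht⟩ := hc.isCompact.elim_finite_subcover _ (fun k => hV.preimage (hS.iterate k)) h1
  refine ⟨t.sup id, fun y hy => ?_⟩
  obtain ⟨k, hk, h⟩ := mem_iUnion₂.1 (ht hy)
  exact ⟨k, Finset.le_sup (f := id) hk, h⟩

/-- in a minimal system every point visits an open set syndetically along some residue class. -/
lemma residue {S : Y → Y} (hS : Continuous S)
    (hm : ∀ B : Set Y, IsClosed B → B.Nonempty → MapsTo S B B → B = univ) {q : ℕ} (hq : 0 < q)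
    (y : Y) {V : Set Y} (hV : IsOpen V) (hne : V.Nonempty) :
    ∃ n0 K : ℕ, ∀ t : ℕ, ∃ k ≤ K, S^[n0 + q * (t + k)] y ∈ V := by
  obtain ⟨M, -, hc, hn, hi, hmin⟩ := exists_minimal (S := S^[q]) isClosed_univ ⟨y, trivial⟩
    (mapsTo_univ _ _)
  have h1 : (⋃ i : Fin q, S^[i] '' M) = univ := by
    refine hm _ (isClosed_iUnion_of_finite fun i =>
      (hc.isCompact.image (hS.iterate i)).isClosed) ?_ ?_
    · obtain ⟨m, hm⟩ := hn
      exact ⟨m, mem_iUnion.2 ⟨⟨0, hq⟩, m, hm, rfl⟩⟩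
    · intro z hz
      obtain ⟨i, m, hm, rfl⟩ := mem_iUnion.1 hz
      by_cases h : (i : ℕ) + 1 < q
      · exact mem_iUnion.2 ⟨⟨i + 1, h⟩, m, hm, Function.iterate_succ_apply' _ _ _⟩
      · refine mem_iUnion.2 ⟨⟨0, hq⟩, S^[q] m, hi hm, ?_⟩
        have e : q = i + 1 := by have := i.2; omega
        rw [← Function.iterate_succ_apply' S]
        change S^[q] m = S^[i + 1] m
        rw [← e]
  obtain ⟨i, m0, hm0, rfl⟩ := mem_iUnion.1 (h1 ▸ mem_univ y : y ∈ ⋃ i : Fin q, S^[i] '' M)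
  obtain ⟨K0, hK0⟩ := syndetic_of_minimal hS isClosed_univ (mapsTo_univ _ _)
    (fun B _ => hm B) hV (by simpa using hne)
  obtain ⟨n0, -, hn0⟩ := hK0 (S^[i] m0) trivial
  obtain ⟨K, hK⟩ := syndetic_of_minimal (hS.iterate q) hc hi hmin
    (hV.preimage (hS.iterate (n0 + i))) ⟨m0, by
      rw [mem_preimage, Function.iterate_add_apply]; exact hn0, hm0⟩
  refine ⟨n0, K, fun t => ?_⟩
  obtain ⟨k, hk, h⟩ := hK _ (hi.iterate t hm0)
  refine ⟨k, hk, ?_⟩
  rw [mem_preimage, ← Function.iterate_mul, ← Function.iterate_mul, ← Function.iterate_add_apply,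
    ← Function.iterate_add_apply] at h
  rw [← Function.iterate_add_apply]
  convert h using 2
  ring

end Pool.Agent.H98.MinSys
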