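import Mathlib

/-! Ordered `ℚ`-vector spaces: language, back-and-forth lemma (quantifier elimination). -/

namespace Pool.Agent.H98.OV

open FirstOrder Language Structure

/-- Function symbols: `0`, scalar multiplication by each rational, and `+`. -/
inductive Fn : ℕ → Type
  | zero : Fn 0
  | smul (q : ℚ) : Fn 1
  | add : Fn 2

/-- One binary relation symbol `<`. -/
inductive Rl : ℕ → Type
  | lt : Rl 2

/-- The language of ordered `ℚ`-vector spaces. -/
def L : Language := ⟨Fn, Rl⟩

/-- The standard structure on an ordered `ℚ`-vector space. -/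
@[reducible] def std (G : Type*) [AddCommGroup G] [Module ℚ G] [LT G] : L.Structure G where
  funMap := fun {_} f => match f with
    | .zero => fun _ => 0
    | .smul q => fun x => q • x 0
    | .add => fun x => x 0 + x 1
  RelMap := fun {_} r => match r with
    | .lt => fun x => x 0 < x 1

instance : L.Structure ℚ := std ℚ

/-- The structure is the standard one. -/
class Cp (G : Type*) [AddCommGroup G] [Module ℚ G] [LT G] [s : L.Structure G] : Prop where
  eq : s = std G

instance : Cp ℚ := ⟨rfl⟩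

def tz {γ : Type*} : L.Term γ := Term.func Fn.zero ![]
def ts {γ : Type*} (q : ℚ) (t : L.Term γ) : L.Term γ := Term.func (Fn.smul q) ![t]
def ta {γ : Type*} (s t : L.Term γ) : L.Term γ := Term.func Fn.add ![s, t]

section
variable {G : Type*} [AddCommGroup G] [Module ℚ G] [LT G] [s : L.Structure G] [c : Cp G]
  {γ : Type*}

@[simp] lemma fm_zero (x : Fin 0 → G) : funMap (L := L) Fn.zero x = 0 := by
  obtain rfl := c.eq; rfl
@[simp] lemma fm_smul (q : ℚ) (x : Fin 1 → G) : funMap (L := L) (Fn.smul q) x = q • x 0 := by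
  obtain rfl := c.eq; rfl
@[simp] lemma fm_add (x : Fin 2 → G) : funMap (L := L) Fn.add x = x 0 + x 1 := by
  obtain rfl := c.eq; rfl
@[simp] lemma rm_lt (x : Fin 2 → G) : RelMap (L := L) Rl.lt x ↔ x 0 < x 1 := by
  obtain rfl := c.eq; rfl
@[simp] lemma r_tz (v : γ → G) : (tz : L.Term γ).realize v = 0 := by simp [tz]
@[simp] lemma r_ts (q : ℚ) (t : L.Term γ) (v : γ → G) :
    (ts q t).realize v = q • t.realize v := by simp [ts]
@[simp] lemma r_ta (s t : L.Term γ) (v : γ → G) :
    (ta s t).realize v = s.realize v + t.realize v := by simp [ta]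

lemma r_lin (t : L.Term γ) (v : γ → G) (u : γ → ℚ) (a : G) :
    t.realize (fun x => v x + u x • a) = t.realize v + t.realize u • a := by
  induction t with
  | var x => rfl
  | func f ts ih =>
    cases f <;> simp [ih, smul_add, mul_smul, add_smul]
    abel

lemma r_mem (t : L.Term γ) (v : γ → G) (W : Submodule ℚ G) (h : ∀ x, v x ∈ W) :
    t.realize v ∈ W := by
  induction t with
  | var x => exact h x
  | func f ts ih =>
    cases f
    · simp
    · simpa using W.smul_mem _ (ih 0)
    · simpa using W.add_mem (ih 0) (ih 1)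

lemma r_map {H : Type*} [AddCommGroup H] [Module ℚ H] [LT H] [L.Structure H] [Cp H]
    (f : G →ₗ[ℚ] H) (t : L.Term γ) (v : γ → G) : t.realize (f ∘ v) = f (t.realize v) := by
  induction t with
  | var x => rfl
  | func g ts ih => cases g <;> simp [ih]

end

lemma psm (G : Type*) [AddCommGroup G] [Module ℚ G] [LinearOrder G] [IsOrderedAddMonoid G] :
    PosSMulStrictMono ℚ G := by
  refine ⟨fun q hq a b hab => ?_⟩
  rw [← sub_pos, ← smul_sub] 
  by_contra h
  have h1 : q.den • q • (b - a) ≤ 0 := nsmul_nonpos (not_lt.1 h) _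
  rw [← Nat.cast_smul_eq_nsmul ℚ, smul_smul, Rat.den_mul_eq_num, Int.cast_smul_eq_zsmul] at h1
  exact h1.not_gt (zsmul_pos (sub_pos.2 hab) (Rat.num_pos.2 hq))

lemma step {G H ι : Type*} [LinearOrder G] [AddCommGroup H] [Module ℚ H] [LinearOrder H]
    [IsOrderedAddMonoid H] [Nontrivial H] {S : Set ι} (hS : S.Finite) (P : ι → G) (Q : ι → H)
    (h : ∀ s ∈ S, ∀ t ∈ S, P s < P t ↔ Q s < Q t) (a : G) :
    ∃ b : H, ∀ t ∈ S, (a < P t ↔ b < Q t) ∧ (P t < a ↔ Q t < b) := by
  classical
  haveI := psm H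
  haveI : DenselyOrdered H := ⟨fun x y hxy => ⟨x + (1 / 2 : ℚ) • (y - x), by
    simpa using smul_pos (by norm_num : (0 : ℚ) < 1 / 2) (sub_pos.2 hxy), by
    have := smul_pos (by norm_num : (0 : ℚ) < 1 / 2) (sub_pos.2 hxy)
    have e : y = x + (1 / 2 : ℚ) • (y - x) + (1 / 2 : ℚ) • (y - x) := by
      rw [add_assoc, ← add_smul]; norm_num
    nth_rewrite 2 [e]
    simpa using this⟩⟩
  by_cases ha : ∃ s ∈ S, P s = a
  · obtain ⟨s, hs, rfl⟩ := ha
    exact ⟨Q s, fun t ht => ⟨h s hs t ht, h t ht s hs⟩⟩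
  obtain ⟨b, h1, h2⟩ := Order.exists_between_finsets
    ((hS.toFinset.filter fun s => P s < a).image Q) ((hS.toFinset.filter fun s => a < P s).image Q)
    (by
      simp only [Finset.mem_image, Finset.mem_filter, Set.Finite.mem_toFinset]
      rintro _ ⟨s, ⟨hs, h1⟩, rfl⟩ _ ⟨t, ⟨ht, h2⟩, rfl⟩
      exact (h s hs t ht).1 (h1.trans h2))
  simp only [Finset.mem_image, Finset.mem_filter, Set.Finite.mem_toFinset] at h1 h2
  refine ⟨b, fun t ht => ?_⟩
  rcases lt_trichotomy a (P t) with h3 | h3 | h3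
  · have := h2 _ ⟨t, ⟨ht, h3⟩, rfl⟩
    simp [h3, this, h3.not_gt, this.not_gt]
  · exact absurd ⟨t, ht, h3.symm⟩ ha
  · have := h1 _ ⟨t, ⟨ht, h3⟩, rfl⟩
    simp [h3, this, h3.not_gt, this.not_gt]

/-- Coefficient of a distinguished variable. -/
lemma lt_iff {G : Type*} [AddCommGroup G] [Module ℚ G] [LinearOrder G] [IsOrderedAddMonoid G]
    (x y a : G) (c d : ℚ) : x + c • a < y + d • a ↔ (c - d = 0 ∧ x + (-1 : ℚ) • y < 0) ∨
      (0 < c - d ∧ a < (-(c - d)⁻¹) • (x + (-1 : ℚ) • y)) ∨
      (c - d < 0 ∧ (-(c - d)⁻¹) • (x + (-1 : ℚ) • y) < a) := by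
  haveI := psm G
  have e : x + c • a < y + d • a ↔ (c - d) • a < -(x + (-1 : ℚ) • y) := by
    rw [← sub_pos, ← sub_pos (a := -_)]
    refine iff_of_eq (congrArg _ ?_)
    simp [sub_smul]; abel
  rw [e]
  generalize c - d = k
  generalize x + (-1 : ℚ) • y = z
  rcases lt_trichotomy k 0 with h | rfl | h
  · simp only [h.ne, h.not_gt, h, false_and, true_and, false_or]
    rw [← smul_lt_smul_iff_of_pos_left (neg_pos.2 h) (b₂ := a), smul_smul, neg_mul_neg,
      mul_inv_cancel₀ h.ne, one_smul, neg_smul, lt_neg]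
  · simp
  · simp only [h.ne', h.not_gt, h, false_and, true_and, false_or, or_false]
    rw [← smul_lt_smul_iff_of_pos_left h (b₁ := a), smul_smul, mul_neg,
      mul_inv_cancel₀ h.ne', neg_smul, one_smul]

universe u v w

theorem ef {α : Type w} {n : ℕ} (φ : L.BoundedFormula α n) :
    ∃ S : Set (L.Term (α ⊕ Fin n)), S.Finite ∧ ∀ (G : Type u) [AddCommGroup G] [Module ℚ G]
      [LinearOrder G] [IsOrderedAddMonoid G] [Nontrivial G] [L.Structure G] [Cp G]
      (H : Type v) [AddCommGroup H] [Module ℚ H] [LinearOrder H] [IsOrderedAddMonoid H]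
      [Nontrivial H] [L.Structure H] [Cp H] (v : α → G) (xs : Fin n → G) (w : α → H)
      (ys : Fin n → H), (∀ s ∈ S, ∀ t ∈ S, s.realize (Sum.elim v xs) < t.realize (Sum.elim v xs) ↔
        s.realize (Sum.elim w ys) < t.realize (Sum.elim w ys)) →
      (φ.Realize v xs ↔ φ.Realize w ys) := by
  induction φ with
  | falsum => exact ⟨∅, Set.finite_empty, fun _ _ _ _ _ _ _ _ _ _ _ _ _ _ _ _ _ _ _ _ _ => Iff.rfl⟩
  | equal s t =>
    refine ⟨{s, t}, by simp, fun G _ _ _ _ _ _ _ H _ _ _ _ _ _ _ v xs w ys h => ?_⟩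
    have h1 := h s (by simp) t (by simp)
    have h2 := h t (by simp) s (by simp)
    simp only [BoundedFormula.Realize]
    rw [le_antisymm_iff, le_antisymm_iff, ← not_lt, ← not_lt, ← not_lt, ← not_lt, h1, h2]
  | rel r ts =>
    cases r
    refine ⟨{ts 0, ts 1}, by simp, fun G _ _ _ _ _ _ _ H _ _ _ _ _ _ _ v xs w ys h => ?_⟩
    simpa [BoundedFormula.Realize] using h (ts 0) (by simp) (ts 1) (by simp)
  | imp φ ψ ih1 ih2 =>
    obtain ⟨S, hS, h1⟩ := ih1
    obtain ⟨T, hT, h2⟩ := ih2
    refine ⟨S ∪ T, hS.union hT, fun G _ _ _ _ _ _ _ H _ _ _ _ _ _ _ v xs w ys h => ?_⟩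
    simp only [BoundedFormula.realize_imp]
    rw [h1 G H v xs w ys fun s hs t ht => h s (.inl hs) t (.inl ht),
      h2 G H v xs w ys fun s hs t ht => h s (.inr hs) t (.inr ht)]
  | @all n φ ih =>
    obtain ⟨S, hS, h1⟩ := ih
    let rest : L.Term (α ⊕ Fin (n + 1)) → L.Term (α ⊕ Fin n) := fun t =>
      t.subst (Sum.elim (fun a => .var (.inl a)) (Fin.snoc (fun i => .var (.inr i)) tz))
    let cf : L.Term (α ⊕ Fin (n + 1)) → ℚ := fun t =>
      t.realize (Sum.elim 0 (Fin.snoc 0 1))
    let D := fun s t => ta (rest s) (ts (-1) (rest t))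
    let P := fun s t => ts (-(cf s - cf t)⁻¹) (D s t)
    refine ⟨insert tz (Set.image2 D S S ∪ Set.image2 P S S),
      ((hS.image2 _ hS).union (hS.image2 _ hS)).insert _,
      fun G _ _ _ _ _ _ _ H _ _ _ _ _ _ _ v xs w ys h => ?_⟩
    have hG : ∀ t a, Term.realize (Sum.elim v (Fin.snoc xs a)) t =
        (rest t).realize (Sum.elim v xs) + cf t • a := by
      intro t a
      simp only [rest, cf, Term.realize_subst, ← r_lin]
      congr 1
      funext x
      rcases x with x | x
      · simp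
      · induction x using Fin.lastCases <;> simp
    have hH : ∀ t a, Term.realize (Sum.elim w (Fin.snoc ys a)) t =
        (rest t).realize (Sum.elim w ys) + cf t • a := by
      intro t a
      simp only [rest, cf, Term.realize_subst, ← r_lin]
      congr 1
      funext x
      rcases x with x | x
      · simp
      · induction x using Fin.lastCases <;> simp
    have key : ∀ a b, (∀ t ∈ insert tz (Set.image2 D S S ∪ Set.image2 P S S),
        (a < t.realize (Sum.elim v xs) ↔ b < t.realize (Sum.elim w ys)) ∧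
        (t.realize (Sum.elim v xs) < a ↔ t.realize (Sum.elim w ys) < b)) →
        (φ.Realize v (Fin.snoc xs a) ↔ φ.Realize w (Fin.snoc ys b)) := by
      intro a b hab
      refine h1 G H _ _ _ _ fun s hs t ht => ?_
      have e1 := h (D s t) (.inr (.inl ⟨s, hs, t, ht, rfl⟩)) tz (.inl rfl)
      have e2 := hab (P s t) (.inr (.inr ⟨s, hs, t, ht, rfl⟩))
      simp only [D, P, r_ta, r_ts, r_tz] at e1 e2
      rw [hG, hG, hH, hH, lt_iff, lt_iff, e1, e2.1, e2.2]
    have hf := ((hS.image2 D hS).union (hS.image2 P hS)).insert tz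
    simp only [BoundedFormula.realize_all]
    constructor
    · intro H1 b
      obtain ⟨a, ha⟩ := step hf _ _ (fun s hs t ht => (h s hs t ht).symm) b
      exact (key a b fun t ht => ⟨(ha t ht).1.symm, (ha t ht).2.symm⟩).1 (H1 a)
    · intro H1 a
      obtain ⟨b, hb⟩ := step hf _ _ h a
      exact (key a b hb).2 (H1 b)

end Pool.Agent.H98.OV
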