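import Mathlib
import Pool.Agent.H98.OV1

/-! Consequences of the back-and-forth lemma; models of `Th(ℚ)` are ordered vector spaces. -/

namespace Pool.Agent.H98.OV

open FirstOrder Language Structure

universe u v

section
variable {G : Type u} [AddCommGroup G] [Module ℚ G] [LinearOrder G] [IsOrderedAddMonoid G]
  [Nontrivial G] [L.Structure G] [Cp G]
  {H : Type v} [AddCommGroup H] [Module ℚ H] [LinearOrder H] [IsOrderedAddMonoid H]
  [Nontrivial H] [L.Structure H] [Cp H]

theorem real_iff {W α : Type*} [AddCommGroup W] [Module ℚ W] (f : W →ₗ[ℚ] G) (g : W →ₗ[ℚ] H)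
    (h : ∀ x, 0 < f x ↔ 0 < g x) (φ : L.Formula α) (z : α → W) :
    φ.Realize (f ∘ z) ↔ φ.Realize (g ∘ z) := by
  letI : LT W := ⟨fun _ _ => False⟩
  letI := std W
  haveI : Cp W := ⟨rfl⟩
  obtain ⟨S, -, hS⟩ := ef.{u, v} φ
  refine hS G H _ _ _ _ fun s _ t _ => ?_
  have e1 : Sum.elim (f ∘ z) (default : Fin 0 → G) = f ∘ Sum.elim z default := by
    funext x; rcases x with x | x; exacts [rfl, x.elim0]
  have e2 : Sum.elim (g ∘ z) (default : Fin 0 → H) = g ∘ Sum.elim z default := by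
    funext x; rcases x with x | x; exacts [rfl, x.elim0]
  rw [e1, e2, r_map, r_map, r_map, r_map, ← sub_pos, ← map_sub, h, map_sub, sub_pos]

/-- An order-preserving linear map is elementary. -/
def elem (g : G →ₗ[ℚ] H) (h : ∀ x, 0 < x ↔ 0 < g x) : G ↪ₑ[L] H :=
  ⟨g, fun _ φ x => (real_iff LinearMap.id g h φ x).symm⟩

theorem cells {A D : Set G} (hD : A.Definable₁ L D) :
    ∃ P : Set G, P.Finite ∧ P ⊆ Submodule.span ℚ A ∧
      ∀ a b, (∀ p ∈ P, (a < p ↔ b < p) ∧ (p < a ↔ p < b)) → (a ∈ D ↔ b ∈ D) := by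
  obtain ⟨φ, hφ⟩ := Set.definable_iff_exists_formula_sum.1 hD
  obtain ⟨S, hS, h⟩ := ef.{u, u} φ
  let x : L.Term ((A ⊕ Fin 1) ⊕ Fin 0) → G := fun t =>
    t.realize (Sum.elim (Sum.elim (↑) 0) default)
  let c : L.Term ((A ⊕ Fin 1) ⊕ Fin 0) → ℚ := fun t => t.realize (Sum.elim (Sum.elim 0 1) default)
  have hx : ∀ t, x t ∈ Submodule.span ℚ A := fun t => r_mem t _ _ (by
    rintro ((y | y) | y)
    exacts [Submodule.subset_span y.2, Submodule.zero_mem _, y.elim0])
  have e : ∀ t (a : G), Term.realize (Sum.elim (Sum.elim (↑) fun _ => a) default) t =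
      x t + c t • a := by
    intro t a
    simp only [x, c, ← r_lin]
    congr 1
    funext y
    rcases y with (y | y) | y
    exacts [by simp, by simp, y.elim0]
  refine ⟨Set.image2 (fun s t => (-(c s - c t)⁻¹) • (x s + (-1 : ℚ) • x t)) S S, hS.image2 _ hS,
    ?_, fun a b hab => ?_⟩
  · rintro _ ⟨s, -, t, -, rfl⟩
    exact Submodule.smul_mem _ _ (Submodule.add_mem _ (hx s) (Submodule.smul_mem _ _ (hx t)))
  · have h1 := Set.ext_iff.1 hφ fun _ => a
    have h2 := Set.ext_iff.1 hφ fun _ => b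
    refine h1.trans (Iff.trans (h G G _ _ _ _ fun s hs t ht => ?_) h2.symm)
    have := hab _ ⟨s, hs, t, ht, rfl⟩
    rw [e, e, e, e, lt_iff, lt_iff, this.1, this.2]

end

lemma pos_iff {G : Type*} [AddCommGroup G] [Module ℚ G] [LinearOrder G] [IsOrderedAddMonoid G]
    (y a : G) (q : ℚ) : 0 < y + q • a ↔ (q = 0 ∧ 0 < y) ∨ (0 < q ∧ (-q⁻¹) • y < a) ∨
      (q < 0 ∧ a < (-q⁻¹) • y) := by
  have := lt_iff 0 y a 0 q
  simp only [zero_smul, add_zero, zero_sub, zero_add, neg_eq_zero, neg_smul, one_smul,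
    Left.neg_neg_iff, Left.neg_pos_iff, inv_neg, neg_neg, smul_neg] at this ⊢
  rw [this]
  tauto

section
variable {U : Type u} [s : L.Structure U]

lemma tr [U ⊨ L.completeTheory ℚ] {n : ℕ} (φ : L.BoundedFormula Empty n)
    (h : ∀ xs : Fin n → ℚ, φ.Realize default xs) (xs : Fin n → U) : φ.Realize default xs := by
  have : U ⊨ φ.alls := (realize_iff_of_model_completeTheory ℚ U _).2
    (BoundedFormula.realize_alls.2 fun xs =>
      (congrArg (fun v => φ.Realize v xs) (Subsingleton.elim _ _)).mp (h xs))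
  exact BoundedFormula.realize_alls.1 this xs

def az : U := funMap (L := L) Fn.zero ![]
def am (q : ℚ) (a : U) : U := funMap (L := L) (Fn.smul q) ![a]
def aa (a b : U) : U := funMap (L := L) Fn.add ![a, b]
/-- The order relation of an `L`-structure. -/
def Lt (a b : U) : Prop := RelMap (L := L) Rl.lt ![a, b]
def tl {n : ℕ} (s t : L.Term (Empty ⊕ Fin n)) : L.BoundedFormula Empty n :=
  Relations.boundedFormula₂ Rl.lt s t

lemma g_tz {γ : Type*} (v : γ → U) : (tz : L.Term γ).realize v = az := by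
  simp only [tz, az, Term.realize]; congr 1; funext i; exact i.elim0
lemma g_ts {γ : Type*} (q : ℚ) (t : L.Term γ) (v : γ → U) :
    (ts q t).realize v = am q (t.realize v) := by
  simp only [ts, am, Term.realize]; congr 1; funext i; fin_cases i; rfl
lemma g_ta {γ : Type*} (s t : L.Term γ) (v : γ → U) :
    (ta s t).realize v = aa (s.realize v) (t.realize v) := by
  simp only [ta, aa, Term.realize]; congr 1; funext i; fin_cases i <;> rfl
lemma g_tl {n : ℕ} (s t : L.Term (Empty ⊕ Fin n)) (v : Empty → U) (xs : Fin n → U) :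
    (tl s t).Realize v xs ↔ Lt (s.realize (Sum.elim v xs)) (t.realize (Sum.elim v xs)) :=
  BoundedFormula.realize_rel₂

lemma Lt_iff {G : Type*} [AddCommGroup G] [Module ℚ G] [LT G] [L.Structure G] [Cp G] (a b : G) :
    Lt a b ↔ a < b := by simp [Lt]

theorem conv [U ⊨ L.completeTheory ℚ] : ∃ (_ : AddCommGroup U) (_ : Module ℚ U)
    (_ : LinearOrder U), IsOrderedAddMonoid U ∧ Nontrivial U ∧ Cp U := by
  classical
  have h1 : ∀ a b c : U, aa (aa a b) c = aa a (aa b c) := fun a b c => by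
    simpa [g_ta] using tr (n := 3) (ta (ta &0 &1) &2 =' ta &0 (ta &1 &2))
      (by simp [add_assoc]) ![a, b, c]
  have h2 : ∀ a : U, aa az a = a := fun a => by
    simpa [g_ta, g_tz] using tr (n := 1) (ta tz &0 =' &0) (by simp) ![a]
  have h3 : ∀ a : U, aa (am (-1) a) a = az := fun a => by
    simpa [g_ta, g_tz, g_ts] using tr (n := 1) (ta (ts (-1) &0) &0 =' tz) (by simp) ![a]
  have h4 : ∀ a b : U, aa a b = aa b a := fun a b => by
    simpa [g_ta] using tr (n := 2) (ta &0 &1 =' ta &1 &0) (by simp [add_comm]) ![a, b]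
  have m1 : ∀ q (a b : U), am q (aa a b) = aa (am q a) (am q b) := fun q a b => by
    simpa [g_ta, g_ts] using tr (n := 2) (ts q (ta &0 &1) =' ta (ts q &0) (ts q &1))
      (by simp [mul_add]) ![a, b]
  have m2 : ∀ q r (a : U), am (q + r) a = aa (am q a) (am r a) := fun q r a => by
    simpa [g_ta, g_ts] using tr (n := 1) (ts (q + r) &0 =' ta (ts q &0) (ts r &0))
      (by simp [add_mul]) ![a]
  have m3 : ∀ q r (a : U), am (q * r) a = am q (am r a) := fun q r a => by
    simpa [g_ts] using tr (n := 1) (ts (q * r) &0 =' ts q (ts r &0)) (by simp [mul_assoc]) ![a]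
  have m4 : ∀ a : U, am 1 a = a := fun a => by
    simpa [g_ts] using tr (n := 1) (ts 1 &0 =' &0) (by simp) ![a]
  have o1 : ∀ a : U, ¬ Lt a a := fun a => by
    simpa [g_tl] using tr (n := 1) (∼(tl &0 &0)) (by simp [g_tl, Lt_iff]) ![a]
  have o2 : ∀ a b c : U, Lt a b → Lt b c → Lt a c := fun a b c => by
    simpa [g_tl] using tr (n := 3) (tl &0 &1 ⟹ tl &1 &2 ⟹ tl &0 &2)
      (by simpa [g_tl, Lt_iff] using fun xs => lt_trans) ![a, b, c]
  have o3 : ∀ a b : U, ¬ Lt a b → ¬ Lt b a → a = b := fun a b => by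
    simpa [g_tl] using tr (n := 2) (∼(tl &0 &1) ⟹ ∼(tl &1 &0) ⟹ &0 =' &1)
      (by simpa [g_tl, Lt_iff] using fun xs h1 h2 => le_antisymm h2 h1) ![a, b]
  have o4 : ∀ a b c : U, Lt a b → Lt (aa a c) (aa b c) := fun a b c => by
    simpa [g_tl, g_ta] using tr (n := 3) (tl &0 &1 ⟹ tl (ta &0 &2) (ta &1 &2))
      (by simp [g_tl, Lt_iff]) ![a, b, c]
  have o5 : ∃ a : U, Lt az a := by
    simpa [g_tl, g_tz] using tr (U := U) (n := 0) (∃' (tl tz &0))
      (by simpa [g_tl, Lt_iff, Fin.snoc] using exists_gt (0 : ℚ)) ![]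
  letI : Add U := ⟨aa⟩
  letI : Zero U := ⟨az⟩
  letI : Neg U := ⟨am (-1)⟩
  letI : AddCommGroup U := { AddGroup.ofLeftAxioms h1 h2 h3 with add_comm := h4 }
  letI : SMul ℚ U := ⟨am⟩
  letI : Module ℚ U := Module.ofMinimalAxioms m1 m2 m3 m4
  haveI : IsStrictTotalOrder U Lt :=
    { trichotomous := o3, irrefl := o1, trans := o2 }
  letI : LinearOrder U := linearOrderOfSTO Lt
  refine ⟨inferInstance, inferInstance, inferInstance,
    { add_le_add_left := fun a b hab c => ?_ }, ?_, ⟨?_⟩⟩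
  · rcases hab.lt_or_eq with h | rfl
    exacts [le_of_lt (o4 a b c h), le_rfl]
  · obtain ⟨a, ha⟩ := o5
    exact ⟨az, a, fun h => o1 a (h ▸ ha)⟩
  · refine Structure.ext ?_ ?_
    · funext n f x
      cases f
      · exact congrArg _ (funext fun i => i.elim0)
      · exact congrArg _ (funext fun i => by fin_cases i; rfl)
      · exact congrArg _ (funext fun i => by fin_cases i <;> rfl)
    · funext n f x
      cases f
      exact congrArg _ (funext fun i => by fin_cases i <;> rfl)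

end

end Pool.Agent.H98.OV
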