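import Mathlib

set_option autoImplicit false

namespace Pool.Agent.H98.Olev

open Set Filter Topology MeasureTheory ProbabilityTheory
open scoped ENNReal

abbrev Om := ℕ → Bool
abbrev W (n : ℕ) := Fin n → Bool
abbrev V := C(Om, ℝ)

noncomputable def coin : Measure Bool := (2⁻¹ : ℝ≥0∞) • Measure.count

instance : IsProbabilityMeasure coin := ⟨by
  rw [coin, Measure.smul_apply, Measure.count_univ]
  simp [ENNReal.inv_mul_cancel]⟩

noncomputable def mu : Measure Om := Measure.infinitePi fun _ => coin

instance : IsProbabilityMeasure mu := by unfold mu; infer_instance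

def fl (n i : ℕ) (b : Bool) : Bool := if i = n then !b else b

def flip (n : ℕ) (w : Om) : Om := fun i => fl n i (w i)

lemma flip_mp (n : ℕ) : MeasurePreserving (flip n) mu mu := by
  have hm : ∀ i, Measurable (fl n i) := fun i => measurable_of_countable _
  refine ⟨measurable_pi_lambda _ fun i => (hm i).comp (measurable_pi_apply i), ?_⟩
  have h := Measure.infinitePi_map_pi (μ := fun _ : ℕ => coin) (f := fl n) hm
  have h2 : ∀ i, coin.map (fl n i) = coin := by
    intro i
    refine Measure.ext_of_singleton fun b => ?_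
    rw [Measure.map_apply (hm i) (measurableSet_singleton _)]
    have : fl n i ⁻¹' {b} = {fl n i b} := by
      ext c; by_cases h : i = n <;> cases b <;> cases c <;> simp [fl, h]
    rw [this]; simp [coin]
  simp only [h2] at h
  exact h

lemma flip_flip (n : ℕ) (w : Om) : flip n (flip n w) = w := by
  funext i; by_cases h : i = n <;> simp [flip, fl, h]

lemma V.integrable (f : V) : Integrable f mu :=
  (BoundedContinuousFunction.mkOfCompact f).integrable mu

noncomputable def Lam : V →ₗ[ℝ] ℝ where
  toFun f := ∫ w, f w ∂mu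
  map_add' f g := by simpa using integral_add f.integrable g.integrable
  map_smul' c f := by simpa using integral_const_mul c f

lemma Lam_apply (f : V) : Lam f = ∫ w, f w ∂mu := rfl

lemma Lam_one : Lam 1 = 1 := by simp [Lam_apply]

lemma Lam_mono {f g : V} (h : ∀ w, f w ≤ g w) : Lam f ≤ Lam g :=
  integral_mono f.integrable g.integrable h

lemma Lam_nonneg {f : V} (h : ∀ w, 0 ≤ f w) : 0 ≤ Lam f := integral_nonneg h

lemma setInt_anti {n : ℕ} {f : V} (h : ∀ w, f (flip n w) = -f w) {s : Set Om}
    (hs : MeasurableSet s) (hs2 : flip n ⁻¹' s = s) : ∫ w in s, f w ∂mu = 0 := by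
  have h1 := ((flip_mp n).restrict_preimage hs).map_eq
  rw [hs2] at h1
  have h2 : ∫ w in s, f w ∂mu = ∫ w in s, f (flip n w) ∂mu := by
    conv_lhs => rw [← h1]
    exact integral_map (flip_mp n).measurable.aemeasurable f.continuous.aestronglyMeasurable
  simp only [h, integral_neg] at h2
  linarith

lemma Lam_anti {n : ℕ} {f : V} (h : ∀ w, f (flip n w) = -f w) : Lam f = 0 := by
  simpa [Lam_apply] using setInt_anti h MeasurableSet.univ rfl

def sg (b : Bool) : ℝ := if b then 1 else -1

noncomputable def eps (n : ℕ) : V :=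
  ⟨fun w => sg (w n), (continuous_of_discreteTopology (f := sg)).comp (continuous_apply n)⟩

def res (n : ℕ) (w : Om) : W n := fun i => w i

noncomputable def chi (n : ℕ) (t : W n) : V :=
  ⟨fun w => if res n w = t then 1 else 0,
    (continuous_of_discreteTopology (f := fun u : W n => if u = t then (1 : ℝ) else 0)).comp
      (continuous_pi fun i => continuous_apply (i : ℕ))⟩

lemma chi_apply (n : ℕ) (t : W n) (w : Om) : chi n t w = if res n w = t then 1 else 0 := rfl
lemma eps_apply (n : ℕ) (w : Om) : eps n w = sg (w n) := rfl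

lemma eps_sq (n : ℕ) : eps n * eps n = 1 := by
  ext w; simp only [ContinuousMap.mul_apply, eps_apply, sg]; split_ifs <;> simp

lemma eps_abs (n : ℕ) (w : Om) : |eps n w| = 1 := by
  simp only [eps_apply, sg]; split_ifs <;> simp

lemma eps_flip (n m : ℕ) (w : Om) : eps m (flip n w) = if m = n then -eps m w else eps m w := by
  by_cases h : m = n
  · simp only [eps_apply, flip, fl, h, if_true]; cases w n <;> simp [sg]
  · simp [eps_apply, flip, fl, h]

lemma res_flip {n m : ℕ} (h : m ≤ n) (w : Om) : res m (flip n w) = res m w := by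
  funext i
  have : (i : ℕ) ≠ n := by have := i.2; omega
  simp [res, flip, fl, this]

lemma chi_flip {n m : ℕ} (h : m ≤ n) (t : W m) (w : Om) : chi m t (flip n w) = chi m t w := by
  simp only [chi_apply, res_flip h]

lemma chi_succ (n : ℕ) (t : W (n + 1)) :
    chi (n + 1) t = (2⁻¹ : ℝ) • chi n (Fin.init t) +
      (sg (t (Fin.last n)) / 2) • (chi n (Fin.init t) * eps n) := by
  ext w
  have : res (n + 1) w = t ↔ res n w = Fin.init t ∧ w n = t (Fin.last n) := by
    constructor
    · rintro rfl; exact ⟨rfl, rfl⟩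
    · rintro ⟨h1, h2⟩
      funext i
      refine Fin.lastCases ?_ (fun j => ?_) i
      · exact h2
      · exact congrFun h1 j
  simp only [ContinuousMap.add_apply, ContinuousMap.smul_apply, ContinuousMap.mul_apply,
    chi_apply, eps_apply, this, smul_eq_mul]
  by_cases h1 : res n w = Fin.init t <;> cases w n <;> cases t (Fin.last n) <;>
    simp [h1, sg] <;> norm_num

lemma chi_zero (t : W 0) : chi 0 t = 1 := by
  ext w; simp [chi_apply, Subsingleton.elim (res 0 w) t]

lemma Lam_chi_eps (n : ℕ) (t : W n) : Lam (chi n t * eps n) = 0 :=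
  Lam_anti (n := n) fun w => by simp [chi_flip le_rfl, eps_flip]

lemma Lam_chi (n : ℕ) : ∀ t : W n, Lam (chi n t) = ((2 : ℝ) ^ n)⁻¹ := by
  induction n with
  | zero => intro t; simp [chi_zero, Lam_one]
  | succ n ih =>
    intro t
    rw [chi_succ, map_add, map_smul, map_smul, ih, Lam_chi_eps]
    simp [pow_succ]

lemma chi_mul (n : ℕ) (t u : W n) : chi n t * chi n u = if t = u then chi n t else 0 := by
  ext w
  by_cases h : t = u
  · subst h; simp only [ContinuousMap.mul_apply, chi_apply, if_true]; split_ifs <;> simp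
  · simp only [ContinuousMap.mul_apply, chi_apply, h, if_false, ContinuousMap.zero_apply]
    by_cases h1 : res n w = t
    · simp [h1, h]
    · simp [h1]

lemma sum_chi (n : ℕ) : ∑ t : W n, chi n t = 1 := by
  ext w; simp [chi_apply]

instance : NullSingletonClass mu := ⟨fun x => by
  have h : ∀ n, mu.real {x} ≤ ((2 : ℝ) ^ n)⁻¹ := by
    intro n
    rw [← Lam_chi n (res n x), Lam_apply, ← integral_indicator_one (measurableSet_singleton x)]
    refine integral_mono ((integrable_const 1).indicator (measurableSet_singleton x))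
      (V.integrable _) fun w => ?_
    by_cases h : w = x
    · simp [h, chi_apply]
    · simp only [chi_apply, indicator, mem_singleton_iff, h, if_false]; split_ifs <;> simp
  have h2 : mu.real {x} ≤ 0 :=
    ge_of_tendsto' (tendsto_inv_atTop_zero.comp
      (tendsto_pow_atTop_atTop_of_one_lt (by norm_num : (1 : ℝ) < 2))) h
  exact (measureReal_eq_zero_iff (measure_ne_top _ _)).1 (h2.antisymm measureReal_nonneg)⟩

/-- The Haar functions. -/
noncomputable def haar (n : ℕ) (t : W n) : V := √(2 ^ n) • (chi n t * eps n)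

lemma haar_flip {n m : ℕ} (h : m ≤ n) (t : W m) (w : Om) :
    haar m t (flip n w) = if m = n then -haar m t w else haar m t w := by
  simp only [haar, ContinuousMap.smul_apply, ContinuousMap.mul_apply, chi_flip h, eps_flip]
  split_ifs <;> simp

lemma Lam_haar (n : ℕ) (t : W n) : Lam (haar n t) = 0 := by
  rw [haar, map_smul, Lam_chi_eps, smul_zero]

lemma haar_same (n : ℕ) (t u : W n) : Lam (haar n t * haar n u) = if t = u then 1 else 0 := by
  have : haar n t * haar n u = (2 ^ n : ℝ) • (chi n t * chi n u) := by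
    rw [haar, haar, smul_mul_smul_comm, Real.mul_self_sqrt (by positivity)]
    congr 1
    calc _ = chi n t * chi n u * (eps n * eps n) := by ring
      _ = _ := by rw [eps_sq, mul_one]
  rw [this, chi_mul, map_smul]
  split_ifs
  · rw [Lam_chi]; simp
  · simp

lemma haar_diff {n m : ℕ} (h : n ≠ m) (t : W n) (u : W m) : Lam (haar n t * haar m u) = 0 := by
  rcases lt_or_gt_of_ne h with h1 | h1
  · exact Lam_anti (n := m) fun w => by simp [haar_flip h1.le, haar_flip le_rfl, h]
  · exact Lam_anti (n := n) fun w => by simp [haar_flip h1.le, haar_flip le_rfl, h.symm]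

lemma sum_haar (n : ℕ) : ∑ t : W n, haar n t = √(2 ^ n) • eps n := by
  simp only [haar, ← Finset.smul_sum, ← Finset.sum_mul, sum_chi, one_mul]

lemma haar_abs (n : ℕ) (t : W n) (w : Om) : |haar n t w| ≤ √(2 ^ n) := by
  simp only [haar, ContinuousMap.smul_apply, ContinuousMap.mul_apply, smul_eq_mul, abs_mul,
    eps_abs, chi_apply, abs_of_nonneg (Real.sqrt_nonneg _)]
  split_ifs <;> simp

lemma haar_zero {n : ℕ} {t : W n} {w : Om} (h : res n w ≠ t) : haar n t w = 0 := by
  simp [haar, chi_apply, h]

/-- Pairing with an integrable function. -/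
noncomputable def pair (g : Om → ℝ) (hg : Integrable g mu) : V →ₗ[ℝ] ℝ where
  toFun f := ∫ w, g w * f w ∂mu
  map_add' f f' := by
    have h : ∀ f : V, Integrable (fun w => g w * f w) mu := fun f =>
      hg.mul_bdd (c := ‖f‖) f.continuous.aestronglyMeasurable
        (Eventually.of_forall fun w => f.norm_coe_le_norm w)
    simpa [mul_add] using integral_add (h f) (h f')
  map_smul' c f := by
    simp only [ContinuousMap.smul_apply, smul_eq_mul, RingHom.id_apply, ← integral_const_mul]
    congr 1; funext w; ring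

lemma haar_complete {g : Om → ℝ} (hg : Integrable g mu) (h1 : pair g hg 1 = 0)
    (h2 : ∀ n t, pair g hg (haar n t) = 0) : g =ᵐ[mu] 0 := by
  have h3 : ∀ n t, pair g hg (chi n t) = 0 := by
    intro n
    induction n with
    | zero => intro t; rw [chi_zero, h1]
    | succ n ih =>
      intro t
      have := h2 n (Fin.init t)
      rw [haar, map_smul, smul_eq_zero] at this
      rw [chi_succ, map_add, map_smul, map_smul, ih,
        this.resolve_left (Real.sqrt_pos.2 (by positivity)).ne']
      simp
  have h4 : ∀ (x : Om) n, ∫ w in PiNat.cylinder x n, g w ∂mu = 0 := by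
    intro x n
    rw [← h3 n (res n x), ← integral_indicator (PiNat.isOpen_cylinder (E := fun _ => Bool) x n).measurableSet]
    change _ = ∫ w, g w * chi n (res n x) w ∂mu
    congr 1; funext w
    have : w ∈ PiNat.cylinder x n ↔ res n w = res n x := by
      rw [PiNat.mem_cylinder_iff]
      exact ⟨fun h => funext fun i => h i i.2, fun h i hi => congrFun h ⟨i, hi⟩⟩
    by_cases h : res n w = res n x <;> simp [indicator, this, h, chi_apply]
  have h5 : ∀ s, MeasurableSet s → ∫ w in s, g w ∂mu = 0 := by
    have hb := (PiNat.isTopologicalBasis_cylinders (fun _ : ℕ => Bool)).borel_eq_generateFrom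
    rw [← BorelSpace.measurable_eq (α := Om)] at hb
    refine MeasurableSpace.induction_on_inter hb ?_ (by simp) ?_ ?_ ?_
    · rintro _ ⟨x, n, rfl⟩ _ ⟨y, m, rfl⟩ ⟨z, hz1, hz2⟩
      rw [← PiNat.mem_cylinder_iff_eq.1 hz1, ← PiNat.mem_cylinder_iff_eq.1 hz2]
      rcases le_total n m with h | h
      · exact ⟨z, m, inter_eq_right.2 (PiNat.cylinder_anti z h)⟩
      · exact ⟨z, n, inter_eq_left.2 (PiNat.cylinder_anti z h)⟩
    · rintro _ ⟨x, n, rfl⟩; exact h4 x n
    · intro s hs h
      have := integral_add_compl hs hg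
      have h0 := h4 (fun _ => true) 0
      rw [PiNat.cylinder_zero, Measure.restrict_univ] at h0
      linarith
    · intro f hd hm h
      rw [integral_iUnion hm hd hg.integrableOn]
      simp [h]
  exact hg.ae_eq_zero_of_forall_setIntegral_eq_zero fun s hs _ => h5 s hs

lemma moments (c : ℕ → ℝ) (M : ℕ) :
    Lam ((∑ m ∈ Finset.range M, c m • eps m) ^ 2) = ∑ m ∈ Finset.range M, c m ^ 2 ∧
    Lam ((∑ m ∈ Finset.range M, c m • eps m) ^ 4) ≤ 3 * (∑ m ∈ Finset.range M, c m ^ 2) ^ 2 ∧
    Lam ((∑ m ∈ Finset.range M, c m • eps m) ^ 6) ≤ 15 * (∑ m ∈ Finset.range M, c m ^ 2) ^ 3 := by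
  induction M with
  | zero => simp
  | succ M ih =>
    simp only [Finset.sum_range_succ]
    have hG : ∀ w, (∑ m ∈ Finset.range M, c m • eps m) (flip M w) =
        (∑ m ∈ Finset.range M, c m • eps m) w := by
      intro w
      simp only [ContinuousMap.sum_apply, ContinuousMap.smul_apply, eps_flip]
      refine Finset.sum_congr rfl fun m hm => ?_
      rw [if_neg (Finset.mem_range.1 hm).ne]
    have hS : 0 ≤ ∑ m ∈ Finset.range M, c m ^ 2 := Finset.sum_nonneg fun _ _ => sq_nonneg _
    generalize (∑ m ∈ Finset.range M, c m • eps m) = G at ih hG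
    generalize (∑ m ∈ Finset.range M, c m ^ 2) = S at ih hS
    have hk : ∀ k : ℕ, Lam (G ^ k * eps M) = 0 := fun k =>
      Lam_anti (n := M) fun w => by simp [hG, eps_flip]
    have he : ∀ w, eps M w ^ 2 = 1 := fun w => by
      rw [← sq_abs, eps_abs]; norm_num
    have e2 : (G + c M • eps M) ^ 2 = G ^ 2 + (2 * c M) • (G ^ 1 * eps M) + (c M ^ 2) • (1 : V) := by
      ext w; simp only [ContinuousMap.add_apply, ContinuousMap.smul_apply, ContinuousMap.pow_apply,
        ContinuousMap.mul_apply, ContinuousMap.one_apply, smul_eq_mul]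
      linear_combination (c M ^ 2) * he w
    have e4 : (G + c M • eps M) ^ 4 = G ^ 4 + (4 * c M) • (G ^ 3 * eps M) + (6 * c M ^ 2) • G ^ 2
        + (4 * c M ^ 3) • (G ^ 1 * eps M) + (c M ^ 4) • (1 : V) := by
      ext w; simp only [ContinuousMap.add_apply, ContinuousMap.smul_apply, ContinuousMap.pow_apply,
        ContinuousMap.mul_apply, ContinuousMap.one_apply, smul_eq_mul]
      linear_combination (6 * c M ^ 2 * G w ^ 2 + 4 * c M ^ 3 * G w * eps M w
        + c M ^ 4 * (eps M w ^ 2 + 1)) * he w
    have e6 : (G + c M • eps M) ^ 6 = G ^ 6 + (6 * c M) • (G ^ 5 * eps M) + (15 * c M ^ 2) • G ^ 4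
        + (20 * c M ^ 3) • (G ^ 3 * eps M) + (15 * c M ^ 4) • G ^ 2
        + (6 * c M ^ 5) • (G ^ 1 * eps M) + (c M ^ 6) • (1 : V) := by
      ext w; simp only [ContinuousMap.add_apply, ContinuousMap.smul_apply, ContinuousMap.pow_apply,
        ContinuousMap.mul_apply, ContinuousMap.one_apply, smul_eq_mul]
      linear_combination (15 * c M ^ 2 * G w ^ 4 + 20 * c M ^ 3 * G w ^ 3 * eps M w
        + 15 * c M ^ 4 * G w ^ 2 * (eps M w ^ 2 + 1)
        + 6 * c M ^ 5 * G w * eps M w * (eps M w ^ 2 + 1)
        + c M ^ 6 * (eps M w ^ 4 + eps M w ^ 2 + 1)) * he w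
    obtain ⟨i2, i4, i6⟩ := ih
    rw [e2, e4, e6]
    simp only [map_add, map_smul, hk, Lam_one, i2, smul_eq_mul]
    have hc := sq_nonneg (c M)
    have e1 : c M ^ 4 = (c M ^ 2) ^ 2 := by ring
    have e3 : c M ^ 6 = (c M ^ 2) ^ 3 := by ring
    rw [e1, e3]
    generalize c M ^ 2 = x at hc
    refine ⟨by ring, by nlinarith [sq_nonneg x], ?_⟩
    have := mul_le_mul_of_nonneg_left i4 hc
    nlinarith [mul_nonneg (sq_nonneg x) hS, pow_nonneg hc 3]

lemma rad_six {F : V} (hF : F ∈ Submodule.span ℝ (range eps)) :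
    Lam (F ^ 6) ≤ 15 * Lam (F * F) ^ 3 := by
  obtain ⟨c, rfl⟩ := Finsupp.mem_span_range_iff_exists_finsupp.1 hF
  obtain ⟨M, hM⟩ := c.support.exists_nat_subset_range
  rw [Finsupp.sum_of_support_subset c hM _ (by simp)]
  obtain ⟨h1, -, h3⟩ := moments c M
  rw [← sq, h1]; exact h3

lemma ae_tendsto_zero (Y : ℕ → V) (h0 : ∀ s w, 0 ≤ Y s w) (hs : Summable fun s => Lam (Y s)) :
    ∀ᵐ w ∂mu, Tendsto (fun s => Y s w) atTop (𝓝 0) := by
  have h1 : ∫⁻ w, ∑' s, ENNReal.ofReal (Y s w) ∂mu ≠ ⊤ := by
    rw [lintegral_tsum fun s => (Y s).continuous.measurable.ennreal_ofReal.aemeasurable]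
    simp_rw [fun s => (ofReal_integral_eq_lintegral_ofReal (Y s).integrable
      (Eventually.of_forall (h0 s))).symm]
    exact (ENNReal.ofReal_tsum_of_nonneg (fun s => Lam_nonneg (h0 s)) hs).symm.trans_ne
      ENNReal.ofReal_ne_top
  filter_upwards [ae_lt_top (Measurable.ennreal_tsum fun s =>
    (Y s).continuous.measurable.ennreal_ofReal) h1] with w hw
  have := (ENNReal.tendsto_toReal (by simp)).comp (ENNReal.tendsto_atTop_zero_of_tsum_ne_top hw.ne)
  simpa [Function.comp_def, ENNReal.toReal_ofReal (h0 _ w)] using this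

end Pool.Agent.H98.Olev
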