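import Mathlib
import Pool.Agent.H98.Olev1

set_option autoImplicit false

namespace Pool.Agent.H98.Olev

open Set Filter Topology MeasureTheory

noncomputable def rr (n : ℕ) : ℝ := √(2 ^ n)

lemma rr_pos (n : ℕ) : 0 < rr n := Real.sqrt_pos.2 (by positivity)
lemma rr_sq (n : ℕ) : rr n * rr n = 2 ^ n := Real.mul_self_sqrt (by positivity)
lemma one_le_rr (n : ℕ) : 1 ≤ rr n := Real.one_le_sqrt.2 (one_le_pow₀ (by norm_num))
lemma card_W (n : ℕ) : (Fintype.card (W n) : ℝ) = 2 ^ n := by simp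

section swap
variable {B : Type} (lv : B → ℕ) (u : (b : B) → W (lv b) → V) (w : B → V)

def IsON : Prop := (∀ b j k, Lam (u b j * u b k) = if j = k then 1 else 0) ∧
  ∀ b b' j k, b ≠ b' → Lam (u b j * u b' k) = 0

noncomputable def UU (b : B) : V := (rr (lv b))⁻¹ • ∑ j, u b j

noncomputable def sw (b : B) (j : W (lv b)) : V := u b j + (rr (lv b))⁻¹ • (w b - UU lv u b)

variable {lv u w}

lemma IsON.uU (h : IsON lv u) (b : B) (j : W (lv b)) :
    Lam (u b j * UU lv u b) = (rr (lv b))⁻¹ := by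
  simp [UU, Finset.mul_sum, h.1]

lemma IsON.uU' (h : IsON lv u) {b b' : B} (hb : b ≠ b') (j : W (lv b)) :
    Lam (u b j * UU lv u b') = 0 := by
  simp [UU, Finset.mul_sum, h.2 _ _ _ _ hb]

lemma IsON.U_sq (h : IsON lv u) (b : B) : Lam (UU lv u b * UU lv u b) = 1 := by
  conv_lhs => rw [UU, smul_mul_assoc, Finset.sum_mul, ← UU]
  simp only [map_smul, map_sum, h.uU, Finset.sum_const, Finset.card_univ, nsmul_eq_mul, card_W,
    smul_eq_mul, ← rr_sq]
  have := (rr_pos (lv b)).ne'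
  field_simp

lemma IsON.U_ne (h : IsON lv u) {b b' : B} (hb : b ≠ b') : Lam (UU lv u b * UU lv u b') = 0 := by
  conv_lhs => rw [UU, smul_mul_assoc, Finset.sum_mul]
  simp [h.uU' hb]

lemma IsON.Uu (h : IsON lv u) (b b' : B) (j : W (lv b')) :
    Lam (UU lv u b * u b' j) = (rr (lv b'))⁻¹ * Lam (UU lv u b * UU lv u b') := by
  by_cases hb : b' = b
  · subst hb; rw [mul_comm, h.uU, h.U_sq, mul_one]
  · rw [mul_comm, h.uU' hb, h.U_ne (Ne.symm hb), mul_zero]

lemma IsON.swU (h : IsON lv u) (b b' : B) (j : W (lv b)) :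
    Lam (sw lv u w b j * UU lv u b') = (rr (lv b))⁻¹ * Lam (w b * UU lv u b') := by
  have := h.Uu b' b j
  rw [mul_comm, mul_comm (UU lv u b')] at this
  simp only [sw, add_mul, smul_mul_assoc, sub_mul, map_add, map_smul, map_sub, this, smul_eq_mul]
  ring

lemma IsON.sw (h : IsON lv u) (h1 : ∀ b, Lam (w b * w b) = 1)
    (h2 : ∀ b b', b ≠ b' → Lam (w b * w b') = 0)
    (h3 : ∀ b b' j, Lam (w b * u b' j) = (rr (lv b'))⁻¹ * Lam (w b * UU lv u b')) :
    IsON lv (sw lv u w) := by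
  have e : ∀ b b' j k, Lam (Olev.sw lv u w b j * Olev.sw lv u w b' k) = Lam (u b j * u b' k)
      - (rr (lv b))⁻¹ * (rr (lv b'))⁻¹ * Lam (UU lv u b * UU lv u b')
      + (rr (lv b))⁻¹ * (rr (lv b'))⁻¹ * Lam (w b * w b') := by
    intro b b' j k
    have a1 := h3 b b' k
    have a2 := h3 b' b j
    have a3 := h.Uu b b' k
    have a4 := h.Uu b' b j
    rw [mul_comm (w b'), mul_comm (w b')] at a2
    rw [mul_comm (UU lv u b'), mul_comm (UU lv u b')] at a4
    simp only [Olev.sw, add_mul, mul_add, smul_mul_assoc, mul_smul_comm, sub_mul, mul_sub, map_add,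
      map_smul, map_sub, smul_eq_mul, a1, a2, a3, a4]
    ring
  exact ⟨fun b j k => by rw [e, h.1, h.U_sq, h1]; ring,
    fun b b' j k hb => by rw [e, h.2 _ _ _ _ hb, h.U_ne hb, h2 _ _ hb]; ring⟩

lemma sw_complete (T : V →ₗ[ℝ] ℝ) (b : B) (h : ∀ j, T (sw lv u w b j) = 0) :
    T (w b) = 0 ∧ ∀ j, T (u b j) = (rr (lv b))⁻¹ * T (UU lv u b) := by
  have h0 := (rr_pos (lv b)).ne'
  have h1 : T (w b) = 0 := by
    have : ∑ j, T (sw lv u w b j) = 0 := by simp [h]
    simp only [sw, UU, map_add, map_smul, map_sub, map_sum, Finset.sum_add_distrib, smul_eq_mul,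
      Finset.sum_const, Finset.card_univ, nsmul_eq_mul, card_W, ← rr_sq] at this
    have e : rr (lv b) * T (w b) = 0 := by rw [← this]; field_simp; ring
    exact (mul_eq_zero.1 e).resolve_left h0
  refine ⟨h1, fun j => ?_⟩
  have := h j
  simp only [sw, map_add, map_smul, map_sub, h1, smul_eq_mul] at this
  linarith

lemma UU_abs (h : ∀ b j x, |u b j x| ≤ 1) (b : B) (x : Om) : |UU lv u b x| ≤ rr (lv b) := by
  have h0 := rr_pos (lv b)
  simp only [UU, ContinuousMap.smul_apply, ContinuousMap.sum_apply, smul_eq_mul, abs_mul, abs_inv,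
    abs_of_pos h0]
  rw [inv_mul_le_iff₀ h0, rr_sq, ← card_W]
  refine (Finset.abs_sum_le_sum_abs _ _).trans ?_
  simpa using Finset.sum_le_card_nsmul Finset.univ _ 1 fun j _ => h b j x

end swap

lemma haar_ON : IsON id haar := ⟨haar_same, fun _ _ j k h => haar_diff h j k⟩

lemma UU_haar (n : ℕ) : UU id haar n = eps n := by
  have := (rr_pos n).ne'
  change (rr n)⁻¹ • ∑ j, haar n j = _
  rw [sum_haar, smul_smul]
  change ((rr n)⁻¹ * rr n) • _ = _
  rw [inv_mul_cancel₀ this, one_smul]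

lemma eps_ON (n m : ℕ) : Lam (eps n * eps m) = if n = m then 1 else 0 := by
  rw [← UU_haar, ← UU_haar]
  split_ifs with h
  · subst h; exact haar_ON.U_sq n
  · exact haar_ON.U_ne h

lemma Lam_eps (n : ℕ) : Lam (eps n) = 0 := Lam_anti (n := n) fun w => by simp [eps_flip]

abbrev B2 := Σ n : ℕ, W n × ℕ
abbrev G2 := Σ b : B2, W b.1

instance : Infinite (ℕ ⊕ G2) := Infinite.of_injective Sum.inl Sum.inl_injective

noncomputable def th : ℕ ⊕ G2 ≃ ℕ := Classical.choice nonempty_equiv_of_countable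

noncomputable def psi (n : ℕ) (t : W n) : V := sw id haar (fun n => eps (th (.inl n))) n t

noncomputable def u2 (b : B2) (j : W b.1) : V := eps (th (.inr ⟨b, j⟩))

noncomputable def w2 : B2 → V
  | ⟨n, t, 0⟩ => psi n t
  | ⟨n, t, l + 1⟩ => UU Sigma.fst u2 ⟨n, t, l⟩

lemma psi_ON : IsON id psi := haar_ON.sw (fun b => by simp [eps_ON])
  (fun b b' h => by simp [eps_ON, h]) fun b b' j => by
    rw [← UU_haar]; exact haar_ON.Uu _ _ _

lemma u2_ON : IsON Sigma.fst u2 :=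
  ⟨fun b j k => by simp [u2, eps_ON], fun b b' j k h => by
    rw [u2, u2, eps_ON, if_neg]
    intro h2
    exact h (congrArg Sigma.fst (Sum.inr_injective (th.injective h2)))⟩

lemma psi_u2 (n : ℕ) (t : W n) (b : B2) (j : W b.1) : Lam (psi n t * u2 b j) = 0 := by
  rw [u2, ← UU_haar, psi, haar_ON.swU, UU_haar, eps_ON]
  simp

lemma psi_U2 (n : ℕ) (t : W n) (b : B2) : Lam (psi n t * UU Sigma.fst u2 b) = 0 := by
  simp [UU, Finset.mul_sum, psi_u2]

noncomputable def ph2 : (b : B2) → W b.1 → V := sw Sigma.fst u2 w2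

lemma ph2_ON : IsON Sigma.fst ph2 := by
  refine u2_ON.sw ?_ ?_ ?_
  · rintro ⟨n, t, _ | l⟩
    · simpa [w2] using psi_ON.1 n t t
    · exact u2_ON.U_sq _
  · rintro ⟨n, t, _ | l⟩ ⟨n', t', _ | l'⟩ h
    · by_cases h1 : n = n'
      · subst h1
        have : t ≠ t' := fun h2 => h (by rw [h2])
        simpa [w2, this] using psi_ON.1 n t t'
      · exact psi_ON.2 n n' t t' h1
    · exact psi_U2 _ _ _
    · rw [mul_comm]; exact psi_U2 _ _ _
    · refine u2_ON.U_ne fun h2 => h ?_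
      cases h2; rfl
  · rintro ⟨n, t, _ | l⟩ b j
    · simp [w2, psi_u2, psi_U2]
    · exact u2_ON.Uu _ _ _

abbrev Ga := Option G2

noncomputable def ph : Ga → V
  | none => 1
  | some g => ph2 g.1 g.2

noncomputable def ka : Ga → V
  | none => 1
  | some g => if g.1.2.2 = 0 then (rr g.1.1)⁻¹ • haar g.1.1 g.1.2.1 else 0

lemma UU2_mem (b : B2) : UU Sigma.fst u2 b ∈ Submodule.span ℝ (range eps) :=
  Submodule.smul_mem _ _ (Submodule.sum_mem _ fun _ _ => Submodule.subset_span ⟨_, rfl⟩)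

lemma rho_mem (g : Ga) : ph g - ka g ∈ Submodule.span ℝ (range eps) := by
  have he : ∀ m, eps m ∈ Submodule.span ℝ (range eps) := fun m => Submodule.subset_span ⟨_, rfl⟩
  rcases g with _ | ⟨⟨n, t, _ | l⟩, j⟩
  · simp [ph, ka]
  · have : ph (some ⟨⟨n, t, 0⟩, j⟩) - ka (some ⟨⟨n, t, 0⟩, j⟩) = u2 ⟨n, t, 0⟩ j + (rr n)⁻¹ •
        ((rr n)⁻¹ • (eps (th (.inl n)) - eps n) - UU Sigma.fst u2 ⟨n, t, 0⟩) := by
      simp only [ph, ka, ph2, sw, w2, psi, UU_haar, id, if_true]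
      module
    rw [this]
    exact add_mem (he _) (Submodule.smul_mem _ _ (sub_mem
      (Submodule.smul_mem _ _ (sub_mem (he _) (he _))) (UU2_mem _)))
  · simp only [ph, ka, ph2, sw, w2, Nat.succ_ne_zero, if_false, sub_zero]
    exact add_mem (he _) (Submodule.smul_mem _ _ (sub_mem (UU2_mem _) (UU2_mem _)))

lemma Lam_span {F : V} (h : F ∈ Submodule.span ℝ (range eps)) : Lam F = 0 := by
  induction h using Submodule.span_induction with
  | mem x hx => obtain ⟨m, rfl⟩ := hx; exact Lam_eps m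
  | zero => simp
  | add x y _ _ h1 h2 => simp [h1, h2]
  | smul a x _ h => simp [h]

lemma Lam_ka (g : G2) : Lam (ka (some g)) = 0 := by
  simp only [ka]; split_ifs <;> simp [Lam_haar]

lemma Lam_ph (g : G2) : Lam (ph (some g)) = 0 := by
  have := Lam_span (rho_mem (some g))
  rwa [map_sub, Lam_ka, sub_zero] at this

open Classical in
lemma ph_ON (g g' : Ga) : Lam (ph g * ph g') = if g = g' then 1 else 0 := by
  rcases g with _ | ⟨b, j⟩ <;> rcases g' with _ | ⟨b', j'⟩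
  · simp [ph, Lam_one]
  · simpa [ph] using Lam_ph ⟨b', j'⟩
  · simpa [ph] using Lam_ph ⟨b, j⟩
  · by_cases h : b = b'
    · subst h; simpa [ph] using ph2_ON.1 b j j'
    · rw [if_neg fun h2 => h (congrArg Sigma.fst (Option.some_injective _ h2))]
      exact ph2_ON.2 b b' j j' h

lemma ph_abs (g : Ga) (x : Om) : |ph g x| ≤ 5 := by
  rcases g with _ | ⟨b, j⟩
  · simp [ph]
  have hU := UU_abs (lv := Sigma.fst) (u := u2) fun b j x => (eps_abs _ x).le
  have h0 := rr_pos b.1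
  have h1 := one_le_rr b.1
  have hw : |w2 b x| ≤ 3 * rr b.1 := by
    rcases b with ⟨n, t, _ | l⟩
    · simp only [w2, psi, sw, UU_haar, id, ContinuousMap.add_apply, ContinuousMap.smul_apply,
        ContinuousMap.sub_apply, smul_eq_mul]
      have a1 : |haar n t x| ≤ rr n := haar_abs n t x
      have a2 := abs_sub (eps (th (.inl n)) x) (eps n x)
      rw [eps_abs, eps_abs] at a2
      have a3 : (rr n)⁻¹ ≤ 1 := inv_le_one_of_one_le₀ h1
      refine (abs_add_le _ _).trans ?_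
      rw [abs_mul, abs_of_pos (inv_pos.2 h0)]
      have := mul_le_mul a3 a2 (abs_nonneg _) zero_le_one
      linarith
    · exact (hU ⟨n, t, l⟩ x).trans (by linarith)
  simp only [ph, ph2, sw, ContinuousMap.add_apply, ContinuousMap.smul_apply,
    ContinuousMap.sub_apply, smul_eq_mul]
  refine (abs_add_le _ _).trans ?_
  rw [abs_mul, abs_of_pos (inv_pos.2 h0), u2, eps_abs]
  have a4 := (abs_sub (w2 b x) (UU Sigma.fst u2 b x)).trans (add_le_add hw (hU b x))
  have : (rr b.1)⁻¹ * |w2 b x - UU Sigma.fst u2 b x| ≤ 4 := by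
    rw [inv_mul_le_iff₀ h0]; linarith
  linarith

lemma ph_complete (T : V →ₗ[ℝ] ℝ) (h : ∀ g, T (ph g) = 0) :
    T 1 = 0 ∧ ∀ n t, T (haar n t) = 0 := by
  have h1 := fun b => sw_complete (lv := Sigma.fst) (u := u2) (w := w2) T b
    fun j => h (some ⟨b, j⟩)
  have h2 : ∀ b j, T (u2 b j) = 0 := by
    rintro ⟨n, t, l⟩ j
    have : T (UU Sigma.fst u2 ⟨n, t, l⟩) = 0 := (h1 ⟨n, t, l + 1⟩).1
    rw [(h1 _).2, this, mul_zero]
  have h3 := fun n => sw_complete (lv := id) (u := haar) (w := fun n => eps (th (.inl n))) T n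
    fun t => (h1 ⟨n, t, 0⟩).1
  have h4 : ∀ m, T (eps m) = 0 := by
    intro m
    obtain ⟨c | ⟨b, j⟩, rfl⟩ := th.surjective m
    · exact (h3 c).1
    · exact h2 b j
  exact ⟨h none, fun n t => by rw [(h3 n).2, UU_haar, h4, mul_zero]⟩

lemma ka_ka (n : ℕ) (t : W n) (l : ℕ) (j : W n) (g' : Ga) :
    0 ≤ Lam (ka (some ⟨⟨n, t, l⟩, j⟩) * ka g') ∧
    Lam (ka (some ⟨⟨n, t, l⟩, j⟩) * ka g') ≤ ((2 : ℝ) ^ n)⁻¹ ∧
    ((∀ j', g' ≠ some ⟨⟨n, t, 0⟩, j'⟩) → Lam (ka (some ⟨⟨n, t, l⟩, j⟩) * ka g') = 0) := by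
  have z : ∀ {x : ℝ} {p : Prop}, x = 0 → 0 ≤ x ∧ x ≤ ((2 : ℝ) ^ n)⁻¹ ∧ (p → x = 0) := by
    rintro x p rfl; exact ⟨le_rfl, by positivity, fun _ => rfl⟩
  rcases g' with _ | ⟨⟨n', t', l'⟩, j'⟩
  · exact z (by simpa [ka] using Lam_ka ⟨⟨n, t, l⟩, j⟩)
  by_cases h1 : l = 0
  swap
  · exact z (by simp [ka, h1])
  by_cases h2 : l' = 0
  swap
  · exact z (by simp [ka, h2])
  subst h1 h2
  by_cases h3 : n = n'
  swap
  · exact z (by simp [ka, haar_diff h3])
  subst h3
  by_cases h4 : t = t'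
  swap
  · exact z (by simp [ka, haar_same, h4])
  subst h4
  have : Lam (ka (some ⟨⟨n, t, 0⟩, j⟩) * ka (some ⟨⟨n, t, 0⟩, j'⟩)) = ((2 : ℝ) ^ n)⁻¹ := by
    simp [ka, haar_same, ← rr_sq]
  rw [this]
  exact ⟨by positivity, le_rfl, fun h => (h j' rfl).elim⟩

lemma ka_nonneg (g g' : Ga) : 0 ≤ Lam (ka g * ka g') := by
  rcases g with _ | ⟨⟨n, t, l⟩, j⟩
  · rcases g' with _ | g'
    · simp [ka, Lam_one]
    · exact le_of_eq (by simpa [ka] using (Lam_ka g').symm)
  · exact (ka_ka n t l j g').1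

lemma ka_row (g : Ga) (A : Finset Ga) : ∑ g' ∈ A, Lam (ka g * ka g') ≤ 1 := by
  classical
  rcases g with _ | ⟨⟨n, t, l⟩, j⟩
  · have : ∀ g' : Ga, Lam (ka none * ka g') = if g' = none then 1 else 0 := by
      rintro (_ | g')
      · simp [ka, Lam_one]
      · simpa [ka] using Lam_ka g'
    simp only [this, Finset.sum_ite_eq']
    split_ifs <;> simp
  · set S : Finset Ga := Finset.univ.image fun j' : W n => some ⟨⟨n, t, 0⟩, j'⟩ with hS
    rw [← Finset.sum_subset (Finset.inter_subset_left (s₁ := A) (s₂ := S))]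
    · refine (Finset.sum_le_card_nsmul _ _ _ fun g' _ => (ka_ka n t l j g').2.1).trans ?_
      have h1 : (A ∩ S).card ≤ Fintype.card (W n) :=
        (Finset.card_le_card Finset.inter_subset_right).trans Finset.card_image_le
      have h2 : ((A ∩ S).card : ℝ) ≤ 2 ^ n := by rw [← card_W]; exact_mod_cast h1
      rw [nsmul_eq_mul, mul_inv_le_iff₀ (by positivity), one_mul]; exact h2
    · intro g' h1 h2
      refine (ka_ka n t l j g').2.2 fun j' h3 => h2 (Finset.mem_inter.2 ⟨h1, ?_⟩)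
      exact Finset.mem_image.2 ⟨j', Finset.mem_univ _, h3.symm⟩

end Pool.Agent.H98.Olev
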