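import Mathlib
import Pool.Agent.H98.Olev2

set_option autoImplicit false

namespace Pool.Agent.H98.Olev

open Set Filter Topology MeasureTheory

lemma exists_equiv {A B C : Type} [Countable A] [Countable B] {f : C → A} {g : C → B}
    (hf : Function.Injective f) (hg : Function.Injective g) (hA : (range f)ᶜ.Infinite)
    (hB : (range g)ᶜ.Infinite) : ∃ e : A ≃ B, ∀ c, e (f c) = g c := by
  let F : range f ↪ B := ⟨fun x => g ((Equiv.ofInjective f hf).symm x),
    hg.comp (Equiv.injective _)⟩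
  have hF : range F = range g := (Equiv.surjective _).range_comp g
  have := hA.to_subtype
  have := hB.to_subtype
  obtain ⟨e, he⟩ := Cardinal.extend_function F (hF ▸ nonempty_equiv_of_countable)
  exact ⟨e, fun c => (he ⟨f c, c, rfl⟩).trans (by simp [F])⟩

abbrev G0 := Option (Σ n : ℕ, W n × W n)

def g0 : G0 → Ga
  | none => none
  | some x => some ⟨⟨x.1, x.2.1, 0⟩, x.2.2⟩

noncomputable def enc (n : ℕ) : W n × W n ≃ Fin (4 ^ n) :=
  Fintype.equivFinOfCardEq (by simp [← mul_pow])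

noncomputable def pos : G0 → ℕ × ℕ
  | none => (0, 0)
  | some x => (0, 4 ^ x.1 + enc x.1 x.2)

lemma lvl_eq {n m k : ℕ} (h1 : 4 ^ n ≤ k) (h2 : k < 4 ^ (n + 1)) (h3 : 4 ^ m ≤ k)
    (h4 : k < 4 ^ (m + 1)) : n = m :=
  (Nat.log_eq_of_pow_le_of_lt_pow h1 h2).symm.trans (Nat.log_eq_of_pow_le_of_lt_pow h3 h4)

lemma enc_lt (n : ℕ) (x : W n × W n) : 4 ^ n + (enc n x : ℕ) < 4 ^ (n + 1) := by
  have := (enc n x).2
  rw [pow_succ]; omega

lemma exists_arr : ∃ e : ℕ × ℕ ≃ Ga, (∀ i k, i ≠ 0 → ka (e (i, k)) = 0) ∧ ka (e (0, 0)) = 1 ∧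
    ∀ n k, 4 ^ n ≤ k → k < 4 ^ (n + 1) →
      ∃ (c : ℝ) (t : W n), 0 ≤ c ∧ ka (e (0, k)) = c • haar n t := by
  have h1 : Function.Injective pos := by
    rintro (_ | ⟨n, x⟩) (_ | ⟨m, y⟩) h
    · rfl
    · have := congrArg Prod.snd h
      have h4 : 0 < 4 ^ m := by positivity
      simp only [pos] at this; omega
    · have := congrArg Prod.snd h
      have h4 : 0 < 4 ^ n := by positivity
      simp only [pos] at this; omega
    · have h2 : 4 ^ n + (enc n x : ℕ) = 4 ^ m + enc m y := congrArg Prod.snd h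
      obtain rfl : n = m := lvl_eq (Nat.le_add_right _ _) (enc_lt n x)
        (h2 ▸ Nat.le_add_right _ _) (h2 ▸ enc_lt m y)
      obtain rfl : x = y := (enc n).injective (Fin.ext (by omega))
      rfl
  have h2 : Function.Injective g0 := by
    rintro (_ | ⟨n, t, j⟩) (_ | ⟨m, u, k⟩) h
    · rfl
    · cases h
    · cases h
    · cases h; rfl
  have h3 : (range pos)ᶜ.Infinite := by
    refine infinite_of_injective_forall_mem (f := fun k : ℕ => ((1, k) : ℕ × ℕ))
      (fun a b h => by simpa using h) fun k => ?_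
    rintro ⟨_ | x, h⟩ <;> simp [pos] at h
  have h4 : (range g0)ᶜ.Infinite := by
    refine infinite_of_injective_forall_mem
      (f := fun l : ℕ => (some ⟨⟨0, default, l + 1⟩, default⟩ : Ga))
      (fun a b h => by cases h; rfl) fun k => ?_
    rintro ⟨_ | ⟨n, t, j⟩, h⟩ <;> cases h
  obtain ⟨e, he⟩ := exists_equiv h1 h2 h3 h4
  have h5 : ∀ p, p ∉ range pos → ka (e p) = 0 := by
    intro p hp
    rcases h : e p with _ | ⟨⟨n, t, _ | l⟩, j⟩
    · exact (hp ⟨none, e.injective ((he _).trans h.symm)⟩).elim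
    · exact (hp ⟨some ⟨n, t, j⟩, e.injective ((he _).trans h.symm)⟩).elim
    · simp [ka]
  refine ⟨e, fun i k hi => h5 _ ?_, (congrArg ka (he none)).trans rfl, fun n k a b => ?_⟩
  · rintro ⟨_ | x, h⟩ <;> exact hi (congrArg Prod.fst h).symm
  by_cases hp : (0, k) ∈ range pos
  · obtain ⟨_ | ⟨m, x⟩, h⟩ := hp
    · have := congrArg Prod.snd h
      have h4 : 0 < 4 ^ n := by positivity
      simp only [pos] at this; omega
    · have h6 : 4 ^ m + (enc m x : ℕ) = k := congrArg Prod.snd h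
      obtain rfl : n = m := lvl_eq a b (h6 ▸ Nat.le_add_right _ _) (h6 ▸ enc_lt m x)
      exact ⟨_, x.1, (inv_pos.2 (rr_pos n)).le, by rw [← h, he]; simp [g0, ka]⟩
  · exact ⟨0, default, le_rfl, by rw [h5 _ hp, zero_smul]⟩

/-- Nonnegative Gram matrix with row sums at most one. -/
def Schur {ι : Type} (f : ι → V) : Prop := (∀ i j, 0 ≤ Lam (f i * f j)) ∧
  ∀ i (A : Finset ι), ∑ j ∈ A, Lam (f i * f j) ≤ 1

lemma Schur.comp {ι κ : Type} {f : ι → V} (h : Schur f) {e : κ → ι} (he : Function.Injective e) :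
    Schur fun k => f (e k) :=
  ⟨fun _ _ => h.1 _ _, fun i A => by simpa using h.2 (e i) (A.map ⟨e, he⟩)⟩

lemma schur_ka : Schur ka := ⟨ka_nonneg, ka_row⟩

lemma schur_ph : Schur ph := by
  classical
  refine ⟨fun i j => by rw [ph_ON]; split_ifs <;> simp, fun i A => ?_⟩
  simp only [ph_ON, Finset.sum_ite_eq]
  split_ifs <;> simp

lemma Schur.le {ι : Type} {f : ι → V} (h : Schur f) (A : Finset ι) (x : ι → ℝ) :
    Lam ((∑ i ∈ A, x i • f i) * ∑ i ∈ A, x i • f i) ≤ ∑ i ∈ A, x i ^ 2 := by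
  have h1 : ∑ i ∈ A, ∑ j ∈ A, x i ^ 2 * Lam (f i * f j) ≤ ∑ i ∈ A, x i ^ 2 :=
    Finset.sum_le_sum fun i _ => by
      rw [← Finset.mul_sum]; exact mul_le_of_le_one_right (sq_nonneg _) (h.2 i A)
  have h2 : ∑ i ∈ A, ∑ j ∈ A, x j ^ 2 * Lam (f i * f j) ≤ ∑ i ∈ A, x i ^ 2 := by
    rw [Finset.sum_comm]
    refine le_trans (le_of_eq ?_) h1
    exact Finset.sum_congr rfl fun i _ => Finset.sum_congr rfl fun j _ => by rw [mul_comm (f j)]
  have h3 : 2 * Lam ((∑ i ∈ A, x i • f i) * ∑ i ∈ A, x i • f i) ≤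
      ∑ i ∈ A, ∑ j ∈ A, x i ^ 2 * Lam (f i * f j) +
        ∑ i ∈ A, ∑ j ∈ A, x j ^ 2 * Lam (f i * f j) := by
    rw [Finset.sum_mul_sum]
    simp only [map_sum, smul_mul_smul_comm, map_smul, smul_eq_mul,
      Finset.mul_sum, ← Finset.sum_add_distrib]
    refine Finset.sum_le_sum fun i _ => Finset.sum_le_sum fun j _ => ?_
    nlinarith [mul_nonneg (sq_nonneg (x i - x j)) (h.1 i j)]
  linarith

lemma six_le {ι : Type} {f g : ι → V} (hf : Schur f) (hg : Schur g)
    (h : ∀ i, f i - g i ∈ Submodule.span ℝ (range eps)) (A : Finset ι) (x : ι → ℝ) :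
    Lam ((∑ i ∈ A, x i • (f i - g i)) ^ 6) ≤ 960 * (∑ i ∈ A, x i ^ 2) ^ 3 := by
  refine (rad_six (Submodule.sum_mem _ fun i _ => Submodule.smul_mem _ _ (h i))).trans ?_
  have h1 := hf.le A x
  have h2 := hg.le A x
  simp only [smul_sub, Finset.sum_sub_distrib]
  generalize ∑ i ∈ A, x i • f i = F at h1
  generalize ∑ i ∈ A, x i • g i = G at h2
  generalize ∑ i ∈ A, x i ^ 2 = S at h1 h2
  have h3 : Lam ((F - G) * (F - G)) ≤ Lam ((2 : ℝ) • (F * F) + (2 : ℝ) • (G * G)) :=
    Lam_mono fun w => by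
      simp only [ContinuousMap.mul_apply, ContinuousMap.sub_apply, ContinuousMap.add_apply,
        ContinuousMap.smul_apply, smul_eq_mul]
      nlinarith [sq_nonneg (F w + G w)]
  rw [map_add, map_smul, map_smul, smul_eq_mul, smul_eq_mul] at h3
  have h4 : 0 ≤ Lam ((F - G) * (F - G)) := Lam_nonneg fun w => mul_self_nonneg _
  have := pow_le_pow_left₀ h4 (h3.trans (by linarith : _ ≤ 4 * S)) 3
  nlinarith

/-- Sets invariant under all flips of coordinates from `N` on. -/
def filt : Filtration ℕ (inferInstance : MeasurableSpace Om) where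
  seq N := ⨅ n, ⨅ _ : N ≤ n, MeasurableSpace.invariants (flip n)
  mono' _ _ h := le_iInf₂ fun n hn => iInf₂_le n (h.trans hn)
  le' N := (iInf₂_le N le_rfl).trans (MeasurableSpace.invariants_le _)

lemma conv_ka {κ : ℕ → V} (hS : Schur κ) (h0 : κ 0 = 1)
    (h1 : ∀ n k, 4 ^ n ≤ k → k < 4 ^ (n + 1) → ∃ (c : ℝ) (t : W n), 0 ≤ c ∧ κ k = c • haar n t)
    {b : ℕ → ℝ} (hb : Summable fun k => b k ^ 2) :
    ∀ᵐ w ∂mu, ∃ l, Tendsto (fun K => ∑ k ∈ Finset.range K, b k * κ k w) atTop (𝓝 l) := by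
  let P : ℕ → V := fun N => ∑ k ∈ Finset.range (4 ^ N), b k • κ k
  let D : ℕ → V := fun N => ∑ k ∈ Finset.Ico (4 ^ N) (4 ^ (N + 1)), b k • κ k
  have hp : ∀ N, 4 ^ N ≤ 4 ^ (N + 1) := fun N => Nat.pow_le_pow_right (by norm_num) N.le_succ
  have hPD : ∀ N, P (N + 1) = P N + D N := fun N =>
    (Finset.sum_range_add_sum_Ico _ (hp N)).symm
  have hD : ∀ N n w, N ≤ n → D N (flip n w) = if N = n then -D N w else D N w := by
    intro N n w hn
    have : ∀ k ∈ Finset.Ico (4 ^ N) (4 ^ (N + 1)), (b k • κ k) (flip n w) =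
        if N = n then -(b k • κ k) w else (b k • κ k) w := by
      intro k hk
      obtain ⟨c, t, -, h⟩ := h1 N k (Finset.mem_Ico.1 hk).1 (Finset.mem_Ico.1 hk).2
      simp only [h, ContinuousMap.smul_apply, haar_flip hn]
      split_ifs <;> simp
    simp only [D, ContinuousMap.sum_apply, Finset.sum_congr rfl this]
    split_ifs <;> simp
  have hP : ∀ N n w, N ≤ n → P N (flip n w) = P N w := by
    intro N
    induction N with
    | zero => intro n w _; simp [P, h0]
    | succ N ih =>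
      intro n w hn
      rw [hPD, ContinuousMap.add_apply, ContinuousMap.add_apply, ih n w (by omega),
        hD N n w (by omega), if_neg (by omega)]
  have hm : Martingale (fun N => (P N : Om → ℝ)) filt mu := by
    refine martingale_of_setIntegral_eq_succ (fun N => Measurable.stronglyMeasurable ?_)
      (fun N => (P N).integrable) fun N s hs => ?_
    · intro s hs
      refine MeasurableSpace.measurableSet_iInf.2 fun n => MeasurableSpace.measurableSet_iInf.2
        fun hn => ⟨(P N).continuous.measurable hs, ?_⟩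
      ext w; simp [hP N n w hn]
    · have h2 : MeasurableSet[MeasurableSpace.invariants (flip N)] s :=
        MeasurableSpace.measurableSet_iInf.1 (MeasurableSpace.measurableSet_iInf.1 hs N) le_rfl
      have h3 := setInt_anti (f := D N) (fun w => by simpa using hD N N w le_rfl) h2.1 h2.2
      simp only [hPD, ContinuousMap.add_apply]
      rw [integral_add (P N).integrable.integrableOn (D N).integrable.integrableOn, h3, add_zero]
  have hbd : ∀ N, eLpNorm (P N) 1 mu ≤ (1 + ∑' k, b k ^ 2).toNNReal := by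
    intro N
    rw [eLpNorm_one_eq_lintegral_enorm, ← ofReal_integral_norm_eq_lintegral_enorm (P N).integrable]
    refine ENNReal.ofReal_le_ofReal ?_
    have h2 := (hS.le (Finset.range (4 ^ N)) b).trans (hb.sum_le_tsum _ fun _ _ => sq_nonneg _)
    have h3 : ∫ w, ‖P N w‖ ∂mu ≤ Lam (1 + P N * P N) :=
      integral_mono (P N).integrable.norm (V.integrable _) fun w => by
        simp only [ContinuousMap.add_apply, ContinuousMap.mul_apply, ContinuousMap.one_apply,
          Real.norm_eq_abs]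
        nlinarith [sq_nonneg (|P N w| - 1), abs_mul_abs_self (P N w), abs_nonneg (P N w)]
    rw [map_add, Lam_one] at h3
    exact h3.trans (by linarith)
  let Y : ℕ → V := fun N => (∑ k ∈ Finset.Ico (4 ^ N) (4 ^ (N + 1)), |b k| • κ k) *
    ∑ k ∈ Finset.Ico (4 ^ N) (4 ^ (N + 1)), |b k| • κ k
  have hY : Summable fun N => Lam (Y N) := by
    refine summable_of_sum_range_le (c := ∑' k, b k ^ 2)
      (fun N => Lam_nonneg fun w => mul_self_nonneg _) fun M => ?_
    have : ∑ N ∈ Finset.range M, Lam (Y N) ≤ ∑ k ∈ Finset.range (4 ^ M), b k ^ 2 := by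
      induction M with
      | zero => simpa using sq_nonneg _
      | succ M ih =>
        rw [Finset.sum_range_succ, ← Finset.sum_range_add_sum_Ico _ (hp M)]
        exact add_le_add ih (by simpa only [sq_abs] using hS.le _ fun k => |b k|)
    exact this.trans (hb.sum_le_tsum _ fun _ _ => sq_nonneg _)
  filter_upwards [hm.submartingale.exists_ae_tendsto_of_bdd hbd,
    ae_tendsto_zero Y (fun N w => mul_self_nonneg _) hY] with w ⟨l, hl⟩ hw
  have hlog : Tendsto (Nat.log 4) atTop atTop := tendsto_atTop_atTop.2 fun n =>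
    ⟨4 ^ n, fun k hk => Nat.le_log_of_pow_le (by norm_num) hk⟩
  have hw2 := (Real.continuous_sqrt.tendsto' 0 0 Real.sqrt_zero).comp (hw.comp hlog)
  refine ⟨l, (hl.comp hlog).congr_dist (squeeze_zero' (Eventually.of_forall fun _ => dist_nonneg)
    ?_ hw2)⟩
  filter_upwards [eventually_ge_atTop 1] with K hK
  have a1 : 4 ^ Nat.log 4 K ≤ K := Nat.pow_log_le_self 4 (by omega)
  have a2 : K < 4 ^ (Nat.log 4 K + 1) := Nat.lt_pow_succ_log_self (by norm_num) K
  simp only [Function.comp]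
  generalize Nat.log 4 K = N at a1 a2
  rw [← Finset.sum_range_add_sum_Ico _ a1]
  simp only [P, ContinuousMap.sum_apply, ContinuousMap.smul_apply, smul_eq_mul, dist_self_add_right,
    Real.norm_eq_abs]
  refine Real.le_sqrt_of_sq_le ?_
  have a3 : |∑ k ∈ Finset.Ico (4 ^ N) K, b k * κ k w| ≤
      ∑ k ∈ Finset.Ico (4 ^ N) (4 ^ (N + 1)), |b k * κ k w| :=
    (Finset.abs_sum_le_sum_abs _ _).trans (Finset.sum_le_sum_of_subset_of_nonneg
      (Finset.Ico_subset_Ico_right a2.le) fun _ _ _ => abs_nonneg _)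
  refine (pow_le_pow_left₀ (abs_nonneg _) a3 2).trans (le_of_eq ?_)
  simp only [Y, ContinuousMap.mul_apply, ContinuousMap.sum_apply, ContinuousMap.smul_apply,
    smul_eq_mul, sq, Finset.sum_mul_sum]
  refine Finset.sum_congr rfl fun k hk => Finset.sum_congr rfl fun k' hk' => ?_
  obtain ⟨c, t, hc, h⟩ := h1 N k (Finset.mem_Ico.1 hk).1 (Finset.mem_Ico.1 hk).2
  obtain ⟨c', t', hc', h'⟩ := h1 N k' (Finset.mem_Ico.1 hk').1 (Finset.mem_Ico.1 hk').2
  have a4 : 0 ≤ κ k w * κ k' w := by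
    simp only [h, h', ContinuousMap.smul_apply, smul_eq_mul]
    by_cases e : t = t'
    · subst e
      nlinarith [mul_nonneg (mul_nonneg hc hc') (mul_self_nonneg (haar N t w))]
    · by_cases e2 : res N w = t
      · simp [haar_zero (t := t') (w := w) (e2 ▸ e)]
      · simp [haar_zero e2]
  rw [abs_mul, abs_mul, mul_mul_mul_comm, ← abs_mul (κ k w), abs_of_nonneg a4]
  ring

end Pool.Agent.H98.Olev
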