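import Mathlib
import Pool.Agent.H98.Olev3

set_option autoImplicit false

namespace Pool.Agent.H98.Olev

open Set Filter Topology MeasureTheory

noncomputable def cum (p : ℕ → ℝ) (m : ℕ) : ℝ := ∑ i ∈ Finset.range m, p i

noncomputable def lam (p : ℕ → ℝ) (i : ℕ) (s : ℝ) : ℝ := max 0 (min 1 ((s - cum p i) / p i))

structure Wt (p : ℕ → ℝ) : Prop where
  pos : ∀ i, 0 < p i
  sum : HasSum p 1

section wt
variable {p : ℕ → ℝ} (h : Wt p)
include h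

lemma Wt.mono : StrictMono (cum p) := strictMono_nat_of_lt_succ fun n => by
  simp [cum, Finset.sum_range_succ, h.pos n]

lemma Wt.lim : Tendsto (cum p) atTop (𝓝 1) := h.sum.tendsto_sum_nat

lemma Wt.mem (m : ℕ) : cum p m ∈ Ico (0 : ℝ) 1 :=
  ⟨Finset.sum_nonneg fun i _ => (h.pos i).le,
    (h.mono m.lt_succ_self).trans_le (h.mono.monotone.ge_of_tendsto h.lim _)⟩

lemma Wt.lam_zero {i : ℕ} {s : ℝ} (hs : s ≤ cum p i) : lam p i s = 0 :=
  max_eq_left ((min_le_right _ _).trans (div_nonpos_of_nonpos_of_nonneg (by linarith) (h.pos i).le))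

lemma Wt.lam_one {i : ℕ} {s : ℝ} (hs : cum p (i + 1) ≤ s) : lam p i s = 1 := by
  rw [cum, Finset.sum_range_succ, ← cum] at hs
  rw [lam, min_eq_left ((le_div_iff₀ (h.pos i)).2 (by linarith)), max_eq_right zero_le_one]

lemma Wt.lam_mono (i : ℕ) : Monotone (lam p i) := fun _ _ hs =>
  max_le_max le_rfl (min_le_min le_rfl (div_le_div_of_nonneg_right (by linarith) (h.pos i).le))

lemma Wt.sum_lam (N : ℕ) (s : ℝ) :
    ∑ i ∈ Finset.range N, p i * lam p i s = max 0 (min s (cum p N)) := by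
  induction N with
  | zero => simp [cum]
  | succ N ih =>
    have h1 := h.pos N
    have h2 := (h.mem N).1
    have h3 : cum p (N + 1) = cum p N + p N := Finset.sum_range_succ _ _
    rw [Finset.sum_range_succ, ih]
    rcases le_total s (cum p N) with a | a
    · rw [h.lam_zero a, min_eq_left a, min_eq_left (by linarith)]; ring
    rcases le_total (cum p (N + 1)) s with b | b
    · rw [h.lam_one b, min_eq_right a, min_eq_right b, max_eq_right h2, max_eq_right (by linarith)]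
      linarith
    · rw [lam, min_eq_right a, min_eq_left b, max_eq_right h2, max_eq_right (h2.trans a),
        min_eq_right ((div_le_one h1).2 (by linarith)),
        max_eq_right (div_nonneg (by linarith) h1.le)]
      field_simp; ring

lemma Wt.sum_diff (N : ℕ) {s s' : ℝ} (hs : s ≤ s') :
    ∑ i ∈ Finset.range N, p i * (lam p i s' - lam p i s) ≤ s' - s := by
  simp only [mul_sub, Finset.sum_sub_distrib, h.sum_lam, max_def, min_def]
  split_ifs <;> linarith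

end wt

lemma lam_mem (p : ℕ → ℝ) (i : ℕ) (s : ℝ) : lam p i s ∈ Icc (0 : ℝ) 1 :=
  ⟨le_max_left _ _, max_le zero_le_one (min_le_left _ _)⟩

lemma lam_cont (p : ℕ → ℝ) (i : ℕ) : Continuous (lam p i) := by unfold lam; fun_prop

noncomputable def fl2 (s : ℕ) (x : ℝ) : ℝ := (⌊2 ^ s * x⌋₊ : ℝ) / 2 ^ s

lemma fl2_le (s : ℕ) {x : ℝ} (hx : 0 ≤ x) : fl2 s x ≤ x := by
  rw [fl2, div_le_iff₀ (by positivity), mul_comm]; exact Nat.floor_le (by positivity)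

lemma fl2_lim {x : ℝ} (hx : 0 ≤ x) : Tendsto (fun s => fl2 s x) atTop (𝓝 x) := by
  have := (tendsto_nat_floor_mul_div_atTop hx).comp
    (tendsto_pow_atTop_atTop_of_one_lt (by norm_num : (1 : ℝ) < 2))
  simpa [fl2, Function.comp_def, mul_comm] using this

lemma floor_lt (s : ℕ) {x : ℝ} (hx : x ∈ Ico (0 : ℝ) 1) : ⌊2 ^ s * x⌋₊ < 2 ^ s := by
  rw [Nat.floor_lt (by have := hx.1; positivity)]
  push_cast
  exact mul_lt_of_lt_one_right (by positivity) hx.2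

lemma floor_succ (s : ℕ) {x : ℝ} (hx : 0 ≤ x) :
    ⌊2 ^ (s + 1) * x⌋₊ = 2 * ⌊2 ^ s * x⌋₊ ∨ ⌊2 ^ (s + 1) * x⌋₊ = 2 * ⌊2 ^ s * x⌋₊ + 1 := by
  have h1 := Nat.floor_le (show 0 ≤ 2 ^ s * x by positivity)
  have h2 := Nat.lt_floor_add_one (2 ^ s * x)
  have h3 : 2 * ⌊2 ^ s * x⌋₊ ≤ ⌊2 ^ (s + 1) * x⌋₊ := Nat.le_floor (by push_cast; rw [pow_succ]; linarith)
  have h4 : ⌊2 ^ (s + 1) * x⌋₊ < 2 * ⌊2 ^ s * x⌋₊ + 2 :=
    (Nat.floor_lt (by positivity)).2 (by push_cast; rw [pow_succ]; linarith)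
  omega

/-- Small increments in the first variable along dyadic grids. -/
def Inc (Z : ℝ → ℝ → ℝ) (K : ℝ) : Prop := ∀ s u v : ℕ, u < 2 ^ s → v < 2 ^ (s + 1) →
  |Z ((2 * u + 1 : ℕ) / 2 ^ (s + 1)) (v / 2 ^ (s + 1)) -
    Z ((2 * u : ℕ) / 2 ^ (s + 1)) (v / 2 ^ (s + 1))| ≤ K * (10 / 11) ^ s

lemma Inc.step {Z : ℝ → ℝ → ℝ} {K : ℝ} (h : Inc Z K) (hK : 0 ≤ K) (s : ℕ) {x : ℝ}
    (hx : x ∈ Ico (0 : ℝ) 1) {v : ℕ} (hv : v < 2 ^ (s + 1)) :
    |Z (fl2 (s + 1) x) (v / 2 ^ (s + 1)) - Z (fl2 s x) (v / 2 ^ (s + 1))| ≤ K * (10 / 11) ^ s := by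
  have e : fl2 s x = (2 * ⌊2 ^ s * x⌋₊ : ℕ) / 2 ^ (s + 1) := by
    rw [fl2]; push_cast; field_simp; ring
  rw [e, fl2]
  rcases floor_succ s hx.1 with a | a <;> rw [a]
  · simp only [sub_self, abs_zero]; positivity
  · exact h s _ v (floor_lt s hx) hv

lemma chain {Z : ℝ → ℝ → ℝ} {K : ℝ} (h1 : Inc Z K) (h2 : Inc (fun y x => Z x y) K) (hK : 0 ≤ K)
    {x y : ℝ} (hx : x ∈ Ico (0 : ℝ) 1) (hy : y ∈ Ico (0 : ℝ) 1)
    (hc : Tendsto (fun s => Z (fl2 s x) (fl2 s y)) atTop (𝓝 (Z x y))) (s : ℕ) :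
    dist (Z (fl2 s x) (fl2 s y)) (Z x y) ≤ 2 * K * (10 / 11) ^ s / (1 - 10 / 11) := by
  refine dist_le_of_le_geometric_of_tendsto (10 / 11) (2 * K) (by norm_num) (fun s => ?_) hc s
  have e : fl2 s y = (2 * ⌊2 ^ s * y⌋₊ : ℕ) / 2 ^ (s + 1) := by
    rw [fl2]; push_cast; field_simp; ring
  have a1 := h1.step hK s hx (v := 2 * ⌊2 ^ s * y⌋₊)
    (by have := floor_lt s hy; rw [pow_succ]; omega)
  have a2 := h2.step hK s hy (floor_lt (s + 1) hx)
  rw [← e] at a1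
  change |Z (fl2 (s + 1) x) (fl2 (s + 1) y) - Z (fl2 (s + 1) x) (fl2 s y)| ≤ _ at a2
  rw [dist_comm, Real.dist_eq]
  have := abs_sub_le (Z (fl2 (s + 1) x) (fl2 (s + 1) y)) (Z (fl2 (s + 1) x) (fl2 s y))
    (Z (fl2 s x) (fl2 s y))
  linarith

lemma cauchy {ι : Type} [SemilatticeSup ι] [Nonempty ι] {Z : ℝ → ℝ → ℝ} {K : ℝ} {x y : ι → ℝ}
    (hx : ∀ s, ∃ c, ∀ᶠ i in atTop, fl2 s (x i) = c) (hy : ∀ s, ∃ c, ∀ᶠ i in atTop, fl2 s (y i) = c)
    (h : ∀ i s, dist (Z (fl2 s (x i)) (fl2 s (y i))) (Z (x i) (y i)) ≤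
      2 * K * (10 / 11) ^ s / (1 - 10 / 11)) :
    ∃ l, Tendsto (fun i => Z (x i) (y i)) atTop (𝓝 l) := by
  refine cauchySeq_tendsto_of_complete (Metric.cauchySeq_iff.2 fun ε hε => ?_)
  have h1 := ((tendsto_pow_atTop_nhds_zero_of_lt_one (by norm_num : (0 : ℝ) ≤ 10 / 11)
    (by norm_num)).const_mul (2 * K)).div_const (1 - 10 / 11)
  rw [mul_zero, zero_div] at h1
  obtain ⟨s, hs⟩ := (h1.eventually (gt_mem_nhds (half_pos hε))).exists
  obtain ⟨c, hc⟩ := hx s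
  obtain ⟨d, hd⟩ := hy s
  obtain ⟨N, hN⟩ := eventually_atTop.1 (hc.and hd)
  refine ⟨N, fun m hm n hn => ?_⟩
  have a1 := h m s
  have a2 := h n s
  rw [(hN m hm).1, (hN m hm).2] at a1
  rw [(hN n hn).1, (hN n hn).2] at a2
  linarith [dist_triangle_left (Z (x m) (y m)) (Z (x n) (y n)) (Z c d)]

lemma Wt.ev {p : ℕ → ℝ} (h : Wt p) (s : ℕ) : ∃ c, ∀ᶠ m in atTop, fl2 s (cum p m) = c := by
  have h1 : (1 : ℝ) - (2 ^ s)⁻¹ < 1 := sub_lt_self _ (by positivity)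
  refine ⟨(2 ^ s - 1 : ℕ) / 2 ^ s, (h.lim.eventually (lt_mem_nhds h1)).mono fun m hm => ?_⟩
  have h2 := floor_lt s (h.mem m)
  have h3 : 2 ^ s - 1 ≤ ⌊2 ^ s * cum p m⌋₊ := Nat.le_floor (by
    rw [Nat.cast_sub Nat.one_le_two_pow]
    have := mul_lt_mul_of_pos_left hm (show (0 : ℝ) < 2 ^ s by positivity)
    rw [mul_sub, mul_inv_cancel₀ (by positivity)] at this
    push_cast; linarith)
  rw [fl2, show ⌊2 ^ s * cum p m⌋₊ = 2 ^ s - 1 by omega]

noncomputable def XX (ρ : ℕ × ℕ → V) (a : ℕ × ℕ → ℝ) (p q : ℕ → ℝ) (w : Om) (s t : ℝ) : ℝ :=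
  ∑' z : ℕ × ℕ, a z * lam p z.1 s * lam q z.2 t * ρ z w

section main
variable {ρ : ℕ × ℕ → V} {a : ℕ × ℕ → ℝ} {p q : ℕ → ℝ}

lemma XX_swap (w : Om) (s t : ℝ) :
    XX (fun z => ρ z.swap) (fun z => a z.swap) q p w t s = XX ρ a p q w s t := by
  rw [XX, XX, ← (Equiv.prodComm ℕ ℕ).tsum_eq]
  exact tsum_congr fun z => by
    simp only [Equiv.prodComm_apply, Prod.swap_swap, Prod.fst_swap, Prod.snd_swap]; ring

lemma XX_eq (hp : Wt p) (hq : Wt q) (w : Om) {s t : ℝ} {m n : ℕ} (hs : s ≤ cum p m)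
    (ht : t ≤ cum q n) : XX ρ a p q w s t =
      ∑ z ∈ Finset.range m ×ˢ Finset.range n, a z * lam p z.1 s * lam q z.2 t * ρ z w := by
  refine tsum_eq_sum fun z hz => ?_
  simp only [Finset.mem_product, Finset.mem_range, not_and_or, not_lt] at hz
  rcases hz with hz | hz
  · rw [hp.lam_zero (hs.trans (hp.mono.monotone hz))]; ring
  · rw [hq.lam_zero (ht.trans (hq.mono.monotone hz))]; ring

lemma XX_cum (hp : Wt p) (hq : Wt q) (w : Om) (m n : ℕ) : XX ρ a p q w (cum p m) (cum q n) =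
    ∑ i ∈ Finset.range m, ∑ k ∈ Finset.range n, a (i, k) * ρ (i, k) w := by
  rw [XX_eq hp hq w le_rfl le_rfl, Finset.sum_product]
  refine Finset.sum_congr rfl fun i hi => Finset.sum_congr rfl fun k hk => ?_
  rw [hp.lam_one (hp.mono.monotone (Finset.mem_range.1 hi)),
    hq.lam_one (hq.mono.monotone (Finset.mem_range.1 hk))]
  ring

lemma XX_cont (hp : Wt p) (hq : Wt q) (w : Om) (m n : ℕ) :
    Tendsto (fun s => XX ρ a p q w (fl2 s (cum p m)) (fl2 s (cum q n))) atTop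
      (𝓝 (XX ρ a p q w (cum p m) (cum q n))) := by
  simp only [fun s => XX_eq (ρ := ρ) (a := a) hp hq w (fl2_le s (hp.mem m).1)
    (fl2_le s (hq.mem n).1), XX_eq hp hq w le_rfl le_rfl]
  exact tendsto_finset_sum _ fun z _ =>
    ((((lam_cont p z.1).tendsto _).comp (fl2_lim (hp.mem m).1)).const_mul _ |>.mul
      (((lam_cont q z.2).tendsto _).comp (fl2_lim (hq.mem n).1))).mul_const _

lemma ae_inc {C L : ℝ} (hC : 0 ≤ C) (hL : 0 ≤ L) (hp : Wt p) (hq : Wt q)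
    (hρ : ∀ (A : Finset (ℕ × ℕ)) (x : ℕ × ℕ → ℝ),
      Lam ((∑ z ∈ A, x z • ρ z) ^ 6) ≤ C * (∑ z ∈ A, x z ^ 2) ^ 3)
    (ha : ∀ i N, ∑ k ∈ Finset.range N, a (i, k) ^ 2 ≤ L * p i) :
    ∀ᵐ w ∂mu, ∃ K, 0 ≤ K ∧ ∀ K', K ≤ K' → Inc (XX ρ a p q w) K' := by
  have hN : ∀ s : ℕ, ∃ N, 1 - ((2 : ℝ) ^ (s + 1))⁻¹ < cum p N ∧ 1 - ((2 : ℝ) ^ (s + 1))⁻¹ < cum q N := by
    intro s
    have h1 : (1 : ℝ) - (2 ^ (s + 1))⁻¹ < 1 := sub_lt_self _ (by positivity)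
    exact ((hp.lim.eventually (lt_mem_nhds h1)).and (hq.lim.eventually (lt_mem_nhds h1))).exists
  choose N hN1 hN2 using hN
  have hv : ∀ s v : ℕ, v < 2 ^ (s + 1) → (v : ℝ) / 2 ^ (s + 1) ≤ 1 - (2 ^ (s + 1))⁻¹ := by
    intro s v hv
    have : (v : ℝ) + 1 ≤ 2 ^ (s + 1) := by exact_mod_cast hv
    rw [div_le_iff₀ (by positivity), sub_mul, inv_mul_cancel₀ (by positivity)]; linarith
  let D : ℕ → ℕ → ℕ → V := fun s u v => ∑ z ∈ Finset.range (N s) ×ˢ Finset.range (N s),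
    (a z * (lam p z.1 ((2 * u + 1 : ℕ) / 2 ^ (s + 1)) - lam p z.1 ((2 * u : ℕ) / 2 ^ (s + 1))) *
      lam q z.2 (v / 2 ^ (s + 1))) • ρ z
  have hD : ∀ s u v, Lam (D s u v ^ 6) ≤ C * (L * (2 ^ (s + 1))⁻¹) ^ 3 := by
    intro s u v
    refine (hρ _ _).trans (mul_le_mul_of_nonneg_left (pow_le_pow_left₀
      (Finset.sum_nonneg fun _ _ => sq_nonneg _) ?_ 3) hC)
    have h1 : ((2 * u : ℕ) : ℝ) / 2 ^ (s + 1) ≤ (2 * u + 1 : ℕ) / 2 ^ (s + 1) := by
      gcongr; omega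
    have h2 := mul_le_mul_of_nonneg_left (hp.sum_diff (N s) h1) hL
    have h3 : ((2 * u + 1 : ℕ) : ℝ) / 2 ^ (s + 1) - (2 * u : ℕ) / 2 ^ (s + 1) = (2 ^ (s + 1))⁻¹ := by
      push_cast; field_simp; ring
    rw [h3, Finset.mul_sum] at h2
    rw [Finset.sum_product]
    refine le_trans (Finset.sum_le_sum fun i _ => ?_) h2
    have b1 := sub_nonneg.2 (hp.lam_mono i h1)
    have b2 := lam_mem p i ((2 * u + 1 : ℕ) / 2 ^ (s + 1))
    have b3 := lam_mem p i ((2 * u : ℕ) / 2 ^ (s + 1))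
    have b4 := mul_le_mul_of_nonneg_right (ha i (N s)) b1
    rw [Finset.sum_mul, mul_assoc] at b4
    refine le_trans (Finset.sum_le_sum fun k _ => ?_) b4
    have b5 := lam_mem q k (v / 2 ^ (s + 1))
    have b6 : lam p i ((2 * u + 1 : ℕ) / 2 ^ (s + 1)) - lam p i ((2 * u : ℕ) / 2 ^ (s + 1)) ≤ 1 := by
      linarith [b2.2, b3.1]
    generalize lam p i ((2 * u + 1 : ℕ) / 2 ^ (s + 1)) - lam p i ((2 * u : ℕ) / 2 ^ (s + 1)) = d
      at b1 b6
    generalize lam q k (v / 2 ^ (s + 1)) = e at b5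
    have b7 : d * e ^ 2 ≤ 1 := mul_le_one₀ b6 (sq_nonneg _) (pow_le_one₀ b5.1 b5.2)
    have := mul_le_mul_of_nonneg_left b7 (mul_nonneg (sq_nonneg (a (i, k))) b1)
    nlinarith
  let Y : ℕ → V := fun s => (((11 / 10 : ℝ) ^ s) ^ 6) •
    ∑ u ∈ Finset.range (2 ^ s), ∑ v ∈ Finset.range (2 ^ (s + 1)), D s u v ^ 6
  have h6 : ∀ s u v w, 0 ≤ D s u v w ^ 6 := fun s u v w => by positivity
  have hY0 : ∀ s w, 0 ≤ Y s w := fun s w => by
    simp only [Y, ContinuousMap.smul_apply, ContinuousMap.sum_apply, ContinuousMap.pow_apply,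
      smul_eq_mul]
    positivity
  have hY : Summable fun s => Lam (Y s) := by
    refine Summable.of_nonneg_of_le (fun s => Lam_nonneg (hY0 s)) (fun s => ?_)
      ((summable_geometric_of_lt_one (by norm_num : (0 : ℝ) ≤ (11 / 10) ^ 6 / 2)
        (by norm_num)).mul_left (C * L ^ 3 / 4))
    simp only [Y, map_smul, map_sum, smul_eq_mul]
    refine (mul_le_mul_of_nonneg_left (Finset.sum_le_sum fun u _ => Finset.sum_le_sum
      fun v _ => hD s u v) (by positivity)).trans (le_of_eq ?_)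
    simp only [Finset.sum_const, Finset.card_range, nsmul_eq_mul]
    rw [div_pow ((11 / 10 : ℝ) ^ 6), ← pow_mul, ← pow_mul, mul_comm s 6]
    generalize (11 / 10 : ℝ) ^ (6 * s) = r
    push_cast
    field_simp
    ring
  filter_upwards [ae_tendsto_zero Y hY0 hY] with w hw
  obtain ⟨K, hK⟩ := hw.bddAbove_range
  refine ⟨max 1 K, by positivity, fun K' hK' s u v hu hv' => ?_⟩
  have hu' : 2 * u + 1 < 2 ^ (s + 1) := by rw [pow_succ]; omega
  have e : XX ρ a p q w ((2 * u + 1 : ℕ) / 2 ^ (s + 1)) (v / 2 ^ (s + 1)) -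
      XX ρ a p q w ((2 * u : ℕ) / 2 ^ (s + 1)) (v / 2 ^ (s + 1)) = D s u v w := by
    rw [XX_eq hp hq w ((hv s _ hu').trans (hN1 s).le) ((hv s _ hv').trans (hN2 s).le),
      XX_eq hp hq w ((hv s _ (by omega)).trans (hN1 s).le) ((hv s _ hv').trans (hN2 s).le),
      ← Finset.sum_sub_distrib]
    simp only [D, ContinuousMap.sum_apply, ContinuousMap.smul_apply, smul_eq_mul]
    exact Finset.sum_congr rfl fun z _ => by ring
  rw [e]
  have c1 : Y s w ≤ K := hK ⟨s, rfl⟩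
  simp only [Y, ContinuousMap.smul_apply, ContinuousMap.sum_apply, ContinuousMap.pow_apply,
    smul_eq_mul] at c1
  have c2 : D s u v w ^ 6 ≤ ∑ u ∈ Finset.range (2 ^ s), ∑ v ∈ Finset.range (2 ^ (s + 1)),
      D s u v w ^ 6 :=
    (Finset.single_le_sum (f := fun v => D s u v w ^ 6) (fun v _ => h6 s u v w)
      (Finset.mem_range.2 hv')).trans (Finset.single_le_sum
        (f := fun u => ∑ v ∈ Finset.range (2 ^ (s + 1)), D s u v w ^ 6)
        (fun u _ => Finset.sum_nonneg fun v _ => h6 s u v w) (Finset.mem_range.2 hu))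
  have c3 : ((11 / 10 : ℝ) ^ s * |D s u v w|) ^ 6 ≤ K' ^ 6 := by
    rw [mul_pow, (by norm_num : Even 6).pow_abs]
    have c4 : 1 ≤ K' := (le_max_left _ _).trans hK'
    exact ((mul_le_mul_of_nonneg_left c2 (by positivity)).trans c1).trans
      (((le_max_right _ _).trans hK').trans (le_self_pow₀ c4 (by norm_num)))
  have c5 := le_of_pow_le_pow_left₀ (by norm_num) (le_trans (by positivity) hK') c3
  have c6 : (10 / 11 : ℝ) ^ s * (11 / 10) ^ s = 1 := by rw [← mul_pow]; norm_num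
  have := mul_le_mul_of_nonneg_left c5 (show 0 ≤ (10 / 11 : ℝ) ^ s by positivity)
  rwa [← mul_assoc, c6, one_mul, mul_comm] at this

lemma exists_wt (ha : Summable fun z => a z ^ 2) : ∃ L p, 0 ≤ L ∧ Wt p ∧
    ∀ i N, ∑ k ∈ Finset.range N, a (i, k) ^ 2 ≤ L * p i := by
  have h1 := (summable_prod_of_nonneg fun z => sq_nonneg (a z)).1 ha
  let A : ℕ → ℝ := fun i => ∑' k, a (i, k) ^ 2 + (1 / 2) ^ i
  have h2 : Summable A := h1.2.add summable_geometric_two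
  have h3 : ∀ i, 0 < A i := fun i =>
    add_pos_of_nonneg_of_pos (tsum_nonneg fun _ => sq_nonneg _) (by positivity)
  have h4 : 0 < ∑' i, A i := h2.tsum_pos (fun i => (h3 i).le) 0 (h3 0)
  refine ⟨∑' i, A i, fun i => A i / ∑' i, A i, h4.le, ⟨fun i => div_pos (h3 i) h4, ?_⟩,
    fun i N => ?_⟩
  · simpa [div_self h4.ne'] using h2.hasSum.div_const (∑' i, A i)
  · rw [mul_div_cancel₀ _ h4.ne']
    exact ((h1.1 i).sum_le_tsum _ fun _ _ => sq_nonneg _).trans (le_add_of_nonneg_right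
      (by positivity))

/-- Regular convergence of a double series. -/
def Reg (c : ℕ → ℕ → ℝ) : Prop :=
  (∃ l, Tendsto (fun z : ℕ × ℕ => ∑ i ∈ Finset.range z.1, ∑ k ∈ Finset.range z.2, c i k) atTop
    (𝓝 l)) ∧ (∀ i, ∃ l, Tendsto (fun n => ∑ k ∈ Finset.range n, c i k) atTop (𝓝 l)) ∧
    ∀ k, ∃ l, Tendsto (fun m => ∑ i ∈ Finset.range m, c i k) atTop (𝓝 l)

lemma conv_rho {C : ℝ} (hC : 0 ≤ C)
    (hρ : ∀ (A : Finset (ℕ × ℕ)) (x : ℕ × ℕ → ℝ),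
      Lam ((∑ z ∈ A, x z • ρ z) ^ 6) ≤ C * (∑ z ∈ A, x z ^ 2) ^ 3)
    (ha : Summable fun z => a z ^ 2) : ∀ᵐ w ∂mu, Reg fun i k => a (i, k) * ρ (i, k) w := by
  obtain ⟨L, p, hL, hp, h1⟩ := exists_wt ha
  obtain ⟨L', q, hL', hq, h2⟩ := exists_wt (a := fun z => a z.swap)
    ((Equiv.prodComm ℕ ℕ).summable_iff.2 ha)
  have hρ' : ∀ (A : Finset (ℕ × ℕ)) (x : ℕ × ℕ → ℝ),
      Lam ((∑ z ∈ A, x z • ρ z.swap) ^ 6) ≤ C * (∑ z ∈ A, x z ^ 2) ^ 3 := fun A x => by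
    simpa using hρ (A.map (Equiv.prodComm ℕ ℕ).toEmbedding) fun z => x z.swap
  filter_upwards [ae_inc hC hL hp hq hρ h1, ae_inc (a := fun z => a z.swap) hC hL' hq hp hρ' h2] with w ⟨K, hK, i1⟩
    ⟨K', _, i2⟩
  have j1 := i1 _ (le_max_left K K')
  have j2 := i2 _ (le_max_right K K')
  have e : XX (fun z => ρ z.swap) (fun z => a z.swap) q p w = fun y x => XX ρ a p q w x y := by
    funext y x; exact XX_swap w x y
  rw [e] at j2
  have key := fun m n => chain j1 j2 (hK.trans (le_max_left _ _)) (hp.mem m) (hq.mem n)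
    (XX_cont hp hq w m n)
  have c0 : ∀ {ι : Type} [SemilatticeSup ι] (x : ℝ) s, ∃ c, ∀ᶠ _ in (atTop : Filter ι),
      fl2 s x = c := fun x s => ⟨_, Eventually.of_forall fun _ => rfl⟩
  have t1 : Tendsto (Prod.fst : ℕ × ℕ → ℕ) atTop atTop := by
    rw [← prod_atTop_atTop_eq]; exact tendsto_fst
  have t2 : Tendsto (Prod.snd : ℕ × ℕ → ℕ) atTop atTop := by
    rw [← prod_atTop_atTop_eq]; exact tendsto_snd
  refine ⟨?_, fun i => ?_, fun k => ?_⟩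
  · simpa only [XX_cum hp hq] using cauchy (x := fun z : ℕ × ℕ => cum p z.1)
      (y := fun z => cum q z.2) (fun s => (hp.ev s).imp fun c h => t1.eventually h)
      (fun s => (hq.ev s).imp fun c h => t2.eventually h) fun z => key z.1 z.2
  · obtain ⟨l, hl⟩ := cauchy (c0 _) hq.ev (key i)
    obtain ⟨l', hl'⟩ := cauchy (c0 _) hq.ev (key (i + 1))
    exact ⟨_, by simpa [XX_cum hp hq, Finset.sum_range_succ] using hl'.sub hl⟩
  · obtain ⟨l, hl⟩ := cauchy hp.ev (c0 _) (key · k)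
    obtain ⟨l', hl'⟩ := cauchy hp.ev (c0 _) (key · (k + 1))
    exact ⟨_, by
      simpa [XX_cum hp hq, Finset.sum_range_succ, Finset.sum_add_distrib] using hl'.sub hl⟩

end main

end Pool.Agent.H98.Olev
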