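import Mathlib
import Pool.Agent.H98.Olev4

set_option autoImplicit false

namespace Pool.Agent.H98.Olev

open Set Filter Topology MeasureTheory ProbabilityTheory
open scoped ENNReal

section iso

theorem pit (ν : Measure ℝ) [IsProbabilityMeasure ν] [NullSingletonClass ν] :
    MeasurePreserving (cdf ν) ν (volume.restrict (Icc 0 1)) := by
  have h1 : Continuous (cdf ν) := continuous_iff_continuousAt.2 fun x => by
    have h := (cdf ν).measure_singleton x
    rw [measure_cdf, measure_singleton, eq_comm, ENNReal.ofReal_eq_zero, sub_nonpos] at h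
    rw [(monotone_cdf ν).continuousAt_iff_leftLim_eq_rightLim, (cdf ν).rightLim_eq]
    exact ((monotone_cdf ν).leftLim_le le_rfl).antisymm h
  have := Measure.isProbabilityMeasure_map (μ := ν) h1.aemeasurable
  refine ⟨h1.measurable, Measure.ext_of_Iic _ _ fun s => ?_⟩
  rw [Measure.map_apply h1.measurable measurableSet_Iic, Measure.restrict_apply measurableSet_Iic]
  by_cases h2 : 1 ≤ s
  · rw [eq_univ_of_forall (s := cdf ν ⁻¹' Iic s) fun x => (cdf_le_one ν x).trans h2,
      inter_eq_right.2 fun x hx => hx.2.trans h2]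
    simp
  rw [show Iic s ∩ Icc 0 1 = Icc 0 s from Set.ext fun x => ⟨fun h => ⟨h.2.1, h.1⟩,
    fun h => ⟨h.2, h.1, h.2.trans (not_le.1 h2).le⟩⟩, Real.volume_Icc, sub_zero]
  rcases (cdf ν ⁻¹' Iic s).eq_empty_or_nonempty with h3 | h3
  · rw [h3, measure_empty, eq_comm, ENNReal.ofReal_eq_zero]
    exact ge_of_tendsto' (tendsto_cdf_atBot ν) fun x => (not_le.1 fun h => h3.subset h).le
  obtain ⟨b, hb⟩ := eventually_atTop.1 ((tendsto_cdf_atTop ν).eventually
    (lt_mem_nhds (not_le.1 h2)))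
  have h4 : BddAbove (cdf ν ⁻¹' Iic s) := ⟨b, fun x hx => not_lt.1 fun h => (hb x h.le).not_ge hx⟩
  have h5 := (isClosed_Iic.preimage h1).csSup_mem h3 h4
  set c := sSup (cdf ν ⁻¹' Iic s) with hc
  have h6 : cdf ν ⁻¹' Iic s = Iic c := Set.ext fun x =>
    ⟨fun h => le_csSup h4 h, fun h => (monotone_cdf ν h).trans h5⟩
  rw [h6, ← ofReal_cdf]
  refine congrArg _ (le_antisymm h5 (ge_of_tendsto (x := 𝓝[>] c)
    (h1.continuousAt.tendsto.mono_left nhdsWithin_le_nhds) ?_))
  filter_upwards [self_mem_nhdsWithin] with x hx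
  exact (not_le.1 fun h => (mem_Iic.1 (h6.subset h)).not_gt hx).le

variable {X Y : Type} [MeasurableSpace X] [MeasurableSpace Y]

/-- Inverse isomorphisms modulo null sets. -/
structure AeIso (μ : Measure X) (ν : Measure Y) (φ : X → Y) (ψ : Y → X) : Prop where
  m1 : MeasurePreserving φ μ ν
  m2 : MeasurePreserving ψ ν μ
  e1 : ∀ᵐ x ∂μ, ψ (φ x) = x
  e2 : ∀ᵐ y ∂ν, φ (ψ y) = y

theorem iso_unit [StandardBorelSpace X] (μ : Measure X) [IsProbabilityMeasure μ]
    [NullSingletonClass μ] : ∃ φ ψ, AeIso μ (volume.restrict (Icc (0 : ℝ) 1)) φ ψ := by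
  have hb := measurableEmbedding_embeddingReal X
  have := Measure.isProbabilityMeasure_map (μ := μ) hb.measurable.aemeasurable
  have : NullSingletonClass (μ.map (embeddingReal X)) := ⟨fun r => by
    rw [hb.map_apply]
    exact (subsingleton_singleton.preimage hb.injective).measure_zero μ⟩
  have h1 := (pit (μ.map (embeddingReal X))).comp ⟨hb.measurable, rfl⟩
  set F := cdf (μ.map (embeddingReal X)) with hF
  let N := (F ∘ embeddingReal X) ⁻¹' range fun q : ℚ => F q
  have h2 : MeasurableSet N := h1.measurable (countable_range _).measurableSet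
  have h3 : μ N = 0 := (h1.measure_preimage (countable_range _).measurableSet.nullMeasurableSet).trans
    ((countable_range _).measure_zero _)
  have h4 : ∀ x y, x ∉ N → F (embeddingReal X x) = F y → ¬embeddingReal X x < y :=
    fun x y hx h h' => by
      obtain ⟨q, a, b⟩ := exists_rat_btwn h'
      exact hx ⟨q, ((monotone_cdf _ b.le).trans h.ge).antisymm (monotone_cdf _ a.le)⟩
  have := h2.compl.standardBorel
  have h5 : MeasurableEmbedding fun x : ↥Nᶜ => F (embeddingReal X x) :=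
    (h1.measurable.comp measurable_subtype_coe).measurableEmbedding fun x y h => Subtype.ext
      (hb.injective (le_antisymm (not_lt.1 (h4 _ _ y.2 h.symm)) (not_lt.1 (h4 _ _ x.2 h))))
  have := μ.nonempty_of_neZero
  let ψ : ℝ → X := Function.extend (fun x : ↥Nᶜ => F (embeddingReal X x)) (↑)
    fun _ => Classical.arbitrary X
  have h6 : Measurable ψ := h5.measurable_extend measurable_subtype_coe measurable_const
  have h7 : ∀ᵐ x ∂μ, ψ (F (embeddingReal X x)) = x := measure_mono_null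
    (fun x hx => by_contra fun h => hx (h5.injective.extend_apply _ _ ⟨x, h⟩)) h3
  refine ⟨_, ψ, h1, ⟨h6, ?_⟩, h7, ?_⟩
  · rw [← h1.map_eq, Measure.map_map h6 h1.measurable]
    exact (Measure.map_congr h7).trans Measure.map_id
  · rw [← h1.map_eq]
    exact (ae_map_iff h1.measurable.aemeasurable
      (measurableSet_eq_fun (h1.measurable.comp h6) measurable_id)).2
      (h7.mono fun x hx => by simp only [Function.comp, hx, id])

theorem iso_any [StandardBorelSpace X] [StandardBorelSpace Y] (μ : Measure X) (ν : Measure Y)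
    [IsProbabilityMeasure μ] [NullSingletonClass μ] [IsProbabilityMeasure ν]
    [NullSingletonClass ν] : ∃ φ ψ, AeIso μ ν φ ψ := by
  obtain ⟨a, b, h⟩ := iso_unit μ
  obtain ⟨c, d, h'⟩ := iso_unit ν
  refine ⟨d ∘ a, b ∘ c, h'.m2.comp h.m1, h.m2.comp h'.m1, ?_, ?_⟩
  · filter_upwards [h.e1, h.m1.quasiMeasurePreserving.ae h'.e2] with x h1 h2
    simp only [Function.comp, h1, h2]
  · filter_upwards [h'.e1, h'.m1.quasiMeasurePreserving.ae h.e2] with x h1 h2
    simp only [Function.comp, h1, h2]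

end iso

lemma Reg.add {c d : ℕ → ℕ → ℝ} (h : Reg c) (h' : Reg d) : Reg fun i k => c i k + d i k := by
  obtain ⟨⟨l, h1⟩, h2, h3⟩ := h
  obtain ⟨⟨l', h1'⟩, h2', h3'⟩ := h'
  refine ⟨⟨_, by simpa only [Finset.sum_add_distrib] using h1.add h1'⟩, fun i => ?_, fun k => ?_⟩
  · obtain ⟨_, a⟩ := h2 i
    obtain ⟨_, b⟩ := h2' i
    exact ⟨_, by simpa only [Finset.sum_add_distrib] using a.add b⟩
  · obtain ⟨_, a⟩ := h3 k
    obtain ⟨_, b⟩ := h3' k
    exact ⟨_, by simpa only [Finset.sum_add_distrib] using a.add b⟩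

lemma reg_row {c : ℕ → ℕ → ℝ} (h0 : ∀ i k, i ≠ 0 → c i k = 0)
    (h : ∃ l, Tendsto (fun n => ∑ k ∈ Finset.range n, c 0 k) atTop (𝓝 l)) : Reg c := by
  obtain ⟨l, hl⟩ := h
  have t1 : Tendsto (Prod.fst : ℕ × ℕ → ℕ) atTop atTop := by
    rw [← prod_atTop_atTop_eq]; exact tendsto_fst
  have t2 : Tendsto (Prod.snd : ℕ × ℕ → ℕ) atTop atTop := by
    rw [← prod_atTop_atTop_eq]; exact tendsto_snd
  refine ⟨⟨l, (hl.comp t2).congr' ?_⟩, fun i => ?_, fun k => ⟨c 0 k, tendsto_const_nhds.congr' ?_⟩⟩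
  · filter_upwards [t1.eventually (eventually_gt_atTop 0)] with z hz
    exact (Finset.sum_eq_single_of_mem (f := fun i => ∑ k ∈ Finset.range z.2, c i k) 0
      (Finset.mem_range.2 hz) fun i _ hi => by simp [h0 i _ hi]).symm
  · by_cases hi : i = 0
    · exact ⟨l, hi ▸ hl⟩
    · exact ⟨0, by simp [h0 i _ hi]⟩
  · filter_upwards [eventually_gt_atTop 0] with m hm
    exact (Finset.sum_eq_single_of_mem 0 (Finset.mem_range.2 hm) fun i _ hi => h0 i _ hi).symm

theorem exists_system : ∃ φ : ℕ × ℕ → V,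
    (∀ z z', Lam (φ z * φ z') = if z = z' then 1 else 0) ∧ (∀ z w, |φ z w| ≤ 5) ∧
    (∀ (g : Om → ℝ) (hg : Integrable g mu), (∀ z, pair g hg (φ z) = 0) → g =ᵐ[mu] 0) ∧
    ∀ a : ℕ × ℕ → ℝ, (Summable fun z => a z ^ 2) →
      ∀ᵐ w ∂mu, Reg fun i k => a (i, k) * φ (i, k) w := by
  obtain ⟨e, h1, h2, h3⟩ := exists_arr
  refine ⟨fun z => ph (e z), fun z z' => by simp [ph_ON], fun z w => ph_abs _ _,
    fun g hg h => ?_, fun a ha => ?_⟩
  · obtain ⟨a, b⟩ := ph_complete (pair g hg) fun γ => by simpa using h (e.symm γ)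
    exact haar_complete hg a b
  have hi : Function.Injective fun k : ℕ => ((0, k) : ℕ × ℕ) := fun a b h => by simpa using h
  filter_upwards [conv_rho (ρ := fun z => ph (e z) - ka (e z)) (by norm_num)
    (six_le (schur_ph.comp e.injective) (schur_ka.comp e.injective) fun z => rho_mem _) ha,
    conv_ka (κ := fun k => ka (e (0, k))) (schur_ka.comp (e.injective.comp hi)) h2 h3
      (b := fun k => a (0, k)) (ha.comp_injective hi)] with w a1 a2
  have := a1.add (reg_row (c := fun i k => a (i, k) * ka (e (i, k)) w)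
    (fun i k hi => by simp [h1 i k hi]) a2)
  simpa [mul_sub] using this

end Pool.Agent.H98.Olev
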