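import Mathlib

set_option autoImplicit false
open MeasureTheory Filter Topology
open scoped ENNReal

namespace Pool.Agent.H98.QP

abbrev T := UnitAddCircle

noncomputable def S (ψ : T → ℝ) (β : ℝ) (k : ℕ) (x : T) : ℝ :=
  ∑ i ∈ Finset.range k, ψ (x + ((i * β : ℝ) : T))

def Conf (ψ : T → ℝ) (β : ℝ) (m : Measure T) : Prop :=
  ∀ g : T → ℝ≥0∞, Measurable g →
    ∫⁻ x, g x ∂m = ∫⁻ x, g (x + (β : T)) * ENNReal.ofReal (Real.exp (ψ x)) ∂m

variable {ψ : T → ℝ} {β L : ℝ}

lemma S_add (j k : ℕ) (x : T) : S ψ β (j + k) x = S ψ β j x + S ψ β k (x + ((j * β : ℝ) : T)) := by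
  unfold S
  rw [Finset.sum_range_add]
  congr 1
  refine Finset.sum_congr rfl fun i _ => ?_
  rw [add_assoc, ← AddCircle.coe_add]; push_cast; rw [add_mul]

lemma S_lip (hL : ∀ (x : T) (t : ℝ), |ψ (x + t) - ψ x| ≤ L * |t|) (k : ℕ) (x : T) (t : ℝ) :
    |S ψ β k (x + t) - S ψ β k x| ≤ k * (L * |t|) := by
  unfold S
  rw [← Finset.sum_sub_distrib]
  refine (Finset.abs_sum_le_sum_abs _ _).trans ?_
  refine (Finset.sum_le_card_nsmul _ _ (L * |t|) fun i _ => ?_).trans (by simp)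
  rw [add_right_comm]; exact hL _ _

lemma S_cont (hc : Continuous ψ) (k : ℕ) : Continuous (S ψ β k) := by
  unfold S; fun_prop

lemma iter (hc : Continuous ψ) {m : Measure T} (hm : Conf ψ β m) (k : ℕ) (g : T → ℝ≥0∞)
    (hg : Measurable g) :
    ∫⁻ x, g x ∂m = ∫⁻ x, g (x + ((k * β : ℝ) : T)) * ENNReal.ofReal (Real.exp (S ψ β k x)) ∂m := by
  induction k with
  | zero => simp [S]
  | succ k ih =>
    have h1 := (S_cont (β := β) hc k).measurable
    rw [ih, hm _ (by fun_prop)]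
    refine lintegral_congr fun x => ?_
    rw [add_comm k 1, S_add, mul_assoc, ← ENNReal.ofReal_mul (Real.exp_pos _).le, ← Real.exp_add,
      add_assoc, ← AddCircle.coe_add]
    simp only [S, Finset.sum_range_one, Nat.cast_one, one_mul, Nat.cast_zero, zero_mul,
      AddCircle.coe_zero, add_zero]
    push_cast
    rw [add_mul, one_mul, add_comm (ψ x)]

lemma approx (hβ : Irrational β) (N : ℕ) :
    ∃ (q : ℕ) (r : ℤ), N < q ∧ IsCoprime r q ∧ |β - r / q| ≤ 1 / q ^ 2 := by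
  set M : ℕ := N.factorial
  have hM : (0 : ℝ) < M := by exact_mod_cast N.factorial_pos
  have hi : Irrational (M * β) := hβ.natCast_mul N.factorial_ne_zero
  have hd : 0 < |M * β - round (M * β)| := abs_pos.2 (sub_ne_zero.2 (hi.ne_int _))
  obtain ⟨n, hn⟩ := exists_nat_one_div_lt (div_pos hd hM)
  obtain ⟨q, h1, h2⟩ := Real.exists_rat_abs_sub_le_and_den_le β (n := n + 1) n.succ_pos
  have hq : (0 : ℝ) < q.den := by exact_mod_cast q.den_pos
  have hq1 : (1 : ℝ) ≤ q.den := by exact_mod_cast q.den_pos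
  have h2' : (q.den : ℝ) ≤ n + 1 := by exact_mod_cast h2
  refine ⟨q.den, q.num, ?_, Int.isCoprime_iff_gcd_eq_one.2 q.reduced, ?_⟩
  · by_contra hle
    obtain ⟨c, hc⟩ := Nat.dvd_factorial q.den_pos (not_lt.1 hle)
    have e : (M : ℝ) * q = ((c * q.num : ℤ) : ℝ) := by
      rw [Rat.cast_def, show M = q.den * c from hc]; push_cast; field_simp
    have h3 := round_le (M * β) (c * q.num)
    rw [← e, ← mul_sub, abs_mul, abs_of_pos hM] at h3
    have h4 : |β - q| ≤ 1 / (n + 1) := h1.trans (by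
      push_cast
      exact one_div_le_one_div_of_le (by positivity) (by nlinarith))
    rw [lt_div_iff₀ hM] at hn
    nlinarith
  · rw [← Rat.cast_def]
    refine h1.trans (one_div_le_one_div_of_le (by positivity) ?_)
    push_cast; nlinarith

lemma dense0 {q : ℕ} {r : ℤ} (hq : 0 < q) (hc : IsCoprime r q) (x y : T) :
    ∃ j < q, ∃ t : ℝ, |t| ≤ 1 / q ∧ y = x + (((j : ℕ) * (r / q : ℝ) : ℝ) : T) + t := by
  obtain ⟨s, hs⟩ := QuotientAddGroup.mk_surjective (y - x)
  obtain ⟨a, b, hab⟩ := hc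
  have hq' : (0 : ℝ) < q := by exact_mod_cast hq
  have hqz : (0 : ℤ) < q := by exact_mod_cast hq
  set i := ⌊s * q⌋ with hi
  have h0 := Int.emod_nonneg (i * a) hqz.ne'
  have h1 := Int.emod_lt_of_pos (i * a) hqz
  refine ⟨((i * a) % q).toNat, by omega, s - i / q, ?_, ?_⟩
  · rw [show s - i / q = (s * q - i) / q by field_simp, abs_div, abs_of_pos hq']
    refine div_le_div_of_nonneg_right ?_ hq'.le
    rw [abs_le]; constructor <;> linarith [Int.floor_le (s * q), Int.lt_floor_add_one (s * q)]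
  · rw [add_assoc, ← sub_eq_iff_eq_add', ← hs, ← AddCircle.coe_add]
    have e : ((((i * a) % q).toNat : ℕ) : ℝ) = i * a - q * ((i * a) / q : ℤ) := by
      have : ((((i * a) % q).toNat : ℕ) : ℤ) = i * a - q * ((i * a) / q) := by
        rw [Int.toNat_of_nonneg h0, Int.emod_def]
      exact_mod_cast this
    have e2 : (a : ℝ) * r + b * q = 1 := by exact_mod_cast hab
    have e3 : s = (((i * a) % q).toNat : ℕ) * (r / q : ℝ) + (s - i / q) +
        ((i * b + ((i * a) / q) * r : ℤ) : ℝ) := by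
      rw [e]; push_cast; field_simp
      linear_combination (-(i : ℝ)) * e2
    conv_lhs => rw [e3]
    change ((_ + _ : ℝ) : T) = _
    rw [AddCircle.coe_add]
    have : (((i * b + ((i * a) / q) * r : ℤ) : ℝ) : T) = 0 :=
      (AddCircle.coe_eq_zero_iff _).2 ⟨i * b + ((i * a) / q) * r, by simp⟩
    rw [this, add_zero]

lemma kth {q : ℕ} {r : ℤ} (hq : 0 < q) (hb : |β - r / q| ≤ 1 / q ^ 2) {j : ℕ} (hj : j ≤ q) :
    |j * (β - r / q)| ≤ 1 / q := by
  have hq' : (0 : ℝ) < q := by exact_mod_cast hq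
  have hj' : (j : ℝ) ≤ q := by exact_mod_cast hj
  rw [abs_mul, Nat.abs_cast]
  calc (j : ℝ) * |β - r / q| ≤ q * (1 / q ^ 2) := mul_le_mul hj' hb (abs_nonneg _) hq'.le
    _ = 1 / q := by field_simp

lemma dense1 {q : ℕ} {r : ℤ} (hq : 0 < q) (hc : IsCoprime r q) (hb : |β - r / q| ≤ 1 / q ^ 2)
    (x y : T) : ∃ j < q, ∃ t : ℝ, |t| ≤ 2 / q ∧ y = x + (((j : ℕ) * β : ℝ) : T) + t := by
  obtain ⟨j, hj, t, ht, e⟩ := dense0 hq hc x y
  refine ⟨j, hj, t - j * (β - r / q), ?_, ?_⟩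
  · have := kth hq hb hj.le
    have h2 := abs_sub t (j * (β - r / q))
    have : (2 : ℝ) / q = 1 / q + 1 / q := by ring
    linarith
  · rw [e, add_assoc, add_assoc, ← AddCircle.coe_add, ← AddCircle.coe_add]; congr 2; ring

lemma DK (hc0 : Continuous ψ) (hL : ∀ (x : T) (t : ℝ), |ψ (x + t) - ψ x| ≤ L * |t|) (hL0 : 0 ≤ L)
    (h0 : ∫ x, ψ x = 0) {q : ℕ} {r : ℤ} (hq : 0 < q) (hc : IsCoprime r q)
    (hb : |β - r / q| ≤ 1 / q ^ 2) (x : T) : -(2 * L) ≤ S ψ β q x := by
  have hq' : (0 : ℝ) < q := by exact_mod_cast hq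
  set γ : ℝ := r / q with hγ
  have p1 : ∀ x, S ψ γ q (x + ((γ : ℝ) : T)) = S ψ γ q x := by
    intro x
    have h1 := S_add (ψ := ψ) (β := γ) 1 q x
    have h2 := S_add (ψ := ψ) (β := γ) q 1 x
    have : ((q * γ : ℝ) : T) = 0 :=
      (AddCircle.coe_eq_zero_iff _).2 ⟨r, by simp [hγ]; field_simp⟩
    rw [this, add_zero, add_comm q 1, h1] at h2
    simp only [Nat.cast_one, one_mul] at h2
    linarith
  have p2 : ∀ (j : ℕ) x, S ψ γ q (x + ((j * γ : ℝ) : T)) = S ψ γ q x := by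
    intro j
    induction j with
    | zero => simp
    | succ j ih =>
      intro x
      rw [← ih x, ← p1 (x + ((j * γ : ℝ) : T)), add_assoc, ← AddCircle.coe_add]; push_cast
      rw [add_mul, one_mul]
  have p3 : ∀ y, S ψ γ q y ≤ S ψ γ q x + L := by
    intro y
    obtain ⟨j, hj, t, ht, e⟩ := dense0 hq hc x y
    have := S_lip (β := γ) hL q (x + ((j * γ : ℝ) : T)) t
    rw [← e, p2] at this
    have h2 : q * (L * |t|) ≤ L := by
      calc q * (L * |t|) ≤ q * (L * (1 / q)) := by gcongr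
        _ = L := by field_simp
    linarith [(abs_le.1 this).2]
  have p4 : ∫ y, S ψ γ q y = 0 := by
    unfold S
    rw [integral_finset_sum _ fun i _ => Continuous.integrable_of_hasCompactSupport (by fun_prop)
      (HasCompactSupport.of_compactSpace _)]
    refine Finset.sum_eq_zero fun i _ => ?_
    rw [integral_add_right_eq_self ψ, h0]
  have p5 : 0 ≤ S ψ γ q x + L := by
    have := integral_mono ((S_cont (β := γ) hc0 q).integrable_of_hasCompactSupport
      (HasCompactSupport.of_compactSpace _)) (integrable_const (μ := volume) (S ψ γ q x + L)) p3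
    rw [p4] at this
    simpa using this
  have p6 : |S ψ β q x - S ψ γ q x| ≤ L := by
    unfold S
    rw [← Finset.sum_sub_distrib]
    refine (Finset.abs_sum_le_sum_abs _ _).trans ?_
    refine (Finset.sum_le_card_nsmul _ _ (L * (1 / q)) fun i hi => ?_).trans ?_
    · have := hL (x + ((i * γ : ℝ) : T)) (i * (β - γ))
      rw [add_assoc, ← AddCircle.coe_add, show i * γ + i * (β - γ) = i * β by ring] at this
      exact this.trans (mul_le_mul_of_nonneg_left (kth hq hb (Finset.mem_range.1 hi).le) hL0)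
    · rw [Finset.card_range, nsmul_eq_mul]; exact le_of_eq (by field_simp)
  linarith [(abs_le.1 p6).1]

noncomputable def E (ψ : T → ℝ) (β : ℝ) (k : ℕ) (x : T) : ℝ≥0∞ :=
  ENNReal.ofReal (Real.exp (S ψ β k x))

noncomputable def G (ψ : T → ℝ) (β : ℝ) (A : Set T) (n : ℕ) (x : T) : ℝ≥0∞ :=
  ∑ k ∈ Finset.range n, A.indicator 1 (x + ((k * β : ℝ) : T)) * E ψ β k x

lemma G_meas (hc : Continuous ψ) {A : Set T} (hA : MeasurableSet A) (n : ℕ) :
    Measurable (G ψ β A n) := by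
  refine Finset.measurable_sum _ fun k _ => ?_
  have h1 := (S_cont (β := β) hc k).measurable
  have h2 : Measurable (A.indicator (1 : T → ℝ≥0∞)) := measurable_one.indicator hA
  unfold E; fun_prop

lemma G_int (hc : Continuous ψ) {m : Measure T} (hm : Conf ψ β m) {A : Set T}
    (hA : MeasurableSet A) (n : ℕ) : ∫⁻ x, G ψ β A n x ∂m = n * m A := by
  have h2 : Measurable (A.indicator (1 : T → ℝ≥0∞)) := measurable_one.indicator hA
  unfold G E
  rw [lintegral_finset_sum _ fun k _ => by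
    have h1 := (S_cont (β := β) hc k).measurable
    fun_prop]
  rw [Finset.sum_congr rfl fun k _ => (iter hc hm k _ h2).symm]
  simp [lintegral_indicator_one hA]

lemma G_cmp (hL : ∀ (x : T) (t : ℝ), |ψ (x + t) - ψ x| ≤ L * |t|) (hL0 : 0 ≤ L) {q j : ℕ}
    (hj : j ≤ q) (x : T) (t c : ℝ) (hc : q * (L * |t|) ≤ c) (A B : Set T)
    (hAB : ∀ z, z + (t : T) ∈ A → z ∈ B) :
    G ψ β A q (x + ((j * β : ℝ) : T) + t) * E ψ β j x ≤
      ENNReal.ofReal (Real.exp c) * G ψ β B (2 * q) x := by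
  have h1 : ∑ k ∈ Finset.range q, B.indicator 1 (x + (((j + k : ℕ) * β : ℝ) : T)) * E ψ β (j + k) x ≤
      G ψ β B (2 * q) x := by
    unfold G
    refine le_trans ?_ (Finset.sum_le_sum_of_subset (Finset.range_mono (by omega : j + q ≤ 2 * q)))
    rw [Finset.sum_range_add]; exact le_add_self
  refine le_trans ?_ (mul_le_mul_right h1 _)
  unfold G
  rw [Finset.sum_mul, Finset.mul_sum]
  refine Finset.sum_le_sum fun k hk => ?_
  have e : x + ((j * β : ℝ) : T) + t + ((k * β : ℝ) : T) = x + (((j + k : ℕ) * β : ℝ) : T) + t := by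
    push_cast; rw [add_mul, AddCircle.coe_add]; abel
  by_cases hA : x + ((j * β : ℝ) : T) + t + ((k * β : ℝ) : T) ∈ A
  · rw [Set.indicator_of_mem hA, Set.indicator_of_mem (hAB _ (e ▸ hA))]
    simp only [Pi.one_apply, one_mul, E]
    rw [← ENNReal.ofReal_mul (Real.exp_pos _).le, ← ENNReal.ofReal_mul (Real.exp_pos _).le,
      ← Real.exp_add, ← Real.exp_add, S_add]
    refine ENNReal.ofReal_le_ofReal (Real.exp_le_exp.2 ?_)
    have := (abs_le.1 (S_lip (β := β) hL k (x + ((j * β : ℝ) : T)) t)).2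
    have hk' : (k : ℝ) ≤ q := by exact_mod_cast (Finset.mem_range.1 hk).le
    have : k * (L * |t|) ≤ q * (L * |t|) := by gcongr
    linarith
  · rw [Set.indicator_of_notMem hA]; simp

lemma near (z : T) (t : ℝ) : dist z (z + t) ≤ |t| := by
  rw [dist_self_add_right]
  exact (QuotientAddGroup.norm_mk_le_norm).trans (le_of_eq (Real.norm_eq_abs t))

lemma pt (hc0 : Continuous ψ) (hL : ∀ (x : T) (t : ℝ), |ψ (x + t) - ψ x| ≤ L * |t|) (hL0 : 0 ≤ L)
    (h0 : ∫ x, ψ x = 0) {q : ℕ} {r : ℤ} (hq : 0 < q) (hc : IsCoprime r q)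
    (hb : |β - r / q| ≤ 1 / q ^ 2) (K : Set T) (x y : T) :
    G ψ β K q y * G ψ β Set.univ q x ≤ ENNReal.ofReal (Real.exp (9 * L)) *
      (G ψ β (Metric.cthickening (2 / q) K) (2 * q) x * G ψ β Set.univ (2 * q) y) := by
  have hq' : (0 : ℝ) < q := by exact_mod_cast hq
  obtain ⟨j, hj, t, ht, e⟩ := dense1 hq hc hb x y
  have hθ := kth hq hb le_rfl
  set t' := -t - q * (β - r / q) with ht'
  have ht'' : |t'| ≤ 3 / q := by
    have := abs_sub (-t) (q * (β - r / q))
    rw [abs_neg] at this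
    have : (3 : ℝ) / q = 2 / q + 1 / q := by ring
    linarith
  have e' : x = y + (((q - j : ℕ) * β : ℝ) : T) + t' := by
    have : ((r : ℝ) : T) = 0 := (AddCircle.coe_eq_zero_iff _).2 ⟨r, by simp⟩
    rw [e, add_assoc, add_assoc, add_assoc, ← AddCircle.coe_add, ← AddCircle.coe_add,
      ← AddCircle.coe_add, Nat.cast_sub hj.le, show j * β + (t + ((q - j) * β + t')) = (r : ℝ) by
        rw [ht']; field_simp; ring, this, add_zero]
  have b2 : q * (L * |t|) ≤ 2 * L := by
    calc q * (L * |t|) ≤ q * (L * (2 / q)) := by gcongr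
      _ = 2 * L := by field_simp
  have b3 : q * (L * |t'|) ≤ 3 * L := by
    calc q * (L * |t'|) ≤ q * (L * (3 / q)) := by gcongr
      _ = 3 * L := by field_simp
  have h1 := G_cmp (β := β) hL hL0 hj.le x t (2 * L) b2 K (Metric.cthickening (2 / q) K)
    fun z hz => Metric.mem_cthickening_of_dist_le z _ _ _ hz ((near z t).trans ht)
  have h2 := G_cmp (β := β) hL hL0 (Nat.sub_le q j) y t' (3 * L) b3 Set.univ Set.univ
    fun _ _ => trivial
  rw [← e] at h1
  rw [← e'] at h2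
  have h3 : 1 ≤ ENNReal.ofReal (Real.exp (4 * L)) * (E ψ β j x * E ψ β (q - j) y) := by
    simp only [E]
    rw [← ENNReal.ofReal_mul (Real.exp_pos _).le, ← ENNReal.ofReal_mul (Real.exp_pos _).le,
      ← Real.exp_add, ← Real.exp_add, ENNReal.one_le_ofReal, Real.one_le_exp_iff]
    have a1 := DK hc0 hL hL0 h0 hq hc hb x
    have a2 := S_add (ψ := ψ) (β := β) j (q - j) x
    rw [Nat.add_sub_cancel' hj.le] at a2
    have a3 := (abs_le.1 (S_lip (β := β) hL (q - j) (x + ((j * β : ℝ) : T)) t)).1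
    rw [← e] at a3
    have hk' : ((q - j : ℕ) : ℝ) ≤ q := by exact_mod_cast Nat.sub_le q j
    have : ((q - j : ℕ) : ℝ) * (L * |t|) ≤ q * (L * |t|) := by gcongr
    linarith
  calc G ψ β K q y * G ψ β Set.univ q x ≤ G ψ β K q y * G ψ β Set.univ q x *
        (ENNReal.ofReal (Real.exp (4 * L)) * (E ψ β j x * E ψ β (q - j) y)) :=
        le_mul_of_one_le_right' h3
    _ = ENNReal.ofReal (Real.exp (4 * L)) *
        ((G ψ β K q y * E ψ β j x) * (G ψ β Set.univ q x * E ψ β (q - j) y)) := by ring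
    _ ≤ ENNReal.ofReal (Real.exp (4 * L)) *
        ((ENNReal.ofReal (Real.exp (2 * L)) * G ψ β (Metric.cthickening (2 / q) K) (2 * q) x) *
          (ENNReal.ofReal (Real.exp (3 * L)) * G ψ β Set.univ (2 * q) y)) := by gcongr
    _ = _ := by
      rw [show 9 * L = 4 * L + (2 * L + 3 * L) by ring, Real.exp_add, Real.exp_add,
        ENNReal.ofReal_mul (Real.exp_pos _).le, ENNReal.ofReal_mul (Real.exp_pos _).le]
      ring

/-- any two conformal measures are comparable -/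
theorem conf_ac (hβ : Irrational β) (hc0 : Continuous ψ)
    (hL : ∀ (x : T) (t : ℝ), |ψ (x + t) - ψ x| ≤ L * |t|) (hL0 : 0 ≤ L) (h0 : ∫ x, ψ x = 0)
    (m₁ m₂ : Measure T) [IsFiniteMeasure m₁] [IsFiniteMeasure m₂] (h₁ : Conf ψ β m₁)
    (h₂ : Conf ψ β m₂) (hne : m₂ Set.univ ≠ 0) : m₁ ≪ m₂ := by
  set C := ENNReal.ofReal (Real.exp (9 * L)) * 4 * m₁ Set.univ with hC
  have hCt : C ≠ ∞ := by
    simp only [hC]; exact ENNReal.mul_ne_top (ENNReal.mul_ne_top ENNReal.ofReal_ne_top (by simp))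
      (measure_ne_top _ _)
  have key : ∀ K : Set T, IsClosed K → ∀ δ : ℝ, 0 < δ →
      m₁ K * m₂ Set.univ ≤ C * m₂ (Metric.cthickening δ K) := by
    intro K hK δ hδ
    obtain ⟨N, hN⟩ := exists_nat_gt (2 / δ)
    obtain ⟨q, r, hq, hc, hb⟩ := approx hβ N
    have hq0 : 0 < q := by omega
    have hq' : (N : ℝ) < q := by exact_mod_cast hq
    have hδ' : 2 / (q : ℝ) ≤ δ := by
      rw [div_lt_iff₀ hδ] at hN
      rw [div_le_iff₀ (by exact_mod_cast hq0)]; nlinarith
    have mK := hK.measurableSet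
    have mK' : MeasurableSet (Metric.cthickening (2 / (q : ℝ)) K) :=
      Metric.isClosed_cthickening.measurableSet
    have mU : MeasurableSet (Set.univ : Set T) := MeasurableSet.univ
    have a : ∫⁻ x, ∫⁻ y, G ψ β K q y * G ψ β Set.univ q x ∂m₁ ∂m₂ ≤
        ∫⁻ x, ∫⁻ y, ENNReal.ofReal (Real.exp (9 * L)) *
          (G ψ β (Metric.cthickening (2 / q) K) (2 * q) x * G ψ β Set.univ (2 * q) y) ∂m₁ ∂m₂ :=
      lintegral_mono fun x => lintegral_mono fun y => pt hc0 hL hL0 h0 hq0 hc hb K x y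
    simp only [lintegral_mul_const _ (G_meas hc0 mK q), G_int hc0 h₁ mK, ← mul_assoc,
      lintegral_const_mul _ (G_meas hc0 mU _), G_int hc0 h₂ mU, G_int hc0 h₁ mU] at a
    rw [lintegral_mul_const _ (((G_meas hc0 mK' _).const_mul _).mul_const _),
      lintegral_mul_const _ ((G_meas hc0 mK' _).const_mul _),
      lintegral_const_mul _ (G_meas hc0 mK' _), G_int hc0 h₂ mK'] at a
    have hq1 : ((q : ℝ≥0∞) * q) ≠ 0 := by simp [hq0.ne']
    have hq2 : ((q : ℝ≥0∞) * q) ≠ ∞ := ENNReal.mul_ne_top (by simp) (by simp)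
    refine le_trans ?_ (mul_le_mul_right (measure_mono (Metric.cthickening_mono hδ' K)) C)
    rw [← ENNReal.mul_le_mul_iff_right hq1 hq2]
    refine le_trans (le_of_eq (by ring)) (a.trans (le_of_eq ?_))
    rw [hC]; push_cast; ring
  have key2 : ∀ K : Set T, IsClosed K → m₂ K = 0 → m₁ K = 0 := by
    intro K hK hK0
    have t1 := tendsto_measure_cthickening_of_isClosed (μ := m₂) ⟨1, one_pos, measure_ne_top _ _⟩ hK
    have t2 := ENNReal.Tendsto.const_mul (a := C) (t1.mono_left (nhdsWithin_le_nhds (s := Set.Ioi 0)))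
      (Or.inr hCt)
    rw [hK0, mul_zero] at t2
    have := ge_of_tendsto t2 (eventually_nhdsWithin_of_forall fun δ hδ => key K hK δ hδ)
    simpa [hne] using this
  refine Measure.AbsolutelyContinuous.mk fun A hA hA0 => ?_
  by_contra hne'
  obtain ⟨K, hKA, hK, hK'⟩ := hA.exists_lt_isClosed_of_ne_top (measure_ne_top m₁ A)
    (pos_iff_ne_zero.2 hne')
  exact hK'.ne' (key2 K hK (measure_mono_null hKA hA0))

end Pool.Agent.H98.QP
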