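import Pool.Agent.H98.QP1

set_option autoImplicit false
open MeasureTheory Filter Topology
open scoped ENNReal

namespace Pool.Agent.H98.QP

instance : IsProbabilityMeasure (volume : Measure T) := ⟨UnitAddCircle.measure_univ⟩

lemma cint {f : T → ℝ} (hf : Continuous f) (ν : Measure T) [IsFiniteMeasure ν] : Integrable f ν :=
  hf.integrable_of_hasCompactSupport (HasCompactSupport.of_compactSpace _)

lemma inv_const {α : ℝ} (hα : Irrational α) (ν : Measure T) [IsFiniteMeasure ν] {a b : T → ℝ}
    (ha : Continuous a) (hb : Continuous b)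
    (h : ∀ g : T → ℝ, Continuous g → ∫ x, (g (x + α) * a x - g x * b x) ∂ν =
      ∫ x, (g x * a x - g (x - α) * b x) ∂ν) (g : T → ℝ) (hg : Continuous g) :
    ∫ x, (g x * a x - g (x - α) * b x) ∂ν = (∫ x, g x) * ∫ x, (a x - b x) ∂ν := by
  set F : T → ℝ := fun t => ∫ x, (g (x + t) * a x - g (x - α + t) * b x) ∂ν with hF
  have hFc : Continuous F := by
    have := continuous_parametric_integral_of_continuous (μ := ν)
      (f := fun t x : T => g (x + t) * a x - g (x - α + t) * b x) (by fun_prop) isCompact_univ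
    simpa only [Measure.restrict_univ] using this
  have h1 : ∀ t, F (t + α) = F t := by
    intro t
    have := h (fun x => g (x + t)) (by fun_prop)
    simp only [hF]
    rw [← this]
    refine integral_congr_ae (ae_of_all _ fun x => ?_)
    have e1 : x + (t + (α : T)) = x + α + t := by abel
    have e2 : x - α + (t + (α : T)) = x + t := by abel
    simp only [e1, e2]
  have h2 : ∀ n : ℤ, F (n • (α : T)) = F 0 := fun n => by
    have := Function.Periodic.zsmul_eq (f := F) (c := (α : T)) h1 n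
    exact this
  have h3 : ∀ t, F t = F 0 := by
    have hd : DenseRange (· • (α : T) : ℤ → T) :=
      AddCircle.denseRange_zsmul_coe_iff.2 (by simpa using hα)
    intro t
    exact hd.induction_on (p := fun t => F t = F 0) t (isClosed_eq hFc continuous_const) h2
  have h4 : ∫ t, F t = F 0 := by simp [h3]
  have h5 : F 0 = ∫ x, (g x * a x - g (x - α) * b x) ∂ν := by simp [hF]
  rw [← h5, ← h4]
  simp only [hF]
  rw [integral_integral_swap (Continuous.integrable_of_hasCompactSupport (by fun_prop)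
    (HasCompactSupport.of_compactSpace _)), ← integral_const_mul]
  refine integral_congr_ae (ae_of_all _ fun x => ?_)
  beta_reduce
  rw [integral_sub (cint (by fun_prop) _) (cint (by fun_prop) _), integral_mul_const,
    integral_mul_const, integral_add_left_eq_self g x, integral_add_left_eq_self g (x - α)]
  ring

lemma c_nonpos (γ : T) (ν : Measure T) [IsFiniteMeasure ν] {a b : T → ℝ}
    (ha : Continuous a) (hb : Continuous b) (ha0 : ∀ x, 0 < a x) (hb0 : ∀ x, 0 < b x)
    (hab : ∫ x, Real.log (a x) = ∫ x, Real.log (b x)) (c : ℝ)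
    (h : ∀ g : T → ℝ, Continuous g → ∫ x, (g x * a x - g (x - γ) * b x) ∂ν = (∫ x, g x) * c) :
    c ≤ 0 := by
  have la : Continuous fun x => Real.log (a x) := ha.log fun x => (ha0 x).ne'
  have lb : Continuous fun x => Real.log (b x) := hb.log fun x => (hb0 x).ne'
  by_contra hc
  push Not at hc
  have key : ∀ n : ℕ, ∀ s : T → ℝ, Continuous s → ∫ x, s x = 0 →
      n * c ≤ ∫ x, Real.exp (s x) * a x ∂ν := by
    intro n
    induction n with
    | zero =>
      intro s _ _
      simpa using integral_nonneg fun x => (mul_pos (Real.exp_pos _) (ha0 x)).le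
    | succ n ih =>
      intro s hs hs0
      have h1 := h (fun x => Real.exp (s x)) (by fun_prop)
      have h2 := ih (fun x => s (x - γ) + (Real.log (b x) - Real.log (a x))) (by fun_prop) (by
        rw [integral_add (cint (by fun_prop) _) (cint (by fun_prop) _),
          integral_sub (cint lb _) (cint la _), integral_sub_right_eq_self s γ, hs0, hab]; ring)
      have h3 : ∀ x, Real.exp (s (x - γ) + (Real.log (b x) - Real.log (a x))) * a x =
          Real.exp (s (x - γ)) * b x := by
        intro x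
        rw [Real.exp_add, Real.exp_sub, Real.exp_log (ha0 x), Real.exp_log (hb0 x)]
        field_simp [(ha0 x).ne']
      simp only [h3] at h2
      rw [integral_sub (cint (by fun_prop) _) (cint (by fun_prop) _)] at h1
      have h4 : 1 ≤ ∫ x, Real.exp (s x) := by
        have := integral_mono (μ := volume) (cint (f := fun x => s x + 1) (by fun_prop) _)
          (cint (f := fun x => Real.exp (s x)) (by fun_prop) _) fun x => Real.add_one_le_exp _
        rw [integral_add (cint hs _) (integrable_const _), hs0] at this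
        simpa using this
      push_cast
      nlinarith
  obtain ⟨n, hn⟩ := exists_nat_gt ((∫ x, Real.exp ((fun _ => (0 : ℝ)) x) * a x ∂ν) / c)
  have := key n (fun _ => 0) continuous_const (by simp)
  rw [div_lt_iff₀ hc] at hn
  linarith

noncomputable def P (p : T → ℝ) (α : ℝ) (φ : T → ℝ) (x : T) : ℝ :=
  p x * φ (x + α) + (1 - p x) * φ (x - α)

lemma rev_cont {α : ℝ} (hα : Irrational α) (ν : Measure T) [IsFiniteMeasure ν] {p : T → ℝ}
    (hp : Continuous p) (hp0 : ∀ x, 0 < p x ∧ p x < 1)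
    (hs : ∫ x, Real.log (p x) = ∫ x, Real.log (1 - p x))
    (hν : ∀ φ : T → ℝ, Continuous φ → ∫ x, P p α φ x ∂ν = ∫ x, φ x ∂ν) (g : T → ℝ)
    (hg : Continuous g) : ∫ x, g (x + α) * p x ∂ν = ∫ x, g x * (1 - p x) ∂ν := by
  have hq : Continuous fun x => 1 - p x := by fun_prop
  have h1 := inv_const hα ν hp hq (by
    intro g hg
    rw [← sub_eq_zero, ← integral_sub (cint (by fun_prop) _) (cint (by fun_prop) _),
      ← sub_eq_zero.2 (hν g hg), ← integral_sub (cint (by unfold P; fun_prop) _) (cint hg _)]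
    refine integral_congr_ae (ae_of_all _ fun x => ?_)
    simp only [P]; ring)
  set c := ∫ x, (p x - (1 - p x)) ∂ν
  have h2 : ∀ g : T → ℝ, Continuous g →
      ∫ x, (g x * (1 - p x) - g (x - -α) * p x) ∂ν = (∫ x, g x) * (-c) := by
    intro g hg
    have := h1 (fun x => g (x + α)) (by fun_prop)
    rw [integral_add_right_eq_self g] at this
    rw [mul_neg, ← this, ← integral_neg]
    refine integral_congr_ae (ae_of_all _ fun x => ?_)
    simp
  have c1 := c_nonpos α ν hp hq (fun x => (hp0 x).1) (fun x => sub_pos.2 (hp0 x).2) hs c h1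
  have c2 := c_nonpos (-α) ν hq hp (fun x => sub_pos.2 (hp0 x).2) (fun x => (hp0 x).1) hs.symm _ h2
  have h3 := h2 g hg
  rw [show c = 0 by linarith, integral_sub (cint (by fun_prop) _) (cint (by fun_prop) _)] at h3
  simp only [sub_neg_eq_add, neg_zero, mul_zero] at h3
  linarith

lemma wd_int (ν : Measure T) {a : T → ℝ} (ha : Continuous a) (ha0 : ∀ x, 0 ≤ a x) (g : T → ℝ) :
    ∫ x, g x ∂(ν.withDensity fun x => ENNReal.ofReal (a x)) = ∫ x, g x * a x ∂ν := by
  rw [integral_withDensity_eq_integral_toReal_smul (by fun_prop) (by simp)]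
  simp only [ENNReal.toReal_ofReal (ha0 _), smul_eq_mul, mul_comm]

lemma rev_meas {γ : T} (ν : Measure T) [IsFiniteMeasure ν] {a b : T → ℝ}
    (ha : Continuous a) (hb : Continuous b) (ha0 : ∀ x, 0 ≤ a x) (hb0 : ∀ x, 0 ≤ b x)
    (h : ∀ g : T → ℝ, Continuous g → ∫ x, g (x + γ) * a x ∂ν = ∫ x, g x * b x ∂ν) :
    (ν.withDensity fun x => ENNReal.ofReal (a x)).map (· + γ) =
      ν.withDensity fun x => ENNReal.ofReal (b x) := by
  haveI := isFiniteMeasure_withDensity_ofReal (cint ha ν).2
  haveI := isFiniteMeasure_withDensity_ofReal (cint hb ν).2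
  refine ext_of_forall_integral_eq_of_IsFiniteMeasure fun g => ?_
  rw [integral_map (by fun_prop) g.continuous.aestronglyMeasurable, wd_int ν ha ha0,
    wd_int ν hb hb0, h g g.continuous]

/-- the reversibility relation `R_* (a ν) = b ν` -/
def Rev (ν : Measure T) (γ : T) (a b : T → ℝ) : Prop :=
  (ν.withDensity fun x => ENNReal.ofReal (a x)).map (· + γ) =
      ν.withDensity fun x => ENNReal.ofReal (b x)

lemma Rev.int {ν : Measure T} {γ : T} {a b : T → ℝ} (h : Rev ν γ a b)
    (ha : Continuous a) (hb : Continuous b) (ha0 : ∀ x, 0 ≤ a x) (hb0 : ∀ x, 0 ≤ b x)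
    {g : T → ℝ} (hg : Measurable g) : ∫ x, g (x + γ) * a x ∂ν = ∫ x, g x * b x ∂ν := by
  rw [← wd_int ν hb hb0, ← h, integral_map (by fun_prop) hg.aestronglyMeasurable, wd_int ν ha ha0]

lemma Rev.symm {ν : Measure T} {γ : T} {a b : T → ℝ} (h : Rev ν γ a b) : Rev ν (-γ) b a := by
  unfold Rev at h ⊢
  rw [← h, Measure.map_map (by fun_prop) (by fun_prop)]
  convert Measure.map_id
  ext x; simp

lemma Rev.conf {ν : Measure T} {α : ℝ} {a b : T → ℝ} (h : Rev ν α a b)
    (ha : Continuous a) (hb : Continuous b) (ha0 : ∀ x, 0 < a x) (hb0 : ∀ x, 0 < b x) :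
    Conf (fun x => Real.log (a x) - Real.log (b (x + α))) α ν := by
  intro g hg
  have hm : Measurable fun x => g x * ENNReal.ofReal (b x)⁻¹ :=
    hg.mul (hb.measurable.inv.ennreal_ofReal)
  have h1 : ∫⁻ x, g x * ENNReal.ofReal (b x)⁻¹ ∂(ν.withDensity fun x => ENNReal.ofReal (b x)) =
      ∫⁻ x, g x ∂ν := by
    rw [lintegral_withDensity_eq_lintegral_mul _ (by fun_prop) hm]
    refine lintegral_congr fun x => ?_
    simp only [Pi.mul_apply]
    rw [mul_left_comm, ← ENNReal.ofReal_mul (hb0 x).le, mul_inv_cancel₀ (hb0 x).ne']; simp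
  rw [← h1, ← h, lintegral_map hm (by fun_prop),
    lintegral_withDensity_eq_lintegral_mul _ (by fun_prop)
      (g := fun x => g (x + α) * ENNReal.ofReal (b (x + α))⁻¹)
      (hm.comp (measurable_add_const (α : T)))]
  refine lintegral_congr fun x => ?_
  simp only [Pi.mul_apply]
  rw [mul_left_comm, ← ENNReal.ofReal_mul (ha0 x).le, Real.exp_sub, Real.exp_log (ha0 x),
    Real.exp_log (hb0 _), div_eq_mul_inv]

lemma Conf.qmp {ν : Measure T} {ψ : T → ℝ} {β : ℝ} (h : Conf ψ β ν) (hc : Continuous ψ) :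
    Measure.QuasiMeasurePreserving (fun x : T => x + β) ν ν := by
  refine ⟨by fun_prop, Measure.AbsolutelyContinuous.mk fun s hs h0 => ?_⟩
  have h1 := h (s.indicator 1) (measurable_one.indicator hs)
  have h2 : Measurable (s.indicator (1 : T → ℝ≥0∞)) := measurable_one.indicator hs
  rw [lintegral_indicator_one hs, h0, eq_comm, lintegral_eq_zero_iff (by fun_prop)] at h1
  rw [Measure.map_apply (by fun_prop) hs, measure_eq_zero_iff_ae_notMem]
  filter_upwards [h1] with x hx hx'
  rw [Set.indicator_of_mem (show x + β ∈ s from hx')] at hx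
  simp at hx
  exact absurd hx (not_le.2 (Real.exp_pos _))

lemma Conf.qe {ν : Measure T} [IsFiniteMeasure ν] {ψ : T → ℝ} {β L : ℝ} (h : Conf ψ β ν)
    (hβ : Irrational β) (hc0 : Continuous ψ)
    (hL : ∀ (x : T) (t : ℝ), |ψ (x + t) - ψ x| ≤ L * |t|) (hL0 : 0 ≤ L) (h0 : ∫ x, ψ x = 0) :
    QuasiErgodic (fun x : T => x + β) ν := by
  refine ⟨h.qmp hc0, ⟨fun s hs hinv => ?_⟩⟩
  rw [eventuallyConst_set]
  by_cases hs0 : ν s = 0
  · exact Or.inr (measure_eq_zero_iff_ae_notMem.1 hs0)
  · left
    have h1 : Conf ψ β (ν.restrict s) := by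
      intro g hg
      rw [← lintegral_indicator hs, ← lintegral_indicator hs, h _ (hg.indicator hs)]
      refine lintegral_congr fun x => ?_
      have : x + β ∈ s ↔ x ∈ s := Set.ext_iff.1 hinv x
      by_cases hx : x ∈ s
      · rw [Set.indicator_of_mem hx, Set.indicator_of_mem (this.2 hx)]
      · rw [Set.indicator_of_notMem hx, Set.indicator_of_notMem (this.not.2 hx), zero_mul]
    exact (conf_ac hβ hc0 hL hL0 h0 ν _ h h1 (by simpa using hs0)).ae_le (ae_restrict_mem hs)

lemma qe_two {α L : ℝ} (hα : Irrational α) {ν : Measure T} [IsFiniteMeasure ν] {a b : T → ℝ}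
    (h : Rev ν α a b) (ha : Continuous a) (hb : Continuous b) (ha0 : ∀ x, 0 < a x)
    (hb0 : ∀ x, 0 < b x) (hL0 : 0 ≤ L)
    (hLa : ∀ (x : T) (t : ℝ), |Real.log (a (x + t)) - Real.log (a x)| ≤ L * |t|)
    (hLb : ∀ (x : T) (t : ℝ), |Real.log (b (x + t)) - Real.log (b x)| ≤ L * |t|)
    (hab : ∫ x, Real.log (a x) = ∫ x, Real.log (b x)) :
    QuasiErgodic (fun x : T => x + (((2 : ℕ) * α : ℝ) : T)) ν := by
  have la : Continuous fun x => Real.log (a x) := ha.log fun x => (ha0 x).ne'
  have lb : Continuous fun x => Real.log (b x) := hb.log fun x => (hb0 x).ne'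
  set ψ : T → ℝ := fun x => Real.log (a x) - Real.log (b (x + α)) with hψ
  have hc : Continuous ψ := la.sub (lb.comp (by fun_prop))
  have h1 : Conf (S ψ α 2) ((2 : ℕ) * α) ν := iter hc (h.conf ha hb ha0 hb0) 2
  have hL : ∀ (x : T) (t : ℝ), |ψ (x + t) - ψ x| ≤ (2 * L) * |t| := by
    intro x t
    have e1 := abs_le.1 (hLa x t)
    have e2 := abs_le.1 (hLb (x + α) t)
    simp only [hψ]
    rw [add_right_comm x (t : T), abs_le]
    constructor <;> linarith
  have h0 : ∫ x, ψ x = 0 := by
    simp only [hψ]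
    rw [integral_sub (cint la _) (cint (f := fun x => Real.log (b (x + α)))
      (lb.comp (continuous_add_const _)) _),
      integral_add_right_eq_self (fun x => Real.log (b x)), hab, sub_self]
  refine h1.qe (L := (2 : ℕ) * (2 * L)) (hα.natCast_mul two_ne_zero) (S_cont hc 2)
    (fun x t => by rw [mul_assoc]; exact S_lip hL 2 x t) (by positivity) ?_
  unfold S
  rw [integral_finset_sum _ fun i _ => cint (by fun_prop) _]
  refine Finset.sum_eq_zero fun i _ => ?_
  rw [integral_add_right_eq_self ψ, h0]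

def BM (f : T → ℝ) : Prop := Measurable f ∧ ∃ C, ∀ x, |f x| ≤ C

lemma BM.int {f : T → ℝ} (h : BM f) (ν : Measure T) [IsFiniteMeasure ν] : Integrable f ν := by
  obtain ⟨h1, C, h2⟩ := h
  exact Integrable.of_bound h1.aestronglyMeasurable C (ae_of_all _ h2)

lemma BM.mul {f g : T → ℝ} (h : BM f) (h' : BM g) : BM fun x => f x * g x := by
  obtain ⟨h1, C, h2⟩ := h
  obtain ⟨h3, D, h4⟩ := h'
  exact ⟨h1.mul h3, C * D, fun x => by
    rw [abs_mul]; exact mul_le_mul (h2 x) (h4 x) (abs_nonneg _) ((abs_nonneg _).trans (h2 x))⟩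

lemma BM.add {f g : T → ℝ} (h : BM f) (h' : BM g) : BM fun x => f x + g x := by
  obtain ⟨h1, C, h2⟩ := h
  obtain ⟨h3, D, h4⟩ := h'
  exact ⟨h1.add h3, C + D, fun x => (abs_add_le _ _).trans (add_le_add (h2 x) (h4 x))⟩

lemma BM.sub {f g : T → ℝ} (h : BM f) (h' : BM g) : BM fun x => f x - g x := by
  obtain ⟨h1, C, h2⟩ := h
  obtain ⟨h3, D, h4⟩ := h'
  exact ⟨h1.sub h3, C + D, fun x => (abs_sub _ _).trans (add_le_add (h2 x) (h4 x))⟩

lemma BM.const (c : ℝ) : BM fun _ => c := ⟨measurable_const, |c|, fun _ => le_rfl⟩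

lemma BM.sh {f : T → ℝ} (h : BM f) (γ : T) : BM fun x => f (x + γ) := by
  obtain ⟨h1, C, h2⟩ := h
  exact ⟨h1.comp (by fun_prop), C, fun x => h2 _⟩

lemma BM.sh' {f : T → ℝ} (h : BM f) (γ : T) : BM fun x => f (x - γ) := by
  obtain ⟨h1, C, h2⟩ := h
  exact ⟨h1.comp (by fun_prop), C, fun x => h2 _⟩

end Pool.Agent.H98.QP
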