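import Pool.Agent.H98.QP2

set_option autoImplicit false
open MeasureTheory Filter Topology
open scoped ENNReal

namespace Pool.Agent.H98.QP

variable {p : T → ℝ} {α : ℝ} {ν : Measure T}

lemma P_bd (hp0 : ∀ x, 0 < p x ∧ p x < 1) {f : T → ℝ} {C : ℝ} (h : ∀ x, |f x| ≤ C) (x : T) :
    |P p α f x| ≤ C := by
  have h1 := abs_le.1 (h (x + α))
  have h2 := abs_le.1 (h (x - α))
  have := hp0 x
  unfold P
  rw [abs_le]; constructor <;> nlinarith

lemma P_meas (hp : Continuous p) {f : T → ℝ} (h : Measurable f) : Measurable (P p α f) := by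
  have := hp.measurable
  unfold P; fun_prop

lemma BM.P (hp : Continuous p) (hp0 : ∀ x, 0 < p x ∧ p x < 1) {f : T → ℝ} (h : BM f) :
    BM (P p α f) := by
  obtain ⟨h1, C, h2⟩ := h
  exact ⟨P_meas hp h1, C, P_bd hp0 h2⟩

lemma BM.Pn (hp : Continuous p) (hp0 : ∀ x, 0 < p x ∧ p x < 1) {f : T → ℝ} (h : BM f) (n : ℕ) :
    BM ((QP.P p α)^[n] f) := by
  induction n with
  | zero => exact h
  | succ n ih => rw [Function.iterate_succ_apply']; exact ih.P hp hp0

lemma P_sym [IsFiniteMeasure ν] (hp : Continuous p) (hp0 : ∀ x, 0 < p x ∧ p x < 1)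
    (hr : Rev ν α p fun x => 1 - p x) {f g : T → ℝ} (hf : BM f) (hg : BM g) :
    ∫ x, P p α f x * g x ∂ν = ∫ x, f x * P p α g x ∂ν := by
  have hq : Continuous fun x => 1 - p x := by fun_prop
  have bp : BM p := ⟨hp.measurable, 1, fun x => by rw [abs_le]; constructor <;> linarith [hp0 x]⟩
  have bq : BM fun x => 1 - p x := (BM.const 1).sub bp
  have h1 := hr.int hp hq (fun x => (hp0 x).1.le) (fun x => (sub_pos.2 (hp0 x).2).le)
    (hf.mul (hg.sh' α)).1
  have h2 := hr.symm.int hq hp (fun x => (sub_pos.2 (hp0 x).2).le) (fun x => (hp0 x).1.le)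
    (hf.mul (hg.sh α)).1
  simp only [add_sub_cancel_right, neg_add_cancel_right, ← sub_eq_add_neg, sub_add_cancel] at h1 h2
  have e1 : ∀ x, P p α f x * g x = f (x + α) * g x * p x + f (x - α) * g x * (1 - p x) := by
    intro x; unfold P; ring
  have e2 : ∀ x, f x * P p α g x = f x * g (x - α) * (1 - p x) + f x * g (x + α) * p x := by
    intro x; unfold P; ring
  simp only [e1, e2]
  rw [integral_add ((((hf.sh α).mul hg).mul bp).int ν) ((((hf.sh' α).mul hg).mul bq).int ν),
    integral_add (((hf.mul (hg.sh' α)).mul bq).int ν) (((hf.mul (hg.sh α)).mul bp).int ν), h1, h2]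

lemma P_stat [IsFiniteMeasure ν] (hp : Continuous p) (hp0 : ∀ x, 0 < p x ∧ p x < 1)
    (hr : Rev ν α p fun x => 1 - p x) {f : T → ℝ} (hf : BM f) :
    ∫ x, P p α f x ∂ν = ∫ x, f x ∂ν := by
  have := P_sym hp hp0 hr hf (BM.const 1)
  simpa [P] using this

lemma Pn_stat [IsFiniteMeasure ν] (hp : Continuous p) (hp0 : ∀ x, 0 < p x ∧ p x < 1)
    (hr : Rev ν α p fun x => 1 - p x) {f : T → ℝ} (hf : BM f) (n : ℕ) :
    ∫ x, (P p α)^[n] f x ∂ν = ∫ x, f x ∂ν := by
  induction n with
  | zero => rfl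
  | succ n ih => rw [Function.iterate_succ_apply', P_stat hp hp0 hr (hf.Pn hp hp0 n), ih]

theorem decay [IsProbabilityMeasure ν] (hp : Continuous p) (hp0 : ∀ x, 0 < p x ∧ p x < 1)
    (hr : Rev ν α p fun x => 1 - p x)
    (hqe : QuasiErgodic (fun x : T => x + (((2 : ℕ) * α : ℝ) : T)) ν) {f : T → ℝ} (hf : BM f)
    (hf0 : ∫ x, f x ∂ν = 0) :
    Tendsto (fun n => ∫ x, ((P p α)^[n] f x) ^ 2 ∂ν) atTop (𝓝 0) := by
  have hq : Continuous fun x => 1 - p x := by fun_prop
  have bp : BM p := ⟨hp.measurable, 1, fun x => by rw [abs_le]; constructor <;> linarith [hp0 x]⟩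
  have bq : BM fun x => 1 - p x := (BM.const 1).sub bp
  set u : ℕ → T → ℝ := fun n => (P p α)^[n] f with hu
  have bu : ∀ n, BM (u n) := hf.Pn hp hp0
  have us : ∀ n, u (n + 1) = P p α (u n) := fun n => Function.iterate_succ_apply' _ _ _
  obtain ⟨C, hC⟩ : ∃ C, ∀ n x, |u n x| ≤ C := by
    obtain ⟨C, hC⟩ := hf.2
    refine ⟨C, fun n => ?_⟩
    induction n with
    | zero => exact hC
    | succ n ih => rw [us]; exact P_bd hp0 ih
  set a : ℕ → ℝ := fun n => ∫ x, u n x * u n x ∂ν with ha
  have b0 : ∀ k j, ∫ x, u j x * u k x ∂ν = ∫ x, u (j + k) x * u 0 x ∂ν := by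
    intro k
    induction k with
    | zero => intro j; rfl
    | succ k ih =>
      intro j
      rw [us k, ← P_sym hp hp0 hr (bu j) (bu k), ← us, ih, show j + 1 + k = j + (k + 1) by omega]
  have b1 : ∀ n m, ∫ x, u (2 * n) x * u (2 * m) x ∂ν = a (n + m) := by
    intro n m
    simp only [ha]; rw [b0, b0 (n + m), show 2 * n + 2 * m = n + m + (n + m) by omega]
  set D : ℕ → T → ℝ := fun n x => p x * (1 - p x) * ((u n (x + α) - u n (x - α)) *
    (u n (x + α) - u n (x - α))) with hD
  have bD : ∀ n, BM (D n) := fun n => (bp.mul bq).mul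
    ((((bu n).sh α).sub ((bu n).sh' α)).mul (((bu n).sh α).sub ((bu n).sh' α)))
  have e1 : ∀ n, ∫ x, D n x ∂ν = a n - a (n + 1) := by
    intro n
    simp only [ha]
    rw [← P_stat hp hp0 hr ((bu n).mul (bu n)), ← integral_sub ((((bu n).mul (bu n)).P hp hp0).int ν)
      (((bu _).mul (bu _)).int ν)]
    refine integral_congr_ae (ae_of_all _ fun x => ?_)
    simp only [hD, us, P]; ring
  have anti : Antitone a := antitone_nat_of_succ_le fun n => by
    have : 0 ≤ ∫ x, D n x ∂ν := integral_nonneg fun x =>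
      mul_nonneg (mul_pos (hp0 x).1 (sub_pos.2 (hp0 x).2)).le (mul_self_nonneg _)
    linarith [e1 n]
  have bb : BddBelow (Set.range a) :=
    ⟨0, by rintro _ ⟨n, rfl⟩; exact integral_nonneg fun x => mul_self_nonneg _⟩
  have ta := tendsto_atTop_ciInf anti bb
  set l := ⨅ n, a n
  have hl : ∀ n, l ≤ a n := fun n => ciInf_le bb n
  have mu : ∀ n, MemLp (u n) 2 ν := fun n =>
    MemLp.of_bound (bu n).1.aestronglyMeasurable C (ae_of_all _ (hC n))
  set U : ℕ → Lp ℝ 2 ν := fun n => (mu (2 * n)).toLp _ with hU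
  have cU : ∀ n, U n =ᵐ[ν] u (2 * n) := fun n => MemLp.coeFn_toLp _
  have cs : CauchySeq U := by
    refine cauchySeq_of_le_tendsto_0 (fun N => √(2 * (a N - l))) (fun n m N hn hm => ?_) ?_
    · rw [dist_eq_norm]
      refine Real.le_sqrt_of_sq_le ?_
      rw [← real_inner_self_eq_norm_sq, L2.inner_def]
      have : ∫ x, inner ℝ ((U n - U m) x) ((U n - U m) x) ∂ν = ∫ x, (u (2 * n) x * u (2 * n) x -
          u (2 * n) x * u (2 * m) x - u (2 * n) x * u (2 * m) x + u (2 * m) x * u (2 * m) x) ∂ν := by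
        refine integral_congr_ae ?_
        filter_upwards [Lp.coeFn_sub (U n) (U m), cU n, cU m] with x h1 h2 h3
        rw [h1, Pi.sub_apply, h2, h3, real_inner_self_eq_norm_sq, Real.norm_eq_abs, sq_abs]; ring
      rw [this, integral_add (((((bu _).mul (bu _)).sub ((bu _).mul (bu _))).sub
        ((bu _).mul (bu _))).int ν) (((bu _).mul (bu _)).int ν), integral_sub
        ((((bu _).mul (bu _)).sub ((bu _).mul (bu _))).int ν) (((bu _).mul (bu _)).int ν),
        integral_sub (((bu _).mul (bu _)).int ν) (((bu _).mul (bu _)).int ν), b1, b1, b1]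
      linarith [anti (show N ≤ n + n by omega), anti (show N ≤ m + m by omega), hl (n + m)]
    · have := ((ta.sub_const l).const_mul 2).sqrt
      simpa using this
  obtain ⟨H, hH⟩ := cauchySeq_tendsto_of_complete cs
  obtain ⟨ns, hns, hae⟩ := (tendstoInMeasure_of_tendsto_Lp hH).exists_seq_tendsto_ae
  have hae' : ∀ᵐ x ∂ν, Tendsto (fun i => u (2 * ns i) x) atTop (𝓝 (H x)) := by
    filter_upwards [hae, ae_all_iff.2 cU] with x h1 h2
    simpa only [h2] using h1
  have t2 : Tendsto (fun i => 2 * ns i) atTop atTop :=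
    tendsto_atTop_mono (fun i => by have := hns.id_le i; simp only [id] at this ⊢; omega) tendsto_id
  have q1 := (hr.conf hp hq (fun x => (hp0 x).1) fun x => sub_pos.2 (hp0 x).2).qmp
    ((hp.log fun x => (hp0 x).1.ne').sub
      ((hq.log fun x => (sub_pos.2 (hp0 x).2).ne').comp (continuous_add_const _)))
  have hr' : Rev ν ((-α : ℝ) : T) (fun x => 1 - p x) p := by simpa using hr.symm
  have q2 := (hr'.conf hq hp (fun x => sub_pos.2 (hp0 x).2) fun x => (hp0 x).1).qmp
    ((hq.log fun x => (sub_pos.2 (hp0 x).2).ne').sub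
      ((hp.log fun x => (hp0 x).1.ne').comp (continuous_add_const _)))
  simp only [AddCircle.coe_neg, ← sub_eq_add_neg] at q2
  set D' : T → ℝ := fun x => p x * (1 - p x) * ((H (x + α) - H (x - α)) *
    (H (x + α) - H (x - α))) with hD'
  have tD : ∀ᵐ x ∂ν, Tendsto (fun i => D (2 * ns i) x) atTop (𝓝 (D' x)) := by
    filter_upwards [q1.ae hae', q2.ae hae'] with x h1 h2
    exact ((h1.sub h2).mul (h1.sub h2)).const_mul _
  have bdD : ∀ n x, ‖D n x‖ ≤ (2 * C) * (2 * C) := by
    intro n x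
    have h1 : |u n (x + α) - u n (x - α)| ≤ 2 * C := (abs_sub _ _).trans (by linarith [hC n (x + α), hC n (x - α)])
    have h2 : |p x * (1 - p x)| ≤ 1 := by rw [abs_le]; constructor <;> nlinarith [hp0 x]
    simp only [hD, Real.norm_eq_abs]
    rw [abs_mul, abs_mul (u n (x + α) - u n (x - α))]
    have := mul_le_mul h1 h1 (abs_nonneg _) ((abs_nonneg _).trans h1)
    nlinarith [abs_nonneg (p x * (1 - p x)), mul_self_nonneg |u n (x + α) - u n (x - α)|]
  have i1 := tendsto_integral_of_dominated_convergence (fun _ => (2 * C) * (2 * C))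
    (fun i => (bD (2 * ns i)).1.aestronglyMeasurable) (integrable_const _)
    (fun i => ae_of_all _ (bdD _)) tD
  have i2 : Tendsto (fun i => ∫ x, D (2 * ns i) x ∂ν) atTop (𝓝 0) := by
    simp only [e1]
    have := (ta.comp t2).sub (ta.comp ((tendsto_add_atTop_nat 1).comp t2))
    simpa using this
  have i3 : Integrable D' ν := Integrable.of_bound
    (aestronglyMeasurable_of_tendsto_ae atTop (fun i => (bD (2 * ns i)).1.aestronglyMeasurable) tD)
    ((2 * C) * (2 * C)) (by
      filter_upwards [tD] with x hx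
      exact le_of_tendsto' hx.norm fun i => bdD _ _)
  have i4 := (integral_eq_zero_iff_of_nonneg (fun x =>
      mul_nonneg (mul_pos (hp0 x).1 (sub_pos.2 (hp0 x).2)).le (mul_self_nonneg _)) i3).1
    (tendsto_nhds_unique i1 i2)
  have i5 : ∀ᵐ x ∂ν, H (x + α) = H (x - α) := by
    filter_upwards [i4] with x hx
    have := (mul_pos (hp0 x).1 (sub_pos.2 (hp0 x).2)).ne'
    rcases mul_eq_zero.1 hx with hx | hx
    · exact absurd hx this
    · linarith [mul_self_eq_zero.1 hx]
  obtain ⟨c, hc⟩ := hqe.ae_eq_const_of_ae_eq_comp_ae (Lp.aestronglyMeasurable H) (by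
    filter_upwards [q1.ae i5] with x hx
    simp only [Function.comp_apply, Nat.cast_ofNat, two_mul, AddCircle.coe_add, ← add_assoc]
    simpa using hx)
  have j1 := tendsto_integral_of_dominated_convergence (fun _ => C)
    (fun i => (bu (2 * ns i)).1.aestronglyMeasurable) (integrable_const _)
    (fun i => ae_of_all _ (hC _)) hae'
  have j2 : ∀ n, ∫ x, u n x ∂ν = 0 := fun n => by rw [← hf0]; exact Pn_stat hp hp0 hr hf n
  simp only [j2] at j1
  have j3 : c = 0 := by
    have := tendsto_nhds_unique j1 tendsto_const_nhds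
    rw [integral_congr_ae hc] at this
    simpa using this
  have j4 := tendsto_integral_of_dominated_convergence (F := fun i x => u (2 * ns i) x * u (2 * ns i) x)
    (f := fun _ => (0 : ℝ)) (fun _ => C * C)
    (fun i => ((bu (2 * ns i)).mul (bu _)).1.aestronglyMeasurable) (integrable_const (μ := ν) _)
    (fun i => ae_of_all _ fun x => by
      rw [Real.norm_eq_abs, abs_mul]
      exact mul_le_mul (hC _ _) (hC _ _) (abs_nonneg _) ((abs_nonneg _).trans (hC 0 x))) (by
      filter_upwards [hae', hc] with x h1 h2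
      rw [h2, j3] at h1
      simpa using h1.mul h1)
  have j5 : l = 0 := by
    have := tendsto_nhds_unique (ta.comp t2) j4
    simpa using this
  rw [j5] at ta
  simpa only [sq] using ta

end Pool.Agent.H98.QP
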