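import Mathlib

set_option autoImplicit false

namespace Pool.Agent.H98.Recip

open Filter Topology

def nn (k a L : ℕ) : ℕ := Nat.totient a * ((k + 1) * (2 * L + 1) + L * a + k + L + 5)

def st : ℕ → ℕ × ℕ
  | 0 => (1, 0)
  | k + 1 => ((st k).1 * (2 ^ nn k (st k).1 (st k).2 - 1), (st k).2 + nn k (st k).1 (st k).2)

def a (k : ℕ) : ℕ := (st k).1
def L (k : ℕ) : ℕ := (st k).2
def n (k : ℕ) : ℕ := nn k (a k) (L k)

lemma a_succ (k : ℕ) : a (k + 1) = a k * (2 ^ n k - 1) := rfl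
lemma L_succ (k : ℕ) : L (k + 1) = L k + n k := rfl

lemma n_ge_of (k : ℕ) (h : 0 < a k) : (k + 1) * (2 * L k + 1) + L k * a k + k + L k + 5 ≤ n k :=
  Nat.le_mul_of_pos_left _ (Nat.totient_pos.2 h)

lemma odd_q {m : ℕ} (h : 1 ≤ m) : Odd (2 ^ m - 1) :=
  Nat.Even.sub_odd Nat.one_le_two_pow (Nat.even_pow.2 ⟨even_two, by omega⟩) odd_one

lemma a_odd (k : ℕ) : Odd (a k) := by
  induction k with
  | zero => exact odd_one
  | succ k ih =>
    rw [a_succ]
    exact ih.mul (odd_q (by have := n_ge_of k ih.pos; omega))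

lemma a_pos (k : ℕ) : 0 < a k := (a_odd k).pos

lemma n_ge (k : ℕ) : (k + 1) * (2 * L k + 1) + L k * a k + k + L k + 5 ≤ n k := n_ge_of k (a_pos k)

lemma n_lt (k : ℕ) : n k < n (k + 1) := by
  have := n_ge (k + 1)
  rw [L_succ] at this
  omega

lemma a_dvd (k : ℕ) : a k ∣ 2 ^ n k - 1 := by
  have h := Nat.ModEq.pow_totient (x := 2) (n := a k) ((Nat.coprime_two_left).2 (a_odd k))
  have h2 := h.pow ((k + 1) * (2 * L k + 1) + L k * a k + k + L k + 5)
  rw [← pow_mul, one_pow] at h2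
  exact (Nat.modEq_iff_dvd' Nat.one_le_two_pow).1 h2.symm

lemma a_le (k : ℕ) : a k ≤ 2 ^ L k := by
  induction k with
  | zero => exact le_rfl
  | succ k ih =>
    rw [a_succ, L_succ, pow_add]
    exact Nat.mul_le_mul ih (Nat.sub_le _ _)

lemma a_ge (k : ℕ) : 2 ^ k ≤ a k := by
  induction k with
  | zero => exact le_rfl
  | succ k ih =>
    rw [a_succ, pow_succ]
    refine Nat.mul_le_mul ih ?_
    have h1 : 2 ≤ n k := by have := n_ge k; omega
    have := Nat.pow_le_pow_right (by norm_num : 0 < 2) h1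
    omega

noncomputable def xs (k : ℕ) : ℝ := a k / 2 ^ L k

lemma xs_pos (k : ℕ) : 0 < xs k := by
  have : (0:ℝ) < a k := by exact_mod_cast a_pos k
  unfold xs; positivity

lemma xs_le (k : ℕ) : xs k ≤ 1 := by
  unfold xs
  rw [div_le_one (by positivity)]
  exact_mod_cast a_le k

lemma xs_succ (k : ℕ) : xs (k + 1) = xs k - xs k / 2 ^ n k := by
  unfold xs
  rw [a_succ, L_succ, Nat.cast_mul, Nat.cast_sub Nat.one_le_two_pow, pow_add]
  push_cast; field_simp

lemma xs_lt (k : ℕ) : xs (k + 1) < xs k := by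
  rw [xs_succ]
  have := xs_pos k
  have : 0 < xs k / 2 ^ n k := by positivity
  linarith

lemma xs_anti : Antitone xs := antitone_nat_of_succ_le fun k => (xs_lt k).le

lemma xs_low (k j : ℕ) : xs k - 2 / 2 ^ n k + 2 / 2 ^ n (k + j) ≤ xs (k + j) := by
  induction j with
  | zero => simp
  | succ j ih =>
    rw [← add_assoc, xs_succ]
    have h1 : xs (k + j) / 2 ^ n (k + j) ≤ 1 / 2 ^ n (k + j) :=
      div_le_div_of_nonneg_right (xs_le _) (by positivity)
    have h2 : (2:ℝ) / 2 ^ n (k + j + 1) ≤ 1 / 2 ^ n (k + j) := by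
      rw [div_le_div_iff₀ (by positivity) (by positivity), one_mul, ← pow_succ']
      exact pow_le_pow_right₀ (by norm_num) (n_lt _)
    have h3 : (2:ℝ) / 2 ^ n (k + j) = 2 * (1 / 2 ^ n (k + j)) := by ring
    linarith

noncomputable def x : ℝ := ⨅ k, xs k

lemma bdd : BddBelow (Set.range xs) := ⟨0, by rintro _ ⟨k, rfl⟩; exact (xs_pos k).le⟩

lemma x_lt (k : ℕ) : x < xs k := lt_of_le_of_lt (ciInf_le bdd (k + 1)) (xs_lt k)

lemma x_ge (k : ℕ) : xs k - 2 / 2 ^ n k ≤ x := by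
  refine le_ciInf fun j => ?_
  have h1 := xs_low k j
  have h2 := xs_anti (Nat.le_add_left j k)
  have : (0:ℝ) < 2 / 2 ^ n (k + j) := by positivity
  linarith

lemma x_half : 1 / 2 ≤ x := by
  have h := x_ge 0
  have h1 : xs 0 = 1 := by simp [xs, a, L, st]
  have h2 : (2:ℝ) ^ 2 ≤ 2 ^ n 0 := pow_le_pow_right₀ (by norm_num) (by have := n_ge 0; omega)
  have h3 : (2:ℝ) / 2 ^ n 0 ≤ 1 / 2 := by
    rw [div_le_iff₀ (by positivity)]; linarith
  linarith

lemma digit_one (k P : ℕ) (h1 : L k < P) (h2 : P + 1 ≤ n k) : ⌊(2:ℝ) ^ P * x⌋ % 2 = 1 := by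
  obtain ⟨e, rfl⟩ : ∃ e, P = L k + (e + 1) := ⟨P - L k - 1, by omega⟩
  have h3 : (2:ℝ) ^ (L k + (e + 1)) * xs k = ((2 * (2 ^ e * a k) : ℤ) : ℝ) := by
    unfold xs; push_cast; rw [pow_add, pow_succ]; field_simp
  have hp : (0:ℝ) < 2 ^ (L k + (e + 1)) := by positivity
  have : ⌊(2:ℝ) ^ (L k + (e + 1)) * x⌋ = 2 * (2 ^ e * a k) - 1 := by
    rw [Int.floor_eq_iff, Int.cast_sub, ← h3]
    constructor
    · have h4 := mul_le_mul_of_nonneg_left (x_ge k) hp.le
      have h5 : (2:ℝ) ^ (L k + (e + 1)) * (2 / 2 ^ n k) ≤ 1 := by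
        rw [← mul_div_assoc, div_le_one (by positivity), ← pow_succ]
        exact pow_le_pow_right₀ (by norm_num) h2
      push_cast; linarith
    · have h4 := mul_lt_mul_of_pos_left (x_lt k) hp
      push_cast; linarith
  rw [this]; omega

open Classical in
noncomputable def bad (N : ℕ) : Finset ℕ :=
  (Finset.range N).filter fun j => ⌊(2:ℝ) ^ (j + 1) * x⌋ % 2 ≠ 1

lemma bad_card (k N : ℕ) (h2 : N < n (k + 1)) : (bad N).card ≤ 2 * L k + 1 := by
  have : bad N ⊆ Finset.range (L k) ∪ Finset.Ico (n k - 1) (L (k + 1)) := by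
    intro j hj
    simp only [bad, Finset.mem_filter, Finset.mem_range] at hj
    simp only [Finset.mem_union, Finset.mem_range, Finset.mem_Ico]
    by_contra hc
    apply hj.2
    by_cases h3 : j + 1 + 1 ≤ n k
    · exact digit_one k _ (by omega) h3
    · exact digit_one (k + 1) _ (by omega) (by omega)
  refine le_trans (Finset.card_le_card this) (le_trans (Finset.card_union_le _ _) ?_)
  rw [Finset.card_range, Nat.card_Ico, L_succ]
  omega

lemma bad_lim : Tendsto (fun N : ℕ => ((bad N).card : ℝ) / N) atTop (𝓝 0) := by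
  rw [Metric.tendsto_atTop]
  intro ε hε
  obtain ⟨K, hK⟩ := exists_nat_one_div_lt hε
  refine ⟨n K, fun N hN => ?_⟩
  have hm : StrictMono n := strictMono_nat_of_lt_succ n_lt
  have hex : ∃ k, N < n (k + 1) := ⟨N, lt_of_lt_of_le (Nat.lt_succ_self N) (hm.id_le (N + 1))⟩
  set k := Nat.find hex with hk
  have h1 : N < n (k + 1) := Nat.find_spec hex
  have hKk : K ≤ k := by
    have := hm.lt_iff_lt.1 (lt_of_le_of_lt hN h1); omega
  have h2 : n k ≤ N := by
    rcases Nat.eq_zero_or_pos k with h | h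
    · rw [h]; exact le_trans (hm.monotone (Nat.zero_le _)) hN
    · have := Nat.find_min hex (m := k - 1) (by omega)
      rw [Nat.sub_add_cancel h] at this; omega
  have h3 := bad_card k N h1
  have h4 : (K + 1) * (bad N).card ≤ N := by
    have := n_ge k
    have h5 : (K + 1) * (bad N).card ≤ (k + 1) * (2 * L k + 1) := Nat.mul_le_mul (by omega) h3
    omega
  have hN0 : (0:ℝ) < N := by have := n_ge k; exact_mod_cast (by omega : 0 < N)
  rw [Real.dist_eq, sub_zero, abs_of_nonneg (by positivity)]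
  refine lt_of_le_of_lt ?_ hK
  rw [div_le_div_iff₀ hN0 (by positivity), one_mul, mul_comm]
  exact_mod_cast h4

open Classical in
noncomputable def cnt (y : ℝ) (N κ : ℕ) (w : Fin κ → Fin 2) : ℕ :=
  ((Finset.range N).filter (fun j : ℕ => ∀ i : Fin κ,
    ⌊(2 : ℝ) ^ (j + i.val + 1) * y⌋ % 2 = ((w i : ℕ) : ℤ))).card

noncomputable def ent (y : ℝ) (N κ : ℕ) : ℝ :=
  ∑ w : Fin κ → Fin 2, Real.negMulLog ((cnt y N κ w : ℝ) / N)

theorem det_x : Tendsto (fun N => ent x N 1) atTop (𝓝 0) := by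
  classical
  have : (0:ℝ) = ∑ w : Fin 1 → Fin 2, 0 := by simp
  rw [this]
  refine tendsto_finset_sum _ fun w _ => ?_
  by_cases hw : w 0 = 1
  · have h1 : Tendsto (fun N : ℕ => (cnt x N 1 w : ℝ) / N) atTop (𝓝 (1 - 0)) := by
      refine (bad_lim.const_sub 1).congr' ?_
      filter_upwards [eventually_gt_atTop 0] with N hN
      have hN0 : (N:ℝ) ≠ 0 := by positivity
      have h2 : cnt x N 1 w + (bad N).card = N := by
        have := Finset.card_filter_add_card_filter_not (s := Finset.range N)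
          (fun j => ⌊(2:ℝ) ^ (j + 1) * x⌋ % 2 = 1)
        rw [Finset.card_range] at this
        refine Eq.trans ?_ this
        unfold cnt bad
        congr 2
        ext j; simp [Fin.forall_fin_one, hw]
      have h3 : (cnt x N 1 w : ℝ) = N - (bad N).card := by
        rw [eq_sub_iff_add_eq]; exact_mod_cast h2
      rw [h3]; field_simp
    have := (Real.continuous_negMulLog.tendsto _).comp h1
    simpa [Function.comp_def] using this
  · have h1 : Tendsto (fun N : ℕ => (cnt x N 1 w : ℝ) / N) atTop (𝓝 0) := by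
      refine squeeze_zero (fun N => by positivity) (fun N => ?_) bad_lim
      refine div_le_div_of_nonneg_right ?_ (by positivity)
      have : cnt x N 1 w ≤ (bad N).card := by
        unfold cnt bad
        refine Finset.card_le_card fun j hj => ?_
        simp only [Finset.mem_filter, Fin.forall_fin_one] at hj ⊢
        refine ⟨hj.1, fun h => hw ?_⟩
        have h2 := hj.2
        simp only [Fin.val_zero, add_zero] at h2
        rw [h] at h2
        apply Fin.ext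
        simp only [Fin.val_one]
        omega
      exact_mod_cast this
    have := (Real.continuous_negMulLog.tendsto _).comp h1
    simpa [Function.comp_def] using this

noncomputable def ys (k : ℕ) : ℝ := 2 ^ L k / a k

lemma floor_eq (k P : ℕ) (h : P + L k + 4 ≤ n k) :
    ⌊(2:ℝ) ^ P * x⁻¹⌋ = ⌊(2:ℝ) ^ P * ys k⌋ := by
  have hx := x_half
  have hx0 : 0 < x := by linarith
  have ha : (0:ℝ) < a k := by exact_mod_cast a_pos k
  have hy : ys k = (xs k)⁻¹ := by unfold ys xs; rw [inv_div]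
  have hp : (0:ℝ) < 2 ^ P := by positivity
  have h1 : ys k ≤ x⁻¹ := by rw [hy]; exact inv_anti₀ hx0 (x_lt k).le
  have h2 : x⁻¹ ≤ ys k + 8 / 2 ^ n k := by
    rw [hy]
    have h3 := x_ge k
    have h4 := x_lt k
    have e : x⁻¹ = (xs k)⁻¹ + (xs k - x) / (x * xs k) := by
      have := xs_pos k
      field_simp; ring
    rw [e]
    have h5 : (xs k - x) / (x * xs k) ≤ (2 / 2 ^ n k) / (1 / 4) :=
      div_le_div₀ (by positivity) (by linarith) (by norm_num) (by nlinarith)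
    have h6 : (2 / 2 ^ n k : ℝ) / (1 / 4) = 8 / 2 ^ n k := by ring
    linarith
  rw [Int.floor_eq_iff]
  constructor
  · exact le_trans (Int.floor_le _) (mul_le_mul_of_nonneg_left h1 hp.le)
  · set f := ⌊(2:ℝ) ^ P * ys k⌋
    have h3 : (2:ℝ) ^ P * ys k < f + 1 := Int.lt_floor_add_one _
    have h4 : (2:ℝ) ^ P * ys k = ((2 ^ P * 2 ^ L k : ℤ) : ℝ) / a k := by
      unfold ys; push_cast; ring
    rw [h4, div_lt_iff₀ ha] at h3
    have h5 : (2 ^ P * 2 ^ L k : ℤ) + 1 ≤ (f + 1) * a k := by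
      have : (2 ^ P * 2 ^ L k : ℤ) < (f + 1) * a k := by exact_mod_cast h3
      omega
    have h6 : (2:ℝ) ^ P * ys k + 1 / a k ≤ f + 1 := by
      rw [h4, ← add_div, div_le_iff₀ ha]; exact_mod_cast h5
    have h7 : (2:ℝ) ^ P * (8 / 2 ^ n k) < 1 / a k := by
      rw [← mul_div_assoc, div_lt_div_iff₀ (by positivity) ha, one_mul]
      have h8 : (a k : ℝ) ≤ 2 ^ L k := by exact_mod_cast a_le k
      have h9 : (2:ℝ) ^ (P + L k + 4) ≤ 2 ^ n k := pow_le_pow_right₀ (by norm_num) h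
      rw [pow_add, pow_add] at h9
      have : (0:ℝ) < 2 ^ L k := by positivity
      nlinarith
    have := mul_le_mul_of_nonneg_left h2 hp.le
    linarith

lemma floor_two (z : ℝ) : ⌊2 * z⌋ = 2 * ⌊z⌋ + ⌊2 * z⌋ % 2 := by
  have h1 : 2 * ⌊z⌋ ≤ ⌊2 * z⌋ := Int.le_floor.2 (by push_cast; linarith [Int.floor_le z])
  have h2 : ⌊2 * z⌋ < 2 * ⌊z⌋ + 2 :=
    Int.floor_lt.2 (by push_cast; linarith [Int.lt_floor_add_one z])
  omega

lemma same_word (z z' : ℝ) (κ : ℕ)
    (h : ∀ i < κ, ⌊2 ^ (i + 1) * z⌋ % 2 = ⌊2 ^ (i + 1) * z'⌋ % 2) :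
    2 ^ κ * (Int.fract z - Int.fract z') < 1 := by
  have key : ⌊2 ^ κ * z⌋ - 2 ^ κ * ⌊z⌋ = ⌊2 ^ κ * z'⌋ - 2 ^ κ * ⌊z'⌋ := by
    induction κ with
    | zero => simp
    | succ κ ih =>
      have h1 := ih fun i hi => h i (by omega)
      have h2 := h κ (by omega)
      have h3 := floor_two (2 ^ κ * z)
      have h4 := floor_two (2 ^ κ * z')
      rw [← mul_assoc, ← pow_succ'] at h3 h4
      rw [pow_succ (2:ℤ)]
      linarith
  have h1 := Int.lt_floor_add_one (2 ^ κ * z)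
  have h2 := Int.floor_le (2 ^ κ * z')
  have h3 : ((⌊2 ^ κ * z⌋ - 2 ^ κ * ⌊z⌋ : ℤ) : ℝ) = ((⌊2 ^ κ * z'⌋ - 2 ^ κ * ⌊z'⌋ : ℤ) : ℝ) := by
    rw [key]
  push_cast at h3
  unfold Int.fract
  linarith

lemma card_le_of_diam (T : Finset ℤ) (R : ℝ) (hR : 0 ≤ R)
    (h : ∀ s ∈ T, ∀ t ∈ T, ((s - t : ℤ) : ℝ) < R) : (T.card : ℝ) ≤ R + 1 := by
  rcases T.eq_empty_or_nonempty with rfl | hne
  · simp; linarith
  · have hs : T ⊆ Finset.Icc (T.min' hne) (T.max' hne) := fun t ht =>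
      Finset.mem_Icc.2 ⟨T.min'_le t ht, T.le_max' t ht⟩
    have h1 := Finset.card_le_card hs
    rw [Int.card_Icc] at h1
    have h2 := h _ (T.max'_mem hne) _ (T.min'_mem hne)
    have h3 : T.min' hne ≤ T.max' hne := T.min'_le _ (T.max'_mem hne)
    have h4 : (T.card : ℤ) ≤ T.max' hne - T.min' hne + 1 := by omega
    have h5 : (T.card : ℝ) ≤ ((T.max' hne - T.min' hne + 1 : ℤ) : ℝ) := by exact_mod_cast h4
    rw [Int.cast_add] at h5
    push_cast at h5 h2 ⊢
    linarith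

lemma pow_exp (q : ℤ) (m : ℕ) : ∃ c : ℤ, (1 + q) ^ m = 1 + m * q + q ^ 2 * c := by
  induction m with
  | zero => exact ⟨0, by simp⟩
  | succ m ih =>
    obtain ⟨c, hc⟩ := ih
    exact ⟨c + m + q * c, by rw [pow_succ, hc]; push_cast; ring⟩

lemma tt (k i m : ℕ) : ∃ t : ℤ, (a k : ℤ) ∣ t - m * 2 ^ (i + L (k + 1)) ∧
    a k * Int.fract ((2:ℝ) ^ (i + n k * m) * ys (k + 1)) = a k * (2 ^ i * ys (k + 1)) + t := by
  obtain ⟨b, hb⟩ := a_dvd k
  obtain ⟨c, hc⟩ := pow_exp ((a k : ℤ) * b) m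
  have h1 : (1 + (a k : ℤ) * b) = 2 ^ n k := by
    have : 2 ^ n k = 1 + a k * b := by rw [← hb]; have := @Nat.one_le_two_pow (n k); omega
    exact_mod_cast this.symm
  rw [h1, ← pow_mul] at hc
  have hc' : (2:ℝ) ^ (n k * m) = 1 + m * (a k * b) + (a k * b) ^ 2 * c := by exact_mod_cast hc
  set f := ⌊(2:ℝ) ^ (i + n k * m) * ys (k + 1)⌋ with hf
  refine ⟨m * 2 ^ (i + L (k + 1)) + a k * (2 ^ (i + L (k + 1)) * b * c - f), by simp, ?_⟩
  unfold Int.fract
  rw [← hf, pow_add, hc']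
  have ha : (a k : ℝ) ≠ 0 := by exact_mod_cast (a_pos k).ne'
  have hb0 : (b : ℝ) ≠ 0 := by
    have := a_pos (k + 1)
    rw [a_succ, hb] at this
    have h2 : b ≠ 0 := by rintro rfl; simp at this
    exact_mod_cast h2
  unfold ys
  rw [a_succ, hb]
  push_cast
  rw [pow_add]
  field_simp
  ring

lemma cnt_le (k κ : ℕ) (hκ : κ ≤ k) (w : Fin κ → Fin 2) :
    (cnt x⁻¹ (n k * a k) κ w : ℝ) ≤ n k * (a k / 2 ^ κ + 1) := by
  classical
  have hn : 0 < n k := by have := n_ge k; omega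
  have ha : (0:ℝ) < a k := by exact_mod_cast a_pos k
  unfold cnt
  set S := (Finset.range (n k * a k)).filter (fun j : ℕ => ∀ i : Fin κ,
    ⌊(2 : ℝ) ^ (j + i.val + 1) * x⁻¹⌋ % 2 = ((w i : ℕ) : ℤ)) with hS
  have hw : ∀ j ∈ S, j < n k * a k ∧ ∀ i : Fin κ,
      ⌊(2:ℝ) ^ (i.val + 1) * (2 ^ j * ys (k + 1))⌋ % 2 = ((w i : ℕ) : ℤ) := by
    intro j hj
    rw [hS, Finset.mem_filter, Finset.mem_range] at hj
    refine ⟨hj.1, fun i => ?_⟩
    rw [← hj.2 i, floor_eq (k + 1), ← mul_assoc, ← pow_add]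
    · congr 4; ring
    · have h1 := n_ge (k + 1)
      have h2 : n k * a k ≤ L (k + 1) * a (k + 1) := by
        refine Nat.mul_le_mul (by rw [L_succ]; omega) (Nat.le_of_dvd (a_pos _) ?_)
        rw [a_succ]; exact Dvd.intro _ rfl
      have := i.2
      have := hj.1
      omega
  rw [Finset.card_eq_sum_card_fiberwise (f := fun j => j % n k) (t := Finset.range (n k))
    (fun j _ => Finset.mem_coe.2 (Finset.mem_range.2 (Nat.mod_lt _ hn)))]
  push_cast
  refine le_trans (Finset.sum_le_sum (g := fun _ => (a k : ℝ) / 2 ^ κ + 1) fun i _ => ?_)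
    (by rw [Finset.sum_const, Finset.card_range, nsmul_eq_mul])
  choose t ht1 ht2 using tt k i
  have hj : ∀ j ∈ S.filter (fun j => j % n k = i), j = i + n k * (j / n k) ∧ j / n k < a k := by
    intro j hj
    rw [Finset.mem_filter] at hj
    refine ⟨by rw [← hj.2, Nat.mod_add_div], ?_⟩
    rw [Nat.div_lt_iff_lt_mul hn, mul_comm]; exact (hw j hj.1).1
  rw [← Finset.card_image_of_injOn (f := fun j => t (j / n k))]
  · refine card_le_of_diam _ _ (by positivity) fun s hs s' hs' => ?_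
    obtain ⟨j, h1, rfl⟩ := Finset.mem_image.1 hs
    obtain ⟨j', h2, rfl⟩ := Finset.mem_image.1 hs'
    have e1 := ht2 (j / n k)
    have e2 := ht2 (j' / n k)
    rw [← (hj j h1).1] at e1
    rw [← (hj j' h2).1] at e2
    have h3 := same_word (2 ^ j * ys (k + 1)) (2 ^ j' * ys (k + 1)) κ fun i hi =>
      ((hw j (Finset.mem_filter.1 h1).1).2 ⟨i, hi⟩).trans
        ((hw j' (Finset.mem_filter.1 h2).1).2 ⟨i, hi⟩).symm
    rw [lt_div_iff₀ (by positivity)]
    have h4 := mul_lt_mul_of_pos_left h3 ha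
    have h5 : ((t (j / n k) - t (j' / n k) : ℤ) : ℝ) =
        a k * (Int.fract (2 ^ j * ys (k + 1)) - Int.fract (2 ^ j' * ys (k + 1))) := by
      push_cast; linarith
    rw [h5]; linarith
  · intro j h1 j' h2 he
    simp only at he
    have d1 := dvd_sub (ht1 (j / n k)) (ht1 (j' / n k))
    rw [he] at d1
    have d2 : (a k : ℤ) ∣ (((j' / n k : ℕ) : ℤ) - (j / n k : ℕ)) * 2 ^ (i + L (k + 1)) := by
      have e : t (j' / n k) - ((j / n k : ℕ) : ℤ) * 2 ^ (i + L (k + 1)) -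
        (t (j' / n k) - ((j' / n k : ℕ) : ℤ) * 2 ^ (i + L (k + 1))) =
        (((j' / n k : ℕ) : ℤ) - (j / n k : ℕ)) * 2 ^ (i + L (k + 1)) := by ring
      rwa [e] at d1
    have cop : IsCoprime (a k : ℤ) (2 ^ (i + L (k + 1))) := by
      apply IsCoprime.pow_right
      have := Nat.isCoprime_iff_coprime.2 ((Nat.coprime_two_right).2 (a_odd k))
      exact_mod_cast this
    have d3 := cop.dvd_of_dvd_mul_right d2
    have b1 := (hj j h1).2
    have b2 := (hj j' h2).2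
    have c1 := (hj j h1).1
    have c2 := (hj j' h2).1
    generalize j / n k = u at *
    generalize j' / n k = v at *
    have d4 := Int.eq_zero_of_abs_lt_dvd d3 (by rw [abs_lt]; omega)
    have : u = v := by omega
    rw [c1, c2, this]

lemma sum_cnt (y : ℝ) (N κ : ℕ) : ∑ w : Fin κ → Fin 2, cnt y N κ w = N := by
  classical
  let f : ℕ → Fin κ → Fin 2 := fun j i =>
    ⟨(⌊(2 : ℝ) ^ (j + i.val + 1) * y⌋ % 2).toNat, by omega⟩
  have := Finset.card_eq_sum_card_fiberwise (f := f) (s := Finset.range N) (t := Finset.univ)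
    (fun j _ => Finset.mem_coe.2 (Finset.mem_univ _))
  rw [Finset.card_range] at this
  conv_rhs => rw [this]
  refine Finset.sum_congr rfl fun w _ => ?_
  unfold cnt
  congr 1
  ext j
  simp only [Finset.mem_filter, funext_iff, Fin.ext_iff, f]
  refine and_congr_right fun _ => forall_congr' fun i => ?_
  omega

theorem nondet (k κ : ℕ) (h1 : 1 ≤ κ) (hκ : κ + 1 ≤ k) :
    κ * Real.log (4 / 3) ≤ ent x⁻¹ (n k * a k) κ := by
  have hn : (0:ℝ) < n k := by have := n_ge k; exact_mod_cast (by omega : 0 < n k)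
  have ha : (0:ℝ) < a k := by exact_mod_cast a_pos k
  have hs : ∑ w : Fin κ → Fin 2, (cnt x⁻¹ (n k * a k) κ w : ℝ) / ((n k * a k : ℕ) : ℝ) = 1 := by
    rw [← Finset.sum_div, ← Nat.cast_sum, sum_cnt, div_self]
    push_cast; positivity
  rw [← one_mul (κ * Real.log (4 / 3)), ← hs, Finset.sum_mul]
  refine Finset.sum_le_sum fun w _ => ?_
  set p := (cnt x⁻¹ (n k * a k) κ w : ℝ) / ((n k * a k : ℕ) : ℝ) with hp
  have hp0 : 0 ≤ p := by positivity
  have hp1 : p ≤ (3 / 4) ^ κ := by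
    rw [hp, div_le_iff₀ (by push_cast; positivity)]
    refine le_trans (cnt_le k κ (by omega) w) ?_
    push_cast
    have h2 : (2:ℝ) ^ (κ + 1) ≤ a k := by
      have := le_trans (Nat.pow_le_pow_right (by norm_num : 0 < 2) hκ) (a_ge k)
      exact_mod_cast this
    have h3 : (3 / 2 : ℝ) ≤ (3 / 2) ^ κ := le_self_pow₀ (by norm_num) (by omega)
    have h4 : (3 / 4 : ℝ) ^ κ = (3 / 2) ^ κ / 2 ^ κ := by rw [← div_pow]; norm_num
    have h5 : (a k : ℝ) / 2 ^ κ + 1 ≤ (3 / 4) ^ κ * a k := by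
      rw [h4, div_add_one (by positivity), div_mul_eq_mul_div]
      refine div_le_div_of_nonneg_right ?_ (by positivity)
      rw [pow_succ] at h2
      nlinarith
    nlinarith
  rcases hp0.eq_or_lt with h | h
  · rw [← h]; simp
  · have h2 := Real.log_le_log h hp1
    rw [Real.log_pow, show (3 / 4 : ℝ) = (4 / 3)⁻¹ by norm_num, Real.log_inv] at h2
    unfold Real.negMulLog
    nlinarith

theorem main : (∀ ε : ℝ, 0 < ε → ∃ K : ℕ, ∃ N₀ : ℕ, ∀ N : ℕ, N₀ ≤ N →
      ∃ k : ℕ, 1 ≤ k ∧ k ≤ K ∧ ent x N k / (k : ℝ) < ε) ∧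
    ¬ (∀ ε : ℝ, 0 < ε → ∃ K : ℕ, ∃ N₀ : ℕ, ∀ N : ℕ, N₀ ≤ N →
      ∃ k : ℕ, 1 ≤ k ∧ k ≤ K ∧ ent x⁻¹ N k / (k : ℝ) < ε) := by
  constructor
  · intro ε hε
    obtain ⟨N0, h⟩ := eventually_atTop.1 (det_x.eventually (gt_mem_nhds hε))
    exact ⟨1, N0, fun N hN => ⟨1, le_rfl, le_rfl, by simpa using h N hN⟩⟩
  · intro h
    obtain ⟨K, N0, h⟩ := h (Real.log (4 / 3)) (Real.log_pos (by norm_num))
    obtain ⟨κ, h1, h2, h3⟩ := h (n (K + N0 + 1) * a (K + N0 + 1)) (by
      have := n_ge (K + N0 + 1)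
      have := Nat.le_mul_of_pos_right (n (K + N0 + 1)) (a_pos (K + N0 + 1))
      omega)
    have h4 := nondet (K + N0 + 1) κ h1 (by omega)
    rw [div_lt_iff₀ (by exact_mod_cast h1)] at h3
    linarith

end Pool.Agent.H98.Recip
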