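import Mathlib

/-! Maximal filters of bounded lattices; a density lemma; Noetherianity of `A ⊓ W ≠ ⊥`. -/

namespace Pool.Agent.H98.SL

open Cardinal Set Classical

universe u

section Lat
variable {L : Type u} [Lattice L] [BoundedOrder L]

def IsFil (S : Set L) : Prop :=
  ⊤ ∈ S ∧ ⊥ ∉ S ∧ (∀ U ∈ S, ∀ W, U ≤ W → W ∈ S) ∧ ∀ U ∈ S, ∀ W ∈ S, U ⊓ W ∈ S

lemma exists_max {S : Set L} (h : IsFil S) : ∃ T, S ⊆ T ∧ Maximal IsFil T := by
  refine zorn_subset_nonempty {S | IsFil S} (fun c hc hch ⟨x, hx⟩ => ⟨⋃₀ c, ⟨⟨x, hx, (hc hx).1⟩,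
    fun ⟨t, ht, h⟩ => (hc ht).2.1 h, fun U ⟨t, ht, h⟩ W e => ⟨t, ht, (hc ht).2.2.1 U h W e⟩,
    fun U ⟨t, ht, h⟩ W ⟨t', ht', h'⟩ => ?_⟩, fun s hs => subset_sUnion_of_mem hs⟩) S h
  rcases hch.total ht ht' with e | e
  exacts [⟨t', ht', (hc ht').2.2.2 U (e h) W h'⟩, ⟨t, ht, (hc ht).2.2.2 U h W (e h')⟩]

lemma lower {L' I A : Type u} [Lattice L'] [BoundedOrder L'] (φ : L' ≃o L) (U : I → A → L')
    (h1 : ∀ i a b, a ≠ b → U i a ⊓ U i b = ⊥)
    (h2 : ∀ (h : I → A) (T : Finset I), T.inf (fun i => U i (h i)) ≠ ⊥) :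
    #A ^ #I ≤ #{S : Set L // Maximal IsFil S} := by
  have : ∀ h : I → A, ∃ T : Set L, (∀ i, φ (U i (h i)) ∈ T) ∧ Maximal IsFil T := fun h => by
    obtain ⟨T, h3, h4⟩ := exists_max (S := {W | ∃ T : Finset I, φ (T.inf fun i => U i (h i)) ≤ W})
      ⟨⟨∅, le_top⟩, fun ⟨T, e⟩ => h2 h T (φ.injective ((le_bot_iff.1 e).trans φ.map_bot.symm)), fun _ ⟨T, e⟩ W e' => ⟨T, e.trans e'⟩,
        fun _ ⟨T, e⟩ W ⟨T', e'⟩ => ⟨T ∪ T', by
          rw [Finset.inf_union, φ.map_inf]; exact inf_le_inf e e'⟩⟩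
    exact ⟨T, fun i => h3 ⟨{i}, by simp⟩, h4⟩
  choose T h3 h4 using this
  rw [Cardinal.power_def]
  refine mk_le_of_injective (f := fun h => ⟨T h, h4 h⟩) fun g h e => funext fun i => ?_
  by_contra e'
  have := (h4 h).prop.2.2.2 _ ((Subtype.mk.inj e : T g = T h) ▸ h3 g i) _ (h3 h i)
  rw [← φ.map_inf, h1 i _ _ e', φ.map_bot] at this
  exact (h4 h).prop.2.1 this

lemma mem_iff {S : Set L} (h : Maximal IsFil S) (W : L) : W ∈ S ↔ ∀ U ∈ S, U ⊓ W ≠ ⊥ := by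
  refine ⟨fun hW U hU e => h.prop.2.1 (e ▸ h.prop.2.2.2 U hU W hW), fun H => ?_⟩
  refine h.le_of_ge (y := {X | ∃ U ∈ S, U ⊓ W ≤ X}) ⟨⟨⊤, h.prop.1, le_top⟩,
    fun ⟨U, hU, e⟩ => H U hU (le_bot_iff.1 e), fun _ ⟨U, hU, e⟩ _ e' => ⟨U, hU, e.trans e'⟩,
    fun _ ⟨U, hU, e⟩ _ ⟨U', hU', e'⟩ => ⟨_, h.prop.2.2.2 U hU U' hU', le_inf
      ((inf_le_inf_right _ inf_le_left).trans e) ((inf_le_inf_right _ inf_le_right).trans e')⟩⟩
    (fun U hU => ⟨U, hU, inf_le_left⟩) ⟨⊤, h.prop.1, inf_le_right⟩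
end Lat

/-- Well-founded trees branching over subsets of `K × ℕ`. -/
abbrev Tr (K : Type u) := WType fun a : Set (K × ℕ) => a

lemma card_Tr {K : Type u} [Infinite K] : #(Tr K) ≤ 2 ^ #K := by
  have h : #(K × ℕ) = #K := by simp
  have h2 : ℵ₀ ≤ 2 ^ #K := (aleph0_le_mk K).trans (cantor _).le
  refine WType.cardinalMk_le_of_le ((sum_le_sum _ (fun _ => 2 ^ #K) fun a => ?_).trans ?_)
  · rw [← power_mul, ← h]
    refine power_le_power_left two_ne_zero ((mul_le_mul_right (mk_set_le a) _).trans ?_)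
    rw [mul_eq_self (aleph0_le_mk _)]
  · rw [sum_const', mk_set, h, mul_eq_self h2]

lemma dense {X K Y : Type u} [Nonempty X] (r : K → X → Y → Prop)
    (hr : ∀ k (D : Set X), ∃ A ⊆ D, A.Finite ∧ ∀ y, (∀ a ∈ A, r k a y) → ∀ a ∈ D, r k a y) :
    ∃ e : Tr K → X, ∀ y, (∃ x, ∀ k, ¬ r k x y) → ∃ w, ∀ k, ¬ r k (e w) y := by
  let P : (Σ a : Set (K × ℕ), a → X) → X → Prop := fun p x =>
    ∀ k, ∃ y, (∀ j : p.1, j.1.1 = k → r k (p.2 j) y) ∧ ¬ r k x y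
  let e : Tr K → X := WType.elim X fun p => Classical.epsilon (P p)
  refine ⟨e, fun y ⟨x, hx⟩ => ?_⟩
  choose A h1 h2 h3 using fun k => hr k {d | d ∈ range e ∧ r k d y}
  choose g hg using fun k (h : (A k).Nonempty) => (h2 k).countable.exists_eq_range h
  have h4 : ∀ j : {j : K × ℕ | (A j.1).Nonempty}, g j.1.1 j.2 j.1.2 ∈ A j.1.1 := fun j => by
    rw [Set.ext_iff.1 (hg j.1.1 j.2)]; exact ⟨_, rfl⟩
  choose w hw using fun j => (h1 _ (h4 j)).1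
  refine ⟨⟨_, w⟩, fun k hk => ?_⟩
  obtain ⟨z, h5, h6⟩ : ∃ z, (∀ j, j.1.1 = k → r k (e (w j)) z) ∧ ¬ r k (e ⟨_, w⟩) z :=
    Classical.epsilon_spec (p := P ⟨_, fun j => e (w j)⟩) ⟨x, fun k => ⟨y, fun j e => by
      subst e; simpa only [hw] using (h1 _ (h4 j)).2, hx k⟩⟩ k
  refine h6 (h3 k z (fun a ha => ?_) _ ⟨⟨_, rfl⟩, hk⟩)
  obtain ⟨n, hn⟩ := (Set.ext_iff.1 (hg k ⟨a, ha⟩) a).1 ha
  simpa only [hw, hn] using h5 ⟨(k, n), ⟨a, ha⟩⟩ rfl

variable {F : Type*} [Field F] {E : Type*} [AddCommGroup E] [Module F E] [FiniteDimensional F E]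

lemma det_iff (A : Submodule F E) (p : Module.End F E) (h1 : ∀ x, p x ∈ A) (h2 : ∀ x ∈ A, p x = x)
    (m : Module.End F E) : A ⊓ LinearMap.ker m ≠ ⊥ ↔
      ∀ n : Module.End F E, LinearMap.det (n * m * p + (1 - p)) = 0 := by
  constructor
  · intro h n
    obtain ⟨x, ⟨h3, h4 : m x = 0⟩, h5⟩ := (Submodule.ne_bot_iff _).1 h
    exact LinearMap.det_eq_zero_iff_ker_ne_bot.2 ((Submodule.ne_bot_iff _).2
      ⟨x, by simp [h2 x h3, h4], h5⟩)
  · intro h e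
    obtain ⟨g, hg⟩ := (m.domRestrict A).exists_leftInverse_of_injective (by
      rw [Submodule.eq_bot_iff] at e ⊢
      exact fun x hx => Subtype.ext (e x ⟨x.2, hx⟩))
    have : A.subtype ∘ₗ g * m * p = p := LinearMap.ext fun x =>
      congrArg Subtype.val (LinearMap.congr_fun hg ⟨p x, h1 x⟩)
    simpa [this] using h (A.subtype ∘ₗ g)

lemma proj (A : Submodule F E) : ∃ p : Module.End F E, (∀ x, p x ∈ A) ∧ (∀ x ∈ A, p x = x) := by
  obtain ⟨g, hg⟩ := A.subtype.exists_leftInverse_of_injective A.ker_subtype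
  exact ⟨A.subtype ∘ₗ g, fun x => (g x).2, fun x hx =>
    congrArg Subtype.val (LinearMap.congr_fun hg ⟨x, hx⟩)⟩

open MvPolynomial in
lemma noeth {J : Type*} (A : J → Submodule F E) (D : Set J) : ∃ T ⊆ D, T.Finite ∧
    ∀ W, (∀ j ∈ T, A j ⊓ W ≠ ⊥) → ∀ j ∈ D, A j ⊓ W ≠ ⊥ := by
  let b := Module.finBasis F E
  let t := LinearMap.toMatrixAlgEquiv b
  choose p p1 p2 using fun j => proj (A j)
  let f : D × Module.End F E → MvPolynomial (_ × _) F := fun q =>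
    ((t q.2).map C * Matrix.of (fun i j => X (i, j)) * (t (p q.1)).map C + (t (1 - p q.1)).map C).det
  have hf : ∀ q m, eval (fun i => t m i.1 i.2) (f q) =
      LinearMap.det (q.2 * m * p q.1 + (1 - p q.1)) := fun q m => by
    rw [← LinearMap.det_toMatrix b, RingHom.map_det]
    change _ = (t _).det
    congr 1
    rw [map_add, map_add, map_mul, map_mul, map_mul, map_mul]
    congr 1
    congr 1
    congr 1
    all_goals ext; simp
  obtain ⟨s, h1, h2⟩ := (Submodule.fg_span_iff_fg_span_finset_subset 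
    (R := MvPolynomial (Fin (Module.finrank F E) × Fin (Module.finrank F E)) F)
    (range f)).1 (IsNoetherian.noetherian _)
  choose q hq using fun x : s => h1 x.2
  refine ⟨range fun x => (q x).1, by rintro _ ⟨x, rfl⟩; exact (q x).1.2, finite_range _,
    fun W h j hj => ?_⟩
  obtain ⟨m, m1, m2⟩ := proj W
  obtain rfl : W = LinearMap.ker (1 - m) := by
    ext x
    exact ⟨fun h => by simp [m2 x h], fun h => by
      rw [show x = m x by simpa [sub_eq_zero] using h]; exact m1 x⟩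
  refine (det_iff _ _ (p1 j) (p2 j) _).2 fun n => ?_
  rw [← hf (⟨j, hj⟩, n)]
  refine (show Submodule.span _ (range f) ≤ RingHom.ker (eval fun i => t (1 - m) i.1 i.2) from ?_)
    (Submodule.subset_span ⟨_, rfl⟩)
  rw [h2, Submodule.span_le]
  intro x hx
  have := (det_iff _ _ (p1 _) (p2 _) _).1 (h _ ⟨⟨x, hx⟩, rfl⟩) (q ⟨x, hx⟩).2
  rwa [← hf, hq] at this

end Pool.Agent.H98.SL
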