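import Mathlib

namespace Pool.Agent.H98.Sch

open MvPolynomial

/-- Abstract divided difference data. -/
structure DD (B : Type*) [CommRing B] where
  s : B →+* B
  t : B
  ht : t ≠ 0
  ss : ∀ f, s (s f) = f
  st : s t = -t
  dv : ∀ f, ∃ g, t * g = f - s f

namespace DD
variable {B B' : Type*} [CommRing B] [IsDomain B] [CommRing B'] [IsDomain B']

noncomputable def D (d : DD B) (f : B) : B := (d.dv f).choose

omit [IsDomain B] in
lemma spec (d : DD B) (f : B) : d.t * d.D f = f - d.s f := (d.dv f).choose_spec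

lemma uniq (d : DD B) {f g : B} (h : d.t * g = f - d.s f) : d.D f = g :=
  mul_left_cancel₀ d.ht (by rw [d.spec, h])

omit [IsDomain B] in
lemma nat (d : DD B) (d' : DD B') (φ : B →+ B') (h1 : ∀ f, φ (d.t * f) = d'.t * φ f)
    (h2 : ∀ f, φ (d.s f) = d'.s (φ f)) (f : B) : d'.D (φ f) = φ (d.D f) :=
  d'.uniq (by rw [← h1, d.spec, map_sub, h2])

lemma D_zero (d : DD B) : d.D 0 = 0 := d.uniq (by simp)

lemma D_add (d : DD B) (f g : B) : d.D (f + g) = d.D f + d.D g :=
  d.uniq (by rw [mul_add, d.spec, d.spec, map_add]; ring)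

lemma D_sym (d : DD B) {f : B} (h : d.s f = f) : d.D f = 0 := d.uniq (by simp [h])

lemma s_D (d : DD B) (f : B) : d.s (d.D f) = d.D f := by
  apply mul_left_cancel₀ d.ht
  have := congrArg d.s (d.spec f)
  rw [map_mul, d.st, map_sub, d.ss] at this
  rw [d.spec]; linear_combination -this

lemma DD_zero (d : DD B) (f : B) : d.D (d.D f) = 0 := d.D_sym (d.s_D f)

lemma comm (a b : DD B) (h : ∀ f, a.s (b.s f) = b.s (a.s f)) (h1 : a.s b.t = b.t)
    (h2 : b.s a.t = a.t) (f : B) : a.D (b.D f) = b.D (a.D f) := by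
  apply mul_left_cancel₀ a.ht
  apply mul_left_cancel₀ b.ht
  have e1 := a.spec (b.D f)
  have e2 := b.spec (a.D f)
  have e3 := congrArg a.s (b.spec f)
  have e4 := congrArg b.s (a.spec f)
  rw [map_mul, map_sub, h1] at e3
  rw [map_mul, map_sub, h2, ← h] at e4
  linear_combination b.t * e1 - a.t * e2 + b.spec f - a.spec f - e3 + e4

lemma br1 (a b : DD B) (h1 : a.s b.t = a.t + b.t) (h2 : b.s a.t = a.t + b.t) (f : B) :
    a.t * b.t * (a.t + b.t) * a.D (b.D (a.D f)) =
      f - a.s f - b.s f + b.s (a.s f) + a.s (b.s f) - a.s (b.s (a.s f)) := by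
  have e1 := a.spec f
  have e2 := b.spec (a.D f)
  have e3 := a.spec (b.D (a.D f))
  have e4 := congrArg b.s e1
  rw [map_mul, map_sub, h2] at e4
  have e5 := congrArg a.s e2
  rw [map_mul, map_sub, h1, a.s_D] at e5
  have e6 := congrArg a.s e4
  rw [map_mul, map_sub, map_add, h1, a.st] at e6
  linear_combination b.t * (a.t + b.t) * e3 + (a.t + b.t) * e2 - b.t * e5 + e1 - e4 + e6

lemma braid (a b : DD B) (h1 : a.s b.t = a.t + b.t) (h2 : b.s a.t = a.t + b.t)
    (h : ∀ f, a.s (b.s (a.s f)) = b.s (a.s (b.s f))) (f : B) :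
    a.D (b.D (a.D f)) = b.D (a.D (b.D f)) := by
  have hr : a.t + b.t ≠ 0 := by
    intro h0
    have := a.ss b.t
    rw [h1, h0, map_zero] at this
    exact b.ht this.symm
  apply mul_left_cancel₀ (mul_ne_zero (mul_ne_zero a.ht b.ht) hr)
  have e1 := br1 a b h1 h2 f
  have e2 := br1 b a (by rw [h2, add_comm]) (by rw [h1, add_comm]) f
  rw [e1, h]
  linear_combination -e2

end DD

lemma dv_of {S B : Type*} [CommRing S] [CommRing B] {σ : Type*} (ι : MvPolynomial σ S →+* B)
    (s : B →+* B) (t : B) (h1 : ∀ a, t ∣ ι (C a) - s (ι (C a)))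
    (h2 : ∀ n, t ∣ ι (X n) - s (ι (X n))) (f : MvPolynomial σ S) : t ∣ ι f - s (ι f) := by
  induction f using MvPolynomial.induction_on with
  | C a => exact h1 a
  | add p q hp hq =>
    have : ι (p + q) - s (ι (p + q)) = (ι p - s (ι p)) + (ι q - s (ι q)) := by
      simp only [map_add]; ring
    rw [this]; exact dvd_add hp hq
  | mul_X p n hp =>
    have : ι (p * X n) - s (ι (p * X n)) =
        (ι p - s (ι p)) * ι (X n) + s (ι p) * (ι (X n) - s (ι (X n))) := by
      simp only [map_mul]; ring
    rw [this]; exact dvd_add (hp.mul_right _) ((h2 n).mul_left _)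

abbrev sw (i : ℕ) : Equiv.Perm ℕ := Equiv.swap i (i + 1)

lemma sw_apply (i k : ℕ) : sw i k = if k = i then i + 1 else if k = i + 1 then i else k := by
  simp only [sw, Equiv.swap_apply_def]

/-- The divided difference data of the `i`-th simple transposition. -/
noncomputable def dX (S : Type*) [CommRing S] [IsDomain S] (i : ℕ) : DD (MvPolynomial ℕ S) where
  s := (rename (sw i)).toRingHom
  t := X i - X (i + 1)
  ht := sub_ne_zero.2 (fun h => by have := X_injective h; omega)
  ss f := by
    have : (sw i) ∘ (sw i) = id := by funext k; simp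
    simp [rename_rename, this]
  st := by simp
  dv f := by
    have := dv_of (RingHom.id (MvPolynomial ℕ S)) (rename (sw i)).toRingHom (X i - X (i + 1))
      (fun a => by simp) (fun n => by
        simp only [RingHom.id_apply, AlgHom.toRingHom_eq_coe, RingHom.coe_coe, rename_X, sw_apply]
        split_ifs with h1 h2
        · rw [h1]
        · rw [h2]; exact ⟨-1, by ring⟩
        · simp) f
    obtain ⟨g, hg⟩ := this
    exact ⟨g, hg.symm⟩

variable {S : Type*} [CommRing S] [IsDomain S]

lemma dX_s (i : ℕ) (f : MvPolynomial ℕ S) : (dX S i).s f = rename (sw i) f := rfl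

lemma dX_t (i : ℕ) : (dX S i).t = X i - X (i + 1) := rfl

lemma dX_comm {i j : ℕ} (h : i + 1 < j) (f : MvPolynomial ℕ S) :
    (dX S i).D ((dX S j).D f) = (dX S j).D ((dX S i).D f) := by
  apply DD.comm
  · intro f
    simp only [dX_s, rename_rename]
    congr 2; funext k
    simp only [Function.comp, sw_apply]; split_ifs <;> omega
  · simp only [dX_s, dX_t, map_sub, rename_X, sw_apply]
    rw [if_neg (by omega), if_neg (by omega), if_neg (by omega), if_neg (by omega)]
  · simp only [dX_s, dX_t, map_sub, rename_X, sw_apply]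
    rw [if_neg (by omega), if_neg (by omega), if_neg (by omega), if_neg (by omega)]

lemma dX_braid (i : ℕ) (f : MvPolynomial ℕ S) :
    (dX S i).D ((dX S (i + 1)).D ((dX S i).D f)) =
      (dX S (i + 1)).D ((dX S i).D ((dX S (i + 1)).D f)) := by
  apply DD.braid
  · simp only [dX_s, dX_t, map_sub, rename_X, sw_apply]
    rw [if_neg (by omega), if_pos trivial, if_neg (by omega), if_neg (by omega)]; ring
  · simp only [dX_s, dX_t, map_sub, rename_X, sw_apply]
    rw [if_neg (by omega), if_neg (by omega), if_pos trivial]; ring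
  · intro f
    simp only [dX_s, rename_rename]
    congr 2; funext k
    simp only [Function.comp, sw_apply]; split_ifs <;> omega

abbrev R := MvPolynomial ℕ ℤ

noncomputable def D (i : ℕ) (f : R) : R := (dX ℤ i).D f

noncomputable def Dw (v : List ℕ) (f : R) : R := v.foldr D f

noncomputable def ph (v : List ℕ) (f : R) : ℤ := constantCoeff (Dw v f)

noncomputable def DL (i : ℕ) : R →+ R := AddMonoidHom.mk' (D i) (dX ℤ i).D_add

lemma Dw_add (v : List ℕ) (f g : R) : Dw v (f + g) = Dw v f + Dw v g := by
  induction v with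
  | nil => rfl
  | cons i v ih =>
    show D i (Dw v (f + g)) = D i (Dw v f) + D i (Dw v g)
    rw [ih]; exact (dX ℤ i).D_add _ _

noncomputable def phL (v : List ℕ) : R →+ ℤ :=
  AddMonoidHom.mk' (ph v) fun f g => by simp [ph, Dw_add]

lemma Dw_zero (v : List ℕ) : Dw v 0 = 0 := by
  have := Dw_add v 0 0
  simpa using this

lemma Dw_append (u v : List ℕ) (f : R) : Dw (u ++ v) f = Dw u (Dw v f) := List.foldr_append

lemma deg_D (i : ℕ) (f : R) (h : D i f ≠ 0) : (D i f).totalDegree < f.totalDegree := by
  have e := (dX ℤ i).spec f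
  have h1 : ((dX ℤ i).t * D i f).totalDegree ≤ f.totalDegree := by
    unfold D; rw [e]
    exact (totalDegree_sub _ _).trans (max_le le_rfl (totalDegree_rename_le _ _))
  rw [totalDegree_mul_of_isDomain (dX ℤ i).ht h] at h1
  have h2 : 1 ≤ (dX ℤ i).t.totalDegree := by
    have : Finsupp.single i 1 ∈ (dX ℤ i).t.support := by
      have hc : ¬ (Finsupp.single (i + 1) 1 = Finsupp.single i 1) := by
        intro hc
        have := Finsupp.single_left_injective (one_ne_zero) hc
        omega
      rw [mem_support_iff, dX_t, coeff_sub, coeff_X', coeff_X', if_pos rfl, if_neg hc]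
      simp
    simpa using le_totalDegree this
  omega

lemma nil_exists (f : R) : ∀ v : List ℕ, f.totalDegree < v.length → Dw v f = 0 := by
  have : ∀ v : List ℕ, Dw v f = 0 ∨ (Dw v f).totalDegree + v.length ≤ f.totalDegree := by
    intro v
    induction v with
    | nil => exact Or.inr le_rfl
    | cons i v ih =>
      by_cases h : D i (Dw v f) = 0
      · exact Or.inl h
      · rcases ih with ih | ih
        · exact absurd (by rw [ih]; exact (dX ℤ i).D_zero) h
        · have := deg_D i _ h
          refine Or.inr ?_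
          show (D i (Dw v f)).totalDegree + (v.length + 1) ≤ _
          omega
  intro v hv
  rcases this v with h | h
  · exact h
  · omega

noncomputable def Rk (i : ℕ) : R →ₐ[ℤ] R :=
  aeval fun k => if k < i then X k else if k = i then 0 else X (k - 1)

lemma Rk_X (i k : ℕ) : Rk i (X k) = if k < i then X k else if k = i then 0 else X (k - 1) :=
  aeval_X _ _

lemma Rk_step (i : ℕ) (f : R) : Rk (i + 1) f = Rk i f + X i * Rk (i + 1) (D i f) := by
  have e := congrArg (Rk (i + 1)) ((dX ℤ i).spec f)
  have h : (Rk (i + 1)).comp (rename (sw i)) = Rk i := by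
    ext1 k
    simp only [AlgHom.comp_apply, rename_X, Rk_X, sw_apply]
    split_ifs <;> first | rfl | omega | (congr 1; omega)
  rw [map_mul, map_sub, dX_s, dX_t, map_sub, Rk_X, Rk_X, if_pos (by omega), if_neg (by omega),
    if_pos rfl, ← AlgHom.comp_apply, h] at e
  unfold D
  linear_combination -e

lemma R0_D (i : ℕ) (f : R) : D i (Rk 0 f) = Rk 0 (D (i + 1) f) := by
  refine DD.nat (dX ℤ (i + 1)) (dX ℤ i) (Rk 0).toRingHom.toAddMonoidHom ?_ ?_ f
  · intro g
    show Rk 0 (_ * g) = _ * Rk 0 g
    rw [map_mul, dX_t, dX_t, map_sub, Rk_X, Rk_X]; simp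
  · intro g
    have h : (Rk 0).comp (rename (sw (i + 1))) = (rename (sw i)).comp (Rk 0) := by
      ext1 k
      simp only [AlgHom.comp_apply, rename_X, Rk_X, sw_apply]
      rcases k with _ | k
      · simp
      · simp only [Nat.not_lt_zero, if_false, Nat.add_eq_zero_iff, one_ne_zero, and_false,
          Nat.add_sub_cancel, rename_X, sw_apply]
        split_ifs <;> first | rfl | omega | contradiction | (congr 1; omega)
    exact AlgHom.congr_fun h g

lemma R0_Dw (v : List ℕ) (f : R) : Dw v (Rk 0 f) = Rk 0 (Dw (v.map (· + 1)) f) := by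
  induction v with
  | nil => rfl
  | cons i v ih =>
    show D i (Dw v (Rk 0 f)) = Rk 0 (D (i + 1) (Dw (v.map (· + 1)) f))
    rw [ih, R0_D]

lemma cc_Rk (i : ℕ) (f : R) : constantCoeff (Rk i f) = constantCoeff f := by
  induction f using MvPolynomial.induction_on with
  | C a => simp [Rk]
  | add p q hp hq => simp [hp, hq]
  | mul_X p n hp =>
    rw [map_mul, map_mul, map_mul, Rk_X]
    split_ifs <;> simp

noncomputable def Pos : Subsemiring R := Subsemiring.closure (Set.range X)

lemma X_pos (k : ℕ) : (X k : R) ∈ Pos := Subsemiring.subset_closure ⟨k, rfl⟩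

lemma Rk_pos (i : ℕ) {f : R} (h : f ∈ Pos) : Rk i f ∈ Pos := by
  induction h using Subsemiring.closure_induction with
  | mem x hx =>
    obtain ⟨k, rfl⟩ := hx
    rw [Rk_X]; split_ifs
    exacts [X_pos _, zero_mem _, X_pos _]
  | zero => simp
  | one => simp
  | add x y _ _ hx hy => rw [map_add]; exact add_mem hx hy
  | mul x y _ _ hx hy => rw [map_mul]; exact mul_mem hx hy

lemma pos_coeff {f : R} (h : f ∈ Pos) : ∀ m, 0 ≤ coeff m f := by
  classical
  induction h using Subsemiring.closure_induction with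
  | mem x hx =>
    obtain ⟨k, rfl⟩ := hx
    intro m; rw [coeff_X']; split_ifs <;> simp
  | zero => simp
  | one => intro m; rw [coeff_one]; split_ifs <;> simp
  | add x y _ _ hx hy => intro m; rw [coeff_add]; exact add_nonneg (hx m) (hy m)
  | mul x y _ _ hx hy =>
    intro m; rw [coeff_mul]
    exact Finset.sum_nonneg fun p _ => mul_nonneg (hx _) (hy _)

lemma sup_fix {N : ℕ} {f : R} (h : f ∈ supported ℤ (Set.Iio N)) : Rk N f = f := by
  rw [supported_eq_adjoin_X] at h
  induction h using Algebra.adjoin_induction with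
  | mem x hx =>
    obtain ⟨k, hk, rfl⟩ := hx
    rw [Rk_X, if_pos (show k < N from hk)]
  | algebraMap r => exact (Rk N).commutes r
  | add x y _ _ hx hy => rw [map_add, hx, hy]
  | mul x y _ _ hx hy => rw [map_mul, hx, hy]

lemma sup_R0 {N : ℕ} {f : R} (h : f ∈ supported ℤ (Set.Iio (N + 1))) :
    Rk 0 f ∈ supported ℤ (Set.Iio N) := by
  rw [supported_eq_adjoin_X] at h
  induction h using Algebra.adjoin_induction with
  | mem x hx =>
    obtain ⟨k, hk, rfl⟩ := hx
    rw [Rk_X, if_neg (by omega)]
    split_ifs with h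
    · exact zero_mem _
    · exact X_mem_supported.2 (by simp at hk ⊢; omega)
  | algebraMap r => rw [(Rk 0).commutes r]; exact Subalgebra.algebraMap_mem _ _
  | add x y _ _ hx hy => rw [map_add]; exact add_mem hx hy
  | mul x y _ _ hx hy => rw [map_mul]; exact mul_mem hx hy

lemma pos_aux (d : ℕ) : ∀ N (f : R), f ∈ supported ℤ (Set.Iio N) →
    (∀ v : List ℕ, d ≤ v.length → Dw v f = 0) → (∀ v, 0 ≤ ph v f) → f ∈ Pos := by
  induction d with
  | zero =>
    intro N f _ h _
    have : f = 0 := h [] le_rfl
    rw [this]; exact zero_mem _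
  | succ d ihd =>
    intro N
    induction N with
    | zero =>
      intro f hf _ hp
      have h0 : Set.Iio (0 : ℕ) = ∅ := by ext; simp
      rw [h0, supported_empty, Algebra.mem_bot] at hf
      obtain ⟨c, rfl⟩ := hf
      have : 0 ≤ c := by simpa [ph, Dw] using hp []
      obtain ⟨n, rfl⟩ := Int.eq_ofNat_of_zero_le this
      simp
    | succ N ihN =>
      intro f hf hn hp
      have hD : ∀ i, D i f ∈ Pos := by
        intro i
        obtain ⟨M, hM⟩ := (D i f).vars.bddAbove
        refine ihd (M + 1) _ (mem_supported.2 fun k hk => Nat.lt_succ_of_le (hM hk)) ?_ ?_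
        · intro v hv
          have := hn (v ++ [i]) (by simp; omega)
          rwa [Dw_append] at this
        · intro v
          have := hp (v ++ [i])
          rwa [ph, Dw_append] at this
      have h0 : Rk 0 f ∈ Pos := by
        refine ihN _ (sup_R0 hf) (fun v hv => ?_) fun v => ?_
        · rw [R0_Dw, hn _ (by simpa using hv), map_zero]
        · rw [ph, R0_Dw, cc_Rk]; exact hp _
      have : ∀ k, Rk k f ∈ Pos := by
        intro k
        induction k with
        | zero => exact h0
        | succ k ih => rw [Rk_step]; exact add_mem ih (mul_mem (X_pos _) (Rk_pos _ (hD k)))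
      rw [← sup_fix hf]; exact this _

/-- Schubert-positive polynomials are monomial-positive. -/
lemma pos_of {f : R} (hp : ∀ v, 0 ≤ ph v f) : ∀ m, 0 ≤ coeff m f := by
  obtain ⟨M, hM⟩ := f.vars.bddAbove
  exact pos_coeff (pos_aux (f.totalDegree + 1) (M + 1) f
    (mem_supported.2 fun k hk => Nat.lt_succ_of_le (hM hk)) (fun v hv => nil_exists f v hv) hp)

lemma sep {f g : R} (h : ∀ v, ph v f = ph v g) : f = g := by
  have h1 : ∀ v, phL v (f - g) = 0 := fun v => by rw [map_sub]; exact sub_eq_zero.2 (h v)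
  have h2 : ∀ v, phL v (g - f) = 0 := fun v => by rw [map_sub]; exact sub_eq_zero.2 (h v).symm
  ext m
  have a := pos_of (f := f - g) (fun v => (h1 v).ge) m
  have b := pos_of (f := g - f) (fun v => (h2 v).ge) m
  rw [coeff_sub] at a b
  omega

end Pool.Agent.H98.Sch
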