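import Pool.Agent.H98.Sch1

namespace Pool.Agent.H98.Sch

open MvPolynomial Finset

def len (n : ℕ) (w : Equiv.Perm ℕ) : ℕ :=
  ((range n ×ˢ range n).filter fun p => p.1 < p.2 ∧ w p.2 < w p.1).card

lemma len_le (n : ℕ) (w : Equiv.Perm ℕ) : len n w ≤ n * n :=
  (card_filter_le _ _).trans (by simp)

lemma mul_sw (w : Equiv.Perm ℕ) (i : ℕ) : w * sw i * sw i = w := by
  rw [mul_assoc, Equiv.swap_mul_self, mul_one]

lemma ws_apply (w : Equiv.Perm ℕ) (i k : ℕ) :
    (w * sw i) k = if k = i then w (i + 1) else if k = i + 1 then w i else w k := by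
  rw [Equiv.Perm.mul_apply, sw_apply]; split_ifs <;> rfl

lemma len_asc {n i : ℕ} {w : Equiv.Perm ℕ} (hi : i + 1 < n) (h : w i < w (i + 1)) :
    len n (w * sw i) = len n w + 1 := by
  unfold len
  rw [← card_insert_of_notMem (a := (i + 1, i)) (by simp)]
  refine card_nbij' (fun p => (sw i p.1, sw i p.2)) (fun p => (sw i p.1, sw i p.2)) ?_ ?_ ?_ ?_
  · rintro ⟨p, q⟩ hp
    simp only [coe_filter, mem_product, mem_range, Set.mem_setOf_eq, Equiv.Perm.mul_apply,
      coe_insert, Set.mem_insert_iff, Prod.mk.injEq] at hp ⊢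
    obtain ⟨⟨h1, h2⟩, h3, h4⟩ := hp
    simp only [h4, and_true]
    simp only [sw_apply]
    split_ifs <;> omega
  · rintro ⟨p, q⟩ hp
    simp only [coe_filter, mem_product, mem_range, Set.mem_setOf_eq, Equiv.Perm.mul_apply,
      coe_insert, Set.mem_insert_iff, Prod.mk.injEq, Equiv.swap_apply_self] at hp ⊢
    rcases hp with ⟨rfl, rfl⟩ | ⟨⟨h1, h2⟩, h3, h4⟩
    · simp [h]; omega
    · simp only [h4, and_true]
      have : ¬ (p = i ∧ q = i + 1) := by rintro ⟨rfl, rfl⟩; omega
      simp only [sw_apply]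
      split_ifs <;> omega
  · rintro ⟨p, q⟩ _; simp
  · rintro ⟨p, q⟩ _; simp

lemma len_desc {n i : ℕ} {w : Equiv.Perm ℕ} (hi : i + 1 < n) (h : w (i + 1) < w i) :
    len n (w * sw i) + 1 = len n w := by
  rw [← len_asc (w := w * sw i) hi (by simpa [ws_apply] using h), mul_sw]

lemma ne_succ (w : Equiv.Perm ℕ) (i : ℕ) : w i ≠ w (i + 1) := fun h => by
  have := w.injective h; omega

lemma len_iff {n i : ℕ} {w : Equiv.Perm ℕ} (hi : i + 1 < n) :
    len n (w * sw i) + 1 = len n w ↔ w (i + 1) < w i := by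
  refine ⟨fun h => ?_, len_desc hi⟩
  by_contra hc
  have := len_asc hi (lt_of_le_of_ne (not_lt.1 hc) (ne_succ w i))
  omega

noncomputable def dl (n : ℕ) : R := ∏ i ∈ range n, X i ^ (n - 1 - i)

def Fx (n : ℕ) (w : Equiv.Perm ℕ) : Prop := ∀ i, n ≤ i → w i = i

inductive Sc (n : ℕ) : Equiv.Perm ℕ → R → Prop
  | top (w : Equiv.Perm ℕ) (h1 : ∀ i < n, w i = n - 1 - i) (h2 : Fx n w) : Sc n w (dl n)
  | step (w : Equiv.Perm ℕ) (f : R) (i : ℕ) (hi : i + 1 < n) (hd : w (i + 1) < w i)
      (hf : Sc n w f) : Sc n (w * sw i) (D i f)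

lemma Fx.mul {n i : ℕ} {w : Equiv.Perm ℕ} (h : Fx n w) (hi : i + 1 < n) : Fx n (w * sw i) := by
  intro k hk
  rw [ws_apply, if_neg (by omega), if_neg (by omega), h k hk]

lemma Fx.lt {n i : ℕ} {w : Equiv.Perm ℕ} (h : Fx n w) (hi : i < n) : w i < n := by
  by_contra hc
  have := w.injective (h (w i) (by omega))
  omega

lemma Sc.fx {n : ℕ} {w : Equiv.Perm ℕ} {f : R} (h : Sc n w f) : Fx n w := by
  induction h with
  | top w h1 h2 => exact h2
  | step w f i hi hd hf ih => exact ih.mul hi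

lemma no_asc {n : ℕ} {w : Equiv.Perm ℕ} (h : Fx n w) (hd : ∀ i, i + 1 < n → w (i + 1) < w i) :
    ∀ i < n, w i = n - 1 - i := by
  have a : ∀ i, i < n → w i + i < n := by
    intro i
    induction i with
    | zero => intro hi; simpa using h.lt hi
    | succ i ih => intro hi; have := ih (by omega); have := hd i hi; omega
  have b : ∀ k i, i + k + 1 = n → k ≤ w i := by
    intro k
    induction k with
    | zero => intro i _; omega
    | succ k ih => intro i hi; have := ih (i + 1) (by omega); have := hd i (by omega); omega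
  intro i hi
  have := a i hi
  have := b (n - 1 - i) i (by omega)
  omega

lemma up_ind {n : ℕ} (P : Equiv.Perm ℕ → Prop)
    (h : ∀ w, (∀ i, i + 1 < n → w i < w (i + 1) → P (w * sw i)) → P w) (w : Equiv.Perm ℕ) :
    P w := by
  induction hk : n * n - len n w using Nat.strong_induction_on generalizing w with
  | _ k ih =>
    refine h w fun i hi ha => ih (n * n - len n (w * sw i)) ?_ _ rfl
    have := len_asc hi ha
    have := len_le n (w * sw i)
    omega

lemma down_ind {n : ℕ} (P : Equiv.Perm ℕ → Prop)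
    (h : ∀ w, (∀ i, i + 1 < n → w (i + 1) < w i → P (w * sw i)) → P w) (w : Equiv.Perm ℕ) :
    P w := by
  induction hk : len n w using Nat.strong_induction_on generalizing w with
  | _ k ih =>
    refine h w fun i hi ha => ih (len n (w * sw i)) ?_ _ rfl
    have := len_desc hi ha
    omega

lemma Sc.up {n i : ℕ} {w : Equiv.Perm ℕ} {f : R} (hi : i + 1 < n) (ha : w i < w (i + 1))
    (h : Sc n (w * sw i) f) : Sc n w (D i f) := by
  have := Sc.step _ _ i hi (by simpa [ws_apply] using ha) h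
  rwa [mul_sw] at this

lemma exi {n : ℕ} (w : Equiv.Perm ℕ) : Fx n w → ∃ f, Sc n w f := by
  refine up_ind (n := n) (fun w => Fx n w → ∃ f, Sc n w f) ?_ w
  intro w ih hw
  by_cases h : ∃ i, i + 1 < n ∧ w i < w (i + 1)
  · obtain ⟨i, hi, ha⟩ := h
    obtain ⟨f, hf⟩ := ih i hi ha (hw.mul hi)
    exact ⟨_, hf.up hi ha⟩
  · push Not at h
    exact ⟨_, Sc.top w (no_asc hw fun i hi => lt_of_le_of_ne (h i hi) (ne_succ w i).symm) hw⟩

lemma Sc.inv {n : ℕ} {w : Equiv.Perm ℕ} {f : R} (h : Sc n w f) :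
    ((∀ i < n, w i = n - 1 - i) ∧ f = dl n) ∨
      ∃ i g, i + 1 < n ∧ w i < w (i + 1) ∧ Sc n (w * sw i) g ∧ f = D i g := by
  cases h with
  | top w h1 h2 => exact Or.inl ⟨h1, rfl⟩
  | step w f i hi hd hf =>
    exact Or.inr ⟨i, f, hi, by simpa [ws_apply] using hd, by rwa [mul_sw], rfl⟩

lemma uni {n : ℕ} (w : Equiv.Perm ℕ) : ∀ f g, Sc n w f → Sc n w g → f = g := by
  refine up_ind (n := n) (fun w => ∀ f g, Sc n w f → Sc n w g → f = g) ?_ w
  intro w ih f g hf hg
  have hw := hf.fx
  have key : ∀ i j f' g', i < j → j + 1 < n → w i < w (i + 1) → w j < w (j + 1) →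
      Sc n (w * sw i) f' → Sc n (w * sw j) g' → D i f' = D j g' := by
    intro i j f' g' hij hj hi' hj' hf' hg'
    have hi : i + 1 < n := by omega
    rcases Nat.lt_or_ge (i + 1) j with h | h
    · obtain ⟨u, hu⟩ := exi (w * sw i * sw j) ((hw.mul hi).mul hj)
      have e : w * sw i * sw j = w * sw j * sw i := by
        ext k; simp only [ws_apply]; split_ifs <;> first | rfl | omega
      have a := hu.up hj (by
        rw [ws_apply, ws_apply, if_neg (by omega), if_neg (by omega), if_neg (by omega),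
          if_neg (by omega)]; exact hj')
      rw [e] at hu
      have b := hu.up hi (by
        rw [ws_apply, ws_apply, if_neg (by omega), if_neg (by omega), if_neg (by omega),
          if_neg (by omega)]; exact hi')
      rw [ih i hi hi' _ _ hf' a, ih j hj hj' _ _ hg' b]
      exact dX_comm h u
    · obtain rfl : j = i + 1 := by omega
      obtain ⟨u, hu⟩ := exi (w * sw i * sw (i + 1) * sw i) (((hw.mul hi).mul hj).mul hi)
      have e : w * sw i * sw (i + 1) * sw i = w * sw (i + 1) * sw i * sw (i + 1) := by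
        ext k; simp only [ws_apply]; split_ifs <;> first | rfl | omega
      have a := (hu.up hi (by simp only [ws_apply]; split_ifs <;> omega)).up hj
        (by simp only [ws_apply]; split_ifs <;> omega)
      rw [e] at hu
      have b := (hu.up hj (by simp only [ws_apply]; split_ifs <;> omega)).up hi
        (by simp only [ws_apply]; split_ifs <;> omega)
      rw [ih i hi hi' _ _ hf' a, ih (i + 1) hj hj' _ _ hg' b]
      exact dX_braid i u
  rcases hf.inv with ⟨h1, rfl⟩ | ⟨i, f', hi, hi', hf', rfl⟩ <;>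
    rcases hg.inv with ⟨h2, rfl⟩ | ⟨j, g', hj, hj', hg', rfl⟩
  · rfl
  · rw [h1 j (by omega), h1 (j + 1) hj] at hj'; omega
  · rw [h2 i (by omega), h2 (i + 1) hi] at hi'; omega
  · rcases lt_trichotomy i j with h | rfl | h
    · exact key i j _ _ h hj hi' hj' hf' hg'
    · rw [ih i hi hi' _ _ hf' hg']
    · exact (key j i _ _ h hi hj' hi' hg' hf').symm

lemma w0_ex (n : ℕ) : ∃ w : Equiv.Perm ℕ, (∀ i < n, w i = n - 1 - i) ∧ Fx n w := by
  have : Function.Involutive fun i => if i < n then n - 1 - i else i := by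
    intro i; simp only; split_ifs <;> omega
  refine ⟨this.toPerm, fun i hi => ?_, fun i hi => ?_⟩
  · simp [hi]
  · simp [not_lt.2 hi]

lemma D_Xmul {i : ℕ} {g : R} (h : rename (sw i) g = g) : D i (X i * g) = g :=
  (dX ℤ i).uniq (by rw [dX_s, dX_t, map_mul, h, rename_X, sw_apply, if_pos rfl]; ring)

lemma stab_top (n k : ℕ) (hk : k ≤ n) : ∃ u : Equiv.Perm ℕ,
    (∀ i, u i = if i < k then n - 1 - i else if i = k then n else if i ≤ n then n - i else i) ∧
    Sc (n + 1) u (∏ i ∈ range (n + 1), X i ^ (if i < k then n - 1 - i else n - i)) := by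
  induction k with
  | zero =>
    obtain ⟨w, h1, h2⟩ := w0_ex (n + 1)
    refine ⟨w, fun i => ?_, ?_⟩
    · by_cases hi : i < n + 1
      · rw [h1 i hi]; split_ifs <;> omega
      · rw [h2 i (by omega)]; split_ifs <;> omega
    · simpa [dl] using Sc.top w h1 h2
  | succ k ih =>
    obtain ⟨u, h1, h2⟩ := ih (by omega)
    refine ⟨u * sw k, fun i => ?_, ?_⟩
    · simp only [ws_apply, h1]; split_ifs <;> omega
    · have := Sc.step u _ k (by omega) (by simp only [h1]; split_ifs <;> omega) h2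
      have e : (∏ i ∈ range (n + 1), (X i : R) ^ (if i < k then n - 1 - i else n - i)) =
          X k * ∏ i ∈ range (n + 1), X i ^ (if i < k + 1 then n - 1 - i else n - i) := by
        have hm : k ∈ range (n + 1) := mem_range.2 (by omega)
        rw [← mul_prod_erase _ _ hm, ← mul_prod_erase _ _ hm, ← mul_assoc, ← pow_succ',
          if_neg (by omega), if_pos (by omega), show n - 1 - k + 1 = n - k by omega]
        congr 1
        refine prod_congr rfl fun i hi => ?_
        have := (mem_erase.1 hi).1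
        congr 1
        split_ifs <;> omega
      rw [e, D_Xmul] at this
      · exact this
      · rw [map_prod]
        refine prod_equiv (sw k) (fun i => ?_) fun i hi => ?_
        · simp only [mem_range, sw_apply]; split_ifs <;> omega
        · rw [map_pow, rename_X]
          congr 1
          simp only [sw_apply]; split_ifs <;> omega

lemma Sc.succ {n : ℕ} {w : Equiv.Perm ℕ} {f : R} (h : Sc n w f) : Sc (n + 1) w f := by
  induction h with
  | top w h1 h2 =>
    obtain ⟨u, hu, hs⟩ := stab_top n n le_rfl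
    have e : u = w := by
      ext i
      rw [hu]
      by_cases hi : i < n
      · rw [h1 i hi, if_pos hi]
      · rw [h2 i (by omega)]; split_ifs <;> omega
    rw [e, prod_range_succ, if_neg (lt_irrefl n), Nat.sub_self, pow_zero, mul_one] at hs
    rwa [prod_congr rfl fun i hi => by rw [if_pos (mem_range.1 hi)]] at hs
  | step w f i hi hd hf ih => exact Sc.step w f i (by omega) hd ih

lemma Sc.mono {n m : ℕ} {w : Equiv.Perm ℕ} {f : R} (h : Sc n w f) (hm : n ≤ m) : Sc m w f := by
  induction hm with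
  | refl => exact h
  | step _ ih => exact ih.succ

def SI (w : Equiv.Perm ℕ) (f : R) : Prop := ∃ n, Sc n w f

lemma SI.uni {w : Equiv.Perm ℕ} {f g : R} (hf : SI w f) (hg : SI w g) : f = g := by
  obtain ⟨n, hn⟩ := hf
  obtain ⟨m, hm⟩ := hg
  exact Sch.uni w _ _ (hn.mono (Nat.le_add_right n m)) (hm.mono (Nat.le_add_left m n))

lemma SI.one {f : R} (hf : SI 1 f) : f = 1 :=
  hf.uni ⟨0, by simpa [dl] using Sc.top (n := 0) 1 (by simp) (fun _ _ => rfl)⟩

lemma SI.D {w : Equiv.Perm ℕ} {f : R} (hf : SI w f) (i : ℕ) :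
    D i f = 0 ∨ SI (w * sw i) (D i f) := by
  obtain ⟨n, hn⟩ := hf
  have h := hn.mono (show n ≤ n + i + 2 by omega)
  rcases lt_or_gt_of_ne (ne_succ w i) with ha | hd
  · obtain ⟨g, hg⟩ := exi (w * sw i) (h.fx.mul (show i + 1 < n + i + 2 by omega))
    left
    rw [Sch.uni w _ _ h (hg.up (by omega) ha)]
    exact (dX ℤ i).DD_zero g
  · exact Or.inr ⟨_, Sc.step w f i (by omega) hd h⟩

def pw (v : List ℕ) : Equiv.Perm ℕ := v.foldr (fun i p => p * sw i) 1

lemma SI.Dw {w : Equiv.Perm ℕ} {f : R} (hf : SI w f) (v : List ℕ) :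
    Dw v f = 0 ∨ SI (w * pw v) (Dw v f) := by
  induction v with
  | nil => exact Or.inr (by simpa [pw, Sch.Dw] using hf)
  | cons i v ih =>
    rcases ih with h | h
    · left
      show Sch.D i (Sch.Dw v f) = 0
      rw [h]; exact (dX ℤ i).D_zero
    · have := h.D i
      rwa [mul_assoc] at this

noncomputable def sg : R →ₐ[ℤ] R := aeval fun k => 2 * X k

lemma sg_D (i : ℕ) (f : R) : D i (sg f) = 2 * sg (D i f) := by
  apply (dX ℤ i).uniq
  have e := congrArg sg ((dX ℤ i).spec f)
  have h : sg.comp (rename (sw i)) = (rename (sw i)).comp sg := by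
    ext1 k; simp [sg, map_ofNat]
  have h' : sg (rename (sw i) f) = rename (sw i) (sg f) := AlgHom.congr_fun h f
  rw [map_mul, map_sub, dX_s, dX_t, h'] at e
  rw [dX_s, dX_t, ← e]
  simp only [sg, map_sub, aeval_X, D]; ring

lemma D_pow (i k : ℕ) (f : R) : D i (2 ^ k * f) = 2 ^ k * D i f := by
  apply (dX ℤ i).uniq
  have e := (dX ℤ i).spec f
  rw [dX_s] at e
  rw [dX_s, map_mul, map_pow, map_ofNat]
  unfold D
  linear_combination (2 ^ k) * e

lemma Sc.hom {n : ℕ} {w : Equiv.Perm ℕ} {f : R} (h : Sc n w f) :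
    ∃ a b : ℕ, 2 ^ a * sg f = 2 ^ b * f := by
  induction h with
  | top w h1 h2 =>
    refine ⟨0, ∑ i ∈ range n, (n - 1 - i), ?_⟩
    simp [dl, sg, map_prod, mul_pow, prod_mul_distrib, prod_pow_eq_pow_sum]
  | step w f i hi hd hf ih =>
    obtain ⟨a, b, h⟩ := ih
    refine ⟨a + 1, b, ?_⟩
    have := congrArg (D i) h
    rw [D_pow, D_pow, sg_D] at this
    rw [← this]; ring

lemma Sc.fix {n : ℕ} (w : Equiv.Perm ℕ) :
    ∀ (f : R) (k : ℕ), Sc n w f → 2 ^ k * sg f = f → k = 0 ∧ w = 1 := by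
  refine down_ind (n := n) (fun w => ∀ (f : R) (k : ℕ), Sc n w f → 2 ^ k * sg f = f →
    k = 0 ∧ w = 1) ?_ w
  intro w ih f k hf hk
  by_cases h : ∃ i, i + 1 < n ∧ w (i + 1) < w i
  · obtain ⟨i, hi, hd⟩ := h
    have := congrArg (D i) hk
    rw [D_pow, sg_D, ← mul_assoc, ← pow_succ] at this
    exact absurd (ih i hi hd _ _ (Sc.step w f i hi hd hf) this).1 (by omega)
  · push Not at h
    have hm : StrictMono w := by
      refine strictMono_nat_of_lt_succ fun i => ?_
      rcases Nat.lt_or_ge (i + 1) n with hi | hi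
      · exact lt_of_le_of_ne (h i hi) (ne_succ w i)
      · rw [hf.fx (i + 1) hi]
        rcases Nat.lt_or_ge i n with h2 | h2
        · have := hf.fx.lt h2; omega
        · rw [hf.fx i h2]; omega
    have hw : w = 1 := by
      ext i
      have a : i ≤ w i := hm.le_apply
      have hm' : StrictMono w.symm := fun x y hxy => hm.lt_iff_lt.1 (by simpa using hxy)
      have b : w i ≤ w.symm (w i) := hm'.le_apply
      simp at b ⊢; omega
    subst hw
    rw [SI.one ⟨n, hf⟩, map_one, mul_one] at hk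
    refine ⟨?_, rfl⟩
    have := congrArg (constantCoeff : R →+* ℤ) hk
    rw [map_pow, map_ofNat, map_one] at this
    exact Nat.pow_right_injective (le_refl 2) (by exact_mod_cast this)

lemma cc_sg (f : R) : constantCoeff (sg f) = constantCoeff f := by
  induction f using MvPolynomial.induction_on with
  | C a => simp [sg]
  | add p q hp hq => simp [hp, hq]
  | mul_X p n hp => simp [sg]

lemma SI.cc {w : Equiv.Perm ℕ} {f : R} (hf : SI w f) (h : constantCoeff f ≠ 0) : w = 1 := by
  obtain ⟨n, hn⟩ := hf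
  obtain ⟨a, b, hab⟩ := hn.hom
  have := congrArg (constantCoeff : R →+* ℤ) hab
  rw [map_mul, map_mul, cc_sg, map_pow, map_pow, map_ofNat] at this
  have e : a = b := Nat.pow_right_injective (le_refl 2) (by exact_mod_cast mul_right_cancel₀ h this)
  subst e
  exact (Sc.fix w f 0 hn (by simpa using mul_left_cancel₀ (pow_ne_zero a two_ne_zero) hab)).2

lemma SI.ne {w : Equiv.Perm ℕ} {f : R} (hf : SI w f) : f ≠ 0 := by
  rintro rfl
  obtain ⟨n, hn⟩ := hf
  exact absurd (Sc.fix w 0 1 hn (by simp)).1 one_ne_zero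

lemma SI.ph {w : Equiv.Perm ℕ} {f : R} (hf : SI w f) (v : List ℕ) :
    ph v f = 0 ∨ (ph v f = 1 ∧ w * pw v = 1) := by
  by_cases h : Sch.ph v f = 0
  · exact Or.inl h
  · rcases hf.Dw v with h0 | h1
    · exact absurd (by rw [Sch.ph, h0, map_zero]) h
    · have := h1.cc h
      rw [this] at h1
      exact Or.inr ⟨by rw [Sch.ph, h1.one, map_one], this⟩

end Pool.Agent.H98.Sch
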