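import Pool.Agent.H98.Sch2

namespace Pool.Agent.H98.Sch

open MvPolynomial Finset

abbrev B := MvPolynomial ℕ R

noncomputable def dC (i : ℕ) : DD B where
  s := map (dX ℤ i).s
  t := C (dX ℤ i).t
  ht := by simpa using (dX ℤ i).ht
  ss f := by
    rw [MvPolynomial.map_map, show (dX ℤ i).s.comp (dX ℤ i).s = RingHom.id _ from RingHom.ext (dX ℤ i).ss,
      MvPolynomial.map_id]
  st := by rw [map_C, (dX ℤ i).st, map_neg]
  dv f := by
    have := dv_of (RingHom.id B) (map (dX ℤ i).s) (C (dX ℤ i).t)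
      (fun a => ⟨C (D i a), by simp only [RingHom.id_apply, map_C, D]; rw [← C_mul, DD.spec, C_sub]⟩)
      (fun n => by simp) f
    obtain ⟨g, hg⟩ := this
    exact ⟨g, hg.symm⟩

lemma dC_s (i : ℕ) (F : B) : (dC i).s F = MvPolynomial.map (dX ℤ i).s F := rfl

lemma dC_t (i : ℕ) : (dC i).t = C (dX ℤ i).t := rfl

noncomputable def DX (v : List ℕ) (F : B) : B := v.foldr (fun i => (dC i).D) F

noncomputable def DY (v : List ℕ) (F : B) : B := v.foldr (fun i => (dX R i).D) F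

lemma xy_comm (i j : ℕ) (F : B) : (dC i).D ((dX R j).D F) = (dX R j).D ((dC i).D F) := by
  apply DD.comm
  · intro f; exact map_rename _ _ _
  · simp [dC_s, dX_t]
  · show rename _ (C _) = C _
    simp

lemma DX_dY (v : List ℕ) (j : ℕ) (F : B) : (dX R j).D (DX v F) = DX v ((dX R j).D F) := by
  induction v with
  | nil => rfl
  | cons i v ih =>
    show (dX R j).D ((dC i).D (DX v F)) = (dC i).D (DX v _)
    rw [← xy_comm, ih]

lemma DX_DY (v u : List ℕ) (F : B) : DY u (DX v F) = DX v (DY u F) := by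
  induction u with
  | nil => rfl
  | cons j u ih =>
    show (dX R j).D (DY u (DX v F)) = DX v ((dX R j).D (DY u F))
    rw [ih, DX_dY]

lemma DX_zero (v : List ℕ) : DX v 0 = 0 := by
  induction v with
  | nil => rfl
  | cons i v ih =>
    show (dC i).D (DX v 0) = 0
    rw [ih, DD.D_zero]

lemma coeff_DX (m : ℕ →₀ ℕ) (v : List ℕ) (F : B) : coeff m (DX v F) = Dw v (coeff m F) := by
  induction v with
  | nil => rfl
  | cons i v ih =>
    show coeff m ((dC i).D (DX v F)) = D i (Dw v (coeff m F))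
    rw [← ih]
    exact (DD.nat (dC i) (dX ℤ i) (coeffAddMonoidHom m) (fun f => coeff_C_mul _ _ _)
      (fun f => by rw [dC_s]; exact coeff_map (dX ℤ i).s f m) _).symm

noncomputable def x0 : B →+* R := map constantCoeff

lemma x0_DY (u : List ℕ) (F : B) : x0 (DY u F) = Dw u (x0 F) := by
  induction u with
  | nil => rfl
  | cons i v ih =>
    show x0 ((dX R i).D (DY v F)) = D i (Dw v (x0 F))
    rw [← ih]
    refine (DD.nat (dX R i) (dX ℤ i) x0.toAddMonoidHom (fun f => ?_) (fun f => ?_) _).symm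
    · show x0 (_ * f) = _ * x0 f
      simp [x0, dX_t]
    · exact map_rename _ _ _

lemma coeff_x0 (m : ℕ →₀ ℕ) (F : B) : coeff m (x0 F) = constantCoeff (coeff m F) := coeff_map _ _ _

def Aset (N : ℕ) : Finset (ℕ × ℕ) := (range N ×ˢ range N).filter fun p => p.1 + p.2 + 2 ≤ N

lemma mem_Aset {N : ℕ} {p : ℕ × ℕ} : p ∈ Aset N ↔ p.1 + p.2 + 2 ≤ N := by
  simp only [Aset, mem_filter, mem_product, mem_range]; omega

noncomputable def fc (p : ℕ × ℕ) : B := C (X p.1) + X p.2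

noncomputable def Dl (N : ℕ) : B := ∏ p ∈ Aset N, fc p

lemma sx_prod (i : ℕ) (A : Finset (ℕ × ℕ)) (h : ∀ p : ℕ × ℕ, p ∈ A ↔ (sw i p.1, p.2) ∈ A) :
    (dC i).s (∏ p ∈ A, fc p) = ∏ p ∈ A, fc p := by
  rw [map_prod]
  refine prod_equiv ((sw i).prodCongr (Equiv.refl ℕ)) h fun p _ => ?_
  simp [fc, dX_s, dC_s]

lemma sy_prod (i : ℕ) (A : Finset (ℕ × ℕ)) (h : ∀ p : ℕ × ℕ, p ∈ A ↔ (p.1, sw i p.2) ∈ A) :
    (dX R i).s (∏ p ∈ A, fc p) = ∏ p ∈ A, fc p := by
  rw [map_prod]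
  refine prod_equiv ((Equiv.refl ℕ).prodCongr (sw i)) h fun p _ => ?_
  simp [fc, dX_s]

lemma dY_Dl (N j : ℕ) : (dX R j).D (Dl N) = 0 ∨ ∃ i, (dX R j).D (Dl N) = (dC i).D (Dl N) := by
  by_cases h : j + 2 ≤ N
  · right
    obtain ⟨i, hi⟩ : ∃ i, i + j + 2 = N := ⟨N - 2 - j, by omega⟩
    refine ⟨i, ?_⟩
    have hm : (i, j) ∈ Aset N := mem_Aset.2 hi.le
    have e : Dl N = fc (i, j) * ∏ p ∈ (Aset N).erase (i, j), fc p := (mul_prod_erase _ _ hm).symm
    have a : (dX R j).D (Dl N) = ∏ p ∈ (Aset N).erase (i, j), fc p := by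
      apply DD.uniq
      rw [e, map_mul, sy_prod, ← sub_mul]
      · congr 1; simp [fc, dX_s, dX_t]
      · rintro ⟨p, q⟩
        simp only [mem_erase, mem_Aset, ne_eq, Prod.mk.injEq, sw_apply]
        split_ifs <;> omega
    have b : (dC i).D (Dl N) = ∏ p ∈ (Aset N).erase (i, j), fc p := by
      apply DD.uniq
      rw [e, map_mul, sx_prod, ← sub_mul]
      · congr 1
        simp [fc, dX_s, dX_t, dC_s, dC_t]
      · rintro ⟨p, q⟩
        simp only [mem_erase, mem_Aset, ne_eq, Prod.mk.injEq, sw_apply]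
        split_ifs <;> omega
    rw [a, b]
  · left
    apply DD.D_sym
    apply sy_prod
    rintro ⟨p, q⟩
    simp only [mem_Aset, sw_apply]
    split_ifs <;> omega

lemma DY_nil (F : B) : DY [] F = DX [] F := by
  have a : DY [] F = F := rfl
  have b : DX [] F = F := rfl
  rw [a, b]

lemma DY_cons (j : ℕ) (u : List ℕ) (F : B) : DY (j :: u) F = (dX R j).D (DY u F) := rfl

lemma DX_snoc (i : ℕ) (u : List ℕ) (F : B) : DX u ((dC i).D F) = DX (u ++ [i]) F := by
  simp only [DX, List.foldr_append, List.foldr_cons, List.foldr_nil]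

lemma DY_Dl (N : ℕ) (u : List ℕ) : DY u (Dl N) = 0 ∨ ∃ u', DY u (Dl N) = DX u' (Dl N) := by
  induction u with
  | nil => exact Or.inr ⟨[], DY_nil _⟩
  | cons j u ih =>
    rcases ih with h | ⟨u', h⟩
    · left; rw [DY_cons, h, DD.D_zero]
    · rw [DY_cons, h, DX_dY]
      rcases dY_Dl N j with h0 | ⟨i, hi⟩
      · left; rw [h0, DX_zero]
      · exact Or.inr ⟨u' ++ [i], by rw [hi, DX_snoc]⟩

lemma cc_Dl (N : ℕ) : coeff 0 (Dl N) = dl N := by
  rw [← constantCoeff_eq, Dl, map_prod, Aset, prod_filter, prod_product, dl]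
  refine prod_congr rfl fun i _ => ?_
  rw [← prod_filter]
  have : ((range N).filter fun q => i + q + 2 ≤ N) = range (N - 1 - i) := by
    ext q; simp only [mem_filter, mem_range]; omega
  simp [this, fc]

noncomputable def G (N : ℕ) (v : List ℕ) : R := x0 (DX v (Dl N))

lemma ph_G (N : ℕ) (u : List ℕ) : ∃ h, (h = 0 ∨ ∃ w, SI w h) ∧ ∀ v, ph u (G N v) = ph v h := by
  refine ⟨coeff 0 (DY u (Dl N)), ?_, fun v => ?_⟩
  · rcases DY_Dl N u with h | ⟨u', h⟩
    · left; rw [h, coeff_zero]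
    · rw [h, coeff_DX, cc_Dl]
      obtain ⟨w, h1, h2⟩ := w0_ex N
      exact (SI.Dw ⟨N, Sc.top w h1 h2⟩ u').imp id fun h => ⟨_, h⟩
  · rw [ph, G, ← x0_DY, constantCoeff_eq, coeff_x0, DX_DY, coeff_DX, ph]

lemma G_pos (N : ℕ) (v : List ℕ) : ∀ m, 0 ≤ coeff m (G N v) := by
  refine pos_of fun u => ?_
  obtain ⟨h, h0 | ⟨w, hw⟩, he⟩ := ph_G N u
  · rw [he, h0, ph, Dw_zero, map_zero]
  · rw [he]
    rcases hw.ph v with h | h
    · exact h.ge
    · rw [h.1]; exact zero_le_one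

lemma G_eq (N : ℕ) {v v' : List ℕ} (h : pw v = pw v') {w : Equiv.Perm ℕ} {f : R} (hf : SI w f)
    (h1 : ph v f = 1) (h2 : ph v' f = 1) (hw : w * pw v = 1) : G N v = G N v' := by
  refine sep fun u => ?_
  obtain ⟨g, h0 | ⟨w', hw'⟩, he⟩ := ph_G N u
  · rw [he, he, h0, ph, ph, Dw_zero, Dw_zero]
  · rw [he, he]
    by_cases e : w' = w
    · subst e; rw [hw'.uni hf, h1, h2]
    · have : ∀ x, pw x = pw v → ph x g = 0 := fun x hx =>
        (hw'.ph x).resolve_right fun hc => e (mul_right_cancel (b := pw v) (by rw [hw, ← hx, hc.2]))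
      rw [this v rfl, this v' h.symm]

noncomputable def el (i j : ℕ) : R := ∑ s ∈ powersetCard j (range i), ∏ k ∈ s, X k

lemma row (k q : ℕ) : ∏ p ∈ range k, fc (p, q) =
    ∑ r ∈ range (k + 1), monomial (Finsupp.single q (k - r)) (el k r) := by
  simp only [fc]
  rw [prod_add, sum_powerset, card_range]
  refine sum_congr rfl fun r _ => ?_
  rw [el, map_sum]
  refine sum_congr rfl fun s hs => ?_
  obtain ⟨h1, h2⟩ := mem_powersetCard.1 hs
  rw [prod_const, card_sdiff_of_subset h1, card_range, h2, ← map_prod, C_mul_X_pow_eq_monomial]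

lemma prod_mono {ι : Type*} (s : Finset ι) (m : ι → ℕ →₀ ℕ) (c : ι → R) :
    ∏ i ∈ s, (monomial (m i) (c i) : B) = monomial (∑ i ∈ s, m i) (∏ i ∈ s, c i) := by
  classical
  induction s using Finset.induction_on with
  | empty => simp
  | insert a s ha ih => rw [prod_insert ha, ih, monomial_mul, sum_insert ha, prod_insert ha]

lemma coeff_Dl (N : ℕ) (a : ℕ → ℕ) (ha : ∀ i, a i ≤ i) :
    ∃ m, coeff m (Dl N) = ∏ k ∈ range N, el k (a k) := by
  have e : Dl N = ∏ q : Fin N, ∏ p ∈ range (N - 1 - q), fc (p, q) := by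
    rw [Dl, Aset, prod_filter, prod_product_right,
      ← Fin.prod_univ_eq_prod_range (fun q => ∏ p ∈ range N, if p + q + 2 ≤ N then fc (p, q) else 1)]
    refine prod_congr rfl fun q _ => ?_
    rw [← prod_filter]
    congr 1
    ext p; simp only [mem_filter, mem_range]; omega
  simp only [row] at e
  rw [prod_univ_sum] at e
  simp only [prod_mono] at e
  refine ⟨∑ q : Fin N, Finsupp.single (q : ℕ) (N - 1 - q - a (N - 1 - q)), ?_⟩
  have ev : ∀ (b : Fin N → ℕ) (q : Fin N), (∑ q : Fin N, Finsupp.single (q : ℕ) (b q)) q = b q := by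
    intro b q
    rw [Finsupp.finset_sum_apply, sum_eq_single q]
    · simp
    · intro x _ hx; exact Finsupp.single_eq_of_ne fun h => hx (Fin.ext h.symm)
    · simp
  rw [e, coeff_sum, sum_eq_single (fun q : Fin N => a (N - 1 - q))]
  · rw [coeff_monomial, if_pos rfl,
      Fin.prod_univ_eq_prod_range (fun q => el (N - 1 - q) (a (N - 1 - q))),
      prod_range_reflect (fun k => el k (a k))]
  · intro b hb hne
    rw [coeff_monomial, if_neg]
    intro hc
    apply hne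
    funext q
    have h1 := congrArg (fun m : ℕ →₀ ℕ => m q) hc
    simp only [ev] at h1
    have h2 := mem_range.1 (Fintype.mem_piFinset.1 hb q)
    have h3 := ha (N - 1 - q)
    omega
  · intro h
    exact absurd (Fintype.mem_piFinset.2 fun q => mem_range.2 (Nat.lt_succ_of_le (ha _))) h

noncomputable def sem (a : ℕ →₀ ℕ) : R := a.prod el

lemma sem_G (a : ℕ →₀ ℕ) (ha : ∀ i, a i ≤ i) : ∃ N m, ∀ v, ph v (sem a) = coeff m (G N v) := by
  obtain ⟨M, hM⟩ := a.support.bddAbove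
  obtain ⟨m, hm⟩ := coeff_Dl (M + 1) a ha
  refine ⟨M + 1, m, fun v => ?_⟩
  rw [G, coeff_x0, coeff_DX, hm, ph, sem, Finsupp.prod_of_support_subset a
    (s := range (M + 1)) (fun k hk => mem_range.2 (Nat.lt_succ_of_le (hM hk))) _
    (fun i _ => by simp [el])]

theorem main {w : Equiv.Perm ℕ} {f : R} (hf : SI w f) (c : (ℕ →₀ ℕ) →₀ ℤ)
    (hc : ∀ a ∈ c.support, ∀ i, a i ≤ i) (he : f = c.sum fun a k => k • sem a)
    (h0 : ∀ a, 0 ≤ c a) : ∃ a : ℕ →₀ ℕ, (∀ i, a i ≤ i) ∧ f = sem a := by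
  have hs : ∀ v, ph v f = ∑ a ∈ c.support, c a * ph v (sem a) := by
    intro v
    show phL v f = _
    rw [he, Finsupp.sum, map_sum]
    exact sum_congr rfl fun a _ => by rw [map_zsmul]; rfl
  have hp : ∀ v, ∀ a ∈ c.support, 0 ≤ ph v (sem a) := by
    intro v a ha
    obtain ⟨N, m, h⟩ := sem_G a (hc a ha)
    rw [h]; exact G_pos N v m
  have hle : ∀ v, ∀ a ∈ c.support, ph v (sem a) ≤ ph v f := by
    intro v a ha
    have h1 : 1 ≤ c a := lt_of_le_of_ne (h0 a) (Finsupp.mem_support_iff.1 ha).symm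
    rw [hs]
    exact (le_mul_of_one_le_left (hp v a ha) h1).trans
      (single_le_sum (f := fun a => c a * ph v (sem a)) (fun b hb => mul_nonneg (h0 b) (hp v b hb)) ha)
  obtain ⟨v0, hv0⟩ : ∃ v0, ph v0 f ≠ 0 := by
    by_contra hn
    push Not at hn
    exact hf.ne (sep fun v => by rw [hn, ph, Dw_zero, map_zero])
  obtain ⟨h1, hw⟩ := (hf.ph v0).resolve_left hv0
  obtain ⟨a, ha, hne⟩ := exists_ne_zero_of_sum_ne_zero (hs v0 ▸ hv0)
  have ha1 : ph v0 (sem a) = 1 := by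
    have := hp v0 a ha
    have := hle v0 a ha
    have := right_ne_zero_of_mul hne
    omega
  refine ⟨a, hc a ha, sep fun v => ?_⟩
  rcases hf.ph v with h | ⟨h, hw'⟩
  · have := hp v a ha
    have := hle v a ha
    omega
  · obtain ⟨N, m, hm⟩ := sem_G a (hc a ha)
    rw [h, hm, G_eq N (mul_left_cancel (hw'.trans hw.symm)) hf h h1 hw', ← hm, ha1]

end Pool.Agent.H98.Sch
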