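import Pool.Agent.H98.Solenoid

set_option autoImplicit false

namespace Pool.Agent.H98.Smale

open Filter Topology Pool.Agent.H98.Solenoid

noncomputable def ph (n : ℤ) : ℝ := if n ≤ 0 then -3 + 2 * (2:ℝ) ^ n else 3 - 4 * (2:ℝ) ^ (-n)

noncomputable def g (t : ℝ) : ℝ := min (2 * t + 3) ((t + 3) / 2)
noncomputable def gi (t : ℝ) : ℝ := max ((t - 3) / 2) (2 * t - 3)

lemma g_neg {t : ℝ} (h : t ≤ -1) : g t = 2 * t + 3 := min_eq_left (by linarith)
lemma g_pos {t : ℝ} (h : -1 ≤ t) : g t = (t + 3) / 2 := min_eq_right (by linarith)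
lemma gi_neg {t : ℝ} (h : t ≤ 1) : gi t = (t - 3) / 2 := max_eq_left (by linarith)
lemma gi_pos {t : ℝ} (h : 1 ≤ t) : gi t = 2 * t - 3 := max_eq_right (by linarith)

lemma gi_g (t : ℝ) : gi (g t) = t := by
  rcases le_total t (-1) with h | h
  · rw [g_neg h, gi_neg (by linarith)]; ring
  · rw [g_pos h, gi_pos (by linarith)]; ring

lemma g_gi (t : ℝ) : g (gi t) = t := by
  rcases le_total t 1 with h | h
  · rw [gi_neg h, g_neg (by linarith)]; ring
  · rw [gi_pos h, g_pos (by linarith)]; ring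

lemma zp_le' {n : ℤ} (h : n ≤ -1) : (2:ℝ) ^ n ≤ 1 / 2 := by
  have := zpow_le_zpow_right₀ (by norm_num : (1:ℝ) ≤ 2) h
  simpa using this

lemma ph_cases (n : ℤ) : (n ≤ -1 ∧ -3 < ph n ∧ ph n ≤ -2) ∨ (n = 0 ∧ ph n = -1) ∨
    (1 ≤ n ∧ 1 ≤ ph n ∧ ph n < 3) := by
  have h1 : (0:ℝ) < 2 ^ n := by positivity
  have h2 : (0:ℝ) < 2 ^ (-n) := by positivity
  unfold ph
  rcases lt_trichotomy n 0 with h | h | h
  · left
    have := zp_le' (n := n) (by omega)
    rw [if_pos h.le]; exact ⟨by omega, by linarith, by linarith⟩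
  · right; left; subst h; norm_num
  · right; right
    have := zp_le' (n := -n) (by omega)
    rw [if_neg (by omega)]; exact ⟨by omega, by linarith, by linarith⟩

lemma g_ph (n : ℤ) : g (ph n) = ph (n + 1) := by
  rcases ph_cases n with ⟨h, h1, h2⟩ | ⟨h, h1⟩ | ⟨h, h1, h2⟩
  · rw [g_neg (by linarith)]
    unfold ph
    rw [if_pos (by omega), if_pos (by omega), zpow_add_one₀ (by norm_num)]; ring
  · rw [h1, h, g_neg le_rfl]; unfold ph; norm_num
  · rw [g_pos (by linarith)]
    unfold ph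
    rw [if_neg (by omega), if_neg (by omega), neg_add', zpow_sub_one₀ (by norm_num)]; ring

lemma ph_top : Tendsto (fun m : ℕ => ph m) atTop (𝓝 3) := by
  have h := tendsto_pow_atTop_nhds_zero_of_lt_one (r := (1/2 : ℝ)) (by norm_num) (by norm_num)
  have h2 := (h.const_mul 4).const_sub 3
  simp only [mul_zero, sub_zero] at h2
  refine h2.congr' ?_
  filter_upwards [eventually_ge_atTop 1] with m hm
  unfold ph
  rw [if_neg (by omega)]; simp

lemma ph_bot : Tendsto (fun m : ℕ => ph (-m)) atTop (𝓝 (-3)) := by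
  have h := tendsto_pow_atTop_nhds_zero_of_lt_one (r := (1/2 : ℝ)) (by norm_num) (by norm_num)
  have h2 := (h.const_mul 2).const_add (-3)
  simp only [mul_zero, add_zero] at h2
  refine h2.congr fun m => ?_
  unfold ph
  rw [if_pos (by omega)]; simp

def Z : Set ℝ := insert (-3) (Set.range fun m : ℕ => ph (-m)) ∪ insert 3 (Set.range fun m : ℕ => ph m)

lemma mem_Z (t : ℝ) : t ∈ Z ↔ t = -3 ∨ t = 3 ∨ ∃ n, t = ph n := by
  constructor
  · rintro ((h | ⟨m, rfl⟩) | (h | ⟨m, rfl⟩))
    · exact Or.inl h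
    · exact Or.inr (Or.inr ⟨_, rfl⟩)
    · exact Or.inr (Or.inl h)
    · exact Or.inr (Or.inr ⟨_, rfl⟩)
  · rintro (h | h | ⟨n, rfl⟩)
    · exact Or.inl (Or.inl h)
    · exact Or.inr (Or.inl h)
    · obtain ⟨m, rfl | rfl⟩ := n.eq_nat_or_neg
      · exact Or.inr (Or.inr ⟨m, rfl⟩)
      · exact Or.inl (Or.inr ⟨m, rfl⟩)

instance : CompactSpace Z := isCompact_iff_compactSpace.1
  (ph_bot.isCompact_insert_range.union ph_top.isCompact_insert_range)

lemma Z_count : Z.Countable :=
  ((Set.countable_range _).insert _).union ((Set.countable_range _).insert _)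

lemma Z_cases (z : Z) : z.1 ≤ -2 ∨ z.1 = -1 ∨ 1 ≤ z.1 := by
  rcases (mem_Z _).1 z.2 with h | h | ⟨n, h⟩
  · left; linarith
  · right; right; linarith
  · rw [h]
    rcases ph_cases n with ⟨-, -, h2⟩ | ⟨-, h1⟩ | ⟨-, h1, -⟩
    · exact Or.inl h2
    · exact Or.inr (Or.inl h1)
    · exact Or.inr (Or.inr h1)

lemma g_Z (t : ℝ) (h : t ∈ Z) : g t ∈ Z := by
  rw [mem_Z] at h ⊢
  rcases h with h | h | ⟨n, h⟩
  · left; rw [g_neg (by linarith)]; linarith
  · right; left; rw [g_pos (by linarith)]; linarith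
  · right; right; exact ⟨n + 1, by rw [h, g_ph]⟩

lemma gi_Z (t : ℝ) (h : t ∈ Z) : gi t ∈ Z := by
  rw [mem_Z] at h ⊢
  rcases h with h | h | ⟨n, h⟩
  · left; rw [gi_neg (by linarith)]; linarith
  · right; left; rw [gi_pos (by linarith)]; linarith
  · right; right; exact ⟨n - 1, by rw [h, ← gi_g (ph (n - 1)), g_ph, sub_add_cancel]⟩

noncomputable def G : Z ≃ₜ Z where
  toFun z := ⟨g z, g_Z _ z.2⟩
  invFun z := ⟨gi z, gi_Z _ z.2⟩
  left_inv z := Subtype.ext (gi_g _)
  right_inv z := Subtype.ext (g_gi _)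
  continuous_toFun := Continuous.subtype_mk (by unfold g; fun_prop) _
  continuous_invFun := Continuous.subtype_mk (by unfold gi; fun_prop) _

def top : Z := ⟨3, (mem_Z _).2 (Or.inr (Or.inl rfl))⟩
def bot : Z := ⟨-3, (mem_Z _).2 (Or.inl rfl)⟩
noncomputable def pz (n : ℤ) : Z := ⟨ph n, (mem_Z _).2 (Or.inr (Or.inr ⟨n, rfl⟩))⟩

lemma Z_ind (z : Z) : z = bot ∨ z = top ∨ ∃ n, z = pz n := by
  rcases (mem_Z _).1 z.2 with h | h | ⟨n, h⟩
  · exact Or.inl (Subtype.ext h)
  · exact Or.inr (Or.inl (Subtype.ext h))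
  · exact Or.inr (Or.inr ⟨n, Subtype.ext h⟩)

lemma G_pz (n : ℤ) : G (pz n) = pz (n + 1) := Subtype.ext (g_ph n)
lemma G_top : G top = top := Subtype.ext (by show g 3 = 3; rw [g_pos (by norm_num)]; norm_num)
lemma G_bot : G bot = bot := Subtype.ext (by show g (-3) = -3; rw [g_neg (by norm_num)]; norm_num)

lemma pz_top (k : ℤ) : Tendsto (fun m : ℕ => pz (k + m)) atTop (𝓝 top) := by
  rw [tendsto_subtype_rng]
  refine (ph_top.comp ((tendsto_sub_atTop_nat (-k).toNat).comp
      (tendsto_add_atTop_nat k.toNat))).congr' ?_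
  filter_upwards [eventually_ge_atTop (-k).toNat] with m hm
  simp only [Function.comp, pz]
  congr 1; omega

lemma pz_bot (k : ℤ) : Tendsto (fun m : ℕ => pz (k - m)) atTop (𝓝 bot) := by
  rw [tendsto_subtype_rng]
  refine (ph_bot.comp ((tendsto_sub_atTop_nat k.toNat).comp
      (tendsto_add_atTop_nat (-k).toNat))).congr' ?_
  filter_upwards [eventually_ge_atTop k.toNat] with m hm
  simp only [Function.comp, pz]
  congr 1; omega

abbrev X := S × Z

noncomputable def F : X ≃ₜ X := A.prodCongr G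

lemma F_apply (p : X) : F p = (A p.1, G p.2) := rfl
lemma F_symm_apply (p : X) : F.symm p = (A.symm p.1, G.symm p.2) := rfl

noncomputable def d (p q : X) : ℝ := N (p.1 - q.1) + |p.2.1 - q.2.1|

noncomputable def br (p q : X) : X :=
  (q.1 + io (lf (p.1.1 0 - q.1.1 0)), if p.2.1 ≤ 0 then p.2 else q.2)

lemma cont_d : Continuous (fun p : X × X => d p.1 p.2) := by
  have := cont_N
  unfold d; fun_prop

lemma d_symm (p q : X) : d p q = d q p := by
  unfold d; rw [← N_neg, neg_sub, abs_sub_comm]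

lemma d_nonneg (p q : X) : 0 ≤ d p q := add_nonneg (N_nonneg _) (abs_nonneg _)

lemma d_zero (p q : X) : d p q = 0 ↔ p = q := by
  constructor
  · intro h
    unfold d at h
    have h1 := N_nonneg (p.1 - q.1)
    have h2 := abs_nonneg (p.2.1 - q.2.1)
    refine Prod.ext (sub_eq_zero.1 (N_eq_zero _ (by linarith))) (Subtype.ext ?_)
    exact sub_eq_zero.1 (abs_eq_zero.1 (by linarith))
  · rintro rfl; simp [d, N_zero]

lemma d_tri (p q r : X) : d p r ≤ d p q + d q r := by
  unfold d
  have h1 := N_add (p.1 - q.1) (q.1 - r.1)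
  rw [sub_add_sub_cancel] at h1
  have h2 := abs_sub_le p.2.1 q.2.1 r.2.1
  linarith

lemma d_open (U : Set X) : IsOpen U ↔ ∀ x ∈ U, ∃ r > 0, ∀ y, d x y < r → y ∈ U := by
  have hc : ∀ x, Continuous (fun y => d x y) := fun x => by
    have := cont_N
    unfold d; fun_prop
  constructor
  · intro hU x hx
    by_cases h : Uᶜ.Nonempty
    · obtain ⟨y, hy, hm⟩ := hU.isClosed_compl.isCompact.exists_isMinOn h (hc x).continuousOn
      refine ⟨d x y, lt_of_le_of_ne (d_nonneg _ _) fun h0 => hy ((d_zero _ _).1 h0.symm ▸ hx),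
        fun z hz => ?_⟩
      by_contra hz'
      exact absurd (hm hz') (not_le.2 hz)
    · exact ⟨1, one_pos, fun y _ => by_contra fun hy => h ⟨y, hy⟩⟩
  · intro h
    rw [isOpen_iff_mem_nhds]
    intro x hx
    obtain ⟨r, hr, h2⟩ := h x hx
    have : {y | d x y < r} ∈ 𝓝 x :=
      (isOpen_lt (hc x) continuous_const).mem_nhds (by simpa [(d_zero x x).2 rfl] using hr)
    exact mem_of_superset this h2

lemma d_le {p q : X} (h : d p q ≤ 1/8) :
    ‖p.1.1 0 - q.1.1 0‖ ≤ 1/8 ∧ p.2.1 - q.2.1 ≤ 1/8 ∧ q.2.1 - p.2.1 ≤ 1/8 := by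
  unfold d at h
  have h1 := N_nonneg (p.1 - q.1)
  have h2 := abs_nonneg (p.2.1 - q.2.1)
  have h3 := le_N0 (p.1 - q.1)
  have h4 := abs_le.1 (show |p.2.1 - q.2.1| ≤ 1/8 by linarith)
  exact ⟨le_trans h3 (by linarith), h4.2, by linarith [h4.1]⟩

lemma br_co (p q : X) : (br p q).1.1 0 = p.1.1 0 := by
  show q.1.1 0 + (io _).1 0 = _
  rw [io_zero, coe_lf]; abel

lemma br_cont : ContinuousOn (fun p : X × X => br p.1 p.2) {p | d p.1 p.2 ≤ 1/8} := by
  intro p hp
  apply ContinuousAt.continuousWithinAt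
  have c0 := cont_co 0
  refine ContinuousAt.prodMk ?_ (Continuous.continuousAt ?_)
  · refine ContinuousAt.add (by fun_prop) (cont_io.continuousAt.comp ?_)
    exact ContinuousAt.comp (f := fun p : X × X => p.1.1.1 0 - p.2.1.1 0) (contAt_lf _ (d_le hp).1)
      ((c0.comp continuous_fst.fst).sub (c0.comp continuous_snd.fst)).continuousAt
  · refine Continuous.if_le (by fun_prop) (by fun_prop) (by fun_prop) continuous_const ?_
    intro x hx
    have := Z_cases x.1.2
    exfalso
    rcases this with h | h | h <;> linarith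

lemma br_self (p : X) : br p p = p := by
  have : lf 0 = 0 := by simpa using lf_coe 0 (by norm_num)
  simp [br, this]

lemma br1 (x y z : X) (h1 : d y z ≤ 1/8) (h2 : d x (br y z) ≤ 1/8) (h3 : d x z ≤ 1/8) :
    br x (br y z) = br x z := by
  obtain ⟨a1, a2, a3⟩ := d_le h1
  obtain ⟨b1, -, -⟩ := d_le h2
  obtain ⟨c1, c2, c3⟩ := d_le h3
  rw [br_co] at b1
  refine Prod.ext ?_ ?_
  · show (br y z).1 + io (lf (x.1.1 0 - (br y z).1.1 0)) = z.1 + _
    rw [br_co]
    show z.1 + _ + _ = _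
    rw [add_assoc, ← map_add, ← lf_add _ _ a1 b1]; congr 3; abel
  · simp only [br]
    split_ifs with g1 g2
    · rfl
    · exfalso
      rcases Z_cases x.2 with h | h | h <;> rcases Z_cases y.2 with h' | h' | h' <;> linarith
    · rfl

lemma br2 (x y z : X) (h1 : d x y ≤ 1/8) : br (br x y) z = br x z := by
  obtain ⟨a1, a2, a3⟩ := d_le h1
  refine Prod.ext ?_ ?_
  · show z.1 + io (lf ((br x y).1.1 0 - z.1.1 0)) = z.1 + _
    rw [br_co]
  · simp only [br]
    by_cases g1 : x.2.1 ≤ 0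
    · simp only [g1, if_true]
    · simp only [g1, if_false]
      rw [if_neg]
      rcases Z_cases x.2 with h | h | h <;> linarith

lemma br3 (x y : X) (h1 : d x y ≤ 1/8) :
    F (br x y) = br (F x) (F y) := by
  obtain ⟨a1, a2, a3⟩ := d_le h1
  refine Prod.ext ?_ ?_
  · show 2 • (y.1 + io (lf (x.1.1 0 - y.1.1 0))) = 2 • y.1 + io (lf (2 • x.1.1 0 - 2 • y.1.1 0))
    rw [smul_add, ← smul_sub, two_smul ℕ (x.1.1 0 - y.1.1 0), lf_add _ _ a1 a1, map_add,
      two_smul ℕ (io _)]
  · show G (if x.2.1 ≤ 0 then x.2 else y.2) = if g x.2.1 ≤ 0 then G x.2 else G y.2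
    rcases Z_cases x.2 with h | h | h
    · rw [if_pos (by linarith), if_pos (by rw [g_neg (by linarith)]; linarith)]
    · have : x.2 = y.2 := by
        apply Subtype.ext
        rcases Z_cases y.2 with h' | h' | h' <;> linarith
      rw [this]; simp
    · rw [if_neg (by linarith), if_neg (by rw [g_pos (by linarith)]; linarith)]

lemma br4 (x y z : X) (h1 : d x y ≤ 1/8) (e1 : br y x = x) (h2 : d x z ≤ 1/8) (e2 : br z x = x) :
    d (F y) (F z) ≤ 1/2 * d y z := by
  obtain ⟨a1, a2, a3⟩ := d_le h1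
  obtain ⟨b1, b2, b3⟩ := d_le h2
  have c1 := br_co y x
  have c2 := br_co z x
  rw [e1] at c1
  rw [e2] at c2
  have n1 : N (A y.1 - A z.1) = 1/2 * N (y.1 - z.1) := by
    rw [A_apply, A_apply, ← smul_sub]
    apply N_stable
    show y.1.1 0 - z.1.1 0 = 0
    rw [← c1, ← c2, sub_self]
  have n2 : |g y.2.1 - g z.2.1| ≤ 1/2 * |y.2.1 - z.2.1| := by
    have s1 := congrArg (fun p : X => p.2.1) e1
    have s2 := congrArg (fun p : X => p.2.1) e2
    simp only [br] at s1 s2
    by_cases hx : x.2.1 ≤ -1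
    · rw [if_pos (by linarith)] at s1 s2
      rw [s1, s2]; simp
    · have : 1 ≤ x.2.1 := by rcases Z_cases x.2 with h | h | h <;> linarith
      rw [g_pos (by linarith), g_pos (by linarith),
        show (y.2.1 + 3) / 2 - (z.2.1 + 3) / 2 = 1/2 * (y.2.1 - z.2.1) by ring, abs_mul]
      norm_num
  show N (A y.1 - A z.1) + |g y.2.1 - g z.2.1| ≤ 1/2 * (N (y.1 - z.1) + |y.2.1 - z.2.1|)
  linarith

lemma br5 (x y z : X) (h1 : d x y ≤ 1/8) (e1 : br x y = x) (h2 : d x z ≤ 1/8) (e2 : br x z = x) :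
    d (F.symm y) (F.symm z) ≤ 1/2 * d y z := by
  obtain ⟨a1, a2, a3⟩ := d_le h1
  obtain ⟨b1, b2, b3⟩ := d_le h2
  have n1 : N (A.symm y.1 - A.symm z.1) = 1/2 * N (y.1 - z.1) := by
    have s1 : y.1 + io (lf (x.1.1 0 - y.1.1 0)) = x.1 := congrArg Prod.fst e1
    have s2 : z.1 + io (lf (x.1.1 0 - z.1.1 0)) = x.1 := congrArg Prod.fst e2
    have : y.1 - z.1 = io (lf (x.1.1 0 - z.1.1 0) - lf (x.1.1 0 - y.1.1 0)) := by
      rw [map_sub, sub_eq_sub_iff_add_eq_add, s1, add_comm, s2]
    rw [A_symm_sub, this, A_symm_io]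
    apply N_unstable
    have := abs_sub (lf (x.1.1 0 - z.1.1 0)) (lf (x.1.1 0 - y.1.1 0))
    rw [abs_lf, abs_lf] at this
    linarith
  have n2 : |gi y.2.1 - gi z.2.1| ≤ 1/2 * |y.2.1 - z.2.1| := by
    have s1 := congrArg (fun p : X => p.2.1) e1
    have s2 := congrArg (fun p : X => p.2.1) e2
    simp only [br] at s1 s2
    by_cases hx : x.2.1 ≤ 0
    · rw [gi_neg (by linarith), gi_neg (by linarith),
        show (y.2.1 - 3) / 2 - (z.2.1 - 3) / 2 = 1/2 * (y.2.1 - z.2.1) by ring, abs_mul]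
      norm_num
    · rw [if_neg hx] at s1 s2
      rw [s1, s2]; simp
  show N (A.symm y.1 - A.symm z.1) + |gi y.2.1 - gi z.2.1| ≤
    1/2 * (N (y.1 - z.1) + |y.2.1 - z.2.1|)
  linarith

theorem surjunctive (τ : X → X) (hc : Continuous τ) (hF : ∀ x, τ (F x) = F (τ x))
    (hi : Function.Injective τ) : Function.Surjective τ := by
  let π : Z → Z := fun z => (τ (0, z)).2
  let h : Z → S → S := fun z x => (τ (x, z)).1
  have hπc : Continuous π := by fun_prop
  have hhc : ∀ z, Continuous (h z) := fun z => by fun_prop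
  have hπ : ∀ x z, τ (x, z) = (h z x, π z) := by
    intro x z
    refine Prod.ext rfl (Subtype.ext ?_)
    have c : Continuous (fun x : S => (τ (x, z)).2.1) := by fun_prop
    exact Z_count.isTotallyDisconnected _ (by rintro _ ⟨x, rfl⟩; exact (τ (x, z)).2.2)
      (isPreconnected_range c) ⟨x, rfl⟩ ⟨0, rfl⟩
  have hG : ∀ z, π (G z) = G (π z) := fun z => by
    have := hF (0, z)
    rw [F_apply, hπ, hπ, F_apply] at this
    exact congrArg Prod.snd this
  have hA : ∀ z x, h (G z) (A x) = A (h z x) := fun z x => by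
    have := hF (x, z)
    rw [F_apply, hπ, hπ, F_apply] at this
    exact congrArg Prod.fst this
  have hfix : ∀ z, G z = z → Function.Surjective (h z) := fun z hz =>
    surj_of_inj _ (hhc z) (fun x => by have := hA z x; rwa [hz] at this) fun a b hab => by
      have : τ (a, z) = τ (b, z) := by rw [hπ, hπ, hab]
      exact congrArg Prod.fst (hi this)
  have hne : π top ≠ π bot := by
    intro he
    obtain ⟨x, hx⟩ := hfix bot G_bot (h top 0)
    have : τ (x, bot) = τ (0, top) := by rw [hπ, hπ, hx, he]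
    have h2 : (-3 : ℝ) = 3 := congrArg (fun p : X => p.2.1) (hi this)
    norm_num at h2
  have hfix2 : ∀ z, G z = z → π (pz 0) ≠ z := by
    intro z hz h0
    have all : ∀ n, π (pz n) = z := by
      intro n
      induction n using Int.induction_on with
      | zero => exact h0
      | succ i ih => rw [← G_pz, hG, ih, hz]
      | pred i ih =>
        apply G.injective
        rw [← hG, G_pz, sub_add_cancel, ih, hz]
    have t1 := (hπc.tendsto _).comp (pz_top 0)
    have t2 := (hπc.tendsto _).comp (pz_bot 0)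
    simp only [Function.comp_def, all, tendsto_const_nhds_iff] at t1 t2
    exact hne (t1.symm.trans t2)
  obtain ⟨k, hk⟩ : ∃ k, π (pz 0) = pz k := by
    rcases Z_ind (π (pz 0)) with h1 | h1 | h1
    · exact absurd h1 (hfix2 _ G_bot)
    · exact absurd h1 (hfix2 _ G_top)
    · exact h1
  have all : ∀ n, π (pz n) = pz (k + n) := by
    intro n
    induction n using Int.induction_on with
    | zero => simpa using hk
    | succ i ih => rw [← G_pz, hG, ih, G_pz, add_assoc]
    | pred i ih =>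
      apply G.injective
      rw [← hG, G_pz, sub_add_cancel, ih, G_pz]; congr 1; ring
  have ht : π top = top := by
    have t1 := (hπc.tendsto _).comp (pz_top 0)
    simp only [Function.comp_def, all, zero_add] at t1
    exact tendsto_nhds_unique t1 (pz_top k)
  have hb : π bot = bot := by
    have t1 := (hπc.tendsto _).comp (pz_bot 0)
    simp only [Function.comp_def, all, zero_sub, ← sub_eq_add_neg] at t1
    exact tendsto_nhds_unique t1 (pz_bot k)
  have hw : ∀ n, Function.Surjective (h (pz n)) := by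
    intro n
    have it : ∀ (m : ℕ) x, h (pz (n + m)) (2 ^ m • x) = 2 ^ m • h (pz n) x ∧
        h top (2 ^ m • x) = 2 ^ m • h top x := by
      intro m x
      induction m with
      | zero => simp
      | succ m ih =>
        rw [pow_succ', mul_smul, mul_smul, mul_smul, ← A_apply, ← A_apply, ← A_apply, ← ih.1,
          ← ih.2, ← hA, ← hA, G_pz, G_top]
        exact ⟨by congr 2; push_cast; ring, rfl⟩
    have c0 := cont_co 0
    have cc : Continuous (fun p : Z × S => ‖(h p.1 p.2 - h top p.2).1 0‖) := by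
      have : Continuous (fun p : Z × S => h p.1 p.2 - h top p.2) := by
        simp only [h]; fun_prop
      exact (c0.comp this).norm
    have tube : ∀ᶠ z in 𝓝 top, ∀ x ∈ (Set.univ : Set S), ‖(h z x - h top x).1 0‖ < 1/8 := by
      refine isCompact_univ.eventually_forall_of_forall_eventually fun x _ => ?_
      refine cc.continuousAt.eventually_lt continuousAt_const ?_
      simp
    obtain ⟨M, hM⟩ := eventually_atTop.1 ((pz_top n).eventually tube)
    have hconst := const_of_asym (fun x => h (pz n) x - h top x) ((hhc _).sub (hhc _)) M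
      fun m hm x => by
        rw [smul_sub, ← (it m x).1, ← (it m x).2]
        exact (hM m hm _ trivial).le
    intro y
    obtain ⟨x, hx⟩ := hfix top G_top (y - (h (pz n) 0 - h top 0))
    refine ⟨x, ?_⟩
    have := hconst x 0
    rw [hx] at this
    rw [sub_eq_iff_eq_add] at this
    rw [this]; abel
  rintro ⟨y, z⟩
  rcases Z_ind z with rfl | rfl | ⟨n, rfl⟩
  · obtain ⟨x, hx⟩ := hfix bot G_bot y
    exact ⟨(x, bot), by rw [hπ, hx, hb]⟩
  · obtain ⟨x, hx⟩ := hfix top G_top y
    exact ⟨(x, top), by rw [hπ, hx, ht]⟩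
  · obtain ⟨x, hx⟩ := hw (n - k) y
    exact ⟨(x, pz (n - k)), by rw [hπ, hx, all]; congr 2; ring⟩

theorem no_decomp {Y C : Type} [TopologicalSpace Y] [TopologicalSpace C] [Countable C]
    (gY : Y → Y) (σ : C → C)
    (hnw : ∀ U : Set Y, IsOpen U → U.Nonempty → ∃ n : ℕ, 1 ≤ n ∧ (gY^[n] '' U ∩ U).Nonempty)
    (h : X ≃ₜ (Y ⊕ C)) (hh : ∀ x, h (F x) = Sum.map gY σ (h x)) : False := by
  let U : Set Y := {y | (h.symm (Sum.inl y)).2.1 ∈ Set.Ioo (-2 : ℝ) 1}
  have hU : IsOpen U := isOpen_Ioo.preimage (by fun_prop)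
  have p0 : (pz 0).1 = -1 := by show ph 0 = -1; unfold ph; norm_num
  have hne : U.Nonempty := by
    by_contra hU0
    have : ∀ x : S, ∃ c : C, h (x, pz 0) = Sum.inr c := by
      intro x
      rcases hx : h (x, pz 0) with y | c
      · exfalso
        refine hU0 ⟨y, ?_⟩
        simp only [U, Set.mem_setOf_eq, ← hx, Homeomorph.symm_apply_apply, p0]
        norm_num
      · exact ⟨c, rfl⟩
    choose c hc using this
    have : Function.Injective c := fun a b hab => by
      have : h (a, pz 0) = h (b, pz 0) := by rw [hc, hc, hab]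
      exact congrArg Prod.fst (h.injective this)
    exact not_countable (α := S) this.countable
  obtain ⟨n, hn, _, ⟨y, hy, rfl⟩, hy2⟩ := hnw U hU hne
  have hz : (h.symm (Sum.inl y)).2 = pz 0 := by
    apply Subtype.ext
    rw [p0]
    have := hy.1
    have := hy.2
    rcases Z_cases (h.symm (Sum.inl y)).2 with h1 | h1 | h1 <;> linarith
  have it : ∀ m : ℕ, (h.symm (Sum.inl (gY^[m] y))).2 = pz m := by
    intro m
    induction m with
    | zero => exact hz
    | succ m ih =>
      have : h.symm (Sum.inl (gY^[m+1] y)) = F (h.symm (Sum.inl (gY^[m] y))) := by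
        rw [Homeomorph.symm_apply_eq, hh, Homeomorph.apply_symm_apply, Function.iterate_succ_apply']
        rfl
      rw [this, F_apply, ih, G_pz]; rfl
  have h3 := hy2.2
  rw [it] at h3
  have h4 : ph n < 1 := h3
  rcases ph_cases n with ⟨a, -⟩ | ⟨a, -⟩ | ⟨-, a, -⟩
  · omega
  · omega
  · linarith

end Pool.Agent.H98.Smale
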