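import Mathlib

set_option autoImplicit false

namespace Pool.Agent.H98.Snoha

open Filter Topology

abbrev P2 := ℤ × ℤ

def kap (d b : Bool) : ℤ := (if d then 2 else 0) + (if b then 1 else 0)

def per (s : ℕ) : ℤ := 4 * (2 * s + 1) ^ 2 + 1

def Start (s : ℕ) (q : P2) (d b : Bool) : Prop :=
  per s ∣ (2 * s + 1) * q.1 + q.2 - kap d b * (2 * s + 1) ^ 2

lemma kap_inj {d b d' b' : Bool} (h : kap d b = kap d' b') : d = d' ∧ b = b' := by
  cases d <;> cases b <;> cases d' <;> cases b' <;> simp [kap] at h ⊢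

lemma kap_bd (d b : Bool) : 0 ≤ kap d b ∧ kap d b ≤ 3 := by
  cases d <;> cases b <;> simp [kap]

lemma start_unique (s : ℕ) (q q' : P2) (d b d' b' : Bool) (h : Start s q d b)
    (h' : Start s q' d' b') (h1 : |q.1 - q'.1| ≤ 2 * s) (h2 : |q.2 - q'.2| ≤ 2 * s) :
    q = q' ∧ d = d' ∧ b = b' := by
  unfold Start per at h h'
  set a : ℤ := 2 * s + 1 with ha
  have ha1 : 1 ≤ a := by omega
  have hd := dvd_sub h h'
  set dx := q.1 - q'.1 with hdx
  set dy := q.2 - q'.2 with hdy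
  set dk := kap d b - kap d' b' with hdk
  have e : a * q.1 + q.2 - kap d b * a ^ 2 - (a * q'.1 + q'.2 - kap d' b' * a ^ 2) =
      a * dx + dy - dk * a ^ 2 := by rw [hdx, hdy, hdk]; ring
  rw [e] at hd
  obtain ⟨x1, x2⟩ := abs_le.1 h1
  obtain ⟨y1, y2⟩ := abs_le.1 h2
  have k1 : -3 ≤ dk := by have := kap_bd d b; have := kap_bd d' b'; omega
  have k2 : dk ≤ 3 := by have := kap_bd d b; have := kap_bd d' b'; omega
  have u1 : a * dx + dy < a ^ 2 := by nlinarith
  have u2 : -(a ^ 2) < a * dx + dy := by nlinarith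
  have ha2 : 0 < a ^ 2 := by positivity
  have z : a * dx + dy - dk * a ^ 2 = 0 := by
    apply Int.eq_zero_of_abs_lt_dvd hd
    rw [abs_lt]; constructor <;> nlinarith
  have k0 : dk = 0 := by
    by_contra hne
    rcases lt_or_gt_of_ne hne with h3 | h3
    · nlinarith
    · nlinarith
  rw [k0] at z
  have x0 : dx = 0 := by
    by_contra hne
    rcases lt_or_gt_of_ne hne with h3 | h3
    · nlinarith
    · nlinarith
  have y0 : dy = 0 := by rw [x0] at z; linarith
  exact ⟨Prod.ext (by omega) (by omega), kap_inj (by omega)⟩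

lemma per_pos (s : ℕ) : 0 < per s := by unfold per; positivity

lemma per_gt (s : ℕ) : 3 * (s:ℤ) < per s := by
  unfold per
  have : (0:ℤ) ≤ s := by positivity
  nlinarith

lemma exists_shift (P : ℤ) (hP : 0 < P) (c y : ℤ) : ∃ t, 0 ≤ t ∧ t < P ∧ P ∣ y + t - c := by
  refine ⟨(c - y) % P, Int.emod_nonneg _ hP.ne', Int.emod_lt_of_pos _ hP, ?_⟩
  rw [Int.dvd_iff_emod_eq_zero]
  have : y + (c - y) % P - c = (c - y) % P - (c - y) := by ring
  rw [this]; simp

lemma dvd_of_eq {a b c : ℤ} (h : a ∣ b) (e : c = b) : a ∣ c := e ▸ h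

lemma col_start (s : ℕ) (p : P2) (d b : Bool) :
    ∃ t, 0 ≤ t ∧ t < per s ∧ Start s (p.1, p.2 + t) d b ∧ Start s (p.1, p.2 + (t + per s)) d b := by
  obtain ⟨t, h1, h2, h3⟩ := exists_shift _ (per_pos s)
    (kap d b * (2 * s + 1) ^ 2 - (2 * s + 1) * p.1) p.2
  refine ⟨t, h1, h2, ?_, ?_⟩
  · exact dvd_of_eq h3 (by simp only; ring)
  · exact dvd_of_eq (dvd_add h3 (dvd_refl (per s))) (by simp only; ring)

lemma row_start (s : ℕ) (p : P2) (d b : Bool) :
    ∃ t, 0 ≤ t ∧ t < per s ∧ Start s (p.1 + t, p.2) d b ∧ Start s (p.1 + (t + per s), p.2) d b := by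
  obtain ⟨t, h1, h2, h3⟩ := exists_shift _ (per_pos s)
    (-4 * (2 * s + 1) * (kap d b * (2 * s + 1) ^ 2 - p.2)) p.1
  have h4 : Start s (p.1 + t, p.2) d b := by
    unfold Start
    have := dvd_sub (Dvd.dvd.mul_left h3 (2 * s + 1))
      (Dvd.dvd.mul_left (dvd_refl (per s)) (kap d b * (2 * s + 1) ^ 2 - p.2))
    exact dvd_of_eq this (by unfold per; simp only; ring)
  refine ⟨t, h1, h2, h4, ?_⟩
  unfold Start at h4 ⊢
  exact dvd_of_eq (dvd_add h4 (Dvd.dvd.mul_left (dvd_refl (per s)) (2 * s + 1)))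
    (by simp only; ring)

def Run (s : ℕ) (q : P2) (d : Bool) (p : P2) : Prop :=
  if d then p.1 = q.1 ∧ q.2 ≤ p.2 ∧ p.2 < q.2 + s else p.2 = q.2 ∧ q.1 ≤ p.1 ∧ p.1 < q.1 + s

lemma run_box {s : ℕ} {q p : P2} {d : Bool} (h : Run s q d p) :
    q.1 ≤ p.1 ∧ p.1 ≤ q.1 + s ∧ q.2 ≤ p.2 ∧ p.2 ≤ q.2 + s := by
  unfold Run at h; split_ifs at h <;> omega

abbrev St := Bool → Set P2

def InW (w : P2) (D : ℤ) (p : P2) : Prop := w.1 ≤ p.1 ∧ p.1 ≤ w.1 + D ∧ w.2 ≤ p.2 ∧ p.2 ≤ w.2 + D

def Inv (D : ℤ) (c : St) : Prop :=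
  ∀ w : P2, (∃ j, ∀ b, ∀ p ∈ c b, InW w D p → p.2 = j) ∨ (∃ j, ∀ b, ∀ p ∈ c b, InW w D p → p.1 = j)

def Disj (c : St) : Prop := ∀ p, p ∈ c true → p ∈ c false → False

def big (s : ℕ) : ℕ := 2 * (4 * (2 * s + 1) ^ 2 + 1) + 3 * s

lemma big_eq (s : ℕ) : (big s : ℤ) = 2 * per s + 3 * s := by unfold big per; push_cast; ring

def Good (s : ℕ) (c : St) : Prop :=
  ∀ p : P2, (∀ b, ∃ t ∈ Finset.range (big s), ∀ i ∈ Finset.range s, (p.1 + t + i, p.2) ∈ c b) ∨
    (∀ b, ∃ t ∈ Finset.range (big s), ∀ i ∈ Finset.range s, (p.1, p.2 + t + i) ∈ c b)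

lemma Good.mono {s : ℕ} {c c' : St} (h : Good s c) (hc : ∀ b, c b ⊆ c' b) : Good s c' := by
  intro p
  rcases h p with h | h
  · left; intro b; obtain ⟨t, ht, h⟩ := h b; exact ⟨t, ht, fun i hi => hc b (h i hi)⟩
  · right; intro b; obtain ⟨t, ht, h⟩ := h b; exact ⟨t, ht, fun i hi => hc b (h i hi)⟩

def Act (s : ℕ) (c : St) (q : P2) : Prop :=
  ∀ b, ∀ p ∈ c b, ¬ InW (q.1 - s, q.2 - s) (3 * s) p

def nxt (s : ℕ) (c : St) : St := fun b =>
  c b ∪ {p | ∃ q d, Start s q d b ∧ Act s c q ∧ Run s q d p}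

lemma step (s : ℕ) (c : St) (hI : Inv (big s) c) (hD : Disj c) :
    Inv s (nxt s c) ∧ Disj (nxt s c) ∧ Good s (nxt s c) := by
  have hp := per_pos s
  have hg := per_gt s
  have hb := big_eq s
  refine ⟨fun w => ?_, ?_, fun p => ?_⟩
  · by_cases h : ∃ b p, (∃ q d, Start s q d b ∧ Act s c q ∧ Run s q d p) ∧ InW w s p
    · obtain ⟨b, p, ⟨q, d, h1, h2, h3⟩, h4⟩ := h
      have key : ∀ b', ∀ p' ∈ nxt s c b', InW w s p' → Run s q d p' := by
        rintro b' p' (h5 | ⟨q', d', g1, g2, g3⟩) h6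
        · exfalso
          apply h2 b' p' h5
          have := run_box h3
          unfold InW at *; simp only; omega
        · have a1 := run_box h3
          have a2 := run_box g3
          unfold InW at *
          obtain ⟨rfl, rfl, rfl⟩ := start_unique s q q' d b d' b' h1 g1
            (by rw [abs_le]; omega) (by rw [abs_le]; omega)
          exact g3
      cases d
      · left; exact ⟨q.2, fun b' p' h5 h6 => by have := key b' p' h5 h6; simp [Run] at this; omega⟩
      · right; exact ⟨q.1, fun b' p' h5 h6 => by have := key b' p' h5 h6; simp [Run] at this; omega⟩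
    · have key : ∀ b', ∀ p' ∈ nxt s c b', InW w s p' → p' ∈ c b' ∧ InW w (big s) p' := by
        rintro b' p' (h5 | h5) h6
        · exact ⟨h5, by unfold InW at *; omega⟩
        · exact (h ⟨b', p', h5, h6⟩).elim
      rcases hI w with ⟨j, hj⟩ | ⟨j, hj⟩
      · left; exact ⟨j, fun b' p' h5 h6 => hj b' p' (key b' p' h5 h6).1 (key b' p' h5 h6).2⟩
      · right; exact ⟨j, fun b' p' h5 h6 => hj b' p' (key b' p' h5 h6).1 (key b' p' h5 h6).2⟩
  · rintro p (h1 | ⟨q, d, h1, h2, h3⟩) (g1 | ⟨q', d', g1, g2, g3⟩)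
    · exact hD p h1 g1
    · apply g2 _ p h1
      have := run_box g3
      unfold InW; simp only; omega
    · apply h2 _ p g1
      have := run_box h3
      unfold InW; simp only; omega
    · have a1 := run_box h3
      have a2 := run_box g3
      have := start_unique s q q' d true d' false h1 g1
            (by rw [abs_le]; omega) (by rw [abs_le]; omega)
      simp at this
  · rcases hI (p.1 - s, p.2 - s) with ⟨j, hj⟩ | ⟨j, hj⟩
    · right
      intro b
      obtain ⟨t, t1, t2, t3, t4⟩ := col_start s p true b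
      have : ∃ u : ℤ, 0 ≤ u ∧ u < 2 * per s ∧ Start s (p.1, p.2 + u) true b ∧
          (j < p.2 + u - s ∨ p.2 + u + 2 * s < j) := by
        by_cases hc : j < p.2 + t - s ∨ p.2 + t + 2 * s < j
        · exact ⟨t, t1, by omega, t3, hc⟩
        · exact ⟨t + per s, by omega, by omega, t4, by omega⟩
      obtain ⟨u, u1, u2, u3, u4⟩ := this
      obtain ⟨u, rfl⟩ := Int.eq_ofNat_of_zero_le u1
      refine ⟨u, by rw [Finset.mem_range]; omega, fun i hi => Or.inr ⟨_, true, u3, ?_, ?_⟩⟩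
      · intro b' p' h5 h6
        have := hj b' p' h5 (by unfold InW at *; simp only at *; omega)
        unfold InW at h6; simp only at h6; omega
      · rw [Finset.mem_range] at hi
        simp [Run]; omega
    · left
      intro b
      obtain ⟨t, t1, t2, t3, t4⟩ := row_start s p false b
      have : ∃ u : ℤ, 0 ≤ u ∧ u < 2 * per s ∧ Start s (p.1 + u, p.2) false b ∧
          (j < p.1 + u - s ∨ p.1 + u + 2 * s < j) := by
        by_cases hc : j < p.1 + t - s ∨ p.1 + t + 2 * s < j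
        · exact ⟨t, t1, by omega, t3, hc⟩
        · exact ⟨t + per s, by omega, by omega, t4, by omega⟩
      obtain ⟨u, u1, u2, u3, u4⟩ := this
      obtain ⟨u, rfl⟩ := Int.eq_ofNat_of_zero_le u1
      refine ⟨u, by rw [Finset.mem_range]; omega, fun i hi => Or.inr ⟨_, false, u3, ?_, ?_⟩⟩
      · intro b' p' h5 h6
        have := hj b' p' h5 (by unfold InW at *; simp only at *; omega)
        unfold InW at h6; simp only at h6; omega
      · rw [Finset.mem_range] at hi
        simp [Run]; omega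

def lev : ℕ → ℕ := fun k => big^[k] 0

lemma lev_succ (k : ℕ) : lev (k+1) = big (lev k) := Function.iterate_succ_apply' _ _ _

lemma lev_ge (k : ℕ) : k ≤ lev k := by
  induction k with
  | zero => exact Nat.zero_le _
  | succ k ih => rw [lev_succ]; unfold big; omega

lemma all (K : ℕ) (c : St) (hI : Inv (lev K) c) (hD : Disj c) :
    ∃ c' : St, (∀ b, c b ⊆ c' b) ∧ Disj c' ∧ ∀ k < K, Good (lev k) c' := by
  induction K generalizing c with
  | zero => exact ⟨c, fun _ => subset_rfl, hD, fun k hk => absurd hk (Nat.not_lt_zero _)⟩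
  | succ K ih =>
    rw [lev_succ] at hI
    obtain ⟨h1, h2, h3⟩ := step (lev K) c hI hD
    obtain ⟨c', g1, g2, g3⟩ := ih _ h1 h2
    refine ⟨c', fun b => subset_trans Set.subset_union_left (g1 b), g2, fun k hk => ?_⟩
    rcases Nat.lt_succ_iff_lt_or_eq.1 hk with h | rfl
    · exact g3 k h
    · exact h3.mono g1

abbrev Cf := P2 → Bool

def st (x : Cf) : St := fun b => {p | x p = b}

def G (k : ℕ) : Set Cf := {x | Good (lev k) (st x)}

lemma clo (p : P2) (b : Bool) : IsClosed {x : Cf | x p = b} :=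
  isClosed_eq (continuous_apply p) continuous_const

lemma G_closed (k : ℕ) : IsClosed (G k) := by
  have : G k = ⋂ p : P2, ((⋂ b, ⋃ t ∈ Finset.range (big (lev k)), ⋂ i ∈ Finset.range (lev k),
      {x : Cf | x (p.1 + t + i, p.2) = b}) ∪ (⋂ b, ⋃ t ∈ Finset.range (big (lev k)),
        ⋂ i ∈ Finset.range (lev k), {x : Cf | x (p.1, p.2 + t + i) = b})) := by
    ext x
    simp only [G, Good, st, Set.mem_setOf_eq, Set.mem_iInter, Set.mem_union, Set.mem_iUnion,
      exists_prop]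
  rw [this]
  refine isClosed_iInter fun p => IsClosed.union ?_ ?_ <;>
  exact isClosed_iInter fun b => isClosed_biUnion_finset fun t _ =>
    isClosed_biInter fun i _ => clo _ _

def X : Set Cf := ⋂ k, G k

lemma X_closed : IsClosed X := isClosed_iInter G_closed

lemma X_ne : X.Nonempty := by
  classical
  have h : ∀ K, (⋂ k < K, G k).Nonempty := by
    intro K
    obtain ⟨c, -, h2, h3⟩ := all K (fun _ => ∅) (fun w => Or.inl ⟨0, fun b p hp => hp.elim⟩)
      (fun p hp => hp.elim)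
    refine ⟨fun p => decide (p ∈ c true), ?_⟩
    simp only [Set.mem_iInter]
    intro k hk
    refine (h3 k hk).mono fun b p hp => ?_
    cases b
    · simp only [st, Set.mem_setOf_eq, decide_eq_false_iff_not]
      exact fun h => h2 p h hp
    · simpa [st] using hp
  have hc : ∀ K, IsClosed (⋂ k < K, G k) := fun K => isClosed_biInter fun k _ => G_closed k
  obtain ⟨x, hx⟩ := IsCompact.nonempty_iInter_of_sequence_nonempty_isCompact_isClosed
    (fun K => ⋂ k < K, G k) (fun K => Set.biInter_subset_biInter_left fun k hk =>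
      Nat.lt_succ_of_lt hk) h (hc 0).isCompact hc
  simp only [Set.mem_iInter] at hx
  exact ⟨x, Set.mem_iInter.2 fun k => hx (k+1) k (Nat.lt_succ_self k)⟩

def sh (v : P2) (x : Cf) : Cf := fun p => x (p + v)

lemma sh_X (v : P2) (x : Cf) (hx : x ∈ X) : sh v x ∈ X := by
  refine Set.mem_iInter.2 fun k p => ?_
  rcases Set.mem_iInter.1 hx k (p + v) with h | h
  · left; intro b; obtain ⟨t, ht, h⟩ := h b
    refine ⟨t, ht, fun i hi => ?_⟩
    have := h i hi
    simp only [st, sh, Set.mem_setOf_eq] at this ⊢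
    rw [← this]; congr 1; ext <;> simp; ring
  · right; intro b; obtain ⟨t, ht, h⟩ := h b
    refine ⟨t, ht, fun i hi => ?_⟩
    have := h i hi
    simp only [st, sh, Set.mem_setOf_eq] at this ⊢
    rw [← this]; congr 1; ext <;> simp; ring

def shX (v : P2) (x : X) : X := ⟨sh v x, sh_X v x x.2⟩

lemma cont_shX (v : P2) : Continuous (shX v) := by
  refine Continuous.subtype_mk (continuous_pi fun p => ?_) _
  exact (continuous_apply (A := fun _ : P2 => Bool) (p + v)).comp continuous_subtype_val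

lemma shX_comm (u v : P2) : shX u ∘ shX v = shX v ∘ shX u := by
  funext x; apply Subtype.ext; funext p
  simp only [Function.comp, shX, sh]; congr 1; abel

lemma shX_iter (v : P2) (k : ℕ) (x : X) (p : P2) : ((shX v)^[k] x).1 p = x.1 (p + k • v) := by
  induction k generalizing p with
  | zero => simp
  | succ k ih =>
    rw [Function.iterate_succ_apply']
    show ((shX v)^[k] x).1 (p + v) = _
    rw [ih, succ_nsmul]; congr 1; abel

theorem main (x : X)
    (h1 : ∀ U ∈ 𝓝 x, ∃ N : ℕ, ∀ m : ℕ, ∃ k : ℕ, m ≤ k ∧ k ≤ m + N ∧ (shX (1, 0))^[k] x ∈ U)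
    (h2 : ∀ U ∈ 𝓝 x, ∃ N : ℕ, ∀ m : ℕ, ∃ k : ℕ, m ≤ k ∧ k ≤ m + N ∧ (shX (0, 1))^[k] x ∈ U) :
    False := by
  have hU : {y : X | y.1 0 = x.1 0} ∈ 𝓝 x := by
    refine IsOpen.mem_nhds ?_ rfl
    exact (isOpen_discrete {x.1 0}).preimage
      ((continuous_apply (A := fun _ : P2 => Bool) 0).comp continuous_subtype_val)
  obtain ⟨N1, g1⟩ := h1 _ hU
  obtain ⟨N2, g2⟩ := h2 _ hU
  have hl := lev_ge (N1 + N2 + 1)
  rcases Set.mem_iInter.1 x.2 (N1 + N2 + 1) 0 with h | h
  · obtain ⟨t, -, h⟩ := h (!x.1 0)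
    obtain ⟨k, k1, k2, k3⟩ := g1 t
    have := h (k - t) (by rw [Finset.mem_range]; omega)
    simp only [Set.mem_setOf_eq, shX_iter, st] at k3 this
    rw [← k3] at this
    have e : (((0:P2).1 + t + ((k - t : ℕ):ℤ), (0:P2).2) : P2) = 0 + k • ((1, 0) : P2) := by
      ext <;> simp; omega
    rw [e] at this
    simp at this
  · obtain ⟨t, -, h⟩ := h (!x.1 0)
    obtain ⟨k, k1, k2, k3⟩ := g2 t
    have := h (k - t) (by rw [Finset.mem_range]; omega)
    simp only [Set.mem_setOf_eq, shX_iter, st] at k3 this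
    rw [← k3] at this
    have e : (((0:P2).1, (0:P2).2 + t + ((k - t : ℕ):ℤ)) : P2) = 0 + k • ((0, 1) : P2) := by
      ext <;> simp; omega
    rw [e] at this
    simp at this

end Pool.Agent.H98.Snoha
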