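import Mathlib

set_option autoImplicit false

namespace Pool.Agent.H98.Solenoid

open Filter Topology

abbrev T := AddCircle (1:ℝ)

def S : AddSubgroup (ℕ → T) where
  carrier := {x | ∀ n, 2 • x (n + 1) = x n}
  add_mem' := fun {a b} ha hb n => by simp only [Pi.add_apply, smul_add, ha n, hb n]
  zero_mem' := fun n => by simp
  neg_mem' := fun {a} ha n => by simp only [Pi.neg_apply, smul_neg, ha n]

lemma S_closed : IsClosed (S : Set (ℕ → T)) := by
  have : (S : Set (ℕ → T)) = ⋂ n, {x | 2 • x (n + 1) = x n} := by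
    ext x; simp only [Set.mem_iInter]; rfl
  rw [this]
  exact isClosed_iInter fun n => isClosed_eq (by fun_prop) (by fun_prop)

instance : CompactSpace S := isCompact_iff_compactSpace.1 S_closed.isCompact

lemma cont_co (n : ℕ) : Continuous (fun x : S => x.1 n) :=
  (continuous_apply n).comp continuous_subtype_val

lemma cont_coe : Continuous (fun x : ℝ => (x : T)) := continuous_quotient_mk'

lemma rel (x : S) (n : ℕ) : 2 • x.1 (n + 1) = x.1 n := x.2 n

lemma rel_pow (x : S) (n k : ℕ) : 2 ^ k • x.1 (n + k) = x.1 n := by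
  induction k with
  | zero => simp
  | succ k ih => rw [pow_succ, mul_smul, ← add_assoc, rel, ih]

noncomputable def io : ℝ →+ S where
  toFun t := ⟨fun n => ((t / 2 ^ n : ℝ) : T), fun n => by
    rw [← AddCircle.coe_nsmul]; congr 1; rw [pow_succ, nsmul_eq_mul]; push_cast; field_simp⟩
  map_zero' := by apply Subtype.ext; funext n; simp
  map_add' a b := by apply Subtype.ext; funext n; simp [add_div]

lemma io_co (t : ℝ) (n : ℕ) : (io t).1 n = ((t / 2 ^ n : ℝ) : T) := rfl

lemma io_zero (t : ℝ) : (io t).1 0 = (t : T) := by simp [io_co]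

lemma cont_io : Continuous io :=
  Continuous.subtype_mk (continuous_pi fun n => cont_coe.comp (by fun_prop)) _

def A : S ≃ₜ S where
  toFun x := 2 • x
  invFun x := ⟨fun n => x.1 (n + 1), fun n => rel x (n + 1)⟩
  left_inv x := by apply Subtype.ext; funext n; exact rel x n
  right_inv x := by apply Subtype.ext; funext n; exact rel x n
  continuous_toFun := by fun_prop
  continuous_invFun := Continuous.subtype_mk (continuous_pi fun n => cont_co _) _

lemma A_apply (x : S) : A x = 2 • x := rfl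
lemma A_symm_co (x : S) (n : ℕ) : (A.symm x).1 n = x.1 (n + 1) := rfl

lemma A_iter (k : ℕ) (x : S) : A^[k] x = 2 ^ k • x := by
  induction k with
  | zero => simp
  | succ k ih => rw [Function.iterate_succ_apply', ih, A_apply, pow_succ', mul_smul]

/-- approximation principle -/
lemma mem_closure_of (D : Set S) (x : S)
    (h : ∀ J : ℕ, ∀ ε > 0, ∃ y ∈ D, dist (y.1 J) (x.1 J) < ε) : x ∈ closure D := by
  choose y hy hd using fun J : ℕ => h J ((1/4) ^ J) (by positivity)
  refine mem_closure_of_tendsto (f := y) (b := atTop) ?_ (Eventually.of_forall hy)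
  rw [tendsto_subtype_rng, tendsto_pi_nhds]
  intro j
  rw [tendsto_iff_dist_tendsto_zero]
  refine squeeze_zero' (Eventually.of_forall fun _ => dist_nonneg) ?_
    (tendsto_pow_atTop_nhds_zero_of_lt_one (r := (1/2 : ℝ)) (by norm_num) (by norm_num))
  filter_upwards [eventually_ge_atTop j] with J hJ
  obtain ⟨k, rfl⟩ := Nat.exists_eq_add_of_le hJ
  rw [← rel_pow (y (j + k)) j k, ← rel_pow x j k, dist_eq_norm, ← smul_sub]
  refine le_trans norm_nsmul_le ?_
  have h1 := hd (j + k)
  rw [dist_eq_norm] at h1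
  calc ((2 ^ k : ℕ) : ℝ) * ‖(y (j + k)).1 (j + k) - x.1 (j + k)‖ ≤ 2 ^ (j + k) * (1/4) ^ (j + k) := by
        refine mul_le_mul ?_ h1.le (norm_nonneg _) (by positivity)
        push_cast
        exact pow_le_pow_right₀ (by norm_num) (by omega)
    _ = (1/2) ^ (j + k) := by rw [← mul_pow]; norm_num

lemma dense_io : DenseRange io := by
  intro x
  refine mem_closure_of _ x fun J ε hε => ?_
  obtain ⟨t, ht⟩ := QuotientAddGroup.mk_surjective (x.1 J)
  refine ⟨io (t * 2 ^ J), ⟨_, rfl⟩, ?_⟩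
  rw [io_co, mul_div_cancel_right₀ _ (by positivity), ht, dist_self]
  exact hε

instance : PreconnectedSpace S := dense_io.preconnectedSpace cont_io

lemma io_inj : Function.Injective io := by
  rw [injective_iff_map_eq_zero]
  intro t ht
  obtain ⟨n, hn⟩ := pow_unbounded_of_one_lt (2 * |t|) (by norm_num : (1:ℝ) < 2)
  have h1 : ‖((t / 2 ^ n : ℝ) : T)‖ = |t / 2 ^ n| := by
    rw [AddCircle.norm_coe_eq_abs_iff _ one_ne_zero, abs_div, abs_of_pos (by positivity : (0:ℝ) < 2 ^ n),
      div_le_iff₀ (by positivity)]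
    simp only [abs_one]; linarith
  rw [← io_co, ht] at h1
  simp only [ZeroMemClass.coe_zero, Pi.zero_apply, norm_zero] at h1
  have := abs_eq_zero.1 h1.symm
  simpa using this

instance : Uncountable S := io_inj.uncountable

def Per (n : ℕ) : Set S := {x | A^[n + 1] x = x}

lemma Per_finite (n : ℕ) : (Per n).Finite := by
  have hpos : 0 < 2 ^ (n + 1) - 1 := by
    have := Nat.one_lt_two_pow (Nat.succ_ne_zero n); omega
  refine Set.Finite.of_finite_image (f := fun x : S => x.1 0)
    ((AddCircle.finite_torsion (1:ℝ) hpos).subset ?_) ?_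
  · rintro _ ⟨x, hx, rfl⟩
    have h : 2 ^ (n + 1) • x.1 0 = x.1 0 := by
      have := congrArg (fun z : S => z.1 0) hx
      simpa [A_iter] using this
    show (2 ^ (n + 1) - 1) • x.1 0 = 0
    rw [sub_nsmul _ (Nat.one_le_two_pow), h]; simp
  · have key : ∀ x ∈ Per n, ∀ j, x.1 j = 2 ^ (n * j) • x.1 0 := by
      intro x hx j
      have h : ∀ m, 2 ^ ((n + 1) * m) • x = x := by
        intro m
        have := (Function.IsPeriodicPt.mul_const (f := A) (x := x) hx m).eq
        rwa [A_iter] at this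
      have h2 := congrArg (fun z : S => z.1 j) (h j)
      have h3 := rel_pow x 0 j
      rw [zero_add] at h3
      rw [← h3, ← mul_smul, ← pow_add, show n * j + j = (n + 1) * j by ring]
      simpa using h2.symm
    intro x hx y hy hxy
    apply Subtype.ext; funext j
    rw [key x hx, key y hy]; exact congrArg _ hxy

lemma Per_dense : Dense (⋃ n, Per n) := by
  intro x
  refine mem_closure_of _ x fun J ε hε => ?_
  obtain ⟨t, ht⟩ := QuotientAddGroup.mk_surjective (x.1 J)
  obtain ⟨n, hn⟩ := pow_unbounded_of_one_lt (1 / ε) (by norm_num : (1:ℝ) < 2)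
  set q : ℝ := 2 ^ (n + 1) - 1 with hq
  have h2n : (1:ℝ) ≤ 2 ^ n := one_le_pow₀ (by norm_num)
  have hq1 : 2 ^ n ≤ q := by rw [hq, pow_succ]; linarith
  have hq0 : 0 < q := by linarith
  set a : T := ((⌊t * q⌋ / q : ℝ) : T) with ha
  have h1 : 2 ^ (n + 1) • a = a := by
    rw [ha, ← AddCircle.coe_nsmul, ← sub_eq_zero, ← AddCircle.coe_sub, AddCircle.coe_eq_zero_iff]
    refine ⟨⌊t * q⌋, ?_⟩
    rw [nsmul_eq_mul, zsmul_eq_mul]; push_cast
    have : (2:ℝ) ^ (n + 1) = q + 1 := by rw [hq]; ring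
    rw [this]; field_simp; ring
  have h2 : ∀ m, 2 ^ ((n + 1) * m) • a = a := by
    intro m
    induction m with
    | zero => simp
    | succ m ih => rw [Nat.mul_succ, pow_add, mul_smul, h1, ih]
  refine ⟨⟨fun j => 2 ^ (J + n * j) • a, fun j => ?_⟩, Set.mem_iUnion.2 ⟨n, ?_⟩, ?_⟩
  · rw [← mul_smul, ← pow_succ', show J + n * (j + 1) + 1 = (J + n * j) + (n + 1) by ring, pow_add,
      mul_smul, h1]
  · show A^[n+1] _ = _
    rw [A_iter]
    apply Subtype.ext; funext j
    show 2 ^ (n + 1) • 2 ^ (J + n * j) • a = 2 ^ (J + n * j) • a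
    rw [smul_comm, h1]
  · show dist (2 ^ (J + n * J) • a) _ < ε
    rw [show J + n * J = (n + 1) * J by ring, h2, ← ht, ha, dist_eq_norm, ← AddCircle.coe_sub]
    refine lt_of_le_of_lt QuotientAddGroup.norm_mk_le_norm ?_
    have e : (⌊t * q⌋ / q - t : ℝ) = -(Int.fract (t * q) / q) := by
      rw [Int.fract]; field_simp; ring
    rw [e, norm_neg, Real.norm_eq_abs, abs_of_nonneg (div_nonneg (Int.fract_nonneg _) hq0.le),
      div_lt_iff₀ hq0]
    rw [div_lt_iff₀ hε] at hn
    have := Int.fract_lt_one (t * q)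
    nlinarith

lemma surj_of_inj (h : S → S) (hc : Continuous h) (hA : ∀ x, h (A x) = A (h x))
    (hi : Function.Injective h) : Function.Surjective h := by
  have h1 : ⋃ n, Per n ⊆ Set.range h := by
    intro x hx
    obtain ⟨n, hn⟩ := Set.mem_iUnion.1 hx
    have hm : Set.MapsTo h (Per n) (Per n) := fun y hy => by
      have := (Function.Semiconj.iterate_right (f := h) (ga := A) (gb := A) hA (n+1)).eq y
      show A^[n+1] (h y) = h y
      rw [← this, hy]
    obtain ⟨y, -, hy⟩ := ((Per_finite n).injOn_iff_bijOn_of_mapsTo hm).1 hi.injOn |>.surjOn hn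
    exact ⟨y, hy⟩
  have h2 : IsClosed (Set.range h) := (isCompact_range hc).isClosed
  intro y
  exact closure_minimal h1 h2 (Per_dense y)

noncomputable def lf (u : T) : ℝ := AddCircle.equivIco 1 (-(1/2)) u

lemma coe_lf (u : T) : (lf u : T) = u := AddCircle.coe_equivIco

lemma lf_coe (t : ℝ) (h : |t| < 1/2) : lf (t : T) = t :=
  AddCircle.equivIco_coe_of_mem ⟨by linarith [(abs_lt.1 h).1], by linarith [(abs_lt.1 h).2]⟩

lemma norm_coe (t : ℝ) (h : |t| ≤ 1/2) : ‖(t : T)‖ = |t| := by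
  rw [AddCircle.norm_coe_eq_abs_iff _ one_ne_zero]; simpa using h

lemma abs_lf (u : T) : |lf u| = ‖u‖ := by
  conv_rhs => rw [← coe_lf u]
  rw [norm_coe]
  have := (AddCircle.equivIco 1 (-(1/2)) u).2
  rw [abs_le]
  exact ⟨this.1, by have := this.2; unfold lf; linarith⟩

lemma lf_add (u v : T) (hu : ‖u‖ ≤ 1/8) (hv : ‖v‖ ≤ 1/8) : lf (u + v) = lf u + lf v := by
  conv_lhs => rw [← coe_lf u, ← coe_lf v, ← AddCircle.coe_add]
  apply lf_coe
  have := abs_add_le (lf u) (lf v)
  rw [abs_lf, abs_lf] at this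
  linarith

lemma contAt_lf (u : T) (hu : ‖u‖ ≤ 1/8) : ContinuousAt lf u := by
  refine continuousAt_subtype_val.comp (AddCircle.continuousAt_equivIco 1 _ ?_)
  rintro rfl
  rw [norm_coe _ (by norm_num)] at hu
  norm_num at hu

lemma norm_le (u : T) : ‖u‖ ≤ 1 := by
  have := AddCircle.norm_le_half_period (1:ℝ) (x := u) one_ne_zero
  simp only [abs_one] at this; linarith

lemma small_zero (u : T) (h : ∀ m : ℕ, ‖2 ^ m • u‖ ≤ 1/8) : u = 0 := by
  have key : ∀ m : ℕ, lf (2 ^ m • u) = 2 ^ m * lf u := by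
    intro m
    induction m with
    | zero => simp
    | succ m ih => rw [pow_succ', mul_smul, two_smul, lf_add _ _ (h m) (h m), ih]; ring
  by_contra hu
  have h0 : 0 < ‖u‖ := norm_pos_iff.2 hu
  obtain ⟨n, hn⟩ := pow_unbounded_of_one_lt (1 / ‖u‖) (by norm_num : (1:ℝ) < 2)
  have h1 := h n
  rw [← abs_lf, key, abs_mul, abs_lf, abs_of_pos (by positivity)] at h1
  rw [div_lt_iff₀ h0] at hn
  linarith

noncomputable def N (x : S) : ℝ := ∑' n, (1/2 : ℝ) ^ n * ‖x.1 n‖

lemma N_bd (x : S) (n : ℕ) : ‖(1/2 : ℝ) ^ n * ‖x.1 n‖‖ ≤ (1/2 : ℝ) ^ n := by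
  rw [Real.norm_eq_abs, abs_of_nonneg (by positivity)]
  exact mul_le_of_le_one_right (by positivity) (norm_le _)

lemma N_summ (x : S) : Summable fun n => (1/2 : ℝ) ^ n * ‖x.1 n‖ :=
  Summable.of_norm_bounded summable_geometric_two (N_bd x)

lemma cont_N : Continuous N :=
  continuous_tsum (fun n => continuous_const.mul (cont_co n).norm) summable_geometric_two
    (fun n x => N_bd x n)

lemma le_N (x : S) (n : ℕ) : (1/2 : ℝ) ^ n * ‖x.1 n‖ ≤ N x :=
  (N_summ x).le_tsum n fun _ _ => by positivity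

lemma N_nonneg (x : S) : 0 ≤ N x := le_trans (by positivity) (le_N x 0)

lemma le_N0 (x : S) : ‖x.1 0‖ ≤ N x := by simpa using le_N x 0

lemma N_zero : N 0 = 0 := by simp [N]

lemma N_eq_zero (x : S) (h : N x = 0) : x = 0 := by
  apply Subtype.ext; funext n
  have h1 := le_N x n
  rw [h] at h1
  have h2 : (0:ℝ) < (1/2) ^ n := by positivity
  have h3 : ‖x.1 n‖ ≤ 0 := by
    by_contra h4
    have := mul_pos h2 (lt_of_not_ge h4)
    linarith
  exact norm_le_zero_iff.1 h3

lemma N_neg (x : S) : N (-x) = N x := by simp [N]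

lemma N_add (x y : S) : N (x + y) ≤ N x + N y := by
  unfold N
  rw [← (N_summ x).tsum_add (N_summ y)]
  refine (N_summ _).tsum_le_tsum (fun n => ?_) ((N_summ x).add (N_summ y))
  rw [← mul_add]
  exact mul_le_mul_of_nonneg_left (norm_add_le _ _) (by positivity)

lemma N_stable (u : S) (h : u.1 0 = 0) : N (2 • u) = 1/2 * N u := by
  unfold N
  rw [(N_summ _).tsum_eq_zero_add, ← tsum_mul_left]
  have : (2 • u).1 0 = 0 := by
    show 2 • u.1 0 = 0
    rw [h, smul_zero]
  rw [this, norm_zero, mul_zero, zero_add]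
  refine tsum_congr fun n => ?_
  have : (2 • u).1 (n + 1) = u.1 n := rel u n
  rw [this]; ring

lemma N_unstable (t : ℝ) (h : |t| ≤ 1/2) : N (io (t / 2)) = 1/2 * N (io t) := by
  unfold N
  rw [← tsum_mul_left]
  refine tsum_congr fun n => ?_
  have h1 : (1:ℝ) ≤ 2 ^ n := one_le_pow₀ (by norm_num)
  have h2 : |t / 2 ^ n| ≤ 1/2 := by
    rw [abs_div, abs_of_pos (by positivity : (0:ℝ) < 2 ^ n)]
    exact le_trans (div_le_self (abs_nonneg _) h1) h
  have e : |t / 2 / 2 ^ n| = 1/2 * |t / 2 ^ n| := by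
    rw [show t / 2 / 2 ^ n = 1/2 * (t / 2 ^ n) by ring, abs_mul]; norm_num
  rw [io_co, io_co, norm_coe _ h2, norm_coe _ (by rw [e]; linarith [abs_nonneg (t / 2 ^ n)]), e]
  ring

lemma A_symm_io (t : ℝ) : A.symm (io t) = io (t / 2) := by
  rw [Homeomorph.symm_apply_eq, A_apply, ← map_nsmul]; congr 1; simp; ring

lemma A_symm_sub (x y : S) : A.symm x - A.symm y = A.symm (x - y) := rfl

/-- a continuous map from a connected space that is uniformly forward asymptotic to zero
is constant -/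
lemma const_of_asym (δ : S → S) (hc : Continuous δ) (M : ℕ)
    (h : ∀ n ≥ M, ∀ x, ‖(2 ^ n • δ x).1 0‖ ≤ 1/8) (x y : S) : δ x = δ y := by
  have h0 : ∀ x, (2 ^ M • δ x).1 0 = 0 := fun x => small_zero _ fun m => by
    have := h (m + M) (by omega) x
    rwa [pow_add, mul_smul] at this
  apply Subtype.ext; funext j
  have hf := AddCircle.finite_torsion (1:ℝ) (n := 2 ^ M * 2 ^ j) (by positivity)
  have hsub : Set.range (fun x => (δ x).1 j) ⊆ {u : T | (2 ^ M * 2 ^ j) • u = 0} := by
    rintro _ ⟨x, rfl⟩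
    have h3 := rel_pow (δ x) 0 j
    rw [zero_add] at h3
    show (2 ^ M * 2 ^ j) • (δ x).1 j = 0
    rw [mul_smul, h3]; exact h0 x
  exact hf.countable.isTotallyDisconnected _ hsub (isPreconnected_range ((cont_co j).comp hc))
    ⟨x, rfl⟩ ⟨y, rfl⟩

end Pool.Agent.H98.Solenoid
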