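import Mathlib

set_option autoImplicit false

namespace Pool.Agent.H98.Spacing

open Set Filter Topology
open scoped Classical

/-- the spacing shift. -/
def SP (P : Set ℕ) : Set (ℕ → Bool) :=
  {x | ∀ i j, i < j → x i = true → x j = true → j - i ∈ P}

lemma SP_closed (P : Set ℕ) : IsClosed (SP P) := by
  have : SP P = ⋂ i, ⋂ j, ⋂ _ : i < j ∧ j - i ∉ P,
      ({x : ℕ → Bool | x i = false} ∪ {x | x j = false}) := by
    ext x
    simp only [SP, mem_setOf_eq, mem_iInter, mem_union]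
    constructor
    · intro h i j hij
      by_contra hc
      push Not at hc
      exact hij.2 (h i j hij.1 (by simpa using hc.1) (by simpa using hc.2))
    · intro h i j hij hi hj
      by_contra hc
      rcases h i j ⟨hij, hc⟩ with h | h <;> simp_all
  rw [this]
  exact isClosed_iInter fun i => isClosed_iInter fun j => isClosed_iInter fun _ =>
    (isClosed_eq (continuous_apply i) continuous_const).union
      (isClosed_eq (continuous_apply j) continuous_const)

instance (P : Set ℕ) : CompactSpace (SP P) := isCompact_iff_compactSpace.1 (SP_closed P).isCompact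

@[reducible] noncomputable def met (P : Set ℕ) : MetricSpace (SP P) :=
  @Subtype.metricSpace (ℕ → Bool) (· ∈ SP P) (PiNat.metricSpace (E := fun _ : ℕ => Bool))

variable {P : Set ℕ}

def sh (x : SP P) : SP P := ⟨fun i => x.1 (i + 1), fun i j hij hi hj => by
  have := x.2 (i + 1) (j + 1) (by omega) hi hj
  rwa [Nat.add_sub_add_right] at this⟩

lemma sh_cont : Continuous (sh : SP P → SP P) :=
  Continuous.subtype_mk (continuous_pi fun i =>
    (continuous_apply (A := fun _ : ℕ => Bool) (i + 1)).comp continuous_subtype_val) _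

lemma sh_iter (n : ℕ) (x : SP P) (i : ℕ) : (sh^[n] x).1 i = x.1 (i + n) := by
  induction n generalizing i with
  | zero => rfl
  | succ n ih =>
    rw [Function.iterate_succ_apply']
    change (sh^[n] x).1 (i + 1) = _
    rw [ih, Nat.add_right_comm]; rfl

lemma sh_surj : Function.Surjective (sh : SP P → SP P) := by
  intro x
  refine ⟨⟨fun i => if i = 0 then false else x.1 (i - 1), fun i j hij hi hj => ?_⟩, ?_⟩
  · have hi0 : i ≠ 0 := by rintro rfl; simp at hi
    have hj0 : j ≠ 0 := by omega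
    simp only [hi0, hj0, if_false] at hi hj
    have := x.2 (i - 1) (j - 1) (by omega) hi hj
    have e : j - 1 - (i - 1) = j - i := by omega
    rwa [e] at this
  · ext i
    simp [sh]

lemma coord_cont (i : ℕ) : Continuous fun x : SP P => x.1 i :=
  (continuous_apply i).comp continuous_subtype_val

lemma coord_open (i : ℕ) (b : Bool) : IsOpen {x : SP P | x.1 i = b} :=
  (isOpen_discrete {b}).preimage (coord_cont i)

lemma coord_closed (i : ℕ) (b : Bool) : IsClosed {x : SP P | x.1 i = b} :=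
  isClosed_eq (coord_cont i) continuous_const

lemma cyl_pi {U : Set (ℕ → Bool)} {x : ℕ → Bool} (hU : U ∈ 𝓝 x) :
    ∃ m, ∀ y : ℕ → Bool, (∀ i < m, y i = x i) → y ∈ U := by
  obtain ⟨_, ⟨y, m, rfl⟩, hx, hs⟩ :=
    (PiNat.isTopologicalBasis_cylinders (fun _ : ℕ => Bool)).mem_nhds_iff.1 hU
  refine ⟨m, fun z hz => hs ?_⟩
  rw [PiNat.mem_cylinder_iff] at hx ⊢
  intro i hi
  rw [hz i hi, hx i hi]

lemma cyl {U : Set (SP P)} {x : SP P} (hU : U ∈ 𝓝 x) :
    ∃ m, ∀ y : SP P, (∀ i < m, y.1 i = x.1 i) → y ∈ U := by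
  rw [nhds_subtype_eq_comap, mem_comap] at hU
  obtain ⟨V, hV, hVU⟩ := hU
  obtain ⟨m, hm⟩ := cyl_pi hV
  exact ⟨m, fun y hy => hVU (hm _ hy)⟩

lemma cyl2 {Q : Set ℕ} {U : Set (SP P × SP Q)} {x : SP P × SP Q} (hU : U ∈ 𝓝 x) :
    ∃ m, ∀ y : SP P × SP Q, (∀ i < m, y.1.1 i = x.1.1 i) → (∀ i < m, y.2.1 i = x.2.1 i) →
      y ∈ U := by
  obtain ⟨A, hA, B, hB, h⟩ := mem_nhds_prod_iff.1 hU
  obtain ⟨m1, h1⟩ := cyl hA
  obtain ⟨m2, h2⟩ := cyl hB
  exact ⟨max m1 m2, fun y hy1 hy2 => h ⟨h1 _ fun i hi => hy1 i (lt_max_of_lt_left hi),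
    h2 _ fun i hi => hy2 i (lt_max_of_lt_right hi)⟩⟩

/-- `n` lies deep inside `P`. -/
def Deep (P : Set ℕ) (m n : ℕ) : Prop := m ≤ n ∧ ∀ d, n < d + m → d < n + m → d ∈ P

lemma join {m n : ℕ} (h : Deep P m n) (x y : SP P) :
    ∃ z : SP P, (∀ i < m, z.1 i = x.1 i) ∧ ∀ i < m, (sh^[n] z).1 i = y.1 i := by
  refine ⟨⟨fun i => if i < m then x.1 i else if n ≤ i ∧ i < n + m then y.1 (i - n) else false,
    fun i j hij hi hj => ?_⟩, fun i hi => by simp [hi], fun i hi => ?_⟩
  · have := h.1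
    by_cases h1 : i < m <;> by_cases h2 : j < m
    · simp only [h1, h2, if_true] at hi hj
      exact x.2 i j hij hi hj
    · simp only [h1, h2, if_true, if_false] at hi hj
      split_ifs at hj with h3
      exact h.2 _ (by omega) (by omega)
    · omega
    · simp only [h1, h2, if_false] at hi hj
      split_ifs at hi with h3
      split_ifs at hj with h4
      have := y.2 (i - n) (j - n) (by omega) hi hj
      have e : j - n - (i - n) = j - i := by omega
      rwa [e] at this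
  · rw [sh_iter]
    have := h.1
    have h1 : ¬ (i + n < m) := by omega
    have h2 : n ≤ i + n ∧ i + n < n + m := by omega
    simp [h1, h2]

def Thick (P : Set ℕ) : Prop := ∀ L : ℕ, ∃ a : ℕ, ∀ i < L, a + i ∈ P

lemma Thick.deep (h : Thick P) (m : ℕ) : ∃ n, Deep P m n := by
  obtain ⟨a, ha⟩ := h (2 * m)
  refine ⟨a + m, by omega, fun d h1 h2 => ?_⟩
  have := ha (d - a) (by omega)
  have e : a + (d - a) = d := by omega
  rwa [e] at this

lemma Deep.mono {m m' n : ℕ} (h : Deep P m n) (hm : m' ≤ m) : Deep P m' n :=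
  ⟨hm.trans h.1, fun d h1 h2 => h.2 d (by omega) (by omega)⟩

/-- weak mixing for thick `P`. -/
lemma wm (h : Thick P) (W1 W2 : Set (SP P × SP P)) (h1 : IsOpen W1) (h2 : IsOpen W2)
    (n1 : W1.Nonempty) (n2 : W2.Nonempty) :
    ∃ n : ℕ, 1 ≤ n ∧ ∃ z ∈ W1, (sh^[n] z.1, sh^[n] z.2) ∈ W2 := by
  obtain ⟨a, ha⟩ := n1
  obtain ⟨b, hb⟩ := n2
  obtain ⟨m1, hm1⟩ := cyl2 (h1.mem_nhds ha)
  obtain ⟨m2, hm2⟩ := cyl2 (h2.mem_nhds hb)
  obtain ⟨n, hn⟩ := h.deep (m1 + m2 + 1)
  obtain ⟨z1, p1, q1⟩ := join hn a.1 b.1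
  obtain ⟨z2, p2, q2⟩ := join hn a.2 b.2
  exact ⟨n, by have := hn.1; omega, (z1, z2),
    hm1 _ (fun i hi => p1 i (by omega)) (fun i hi => p2 i (by omega)),
    hm2 _ (fun i hi => q1 i (by omega)) (fun i hi => q2 i (by omega))⟩

def zero (P : Set ℕ) : SP P := ⟨fun _ => false, fun _ _ _ h => by simp at h⟩

noncomputable def one (P : Set ℕ) (k : ℕ) : SP P := ⟨fun i => decide (i = k), fun i j hij hi hj => by
  simp only [decide_eq_true_eq] at hi hj; omega⟩

lemma one_self (k : ℕ) : (one P k).1 k = true := by simp [one]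

instance : Nonempty (SP P) := ⟨zero P⟩

/-- Birkhoff: a topologically transitive map has a dense orbit. -/
lemma exists_dense_orbit {Y : Type*} [TopologicalSpace Y] [BaireSpace Y]
    [SecondCountableTopology Y] [Nonempty Y] {S : Y → Y} (hS : Continuous S)
    (h : ∀ U V : Set Y, IsOpen U → IsOpen V → U.Nonempty → V.Nonempty →
      ∃ n : ℕ, ∃ z ∈ U, S^[n] z ∈ V) : ∃ y, DenseRange fun n : ℕ => S^[n] y := by
  have hd : Dense (⋂ V ∈ TopologicalSpace.countableBasis Y, ⋃ n : ℕ, S^[n] ⁻¹' V) := by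
    refine dense_biInter_of_isOpen
      (fun V hV => isOpen_iUnion fun n =>
        (TopologicalSpace.isOpen_of_mem_countableBasis hV).preimage (hS.iterate n))
      (TopologicalSpace.countable_countableBasis Y) fun V hV => ?_
    rw [dense_iff_inter_open]
    intro U hU hne
    obtain ⟨n, z, hz1, hz2⟩ := h U V hU (TopologicalSpace.isOpen_of_mem_countableBasis hV) hne
      (TopologicalSpace.nonempty_of_mem_countableBasis hV)
    exact ⟨z, hz1, mem_iUnion.2 ⟨n, hz2⟩⟩
  obtain ⟨y, hy⟩ := hd.nonempty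
  refine ⟨y, (TopologicalSpace.isBasis_countableBasis Y).dense_iff.2 fun V hV _ => ?_⟩
  obtain ⟨n, hn⟩ := mem_iUnion.1 (mem_iInter₂.1 hy V hV)
  exact ⟨_, hn, n, rfl⟩

end Pool.Agent.H98.Spacing
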