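import Mathlib

set_option autoImplicit false

namespace Pool.Agent.H98.Surj

/-- A map on configurations whose coordinates depend on finitely many coordinates. -/
def Loc {M A : Type} (τ : (M → A) → (M → A)) : Prop :=
  ∀ m : M, ∃ F : Finset M, ∀ x y : M → A, (∀ f ∈ F, x f = y f) → τ x m = τ y m

theorem cont_of_loc {M A : Type} [TopologicalSpace A] [DiscreteTopology A]
    (τ : (M → A) → (M → A)) (h : Loc τ) : Continuous τ := by
  refine continuous_pi fun m => ?_
  obtain ⟨F, hF⟩ := h m
  refine continuous_iff_continuousAt.2 fun x => ?_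
  have : ∀ᶠ y in nhds x, ∀ f ∈ F, y f = x f := by
    rw [Filter.eventually_all_finset]
    intro f _
    have hc : Continuous fun y : M → A => y f := continuous_apply f
    exact hc.continuousAt.eventually (p := fun a => a = x f)
      ((isOpen_discrete {a | a = x f}).mem_nhds rfl)
  have h2 : (fun y => τ y m) =ᶠ[nhds x] fun _ => τ x m :=
    this.mono fun y hy => hF y x hy
  exact (continuousAt_const.congr h2.symm)

/-- Compactness: an injective local map has a locally determined left inverse. -/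
theorem exists_det {M A : Type} [Finite A] (τ : (M → A) → (M → A)) (h : Loc τ)
    (hinj : Function.Injective τ) (m0 : M) :
    ∃ T : Finset M, ∀ x y : M → A, (∀ t ∈ T, τ x t = τ y t) → x m0 = y m0 := by
  classical
  letI : TopologicalSpace A := ⊥
  haveI : DiscreteTopology A := ⟨rfl⟩
  have hc := cont_of_loc τ h
  by_contra hcon
  push Not at hcon
  let K : Finset M → Set ((M → A) × (M → A)) := fun T =>
    {p | (∀ t ∈ T, τ p.1 t = τ p.2 t) ∧ p.1 m0 ≠ p.2 m0}
  have hcl : ∀ T, IsClosed (K T) := by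
    intro T
    have h1 : IsClosed {p : (M → A) × (M → A) | ∀ t ∈ T, τ p.1 t = τ p.2 t} := by
      have : {p : (M → A) × (M → A) | ∀ t ∈ T, τ p.1 t = τ p.2 t}
          = ⋂ t ∈ T, {p | τ p.1 t = τ p.2 t} := by
        ext p; simp
      rw [this]
      refine isClosed_biInter fun t _ => isClosed_eq ?_ ?_
      · exact (continuous_apply t).comp (hc.comp continuous_fst)
      · exact (continuous_apply t).comp (hc.comp continuous_snd)
    have h2 : IsClosed {p : (M → A) × (M → A) | p.1 m0 ≠ p.2 m0} := by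
      have hc2 : Continuous fun p : (M → A) × (M → A) => (p.1 m0, p.2 m0) :=
        ((continuous_apply m0).comp continuous_fst).prodMk
          ((continuous_apply m0).comp continuous_snd)
      exact (isClosed_discrete {q : A × A | q.1 ≠ q.2}).preimage hc2
    exact h1.inter h2
  have hne : ∀ T, (K T).Nonempty := by
    intro T
    obtain ⟨x, y, h1, h2⟩ := hcon T
    exact ⟨(x, y), h1, h2⟩
  have hdir : Directed (· ⊇ ·) K := by
    intro T1 T2
    refine ⟨T1 ∪ T2, ?_, ?_⟩
    · rintro p ⟨h1, h2⟩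
      exact ⟨fun t ht => h1 t (Finset.mem_union_left _ ht), h2⟩
    · rintro p ⟨h1, h2⟩
      exact ⟨fun t ht => h1 t (Finset.mem_union_right _ ht), h2⟩
  obtain ⟨p, hp⟩ := IsCompact.nonempty_iInter_of_directed_nonempty_isCompact_isClosed K hdir hne
    (fun T => (hcl T).isCompact) hcl
  rw [Set.mem_iInter] at hp
  have h1 : τ p.1 = τ p.2 := by
    funext t
    exact (hp {t}).1 t (Finset.mem_singleton_self t)
  have h2 := hinj h1
  exact (hp ∅).2 (by rw [h2])

/-- Compactness: a local map with dense image is surjective. -/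
theorem surj_of_dense {M A : Type} [Finite A] (τ : (M → A) → (M → A)) (h : Loc τ)
    (hd : ∀ (z : M → A) (F : Finset M), ∃ x, ∀ f ∈ F, τ x f = z f) :
    Function.Surjective τ := by
  classical
  letI : TopologicalSpace A := ⊥
  haveI : DiscreteTopology A := ⟨rfl⟩
  have hc := cont_of_loc τ h
  intro z
  let K : Finset M → Set (M → A) := fun T => {x | ∀ t ∈ T, τ x t = z t}
  have hcl : ∀ T, IsClosed (K T) := by
    intro T
    have : K T = ⋂ t ∈ T, {x | τ x t = z t} := by
      ext p; simp [K]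
    rw [this]
    refine isClosed_biInter fun t _ => isClosed_eq ?_ continuous_const
    exact (continuous_apply t).comp hc
  have hdir : Directed (· ⊇ ·) K := by
    intro T1 T2
    refine ⟨T1 ∪ T2, ?_, ?_⟩
    · intro p h1 t ht
      exact h1 t (Finset.mem_union_left _ ht)
    · intro p h1 t ht
      exact h1 t (Finset.mem_union_right _ ht)
  obtain ⟨x, hx⟩ := IsCompact.nonempty_iInter_of_directed_nonempty_isCompact_isClosed K hdir
    (fun T => hd z T) (fun T => (hcl T).isCompact) hcl
  rw [Set.mem_iInter] at hx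
  refine ⟨x, ?_⟩
  funext t
  exact hx {t} t (Finset.mem_singleton_self t)

/-- The cellular automaton with memory indexed by a finite type `ι` via `σ`. -/
def ca {M A ι : Type} [Monoid M] (σ : ι → M) (μ : (ι → A) → A) (x : M → A) (m : M) : A :=
  μ (fun i => x (m * σ i))

theorem loc_ca {M A ι : Type} [Monoid M] [Finite ι] (σ : ι → M) (μ : (ι → A) → A) :
    Loc (ca σ μ) := by
  classical
  haveI := Fintype.ofFinite ι
  intro m
  refine ⟨Finset.univ.image (fun i => m * σ i), fun x y hxy => ?_⟩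
  unfold ca
  congr 1
  funext i
  exact hxy _ (Finset.mem_image_of_mem _ (Finset.mem_univ i))

/-- Transfer principle. -/
theorem transfer {M A ι : Type} [Monoid M] [Finite A] [Finite ι] (σ : ι → M) (μ : (ι → A) → A)
    (H : ∀ G : Finset M, ∃ (N : Submonoid M) (Q : Type) (_ : Monoid Q) (φ : N →* Q),
      (∀ g ∈ G, g ∈ N) ∧ (∀ a b : N, a.1 ∈ G → b.1 ∈ G → φ a = φ b → a = b) ∧
      ∀ σ' : ι → Q, Function.Injective (ca σ' μ) → Function.Surjective (ca σ' μ))
    (hinj : Function.Injective (ca σ μ)) : Function.Surjective (ca σ μ) := by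
  classical
  haveI := Fintype.ofFinite ι
  obtain ⟨T, hT⟩ := exists_det _ (loc_ca σ μ) hinj 1
  refine surj_of_dense _ (loc_ca σ μ) fun z F => ?_
  obtain ⟨N, Q, _, φ, hG, hφ, hQ⟩ := H (Finset.univ.image σ ∪ T ∪ F)
  have hσ : ∀ i, σ i ∈ N := fun i => hG _ (by simp)
  have hTN : ∀ t ∈ T, t ∈ N := fun t ht => hG _ (by simp [ht])
  have hFN : ∀ t ∈ F, t ∈ N := fun t ht => hG _ (by simp [ht])
  let σ' : ι → Q := fun i => φ ⟨σ i, hσ i⟩
  -- lifting of configurations
  let lift : (Q → A) → Q → (M → A) := fun w q m => if h : m ∈ N then w (q * φ ⟨m, h⟩) else z 1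
  have hlift : ∀ (w : Q → A) (q : Q) (n : M) (hn : n ∈ N),
      ca σ μ (lift w q) n = ca σ' μ w (q * φ ⟨n, hn⟩) := by
    intro w q n hn
    unfold ca
    congr 1
    funext i
    have hm : n * σ i ∈ N := N.mul_mem hn (hσ i)
    simp only [lift, dif_pos hm, σ']
    rw [mul_assoc, ← map_mul]
    rfl
  have hinjQ : Function.Injective (ca σ' μ) := by
    intro w w' hww
    funext q
    have := hT (lift w q) (lift w' q) (fun t ht => by
      rw [hlift w q t (hTN t ht), hlift w' q t (hTN t ht), hww])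
    have h1 : φ ⟨1, N.one_mem⟩ = 1 := map_one φ
    simpa [lift, N.one_mem, h1] using this
  let z' : Q → A := fun q =>
    if h : ∃ f : N, f.1 ∈ F ∧ φ f = q then z (Classical.choose h).1 else z 1
  obtain ⟨w, hw⟩ := hQ σ' hinjQ z'
  refine ⟨lift w 1, fun f hf => ?_⟩
  rw [hlift w 1 f (hFN f hf), hw, one_mul]
  have hex : ∃ g : N, g.1 ∈ F ∧ φ g = φ ⟨f, hFN f hf⟩ := ⟨⟨f, hFN f hf⟩, hf, rfl⟩
  simp only [z', dif_pos hex]
  have hs := Classical.choose_spec hex
  have := hφ _ ⟨f, hFN f hf⟩ (by simp [hs.1]) (by simp [hf]) hs.2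
  rw [this]

/-- Elements of finite type algebras over a finite field survive in a finite quotient. -/
theorem exists_finite_quot {R : Type} [CommRing R] [Algebra (ZMod 2) R]
    [Algebra.FiniteType (ZMod 2) R] (r : R) (hr : r ≠ 0) :
    ∃ I : Ideal R, Finite (R ⧸ I) ∧ r ∉ I := by
  haveI : Fact (Nat.Prime 2) := ⟨Nat.prime_two⟩
  haveI : IsNoetherianRing R := Algebra.FiniteType.isNoetherianRing (ZMod 2) R
  have hne : (Submodule.span R {r}).annihilator ≠ ⊤ := by
    intro h
    have : (1 : R) ∈ (Submodule.span R {r}).annihilator := h ▸ Submodule.mem_top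
    rw [Submodule.mem_annihilator_span_singleton] at this
    exact hr (by simpa using this)
  obtain ⟨m, hm, hle⟩ := Ideal.exists_le_maximal _ hne
  have hfin : Finite (R ⧸ m) := by
    letI := Ideal.Quotient.field m
    haveI : Module.Finite (ZMod 2) (R ⧸ m) := finite_of_finite_type_of_isJacobsonRing _ _
    exact Module.finite_of_finite (ZMod 2)
  by_contra hcon
  push Not at hcon
  have hall : r ∈ (⨅ i : ℕ, m ^ i • ⊤ : Submodule R R) := by
    rw [Submodule.mem_iInf]
    intro i
    have := hcon (m ^ i) (Ideal.finite_quotient_pow (IsNoetherian.noetherian m) i)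
    simpa using this
  obtain ⟨s, hs⟩ := (Ideal.mem_iInf_smul_pow_eq_bot_iff m r).1 hall
  have h1 : (1 - s.1) ∈ (Submodule.span R {r}).annihilator := by
    rw [Submodule.mem_annihilator_span_singleton, sub_smul, one_smul]
    rw [sub_eq_zero]
    exact hs.symm
  have h2 : (1 : R) ∈ m := by
    have := m.add_mem (hle h1) s.2
    simpa using this
  exact hm.ne_top ((Ideal.eq_top_iff_one m).2 h2)

/-- Finitely generated commutative monoids are residually finite. -/
theorem sep_comm {N : Type} [CommMonoid N] [Monoid.FG N] (a b : N) (hab : a ≠ b) :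
    ∃ (Q : Type) (_ : Monoid Q) (_ : Finite Q) (φ : N →* Q), φ a ≠ φ b := by
  classical
  haveI : Fact (Nat.Prime 2) := ⟨Nat.prime_two⟩
  let R := MonoidAlgebra (ZMod 2) N
  have hr : (MonoidAlgebra.of (ZMod 2) N a - MonoidAlgebra.of (ZMod 2) N b : R) ≠ 0 := by
    intro h
    exact hab (MonoidAlgebra.of_injective (sub_eq_zero.1 h))
  obtain ⟨I, hI, hrI⟩ := exists_finite_quot (R := R) _ hr
  refine ⟨R ⧸ I, inferInstance, hI,
    ((Ideal.Quotient.mk I : R →* R ⧸ I)).comp (MonoidAlgebra.of (ZMod 2) N), ?_⟩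
  intro h
  apply hrI
  exact Ideal.Quotient.eq.1 h

theorem sep_comm_finset {N : Type} [CommMonoid N] [Monoid.FG N] (G : Finset N) :
    ∃ (Q : Type) (_ : Monoid Q) (_ : Finite Q) (φ : N →* Q),
      ∀ a ∈ G, ∀ b ∈ G, φ a = φ b → a = b := by
  classical
  let P := {p : G × G // p.1 ≠ p.2}
  have h : ∀ p : P, ∃ (Q : Type) (_ : Monoid Q) (_ : Finite Q) (φ : N →* Q),
      φ p.1.1.1 ≠ φ p.1.2.1 := fun p => sep_comm _ _ (fun h => p.2 (Subtype.ext h))
  choose Q hQ hF φ hφ using h
  refine ⟨∀ p, Q p, inferInstance, inferInstance, MonoidHom.pi φ, ?_⟩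
  intro a ha b hb hab
  by_contra hne
  let p : P := ⟨(⟨a, ha⟩, ⟨b, hb⟩), fun h => hne (congrArg Subtype.val h)⟩
  exact hφ p (congrFun hab p)

end Pool.Agent.H98.Surj
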