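import Mathlib

set_option autoImplicit false

namespace Pool.Agent.H98.Tree

open Filter Topology Finset
open scoped Classical ENNReal

section general

variable {Y : Type*} [NormedAddCommGroup Y] [NormedSpace ℝ Y]

/-- points with a small symmetric second difference of the norm at some scale. -/
def G (ε : ℝ) : Set Y :=
  {y | ∃ δ > 0, ∃ ε' < ε, ∀ h : Y, ‖h‖ ≤ δ → ‖y + h‖ + ‖y - h‖ - 2 * ‖y‖ ≤ ε' * δ}

lemma G_open (ε : ℝ) : IsOpen (G ε : Set Y) := by
  rw [Metric.isOpen_iff]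
  rintro y ⟨δ, hδ, ε', hε, h⟩
  refine ⟨(ε - ε') / 8 * δ, by have := sub_pos.2 hε; positivity, fun z hz =>
    ⟨δ, hδ, (ε + ε') / 2, by linarith, fun k hk => ?_⟩⟩
  rw [mem_ball_iff_norm] at hz
  have h1 := norm_add_le (y + k) (z - y)
  have h2 := norm_add_le (y - k) (z - y)
  have h3 := norm_sub_le z (z - y)
  rw [show y + k + (z - y) = z + k by abel] at h1
  rw [show y - k + (z - y) = z - k by abel] at h2
  rw [sub_sub_cancel] at h3
  linarith [h k hk]

lemma diff_of_G {y : Y} (h : ∀ n : ℕ, y ∈ G (1 / ((n : ℝ) + 1))) :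
    DifferentiableAt ℝ (fun z : Y => ‖z‖) y := by
  obtain ⟨g, hg1, hg2⟩ := exists_dual_vector'' ℝ y
  refine ⟨g, ?_⟩
  rw [hasFDerivAt_iff_isLittleO_nhds_zero, Asymptotics.isLittleO_iff]
  intro c hc
  obtain ⟨n, hn⟩ := exists_nat_one_div_lt hc
  obtain ⟨δ, hδ, ε', hε, h⟩ := h n
  filter_upwards [Metric.ball_mem_nhds (0 : Y) hδ] with k hk
  rw [mem_ball_zero_iff] at hk
  rcases eq_or_ne k 0 with rfl | hk0
  · simp
  have hk1 : 0 < ‖k‖ := norm_pos_iff.2 hk0
  have hg : ∀ z, g z ≤ ‖z‖ := fun z =>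
    (le_abs_self _).trans ((g.le_opNorm z).trans (mul_le_of_le_one_left (norm_nonneg _) hg1))
  have h1 := hg (y + k)
  have h2 := hg (y - k)
  simp only [map_add, map_sub, hg2, RCLike.ofReal_real_eq_id, id] at h1 h2
  set t := ‖k‖ / δ with ht
  have ht0 : 0 < t := div_pos hk1 hδ
  have ht1 : t < 1 := (div_lt_one hδ).2 hk
  have h3 := h (t⁻¹ • k) (by
    rw [norm_smul, Real.norm_eq_abs, abs_of_pos (inv_pos.2 ht0), ht]; field_simp; rfl)
  have h4 := norm_add_le ((1 - t) • y) (t • (y + t⁻¹ • k))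
  have h5 := norm_add_le ((1 - t) • y) (t • (y - t⁻¹ • k))
  rw [norm_smul, norm_smul, Real.norm_of_nonneg ht0.le, Real.norm_of_nonneg (by linarith)] at h4 h5
  rw [show (1 - t) • y + t • (y + t⁻¹ • k) = y + k by
    rw [smul_add, smul_inv_smul₀ ht0.ne']; module] at h4
  rw [show (1 - t) • y + t • (y - t⁻¹ • k) = y - k by
    rw [smul_sub, smul_inv_smul₀ ht0.ne']; module] at h5
  have h6 : t * δ = ‖k‖ := by rw [ht]; field_simp
  have h7 := mul_le_mul_of_nonneg_left h3 ht0.le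
  have h8 : t * (ε' * δ) ≤ c * ‖k‖ := by
    rw [mul_left_comm, h6]; exact mul_le_mul_of_nonneg_right (by linarith) hk1.le
  rw [Real.norm_eq_abs, abs_of_nonneg (by linarith)]
  nlinarith

lemma exists_diff [CompleteSpace Y] (h : ∀ ε > 0, Dense (G ε : Set Y)) :
    ∃ y : Y, DifferentiableAt ℝ (fun z : Y => ‖z‖) y := by
  obtain ⟨y, hy⟩ := (dense_iInter_of_isOpen_nat (f := fun n => G (1 / ((n : ℝ) + 1)))
    (fun n => G_open _) fun n => h _ (by positivity)).nonempty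
  exact ⟨y, diff_of_G (Set.mem_iInter.1 hy)⟩

end general

abbrev Nd := List Bool

abbrev Seg := Nd × ℕ

/-- compatibility of two segments. -/
def Rel (s s' : Seg) : Prop :=
  s.1.length ≤ s'.2 ∨ s'.1.length ≤ s.2 ∨
    (s.2 = s'.2 ∧ s.1.length = s'.1.length ∧ s.1.take s.2 ≠ s'.1.take s.2)

/-- admissible configurations. -/
def Adm (C : Finset Seg) : Prop :=
  (∀ s ∈ C, s.2 < s.1.length) ∧ ∀ s ∈ C, ∀ s' ∈ C, s ≠ s' → Rel s s'

/-- value of a segment on a potential. -/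
def sv (x : Nd → ℝ) (s : Seg) : ℝ := x s.1 - x (s.1.take s.2)

/-- Euclidean norm on a finite set. -/
noncomputable def l2 (D : Finset Seg) (g : Seg → ℝ) : ℝ := √(∑ s ∈ D, g s ^ 2)

lemma l2_eq (D : Finset Seg) (g : Seg → ℝ) :
    l2 D g = ‖(WithLp.toLp 2 fun s : D => g s : EuclideanSpace ℝ D)‖ := by
  rw [EuclideanSpace.norm_eq, l2, ← sum_coe_sort D]
  simp

lemma l2_sq (D : Finset Seg) (g : Seg → ℝ) : l2 D g ^ 2 = ∑ s ∈ D, g s ^ 2 :=
  Real.sq_sqrt (sum_nonneg fun _ _ => sq_nonneg _)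

lemma l2_nonneg (D : Finset Seg) (g : Seg → ℝ) : 0 ≤ l2 D g := Real.sqrt_nonneg _

lemma l2_add (D : Finset Seg) (g h : Seg → ℝ) : l2 D (fun s => g s + h s) ≤ l2 D g + l2 D h := by
  simp only [l2_eq]
  exact norm_add_le (WithLp.toLp 2 fun s : D => g s : EuclideanSpace ℝ D)
    (WithLp.toLp 2 fun s : D => h s)

lemma l2_congr {D : Finset Seg} {g h : Seg → ℝ} (e : ∀ s ∈ D, g s = h s) : l2 D g = l2 D h := by
  unfold l2; rw [sum_congr rfl fun s hs => by rw [e s hs]]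

lemma l2_image {D : Finset Seg} {f : Seg → Seg} (hf : Set.InjOn f D) (g : Seg → ℝ) :
    l2 (D.image f) g = l2 D fun s => g (f s) := by
  unfold l2; rw [sum_image hf]

lemma l2_filter (D : Finset Seg) (p : Seg → Prop) [DecidablePred p] {g : Seg → ℝ} (h : ∀ s ∈ D, ¬p s → g s = 0) :
    l2 (D.filter p) g = l2 D g := by
  unfold l2
  rw [sum_filter_of_ne fun s hs h1 => by
    by_contra h2; exact h1 (by rw [h s hs h2]; simp)]

lemma Adm.mono {C D : Finset Seg} (h : Adm C) (hD : D ⊆ C) : Adm D :=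
  ⟨fun s hs => h.1 s (hD hs), fun s hs s' hs' => h.2 s (hD hs) s' (hD hs')⟩

lemma adm_empty : Adm ∅ := ⟨by simp, by simp⟩

lemma adm_single {s : Seg} (h : s.2 < s.1.length) : Adm {s} := ⟨by simpa, by simp⟩

lemma Adm.union {C D : Finset Seg} (hC : Adm C) (hD : Adm D) {e : ℕ}
    (h1 : ∀ s ∈ C, s.1.length ≤ e) (h2 : ∀ s ∈ D, e ≤ s.2) : Adm (C ∪ D) ∧ Disjoint C D := by
  refine ⟨⟨fun s hs => (mem_union.1 hs).elim (hC.1 s) (hD.1 s), fun s hs s' hs' hne => ?_⟩,
    disjoint_left.2 fun s hs hs' => ?_⟩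
  · rcases mem_union.1 hs with a | a <;> rcases mem_union.1 hs' with b | b
    · exact hC.2 s a s' b hne
    · exact Or.inl ((h1 s a).trans (h2 s' b))
    · exact Or.inr (Or.inl ((h1 s' b).trans (h2 s a)))
    · exact hD.2 s a s' b hne
  · have := hC.1 s hs; have := h1 s hs; have := h2 s hs'; omega

lemma take_ne {t t' : Nd} {p L : ℕ} (h : t.take p ≠ t'.take p) (hp : p ≤ L) :
    t.take L ≠ t'.take L := fun e => h (by
  have := congrArg (List.take p) e
  simpa only [List.take_take, min_eq_left hp] using this)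

/-- upper cut. -/
noncomputable def hi (L : ℕ) (C : Finset Seg) : Finset Seg :=
  (C.filter fun s => L < s.1.length).image fun s => (s.1, max s.2 L)

lemma hi_inj {C : Finset Seg} (h : Adm C) (L : ℕ) :
    Set.InjOn (fun s : Seg => (s.1, max s.2 L)) (C.filter fun s => L < s.1.length) := by
  intro s hs s' hs' e
  have a := (mem_filter.1 hs).1
  have b := (mem_filter.1 hs').1
  have e1 : s.1 = s'.1 := (Prod.mk.inj e).1
  by_contra hne
  have := h.1 s a
  have := h.1 s' b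
  rcases h.2 s a s' b hne with c | c | c
  · rw [e1] at c; omega
  · rw [← e1] at c; omega
  · exact c.2.2 (by rw [e1])

lemma hi_adm {C : Finset Seg} (h : Adm C) (L : ℕ) : Adm (hi L C) ∧ ∀ s ∈ hi L C, L ≤ s.2 := by
  refine ⟨⟨?_, ?_⟩, ?_⟩
  · simp only [hi, mem_image, mem_filter]
    rintro _ ⟨s, ⟨a, b⟩, rfl⟩
    exact max_lt (h.1 s a) b
  · simp only [hi, mem_image, mem_filter]
    rintro _ ⟨s, ⟨a, b⟩, rfl⟩ _ ⟨s', ⟨a', b'⟩, rfl⟩ hne
    rcases h.2 s a s' a' (fun e => hne (by rw [e])) with c | c | c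
    · exact Or.inl (c.trans (le_max_left _ _))
    · exact Or.inr (Or.inl (c.trans (le_max_left _ _)))
    · exact Or.inr (Or.inr ⟨by simp [c.1], c.2.1, take_ne c.2.2 (le_max_left _ _)⟩)
  · simp only [hi, mem_image]
    rintro _ ⟨s, -, rfl⟩
    exact le_max_right _ _

/-- lower cut. -/
noncomputable def lo (L : ℕ) (C : Finset Seg) : Finset Seg := C.image fun s => (s.1.take L, s.2)

lemma lo_inj {C : Finset Seg} (h : Adm C) {L : ℕ} (hL : ∀ s ∈ C, s.2 < L) :
    Set.InjOn (fun s : Seg => (s.1.take L, s.2)) C := by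
  intro s a s' b e
  have e1 : s.1.take L = s'.1.take L := congrArg Prod.fst e
  have e2 : s.2 = s'.2 := (Prod.mk.inj e).2
  by_contra hne
  have := h.1 s a
  have := h.1 s' b
  rcases h.2 s a s' b hne with c | c | c
  · omega
  · omega
  · exact take_ne c.2.2 (hL s a).le e1

lemma lo_adm {C : Finset Seg} (h : Adm C) {L : ℕ} (hL : ∀ s ∈ C, s.2 < L) :
    Adm (lo L C) ∧ ∀ s ∈ lo L C, s.1.length ≤ L := by
  refine ⟨⟨?_, ?_⟩, ?_⟩
  · simp only [lo, mem_image]
    rintro _ ⟨s, a, rfl⟩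
    simpa using ⟨hL s a, h.1 s a⟩
  · simp only [lo, mem_image]
    rintro _ ⟨s, a, rfl⟩ _ ⟨s', a', rfl⟩ hne
    rcases h.2 s a s' a' (fun e => hne (by rw [e])) with c | c | c
    · exact Or.inl (by simp [c])
    · exact Or.inr (Or.inl (by simp [c]))
    · refine Or.inr (Or.inr ⟨c.1, by simp [c.2.1], ?_⟩)
      simpa only [List.take_take, min_eq_left (hL s a).le] using c.2.2
  · simp only [lo, mem_image]
    rintro _ ⟨s, -, rfl⟩
    simp

abbrev Cfg := {C : Finset Seg // Adm C}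

noncomputable abbrev EE := lp (fun C : Cfg => EuclideanSpace ℝ C.1) ∞

/-- indicator of the cone below a node. -/
noncomputable def cone (t : Nd) (u : Nd) : ℝ := if t <+: u then 1 else 0

lemma sv_cone {t : Nd} {s : Seg} (h : sv (cone t) s ≠ 0) :
    t <+: s.1 ∧ s.2 < t.length ∧ sv (cone t) s = 1 := by
  unfold sv cone at *
  by_cases h1 : t <+: s.1.take s.2
  · simp [h1, h1.trans (List.take_prefix _ _)] at h
  · by_cases h2 : t <+: s.1
    · refine ⟨h2, ?_, by simp [h1, h2]⟩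
      by_contra h3
      exact h1 (List.prefix_take_iff.2 ⟨h2, not_lt.1 h3⟩)
    · simp [h1, h2] at h

lemma l2_cone (t : Nd) {C : Finset Seg} (h : Adm C) : l2 C (sv (cone t)) ≤ 1 := by
  refine Real.sqrt_le_one.2 ?_
  by_cases h1 : ∃ s ∈ C, sv (cone t) s ≠ 0
  · obtain ⟨s, hs, h2⟩ := h1
    obtain ⟨a, b, c⟩ := sv_cone h2
    rw [sum_eq_single_of_mem s hs, c]
    · simp
    · intro s' hs' hne
      by_contra h3
      obtain ⟨a', b', -⟩ := sv_cone (s := s') (t := t) fun e => h3 (by simp [e])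
      have := a.length_le
      have := a'.length_le
      rcases h.2 s hs s' hs' hne.symm with d | d | d
      · omega
      · omega
      · apply d.2.2
        obtain ⟨r, hr⟩ := a
        obtain ⟨r', hr'⟩ := a'
        rw [← hr, ← hr', List.take_append_of_le_length b.le, List.take_append_of_le_length b.le]
  · push Not at h1
    rw [sum_eq_zero fun s hs => by simp [h1 s hs]]
    exact zero_le_one

/-- basis vectors. -/
noncomputable def ev (t : Nd) : EE :=
  ⟨fun C => WithLp.toLp 2 fun s => sv (cone t) s, memℓp_infty ⟨1, by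
    rintro _ ⟨C, rfl⟩
    exact (l2_eq _ _).symm.trans_le (l2_cone t C.2)⟩⟩

/-- the tree space. -/
noncomputable def XX : Submodule ℝ EE := (Submodule.span ℝ (Set.range ev)).topologicalClosure

instance : CompleteSpace XX := (Submodule.isClosed_topologicalClosure _).completeSpace_coe

instance : TopologicalSpace.SeparableSpace XX :=
  ((Set.countable_range ev).isSeparable.span.closure).separableSpace

/-- coordinates. -/
noncomputable def cdE (t : Nd) : EE →L[ℝ] ℝ :=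
  if h : 0 < t.length then (EuclideanSpace.proj (⟨(t, 0), mem_singleton_self _⟩ :
    ({(t, 0)} : Finset Seg))).comp (lp.evalCLM ℝ (fun C : Cfg => EuclideanSpace ℝ C.1) ∞
      ⟨{(t, 0)}, adm_single h⟩) else 0

lemma cdE_ev (t u : Nd) : cdE u (ev t) = cone t u - cone t [] := by
  unfold cdE
  split_ifs with h
  · rfl
  · have : u = [] := by simpa using h
    simp [this]

/-- potential of a vector. -/
noncomputable def cd (x : XX) (t : Nd) : ℝ := cdE t x

lemma coord (x : XX) (C : Cfg) (s : C.1) : (x : EE) C s = sv (cd x) s := by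
  have h : (Submodule.span ℝ (Set.range ev)).topologicalClosure ≤ LinearMap.ker
      ((EuclideanSpace.proj s).comp (lp.evalCLM ℝ (fun C : Cfg => EuclideanSpace ℝ C.1) ∞ C) -
        (cdE s.1.1 - cdE (s.1.1.take s.1.2)) : EE →L[ℝ] ℝ).toLinearMap := by
    refine Submodule.topologicalClosure_minimal _ (Submodule.span_le.2 ?_)
      (ContinuousLinearMap.isClosed_ker _)
    rintro _ ⟨t, rfl⟩
    change (sv (cone t) s - (cdE s.1.1 (ev t) - cdE (s.1.1.take s.1.2) (ev t))) = 0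
    simp [cdE_ev, sv]
  exact sub_eq_zero.1 (h x.2)

lemma norm_coord (x : XX) (C : Cfg) : ‖(x : EE) C‖ = l2 C.1 (sv (cd x)) := by
  rw [l2_eq]; congr 1; ext s; exact coord x C s

lemma l2_le (x : XX) {C : Finset Seg} (h : Adm C) : l2 C (sv (cd x)) ≤ ‖x‖ :=
  (norm_coord x ⟨C, h⟩).symm.trans_le (lp.norm_apply_le_norm ENNReal.top_ne_zero _ _)

lemma norm_le {x : XX} {c : ℝ} (h : ∀ C, Adm C → l2 C (sv (cd x)) ≤ c) : ‖x‖ ≤ c :=
  lp.norm_le_of_forall_le ((l2_nonneg _ _).trans (h ∅ adm_empty))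
    fun C => (norm_coord x C).trans_le (h _ C.2)

@[simp] lemma cd_nil (x : XX) : cd x [] = 0 := by simp [cd, cdE]

lemma cd_add (x y : XX) (t : Nd) : cd (x + y) t = cd x t + cd y t := by simp [cd]

lemma cd_sub (x y : XX) (t : Nd) : cd (x - y) t = cd x t - cd y t := by simp [cd]

lemma cd_smul (a : ℝ) (x : XX) (t : Nd) : cd (a • x) t = a * cd x t := by simp [cd]

lemma sv_add (x y : XX) (s : Seg) : sv (cd (x + y)) s = sv (cd x) s + sv (cd y) s := by
  simp only [sv, cd_add]; ring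

lemma sv_sub (x y : XX) (s : Seg) : sv (cd (x - y)) s = sv (cd x) s - sv (cd y) s := by
  simp only [sv, cd_sub]; ring

lemma cont_sv (s : Seg) : Continuous fun x : XX => sv (cd x) s := by
  unfold sv cd; fun_prop

/-- the norm above level `L`. -/
noncomputable def B (L : ℕ) (x : XX) : ℝ :=
  ⨆ C : {C : Finset Seg // Adm C ∧ ∀ s ∈ C, L ≤ s.2}, l2 C.1 (sv (cd x))

instance (L : ℕ) : Nonempty {C : Finset Seg // Adm C ∧ ∀ s ∈ C, L ≤ s.2} :=
  ⟨⟨∅, adm_empty, by simp⟩⟩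

lemma le_B {L : ℕ} (x : XX) {C : Finset Seg} (h : Adm C) (hL : ∀ s ∈ C, L ≤ s.2) :
    l2 C (sv (cd x)) ≤ B L x :=
  le_ciSup (f := fun C : {C : Finset Seg // Adm C ∧ ∀ s ∈ C, L ≤ s.2} => l2 C.1 (sv (cd x)))
    ⟨‖x‖, by rintro _ ⟨C, rfl⟩; exact l2_le x C.2.1⟩ ⟨C, h, hL⟩

lemma B_le {L : ℕ} {x : XX} {c : ℝ}
    (h : ∀ C, Adm C → (∀ s ∈ C, L ≤ s.2) → l2 C (sv (cd x)) ≤ c) : B L x ≤ c :=
  ciSup_le fun C => h _ C.2.1 C.2.2

lemma B_nonneg (L : ℕ) (x : XX) : 0 ≤ B L x :=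
  (l2_nonneg _ _).trans (le_B x adm_empty (by simp))

lemma B_le_norm (L : ℕ) (x : XX) : B L x ≤ ‖x‖ := B_le fun _ h _ => l2_le x h

lemma B_anti {L L' : ℕ} (h : L ≤ L') (x : XX) : B L' x ≤ B L x :=
  B_le fun _ hC hL => le_B x hC fun s hs => h.trans (hL s hs)

lemma B_add (L : ℕ) (x y : XX) : B L (x + y) ≤ B L x + B L y := B_le fun C hC hL => by
  simp only [funext (sv_add x y)]
  exact (l2_add _ _ _).trans (add_le_add (le_B x hC hL) (le_B y hC hL))

lemma B_add' (L : ℕ) (x y : XX) : B L (x + y) ≤ B L x + ‖y‖ :=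
  (B_add L x y).trans (add_le_add_right (B_le_norm L y) _)

lemma B_neg (L : ℕ) (x : XX) : B L (-x) ≤ B L x := B_le fun C hC hL => by
  refine le_of_eq_of_le ?_ (le_B x hC hL)
  unfold l2
  congr 1
  refine sum_congr rfl fun s _ => ?_
  simp only [sv, cd, Submodule.coe_neg, map_neg]; ring

lemma cont_B (L : ℕ) : Continuous (B L) := by
  refine (LipschitzWith.of_le_add (f := B L) fun x y => ?_).continuous
  simpa [dist_eq_norm] using B_add' L y (x - y)

lemma abs_le_B {L : ℕ} (x : XX) (t : Nd) {p : ℕ} (h : L ≤ p) :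
    |cd x t - cd x (t.take p)| ≤ B L x := by
  by_cases hp : p < t.length
  · have := le_B x (adm_single (s := (t, p)) hp) (by simpa)
    simpa [l2, Real.sqrt_sq_eq_abs, sv] using this
  · rw [List.take_of_length_le (not_lt.1 hp)]
    simpa using B_nonneg L x

lemma abs_cd (x : XX) (t : Nd) : |cd x t| ≤ ‖x‖ := by
  simpa using (abs_le_B x t (le_refl 0)).trans (B_le_norm 0 x)

lemma union_le (x : XX) {C : Finset Seg} (hC : Adm C) {e : ℕ} (h : ∀ s ∈ C, s.1.length ≤ e) :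
    l2 C (sv (cd x)) ^ 2 + B e x ^ 2 ≤ ‖x‖ ^ 2 := by
  have h1 : B e x ≤ √(‖x‖ ^ 2 - l2 C (sv (cd x)) ^ 2) := B_le fun D hD hL => by
    obtain ⟨a, b⟩ := hC.union hD h hL
    have := pow_le_pow_left₀ (l2_nonneg _ _) (l2_le x a) 2
    rw [l2_sq, sum_union b, ← l2_sq, ← l2_sq] at this
    exact Real.le_sqrt_of_sq_le (by linarith)
  have h2 := pow_le_pow_left₀ (B_nonneg _ _) h1 2
  rw [Real.sq_sqrt (sub_nonneg.2 (pow_le_pow_left₀ (l2_nonneg _ _) (l2_le x hC) 2))] at h2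
  linarith

lemma tail (x : XX) {ε : ℝ} (hε : 0 < ε) : ∃ L, B L x ≤ ε := by
  obtain ⟨y, hy, hxy⟩ := Metric.mem_closure_iff.1 x.2 ε hε
  have h : ∃ L, ∀ t : Nd, ∀ p, L ≤ p → cdE t y = cdE (t.take p) y := by
    clear hxy
    induction hy using Submodule.span_induction with
    | mem _ h =>
      obtain ⟨u, rfl⟩ := h
      refine ⟨u.length, fun t p hp => ?_⟩
      simp [cdE_ev, cone, List.prefix_take_iff, hp]
    | zero => simp
    | add _ _ _ _ h1 h2 =>
      obtain ⟨L, h1⟩ := h1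
      obtain ⟨L', h2⟩ := h2
      exact ⟨max L L', fun t p hp => by
        rw [map_add, map_add, h1 t p (le_of_max_le_left hp), h2 t p (le_of_max_le_right hp)]⟩
    | smul a _ _ h1 =>
      obtain ⟨L, h1⟩ := h1
      exact ⟨L, fun t p hp => by rw [map_smul, map_smul, h1 t p hp]⟩
  obtain ⟨L, h⟩ := h
  let y' : XX := ⟨y, Submodule.le_topologicalClosure _ hy⟩
  have h1 : B L y' ≤ 0 := B_le fun C _ hL => by
    rw [l2_congr (g := sv (cd y')) (h := fun _ => 0) fun s hs => sub_eq_zero.2 (h _ _ (hL s hs))]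
    simp [l2]
  have h2 := B_add' L y' (x - y')
  rw [add_sub_cancel] at h2
  have h3 : ‖x - y'‖ < ε := by rw [dist_eq_norm] at hxy; exact hxy
  exact ⟨L, by linarith⟩

lemma van {x : XX} {L : ℕ} (h : ∀ t : Nd, t.length ≤ L → cd x t = 0) : ‖x‖ ≤ B L x :=
  norm_le fun C hC => by
    refine le_of_eq_of_le ?_ (le_B x (hi_adm hC L).1 (hi_adm hC L).2)
    rw [hi, l2_image (hi_inj hC L), ← l2_filter C (fun s => L < s.1.length) fun s _ hs => by
      simp [sv, h, not_lt.1 hs]]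
    refine l2_congr fun s _ => ?_
    rcases le_total s.2 L with a | a
    · simp [sv, h, a]
    · simp [a]

end Pool.Agent.H98.Tree
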