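import Pool.Agent.H98.Tree1

set_option autoImplicit false

namespace Pool.Agent.H98.Tree

open Filter Topology Finset
open scoped Classical ENNReal

/-- node of a branch. -/
def nd (b : ℕ → Bool) (n : ℕ) : Nd := (List.range n).map b

@[simp] lemma nd_length (b : ℕ → Bool) (n : ℕ) : (nd b n).length = n := by simp [nd]

lemma nd_take (b : ℕ → Bool) {m n : ℕ} (h : m ≤ n) : (nd b n).take m = nd b m := by
  simp [nd, ← List.map_take, List.take_range, h]

lemma nd_getD (a : Nd) : nd (fun n => a.getD n false) a.length = a := by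
  refine List.ext_getElem (by simp) fun i h1 h2 => ?_
  simp [nd, List.getD_eq_getElem?_getD, h2]

lemma nd_congr {b b' : ℕ → Bool} {n : ℕ} (h : ∀ i < n, b i = b' i) : nd b n = nd b' n :=
  List.map_congr_left fun i hi => h i (List.mem_range.1 hi)

lemma exists_van {Y : Submodule ℝ XX} (hY : ¬FiniteDimensional ℝ Y) (j : ℕ) :
    ∃ u ∈ Y, ‖u‖ = 1 ∧ ∀ t : Nd, t.length ≤ j → cd u t = 0 := by
  haveI : Finite {l : Nd | l.length ≤ j} := List.finite_length_le Bool j
  let T : Y →ₗ[ℝ] ({l : Nd | l.length ≤ j} → ℝ) :=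
    LinearMap.pi fun t => ((cdE t.1).toLinearMap.comp XX.subtype).comp Y.subtype
  have : ¬Function.Injective T := fun h => hY (FiniteDimensional.of_injective T h)
  rw [← LinearMap.ker_eq_bot, Submodule.eq_bot_iff] at this
  push Not at this
  obtain ⟨y, hy, hy0⟩ := this
  refine ⟨‖(y : XX)‖⁻¹ • y, Y.smul_mem _ y.2, ?_, fun t ht => ?_⟩
  · rw [norm_smul, norm_inv, norm_norm]
    exact inv_mul_cancel₀ (norm_ne_zero_iff.2 fun h => hy0 (Subtype.ext h))
  · rw [cd_smul]
    exact mul_eq_zero_of_right _ (congrFun hy ⟨t, ht⟩)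

lemma few_big {u : XX} (hu : ‖u‖ = 1) {j q : ℕ} (hv : ∀ t : Nd, t.length ≤ j → cd u t = 0)
    (hq : j < q) {θ : ℝ} (hθ : 0 < θ) : ∃ β : Fin ⌈1 / θ ^ 2⌉₊ → ℕ → Bool,
      ∀ t : Nd, t.length = q → θ < |cd u t| → ∃ i, t.take j = nd (β i) j := by
  let A : Finset Nd := (((List.finite_length_eq Bool q).toFinset).filter
    fun t => θ < |cd u t|).image (List.take j)
  have hA : ∀ a ∈ A, ∃ t : Nd, t.length = q ∧ θ < |cd u t| ∧ t.take j = a := fun a ha => by
    simpa [A, and_assoc] using ha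
  choose! w hw using hA
  have hinj : Set.InjOn (fun a => (w a, j)) A := fun a ha b hb e => by
    rw [← (hw a ha).2.2, ← (hw b hb).2.2, (Prod.mk.inj e).1]
  have hD : Adm (A.image fun a => (w a, j)) := by
    constructor
    · simp only [mem_image]
      rintro _ ⟨a, ha, rfl⟩
      simpa [(hw a ha).1] using hq
    · simp only [mem_image]
      rintro _ ⟨a, ha, rfl⟩ _ ⟨b, hb, rfl⟩ hne
      refine Or.inr (Or.inr ⟨rfl, by simp [(hw a ha).1, (hw b hb).1], ?_⟩)
      simp only [(hw a ha).2.2, (hw b hb).2.2]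
      exact fun e => hne (by rw [e])
  have h1 := pow_le_pow_left₀ (l2_nonneg _ _) (l2_le u hD) 2
  rw [l2_sq, sum_image hinj, hu, one_pow] at h1
  have h2 : A.card • θ ^ 2 ≤ 1 := (card_nsmul_le_sum _ _ _ fun a ha => by
    simp only [sv]
    rw [hv (List.take j (w a)) (by simp), sub_zero, ← sq_abs (cd u (w a))]
    exact pow_le_pow_left₀ hθ.le (hw a ha).2.1.le 2).trans h1
  have h3 : A.card ≤ ⌈1 / θ ^ 2⌉₊ := by
    rw [nsmul_eq_mul, ← le_div_iff₀ (by positivity)] at h2
    exact_mod_cast h2.trans (Nat.le_ceil _)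
  refine ⟨fun i n => if h : (i : ℕ) < A.card then (A.equivFin.symm ⟨i, h⟩).1.getD n false
    else false, fun t ht hb => ?_⟩
  have h4 : t.take j ∈ A := mem_image_of_mem _ (by simp [ht, hb])
  refine ⟨⟨A.equivFin ⟨_, h4⟩, (A.equivFin ⟨_, h4⟩).2.trans_le h3⟩, ?_⟩
  have h5 := nd_getD (t.take j)
  rw [List.length_take, ht, min_eq_left hq.le] at h5
  simpa using h5.symm

lemma sing {Y : Submodule ℝ XX} (hY : ¬FiniteDimensional ℝ Y) (q : ℕ) {θ : ℝ} (hθ : 0 < θ) :
    ∃ v ∈ Y, ‖v‖ = 1 ∧ (∀ t : Nd, t.length ≤ q → cd v t = 0) ∧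
      ∃ L, ∀ t : Nd, L ≤ t.length → |cd v t| ≤ θ := by
  obtain ⟨n, hn⟩ := exists_nat_gt (8 / θ)
  have hn0 : (0 : ℝ) < n := lt_trans (by positivity) hn
  set η := θ / (16 * n) with hη
  have hη0 : 0 < η := by positivity
  choose u huY hu hv using exists_van hY
  have hC : ∀ j, ∃ C, Adm C ∧ (∀ s ∈ C, j ≤ s.2) ∧ 3 / 4 < l2 C (sv (cd (u j))) := fun j => by
    by_contra h
    push Not at h
    have := (van (hv j)).trans (B_le h)
    rw [hu] at this
    norm_num at this
  choose C hC1 hC2 hC3 using hC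
  have hQ : ∀ j, ∃ Q, j < Q ∧ B Q (u j) ≤ η ∧ ∀ s ∈ C j, s.1.length ≤ Q := fun j => by
    obtain ⟨L, hL⟩ := tail (u j) hη0
    refine ⟨max (j + 1) (max L ((C j).sup fun s => s.1.length)), by omega,
      (B_anti (by omega) _).trans hL, fun s hs => ?_⟩
    have := le_sup (f := fun s : Seg => s.1.length) hs
    omega
  choose Q hQ1 hQ2 hQ3 using hQ
  choose βs hβs using fun j => few_big (hu j) (hv j) (hQ1 j) hη0
  obtain ⟨β, -, hβ⟩ := isCompact_univ.ultrafilter_le_nhds ((hyperfilter ℕ).map βs) (by simp)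
  have hβ' : ∀ L, ∀ᶠ j in hyperfilter ℕ, ∀ i, nd (βs j i) L = nd (β i) L := fun L => by
    refine eventually_all.2 fun i => ?_
    have h1 : ∀ k, ∀ᶠ j in hyperfilter ℕ, βs j i k = β i k := fun k => by
      have := tendsto_pi_nhds.1 (tendsto_pi_nhds.1 (show Tendsto βs _ _ from hβ) i) k
      rwa [nhds_discrete, tendsto_pure] at this
    filter_upwards [(eventually_all_finset (range L)).2 fun k _ => h1 k] with j hj
    exact nd_congr fun k hk => hj k (mem_range.2 hk)
  have hγ : ∀ i, ∃ γ : ℝ, ∀ᶠ j in hyperfilter ℕ, |cd (u j) (nd (β i) (Q j)) - γ| ≤ η := fun i => by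
    obtain ⟨γ, -, h⟩ := (isCompact_Icc (a := (-1 : ℝ)) (b := 1)).ultrafilter_le_nhds
      ((hyperfilter ℕ).map fun j => cd (u j) (nd (β i) (Q j))) (by
        rw [Ultrafilter.coe_map, le_principal_iff, Filter.mem_map]
        exact Eventually.of_forall fun j => abs_le.1 ((abs_cd _ _).trans (hu j).le))
    exact ⟨γ, (show Tendsto _ _ _ from h).eventually (Metric.closedBall_mem_nhds γ hη0)⟩
  choose γ hγ using hγ
  have hex : ∀ L M, ∃ j, M ≤ j ∧ (∀ i, nd (βs j i) L = nd (β i) L) ∧
      ∀ i, |cd (u j) (nd (β i) (Q j)) - γ i| ≤ η := fun L M => by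
    have h1 : ∀ᶠ j in hyperfilter ℕ, M ≤ j := hyperfilter_le_cofinite (by
      rw [Nat.cofinite_eq_atTop]; exact eventually_ge_atTop M)
    exact (h1.and ((hβ' L).and (eventually_all.2 hγ))).exists
  have hfar : ∀ L j, L ≤ j → (∀ i, nd (βs j i) L = nd (β i) L) → ∀ t : Nd, Q j ≤ t.length →
      (∀ i, t.take L ≠ nd (β i) L) → |cd (u j) t| ≤ 2 * η := fun L j hj h1 t ht h2 => by
    have h3 := (abs_le_B (u j) t le_rfl).trans (hQ2 j)
    have h4 : |cd (u j) (t.take (Q j))| ≤ η := by
      by_contra h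
      obtain ⟨i, hi⟩ := hβs j _ (by simpa using ht) (not_le.1 h)
      apply h2 i
      have := congrArg (List.take L) hi
      rw [List.take_take, List.take_take, min_eq_left hj, min_eq_left (hj.trans (hQ1 j).le),
        nd_take _ hj, h1] at this
      exact this
    rw [abs_le] at *
    constructor <;> linarith
  have hnear : ∀ j i, |cd (u j) (nd (β i) (Q j)) - γ i| ≤ η → ∀ (t : Nd) M, Q j ≤ M →
      t.take M = nd (β i) M → |cd (u j) t - γ i| ≤ 2 * η := fun j i h1 t M hM h2 => by
    have h3 := (abs_le_B (u j) t le_rfl).trans (hQ2 j)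
    have := congrArg (List.take (Q j)) h2
    rw [List.take_take, min_eq_left hM, nd_take _ hM] at this
    rw [this] at h3
    rw [abs_le] at *
    constructor <;> linarith
  have key : ∀ k : ℕ, ∃ v ∈ Y, (∀ t : Nd, t.length ≤ q → cd v t = 0) ∧
      (∃ D, Adm D ∧ (k : ℝ) / 4 ≤ l2 D (sv (cd v)) ^ 2) ∧ ∃ L,
      (∀ t : Nd, L ≤ t.length → |cd v t| ≤ 2 + 4 * k * η) ∧
      ∀ i, ∀ t : Nd, L ≤ t.length → t.take L = nd (β i) L → |cd v t| ≤ 4 * k * η := fun k => by
    induction k with
    | zero => exact ⟨0, Y.zero_mem, by simp [cd], ⟨∅, adm_empty, by simp [l2]⟩, 0,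
        by simp [cd], by simp [cd]⟩
    | succ k ih =>
      obtain ⟨v, hvY, hvq, ⟨D, hD, hD'⟩, L, h1, h2⟩ := ih
      obtain ⟨L₁, hL₁⟩ := tail v (show (0 : ℝ) < 1 / 4 by norm_num)
      obtain ⟨j, a1, a2, a3⟩ := hex L (max (max L q) (max L₁ (D.sup fun s => s.1.length)))
      obtain ⟨j', b1, b2, b3⟩ := hex L (Q j)
      have c1 := hQ1 j
      have c2 := hQ1 j'
      have hDl : ∀ s ∈ D, s.1.length ≤ j := fun s hs => by
        have := le_sup (f := fun s : Seg => s.1.length) hs
        omega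
      refine ⟨v + (u j - u j'), Y.add_mem hvY (Y.sub_mem (huY _) (huY _)), fun t ht => ?_,
        ⟨D ∪ C j, (hD.union (hC1 j) hDl (hC2 j)).1, ?_⟩, Q j', fun t ht => ?_,
        fun i t ht h3 => ?_⟩
      · rw [cd_add, cd_sub, hvq t ht, hv j t (by omega), hv j' t (by omega)]; simp
      · rw [l2_sq, sum_union (hD.union (hC1 j) hDl (hC2 j)).2, ← l2_sq, ← l2_sq]
        have d1 : l2 D (sv (cd (v + (u j - u j')))) = l2 D (sv (cd v)) := l2_congr fun s hs => by
          have := hDl s hs
          rw [sv_add, sv_sub]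
          simp only [sv]
          rw [hv j _ this, hv j' s.1 (by omega), hv j _ (by simp; omega), hv j' _ (by simp; omega)]
          simp
        have d2 : l2 (C j) (sv (cd (u j))) =
            l2 (C j) fun s => sv (cd (v + (u j - u j'))) s + sv (cd (-v)) s :=
          l2_congr fun s hs => by
            have := hQ3 j s hs
            rw [← sv_add, show v + (u j - u j') + -v = u j - u j' by abel, sv_sub]
            simp only [sv]
            rw [hv j' s.1 (by omega), hv j' _ (by simp; omega)]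
            simp
        have d3 := (le_B (L := L₁) (-v) (hC1 j) fun s hs => by
          have := hC2 j s hs; omega).trans ((B_neg _ _).trans hL₁)
        have d4 := (hC3 j).trans_le (d2.trans_le (l2_add _ _ _))
        have d5 : 1 / 2 ≤ l2 (C j) (sv (cd (v + (u j - u j')))) := by linarith
        rw [d1]
        push_cast
        nlinarith
      · rw [cd_add, cd_sub]
        push_cast
        by_cases h : ∃ i, t.take L = nd (β i) L
        · obtain ⟨i, hi⟩ := h
          have e1 := h2 i t (by omega) hi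
          have e2 := (abs_cd (u j) t).trans (hu j).le
          have e3 := (abs_cd (u j') t).trans (hu j').le
          rw [abs_le] at *
          constructor <;> linarith
        · push Not at h
          have e1 := h1 t (by omega)
          have e2 := hfar L j (by omega) a2 t (by omega) h
          have e3 := hfar L j' (by omega) b2 t ht h
          rw [abs_le] at *
          constructor <;> linarith
      · rw [cd_add, cd_sub]
        push_cast
        have e0 := congrArg (List.take L) h3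
        rw [List.take_take, min_eq_left (by omega), nd_take _ (by omega)] at e0
        have e1 := h2 i t (by omega) e0
        have e2 := hnear j i (a3 i) t _ (by omega) h3
        have e3 := hnear j' i (b3 i) t _ le_rfl h3
        rw [abs_le] at *
        constructor <;> linarith
  obtain ⟨v, hvY, hvq, ⟨D, hD, hD'⟩, L, h1, -⟩ := key (n ^ 2)
  push_cast at hD' h1
  have h2 : (n : ℝ) / 2 ≤ ‖v‖ := by
    refine le_trans ?_ (l2_le v hD)
    exact (pow_le_pow_iff_left₀ (by positivity) (l2_nonneg _ _) two_ne_zero).1 (by linarith)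
  have h3 : 0 < ‖v‖ := by linarith
  refine ⟨‖v‖⁻¹ • v, Y.smul_mem _ hvY, ?_, fun t ht => by rw [cd_smul, hvq t ht, mul_zero], L,
    fun t ht => ?_⟩
  · rw [norm_smul, norm_inv, norm_norm]; exact inv_mul_cancel₀ h3.ne'
  · rw [cd_smul, abs_mul, abs_of_pos (inv_pos.2 h3), inv_mul_le_iff₀ h3]
    refine (h1 t ht).trans (le_trans ?_ (mul_le_mul_of_nonneg_right h2 hθ.le))
    have h4 : 4 * (n : ℝ) ^ 2 * η = n * θ / 4 := by rw [hη]; field_simp; ring
    rw [div_lt_iff₀ hθ] at hn
    linarith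

end Pool.Agent.H98.Tree
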