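import Pool.Agent.H98.Tree2

set_option autoImplicit false

namespace Pool.Agent.H98.Tree

open Filter Topology Finset
open scoped Classical ENNReal

lemma split_sq (x : XX) (C : Finset Seg) (q : ℕ) : l2 C (sv (cd x)) ^ 2 =
    l2 (C.filter fun s => s.2 < q) (sv (cd x)) ^ 2 +
      l2 (C.filter fun s => ¬s.2 < q) (sv (cd x)) ^ 2 := by
  simp only [l2_sq, sum_filter_add_sum_filter_not]

/-- number of nodes of level `q`. -/
noncomputable def KK (q : ℕ) : ℕ := (List.finite_length_eq Bool q).toFinset.card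

lemma cross {C : Finset Seg} (hC : Adm C) {q L : ℕ} (hq : ∀ s ∈ C, s.2 < q) {s₀ : Seg}
    (h₀ : s₀ ∈ C) (hL : L < s₀.1.length) (hqL : q ≤ L) (x w v : XX) {δ θ : ℝ} (hδ : 0 ≤ δ)
    (hθ : 0 ≤ θ) (e : x = w + δ • v) (hv : ∀ t : Nd, t.length ≤ q → cd v t = 0)
    (hv' : ∀ t : Nd, L ≤ t.length → |cd v t| ≤ θ) :
    l2 C (sv (cd x)) ≤ l2 (lo q C) (sv (cd x)) + (B q w + δ * θ * √(KK q)) := by
  have h1 : l2 C (sv (cd x)) = l2 C fun s => sv (cd x) (s.1.take q, s.2) +
      (sv (cd w) (s.1, max s.2 q) + δ * sv (cd v) (s.1, max s.2 q)) := l2_congr fun s hs => by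
    simp only [sv, max_eq_right (hq s hs).le, List.take_take, min_eq_left (hq s hs).le, e, cd_add,
      cd_smul]
    ring
  have hz : ∀ u : XX, ∀ s ∈ C, ¬q < s.1.length → sv (cd u) (s.1, max s.2 q) = 0 :=
    fun u s hs h => by
    simp only [sv]
    rw [List.take_of_length_le ((not_lt.1 h).trans (le_max_right _ _)), sub_self]
  rw [h1, lo, l2_image (lo_inj hC hq)]
  refine (l2_add _ _ _).trans (add_le_add_right ((l2_add _ _ _).trans (add_le_add ?_ ?_)) _)
  · rw [← l2_filter C (fun s => q < s.1.length) (hz w), ← l2_image (hi_inj hC q)]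
    exact le_B w (hi_adm hC q).1 (hi_adm hC q).2
  · rw [← l2_filter C (fun s => q < s.1.length) fun s hs h => by rw [hz v s hs h, mul_zero]]
    have hs₀ : ∀ s ∈ C.filter fun s => q < s.1.length, s.2 = s₀.2 ∧ s.1.length = s₀.1.length :=
      fun s hs => by
      obtain ⟨a, b⟩ := mem_filter.1 hs
      by_cases h : s = s₀
      · simp [h]
      have := hq s a
      have := hq s₀ h₀
      rcases hC.2 s a s₀ h₀ h with c | c | c
      · omega
      · omega
      · exact ⟨c.1, c.2.1⟩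
    have hc : (C.filter fun s => q < s.1.length).card ≤ KK q := by
      refine card_le_card_of_injOn (fun s => s.1.take q) (fun s hs => ?_) fun s hs s' hs' e => ?_
      · simpa using (mem_filter.1 hs).2.le
      · refine lo_inj hC hq (mem_filter.1 hs).1 (mem_filter.1 hs').1 (Prod.ext e ?_)
        exact (hs₀ s hs).1.trans (hs₀ s' hs').1.symm
    rw [l2, ← Real.sqrt_sq (mul_nonneg hδ hθ), ← Real.sqrt_mul (sq_nonneg _)]
    refine Real.sqrt_le_sqrt ((sum_le_card_nsmul _ _ ((δ * θ) ^ 2) fun s hs => ?_).trans ?_)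
    · simp only [sv]
      rw [max_eq_right (hq s (mem_filter.1 hs).1).le, hv (s.1.take q) (by simp), sub_zero, mul_pow,
        mul_pow, ← sq_abs (cd v s.1)]
      refine mul_le_mul_of_nonneg_left (pow_le_pow_left₀ (abs_nonneg _) (hv' _ ?_) 2) (sq_nonneg _)
      rw [(hs₀ s hs).2]; exact hL.le
    · rw [nsmul_eq_mul, mul_comm]
      exact mul_le_mul_of_nonneg_left (by exact_mod_cast hc) (sq_nonneg _)

lemma cover {Y : Submodule ℝ XX} (hY : ¬FiniteDimensional ℝ Y) (y : XX) {δ : ℝ} (hδ : 0 < δ)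
    (hδ1 : δ ≤ 1 / 2) : ∃ v ∈ Y, ‖v‖ = 1 ∧ ∃ ρ, 0 < ρ ∧ ρ ≤ δ ∧ ∃ P : Finset (Finset Seg × ℕ),
      ∀ x, ‖x - (y + δ • v)‖ < ρ → ∃ p ∈ P, Adm p.1 ∧ B p.2 x ≤ 3 * δ ∧
        ‖x‖ ^ 2 = l2 p.1 (sv (cd x)) ^ 2 + B p.2 x ^ 2 := by
  set M := ‖y‖ + 1 with hM
  have hM1 : 1 ≤ M := by linarith [norm_nonneg y]
  set ρ := δ ^ 2 / (48 * M) with hρ
  have hρ0 : 0 < ρ := by positivity
  have hρM : ρ * M = δ ^ 2 / 48 := by rw [hρ]; field_simp
  have hρ1 : ρ ≤ δ / 48 := by nlinarith
  obtain ⟨q, hq⟩ := tail y hρ0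
  obtain ⟨v, hvY, hv1, hv, L₀, hv'⟩ := sing hY q (θ := ρ / (√(KK q) + 1)) (by positivity)
  obtain ⟨L₁, hL₁⟩ := tail v hρ0
  set L := max q (max L₀ L₁) with hL
  let S : Finset Seg := (List.finite_length_le Bool L).toFinset ×ˢ range L
  let P := (S.powerset ×ˢ Icc q L).filter fun p => Adm p.1 ∧ ∀ s ∈ p.1, s.1.length ≤ p.2
  refine ⟨v, hvY, hv1, ρ, hρ0, by linarith, P, fun x hx => ?_⟩
  obtain ⟨p, hp, hmax⟩ := exists_max_image P (fun p => l2 p.1 (sv (cd x)) ^ 2 + B p.2 x ^ 2)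
    ⟨(∅, q), by simp [P, adm_empty, hL]⟩
  obtain ⟨hp1, hp2, hp3⟩ := mem_filter.1 hp
  set z := x - (y + δ • v) with hz
  have e : x = (y + z) + δ • v := by rw [hz]; abel
  have hw : B q (y + z) ≤ 2 * ρ := by linarith [B_add' q y z]
  have hδv : ‖δ • v‖ = δ := by rw [norm_smul, hv1, mul_one, Real.norm_of_nonneg hδ.le]
  have hxM : ‖x‖ ≤ M := by
    have := norm_add_le (y + z) (δ • v)
    have := norm_add_le y z
    rw [← e] at *
    linarith
  refine ⟨p, hp, hp2, ?_, le_antisymm ?_ (union_le x hp2 hp3)⟩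
  · have h1 := B_anti (mem_Icc.1 (mem_product.1 hp1).2).1 x
    have h2 := B_add' q (y + z) (δ • v)
    rw [← e] at h2
    linarith
  have hB : δ - 2 * ρ ≤ B q x := by
    have h1 := van (x := δ • v) (L := q) fun t ht => by rw [cd_smul, hv t ht, mul_zero]
    have h2 := B_add q x (-(y + z))
    rw [show x + -(y + z) = δ • v by rw [e]; abel] at h2
    linarith [B_neg q (y + z)]
  have hBL : B L x ≤ 3 * ρ := by
    have h1 := B_add L (y + z) (δ • v)
    rw [← e] at h1
    have h2 := B_anti (le_max_left q (max L₀ L₁)) (y + z)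
    have h3 : B L (δ • v) ≤ δ * ρ := B_le fun C hC hC' => by
      have h4 := (le_B v hC hC').trans ((B_anti (by omega) v).trans hL₁)
      refine le_trans (le_of_eq ?_) (mul_le_mul_of_nonneg_left h4 hδ.le)
      rw [l2, l2, ← Real.sqrt_sq hδ.le, ← Real.sqrt_mul (sq_nonneg _), mul_sum, Real.sqrt_sq hδ.le]
      congr 1
      exact sum_congr rfl fun s _ => by simp only [sv, cd_smul]; ring
    nlinarith
  set V := l2 p.1 (sv (cd x)) ^ 2 + B p.2 x ^ 2 with hV
  have hV0 : 0 ≤ V := by positivity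
  have key : ∀ C, Adm C → l2 C (sv (cd x)) ^ 2 ≤ max V (‖x‖ ^ 2 - δ ^ 2 / 2) := fun C hC => by
    rw [split_sq x C q]
    have hC1 := hC.mono (filter_subset (fun s => s.2 < q) C)
    have hC2 := hC.mono (filter_subset (fun s => ¬s.2 < q) C)
    have hq1 : ∀ s ∈ C.filter fun s => s.2 < q, s.2 < q := fun s hs => (mem_filter.1 hs).2
    have hsep : ∀ s ∈ C.filter fun s => s.2 < q, ∀ s' ∈ C.filter fun s => ¬s.2 < q,
        s.1.length ≤ s'.2 := fun s hs s' hs' => by
      obtain ⟨a, b⟩ := mem_filter.1 hs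
      obtain ⟨a', b'⟩ := mem_filter.1 hs'
      have := hC.1 s' a'
      rcases hC.2 s a s' a' (fun h => b' (h ▸ b)) with c | c | c <;> omega
    by_cases hx : ∃ s₀ ∈ C.filter fun s => s.2 < q, L < s₀.1.length
    · obtain ⟨s₀, h₀, h₁⟩ := hx
      refine le_max_of_le_right ?_
      have a1 := cross hC1 hq1 h₀ h₁ (le_max_left _ _) x _ v hδ.le (by positivity) e hv
        fun t ht => hv' t (by omega)
      have a2 : δ * (ρ / (√(KK q) + 1)) * √(KK q) ≤ ρ := by
        have h2 : ρ / (√(KK q) + 1) * √(KK q) ≤ ρ := by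
          rw [div_mul_eq_mul_div, div_le_iff₀ (by positivity)]; nlinarith
        have h3 : 0 ≤ ρ / (√(KK q) + 1) * √(KK q) := by positivity
        rw [mul_assoc]; nlinarith
      have a3 := union_le x (lo_adm hC1 hq1).1 (lo_adm hC1 hq1).2
      have a4 := (l2_le x (lo_adm hC1 hq1).1).trans hxM
      have a5 := (le_B (L := L) x hC2 fun s hs => h₁.le.trans (hsep s₀ h₀ s hs)).trans hBL
      have a6 := pow_le_pow_left₀ (l2_nonneg _ _) a5 2
      have a7 := pow_le_pow_left₀ (l2_nonneg _ _)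
        (show l2 (C.filter fun s => s.2 < q) (sv (cd x)) ≤
          l2 (lo q (C.filter fun s => s.2 < q)) (sv (cd x)) + 3 * ρ by linarith) 2
      have a8 := pow_le_pow_left₀ (by linarith) hB 2
      have a9 := mul_le_mul_of_nonneg_left a4 hρ0.le
      have a10 := mul_le_mul_of_nonneg_left hρ1 hδ.le
      have a11 := mul_le_mul hρ1 hρ1 hρ0.le (by positivity)
      nlinarith
    · push Not at hx
      refine le_max_of_le_left (le_trans ?_ (hmax (C.filter fun s => s.2 < q,
        max q ((C.filter fun s => s.2 < q).sup fun s => s.1.length)) ?_))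
      · refine add_le_add_right (pow_le_pow_left₀ (l2_nonneg _ _) (le_B x hC2 fun s hs => ?_) 2) _
        exact max_le (not_lt.1 (mem_filter.1 hs).2) (Finset.sup_le fun s' hs' => hsep s' hs' s hs)
      · refine mem_filter.2 ⟨mem_product.2 ⟨mem_powerset.2 fun s hs => ?_, mem_Icc.2
          ⟨le_max_left _ _, max_le (le_max_left _ _) (Finset.sup_le hx)⟩⟩, hC1, fun s hs =>
            le_max_of_le_right (le_sup (f := fun s : Seg => s.1.length) hs)⟩
        have := hq1 s hs
        simp only [S, mem_product, Set.Finite.mem_toFinset, Set.mem_setOf_eq, mem_range]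
        exact ⟨hx s hs, by omega⟩
  have h1 : ‖x‖ ≤ √(max V (‖x‖ ^ 2 - δ ^ 2 / 2)) :=
    norm_le fun C hC => Real.le_sqrt_of_sq_le (key C hC)
  have h2 := pow_le_pow_left₀ (norm_nonneg _) h1 2
  rw [Real.sq_sqrt (le_max_of_le_left hV0), le_max_iff] at h2
  rcases h2 with h2 | h2
  · exact h2
  · nlinarith

lemma dense_G {W : Type*} [NormedAddCommGroup W] [NormedSpace ℝ W] [CompleteSpace W]
    (J : W →ₗ[ℝ] XX) (hJ : ∀ x, ‖J x‖ = ‖x‖) (hW : ¬FiniteDimensional ℝ W)
    {ε : ℝ} (hε : 0 < ε) : Dense (G ε : Set W) := by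
  haveI : Nontrivial W := by
    by_contra h
    rw [not_nontrivial_iff_subsingleton] at h
    exact hW inferInstance
  have hJc : Continuous J := AddMonoidHomClass.continuous_of_bound J 1 fun x => by simp [hJ]
  have hY : ¬FiniteDimensional ℝ (LinearMap.range J) := fun h =>
    hW (FiniteDimensional.of_injective J.rangeRestrict (by
      rw [← LinearMap.ker_eq_bot, LinearMap.ker_rangeRestrict, Submodule.eq_bot_iff]
      intro x hx
      rw [← norm_eq_zero, ← hJ, LinearMap.mem_ker.1 hx, norm_zero]))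
  refine Metric.dense_iff.2 fun y₀ r hr => ?_
  obtain ⟨y, hy1, hy2⟩ := Metric.dense_iff.1 (dense_compl_singleton (0 : W)) y₀ (r / 2)
    (half_pos hr)
  have hy : 0 < ‖y‖ := norm_pos_iff.2 hy2
  set δ := min (min (1 / 2) (r / 4)) (min (‖y‖ / 4) (ε * ‖y‖ / 64)) with hδ
  have hδ0 : 0 < δ := by positivity
  have d1 : δ ≤ 1 / 2 := (min_le_left _ _).trans (min_le_left _ _)
  have d2 : δ ≤ r / 4 := (min_le_left _ _).trans (min_le_right _ _)
  have d3 : δ ≤ ‖y‖ / 4 := (min_le_right _ _).trans (min_le_left _ _)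
  have d4 : δ ≤ ε * ‖y‖ / 64 := (min_le_right _ _).trans (min_le_right _ _)
  obtain ⟨_, ⟨v, rfl⟩, hv1, ρ, hρ0, hρ, P, hP⟩ := cover hY (J y) hδ0 d1
  rw [hJ] at hv1
  let c : W := y + δ • v
  let Z : Option P → Set W := fun o => o.elim (Metric.ball c ρ)ᶜ fun p =>
    {x | Adm p.1.1 ∧ B p.1.2 (J x) ≤ 3 * δ ∧
      ‖x‖ ^ 2 = l2 p.1.1 (sv (cd (J x))) ^ 2 + B p.1.2 (J x) ^ 2}
  have hZ := dense_iUnion_interior_of_closed (f := Z) (by
    rintro (_ | p)
    · exact Metric.isOpen_ball.isClosed_compl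
    · have h1 : Continuous fun x : W => B p.1.2 (J x) := (cont_B _).comp hJc
      have h2 : Continuous fun x : W => l2 p.1.1 (sv (cd (J x))) ^ 2 := by
        simp only [l2_sq]
        exact continuous_finset_sum _ fun s _ => ((cont_sv s).comp hJc).pow 2
      exact isClosed_const.inter ((isClosed_le h1 continuous_const).inter
        (isClosed_eq (continuous_norm.pow 2) (h2.add (h1.pow 2))))) (by
    refine Set.eq_univ_of_forall fun x => Set.mem_iUnion.2 ?_
    by_cases hx : x ∈ Metric.ball c ρ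
    · obtain ⟨p, hp, h⟩ := hP (J x) (by
        rw [← map_smul, ← map_add, ← map_sub, hJ]; exact mem_ball_iff_norm.1 hx)
      rw [hJ] at h
      exact ⟨some ⟨p, hp⟩, h⟩
    · exact ⟨none, hx⟩)
  obtain ⟨x, hx1, hx2⟩ := Metric.dense_iff.1 hZ c ρ hρ0
  obtain ⟨o, ho⟩ := Set.mem_iUnion.1 hx2
  rcases o with _ | p
  · exact absurd hx1 (interior_subset ho)
  obtain ⟨η, hη, hb⟩ := Metric.mem_nhds_iff.1 (mem_interior_iff_mem_nhds.1 ho)
  have hxy : ‖x - y‖ < 2 * δ := by
    have h1 := norm_add_le (x - c) (δ • v)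
    rw [show x - c + δ • v = x - y by simp only [c]; abel, norm_smul,
      Real.norm_of_nonneg hδ0.le, hv1] at h1
    linarith [mem_ball_iff_norm.1 hx1]
  refine ⟨x, ?_, min (η / 2) δ, by positivity, ε / 2, by linarith, fun h hh => ?_⟩
  · have := dist_triangle x y y₀
    rw [dist_eq_norm x y] at this
    rw [Metric.mem_ball] at *
    linarith
  have hh1 := hh.trans (min_le_left _ _)
  have hh2 := hh.trans (min_le_right _ _)
  obtain ⟨hp, b0, e0⟩ := hb (Metric.mem_ball_self hη)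
  obtain ⟨-, -, e1⟩ := hb (show x + h ∈ Metric.ball x η by simp; linarith)
  obtain ⟨-, -, e2⟩ := hb (show x - h ∈ Metric.ball x η by simp; linarith)
  rw [map_add] at e1
  rw [map_sub] at e2
  have q1 : l2 p.1.1 (sv (cd (J x + J h))) ^ 2 + l2 p.1.1 (sv (cd (J x - J h))) ^ 2 =
      2 * l2 p.1.1 (sv (cd (J x))) ^ 2 + 2 * l2 p.1.1 (sv (cd (J h))) ^ 2 := by
    simp only [l2_sq, mul_sum, ← sum_add_distrib, sv_add, sv_sub]
    exact sum_congr rfl fun s _ => by ring
  have q2 := pow_le_pow_left₀ (l2_nonneg _ _) (l2_le (J h) hp) 2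
  have q3 := pow_le_pow_left₀ (B_nonneg _ _) (B_add' p.1.2 (J x) (J h)) 2
  have q4 := pow_le_pow_left₀ (B_nonneg _ _) (B_add' p.1.2 (J x) (-J h)) 2
  rw [← sub_eq_add_neg, norm_neg] at q4
  rw [hJ] at q2 q3 q4
  have hx : ‖y‖ / 2 ≤ ‖x‖ := by
    have := norm_sub_le x (x - y)
    rw [sub_sub_cancel] at this
    linarith
  have hn := norm_nonneg h
  have q5 : ‖x + h‖ ^ 2 + ‖x - h‖ ^ 2 - 2 * ‖x‖ ^ 2 ≤ 16 * δ * ‖h‖ := by
    nlinarith [mul_le_mul_of_nonneg_right b0 hn, mul_le_mul_of_nonneg_right hh2 hn]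
  have q6 : 2 * ‖x‖ * (‖x + h‖ + ‖x - h‖ - 2 * ‖x‖) ≤ 2 * ‖x‖ * (ε / 2 * ‖h‖) := by
    nlinarith [sq_nonneg (‖x + h‖ - ‖x‖), sq_nonneg (‖x - h‖ - ‖x‖),
      mul_le_mul_of_nonneg_right d4 hn, mul_le_mul_of_nonneg_left hx (mul_nonneg hε.le hn),
      mul_nonneg (mul_nonneg hε.le hn) hy.le]
  exact (le_of_mul_le_mul_left q6 (by linarith)).trans
    (mul_le_mul_of_nonneg_left hh (half_pos hε).le)

theorem somewhere {W : Type*} [NormedAddCommGroup W] [NormedSpace ℝ W] [CompleteSpace W]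
    (J : W →ₗ[ℝ] XX) (hJ : ∀ x, ‖J x‖ = ‖x‖) :
    ∃ y : W, DifferentiableAt ℝ (fun z : W => ‖z‖) y := by
  by_cases hY : FiniteDimensional ℝ W
  · exact (dense_differentiableAt_norm (E := W)).nonempty
  · exact exists_diff fun ε hε => dense_G J hJ hY hε

/-- the tree space as a type. -/
def XT : Type := XX

noncomputable instance : NormedAddCommGroup XT := inferInstanceAs (NormedAddCommGroup XX)

noncomputable instance : NormedSpace ℝ XT := inferInstanceAs (NormedSpace ℝ XX)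

instance : CompleteSpace XT := inferInstanceAs (CompleteSpace XX)

instance : TopologicalSpace.SeparableSpace XT :=
  inferInstanceAs (TopologicalSpace.SeparableSpace XX)

theorem somewhere' (Y : Submodule ℝ XT) (hc : IsClosed (Y : Set XT)) :
    ∃ y : Y, DifferentiableAt ℝ (fun z : Y => ‖z‖) y :=
  haveI : CompleteSpace Y := hc.completeSpace_coe
  somewhere (W := Y) Y.subtype fun _ => rfl

lemma branch (b : ℕ → Bool) : ∃ f : XT →L[ℝ] ℝ,
    ∀ x : XT, Tendsto (fun n => cd x (nd b n)) atTop (𝓝 (f x)) := by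
  have h : ∀ x : XT, ∃ l, Tendsto (fun n => cd x (nd b n)) atTop (𝓝 l) := fun x => by
    refine cauchySeq_tendsto_of_complete (Metric.cauchySeq_iff'.2 fun ε hε => ?_)
    obtain ⟨L, hL⟩ := tail x (half_pos hε)
    refine ⟨L, fun n hn => ?_⟩
    have := abs_le_B x (nd b n) (le_refl L)
    rw [nd_take b hn] at this
    rw [Real.dist_eq]
    linarith
  choose f hf using h
  refine ⟨LinearMap.mkContinuous
    { toFun := f
      map_add' := fun x y => tendsto_nhds_unique (hf _) (((hf x).add (hf y)).congr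
        fun n => (cd_add x y _).symm)
      map_smul' := fun a x => tendsto_nhds_unique (hf _) (((hf x).const_mul a).congr
        fun n => (cd_smul a x _).symm) } 1 fun x => ?_, hf⟩
  rw [one_mul]
  exact le_of_tendsto' (hf x).abs fun n => abs_cd x _

theorem not_sep : ¬TopologicalSpace.SeparableSpace (XT →L[ℝ] ℝ) := by
  intro h
  choose f hf using branch
  let e : Nd → XT := fun t =>
    (⟨ev t, Submodule.le_topologicalClosure _ (Submodule.subset_span ⟨t, rfl⟩)⟩ : XX)
  have he : ∀ t, ‖e t‖ ≤ 1 := fun t => lp.norm_le_of_forall_le zero_le_one fun C =>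
    (l2_eq _ _).symm.trans_le (l2_cone t C.2)
  have hfe : ∀ b t, f b (e t) = (if t = nd b t.length then 1 else 0) - cone t [] := fun b t => by
    refine tendsto_nhds_unique (hf b _) (tendsto_const_nhds.congr' ?_)
    filter_upwards [eventually_ge_atTop t.length] with n hn
    simp only [cd, e, cdE_ev, cone, List.prefix_iff_eq_take, nd_take b hn]
  have hsep : ∀ b b', b ≠ b' → 1 ≤ dist (f b) (f b') := fun b b' hb => by
    obtain ⟨n, hn⟩ := Function.ne_iff.1 hb
    have h1 : nd b (n + 1) ≠ nd b' (n + 1) := fun h => hn (by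
      simpa [nd] using congrArg (fun l : List Bool => l.getD n false) h)
    have h2 := (f b - f b').le_opNorm (e (nd b (n + 1)))
    rw [ContinuousLinearMap.sub_apply, hfe, hfe, nd_length, if_pos rfl, if_neg h1] at h2
    rw [dist_eq_norm]
    have h3 := mul_le_mul_of_nonneg_left (he (nd b (n + 1))) (norm_nonneg (f b - f b'))
    simp only [sub_sub_sub_cancel_right, sub_zero, norm_one] at h2
    linarith
  have hc : Countable (ℕ → Bool) := Pairwise.countable_of_isOpen_disjoint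
    (s := fun b => Metric.ball (f b) (1 / 2))
    (fun b b' hb => Metric.ball_disjoint_ball (by linarith [hsep b b' hb]))
    (fun _ => Metric.isOpen_ball) fun _ => Metric.nonempty_ball.2 (by norm_num)
  obtain ⟨g, hg⟩ := exists_surjective_nat (ℕ → Bool)
  obtain ⟨n, hn⟩ := hg fun n => !g n n
  simpa using congrFun hn n

end Pool.Agent.H98.Tree
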