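import Mathlib

/-! Walls of a Coxeter group: the word metric is conditionally negative definite. -/

namespace Pool.Agent.H98.Wall

open Finset

/-- Semidirect product of `W → ZMod 2` with `W` acting by conjugation. -/
@[ext] structure SD (W : Type*) where
  g : W
  e : W → ZMod 2

variable {W : Type*} [Group W]

instance : Monoid (SD W) where
  mul a b := ⟨a.g * b.g, fun t => a.e t + b.e (a.g⁻¹ * t * a.g)⟩
  one := ⟨1, fun _ => 0⟩
  mul_assoc a b c := by
    refine SD.ext (mul_assoc _ _ _) ?_
    funext t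
    change (a.e t + b.e (a.g⁻¹ * t * a.g)) + c.e ((a.g * b.g)⁻¹ * t * (a.g * b.g)) =
      a.e t + (b.e (a.g⁻¹ * t * a.g) + c.e (b.g⁻¹ * (a.g⁻¹ * t * a.g) * b.g))
    rw [add_assoc]
    congr 3
    group
  one_mul a := by
    refine SD.ext (one_mul _) ?_
    funext t
    change 0 + a.e ((1 : W)⁻¹ * t * 1) = a.e t
    simp
  mul_one a := by
    refine SD.ext (mul_one _) ?_
    funext t
    change a.e t + 0 = a.e t
    simp

lemma mul_g (a b : SD W) : (a * b).g = a.g * b.g := rfl
lemma mul_e (a b : SD W) (t : W) : (a * b).e t = a.e t + b.e (a.g⁻¹ * t * a.g) := rfl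
lemma one_g : (1 : SD W).g = 1 := rfl
lemma one_e (t : W) : (1 : SD W).e t = 0 := rfl

open Classical in
/-- The lift of an involution. -/
noncomputable def gen (u : W) : SD W := ⟨u, fun t => if t = u then 1 else 0⟩

open Classical in
lemma gen_pow (u v : W) (hu : u * u = 1) (hv : v * v = 1) (k : ℕ) :
    ((gen u * gen v) ^ k).g = (u * v) ^ k ∧
    ∀ t, ((gen u * gen v) ^ k).e t =
      ∑ l ∈ range (2 * k), if t = (u * v) ^ l * u then 1 else 0 := by
  have hu' : u⁻¹ = u := inv_eq_of_mul_eq_one_right hu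
  have hv' : v⁻¹ = v := inv_eq_of_mul_eq_one_right hv
  have key : ∀ k : ℕ, u * ((u * v) ^ k)⁻¹ = (u * v) ^ k * u := by
    intro k
    have h1 : u * (u * v)⁻¹ * u⁻¹ = u * v := by
      rw [mul_inv_rev, hu', hv', ← mul_assoc, mul_assoc (u * v), hu, mul_one]
    have h2 : u * ((u * v)⁻¹) ^ k * u⁻¹ = (u * v) ^ k := by
      rw [← conj_pow, h1]
    rw [← inv_pow, ← h2]
    group
  induction k with
  | zero => exact ⟨by simp [one_g], fun t => by simp [one_e]⟩
  | succ k ih =>
    obtain ⟨h1, h2⟩ := ih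
    refine ⟨by rw [pow_succ, mul_g, h1, pow_succ]; rfl, fun t => ?_⟩
    rw [pow_succ, mul_e, h1, h2, mul_e, Nat.mul_succ, sum_range_succ, sum_range_succ, add_assoc]
    congr 1
    have e1 : (((u * v) ^ k)⁻¹ * t * (u * v) ^ k = u) ↔ t = (u * v) ^ (2 * k) * u := by
      rw [two_mul, pow_add, mul_assoc ((u * v) ^ k), ← key]
      constructor
      · intro h
        generalize (u * v) ^ k = q at h ⊢
        rw [← h]
        group
      · intro h
        rw [h]
        group
    have e2 : (u⁻¹ * (((u * v) ^ k)⁻¹ * t * (u * v) ^ k) * u = v) ↔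
        t = (u * v) ^ (2 * k + 1) * u := by
      have : (u * v) ^ (2 * k + 1) * u = (u * v) ^ k * (u * v * u⁻¹) * ((u * v) ^ k)⁻¹ := by
        rw [hu', mul_assoc ((u * v) ^ k), mul_assoc (u * v), key,
          show 2 * k + 1 = k + (1 + k) by ring, pow_add, pow_add, pow_one]
        simp only [mul_assoc]
      rw [this]
      constructor
      · intro h
        conv_rhs => enter [1, 2, 1, 2]; rw [← h]
        group
      · intro h
        rw [h]
        group
    simp only [gen, e1, e2]

lemma gen_rel (u v : W) (hu : u * u = 1) (hv : v * v = 1) (m : ℕ) (h : (u * v) ^ m = 1) :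
    (gen u * gen v) ^ m = 1 := by
  classical
  obtain ⟨h1, h2⟩ := gen_pow u v hu hv m
  refine SD.ext (by rw [h1, h]; rfl) ?_
  funext t
  rw [h2, one_e, two_mul, sum_range_add]
  simp only [pow_add, h, one_mul]
  exact CharTwo.add_self_eq_zero _

variable {B : Type*} {M : CoxeterMatrix B} (cs : CoxeterSystem M W)

lemma liftable : M.IsLiftable (fun i => gen (cs.simple i)) := fun i j =>
  gen_rel _ _ (cs.simple_mul_simple_self i) (cs.simple_mul_simple_self j) _
    (cs.simple_mul_simple_pow i j)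

/-- The lifted representation. -/
noncomputable def rep : W →* SD W := cs.lift ⟨_, liftable cs⟩

lemma rep_simple (i : B) : rep cs (cs.simple i) = gen (cs.simple i) :=
  cs.lift_apply_simple (liftable cs) i

lemma rep_g (w : W) : (rep cs w).g = w := by
  induction w using cs.simple_induction with
  | simple i => rw [rep_simple]; rfl
  | one => rw [map_one]; rfl
  | mul a b ha hb => rw [map_mul, mul_g, ha, hb]

/-- The wall-crossing cocycle. -/
noncomputable def eta (w t : W) : ZMod 2 := (rep cs w).e t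

lemma eta_mul (x y t : W) : eta cs (x * y) t = eta cs x t + eta cs y (x⁻¹ * t * x) := by
  unfold eta
  rw [map_mul, mul_e, rep_g]

open Classical in
lemma eta_word (ω : List B) (t : W) :
    eta cs (cs.wordProd ω) t = ((cs.leftInvSeq ω).count t : ZMod 2) := by
  induction ω generalizing t with
  | nil => simp [eta, one_e]
  | cons i ω ih =>
    rw [cs.wordProd_cons, eta_mul, ih, CoxeterSystem.leftInvSeq, List.count_cons]
    have h1 : eta cs (cs.simple i) t = if t = cs.simple i then 1 else 0 := by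
      unfold eta
      rw [rep_simple]
      rfl
    have h2 : (List.map (⇑(MulAut.conj (cs.simple i))) (cs.leftInvSeq ω)).count t =
        (cs.leftInvSeq ω).count ((cs.simple i)⁻¹ * t * cs.simple i) := by
      have : t = MulAut.conj (cs.simple i) ((cs.simple i)⁻¹ * t * cs.simple i) := by
        simp only [MulAut.conj_apply]
        group
      conv_lhs => rw [this]
      exact List.count_map_of_injective _ _ (MulAut.conj (cs.simple i)).injective _
    rw [h1, h2, add_comm]
    push_cast
    congr 1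
    by_cases h : t = cs.simple i
    · simp [h]
    · have h' : ¬ cs.simple i = t := fun e => h e.symm
      simp [h, h']

lemma exists_N (w : W) : ∃ N : Finset W, N.card = cs.length w ∧
    (∀ t ∈ N, eta cs w t = 1) ∧ ∀ t ∉ N, eta cs w t = 0 := by
  classical
  obtain ⟨ω, hω, rfl⟩ := cs.exists_isReduced w
  have hn := hω.nodup_leftInvSeq
  refine ⟨(cs.leftInvSeq ω).toFinset, ?_, ?_, ?_⟩
  · rw [List.toFinset_card_of_nodup hn, cs.length_leftInvSeq, hω.eq]
  · intro t ht
    rw [eta_word, List.count_eq_one_of_mem hn (List.mem_toFinset.1 ht)]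
    simp
  · intro t ht
    rw [eta_word, List.count_eq_zero_of_not_mem (fun h => ht (List.mem_toFinset.2 h))]
    simp

/-- The set of walls separating `w` from the identity. -/
noncomputable def N (w : W) : Finset W := (exists_N cs w).choose

lemma card_N (w : W) : (N cs w).card = cs.length w := (exists_N cs w).choose_spec.1

lemma mem_N (w t : W) : t ∈ N cs w ↔ eta cs w t = 1 := by
  refine ⟨(exists_N cs w).choose_spec.2.1 t, fun h => ?_⟩
  by_contra h'
  rw [(exists_N cs w).choose_spec.2.2 t h'] at h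
  exact zero_ne_one h

open Classical in
/-- Indicator of the wall set. -/
noncomputable def ind (w t : W) : ℝ := if t ∈ N cs w then 1 else 0

lemma length_eq_sum (x y : W) (T : Finset W) (hx : N cs x ⊆ T) (hy : N cs y ⊆ T) :
    (cs.length (x⁻¹ * y) : ℝ) = ∑ t ∈ T, (ind cs x t - ind cs y t) ^ 2 := by
  classical
  have hz : ∀ a : ZMod 2, a = 0 ∨ a = 1 := by decide
  have h1 : ∀ t, x⁻¹ * t * x ∈ N cs (x⁻¹ * y) ↔ ¬ (t ∈ N cs x ↔ t ∈ N cs y) := by
    intro t
    have := eta_mul cs x (x⁻¹ * y) t
    rw [mul_inv_cancel_left] at this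
    rw [mem_N, mem_N, mem_N, this]
    rcases hz (eta cs x t) with h | h <;> rcases hz (eta cs (x⁻¹ * y) (x⁻¹ * t * x)) with h' | h' <;>
      rw [h, h'] <;> decide
  have h2 : ∀ t, (ind cs x t - ind cs y t) ^ 2 =
      if x⁻¹ * t * x ∈ N cs (x⁻¹ * y) then 1 else 0 := by
    intro t
    simp only [h1]
    unfold ind
    by_cases a : t ∈ N cs x <;> by_cases b : t ∈ N cs y <;> simp [a, b]
  simp only [h2]
  rw [sum_boole, ← card_N]
  congr 1
  symm
  refine card_bij (fun t _ => x⁻¹ * t * x) ?_ ?_ ?_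
  · intro t ht
    exact (mem_filter.1 ht).2
  · intro a _ b _ h
    simpa using h
  · intro b hb
    have e : x⁻¹ * (x * b * x⁻¹) * x = b := by group
    refine ⟨x * b * x⁻¹, mem_filter.2 ⟨?_, by rw [e]; exact hb⟩, e⟩
    have := (h1 (x * b * x⁻¹)).1 (by rw [e]; exact hb)
    by_contra hT
    exact this ⟨fun h => absurd (hx h) hT, fun h => absurd (hy h) hT⟩

/-- The word metric of a Coxeter system is conditionally negative definite. -/
theorem cnd (F : Finset W) (c : W → ℝ) (hc : ∑ x ∈ F, c x = 0) :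
    ∑ x ∈ F, ∑ y ∈ F, c x * c y * (cs.length (x⁻¹ * y) : ℝ) ≤ 0 := by
  classical
  set T := F.biUnion (N cs)
  have hT : ∀ x ∈ F, N cs x ⊆ T := fun x hx => subset_biUnion_of_mem (N cs) hx
  have h1 : ∑ x ∈ F, ∑ y ∈ F, c x * c y * (cs.length (x⁻¹ * y) : ℝ) =
      ∑ t ∈ T, ∑ x ∈ F, ∑ y ∈ F, c x * c y * (ind cs x t - ind cs y t) ^ 2 := by
    symm
    rw [sum_comm]
    refine sum_congr rfl fun x hx => ?_
    rw [sum_comm]
    refine sum_congr rfl fun y hy => ?_
    rw [length_eq_sum cs x y T (hT x hx) (hT y hy), mul_sum]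
  rw [h1]
  refine sum_nonpos fun t _ => ?_
  have h2 : ∑ x ∈ F, ∑ y ∈ F, c x * c y * (ind cs x t - ind cs y t) ^ 2 =
      (∑ x ∈ F, c x * ind cs x t ^ 2) * (∑ y ∈ F, c y) +
        (∑ x ∈ F, c x) * (∑ y ∈ F, c y * ind cs y t ^ 2) -
        2 * ((∑ x ∈ F, c x * ind cs x t) * (∑ y ∈ F, c y * ind cs y t)) := by
    rw [sum_mul_sum, sum_mul_sum, sum_mul_sum, mul_sum, ← sum_add_distrib, ← sum_sub_distrib]
    refine sum_congr rfl fun x _ => ?_
    rw [mul_sum, ← sum_add_distrib, ← sum_sub_distrib]
    refine sum_congr rfl fun y _ => ?_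
    ring
  rw [h2, hc]
  nlinarith [mul_self_nonneg (∑ x ∈ F, c x * ind cs x t)]

end Pool.Agent.H98.Wall
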