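import Mathlib

/-! Two-sided linear bounds for a reversible averaging operator and a conditionally negative form. -/

namespace Pool.Agent.H98.Wall

open Finset

section Abstract

variable {V : Type*} [AddCommGroup V] [Module ℝ V] {B : Type*} [Fintype B]

/-- The data: a symmetric form, negative on the kernel of `ε`, with self-adjoint involutions. -/
structure Data (V : Type*) [AddCommGroup V] [Module ℝ V] (B : Type*) where
  form : V →ₗ[ℝ] V →ₗ[ℝ] ℝ
  eps : V →ₗ[ℝ] ℝ
  J : B → V →ₗ[ℝ] V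
  symm : ∀ a b, form a b = form b a
  adj : ∀ s a b, form (J s a) b = form a (J s b)
  inv : ∀ s a, J s (J s a) = a
  epsJ : ∀ s a, eps (J s a) = eps a
  neg : ∀ a, eps a = 0 → form a a ≤ 0

variable (D : Data V B) (μ : B → ℝ)

/-- The averaging operator. -/
noncomputable def Data.M : V →ₗ[ℝ] V := ∑ s, μ s • D.J s

lemma Data.M_apply (a : V) : D.M μ a = ∑ s, μ s • D.J s a := by
  simp [Data.M, LinearMap.sum_apply]

lemma Data.adjM (a b : V) : D.form (D.M μ a) b = D.form a (D.M μ b) := by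
  rw [D.M_apply, D.M_apply, map_sum, LinearMap.sum_apply, map_sum]
  refine sum_congr rfl fun s _ => ?_
  rw [map_smul, map_smul, LinearMap.smul_apply, D.adj]

lemma Data.epsM (h1 : ∑ s, μ s = 1) (a : V) : D.eps (D.M μ a) = D.eps a := by
  rw [D.M_apply, map_sum]
  simp only [map_smul, D.epsJ, smul_eq_mul]
  rw [← sum_mul, h1, one_mul]

/-- The energy of one generator. -/
def Data.d (s : B) (a : V) : ℝ := D.form a (D.J s a) - D.form a a

omit [Fintype B] in
lemma Data.d_nonneg (s : B) (a : V) : 0 ≤ D.d s a := by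
  have h := D.neg (a - D.J s a) (by rw [map_sub, D.epsJ, sub_self])
  simp only [map_sub, LinearMap.sub_apply] at h
  rw [D.adj s a a, D.adj s a (D.J s a), D.inv] at h
  unfold Data.d
  linarith

/-- `A n a = form a (M^n a) - form a a`. -/
noncomputable def Data.A (n : ℕ) (a : V) : ℝ := D.form a ((D.M μ)^[n] a) - D.form a a

lemma Data.A_one (h1 : ∑ s, μ s = 1) (a : V) : D.A μ 1 a = ∑ s, μ s * D.d s a := by
  unfold Data.A Data.d
  simp only [Function.iterate_one, mul_sub, sum_sub_distrib]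
  rw [← sum_mul, h1, one_mul, D.M_apply, map_sum]
  simp only [map_smul, smul_eq_mul]

lemma Data.A_step (n : ℕ) (a : V) :
    D.A μ (n + 2) a = D.A μ 2 a + D.A μ n (D.M μ a) := by
  unfold Data.A
  rw [D.adjM, D.adjM, Function.iterate_succ_apply' _ (n + 1), Function.iterate_succ_apply _ n]
  simp only [Function.iterate_succ_apply, Function.iterate_zero, id]
  ring

lemma Data.neg_one_add (h0 : ∀ s, 0 ≤ μ s) (h1 : ∑ s, μ s = 1) (m : V) (hm : D.eps m = 0) :
    D.form m m + D.form m (D.M μ m) ≤ 0 := by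
  have h2 : ∀ s, D.form m m + D.form m (D.J s m) ≤ 0 := by
    intro s
    have h := D.neg (m + D.J s m) (by rw [map_add, D.epsJ, hm, add_zero])
    simp only [map_add, LinearMap.add_apply] at h
    rw [D.adj s m m, D.adj s m (D.J s m), D.inv] at h
    linarith
  have : D.form m m + D.form m (D.M μ m) = ∑ s, μ s * (D.form m m + D.form m (D.J s m)) := by
    simp only [mul_add, sum_add_distrib]
    rw [← sum_mul, h1, one_mul, D.M_apply, map_sum]
    simp only [map_smul, smul_eq_mul]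
  rw [this]
  exact sum_nonpos fun s _ => mul_nonpos_of_nonneg_of_nonpos (h0 s) (h2 s)

lemma Data.ineq (h0 : ∀ s, 0 ≤ μ s) (h1 : ∑ s, μ s = 1) (a : V) :
    D.A μ 2 a ≤ 2 * D.A μ 1 a ∧ D.A μ 1 (D.M μ a) ≤ D.A μ 1 a ∧
      2 * D.A μ 1 ((1 / 2 : ℝ) • (a + D.M μ a)) ≤ D.A μ 2 a := by
  have hm : D.eps (D.M μ a - a) = 0 := by rw [map_sub, D.epsM μ h1, sub_self]
  have e1 := D.neg _ hm
  have e2 := D.neg_one_add μ h0 h1 _ hm
  unfold Data.A
  simp only [Function.iterate_succ_apply, Function.iterate_zero, id, map_sub, map_add, map_smul,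
    LinearMap.sub_apply, LinearMap.add_apply, LinearMap.smul_apply, D.adjM, smul_eq_mul] at *
  refine ⟨by linarith, by linarith, by linarith⟩

lemma Data.upper (h0 : ∀ s, 0 ≤ μ s) (h1 : ∑ s, μ s = 1) (n : ℕ) :
    ∀ a : V, D.A μ n a ≤ n * D.A μ 1 a := by
  induction n using Nat.twoStepInduction with
  | zero => intro a; simp [Data.A]
  | one => intro a; simp
  | more n ih _ =>
    intro a
    obtain ⟨i1, i2, -⟩ := D.ineq μ h0 h1 a
    have := ih (D.M μ a)
    have h3 : (n : ℝ) * D.A μ 1 (D.M μ a) ≤ n * D.A μ 1 a :=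
      mul_le_mul_of_nonneg_left i2 (Nat.cast_nonneg n)
    rw [D.A_step]
    push_cast
    linarith

lemma Data.lower (h0 : ∀ s, 0 ≤ μ s) (h1 : ∑ s, μ s = 1) (Φ : ℝ)
    (hΦ : ∀ a, D.eps a = 1 → Φ ≤ D.A μ 1 a) (n : ℕ) :
    ∀ a : V, D.eps a = 1 → n * Φ ≤ D.A μ n a := by
  induction n using Nat.twoStepInduction with
  | zero => intro a _; simp [Data.A]
  | one => intro a ha; simpa using hΦ a ha
  | more n ih _ =>
    intro a ha
    obtain ⟨-, -, i3⟩ := D.ineq μ h0 h1 a
    have := ih (D.M μ a) (by rw [D.epsM μ h1, ha])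
    have h4 := hΦ ((1 / 2 : ℝ) • (a + D.M μ a)) (by
      rw [map_smul, map_add, D.epsM μ h1, ha]; norm_num)
    rw [D.A_step]
    push_cast
    linarith

end Abstract

section Concrete

variable {W : Type*} [Group W] {B : Type*}

/-- The bilinear form attached to a length function. -/
noncomputable def lform (l : W → ℝ) : (W →₀ ℝ) →ₗ[ℝ] (W →₀ ℝ) →ₗ[ℝ] ℝ :=
  Finsupp.linearCombination ℝ fun x => Finsupp.linearCombination ℝ fun y => l (x⁻¹ * y)

lemma lform_single (l : W → ℝ) (x y : W) (a b : ℝ) :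
    lform l (Finsupp.single x a) (Finsupp.single y b) = a * b * l (x⁻¹ * y) := by
  simp [lform, Finsupp.linearCombination_single, mul_assoc]

lemma lform_apply (l : W → ℝ) (α β : W →₀ ℝ) :
    lform l α β = ∑ x ∈ α.support, ∑ y ∈ β.support, α x * β y * l (x⁻¹ * y) := by
  simp only [lform, Finsupp.linearCombination_apply, Finsupp.sum, LinearMap.sum_apply,
    LinearMap.smul_apply, smul_eq_mul, mul_sum, mul_assoc]

/-- Left translation. -/
noncomputable def Lt (g : W) : (W →₀ ℝ) →ₗ[ℝ] (W →₀ ℝ) := Finsupp.lmapDomain ℝ ℝ (g * ·)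

lemma Lt_single (g x : W) (a : ℝ) : Lt g (Finsupp.single x a) = Finsupp.single (g * x) a := by
  simp [Lt, Finsupp.lmapDomain_apply, Finsupp.mapDomain_single]

lemma Lt_mul (g h : W) (α : W →₀ ℝ) : Lt (g * h) α = Lt g (Lt h α) := by
  have : Lt (g * h) = (Lt g).comp (Lt h) := by
    refine Finsupp.lhom_ext fun x a => ?_
    simp [Lt_single, mul_assoc]
  rw [this]; rfl

lemma Lt_one (α : W →₀ ℝ) : Lt (1 : W) α = α := by
  have : Lt (1 : W) = LinearMap.id := by
    refine Finsupp.lhom_ext fun x a => ?_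
    simp [Lt_single]
  rw [this]; rfl

/-- Total mass. -/
noncomputable def mass : (W →₀ ℝ) →ₗ[ℝ] ℝ := Finsupp.linearCombination ℝ fun _ => (1 : ℝ)

omit [Group W] in
lemma mass_single (x : W) (a : ℝ) : mass (Finsupp.single x a) = a := by
  simp [mass]

omit [Group W] in
lemma mass_apply (α : W →₀ ℝ) : mass α = ∑ x ∈ α.support, α x := by
  simp [mass, Finsupp.linearCombination_apply, Finsupp.sum]

lemma mass_Lt (g : W) (α : W →₀ ℝ) : mass (Lt g α) = mass α := by
  have : mass.comp (Lt g) = mass := by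
    refine Finsupp.lhom_ext fun x a => ?_
    simp [Lt_single, mass_single]
  exact LinearMap.congr_fun this α

lemma lform_Lt (l : W → ℝ) (g : W) (α β : W →₀ ℝ) :
    lform l (Lt g α) β = lform l α (Lt g⁻¹ β) := by
  induction α using Finsupp.induction_linear with
  | zero => simp
  | add a b ha hb => simp only [map_add, LinearMap.add_apply, ha, hb]
  | single x a =>
    induction β using Finsupp.induction_linear with
    | zero => simp
    | add a b ha hb => simp only [map_add, ha, hb]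
    | single y b => simp [Lt_single, lform_single, mul_assoc]

lemma lform_symm (l : W → ℝ) (hl : ∀ g, l g⁻¹ = l g) (α β : W →₀ ℝ) :
    lform l α β = lform l β α := by
  rw [lform_apply, lform_apply, sum_comm]
  refine sum_congr rfl fun y _ => sum_congr rfl fun x _ => ?_
  rw [← hl, mul_inv_rev, inv_inv]
  ring

lemma lform_Lt_apply (l : W → ℝ) (g : W) (α β : W →₀ ℝ) :
    lform l α (Lt g β) = ∑ x ∈ α.support, ∑ y ∈ β.support, α x * β y * l (x⁻¹ * g * y) := by
  conv_lhs => rw [← α.sum_single, ← β.sum_single]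
  simp only [Finsupp.sum, map_sum, LinearMap.sum_apply, Lt_single, lform_single, mul_assoc]
  rw [sum_comm]

/-- `l g ≤ form ν (g ν) + C`. -/
lemma le_form (l : W → ℝ) (hl : ∀ g, l g⁻¹ = l g) (hs : ∀ g h, l (g * h) ≤ l g + l h)
    (ν : W →₀ ℝ) (hν : mass ν = 1) : ∃ C : ℝ, ∀ g, l g ≤ lform l ν (Lt g ν) + C := by
  refine ⟨∑ x ∈ ν.support, ∑ y ∈ ν.support, |ν x * ν y| * (l x + l y), fun g => ?_⟩
  have h1 : l g = ∑ x ∈ ν.support, ∑ y ∈ ν.support, ν x * ν y * l g := by
    simp only [← sum_mul, ← mul_sum]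
    rw [← mass_apply, hν]
    ring
  rw [lform_Lt_apply, h1, ← sum_add_distrib]
  refine sum_le_sum fun x _ => ?_
  rw [← sum_add_distrib]
  refine sum_le_sum fun y _ => ?_
  have a1 : l (x⁻¹ * g * y) ≤ l x + l g + l y := by
    have := hs (x⁻¹ * g) y
    have := hs x⁻¹ g
    rw [hl] at this
    linarith
  have a2 : l g ≤ l x + l (x⁻¹ * g * y) + l y := by
    have h2 := hs (x * (x⁻¹ * g * y)) y⁻¹
    have h3 := hs x (x⁻¹ * g * y)
    rw [hl, show x * (x⁻¹ * g * y) * y⁻¹ = g by group] at h2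
    linarith
  have a3 : |l g - l (x⁻¹ * g * y)| ≤ l x + l y := abs_le.2 ⟨by linarith, by linarith⟩
  have a4 : ν x * ν y * (l g - l (x⁻¹ * g * y)) ≤ |ν x * ν y| * (l x + l y) :=
    (le_abs_self _).trans (by
      rw [abs_mul]
      exact mul_le_mul_of_nonneg_left a3 (abs_nonneg _))
  linarith

/-- The data attached to a conditionally negative length and involutive generators. -/
noncomputable def data (l : W → ℝ) (hl : ∀ g, l g⁻¹ = l g)
    (hn : ∀ (F : Finset W) (c : W → ℝ), ∑ x ∈ F, c x = 0 →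
      ∑ x ∈ F, ∑ y ∈ F, c x * c y * l (x⁻¹ * y) ≤ 0)
    (u : B → W) (hu : ∀ s, u s * u s = 1) : Data (W →₀ ℝ) B where
  form := lform l
  eps := mass
  J s := Lt (u s)
  symm := lform_symm l hl
  adj s a b := by rw [lform_Lt, inv_eq_of_mul_eq_one_right (hu s)]
  inv s a := by rw [← Lt_mul, hu, Lt_one]
  epsJ s a := mass_Lt _ _
  neg a ha := by
    rw [lform_apply]
    exact hn _ _ (by rw [← mass_apply, ha])

variable [Fintype B]

/-- One step of the walk acting on functions. -/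
noncomputable def P (u : B → W) (μ : B → ℝ) (f : W → ℝ) : W → ℝ := fun g => ∑ s, μ s * f (g * u s)

lemma P_mono (u : B → W) (μ : B → ℝ) (h0 : ∀ s, 0 ≤ μ s) (h1 : ∑ s, μ s = 1) (f f' : W → ℝ)
    (C : ℝ) (h : ∀ g, f g ≤ f' g + C) (n : ℕ) :
    ∀ g, (P u μ)^[n] f g ≤ (P u μ)^[n] f' g + C := by
  induction n with
  | zero => exact h
  | succ n ih =>
    intro g
    rw [Function.iterate_succ_apply', Function.iterate_succ_apply']
    have : C = ∑ s, μ s * C := by rw [← sum_mul, h1, one_mul]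
    rw [this, P, P, ← sum_add_distrib]
    refine sum_le_sum fun s _ => ?_
    rw [← mul_add]
    exact mul_le_mul_of_nonneg_left (ih _) (h0 s)

lemma P_form (l : W → ℝ) (hl) (hn) (u : B → W) (hu) (μ : B → ℝ) (ν : W →₀ ℝ) (n : ℕ) :
    ∀ g, (P u μ)^[n] (fun g => lform l ν (Lt g ν)) g =
      lform l ν (Lt g (((data l hl hn u hu).M μ)^[n] ν)) := by
  induction n with
  | zero => intro g; rfl
  | succ n ih =>
    intro g
    rw [Function.iterate_succ_apply', Function.iterate_succ_apply', P, Data.M_apply, map_sum,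
      map_sum]
    refine sum_congr rfl fun s _ => ?_
    rw [ih, map_smul, map_smul, smul_eq_mul, Lt_mul]
    rfl

/-- The energy of `ν` along the generator `s`. -/
noncomputable def en (l : W → ℝ) (g : W) (ν : W →₀ ℝ) : ℝ := lform l ν (Lt g ν) - lform l ν ν

theorem bounds (l : W → ℝ) (hl : ∀ g, l g⁻¹ = l g) (hs : ∀ g h, l (g * h) ≤ l g + l h)
    (hl1 : l 1 = 0)
    (hn : ∀ (F : Finset W) (c : W → ℝ), ∑ x ∈ F, c x = 0 →
      ∑ x ∈ F, ∑ y ∈ F, c x * c y * l (x⁻¹ * y) ≤ 0)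
    (u : B → W) (hu : ∀ s, u s * u s = 1) (μ : B → ℝ) (h0 : ∀ s, 0 ≤ μ s) (h1 : ∑ s, μ s = 1) :
    (∀ Φ : ℝ, (∀ ν, mass ν = 1 → Φ ≤ ∑ s, μ s * en l (u s) ν) →
      ∀ n : ℕ, n * Φ ≤ (P u μ)^[n] l 1) ∧
    ∀ ν, mass ν = 1 → ∃ C : ℝ, ∀ n : ℕ, (P u μ)^[n] l 1 ≤ n * (∑ s, μ s * en l (u s) ν) + C := by
  set D := data l hl hn u hu
  have hA : ∀ ν, D.A μ 1 ν = ∑ s, μ s * en l (u s) ν := fun ν => D.A_one μ h1 ν
  have hP : ∀ ν n, (P u μ)^[n] (fun g => lform l ν (Lt g ν)) 1 = D.A μ n ν + lform l ν ν := by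
    intro ν n
    rw [P_form l hl hn u hu, Lt_one]
    unfold Data.A
    change _ = lform l ν _ - lform l ν ν + _
    ring
  refine ⟨fun Φ hΦ n => ?_, fun ν hν => ?_⟩
  · have := D.lower μ h0 h1 Φ (fun a ha => by rw [hA]; exact hΦ a ha) n
      (Finsupp.single 1 1) (mass_single _ _)
    have h2 := hP (Finsupp.single 1 1) n
    simp only [Lt_single, lform_single, inv_one, mul_one, one_mul, hl1, add_zero] at h2
    rw [← h2] at this
    exact this
  · obtain ⟨C, hC⟩ := le_form l hl hs ν hν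
    refine ⟨lform l ν ν + C, fun n => ?_⟩
    have h2 := P_mono u μ h0 h1 l _ C hC n 1
    rw [hP] at h2
    have h3 := D.upper μ h0 h1 n ν
    rw [hA] at h3
    linarith

omit [Fintype B] in
lemma en_nonneg (l : W → ℝ) (hl : ∀ g, l g⁻¹ = l g)
    (hn : ∀ (F : Finset W) (c : W → ℝ), ∑ x ∈ F, c x = 0 →
      ∑ x ∈ F, ∑ y ∈ F, c x * c y * l (x⁻¹ * y) ≤ 0)
    (u : B → W) (hu : ∀ s, u s * u s = 1) (s : B) (ν : W →₀ ℝ) : 0 ≤ en l (u s) ν :=
  (data l hl hn u hu).d_nonneg s ν

end Concrete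

end Pool.Agent.H98.Wall
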